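import Pool.Agent.AND.Good
import Pool.Agent.ANT.Defs
import Pool.Agent.Kin.Hdiag

/-! # AND / StartTop: [START], the homogeneous medium at level `0` is self-consistent and good

`M0 d L s ζ` = all sites active, variance `s`, diagonal `-ζ`, so that `G_xy = Mx ζ (x - y)`.
`isMed_start`: it is the self-consistent medium of the profile `(lev = 0, act = univ, rd = ine = ∅)`.
`good_start`: `Good f t M0` as soon as the tolerances `t` dominate the numbers of `ANT.Start`. -/

open Matrix Finset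

noncomputable section

namespace Pool.Agent.AND

open Pool.Agent.Kin Pool.Agent.APS

variable {d L : ℕ} [NeZero L]

/-- the free Green function -/
theorem rsc_free {ζ : ℂ} (hζ : 0 < ζ.im) (x y : Tor d L) :
    rsc (H0T d L) (fun _ => -ζ) x y = Mx ζ (x - y) := by
  rw [← res_H0T ζ hζ x y]
  have h : (H0T d L + diagonal fun _ : Tor d L => -ζ) = H0T d L +
      diagonal (fun _ : Tor d L => (((0 : ℝ)) : ℂ)) -
        ζ • (1 : Matrix (Tor d L) (Tor d L) ℂ) := by
    ext i j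
    by_cases hij : i = j
    · subst hij
      simp [sub_eq_add_neg]
    · simp [hij]
  unfold rsc res
  rw [h]

theorem unit_free {ζ : ℂ} (hζ : 0 < ζ.im) :
    IsUnit (H0T d L + diagonal fun _ : Tor d L => -ζ).det :=
  rsc_unit H0T_realSym fun _ => by
    rw [Complex.neg_im]
    linarith

/-- the homogeneous medium -/
def M0 (d L : ℕ) [NeZero L] (s : ℝ) (ζ : ℂ) : Med (Tor d L) where
  A := univ
  U := ∅
  I := ∅
  k := fun _ => s
  b := fun _ => -ζ

/-- the initial profile -/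
def pi0 (d L : ℕ) [NeZero L] (sg : Tor d L → ℂ) : Prof (Tor d L) where
  lev := fun _ => 0
  act := univ
  rd := ∅
  ine := ∅
  sg := sg

variable {E η s : ℝ} {g0 ζ : ℂ} {e c1 C1 C : ℝ}

/-- the homogeneous medium is the self-consistent medium of the initial profile -/
theorem isMed_start (S : ANT.Start d L E η s g0 e c1 C1 C ζ) (hc1 : 0 < c1) {X : Type} {Y : Sys X}
    (sg : Tor d L → ℂ) (v : Tor d L → X) {h0 : ℝ} (hE : E = Y.E - h0) (hη : η = Y.eta)
    (hh : ∀ x, Y.hh 0 (v x) = h0) (hk : ∀ x, Y.kk 0 (v x) = s) :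
    IsMed (H0T d L) Y (pi0 d L sg) v (M0 d L s ζ) where
  A := rfl
  U := rfl
  I := rfl
  k := by
    funext x
    simp [M0, kp, pi0, hk]
  b := by
    intro x
    have hG0 : rsc (H0T d L) (M0 d L s ζ).b x x = g0 := by
      show rsc (H0T d L) (fun _ => -ζ) x x = g0
      rw [rsc_free S.gam0, sub_self, ← S.fix]
    show -ζ = _
    rw [hG0]
    unfold cp kp pi0
    simp only [Finset.mem_univ, if_true, Finset.notMem_empty, if_false, or_false, hh, hk]
    rw [S.zeta, hE, hη]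
    push_cast
    ring
  unit := unit_free S.gam0
  pos := by
    intro x _
    show 0 < (rsc (H0T d L) (fun _ => -ζ) x x).im
    rw [rsc_free S.gam0, sub_self, ← S.fix]
    linarith [S.lo]

/-- the homogeneous medium is good -/
theorem good_start (S : ANT.Start d L E η s g0 e c1 C1 C ζ) (hc1 : 0 < c1) (hC : 1 ≤ C) {f : Fix}
    {t : Tol d L} (hf : f.g0 = g0) (hkl : t.kl ≤ s) (hk : s ≤ t.k) (het : t.eta = η)
    (hdel : ∀ x, 0 ≤ t.del x) (htau : ∀ x, C * ζ.im ^ (-(3 / 4) : ℝ) ≤ t.tau x)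
    (h3 : ∀ K ∈ t.Ks, ∃ al : ℝ, 0 ≤ al ∧ (∀ y, t.a K y = al) ∧
      ∀ y, al * C * √ζ.im ≤ g0.im * t.z K y)
    (hD0 : ∀ i x, t.D i x ≤ 1 / (C * ζ.im ^ (1 - 2 * e))) (hdl : ∀ x, ζ.im ^ (e / 4) ≤ t.dl x)
    (hC0 : ∀ i x, C / ζ.im ≤ t.C0 i x) (hg5 : ∀ x y, ‖Mx ζ (x - y)‖ ≤ t.g5 x y) :
    Good f t (M0 d L s ζ) := by
  have hζ := S.gam0
  have hg0 : 0 < g0.im := hc1.trans_le S.lo
  have hG : ∀ x y : Tor d L, rsc (H0T d L) (M0 d L s ζ).b x y = Mx ζ (x - y) := rsc_free hζ
  have hG0 : ∀ x : Tor d L, rsc (H0T d L) (M0 d L s ζ).b x x = g0 := by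
    intro x
    rw [hG, sub_self, ← S.fix]
  have hη : ∀ x, (M0 d L s ζ).eta x = ζ.im := by
    intro x
    show -(-ζ).im = ζ.im
    rw [Complex.neg_im, neg_neg]
  have hnr : (M0 d L s ζ).nr = univ := by
    show (∅ : Finset (Tor d L))ᶜ = univ
    exact Finset.compl_empty
  have hQ : ∀ u : Tor d L → ℝ, QF (H0T d L) (M0 d L s ζ) u = ANT.QT ζ ζ.im u := by
    intro u
    unfold QF ANT.QT
    rw [hnr]
    congr 1
    refine Finset.sum_congr rfl fun x _ => Finset.sum_congr rfl fun y _ => ?_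
    rw [hη, hη, hG]
    ring
  have hsum : ∀ (F : Tor d L → ℝ) (x : Tor d L), ∑ y, F (x - y) = ∑ y, F y := by
    intro F x
    exact Fintype.sum_equiv (Equiv.subLeft x) _ _ fun y => rfl
  have hsumc : ∀ (F : Tor d L → ℂ) (x : Tor d L), ∑ y, F (x - y) = ∑ y, F y := by
    intro F x
    exact Fintype.sum_equiv (Equiv.subLeft x) _ _ fun y => rfl
  have hDT : ∀ (w : Fin d → Tor d L → ℝ) (a : Tor d L → ℝ),
      DW w a = ∑ x, ∑ j, w j x * (a (x + Pi.single j 1) - a x) ^ 2 := by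
    intro w a
    unfold DW
    rw [Finset.sum_comm]
  refine ⟨?_, ?_, ?_, unit_free hζ, ?_, ?_, ?_, ?_, ?_, ?_, ?_, ?_, ?_, ?_, ?_, ?_, ?_, ?_⟩
  · exact Finset.disjoint_empty_right _
  · exact Finset.disjoint_empty_right _
  · exact Finset.disjoint_empty_right _
  · intro x hx
    exact absurd (Finset.mem_univ x) hx
  · intro x _
    exact hkl
  · intro x _
    exact hk
  · intro x hx
    exact absurd hx (Finset.notMem_empty x)
  · intro x _
    rw [hη, hG0, het, S.gam]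
    rfl
  · intro x hx
    exact absurd hx (Finset.notMem_empty x)
  · intro x hx
    exact absurd (Finset.mem_univ x) hx
  · intro x _
    rw [hη]
    exact S.gam1
  · intro x _
    rw [hG0, hf, sub_self, norm_zero]
    exact hdel x
  · intro x _
    have h1 : ∑ w ∈ (M0 d L s ζ).A, ‖rsc (H0T d L) (M0 d L s ζ).b x w‖ ^ 4 =
        ∑ y : Tor d L, ‖Mx ζ y‖ ^ 4 := by
      rw [← hsum (fun y => ‖Mx ζ y‖ ^ 4) x]
      exact Finset.sum_congr rfl fun y _ => by rw [hG]
    rw [h1]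
    exact S.t4.trans (htau x)
  · intro K hK x _
    obtain ⟨al, hal, ha, hz⟩ := h3 K hK
    have h1 : ∑ y ∈ (M0 d L s ζ).A, rsc (H0T d L) (M0 d L s ζ).b x y ^ 2 * (t.a K y : ℂ) =
        (∑ y : Tor d L, Mx ζ y ^ 2) * (al : ℂ) := by
      rw [← hsumc (fun y => Mx ζ y ^ 2) x, Finset.sum_mul]
      exact Finset.sum_congr rfl fun y _ => by rw [hG, ha]
    rw [h1, hnr, norm_mul, Complex.norm_real, Real.norm_eq_abs, abs_of_nonneg hal]
    have h2 : ∑ y, ‖rsc (H0T d L) (M0 d L s ζ).b x y‖ ^ 2 * (al * C * √ζ.im / g0.im) ≤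
        ∑ y, ‖rsc (H0T d L) (M0 d L s ζ).b x y‖ ^ 2 * t.z K y := by
      refine Finset.sum_le_sum fun y _ => mul_le_mul_of_nonneg_left ?_ (by positivity)
      rw [div_le_iff₀ hg0]
      linarith [hz y]
    refine le_trans ?_ h2
    have h4 : ∑ y, ‖rsc (H0T d L) (M0 d L s ζ).b x y‖ ^ 2 = g0.im / ζ.im := by
      rw [← S.ward, ← hsum (fun y => ‖Mx ζ y‖ ^ 2) x]
      exact Finset.sum_congr rfl fun y _ => by rw [hG]
    rw [← Finset.sum_mul, h4]
    have h5 : ζ.im = √ζ.im * √ζ.im := (Real.mul_self_sqrt hζ.le).symm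
    have h6 : 0 < √ζ.im := Real.sqrt_pos.2 hζ
    have h7 : g0.im / ζ.im * (al * C * √ζ.im / g0.im) = C / √ζ.im * al := by
      rw [h5]
      have : √(√ζ.im * √ζ.im) = √ζ.im := by rw [Real.sqrt_mul_self h6.le]
      rw [this]
      field_simp
    rw [h7]
    exact mul_le_mul_of_nonneg_right S.sq hal
  · intro u
    obtain ⟨a, ha⟩ := S.low u
    refine ⟨a, ?_⟩
    rw [hQ]
    refine le_trans (add_le_add ?_ ?_) ha
    · rw [hDT]
      unfold ANT.DT
      rw [Finset.sum_div]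
      refine Finset.sum_le_sum fun x _ => ?_
      rw [Finset.sum_div]
      refine Finset.sum_le_sum fun j _ => ?_
      have := mul_le_mul_of_nonneg_right (hD0 j x) (sq_nonneg (a (x + Pi.single j 1) - a x))
      calc _ ≤ 1 / (C * ζ.im ^ (1 - 2 * e)) * (a (x + Pi.single j 1) - a x) ^ 2 := this
        _ = _ := by ring
    · rw [hnr, Finset.mul_sum]
      refine Finset.sum_le_sum fun x _ => ?_
      rw [hη, hG0]
      have h1 : 0 < ζ.im ^ (e / 4) := Real.rpow_pos_of_pos hζ _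
      rw [div_mul_eq_mul_div]
      refine div_le_div_of_nonneg_left ?_ (by positivity) ?_
      · positivity
      · linarith [hdl x]
  · intro a
    rw [hQ, hDT]
    refine (S.up a).trans ?_
    unfold ANT.DT
    rw [Finset.mul_sum]
    refine Finset.sum_le_sum fun x _ => ?_
    rw [Finset.mul_sum]
    exact Finset.sum_le_sum fun j _ => mul_le_mul_of_nonneg_right (hC0 j x) (sq_nonneg _)
  · intro x y _ _
    rw [hG]
    exact hg5 x y

/-- the two sup distances of the torus agree -/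
theorem tn_sub (x y : Tor d L) : ANT.tn (x - y) = ANM.td x y := rfl

/-- initial bound of the entries -/
def g50 (d L : ℕ) (Lm C γ : ℝ) (x y : Tor d L) : ℝ :=
  min Lm (√(C / γ) * Real.exp (-(γ / (8 * d) * ANM.td x y)))

theorem start_g5 (S : ANT.Start d L E η s g0 e c1 C1 C ζ) (hC : 1 ≤ C) {Lm : ℝ}
    (hM : ∀ x : Tor d L, ‖Mx ζ x‖ ≤ Lm) (x y : Tor d L) :
    ‖Mx ζ (x - y)‖ ≤ g50 d L Lm C ζ.im x y := by
  have hζ := S.gam0
  refine le_min (hM _) ?_
  have h1 := S.ct (x - y)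
  rw [tn_sub] at h1
  have h2 : C / ζ.im * Real.exp (-(ζ.im / (4 * d) * ANM.td x y)) =
      (√(C / ζ.im) * Real.exp (-(ζ.im / (8 * d) * ANM.td x y))) ^ 2 := by
    rw [mul_pow, Real.sq_sqrt (by positivity), ← Real.exp_nat_mul]
    congr 2
    push_cast
    ring
  rw [h2] at h1
  exact le_of_pow_le_pow_left₀ (by norm_num) (by positivity) h1

end Pool.Agent.AND
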