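import Pool.Agent.AND.UseH3

/-! # AND H3A: the weights of (H3), uniform law (Part A) and general form (Part B); updates

One row: `g = G_x.`, `g' = G'_x.` (old and new medium), `A' ⊆ A`, `X' ⊆ X` (active, non-read sites).

* `h3_trans` : `|∑_A g² a| ≤ ∑_X |g|² z + T0`, `z' ≥ z + 1_(A ∩ X' \ A') a' + e` on `X'` and
  `T0 + h3err ≤ ∑_X' |g'|² e` give `|∑_A' g'² a'| ≤ ∑_X' |g'|² z'`.
* `h3err_le` : bound of `h3err` by the row distance, the relative change of the weights and the mass on `X \ X'`.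
* `h3_low`, `h3_low_diag` : lower bounds of `∑_X' |g'|² e`.
* `aB`, `zB` : the pair (Part A: `phi = om = 1`, `al = err / kl`, `be = err`); `uB` = its error part, `uB_mono`, `uB_add`, `uB_low`
  (the absorption property `e ≥ c η / k`); `h3In_B` : criterion for `Tol.In.h3`, `h3In_A` : Part A.
* `h3_update` : update of (H3) in one row for every kind of change of the medium (step, freezing, annulus, content).
-/

open Matrix Finset

noncomputable section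

namespace Pool.Agent.AND

open Pool.Agent.Kin Pool.Agent.APS

section row

variable {T : Type} [Fintype T] [DecidableEq T]

/-- the errors of (H3) in one row when the medium changes -/
def h3err (g g' : T → ℂ) (A X X' : Finset T) (a a' z : T → ℝ) : ℝ :=
  ∑ y ∈ A ∩ X', ‖g' y ^ 2 * (a' y : ℂ) - g y ^ 2 * (a y : ℂ)‖ +
    ∑ y ∈ X', |‖g' y‖ ^ 2 - ‖g y‖ ^ 2| * z y +
    ∑ y ∈ X \ X', ‖g y‖ ^ 2 * (z y + if y ∈ A then a y else 0)

theorem h3_trans (g g' : T → ℂ) (A A' X X' : Finset T) (a a' z z' e : T → ℝ) (T0 : ℝ)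
    (hA : A' ⊆ A) (hX : X' ⊆ X) (hAX : A ⊆ X) (hAX' : A' ⊆ X')
    (ha : ∀ y ∈ A, 0 ≤ a y) (ha' : ∀ y ∈ A, y ∈ X' → 0 ≤ a' y) (hz0 : ∀ y ∈ X, 0 ≤ z y)
    (h3 : ‖∑ y ∈ A, g y ^ 2 * (a y : ℂ)‖ ≤ ∑ y ∈ X, ‖g y‖ ^ 2 * z y + T0)
    (hz : ∀ y ∈ X', z y + (if y ∈ A ∧ y ∉ A' then a' y else 0) + e y ≤ z' y)
    (he : T0 + h3err g g' A X X' a a' z ≤ ∑ y ∈ X', ‖g' y‖ ^ 2 * e y) :
    ‖∑ y ∈ A', g' y ^ 2 * (a' y : ℂ)‖ ≤ ∑ y ∈ X', ‖g' y‖ ^ 2 * z' y := by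
  -- split the sums
  have s1 : ∑ y ∈ A', g' y ^ 2 * (a' y : ℂ) + ∑ y ∈ (A ∩ X') \ A', g' y ^ 2 * (a' y : ℂ) =
      ∑ y ∈ A ∩ X', g' y ^ 2 * (a' y : ℂ) := by
    have hsub : A' ⊆ A ∩ X' := fun y hy => Finset.mem_inter.2 ⟨hA hy, hAX' hy⟩
    rw [add_comm]
    exact Finset.sum_sdiff hsub
  have s2 : ∑ y ∈ A ∩ X', g y ^ 2 * (a y : ℂ) + ∑ y ∈ A \ X', g y ^ 2 * (a y : ℂ) =
      ∑ y ∈ A, g y ^ 2 * (a y : ℂ) := Finset.sum_inter_add_sum_sdiff A X' _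
  have s3 : ∑ y ∈ A ∩ X', g' y ^ 2 * (a' y : ℂ) = ∑ y ∈ A ∩ X', g y ^ 2 * (a y : ℂ) +
      ∑ y ∈ A ∩ X', (g' y ^ 2 * (a' y : ℂ) - g y ^ 2 * (a y : ℂ)) := by
    rw [← Finset.sum_add_distrib]
    exact Finset.sum_congr rfl fun y _ => by ring
  have e1 : ∑ y ∈ A', g' y ^ 2 * (a' y : ℂ) =
      ∑ y ∈ A, g y ^ 2 * (a y : ℂ) - ∑ y ∈ A \ X', g y ^ 2 * (a y : ℂ) +
        ∑ y ∈ A ∩ X', (g' y ^ 2 * (a' y : ℂ) - g y ^ 2 * (a y : ℂ)) -
        ∑ y ∈ (A ∩ X') \ A', g' y ^ 2 * (a' y : ℂ) := by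
    linear_combination s1 + s3 + s2
  have n1 : ‖∑ y ∈ A', g' y ^ 2 * (a' y : ℂ)‖ ≤
      ‖∑ y ∈ A, g y ^ 2 * (a y : ℂ)‖ + ‖∑ y ∈ A \ X', g y ^ 2 * (a y : ℂ)‖ +
        ‖∑ y ∈ A ∩ X', (g' y ^ 2 * (a' y : ℂ) - g y ^ 2 * (a y : ℂ))‖ +
        ‖∑ y ∈ (A ∩ X') \ A', g' y ^ 2 * (a' y : ℂ)‖ := by
    rw [e1]
    refine (norm_sub_le _ _).trans ?_
    refine add_le_add ((norm_add_le _ _).trans ?_) le_rfl
    exact add_le_add (norm_sub_le _ _) le_rfl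
  have n2 : ‖∑ y ∈ A \ X', g y ^ 2 * (a y : ℂ)‖ ≤ ∑ y ∈ A \ X', ‖g y‖ ^ 2 * a y := by
    refine (norm_sum_le _ _).trans (Finset.sum_le_sum fun y hy => ?_)
    rw [norm_mul, norm_pow, Complex.norm_real, Real.norm_eq_abs,
      abs_of_nonneg (ha y (Finset.mem_sdiff.1 hy).1)]
  have n3 : ‖∑ y ∈ (A ∩ X') \ A', g' y ^ 2 * (a' y : ℂ)‖ ≤
      ∑ y ∈ (A ∩ X') \ A', ‖g' y‖ ^ 2 * a' y := by
    refine (norm_sum_le _ _).trans (Finset.sum_le_sum fun y hy => ?_)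
    have h1 := Finset.mem_inter.1 (Finset.mem_sdiff.1 hy).1
    rw [norm_mul, norm_pow, Complex.norm_real, Real.norm_eq_abs,
      abs_of_nonneg (ha' y h1.1 h1.2)]
  have n4 : ‖∑ y ∈ A ∩ X', (g' y ^ 2 * (a' y : ℂ) - g y ^ 2 * (a y : ℂ))‖ ≤
      ∑ y ∈ A ∩ X', ‖g' y ^ 2 * (a' y : ℂ) - g y ^ 2 * (a y : ℂ)‖ := norm_sum_le _ _
  -- the right side
  have r1 : ∑ y ∈ X', ‖g y‖ ^ 2 * z y + ∑ y ∈ X \ X', ‖g y‖ ^ 2 * z y =
      ∑ y ∈ X, ‖g y‖ ^ 2 * z y := by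
    rw [add_comm]
    exact Finset.sum_sdiff hX
  have r2 : ∑ y ∈ X', ‖g y‖ ^ 2 * z y ≤ ∑ y ∈ X', ‖g' y‖ ^ 2 * z y +
      ∑ y ∈ X', |‖g' y‖ ^ 2 - ‖g y‖ ^ 2| * z y := by
    rw [← Finset.sum_add_distrib]
    refine Finset.sum_le_sum fun y hy => ?_
    have h1 := neg_abs_le (‖g' y‖ ^ 2 - ‖g y‖ ^ 2)
    have h2 := hz0 y (hX hy)
    nlinarith
  have r3 : ∑ y ∈ X \ X', ‖g y‖ ^ 2 * (z y + if y ∈ A then a y else 0) =
      ∑ y ∈ X \ X', ‖g y‖ ^ 2 * z y + ∑ y ∈ A \ X', ‖g y‖ ^ 2 * a y := by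
    have h1 : ∑ y ∈ A \ X', ‖g y‖ ^ 2 * a y =
        ∑ y ∈ X \ X', ‖g y‖ ^ 2 * (if y ∈ A then a y else 0) := by
      have h2 : A \ X' ⊆ X \ X' := Finset.sdiff_subset_sdiff hAX le_rfl
      rw [← Finset.sum_subset h2]
      · refine Finset.sum_congr rfl fun y hy => ?_
        rw [if_pos (Finset.mem_sdiff.1 hy).1]
      · intro y hy hy2
        have : y ∉ A := fun h => hy2 (Finset.mem_sdiff.2 ⟨h, (Finset.mem_sdiff.1 hy).2⟩)
        rw [if_neg this, mul_zero]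
    rw [h1, ← Finset.sum_add_distrib]
    exact Finset.sum_congr rfl fun y _ => by ring
  have r4 : ∑ y ∈ X', ‖g' y‖ ^ 2 * z y + ∑ y ∈ (A ∩ X') \ A', ‖g' y‖ ^ 2 * a' y +
      ∑ y ∈ X', ‖g' y‖ ^ 2 * e y ≤ ∑ y ∈ X', ‖g' y‖ ^ 2 * z' y := by
    have h1 : ∑ y ∈ (A ∩ X') \ A', ‖g' y‖ ^ 2 * a' y =
        ∑ y ∈ X', ‖g' y‖ ^ 2 * (if y ∈ A ∧ y ∉ A' then a' y else 0) := by
      have h2 : (A ∩ X') \ A' ⊆ X' := fun y hy =>
        (Finset.mem_inter.1 (Finset.mem_sdiff.1 hy).1).2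
      rw [← Finset.sum_subset h2]
      · refine Finset.sum_congr rfl fun y hy => ?_
        have h3 := Finset.mem_sdiff.1 hy
        rw [if_pos ⟨(Finset.mem_inter.1 h3.1).1, h3.2⟩]
      · intro y hy hy2
        have : ¬ (y ∈ A ∧ y ∉ A') := fun h =>
          hy2 (Finset.mem_sdiff.2 ⟨Finset.mem_inter.2 ⟨h.1, hy⟩, h.2⟩)
        rw [if_neg this, mul_zero]
    rw [h1, ← Finset.sum_add_distrib, ← Finset.sum_add_distrib]
    refine Finset.sum_le_sum fun y hy => ?_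
    have h2 := mul_le_mul_of_nonneg_left (hz y hy) (sq_nonneg ‖g' y‖)
    refine le_trans (le_of_eq ?_) h2
    ring
  have he' : T0 + (∑ y ∈ A ∩ X', ‖g' y ^ 2 * (a' y : ℂ) - g y ^ 2 * (a y : ℂ)‖ +
    ∑ y ∈ X', |‖g' y‖ ^ 2 - ‖g y‖ ^ 2| * z y +
    ∑ y ∈ X \ X', ‖g y‖ ^ 2 * (z y + if y ∈ A then a y else 0)) ≤
      ∑ y ∈ X', ‖g' y‖ ^ 2 * e y := he
  rw [r3] at he'
  linarith

/-- Cauchy-Schwarz in the form needed for `h3err_le` -/
theorem cs_row (X : Finset T) (w : T → ℝ) (hw : ∀ y ∈ X, 0 ≤ w y) (p q : T → ℝ)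
    (P Q : ℝ) (hP0 : 0 ≤ P) (hQ0 : 0 ≤ Q)
    (hP : ∑ y ∈ X, w y * p y ^ 2 ≤ P ^ 2) (hQ : ∑ y ∈ X, w y * q y ^ 2 ≤ Q ^ 2) :
    ∑ y ∈ X, w y * (p y * q y) ≤ P * Q := by
  have h1 := Finset.sum_mul_sq_le_sq_mul_sq X (fun y => √(w y) * p y) (fun y => √(w y) * q y)
  have h2 : ∑ y ∈ X, √(w y) * p y * (√(w y) * q y) = ∑ y ∈ X, w y * (p y * q y) := by
    refine Finset.sum_congr rfl fun y hy => ?_
    have := Real.mul_self_sqrt (hw y hy)
    calc √(w y) * p y * (√(w y) * q y) = (√(w y) * √(w y)) * (p y * q y) := by ring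
      _ = w y * (p y * q y) := by rw [this]
  have h3 : ∀ r : T → ℝ, ∑ y ∈ X, (√(w y) * r y) ^ 2 = ∑ y ∈ X, w y * r y ^ 2 := by
    intro r
    refine Finset.sum_congr rfl fun y hy => ?_
    rw [mul_pow, Real.sq_sqrt (hw y hy)]
  rw [h2, h3, h3] at h1
  have h4 : (∑ y ∈ X, w y * (p y * q y)) ^ 2 ≤ (P * Q) ^ 2 := by
    refine h1.trans ?_
    rw [mul_pow]
    refine mul_le_mul hP hQ ?_ (by positivity)
    exact Finset.sum_nonneg fun y hy => mul_nonneg (hw y hy) (sq_nonneg _)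
  exact le_of_sq_le_sq h4 (by positivity)
where
  le_of_sq_le_sq {u v : ℝ} (h : u ^ 2 ≤ v ^ 2) (hv : 0 ≤ v) : u ≤ v :=
    (le_abs_self u).trans (abs_le_of_sq_le_sq h hv |>.trans le_rfl)

/-- BOUND OF THE ERRORS: `a, a', z ≤ B η`, `|a' - a| ≤ μ B η'` on `X'`; `∑_X' η |g' - g|² ≤ θ²`,
`∑_X' η |g|² ≤ I²`, `∑_X' η |g'|² ≤ I'²`, `∑_(X \ X') η |g|² ≤ p`. -/
theorem h3err_le (g g' : T → ℂ) (A X X' : Finset T) (a a' z η : T → ℝ)
    (B μ θ I I' p : ℝ) (hX : X' ⊆ X) (hB : 0 ≤ B) (hμ : 0 ≤ μ) (hθ : 0 ≤ θ) (hI : 0 ≤ I)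
    (hI' : 0 ≤ I')
    (hη : ∀ y ∈ X, 0 ≤ η y)
    (ha0 : ∀ y ∈ A, 0 ≤ a y) (ha : ∀ y ∈ A, a y ≤ B * η y)
    (hz0 : ∀ y ∈ X, 0 ≤ z y) (hz : ∀ y ∈ X, z y ≤ B * η y)
    (haa : ∀ y ∈ A, y ∈ X' → |a' y - a y| ≤ μ * (B * η y))
    (hθs : ∑ y ∈ X', η y * ‖g' y - g y‖ ^ 2 ≤ θ ^ 2)
    (hIs : ∑ y ∈ X', η y * ‖g y‖ ^ 2 ≤ I ^ 2)
    (hIs' : ∑ y ∈ X', η y * ‖g' y‖ ^ 2 ≤ I' ^ 2)
    (hp : ∑ y ∈ X \ X', η y * ‖g y‖ ^ 2 ≤ p) :
    h3err g g' A X X' a a' z ≤ B * (2 * (θ * (I + I')) + μ * I' ^ 2 + 2 * p) := by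
  have hηX' : ∀ y ∈ X', 0 ≤ η y := fun y hy => hη y (hX hy)
  -- the basic sum
  have c1 : ∑ y ∈ X', η y * (‖g' y - g y‖ * ‖g y‖) ≤ θ * I :=
    cs_row X' η hηX' _ _ θ I hθ hI hθs hIs
  have c2 : ∑ y ∈ X', η y * (‖g' y - g y‖ * ‖g' y‖) ≤ θ * I' :=
    cs_row X' η hηX' _ _ θ I' hθ hI' hθs hIs'
  have c3 : ∑ y ∈ X', η y * (‖g' y - g y‖ * (‖g y‖ + ‖g' y‖)) ≤ θ * (I + I') := by
    have : ∑ y ∈ X', η y * (‖g' y - g y‖ * (‖g y‖ + ‖g' y‖)) =
        ∑ y ∈ X', η y * (‖g' y - g y‖ * ‖g y‖) + ∑ y ∈ X', η y * (‖g' y - g y‖ * ‖g' y‖) := by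
      rw [← Finset.sum_add_distrib]
      exact Finset.sum_congr rfl fun y _ => by ring
    rw [this]
    linarith
  -- first sum
  have t1 : ∑ y ∈ A ∩ X', ‖g' y ^ 2 * (a' y : ℂ) - g y ^ 2 * (a y : ℂ)‖ ≤
      B * (θ * (I + I') + μ * I' ^ 2) := by
    have h1 : ∀ y ∈ A ∩ X', ‖g' y ^ 2 * (a' y : ℂ) - g y ^ 2 * (a y : ℂ)‖ ≤
        B * (η y * (‖g' y - g y‖ * (‖g y‖ + ‖g' y‖))) + μ * (B * (η y * ‖g' y‖ ^ 2)) := by
      intro y hy
      have hyA := (Finset.mem_inter.1 hy).1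
      have hyX := (Finset.mem_inter.1 hy).2
      have e1 : g' y ^ 2 * (a' y : ℂ) - g y ^ 2 * (a y : ℂ) =
          (g' y - g y) * (g y + g' y) * (a y : ℂ) + g' y ^ 2 * ((a' y - a y : ℝ) : ℂ) := by
        push_cast
        ring
      rw [e1]
      refine (norm_add_le _ _).trans (add_le_add ?_ ?_)
      · rw [norm_mul, norm_mul, Complex.norm_real, Real.norm_eq_abs, abs_of_nonneg (ha0 y hyA)]
        calc ‖g' y - g y‖ * ‖g y + g' y‖ * a y
            ≤ ‖g' y - g y‖ * (‖g y‖ + ‖g' y‖) * (B * η y) := by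
              refine mul_le_mul (mul_le_mul_of_nonneg_left (norm_add_le _ _) (norm_nonneg _))
                (ha y hyA) (ha0 y hyA) (by positivity)
          _ = B * (η y * (‖g' y - g y‖ * (‖g y‖ + ‖g' y‖))) := by ring
      · rw [norm_mul, norm_pow, Complex.norm_real, Real.norm_eq_abs]
        calc ‖g' y‖ ^ 2 * |a' y - a y| ≤ ‖g' y‖ ^ 2 * (μ * (B * η y)) :=
              mul_le_mul_of_nonneg_left (haa y hyA hyX) (sq_nonneg _)
          _ = μ * (B * (η y * ‖g' y‖ ^ 2)) := by ring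
    refine (Finset.sum_le_sum h1).trans ?_
    have h2 : ∑ y ∈ A ∩ X', (B * (η y * (‖g' y - g y‖ * (‖g y‖ + ‖g' y‖))) +
        μ * (B * (η y * ‖g' y‖ ^ 2))) ≤
        ∑ y ∈ X', (B * (η y * (‖g' y - g y‖ * (‖g y‖ + ‖g' y‖))) +
          μ * (B * (η y * ‖g' y‖ ^ 2))) := by
      refine Finset.sum_le_sum_of_subset_of_nonneg Finset.inter_subset_right ?_
      intro y hy _
      have := hηX' y hy
      positivity
    refine h2.trans ?_
    rw [Finset.sum_add_distrib, ← Finset.mul_sum, ← Finset.mul_sum, ← Finset.mul_sum]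
    have h3 := mul_le_mul_of_nonneg_left c3 hB
    have h4 := mul_le_mul_of_nonneg_left (mul_le_mul_of_nonneg_left hIs' hB) hμ
    nlinarith
  -- second sum
  have t2 : ∑ y ∈ X', |‖g' y‖ ^ 2 - ‖g y‖ ^ 2| * z y ≤ B * (θ * (I + I')) := by
    have h1 : ∀ y ∈ X', |‖g' y‖ ^ 2 - ‖g y‖ ^ 2| * z y ≤
        B * (η y * (‖g' y - g y‖ * (‖g y‖ + ‖g' y‖))) := by
      intro y hy
      have e1 : |‖g' y‖ ^ 2 - ‖g y‖ ^ 2| = |‖g' y‖ - ‖g y‖| * (‖g y‖ + ‖g' y‖) := by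
        rw [← abs_of_nonneg (show 0 ≤ ‖g y‖ + ‖g' y‖ by positivity), ← abs_mul]
        congr 1
        ring
      have e2 : |‖g' y‖ - ‖g y‖| ≤ ‖g' y - g y‖ := abs_norm_sub_norm_le _ _
      calc |‖g' y‖ ^ 2 - ‖g y‖ ^ 2| * z y
          = |‖g' y‖ - ‖g y‖| * (‖g y‖ + ‖g' y‖) * z y := by rw [e1]
        _ ≤ ‖g' y - g y‖ * (‖g y‖ + ‖g' y‖) * (B * η y) := by
          refine mul_le_mul (mul_le_mul_of_nonneg_right e2 (by positivity))
            (hz y (hX hy)) (hz0 y (hX hy)) (by positivity)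
        _ = B * (η y * (‖g' y - g y‖ * (‖g y‖ + ‖g' y‖))) := by ring
    refine (Finset.sum_le_sum h1).trans ?_
    rw [← Finset.mul_sum]
    exact mul_le_mul_of_nonneg_left c3 hB
  -- third sum
  have t3 : ∑ y ∈ X \ X', ‖g y‖ ^ 2 * (z y + if y ∈ A then a y else 0) ≤ B * (2 * p) := by
    have h1 : ∀ y ∈ X \ X', ‖g y‖ ^ 2 * (z y + if y ∈ A then a y else 0) ≤
        2 * B * (η y * ‖g y‖ ^ 2) := by
      intro y hy
      have hyX := (Finset.mem_sdiff.1 hy).1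
      have e1 : (if y ∈ A then a y else 0) ≤ B * η y := by
        by_cases h : y ∈ A
        · rw [if_pos h]; exact ha y h
        · rw [if_neg h]; exact mul_nonneg hB (hη y hyX)
      have e2 := hz y hyX
      have e3 : z y + (if y ∈ A then a y else 0) ≤ 2 * (B * η y) := by linarith
      refine (mul_le_mul_of_nonneg_left e3 (sq_nonneg _)).trans (le_of_eq ?_)
      ring
    refine (Finset.sum_le_sum h1).trans ?_
    rw [← Finset.mul_sum]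
    have := mul_le_mul_of_nonneg_left hp (show 0 ≤ 2 * B by positivity)
    linarith
  unfold h3err
  nlinarith

/-- LOWER BOUND of the absorbed mass, near rows: `e ≥ c p0 η'` on the near set `Y`. -/
theorem h3_low (g' : T → ℂ) (X' Y : Finset T) (e η' : T → ℝ) (c p0 io tl : ℝ)
    (hc : 0 ≤ c) (hp0 : 0 ≤ p0) (he0 : ∀ y ∈ X', 0 ≤ e y)
    (he : ∀ y ∈ X', y ∈ Y → c * p0 * η' y ≤ e y)
    (hw : io ≤ ∑ y ∈ X', η' y * ‖g' y‖ ^ 2)
    (ht : ∑ y ∈ X' \ Y, η' y * ‖g' y‖ ^ 2 ≤ tl) :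
    c * p0 * (io - tl) ≤ ∑ y ∈ X', ‖g' y‖ ^ 2 * e y := by
  have h1 : ∑ y ∈ X' ∩ Y, η' y * ‖g' y‖ ^ 2 + ∑ y ∈ X' \ Y, η' y * ‖g' y‖ ^ 2 =
      ∑ y ∈ X', η' y * ‖g' y‖ ^ 2 := Finset.sum_inter_add_sum_sdiff X' Y _
  have h2 : c * p0 * ∑ y ∈ X' ∩ Y, η' y * ‖g' y‖ ^ 2 ≤ ∑ y ∈ X' ∩ Y, ‖g' y‖ ^ 2 * e y := by
    rw [Finset.mul_sum]
    refine Finset.sum_le_sum fun y hy => ?_
    have h3 := Finset.mem_inter.1 hy
    have h4 := mul_le_mul_of_nonneg_left (he y h3.1 h3.2) (sq_nonneg ‖g' y‖)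
    refine le_trans (le_of_eq ?_) h4
    ring
  have h3 : ∑ y ∈ X' ∩ Y, ‖g' y‖ ^ 2 * e y ≤ ∑ y ∈ X', ‖g' y‖ ^ 2 * e y := by
    refine Finset.sum_le_sum_of_subset_of_nonneg Finset.inter_subset_left ?_
    intro y hy _
    exact mul_nonneg (sq_nonneg _) (he0 y hy)
  have h4 : io - tl ≤ ∑ y ∈ X' ∩ Y, η' y * ‖g' y‖ ^ 2 := by linarith
  have h5 := mul_le_mul_of_nonneg_left h4 (mul_nonneg hc hp0)
  linarith

/-- LOWER BOUND of the absorbed mass by the diagonal, far rows. -/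
theorem h3_low_diag (g' : T → ℂ) (X' : Finset T) (e : T → ℝ) (x : T) (hx : x ∈ X')
    (he0 : ∀ y ∈ X', 0 ≤ e y) : ‖g' x‖ ^ 2 * e x ≤ ∑ y ∈ X', ‖g' y‖ ^ 2 * e y :=
  Finset.single_le_sum (f := fun y => ‖g' y‖ ^ 2 * e y)
    (fun y hy => mul_nonneg (sq_nonneg _) (he0 y hy)) hx

end row

section pair

variable {d L : ℕ} [NeZero L]

/-- imaginary part of the diagonal -/
def io (M : Med (Tor d L)) (x : Tor d L) : ℝ := (rsc (H0T d L) M.b x x).im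

/-- weight of the left side of (H3); Part A: `phi = 1` -/
def aB (phi : Tor d L → ℝ) (M : Med (Tor d L)) (y : Tor d L) : ℝ :=
  if y ∈ M.A then phi y * io M y else 0

/-- the natural unit of the errors: `al` per unit of absorption of the non active part, `be` per unit of `om ι` -/
def uB (al be om : Tor d L → ℝ) (eta : ℝ) (M : Med (Tor d L)) (y : Tor d L) : ℝ :=
  al y * (if y ∈ M.A then eta else M.eta y) + be y * (om y * io M y)

/-- weight of the right side of (H3); Part A: `phi = om = 1`, `al = err / kl`, `be = err` -/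
def zB (phi om al be : Tor d L → ℝ) (eta : ℝ) (M : Med (Tor d L)) (y : Tor d L) : ℝ :=
  (if y ∈ M.A ∨ y ∈ M.I then 0 else phi y * io M y) + uB al be om eta M y

variable {f : Fix} {t : Tol d L} {M : Med (Tor d L)} {u : UTol}

theorem aB_nonneg {phi : Tor d L → ℝ} (h : ∀ y, y ∉ M.U → 0 ≤ io M y)
    (hp : ∀ y, y ∉ M.U → 0 ≤ phi y) (hd : Disjoint M.A M.U) (y : Tor d L) :
    0 ≤ aB phi M y := by
  unfold aB
  split_ifs with h1
  · have : y ∉ M.U := fun h2 => Finset.disjoint_left.1 hd h1 h2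
    exact mul_nonneg (hp y this) (h y this)
  · exact le_rfl

theorem uB_nonneg {al be om : Tor d L → ℝ} {eta : ℝ} {y : Tor d L} (h : 0 ≤ io M y)
    (hal : 0 ≤ al y) (hbe : 0 ≤ be y) (hom : 0 ≤ om y) (he : 0 ≤ eta) (hη : 0 ≤ M.eta y) :
    0 ≤ uB al be om eta M y := by
  unfold uB
  have : 0 ≤ (if y ∈ M.A then eta else M.eta y) := by
    split_ifs <;> assumption
  positivity

theorem zB_nonneg {phi om al be : Tor d L → ℝ} {eta : ℝ} {y : Tor d L} (h : 0 ≤ io M y)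
    (hp : 0 ≤ phi y)
    (hal : 0 ≤ al y) (hbe : 0 ≤ be y) (hom : 0 ≤ om y) (he : 0 ≤ eta) (hη : 0 ≤ M.eta y) :
    0 ≤ zB phi om al be eta M y := by
  unfold zB
  have h1 := uB_nonneg (M := M) (eta := eta) (y := y) h hal hbe hom he hη
  have : 0 ≤ (if y ∈ M.A ∨ y ∈ M.I then 0 else phi y * io M y) := by
    split_ifs
    · exact le_rfl
    · exact mul_nonneg hp h
  positivity

/-- monotonicity of the unit in the error fields (level changes, new errors) -/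
theorem uB_mono {al be al' be' om : Tor d L → ℝ} {eta : ℝ} {y : Tor d L} (h : 0 ≤ io M y)
    (hal : al y ≤ al' y) (hbe : be y ≤ be' y) (hom : 0 ≤ om y) (he : 0 ≤ eta)
    (hη : 0 ≤ M.eta y) : uB al be om eta M y ≤ uB al' be' om eta M y := by
  unfold uB
  have h1 : 0 ≤ (if y ∈ M.A then eta else M.eta y) := by
    split_ifs <;> assumption
  have h2 := mul_nonneg hom h
  exact add_le_add (mul_le_mul_of_nonneg_right hal h1) (mul_le_mul_of_nonneg_right hbe h2)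

/-- `uB` is additive in the error fields -/
theorem uB_add (al be al' be' om : Tor d L → ℝ) (eta : ℝ) (y : Tor d L) :
    uB (fun y => al y + al' y) (fun y => be y + be' y) om eta M y =
      uB al be om eta M y + uB al' be' om eta M y := by
  unfold uB
  ring

/-- ABSORPTION PROPERTY: one unit of the errors dominates the absorption -/
theorem uB_low {al be om : Tor d L → ℝ} {eta k c : ℝ} {y : Tor d L}
    (h : 0 ≤ io M y) (heta : 0 ≤ eta)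
    (hA : y ∈ M.A → M.eta y = eta + M.k y * io M y)
    (hal : c ≤ k * al y)
    (hbe : y ∈ M.A → c * M.k y ≤ k * (be y * om y))
    (hbe0 : 0 ≤ be y * om y) (hk : 0 ≤ k) (hη : 0 ≤ M.eta y) :
    c * M.eta y ≤ k * uB al be om eta M y := by
  unfold uB
  by_cases hyA : y ∈ M.A
  · rw [if_pos hyA, hA hyA]
    have h1 := mul_le_mul_of_nonneg_right hal heta
    have h2 := mul_le_mul_of_nonneg_right (hbe hyA) h
    nlinarith
  · rw [if_neg hyA]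
    have h1 := mul_le_mul_of_nonneg_right hal hη
    have h2 : 0 ≤ k * (be y * om y * io M y) := mul_nonneg hk (mul_nonneg hbe0 h)
    nlinarith

/-- CRITERION for `Tol.In.h3`, general form: `φ` = the number of `Tol.In.h3`, `θ` = ratio of the weight and of the level on the
active sites, `e1` = size of the errors. Part A: `φ = kl`, `phi = om = 1`, `al = err / kl`, `be = err`, `θ = 1/4`. -/
theorem h3In_B (hg : Good f t M) (hpos : ∀ y, y ∉ M.U → 0 ≤ io M y) (heta : 0 ≤ t.eta)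
    (K : ℕ) (hK : K ∈ t.Ks) (phi om al be : Tor d L → ℝ) (φ θ e1 : ℝ) (hφ : 0 < φ)
    (hst0 : 0 ≤ t.st) (hkl : 0 ≤ t.kl)
    (ha : ∀ y, t.a K y = aB phi M y) (hz : ∀ y, t.z K y = zB phi om al be t.eta M y)
    (hlo : ∀ y ∈ M.A, θ * M.k y ≤ φ * phi y) (hhi : ∀ y ∈ M.A, φ * phi y ≤ M.k y)
    (hal : ∀ y, y ∉ M.U → φ * al y ≤ e1)
    (hbeA : ∀ y ∈ M.A, φ * (be y * om y) ≤ e1 * M.k y)
    (hS : ∀ y, y ∉ M.A → y ∉ M.U → y ∉ M.I → φ * (phi y * io M y) ≤ 3 / 2 * M.eta y ∧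
      φ * (be y * (om y * io M y)) ≤ e1 * M.eta y)
    (hI : ∀ y ∈ M.I, be y * om y = 0)
    (he1 : 0 ≤ e1) (hθ : θ ≤ 2) (h1 : u.rho ≤ θ - e1) (h2 : u.rho ≤ 1 / 2 - 2 * e1) :
    ∃ K ∈ t.Ks, ∃ φ : ℝ, 0 < φ ∧ ∀ y, y ∉ M.U →
      φ * t.a K y ≤ M.k y * (rsc (H0T d L) M.b y y).im ∧
      2 * (M.k y * (rsc (H0T d L) M.b y y).im) - φ * t.a K y + φ * t.z K y ≤
        (2 - u.rho) * M.eta y := by
  refine ⟨K, hK, φ, hφ, fun y hy => ?_⟩
  change φ * t.a K y ≤ M.k y * io M y ∧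
      2 * (M.k y * io M y) - φ * t.a K y + φ * t.z K y ≤ (2 - u.rho) * M.eta y
  have hp := hpos y hy
  rw [ha, hz]
  unfold aB zB uB
  by_cases hyA : y ∈ M.A
  · have hη := hg.eA y hyA
    change M.eta y = t.eta + M.k y * io M y at hη
    rw [if_pos hyA, if_pos (Or.inl hyA), if_pos hyA]
    have a1 := mul_le_mul_of_nonneg_right (hhi y hyA) hp
    have a2 := mul_le_mul_of_nonneg_right (hlo y hyA) hp
    have a3 := mul_le_mul_of_nonneg_right (hal y hy) heta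
    have a4 := mul_le_mul_of_nonneg_right (hbeA y hyA) hp
    refine ⟨by linarith, ?_⟩
    rw [hη]
    have hk : 0 ≤ M.k y * io M y := mul_nonneg (hkl.trans (hg.klo y hyA)) hp
    have c1 := mul_nonneg (sub_nonneg.2 h1) hk
    have c2 : 0 ≤ (2 - u.rho - e1) * t.eta := mul_nonneg (by linarith) heta
    nlinarith
  · have hk := hg.k0 y hyA
    rw [if_neg hyA, hk]
    by_cases hyI : y ∈ M.I
    · rw [if_pos (Or.inr hyI), if_neg hyA]
      have hη := hg.eI y hyI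
      have b1 : be y * (om y * io M y) = 0 := by rw [← mul_assoc, hI y hyI, zero_mul]
      have b2 : 0 ≤ M.eta y := by rw [hη]; exact heta
      have b3 := mul_le_mul_of_nonneg_right (hal y hy) b2
      rw [b1]
      refine ⟨by simp, ?_⟩
      have b4 : u.rho ≤ 2 - e1 := by linarith
      nlinarith
    · have hη := hg.eS y hyA hy hyI
      have b2 : 0 ≤ M.eta y := by linarith
      rw [if_neg (not_or.2 ⟨hyA, hyI⟩), if_neg hyA]
      have b3 := mul_le_mul_of_nonneg_right (hal y hy) b2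
      obtain ⟨b4, b5⟩ := hS y hyA hy hyI
      refine ⟨by simp, ?_⟩
      nlinarith

/-- `Tol.In.h3` in Part A: `φ = kl ≥ k / 4`, `a = ι` on `A`, `z = 1_static ι + err (...)`, `err ≤ 1/16`, `rho = 1/8`. -/
theorem h3In_A (hg : Good f t M) (hpos : ∀ y, y ∉ M.U → 0 ≤ io M y) (heta : 0 ≤ t.eta)
    (hst : 0 ≤ t.st) (hkl : 0 < t.kl) (hk4 : t.k ≤ 4 * t.kl) (K : ℕ) (hK : K ∈ t.Ks)
    (err : Tor d L → ℝ) (he : ∀ y, y ∉ M.U → err y ≤ 1 / 16) (he0 : ∀ y, 0 ≤ err y)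
    (hI : M.I = ∅)
    (ha : ∀ y, t.a K y = aB (fun _ => 1) M y)
    (hz : ∀ y, t.z K y = zB (fun _ => 1) (fun _ => 1) (fun y => err y / t.kl) err t.eta M y)
    (hS : ∀ y, y ∉ M.A → y ∉ M.U → t.kl * io M y ≤ 3 / 2 * M.eta y)
    (hr : u.rho ≤ 1 / 8) :
    ∃ K ∈ t.Ks, ∃ φ : ℝ, 0 < φ ∧ ∀ y, y ∉ M.U →
      φ * t.a K y ≤ M.k y * (rsc (H0T d L) M.b y y).im ∧
      2 * (M.k y * (rsc (H0T d L) M.b y y).im) - φ * t.a K y + φ * t.z K y ≤
        (2 - u.rho) * M.eta y := by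
  have hAU : ∀ y ∈ M.A, y ∉ M.U := fun y h h' => Finset.disjoint_left.1 hg.AU h h'
  refine h3In_B hg hpos heta K hK (fun _ => 1) (fun _ => 1) (fun y => err y / t.kl) err t.kl
    (1 / 4) (1 / 8) hkl hst hkl.le ha hz (fun y hy => ?_) (fun y hy => ?_) (fun y hy => ?_)
    (fun y hy => ?_) (fun y hA hU _ => ⟨?_, ?_⟩) (fun y hy => ?_) (by norm_num) (by norm_num)
    (by linarith) (by linarith)
  · have := hg.khi y hy
    linarith
  · have := hg.klo y hy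
    linarith
  · have h1 := he y hy
    rw [mul_div_cancel₀ _ hkl.ne']
    linarith
  · have h1 := he y (hAU y hy)
    have h2 := he0 y
    have h3 := hg.klo y hy
    have h4 : t.kl * err y ≤ M.k y * err y := mul_le_mul_of_nonneg_right h3 h2
    have h5 : M.k y * err y ≤ M.k y * (1 / 16) :=
      mul_le_mul_of_nonneg_left h1 (hkl.le.trans h3)
    have h6 : 0 ≤ M.k y := hkl.le.trans h3
    linarith
  · rw [one_mul]; exact hS y hA hU
  · have h1 := hS y hA hU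
    have h2 := he0 y
    have h3 := he y hU
    have h4 := mul_le_mul_of_nonneg_left h1 h2
    have h5 : 0 ≤ M.eta y := by
      have := hg.eS y hA hU (by rw [hI]; simp)
      linarith
    have h6 := mul_le_mul_of_nonneg_right h3 h5
    nlinarith
  · rw [hI] at hy; simp at hy

/-- UPDATE OF (H3) in one row `x`: old medium `M` (frozen row `g`, tolerance `T0`), new medium `M'`; `phi`, `om` are the NEW class
weights; the error fields grow by `ph al0`, `ph be0`. Serves the step (`g` = the frozen reading), the freezing, the annulus, the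
content and the level change. -/
theorem h3_update {M M' : Med (Tor d L)} (phi om al be ph : Tor d L → ℝ) (eta al0 be0 : ℝ)
    (μ : Tor d L → ℝ) (g g' : Tor d L → ℂ) (T0 : ℝ)
    (hA : M'.A ⊆ M.A) (hU : M.U ⊆ M'.U) (hAU : Disjoint M.A M.U) (hAU' : Disjoint M'.A M'.U)
    (hAI : Disjoint M.A M.I)
    (hI1 : ∀ y ∈ M.I, y ∉ M'.U → y ∈ M'.I)
    (hI2 : ∀ y ∈ M'.I, y ∈ M.I ∨ (y ∈ M.A ∧ phi y = 0))
    (hpos : ∀ y, y ∉ M.U → 0 ≤ io M y) (hpos' : ∀ y, y ∉ M'.U → 0 ≤ io M' y)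
    (hη : ∀ y, y ∉ M.U → 0 ≤ M.eta y) (hη' : ∀ y, y ∉ M'.U → 0 ≤ M'.eta y)
    (heta : 0 ≤ eta)
    (hηs : ∀ y, y ∉ M'.U → y ∉ M.A → M.eta y ≤ M'.eta y)
    (hηn : ∀ y, y ∉ M'.U → y ∈ M.A → y ∉ M'.A → eta ≤ M'.eta y)
    (hphi : ∀ y, y ∉ M.U → 0 ≤ phi y) (hom : ∀ y, y ∉ M.U → 0 ≤ om y)
    (hal : ∀ y, y ∉ M.U → 0 ≤ al y) (hbe : ∀ y, y ∉ M.U → 0 ≤ be y)
    (hph : ∀ y, 0 ≤ ph y) (hal0 : 0 ≤ al0) (hbe0 : 0 ≤ be0)
    (hio : ∀ y, y ∉ M'.U → io M y ≤ (1 + μ y) * io M' y)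
    (h1 : ∀ y, y ∉ M'.U → be y * μ y ≤ 1 / 2 * (ph y * be0))
    (h2 : ∀ y, y ∉ M'.U → y ∉ M'.A → y ∉ M'.I → y ∉ M.A →
      phi y * (μ y * io M' y) ≤ 1 / 2 * (ph y * al0 * M'.eta y))
    (h3 : ‖∑ y ∈ M.A, g y ^ 2 * (aB phi M y : ℂ)‖ ≤
      ∑ y ∈ M.nr, ‖g y‖ ^ 2 * zB phi om al be eta M y + T0)
    (he : T0 + h3err g g' M.A M.nr M'.nr (aB phi M) (fun y => phi y * io M' y)
        (zB phi om al be eta M) ≤
      ∑ y ∈ M'.nr, ‖g' y‖ ^ 2 *
        (1 / 2 * uB (fun y => ph y * al0) (fun y => ph y * be0) om eta M' y)) :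
    ‖∑ y ∈ M'.A, g' y ^ 2 * (aB phi M' y : ℂ)‖ ≤
      ∑ y ∈ M'.nr, ‖g' y‖ ^ 2 *
        zB phi om (fun y => al y + ph y * al0) (fun y => be y + ph y * be0) eta M' y := by
  have memnr : ∀ (N : Med (Tor d L)) (y : Tor d L), y ∈ N.nr ↔ y ∉ N.U := fun N y =>
    Finset.mem_compl
  have e0 : ∑ y ∈ M'.A, g' y ^ 2 * (aB phi M' y : ℂ) =
      ∑ y ∈ M'.A, g' y ^ 2 * ((phi y * io M' y : ℝ) : ℂ) := by
    refine Finset.sum_congr rfl fun y hy => ?_
    rw [aB, if_pos hy]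
  rw [e0]
  have hd : ∀ y ∈ M.A, y ∉ M.U := fun y h h' => Finset.disjoint_left.1 hAU h h'
  have hd' : ∀ y ∈ M'.A, y ∉ M'.U := fun y h h' => Finset.disjoint_left.1 hAU' h h'
  refine h3_trans g g' M.A M'.A M.nr M'.nr (aB phi M) (fun y => phi y * io M' y)
    (zB phi om al be eta M) _
    (fun y => 1 / 2 * uB (fun y => ph y * al0) (fun y => ph y * be0) om eta M' y) T0 hA
    (fun y hy => ?_) (fun y hy => ?_) (fun y hy => ?_) (fun y hy => ?_) (fun y hy hyX => ?_)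
    (fun y hy => ?_) h3 (fun y hy => ?_) he
  · rw [memnr] at hy ⊢
    exact fun h => hy (hU h)
  · rw [memnr]; exact hd y hy
  · rw [memnr]; exact hd' y hy
  · exact aB_nonneg hpos hphi hAU y
  · rw [memnr] at hyX
    exact mul_nonneg (hphi y (hd y hy)) (hpos' y hyX)
  · rw [memnr] at hy
    exact zB_nonneg (hpos y hy) (hphi y hy) (hal y hy) (hbe y hy) (hom y hy) heta (hη y hy)
  · -- the pointwise inequality of the weights
    rw [memnr] at hy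
    have hyU : y ∉ M.U := fun h => hy (hU h)
    have p1 := hpos' y hy
    have p2 := hom y hyU
    have p3 := hbe y hyU
    have p4 := hphi y hyU
    have p5 := hal y hyU
    have p6 := hph y
    have p7 := hη' y hy
    have q1 : be y * (om y * io M y) ≤ be y * (om y * io M' y) +
        1 / 2 * (ph y * be0) * (om y * io M' y) := by
      have a1 := mul_le_mul_of_nonneg_left (hio y hy) (mul_nonneg p3 p2)
      have a2 := mul_le_mul_of_nonneg_right (h1 y hy) (mul_nonneg p2 p1)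
      nlinarith
    have q2 : uB (fun y => al y + ph y * al0) (fun y => be y + ph y * be0) om eta M' y =
        uB al be om eta M' y +
          uB (fun y => ph y * al0) (fun y => ph y * be0) om eta M' y :=
      uB_add al be (fun y => ph y * al0) (fun y => ph y * be0) om eta y
    have q3 : 0 ≤ ph y * al0 := mul_nonneg p6 hal0
    have q4 : 0 ≤ ph y * be0 * (om y * io M' y) :=
      mul_nonneg (mul_nonneg p6 hbe0) (mul_nonneg p2 p1)
    change zB phi om al be eta M y + (if y ∈ M.A ∧ y ∉ M'.A then phi y * io M' y else 0) +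
      1 / 2 * uB (fun y => ph y * al0) (fun y => ph y * be0) om eta M' y ≤
      zB phi om (fun y => al y + ph y * al0) (fun y => be y + ph y * be0) eta M' y
    unfold zB
    rw [q2]
    unfold uB
    by_cases hA' : y ∈ M'.A
    · have hyA := hA hA'
      rw [if_pos (Or.inl hyA), if_pos hyA,
        if_neg (show ¬ (y ∈ M.A ∧ y ∉ M'.A) from fun h => h.2 hA'), if_pos (Or.inl hA'),
        if_pos hA']
      have := mul_nonneg q3 heta
      nlinarith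
    · by_cases hyA : y ∈ M.A
      · have b1 := hηn y hy hyA hA'
        have b2 := mul_le_mul_of_nonneg_left b1 p5
        have b3 := mul_nonneg q3 p7
        rw [if_pos (Or.inl hyA), if_pos hyA, if_pos ⟨hyA, hA'⟩, if_neg hA']
        by_cases hI : y ∈ M'.I
        · rw [if_pos (Or.inr hI)]
          rcases hI2 y hI with h | h
          · exact absurd h (fun h => Finset.disjoint_left.1 hAI hyA h)
          · rw [h.2, zero_mul]
            nlinarith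
        · rw [if_neg (not_or.2 ⟨hA', hI⟩)]
          nlinarith
      · have b1 := hηs y hy hyA
        have b2 := mul_le_mul_of_nonneg_left b1 p5
        have b3 := mul_nonneg q3 p7
        rw [if_neg hyA, if_neg (show ¬ (y ∈ M.A ∧ y ∉ M'.A) from fun h => hyA h.1), if_neg hA']
        by_cases hI : y ∈ M.I
        · rw [if_pos (Or.inr hI), if_pos (Or.inr (hI1 y hI hy))]
          nlinarith
        · have hI' : y ∉ M'.I := by
            intro h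
            rcases hI2 y h with h' | h'
            · exact hI h'
            · exact hyA h'.1
          rw [if_neg (not_or.2 ⟨hyA, hI⟩), if_neg (not_or.2 ⟨hA', hI'⟩)]
          have c1 := h2 y hy hA' hI' hyA
          have c2 := mul_le_mul_of_nonneg_left (hio y hy) p4
          nlinarith

end pair

end Pool.Agent.AND
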