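import Pool.Agent.AND.Good
import Pool.Agent.ANI.Schur
import Pool.Agent.Kin.Hdiag

/-! # AND / Use: basic facts about every good medium (U3)

Abstract part (`Adm H b`, `X` = sites with absorption, `e x = -Im b x`, `e = 0` off `X`): Ward identity on `X`,
contraction, the form `QF`.  Then the same for `Good f t M` under `Tol.In` and the numerical relations `Num`,
and the bridge to the Schur complement `Heff` (helper75).
-/

open Matrix Finset

noncomputable section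

namespace Pool.Agent.AND

open Pool.Agent.Kin Pool.Agent.APS Pool.Agent.ANL

section abs

variable {ι : Type} [Fintype ι] [DecidableEq ι] {H : Matrix ι ι ℂ} {b : ι → ℂ} {X : Finset ι}

/-- Ward identity with the absorbing sites only -/
theorem wardX (h : Adm H b) (hX : ∀ x, x ∉ X → (b x).im = 0) (x : ι) :
    (rsc H b x x).im = ∑ y ∈ X, (-(b y).im) * ‖rsc H b x y‖ ^ 2 := by
  rw [ward h x]
  symm
  refine Finset.sum_subset (Finset.subset_univ X) fun y _ hy => ?_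
  rw [hX y hy]
  ring

/-- Ward identity, columns -/
theorem wardX' (h : Adm H b) (hX : ∀ x, x ∉ X → (b x).im = 0) (x : ι) :
    (rsc H b x x).im = ∑ y ∈ X, (-(b y).im) * ‖rsc H b y x‖ ^ 2 := by
  rw [wardX h hX x]
  exact Finset.sum_congr rfl fun y _ => by rw [adm_symm h x y]

/-- one entry -/
theorem ent_le (h : Adm H b) (x y : ι) : (-(b y).im) * ‖rsc H b x y‖ ^ 2 ≤ (rsc H b x x).im := by
  have h1 := ward_le h {y} x
  simpa using h1

/-- partial row sums -/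
theorem row_le (h : Adm H b) {S : Finset ι} {e : ℝ} (he : 0 < e) (hS : ∀ y ∈ S, e ≤ -(b y).im)
    (x : ι) : ∑ y ∈ S, ‖rsc H b x y‖ ^ 2 ≤ (rsc H b x x).im / e := by
  rw [le_div_iff₀ he, Finset.sum_mul]
  refine le_trans (Finset.sum_le_sum fun y hy => ?_) (ward_le h S x)
  rw [mul_comm]
  exact mul_le_mul_of_nonneg_right (hS y hy) (by positivity)

/-- contraction: `∑_x e_x |(G v)_x|² ≤ ∑_X |v_x|² / e_x` for `v` supported on `X` -/
theorem contr (h : Adm H b) (hX : ∀ x ∈ X, (b x).im < 0) (v : ι → ℂ) :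
    ∑ x, (-(b x).im) * ‖∑ y ∈ X, rsc H b x y * v y‖ ^ 2 ≤ ∑ x ∈ X, ‖v x‖ ^ 2 / (-(b x).im) := by
  set q : ι → ℂ := fun x => if x ∈ X then v x else 0 with hq
  have hw : ∀ x, (rsc H b *ᵥ q) x = ∑ y ∈ X, rsc H b x y * v y := by
    intro x
    show ∑ y, rsc H b x y * q y = _
    rw [← Finset.sum_filter_add_sum_filter_not univ (fun y => y ∈ X)]
    have h1 : ∑ y ∈ univ.filter (fun y => y ∉ X), rsc H b x y * q y = 0 := by
      refine Finset.sum_eq_zero fun y hy => ?_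
      rw [Finset.mem_filter] at hy
      simp [hq, hy.2]
    rw [h1, add_zero]
    have h2 : univ.filter (fun y => y ∈ X) = X := by ext y; simp
    rw [h2]
    refine Finset.sum_congr rfl fun y hy => ?_
    simp [hq, hy]
  have hP : ∑ x, (-(b x).im) * ‖(rsc H b *ᵥ q) x‖ ^ 2 =
      -(∑ x, (starRingEnd ℂ) ((rsc H b *ᵥ q) x) * q x).im := by
    have h1 := form_im h.sym b (rsc H b *ᵥ q)
    rw [src_res h q] at h1
    rw [h1, ← Finset.sum_neg_distrib]
    refine Finset.sum_congr rfl fun x _ => ?_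
    ring
  set P : ℝ := ∑ x, (-(b x).im) * ‖(rsc H b *ᵥ q) x‖ ^ 2 with hPdef
  have hle : P ≤ ∑ x ∈ X, ‖(rsc H b *ᵥ q) x‖ * ‖v x‖ := by
    rw [hP]
    have h1 : (∑ x, (starRingEnd ℂ) ((rsc H b *ᵥ q) x) * q x) =
        ∑ x ∈ X, (starRingEnd ℂ) ((rsc H b *ᵥ q) x) * v x := by
      symm
      rw [← Finset.sum_subset (Finset.subset_univ X)]
      · refine Finset.sum_congr rfl fun y hy => ?_
        simp [hq, hy]
      · intro y _ hy
        simp [hq, hy]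
    rw [h1]
    refine (neg_le_abs _).trans ((Complex.abs_im_le_norm _).trans ?_)
    refine (norm_sum_le _ _).trans (le_of_eq ?_)
    refine Finset.sum_congr rfl fun x _ => ?_
    rw [norm_mul, RCLike.norm_conj]
  have hAM : ∑ x ∈ X, ‖(rsc H b *ᵥ q) x‖ * ‖v x‖ ≤
      (1 / 2) * P + (1 / 2) * ∑ x ∈ X, ‖v x‖ ^ 2 / (-(b x).im) := by
    have h1 : ∑ x ∈ X, (-(b x).im) * ‖(rsc H b *ᵥ q) x‖ ^ 2 ≤ P := by
      rw [hPdef]
      exact Finset.sum_le_univ_sum_of_nonneg fun y =>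
        mul_nonneg (by linarith [h.im y]) (by positivity)
    have h2 : ∑ x ∈ X, ‖(rsc H b *ᵥ q) x‖ * ‖v x‖ ≤ ∑ x ∈ X,
        ((1 / 2) * ((-(b x).im) * ‖(rsc H b *ᵥ q) x‖ ^ 2) +
          (1 / 2) * (‖v x‖ ^ 2 / (-(b x).im))) := by
      refine Finset.sum_le_sum fun x hx => ?_
      have hb := hX x hx
      set e := -(b x).im with he
      have he0 : 0 < e := by rw [he]; linarith
      set s := ‖(rsc H b *ᵥ q) x‖
      set w := ‖v x‖
      have h3 : 0 ≤ (e * s - w) ^ 2 / e := by positivity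
      have h4 : (e * s - w) ^ 2 / e = e * s ^ 2 - 2 * (s * w) + w ^ 2 / e := by
        field_simp
        ring
      rw [h4] at h3
      linarith
    rw [Finset.sum_add_distrib, ← Finset.mul_sum, ← Finset.mul_sum] at h2
    linarith
  have h5 : P ≤ ∑ x ∈ X, ‖v x‖ ^ 2 / (-(b x).im) := by linarith
  refine le_trans (le_of_eq ?_) h5
  rw [hPdef]
  exact Finset.sum_congr rfl fun x _ => by rw [hw x]

/-- contraction in the form `|∑_{X × X} u_x G_xy v_y|² ≤ (∑ |u|²/e)(∑ |v|²/e)` -/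
theorem contr_bil (h : Adm H b) (hX : ∀ x ∈ X, (b x).im < 0) (w v : ι → ℂ) :
    ‖∑ x ∈ X, ∑ y ∈ X, w x * rsc H b x y * v y‖ ^ 2 ≤
      (∑ x ∈ X, ‖w x‖ ^ 2 / (-(b x).im)) * ∑ x ∈ X, ‖v x‖ ^ 2 / (-(b x).im) := by
  have h1 := contr h hX v
  have h2 : ∑ x ∈ X, (-(b x).im) * ‖∑ y ∈ X, rsc H b x y * v y‖ ^ 2 ≤
      ∑ x ∈ X, ‖v x‖ ^ 2 / (-(b x).im) :=
    le_trans (Finset.sum_le_univ_sum_of_nonneg fun y =>
      mul_nonneg (by linarith [h.im y]) (by positivity)) h1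
  have h3 : ‖∑ x ∈ X, ∑ y ∈ X, w x * rsc H b x y * v y‖ ≤
      ∑ x ∈ X, ‖w x‖ * ‖∑ y ∈ X, rsc H b x y * v y‖ := by
    refine (norm_sum_le _ _).trans (le_of_eq ?_)
    refine Finset.sum_congr rfl fun x _ => ?_
    rw [← norm_mul, Finset.mul_sum]
    congr 1
    exact Finset.sum_congr rfl fun y _ => by ring
  have h4 : (∑ x ∈ X, ‖w x‖ * ‖∑ y ∈ X, rsc H b x y * v y‖) ^ 2 ≤
      (∑ x ∈ X, ‖w x‖ ^ 2 / (-(b x).im)) *
        ∑ x ∈ X, (-(b x).im) * ‖∑ y ∈ X, rsc H b x y * v y‖ ^ 2 := by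
    have h5 := Finset.sum_mul_sq_le_sq_mul_sq X (fun x => ‖w x‖ / Real.sqrt (-(b x).im))
      (fun x => Real.sqrt (-(b x).im) * ‖∑ y ∈ X, rsc H b x y * v y‖)
    have e1 : ∀ x ∈ X, ‖w x‖ / Real.sqrt (-(b x).im) *
        (Real.sqrt (-(b x).im) * ‖∑ y ∈ X, rsc H b x y * v y‖) =
        ‖w x‖ * ‖∑ y ∈ X, rsc H b x y * v y‖ := by
      intro x hx
      have h0 : 0 < Real.sqrt (-(b x).im) := Real.sqrt_pos.2 (by linarith [hX x hx])
      field_simp
    have e2 : ∀ x ∈ X, (‖w x‖ / Real.sqrt (-(b x).im)) ^ 2 = ‖w x‖ ^ 2 / (-(b x).im) := by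
      intro x hx
      rw [div_pow, Real.sq_sqrt (by linarith [hX x hx])]
    have e3 : ∀ x ∈ X, (Real.sqrt (-(b x).im) * ‖∑ y ∈ X, rsc H b x y * v y‖) ^ 2 =
        (-(b x).im) * ‖∑ y ∈ X, rsc H b x y * v y‖ ^ 2 := by
      intro x hx
      rw [mul_pow, Real.sq_sqrt (by linarith [hX x hx])]
    rw [Finset.sum_congr rfl e1, Finset.sum_congr rfl e2, Finset.sum_congr rfl e3] at h5
    exact h5
  have h6 : 0 ≤ ∑ x ∈ X, ‖w x‖ ^ 2 / (-(b x).im) :=
    Finset.sum_nonneg fun x hx => div_nonneg (by positivity) (by linarith [hX x hx])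
  calc ‖∑ x ∈ X, ∑ y ∈ X, w x * rsc H b x y * v y‖ ^ 2
      ≤ (∑ x ∈ X, ‖w x‖ * ‖∑ y ∈ X, rsc H b x y * v y‖) ^ 2 :=
        pow_le_pow_left₀ (norm_nonneg _) h3 2
    _ ≤ _ := h4
    _ ≤ _ := mul_le_mul_of_nonneg_left h2 h6

end abs

section form

variable {T : Type} [Fintype T] [DecidableEq T] {H : Matrix T T ℂ} {M : Med T}

theorem QF_nonneg (he : ∀ x ∈ M.nr, 0 ≤ M.eta x) (w : T → ℝ) : 0 ≤ QF H M w := by
  unfold QF
  refine mul_nonneg (by norm_num) (Finset.sum_nonneg fun x hx => Finset.sum_nonneg fun y hy => ?_)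
  have h1 := he x hx
  have h2 := he y hy
  positivity

theorem QF_const (c : ℝ) : QF H M (fun _ => c) = 0 := by
  unfold QF
  simp

theorem QF_add_const (w : T → ℝ) (c : ℝ) : QF H M (fun x => w x + c) = QF H M w := by
  unfold QF
  simp

theorem QF_sub_const (w : T → ℝ) (c : ℝ) : QF H M (fun x => w x - c) = QF H M w := by
  unfold QF
  simp

theorem QF_congr {w w' : T → ℝ} (h : ∀ x ∈ M.nr, w x = w' x) : QF H M w = QF H M w' := by
  unfold QF
  congr 1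
  exact Finset.sum_congr rfl fun x hx => Finset.sum_congr rfl fun y hy => by rw [h x hx, h y hy]

theorem QF_smul (c : ℝ) (w : T → ℝ) : QF H M (fun x => c * w x) = c ^ 2 * QF H M w := by
  unfold QF
  rw [mul_left_comm]
  congr 1
  rw [Finset.mul_sum]
  refine Finset.sum_congr rfl fun x _ => ?_
  rw [Finset.mul_sum]
  exact Finset.sum_congr rfl fun y _ => by ring

/-- `Q(u + v) ≤ (1 + θ) Q(u) + (1 + 1/θ) Q(v)` -/
theorem QF_add_le (he : ∀ x ∈ M.nr, 0 ≤ M.eta x) {θ : ℝ} (hθ : 0 < θ) (w w' : T → ℝ) :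
    QF H M (fun x => w x + w' x) ≤ (1 + θ) * QF H M w + (1 + 1 / θ) * QF H M w' := by
  unfold QF
  have h1 : ∀ x ∈ M.nr, ∀ y ∈ M.nr,
      M.eta x * ‖rsc H M.b x y‖ ^ 2 * M.eta y * ((w x + w' x) - (w y + w' y)) ^ 2 ≤
        (1 + θ) * (M.eta x * ‖rsc H M.b x y‖ ^ 2 * M.eta y * (w x - w y) ^ 2) +
        (1 + 1 / θ) * (M.eta x * ‖rsc H M.b x y‖ ^ 2 * M.eta y * (w' x - w' y) ^ 2) := by
    intro x hx y hy
    have h2 := he x hx
    have h3 := he y hy
    set p := w x - w y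
    set q := w' x - w' y
    have h4 : (w x + w' x - (w y + w' y)) ^ 2 = (p + q) ^ 2 := by ring
    have h5 : (p + q) ^ 2 ≤ (1 + θ) * p ^ 2 + (1 + 1 / θ) * q ^ 2 := by
      have h6 : 0 ≤ (θ * p - q) ^ 2 / θ := by positivity
      have h7 : (θ * p - q) ^ 2 / θ = θ * p ^ 2 - 2 * (p * q) + q ^ 2 * (1 / θ) := by
        field_simp
        ring
      rw [h7] at h6
      nlinarith
    rw [h4]
    have h8 : 0 ≤ M.eta x * ‖rsc H M.b x y‖ ^ 2 * M.eta y := by positivity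
    calc _ ≤ M.eta x * ‖rsc H M.b x y‖ ^ 2 * M.eta y * ((1 + θ) * p ^ 2 + (1 + 1 / θ) * q ^ 2) :=
          mul_le_mul_of_nonneg_left h5 h8
      _ = _ := by ring
  have h9 := Finset.sum_le_sum fun x hx => Finset.sum_le_sum fun y hy => h1 x hx y hy
  simp only [Finset.sum_add_distrib, ← Finset.mul_sum] at h9
  linarith

/-- `Q = m - η S η` -/
theorem QF_eq (h : Adm H M.b) (hU : ∀ x ∈ M.U, M.eta x = 0) (w : T → ℝ) :
    QF H M w = ∑ x ∈ M.nr, M.eta x * (rsc H M.b x x).im * w x ^ 2 -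
      ∑ x ∈ M.nr, ∑ y ∈ M.nr, M.eta x * ‖rsc H M.b x y‖ ^ 2 * M.eta y * w x * w y := by
  have hX : ∀ x, x ∉ M.nr → (M.b x).im = 0 := by
    intro x hx
    have h1 : x ∈ M.U := by
      by_contra h2
      exact hx (Finset.mem_compl.2 h2)
    have h3 := hU x h1
    unfold Med.eta at h3
    linarith
  have h1 : ∀ x, (rsc H M.b x x).im = ∑ y ∈ M.nr, M.eta y * ‖rsc H M.b x y‖ ^ 2 :=
    fun x => wardX h hX x
  unfold QF
  have h2 : ∀ x ∈ M.nr, ∑ y ∈ M.nr, M.eta x * ‖rsc H M.b x y‖ ^ 2 * M.eta y * (w x - w y) ^ 2 =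
      M.eta x * (rsc H M.b x x).im * w x ^ 2 +
        ∑ y ∈ M.nr, M.eta x * ‖rsc H M.b x y‖ ^ 2 * M.eta y * w y ^ 2 -
        2 * ∑ y ∈ M.nr, M.eta x * ‖rsc H M.b x y‖ ^ 2 * M.eta y * w x * w y := by
    intro x _
    rw [h1 x, Finset.mul_sum, Finset.sum_mul, Finset.mul_sum, ← Finset.sum_add_distrib,
      ← Finset.sum_sub_distrib]
    exact Finset.sum_congr rfl fun y _ => by ring
  rw [Finset.sum_congr rfl h2, Finset.sum_sub_distrib, Finset.sum_add_distrib, ← Finset.mul_sum]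
  have h3 : ∑ x ∈ M.nr, ∑ y ∈ M.nr, M.eta x * ‖rsc H M.b x y‖ ^ 2 * M.eta y * w y ^ 2 =
      ∑ x ∈ M.nr, M.eta x * (rsc H M.b x x).im * w x ^ 2 := by
    rw [Finset.sum_comm]
    refine Finset.sum_congr rfl fun y _ => ?_
    rw [h1 y, Finset.mul_sum, Finset.sum_mul]
    refine Finset.sum_congr rfl fun x _ => ?_
    rw [adm_symm h x y]
    ring
  rw [h3]
  ring

/-- `Q ≤ 2 m` -/
theorem QF_le_two (h : Adm H M.b) (hU : ∀ x ∈ M.U, M.eta x = 0)
    (he : ∀ x ∈ M.nr, 0 ≤ M.eta x) (w : T → ℝ) :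
    QF H M w ≤ 2 * ∑ x ∈ M.nr, M.eta x * (rsc H M.b x x).im * w x ^ 2 := by
  have hX : ∀ x, x ∉ M.nr → (M.b x).im = 0 := by
    intro x hx
    have h1 : x ∈ M.U := by
      by_contra h2
      exact hx (Finset.mem_compl.2 h2)
    have h3 := hU x h1
    unfold Med.eta at h3
    linarith
  have h1 : ∀ x, (rsc H M.b x x).im = ∑ y ∈ M.nr, M.eta y * ‖rsc H M.b x y‖ ^ 2 :=
    fun x => wardX h hX x
  unfold QF
  have h2 : ∑ x ∈ M.nr, ∑ y ∈ M.nr, M.eta x * ‖rsc H M.b x y‖ ^ 2 * M.eta y * (w x - w y) ^ 2 ≤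
      ∑ x ∈ M.nr, ∑ y ∈ M.nr, (2 * (M.eta x * ‖rsc H M.b x y‖ ^ 2 * M.eta y * w x ^ 2) +
        2 * (M.eta x * ‖rsc H M.b x y‖ ^ 2 * M.eta y * w y ^ 2)) := by
    refine Finset.sum_le_sum fun x hx => Finset.sum_le_sum fun y hy => ?_
    have h3 := he x hx
    have h4 := he y hy
    have h5 : 0 ≤ M.eta x * ‖rsc H M.b x y‖ ^ 2 * M.eta y := by positivity
    nlinarith [mul_nonneg h5 (sq_nonneg (w x + w y))]
  simp only [Finset.sum_add_distrib, ← Finset.mul_sum] at h2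
  have h3 : ∑ x ∈ M.nr, ∑ y ∈ M.nr, M.eta x * ‖rsc H M.b x y‖ ^ 2 * M.eta y * w y ^ 2 =
      ∑ x ∈ M.nr, M.eta x * (rsc H M.b x x).im * w x ^ 2 := by
    rw [Finset.sum_comm]
    refine Finset.sum_congr rfl fun y _ => ?_
    rw [h1 y, Finset.mul_sum, Finset.sum_mul]
    refine Finset.sum_congr rfl fun x _ => ?_
    rw [adm_symm h x y]
    ring
  have h4 : ∑ x ∈ M.nr, ∑ y ∈ M.nr, M.eta x * ‖rsc H M.b x y‖ ^ 2 * M.eta y * w x ^ 2 =
      ∑ x ∈ M.nr, M.eta x * (rsc H M.b x x).im * w x ^ 2 := by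
    refine Finset.sum_congr rfl fun x _ => ?_
    rw [h1 x, Finset.mul_sum, Finset.sum_mul]
    exact Finset.sum_congr rfl fun y _ => by ring
  rw [h3, h4] at h2
  linarith

end form

section good

variable {d L : ℕ} [NeZero L] {f : Fix} {t : Tol d L} {M : Med (Tor d L)} {u : UTol}

/-- relations between the constants -/
structure Num (f : Fix) (t : Tol d L) (u : UTol) : Prop where
  eta : 0 < t.eta
  kl : 0 < t.kl
  klk : t.kl ≤ t.k
  st : 0 ≤ t.st
  del : 0 ≤ u.del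
  c1 : 0 < f.c1
  g0 : f.c1 + u.del ≤ f.g0.im
  C1 : ‖f.g0‖ + u.del ≤ f.C1

theorem mem_nr {x : Tor d L} : x ∈ M.nr ↔ x ∉ M.U := by
  unfold Med.nr
  rw [Finset.mem_compl]

namespace Good

theorem io_ge (h : Good f t M) (hI : t.In f M u) (hN : Num f t u) {x : Tor d L} (hx : x ∉ M.U) :
    f.c1 ≤ (rsc (H0T d L) M.b x x).im := by
  have h1 := h.h1 x hx
  have h2 := hI.del x
  have h3 := hN.g0
  have h4 := Complex.abs_im_le_norm (rsc (H0T d L) M.b x x - f.g0)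
  rw [Complex.sub_im] at h4
  have h5 := abs_le.1 (h4.trans (h1.trans h2))
  linarith [h5.1]

theorem gam_le (h : Good f t M) (hI : t.In f M u) (hN : Num f t u) {x : Tor d L} (hx : x ∉ M.U) :
    ‖rsc (H0T d L) M.b x x‖ ≤ f.C1 := by
  have h1 := h.h1 x hx
  have h2 := hI.del x
  have h3 := hN.C1
  have h4 : ‖rsc (H0T d L) M.b x x‖ ≤ ‖rsc (H0T d L) M.b x x - f.g0‖ + ‖f.g0‖ := by
    have := norm_add_le (rsc (H0T d L) M.b x x - f.g0) f.g0
    rwa [sub_add_cancel] at this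
  linarith

theorem io_le (h : Good f t M) (hI : t.In f M u) (hN : Num f t u) {x : Tor d L} (hx : x ∉ M.U) :
    (rsc (H0T d L) M.b x x).im ≤ f.C1 :=
  (le_abs_self _).trans ((Complex.abs_im_le_norm _).trans (h.gam_le hI hN hx))

theorem C1_pos (h : Good f t M) (hI : t.In f M u) (hN : Num f t u) : 0 < f.C1 := by
  by_cases hU : ∃ x, x ∉ M.U
  · obtain ⟨x, hx⟩ := hU
    exact hN.c1.trans_le ((h.io_ge hI hN hx).trans (h.io_le hI hN hx))
  · have h1 : f.g0.im ≤ ‖f.g0‖ := (le_abs_self _).trans (Complex.abs_im_le_norm _)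
    have h2 := hN.C1
    have h3 := hN.g0
    have h4 := hN.c1
    have h5 := hN.del
    linarith

theorem io_pos (h : Good f t M) (hI : t.In f M u) (hN : Num f t u) {x : Tor d L} (hx : x ∉ M.U) :
    0 < (rsc (H0T d L) M.b x x).im := hN.c1.trans_le (h.io_ge hI hN hx)

/-- active sites are not read -/
theorem nU_of_A (h : Good f t M) {x : Tor d L} (hx : x ∈ M.A) : x ∉ M.U :=
  fun hU => Finset.disjoint_left.1 h.AU hx hU

theorem A_sub_nr (h : Good f t M) : M.A ⊆ M.nr := fun _ hx => mem_nr.2 (h.nU_of_A hx)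

/-- absorption of the non-read sites -/
theorem eta_ge (h : Good f t M) (hI : t.In f M u) (hN : Num f t u) {x : Tor d L} (hx : x ∉ M.U) :
    t.eta ≤ M.eta x := by
  by_cases hA : x ∈ M.A
  · rw [h.eA x hA]
    have h1 : 0 ≤ M.k x := hN.kl.le.trans (h.klo x hA)
    have h2 := (h.io_pos hI hN hx).le
    nlinarith [mul_nonneg h1 h2]
  · by_cases hII : x ∈ M.I
    · exact (h.eI x hII).ge
    · have h1 := h.eS x hA hx hII
      linarith [hN.st]

theorem eta_pos (h : Good f t M) (hI : t.In f M u) (hN : Num f t u) {x : Tor d L} (hx : x ∉ M.U) :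
    0 < M.eta x := hN.eta.trans_le (h.eta_ge hI hN hx)

/-- absorption of the active sites -/
theorem eta_act (h : Good f t M) (hI : t.In f M u) (hN : Num f t u) {x : Tor d L}
    (hx : x ∈ M.A) : t.eta + t.kl * f.c1 ≤ M.eta x := by
  rw [h.eA x hx]
  have h1 := h.klo x hx
  have h2 := h.io_ge hI hN (h.nU_of_A hx)
  have h3 := mul_le_mul h1 h2 hN.c1.le (hN.kl.le.trans h1)
  linarith

theorem eta_act_le (h : Good f t M) (hI : t.In f M u) (hN : Num f t u) {x : Tor d L}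
    (hx : x ∈ M.A) : M.eta x ≤ t.eta + t.k * f.C1 := by
  rw [h.eA x hx]
  have h1 := h.khi x hx
  have h2 := h.io_le hI hN (h.nU_of_A hx)
  have h4 := (h.io_pos hI hN (h.nU_of_A hx)).le
  have h5 : 0 ≤ t.k := hN.kl.le.trans hN.klk
  have h3 := mul_le_mul h1 h2 h4 h5
  linarith

/-- `k_x ι_x ≤ η_x` -/
theorem kio_le (h : Good f t M) (hI : t.In f M u) (hN : Num f t u) {x : Tor d L}
    (hx : x ∉ M.U) : M.k x * (rsc (H0T d L) M.b x x).im ≤ M.eta x := by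
  by_cases hA : x ∈ M.A
  · rw [h.eA x hA]
    linarith [hN.eta]
  · rw [h.k0 x hA, zero_mul]
    exact (h.eta_pos hI hN hx).le

theorem k_nonneg (h : Good f t M) (hN : Num f t u) (x : Tor d L) : 0 ≤ M.k x := by
  by_cases hA : x ∈ M.A
  · exact hN.kl.le.trans (h.klo x hA)
  · rw [h.k0 x hA]

theorem k_le (h : Good f t M) (hN : Num f t u) (x : Tor d L) : M.k x ≤ t.k := by
  by_cases hA : x ∈ M.A
  · exact h.khi x hA
  · rw [h.k0 x hA]
    exact hN.kl.le.trans hN.klk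

theorem im_neg (h : Good f t M) (hI : t.In f M u) (hN : Num f t u) {x : Tor d L} (hx : x ∉ M.U) :
    (M.b x).im < 0 := by
  have := h.eta_pos hI hN hx
  unfold Med.eta at this
  linarith

theorem im_zero (h : Good f t M) {x : Tor d L} (hx : x ∈ M.U) : (M.b x).im = 0 := by
  have := h.eU x hx
  unfold Med.eta at this
  linarith

theorem im_zero' (h : Good f t M) {x : Tor d L} (hx : x ∉ M.nr) : (M.b x).im = 0 := by
  refine h.im_zero ?_
  by_contra h2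
  exact hx (mem_nr.2 h2)

theorem admN (h : Good f t M) (hI : t.In f M u) (hN : Num f t u) : Adm (H0T d L) M.b := by
  refine ⟨H0T_realSym, fun x => ?_, h.unit⟩
  by_cases hx : x ∈ M.U
  · exact (h.im_zero hx).le
  · exact (h.im_neg hI hN hx).le

theorem eta_nonneg (h : Good f t M) (hI : t.In f M u) (hN : Num f t u) (x : Tor d L) :
    0 ≤ M.eta x := by
  by_cases hx : x ∈ M.U
  · exact (h.eU x hx).ge
  · exact (h.eta_pos hI hN hx).le

/-- Ward identity -/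
theorem ward (h : Good f t M) (hI : t.In f M u) (hN : Num f t u) (x : Tor d L) :
    (rsc (H0T d L) M.b x x).im = ∑ y ∈ M.nr, M.eta y * ‖rsc (H0T d L) M.b x y‖ ^ 2 :=
  wardX (h.admN hI hN) (fun _ hx => h.im_zero' hx) x

theorem symm (h : Good f t M) (hI : t.In f M u) (hN : Num f t u) (x y : Tor d L) :
    rsc (H0T d L) M.b x y = rsc (H0T d L) M.b y x := adm_symm (h.admN hI hN) x y

theorem ward' (h : Good f t M) (hI : t.In f M u) (hN : Num f t u) (x : Tor d L) :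
    (rsc (H0T d L) M.b x x).im = ∑ y ∈ M.nr, M.eta y * ‖rsc (H0T d L) M.b y x‖ ^ 2 :=
  wardX' (h.admN hI hN) (fun _ hx => h.im_zero' hx) x

/-- entries on `X × X` -/
theorem ent_Lam (h : Good f t M) (hI : t.In f M u) {x y : Tor d L} (hx : x ∉ M.U)
    (hy : y ∉ M.U) : ‖rsc (H0T d L) M.b x y‖ ≤ u.Lam := (h.h5 x y hx hy).trans (hI.Lam x y)

/-- entries, a priori bound -/
theorem ent_eta (h : Good f t M) (hI : t.In f M u) (hN : Num f t u) (x : Tor d L)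
    {y : Tor d L} (hy : y ∉ M.U) :
    ‖rsc (H0T d L) M.b x y‖ ^ 2 ≤ (rsc (H0T d L) M.b x x).im / M.eta y := by
  rw [le_div_iff₀ (h.eta_pos hI hN hy), mul_comm]
  exact ent_le (h.admN hI hN) x y

theorem row (h : Good f t M) (hI : t.In f M u) (hN : Num f t u) {S : Finset (Tor d L)} {e : ℝ}
    (he : 0 < e) (hS : ∀ y ∈ S, e ≤ M.eta y) (x : Tor d L) :
    ∑ y ∈ S, ‖rsc (H0T d L) M.b x y‖ ^ 2 ≤ (rsc (H0T d L) M.b x x).im / e :=
  row_le (h.admN hI hN) he hS x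

/-- `∑_A κ_y |G_xy|² ≤ C1/c1` -/
theorem row_k (h : Good f t M) (hI : t.In f M u) (hN : Num f t u) {x : Tor d L}
    (hx : x ∉ M.U) : ∑ y ∈ M.A, M.k y * ‖rsc (H0T d L) M.b x y‖ ^ 2 ≤ f.C1 / f.c1 := by
  rw [le_div_iff₀ hN.c1, Finset.sum_mul]
  have h1 : ∑ y ∈ M.A, M.k y * ‖rsc (H0T d L) M.b x y‖ ^ 2 * f.c1 ≤
      ∑ y ∈ M.nr, M.eta y * ‖rsc (H0T d L) M.b x y‖ ^ 2 := by
    refine le_trans (Finset.sum_le_sum fun y hy => ?_)
      (Finset.sum_le_sum_of_subset_of_nonneg h.A_sub_nr fun y _ _ =>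
        mul_nonneg (h.eta_nonneg hI hN y) (by positivity))
    have h2 := h.io_ge hI hN (h.nU_of_A hy)
    have h3 := h.kio_le hI hN (h.nU_of_A hy)
    have h4 : 0 ≤ M.k y := hN.kl.le.trans (h.klo y hy)
    have h5 : M.k y * f.c1 ≤ M.eta y := (mul_le_mul_of_nonneg_left h2 h4).trans h3
    nlinarith [sq_nonneg ‖rsc (H0T d L) M.b x y‖]
  rw [← h.ward hI hN x] at h1
  exact h1.trans (h.io_le hI hN hx)

theorem contr (h : Good f t M) (hI : t.In f M u) (hN : Num f t u) (v : Tor d L → ℂ) :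
    ∑ x ∈ M.nr, M.eta x * ‖∑ y ∈ M.nr, rsc (H0T d L) M.b x y * v y‖ ^ 2 ≤
      ∑ x ∈ M.nr, ‖v x‖ ^ 2 / M.eta x := by
  refine le_trans (Finset.sum_le_univ_sum_of_nonneg fun y =>
    mul_nonneg (h.eta_nonneg hI hN y) (by positivity))
    (AND.contr (h.admN hI hN) (fun x hx => h.im_neg hI hN (mem_nr.1 hx)) v)

theorem contr_bil (h : Good f t M) (hI : t.In f M u) (hN : Num f t u) (w v : Tor d L → ℂ) :
    ‖∑ x ∈ M.nr, ∑ y ∈ M.nr, w x * rsc (H0T d L) M.b x y * v y‖ ^ 2 ≤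
      (∑ x ∈ M.nr, ‖w x‖ ^ 2 / M.eta x) * ∑ x ∈ M.nr, ‖v x‖ ^ 2 / M.eta x :=
  AND.contr_bil (h.admN hI hN) (fun x hx => h.im_neg hI hN (mem_nr.1 hx)) w v

theorem QF_nonneg (h : Good f t M) (hI : t.In f M u) (hN : Num f t u) (w : Tor d L → ℝ) :
    0 ≤ QF (H0T d L) M w := AND.QF_nonneg (fun x _ => h.eta_nonneg hI hN x) w

theorem QF_eq (h : Good f t M) (hI : t.In f M u) (hN : Num f t u) (w : Tor d L → ℝ) :
    QF (H0T d L) M w =
      ∑ x ∈ M.nr, M.eta x * (rsc (H0T d L) M.b x x).im * w x ^ 2 -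
      ∑ x ∈ M.nr, ∑ y ∈ M.nr,
        M.eta x * ‖rsc (H0T d L) M.b x y‖ ^ 2 * M.eta y * w x * w y :=
  AND.QF_eq (h.admN hI hN) h.eU w

theorem QF_le_two (h : Good f t M) (hI : t.In f M u) (hN : Num f t u) (w : Tor d L → ℝ) :
    QF (H0T d L) M w ≤
      2 * ∑ x ∈ M.nr, M.eta x * (rsc (H0T d L) M.b x x).im * w x ^ 2 :=
  AND.QF_le_two (h.admN hI hN) h.eU (fun x _ => h.eta_nonneg hI hN x) w

/-! ### the bridge to the Schur complement -/

/-- `b` on the non-read sites -/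
def _root_.Pool.Agent.AND.bX (M : Med (Tor d L)) : {x // x ∈ M.nr} → ℂ := fun y => M.b y

/-- the effective Hamiltonian -/
def _root_.Pool.Agent.AND.HX (M : Med (Tor d L)) : Matrix {x // x ∈ M.nr} {x // x ∈ M.nr} ℂ :=
  ANI.Heff (H0T d L) M.b M.nr

theorem HX_sym (h : Good f t M) : RealSym (HX M) :=
  ANI.realSym_eff H0T_realSym fun _ hx => h.im_zero' hx

theorem bX_neg (h : Good f t M) (hI : t.In f M u) (hN : Num f t u) (x : {x // x ∈ M.nr}) :
    (bX M x).im < 0 := h.im_neg hI hN (mem_nr.1 x.2)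

theorem rsc_HX (h : Good f t M) (hI : t.In f M u) (hN : Num f t u)
    (hB : IsUnit (ANI.MBB (H0T d L) M.b M.nr).det) (x y : {x // x ∈ M.nr}) :
    rsc (HX M) (bX M) x y = rsc (H0T d L) M.b x y :=
  ANI.rsc_eff_apply (h.admN hI hN) hB x y

theorem adm_HX (h : Good f t M) (hI : t.In f M u) (hN : Num f t u)
    (hB : IsUnit (ANI.MBB (H0T d L) M.b M.nr).det) : Adm (HX M) (bX M) :=
  ⟨h.HX_sym, fun x => (h.bX_neg hI hN x).le, ANI.unit_eff (h.admN hI hN) hB⟩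

end Good

end good

end Pool.Agent.AND
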