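import Pool.Agent.AND.Level
import Pool.Agent.AND.H3A
import Pool.Agent.AND.Use

/-! # AND / TolIn: the tolerances of the schedule are within uniform bounds

* `Good.ioC`, `Good.adm1`, `Good.io0` : imaginary part of the diagonal, admissibility and `ι_x ≥ 0` at ALL sites from `Good` and a
  bound of `t.del` only.
* `InNum` : the numerical conditions at the level `n`; `FldIn` : bounds of the fields; `uAt` : the uniform bounds.
* `H3Use` : pointwise conditions on the weights of (H3); `h3Use_A` (uniform law), `h3Use_B` (all laws, `K = n + 1`).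
* `tolNum`, `tolIn` : `Num` and `Tol.In` for `tolAt`.
-/

open Matrix Finset

noncomputable section

namespace Pool.Agent.AND

open Pool.Agent.Kin Pool.Agent.APS Pool.Agent.ANL

variable {d L : ℕ} [NeZero L] {f : Fix} {t : Tol d L} {M : Med (Tor d L)}

/-! ### the medium from (H1) only -/

/-- `|Im G_xx - Im g0| ≤ δ` -/
theorem Good.ioC (hG : Good f t M) {δ : ℝ} (hdel : ∀ x, t.del x ≤ δ) {x : Tor d L}
    (hx : x ∉ M.U) : |(rsc (H0T d L) M.b x x).im - f.g0.im| ≤ δ := by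
  have h1 := (hG.h1 x hx).trans (hdel x)
  have h2 := Complex.abs_im_le_norm (rsc (H0T d L) M.b x x - f.g0)
  rw [Complex.sub_im] at h2
  exact h2.trans h1

theorem Good.io_c1 (hG : Good f t M) {δ : ℝ} (hdel : ∀ x, t.del x ≤ δ)
    (hg : f.c1 + δ ≤ f.g0.im) {x : Tor d L} (hx : x ∉ M.U) :
    f.c1 ≤ (rsc (H0T d L) M.b x x).im := by
  have h1 := (abs_le.1 (hG.ioC hdel hx)).1
  linarith

/-- all absorptions are nonnegative -/
theorem Good.eta0 (hG : Good f t M) {δ : ℝ} (hdel : ∀ x, t.del x ≤ δ) (hc : 0 ≤ f.c1)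
    (hg : f.c1 + δ ≤ f.g0.im) (heta : 0 ≤ t.eta) (hst : 0 ≤ t.st) (hkl : 0 ≤ t.kl)
    (x : Tor d L) : 0 ≤ M.eta x := by
  by_cases hU : x ∈ M.U
  · exact (hG.eU x hU).ge
  by_cases hA : x ∈ M.A
  · rw [hG.eA x hA]
    have h1 := hG.io_c1 hdel hg hU
    have h2 := mul_nonneg (hkl.trans (hG.klo x hA)) (hc.trans h1)
    linarith
  by_cases hI : x ∈ M.I
  · rw [hG.eI x hI]
    exact heta
  · have := hG.eS x hA hU hI
    linarith

/-- the medium is admissible -/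
theorem Good.adm1 (hG : Good f t M) {δ : ℝ} (hdel : ∀ x, t.del x ≤ δ) (hc : 0 ≤ f.c1)
    (hg : f.c1 + δ ≤ f.g0.im) (heta : 0 ≤ t.eta) (hst : 0 ≤ t.st) (hkl : 0 ≤ t.kl) :
    Adm (H0T d L) M.b := by
  refine ⟨H0T_realSym, fun x => ?_, hG.unit⟩
  have h1 := hG.eta0 hdel hc hg heta hst hkl x
  unfold Med.eta at h1
  linarith

/-- the imaginary part of the diagonal is nonnegative at all sites, read ones included -/
theorem Good.io0 (hG : Good f t M) {δ : ℝ} (hdel : ∀ x, t.del x ≤ δ) (hc : 0 ≤ f.c1)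
    (hg : f.c1 + δ ≤ f.g0.im) (heta : 0 ≤ t.eta) (hst : 0 ≤ t.st) (hkl : 0 ≤ t.kl)
    (x : Tor d L) : 0 ≤ (rsc (H0T d L) M.b x x).im := by
  have h1 := hG.adm1 hdel hc hg heta hst hkl
  rw [wardX (X := univ) h1 (fun x hx => absurd (mem_univ x) hx) x]
  refine sum_nonneg fun y _ => mul_nonneg ?_ (sq_nonneg _)
  exact hG.eta0 hdel hc hg heta hst hkl y

/-! ### numbers -/

/-- the numerical conditions at the level `n`: `e1` bound of `err`, `an` bound of `ae` -/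
structure InNum (f : Fix) (P : Par) (n : ℕ) (e1 an dA : ℝ) : Prop where
  eta : 0 < P.eta
  cl : 0 < P.cl
  clk : P.cl * P.kap (n + 1) ≤ P.kap n
  del0 : 0 ≤ P.del0
  err0 : 0 ≤ e1
  err1 : e1 ≤ 1
  c1 : 0 < f.c1
  g0 : f.c1 + (P.del0 + e1) ≤ f.g0.im
  C1 : ‖f.g0‖ + (P.del0 + e1) ≤ f.C1
  CD : P.CD * e1 ≤ 1 / 2
  hdA : P.kap n * ((P.e0 + P.Ce * an) * f.C1) ≤ dA
  hdS : (P.e0 + P.Ce * an) * ((P.eta + P.kap n * f.C1) * f.C1) ≤ 2 * P.dS

/-- bounds of the fields -/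
structure FldIn (f : Fix) (F : Fld (Tor d L)) (e1 e2 an Lam C2 : ℝ) : Prop where
  err : ∀ x, F.err x ≤ e1
  et : ∀ x, F.et x ≤ 1
  be : ∀ x, F.be x ≤ e2
  ae : ∀ x, F.ae x ≤ an
  lam : ∀ x y, F.g5 x y ≤ Lam
  h5 : ∀ x y, f.r0 ≤ (ANM.td x y : ℝ) → F.g5 x y ≤ C2 * (ANM.td x y : ℝ) ^ (-f.s)

/-- the uniform bounds at the level `n` -/
def uAt (P : Par) (n : ℕ) (e1 rho dA Lam C2 : ℝ) : UTol where
  del := P.del0 + e1
  tau := 2 * (P.kap n) ^ (-(7 / 8) : ℝ)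
  rho := rho
  Ki := P.D0 / 2
  C0 := 2 * P.C00
  dA := dA
  dS := 2 * P.dS
  Lam := Lam
  C2 := C2

variable {X : Type} {P : Par} {Sf : SiteF X} {n : ℕ} {F : Fld (Tor d L)} {π : Prof (Tor d L)}
  {v : Tor d L → X} {e1 e2 an dA Lam C2 rho : ℝ}

theorem InNum.kl (hN : InNum f P n e1 an dA) (hP : P.Pos) : 0 < P.cl * P.kap (n + 1) :=
  mul_pos hN.cl (hP.kap _)

/-- the bound of `del` -/
theorem FldIn.del (hb : FldIn f F e1 e2 an Lam C2) (x : Tor d L) :
    (tolAt P Sf n F π v M).del x ≤ P.del0 + e1 :=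
  add_le_add_right (hb.err x) _

/-- `Num` for the schedule -/
theorem tolNum (hP : P.Pos) (hN : InNum f P n e1 an dA) :
    Num f (tolAt P Sf n F π v M) (uAt P n e1 rho dA Lam C2) where
  eta := hN.eta
  kl := hN.kl hP
  klk := hN.clk
  st := mul_nonneg hP.cs (hP.kap _).le
  del := add_nonneg hN.del0 hN.err0
  c1 := hN.c1
  g0 := hN.g0
  C1 := hN.C1

/-- pointwise conditions on the weights of (H3): the weight `K`, its multiple `Φ`, `θ` = ratio of the weight and of the level at the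
active sites, `e` = size of the errors -/
structure H3Use (P : Par) (Sf : SiteF X) (n : ℕ) (F : Fld (Tor d L)) (π : Prof (Tor d L))
    (v : Tor d L → X) (M : Med (Tor d L)) (K : ℕ) (Φ θ e : ℝ) : Prop where
  hK : K ∈ Sf.Ks n
  Phi : 0 < Φ
  lo : ∀ y ∈ M.A, θ * M.k y ≤ Φ * Sf.phi K (π.lev y) (v y)
  hi : ∀ y ∈ M.A, Φ * Sf.phi K (π.lev y) (v y) ≤ M.k y
  al : ∀ y, y ∉ M.U → Φ * (Sf.s K * P.Cz * (F.err y / P.kap (n + 1))) ≤ e
  beA : ∀ y ∈ M.A, Φ * (Sf.s K * P.Cz * F.be y * Sf.om (π.lev y) (v y)) ≤ e * M.k y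
  S1 : ∀ y, y ∉ M.A → y ∉ M.U → y ∉ M.I →
    Φ * (Sf.phi K (π.lev y) (v y) * io M y) ≤ 3 / 2 * M.eta y
  S2 : ∀ y, y ∉ M.A → y ∉ M.U → y ∉ M.I →
    Φ * (Sf.s K * P.Cz * F.be y * (Sf.om (π.lev y) (v y) * io M y)) ≤ e * M.eta y
  I1 : ∀ y ∈ M.I, Sf.phi K (π.lev y) (v y) = 0
  I2 : ∀ y ∈ M.I, Sf.om (π.lev y) (v y) = 0
  he : 0 ≤ e
  th : θ ≤ 2

/-- `Tol.In` for the schedule -/
theorem tolIn (hP : P.Pos) (hS : Sf.Pos) (hF : F.Pos) (hN : InNum f P n e1 an dA)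
    (hb : FldIn f F e1 e2 an Lam C2) (hG : Good f (tolAt P Sf n F π v M) M)
    {K : ℕ} {Φ θ e : ℝ} (h3 : H3Use P Sf n F π v M K Φ θ e) (hr1 : rho ≤ θ - e)
    (hr2 : rho ≤ 1 / 2 - 2 * e) :
    (tolAt P Sf n F π v M).In f M (uAt P n e1 rho dA Lam C2) := by
  have hdel : ∀ x, (tolAt P Sf n F π v M).del x ≤ P.del0 + e1 := fun x => hb.del x
  have heta : 0 ≤ (tolAt P Sf n F π v M).eta := hN.eta.le
  have hst : 0 ≤ (tolAt P Sf n F π v M).st := mul_nonneg hP.cs (hP.kap _).le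
  have hkl : 0 ≤ (tolAt P Sf n F π v M).kl := (hN.kl hP).le
  have hio : ∀ x, 0 ≤ (rsc (H0T d L) M.b x x).im :=
    hG.io0 hdel hN.c1.le hN.g0 heta hst hkl
  have hη : ∀ x, 0 ≤ M.eta x := hG.eta0 hdel hN.c1.le hN.g0 heta hst hkl
  have hk1 : 0 < P.kap (n + 1) := hP.kap _
  have hk0 : 0 < P.kap n := hP.kap _
  have hAU : ∀ y ∈ M.A, y ∉ M.U := fun y h h' => Finset.disjoint_left.1 hG.AU h h'
  have hioC : ∀ x, x ∉ M.U → (rsc (H0T d L) M.b x x).im ≤ f.C1 := by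
    intro x hx
    have h1 := (abs_le.1 (hG.ioC hdel hx)).2
    have h2 := (le_abs_self _).trans (Complex.abs_im_le_norm f.g0)
    have h3 := hN.C1
    linarith
  have hCae : ∀ x, P.e0 + P.Ce * F.ae x ≤ P.e0 + P.Ce * an := fun x =>
    add_le_add_right (mul_le_mul_of_nonneg_left (hb.ae x) hP.Ce) _
  have hCae0 : ∀ x, 0 ≤ P.e0 + P.Ce * F.ae x := fun x =>
    add_nonneg hP.e0 (mul_nonneg hP.Ce (hF.ae x))
  have hCan : 0 ≤ P.e0 + P.Ce * an := by
    rcases isEmpty_or_nonempty (Tor d L) with h | ⟨⟨x⟩⟩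
    · exact (h.false (fun _ => 0 : Tor d L)).elim
    · exact (hCae0 x).trans (hCae x)
  have hC10 : 0 ≤ f.C1 := (norm_nonneg _).trans ((le_add_of_nonneg_right
    (add_nonneg hN.del0 hN.err0)).trans hN.C1)
  refine ⟨hdel, fun x => ?_, fun K x => ?_, fun K x => ?_, ?_, fun i x => ?_, fun i x => ?_,
    fun i x => ?_, fun x => ?_, fun x hx => ?_, fun x => ?_, hb.lam, hb.h5⟩
  · -- tau
    show (P.kap n) ^ (-(7 / 8) : ℝ) * (1 + F.et x) ≤ 2 * (P.kap n) ^ (-(7 / 8) : ℝ)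
    have h1 := Real.rpow_nonneg hk0.le (-(7 / 8) : ℝ)
    have h2 := hb.et x
    nlinarith
  · -- a0
    show 0 ≤ if x ∈ M.A then _ else _
    split_ifs
    · exact mul_nonneg (hS.phi _ _ _) (hio x)
    · exact le_rfl
  · -- z0
    show 0 ≤ (if x ∈ M.A then _ else _) + _
    refine add_nonneg ?_ (mul_nonneg (mul_nonneg (hS.s K) hP.Cz) (add_nonneg ?_ ?_))
    · split_ifs
      · exact le_rfl
      · exact mul_nonneg (hS.phi _ _ _) (hio x)
    · refine mul_nonneg (hF.err x) (div_nonneg ?_ hk1.le)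
      split_ifs
      · exact hP.eta
      · exact hη x
    · exact mul_nonneg (hF.be x) (mul_nonneg (hS.om _ _) (hio x))
  · -- (H3)
    refine h3In_B (u := uAt P n e1 rho dA Lam C2) hG (fun y _ => hio y) heta K h3.hK
      (fun y => Sf.phi K (π.lev y) (v y)) (fun y => Sf.om (π.lev y) (v y))
      (fun y => Sf.s K * P.Cz * (F.err y / P.kap (n + 1))) (fun y => Sf.s K * P.Cz * F.be y)
      Φ θ e h3.Phi hst hkl (fun y => rfl) (fun y => ?_) h3.lo h3.hi h3.al h3.beA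
      (fun y hA hU hI => ⟨h3.S1 y hA hU hI, h3.S2 y hA hU hI⟩) (fun y hy => ?_) h3.he h3.th
      hr1 hr2
    · show (if y ∈ M.A then (0 : ℝ) else
          Sf.phi K (π.lev y) (v y) * (rsc (H0T d L) M.b y y).im) +
        Sf.s K * P.Cz * (F.err y * ((if y ∈ M.A then P.eta else M.eta y) / P.kap (n + 1)) +
          F.be y * (Sf.om (π.lev y) (v y) * (rsc (H0T d L) M.b y y).im)) =
        zB (fun y => Sf.phi K (π.lev y) (v y)) (fun y => Sf.om (π.lev y) (v y))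
          (fun y => Sf.s K * P.Cz * (F.err y / P.kap (n + 1)))
          (fun y => Sf.s K * P.Cz * F.be y) P.eta M y
      have h1 : (if y ∈ M.A ∨ y ∈ M.I then (0 : ℝ) else
          Sf.phi K (π.lev y) (v y) * io M y) = if y ∈ M.A then (0 : ℝ) else
          Sf.phi K (π.lev y) (v y) * (rsc (H0T d L) M.b y y).im := by
        by_cases hA : y ∈ M.A
        · rw [if_pos (Or.inl hA), if_pos hA]
        · by_cases hI : y ∈ M.I
          · rw [if_pos (Or.inr hI), if_neg hA, h3.I1 y hI, zero_mul]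
          · rw [if_neg (not_or.2 ⟨hA, hI⟩), if_neg hA]
            rfl
      unfold zB uB
      rw [h1]
      unfold io
      ring
    · show Sf.s K * P.Cz * F.be y * Sf.om (π.lev y) (v y) = 0
      rw [h3.I2 y hy, mul_zero]
  · -- D
    show P.D0 / 2 ≤ P.D0 * (1 - P.CD * F.err x)
    have h1 := mul_le_mul_of_nonneg_left (hb.err x) hP.CD
    have h2 := hN.CD
    have h3 := hP.D0
    nlinarith
  · -- C00
    show 0 ≤ P.C00 * (1 + P.CD * F.err x)
    have := mul_nonneg hP.CD (hF.err x)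
    exact mul_nonneg hP.C00 (by linarith)
  · -- C0
    show P.C00 * (1 + P.CD * F.err x) ≤ 2 * P.C00
    have h1 := mul_le_mul_of_nonneg_left (hb.err x) hP.CD
    have h2 := hN.CD
    have h3 := hP.C00
    nlinarith
  · -- dl0
    show 0 ≤ if x ∈ M.A then _ else _
    split_ifs
    · exact mul_nonneg (hCae0 x) (mul_nonneg (hη x) (hio x))
    · have := hF.err x
      exact mul_nonneg hP.dS (by linarith)
  · -- dA
    show P.kap n * (if x ∈ M.A then _ else _) ≤ dA * M.eta x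
    rw [if_pos hx]
    have h1 := mul_le_mul (hCae x) (hioC x (hAU x hx)) (hio x) hCan
    have h2 := mul_le_mul_of_nonneg_left h1 hk0.le
    have h3 := mul_le_mul_of_nonneg_right (h2.trans hN.hdA) (hη x)
    linarith
  · -- dS
    show (if x ∈ M.A then _ else _) ≤ 2 * P.dS
    split_ifs with hx
    · have h1 : M.eta x ≤ P.eta + P.kap n * f.C1 := by
        rw [hG.eA x hx]
        have h2 := mul_le_mul (hG.khi x hx) (hioC x (hAU x hx)) (hio x) hk0.le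
        exact add_le_add_right h2 _
      have h2 : M.eta x * (rsc (H0T d L) M.b x x).im ≤ (P.eta + P.kap n * f.C1) * f.C1 :=
        mul_le_mul h1 (hioC x (hAU x hx)) (hio x)
          (add_nonneg hP.eta (mul_nonneg hk0.le hC10))
      exact (mul_le_mul (hCae x) h2 (mul_nonneg (hη x) (hio x)) hCan).trans hN.hdS
    · have h1 := hb.err x
      have h2 := hN.err1
      have h3 := hP.dS
      nlinarith

/-! ### the weights of (H3): uniform law -/

/-- uniform law (Part A): `K = 0`, `Φ = kl`, `θ = 1/4`, `e = 1/8`, `rho ≤ 1/8` -/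
theorem h3Use_A (hP : P.Pos) (hF : F.Pos) (hN : InNum f P n e1 an dA)
    (hb : FldIn f F e1 e2 an Lam C2) (hG : Good f (tolAt P Sf n F π v M) M)
    (hphi : ∀ m a, Sf.phi 0 m a = 1) (hom : ∀ m a, Sf.om m a = 1) (hs : Sf.s 0 = 1)
    (hK : 0 ∈ Sf.Ks n) (hI : M.I = ∅) (h4 : P.kap n ≤ 4 * (P.cl * P.kap (n + 1)))
    (hz1 : P.cl * (P.Cz * e1) ≤ 1 / 8) (hz2 : P.Cz * e2 ≤ 1 / 12)
    (hcs : P.cl * (f.g0.im + (P.del0 + e1)) ≤ 3 / 2 * P.cs) :
    H3Use P Sf n F π v M 0 (P.cl * P.kap (n + 1)) (1 / 4) (1 / 8) := by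
  have hdel : ∀ x, (tolAt P Sf n F π v M).del x ≤ P.del0 + e1 := fun x => hb.del x
  have hst : 0 ≤ (tolAt P Sf n F π v M).st := mul_nonneg hP.cs (hP.kap _).le
  have hkl := hN.kl hP
  have hio : ∀ x, 0 ≤ (rsc (H0T d L) M.b x x).im :=
    hG.io0 hdel hN.c1.le hN.g0 hN.eta.le hst hkl.le
  have hk1 : 0 < P.kap (n + 1) := hP.kap _
  have hbe : ∀ y, P.Cz * F.be y ≤ 1 / 12 := fun y =>
    (mul_le_mul_of_nonneg_left (hb.be y) hP.Cz).trans hz2
  have hbe0 : ∀ y, 0 ≤ P.Cz * F.be y := fun y => mul_nonneg hP.Cz (hF.be y)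
  have hS : ∀ y, y ∉ M.A → y ∉ M.U → y ∉ M.I →
      P.cl * P.kap (n + 1) * io M y ≤ 3 / 2 * M.eta y := by
    intro y hA hU hI
    have h1 : P.eta + P.cs * P.kap (n + 1) ≤ M.eta y := hG.eS y hA hU hI
    have h2 : io M y ≤ f.g0.im + (P.del0 + e1) := by
      have := (abs_le.1 (hG.ioC hdel hU)).2
      unfold io
      linarith
    have h3 := mul_le_mul_of_nonneg_left h2 hkl.le
    have h4 := mul_le_mul_of_nonneg_left hcs hk1.le
    have h5 := hN.eta.le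
    nlinarith
  refine ⟨hK, hkl, fun y hy => ?_, fun y hy => ?_, fun y _ => ?_, fun y hy => ?_,
    fun y hA hU hI => ?_, fun y hA hU hI => ?_, fun y hy => ?_, fun y hy => ?_, by norm_num,
    by norm_num⟩
  · have h1 : M.k y ≤ P.kap n := hG.khi y hy
    rw [hphi]
    linarith
  · have h1 : P.cl * P.kap (n + 1) ≤ M.k y := hG.klo y hy
    rw [hphi]
    linarith
  · have h1 : P.Cz * F.err y ≤ P.Cz * e1 := mul_le_mul_of_nonneg_left (hb.err y) hP.Cz
    have h2 := mul_le_mul_of_nonneg_left h1 hN.cl.le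
    have h3 : P.cl * P.kap (n + 1) * (Sf.s 0 * P.Cz * (F.err y / P.kap (n + 1))) =
        P.cl * (P.Cz * F.err y) := by
      rw [hs]
      field_simp
    rw [h3]
    exact h2.trans hz1
  · have h1 : P.cl * P.kap (n + 1) ≤ M.k y := hG.klo y hy
    rw [hom, hs]
    have h2 := hbe y
    have h3 := hbe0 y
    have h4 := mul_le_mul h1 h2 h3 (hkl.le.trans h1)
    have h5 : 0 ≤ M.k y := hkl.le.trans h1
    nlinarith
  · rw [hphi, one_mul]
    exact hS y hA hU hI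
  · rw [hom, hs]
    have h1 := hS y hA hU hI
    have h2 : 0 ≤ P.cl * P.kap (n + 1) * io M y := mul_nonneg hkl.le (hio y)
    have h3 := mul_le_mul (hbe y) h1 h2 (by norm_num)
    nlinarith
  · rw [hI] at hy
    exact absurd hy (notMem_empty y)
  · rw [hI] at hy
    exact absurd hy (notMem_empty y)

/-- `Tol.In` in Part A -/
theorem tolIn_A (hP : P.Pos) (hS : Sf.Pos) (hF : F.Pos) (hN : InNum f P n e1 an dA)
    (hb : FldIn f F e1 e2 an Lam C2) (hG : Good f (tolAt P Sf n F π v M) M)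
    (hphi : ∀ m a, Sf.phi 0 m a = 1) (hom : ∀ m a, Sf.om m a = 1) (hs : Sf.s 0 = 1)
    (hK : 0 ∈ Sf.Ks n) (hI : M.I = ∅) (h4 : P.kap n ≤ 4 * (P.cl * P.kap (n + 1)))
    (hz1 : P.cl * (P.Cz * e1) ≤ 1 / 8) (hz2 : P.Cz * e2 ≤ 1 / 12)
    (hcs : P.cl * (f.g0.im + (P.del0 + e1)) ≤ 3 / 2 * P.cs) :
    (tolAt P Sf n F π v M).In f M (uAt P n e1 (1 / 8) dA Lam C2) :=
  tolIn hP hS hF hN hb hG (h3Use_A hP hF hN hb hG hphi hom hs hK hI h4 hz1 hz2 hcs)
    (by norm_num) (by norm_num)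

/-! ### the weights of (H3): all laws -/

/-- the static sites of the profile absorb at least `cI` times their remaining variance -/
def StatOk (Y : Sys X) (π : Prof (Tor d L)) (v : Tor d L → X) (cI : ℝ) : Prop :=
  ∀ y, y ∉ π.act → y ∉ π.rd → y ∉ π.ine → cI * Y.kk (π.lev y) (v y) ≤ (π.sg y).im

/-- all laws (Part B): `K = n + 1`, `Φ = 1`; `phi (n + 1) m a` = remaining variance at the level `n + 1` given the class at the level
`m ≤ n + 1`, between `θ kk m a` (strong classes, `m = n, n + 1`) and `kk m a` -/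
theorem h3Use_B (hP : P.Pos) (hS : Sf.Pos) (hF : F.Pos) (hN : InNum f P n e1 an dA)
    (hb : FldIn f F e1 e2 an Lam C2) (hG : Good f (tolAt P Sf n F π v M) M)
    {Y : Sys X} (hM : IsMed (H0T d L) Y π v M) (hY : 0 ≤ Y.eta)
    (hK : n + 1 ∈ Sf.Ks n) (hs : Sf.s (n + 1) ≤ P.kap (n + 1)) {θ e cI : ℝ}
    (hact : ∀ y ∈ π.act, π.lev y = n ∨ π.lev y = n + 1)
    (hlev : ∀ y, y ∉ π.act → y ∉ π.rd → y ∉ π.ine → π.lev y ≤ n + 1)
    (hlo : ∀ m a, m = n ∨ m = n + 1 → P.cl * P.kap (n + 1) ≤ Y.kk m a →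
      θ * Y.kk m a ≤ Sf.phi (n + 1) m a)
    (hhi : ∀ m a, m ≤ n + 1 → Sf.phi (n + 1) m a ≤ Y.kk m a)
    (hom : ∀ m a, Sf.om m a ≤ 1)
    (hI1 : ∀ y ∈ π.ine, Sf.phi (n + 1) (π.lev y) (v y) = 0)
    (hI2 : ∀ y ∈ π.ine, Sf.om (π.lev y) (v y) = 0)
    (hst : StatOk Y π v cI)
    (hc1 : f.g0.im + (P.del0 + e1) ≤ 3 / 2 * cI) (he : 0 ≤ e) (hth : θ ≤ 2)
    (hz1 : P.Cz * e1 ≤ e) (hz2 : P.Cz * e2 ≤ e * P.cl)
    (hz3 : P.Cz * e2 * (f.g0.im + (P.del0 + e1)) ≤ e * P.cs) :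
    H3Use P Sf n F π v M (n + 1) 1 θ e := by
  have hdel : ∀ x, (tolAt P Sf n F π v M).del x ≤ P.del0 + e1 := fun x => hb.del x
  have hst0 : 0 ≤ (tolAt P Sf n F π v M).st := mul_nonneg hP.cs (hP.kap _).le
  have hkl := hN.kl hP
  have hio : ∀ x, 0 ≤ io M x :=
    hG.io0 hdel hN.c1.le hN.g0 hN.eta.le hst0 hkl.le
  have hk1 : 0 < P.kap (n + 1) := hP.kap _
  have hs0 := hS.s (n + 1)
  have hbe : ∀ y, P.Cz * F.be y ≤ P.Cz * e2 := fun y =>
    mul_le_mul_of_nonneg_left (hb.be y) hP.Cz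
  have hbe0 : ∀ y, 0 ≤ P.Cz * F.be y := fun y => mul_nonneg hP.Cz (hF.be y)
  have hiog : ∀ y, y ∉ M.U → io M y ≤ f.g0.im + (P.del0 + e1) := by
    intro y hU
    have := (abs_le.1 (hG.ioC hdel hU)).2
    unfold io
    linarith
  have hkA : ∀ y ∈ M.A, M.k y = Y.kk (π.lev y) (v y) ∧ (π.lev y = n ∨ π.lev y = n + 1) := by
    intro y hy
    have h1 : y ∈ π.act := hM.A ▸ hy
    rw [hM.k, kp, if_pos h1]
    exact ⟨rfl, hact y h1⟩
  -- the absorption of the static sites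
  have heS : ∀ y, y ∉ M.A → y ∉ M.U → y ∉ M.I → M.eta y = Y.eta + (π.sg y).im := by
    intro y hA hU hI
    rw [hM.A] at hA
    rw [hM.U] at hU
    rw [hM.I] at hI
    have h1 := hM.b y
    rw [kp, if_neg hA, cp, if_neg hU, if_neg (not_or.2 ⟨hA, hI⟩)] at h1
    unfold Med.eta
    rw [h1]
    simp
  have hdiv : ∀ y, Sf.s (n + 1) * P.Cz * (F.err y / P.kap (n + 1)) ≤ P.Cz * F.err y := by
    intro y
    have h1 : Sf.s (n + 1) * P.Cz * (F.err y / P.kap (n + 1)) =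
        Sf.s (n + 1) / P.kap (n + 1) * (P.Cz * F.err y) := by
      field_simp
    rw [h1]
    have h2 : Sf.s (n + 1) / P.kap (n + 1) ≤ 1 := (div_le_one hk1).2 hs
    have h3 := mul_nonneg hP.Cz (hF.err y)
    nlinarith
  refine ⟨hK, one_pos, fun y hy => ?_, fun y hy => ?_, fun y _ => ?_, fun y hy => ?_,
    fun y hA hU hI => ?_, fun y hA hU hI => ?_, fun y hy => ?_, fun y hy => ?_, he, hth⟩
  · obtain ⟨h1, h2⟩ := hkA y hy
    rw [one_mul, h1]
    refine hlo _ _ h2 ?_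
    rw [← h1]
    exact hG.klo y hy
  · obtain ⟨h1, h2⟩ := hkA y hy
    rw [one_mul, h1]
    exact hhi _ _ (by omega)
  · rw [one_mul]
    exact (hdiv y).trans ((mul_le_mul_of_nonneg_left (hb.err y) hP.Cz).trans hz1)
  · have h1 : P.cl * P.kap (n + 1) ≤ M.k y := hG.klo y hy
    have h2 : Sf.s (n + 1) * P.Cz * F.be y * Sf.om (π.lev y) (v y) ≤
        P.kap (n + 1) * (P.Cz * e2) := by
      have a1 := mul_le_mul hs (hbe y) (hbe0 y) hk1.le
      have a2 : 0 ≤ Sf.s (n + 1) * (P.Cz * F.be y) := mul_nonneg hs0 (hbe0 y)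
      have a3 := mul_le_mul_of_nonneg_left (hom (π.lev y) (v y)) a2
      nlinarith
    have h3 := mul_le_mul_of_nonneg_left hz2 hk1.le
    have h4 := mul_le_mul_of_nonneg_left h1 he
    rw [one_mul]
    nlinarith
  · rw [one_mul]
    have h1 := heS y hA hU hI
    have h2 := hiog y hU
    rw [hM.A] at hA
    rw [hM.U] at hU
    rw [hM.I] at hI
    have h3 := hst y hA hU hI
    have h4 := hhi (π.lev y) (v y) (hlev y hA hU hI)
    have h5 := hS.phi (n + 1) (π.lev y) (v y)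
    have h6 := mul_le_mul h4 (h2.trans hc1) (hio y) (h5.trans h4)
    rw [h1]
    nlinarith
  · rw [one_mul]
    have h1 : P.eta + P.cs * P.kap (n + 1) ≤ M.eta y := hG.eS y hA hU hI
    have h2 := hiog y hU
    have a1 := mul_le_mul hs (hbe y) (hbe0 y) hk1.le
    have a2 : 0 ≤ Sf.s (n + 1) * (P.Cz * F.be y) := mul_nonneg hs0 (hbe0 y)
    have a3 : Sf.om (π.lev y) (v y) * io M y ≤ 1 * (f.g0.im + (P.del0 + e1)) :=
      mul_le_mul (hom _ _) h2 (hio y) zero_le_one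
    have a4 := mul_le_mul a1 a3 (mul_nonneg (hS.om _ _) (hio y))
      (a2.trans a1)
    have a5 := mul_le_mul_of_nonneg_left hz3 hk1.le
    have a6 := mul_le_mul_of_nonneg_left h1 he
    have a7 := mul_nonneg he hN.eta.le
    nlinarith
  · rw [hM.I] at hy
    exact hI1 y hy
  · rw [hM.I] at hy
    exact hI2 y hy

end Pool.Agent.AND
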