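import Pool.Agent.AND.Good

/-! # AND / Freeze: a good medium stays good when active sites become static with their current self energies
(the Green function does not change), and the elementary monotonicity of `Good` in the tolerances. -/

open Matrix Finset

noncomputable section

namespace Pool.Agent.AND

open Pool.Agent.Kin Pool.Agent.APS

variable {d L : ℕ} [NeZero L]

/-- the sites of `N` become static -/
def Med.freeze {T : Type} [DecidableEq T] (M : Med T) (N : Finset T) : Med T where
  A := M.A \ N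
  U := M.U
  I := M.I
  k := fun x => if x ∈ N then 0 else M.k x
  b := M.b

/-- the sites of `N ∩ act` become static with self energies `s` -/
def Prof.freeze {T : Type} [DecidableEq T] (π : Prof T) (N : Finset T) (s : T → ℂ) : Prof T where
  lev := π.lev
  act := π.act \ N
  rd := π.rd
  ine := π.ine
  sg := fun x => if x ∈ π.act ∩ N then s x else π.sg x

theorem IsMed.freeze {X T : Type} [Fintype T] [DecidableEq T] {H : Matrix T T ℂ} {Y : Sys X}
    {π : Prof T} {v : T → X} {M : Med T} (h : IsMed H Y π v M)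
    (hai : Disjoint π.act π.ine) (har : Disjoint π.act π.rd) (N : Finset T) :
    IsMed H Y (π.freeze N fun x => (M.k x : ℂ) * rsc H M.b x x) v (M.freeze N) where
  A := by
    show M.A \ N = π.act \ N
    rw [h.A]
  U := h.U
  I := h.I
  k := by
    funext x
    show (if x ∈ N then 0 else M.k x) = kp Y (π.freeze N _) v x
    rw [h.k]
    unfold kp Prof.freeze
    by_cases hx : x ∈ N <;> by_cases hA : x ∈ π.act <;> simp [hx, hA]
  b := by
    intro x
    show M.b x = _
    have h0 : rsc H (M.freeze N).b x x = rsc H M.b x x := rfl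
    rw [h0, h.b x]
    unfold cp kp Prof.freeze
    by_cases hx : x ∈ N
    · by_cases hA : x ∈ π.act
      · have hI : x ∉ π.ine := Finset.disjoint_left.1 hai hA
        have hk : (M.k x : ℂ) = (Y.kk (π.lev x) (v x) : ℂ) := by
          rw [h.k]
          simp [kp, hA]
        have hr : x ∉ π.rd := Finset.disjoint_left.1 har hA
        simp [hx, hA, hI, hr, hk]
        ring
      · simp [hx, hA]
    · simp [hx]
  unit := h.unit
  pos := fun x hx => h.pos x (Finset.mem_sdiff.1 hx).1

/-- stability under freezing -/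
theorem Good.freeze {f : Fix} {t : Tol d L} {M : Med (Tor d L)} (h : Good f t M)
    (N : Finset (Tor d L)) (ha : ∀ K x, 0 ≤ t.a K x)
    (hst : ∀ x ∈ N, x ∈ M.A → t.st ≤ M.k x * (rsc (H0T d L) M.b x x).im) :
    Good f { t with z := fun K x => t.z K x + (if x ∈ N ∩ M.A then t.a K x else 0) }
      (M.freeze N) where
  AU := h.AU.mono_left Finset.sdiff_subset
  AI := h.AI.mono_left Finset.sdiff_subset
  UI := h.UI
  unit := h.unit
  k0 := by
    intro x hx
    show (if x ∈ N then 0 else M.k x) = 0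
    by_cases hN : x ∈ N
    · rw [if_pos hN]
    · rw [if_neg hN]
      refine h.k0 x fun hA => hx ?_
      exact Finset.mem_sdiff.2 ⟨hA, hN⟩
  klo := by
    intro x hx
    have hx' := Finset.mem_sdiff.1 hx
    show t.kl ≤ if x ∈ N then 0 else M.k x
    rw [if_neg hx'.2]
    exact h.klo x hx'.1
  khi := by
    intro x hx
    have hx' := Finset.mem_sdiff.1 hx
    show (if x ∈ N then 0 else M.k x) ≤ t.k
    rw [if_neg hx'.2]
    exact h.khi x hx'.1
  eU := h.eU
  eA := by
    intro x hx
    have hx' := Finset.mem_sdiff.1 hx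
    show M.eta x = t.eta + (if x ∈ N then 0 else M.k x) * _
    rw [if_neg hx'.2]
    exact h.eA x hx'.1
  eI := h.eI
  eS := by
    intro x hA hU hI
    show t.eta + t.st ≤ M.eta x
    by_cases hxA : x ∈ M.A
    · have hN : x ∈ N := by
        by_contra hN
        exact hA (Finset.mem_sdiff.2 ⟨hxA, hN⟩)
      rw [h.eA x hxA]
      have := hst x hN hxA
      linarith
    · exact h.eS x hxA hU hI
  eS1 := h.eS1
  h1 := h.h1
  h2 := by
    intro x hx
    refine le_trans ?_ (h.h2 x hx)
    exact Finset.sum_le_sum_of_subset_of_nonneg Finset.sdiff_subset fun y _ _ => by positivity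
  h3 := by
    intro K hK x hx
    have h3 := h.h3 K hK x hx
    show ‖∑ y ∈ M.A \ N, rsc (H0T d L) M.b x y ^ 2 * (t.a K y : ℂ)‖ ≤
      ∑ y ∈ M.nr, ‖rsc (H0T d L) M.b x y‖ ^ 2 *
        (t.z K y + (if y ∈ N ∩ M.A then t.a K y else 0))
    have e1 : ∑ y ∈ M.A, rsc (H0T d L) M.b x y ^ 2 * (t.a K y : ℂ) =
        ∑ y ∈ M.A \ N, rsc (H0T d L) M.b x y ^ 2 * (t.a K y : ℂ) +
          ∑ y ∈ M.A ∩ N, rsc (H0T d L) M.b x y ^ 2 * (t.a K y : ℂ) := by
      rw [← Finset.sum_sdiff (Finset.inter_subset_left : M.A ∩ N ⊆ M.A)]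
      congr 1
      refine Finset.sum_congr ?_ fun _ _ => rfl
      rw [Finset.sdiff_inter_self_left]
    have e2 : ‖∑ y ∈ M.A ∩ N, rsc (H0T d L) M.b x y ^ 2 * (t.a K y : ℂ)‖ ≤
        ∑ y ∈ M.A ∩ N, ‖rsc (H0T d L) M.b x y‖ ^ 2 * t.a K y := by
      refine (norm_sum_le _ _).trans (Finset.sum_le_sum fun y _ => ?_)
      rw [norm_mul, norm_pow, Complex.norm_real, Real.norm_eq_abs, abs_of_nonneg (ha K y)]
    have e3 : ∑ y ∈ M.nr, ‖rsc (H0T d L) M.b x y‖ ^ 2 *
        (if y ∈ N ∩ M.A then t.a K y else 0) =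
        ∑ y ∈ M.A ∩ N, ‖rsc (H0T d L) M.b x y‖ ^ 2 * t.a K y := by
      rw [← Finset.sum_filter_add_sum_filter_not M.nr (fun y => y ∈ N ∩ M.A)]
      have e4 : M.nr.filter (fun y => y ∈ N ∩ M.A) = M.A ∩ N := by
        ext y
        simp only [Finset.mem_filter, Finset.mem_inter]
        constructor
        · rintro ⟨-, h1, h2⟩
          exact ⟨h2, h1⟩
        · rintro ⟨h1, h2⟩
          refine ⟨?_, h2, h1⟩
          unfold Med.nr
          rw [Finset.mem_compl]
          exact Finset.disjoint_left.1 h.AU h1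
      rw [e4]
      have e5 : ∑ y ∈ M.nr.filter (fun y => ¬ y ∈ N ∩ M.A), ‖rsc (H0T d L) M.b x y‖ ^ 2 *
          (if y ∈ N ∩ M.A then t.a K y else 0) = 0 := by
        refine Finset.sum_eq_zero fun y hy => ?_
        rw [if_neg (Finset.mem_filter.1 hy).2, mul_zero]
      rw [e5, add_zero]
      refine Finset.sum_congr rfl fun y hy => ?_
      rw [if_pos]
      rw [Finset.inter_comm]
      exact hy
    simp only [mul_add, Finset.sum_add_distrib]
    rw [e3]
    have e6 : ∑ y ∈ M.A \ N, rsc (H0T d L) M.b x y ^ 2 * (t.a K y : ℂ) =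
        ∑ y ∈ M.A, rsc (H0T d L) M.b x y ^ 2 * (t.a K y : ℂ) -
          ∑ y ∈ M.A ∩ N, rsc (H0T d L) M.b x y ^ 2 * (t.a K y : ℂ) := by
      rw [e1]
      ring
    rw [e6]
    refine (norm_sub_le _ _).trans (add_le_add h3 e2)
  h4l := h.h4l
  h4u := h.h4u
  h5 := h.h5

end Pool.Agent.AND
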