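import Pool.Agent.AND.Sched
import Pool.Agent.AND.Freeze

/-! # AND / Level: `Good` is monotone in the tolerances; monotonicity of `tolAt` in the fields; level change; freezing in `tolAt` form -/

open Matrix Finset

noncomputable section

namespace Pool.Agent.AND

open Pool.Agent.Kin Pool.Agent.APS

variable {d L : ℕ} [NeZero L]

/-- `t'` is weaker than `t` for the medium `M` -/
structure Tol.Le (t t' : Tol d L) (M : Med (Tor d L)) : Prop where
  kl : t'.kl ≤ t.kl
  k : ∀ x ∈ M.A, M.k x ≤ t'.k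
  eta : t'.eta = t.eta
  st : t'.st ≤ t.st
  del : ∀ x, t.del x ≤ t'.del x
  tau : ∀ x, t.tau x ≤ t'.tau x
  Ks : t'.Ks ⊆ t.Ks
  a : ∀ K ∈ t'.Ks, ∀ x ∈ M.A, t'.a K x = t.a K x
  z : ∀ K ∈ t'.Ks, ∀ x, x ∉ M.U → t.z K x ≤ t'.z K x
  D : ∀ i x, t'.D i x ≤ t.D i x
  dl0 : ∀ x, x ∉ M.U → 0 ≤ t.dl x
  dl : ∀ x, x ∉ M.U → t.dl x ≤ t'.dl x
  C0 : ∀ i x, t.C0 i x ≤ t'.C0 i x
  g5 : ∀ x y, t.g5 x y ≤ t'.g5 x y

theorem DW_mono {w w' : Fin d → Tor d L → ℝ} (h : ∀ i x, w i x ≤ w' i x) (a : Tor d L → ℝ) :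
    DW w a ≤ DW w' a := by
  unfold DW
  exact Finset.sum_le_sum fun i _ => Finset.sum_le_sum fun x _ =>
    mul_le_mul_of_nonneg_right (h i x) (sq_nonneg _)

/-- `Good` is monotone in the tolerances -/
theorem Good.mono {f : Fix} {t t' : Tol d L} {M : Med (Tor d L)} (h : Good f t M)
    (hle : t.Le t' M) (hm : ∀ x, x ∉ M.U → 0 ≤ M.eta x * (rsc (H0T d L) M.b x x).im) :
    Good f t' M where
  AU := h.AU
  AI := h.AI
  UI := h.UI
  unit := h.unit
  k0 := h.k0
  klo := fun x hx => hle.kl.trans (h.klo x hx)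
  khi := hle.k
  eU := h.eU
  eA := by
    intro x hx
    rw [hle.eta]
    exact h.eA x hx
  eI := by
    intro x hx
    rw [hle.eta]
    exact h.eI x hx
  eS := by
    intro x h1 h2 h3
    have := h.eS x h1 h2 h3
    have h4 := hle.st
    rw [hle.eta]
    linarith
  eS1 := h.eS1
  h1 := fun x hx => (h.h1 x hx).trans (hle.del x)
  h2 := fun x hx => (h.h2 x hx).trans (hle.tau x)
  h3 := by
    intro K hK x hx
    have h3 := h.h3 K (hle.Ks hK) x hx
    have e1 : ∑ y ∈ M.A, rsc (H0T d L) M.b x y ^ 2 * (t'.a K y : ℂ) =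
        ∑ y ∈ M.A, rsc (H0T d L) M.b x y ^ 2 * (t.a K y : ℂ) :=
      Finset.sum_congr rfl fun y hy => by rw [hle.a K hK y hy]
    rw [e1]
    refine h3.trans (Finset.sum_le_sum fun y hy => ?_)
    refine mul_le_mul_of_nonneg_left (hle.z K hK y ?_) (sq_nonneg _)
    have : y ∈ M.Uᶜ := hy
    exact Finset.mem_compl.1 this
  h4l := by
    intro u
    obtain ⟨a, ha⟩ := h.h4l u
    refine ⟨a, le_trans (add_le_add (DW_mono hle.D a) ?_) ha⟩
    refine Finset.sum_le_sum fun x hx => ?_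
    have hx' : x ∉ M.U := by
      have : x ∈ M.Uᶜ := hx
      exact Finset.mem_compl.1 this
    have h0 := hle.dl0 x hx'
    have h1 := hle.dl x hx'
    have h2 : 0 ≤ M.eta x * (rsc (H0T d L) M.b x x).im * (u x - a x) ^ 2 :=
      mul_nonneg (hm x hx') (sq_nonneg _)
    exact div_le_div_of_nonneg_left h2 (by linarith) (by linarith)
  h4u := fun a => (h.h4u a).trans (DW_mono hle.C0 a)
  h5 := fun x y hx hy => (h.h5 x y hx hy).trans (hle.g5 x y)

/-- signs of the parameters -/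
structure Par.Pos (P : Par) : Prop where
  kap : ∀ n, 0 < P.kap n
  anti : ∀ n, P.kap (n + 1) ≤ P.kap n
  b : 0 ≤ P.b
  eta : 0 ≤ P.eta
  cl : 0 ≤ P.cl
  cs : 0 ≤ P.cs
  D0 : 0 ≤ P.D0
  CD : 0 ≤ P.CD
  C00 : 0 ≤ P.C00
  e0 : 0 ≤ P.e0
  Ce : 0 ≤ P.Ce
  dS : 0 ≤ P.dS
  Cz : 0 ≤ P.Cz

/-- signs of the site functions; the sets `Ks` decrease -/
structure SiteF.Pos {X : Type} (Sf : SiteF X) : Prop where
  phi : ∀ K n a, 0 ≤ Sf.phi K n a
  om : ∀ n a, 0 ≤ Sf.om n a
  s : ∀ K, 0 ≤ Sf.s K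
  Ks : ∀ n, Sf.Ks (n + 1) ⊆ Sf.Ks n

/-- comparison of fields -/
structure Fld.Le (F F' : Fld (Tor d L)) : Prop where
  err : ∀ x, F.err x ≤ F'.err x
  et : ∀ x, F.et x ≤ F'.et x
  be : ∀ x, F.be x ≤ F'.be x
  ae : ∀ x, F.ae x ≤ F'.ae x
  g5 : ∀ x y, F.g5 x y ≤ F'.g5 x y

/-- signs of the fields -/
structure Fld.Pos (F : Fld (Tor d L)) : Prop where
  err : ∀ x, 0 ≤ F.err x
  et : ∀ x, 0 ≤ F.et x
  be : ∀ x, 0 ≤ F.be x
  ae : ∀ x, 0 ≤ F.ae x

theorem Fld.Le.refl (F : Fld (Tor d L)) : F.Le F :=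
  ⟨fun _ => le_rfl, fun _ => le_rfl, fun _ => le_rfl, fun _ => le_rfl, fun _ _ => le_rfl⟩

theorem Fld.Le.trans {F F' F'' : Fld (Tor d L)} (h : F.Le F') (h' : F'.Le F'') : F.Le F'' :=
  ⟨fun x => (h.err x).trans (h'.err x), fun x => (h.et x).trans (h'.et x),
    fun x => (h.be x).trans (h'.be x),
    fun x => (h.ae x).trans (h'.ae x), fun x y => (h.g5 x y).trans (h'.g5 x y)⟩

theorem Fld.Pos.mono {F F' : Fld (Tor d L)} (h : F.Pos) (h' : F.Le F') : F'.Pos :=
  ⟨fun x => (h.err x).trans (h'.err x), fun x => (h.et x).trans (h'.et x),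
    fun x => (h.be x).trans (h'.be x),
    fun x => (h.ae x).trans (h'.ae x)⟩

theorem ph_nonneg {κ v b : ℝ} (hκ : 0 < κ) (s : ℕ) (x c : Tor d L) : 0 ≤ ph κ v b s x c := by
  unfold ph
  split_ifs
  · positivity
  · positivity

theorem ph5_nonneg {κ v b Cg : ℝ} (hκ : 0 < κ) (s : ℕ) (x y c : Tor d L) :
    0 ≤ ph5 κ v b Cg s x y c := by
  unfold ph5
  split_ifs
  · exact le_min (by positivity) (by positivity)
  · positivity

theorem ph5i_nonneg {κ v b s5 : ℝ} (hκ : 0 < κ) (s : ℕ) (x y c : Tor d L) :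
    0 ≤ ph5i κ v b s5 s x y c := by
  unfold ph5i
  split_ifs
  · have : (0 : ℝ) ≤ max 1 (ANP.dT x y : ℝ) := le_max_of_le_left zero_le_one
    positivity
  · positivity

theorem Fld.le_add {P : Par} (hP : P.Pos) (n s : ℕ) (F : Fld (Tor d L))
    (C : Finset (Tor d L)) : F.Le (F.add P n s C) := by
  have hs : ∀ x, 0 ≤ ∑ c ∈ C, ph (P.kap n) P.v P.b s x c := fun x =>
    Finset.sum_nonneg fun c _ => ph_nonneg (hP.kap n) s x c
  have hk := hP.kap n
  have he := hP.eta
  refine ⟨fun x => ?_, fun x => ?_, fun x => ?_, fun x => ?_, fun x y => ?_⟩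
  · exact le_add_of_nonneg_right (hs x)
  · exact le_add_of_nonneg_right
      (Finset.sum_nonneg fun c _ => ph_nonneg (hP.kap n) s x c)
  · exact le_add_of_nonneg_right (mul_nonneg (by positivity) (hs x))
  · exact le_add_of_nonneg_right (mul_nonneg (by positivity) (hs x))
  · exact le_add_of_nonneg_right (Finset.sum_nonneg fun c _ => ph5_nonneg hk s x y c)

theorem Fld.le_ins {P : Par} (hP : P.Pos) (n s m : ℕ) (F : Fld (Tor d L))
    (C : Finset (Tor d L)) : F.Le (F.ins P n s m C) := by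
  have hs : ∀ x, 0 ≤ ∑ c ∈ C, ph (P.kap n) P.vi P.b s x c := fun x =>
    Finset.sum_nonneg fun c _ => ph_nonneg (hP.kap n) s x c
  have hk := hP.kap n
  have he := hP.eta
  have hm : (0 : ℝ) ≤ m := Nat.cast_nonneg m
  refine ⟨fun x => ?_, fun x => ?_, fun x => ?_, fun x => ?_, fun x y => ?_⟩
  · exact le_add_of_nonneg_right (mul_nonneg hm (hs x))
  · exact le_add_of_nonneg_right (mul_nonneg hm
      (Finset.sum_nonneg fun c _ => ph_nonneg (hP.kap n) s x c))
  · exact le_add_of_nonneg_right (mul_nonneg (by positivity) (mul_nonneg hm (hs x)))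
  · exact le_add_of_nonneg_right (mul_nonneg (by positivity) (mul_nonneg hm (hs x)))
  · exact le_add_of_nonneg_right
      (mul_nonneg hm (Finset.sum_nonneg fun c _ => ph5i_nonneg hk s x y c))

/-- `tolAt` is monotone in the fields -/
theorem tolAt_le_fld {X : Type} {P : Par} (hP : P.Pos) {Sf : SiteF X} (hS : Sf.Pos)
    {F F' : Fld (Tor d L)} (hF : F.Pos) (hle : F.Le F') (f : Fix) (n : ℕ) (π : Prof (Tor d L))
    (v : Tor d L → X) {M : Med (Tor d L)} (hG : Good f (tolAt P Sf n F π v M) M)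
    (hio : ∀ x, x ∉ M.U → 0 ≤ (rsc (H0T d L) M.b x x).im) (he : ∀ x, 0 ≤ M.eta x) :
    (tolAt P Sf n F π v M).Le (tolAt P Sf n F' π v M) M where
  kl := le_rfl
  k := hG.khi
  eta := rfl
  st := le_rfl
  del := fun x => add_le_add_right (hle.err x) _
  tau := fun x => mul_le_mul_of_nonneg_left (add_le_add_right (hle.et x) _)
    (Real.rpow_nonneg (hP.kap n).le _)
  Ks := subset_rfl
  a := fun _ _ _ _ => rfl
  z := by
    intro K _ x hx
    show _ + _ ≤ _ + _
    refine add_le_add_right ?_ _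
    refine mul_le_mul_of_nonneg_left (add_le_add ?_ ?_) (mul_nonneg (hS.s K) hP.Cz)
    · refine mul_le_mul_of_nonneg_right (hle.err x) (div_nonneg ?_ (hP.kap _).le)
      split_ifs
      · exact hP.eta
      · exact he x
    · exact mul_le_mul_of_nonneg_right (hle.be x) (mul_nonneg (hS.om _ _) (hio x hx))
  D := by
    intro i x
    show P.D0 * (1 - P.CD * F'.err x) ≤ P.D0 * (1 - P.CD * F.err x)
    have := mul_le_mul_of_nonneg_left (hle.err x) hP.CD
    exact mul_le_mul_of_nonneg_left (by linarith) hP.D0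
  dl0 := by
    intro x hx
    show 0 ≤ if x ∈ M.A then _ else _
    split_ifs
    · exact mul_nonneg (add_nonneg hP.e0 (mul_nonneg hP.Ce (hF.ae x)))
        (mul_nonneg (he x) (hio x hx))
    · have := hF.err x
      exact mul_nonneg hP.dS (by linarith)
  dl := by
    intro x hx
    show (if x ∈ M.A then _ else _) ≤ (if x ∈ M.A then _ else _)
    split_ifs
    · exact mul_le_mul_of_nonneg_right
        (add_le_add_right (mul_le_mul_of_nonneg_left (hle.ae x) hP.Ce) _)
        (mul_nonneg (he x) (hio x hx))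
    · exact mul_le_mul_of_nonneg_left (add_le_add_right (hle.err x) _) hP.dS
  C0 := by
    intro i x
    show P.C00 * (1 + P.CD * F.err x) ≤ P.C00 * (1 + P.CD * F'.err x)
    have := mul_le_mul_of_nonneg_left (hle.err x) hP.CD
    exact mul_le_mul_of_nonneg_left (by linarith) hP.C00
  g5 := hle.g5

/-- change of the level -/
theorem tolAt_le_level {X : Type} {P : Par} (hP : P.Pos) {Sf : SiteF X} (hS : Sf.Pos)
    {F : Fld (Tor d L)} (hF : F.Pos) (n : ℕ) (π : Prof (Tor d L))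
    (v : Tor d L → X) {M : Med (Tor d L)} (hk : ∀ x ∈ M.A, M.k x ≤ P.kap (n + 1))
    (hio : ∀ x, x ∉ M.U → 0 ≤ (rsc (H0T d L) M.b x x).im) (he : ∀ x, 0 ≤ M.eta x) :
    (tolAt P Sf n F π v M).Le (tolAt P Sf (n + 1) F π v M) M where
  kl := mul_le_mul_of_nonneg_left (hP.anti (n + 1)) hP.cl
  k := hk
  eta := rfl
  st := mul_le_mul_of_nonneg_left (hP.anti (n + 1)) hP.cs
  del := fun x => le_rfl
  tau := fun x => by
    have h1 : (0 : ℝ) ≤ 1 + F.et x := by
      have := hF.et x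
      linarith
    refine mul_le_mul_of_nonneg_right ?_ h1
    exact Real.rpow_le_rpow_of_nonpos (hP.kap _) (hP.anti n) (by norm_num)
  Ks := hS.Ks n
  a := fun _ _ _ _ => rfl
  z := by
    intro K _ x hx
    show _ + _ ≤ _ + _
    refine add_le_add_right ?_ _
    refine mul_le_mul_of_nonneg_left (add_le_add ?_ le_rfl) (mul_nonneg (hS.s K) hP.Cz)
    refine mul_le_mul_of_nonneg_left ?_ (hF.err x)
    have h1 : 0 ≤ (if x ∈ M.A then P.eta else M.eta x) := by
      split_ifs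
      · exact hP.eta
      · exact he x
    exact div_le_div_of_nonneg_left h1 (hP.kap _) (hP.anti (n + 1))
  D := fun _ _ => le_rfl
  dl0 := by
    intro x hx
    show 0 ≤ if x ∈ M.A then _ else _
    split_ifs
    · exact mul_nonneg (add_nonneg hP.e0 (mul_nonneg hP.Ce (hF.ae x)))
        (mul_nonneg (he x) (hio x hx))
    · have := hF.err x
      exact mul_nonneg hP.dS (by linarith)
  dl := fun _ _ => le_rfl
  C0 := fun _ _ => le_rfl
  g5 := fun _ _ => le_rfl

/-- freezing active sites: the tolerances `tolAt` are enough -/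
theorem Good.freeze_tolAt {X : Type} {P : Par} (hP : P.Pos) {Sf : SiteF X} (hS : Sf.Pos)
    {F : Fld (Tor d L)} (hF : F.Pos) {f : Fix} {n : ℕ} {π : Prof (Tor d L)} (sg : Tor d L → ℂ)
    {v : Tor d L → X} {M : Med (Tor d L)} (hG : Good f (tolAt P Sf n F π v M) M)
    (hio : ∀ x, x ∉ M.U → 0 ≤ (rsc (H0T d L) M.b x x).im) (he : ∀ x, 0 ≤ M.eta x)
    (heta : ∀ x ∈ M.A, P.eta ≤ M.eta x) (N : Finset (Tor d L))
    (hst : ∀ x ∈ N, x ∈ M.A →
      P.cs * P.kap (n + 1) ≤ M.k x * (rsc (H0T d L) M.b x x).im)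
    (hdl : ∀ x ∈ N, x ∈ M.A → (P.e0 + P.Ce * F.ae x) *
      (M.eta x * (rsc (H0T d L) M.b x x).im) ≤ P.dS) :
    Good f (tolAt P Sf n F (π.freeze N sg) v (M.freeze N)) (M.freeze N) := by
  have h1 := hG.freeze N (by
    intro K x
    show 0 ≤ if x ∈ M.A then _ else _
    split_ifs with hx
    · exact mul_nonneg (hS.phi _ _ _) (hio x (Finset.disjoint_left.1 hG.AU hx))
    · exact le_rfl) hst
  refine h1.mono ?_ ?_
  · have hA : ∀ x, x ∈ (M.freeze N).A ↔ x ∈ M.A ∧ x ∉ N := fun x => Finset.mem_sdiff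
    refine ⟨le_rfl, h1.khi, rfl, le_rfl, fun _ => le_rfl, fun _ => le_rfl, subset_rfl, ?_, ?_,
      fun _ _ => le_rfl, ?_, ?_, fun _ _ => le_rfl, fun _ _ => le_rfl⟩
    · intro K _ x hx
      show (if x ∈ (M.freeze N).A then _ else _) = if x ∈ M.A then _ else _
      rw [if_pos hx, if_pos ((hA x).1 hx).1]
      rfl
    · intro K _ x hx
      show ((if x ∈ M.A then (0 : ℝ) else
          Sf.phi K (π.lev x) (v x) * (rsc (H0T d L) M.b x x).im) +
        Sf.s K * P.Cz * (F.err x * ((if x ∈ M.A then P.eta else M.eta x) / P.kap (n + 1)) +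
          F.be x * (Sf.om (π.lev x) (v x) * (rsc (H0T d L) M.b x x).im))) +
        (if x ∈ N ∩ M.A then (if x ∈ M.A then
          Sf.phi K (π.lev x) (v x) * (rsc (H0T d L) M.b x x).im else 0) else 0) ≤
        (if x ∈ (M.freeze N).A then (0 : ℝ) else
          Sf.phi K (π.lev x) (v x) * (rsc (H0T d L) M.b x x).im) +
        Sf.s K * P.Cz * (F.err x *
          ((if x ∈ (M.freeze N).A then P.eta else M.eta x) / P.kap (n + 1)) +
          F.be x * (Sf.om (π.lev x) (v x) * (rsc (H0T d L) M.b x x).im))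
      by_cases hxA : x ∈ M.A
      · by_cases hxN : x ∈ N
        · have e1 : x ∉ (M.freeze N).A := fun h => ((hA x).1 h).2 hxN
          rw [if_pos hxA, if_pos hxA, if_pos (Finset.mem_inter.2 ⟨hxN, hxA⟩), if_pos hxA,
            if_neg e1, if_neg e1]
          have h3 : F.err x * (P.eta / P.kap (n + 1)) ≤ F.err x * (M.eta x / P.kap (n + 1)) :=
            mul_le_mul_of_nonneg_left
              (div_le_div_of_nonneg_right (heta x hxA) (hP.kap _).le) (hF.err x)
          have h4 : Sf.s K * P.Cz * (F.err x * (P.eta / P.kap (n + 1)) +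
              F.be x * (Sf.om (π.lev x) (v x) * (rsc (H0T d L) M.b x x).im)) ≤
              Sf.s K * P.Cz * (F.err x * (M.eta x / P.kap (n + 1)) +
              F.be x * (Sf.om (π.lev x) (v x) * (rsc (H0T d L) M.b x x).im)) :=
            mul_le_mul_of_nonneg_left (by linarith) (mul_nonneg (hS.s K) hP.Cz)
          linarith
        · have e1 : x ∈ (M.freeze N).A := (hA x).2 ⟨hxA, hxN⟩
          rw [if_pos hxA, if_pos hxA, if_neg (fun h => hxN (Finset.mem_inter.1 h).1),
            if_pos e1, if_pos e1]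
          linarith
      · have e1 : x ∉ (M.freeze N).A := fun h => hxA ((hA x).1 h).1
        rw [if_neg hxA, if_neg hxA, if_neg (fun h => hxA (Finset.mem_inter.1 h).2),
          if_neg e1, if_neg e1]
        linarith
    · intro x hx
      show 0 ≤ if x ∈ M.A then _ else _
      split_ifs
      · exact mul_nonneg (add_nonneg hP.e0 (mul_nonneg hP.Ce (hF.ae x)))
          (mul_nonneg (he x) (hio x hx))
      · have := hF.err x
        exact mul_nonneg hP.dS (by linarith)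
    · intro x hx
      show (if x ∈ M.A then (P.e0 + P.Ce * F.ae x) *
        (M.eta x * (rsc (H0T d L) M.b x x).im) else P.dS * (1 + F.err x)) ≤
        (if x ∈ (M.freeze N).A then (P.e0 + P.Ce * F.ae x) *
        (M.eta x * (rsc (H0T d L) M.b x x).im) else P.dS * (1 + F.err x))
      by_cases hxA : x ∈ M.A
      · by_cases hxN : x ∈ N
        · have e1 : x ∉ (M.freeze N).A := fun h => ((hA x).1 h).2 hxN
          rw [if_pos hxA, if_neg e1]
          have h3 := hdl x hxN hxA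
          have h4 := hF.err x
          have h5 := mul_nonneg hP.dS h4
          nlinarith
        · have e1 : x ∈ (M.freeze N).A := (hA x).2 ⟨hxA, hxN⟩
          rw [if_pos hxA, if_pos e1]
      · have e1 : x ∉ (M.freeze N).A := fun h => hxA ((hA x).1 h).1
        rw [if_neg hxA, if_neg e1]
  · intro x hx
    exact mul_nonneg (he x) (hio x hx)

end Pool.Agent.AND
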