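import Pool.Agent.AND.LeakHit
import Pool.Agent.ANL.Prob

/-! # AND LEAKABS: THE LEAK THEOREM FOR SEVERAL CLUSTERS (abstract form)

Finite product space `Λ → X` (weights `w`), information box `Bx K` (the past at the start of the super-stage).  Clusters
`i : I` with disjoint domains `P i`.  For the cluster `i`: `F i ⊆ D0 i ⊆ P i`, surfaces `bdy H (D i k)`, `k : Fin N`, inside `P i`,
target surface `bdy H (Dt i)`; `b i v` = diagonal of the medium in which the leverage of `F i` is tested; `Good i` = the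
configurations for which the test is made (no frozen cell near `F i`, a priori bounds).

`LkDat.cls`: two good configurations of the same box which are equal on `P i` off the transversal `s` have the same diagonals
on `P i \ D0 i`, up to the potentials on `s` and a relative error `ϑ` of the absorption.  Nothing is assumed off `P i`.

Conclusion: the probability that for ALL clusters the leverage is larger than `M` at some point of the target surface is at most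
`(ε ^ (5 n0)) ^ card I`. -/

open Matrix Finset

noncomputable section

namespace Pool.Agent.AND

open Pool.Agent.Kin Pool.Agent.APS Pool.Agent.ANP Pool.Agent.ANQ Pool.Agent.ANL

variable {Λ X : Type} [Fintype Λ] [DecidableEq Λ] [Fintype X] [DecidableEq X]
variable {w : Λ → X → ℝ}

/-- geometry of one cluster: `Dt` the target domain, `P` the domain outside of which nothing is compared -/
structure LkGeo (H : Matrix Λ Λ ℂ) (F D0 Dt P : Finset Λ) {N : ℕ} (D : Fin N → Finset Λ)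
    (h0 : ℝ) (nb n0 nP : ℕ) : Prop extends LGeo H F D0 D h0 nb where
  FDt : F ⊆ Dt
  D0P : D0 ⊆ P
  surf : ∀ i, bdy H (D i) ⊆ P
  outt : ∀ i, Disjoint (bdy H Dt) (D i)
  PDt : Disjoint (bdy H P) Dt
  cardt : (bdy H Dt).card ≤ nb
  card0 : (bdy H D0).card ≤ n0
  cardP : (bdy H P).card ≤ nP

/-- data of one cluster -/
structure LkDat (H : Matrix Λ Λ ℂ) (F D0 Dt P : Finset Λ) {N : ℕ} (D : Fin N → Finset Λ)
    (K : Λ → Set X) (f : Λ → X → ℝ) (b : (Λ → X) → Λ → ℂ) (Good : Set (Λ → X))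
    (ϑ c C δ : ℝ) : Prop where
  adm : ∀ v ∈ Bx K, v ∈ Good → Adm H (b v)
  red : ∀ v ∈ Bx K, v ∈ Good → ∀ s, IsTr H D s → Red H (b v) (fun j : ↥s => j.1) c C
  fle : ∀ i, ∀ x ∈ bdy H (D i), ∀ a ∈ K x, ∀ a' ∈ K x, |f x a - f x a'| ≤ 1
  cls : ∀ v ∈ Bx K, v ∈ Good → ∀ v' ∈ Bx K, v' ∈ Good → ∀ s, IsTr H D s →
    (∀ x ∈ P, x ∉ s → v x = v' x) → ∀ x ∈ P, x ∉ D0 →
    ‖b v x - b v' x - (if x ∈ s then (((f x (v x) - f x (v' x) : ℝ)) : ℂ) else 0)‖ ≤
      ϑ * (-(b v' x).im)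
  gt : ∀ v ∈ Bx K, v ∈ Good → ∀ i, ∀ a ∈ bdy H Dt, ∀ y ∈ bdy H (D i), ‖rsc H (b v) a y‖ ≤ C
  gP : ∀ v ∈ Bx K, v ∈ Good → ∀ x ∈ bdy H P, ∀ y ∈ bdy H P, ‖rsc H (b v) x y‖ ≤ C
  gW : ∀ v ∈ Bx K, v ∈ Good → ∀ i, ∀ y ∈ bdy H (D i), ∀ x ∈ bdy H P, ‖rsc H (b v) y x‖ ≤ C
  far : ∀ v ∈ Bx K, v ∈ Good → ∀ x ∈ bdy H P, ∀ y ∈ bdy H Dt, ‖rsc H (b v) x y‖ ≤ δ

/-- the leak event of one cluster -/
def LkEv (H : Matrix Λ Λ ℂ) (F Dt : Finset Λ) (b : (Λ → X) → Λ → ℂ) (Good : Set (Λ → X))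
    (M : ℝ) : Set (Λ → X) :=
  {v | v ∈ Good ∧ ∃ y ∈ bdy H Dt, ¬ LevLe H (b v) F y M}

/-- the leak event with a given transversal -/
def LkEvS (H : Matrix Λ Λ ℂ) (F Dt : Finset Λ) (b : (Λ → X) → Λ → ℂ) (Good : Set (Λ → X))
    (M R : ℝ) (s : Finset Λ) : Set (Λ → X) :=
  {v | v ∈ Good ∧ ∃ ψ : Λ → ℂ, IsWave H (b v) F ψ ∧ ∃ a ∈ bdy H Dt,
    M * leak (b v) F ψ < ‖ψ a‖ ^ 2 ∧ (∀ y ∈ bdy H Dt, ‖ψ y‖ ≤ ‖ψ a‖) ∧ ∀ x ∈ s, ‖ψ a‖ ≤ R * ‖ψ x‖}

/-- the finite set of transversals -/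
def trs (H : Matrix Λ Λ ℂ) {N : ℕ} (D : Fin N → Finset Λ) : Finset (Finset Λ) :=
  (Fintype.piFinset fun i => bdy H (D i)).image fun g => univ.image g

theorem mem_trs {H : Matrix Λ Λ ℂ} {N : ℕ} {D : Fin N → Finset Λ} {s : Finset Λ} :
    s ∈ trs H D ↔ IsTr H D s := by
  unfold trs IsTr
  rw [Finset.mem_image]
  constructor
  · rintro ⟨g, hg, rfl⟩
    exact ⟨g, Fintype.mem_piFinset.1 hg, rfl⟩
  · rintro ⟨g, hg, rfl⟩
    exact ⟨g, Fintype.mem_piFinset.2 hg, rfl⟩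

theorem card_trs {H : Matrix Λ Λ ℂ} {N nb : ℕ} {D : Fin N → Finset Λ}
    (h : ∀ i, (bdy H (D i)).card ≤ nb) : (trs H D).card ≤ nb ^ N := by
  refine Finset.card_image_le.trans ?_
  rw [Fintype.card_piFinset]
  refine (Finset.prod_le_prod' fun i _ => h i).trans ?_
  rw [Finset.prod_const, Finset.card_univ, Fintype.card_fin]

theorem tr_card {H : Matrix Λ Λ ℂ} {N : ℕ} {D : Fin N → Finset Λ}
    (hd : ∀ i j, i ≠ j → Disjoint (bdy H (D i)) (bdy H (D j))) {s : Finset Λ}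
    (hs : IsTr H D s) : s.card = N := by
  obtain ⟨g, hg, rfl⟩ := hs
  rw [Finset.card_image_of_injective, Finset.card_univ, Fintype.card_fin]
  intro i j hij
  by_contra hne
  have h2 := hg j
  rw [← hij] at h2
  exact Finset.disjoint_left.1 (hd i j hne) (hg i) h2

/-- a leak event has a transversal -/
theorem LkEv_sub {H : Matrix Λ Λ ℂ} {F D0 Dt P : Finset Λ} {N : ℕ} {D : Fin N → Finset Λ}
    {h0 : ℝ} {nb n0 nP : ℕ} (hG : LkGeo H F D0 Dt P D h0 nb n0 nP) {K : Λ → Set X}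
    {f : Λ → X → ℝ} {b : (Λ → X) → Λ → ℂ} {Good : Set (Λ → X)} {ϑ c C δ : ℝ}
    (hL : LkDat H F D0 Dt P D K f b Good ϑ c C δ) (hC : 1 ≤ C) {M : ℝ} {v : Λ → X}
    (hM : 0 ≤ M) (hv : v ∈ Bx K) (h : v ∈ LkEv H F Dt b Good M) :
    ∃ s ∈ trs H D, v ∈ LkEvS H F Dt b Good M (C * h0 * nb) s := by
  classical
  obtain ⟨hg, y, hy, hlev⟩ := h
  unfold LevLe at hlev
  push Not at hlev
  obtain ⟨ψ, hψ, hlt⟩ := hlev
  obtain ⟨a, ha, hmax⟩ := Finset.exists_max_image (bdy H Dt) (fun y => ‖ψ y‖) ⟨y, hy⟩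
  have hA : Adm H (b v) := hL.adm v hv hg
  have hlt' : M * leak (b v) F ψ < ‖ψ a‖ ^ 2 :=
    lt_of_lt_of_le hlt (pow_le_pow_left₀ (norm_nonneg _) (hmax y hy) 2)
  have ha0 : ψ a ≠ 0 := by
    intro h0
    rw [h0, norm_zero] at hlt'
    have := mul_nonneg hM (leak_nonneg (F := F) (ψ := ψ) hA.im)
    norm_num at hlt'
    linarith
  have hbig : ∀ i, ∃ x ∈ bdy H (D i), ‖ψ a‖ ≤ C * h0 * nb * ‖ψ x‖ := by
    intro i
    have haD : a ∉ D i := fun h => Finset.disjoint_left.1 (hG.outt i) ha h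
    obtain ⟨x, hx, h1⟩ := exists_big hA (hG.FD i) hψ haD hG.hop (by linarith)
      (fun y hy => hL.gt v hv hg i a ha y hy) ha0
    refine ⟨x, hx, h1.trans ?_⟩
    have h2 : ((bdy H (D i)).card : ℝ) ≤ nb := by exact_mod_cast hG.card i
    have h3 : 0 ≤ C * h0 := mul_nonneg (by linarith) (by linarith [hG.h01])
    exact mul_le_mul_of_nonneg_right (mul_le_mul_of_nonneg_left h2 h3) (norm_nonneg _)
  choose g hgm hgb using hbig
  refine ⟨univ.image g, mem_trs.2 ⟨g, hgm, rfl⟩, hg, ψ, hψ, a, ha, hlt', hmax, ?_⟩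
  intro x hx
  obtain ⟨i, -, rfl⟩ := Finset.mem_image.1 hx
  exact hgb i

/-- in the same section the leak event with transversal `s` forces the potentials on `s` into the exceptional set of the
reference `u` -/
theorem LkEvS_hit {H : Matrix Λ Λ ℂ} {F D0 Dt P : Finset Λ} {N : ℕ} {D : Fin N → Finset Λ}
    {h0 : ℝ} {nb n0 nP : ℕ} (hG : LkGeo H F D0 Dt P D h0 nb n0 nP) {K : Λ → Set X}
    {f : Λ → X → ℝ} {b : (Λ → X) → Λ → ℂ} {Good : Set (Λ → X)} {ϑ c C δ : ℝ}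
    (hL : LkDat H F D0 Dt P D K f b Good ϑ c C δ) (hc : 0 < c) (hc1 : c ≤ 1) (hC : 1 ≤ C)
    (hϑ : 0 ≤ ϑ) (hϑ2 : ϑ ≤ 1 / 2) (hδ0 : 0 ≤ δ) {M ε : ℝ} (hε : 0 < ε) (hε1 : ε ≤ 1)
    (hM0 : 0 < M) (hM : (48 * C ^ 3 * h0 * nb / (c * ε)) ^ 2 ≤ M)
    (hδ : 48 * C ^ 3 * h0 ^ 3 * nb ^ 2 * nP * δ ≤ c * ε) {s : Finset Λ} (hs : IsTr H D s)
    {u v : Λ → X} (hu : u ∈ Bx K) (hv : v ∈ Bx K) (huG : u ∈ Good)
    (hvE : v ∈ LkEvS H F Dt b Good M (C * h0 * nb) s) (huv : ∀ x ∈ P, x ∉ s → v x = u x) :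
    Hit (Amt H (b u) (fun j : ↥s => j.1) (bdy H D0)) (Bmt H (b u) (fun j : ↥s => j.1) (bdy H D0))
      ε (fun j : ↥s => f j.1 (v j.1) - f j.1 (u j.1)) := by
  classical
  obtain ⟨hvG, ψ, hψ, a, ha, hlt, hmax, hbig⟩ := hvE
  have hA := hL.adm v hv hvG
  have hAu := hL.adm u hu huG
  have hC0 : 0 < C := by linarith
  have hh0 : 0 < h0 := by linarith [hG.h01]
  set A := ‖ψ a‖ with hAd
  have hA2 : 0 < A ^ 2 := by
    have h1 := mul_nonneg hM0.le (leak_nonneg (F := F) (ψ := ψ) hA.im)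
    linarith
  have hA0 : 0 < A := by
    rcases (norm_nonneg (ψ a)).eq_or_lt with h | h
    · rw [hAd, ← h] at hA2
      norm_num at hA2
    · exact h
  -- sites of the transversal
  have hsite : ∀ j : ↥s, ∃ i, j.1 ∈ bdy H (D i) := by
    intro j
    obtain ⟨g, hg, rfl⟩ := hs
    obtain ⟨i, -, h1⟩ := Finset.mem_image.1 j.2
    exact ⟨i, h1 ▸ hg i⟩
  -- nb is positive
  have hsne : (0 : ℝ) < nb := by
    have h1 : 0 < (bdy H Dt).card := Finset.card_pos.2 ⟨a, ha⟩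
    exact_mod_cast lt_of_lt_of_le h1 hG.cardt
  -- the wave on the boundary of P
  have hP1 : ∀ x ∈ bdy H P, ‖ψ x‖ ≤ nb * δ * (h0 * A) := by
    intro x hx
    have hxt : x ∉ Dt := fun h => Finset.disjoint_left.1 hG.PDt hx h
    rw [rep hA hG.FDt hψ hxt]
    refine (norm_sum_le _ _).trans ?_
    have h1 : ∀ y ∈ bdy H Dt, ‖rsc H (b v) x y * src H Dt ψ y‖ ≤ δ * (h0 * A) := by
      intro y hy
      rw [norm_mul]
      exact mul_le_mul (hL.far v hv hvG x hx y hy)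
        (src_le hG.sym hG.hop hA0.le (fun y hy => hmax y hy) y) (norm_nonneg _) hδ0
    refine (Finset.sum_le_card_nsmul _ _ _ h1).trans ?_
    rw [nsmul_eq_mul]
    have h2 : ((bdy H Dt).card : ℝ) ≤ nb := by exact_mod_cast hG.cardt
    calc ((bdy H Dt).card : ℝ) * (δ * (h0 * A)) ≤ nb * (δ * (h0 * A)) :=
          mul_le_mul_of_nonneg_right h2 (by positivity)
      _ = _ := by ring
  have hσ : ∀ x, ‖src H P ψ x‖ ≤ h0 * (nb * δ * (h0 * A)) :=
    src_le hG.sym hG.hop (by positivity) hP1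
  have hl : leak (b v) D0 ψ ≤ A ^ 2 / M := by
    rw [le_div_iff₀ hM0]
    have h1 := leak_mono (ψ := ψ) hA.im hG.F0
    nlinarith
  have hp : 0 < A / (C * h0 * nb) := by positivity
  have hRp : 0 < C * h0 * nb := by positivity
  refine far_hit (b := b v) (F := F) (D := D0) (P := P) (ψ := ψ) (ϑ := ϑ) (c := c) (C2 := C)
    (l := A ^ 2 / M) (m := h0 * (nb * δ * (h0 * A))) (p := A / (C * h0 * nb))
    (hL.red u hu huG s hs) hc hc1 hC hG.F0 hG.D0P ?_ ?_ hψ hA.im hϑ hϑ2 ?_ ?_ hl (by positivity) hσ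
    (hL.gP u hu huG) ?_ hp ?_ hε hε1 ?_
  · intro j hj
    obtain ⟨i, hi⟩ := hsite j
    exact Finset.disjoint_left.1 (hG.out i) hi hj
  · intro j
    obtain ⟨i, hi⟩ := hsite j
    exact hG.surf i hi
  · intro j
    obtain ⟨i, hi⟩ := hsite j
    exact hL.fle i j.1 hi _ (hv j.1) _ (hu j.1)
  · intro x hx hxP
    have h1 := hL.cls v hv hvG u hu huG s hs huv x hxP hx
    have h2 : onW (fun j : ↥s => j.1) (fun j : ↥s => ((f j.1 (v j.1) - f j.1 (u j.1) : ℝ) : ℂ)) x =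
        if x ∈ s then ((f x (v x) - f x (u x) : ℝ) : ℂ) else 0 := by
      unfold onW
      by_cases hxs : x ∈ s
      · rw [if_pos hxs, Finset.sum_eq_single (⟨x, hxs⟩ : ↥s)]
        · rw [if_pos rfl]
        · intro j _ hj
          rw [if_neg]
          exact fun h => hj (Subtype.ext h)
        · exact fun h => absurd (Finset.mem_univ _) h
      · rw [if_neg hxs]
        refine Finset.sum_eq_zero fun j _ => ?_
        rw [if_neg]
        rintro rfl
        exact hxs j.2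
    rw [h2]
    exact h1
  · intro j x hx
    obtain ⟨i, hi⟩ := hsite j
    exact hL.gW u hu huG i j.1 hi x hx
  · intro j
    rw [div_le_iff₀ hRp, mul_comm]
    exact hbig j.1 j.2
  · -- the numbers
    have hsq : √(A ^ 2 / M) = A / √M := by
      rw [Real.sqrt_div (sq_nonneg A), Real.sqrt_sq hA0.le]
    have hsM : 0 < √M := Real.sqrt_pos.2 hM0
    have h1 : 48 * C ^ 3 * h0 * nb / (c * ε) ≤ √M := Real.le_sqrt_of_sq_le hM
    have h2 : 48 * C ^ 3 * h0 * nb ≤ √M * (c * ε) := by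
      rwa [div_le_iff₀ (by positivity)] at h1
    have hnP : ((bdy H P).card : ℝ) ≤ nP := by exact_mod_cast hG.cardP
    have hnP0 : (0 : ℝ) ≤ (bdy H P).card := Nat.cast_nonneg _
    have e1 : 24 * C ^ 2 / c * (A / √M) ≤ ε * (A / (C * h0 * nb)) / 2 := by
      have h3 : 24 * C ^ 2 / c * (A / √M) = (48 * C ^ 3 * h0 * nb) * A / (2 * c * √M * (C * h0 * nb)) := by
        field_simp
        ring
      have h4 : ε * (A / (C * h0 * nb)) / 2 = (√M * (c * ε)) * A / (2 * c * √M * (C * h0 * nb)) := by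
        field_simp
      rw [h3, h4]
      exact div_le_div_of_nonneg_right (mul_le_mul_of_nonneg_right h2 hA0.le) (by positivity)
    have e2 : 24 * C ^ 2 / c * ((bdy H P).card * (h0 * (nb * δ * (h0 * A)))) ≤
        ε * (A / (C * h0 * nb)) / 2 := by
      have h3 : 24 * C ^ 2 / c * ((bdy H P).card * (h0 * (nb * δ * (h0 * A)))) ≤
          24 * C ^ 2 / c * (nP * (h0 * (nb * δ * (h0 * A)))) := by
        refine mul_le_mul_of_nonneg_left ?_ (by positivity)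
        exact mul_le_mul_of_nonneg_right hnP (by positivity)
      refine h3.trans ?_
      have h4 : 24 * C ^ 2 / c * (nP * (h0 * (nb * δ * (h0 * A)))) =
          (48 * C ^ 3 * h0 ^ 3 * nb ^ 2 * nP * δ) * A / (2 * c * (C * h0 * nb)) := by
        field_simp
        ring
      have h5 : ε * (A / (C * h0 * nb)) / 2 = (c * ε) * A / (2 * c * (C * h0 * nb)) := by
        field_simp
      rw [h4, h5]
      exact div_le_div_of_nonneg_right (mul_le_mul_of_nonneg_right hδ hA0.le) (by positivity)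
    rw [hsq, mul_add]
    linarith

/-- THE LEAK THEOREM for several clusters -/
theorem leak_abs (hw : IsLaw w) {H : Matrix Λ Λ ℂ} {K : Λ → Set X} {f : Λ → X → ℝ}
    {I : Type} [Fintype I] [DecidableEq I] {F D0 Dt P : I → Finset Λ} {N : ℕ}
    {D : I → Fin N → Finset Λ} {h0 : ℝ} {nb n0 nP : ℕ}
    (hG : ∀ i, LkGeo H (F i) (D0 i) (Dt i) (P i) (D i) h0 nb n0 nP)
    (hdis : ∀ i j, i ≠ j → Disjoint (P i) (P j))
    {b : I → (Λ → X) → Λ → ℂ} {Good : I → Set (Λ → X)} {ϑ c C δ : ℝ}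
    (hL : ∀ i, LkDat H (F i) (D0 i) (Dt i) (P i) (D i) K f (b i) (Good i) ϑ c C δ)
    (hc : 0 < c) (hc1 : c ≤ 1) (hC : 1 ≤ C) (hϑ : 0 ≤ ϑ) (hϑ2 : ϑ ≤ 1 / 2) (hδ0 : 0 ≤ δ)
    {M ε Lc : ℝ} (hε : 0 < ε) (hε1 : ε ≤ 1) (hLc : 1 ≤ Lc) (hM0 : 0 < M)
    (hM : (48 * C ^ 3 * h0 * nb / (c * ε)) ^ 2 ≤ M)
    (hδ : 48 * C ^ 3 * h0 ^ 3 * nb ^ 2 * nP * δ ≤ c * ε)
    (hn0 : 1 ≤ n0) (hN : N = 8 * n0) (hnb : 1 ≤ nb)
    (hsb : ∀ i k, SmallBall w K f (bdy H (D i k)) (3 * ε) (6 * Lc * ε))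
    (hs : (12 * nb * Lc) ^ 8 * (360 * n0) ^ 2 * ε ≤ 1) :
    Pr w ({v | ∀ i, v ∈ LkEv H (F i) (Dt i) (b i) (Good i) M} ∩ Bx K) ≤
      (ε ^ (5 * n0)) ^ Fintype.card I * Pr w (Bx K) := by
  classical
  have hq : 0 ≤ 6 * Lc * ε := by positivity
  have hbase : (1 : ℝ) ≤ 8 * (N + 1) * (1 / ε + 4) := by
    have h1 : (0 : ℝ) ≤ N := Nat.cast_nonneg _
    have h2 : 0 < 1 / ε := by positivity
    nlinarith
  have hl0 : 0 ≤ hitNum N n0 ε (6 * Lc * ε) := by
    unfold hitNum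
    positivity
  have hcov := cover (w := w) hw (K := K) P hdis (fun i => trs H (D i))
    (fun i s hs => by
      obtain ⟨g, hg, rfl⟩ := mem_trs.1 hs
      intro x hx
      obtain ⟨k, -, rfl⟩ := Finset.mem_image.1 hx
      exact (hG i).surf k (hg k))
    (fun i s => LkEvS H (F i) (Dt i) (b i) (Good i) M (C * h0 * nb) s)
    (fun _ => hitNum N n0 ε (6 * Lc * ε)) (fun _ => hl0)
    (by
      intro σ hσ u hu huE
      have hsb' : ∀ i, SmallBall w K f (σ i) (3 * ε) (6 * Lc * ε) := by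
        intro i x hx t
        obtain ⟨g, hg, h1⟩ := mem_trs.1 (hσ i)
        rw [h1] at hx
        obtain ⟨k, -, rfl⟩ := Finset.mem_image.1 hx
        exact hsb i k _ (hg k) t
      have hE := fun i => Pr_hit (w := w) hw (K := K) (f := f) (s := σ i) hε hq (hsb' i)
        (Amt H (b i u) (fun j : ↥(σ i) => j.1) (bdy H (D0 i)))
        (Bmt H (b i u) (fun j : ↥(σ i) => j.1) (bdy H (D0 i))) (fun x => f x (u x))
      choose E hE1 hE2 hE3 using hE
      refine ⟨E, hE1, fun i => (hE2 i).trans ?_, ?_⟩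
      · refine mul_le_mul_of_nonneg_right ?_ (Pr_nonneg hw _)
        rw [tr_card (hG i).dis (mem_trs.1 (hσ i)), Fintype.card_coe]
        unfold hitNum
        refine mul_le_mul_of_nonneg_right ?_ (pow_nonneg hq _)
        refine mul_le_mul_of_nonneg_left ?_ (by positivity)
        exact pow_le_pow_right₀ hbase (Nat.mul_le_mul_left 2 (hG i).card0)
      · intro v hv hvu hvE i
        refine hE3 i v ?_ ?_
        · intro x hx
          obtain ⟨g, hg, h1⟩ := mem_trs.1 (hσ i)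
          rw [h1] at hx
          obtain ⟨k, -, rfl⟩ := Finset.mem_image.1 hx
          exact (hL i).fle k _ (hg k) _ (hv _) _ (hu _)
        · refine LkEvS_hit (hG i) (hL i) hc hc1 hC hϑ hϑ2 hδ0 hε hε1 hM0 hM hδ
            (mem_trs.1 (hσ i)) hu hv (huE i).1 (hvE i) ?_
          intro x hxP hxs
          refine hvu x fun j => ?_
          by_cases hij : j = i
          · rw [hij]
            exact hxs
          · intro hxj
            obtain ⟨g, hg, h1⟩ := mem_trs.1 (hσ j)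
            rw [h1] at hxj
            obtain ⟨k, -, rfl⟩ := Finset.mem_image.1 hxj
            exact Finset.disjoint_left.1 (hdis j i hij) ((hG j).surf k (hg k)) hxP)
  have hsub : ({v | ∀ i, v ∈ LkEv H (F i) (Dt i) (b i) (Good i) M} ∩ Bx K) ⊆
      ({v | ∀ i, ∃ s ∈ trs H (D i), v ∈ LkEvS H (F i) (Dt i) (b i) (Good i) M (C * h0 * nb) s} ∩
        Bx K) := by
    rintro v ⟨h1, h2⟩
    exact ⟨fun i => LkEv_sub (hG i) (hL i) hC hM0.le h2 (h1 i), h2⟩
  refine (Pr_mono hw hsub).trans (hcov.trans ?_)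
  refine mul_le_mul_of_nonneg_right ?_ (Pr_nonneg hw _)
  rw [← Finset.card_univ, ← Finset.prod_const]
  refine Finset.prod_le_prod (fun i _ => mul_nonneg (Nat.cast_nonneg _) hl0) fun i _ => ?_
  have h1 := num_bound hn0 hnb hLc hε hε1 hs
  refine le_trans ?_ h1
  subst hN
  have h2 : ((trs H (D i)).card : ℝ) ≤ (nb : ℝ) ^ (8 * n0) := by
    have := card_trs (hG i).card
    exact_mod_cast this
  refine (mul_le_mul_of_nonneg_right h2 hl0).trans (le_of_eq ?_)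
  unfold hitNum
  push_cast
  ring

end Pool.Agent.AND
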