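import Pool.Agent.ANM.GeoGen
import Pool.Agent.ANM.Wgt
import Pool.Agent.ANQ.Geo
import Pool.Agent.ANP.Tor
import Pool.Agent.AND.LeakAbs

/-!
# AND / HoleGeo: from the geometry of the algorithm to the leak theorem and to the Agmon weights

`E : κ → Set ι` is a family of pieces (old holes; Part B: old holes and weak sites) with the chain
property `CP d E a c`.  For a cluster `F`:

* `D0 = DF d E Δ F 0`, surfaces `bdy H (DF d E Δ F (k + 1))`, `k < N`, target `Dt = DF d E Δ F (N + 1)`,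
  comparison domain `P = DF d E Δ' F 1`;
* `lkgeo`: the structure `LkGeo` of the leak theorem;
* `bdyD_near`, `bdyD_far`, `bdyP_near`, `bdyP_far`, `bdyP_bdyD`, `P_near`, `near_P`, `P_disj`:
  distances;
* `LOk`: the length conditions for the clusters of super-stage `j + 1` (`ANQ.GPar`);
* `Clu h j F`: `F` is a cluster of candidates of super-stage `j + 1` of the history `h : ANQ.Hist`;
* `Clu.status`: the sites within `Δ' + 2 c + 1` of `F`, off `F`, are not static, not in frozen cells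
  and not in the annuli of other clusters; `Clu.bdyD_act`, `Clu.bdyP_act`: the boundary sites are
  active;
* `Hist.cp`, `Hist.cc_le`: chain property of the holes, the additive constant is at most the side of
  the grid.
-/

set_option autoImplicit false

namespace Pool.Agent.AND

open Finset Pool.Agent.Kin Pool.Agent.ANL Pool.Agent.ANM Pool.Agent.ANQ

section abs

variable {ι κ : Type} [Fintype ι] {d : ι → ι → ℕ} {E : κ → Set ι} {a c : ℕ}

/-- the `Δ'`-neighbourhood of `F` is in the comparison domain -/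
theorem near_P {Δ' : ℕ} {F : Finset ι} {x : ι} (h : ∃ y ∈ F, d y x ≤ Δ') :
    x ∈ DF d E Δ' F 1 := by
  obtain ⟨y, hy, hyx⟩ := h
  refine mem_DF.2 (subset_sw _ ⟨y, subset_sw _ (mem_coe.2 hy), hyx⟩)

theorem P_near (hd : NMet d) (h : CP d E a c) {Δ' : ℕ} {F : Finset ι} {x : ι}
    (hx : x ∈ DF d E Δ' F 1) : ∃ y ∈ F, d y x ≤ Δ' + 2 * c := by
  obtain ⟨y, hy, h1⟩ := DF_near_cp hd h hx
  exact ⟨y, hy, by omega⟩

theorem D_near (hd : NMet d) (h : CP d E a c) {Δ i N : ℕ} {F : Finset ι} (hi : i ≤ N) {x : ι}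
    (hx : x ∈ DF d E Δ F i) : ∃ y ∈ F, d y x ≤ N * (Δ + c) + c := by
  obtain ⟨y, hy, h1⟩ := DF_near_cp hd h hx
  have h2 : i * (Δ + c) ≤ N * (Δ + c) := Nat.mul_le_mul_right _ hi
  exact ⟨y, hy, by omega⟩

/-- comparison domains of distant sets are disjoint -/
theorem P_disj (hd : NMet d) (h : CP d E a c) {Δ' r : ℕ} {F F' : Finset ι}
    (hr : 2 * (Δ' + 2 * c) ≤ r) (hF : ∀ x ∈ F, ∀ y ∈ F', r < d x y) :
    Disjoint (DF d E Δ' F 1) (DF d E Δ' F' 1) := by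
  rw [Finset.disjoint_left]
  intro x hx hx'
  obtain ⟨y, hy, h1⟩ := P_near hd h hx
  obtain ⟨y', hy', h2⟩ := P_near hd h hx'
  have h3 := hF y hy y' hy'
  have h4 := hd.tri y x y'
  have h5 := hd.symm x y'
  omega

variable [DecidableEq ι] {H : Matrix ι ι ℂ}

theorem bdyD_near (hd : NMet d) (h : CP d E a c) (hH : ∀ x y, H x y ≠ 0 → d x y ≤ 1)
    {Δ i N : ℕ} {F : Finset ι} (hi : i ≤ N) {x : ι} (hx : x ∈ bdy H (DF d E Δ F i)) :
    ∃ y ∈ F, d y x ≤ N * (Δ + c) + c + 1 := by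
  obtain ⟨y, hy, h1⟩ := bdy_DF_near_cp hd h hH hx
  have h2 : i * (Δ + c) ≤ N * (Δ + c) := Nat.mul_le_mul_right _ hi
  exact ⟨y, hy, by omega⟩

theorem bdyD_far (hd : NMet d) (hH : ∀ x y, H x y ≠ 0 → d x y ≤ 1) {Δ i : ℕ} {F : Finset ι}
    {x y : ι} (hx : x ∈ bdy H (DF d E Δ F (i + 1))) (hy : y ∈ F) : Δ ≤ d y x + 1 :=
  bdy_far hd hH Δ _ i (mem_bdy_DF hx) (subset_Dn hd Δ _ i (mem_coe.2 hy))

theorem bdyP_near (hd : NMet d) (h : CP d E a c) (hH : ∀ x y, H x y ≠ 0 → d x y ≤ 1)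
    {Δ' : ℕ} {F : Finset ι} {x : ι} (hx : x ∈ bdy H (DF d E Δ' F 1)) :
    ∃ y ∈ F, d y x ≤ Δ' + 2 * c + 1 := by
  obtain ⟨y, hy, h1⟩ := bdy_DF_near_cp hd h hH hx
  exact ⟨y, hy, by omega⟩

theorem bdyP_far (hd : NMet d) (hH : ∀ x y, H x y ≠ 0 → d x y ≤ 1) {Δ' : ℕ} {F : Finset ι}
    {x y : ι} (hx : x ∈ bdy H (DF d E Δ' F 1)) (hy : y ∈ F) : Δ' ≤ d y x + 1 :=
  bdyD_far hd hH hx hy

/-- the boundary of `P` is far from the inner domains -/
theorem bdyP_D (hd : NMet d) (h : CP d E a c) (hH : ∀ x y, H x y ≠ 0 → d x y ≤ 1)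
    {Δ Δ' i N : ℕ} {F : Finset ι} (hi : i ≤ N) {x z : ι} (hx : x ∈ bdy H (DF d E Δ' F 1))
    (hz : z ∈ DF d E Δ F i) : Δ' ≤ d z x + (N * (Δ + c) + c) + 1 := by
  obtain ⟨y, hy, h1⟩ := D_near hd h hi hz
  have h2 := bdyP_far hd hH hx hy
  have h3 := hd.tri y z x
  omega

theorem bdyP_bdyD (hd : NMet d) (h : CP d E a c) (hH : ∀ x y, H x y ≠ 0 → d x y ≤ 1)
    {Δ Δ' i N : ℕ} {F : Finset ι} (hi : i ≤ N) {x z : ι} (hx : x ∈ bdy H (DF d E Δ' F 1))
    (hz : z ∈ bdy H (DF d E Δ F i)) : Δ' ≤ d z x + (N * (Δ + c) + c) + 2 := by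
  obtain ⟨y, hy, h1⟩ := bdyD_near hd h hH hi hz
  have h2 := bdyP_far hd hH hx hy
  have h3 := hd.tri y z x
  omega

/-- THE GEOMETRY OF THE LEAK THEOREM -/
theorem lkgeo (hd : NMet d) (h : CP d E a c) (hH : ∀ x y, H x y ≠ 0 → d x y ≤ 1)
    (hs : RealSym H) {h0 : ℝ} (hop : HopLe H h0) (h01 : 1 ≤ h0) {Δ Δ' : ℕ} (hΔ : 2 ≤ Δ)
    {F : Finset ι} {N V0 V VP : ℕ} (hN : 1 ≤ N) (hΔ' : (N + 1) * (Δ + c) + c + 1 ≤ Δ')
    (hV0 : ∀ x, (univ.filter fun y => d x y ≤ c + 1).card ≤ V0)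
    (hV : ∀ x, (univ.filter fun y => d x y ≤ (N + 1) * (Δ + c) + c + 1).card ≤ V)
    (hVP : ∀ x, (univ.filter fun y => d x y ≤ Δ' + 2 * c + 1).card ≤ VP) :
    LkGeo H F (DF d E Δ F 0) (DF d E Δ F (N + 1)) (DF d E Δ' F 1)
      (fun i : Fin N => DF d E Δ F (i + 1)) h0 (F.card * V) (F.card * V0) (F.card * VP) where
  toLGeo := lgeo_cp hd h hH hs hop h01 hΔ hN hV
  FDt := subset_DF hd Δ F _
  D0P := by
    intro x hx
    obtain ⟨y, hy, h1⟩ := D_near hd h le_rfl hx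
    exact near_P ⟨y, hy, by nlinarith⟩
  surf i := by
    intro x hx
    obtain ⟨y, hy, h1⟩ := bdyD_near hd h hH (show (i : ℕ) + 1 ≤ N + 1 by omega) hx
    exact near_P ⟨y, hy, by omega⟩
  outt i := by
    rw [Finset.disjoint_left]
    intro x hx
    exact bdy_DF_notMem hd hH hΔ (show (i : ℕ) + 1 < N + 1 by omega) hx
  PDt := by
    rw [Finset.disjoint_left]
    intro x hx hxt
    obtain ⟨y, hy, h1⟩ := D_near hd h le_rfl hxt
    have h2 : ∀ z, d x z ≤ 1 → z ∈ DF d E Δ' F 1 := fun z hz => near_P ⟨y, hy, by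
      have := hd.tri y x z
      omega⟩
    rcases mem_bdy_DF hx with ⟨_, z, hz, hxz⟩ | ⟨h3, _⟩
    · exact hz (mem_DF.1 (h2 z (hH x z hxz)))
    · exact h3 (mem_DF.1 (h2 x (by rw [hd.self]; omega)))
  cardt := bdy_DF_card_cp hd h hH le_rfl hV
  card0 := bdy_DF_card_cp (i := 0) (n := 0) hd h hH le_rfl (fun x => by simpa using hV0 x)
  cardP := by
    refine bdy_DF_card_cp (i := 1) (n := 1) hd h hH le_rfl (fun x => ?_)
    have h1 : 1 * (Δ' + c) + c + 1 = Δ' + 2 * c + 1 := by ring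
    rw [h1]
    exact hVP x

end abs

section hist

variable {T κ : Type} [Fintype T] [DecidableEq T] {g : GPar T}

/-- the additive constant of the holes of the first `n` generations -/
def cc (g : GPar T) (n : ℕ) : ℕ :=
  cst n (g.J * g.V) (fun i => 2 * g.R (i + 1) + 2 * g.side i)

omit [Fintype T] [DecidableEq T] in
theorem cc_zero : cc g 0 = 0 := by simp [cc, cst]

omit [Fintype T] [DecidableEq T] in
theorem cc_succ (n : ℕ) : cc g (n + 1) =
    cc g n + 2 * (g.J * g.V + 1) * (2 * g.R (n + 1) + 2 * g.side n + 2) := by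
  unfold cc cst
  rw [sum_range_succ]
  ring

/-- the additive constant is at most the side of the grid -/
theorem cc_le (hg : g.Ok) (n : ℕ) : cc g n ≤ g.side n := by
  induction n with
  | zero => rw [cc_zero]; exact Nat.zero_le _
  | succ n ih =>
    rw [cc_succ]
    have h1 := hg.large n
    have h2 : 4 ≤ 2 ^ (n + 2) := by
      have : 2 ^ 2 ≤ 2 ^ (n + 2) := Nat.pow_le_pow_right (by norm_num) (by omega)
      simpa using this
    have h3 : 4 * ((g.J * g.V + 1) * (2 * g.R (n + 1) + 2 * g.side n + 2)) ≤ g.side (n + 1) := by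
      refine le_trans ?_ h1
      rw [mul_assoc (2 ^ (n + 2))]
      exact Nat.mul_le_mul_right _ h2
    have h4 : g.side n ≤ (g.J * g.V + 1) * (2 * g.R (n + 1) + 2 * g.side n + 2) := by
      nlinarith [Nat.zero_le (g.J * g.V * (2 * g.R (n + 1) + 2 * g.side n + 2))]
    have h5 : 2 * (g.J * g.V + 1) * (2 * g.R (n + 1) + 2 * g.side n + 2) =
      2 * ((g.J * g.V + 1) * (2 * g.R (n + 1) + 2 * g.side n + 2)) := by ring
    rw [h5]
    omega

variable (h : Hist g)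

/-- THE CHAIN PROPERTY of the holes of the first `n` generations -/
theorem hist_cp (hg : g.Ok) (n : ℕ) : CP g.dist (h.piece n) 2 (cc g n) :=
  (h.sparse hg n).cp hg.met

omit [Fintype T] in
/-- the annuli of the candidates are in the pieces -/
theorem mem_piece {n i : ℕ} (hi : i < n) {x y : T} (hy : y ∈ h.cand (i + 1))
    (hxy : g.dist x y ≤ g.R (i + 1)) : ∃ k : Fin n × T, x ∈ h.piece n k :=
  ⟨(⟨i, hi⟩, g.cor i y), y, hy, rfl, hxy⟩

/-- `F` is a cluster of candidates of super-stage `j + 1` -/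
structure Clu (j : ℕ) (F : Finset T) : Prop where
  ne : F.Nonempty
  cand : ∀ x ∈ F, x ∈ h.cand (j + 1)
  conn : ∀ x ∈ F, ∀ y ∈ F, Lk g.dist (g.rho (j + 1)) (h.st (j + 1) : Set T) x y
  closed : ∀ x ∈ F, ∀ y ∈ h.st (j + 1), g.dist x y ≤ g.rho (j + 1) → y ∈ F

/-- length conditions for the leak test of the clusters of super-stage `j + 1`; `c` the additive
constant of the old pieces, `N` surfaces with distance `Δ`, comparison radius `Δ'` -/
structure LOk (g : GPar T) (j c N Δ Δ' : ℕ) : Prop where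
  N1 : 1 ≤ N
  D2 : 2 ≤ Δ
  inR : (N + 1) * (Δ + c) + c + 1 ≤ g.R (j + 1)
  outR : g.R (j + 1) + 2 ≤ Δ'
  rho : Δ' + 2 * c + 1 + g.R (j + 1) ≤ g.rho (j + 1)
  fz : Δ' + 2 * c + 1 ≤ g.D (j + 1)

namespace Clu

variable {h} {j c N Δ Δ' a : ℕ} {F : Finset T} {E : κ → Set T}

omit [Fintype T] in
/-- a static site near `F` is in `F` -/
theorem mem_of_near (hF : Clu h j F) {x y : T} (hy : y ∈ F)
    (hx : x ∈ h.st (j + 1)) (hxy : g.dist y x ≤ g.rho (j + 1)) : x ∈ F :=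
  hF.closed y hy x hx hxy

omit [Fintype T] in
/-- a site near `F` is not in a frozen cell -/
theorem not_fz (hF : Clu h j F) {x y : T} (hy : y ∈ F) (hxy : g.dist y x ≤ g.D (j + 1)) :
    g.cor (j + 1) x ∉ h.fz (j + 1) := fun h1 => by
  have := h.far (j + 1) y (hF.cand y hy) x h1
  omega

/-- the diameter of a cluster -/
theorem diam (hF : Clu h j F) (hg : g.Ok) {x y : T} (hx : x ∈ F) (hy : y ∈ F) :
    g.dist x y ≤ g.CD j :=
  h.cluster hg j (h.cand_fz hg (hF.cand x hx)) (h.cst _ (hF.cand x hx)) (hF.conn x hx y hy)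

/-- the number of sites of a cluster -/
theorem card_le (hF : Clu h j F) (hg : g.Ok) (Vs : ℕ)
    (hV : ∀ b, (univ.filter fun y => g.dist y b ≤ g.W j + g.sep j).card ≤ Vs) :
    F.card ≤ g.J * Vs := by
  obtain ⟨x, hx⟩ := hF.ne
  exact h.card_cluster hg j (h.cand_fz hg (hF.cand x hx)) (h.cst _ (hF.cand x hx)) F
    (fun y hy => hF.conn x hx y hy) Vs hV

omit [Fintype T] in
/-- two clusters are equal or far apart -/
theorem eq_or_far {F' : Finset T} (hF : Clu h j F) (hF' : Clu h j F') :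
    F = F' ∨ ∀ x ∈ F, ∀ y ∈ F', g.rho (j + 1) < g.dist x y := by
  by_contra hc
  push Not at hc
  obtain ⟨hne, x, hx, y, hy, hxy⟩ := hc
  have hyF : y ∈ F := hF.closed x hx y (h.cst _ (hF'.cand y hy)) hxy
  have key : ∀ {A B : Finset T}, Clu h j A → Clu h j B → ∀ z ∈ A, z ∈ B → A ⊆ B := by
    intro A B hA hB z hzA hzB w hw
    have h1 := hA.conn z hzA w hw
    -- the cluster of `z`
    have h2 : ∀ {u : T}, Lk g.dist (g.rho (j + 1)) (h.st (j + 1) : Set T) z u → u ∈ B := by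
      intro u hu
      induction hu with
      | refl => exact hzB
      | tail _ h3 ih => exact hB.closed _ ih _ (mem_coe.1 h3.2.1) h3.2.2
    exact h2 h1
  exact hne (Subset.antisymm (key hF hF' y hyF hy) (key hF' hF y hy hyF))

/-- THE STATUS of the sites near a cluster -/
theorem status (hF : Clu h j F) (hg : g.Ok) (hL : LOk g j c N Δ Δ') {x : T}
    (hx : ∃ y ∈ F, g.dist y x ≤ Δ' + 2 * c + 1) (hxF : x ∉ F) :
    x ∉ h.st (j + 1) ∧ g.cor (j + 1) x ∉ h.fz (j + 1) ∧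
      ∀ y ∈ h.st (j + 1), y ∉ F → g.R (j + 1) < g.dist x y := by
  obtain ⟨y, hy, hyx⟩ := hx
  have h1 := hL.rho
  have h2 := hL.fz
  refine ⟨fun h3 => hxF (hF.closed y hy x h3 (by omega)), hF.not_fz hy (by omega), ?_⟩
  intro z hz hzF
  by_contra hc
  apply hzF
  have h3 := hg.met.tri y x z
  exact hF.closed y hy z hz (by omega)

variable {H : Matrix T T ℂ}

/-- The sites of the surfaces and of the target surface are active (before the annulus step). -/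
theorem bdyD_act (hF : Clu h j F) (hg : g.Ok) (hCP : CP g.dist E a c)
    (hL : LOk g j c N Δ Δ') (hH : ∀ x y, H x y ≠ 0 → g.dist x y ≤ 1) {act hol : Finset T}
    (hst : ∀ x, x ∉ act → x ∉ hol → x ∈ h.st (j + 1) ∨ g.cor (j + 1) x ∈ h.fz (j + 1))
    (hho : ∀ x ∈ hol, (∃ k, x ∈ E k) ∨ ∃ y ∈ h.st (j + 1), y ∉ F ∧ g.dist x y ≤ g.R (j + 1))
    {i : ℕ} (hi : i ≤ N) {x : T} (hx : x ∈ bdy H (DF g.dist E Δ F (i + 1))) :
    x ∈ act ∧ x ∉ hol ∧ ∃ y ∈ F, g.dist y x ≤ g.R (j + 1) := by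
  obtain ⟨y, hy, h1⟩ := bdyD_near hg.met hCP hH (show i + 1 ≤ N + 1 by omega) hx
  have h2 := hL.inR
  have h3 := hL.outR
  have hxF : x ∉ F := fun h4 => by
    have h5 := bdyD_far hg.met hH hx h4
    rw [hg.met.self] at h5
    have := hL.D2
    omega
  obtain ⟨s1, s2, s3⟩ := hF.status hg hL ⟨y, hy, by omega⟩ hxF
  have hnh : x ∉ hol := fun h4 => by
    rcases hho x h4 with ⟨k, hk⟩ | ⟨z, hz, hzF, hxz⟩
    · exact bdy_DF_hole hg.met hH hx k hk
    · have := s3 z hz hzF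
      omega
  refine ⟨?_, hnh, y, hy, by omega⟩
  by_contra h4
  rcases hst x h4 hnh with h5 | h5
  · exact s1 h5
  · exact s2 h5

/-- The boundary sites of the comparison domain are active and outside the annulus of `F`. -/
theorem bdyP_act (hF : Clu h j F) (hg : g.Ok) (hCP : CP g.dist E a c)
    (hL : LOk g j c N Δ Δ') (hH : ∀ x y, H x y ≠ 0 → g.dist x y ≤ 1) {act hol : Finset T}
    (hst : ∀ x, x ∉ act → x ∉ hol → x ∈ h.st (j + 1) ∨ g.cor (j + 1) x ∈ h.fz (j + 1))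
    (hho : ∀ x ∈ hol, (∃ k, x ∈ E k) ∨ ∃ y ∈ h.st (j + 1), y ∉ F ∧ g.dist x y ≤ g.R (j + 1))
    {x : T} (hx : x ∈ bdy H (DF g.dist E Δ' F 1)) :
    x ∈ act ∧ x ∉ hol ∧ ∀ y ∈ F, g.R (j + 1) < g.dist y x := by
  obtain ⟨y, hy, h1⟩ := bdyP_near hg.met hCP hH hx
  have h3 := hL.outR
  have hfar : ∀ y ∈ F, g.R (j + 1) < g.dist y x := fun z hz => by
    have := bdyP_far hg.met hH hx hz
    omega
  have hxF : x ∉ F := fun h4 => by
    have h5 := hfar x h4
    rw [hg.met.self] at h5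
    omega
  obtain ⟨s1, s2, s3⟩ := hF.status hg hL ⟨y, hy, h1⟩ hxF
  have hnh : x ∉ hol := fun h4 => by
    rcases hho x h4 with ⟨k, hk⟩ | ⟨z, hz, hzF, hxz⟩
    · exact bdy_DF_hole hg.met hH hx k hk
    · have := s3 z hz hzF
      omega
  refine ⟨?_, hnh, hfar⟩
  by_contra h4
  rcases hst x h4 hnh with h5 | h5
  · exact s1 h5
  · exact s2 h5

/-- The sites of the comparison domain: in `F`, in a piece, or active. -/
theorem P_status (hF : Clu h j F) (hg : g.Ok) (hCP : CP g.dist E a c)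
    (hL : LOk g j c N Δ Δ') {act hol : Finset T}
    (hst : ∀ x, x ∉ act → x ∉ hol → x ∈ h.st (j + 1) ∨ g.cor (j + 1) x ∈ h.fz (j + 1))
    (hho : ∀ x ∈ hol, (∃ k, x ∈ E k) ∨ ∃ y ∈ h.st (j + 1), y ∉ F ∧ g.dist x y ≤ g.R (j + 1))
    {x : T} (hx : x ∈ DF g.dist E Δ' F 1) :
    (x ∈ F ∨ (x ∈ hol ∧ ∃ k, x ∈ E k) ∨ x ∈ act) ∧ g.cor (j + 1) x ∉ h.fz (j + 1) ∧
      (x ∈ h.st (j + 1) → x ∈ F) ∧ ∀ y ∈ h.st (j + 1), y ∉ F → g.R (j + 1) < g.dist x y := by
  obtain ⟨y, hy, h1⟩ := P_near hg.met hCP hx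
  have h2 := hL.rho
  have h3 := hL.fz
  have s2 : g.cor (j + 1) x ∉ h.fz (j + 1) := hF.not_fz hy (by omega)
  have s1 : x ∈ h.st (j + 1) → x ∈ F := fun h4 => hF.closed y hy x h4 (by omega)
  have s3 : ∀ z ∈ h.st (j + 1), z ∉ F → g.R (j + 1) < g.dist x z := by
    intro z hz hzF
    by_contra hc
    apply hzF
    have h4 := hg.met.tri y x z
    exact hF.closed y hy z hz (by omega)
  refine ⟨?_, s2, s1, s3⟩
  by_cases h4 : x ∈ act
  · exact Or.inr (Or.inr h4)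
  by_cases h5 : x ∈ hol
  · rcases hho x h5 with h6 | ⟨z, hz, hzF, hxz⟩
    · exact Or.inr (Or.inl ⟨h5, h6⟩)
    · have := s3 z hz hzF
      omega
  · rcases hst x h4 h5 with h6 | h6
    · exact Or.inl (s1 h6)
    · exact absurd h6 s2

/-- comparison domains of different clusters are disjoint -/
theorem P_disjoint {F' : Finset T} (hF : Clu h j F) (hF' : Clu h j F') (hg : g.Ok)
    (hCP : CP g.dist E a c) (hr : 2 * (Δ' + 2 * c) ≤ g.rho (j + 1)) (hne : F ≠ F') :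
    Disjoint (DF g.dist E Δ' F 1) (DF g.dist E Δ' F' 1) := by
  rcases hF.eq_or_far hF' with h1 | h1
  · exact absurd h1 hne
  · exact P_disj hg.met hCP hr h1

end Clu

end hist

section torus

variable {m L : ℕ} [NeZero L] {κ : Type}

omit [NeZero L] in
/-- the two distances on the torus agree -/
theorem dT_eq_td (x y : Tor m L) : ANP.dT x y = td x y := by
  refine le_antisymm ?_ ?_
  · rw [ANP.dT_le_iff]
    intro i
    exact za_le_td x y i
  · rw [td_le]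
    intro i
    exact (ANP.dT_le_iff x y _).1 le_rfl i

theorem hopLe_H0T : HopLe (H0T m L) (2 * m) := by
  intro x
  refine le_trans (le_of_eq ?_) (H0T_row x)
  rw [← Finset.add_sum_erase univ _ (mem_univ x), if_pos rfl, zero_add]
  refine sum_congr rfl fun y hy => ?_
  rw [if_neg (ne_of_mem_erase hy).symm]

/-- THE GEOMETRY OF THE LEAK THEOREM on the torus -/
theorem lkgeo_tor (hm : 1 ≤ m) {E : κ → Set (Tor m L)} {a c : ℕ} (h : CP td E a c)
    {Δ Δ' : ℕ} (hΔ : 2 ≤ Δ) {F : Finset (Tor m L)} {N : ℕ} (hN : 1 ≤ N)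
    (hΔ' : (N + 1) * (Δ + c) + c + 1 ≤ Δ') :
    LkGeo (H0T m L) F (DF td E Δ F 0) (DF td E Δ F (N + 1)) (DF td E Δ' F 1)
      (fun i : Fin N => DF td E Δ F (i + 1)) (2 * m)
      (F.card * (2 * ((N + 1) * (Δ + c) + c + 1) + 1) ^ m)
      (F.card * (2 * (c + 1) + 1) ^ m) (F.card * (2 * (Δ' + 2 * c + 1) + 1) ^ m) := by
  have h1 : (1 : ℝ) ≤ 2 * m := by
    have : (1 : ℝ) ≤ m := by exact_mod_cast hm
    linarith
  exact lkgeo td_met h (fun x y hxy => H0T_near hxy) H0T_realSym hopLe_H0T h1 hΔ hN hΔ'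
    (fun x => card_ball x _) (fun x => card_ball x _) (fun x => card_ball x _)

/-- THE AGMON WEIGHTS for a family of pieces with the chain property -/
theorem exists_admW_cp {E : κ → Set (Tor m L)} {a c : ℕ}
    (h : CP td E a c) {b : Tor m L → ℂ} {μ ηm : ℝ}
    (hμ : 0 ≤ μ) (hμ1 : μ ≤ 1) (h0 : ∀ x, 0 ≤ -(b x).im)
    (hη : ∀ x, (∀ k, x ∉ E k) → ηm ≤ -(b x).im) (hη' : 8 * m * μ ≤ ηm)
    (S : Set (Tor m L)) (hS : S.Nonempty) :
    ∃ φ : Tor m L → ℕ, (∀ x ∈ S, φ x = 0) ∧ AdmW (H0T m L) b (fun x => μ * φ x) ∧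
      (∀ x y, td x y ≤ 1 → φ x ≤ φ y + 1) ∧
      (∀ k x y, Near td (E k) x → Near td (E k) y → φ x = φ y) ∧
      (∀ x y, td x y ≤ 1 → (∃ k, x ∈ E k ∨ y ∈ E k) → φ x = φ y) ∧
      ∀ y, ∃ x ∈ S, td x y ≤ a * φ y + c := by
  obtain ⟨φ, h1, h2, h3, h4, h5⟩ := phi_cp td_met h td_geo td_sep S hS
  refine ⟨φ, h1, ?_, h2, h3, h4, h5⟩
  refine admW_torus (F := {x | ∃ k, x ∈ E k}) hμ hμ1 h2 ?_ h0 ?_ hη'
  · rintro x ⟨k, hk⟩ y hxy
    exact h4 x y hxy ⟨k, Or.inl hk⟩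
  · intro x hx
    exact hη x fun k hk => hx ⟨k, hk⟩

end torus

end Pool.Agent.AND
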