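import Pool.Agent.AND.Good
import Pool.Agent.ANP.Tor

/-! # AND / Sched: the deterministic schedule of the local tolerances (SEQ version)

The tolerances of the good medium are functions of TIME and SITE.  `Fld` = the error fields at a time; `ph` = increment of a
site field by one step at level `n` (`κ = κ_n`), at the cell with corner `c` and side `s`:
`ph κ v b s x c = κ^v` if `dT x c ≤ 2 s`, `= exp (- b κ dT x c)` otherwise.  Fields:
* `err` : exponent `v` at a step, `vi` at an insertion  (H1), (H3), bond weights, static sites;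
* `et`  : exponent `vt` at steps and insertions, the LAST and smallest exponent  (H2);
* `be`  : `κ^(-vp)` times (exponent `v` at a step, `vi` at an insertion)  (H3);
* `ae`  : `1 / (η_* + κ)` times (exponent `v` at a step, `vi` at an insertion)  (`dl / m` of the active sites);
* `g5`  : bound of all entries `|G_xy|` (pairs): a step adds `min (κ^v) (exp (b κ κ^(-Cg)) exp (- b κ dT x y))` if `x` or `y` is within `2 s` of `c`,
`exp (- b κ (dT x c + dT y c + dT x y))` otherwise; an insertion adds `κ^vi max(1,dT x y)^(-s5)` near `c`.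
An INSERTION (end of a super-stage, level `κ`, near the cell with corner `c`): `Fld.ins`, `m` = number of insertions near the cell.

`tolAt P Sf n F π v M` = the tolerance at level `n` (upper level `κ_n`, lower level `c κ_(n+1)`) with fields `F`:
* (H1) `del = del0 + err`;                       (H2) `tau = κ_n^(-7/8) (1 + et)` (unweighted sum);
* (H3) `a_K = φ^K ι` on `A`, `z_K = 1_{X∖A} φ^K ι + s_K Cz (err (η_*/κ_(n+1) on A, η/κ_(n+1) on X∖A) + be ω ι)`
  (uniform law: `φ = ω = s = 1`, `Ks = {0}`; helper1, helper78: this is `zB` with `al = s_K Cz err/κ_(n+1)`, `be = s_K Cz be`);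
* (H4low) bonds `D0 (1 - CD err)`, sites `dl = (e0 + Ce ae) m` on `A` (`dl/m` is conserved by the classical flow), `dS (1 + err)` off `A`;
* (H4up) `C00 (1 + CD err)`;                     (H5) `g5`.
-/

open Matrix Finset

noncomputable section

namespace Pool.Agent.AND

open Pool.Agent.Kin Pool.Agent.APS

/-- numerical parameters of the schedule -/
structure Par where
  kap : ℕ → ℝ
  /-- exponent of the steps -/
  v : ℝ
  /-- exponent of the insertions -/
  vi : ℝ
  /-- exponent of (H2) -/
  vt : ℝ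
  vp : ℝ
  /-- exponent of (H5) -/
  s5 : ℝ
  b : ℝ
  Cg : ℝ
  eta : ℝ
  cl : ℝ
  cs : ℝ
  del0 : ℝ
  D0 : ℝ
  CD : ℝ
  C00 : ℝ
  e0 : ℝ
  Ce : ℝ
  dS : ℝ
  Cz : ℝ

/-- site functions: `phi K n a = E[κ(K) | class of a at level n]`, `om n a = P(never weak | class)`, scales `s K`, set of the levels `K` used at
level `n`.  Uniform law: all equal to `1`, `Ks = {0}`. -/
structure SiteF (X : Type) where
  phi : ℕ → ℕ → X → ℝ
  om : ℕ → X → ℝ
  s : ℕ → ℝ
  Ks : ℕ → Finset ℕ

/-- error fields -/
structure Fld (T : Type) where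
  err : T → ℝ
  et : T → ℝ
  be : T → ℝ
  ae : T → ℝ
  g5 : T → T → ℝ

variable {d L : ℕ}

/-- increment of the site fields at the corner `c` -/
def ph (κ v b : ℝ) (s : ℕ) (x c : Tor d L) : ℝ :=
  if ANP.dT x c ≤ 2 * s then κ ^ v else Real.exp (-(b * κ * ANP.dT x c))

/-- prefactor of the decay of the entries: there are pieces without absorption of size up to `κ^(-Cg)` -/
abbrev pf (κ b Cg : ℝ) : ℝ := Real.exp (b * κ * κ ^ (-Cg))

theorem pf_pos (κ b Cg : ℝ) : 0 < pf κ b Cg := Real.exp_pos _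

/-- increment of the pair field at the corner `c` -/
def ph5 (κ v b Cg : ℝ) (s : ℕ) (x y c : Tor d L) : ℝ :=
  if ANP.dT x c ≤ 2 * s ∨ ANP.dT y c ≤ 2 * s then
    min (κ ^ v) (pf κ b Cg * Real.exp (-(b * κ * ANP.dT x y)))
  else Real.exp (-(b * κ * (ANP.dT x c + ANP.dT y c + ANP.dT x y)))

/-- increment of the pair field at an insertion near the corner `c` -/
def ph5i (κ v b s5 : ℝ) (s : ℕ) (x y c : Tor d L) : ℝ :=
  if ANP.dT x c ≤ 2 * s ∨ ANP.dT y c ≤ 2 * s then κ ^ v * (max 1 (ANP.dT x y : ℝ)) ^ (-s5)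
  else Real.exp (-(b * κ * (ANP.dT x c + ANP.dT y c + ANP.dT x y)))

/-- the fields after the steps at level `n` at the corners in `C` -/
def Fld.add (P : Par) (n s : ℕ) (F : Fld (Tor d L)) (C : Finset (Tor d L)) : Fld (Tor d L) where
  err x := F.err x + ∑ c ∈ C, ph (P.kap n) P.v P.b s x c
  et x := F.et x + ∑ c ∈ C, ph (P.kap n) P.vt P.b s x c
  be x := F.be x + (P.kap n) ^ (-P.vp) * ∑ c ∈ C, ph (P.kap n) P.v P.b s x c
  ae x := F.ae x + (P.eta + P.kap n)⁻¹ * ∑ c ∈ C, ph (P.kap n) P.v P.b s x c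
  g5 x y := F.g5 x y + ∑ c ∈ C, ph5 (P.kap n) P.v P.b P.Cg s x y c

/-- the fields after `m` insertions at level `n` near each of the corners in `C` -/
def Fld.ins (P : Par) (n s m : ℕ) (F : Fld (Tor d L)) (C : Finset (Tor d L)) :
    Fld (Tor d L) where
  err x := F.err x + m * ∑ c ∈ C, ph (P.kap n) P.vi P.b s x c
  et x := F.et x + m * ∑ c ∈ C, ph (P.kap n) P.vt P.b s x c
  be x := F.be x + (P.kap n) ^ (-P.vp) * (m * ∑ c ∈ C, ph (P.kap n) P.vi P.b s x c)
  ae x := F.ae x + (P.eta + P.kap n)⁻¹ * (m * ∑ c ∈ C, ph (P.kap n) P.vi P.b s x c)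
  g5 x y := F.g5 x y + m * ∑ c ∈ C, ph5i (P.kap n) P.vi P.b P.s5 s x y c

/-- one more step -/
theorem Fld.add_insert [DecidableEq (Tor d L)] (P : Par) (n s : ℕ) (F : Fld (Tor d L))
    (C : Finset (Tor d L)) (c : Tor d L) (hc : c ∉ C) :
    F.add P n s (insert c C) = (F.add P n s C).add P n s {c} := by
  unfold Fld.add
  simp only [Finset.sum_insert hc, Finset.sum_singleton]
  congr 1
  · funext x
    ring
  · funext x
    ring
  · funext x
    ring
  · funext x
    ring
  · funext x y
    ring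

theorem Fld.add_empty (P : Par) (n s : ℕ) (F : Fld (Tor d L)) : F.add P n s ∅ = F := by
  unfold Fld.add
  simp

variable [NeZero L]

/-- THE TOLERANCES at level `n` with fields `F`, for the profile `π`, the configuration `v`, the medium `M` -/
def tolAt {X : Type} (P : Par) (Sf : SiteF X) (n : ℕ) (F : Fld (Tor d L))
    (π : Prof (Tor d L)) (v : Tor d L → X) (M : Med (Tor d L)) : Tol d L where
  k := P.kap n
  kl := P.cl * P.kap (n + 1)
  eta := P.eta
  st := P.cs * P.kap (n + 1)
  del := fun x => P.del0 + F.err x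
  tau := fun x => (P.kap n) ^ (-(7 / 8) : ℝ) * (1 + F.et x)
  Ks := Sf.Ks n
  a := fun K y => if y ∈ M.A then
    Sf.phi K (π.lev y) (v y) * (rsc (H0T d L) M.b y y).im else 0
  z := fun K y =>
    (if y ∈ M.A then 0 else Sf.phi K (π.lev y) (v y) * (rsc (H0T d L) M.b y y).im) +
      Sf.s K * P.Cz * (F.err y * ((if y ∈ M.A then P.eta else M.eta y) / P.kap (n + 1)) +
        F.be y * (Sf.om (π.lev y) (v y) * (rsc (H0T d L) M.b y y).im))
  D := fun _ x => P.D0 * (1 - P.CD * F.err x)
  dl := fun x => if x ∈ M.A then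
    (P.e0 + P.Ce * F.ae x) * (M.eta x * (rsc (H0T d L) M.b x x).im) else P.dS * (1 + F.err x)
  C0 := fun _ x => P.C00 * (1 + P.CD * F.err x)
  g5 := F.g5

end Pool.Agent.AND
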