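import Pool.Agent.AND.StartTop
import Pool.Agent.AND.Sched

/-! # AND / StartTol: [START] in `tolAt` form -/

open Matrix Finset

noncomputable section

namespace Pool.Agent.AND

open Pool.Agent.Kin Pool.Agent.APS

variable {d L : ℕ} [NeZero L]

/-- numerical conditions of the start: `γ = ζ.im`, `ρ = Im g0`, `e`, `C` of `ANT.Start`, `s` = variance at level `0` -/
structure StartNum {X : Type} (P : Par) (Sf : SiteF X) (F : Fld (Tor d L)) (γ ρ s e C : ℝ) :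
    Prop where
  CD : 0 ≤ P.CD
  Ce : 0 ≤ P.Ce
  Cz : 0 ≤ P.Cz
  D0p : 0 ≤ P.D0
  C00p : 0 ≤ P.C00
  sK : ∀ K ∈ Sf.Ks 0, 0 ≤ Sf.s K
  eta : 0 ≤ P.eta
  k1 : 0 < P.kap 1
  k0 : 0 < P.kap 0
  err : ∀ x, 0 ≤ F.err x
  et : ∀ x, 0 ≤ F.et x
  ae : ∀ x, 0 ≤ F.ae x
  del : 0 ≤ P.del0
  kl : P.cl * P.kap 1 ≤ s
  k : s ≤ P.kap 0
  tau : C * γ ^ (-(3 / 4) : ℝ) ≤ (P.kap 0) ^ (-(7 / 8) : ℝ)
  /-- `φ^K` is constant at level `0` and not larger than `s_K Cz be ω / (C √γ)` -/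
  phi : ∀ K ∈ Sf.Ks 0, ∃ φ0 : ℝ, 0 ≤ φ0 ∧ (∀ a, Sf.phi K 0 a = φ0) ∧
    ∀ x a, φ0 * C * √γ ≤ ρ * (Sf.s K * P.Cz * (F.be x * Sf.om 0 a))
  D0 : P.D0 ≤ 1 / (C * γ ^ (1 - 2 * e))
  dl : γ ^ (e / 4) ≤ P.e0 * (γ * ρ)
  C00 : C / γ ≤ P.C00

theorem start_tol {E η s : ℝ} {g0 ζ : ℂ} {e c1 C1 C : ℝ}
    (S : ANT.Start d L E η s g0 e c1 C1 C ζ) (hc1 : 0 < c1) (hC : 1 ≤ C) {f : Fix}
    (hf : f.g0 = g0) {X : Type} {P : Par} {Sf : SiteF X} {F : Fld (Tor d L)}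
    (hη : P.eta = η) (sg : Tor d L → ℂ) (v : Tor d L → X)
    (hN : StartNum P Sf F ζ.im g0.im s e C) (hg5 : ∀ x y, ‖Mx ζ (x - y)‖ ≤ F.g5 x y) :
    Good f (tolAt P Sf 0 F (pi0 d L sg) v (M0 d L s ζ)) (M0 d L s ζ) := by
  have hζ := S.gam0
  have hg0 : 0 < g0.im := hc1.trans_le S.lo
  have hG0 : ∀ x : Tor d L, rsc (H0T d L) (M0 d L s ζ).b x x = g0 := by
    intro x
    show rsc (H0T d L) (fun _ => -ζ) x x = g0
    rw [rsc_free hζ, sub_self, ← S.fix]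
  have hA : ∀ x : Tor d L, x ∈ (M0 d L s ζ).A := fun x => Finset.mem_univ x
  refine good_start S hc1 hC hf hN.kl hN.k hη ?_ ?_ ?_ ?_ ?_ ?_ hg5
  · intro x
    exact add_nonneg hN.del (hN.err x)
  · intro x
    refine hN.tau.trans ?_
    show _ ≤ (P.kap 0) ^ (-(7 / 8) : ℝ) * (1 + F.et x)
    have h1 : 0 < (P.kap 0) ^ (-(7 / 8) : ℝ) := Real.rpow_pos_of_pos hN.k0 _
    nlinarith [hN.et x]
  · intro K hK
    obtain ⟨φ0, h0, h1, h2⟩ := hN.phi K hK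
    refine ⟨φ0 * g0.im, by positivity, ?_, ?_⟩
    · intro y
      show (if y ∈ (M0 d L s ζ).A then
        Sf.phi K ((pi0 d L sg).lev y) (v y) * (rsc (H0T d L) (M0 d L s ζ).b y y).im else 0) = _
      rw [if_pos (hA y), hG0]
      show Sf.phi K 0 (v y) * g0.im = _
      rw [h1]
    · intro y
      show φ0 * g0.im * C * √ζ.im ≤ g0.im * ((if y ∈ (M0 d L s ζ).A then 0 else
          Sf.phi K ((pi0 d L sg).lev y) (v y) * (rsc (H0T d L) (M0 d L s ζ).b y y).im) +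
        Sf.s K * P.Cz * (F.err y * ((if y ∈ (M0 d L s ζ).A then P.eta else
          (M0 d L s ζ).eta y) / P.kap (0 + 1)) +
          F.be y * (Sf.om ((pi0 d L sg).lev y) (v y) *
            (rsc (H0T d L) (M0 d L s ζ).b y y).im)))
      rw [if_pos (hA y), if_pos (hA y), hG0]
      show φ0 * g0.im * C * √ζ.im ≤ g0.im * (0 + Sf.s K * P.Cz *
        (F.err y * (P.eta / P.kap 1) + F.be y * (Sf.om 0 (v y) * g0.im)))
      have h3 := h2 y (v y)
      have h4 : 0 ≤ Sf.s K * P.Cz * (F.err y * (P.eta / P.kap 1)) := by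
        have := hN.sK K hK
        have := hN.Cz
        have := hN.err y
        have := hN.eta
        have := hN.k1
        positivity
      have h5 := mul_le_mul_of_nonneg_left h3 hg0.le
      have h6 := mul_nonneg hg0.le h4
      nlinarith
  · intro i x
    show P.D0 * (1 - P.CD * F.err x) ≤ _
    refine le_trans ?_ hN.D0
    have h1 := mul_nonneg hN.D0p (mul_nonneg hN.CD (hN.err x))
    nlinarith
  · intro x
    show _ ≤ if x ∈ (M0 d L s ζ).A then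
      (P.e0 + P.Ce * F.ae x) * ((M0 d L s ζ).eta x * (rsc (H0T d L) (M0 d L s ζ).b x x).im)
      else P.dS * (1 + F.err x)
    rw [if_pos (hA x), hG0]
    have h1 : (M0 d L s ζ).eta x = ζ.im := by
      show -(-ζ).im = ζ.im
      rw [Complex.neg_im, neg_neg]
    rw [h1]
    refine hN.dl.trans ?_
    have h2 : 0 ≤ P.Ce * F.ae x * (ζ.im * g0.im) :=
      mul_nonneg (mul_nonneg hN.Ce (hN.ae x)) (by positivity)
    nlinarith
  · intro i x
    show _ ≤ P.C00 * (1 + P.CD * F.err x)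
    refine hN.C00.trans ?_
    have h1 := mul_nonneg hN.C00p (mul_nonneg hN.CD (hN.err x))
    nlinarith

end Pool.Agent.AND
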