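import Pool.Agent.AND.Good
import Pool.Agent.ANL.Base
import Pool.Agent.Kin.Hdiag

/-! # AND UseH3 (U1): the use of (H3)

`useH3` (any finite matrix, `ANL.Adm`): if `|∑_A R_xy a_y| ≤ ∑_X S_xy z_y`, `φ a ≤ k ι` and `2 k ι - φ a + φ z ≤ (2-ρ) η` off the
read sites then `∑ k_y ι_y (Re G_xy)² ≤ (1 - ρ/2) ι_x`.
`Good.adm`, `Good.reSq`: the same for a good medium.
-/

open Matrix Finset

noncomputable section

namespace Pool.Agent.AND

open Pool.Agent.Kin Pool.Agent.APS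

section abs

variable {ι : Type} [Fintype ι] [DecidableEq ι] {H : Matrix ι ι ℂ} {b : ι → ℂ}

theorem re_sq_eq (z : ℂ) : z.re ^ 2 = (‖z‖ ^ 2 + (z ^ 2).re) / 2 := by
  rw [Complex.sq_norm, Complex.normSq_apply, sq z, Complex.mul_re]
  ring

/-- THE USE OF (H3) -/
theorem useH3 (h : ANL.Adm H b) (A U : Finset ι) (hAU : Disjoint A U) (k a z : ι → ℝ)
    (φ ρ : ℝ) (hφ : 0 < φ) (ha0 : ∀ y, 0 ≤ a y) (hk0 : ∀ y, y ∉ A → k y = 0)
    (h1 : ∀ y, y ∉ U → φ * a y ≤ k y * (rsc H b y y).im)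
    (h2 : ∀ y, y ∉ U → 2 * (k y * (rsc H b y y).im) - φ * a y + φ * z y ≤ (2 - ρ) * -(b y).im)
    (hρ : ρ ≤ 2) (x : ι)
    (h3 : ‖∑ y ∈ A, rsc H b x y ^ 2 * (a y : ℂ)‖ ≤ ∑ y ∈ Uᶜ, ‖rsc H b x y‖ ^ 2 * z y) :
    ∑ y, k y * (rsc H b y y).im * (rsc H b x y).re ^ 2 ≤ (1 - ρ / 2) * (rsc H b x x).im := by
  classical
  have hS : ∀ y, 0 ≤ ‖rsc H b x y‖ ^ 2 := fun y => sq_nonneg _
  have hre : ∀ y, (rsc H b x y).re ^ 2 ≤ ‖rsc H b x y‖ ^ 2 := by
    intro y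
    have e1 := Complex.abs_re_le_norm (rsc H b x y)
    have e2 := abs_nonneg (rsc H b x y).re
    nlinarith [sq_abs (rsc H b x y).re]
  have hAU' : ∀ y ∈ A, y ∉ U := fun y hy hu => Finset.disjoint_left.1 hAU hy hu
  -- sum over A
  have s1 : ∑ y, k y * (rsc H b y y).im * (rsc H b x y).re ^ 2 =
      ∑ y ∈ A, k y * (rsc H b y y).im * (rsc H b x y).re ^ 2 := by
    symm
    refine Finset.sum_subset (Finset.subset_univ A) fun y _ hy => ?_
    rw [hk0 y hy]; ring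
  have s2 : ∑ y ∈ A, k y * (rsc H b y y).im * (rsc H b x y).re ^ 2 =
      φ * ∑ y ∈ A, a y * (rsc H b x y).re ^ 2 +
        ∑ y ∈ A, (k y * (rsc H b y y).im - φ * a y) * (rsc H b x y).re ^ 2 := by
    rw [Finset.mul_sum, ← Finset.sum_add_distrib]
    exact Finset.sum_congr rfl fun y _ => by ring
  have s3 : ∑ y ∈ A, (k y * (rsc H b y y).im - φ * a y) * (rsc H b x y).re ^ 2 ≤
      ∑ y ∈ A, (k y * (rsc H b y y).im - φ * a y) * ‖rsc H b x y‖ ^ 2 := by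
    refine Finset.sum_le_sum fun y hy => mul_le_mul_of_nonneg_left (hre y) ?_
    linarith [h1 y (hAU' y hy)]
  have s4 : ∑ y ∈ A, a y * (rsc H b x y).re ^ 2 =
      ((∑ y ∈ A, rsc H b x y ^ 2 * (a y : ℂ)).re + ∑ y ∈ A, ‖rsc H b x y‖ ^ 2 * a y) / 2 := by
    rw [Complex.re_sum, ← Finset.sum_add_distrib, Finset.sum_div]
    refine Finset.sum_congr rfl fun y _ => ?_
    rw [re_sq_eq, Complex.re_mul_ofReal]
    ring
  have s5 : ∑ y ∈ A, a y * (rsc H b x y).re ^ 2 ≤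
      (∑ y ∈ Uᶜ, ‖rsc H b x y‖ ^ 2 * z y + ∑ y ∈ A, ‖rsc H b x y‖ ^ 2 * a y) / 2 := by
    rw [s4]
    have := Complex.re_le_norm (∑ y ∈ A, rsc H b x y ^ 2 * (a y : ℂ))
    linarith
  -- off A the weight a vanishes
  have ha : ∀ y, y ∉ U → y ∉ A → a y = 0 := by
    intro y hyU hyA
    have e1 := h1 y hyU
    rw [hk0 y hyA] at e1
    have e2 := ha0 y
    have e3 : φ * a y ≤ 0 := by linarith
    nlinarith
  have s6 : ∑ y ∈ Uᶜ, ‖rsc H b x y‖ ^ 2 *
      (2 * (k y * (rsc H b y y).im) - φ * a y + φ * z y) =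
      φ * ∑ y ∈ Uᶜ, ‖rsc H b x y‖ ^ 2 * z y +
        ∑ y ∈ A, ‖rsc H b x y‖ ^ 2 * (2 * (k y * (rsc H b y y).im) - φ * a y) := by
    have hsub : A ⊆ Uᶜ := fun y hy => by
      rw [Finset.mem_compl]; exact hAU' y hy
    have e1 : ∑ y ∈ A, ‖rsc H b x y‖ ^ 2 * (2 * (k y * (rsc H b y y).im) - φ * a y) =
        ∑ y ∈ Uᶜ, ‖rsc H b x y‖ ^ 2 * (2 * (k y * (rsc H b y y).im) - φ * a y) := by
      refine Finset.sum_subset hsub fun y hy hyA => ?_
      rw [Finset.mem_compl] at hy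
      rw [hk0 y hyA, ha y hy hyA]; ring
    rw [e1, Finset.mul_sum, ← Finset.sum_add_distrib]
    exact Finset.sum_congr rfl fun y _ => by ring
  have s7 : ∑ y ∈ Uᶜ, ‖rsc H b x y‖ ^ 2 *
      (2 * (k y * (rsc H b y y).im) - φ * a y + φ * z y) ≤ (2 - ρ) * (rsc H b x x).im := by
    have e1 := ANL.ward_le h Uᶜ x
    calc ∑ y ∈ Uᶜ, ‖rsc H b x y‖ ^ 2 *
          (2 * (k y * (rsc H b y y).im) - φ * a y + φ * z y)
        ≤ ∑ y ∈ Uᶜ, (2 - ρ) * (-(b y).im * ‖rsc H b x y‖ ^ 2) := by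
          refine Finset.sum_le_sum fun y hy => ?_
          rw [Finset.mem_compl] at hy
          have := mul_le_mul_of_nonneg_left (h2 y hy) (hS y)
          refine this.trans (le_of_eq (by ring))
      _ = (2 - ρ) * ∑ y ∈ Uᶜ, (-(b y).im * ‖rsc H b x y‖ ^ 2) := by rw [Finset.mul_sum]
      _ ≤ (2 - ρ) * (rsc H b x x).im := mul_le_mul_of_nonneg_left e1 (by linarith)
  have s8 : ∑ y ∈ A, ‖rsc H b x y‖ ^ 2 * (2 * (k y * (rsc H b y y).im) - φ * a y) =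
      2 * ∑ y ∈ A, (k y * (rsc H b y y).im - φ * a y) * ‖rsc H b x y‖ ^ 2 +
        φ * ∑ y ∈ A, ‖rsc H b x y‖ ^ 2 * a y := by
    rw [Finset.mul_sum, Finset.mul_sum, ← Finset.sum_add_distrib]
    exact Finset.sum_congr rfl fun y _ => by ring
  have s9 := mul_le_mul_of_nonneg_left s5 hφ.le
  rw [s1, s2]
  rw [s6, s8] at s7
  linarith

end abs

variable {d L : ℕ} [NeZero L] {f : Fix} {t : Tol d L} {M : Med (Tor d L)} {u : UTol}

theorem Good.im_pos (hg : Good f t M) (hd : ∀ x, x ∉ M.U → t.del x < f.g0.im) (x : Tor d L)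
    (hx : x ∉ M.U) : 0 < (rsc (H0T d L) M.b x x).im := by
  have h1 := hg.h1 x hx
  have h2 := Complex.abs_im_le_norm (rsc (H0T d L) M.b x x - f.g0)
  rw [Complex.sub_im] at h2
  have h3 := neg_abs_le ((rsc (H0T d L) M.b x x).im - f.g0.im)
  have h4 := hd x hx
  linarith

/-- a good medium is admissible -/
theorem Good.adm (hg : Good f t M) (he : 0 ≤ t.eta) (hk : 0 ≤ t.kl) (hst : 0 ≤ t.st)
    (hd : ∀ x, x ∉ M.U → t.del x < f.g0.im) : ANL.Adm (H0T d L) M.b where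
  sym := H0T_realSym
  unit := hg.unit
  im := by
    intro x
    by_cases hU : x ∈ M.U
    · have := hg.eU x hU
      unfold Med.eta at this
      linarith
    · by_cases hA : x ∈ M.A
      · have h1 := hg.eA x hA
        have h2 := hg.im_pos hd x hU
        have h3 := hg.klo x hA
        unfold Med.eta at h1
        have h4 : 0 ≤ M.k x * (rsc (H0T d L) M.b x x).im :=
          mul_nonneg (hk.trans h3) h2.le
        linarith
      · by_cases hI : x ∈ M.I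
        · have := hg.eI x hI
          unfold Med.eta at this
          linarith
        · have := hg.eS x hA hU hI
          unfold Med.eta at this
          linarith

/-- (U1)(i): the input of the accretivity lemma and of `SupB` -/
theorem Good.reSq (hg : Good f t M) (hi : t.In f M u) (he : 0 ≤ t.eta) (hk : 0 ≤ t.kl)
    (hst : 0 ≤ t.st) (hd : ∀ x, x ∉ M.U → t.del x < f.g0.im) (hρ : u.rho ≤ 2) (x : Tor d L)
    (hx : x ∉ M.U) :
    ∑ y, M.k y * (rsc (H0T d L) M.b y y).im * (rsc (H0T d L) M.b x y).re ^ 2 ≤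
      (1 - u.rho / 2) * (rsc (H0T d L) M.b x x).im := by
  obtain ⟨K, hK, φ, hφ, h⟩ := hi.h3
  exact useH3 (hg.adm he hk hst hd) M.A M.U hg.AU M.k (t.a K) (t.z K) φ u.rho hφ (hi.a0 K) hg.k0
    (fun y hy => (h y hy).1) (fun y hy => (h y hy).2) hρ x (hg.h3 K hK x hx)

end Pool.Agent.AND
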