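import Pool.Agent.AND.Use
import Pool.Agent.AND.UseH3
import Pool.Agent.ANM.LocTor

/-! # AND LocGood: locality for good media (owner helper3)

`M` good, `M'` a second medium which is self-consistent with the same data off `C` (`SameOff`), and a priori close to good (`NewOK`).

* `hasW_good`: Agmon weights of a good medium from the chain property of the pieces which contain all read and inert sites.
* `SameOff.of_isMed`: two self-consistent media of profiles with the same data off `C`.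
* `Far M M' r Q ν`: the conclusion: for all non-read `x`, `y`
  `|G_xy - G'_xy| ≤ Q e^{-ν max(r x, r y)}`, `∑_y η'_y |G_xy - G'_xy|² ≤ (Q e^{-ν r x})²`, `|η'_x - η_x| ≤ Q e^{-ν r x}`,
  `|η'_x |G'_xy|² η'_y - η_x |G_xy|² η_y| ≤ Q e^{-ν max(r x, r y)}`; `r` = 1-Lipschitz lower bound of the distance to `C`.
* `far_good`: the theorem.  `dec_good`: decay of the entries of one medium.
-/

open Matrix Finset

noncomputable section

namespace Pool.Agent.AND

open Pool.Agent.Kin Pool.Agent.APS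

variable {d L : ℕ} [NeZero L] {f : Fix} {t : Tol d L} {M M' : Med (Tor d L)} {u : UTol}

theorem adm_diss {ι : Type} [Fintype ι] [DecidableEq ι] {H : Matrix ι ι ℂ} {b : ι → ℂ}
    (h : ANL.Adm H b) : ANM.Diss H b := ⟨h.sym, h.im, h.unit⟩

/-- Agmon weights of a good medium -/
theorem hasW_good (h : Good f t M) (hI : t.In f M u) (hN : Num f t u) {κ : Type*}
    {D : κ → Set (Tor d L)} {a c : ℕ} (hcp : ANM.CP (ANM.td : Tor d L → Tor d L → ℕ) D a c)
    (hU : ∀ x ∈ M.U, ∃ k, x ∈ D k) (hIn : ∀ x ∈ M.I, ∃ k, x ∈ D k) {μ : ℝ} (hμ : 0 ≤ μ)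
    (hμ1 : μ ≤ 1) (h1 : 8 * d * μ ≤ t.kl * f.c1) (h2 : 8 * d * μ ≤ t.st) :
    ANM.HasW M.b {x | ∃ k, x ∈ D k} μ a c := by
  refine ANM.hasW_cp hcp hμ hμ1 (fun x => h.eta_nonneg hI hN x) ?_ (le_refl (8 * d * μ))
  intro x hx
  have hxU : x ∉ M.U := fun hU' => by
    obtain ⟨k, hk⟩ := hU x hU'
    exact hx k hk
  have hxI : x ∉ M.I := fun hI' => by
    obtain ⟨k, hk⟩ := hIn x hI'
    exact hx k hk
  have he := hN.eta
  by_cases hA : x ∈ M.A
  · have h3 := h.eta_act hI hN hA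
    unfold Med.eta at h3
    linarith
  · have h3 := h.eS x hA hxU hxI
    unfold Med.eta at h3
    linarith

/-- decay of the entries of a good medium -/
theorem dec_good (h : Good f t M) (hI : t.In f M u) (hN : Num f t u) {F : Set (Tor d L)} {μ : ℝ}
    {a c : ℕ} (ha : 1 ≤ a) (hμ : 0 ≤ μ) (hw : ANM.HasW M.b F μ a c) {x : Tor d L}
    (hx : x ∉ M.U) (y : Tor d L) :
    M.eta y * ‖rsc (H0T d L) M.b x y‖ ^ 2 ≤
      2 * f.C1 * (Real.exp (2 * μ * c / a) * Real.exp (-(2 * μ * ANM.td x y / a))) := by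
  refine (ANM.dec_ent (adm_diss (h.admN hI hN)) ha hμ hw x y).trans ?_
  refine mul_le_mul_of_nonneg_right ?_ (by positivity)
  linarith [h.gam_le hI hN hx]

/-- `M'` is self-consistent with the data of `M` off `C` -/
structure SameOff (M M' : Med (Tor d L)) (C : Finset (Tor d L)) : Prop where
  b : ∀ x, x ∉ C → M'.b x - M.b x =
    (M.k x : ℂ) * (rsc (H0T d L) M.b x x - rsc (H0T d L) M'.b x x)

theorem SameOff.of_isMed {X : Type} {Y : Sys X} {π π' : Prof (Tor d L)} {v v' : Tor d L → X}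
    {C : Finset (Tor d L)} (h : IsMed (H0T d L) Y π v M) (h' : IsMed (H0T d L) Y π' v' M')
    (hc : ∀ x, x ∉ C → cp Y π' v' x = cp Y π v x)
    (hk : ∀ x, x ∉ C → kp Y π' v' x = kp Y π v x) : SameOff M M' C := by
  constructor
  intro x hx
  rw [h.b x, h'.b x, hc x hx, hk x hx, h.k]
  ring

/-- a priori properties of the second medium -/
structure NewOK (f : Fix) (M M' : Med (Tor d L)) (C : Finset (Tor d L)) : Prop where
  adm : ANL.Adm (H0T d L) M'.b
  c1 : ∀ x, x ∉ M.U → f.c1 / 2 ≤ (rsc (H0T d L) M'.b x x).im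
  C1 : ∀ x, x ∉ M.U → ‖rsc (H0T d L) M'.b x x‖ ≤ 2 * f.C1
  k : ∀ x ∈ M.A, x ∉ C → M.k x * (rsc (H0T d L) M'.b x x).im ≤ M'.eta x

/-- the weight conditions on a set `W` of sites whose absorption may disappear, from a priori bounds -/
theorem NewOK.wtOK {C : Finset (Tor d L)} (hO : NewOK f M M' C) {W : Finset (Tor d L)}
    (hWU : ∀ x ∈ W, x ∉ M.U) {om Lm : ℝ} (hom : 0 < om)
    (h1 : om * (W.card : ℝ) * (2 * f.C1) ≤ 1) (h2 : om * (W.card : ℝ) * Lm ^ 2 ≤ f.c1 / 2)
    (hLm : ∀ x y, x ∉ M.U → y ∉ M.U → ‖rsc (H0T d L) M'.b x y‖ ≤ Lm) :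
    ANM.WtOK (H0T d L) M'.b W om {y | y ∉ M.U} := by
  have hm : 0 ≤ om * (W.card : ℝ) := by positivity
  refine ⟨hom, fun z hz => ?_, fun z hz y hy => ?_⟩
  · refine le_trans ?_ h1
    refine mul_le_mul_of_nonneg_left ?_ hm
    exact ((le_abs_self _).trans (Complex.abs_im_le_norm _)).trans (hO.C1 z (hWU z hz))
  · refine le_trans ?_ (h2.trans (hO.c1 y hy))
    refine mul_le_mul_of_nonneg_left ?_ hm
    exact pow_le_pow_left₀ (norm_nonneg _) (hLm y z hy (hWU z hz)) 2

/-- `√(1 - ρ/2)` -/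
def lH (u : UTol) : ℝ := √(1 - u.rho / 2)

/-- half of the gap -/
def eH (u : UTol) : ℝ := (1 - lH u) / 2

/-- the rate constant -/
def tH (f : Fix) (u : UTol) : ℝ := eH u * f.c1 / (4 * f.C1)

theorem lH_lt (hρ : 0 < u.rho) (hρ2 : u.rho ≤ 2) : lH u < 1 ∧ 0 ≤ lH u := by
  refine ⟨?_, Real.sqrt_nonneg _⟩
  unfold lH
  rw [show (1 : ℝ) = √1 by rw [Real.sqrt_one], Real.sqrt_lt_sqrt_iff (by rw [Real.sqrt_one]; linarith)]
  rw [Real.sqrt_one]
  linarith

/-- polynomial constants -/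
structure KOK (f : Fix) (t : Tol d L) (u : UTol) (K : ℝ) : Prop where
  one : 1 ≤ K
  kl : 1 / K ≤ t.kl
  e : 1 / K ≤ eH u
  c1 : 1 / K ≤ f.c1 / 2
  C1 : 2 * (2 * f.C1) ≤ K * (f.c1 / 2)
  C1' : 2 * f.C1 ≤ K

/-- the hypotheses of the comparison theorem hold -/
theorem twoMed (h : Good f t M) (hI : t.In f M u) (hN : Num f t u) (hρ : 0 < u.rho)
    (hρ2 : u.rho ≤ 2) (hk1 : t.k ≤ 1) {F : Set (Tor d L)} {μ : ℝ} {a c : ℕ} (ha : 1 ≤ a)
    (hμ : 0 < μ) (hμ1 : μ ≤ 1) (hw : ANM.HasW M.b F μ a c) {C : Finset (Tor d L)}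
    (hS : SameOff M M' C) (hO : NewOK f M M' C) {K : ℝ} (hK : KOK f t u K)
    {W : Finset (Tor d L)} {om : ℝ} (hW : ANM.WtOK (H0T d L) M'.b W om {y | y ∉ M.U})
    (hWC : W ⊆ C)
    (hC : ∀ x ∈ C, ‖M'.b x - M.b x‖ ^ 2 ≤ K ^ 2 * (M.eta x * ANM.omW M'.b W om x)) :
    ANM.TwoMed M.b M'.b M.k M.A C W om {y | y ∉ M.U} F μ a c K (2 * f.C1) (f.c1 / 2) (tH f u)
      (lH u) (eH u) := by
  obtain ⟨hl1, hl0⟩ := lH_lt (u := u) hρ hρ2
  have hc1 := hN.c1
  have hC1 := h.C1_pos hI hN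
  have hdel : ∀ x, x ∉ M.U → t.del x < f.g0.im := by
    intro x _
    have e1 := hI.del x
    have e2 := hN.g0
    linarith
  have he0 : 0 < eH u := by unfold eH; linarith
  have he1 : eH u ≤ 1 / 2 := by unfold eH; linarith
  have hcC : f.c1 ≤ f.C1 := by
    have e1 := hN.g0
    have e2 := hN.C1
    have e3 : f.g0.im ≤ ‖f.g0‖ := (le_abs_self _).trans (Complex.abs_im_le_norm _)
    have e4 := hN.del
    linarith
  have hnU : ∀ x ∈ M.A, x ∉ M.U := fun x hx => h.nU_of_A hx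
  constructor
  case hW => exact hW
  case hWC => exact hWC
  case hAY => exact hnU
  case ha => exact ha
  case hb => exact adm_diss (h.admN hI hN)
  case hb' => exact adm_diss hO.adm
  case hμ => exact hμ
  case hμ1 => exact hμ1
  case hw => exact hw
  case hk0 => exact h.k0
  case hκ => exact fun x hx => hK.kl.trans (h.klo x hx)
  case hκ1 => exact fun x hx => (h.khi x hx).trans hk1
  case hk => exact fun x hx => h.kio_le hI hN (hnU x hx)
  case hk' => exact fun x hx hxC => hO.k x hx hxC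
  case hdif => exact hS.b
  case hC => exact hC
  case h3 =>
    intro x hx
    have e1 := h.reSq hI hN.eta.le hN.kl.le hN.st hdel hρ2 x (hnU x hx)
    have e2 : lH u ^ 2 = 1 - u.rho / 2 := by
      unfold lH
      rw [Real.sq_sqrt (by linarith)]
    rw [e2]
    refine le_trans ?_ e1
    refine le_trans (le_of_eq (Finset.sum_congr rfl fun y _ => by ring))
      (Finset.sum_le_sum_of_subset_of_nonneg (Finset.subset_univ M.A) fun y _ hy => ?_)
    rw [h.k0 y hy, zero_mul, zero_mul]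
  case hC1 => exact fun x hx => by linarith [h.gam_le hI hN (hnU x hx)]
  case hc1 => exact fun x hx => by linarith [h.io_ge hI hN (hnU x hx)]
  case hC1' => exact fun x hx _ => hO.C1 x (hnU x hx)
  case hc1' => exact fun x hx _ => hO.c1 x (hnU x hx)
  case ht => unfold tH; positivity
  case ht1 =>
    unfold tH
    rw [div_le_one (by positivity)]
    nlinarith
  case hl => exact hl0
  case hε => exact he0.le
  case htε =>
    have e1 : 4 * tH f u ^ 2 * (2 * f.C1) = eH u ^ 2 * (f.c1 / 2) * (f.c1 / f.C1) := by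
      unfold tH
      field_simp
      ring
    rw [e1]
    have e2 : f.c1 / f.C1 ≤ 1 := by
      rw [div_le_one hC1]
      exact hcC
    calc eH u ^ 2 * (f.c1 / 2) * (f.c1 / f.C1) ≤ eH u ^ 2 * (f.c1 / 2) * 1 :=
          mul_le_mul_of_nonneg_left e2 (by positivity)
      _ = _ := by ring
  case hK => exact hK.one
  case hKl =>
    have : 1 - lH u - eH u = eH u := by unfold eH; ring
    rw [this]
    exact hK.e
  case hKc => exact hK.c1
  case hKC => exact hK.C1
  case hKC' => exact hK.C1'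

/-- the conclusion of the locality theorem -/
structure Far (M M' : Med (Tor d L)) (r : Tor d L → ℕ) (Q ν : ℝ) : Prop where
  ent : ∀ x y, x ∉ M.U → y ∉ M.U →
    ‖rsc (H0T d L) M.b x y - rsc (H0T d L) M'.b x y‖ ≤ Q * Real.exp (-(ν * (max (r x) (r y) : ℕ)))
  row : ∀ x, x ∉ M.U →
    ∑ y, M'.eta y * ‖rsc (H0T d L) M.b x y - rsc (H0T d L) M'.b x y‖ ^ 2 ≤
      (Q * Real.exp (-(ν * r x))) ^ 2
  eta : ∀ x, x ∉ M.U → |M'.eta x - M.eta x| ≤ Q * Real.exp (-(ν * r x))
  /-- relative form -/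
  etaR : ∀ x, x ∉ M.U →
    |M'.eta x - M.eta x| ≤ max (M.eta x) (M'.eta x) * (Q * Real.exp (-(ν * r x)))
  ker : ∀ x y, x ∉ M.U → y ∉ M.U →
    |M'.eta x * ‖rsc (H0T d L) M'.b x y‖ ^ 2 * M'.eta y -
        M.eta x * ‖rsc (H0T d L) M.b x y‖ ^ 2 * M.eta y| ≤
      Q * Real.exp (-(ν * (max (r x) (r y) : ℕ)))

/-- LOCALITY OF GOOD MEDIA; the absorption of the second medium may disappear on `W` -/
theorem far_goodW (h : Good f t M) (hI : t.In f M u) (hN : Num f t u) (hρ : 0 < u.rho)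
    (hρ2 : u.rho ≤ 2) (hk1 : t.k ≤ 1) {F : Set (Tor d L)} {μ : ℝ} {a c : ℕ} (ha : 1 ≤ a)
    (hμ : 0 < μ) (hμ1 : μ ≤ 1) (hw : ANM.HasW M.b F μ a c) (hw' : ANM.HasW M'.b F μ a c)
    {C : Finset (Tor d L)}
    (hS : SameOff M M' C) (hO : NewOK f M M' C) {K : ℝ} (hK : KOK f t u K)
    {W : Finset (Tor d L)} {om : ℝ} (hW : ANM.WtOK (H0T d L) M'.b W om {y | y ∉ M.U})
    (hWC : W ⊆ C)
    (hC : ∀ x ∈ C, ‖M'.b x - M.b x‖ ^ 2 ≤ K ^ 2 * (M.eta x * ANM.omW M'.b W om x))
    (he : ∀ x, M'.eta x ≤ 1) {r : Tor d L → ℕ}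
    (hr : ∀ x, ∀ z ∈ C, r x ≤ ANM.td x z) (hL : ∀ x y, r x ≤ r y + ANM.td x y) :
    Far M M' r (6 * K * ANM.KL d μ a c K (tH f u) * Real.exp (2 * μ * c / a))
      (ANM.nuL μ a (tH f u)) := by
  have hT := twoMed h hI hN hρ hρ2 hk1 ha hμ hμ1 hw hS hO hK hW hWC hC
  have h1 : ∀ x, x ∉ M.U → ‖rsc (H0T d L) M.b x x‖ ≤ K := fun x hx => by
    linarith [h.gam_le hI hN hx, hK.C1', h.C1_pos hI hN]
  have h2 : ∀ x, x ∉ M.U → ‖rsc (H0T d L) M'.b x x‖ ≤ K := fun x hx =>
    (hO.C1 x hx).trans hK.C1'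
  have him : ∀ z : ℂ, z.im ≤ ‖z‖ := fun z => (le_abs_self _).trans (Complex.abs_im_le_norm z)
  have hKL := hT.one_le_KL
  have hK1 := hK.one
  have he1 : ∀ x, M.eta x ≤ 1 := by
    intro x
    by_cases hx : x ∈ M.U
    · rw [h.eU x hx]
      norm_num
    · exact h.eS1 x hx
  have hE1 : 1 ≤ Real.exp (2 * μ * c / a) := Real.one_le_exp (by positivity)
  have hKQ : K * ANM.KL d μ a c K (tH f u) ≤
      6 * K * ANM.KL d μ a c K (tH f u) * Real.exp (2 * μ * c / a) := by
    have e0 : 0 ≤ K * ANM.KL d μ a c K (tH f u) := by positivity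
    calc K * ANM.KL d μ a c K (tH f u) = K * ANM.KL d μ a c K (tH f u) * 1 := by ring
      _ ≤ (6 * (K * ANM.KL d μ a c K (tH f u))) * Real.exp (2 * μ * c / a) := by
          refine mul_le_mul ?_ hE1 (by norm_num) (by positivity)
          linarith
      _ = _ := by ring
  have hQ : ANM.KL d μ a c K (tH f u) ≤
      6 * K * ANM.KL d μ a c K (tH f u) * Real.exp (2 * μ * c / a) := by
    refine le_trans ?_ hKQ
    exact le_mul_of_one_le_left (by linarith) hK1
  constructor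
  · intro x y hx hy
    refine le_trans ?_ (mul_le_mul_of_nonneg_right hQ (Real.exp_pos _).le)
    rcases le_total (r x) (r y) with hxy | hxy
    · rw [max_eq_right hxy]
      exact hT.ent' (hr y) hx ((him _).trans (h2 x hx)) (h1 y hy)
    · rw [max_eq_left hxy]
      exact hT.ent (hr x) (h1 x hx) hy ((him _).trans (h2 y hy))
  · intro x hx
    refine (hT.row (hr x) (h1 x hx)).trans ?_
    have e1 : 0 ≤ ANM.KL d μ a c K (tH f u) := by linarith
    exact pow_le_pow_left₀ (mul_nonneg e1 (Real.exp_pos _).le)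
      (mul_le_mul_of_nonneg_right hQ (Real.exp_pos _).le) 2
  · intro x hx
    refine le_trans ?_ (mul_le_mul_of_nonneg_right hQ (Real.exp_pos _).le)
    exact hT.eta_sub (hr x) (h1 x hx) ((him _).trans (h2 x hx)) (he1 x) (he x)
  · intro x hx
    have n1 : 0 ≤ M.eta x := (adm_diss (h.admN hI hN)).nn' x
    have n2 : 0 ≤ M'.eta x := (adm_diss hO.adm).nn' x
    have m1 : M.eta x ≤ max (M.eta x) (M'.eta x) := le_max_left _ _
    have m2 : M'.eta x ≤ max (M.eta x) (M'.eta x) := le_max_right _ _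
    have m0 : 0 ≤ max (M.eta x) (M'.eta x) := n1.trans m1
    by_cases hxC : x ∈ C
    · have r0 : r x = 0 := by
        have e1 := hr x x hxC
        rw [ANM.td_met.self] at e1
        omega
      rw [r0, Nat.cast_zero, mul_zero, neg_zero, Real.exp_zero, mul_one]
      have e1 : |M'.eta x - M.eta x| ≤ max (M.eta x) (M'.eta x) :=
        abs_sub_le_iff.2 ⟨by linarith, by linarith⟩
      exact e1.trans (le_mul_of_one_le_right m0 (hKL.trans hQ))
    · by_cases hxA : x ∈ M.A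
      · have e1 : |M'.eta x - M.eta x| ≤ ‖M'.b x - M.b x‖ := by
          have e2 := Complex.abs_im_le_norm (M'.b x - M.b x)
          rw [Complex.sub_im] at e2
          unfold Med.eta
          rw [show (-(M'.b x).im) - (-(M.b x).im) = -((M'.b x).im - (M.b x).im) by ring, abs_neg]
          exact e2
        have hk0 : 0 ≤ M.k x := hN.kl.le.trans (h.klo x hxA)
        have e3 : M.k x ≤ K * M.eta x := by
          have e4 := h.kio_le hI hN hx
          have e5 := h.io_ge hI hN hx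
          have e6 : M.k x * f.c1 ≤ M.eta x := (mul_le_mul_of_nonneg_left e5 hk0).trans e4
          have e7 : 1 ≤ K * f.c1 := by
            have e8 := hK.c1
            have hK0 : 0 < K := by linarith
            rw [div_le_iff₀ hK0] at e8
            nlinarith [hN.c1]
          calc M.k x = M.k x * 1 := (mul_one _).symm
            _ ≤ M.k x * (K * f.c1) := mul_le_mul_of_nonneg_left e7 hk0
            _ = K * (M.k x * f.c1) := by ring
            _ ≤ K * M.eta x := mul_le_mul_of_nonneg_left e6 (by linarith)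
        have e9 := hT.ent (hr x) (h1 x hx) hx ((him _).trans (h2 x hx))
        refine e1.trans ?_
        rw [hS.b x hxC, norm_mul, Complex.norm_real, Real.norm_eq_abs, abs_of_nonneg hk0]
        calc M.k x * ‖rsc (H0T d L) M.b x x - rsc (H0T d L) M'.b x x‖
            ≤ (K * M.eta x) * (ANM.KL d μ a c K (tH f u) *
              Real.exp (-(ANM.nuL μ a (tH f u) * r x))) :=
              mul_le_mul e3 e9 (norm_nonneg _) (by positivity)
          _ = M.eta x * (K * ANM.KL d μ a c K (tH f u) *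
              Real.exp (-(ANM.nuL μ a (tH f u) * r x))) := by ring
          _ ≤ max (M.eta x) (M'.eta x) *
              (6 * K * ANM.KL d μ a c K (tH f u) * Real.exp (2 * μ * c / a) *
                Real.exp (-(ANM.nuL μ a (tH f u) * r x))) := by
              refine mul_le_mul m1 ?_ (by positivity) m0
              exact mul_le_mul_of_nonneg_right hKQ (Real.exp_pos _).le
      · have e1 : M'.eta x = M.eta x := by
          have e2 := hS.b x hxC
          rw [h.k0 x hxA, Complex.ofReal_zero, zero_mul] at e2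
          unfold Med.eta
          rw [sub_eq_zero.1 e2]
        rw [e1, sub_self, abs_zero]
        positivity
  · intro x y hx hy
    exact hT.ker hw' he1 he hr hL hx hy (h1 x hx) (h1 y hy) (h2 x hx) (h2 y hy)

/-- LOCALITY OF GOOD MEDIA -/
theorem far_good (h : Good f t M) (hI : t.In f M u) (hN : Num f t u) (hρ : 0 < u.rho)
    (hρ2 : u.rho ≤ 2) (hk1 : t.k ≤ 1) {F : Set (Tor d L)} {μ : ℝ} {a c : ℕ} (ha : 1 ≤ a)
    (hμ : 0 < μ) (hμ1 : μ ≤ 1) (hw : ANM.HasW M.b F μ a c) (hw' : ANM.HasW M'.b F μ a c)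
    {C : Finset (Tor d L)}
    (hS : SameOff M M' C) (hO : NewOK f M M' C) {K : ℝ} (hK : KOK f t u K)
    (hC : ∀ x ∈ C, ‖M'.b x - M.b x‖ ^ 2 ≤ K ^ 2 * (M.eta x * M'.eta x))
    (he : ∀ x, M'.eta x ≤ 1) {r : Tor d L → ℕ}
    (hr : ∀ x, ∀ z ∈ C, r x ≤ ANM.td x z) (hL : ∀ x y, r x ≤ r y + ANM.td x y) :
    Far M M' r (6 * K * ANM.KL d μ a c K (tH f u) * Real.exp (2 * μ * c / a))
      (ANM.nuL μ a (tH f u)) :=
  far_goodW h hI hN hρ hρ2 hk1 ha hμ hμ1 hw hw' hS hO hK (ANM.WtOK.empty _ _ _)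
    (Finset.empty_subset C) hC he hr hL

end Pool.Agent.AND
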