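import Pool.Agent.AND.Good
import Pool.Agent.ANL.Base

/-! # AND / MedUn: UNIQUENESS OF THE SELF-CONSISTENT MEDIUM of a profile (holes allowed)

`IsMed.unique`: two self-consistent media of the same profile at the same configuration are equal (no geometry, no
invertibility of the block of the holes).  Proof: `b = b'` off the active sites; for active `x` put `δ_x = G_xx - G'_xx`, so
`δ_x = ∑_{z active} G_xz κ_z δ_z G'_zx`; with `m = max |δ| / √(ι ι')` Cauchy-Schwarz and Ward give
`|δ_x| ≤ m √(ι_x ι'_x) θ_x` with `θ_x < 1` (because of `η_* |G_xx|² > 0`), so `m = 0`.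

`med H Y π v` = the medium of the profile `π` at `v` (chosen, total function), `med_eq`, `med_spec`.
-/

open Matrix Finset

noncomputable section

namespace Pool.Agent.AND

open Pool.Agent.Kin Pool.Agent.APS

variable {T X : Type} [Fintype T] [DecidableEq T]

/-- off the active sites the diagonal is explicit -/
theorem IsMed.b_off {H : Matrix T T ℂ} {Y : Sys X} {π : Prof T} {v : T → X} {M : Med T}
    (h : IsMed H Y π v M) (x : T) (hx : x ∉ π.act) : M.b x = cp Y π v x := by
  rw [h.b x]
  simp [kp, hx]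

/-- absorption of an active site -/
theorem IsMed.im_actd {H : Matrix T T ℂ} {Y : Sys X} {π : Prof T} {v : T → X} {M : Med T}
    (h : IsMed H Y π v M) (hd : Disjoint π.act π.rd) (x : T) (hx : x ∈ π.act) :
    -(M.b x).im = Y.eta + Y.kk (π.lev x) (v x) * (rsc H M.b x x).im := by
  have hr : x ∉ π.rd := Finset.disjoint_left.1 hd hx
  rw [h.b x]
  simp only [kp, cp, hx, hr, if_true, if_false, true_or]
  simp only [Complex.sub_im, Complex.ofReal_im, Complex.add_im, Complex.mul_im, Complex.ofReal_re,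
    Complex.I_re, Complex.I_im, Complex.zero_im]
  ring

/-- absorptions are nonnegative: the medium is admissible -/
theorem IsMed.adm {H : Matrix T T ℂ} (hH : RealSym H) {Y : Sys X} {π : Prof T} {v : T → X}
    {M : Med T} (h : IsMed H Y π v M) (he : 0 ≤ Y.eta) (hd : Disjoint π.act π.rd)
    (hk : ∀ x ∈ π.act, 0 ≤ Y.kk (π.lev x) (v x))
    (hs : ∀ x, x ∉ π.act → x ∉ π.rd → x ∉ π.ine → 0 ≤ (π.sg x).im) :
    ANL.Adm H M.b where
  sym := hH
  unit := h.unit
  im x := by
    by_cases hx : x ∈ π.act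
    · have h1 := h.im_actd hd x hx
      have h2 := mul_nonneg (hk x hx) (h.pos x hx).le
      linarith
    · rw [h.b_off x hx]
      by_cases hr : x ∈ π.rd
      · simp [cp, hr]
      · by_cases hi : x ∈ π.ine
        · simp [cp, hr, hi, he]
        · have h1 := hs x hx hr hi
          simp only [cp, hx, hr, hi, if_false, or_self]
          simp only [Complex.sub_im, Complex.ofReal_im, Complex.add_im, Complex.mul_im,
            Complex.ofReal_re, Complex.I_re, Complex.I_im]
          linarith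

/-- THE SELF-CONSISTENT MEDIUM IS UNIQUE -/
theorem IsMed.unique {H : Matrix T T ℂ} (hH : RealSym H) {Y : Sys X} {π : Prof T} {v : T → X}
    {M M' : Med T} (h : IsMed H Y π v M) (h' : IsMed H Y π v M') (he : 0 < Y.eta)
    (hd : Disjoint π.act π.rd) (hk : ∀ x ∈ π.act, 0 ≤ Y.kk (π.lev x) (v x))
    (hs : ∀ x, x ∉ π.act → x ∉ π.rd → x ∉ π.ine → 0 ≤ (π.sg x).im) : M = M' := by
  have ha := h.adm hH he.le hd hk hs
  have ha' := h'.adm hH he.le hd hk hs
  set G := rsc H M.b with hG
  set G' := rsc H M'.b with hG'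
  set k : T → ℝ := fun x => Y.kk (π.lev x) (v x) with hkd
  -- the equation of the difference
  have hdif : ∀ x, G x x - G' x x =
      ∑ z ∈ π.act, G x z * ((k z : ℂ) * (G z z - G' z z)) * G' z x := by
    intro x
    rw [hG, hG', ANL.adm_sub ha ha' x x, ← hG, ← hG']
    refine (Finset.sum_subset (Finset.subset_univ π.act) fun z _ hz => ?_).symm.trans ?_
    · rw [h.b_off z hz, h'.b_off z hz]
      ring
    · refine Finset.sum_congr rfl fun z hz => ?_
      have h1 : M'.b z - M.b z = (k z : ℂ) * (G z z - G' z z) := by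
        rw [h.b z, h'.b z]
        simp only [kp, hz, if_true]
        ring
      rw [h1]
  have hpos : ∀ x ∈ π.act, 0 < (G x x).im ∧ 0 < (G' x x).im := fun x hx =>
    ⟨h.pos x hx, h'.pos x hx⟩
  -- partial Ward sums
  have hW : ∀ (N : Med T), IsMed H Y π v N → ANL.Adm H N.b → ∀ x ∈ π.act,
      ∑ z ∈ π.act, k z * (rsc H N.b z z).im * ‖rsc H N.b x z‖ ^ 2 < (rsc H N.b x x).im := by
    intro N hN hNa x hx
    have h1 := ANL.ward_le hNa π.act x
    have h2 : ∑ z ∈ π.act, (-(N.b z).im) * ‖rsc H N.b x z‖ ^ 2 =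
        Y.eta * ∑ z ∈ π.act, ‖rsc H N.b x z‖ ^ 2 +
          ∑ z ∈ π.act, k z * (rsc H N.b z z).im * ‖rsc H N.b x z‖ ^ 2 := by
      rw [Finset.mul_sum, ← Finset.sum_add_distrib]
      refine Finset.sum_congr rfl fun z hz => ?_
      rw [hN.im_actd hd z hz]
      ring
    have h3 : ‖rsc H N.b x x‖ ^ 2 ≤ ∑ z ∈ π.act, ‖rsc H N.b x z‖ ^ 2 :=
      Finset.single_le_sum (f := fun z => ‖rsc H N.b x z‖ ^ 2) (fun z _ => by positivity) hx
    have h4 : 0 < ‖rsc H N.b x x‖ := by
      have := hN.pos x hx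
      exact norm_pos_iff.2 fun h0 => by rw [h0] at this; simp at this
    have h5 : 0 < Y.eta * ∑ z ∈ π.act, ‖rsc H N.b x z‖ ^ 2 :=
      mul_pos he (lt_of_lt_of_le (by positivity) h3)
    linarith
  -- the differences vanish
  have hz : ∀ x ∈ π.act, G x x = G' x x := by
    by_cases hne : π.act.Nonempty
    swap
    · intro x hx
      exact absurd ⟨x, hx⟩ hne
    obtain ⟨x0, hx0, hmax⟩ := Finset.exists_max_image π.act
      (fun z => ‖G z z - G' z z‖ / √((G z z).im * (G' z z).im)) hne
    set m : ℝ := ‖G x0 x0 - G' x0 x0‖ / √((G x0 x0).im * (G' x0 x0).im) with hm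
    have hm0 : 0 ≤ m := div_nonneg (norm_nonneg _) (Real.sqrt_nonneg _)
    have hsq : ∀ z ∈ π.act, 0 < √((G z z).im * (G' z z).im) := fun z hz =>
      Real.sqrt_pos.2 (mul_pos (hpos z hz).1 (hpos z hz).2)
    have hle : ∀ z ∈ π.act, ‖G z z - G' z z‖ ≤ m * √((G z z).im * (G' z z).im) := by
      intro z hz
      have := hmax z hz
      rwa [div_le_iff₀ (hsq z hz)] at this
    set P : ℝ := ∑ z ∈ π.act, k z * (G z z).im * ‖G x0 z‖ ^ 2 with hP
    set P' : ℝ := ∑ z ∈ π.act, k z * (G' z z).im * ‖G' x0 z‖ ^ 2 with hP'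
    have hPlt : P < (G x0 x0).im := hW M h ha x0 hx0
    have hPlt' : P' < (G' x0 x0).im := hW M' h' ha' x0 hx0
    have hP0 : 0 ≤ P := Finset.sum_nonneg fun z hz =>
      mul_nonneg (mul_nonneg (hk z hz) (hpos z hz).1.le) (by positivity)
    have hP0' : 0 ≤ P' := Finset.sum_nonneg fun z hz =>
      mul_nonneg (mul_nonneg (hk z hz) (hpos z hz).2.le) (by positivity)
    have h1 : ‖G x0 x0 - G' x0 x0‖ ≤ m * (√P * √P') := by
      rw [hdif x0]
      refine (norm_sum_le _ _).trans ?_
      calc ∑ z ∈ π.act, ‖G x0 z * ((k z : ℂ) * (G z z - G' z z)) * G' z x0‖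
          ≤ ∑ z ∈ π.act, m * (√(k z * (G z z).im) * ‖G x0 z‖ *
              (√(k z * (G' z z).im) * ‖G' x0 z‖)) := by
            refine Finset.sum_le_sum fun z hz => ?_
            have e1 : √(k z * (G z z).im) * √(k z * (G' z z).im) =
                k z * √((G z z).im * (G' z z).im) := by
              rw [← Real.sqrt_mul (mul_nonneg (hk z hz) (hpos z hz).1.le),
                show k z * (G z z).im * (k z * (G' z z).im) =
                  k z ^ 2 * ((G z z).im * (G' z z).im) by ring,
                Real.sqrt_mul (by positivity), Real.sqrt_sq (hk z hz)]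
            have e2 : G' z x0 = G' x0 z := ANL.adm_symm ha' z x0
            rw [norm_mul, norm_mul, norm_mul, e2, Complex.norm_real, Real.norm_eq_abs,
              abs_of_nonneg (hk z hz)]
            calc ‖G x0 z‖ * (k z * ‖G z z - G' z z‖) * ‖G' x0 z‖
                ≤ ‖G x0 z‖ * (k z * (m * √((G z z).im * (G' z z).im))) * ‖G' x0 z‖ := by
                  have := hle z hz
                  have hkz := hk z hz
                  gcongr
              _ = m * (k z * √((G z z).im * (G' z z).im)) * (‖G x0 z‖ * ‖G' x0 z‖) := by ring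
              _ = _ := by rw [← e1]; ring
        _ = m * ∑ z ∈ π.act, √(k z * (G z z).im) * ‖G x0 z‖ *
              (√(k z * (G' z z).im) * ‖G' x0 z‖) := by rw [Finset.mul_sum]
        _ ≤ m * (√P * √P') := by
            refine mul_le_mul_of_nonneg_left ?_ hm0
            refine (Real.sum_mul_le_sqrt_mul_sqrt _ _ _).trans (le_of_eq ?_)
            congr 2
            · refine Finset.sum_congr rfl fun z hz => ?_
              rw [mul_pow, Real.sq_sqrt (mul_nonneg (hk z hz) (hpos z hz).1.le)]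
            · refine Finset.sum_congr rfl fun z hz => ?_
              rw [mul_pow, Real.sq_sqrt (mul_nonneg (hk z hz) (hpos z hz).2.le)]
    have h2 : √P * √P' < √((G x0 x0).im * (G' x0 x0).im) := by
      rw [← Real.sqrt_mul hP0]
      refine Real.sqrt_lt_sqrt (mul_nonneg hP0 hP0') ?_
      calc P * P' ≤ P * (G' x0 x0).im := mul_le_mul_of_nonneg_left hPlt'.le hP0
        _ < (G x0 x0).im * (G' x0 x0).im := mul_lt_mul_of_pos_right hPlt (hpos x0 hx0).2
    have h3 : m = 0 := by
      by_contra hne0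
      have hmp : 0 < m := lt_of_le_of_ne hm0 (Ne.symm hne0)
      have h4 : m * √((G x0 x0).im * (G' x0 x0).im) = ‖G x0 x0 - G' x0 x0‖ := by
        rw [hm, div_mul_cancel₀ _ (hsq x0 hx0).ne']
      have h5 := mul_lt_mul_of_pos_left h2 hmp
      linarith
    intro x hx
    have h6 := hle x hx
    rw [h3, zero_mul] at h6
    exact sub_eq_zero.1 (norm_le_zero_iff.1 h6)
  have hb : M.b = M'.b := by
    funext x
    by_cases hx : x ∈ π.act
    · have h1 := hz x hx
      rw [hG, hG'] at h1
      rw [h.b x, h'.b x, h1]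
    · rw [h.b_off x hx, h'.b_off x hx]
  obtain ⟨hA, hU, hI, hkk, -, -, -⟩ := h
  obtain ⟨hA', hU', hI', hkk', -, -, -⟩ := h'
  cases M
  cases M'
  simp_all

open Classical in
/-- a chosen medium with the property `p` -/
def medOf (p : Med T → Prop) : Med T :=
  if h : ∃ M, p M then h.choose else ⟨∅, ∅, ∅, fun _ => 0, fun _ => 0⟩

/-- the medium of the profile `π` at `v` -/
def med (H : Matrix T T ℂ) (Y : Sys X) (π : Prof T) (v : T → X) : Med T :=
  medOf fun M => IsMed H Y π v M

theorem med_spec {H : Matrix T T ℂ} {Y : Sys X} {π : Prof T} {v : T → X}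
    (h : ∃ M, IsMed H Y π v M) : IsMed H Y π v (med H Y π v) := by
  unfold med medOf
  rw [dif_pos h]
  exact h.choose_spec

theorem med_eq {H : Matrix T T ℂ} (hH : RealSym H) {Y : Sys X} {π : Prof T} {v : T → X}
    {M : Med T} (h : IsMed H Y π v M) (he : 0 < Y.eta)
    (hd : Disjoint π.act π.rd) (hk : ∀ x ∈ π.act, 0 ≤ Y.kk (π.lev x) (v x))
    (hs : ∀ x, x ∉ π.act → x ∉ π.rd → x ∉ π.ine → 0 ≤ (π.sg x).im) : med H Y π v = M :=
  (med_spec ⟨M, h⟩).unique hH h he hd hk hs

/-- the self-energies `κ_x G_xx` of the medium of the profile -/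
def sgMed (H : Matrix T T ℂ) (Y : Sys X) (π : Prof T) (v : T → X) (x : T) : ℂ :=
  ((med H Y π v).k x : ℂ) * rsc H (med H Y π v).b x x

/-- `IsMed` depends on the configuration only through the digits at the levels of the profile -/
theorem IsMed.congr {H : Matrix T T ℂ} {Y : Sys X} {π : Prof T} {v v' : T → X} {M : Med T}
    (hh : ∀ x, Y.hh (π.lev x) (v x) = Y.hh (π.lev x) (v' x))
    (hk : ∀ x ∈ π.act, Y.kk (π.lev x) (v x) = Y.kk (π.lev x) (v' x)) (h : IsMed H Y π v M) :
    IsMed H Y π v' M := by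
  have e1 : kp Y π v = kp Y π v' := by
    funext x
    unfold kp
    split_ifs with hx
    · exact hk x hx
    · rfl
  have e2 : cp Y π v = cp Y π v' := by
    funext x
    unfold cp
    rw [hh x]
  exact ⟨h.A, h.U, h.I, h.k.trans e1, fun x => by rw [← e1, ← e2]; exact h.b x, h.unit, h.pos⟩

theorem med_congr {H : Matrix T T ℂ} {Y : Sys X} {π : Prof T} {v v' : T → X}
    (hh : ∀ x, Y.hh (π.lev x) (v x) = Y.hh (π.lev x) (v' x))
    (hk : ∀ x ∈ π.act, Y.kk (π.lev x) (v x) = Y.kk (π.lev x) (v' x)) :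
    med H Y π v = med H Y π v' := by
  have e : (fun M => IsMed H Y π v M) = fun M => IsMed H Y π v' M := by
    funext M
    exact propext ⟨fun h => h.congr hh hk,
      fun h => h.congr (fun x => (hh x).symm) fun x hx => (hk x hx).symm⟩
  unfold med
  rw [e]

theorem sgMed_congr {H : Matrix T T ℂ} {Y : Sys X} {π : Prof T} {v v' : T → X}
    (hh : ∀ x, Y.hh (π.lev x) (v x) = Y.hh (π.lev x) (v' x))
    (hk : ∀ x ∈ π.act, Y.kk (π.lev x) (v x) = Y.kk (π.lev x) (v' x)) :
    sgMed H Y π v = sgMed H Y π v' := by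
  funext x
  unfold sgMed
  rw [med_congr hh hk]

end Pool.Agent.AND
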