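import Pool.Agent.AND.FldBd
import Pool.Agent.AND.MedUn

/-! # AND / AnaDef: THE CONCRETE ANALYTIC INPUT of the algorithm: acceptance = goodness

`Dat` = all data of the construction on the torus `Tor d L`.  `D.GoodAt n F π v` = the self-consistent medium of `π` at `v` exists and is
good with the tolerances of the level `n` and the fields `F`.
* `ACC j i π v`   := no bad root of the inert sites of the candidate profile, and the candidate is `GoodAt` with the fields after the step;
* `LK j S don π F v` := the profile with `nbhd (R j) F` read completely is `GoodAt` (level `lv (j+1)`, fields after the insertions `don ∪ {F}`);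
* `sgv` = self energies of THE medium (unique, MedUn);  `PR` = never.
So the medium is good SURELY at every time (AND/Stage); the theorems [STEP] and [INS] + leak bound the probabilities of `¬ ACC`, `¬ LK`.
`dat_loc` : locality of this input (`ANQ.Loc`), so that helper5's Markov property applies.
-/

open Matrix Finset

noncomputable section

namespace Pool.Agent.AND

open Pool.Agent.Kin Pool.Agent.APS

variable {d L : ℕ}

/-- the fields after the insertions of the clusters in `don` with anchors `an` -/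
def Fld.insD (P : Par) (n s : ℕ) (F : Fld (Tor d L)) (an : Finset (Tor d L) → Tor d L)
    (don : Finset (Finset (Tor d L))) : Fld (Tor d L) where
  err x := F.err x + ∑ C ∈ don, ph (P.kap n) P.vi P.b s x (an C)
  et x := F.et x + ∑ C ∈ don, ph (P.kap n) P.vt P.b s x (an C)
  be x := F.be x + (P.kap n) ^ (-P.vp) * ∑ C ∈ don, ph (P.kap n) P.vi P.b s x (an C)
  ae x := F.ae x + (P.eta + P.kap n)⁻¹ * ∑ C ∈ don, ph (P.kap n) P.vi P.b s x (an C)
  g5 x y := F.g5 x y + ∑ C ∈ don, ph5i (P.kap n) P.vi P.b P.s5 s x y (an C)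

variable [NeZero L]

/-- all data of the construction -/
structure Dat (d L : ℕ) [NeZero L] (X : Type) where
  f : Fix
  P : Par
  Sf : SiteF X
  Y : Sys X
  q : ℕ → X → ℤ
  wk : ℕ → X → Prop
  g : ANQ.Geo (Tor d L)
  /-- bound of the number of the insertions with the same anchor -/
  mJ : ℕ
  /-- fields at the start -/
  F0 : Fld (Tor d L)
  /-- condition on the inert sites in super-stage `j` (no bad root) -/
  rt : ℕ → Finset (Tor d L) → Prop
  /-- lower bound of `Im G_xx` on the sites which are not read -/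
  cI : ℝ

namespace Dat

variable {X : Type} (D : Dat d L X)

/-- fields at the start of super-stage `j` -/
def fs (j : ℕ) : Fld (Tor d L) := FS D.P D.g D.mJ D.F0 j

/-- fields after `i` steps of super-stage `j` -/
def fi (j i : ℕ) : Fld (Tor d L) := FI D.P D.g j (D.fs j) i

open Classical in
/-- anchor of the cluster `C` in super-stage `j` -/
def an (j : ℕ) (C : Finset (Tor d L)) : Tor d L :=
  if h : C.Nonempty then D.g.cor j h.choose else D.g.cor j (Classical.arbitrary _)

/-- fields after the insertions `don` at the end of super-stage `j` -/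
def fd (j : ℕ) (don : Finset (Finset (Tor d L))) : Fld (Tor d L) :=
  (D.fi j (D.g.ns j)).insD D.P (D.g.lv (j + 1)) (D.g.side j) (D.an j) don

/-- the medium of the profile is good, level `n`, fields `F` -/
def GoodAt (n : ℕ) (F : Fld (Tor d L)) (π : Prof (Tor d L)) (v : Tor d L → X) : Prop :=
  ∃ M, IsMed (H0T d L) D.Y π v M ∧ Good D.f (tolAt D.P D.Sf n F π v M) M

/-- auxiliary: only `q` and `wk` are used -/
def ana0 : ANQ.Ana (Tor d L) X where
  q := D.q
  wk := D.wk
  sgv := sgMed (H0T d L) D.Y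
  ACC := fun _ _ _ _ => True
  LK := fun _ _ _ _ _ _ => True
  PR := fun _ _ _ _ => False

/-- THE ANALYTIC INPUT -/
def ana : ANQ.Ana (Tor d L) X where
  q := D.q
  wk := D.wk
  sgv := sgMed (H0T d L) D.Y
  ACC := fun j i π v => D.rt j (D.g.up D.ana0 j i π v).ine ∧
    D.GoodAt (D.g.sn j i) (D.fi j (i + 1)) (D.g.up D.ana0 j i π v) v
  LK := fun j _ don π F v =>
    D.GoodAt (D.g.lv (j + 1)) (D.fd j (insert F don))
      (ANQ.read π D.g.nf (D.g.nbhd (D.g.R j) F)) v
  PR := fun _ _ _ _ => False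

theorem up_eq (j i : ℕ) (π : Prof (Tor d L)) (v : Tor d L → X) :
    D.g.up D.ana0 j i π v = D.g.up D.ana j i π v := rfl

theorem acc_iff (j i : ℕ) (π : Prof (Tor d L)) (v : Tor d L → X) :
    D.ana.ACC j i π v ↔ D.rt j (D.g.up D.ana j i π v).ine ∧
      D.GoodAt (D.g.sn j i) (D.fi j (i + 1)) (D.g.up D.ana j i π v) v := Iff.rfl

theorem lk_iff (j : ℕ) (S : ANQ.St (Tor d L)) (don : Finset (Finset (Tor d L)))
    (π : Prof (Tor d L)) (F : Finset (Tor d L)) (v : Tor d L → X) :
    D.ana.LK j S don π F v ↔ D.GoodAt (D.g.lv (j + 1)) (D.fd j (insert F don))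
      (ANQ.read π D.g.nf (D.g.nbhd (D.g.R j) F)) v := Iff.rfl

/-- the digits determine everything -/
structure QOk : Prop where
  refine : ∀ n n' a b, n ≤ n' → D.q n' a = D.q n' b → D.q n a = D.q n b
  top : ∀ a b, D.q D.g.nf a = D.q D.g.nf b → a = b
  wk : ∀ n a b, D.q n a = D.q n b → (D.wk n a ↔ D.wk n b)
  lv_mono : Monotone D.g.lv
  lv_le : ∀ j, D.g.lv j ≤ D.g.nf
  hh : ∀ n a b, D.q n a = D.q n b → D.Y.hh n a = D.Y.hh n b
  kk : ∀ n a b, D.q n a = D.q n b → D.Y.kk n a = D.Y.kk n b
  phi : ∀ K n a b, D.q n a = D.q n b → D.Sf.phi K n a = D.Sf.phi K n b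
  om : ∀ n a b, D.q n a = D.q n b → D.Sf.om n a = D.Sf.om n b

variable {D}

theorem tolAt_congr {P : Par} {Sf : SiteF X} {n : ℕ} {F : Fld (Tor d L)} {π : Prof (Tor d L)}
    {v v' : Tor d L → X} (hp : ∀ K x, Sf.phi K (π.lev x) (v x) = Sf.phi K (π.lev x) (v' x))
    (ho : ∀ x, Sf.om (π.lev x) (v x) = Sf.om (π.lev x) (v' x)) (M : Med (Tor d L)) :
    tolAt P Sf n F π v M = tolAt P Sf n F π v' M := by
  unfold tolAt
  simp only [hp, ho]

theorem GoodAt.congr (h : D.QOk) {n : ℕ} {F : Fld (Tor d L)} {π : Prof (Tor d L)}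
    {v v' : Tor d L → X} (hv : ANQ.Ag D.q π.lev v v') (hg : D.GoodAt n F π v) :
    D.GoodAt n F π v' := by
  obtain ⟨M, h1, h2⟩ := hg
  refine ⟨M, h1.congr (fun x => h.hh _ _ _ (hv x)) (fun x _ => h.kk _ _ _ (hv x)), ?_⟩
  rw [← tolAt_congr (fun K x => h.phi _ _ _ _ (hv x)) (fun x => h.om _ _ _ (hv x))]
  exact h2

theorem ag_symm {q : ℕ → X → ℤ} {lev : Tor d L → ℕ} {v v' : Tor d L → X}
    (h : ANQ.Ag q lev v v') : ANQ.Ag q lev v' v := fun x => (h x).symm

theorem GoodAt.iff (h : D.QOk) {n : ℕ} {F : Fld (Tor d L)} {π : Prof (Tor d L)}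
    {v v' : Tor d L → X} (hv : ANQ.Ag D.q π.lev v v') :
    D.GoodAt n F π v ↔ D.GoodAt n F π v' :=
  ⟨fun hg => hg.congr h hv, fun hg => hg.congr h (ag_symm hv)⟩

/-- the candidate profile depends only on the digits of its levels -/
theorem up_congr (h : D.QOk) (j i : ℕ) (π : Prof (Tor d L)) (v v' : Tor d L → X)
    (hv : ANQ.Ag D.q (D.g.up D.ana j i π v).lev v v') :
    D.g.up D.ana j i π v = D.g.up D.ana j i π v' := by
  have e : ANQ.weak D.ana (D.g.sn j i + 1) v (π.act ∩ D.g.cell j (D.g.sL j i)) =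
      ANQ.weak D.ana (D.g.sn j i + 1) v' (π.act ∩ D.g.cell j (D.g.sL j i)) := by
    unfold ANQ.weak
    ext x
    simp only [Finset.mem_filter]
    constructor
    · rintro ⟨h1, h2⟩
      refine ⟨h1, ?_⟩
      have h3 := hv x
      have h4 : (D.g.up D.ana j i π v).lev x = D.g.sn j i + 1 := by
        show (if x ∈ π.act ∩ _ then _ else _) = _
        rw [if_pos h1]
      rw [h4] at h3
      exact (h.wk _ _ _ h3).1 h2
    · rintro ⟨h1, h2⟩
      refine ⟨h1, ?_⟩
      have h3 := hv x
      have h4 : (D.g.up D.ana j i π v).lev x = D.g.sn j i + 1 := by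
        show (if x ∈ π.act ∩ _ then _ else _) = _
        rw [if_pos h1]
      rw [h4] at h3
      exact (h.wk _ _ _ h3).2 h2
  unfold ANQ.Geo.up ANQ.raise
  rw [e]

/-- LOCALITY of the analytic input -/
theorem loc (h : D.QOk) : ANQ.Loc D.g D.ana where
  refine := h.refine
  top := h.top
  wk := h.wk
  lv_mono := h.lv_mono
  lv_le := h.lv_le
  sgv := fun π v v' hv => sgMed_congr (fun x => h.hh _ _ _ (hv x)) fun x _ => h.kk _ _ _ (hv x)
  ACC := by
    intro j i π v v' hv
    rw [acc_iff, acc_iff, ← up_congr h j i π v v' hv, GoodAt.iff h hv]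
  LK := by
    intro j S don π F v v' hv
    rw [lk_iff, lk_iff]
    exact GoodAt.iff h hv
  PR := fun _ _ _ _ _ _ => Iff.rfl

end Dat

end Pool.Agent.AND
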