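import Pool.Agent.AND.Goals
import Pool.Agent.ANC.InsS

/-! # AND INSNME: the elementary numbers of the insertions for the concrete data

`k = kap (lv (j + 2)) = ks (j + 2)`, `cmu d c q` = constant of the weights (`mu = cmu k`).
* `InsEl` : sizes of the medium (`ANC.InK`) and all elementary fields of `InsNm`; `ev_insEl` : they hold in every context. -/

set_option autoImplicit false
set_option linter.unusedSectionVars false

open Finset Filter Topology

noncomputable section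

namespace Pool.Agent.AND

open Pool.Agent.Kin Pool.Agent.APS Pool.Agent.ANM Pool.Agent.ANC Pool.Agent.ANB Pool.Agent.ANQ

/-- constant of the weights -/
def cmu (d : ℕ) (c : Cst) (q : Csts) : ℝ :=
  min 1 (min (c.cl * q.c1 / (64 * d)) (c.cs / (32 * d)))

theorem cmu_pos {d : ℕ} (hd : 0 < d) {c : Cst} {q : Csts} (hc : c.Pos) (hq : 0 < q.c1) :
    0 < cmu d c q := by
  have h1 : (0 : ℝ) < d := by exact_mod_cast hd
  have h2 := hc.cl
  have h3 := hc.cs
  unfold cmu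
  refine lt_min one_pos (lt_min ?_ ?_) <;> positivity

/-- ELEMENTARY NUMBERS at the level `n`, `k = kap n`, `s` = side -/
structure InsEl {d : ℕ} {CM : ℝ} (x : Ex d CM) (c : Cst) (q : Csts) {L : ℕ} [NeZero L]
    {X : Type} (D : Dat d L X) (u : UTol) (n s : ℕ) (k : ℝ) : Prop where
  kk : D.P.kap n = k
  kk1 : D.P.kap (n + 1) = k / 4
  kpos : 0 < k
  k1 : k ≤ 1
  inK : ∀ t : Tol d L, t.kl = D.P.cl * D.P.kap (n + 1) →
    InK x (q.c1 / 2) (2 * q.C1) (q.th / 4) (c.cl / 4) k D.f t u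
  sh : ANI.ShNum (D.P.kap n) D.P.vi D.P.vt D.P.b D.P.s5 s (s / 2)
  s2 : k ^ (-2 : ℝ) ≤ s
  ss : s = 2 * (s / 2)
  kap1 : D.P.kap n ≤ 1
  kap2 : D.P.eta + D.P.kap n * (‖D.f.g0‖ + (D.P.del0 + (1 + 1))) ≤ 1
  rho0 : 0 < u.rho
  rho : u.rho ≤ 2
  hs5 : D.P.s5 = D.f.s
  s50 : 0 ≤ D.P.s5
  fr0 : 1 ≤ D.f.r0
  Lam0 : 0 ≤ u.Lam
  C20 : 0 ≤ u.C2
  tau0 : 0 ≤ u.tau
  dS : u.dS = 2 * c.dS
  mu0 : 0 < cmu d c q * k
  mu1 : cmu d c q * k ≤ 1
  muk : cmu d c q * k ≤ k
  mul : 8 * d * (cmu d c q * k) ≤ D.P.cl * D.P.kap (n + 1) * D.f.c1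
  mus : 8 * d * (cmu d c q * k) ≤ D.P.cs * D.P.kap (n + 1)
  tr : 4 * ANI.tRf D.f u ≤ 1
  tr0 : q.th / 16 * (q.c1 / 2) / (32 * (2 * q.C1)) ≤ ANI.tRf D.f u
  eta : D.P.eta ≤ k ^ x.th
  huu : k ^ (1 / 2 : ℝ) + D.P.eta + D.P.kap n * D.f.C1 ≤ (2 + 2 * q.C1) * k ^ x.th
  etk : D.P.eta + D.P.kap n * D.f.C1 ≤ (1 + 2 * q.C1) * k ^ x.th
  r0R : D.f.r0 ≤ k ^ (-x.v2)

variable {d : ℕ} {CM : ℝ} {LP : LawP} {x : Ex d CM} {c : Cst} {q : Csts} {k0 : ℝ} {N : ℕ}
  [NeZero N] {X : Type} [Fintype X] {Lw : Law X} {Sf : SiteF X} {lam E es : ℝ} {g0 : ℂ}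
  {gam Lm : ℝ} {M : ℕ}

/-- the levels -/
theorem ctx_lv (H : Ctx LP x c q k0 N Lw Sf lam E es g0 gam Lm M) (hk1 : k0 < 1) {i : ℕ}
    (hi : i ≤ M + 1) :
    (datC x c q N Lw Sf lam E k0 es g0 gam Lm).g.lv i = lv k0 x.al i := by
  change min (lv k0 x.al i) Lw.nf = _
  refine min_eq_left (le_trans ?_ H.dat.lv)
  exact (lv_mono H.hk0 hk1 x.al2).monotone hi

/-- `k = ks i` -/
theorem ctx_kap (H : Ctx LP x c q k0 N Lw Sf lam E es g0 gam Lm M) (hk1 : k0 < 1) {i : ℕ}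
    (hi : i ≤ M + 1) :
    (datC x c q N Lw Sf lam E k0 es g0 gam Lm).P.kap
      ((datC x c q N Lw Sf lam E k0 es g0 gam Lm).g.lv i) = ks k0 x.al i := by
  rw [ctx_lv H hk1 hi]
  rfl

/-- `k0` against `ks (j + 2)` -/
theorem k0_le_ks {al : ℕ} (hk : 0 < k0) (hk1 : k0 < 1) {a b : ℝ} (hb : 0 ≤ b)
    (hab : a ≤ al * b) (j : ℕ) : k0 ^ (-a) ≤ ks k0 al (j + 2) ^ (-b) := by
  have h1 := ks_neg_le hk al (j + 1) hb
  have h2 : k0 ^ (-(b * al)) ≤ ks k0 al (j + 1) ^ (-(b * al)) :=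
    Real.rpow_le_rpow_of_nonpos (ks_pos hk al _) (ks_le hk al _) (by
      have : 0 ≤ b * al := by positivity
      linarith)
  have h3 : k0 ^ (-a) ≤ k0 ^ (-(b * al)) :=
    Real.rpow_le_rpow_of_exponent_ge hk hk1.le (by linarith [mul_comm b (al : ℝ)])
  exact h3.trans (h2.trans h1)

/-- `ks (j + 2) ≤ k0 ^ al` -/
theorem ks_le_al {al : ℕ} (hk : 0 < k0) (j : ℕ) : ks k0 al (j + 1 + 1) ≤ k0 ^ al :=
  (ks_succ_le hk al (j + 1)).trans (pow_le_pow_left₀ (ks_pos hk al _).le (ks_le hk al _) al)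

/-- THE ELEMENTARY NUMBERS HOLD -/
theorem ev_insEl (LP : LawP) (x : Ex d CM) {c : Cst} {q : Csts} (hq : q.Ok c) (hd : 0 < d) :
    ∀ᶠ k0 in 𝓝[>] (0 : ℝ), ∀ (N : ℕ) [NeZero N] (X : Type) [Fintype X]
      (Lw : Law X) (Sf : SiteF X) (lam E es : ℝ) (g0 : ℂ) (gam Lm : ℝ) (M : ℕ),
      Ctx LP x c q k0 N Lw Sf lam E es g0 gam Lm M → ∀ j < M,
        InsEl x c q (datC x c q N Lw Sf lam E k0 es g0 gam Lm)
          ((datC x c q N Lw Sf lam E k0 es g0 gam Lm).uN k0 (q.th / 4) Lm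
            (fun n => kap k0 n ^ (3 * x.vt))
            ((datC x c q N Lw Sf lam E k0 es g0 gam Lm).g.lv (j + 1 + 1)))
          ((datC x c q N Lw Sf lam E k0 es g0 gam Lm).g.lv (j + 1 + 1))
          ((datC x c q N Lw Sf lam E k0 es g0 gam Lm).g.side (j + 1)) (ks k0 x.al (j + 1 + 1)) := by
  have hc := hq.pos
  have hcl := hc.cl
  have hcs := hc.cs
  have hC1 := hq.C1
  have hc1 := hq.c1
  have hth := hq.th
  have hth1 := hq.th1
  have hd1 : (1 : ℝ) ≤ d := by exact_mod_cast hd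
  have hd0 : (0 : ℝ) < d := by linarith
  have hv1 := x.v1_pos
  have hvi8 := x.vi8
  have hs0 := x.s_pos
  have hs1 : x.s < 1 / 300 := x.s_lt.trans x.v_lt
  have hal : (1 : ℝ) / 4 < x.al * x.v1 := by
    have := x.P4
    rw [hvi8] at this
    linarith
  have hv2 : x.v2 = 512 * x.v1 / x.s := by
    rw [eq_div_iff hs0.ne', ← x.sv2]
    ring
  have hxth : x.th ≤ 1 / 2 := x.A2'
  have hxth0 := x.th_pos
  have hcg : 0 < q.cg c := by
    unfold Csts.cg
    positivity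
  filter_upwards [ev_small (show (0 : ℝ) < 1 / 2 by norm_num),
    ev_all (shNum x (vt := x.vt / 2) hc.b) x.al,
    ev_le (q.C1 + 3) (b := 1) one_pos one_pos 0,
    ev_le (q.cg c) (b := 1) one_pos one_pos 0,
    ev_LmS q.C' hcg (show (0 : ℝ) < 1 / 16 by norm_num) 1]
    with k0 hk hsh h1 h2 h3 N _ X _ Lw Sf lam E es g0 gam Lm M H j hj
  have hk0 := hk.1
  have hk1 : k0 < 1 := by linarith [hk.2]
  rw [pow_zero, mul_one, Real.rpow_one] at h1 h2
  set k := ks k0 x.al (j + 1 + 1) with hkd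
  have hkp : 0 < k := ks_pos hk0 _ _
  have hkk0 : k ≤ k0 := ks_le hk0 _ _
  have hkle : k ≤ 1 := hkk0.trans hk1.le
  have hcmu : 0 < cmu d c q := cmu_pos hd hc hc1
  have hlv := ctx_lv H hk1 (i := j + 1 + 1) (by omega)
  have hkap := ctx_kap H hk1 (i := j + 1 + 1) (by omega)
  have hkap1 : (datC x c q N Lw Sf lam E k0 es g0 gam Lm).P.kap
      ((datC x c q N Lw Sf lam E k0 es g0 gam Lm).g.lv (j + 1 + 1) + 1) = k / 4 := by
    change kap k0 _ = _
    rw [kap_succ]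
    congr 1
  have hLm : Lm = LmS q.C' (q.cg c) k0 := H.hLm
  have hLm0 : 0 ≤ Lm := by
    rw [hLm]
    exact LmS_nonneg hq.C'.le hcg hk0 h2
  have hes1 : es ≤ k ^ x.th := by
    have h4 := H.pick.ekap (lv k0 x.al (j + 1 + 1)) ((lv_mono hk0 hk1 x.al2).monotone (by omega))
    exact h4
  have hkth : k ≤ k ^ x.th := by
    calc k = k ^ (1 : ℝ) := (Real.rpow_one k).symm
      _ ≤ k ^ x.th := rpow_anti hkp hkle (by linarith)
  have hkth2 : k ^ (1 / 2 : ℝ) ≤ k ^ x.th := rpow_anti hkp hkle hxth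
  have hr0 : (1 : ℝ) ≤ k0 ^ (-2 : ℝ) := one_le_rpow hk0 hk1.le (by norm_num)
  have hInK : ∀ t : Tol d N, t.kl = (datC x c q N Lw Sf lam E k0 es g0 gam Lm).P.cl *
      (datC x c q N Lw Sf lam E k0 es g0 gam Lm).P.kap
        ((datC x c q N Lw Sf lam E k0 es g0 gam Lm).g.lv (j + 1 + 1) + 1) →
      InK x (q.c1 / 2) (2 * q.C1) (q.th / 4) (c.cl / 4) k
        (datC x c q N Lw Sf lam E k0 es g0 gam Lm).f t
        ((datC x c q N Lw Sf lam E k0 es g0 gam Lm).uN k0 (q.th / 4) Lm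
            (fun n => kap k0 n ^ (3 * x.vt))
            ((datC x c q N Lw Sf lam E k0 es g0 gam Lm).g.lv (j + 1 + 1))) := by
    intro t ht
    refine
      { fc1 := rfl
        fC1 := rfl
        fs := rfl
        r0 := hr0
        r0s := ?_
        rho0 := le_rfl
        rho2 := ?_
        Lam0 := ?_
        Lam := ?_
        C20 := zero_le_one
        C2 := ?_
        tau0 := ?_
        kl := ?_ }
    · change (k0 ^ (-2 : ℝ)) ^ x.s ≤ _
      rw [← Real.rpow_mul hk0.le, show (-2 : ℝ) * x.s = -(2 * x.s) by ring]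
      exact k0_le_ks hk0 hk1 (by positivity) (by linarith) j
    · change q.th / 4 ≤ 2
      linarith
    · change 0 ≤ Lm + 1
      linarith
    · change Lm + 1 ≤ _
      rw [hLm]
      refine h3.trans ?_
      exact k0_le_ks hk0 hk1 (by positivity) (by linarith) j
    · exact one_le_rpow hkp hkle (by
        have : 0 ≤ 2 * (x.v1 / 8) := by positivity
        linarith)
    · change 0 ≤ 2 * (kap k0 _) ^ (-(7 / 8) : ℝ)
      have := Real.rpow_nonneg (kap_pos hk0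
        ((datC x c q N Lw Sf lam E k0 es g0 gam Lm).g.lv (j + 1 + 1))).le (-(7 / 8) : ℝ)
      positivity
    · rw [ht, hkap1]
      change c.cl / 4 * k ≤ c.cl * (k / 4)
      linarith
  have hside := side_rpow hk0 hk1 x.al (j + 1)
  have hss : side k0 x.al (j + 1) = 2 * (side k0 x.al (j + 1) / 2) := by
    have h4 : 1 < side k0 x.al (j + 1) := by
      have h5 : (1 : ℝ) < side k0 x.al (j + 1) := by
        refine lt_of_lt_of_le ?_ hside.1
        have h6 : k < 1 := lt_of_le_of_lt hkk0 hk1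
        exact Real.one_lt_rpow_of_pos_of_lt_one_of_neg hkp h6 (by norm_num)
      exact_mod_cast h5
    have h5 : 2 ∣ side k0 x.al (j + 1) := by
      unfold side at h4 ⊢
      rcases Nat.eq_zero_or_pos (se k0 x.al (j + 1)) with h6 | h6
      · rw [h6] at h4
        simp at h4
      · exact dvd_pow_self 2 (by omega)
    omega
  have hcm1 : cmu d c q ≤ 1 := min_le_left _ _
  have hcm2 : cmu d c q ≤ c.cl * q.c1 / (64 * d) := (min_le_right _ _).trans (min_le_left _ _)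
  have hcm3 : cmu d c q ≤ c.cs / (32 * d) := (min_le_right _ _).trans (min_le_right _ _)
  have hI0 := hInK (⟨0, _, 0, 0, 0, 0, ∅, 0, 0, 0, 0, 0, 0⟩ : Tol d N) rfl
  have htr := tRf_bd hI0 (show 0 < q.c1 / 2 by positivity) (by
    have h4 : q.c1 ≤ q.C1 := by
      have h5 := H.dat.g1
      have h6 := H.dat.g2
      exact h5.trans (((le_abs_self _).trans (Complex.abs_im_le_norm g0)).trans h6)
    linarith)
  refine
    { kk := hkap
      kk1 := hkap1
      kpos := hkp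
      k1 := hkle
      inK := hInK
      sh := ?_
      s2 := hside.1
      ss := hss
      kap1 := hkap.le.trans hkle
      kap2 := ?_
      rho0 := ?_
      rho := hI0.rho2
      hs5 := rfl
      s50 := hs0.le
      fr0 := hr0
      Lam0 := hI0.Lam0
      C20 := zero_le_one
      tau0 := hI0.tau0
      dS := rfl
      mu0 := mul_pos hcmu hkp
      mu1 := ?_
      muk := ?_
      mul := ?_
      mus := ?_
      tr := ?_
      tr0 := ?_
      eta := hes1
      huu := ?_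
      etk := ?_
      r0R := ?_ }
  · rw [hkap]
    exact hsh (j + 1 + 1) _ _ hss hside.1
  · rw [hkap]
    change es + k * (‖g0‖ + (0 + (1 + 1))) ≤ 1
    have h4 := H.dat.es1
    have h5 := H.dat.g2
    have h6 : k * (‖g0‖ + (0 + (1 + 1))) ≤ k0 * (q.C1 + 2) :=
      mul_le_mul hkk0 (by linarith) (by positivity) hk0.le
    have h7 : k0 * (q.C1 + 2) + k0 = (q.C1 + 3) * k0 := by ring
    linarith
  · change 0 < q.th / 4
    positivity
  · exact (mul_le_mul hcm1 hkle hkp.le zero_le_one).trans (by norm_num)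
  · calc cmu d c q * k ≤ 1 * k := mul_le_mul_of_nonneg_right hcm1 hkp.le
      _ = k := one_mul k
  · rw [hkap1]
    change 8 * d * (cmu d c q * k) ≤ c.cl * (k / 4) * (q.c1 / 2)
    have h4 : 8 * d * cmu d c q ≤ c.cl * q.c1 / 8 := by
      rw [le_div_iff₀ (by positivity)] at hcm2
      linarith
    calc 8 * d * (cmu d c q * k) = 8 * d * cmu d c q * k := by ring
      _ ≤ c.cl * q.c1 / 8 * k := mul_le_mul_of_nonneg_right h4 hkp.le
      _ = c.cl * (k / 4) * (q.c1 / 2) := by ring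
  · rw [hkap1]
    change 8 * d * (cmu d c q * k) ≤ c.cs * (k / 4)
    have h4 : 8 * d * cmu d c q ≤ c.cs / 4 := by
      rw [le_div_iff₀ (by positivity)] at hcm3
      linarith
    calc 8 * d * (cmu d c q * k) = 8 * d * cmu d c q * k := by ring
      _ ≤ c.cs / 4 * k := mul_le_mul_of_nonneg_right h4 hkp.le
      _ = c.cs * (k / 4) := by ring
  · linarith [htr.2]
  · refine le_trans (le_of_eq ?_) htr.1
    ring
  · rw [hkap]
    change k ^ (1 / 2 : ℝ) + es + k * (2 * q.C1) ≤ _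
    have h4 : k * (2 * q.C1) ≤ k ^ x.th * (2 * q.C1) :=
      mul_le_mul_of_nonneg_right hkth (by linarith)
    linarith
  · rw [hkap]
    change es + k * (2 * q.C1) ≤ _
    have h4 : k * (2 * q.C1) ≤ k ^ x.th * (2 * q.C1) :=
      mul_le_mul_of_nonneg_right hkth (by linarith)
    linarith
  · change k0 ^ (-2 : ℝ) ≤ _
    refine k0_le_ks hk0 hk1 x.v2_pos.le ?_ j
    rw [hv2]
    have h4 : x.al * (512 * x.v1 / x.s) = 512 * (x.al * x.v1) / x.s := by ring
    rw [h4, le_div_iff₀ hs0]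
    linarith

end Pool.Agent.AND
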