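import Pool.Agent.AND.SetupB
import Pool.Agent.AND.InsNmE
import Pool.Agent.ANC.InsV
import Pool.Agent.ANC.StepN2

/-! # AND / Consts: THE CHOICE OF THE CONSTANTS

`AllC κ x c q` : ALL conditions on the constants `c : Cst`, `q : Csts` (those which are not of the form `for small k0`).  ORDER OF CHOICE: law -> `cl` -> start `c1 C1 C C'` -> `cs` ->
`D0c C0c e0c` -> `Cz = CD = Ce = 1`, `dS = 1/2`, `Cg = 5/2` -> `th` -> `b` -> `w`, `Cc`.

`exists_allC` : the constants exist, with `b ≤ B c q` for any further bound `B` (not depending on `b`), any `w`, any `Cc ≥ 8`. -/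

set_option autoImplicit false

open Finset Filter Topology

noncomputable section

namespace Pool.Agent.AND

open Pool.Agent.Kin Pool.Agent.APS Pool.Agent.ANM Pool.Agent.ANC Pool.Agent.ANB Pool.Agent.ANQ

/-- ALL CONDITIONS on the constants -/
structure AllC (κ : LawC) {d : ℕ} {CM : ℝ} (x : Ex d CM) (c : Cst) (q : Csts) : Prop where
  d0 : 0 < d
  ok : q.Ok c
  st : StartC x c q.c1 q.C1 q.C
  c11 : q.c1 ≤ 1
  cl : c.cl ≤ κ.cL
  cl1 : c.cl ≤ 1
  th : q.th ≤ κ.thL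
  thc : q.th ≤ κ.cL
  Cg : c.Cg = 5 / 2
  CD : c.CD = 1
  Ce : c.Ce = 1
  Cz : c.Cz = 1
  dS : c.dS = 1 / 2
  Cc : 8 ≤ q.Cc
  /-- the conditions of the steps, also for `b` replaced by `B ≤ 16 b` and all `rho ≥ th/4` -/
  stc : ∀ B rho ρ : ℝ, 0 < B → B ≤ 16 * c.b → q.th / 4 ≤ rho → rho ≤ 2 → 0 < ρ → ρ ≤ 2 →
    StC d { c with b := B } (2 * q.C1) (q.c1 / 2) rho ρ
  /-- the rate of the insertions -/
  ins : 64 * c.b ≤ cνV (q.c1 / 2) (2 * q.C1) (q.th / 4) (cmu d c q)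

section

variable {κ : LawC} {d : ℕ} {CM : ℝ} {x : Ex d CM} {c : Cst} {q : Csts}

theorem AllC.cL_pos (h : AllC κ x c q) : 0 < κ.cL := h.ok.pos.cl.trans_le h.cl

theorem AllC.cl4 (h : AllC κ x c q) : c.cl ≤ 4 * κ.cL := by
  have h1 := h.cl
  have h2 := h.cL_pos
  linarith

theorem AllC.c14 (h : AllC κ x c q) : q.c1 ≤ 4 := by
  have h1 := h.c11
  linarith

theorem AllC.dS1 (h : AllC κ x c q) : 2 * c.dS ≤ 1 := by
  rw [h.dS]
  norm_num

theorem AllC.th2 (h : AllC κ x c q) : q.th / 4 ≤ 2 := by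
  have := h.ok.th1
  linarith

/-- `StC` for the constants `c`, `rho = th/4` -/
theorem AllC.stC (h : AllC κ x c q) {ρ : ℝ} (h0 : 0 < ρ) (h2 : ρ ≤ 2) :
    StC d c (2 * q.C1) (q.c1 / 2) (q.th / 4) ρ := by
  have h3 := h.ok.pos.b
  exact h.stc c.b (q.th / 4) ρ h3 (by linarith) le_rfl h.th2 h0 h2

theorem AllC.stC4 (h : AllC κ x c q) :
    StC d c (2 * q.C1) (q.c1 / 2) (q.th / 4) (q.th / 4) :=
  h.stC (by have := h.ok.th; linarith) h.th2

theorem AllC.stC2 (h : AllC κ x c q) :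
    StC d c (2 * q.C1) (q.c1 / 2) (q.th / 4) (q.th / 2) :=
  h.stC (by have := h.ok.th; linarith) (by have := h.ok.th1; linarith)

/-- for `4 b` -/
theorem AllC.stCb4 (h : AllC κ x c q) {ρ : ℝ} (h0 : 0 < ρ) (h2 : ρ ≤ 2) :
    StC d { c with b := 4 * c.b } (2 * q.C1) (q.c1 / 2) (q.th / 4) ρ := by
  have h3 := h.ok.pos.b
  exact h.stc (4 * c.b) (q.th / 4) ρ (by linarith) (by linarith) le_rfl h.th2 h0 h2

end

/-- `tHc` is positive and increasing in `rho` -/
theorem tHc_mono {c1 C1 rho rho' : ℝ} (hc : 0 ≤ c1) (hC : 0 < C1) (h : rho ≤ rho') :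
    tHc c1 C1 rho ≤ tHc c1 C1 rho' := by
  unfold tHc
  have h1 : √(1 - rho' / 2) ≤ √(1 - rho / 2) := Real.sqrt_le_sqrt (by linarith)
  refine div_le_div_of_nonneg_right ?_ (by linarith)
  refine mul_le_mul_of_nonneg_right ?_ hc
  linarith

theorem tHc_pos' {c1 C1 rho : ℝ} (hc : 0 < c1) (hC : 0 < C1) (h : 0 < rho) :
    0 < tHc c1 C1 rho := by
  unfold tHc
  have h1 : √(1 - rho / 2) < 1 := by
    rw [Real.sqrt_lt' one_pos]
    linarith
  have h2 : 0 < (1 - √(1 - rho / 2)) / 2 := by linarith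
  positivity

/-- THE CONSTANTS EXIST -/
theorem exists_allC_of {d : ℕ} {CM : ℝ} (hd : 0 < d) (x : Ex d CM) {κ : LawC} (hκ : κ.Ok)
    {c1 C1 C C' : ℝ} (hc1 : 0 < c1) (hc11 : c1 ≤ 1) (hC1 : 1 ≤ C1)
    (hC : 1 ≤ C) (hC' : 0 < C') {w : ℝ} (hw : 0 < w) (hw1 : w ≤ 1) {Cc : ℕ} (hCc : 8 ≤ Cc)
    (B : Cst → Csts → ℝ) (hB : ∀ c q, 0 < B c q)
    (hBb : ∀ (c : Cst) (q : Csts) (b : ℝ), B { c with b := b } q = B c q) :
    ∃ (c : Cst) (q : Csts), AllC κ x c q ∧ q.c1 = c1 ∧ q.C1 = C1 ∧ q.C = C ∧ q.C' = C' ∧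
      q.w = w ∧ q.Cc = Cc ∧ c.b ≤ B c q := by
  have hcL := hκ.cL_pos
  have hthL := hκ.thL_pos
  have hC1' : 0 < C1 := by linarith
  have hC0 : 0 < C := by linarith
  have hdr : (0 : ℝ) < d := by exact_mod_cast hd
  obtain ⟨cl, hcl⟩ : ∃ cl : ℝ, cl = min 1 κ.cL := ⟨_, rfl⟩
  have hcl0 : 0 < cl := by rw [hcl]; exact lt_min one_pos hcL
  have hcl1 : cl ≤ 1 := by rw [hcl]; exact min_le_left _ _
  have hclL : cl ≤ κ.cL := by rw [hcl]; exact min_le_right _ _
  obtain ⟨th, hth⟩ : ∃ th : ℝ, th = min (1 / 4) (min κ.thL κ.cL) := ⟨_, rfl⟩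
  have hth0 : 0 < th := by rw [hth]; exact lt_min (by norm_num) (lt_min hthL hcL)
  have hth1 : th ≤ 1 / 4 := by rw [hth]; exact min_le_left _ _
  have hth2 : th ≤ κ.thL := by rw [hth]; exact (min_le_right _ _).trans (min_le_left _ _)
  have hth3 : th ≤ κ.cL := by rw [hth]; exact (min_le_right _ _).trans (min_le_right _ _)
  have hD : 0 < C * (1 + C1) ^ (1 - 2 * x.e) := by positivity
  have hG : 0 < cl * c1 / 4 := by positivity
  obtain ⟨c0, hc0⟩ : ∃ c0 : Cst, c0 =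
    { b := 1
      Cg := 5 / 2
      cl := cl
      cs := cl * (3 / 4 * c1)
      CD := 1
      Ce := 1
      dS := 1 / 2
      Cz := 1
      D0c := 1 / (C * (1 + C1) ^ (1 - 2 * x.e))
      C0c := C / (cl * c1 / 4)
      e0c := (1 + C1) ^ (x.e / 4) / (cl * c1 / 4 * c1) } := ⟨_, rfl⟩
  obtain ⟨q, hq⟩ : ∃ q : Csts, q = { c1 := c1, C1 := C1, C := C, C' := C', w := w, th := th, Cc := Cc } :=
    ⟨_, rfl⟩
  have e1 : c0.cl = cl := by rw [hc0]
  have e2 : c0.cs = cl * (3 / 4 * c1) := by rw [hc0]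
  have q1 : q.c1 = c1 := by rw [hq]
  have q2 : q.C1 = C1 := by rw [hq]
  have q3 : q.C = C := by rw [hq]
  have q4 : q.C' = C' := by rw [hq]
  have q5 : q.w = w := by rw [hq]
  have q6 : q.th = th := by rw [hq]
  have q7 : q.Cc = Cc := by rw [hq]
  have hcs : 0 < c0.cs := by rw [e2]; positivity
  have hm0 : 0 < mu0 d c0 (c1 / 2) := by
    unfold mu0
    have h1 : 0 < min (c0.cl * (c1 / 2) / 64) (c0.cs / 32) :=
      lt_min (by rw [e1]; positivity) (by positivity)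
    positivity
  have ht0 : 0 < tHc (c1 / 2) (2 * C1) (th / 4) :=
    tHc_pos' (by linarith) (by linarith) (by linarith)
  have hcmu : 0 < cmu d c0 q := by
    unfold cmu
    rw [e1, q1]
    exact lt_min one_pos (lt_min (by positivity) (by positivity))
  have hcv : 0 < cνV (c1 / 2) (2 * C1) (th / 4) (cmu d c0 q) := by
    unfold cνV
    positivity
  obtain ⟨b, hb0, hb1, hb2, hb3⟩ : ∃ b : ℝ, 0 < b ∧
      4096 * b ≤ tHc (c1 / 2) (2 * C1) (th / 4) * mu0 d c0 (c1 / 2) ∧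
      64 * b ≤ cνV (c1 / 2) (2 * C1) (th / 4) (cmu d c0 q) ∧ b ≤ B c0 q := by
    refine ⟨min (tHc (c1 / 2) (2 * C1) (th / 4) * mu0 d c0 (c1 / 2) / 4096)
      (min (cνV (c1 / 2) (2 * C1) (th / 4) (cmu d c0 q) / 64) (B c0 q)),
      lt_min (by positivity) (lt_min (by positivity) (hB c0 q)), ?_, ?_, ?_⟩
    · have := min_le_left (tHc (c1 / 2) (2 * C1) (th / 4) * mu0 d c0 (c1 / 2) / 4096)
        (min (cνV (c1 / 2) (2 * C1) (th / 4) (cmu d c0 q) / 64) (B c0 q))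
      linarith
    · have := (min_le_right (tHc (c1 / 2) (2 * C1) (th / 4) * mu0 d c0 (c1 / 2) / 4096)
        (min (cνV (c1 / 2) (2 * C1) (th / 4) (cmu d c0 q) / 64) (B c0 q))).trans
        (min_le_left _ _)
      linarith
    · exact (min_le_right _ _).trans (min_le_right _ _)
  have hpos : ∀ b' : ℝ, 0 < b' → ({ c0 with b := b' } : Cst).Pos := by
    intro b' hb'
    rw [hc0]
    exact
      { b := hb'
        Cg := by norm_num
        Cg1 := le_rfl
        cl := hcl0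
        cl1 := by show cl ≤ 4; linarith
        cs := by show 0 < cl * (3 / 4 * c1); positivity
        CD := one_pos
        Ce := one_pos
        dS := by norm_num
        Cz := one_pos
        D0c := by show 0 < 1 / (C * (1 + C1) ^ (1 - 2 * x.e)); positivity
        C0c := by show 0 < C / (cl * c1 / 4); positivity
        e0c := by show 0 < (1 + C1) ^ (x.e / 4) / (cl * c1 / 4 * c1); positivity }
  have hok : q.Ok { c0 with b := b } :=
    { pos := hpos b hb0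
      c1 := by rw [q1]; exact hc1
      C1 := by rw [q2]; exact hC1
      C := by rw [q3]; exact hC
      C' := by rw [q4]; exact hC'
      w := by rw [q5]; exact hw
      w1 := by rw [q5]; exact hw1
      th := by rw [q6]; exact hth0
      th1 := by rw [q6]; exact hth1
      cs := by
        show c0.cs ≤ c0.cl * (3 / 4 * q.c1)
        rw [e1, e2, q1] }
  refine ⟨{ c0 with b := b }, q, ?_, q1, q2, q3, q4, q5, q7, ?_⟩
  swap
  · show b ≤ B { c0 with b := b } q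
    rw [hBb]
    exact hb3
  refine
    { d0 := hd
      ok := hok
      st := ?_
      c11 := by rw [q1]; exact hc11
      cl := by show c0.cl ≤ κ.cL; rw [e1]; exact hclL
      cl1 := by show c0.cl ≤ 1; rw [e1]; exact hcl1
      th := by rw [q6]; exact hth2
      thc := by rw [q6]; exact hth3
      Cg := by rw [hc0]
      CD := by rw [hc0]
      Ce := by rw [hc0]
      Cz := by rw [hc0]
      dS := by rw [hc0]
      Cc := by rw [q7]; exact hCc
      stc := ?_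
      ins := ?_ }
  · rw [q1, q2, q3]
    refine ⟨hc1, by linarith, hC, ?_, ?_, ?_⟩
    · rw [hc0]
      show 1 / (C * (1 + C1) ^ (1 - 2 * x.e)) * (C * (1 + C1) ^ (1 - 2 * x.e)) ≤ 1
      rw [one_div, inv_mul_cancel₀ hD.ne']
    · rw [hc0]
      show C ≤ C / (cl * c1 / 4) * (cl * c1 / 4)
      rw [div_mul_cancel₀ _ hG.ne']
    · rw [hc0]
      show (1 + C1) ^ (x.e / 4) ≤
        (1 + C1) ^ (x.e / 4) / (cl * c1 / 4 * c1) * (cl * c1 / 4 * c1)
      rw [div_mul_cancel₀ _ (by positivity)]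
  · intro B' rho ρ h1 h2 h3 h4 h5 h6
    rw [q1, q2]
    rw [q6] at h3
    refine
      { d0 := hd
        pos := hpos B' h1
        hc1 := by linarith
        hcC := by linarith
        hC1 := by linarith
        rho0 := by linarith
        rho2 := h4
        ρ0 := h5
        ρ2 := h6
        b1 := ?_
        dS1 := by rw [hc0] }
    show 256 * B' ≤ tHc (c1 / 2) (2 * C1) rho * mu0 d c0 (c1 / 2)
    have h7 : B' ≤ 16 * b := h2
    have h8 : tHc (c1 / 2) (2 * C1) (th / 4) * mu0 d c0 (c1 / 2) ≤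
        tHc (c1 / 2) (2 * C1) rho * mu0 d c0 (c1 / 2) :=
      mul_le_mul_of_nonneg_right (tHc_mono (by linarith) (by linarith) h3) hm0.le
    linarith
  · rw [q1, q2, q6]
    show 64 * b ≤ cνV (c1 / 2) (2 * C1) (th / 4) (cmu d c0 q)
    exact hb2

/-- THE CONSTANTS EXIST -/
theorem exists_allC {d : ℕ} {CM : ℝ} (hd : 3 ≤ d) (x : Ex d CM) {κ : LawC} (hκ : κ.Ok)
    {c1 C1 C C' : ℝ} (hc1 : 0 < c1) (hc11 : c1 ≤ 1) (hC1 : 1 ≤ C1) (hC : 1 ≤ C) (hC' : 0 < C') :
    ∃ (c : Cst) (q : Csts), AllC κ x c q ∧ q.c1 = c1 ∧ q.C1 = C1 ∧ q.C = C ∧ q.C' = C' := by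
  obtain ⟨c, q, h, h1, h2, h3, h4, -⟩ := exists_allC_of (by omega) x hκ hc1 hc11 hC1 hC hC'
    one_pos le_rfl le_rfl (fun _ _ => 1) (fun _ _ => one_pos) (fun _ _ _ => rfl)
  exact ⟨c, q, h, h1, h2, h3, h4⟩

end Pool.Agent.AND
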