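import Pool.Agent.AND.HoleGeo
import Pool.Agent.ANB.CoverM
import Pool.Agent.ANQ.NearProc

/-!
# AND / CpGlue: chain property and weight functions at every time of the process

The families of single points `pt (rd ∪ ine)` (read and inert sites):

* `cp_crun`: after `i` steps of super-stage `j`; `cp_up`: the candidate of the step;
  `cp_run`, `cp_fin`, `cp_irun`: start of the super-stage, end of the reading, insertions;
  constants `4` and `2 cc + 4 r_j`, `cc ≤ side (j - 1)` resp. `side j`;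
* `phi_pts`: the weight function of such a family.
-/

set_option autoImplicit false

namespace Pool.Agent.AND

open Finset Pool.Agent.ANM Pool.Agent.ANB
open Pool.Agent.ANQ (Ana St Cur ICur weak)

variable {T X : Type} [Fintype T] [DecidableEq T]

/-- the geometric hypotheses on the geometry of the process -/
structure CGeo (g : ANQ.Geo T) (W : ℕ → ℕ) (V : ℕ) : Prop where
  met : NMet g.dist
  geo : ANM.Geo g.dist
  sep : ANM.Sep g.dist
  idem : ∀ j x, g.cor j (g.cor j x) = g.cor j x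
  ok : (g.par W V).Ok
  large : ∀ i, 2 ^ (i + 3) * (g.J * V + 1) * (2 * g.R (i + 1) + 2 * g.side i + 2) ≤ g.side (i + 1)

/-- the additive constant at the scale `r`, `n` generations of holes -/
def cK (g : ANQ.Geo T) (W : ℕ → ℕ) (V n r : ℕ) : ℕ := 2 * cc (g.par W V) n + 4 * r

variable {g : ANQ.Geo T} {A : Ana T X} {W : ℕ → ℕ} {V : ℕ} {K : T → Finset X} {r : ℕ → ℕ}

theorem CGeo.cK_le (hG : CGeo g W V) (n r : ℕ) : cK g W V n r ≤ 2 * g.side n + 4 * r := by
  have h := cc_le hG.ok n
  have h1 : (g.par W V).side n = g.side n := rfl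
  rw [h1] at h
  unfold cK
  omega

omit [Fintype T] [DecidableEq T] in
/-- the weight function of a family of points with the chain property -/
theorem phi_pts {d : T → T → ℕ} {S : Set T} {a c : ℕ} (hm : NMet d) (hg : ANM.Geo d)
    (hs : ANM.Sep d) (h : CP d (pt S) a c) (B : Set T) (hB : B.Nonempty) :
    ∃ φ : T → ℕ, (∀ x ∈ B, φ x = 0) ∧ (∀ x y, d x y ≤ 1 → φ x ≤ φ y + 1) ∧
      (∀ x y, d x y ≤ 1 → (x ∈ S ∨ y ∈ S) → φ x = φ y) ∧
      ∀ y, ∃ x ∈ B, d x y ≤ a * φ y + c := by
  obtain ⟨φ, h1, h2, h3, -, h5⟩ := phi_cp hm h hg hs B hB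
  refine ⟨φ, h1, h2, fun x y hxy hS => ?_, h5⟩
  rcases hS with hx | hy
  · exact h3 x x y ⟨x, ⟨rfl, hx⟩, by rw [hm.self]; omega⟩ ⟨x, ⟨rfl, hx⟩, by
      rw [hm.symm]
      exact hxy⟩
  · exact h3 y x y ⟨y, ⟨rfl, hy⟩, hxy⟩ ⟨y, ⟨rfl, hy⟩, by rw [hm.self]; omega⟩

variable [Fintype X] [DecidableEq X] [Nonempty T]

/-- chain property of the read and inert sites, if the read sites are in the holes of `n`
generations -/
theorem cp_of (hG : CGeo g W V) {π : Prof T} {v : T → X} {ρ : ℕ} (hρ : 1 ≤ ρ)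
    (h : Inv g K ρ π v) (n : ℕ)
    (hrd : ∀ x ∈ π.rd, ∃ k, x ∈ (g.hist A hG.idem hG.met.self hG.met.symm W V v).piece n k) :
    CP g.dist (pt (π.rd ∪ π.ine : Set T)) 4 (cK g W V n ρ) :=
  cp_profile_pt hG.met hG.geo hG.sep hρ h
    ((g.hist A hG.idem hG.met.self hG.met.symm W V v).sparse hG.ok n) (fun i _ => hG.large i) hrd

/-- start of super-stage `j` -/
theorem cp_run (hG : CGeo g W V) (hP : PercIn g A K r) (j : ℕ) (v : T → X) :
    CP g.dist (pt ((g.run A j v).pi.rd ∪ (g.run A j v).pi.ine : Set T)) 4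
      (cK g W V (j - 1) (r j)) :=
  cp_of (A := A) hG (hP.r1 j) (inv_run hP j v) (j - 1) fun _ hx =>
    ANQ.Geo.run_rd hG.idem hG.met.self hG.met.symm W V j v (by omega) hx

theorem rd_crun (hG : CGeo g W V) (j i : ℕ) (v : T → X) {x : T}
    (hx : x ∈ (g.crun A j i v).pi.rd) :
    ∃ k, x ∈ (g.hist A hG.idem hG.met.self hG.met.symm W V v).piece (j - 1) k := by
  have h0 : (g.crun A j i v).pi.rd = (g.run A j v).pi.rd := ANQ.Geo.cur_rd j _ v i
  rw [h0] at hx
  exact ANQ.Geo.run_rd hG.idem hG.met.self hG.met.symm W V j v (by omega) hx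

/-- after `i` steps of super-stage `j` -/
theorem cp_crun (hG : CGeo g W V) (hP : PercIn g A K r) (j i : ℕ) (v : T → X) :
    CP g.dist (pt ((g.crun A j i v).pi.rd ∪ (g.crun A j i v).pi.ine : Set T)) 4
      (cK g W V (j - 1) (r j)) :=
  cp_of (A := A) hG (hP.r1 j) (inv_crun hP j i v) (j - 1) fun _ hx => rd_crun hG j i v hx

/-- THE CANDIDATE of the step `i` -/
theorem cp_up (hG : CGeo g W V) (hP : PercIn g A K r) (j i : ℕ) (v : T → X)
    (hrt : ∀ x, ¬ Rb g.dist (r j) ((g.up A j i (g.crun A j i v).pi v).ine : Set T) x) :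
    CP g.dist (pt ((g.up A j i (g.crun A j i v).pi v).rd ∪
      (g.up A j i (g.crun A j i v).pi v).ine : Set T)) 4 (cK g W V (j - 1) (r j)) :=
  cp_of (A := A) (v := v) (K := K) hG (hP.r1 j) ⟨hrt, up_wk hP (inv_crun hP j i v).2⟩ (j - 1)
    fun _ hx => rd_crun hG j i v hx

/-- the candidate of the step `i` for a configuration of the same class -/
theorem cp_up' (hG : CGeo g W V) (hP : PercIn g A K r) (j i : ℕ) (v u : T → X)
    (hrt : ∀ x, ¬ Rb g.dist (r j) ((g.up A j i (g.crun A j i v).pi u).ine : Set T) x) :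
    CP g.dist (pt ((g.up A j i (g.crun A j i v).pi u).rd ∪
      (g.up A j i (g.crun A j i v).pi u).ine : Set T)) 4 (cK g W V (j - 1) (r j)) := by
  exact cp_points hG.met hG.geo hG.sep (hP.r1 j) hrt
    ((g.hist A hG.idem hG.met.self hG.met.symm W V v).sparse hG.ok (j - 1))
    (fun i _ => hG.large i) fun x hx => by
      rcases hx with hx | hx
      · exact Or.inr (rd_crun hG j i v hx)
      · exact Or.inl hx

/-- end of the reading of super-stage `j` -/
theorem cp_fin (hG : CGeo g W V) (hP : PercIn g A K r) (j : ℕ) (v : T → X) :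
    CP g.dist (pt ((g.fin A j (g.run A j v) v).pi.rd ∪
      (g.fin A j (g.run A j v) v).pi.ine : Set T)) 4 (cK g W V (j - 1) (r j)) :=
  cp_crun hG hP j (g.ns j) v

/-- during the insertions of super-stage `j` -/
theorem cp_irun (hG : CGeo g W V) (hP : PercIn g A K r) (j k : ℕ) (v : T → X) :
    CP g.dist (pt ((g.irun A j k v).pi.rd ∪ (g.irun A j k v).pi.ine : Set T)) 4
      (cK g W V j (r j)) :=
  cp_of (A := A) hG (hP.r1 j) (inv_irun hP j k v) j fun _ hx =>
    ANQ.Geo.icur_rd hG.idem hG.met.self hG.met.symm W V j v le_rfl k hx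

/-- during the insertions, also with the annuli (or the whole neighbourhoods) of the candidates -/
theorem cp_irun' (hG : CGeo g W V) (hP : PercIn g A K r) (j k : ℕ) (v : T → X) {S : Set T}
    (hS : ∀ x ∈ S, x ∈ (g.irun A j k v).pi.rd ∨ x ∈ (g.irun A j k v).pi.ine ∨
      x ∈ g.nbhd (g.R j) (g.cand A j (g.run A j v) v)) :
    CP g.dist (pt S) 4 (cK g W V j (r j)) :=
  cp_points hG.met hG.geo hG.sep (hP.r1 j) (inv_irun hP j k v).1
    ((g.hist A hG.idem hG.met.self hG.met.symm W V v).sparse hG.ok j)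
    (fun i _ => hG.large i) fun x hx => by
      rcases hS x hx with h | h | h
      · exact Or.inr (ANQ.Geo.icur_rd hG.idem hG.met.self hG.met.symm W V j v le_rfl k h)
      · exact Or.inl h
      · exact Or.inr (ANQ.Geo.ann_piece hG.idem hG.met.self hG.met.symm W V j v le_rfl h)

end Pool.Agent.AND
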