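import Pool.Agent.AND.Good
import Pool.Agent.ANB.Stride
import Pool.Agent.ANS.St
import Pool.Agent.ANQ.Cond

/-!
# AND / DigLaw: the digits of a finite dyadic law (`ANB.Law`) as `AND.Sys` and as `ANS.Dig`

* `sysOf L lam E eta`: the potential and the remaining variance of level `n`.
* `digOf L lam n N v`: the digits `n → n+1` of the sites of `N`, given the class of `v`; at the other
  sites nothing is read (point mass at `v x`).  `digOf_ok`: this is a `Dig.Ok`.
* `Pr_step`: the conditional weight of an event decided by the digits of `N`.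
-/

set_option autoImplicit false

open Finset

noncomputable section

namespace Pool.Agent.AND

open Pool.Agent.ANB Pool.Agent.ANP Pool.Agent.ANQ

variable {X : Type} [Fintype X]

/-- energy, absorption and digits -/
def sysOf (L : Law X) (lam E eta : ℝ) : Sys X where
  E := E
  eta := eta
  hh := fun n a => lam * L.h n a
  kk := fun n a => lam ^ 2 * L.kp n a

/-- natural scale of the level `n` -/
def kn (L : Law X) (lam : ℝ) (n : ℕ) : ℝ := (lam * (2 * L.S / 2 ^ n)) ^ 2

theorem kn_succ (L : Law X) (lam : ℝ) (n : ℕ) : kn L lam (n + 1) = kn L lam n / 4 := by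
  unfold kn
  rw [pow_succ]
  field_simp
  ring

theorem kn_nonneg (L : Law X) (lam : ℝ) (n : ℕ) : 0 ≤ kn L lam n := sq_nonneg _

variable {L : Law X} {lam E eta : ℝ}

theorem kk_nonneg (n : ℕ) (a : X) : 0 ≤ (sysOf L lam E eta).kk n a :=
  mul_nonneg (sq_nonneg _) (L.kp_nonneg n a)

theorem kk_le (n : ℕ) (a : X) : (sysOf L lam E eta).kk n a ≤ kn L lam n := by
  change lam ^ 2 * L.kp n a ≤ (lam * (2 * L.S / 2 ^ n)) ^ 2
  rw [mul_pow]
  exact mul_le_mul_of_nonneg_left (L.kp_up n a) (sq_nonneg _)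

/-- active sites (`¬ wk`) have variance of the natural order -/
theorem kk_low {n : ℕ} {a : X} (h : ¬ L.wk n a) (hn : 8 * L.D * 2 ^ n ≤ L.ep * 2 ^ L.nf) :
    (L.ep / (12 * L.D)) ^ 2 * kn L lam n ≤ (sysOf L lam E eta).kk n a := by
  have h1 := L.kp_low h hn
  have h4 : (4 : ℝ) ^ n = (2 ^ n) ^ 2 := by
    rw [← pow_mul, mul_comm, pow_mul]
    norm_num
  have h2 : (L.ep / (12 * L.D)) ^ 2 * kn L lam n =
      lam ^ 2 * ((L.ep * L.S / (6 * L.D)) ^ 2 / 4 ^ n) := by
    unfold kn
    rw [h4]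
    have hD := L.D0
    field_simp
    ring
  rw [h2]
  exact mul_le_mul_of_nonneg_left h1 (sq_nonneg _)

theorem kk_wk {n : ℕ} {a : X} (h : L.wk n a) : (sysOf L lam E eta).kk n a = 0 := by
  change lam ^ 2 * L.kp n a = 0
  rw [L.kp_zero h, mul_zero]

theorem kk_top {n : ℕ} (hn : L.nf ≤ n) (a : X) : (sysOf L lam E eta).kk n a = 0 := by
  change lam ^ 2 * L.kp n a = 0
  rw [L.kp_top hn, mul_zero]

/-- the remaining variance does not increase (`12 D₀ ≤ 2 ^ m ep`) -/
theorem kk_anti (hm : 12 * L.B.D ≤ 2 ^ L.m * L.B.ep) {n : ℕ}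
    (hn : 8 * L.D * 2 ^ n ≤ L.ep * 2 ^ L.nf) (a : X) :
    (sysOf L lam E eta).kk (n + 1) a ≤ (sysOf L lam E eta).kk n a :=
  mul_le_mul_of_nonneg_left (L.kp_anti hm hn a) (sq_nonneg _)

/-- strictly smaller at the successors of strong classes when digits are read -/
theorem kk_lt (hl : 0 < lam) (hm : 12 * L.B.D < 2 ^ L.m * L.B.ep) {n : ℕ}
    (hn : 8 * L.D * 2 ^ n ≤ L.ep * 2 ^ L.nf) (hd : L.m ∣ n + 1) {a : X} (hw : ¬ L.wk n a) :
    (sysOf L lam E eta).kk (n + 1) a < (sysOf L lam E eta).kk n a :=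
  mul_lt_mul_of_pos_left (L.kp_lt hm hn hd hw) (by positivity)

/-- nothing is read at the steps which are not multiples of the stride -/
theorem kk_not {n : ℕ} (hd : ¬ L.m ∣ n + 1) (a : X) :
    (sysOf L lam E eta).kk (n + 1) a = (sysOf L lam E eta).kk n a := by
  change lam ^ 2 * L.kp (n + 1) a = lam ^ 2 * L.kp n a
  rw [L.kp_succ_not hd]

theorem hh_not {n : ℕ} (hd : ¬ L.m ∣ n + 1) (a : X) :
    (sysOf L lam E eta).hh (n + 1) a = (sysOf L lam E eta).hh n a := by
  change lam * L.h (n + 1) a = lam * L.h n a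
  unfold Law.h
  rw [L.q_succ_not hd]

theorem hh_top {n : ℕ} (hn : L.nf ≤ n) (a : X) : (sysOf L lam E eta).hh n a = lam * L.V a := by
  change lam * L.h n a = lam * L.V a
  rw [L.h_top hn]

/-- the data of level `n` are functions of the digits of level `n` -/
theorem hh_congr {n : ℕ} {a b : X} (h : L.q n a = L.q n b) :
    (sysOf L lam E eta).hh n a = (sysOf L lam E eta).hh n b := by
  change lam * L.h n a = lam * L.h n b
  unfold Law.h
  rw [cE_congr _ _ h]

theorem kk_congr {n : ℕ} {a b : X} (h : L.q n a = L.q n b) :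
    (sysOf L lam E eta).kk n a = (sysOf L lam E eta).kk n b := by
  change lam ^ 2 * L.kp n a = lam ^ 2 * L.kp n b
  unfold Law.kp
  rw [cV_congr _ _ h]

theorem hh_incr (hl : 0 ≤ lam) {m n : ℕ} (hmn : m ≤ n) (a : X) :
    |(sysOf L lam E eta).hh n a - (sysOf L lam E eta).hh m a| ≤ lam * (2 * L.S / 2 ^ m) := by
  change |lam * L.h n a - lam * L.h m a| ≤ _
  rw [← mul_sub, abs_mul, abs_of_nonneg hl]
  exact mul_le_mul_of_nonneg_left (L.incr_le hmn a) hl

theorem hh_V (hl : 0 ≤ lam) (n : ℕ) (a : X) :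
    |lam * L.V a - (sysOf L lam E eta).hh n a| ≤ lam * (2 * L.S / 2 ^ n) := by
  change |lam * L.V a - lam * L.h n a| ≤ _
  rw [← mul_sub, abs_mul, abs_of_nonneg hl]
  exact mul_le_mul_of_nonneg_left (L.V_sub_h n a) hl

section dig

variable {T : Type} [DecidableEq T] [DecidableEq X]

/-- conditional law of one site -/
def claw (L : Law X) (n : ℕ) (a0 a : X) : ℝ :=
  if a ∈ cl (L.q n) a0 then L.p a / cm L.p (L.q n) a0 else 0

theorem claw_sum (L : Law X) (n : ℕ) (a0 : X) (f : X → ℝ) :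
    ∑ a, claw L n a0 a * f a = cE L.p (L.q n) f a0 := by
  unfold claw cE
  rw [sum_div]
  rw [← sum_filter_add_sum_filter_not univ (fun a => a ∈ cl (L.q n) a0)]
  have h0 : ∑ a ∈ univ.filter (fun a => ¬ a ∈ cl (L.q n) a0),
      (if a ∈ cl (L.q n) a0 then L.p a / cm L.p (L.q n) a0 else 0) * f a = 0 := by
    refine sum_eq_zero fun a ha => ?_
    rw [if_neg (mem_filter.1 ha).2, zero_mul]
  rw [h0, add_zero]
  have h1 : univ.filter (fun a => a ∈ cl (L.q n) a0) = cl (L.q n) a0 := by
    ext a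
    simp
  rw [h1]
  refine sum_congr rfl fun a ha => ?_
  rw [if_pos ha]
  ring

theorem claw_nonneg (L : Law X) (n : ℕ) (a0 a : X) : 0 ≤ claw L n a0 a := by
  unfold claw
  split_ifs
  · exact div_nonneg (L.p0 a).le (cm_pos L.p0 _ _).le
  · exact le_rfl

theorem claw_one (L : Law X) (n : ℕ) (a0 : X) : ∑ a, claw L n a0 a = 1 := by
  have h := claw_sum L n a0 (fun _ => 1)
  rw [cE_const L.p0] at h
  simpa using h

/-- the digits `n → n+1` of the sites of `N` given the class of `v` -/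
def digOf (L : Law X) (lam : ℝ) (n : ℕ) (N : Finset T) (v : T → X) : ANS.Dig T X where
  P := fun x a => if x ∈ N then claw L n (v x) a else if a = v x then 1 else 0
  xi := fun x a => if x ∈ N ∧ a ∈ cl (L.q n) (v x) then lam * (L.h (n + 1) a - L.h n (v x)) else 0
  zt := fun x a => if x ∈ N ∧ a ∈ cl (L.q n) (v x) then
    lam ^ 2 * (L.kp n (v x) - L.kp (n + 1) a) else 0

/-- variance of the digit -/
def cOf (L : Law X) (lam : ℝ) (n : ℕ) (N : Finset T) (v : T → X) (x : T) : ℝ :=
  if x ∈ N then lam ^ 2 * (L.kp n (v x) - cE L.p (L.q n) (L.kp (n + 1)) (v x)) else 0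

/-- bound of the digit -/
def beOf (L : Law X) (lam : ℝ) (n : ℕ) (N : Finset T) (x : T) : ℝ :=
  if x ∈ N then lam * (2 * L.S / 2 ^ n) else 0

theorem beOf_sq (L : Law X) (lam : ℝ) (n : ℕ) (N : Finset T) (x : T) (hx : x ∈ N) :
    beOf L lam n N x ^ 2 = kn L lam n := by
  unfold beOf kn
  rw [if_pos hx]

theorem digOf_ok (L : Law X) {lam : ℝ} (hl : 0 ≤ lam) (n : ℕ) (N : Finset T) (v : T → X) :
    (digOf L lam n N v).Ok (cOf L lam n N v) (beOf L lam n N) := by
  have hbe : ∀ x, 0 ≤ beOf L lam n N x := by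
    intro x
    unfold beOf
    split_ifs
    · have := L.S0
      positivity
    · exact le_rfl
  have key : ∀ (x : T) (f : X → ℝ),
      ∑ a, (digOf L lam n N v).P x a * (if x ∈ N ∧ a ∈ cl (L.q n) (v x) then f a else 0) =
        if x ∈ N then cE L.p (L.q n) f (v x) else 0 := by
    intro x f
    by_cases hx : x ∈ N
    · rw [if_pos hx, ← claw_sum]
      refine sum_congr rfl fun a _ => ?_
      change (if x ∈ N then claw L n (v x) a else _) * _ = _
      rw [if_pos hx]
      by_cases ha : a ∈ cl (L.q n) (v x)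
      · rw [if_pos ⟨hx, ha⟩]
      · rw [if_neg fun h => ha h.2]
        unfold claw
        rw [if_neg ha, zero_mul, zero_mul]
    · rw [if_neg hx]
      refine sum_eq_zero fun a _ => ?_
      rw [if_neg fun h => hx h.1, mul_zero]
  refine ⟨?_, ?_, ?_, ?_, ?_, hbe, ?_, ?_⟩
  · intro x a
    change 0 ≤ (if x ∈ N then claw L n (v x) a else if a = v x then 1 else 0)
    split_ifs
    · exact claw_nonneg L n _ _
    · exact zero_le_one
    · exact le_rfl
  · intro x
    change ∑ a, (if x ∈ N then claw L n (v x) a else if a = v x then 1 else 0) = 1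
    by_cases hx : x ∈ N
    · simp only [if_pos hx]
      exact claw_one L n _
    · simp [hx]
  · intro x
    have h := key x fun a => lam * (L.h (n + 1) a - L.h n (v x))
    change ∑ a, (digOf L lam n N v).P x a * (if x ∈ N ∧ a ∈ cl (L.q n) (v x) then
      lam * (L.h (n + 1) a - L.h n (v x)) else 0) = 0
    rw [h]
    split_ifs
    · rw [cE_smul, L.mean_incr (Nat.le_succ n), mul_zero]
    · rfl
  · intro x
    have h := key x fun a => (lam * (L.h (n + 1) a - L.h n (v x))) ^ 2
    have h1 : ∀ a, (digOf L lam n N v).xi x a ^ 2 =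
        if x ∈ N ∧ a ∈ cl (L.q n) (v x) then (lam * (L.h (n + 1) a - L.h n (v x))) ^ 2 else 0 := by
      intro a
      change (if x ∈ N ∧ a ∈ cl (L.q n) (v x) then lam * (L.h (n + 1) a - L.h n (v x)) else 0) ^ 2
        = _
      split_ifs
      · rfl
      · norm_num
    simp only [h1]
    rw [h]
    unfold cOf
    split_ifs
    · simp only [mul_pow]
      rw [cE_smul, L.var_incr (Nat.le_succ n), cE_sub, cE_const L.p0]
    · rfl
  · intro x
    have h := key x fun a => lam ^ 2 * (L.kp n (v x) - L.kp (n + 1) a)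
    change ∑ a, (digOf L lam n N v).P x a * (if x ∈ N ∧ a ∈ cl (L.q n) (v x) then
      lam ^ 2 * (L.kp n (v x) - L.kp (n + 1) a) else 0) = cOf L lam n N v x
    rw [h]
    unfold cOf
    split_ifs
    · rw [cE_smul, cE_sub, cE_const L.p0]
    · rfl
  · intro x a
    change |if x ∈ N ∧ a ∈ cl (L.q n) (v x) then lam * (L.h (n + 1) a - L.h n (v x)) else 0| ≤ _
    split_ifs with h
    · unfold beOf
      rw [if_pos h.1, abs_mul, abs_of_nonneg hl]
      refine mul_le_mul_of_nonneg_left ?_ hl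
      have h2 : L.h n (v x) = L.h n a := by
        unfold Law.h
        rw [cE_congr _ _ (mem_cl.1 h.2).symm]
      rw [h2]
      exact L.incr_le (Nat.le_succ n) a
    · rw [abs_zero]
      exact hbe x
  · intro x a
    change |if x ∈ N ∧ a ∈ cl (L.q n) (v x) then
      lam ^ 2 * (L.kp n (v x) - L.kp (n + 1) a) else 0| ≤ _
    split_ifs with h
    · rw [beOf_sq L lam n N x h.1, abs_mul, abs_of_nonneg (sq_nonneg lam)]
      unfold kn
      rw [mul_pow]
      refine mul_le_mul_of_nonneg_left ?_ (sq_nonneg _)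
      have h1 := L.kp_nonneg n (v x)
      have h2 := L.kp_up n (v x)
      have h3 := L.kp_nonneg (n + 1) a
      have h4 := L.kp_up (n + 1) a
      have h5 : (2 * L.S / 2 ^ (n + 1)) ^ 2 ≤ (2 * L.S / 2 ^ n) ^ 2 := by
        have h6 : 2 * L.S / 2 ^ (n + 1) = (2 * L.S / 2 ^ n) / 2 := by
          rw [pow_succ]
          ring
        rw [h6, div_pow]
        have h7 := sq_nonneg (2 * L.S / 2 ^ n)
        linarith
      rw [abs_le]
      constructor <;> linarith
    · rw [abs_zero]
      exact sq_nonneg _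

/-- `ζ ≥ 0` -/
theorem digOf_zt0 (hm : 12 * L.B.D ≤ 2 ^ L.m * L.B.ep) {n : ℕ}
    (hn : 8 * L.D * 2 ^ n ≤ L.ep * 2 ^ L.nf) (N : Finset T) (v : T → X) (x : T) (a : X) :
    0 ≤ (digOf L lam n N v).zt x a := by
  change 0 ≤ if x ∈ N ∧ a ∈ cl (L.q n) (v x) then lam ^ 2 * (L.kp n (v x) - L.kp (n + 1) a) else 0
  split_ifs with h
  · have h1 : L.kp n (v x) = L.kp n a := cV_congr _ _ (mem_cl.1 h.2).symm
    have h2 := L.kp_anti hm hn a
    rw [h1]
    exact mul_nonneg (sq_nonneg _) (by linarith)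
  · exact le_rfl

/-- sites of `N`: the new potential and variance -/
theorem digOf_hh {n : ℕ} {N : Finset T} {v : T → X} {x : T} (hx : x ∈ N) {a : X}
    (ha : L.q n a = L.q n (v x)) :
    (digOf L lam n N v).xi x a =
      (sysOf L lam E eta).hh (n + 1) a - (sysOf L lam E eta).hh n (v x) := by
  change (if x ∈ N ∧ a ∈ cl (L.q n) (v x) then lam * (L.h (n + 1) a - L.h n (v x)) else 0) =
    lam * L.h (n + 1) a - lam * L.h n (v x)
  rw [if_pos ⟨hx, mem_cl.2 ha⟩]
  ring

theorem digOf_kk {n : ℕ} {N : Finset T} {v : T → X} {x : T} (hx : x ∈ N) {a : X}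
    (ha : L.q n a = L.q n (v x)) :
    (digOf L lam n N v).zt x a =
      (sysOf L lam E eta).kk n (v x) - (sysOf L lam E eta).kk (n + 1) a := by
  change (if x ∈ N ∧ a ∈ cl (L.q n) (v x) then lam ^ 2 * (L.kp n (v x) - L.kp (n + 1) a) else 0) =
    lam ^ 2 * L.kp n (v x) - lam ^ 2 * L.kp (n + 1) a
  rw [if_pos ⟨hx, mem_cl.2 ha⟩]
  ring

theorem digOf_off {n : ℕ} {N : Finset T} {v : T → X} {x : T} (hx : x ∉ N) (a : X) :
    (digOf L lam n N v).xi x a = 0 ∧ (digOf L lam n N v).zt x a = 0 := by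
  constructor
  · change (if x ∈ N ∧ a ∈ cl (L.q n) (v x) then _ else (0 : ℝ)) = 0
    rw [if_neg fun h => hx h.1]
  · change (if x ∈ N ∧ a ∈ cl (L.q n) (v x) then _ else (0 : ℝ)) = 0
    rw [if_neg fun h => hx h.1]

end dig

section prob

variable {T : Type} [Fintype T] [DecidableEq T] [DecidableEq X]

/-- the class of `v`: equal to `v` off `act`, the same digits of level `lev x` on `act` -/
def KCl (L : Law X) (lev : T → ℕ) (act : Finset T) (v : T → X) (x : T) : Set X :=
  {a | (x ∈ act → L.q (lev x) a = L.q (lev x) (v x)) ∧ (x ∉ act → a = v x)}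

theorem self_KCl (L : Law X) (lev : T → ℕ) (act : Finset T) (v : T → X) :
    v ∈ Bx (KCl L lev act v) := fun _ => ⟨fun _ => rfl, fun _ => rfl⟩

theorem isLaw_const (L : Law X) : IsLaw (fun _ : T => L.p) :=
  ⟨fun _ a => (L.p0 a).le, fun _ => L.p1⟩

/-- CONDITIONAL WEIGHT OF AN EVENT DECIDED BY THE DIGITS OF THE SITES OF `N`, all at level `n` -/
theorem Pr_step (L : Law X) (lam : ℝ) {lev : T → ℕ} {act N : Finset T} {v : T → X} {n : ℕ}
    (hN : N ⊆ act) (hlev : ∀ x ∈ N, lev x = n) {E : Set (T → X)}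
    (hE : Dep (KCl L lev act v) N E) [DecidablePred fun ω : T → X => N.piecewise ω v ∈ E] :
    Pr (fun _ : T => L.p) (E ∩ Bx (KCl L lev act v)) =
      Pr (fun _ : T => L.p) (Bx (KCl L lev act v)) *
        ∑ ω : T → X, (∏ x, (digOf L lam n N v).P x (ω x)) *
          (if N.piecewise ω v ∈ E then 1 else 0) := by
  classical
  have h := Pr_box_eq (isLaw_const (T := T) L) (self_KCl L lev act v) (fun x => L.p0 (v x)) hE
    (digOf L lam n N v).P ?_ ?_
  · rw [h]
    congr 1
    refine sum_congr rfl fun ω _ => ?_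
    congr 1
    split_ifs <;> rfl
  · intro x hx a
    change (if x ∈ N then claw L n (v x) a else _) = _
    rw [if_pos hx]
    unfold claw cl1 cm
    have hmem : ∀ a, a ∈ KCl L lev act v x ↔ a ∈ cl (L.q n) (v x) := by
      intro a
      rw [mem_cl]
      constructor
      · intro h1
        have := h1.1 (hN hx)
        rwa [hlev x hx] at this
      · intro h1
        refine ⟨fun _ => ?_, fun h2 => absurd (hN hx) h2⟩
        rw [hlev x hx]
        exact h1
    have hset : univ.filter (fun a => a ∈ KCl L lev act v x) = cl (L.q n) (v x) := by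
      ext a
      simp only [mem_filter, mem_univ, true_and]
      exact hmem a
    rw [hset]
    by_cases ha : a ∈ cl (L.q n) (v x)
    · rw [if_pos ha, if_pos ((hmem a).2 ha)]
    · rw [if_neg ha, if_neg fun h1 => ha ((hmem a).1 h1)]
  · intro x hx
    exact (digOf_ok (T := T) L (le_refl (0 : ℝ)) n N v).P1 x

end prob

end Pool.Agent.AND
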