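import Pool.Agent.AND.AnaDef

/-! # AND / Stage: THE MEDIUM IS GOOD SURELY AT EVERY TIME

`Dat.Inv n F π v` = the medium of the profile `π` at `v` is good with the tolerances of the level `n` and the fields `F`, the statuses are
disjoint, static sites satisfy `cI κ_x ≤ Im sg_x`.  `Dat.NumS` = the (numerical) hypotheses.
`inv_cur`, `inv_icur`, `inv_run` : `Inv` at every time of the algorithm, for every configuration.
-/

open Matrix Finset

noncomputable section

namespace Pool.Agent.AND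

open Pool.Agent.Kin Pool.Agent.APS

variable {d L : ℕ} [NeZero L] {X : Type}

/-- insertions one by one against insertions with multiplicity -/
theorem Fld.insD_le {P : Par} (hP : P.Pos) (n s m : ℕ) (F : Fld (Tor d L))
    (an : Finset (Tor d L) → Tor d L) (don : Finset (Finset (Tor d L)))
    (C : Finset (Tor d L)) (hC : ∀ D ∈ don, an D ∈ C)
    (hm : ∀ c ∈ C, (don.filter fun D => an D = c).card ≤ m) :
    (F.insD P n s an don).Le (F.ins P n s m C) := by
  have key : ∀ φ : Tor d L → ℝ, (∀ c, 0 ≤ φ c) →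
      ∑ D ∈ don, φ (an D) ≤ m * ∑ c ∈ C, φ c := by
    intro φ hφ
    rw [← Finset.sum_fiberwise_of_maps_to hC, Finset.mul_sum]
    refine Finset.sum_le_sum fun c hc => ?_
    have e1 : ∑ D ∈ don.filter (fun D => an D = c), φ (an D) =
        ∑ D ∈ don.filter (fun D => an D = c), φ c :=
      Finset.sum_congr rfl fun D hD => by rw [(Finset.mem_filter.1 hD).2]
    rw [e1, Finset.sum_const, nsmul_eq_mul]
    refine mul_le_mul_of_nonneg_right ?_ (hφ c)
    exact_mod_cast hm c hc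
  have hk := hP.kap n
  have he := hP.eta
  refine ⟨fun x => ?_, fun x => ?_, fun x => ?_, fun x => ?_, fun x y => ?_⟩
  · exact add_le_add_right (key _ fun c => ph_nonneg hk s x c) _
  · exact add_le_add_right (key _ fun c => ph_nonneg hk s x c) _
  · exact add_le_add_right
      (mul_le_mul_of_nonneg_left (key _ fun c => ph_nonneg hk s x c) (by positivity)) _
  · exact add_le_add_right
      (mul_le_mul_of_nonneg_left (key _ fun c => ph_nonneg hk s x c) (by positivity)) _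
  · exact add_le_add_right (key _ fun c => ph5i_nonneg hk s x y c) _

theorem Fld.le_insD {P : Par} (hP : P.Pos) (n s : ℕ) (F : Fld (Tor d L))
    (an : Finset (Tor d L) → Tor d L) (don : Finset (Finset (Tor d L))) :
    F.Le (F.insD P n s an don) := by
  have hk := hP.kap n
  have he := hP.eta
  have hs : ∀ e x, 0 ≤ ∑ C ∈ don, ph (P.kap n) e P.b s x (an C) := fun e x =>
    Finset.sum_nonneg fun c _ => ph_nonneg hk s x _
  refine ⟨fun x => ?_, fun x => ?_, fun x => ?_, fun x => ?_, fun x y => ?_⟩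
  · exact le_add_of_nonneg_right (hs _ x)
  · exact le_add_of_nonneg_right (hs _ x)
  · exact le_add_of_nonneg_right (mul_nonneg (by positivity) (hs _ x))
  · exact le_add_of_nonneg_right (mul_nonneg (by positivity) (hs _ x))
  · exact le_add_of_nonneg_right (Finset.sum_nonneg fun c _ => ph5i_nonneg hk s x y _)

namespace Dat

variable (D : Dat d L X)

/-- the fields `F` are admissible at the level `n` -/
structure FOk (n : ℕ) (F : Fld (Tor d L)) : Prop where
  pos : F.Pos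
  del : ∀ x, D.P.del0 + F.err x + D.cI ≤ D.f.g0.im
  C1 : ∀ x, ‖D.f.g0‖ + D.P.del0 + F.err x ≤ D.f.C1
  dl : ∀ x, (D.P.e0 + D.P.Ce * F.ae x) * ((D.P.eta + D.P.kap n * D.f.C1) * D.f.C1) ≤ D.P.dS

/-- invariants of a profile -/
structure Inv (n : ℕ) (F : Fld (Tor d L)) (π : Prof (Tor d L)) (v : Tor d L → X) : Prop where
  good : D.GoodAt n F π v
  ar : Disjoint π.act π.rd
  ai : Disjoint π.act π.ine
  ri : Disjoint π.rd π.ine
  st : ∀ x, x ∉ π.act → x ∉ π.rd → x ∉ π.ine → D.cI * D.Y.kk (π.lev x) (v x) ≤ (π.sg x).im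

/-- basic numerical hypotheses -/
structure NumB : Prop where
  P : D.P.Pos
  S : D.Sf.Pos
  eta : D.Y.eta = D.P.eta
  eta0 : 0 < D.P.eta
  kk0 : ∀ n a, 0 ≤ D.Y.kk n a
  kkhi : ∀ n a, D.Y.kk n a ≤ D.P.kap n
  cI : 0 ≤ D.cI
  C1 : 0 ≤ D.f.C1
  cs : D.P.cs ≤ D.P.cl * D.cI

variable {D}

section facts

variable {n : ℕ} {F : Fld (Tor d L)} {π : Prof (Tor d L)} {v : Tor d L → X}
  {M : Med (Tor d L)} (hN : D.NumB) (hF : D.FOk n F)
  (hG : Good D.f (tolAt D.P D.Sf n F π v M) M)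

include hF hG in
theorem io_ge {x : Tor d L} (hx : x ∉ M.U) : D.cI ≤ (rsc (H0T d L) M.b x x).im := by
  have h1 : ‖rsc (H0T d L) M.b x x - D.f.g0‖ ≤ D.P.del0 + F.err x := hG.h1 x hx
  have h2 := (Complex.abs_im_le_norm (rsc (H0T d L) M.b x x - D.f.g0)).trans h1
  have h3 := (abs_le.1 h2).1
  rw [Complex.sub_im] at h3
  have h4 := hF.del x
  linarith

include hF hG in
theorem io_le {x : Tor d L} (hx : x ∉ M.U) : (rsc (H0T d L) M.b x x).im ≤ D.f.C1 := by
  have h1 : ‖rsc (H0T d L) M.b x x - D.f.g0‖ ≤ D.P.del0 + F.err x := hG.h1 x hx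
  have h2 := (Complex.abs_im_le_norm (rsc (H0T d L) M.b x x - D.f.g0)).trans h1
  have h3 := (abs_le.1 h2).2
  rw [Complex.sub_im] at h3
  have h4 := hF.C1 x
  have h5 := (le_abs_self _).trans (Complex.abs_im_le_norm D.f.g0)
  linarith

include hN hF hG in
theorem io_nonneg {x : Tor d L} (hx : x ∉ M.U) : 0 ≤ (rsc (H0T d L) M.b x x).im :=
  hN.cI.trans (io_ge hF hG hx)

include hN hF hG in
theorem k_nonneg (x : Tor d L) : 0 ≤ M.k x := by
  by_cases hA : x ∈ M.A
  · have h1 : D.P.cl * D.P.kap (n + 1) ≤ M.k x := hG.klo x hA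
    exact (mul_nonneg hN.P.cl (hN.P.kap _).le).trans h1
  · rw [hG.k0 x hA]

include hN hF hG in
theorem eta_nonneg (x : Tor d L) : 0 ≤ M.eta x := by
  by_cases hU : x ∈ M.U
  · rw [hG.eU x hU]
  · by_cases hA : x ∈ M.A
    · rw [hG.eA x hA]
      exact add_nonneg hN.P.eta (mul_nonneg (k_nonneg hN hF hG x) (io_nonneg hN hF hG hU))
    · by_cases hI : x ∈ M.I
      · rw [hG.eI x hI]
        exact hN.P.eta
      · have h1 : D.P.eta + D.P.cs * D.P.kap (n + 1) ≤ M.eta x := hG.eS x hA hU hI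
        have h2 := hN.P.eta
        have h3 := mul_nonneg hN.P.cs (hN.P.kap (n + 1)).le
        linarith

include hN hF hG in
theorem eta_ge {x : Tor d L} (hA : x ∈ M.A) : D.P.eta ≤ M.eta x := by
  rw [hG.eA x hA]
  exact le_add_of_nonneg_right
    (mul_nonneg (k_nonneg hN hF hG x) (io_nonneg hN hF hG (Finset.disjoint_left.1 hG.AU hA)))

include hN hF hG in
theorem m_le {x : Tor d L} (hA : x ∈ M.A) :
    M.eta x * (rsc (H0T d L) M.b x x).im ≤ (D.P.eta + D.P.kap n * D.f.C1) * D.f.C1 := by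
  have hU := Finset.disjoint_left.1 hG.AU hA
  have h0 := io_nonneg hN hF hG hU
  have h1 := io_le hF hG hU
  have h2 : M.k x ≤ D.P.kap n := hG.khi x hA
  have h3 := k_nonneg hN hF hG x
  have h4 : M.eta x = D.P.eta + M.k x * (rsc (H0T d L) M.b x x).im := hG.eA x hA
  have h5 : M.k x * (rsc (H0T d L) M.b x x).im ≤ D.P.kap n * D.f.C1 :=
    mul_le_mul h2 h1 h0 (hN.P.kap n).le
  have h6 := hN.P.eta
  refine mul_le_mul (by rw [h4]; linarith) h1 h0 ?_
  have := mul_nonneg (hN.P.kap n).le (h0.trans h1)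
  linarith

end facts

/-- comparison of the fields -/
theorem GoodAt.mono_fld (hN : D.NumB) {n : ℕ} {F F' : Fld (Tor d L)} (hF : D.FOk n F)
    (hle : F.Le F') {π : Prof (Tor d L)} {v : Tor d L → X} (h : D.GoodAt n F π v) :
    D.GoodAt n F' π v := by
  obtain ⟨M, h1, h2⟩ := h
  refine ⟨M, h1, h2.mono (tolAt_le_fld hN.P hN.S hF.pos hle D.f n π v h2
    (fun x hx => io_nonneg hN hF h2 hx) (fun x => eta_nonneg hN hF h2 x)) fun x hx => ?_⟩
  exact mul_nonneg (eta_nonneg hN hF h2 x) (io_nonneg hN hF h2 hx)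

/-- change of the level -/
theorem GoodAt.level (hN : D.NumB) {n : ℕ} {F : Fld (Tor d L)} (hF : D.FOk n F)
    {π : Prof (Tor d L)} {v : Tor d L → X} (h : D.GoodAt n F π v)
    (hk : ∀ x ∈ π.act, D.Y.kk (π.lev x) (v x) ≤ D.P.kap (n + 1)) :
    D.GoodAt (n + 1) F π v := by
  obtain ⟨M, h1, h2⟩ := h
  refine ⟨M, h1, h2.mono (tolAt_le_level hN.P hN.S hF.pos n π v ?_
    (fun x hx => io_nonneg hN hF h2 hx) (fun x => eta_nonneg hN hF h2 x)) fun x hx => ?_⟩
  · intro x hx
    rw [h1.A] at hx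
    rw [h1.k]
    unfold kp
    rw [if_pos hx]
    exact hk x hx
  · exact mul_nonneg (eta_nonneg hN hF h2 x) (io_nonneg hN hF h2 hx)

theorem Inv.sg_nonneg (hN : D.NumB) {n : ℕ} {F : Fld (Tor d L)} {π : Prof (Tor d L)}
    {v : Tor d L → X} (h : D.Inv n F π v) (x : Tor d L) (h1 : x ∉ π.act) (h2 : x ∉ π.rd)
    (h3 : x ∉ π.ine) : 0 ≤ (π.sg x).im :=
  (mul_nonneg hN.cI (hN.kk0 _ _)).trans (h.st x h1 h2 h3)

/-- the medium of a profile with `Inv` -/
theorem Inv.med_eq (hN : D.NumB) {n : ℕ} {F : Fld (Tor d L)} {π : Prof (Tor d L)}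
    {v : Tor d L → X} (h : D.Inv n F π v) {M : Med (Tor d L)}
    (hM : IsMed (H0T d L) D.Y π v M) : med (H0T d L) D.Y π v = M :=
  AND.med_eq H0T_realSym hM (by rw [hN.eta]; exact hN.eta0) h.ar (fun x _ => hN.kk0 _ _)
    (h.sg_nonneg hN)

/-- FREEZING -/
theorem Inv.freeze (hN : D.NumB) {n : ℕ} {F : Fld (Tor d L)} (hF : D.FOk n F)
    {π : Prof (Tor d L)} {v : Tor d L → X} (h : D.Inv n F π v) (N : Finset (Tor d L)) :
    D.Inv n F (ANQ.freeze D.ana π v N) v := by
  obtain ⟨M, hM, hG⟩ := h.good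
  have hm := h.med_eq hN hM
  have hs : ∀ x, D.ana.sgv π v x = (M.k x : ℂ) * rsc (H0T d L) M.b x x := by
    intro x
    show sgMed (H0T d L) D.Y π v x = _
    unfold sgMed
    rw [hm]
  have e : ANQ.freeze D.ana π v N =
      π.freeze Nᶜ fun x => (M.k x : ℂ) * rsc (H0T d L) M.b x x := by
    have e1 : π.act ∩ N = π.act \ Nᶜ := by
      ext x
      simp
    have e2 : (fun x => if x ∈ π.act ∧ x ∉ N then D.ana.sgv π v x else π.sg x) =
        fun x => if x ∈ π.act ∩ Nᶜ then (M.k x : ℂ) * rsc (H0T d L) M.b x x else π.sg x := by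
      funext x
      rw [hs]
      simp only [Finset.mem_inter, Finset.mem_compl]
    unfold ANQ.freeze Prof.freeze
    rw [e1, e2]
  refine ⟨?_, ?_, ?_, h.ri, ?_⟩
  · rw [e]
    refine ⟨M.freeze Nᶜ, hM.freeze h.ai h.ar Nᶜ, ?_⟩
    refine hG.freeze_tolAt hN.P hN.S hF.pos _ (fun x hx => io_nonneg hN hF hG hx)
      (fun x => eta_nonneg hN hF hG x) (fun x hx => eta_ge hN hF hG hx) Nᶜ ?_ ?_
    · intro x _ hA
      have hU := Finset.disjoint_left.1 hG.AU hA
      have h1 : D.P.cl * D.P.kap (n + 1) ≤ M.k x := hG.klo x hA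
      have h2 := io_ge hF hG hU
      have h3 := (hN.P.kap (n + 1)).le
      calc D.P.cs * D.P.kap (n + 1) ≤ D.P.cl * D.cI * D.P.kap (n + 1) :=
            mul_le_mul_of_nonneg_right hN.cs h3
        _ = D.P.cl * D.P.kap (n + 1) * D.cI := by ring
        _ ≤ M.k x * (rsc (H0T d L) M.b x x).im :=
            mul_le_mul h1 h2 hN.cI (k_nonneg hN hF hG x)
    · intro x _ hA
      have h1 : 0 ≤ D.P.e0 + D.P.Ce * F.ae x :=
        add_nonneg hN.P.e0 (mul_nonneg hN.P.Ce (hF.pos.ae x))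
      exact (mul_le_mul_of_nonneg_left (m_le hN hF hG hA) h1).trans (hF.dl x)
  · exact h.ar.mono_left Finset.inter_subset_left
  · exact h.ai.mono_left Finset.inter_subset_left
  · intro x hA hR hI
    show D.cI * D.Y.kk (π.lev x) (v x) ≤
      (if x ∈ π.act ∧ x ∉ N then D.ana.sgv π v x else π.sg x).im
    have hA' : ¬ (x ∈ π.act ∧ x ∈ N) := fun hc => hA (Finset.mem_inter.2 hc)
    by_cases hx : x ∈ π.act
    · have hxN : x ∉ N := fun hc => hA' ⟨hx, hc⟩
      rw [if_pos ⟨hx, hxN⟩, hs, Complex.im_ofReal_mul]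
      have hA1 : x ∈ M.A := by rw [hM.A]; exact hx
      have hU := Finset.disjoint_left.1 hG.AU hA1
      have e3 : M.k x = D.Y.kk (π.lev x) (v x) := by
        rw [hM.k]
        unfold kp
        rw [if_pos hx]
      rw [e3, mul_comm]
      exact mul_le_mul_of_nonneg_left (io_ge hF hG hU) (hN.kk0 _ _)
    · rw [if_neg fun hc => hx hc.1]
      exact h.st x hx hR hI

/-- AN ACCEPTED STEP -/
theorem Inv.up {n n' : ℕ} {F F' : Fld (Tor d L)} {π : Prof (Tor d L)} {v : Tor d L → X}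
    (h : D.Inv n F π v) {j i : ℕ} (hg : D.GoodAt n' F' (D.g.up D.ana j i π v) v) :
    D.Inv n' F' (D.g.up D.ana j i π v) v := by
  have hW : ∀ x, x ∈ ANQ.weak D.ana (D.g.sn j i + 1) v (π.act ∩ D.g.cell j (D.g.sL j i)) →
      x ∈ π.act := by
    intro x hx
    unfold ANQ.weak at hx
    simp only [Finset.mem_filter, Finset.mem_inter] at hx
    exact hx.1.1
  refine ⟨hg, h.ar.mono_left Finset.sdiff_subset, ?_, ?_, ?_⟩
  · show Disjoint (π.act \ _) (π.ine ∪ _)
    rw [Finset.disjoint_union_right]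
    exact ⟨h.ai.mono_left Finset.sdiff_subset, Finset.sdiff_disjoint⟩
  · show Disjoint π.rd (π.ine ∪ _)
    rw [Finset.disjoint_union_right]
    refine ⟨h.ri, Finset.disjoint_left.2 fun x hx hx' => ?_⟩
    exact Finset.disjoint_left.1 h.ar (hW x hx') hx
  · intro x hA hR hI
    have hA' : x ∉ π.act := by
      intro hx
      by_cases hw : x ∈ ANQ.weak D.ana (D.g.sn j i + 1) v
          (π.act ∩ D.g.cell j (D.g.sL j i))
      · exact hI (Finset.mem_union_right _ hw)
      · exact hA (Finset.mem_sdiff.2 ⟨hx, hw⟩)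
    have hI' : x ∉ π.ine := fun hx => hI (Finset.mem_union_left _ hx)
    have e : (D.g.up D.ana j i π v).lev x = π.lev x := by
      show (if x ∈ π.act ∩ _ then _ else _) = _
      rw [if_neg fun hc => hA' (Finset.mem_inter.1 hc).1]
    rw [e]
    exact h.st x hA' hR hI'

/-- A COMPLETE READING -/
theorem Inv.read {n n' : ℕ} {F F' : Fld (Tor d L)} {π : Prof (Tor d L)} {v : Tor d L → X}
    (h : D.Inv n F π v) {nf : ℕ} {U : Finset (Tor d L)}
    (hg : D.GoodAt n' F' (ANQ.read π nf U) v) : D.Inv n' F' (ANQ.read π nf U) v := by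
  refine ⟨hg, ?_, ?_, ?_, ?_⟩
  · show Disjoint (π.act \ U) (π.rd ∪ U)
    rw [Finset.disjoint_union_right]
    exact ⟨h.ar.mono_left Finset.sdiff_subset, Finset.sdiff_disjoint⟩
  · exact h.ai.mono Finset.sdiff_subset Finset.sdiff_subset
  · show Disjoint (π.rd ∪ U) (π.ine \ U)
    rw [Finset.disjoint_union_left]
    exact ⟨h.ri.mono_right Finset.sdiff_subset, Finset.disjoint_sdiff⟩
  · intro x hA hR hI
    have hU : x ∉ U := fun hx => hR (Finset.mem_union_right _ hx)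
    have hR' : x ∉ π.rd := fun hx => hR (Finset.mem_union_left _ hx)
    have hA' : x ∉ π.act := fun hx => hA (Finset.mem_sdiff.2 ⟨hx, hU⟩)
    have hI' : x ∉ π.ine := fun hx => hI (Finset.mem_sdiff.2 ⟨hx, hU⟩)
    have e1 : (ANQ.read π nf U).lev x = π.lev x := if_neg hU
    have e2 : (ANQ.read π nf U).sg x = π.sg x := if_neg hU
    rw [e1, e2]
    exact h.st x hA' hR' hI'

theorem Inv.mono_fld (hN : D.NumB) {n : ℕ} {F F' : Fld (Tor d L)} (hF : D.FOk n F)
    (hle : F.Le F') {π : Prof (Tor d L)} {v : Tor d L → X} (h : D.Inv n F π v) :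
    D.Inv n F' π v :=
  ⟨h.good.mono_fld hN hF hle, h.ar, h.ai, h.ri, h.st⟩

theorem Inv.level (hN : D.NumB) {n : ℕ} {F : Fld (Tor d L)} (hF : D.FOk n F)
    {π : Prof (Tor d L)} {v : Tor d L → X} (h : D.Inv n F π v)
    (hl : ∀ x ∈ π.act, n + 1 ≤ π.lev x) : D.Inv (n + 1) F π v := by
  refine ⟨h.good.level hN hF fun x hx => ?_, h.ar, h.ai, h.ri, h.st⟩
  refine (hN.kkhi _ _).trans ?_
  exact antitone_nat_of_succ_le hN.P.anti (hl x hx)

variable (D)

/-- all hypotheses of the deterministic part, `Jm` super-stages -/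
structure NumS (Jm : ℕ) : Prop extends D.NumB where
  cor : ∀ j x, D.g.cor j (D.g.cor j x) = D.g.cor j x
  lvm : Monotone D.g.lv
  fi : ∀ j < Jm, ∀ i ≤ D.g.ns j, D.FOk (D.g.sn j i) (D.fi j i)
  fi1 : ∀ j < Jm, ∀ i < D.g.ns j, D.FOk (D.g.sn j i) (D.fi j (i + 1))
  fs : ∀ j ≤ Jm, D.FOk (D.g.lv j) (D.fs j)
  mult : ∀ j < Jm, ∀ v k, ∀ c ∈ D.g.corners j,
    ((D.g.irun D.ana j k v).don.filter fun C => D.an j C = c).card ≤ D.mJ
  rt0 : D.rt 0 ∅
  rt_anti : ∀ j I I', I' ⊆ I → D.rt j I → D.rt j I'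
  rt_succ : ∀ j I, D.rt j I → D.rt (j + 1) I
  wk0 : ∀ a, ¬ D.wk (D.g.lv 0) a
  start : ∀ v, D.GoodAt (D.g.lv 0) D.F0 (D.g.start D.ana v).pi v

variable {D}

theorem an_mem (h : ∀ j x, D.g.cor j (D.g.cor j x) = D.g.cor j x) (j : ℕ)
    (C : Finset (Tor d L)) : D.an j C ∈ D.g.corners j := by
  rw [ANQ.Geo.mem_corners]
  unfold an
  split_ifs <;> exact h j _

section main

variable {Jm : ℕ} (hN : D.NumS Jm)
include hN

theorem nc_pos (j : ℕ) : 0 < D.g.nc j :=
  ANQ.Geo.nc_pos hN.cor j (Classical.arbitrary (Tor d L))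

omit hN in
theorem sn_zero (j : ℕ) : D.g.sn j 0 = D.g.lv j := by
  unfold ANQ.Geo.sn
  simp

theorem sn_ns (j : ℕ) : D.g.sn j (D.g.ns j) = D.g.lv (j + 1) := by
  unfold ANQ.Geo.sn ANQ.Geo.ns
  rw [Nat.mul_div_cancel _ (nc_pos hN j)]
  have h1 : D.g.lv j ≤ D.g.lv (j + 1) := hN.lvm (Nat.le_succ j)
  omega

/-- the invariant inside the reading of a super-stage -/
theorem inv_cur {j : ℕ} (hj : j < Jm) {S : ANQ.St (Tor d L)} {v : Tor d L → X}
    (hl : ∀ x ∈ S.pi.act, S.pi.lev x = D.g.lv j) (h0 : D.Inv (D.g.lv j) (D.fs j) S.pi v)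
    (hr : D.rt j S.pi.ine) (i : ℕ) (hi : i ≤ D.g.ns j) :
    D.Inv (D.g.sn j i) (D.fi j i) (D.g.cur D.ana j S v i).pi v ∧
      D.rt j (D.g.cur D.ana j S v i).pi.ine := by
  have hB := hN.toNumB
  induction i with
  | zero =>
    rw [sn_zero]
    exact ⟨h0.freeze hB (hN.fs j hj.le) _, hr⟩
  | succ i ih =>
    obtain ⟨ih1, ih2⟩ := ih (by omega)
    have hF := hN.fi j hj i (by omega)
    have hF1 := hN.fi1 j hj i (by omega)
    have hle : (D.fi j i).Le (D.fi j (i + 1)) := Fld.le_add hB.P _ _ _ _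
    -- the state after the step, with the old level
    have key : D.Inv (D.g.sn j i) (D.fi j (i + 1)) (D.g.cur D.ana j S v (i + 1)).pi v ∧
        D.rt j (D.g.cur D.ana j S v (i + 1)).pi.ine := by
      rw [ANQ.Geo.cur_succ]
      by_cases hf : D.g.sL j i ∈ (D.g.cur D.ana j S v i).fz
      · rw [ANQ.Geo.stp_of_mem hf]
        exact ⟨ih1.mono_fld hB hF hle, ih2⟩
      · by_cases ha : D.ana.ACC j i (D.g.cur D.ana j S v i).pi v
        · rw [ANQ.Geo.stp_of_acc hf ha]
          rw [acc_iff] at ha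
          exact ⟨ih1.up ha.2, ha.1⟩
        · rw [ANQ.Geo.stp_of_rej hf ha]
          exact ⟨(ih1.freeze hB hF _).mono_fld hB hF hle, ih2⟩
    refine ⟨?_, key.2⟩
    rcases ANQ.succ_div_mod (nc_pos hN j) i with ⟨-, h2, h3⟩ | ⟨-, -, h3⟩
    · have e : D.g.sn j (i + 1) = D.g.sn j i + 1 := by
        unfold ANQ.Geo.sn
        rw [h3, add_assoc]
      rw [e]
      refine key.1.level hB hF1 fun x hx => ?_
      rw [ANQ.Geo.cur_lev hN.cor j S hl v (i + 1) x hx]
      unfold ANQ.Geo.sn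
      rw [h3]
      omega
    · have e : D.g.sn j (i + 1) = D.g.sn j i := by
        unfold ANQ.Geo.sn
        rw [h3]
      rw [e]
      exact key.1

/-- the fields of the insertions are below the fields of the next super-stage -/
theorem fd_le {j : ℕ} (hj : j < Jm) (v : Tor d L → X) (k : ℕ) :
    (D.fd j (D.g.irun D.ana j k v).don).Le (D.fs (j + 1)) :=
  Fld.insD_le hN.P _ _ _ _ _ _ _ (fun C _ => an_mem hN.cor j C) (hN.mult j hj v k)

omit hN in
theorem FOk.anti {n : ℕ} {F F' : Fld (Tor d L)} (hB : D.NumB) (h : D.FOk n F')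
    (hle : F.Le F') (hp : F.Pos) : D.FOk n F where
  pos := hp
  del := fun x => by
    have h1 := hle.err x
    have h2 := h.del x
    linarith
  C1 := fun x => by
    have h1 := hle.err x
    have h2 := h.C1 x
    linarith
  dl := fun x => by
    refine le_trans ?_ (h.dl x)
    have h1 := mul_le_mul_of_nonneg_left (hle.ae x) hB.P.Ce
    have h3 := hB.C1
    have h2 : 0 ≤ (D.P.eta + D.P.kap n * D.f.C1) * D.f.C1 :=
      mul_nonneg (add_nonneg hB.P.eta (mul_nonneg (hB.P.kap n).le h3)) h3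
    exact mul_le_mul_of_nonneg_right (by linarith) h2

theorem fd_ok {j : ℕ} (hj : j < Jm) (v : Tor d L → X) (k : ℕ) :
    D.FOk (D.g.lv (j + 1)) (D.fd j (D.g.irun D.ana j k v).don) := by
  refine (hN.fs (j + 1) hj).anti hN.toNumB (fd_le hN hj v k) ?_
  exact (hN.fi j hj (D.g.ns j) le_rfl).pos.mono (Fld.le_insD hN.P _ _ _ _ _)

/-- the invariant inside the loop of the insertions -/
theorem inv_icur {j : ℕ} (hj : j < Jm) {v : Tor d L → X}
    (hl : ∀ x ∈ (D.g.run D.ana j v).pi.act, (D.g.run D.ana j v).pi.lev x = D.g.lv j)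
    (h0 : D.Inv (D.g.lv j) (D.fs j) (D.g.run D.ana j v).pi v)
    (hr : D.rt j (D.g.run D.ana j v).pi.ine) (k : ℕ) :
    D.Inv (D.g.lv (j + 1)) (D.fd j (D.g.irun D.ana j k v).don) (D.g.irun D.ana j k v).pi v ∧
      D.rt j (D.g.irun D.ana j k v).pi.ine := by
  have hB := hN.toNumB
  induction k with
  | zero =>
    have h1 := inv_cur hN hj hl h0 hr (D.g.ns j) le_rfl
    rw [sn_ns hN] at h1
    refine ⟨?_, h1.2⟩
    have hF := hN.fi j hj (D.g.ns j) le_rfl
    rw [sn_ns hN] at hF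
    exact h1.1.mono_fld hB hF (Fld.le_insD hB.P _ _ _ _ _)
  | succ k ih =>
    by_cases hk : k < (D.g.ilist D.ana j (D.g.run D.ana j v) v).length
    · have e : D.g.irun D.ana j (k + 1) v = D.g.istp D.ana j (D.g.run D.ana j v)
          ((D.g.ilist D.ana j (D.g.run D.ana j v) v)[k]) (D.g.irun D.ana j k v) v :=
        ANQ.Geo.icur_succ_of_lt j _ v k hk
      rw [e]
      set C := (D.g.ilist D.ana j (D.g.run D.ana j v) v)[k]
      by_cases hL : D.ana.LK j (D.g.run D.ana j v) (D.g.irun D.ana j k v).don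
          (D.g.irun D.ana j k v).pi C v
      · rw [ANQ.Geo.istp_of_pos hL]
        rw [lk_iff] at hL
        refine ⟨ih.1.read hL, ?_⟩
        exact hN.rt_anti _ _ _ Finset.sdiff_subset ih.2
      · rw [ANQ.Geo.istp_of_neg hL]
        exact ih
    · have e : D.g.irun D.ana j (k + 1) v = D.g.irun D.ana j k v :=
        ANQ.Geo.icur_succ_of_not_lt j _ v k hk
      rw [e]
      exact ih

/-- the invariant at the start of the next super-stage -/
theorem inv_next {j : ℕ} (hj : j < Jm) {v : Tor d L → X}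
    (hl : ∀ x ∈ (D.g.run D.ana j v).pi.act, (D.g.run D.ana j v).pi.lev x = D.g.lv j)
    (h0 : D.Inv (D.g.lv j) (D.fs j) (D.g.run D.ana j v).pi v)
    (hr : D.rt j (D.g.run D.ana j v).pi.ine) :
    D.Inv (D.g.lv (j + 1)) (D.fs (j + 1)) (D.g.run D.ana (j + 1) v).pi v ∧
      D.rt (j + 1) (D.g.run D.ana (j + 1) v).pi.ine := by
  have hB := hN.toNumB
  set k := D.g.ni D.ana j (D.g.run D.ana j v) v with hk
  obtain ⟨h1, h2⟩ := inv_icur hN hj hl h0 hr k
  have hF := fd_ok hN hj v k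
  refine ⟨?_, hN.rt_succ _ _ h2⟩
  exact (h1.freeze hB hF _).mono_fld hB hF (fd_le hN hj v k)

/-- THE MEDIUM IS GOOD SURELY at the start of every super-stage -/
theorem inv_run (hQ : D.QOk) (j : ℕ) (hj : j ≤ Jm) (v : Tor d L → X) :
    D.Inv (D.g.lv j) (D.fs j) (D.g.run D.ana j v).pi v ∧
      D.rt j (D.g.run D.ana j v).pi.ine := by
  have hL := Dat.loc hQ
  induction j with
  | zero =>
    have hw : ANQ.weak D.ana (D.g.lv 0) v Finset.univ = ∅ := by
      unfold ANQ.weak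
      ext x
      simp only [Finset.mem_filter, Finset.mem_univ, true_and, Finset.notMem_empty, iff_false]
      exact hN.wk0 _
    refine ⟨⟨hN.start v, ?_, ?_, ?_, ?_⟩, ?_⟩
    · exact Finset.disjoint_empty_right _
    · show Disjoint _ (ANQ.weak D.ana (D.g.lv 0) v Finset.univ)
      rw [hw]
      exact Finset.disjoint_empty_right _
    · exact Finset.disjoint_empty_left _
    · intro x hA _ _
      exfalso
      apply hA
      show x ∈ Finset.univ \ ANQ.weak D.ana (D.g.lv 0) v Finset.univ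
      rw [hw]
      simp
    · show D.rt 0 (ANQ.weak D.ana (D.g.lv 0) v Finset.univ)
      rw [hw]
      exact hN.rt0
  | succ j ih =>
    obtain ⟨h1, h2⟩ := ih (by omega)
    exact inv_next hN hj (ANQ.Geo.run_lev hN.cor hL j v) h1 h2

/-- THE MEDIUM IS GOOD SURELY inside the reading of every super-stage -/
theorem inv_crun (hQ : D.QOk) (j : ℕ) (hj : j < Jm) (i : ℕ) (hi : i ≤ D.g.ns j)
    (v : Tor d L → X) :
    D.Inv (D.g.sn j i) (D.fi j i) (D.g.crun D.ana j i v).pi v ∧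
      D.rt j (D.g.crun D.ana j i v).pi.ine := by
  obtain ⟨h1, h2⟩ := inv_run hN hQ j hj.le v
  exact inv_cur hN hj (ANQ.Geo.run_lev hN.cor (Dat.loc hQ) j v) h1 h2 i hi

/-- THE MEDIUM IS GOOD SURELY inside the loop of the insertions -/
theorem inv_irun (hQ : D.QOk) (j : ℕ) (hj : j < Jm) (k : ℕ) (v : Tor d L → X) :
    D.Inv (D.g.lv (j + 1)) (D.fd j (D.g.irun D.ana j k v).don) (D.g.irun D.ana j k v).pi v ∧
      D.rt j (D.g.irun D.ana j k v).pi.ine := by
  obtain ⟨h1, h2⟩ := inv_run hN hQ j hj.le v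
  exact inv_icur hN hj (ANQ.Geo.run_lev hN.cor (Dat.loc hQ) j v) h1 h2 k

end main

end Dat

end Pool.Agent.AND
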