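import Pool.Agent.APS.SCWard
import Pool.Agent.ANM.GeoTorus
import Pool.Agent.ANF.Heat.Torus

/-! # AND / Good: THE CENTRAL DEFINITIONS of the Anderson project (MP_28b024_mp), v2 of and_full.md

`T = Tor d L` the torus, `H0T d L` the free operator.  Everything is on the full torus; `U` = read sites (holes, `η = 0`),
`X = Uᶜ` (`M.nr`), `A ⊆ X` = active sites, the others (`X \ A`) are static.

* `Sys`  : energy, absorption `η_*`, digits.           * `Prof` : profile = status of the sites, what the algorithm manipulates.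
* `Med`  : medium = `(A, U, k, b)`, `G = rsc (H0T d L) b`, `η_x = -Im b_x`, `ι_x = Im G_xx`, `m_x = η_x ι_x`.
* `IsMed Y π v M` : `M` is the SELF-CONSISTENT medium of the profile `π` at the configuration `v`.
* `Good` : the good medium, (H1) - (H5) of and_full.md section 2 (uniform law: (H3) in helper78's form, the number `φ` cancels).

SEQUENTIAL ALGORITHM (helper47): in the middle of a mini-stage (some cells read, others not) `t.k` is the UPPER level `κ_n`, `t.kl` the
lower level `κ_{n+1}`.  (H3): pairs of weights `(a, z)`, `|∑_A R_xy a_y| ≤ ∑_X S_xy z_y` (helper78): preserved exactly by the classical flow for any speeds, all errors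
are added to `z`; uniform law: one pair, `a = ι`, `z = ι 1_{X \ A} + ε`.  Used through `Tol.In.h3` and Ward: it gives
`∑_A κ_y ι_y (Re G_xy)² ≤ (1 - δ/2) ι_x`  (write `κ ι = φ a + (κ ι - φ a)`; `∑_A κ ι (S + Re R) ≤ ∑_X (2 κ ι - φ a + φ z) S ≤ (2-δ) ι_x`).
-/

open Matrix Finset

noncomputable section

namespace Pool.Agent.AND

open Pool.Agent.Kin Pool.Agent.APS

/-- energy `E`, absorption `η_*` of the non-read sites, digits: `hh n a`, `kk n a` = potential and remaining variance at the level `n`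
of the cell `a` of the final level (both include the coupling constant) -/
structure Sys (X : Type) where
  E : ℝ
  eta : ℝ
  hh : ℕ → X → ℝ
  kk : ℕ → X → ℝ

/-- profile: level of the potential, active sites, read sites (holes), inert sites (weak sites of general laws: completely read, but they
keep `η = η_*`; empty for the uniform law), self energies of the static sites (used off `act`, `rd`, `ine`) -/
structure Prof (T : Type) where
  lev : T → ℕ
  act : Finset T
  rd : Finset T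
  ine : Finset T
  sg : T → ℂ

/-- medium: active sites, read sites, inert sites, levels, diagonal of the inverse Green function minus `H0` -/
structure Med (T : Type) where
  A : Finset T
  U : Finset T
  I : Finset T
  k : T → ℝ
  b : T → ℂ

section med

variable {T X : Type} [Fintype T] [DecidableEq T]

/-- levels of a profile -/
def kp (Y : Sys X) (π : Prof T) (v : T → X) (x : T) : ℝ :=
  if x ∈ π.act then Y.kk (π.lev x) (v x) else 0

/-- diagonal of a profile without the self-consistent self energies -/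
def cp (Y : Sys X) (π : Prof T) (v : T → X) (x : T) : ℂ :=
  (Y.hh (π.lev x) (v x) : ℂ) - (Y.E : ℂ) -
    (if x ∈ π.rd then 0 else
      (Y.eta : ℂ) * Complex.I + (if x ∈ π.act ∨ x ∈ π.ine then 0 else π.sg x))

/-- `M` is the self-consistent medium of the profile `π` at `v` for the free operator `H` -/
structure IsMed (H : Matrix T T ℂ) (Y : Sys X) (π : Prof T) (v : T → X) (M : Med T) : Prop where
  A : M.A = π.act
  U : M.U = π.rd
  I : M.I = π.ine
  k : M.k = kp Y π v
  b : ∀ x, M.b x = cp Y π v x - (kp Y π v x : ℂ) * rsc H M.b x x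
  unit : IsUnit (H + diagonal M.b).det
  pos : ∀ x, x ∈ π.act → 0 < (rsc H M.b x x).im

namespace Med

variable (M : Med T)

/-- the non-read sites -/
def nr : Finset T := M.Uᶜ

/-- absorption -/
def eta (x : T) : ℝ := -(M.b x).im

end Med

/-- the form `Q(u) = (1/2) ∑_{x,y ∈ X} η_x |G_xy|² η_y (u_x - u_y)²` -/
def QF (H : Matrix T T ℂ) (M : Med T) (u : T → ℝ) : ℝ :=
  (1 / 2) * ∑ x ∈ M.nr, ∑ y ∈ M.nr, M.eta x * ‖rsc H M.b x y‖ ^ 2 * M.eta y * (u x - u y) ^ 2

end med

/-- fixed constants: `g0` = homogeneous diagonal, `s`, `r0` = exponent and starting distance of (H5) -/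
structure Fix where
  g0 : ℂ
  c1 : ℝ
  C1 : ℝ
  s : ℝ
  r0 : ℝ

/-- tolerances, LOCAL (functions of the site / bond / pair), because the sequential algorithm changes them only near the cell that is read:
`k` upper level, `kl` lower level of the active sites, `eta` = `η_*`, `st` = lower bound of the absorption of the static sites,
`del` (H1), `tau` (H2), `Ks`, `a`, `z` weights of (H3) (uniform law: one `K`, `a = ι` on `A`, `z = ι 1_{X \ A} + ε`), `D` bond weights and `dl`
of (H4low), `C0` bond weights of (H4up), `g5` entries (H5).  (The weights may be chosen depending on the medium.) -/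
structure Tol (d L : ℕ) where
  k : ℝ
  kl : ℝ
  eta : ℝ
  st : ℝ
  del : Tor d L → ℝ
  tau : Tor d L → ℝ
  Ks : Finset ℕ
  a : ℕ → Tor d L → ℝ
  z : ℕ → Tor d L → ℝ
  D : Fin d → Tor d L → ℝ
  dl : Tor d L → ℝ
  C0 : Fin d → Tor d L → ℝ
  g5 : Tor d L → Tor d L → ℝ

variable {d L : ℕ} [NeZero L]

/-- Dirichlet form of the torus with bond weights; `DW 1 = ANF.Heat.DT` -/
def DW (w : Fin d → Tor d L → ℝ) (a : Tor d L → ℝ) : ℝ :=
  ∑ i : Fin d, ∑ x : Tor d L, w i x * (a (x + Pi.single i 1) - a x) ^ 2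

/-- THE GOOD MEDIUM (and_full.md section 2) on the torus `Tor d L`, with local tolerances -/
structure Good (f : Fix) (t : Tol d L) (M : Med (Tor d L)) : Prop where
  AU : Disjoint M.A M.U
  AI : Disjoint M.A M.I
  UI : Disjoint M.U M.I
  unit : IsUnit (H0T d L + diagonal M.b).det
  k0 : ∀ x, x ∉ M.A → M.k x = 0
  klo : ∀ x ∈ M.A, t.kl ≤ M.k x
  khi : ∀ x ∈ M.A, M.k x ≤ t.k
  /-- read sites do not absorb -/
  eU : ∀ x ∈ M.U, M.eta x = 0
  /-- active sites are self-consistent -/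
  eA : ∀ x ∈ M.A, M.eta x = t.eta + M.k x * (rsc (H0T d L) M.b x x).im
  /-- inert sites -/
  eI : ∀ x ∈ M.I, M.eta x = t.eta
  /-- static sites -/
  eS : ∀ x, x ∉ M.A → x ∉ M.U → x ∉ M.I → t.eta + t.st ≤ M.eta x
  eS1 : ∀ x, x ∉ M.U → M.eta x ≤ 1
  /-- (H1) -/
  h1 : ∀ x, x ∉ M.U → ‖rsc (H0T d L) M.b x x - f.g0‖ ≤ t.del x
  /-- (H2), unweighted sum over the active sites (`tau ≤ κ^(-7/8)`) -/
  h2 : ∀ x, x ∉ M.U → ∑ w ∈ M.A, ‖rsc (H0T d L) M.b x w‖ ^ 4 ≤ t.tau x
  /-- (H3): `|∑_A R_xy a_y| ≤ ∑_X S_xy z_y` for every `K` -/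
  h3 : ∀ K ∈ t.Ks, ∀ x, x ∉ M.U →
    ‖∑ y ∈ M.A, rsc (H0T d L) M.b x y ^ 2 * (t.a K y : ℂ)‖ ≤
      ∑ y ∈ M.nr, ‖rsc (H0T d L) M.b x y‖ ^ 2 * t.z K y
  /-- (H4low) -/
  h4l : ∀ u : Tor d L → ℝ, ∃ a : Tor d L → ℝ,
    DW t.D a + ∑ x ∈ M.nr, M.eta x * (rsc (H0T d L) M.b x x).im * (u x - a x) ^ 2 /
      (1 + t.dl x) ≤ QF (H0T d L) M u
  /-- (H4up) -/
  h4u : ∀ a : Tor d L → ℝ, QF (H0T d L) M a ≤ DW t.C0 a
  /-- (H5) -/
  h5 : ∀ x y, x ∉ M.U → y ∉ M.U → ‖rsc (H0T d L) M.b x y‖ ≤ t.g5 x y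

/-- uniform bounds of the tolerances at a level -/
structure UTol where
  del : ℝ
  tau : ℝ
  /-- `δ` of the use of (H3); uniform law: `1/8` -/
  rho : ℝ
  Ki : ℝ
  C0 : ℝ
  dA : ℝ
  dS : ℝ
  Lam : ℝ
  C2 : ℝ

/-- the local tolerances are within the uniform bounds: `Ki = 1/K`; `κ dl_x ≤ dA η_x` at active sites (helper53: `dl_x = e(x) m_x` with `e` fixed,
so `dl_x` itself does not decay once `κ` is much smaller than `η_*`), `dl ≤ dS` everywhere; `Lam` = bound of all entries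
of `G` on `X × X`; `C2 |x-y|^(-s)` for `|x-y| ≥ r0` -/
structure Tol.In (f : Fix) (t : Tol d L) (M : Med (Tor d L)) (u : UTol) : Prop where
  del : ∀ x, t.del x ≤ u.del
  tau : ∀ x, t.tau x ≤ u.tau
  a0 : ∀ K x, 0 ≤ t.a K x
  z0 : ∀ K x, 0 ≤ t.z K x
  h3 : ∃ K ∈ t.Ks, ∃ φ : ℝ, 0 < φ ∧ ∀ y, y ∉ M.U →
    φ * t.a K y ≤ M.k y * (rsc (H0T d L) M.b y y).im ∧
      2 * (M.k y * (rsc (H0T d L) M.b y y).im) - φ * t.a K y + φ * t.z K y ≤
        (2 - u.rho) * M.eta y
  D : ∀ i x, u.Ki ≤ t.D i x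
  C00 : ∀ i x, 0 ≤ t.C0 i x
  C0 : ∀ i x, t.C0 i x ≤ u.C0
  dl0 : ∀ x, 0 ≤ t.dl x
  dA : ∀ x ∈ M.A, t.k * t.dl x ≤ u.dA * M.eta x
  dS : ∀ x, t.dl x ≤ u.dS
  Lam : ∀ x y, t.g5 x y ≤ u.Lam
  h5 : ∀ x y, f.r0 ≤ (ANM.td x y : ℝ) → t.g5 x y ≤ u.C2 * (ANM.td x y : ℝ) ^ (-f.s)

end Pool.Agent.AND
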