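import Pool.Agent.AND.CpGlue
import Pool.Agent.AND.Stage
import Pool.Agent.ANI.RawCont
import Pool.Agent.ANQ.Cand

/-!
# AND / StepSt: the geometric hypotheses of the step theorem in the states of the algorithm

* `far_free`: a family of points with the chain property misses a point far from `x0`;
* `Dat.nrB`: the sites which are not read, at distance `< 3 s` from `c`;
* `StGeo`: the geometric fields of `StepCtx` for a medium; `st_geo`: they hold in the state
  `(j, i)`, for every candidate without bad roots;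
* `st_mbb`: the holes of the medium are not resonant.
-/

set_option autoImplicit false

open Finset

noncomputable section

namespace Pool.Agent.AND

open Pool.Agent.Kin Pool.Agent.APS Pool.Agent.ANM Pool.Agent.ANB
open Pool.Agent.ANP (dT)

section free

variable {d N : ℕ} [NeZero N]

/-- the site `x0 + t e_i` -/
def pth (i : Fin d) (x0 : Tor d N) (t : ℕ) : Tor d N := x0 + Pi.single i (t : ZMod N)

theorem pth_step (i : Fin d) (x0 : Tor d N) (t : ℕ) :
    dT (pth i x0 t) (pth i x0 (t + 1)) ≤ 1 := by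
  have h : pth i x0 (t + 1) = pth i x0 t + Pi.single i 1 := by
    unfold pth
    rw [add_assoc, ← Pi.single_add]
    push_cast
    rfl
  rw [h]
  exact ANP.dT_single _ i

omit [NeZero N] in
theorem vma_nat {m : ℕ} (hm : 2 * m ≤ N) : ((m : ZMod N)).valMinAbs.natAbs = m := by
  rw [ZMod.valMinAbs_natCast_of_le_half (by omega), Int.natAbs_natCast]

omit [NeZero N] in
theorem pth_dist (i : Fin d) (x0 : Tor d N) {t : ℕ} (ht : 2 * t ≤ N) :
    t ≤ dT (pth i x0 t) x0 := by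
  have h := ANP.le_tn (pth i x0 t - x0) i
  have h1 : (pth i x0 t - x0) i = (t : ZMod N) := by
    unfold pth
    rw [add_sub_cancel_left, Pi.single_eq_same]
  rw [h1, vma_nat ht] at h
  exact h

theorem pth_dist2 (i : Fin d) (x0 : Tor d N) {s t : ℕ} (ht : 2 * t ≤ N) :
    t ≤ dT (pth i x0 s) (pth i x0 (s + t)) := by
  have h := ANP.le_tn (pth i x0 (s + t) - pth i x0 s) i
  have h1 : (pth i x0 (s + t) - pth i x0 s) i = (t : ZMod N) := by
    unfold pth
    rw [add_sub_add_left_eq_sub, Pi.sub_apply, Pi.single_eq_same, Pi.single_eq_same]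
    push_cast
    ring
  rw [h1, vma_nat ht] at h
  rw [ANP.nmet_dT.symm]
  exact h

/-- a free path along the sites `x0 + (s + i) e`, `i ≤ m` -/
theorem free_path {S : Set (Tor d N)} (i : Fin d) (x0 : Tor d N) (s m : ℕ)
    (h : ∀ t ≤ m, pth i x0 (s + t) ∈ S) :
    ∃ l, Ch dT (pt S) (pth i x0 s) (pth i x0 (s + m)) l ∧ paid l = 0 := by
  induction m with
  | zero => exact ⟨[], rfl, rfl⟩
  | succ m ih =>
    obtain ⟨l, h1, h2⟩ := ih fun t ht => h t (by omega)
    refine ⟨l ++ [some (pth i x0 (s + m))], Ch_snoc_some h1 ?_ ?_, ?_⟩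
    · exact near_pt_iff.2 ⟨h m (by omega), by rw [ANP.nmet_dT.self]; omega⟩
    · refine near_pt_iff.2 ⟨h m (by omega), ?_⟩
      rw [ANP.nmet_dT.symm]
      exact pth_step i x0 (s + m)
    · rw [paid_append, h2]
      rfl

theorem pth_le (i : Fin d) (x0 : Tor d N) (t : ℕ) : dT (pth i x0 t) x0 ≤ t := by
  induction t with
  | zero =>
    have h : pth i x0 0 = x0 := by
      unfold pth
      simp
    rw [h, ANP.nmet_dT.self]
  | succ t ih =>
    have h1 := ANP.nmet_dT.tri (pth i x0 (t + 1)) (pth i x0 t) x0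
    have h2 := pth_step i x0 t
    rw [ANP.nmet_dT.symm] at h2
    omega

/-- A SITE FAR FROM `x0`, BUT NOT TOO FAR, WHICH IS NOT IN `S` -/
theorem far_free' (hd : 0 < d) {S : Set (Tor d N)} {a c : ℕ} (hS : CP dT (pt S) a c)
    (x0 : Tor d N) (r : ℕ) (hN : 2 * (r + c + 1) ≤ N) :
    ∃ x, x ∉ S ∧ r ≤ dT x x0 ∧ dT x x0 ≤ r + c + 1 := by
  by_contra hc
  push Not at hc
  have h1 : ∀ t ≤ c + 1, pth ⟨0, hd⟩ x0 (r + t) ∈ S := by
    intro t ht
    by_contra hx
    have h3 := pth_dist ⟨0, hd⟩ x0 (t := r + t) (by omega)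
    have h2 := hc _ hx (by omega)
    have h4 := pth_le ⟨0, hd⟩ x0 (r + t)
    omega
  obtain ⟨l, h2, h3⟩ := free_path ⟨0, hd⟩ x0 r (c + 1) h1
  have h4 := hS _ _ l h2
  have h5 := pth_dist2 ⟨0, hd⟩ x0 (s := r) (t := c + 1) (by omega)
  rw [h3] at h4
  omega

/-- A SITE FAR FROM `x0` WHICH IS NOT IN `S` -/
theorem far_free (hd : 0 < d) {S : Set (Tor d N)} {a c : ℕ} (hS : CP dT (pt S) a c)
    (x0 : Tor d N) (r : ℕ) (hN : 2 * (r + c + 1) ≤ N) : ∃ x, x ∉ S ∧ r ≤ dT x x0 := by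
  obtain ⟨x, h1, h2, -⟩ := far_free' hd hS x0 r hN
  exact ⟨x, h1, h2⟩

end free

variable {d L : ℕ} [NeZero L]

open Classical in
/-- the sites which are not read, near `c` -/
def nrB (M : Med (Tor d L)) (s : ℕ) (c : Tor d L) : Finset (Tor d L) :=
  univ.filter fun x => x ∉ M.U ∧ dT x c < 3 * s

/-- the geometric fields of the context of the step; `Z` = anchor site -/
structure StGeo (M : Med (Tor d L)) (N : Finset (Tor d L)) (s : ℕ) (c : Tor d L)
    (S : Set (Tor d L)) (cc : ℕ) : Prop where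
  NA : N ⊆ M.A
  NB : ∀ w ∈ N, dT w c ≤ s
  cp : CP (ANM.td : Tor d L → Tor d L → ℕ) (pt S) 4 cc
  cU : ∀ x ∈ M.U, ∃ k, x ∈ pt S k
  cI : ∀ x ∈ M.I, ∃ k, x ∈ pt S k
  LL : 4 * s + 1 ≤ L
  Bn : nrB M s c ⊆ M.nr
  B3 : ∀ x ∈ M.nr, dT x c < 3 * s → x ∈ nrB M s c
  Bx : ∃ x ∈ M.nr, x ∉ nrB M s c
  Z : ∃ z, z ∉ M.U ∧ z ∉ M.I ∧ 2 * s ≤ dT z c ∧ dT z c ≤ 2 * s + cc + 1

variable {X : Type} [Fintype X] [DecidableEq X] {D : Dat d L X}

/-- THE GEOMETRY OF THE STEP in the state `(j, i)` of the algorithm -/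
theorem st_geo (hd0 : 0 < d) {W : ℕ → ℕ} {V : ℕ} (hdist : D.g.dist = dT) (hG : CGeo D.g W V)
    {K : Tor d L → Finset X} {r : ℕ → ℕ} (hP : PercIn D.g D.ana K r) {j i : ℕ}
    (hcor : ∀ x, D.g.dist x (D.g.cor j x) ≤ D.g.side j)
    (hL : 2 * (3 * D.g.side j + cK D.g W V (j - 1) (r j) + 1) ≤ L) (v u : Tor d L → X)
    {M : Med (Tor d L)} (hM : IsMed (H0T d L) D.Y (D.g.crun D.ana j i v).pi v M)
    (hrt : ∀ x, ¬ Rb D.g.dist (r j)
      ((D.g.up D.ana j i (D.g.crun D.ana j i v).pi u).ine : Set (Tor d L)) x) :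
    StGeo M (D.g.actC j i (D.g.crun D.ana j i v).pi) (D.g.side j) (D.g.sL j i)
      ((D.g.up D.ana j i (D.g.crun D.ana j i v).pi u).rd ∪
        (D.g.up D.ana j i (D.g.crun D.ana j i v).pi u).ine : Set (Tor d L))
      (cK D.g W V (j - 1) (r j)) := by
  classical
  have hcp := cp_up' (A := D.ana) hG hP j i v u hrt
  rw [hdist] at hcp
  set π' := D.g.up D.ana j i (D.g.crun D.ana j i v).pi u with hπ'
  have hrd : π'.rd = (D.g.crun D.ana j i v).pi.rd := rfl
  have hin : (D.g.crun D.ana j i v).pi.ine ⊆ π'.ine := subset_union_left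
  refine ⟨?_, ?_, hcp, ?_, ?_, by omega, ?_, ?_, ?_, ?_⟩
  · rw [hM.A]
    exact inter_subset_left
  · intro w hw
    have h1 := ANQ.Geo.mem_cell.1 (mem_inter.1 hw).2
    have h2 := hcor w
    rw [h1, hdist] at h2
    exact h2
  · intro x hx
    refine ⟨x, rfl, Or.inl ?_⟩
    rw [hM.U] at hx
    rw [hrd]
    exact hx
  · intro x hx
    refine ⟨x, rfl, Or.inr ?_⟩
    rw [hM.I] at hx
    exact hin hx
  · intro x hx
    exact mem_compl.2 (mem_filter.1 hx).2.1
  · intro x hx hxc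
    exact mem_filter.2 ⟨mem_univ _, mem_compl.1 hx, hxc⟩
  · obtain ⟨x, h1, h2⟩ := far_free hd0 hcp (D.g.sL j i) (3 * D.g.side j) (by omega)
    refine ⟨x, mem_compl.2 fun hx => h1 (Or.inl ?_), fun hx => ?_⟩
    · rw [hM.U] at hx
      rw [hrd]
      exact hx
    · have := (mem_filter.1 hx).2.2
      omega
  · obtain ⟨x, h1, h2, h3⟩ := far_free' hd0 hcp (D.g.sL j i) (2 * D.g.side j) (by omega)
    refine ⟨x, fun hx => h1 (Or.inl ?_), fun hx => h1 (Or.inr ?_), h2, h3⟩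
    · rw [hM.U] at hx
      rw [hrd]
      exact hx
    · rw [hM.I] at hx
      exact hin hx

omit [Fintype X] [DecidableEq X] in
/-- the holes of the medium are not resonant -/
theorem st_mbb (hav : ANI.Avoid (H0T d L) (D.Y.hh D.g.nf) D.Y.E) {π : Prof (Tor d L)}
    {v : Tor d L → X} (hAU : Disjoint π.act π.rd) (hrl : ∀ x ∈ π.rd, π.lev x = D.g.nf)
    {M : Med (Tor d L)} (hM : IsMed (H0T d L) D.Y π v M) :
    IsUnit (ANI.MBB (H0T d L) M.b M.nr).det := by
  classical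
  refine ANI.mbb_of_avoid hav (v := v) fun x hx => ?_
  have hxU : x ∈ π.rd := by
    have h1 : x ∈ M.U := by
      by_contra h
      exact hx (mem_compl.2 h)
    rwa [hM.U] at h1
  have hxA : x ∉ π.act := fun h => Finset.disjoint_left.1 hAU h hxU
  rw [hM.b x]
  unfold cp kp
  rw [if_neg hxA, if_pos hxU, hrl x hxU]
  simp

end Pool.Agent.AND
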