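import Pool.Agent.AND.InAt
import Pool.Agent.ANS.StepUse

/-! # AND / StepWt: the hypotheses about the weights of (H3) in the states of the algorithm (owner helper79)

* `WtNum` : numbers; `wtHyp_of` : `WtHyp` (helper78) for the medium of a state.
* `kf_lo`, `kf_hi`, `kf_W` : the levels after the reading, weak outcomes `W = wkN` included.
* `cls_off`, `cls_phi`, `cls_om`, `cls_ine` : the class facts of `farOut_h3`.
-/

set_option autoImplicit false

open Matrix Finset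

noncomputable section

namespace Pool.Agent.AND

open Pool.Agent.Kin Pool.Agent.APS Pool.Agent.ANB Pool.Agent.ANQ

set_option linter.unusedSectionVars false

variable {d L : ℕ} [NeZero L] {X : Type} [Fintype X] [DecidableEq X]

/-- numbers of the weights of (H3) at the level `n`: `e1`, `e2` = bounds of `err`, `be` -/
structure WtNum (D : Dat d L X) (Lw : Law X) (lam : ℝ) (n : ℕ) (e1 e2 : ℝ) : Prop where
  lam0 : 0 < lam
  hs : 8 * Lw.D * 2 ^ (n + 1) ≤ Lw.ep * 2 ^ Lw.nf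
  hnf : n + 1 ≤ Lw.nf
  ratio : (Lw.ep / (12 * Lw.D)) ^ 2 ≤ 1
  kn : AND.kn Lw lam (n + 1) ≤ D.P.kap (n + 1)
  knn : AND.kn Lw lam n ≤ D.P.kap n
  kl : D.P.cl * D.P.kap (n + 1) ≤ (Lw.ep / (12 * Lw.D)) ^ 2 * AND.kn Lw lam (n + 1)
  err1 : D.P.Cz * e1 ≤ 1
  be1 : D.P.Cz * e2 ≤ 1
  be2 : D.P.Cz * e2 * (D.f.g0.im + (D.P.del0 + e1)) ≤ D.P.cs
  c1cI : D.f.g0.im + (D.P.del0 + e1) ≤ 3 / 2 * D.cI
  cI0 : 0 ≤ D.cI

variable {D : Dat d L X} {Lw : Law X} {lam E : ℝ} {n : ℕ} {F : Fld (Tor d L)}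
  {π : Prof (Tor d L)} {v : Tor d L → X} {M : Med (Tor d L)} {k0 rho Lam : ℝ} {dA : ℕ → ℝ}
  {N Lc : Finset (Tor d L)} {ω : Tor d L → X}

/-- `WtHyp` FOR THE MEDIUM OF A STATE -/
theorem wtHyp_of {an Lm : ℝ} (hY : D.Y = sysOf Lw lam E D.P.eta)
    (hwk : ∀ m a, m ≤ n + 1 → D.wk m a → Lw.wk m a) (hP : D.P.Pos) (hF : F.Pos)
    (hb : FldIn D.f F (k0 ^ (D.P.vi / 2)) (k0 ^ (D.P.vp / 2)) an Lm 1)
    (hW : WtNum D Lw lam n (k0 ^ (D.P.vi / 2)) (k0 ^ (D.P.vp / 2)))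
    (hC : InC D k0 rho Lam dA n F π v M) (hNA : N ⊆ M.A) (hNn : ∀ y ∈ N, π.lev y = n) :
    WtHyp Lw lam D.P F n N π v M (D.f.g0.im + (D.P.del0 + k0 ^ (D.P.vi / 2))) D.cI where
  lam0 := hW.lam0
  hs := hW.hs
  hnf := hW.hnf
  ratio := hW.ratio
  kap := hP.kap _
  kn := hW.kn
  eta := hP.eta
  Cz := hP.Cz
  cs := hP.cs
  err0 := hF.err
  be0 := hF.be
  err1 := fun y => (mul_le_mul_of_nonneg_left (hb.err y) hP.Cz).trans hW.err1
  be1 := fun y => (mul_le_mul_of_nonneg_left (hb.be y) hP.Cz).trans hW.be1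
  be2 := fun y => by
    refine le_trans (mul_le_mul_of_nonneg_right
      (mul_le_mul_of_nonneg_left (hb.be y) hP.Cz) ?_) hW.be2
    have h1 := (hC.inn.del y)
    have h2 := hC.num.g0
    have h3 := hC.num.c1
    have h4 : (D.uN k0 rho Lam dA n).del = D.P.del0 + k0 ^ (D.P.vi / 2) := rfl
    have h5 := hC.num.del
    rw [h4] at h2 h5
    linarith
  hA := fun y hy => hC.good.eA y hy
  hk := fun y hy => by
    rw [hC.med.k]
    unfold kp
    rw [if_pos (hC.med.A ▸ hy), hY]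
    rfl
  AU := hC.good.AU
  NA := hNA
  Nn := hNn
  lev := fun y hy => hC.lvp.lev y (hC.med.U ▸ hy)
  ine := fun y hy => by
    have h1 : y ∈ π.ine := hC.med.I ▸ hy
    have h2 : y ∉ π.rd := fun h => Finset.disjoint_left.1 hC.inv.ri h h1
    exact hwk _ _ (hC.lvp.lev y h2) (hC.lvp.iw y h1)
  io0 := fun y hy => (hC.good.io_pos hC.inn hC.num hy).le
  io1 := fun y hy => by
    have h0 : (tolAt D.P D.Sf n F π v M).del y ≤ D.P.del0 + k0 ^ (D.P.vi / 2) := hC.inn.del y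
    have h1 := (hC.good.h1 y hy).trans h0
    have h2 := (Complex.abs_im_le_norm (rsc (H0T d L) M.b y y - D.f.g0)).trans h1
    rw [Complex.sub_im] at h2
    have h3 := (abs_le.1 h2).2
    unfold io
    linarith
  etaU := hC.good.eU
  etaI := hC.good.eI
  etaS := fun y hA hU hI => by
    refine ⟨?_, ?_⟩
    · have h1 : D.P.eta + D.P.cs * D.P.kap (n + 1) ≤ M.eta y := hC.good.eS y hA hU hI
      have h2 := hP.eta
      linarith
    · have hYe : 0 ≤ D.Y.eta := by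
        rw [hY]
        exact hP.eta
      have h1 := stat_eta hC.inv hC.med hYe hA hU hI
      rw [hY] at h1
      exact h1
  C1cI := hW.c1cI
  cI0 := hW.cI0

omit [Fintype X] [DecidableEq X] in
theorem NA_of (hN : N = π.act ∩ Lc) : N ⊆ π.act := by
  rw [hN]
  exact Finset.inter_subset_left

section kf

variable (hM : IsMed (H0T d L) (sysOf Lw lam E D.P.eta) π v M) (hN : N = π.act ∩ Lc)
  (hNn : ∀ y ∈ N, π.lev y = n) (hω : ∀ x ∈ N, Lw.q n (ω x) = Lw.q n (v x))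
include hM hN hNn hω

/-- the level at a site which is read -/
theorem kf_N {y : Tor d L} (hy : y ∈ N) :
    M.kf (digOf Lw lam n N v) ω y = (sysOf Lw lam E D.P.eta).kk (n + 1) (ω y) := by
  have h1 := kf_law (E := E) hM (NA_of hN) hNn hω (y := y) (by
    rw [hM.A]
    exact NA_of hN hy)
  rw [h1]
  unfold lv1
  rw [if_pos hy, Finset.piecewise_eq_of_mem _ _ _ hy]

omit hM hN hNn hω in
/-- the level at the other sites -/
theorem kf_O {y : Tor d L} (hy : y ∉ N) : M.kf (digOf Lw lam n N v) ω y = M.k y := by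
  unfold Med.kf
  rw [(digOf_off (L := Lw) (lam := lam) (n := n) (v := v) hy (ω y)).2, sub_zero]

/-- LOWER BOUND off the weak outcomes -/
theorem kf_lo (hW : (Lw.ep / (12 * Lw.D)) ^ 2 * AND.kn Lw lam (n + 1) ≥
      D.P.cl * D.P.kap (n + 1)) (hs : 8 * Lw.D * 2 ^ (n + 1) ≤ Lw.ep * 2 ^ Lw.nf)
    (hwk : ∀ a, Lw.wk (n + 1) a → D.wk (n + 1) a)
    (hk : ∀ x ∈ M.A, D.P.cl * D.P.kap (n + 1) ≤ M.k x) :
    ∀ y ∈ M.A, y ∉ wkN D.ana n N ω →
      D.P.cl * D.P.kap (n + 1) ≤ M.kf (digOf Lw lam n N v) ω y := by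
  intro y hy hyW
  by_cases h : y ∈ N
  · rw [kf_N hM hN hNn hω h]
    refine le_trans hW ?_
    refine kk_low (fun hw => hyW (mem_wkN.2 ⟨h, hwk _ hw⟩)) hs
  · rw [kf_O h]
    exact hk y hy

/-- UPPER BOUND -/
theorem kf_hi (hkn : AND.kn Lw lam n ≤ D.P.kap n)
    (hk : ∀ x ∈ M.A, M.k x ≤ D.P.kap n) :
    ∀ y ∈ M.A, M.kf (digOf Lw lam n N v) ω y ≤ D.P.kap n := by
  intro y hy
  by_cases h : y ∈ N
  · rw [kf_N hM hN hNn hω h]
    refine (kk_le _ _).trans (le_trans ?_ hkn)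
    rw [kn_succ]
    have := kn_nonneg Lw lam n
    linarith
  · rw [kf_O h]
    exact hk y hy

/-- WEAK OUTCOMES have level `0` -/
theorem kf_W (hwk : ∀ a, D.wk (n + 1) a → Lw.wk (n + 1) a) :
    ∀ y ∈ wkN D.ana n N ω, y ∈ M.A ∧ M.kf (digOf Lw lam n N v) ω y = 0 := by
  intro y hy
  obtain ⟨h1, h2⟩ := mem_wkN.1 hy
  refine ⟨?_, ?_⟩
  · rw [hM.A]
    exact NA_of hN h1
  · rw [kf_N hM hN hNn hω h1]
    exact kk_wk (hwk _ h2)

end kf

section cls

variable {A : Ana (Tor d L) X} {nE : ℕ}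

/-- the classes change only on `N` -/
theorem cls_off (hN : N = π.act ∩ Lc) (y : Tor d L) (hy : y ∉ N) :
    (raise A π (n + 1) Lc (N.piecewise ω v)).lev y = π.lev y ∧ N.piecewise ω v y = v y := by
  refine ⟨?_, Finset.piecewise_eq_of_notMem _ _ _ hy⟩
  rw [raise_lev hN]
  exact if_neg hy

/-- levels of the candidate -/
theorem cls_lev (hN : N = π.act ∩ Lc) (hlv : ∀ y, y ∉ M.U → π.lev y ≤ n + 1) {y : Tor d L}
    (hy : y ∉ M.U) : (raise A π (n + 1) Lc (N.piecewise ω v)).lev y ≤ n + 1 := by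
  rw [raise_lev hN]
  unfold lv1
  split_ifs
  · exact le_rfl
  · exact hlv y hy

/-- the inert sites and the weak outcomes are weak in the new classes -/
theorem cls_weak (hN : N = π.act ∩ Lc) (hNI : Disjoint M.A M.I) (hNA : N ⊆ M.A)
    (hine : ∀ y ∈ M.I, Lw.wk (π.lev y) (v y))
    (hwk : ∀ a, A.wk (n + 1) a → Lw.wk (n + 1) a) {y : Tor d L}
    (hy : y ∈ M.I ∪ wkN A n N ω) :
    Lw.wk ((raise A π (n + 1) Lc (N.piecewise ω v)).lev y) (N.piecewise ω v y) := by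
  rw [raise_lev hN]
  unfold lv1
  rcases Finset.mem_union.1 hy with h | h
  · have h1 : y ∉ N := fun h2 => Finset.disjoint_left.1 hNI (hNA h2) h
    rw [if_neg h1, Finset.piecewise_eq_of_notMem _ _ _ h1]
    exact hine y h
  · obtain ⟨h1, h2⟩ := mem_wkN.1 h
    rw [if_pos h1, Finset.piecewise_eq_of_mem _ _ _ h1]
    exact hwk _ h2

/-- bounds of `phi` -/
theorem cls_phi (h : cL Lw ≤ 1) (K m : ℕ) (a : X) :
    (SfOf Lw lam nE).phi K m a ≤ 1 * (SfOf Lw lam nE).s K := by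
  rw [one_mul]
  exact phi_le_kn h K m a

/-- weights vanish at the inert sites and at the weak outcomes -/
theorem cls_ine (hN : N = π.act ∩ Lc) (hNI : Disjoint M.A M.I) (hNA : N ⊆ M.A)
    (hlv : ∀ y, y ∉ M.U → π.lev y ≤ n + 1) (hIU : ∀ y ∈ M.I ∪ wkN A n N ω, y ∉ M.U)
    (hine : ∀ y ∈ M.I, Lw.wk (π.lev y) (v y)) (hnf : n + 1 ≤ Lw.nf)
    (hwk : ∀ a, A.wk (n + 1) a → Lw.wk (n + 1) a) {y : Tor d L}
    (hy : y ∈ M.I ∪ wkN A n N ω) :
    (SfOf Lw lam nE).om ((raise A π (n + 1) Lc (N.piecewise ω v)).lev y)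
        (N.piecewise ω v y) = 0 ∧
      ∀ K ∈ (SfOf Lw lam nE).Ks n,
        (SfOf Lw lam nE).phi K ((raise A π (n + 1) Lc (N.piecewise ω v)).lev y)
          (N.piecewise ω v y) = 0 := by
  have h1 := cls_weak (A := A) (ω := ω) (n := n) hN hNI hNA hine hwk hy
  have h2 := cls_lev (A := A) (ω := ω) (v := v) hN hlv (hIU y hy)
  refine ⟨SfOf_om_zero (h2.trans hnf) h1, fun K hK => phi_zero (h2.trans ?_) h1⟩
  exact (Finset.mem_Icc.1 hK).1

end cls

end Pool.Agent.AND
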