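import Pool.Agent.AND.StepRd
import Pool.Agent.AND.StepWt
import Pool.Agent.AND.StepSt
import Pool.Agent.ANS.StepDet

/-! # AND / StepOk: THE DETERMINISTIC HALF OF [STEP] (owner helper1)

* `stepCtx_st` : `StepCtx` in the states of the algorithm (general law, weak outcomes `W = wkN`).
* `step_ok` : the frozen step is OK (`Frz`) at the outcome `ω` ⇒ the candidate is not rejected (`¬ D.Fail`). -/

set_option autoImplicit false

open Matrix Finset

noncomputable section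

namespace Pool.Agent.AND

open Pool.Agent.Kin Pool.Agent.APS Pool.Agent.ANM Pool.Agent.ANB Pool.Agent.ANQ

variable {d L : ℕ} [NeZero L] {X : Type} [Fintype X] [DecidableEq X]

variable {D : Dat d L X} {Lw : Law X} {lam E : ℝ} {nE n s : ℕ} {F : Fld (Tor d L)}
  {π : Prof (Tor d L)} {v : Tor d L → X} {M : Med (Tor d L)} {k0 rho Lam : ℝ} {dA : ℕ → ℝ}
  {N Lc : Finset (Tor d L)} {ω : Tor d L → X} {c : Tor d L} {S : Set (Tor d L)} {cc nW : ℕ}
  {e1 e2 Bd an Lm : ℝ}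

/-- the classes of the law and of the algorithm -/
structure WkEq (D : Dat d L X) (Lw : Law X) (n : ℕ) : Prop where
  lo : ∀ m a, m ≤ n + 1 → D.wk m a → Lw.wk m a
  hi : ∀ a, Lw.wk (n + 1) a → D.wk (n + 1) a

/-- `StepCtx` IN THE STATES OF THE ALGORITHM -/
theorem stepCtx_st (hY : D.Y = sysOf Lw lam E D.P.eta) (hSf : D.Sf = SfOf Lw lam nE)
    (hwk : WkEq D Lw n) (hP : D.P.Pos) (hF : F.Pos)
    (hb : FldIn D.f F e1 e2 an Lm 1) (hKi : 0 < D.P.D0)
    (hW : WtNum D Lw lam n e1 e2)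
    (hC : InC D k0 rho Lam dA n F π v M) (hg : StGeo M N s c S cc) (hN : N = π.act ∩ Lc)
    (hNn : ∀ y ∈ N, π.lev y = n) (hω : ∀ x ∈ N, Lw.q n (ω x) = Lw.q n (v x))
    (hmbb : IsUnit (ANI.MBB (H0T d L) M.b M.nr).det)
    (hWS : ∀ x ∈ wkN D.ana n N ω, x ∈ S) (hcard : N.card ≤ nW)
    (hzt : ∀ x ∈ N, 0 ≤ (digOf Lw lam n N v).zt x (ω x))
    (inc : ∀ x ∈ N, ‖((digOf Lw lam n N v).xi x (ω x) : ℂ) +
      ((digOf Lw lam n N v).zt x (ω x) : ℂ) * M.G x x‖ ≤ Bd) :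
    StepCtx D.f D.P D.Sf n s F π (raise D.ana π (n + 1) Lc (N.piecewise ω v)) v
      (N.piecewise ω v) M (D.uN k0 rho Lam dA n) (digOf Lw lam n N v) ω N
      (wkN D.ana n N ω) c (pt S) 4 cc nW Bd 1 e1 e2 (nrB M s c) := by
  have hNact : N ⊆ π.act := NA_of hN
  have hM : IsMed (H0T d L) (sysOf Lw lam E D.P.eta) π v M := by
    rw [← hY]
    exact hC.med
  have hrd : ∀ y ∈ π.ine, y ∉ π.rd := fun y h1 h2 => Finset.disjoint_left.1 hC.inv.ri h2 h1
  have hine : ∀ y ∈ M.I, Lw.wk (π.lev y) (v y) := fun y hy => by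
    have h1 : y ∈ π.ine := hC.med.I ▸ hy
    exact hwk.lo _ _ (hC.lvp.lev y (hrd y h1)) (hC.lvp.iw y h1)
  have hlv : ∀ y, y ∉ M.U → π.lev y ≤ n + 1 := fun y hy => hC.lvp.lev y (hC.med.U ▸ hy)
  have hNI : Disjoint M.A M.I := hC.good.AI
  have hIU : ∀ y ∈ M.I ∪ wkN D.ana n N ω, y ∉ M.U := by
    intro y hy hU
    rcases Finset.mem_union.1 hy with h | h
    · exact Finset.disjoint_left.1 hC.good.UI hU h
    · exact Finset.disjoint_left.1 hC.good.AU (hg.NA (mem_wkN.1 h).1) hU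
  have hko := hC.good.klo
  have hkh := hC.good.khi
  refine {
    PP := hP
    SP := by rw [hSf]; exact SfOf_pos
    FP := hF
    good := hC.good
    inn := hC.inn
    num := hC.num
    Ki := by
      show 0 < D.P.D0 / 2
      linarith
    mbb := hmbb
    NA := hg.NA
    NB := hg.NB
    WN := fun x hx => (mem_wkN.1 hx).1
    Wc := (Finset.card_le_card fun x hx => (mem_wkN.1 hx).1).trans hcard
    off := fun _ hx => digOf_off hx _
    klo := ?_
    kW := fun y hy => (kf_W hM hN hNn hω (fun a h => hwk.lo _ _ le_rfl h) y hy).2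
    khi := ?_
    zt := hzt
    inc := inc
    aa1 := by norm_num
    cp := hg.cp
    cU := hg.cU
    cI := hg.cI
    cW := fun x hx => ⟨x, rfl, hWS x hx⟩
    LL := hg.LL
    Bn := hg.Bn
    B3 := hg.B3
    Bx := hg.Bx
    Z := hg.Z
    et1 := hb.et
    cls := fun y hy => cls_off hN y hy
    phi := fun K _ y _ => ?_
    om := fun y _ => ?_
    ine := fun y hy => ?_
    err := fun y _ => hb.err y
    be := fun y _ => hb.be y }
  · exact kf_lo hM hN hNn hω hW.kl hW.hs hwk.hi hko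
  · exact kf_hi hM hN hNn hω hW.knn hkh
  · rw [hSf]
    exact ⟨cls_phi hW.ratio K _ _, cls_phi hW.ratio K _ _⟩
  · rw [hSf]
    exact ⟨SfOf_om_le_one _ _, SfOf_om_le_one _ _⟩
  · rw [hSf]
    exact cls_ine hN hNI hg.NA hlv hIU hine hW.hnf (fun a h => hwk.lo _ _ le_rfl h) hy

/-- numbers of the use of (H3) -/
structure UseNum (D : Dat d L X) (Lw : Law X) (e1 e2 e ρ : ℝ) : Prop where
  e0 : 0 ≤ e
  h1 : D.P.Cz * e1 ≤ e
  h2 : D.P.Cz * e2 ≤ e * D.P.cl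
  h4 : D.P.Cz * e2 * (D.f.g0.im + (D.P.del0 + e1)) ≤ e * D.P.cs
  r1 : ρ ≤ thL Lw - e
  r2 : ρ ≤ 1 / 2 - 2 * e
  th : thL Lw ≤ 1

/-- the form fields for the next medium `M'`, auxiliary medium with the weak outcomes relabelled -/
def H4Next (P : Par) (Sf : SiteF X) (n s : ℕ) (F : Fld (Tor d L)) (c : Tor d L)
    (π' : Prof (Tor d L)) (v' : Tor d L → X) (M' : Med (Tor d L)) : Prop :=
  (∀ w : Tor d L → ℝ, ∃ a : Tor d L → ℝ,
      DW (tolAt P Sf n (F.add P n s {c}) π' v' M').D a +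
        ∑ x ∈ M'.nr, M'.eta x * (rsc (H0T d L) M'.b x x).im * (w x - a x) ^ 2 /
          (1 + (tolAt P Sf n (F.add P n s {c}) π' v' M').dl x) ≤ QF (H0T d L) M' w) ∧
    ∀ a : Tor d L → ℝ, QF (H0T d L) M' a ≤
      DW (tolAt P Sf n (F.add P n s {c}) π' v' M').C0 a

/-- THE NEXT MEDIUM IS GOOD, form fields as hypothesis `h4` -/
theorem step_next {al tt de ρ K K2 μ q ze gg σ tl Lm' omw e0 e om0 : ℝ} {l : ℕ}
    {e3 : ℕ → ℝ}
    (hY : D.Y = sysOf Lw lam E D.P.eta) (hSf : D.Sf = SfOf Lw lam nE)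
    (hwk : WkEq D Lw n) (hP : D.P.Pos) (hF : F.Pos)
    (he1 : e1 = k0 ^ (D.P.vi / 2)) (he2 : e2 = k0 ^ (D.P.vp / 2))
    (hb : FldIn D.f F e1 e2 an Lm 1) (hKi : 0 < D.P.D0)
    (hW : WtNum D Lw lam n e1 e2) (hnE : n + 1 ≤ nE)
    (hC : InC D k0 rho Lam dA n F π v M) (hg : StGeo M N s c S cc) (hN : N = π.act ∩ Lc)
    (hNn : ∀ y ∈ N, π.lev y = n) (hω : ∀ x ∈ N, Lw.q n (ω x) = Lw.q n (v x))
    (hmbb : IsUnit (ANI.MBB (H0T d L) M.b M.nr).det)
    (hWS : ∀ x ∈ wkN D.ana n N ω, x ∈ S) (hcard : N.card ≤ nW)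
    (hzt : ∀ x ∈ N, 0 ≤ (digOf Lw lam n N v).zt x (ω x))
    (inc : ∀ x ∈ N, ‖((digOf Lw lam n N v).xi x (ω x) : ℂ) +
      ((digOf Lw lam n N v).zt x (ω x) : ℂ) * M.G x x‖ ≤ Bd)
    (hnum : StepNum0 D.f D.P D.Sf n s d (D.uN k0 rho Lam dA n) al tt ρ K K2 μ Bd q ze gg σ tl
      Lm' omw e0 1 e1 e2 4 cc l nW (fun K => UK Lw lam n K) (fun K => 4 * UK Lw lam n K) e3)
    (hsn : SiteNum D.f D.P n ze gg e2 om0)
    (hom : ∀ m, m ≤ n + 1 → ∀ a, ¬ Lw.wk m a → om0 ≤ (SfOf Lw lam nE).om m a)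
    (hun : UseNum D Lw e1 e2 e ρ) (he : al + 1 * e3 (n + 1) / 2 ≤ ρ / 4 * D.f.c1)
    (hFrz : Frz (tolAt D.P D.Sf n F π v M) M (digOf Lw lam n N v)
      (tolAt D.P D.Sf n F (raise D.ana π (n + 1) Lc (N.piecewise ω v)) (N.piecewise ω v) M).a
      (tolAt D.P D.Sf n F (raise D.ana π (n + 1) Lc (N.piecewise ω v)) (N.piecewise ω v) M).z
      e3 (nrB M s c) al tt de (wkN D.ana n N ω) ω)
    (h4 : StepCtx D.f D.P D.Sf n s F π (raise D.ana π (n + 1) Lc (N.piecewise ω v)) v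
        (N.piecewise ω v) M (D.uN k0 rho Lam dA n) (digOf Lw lam n N v) ω N
        (wkN D.ana n N ω) c (pt S) 4 cc nW Bd 1 e1 e2 (nrB M s c) →
      ∀ M' : Med (Tor d L), Nxt M M' (digOf Lw lam n N v) ω (rStep D.f l al) →
      FrOK M (digOf Lw lam n N v) ω
        (N.filter fun x => 0 < (digOf Lw lam n N v).zt x (ω x)) →
      StepH D.f (tolAt D.P D.Sf n F π v M) M (digOf Lw lam n N v) ω (wkN D.ana n N ω)
        (rStep D.f l al) al (D.P.cl * D.P.kap (n + 1)) (D.P.kap n) →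
      FarRow D.f M M' {x | ∃ k, x ∈ pt S k} μ 4 cc (fun x => ANP.dT x c - s)
        (farQ d D.f (D.uN k0 rho Lam dA n) μ K 4 cc) (farν D.f (D.uN k0 rho Lam dA n) μ 4)
        (D.P.cl * D.P.kap (n + 1) * (D.f.c1 / 2)) Lm' q →
      (∀ x, x ∉ M.U → ‖M'.G x x - M.G x x‖ ≤ ze * ph (D.P.kap n) D.P.v D.P.b s x c) →
      (∀ w, (1 - qStep D.f l al) * QF (H0T d L) (M.fr (digOf Lw lam n N v) ω) w ≤
        QF (H0T d L) M' w) →
      (∀ w, QF (H0T d L) M' w ≤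
        (1 + qStep D.f l al) * QF (H0T d L) (M.fr (digOf Lw lam n N v) ω) w) →
      H4Next D.P D.Sf n s F c (raise D.ana π (n + 1) Lc (N.piecewise ω v)) (N.piecewise ω v)
        (M'.rel (wkN D.ana n N ω))) :
    ∃ M' : Med (Tor d L), Nxt M M' (digOf Lw lam n N v) ω (rStep D.f l al) ∧
      Good D.f (tolAt D.P D.Sf n (F.add D.P n s {c})
        (raise D.ana π (n + 1) Lc (N.piecewise ω v)) (N.piecewise ω v)
        (M'.rel (wkN D.ana n N ω))) (M'.rel (wkN D.ana n N ω)) := by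
  subst he1 he2
  have hctx := stepCtx_st hY hSf hwk hP hF hb hKi hW hC hg hN hNn hω hmbb hWS hcard hzt inc
  have hM : IsMed (H0T d L) (sysOf Lw lam E D.P.eta) π v M := by
    rw [← hY]
    exact hC.med
  have hwt := wtHyp_of hY (fun m a hm => hwk.lo m a hm) hP hF hb hW hC hg.NA hNn
  have hkh : ∀ y ∈ M.A, M.kf (digOf Lw lam n N v) ω y ≤ D.P.kap n := hctx.khi
  have hsite := siteIn_law (A := D.ana) (nE := nE) hwt hM hN hω hkh hsn hb.be hom
  have huse := use_law (A := D.ana) (nE := nE) hwt hM hN hω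
    (fun y hy => hC.lvp.act y hy) (fun y hy hw => ?_) hun.e0
    (fun y => (mul_le_mul_of_nonneg_left (hb.err y) hP.Cz).trans hun.h1)
    (fun y => (mul_le_mul_of_nonneg_left (hb.be y) hP.Cz).trans hun.h2)
    (fun y => ?_) hun.r1 hun.r2 hun.th
  · rw [← hSf] at hsite
    simp only [← hSf] at huse
    exact step_det0 hctx hnum hFrz hsite (K0 := n + 1)
      (by rw [hSf]; exact Finset.mem_Icc.2 ⟨le_rfl, hnE⟩) one_pos huse he (h4 hctx)
  · refine hctx.klo y hy fun h => hw ?_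
    obtain ⟨h1, h2⟩ := mem_wkN.1 h
    unfold lv1
    rw [if_pos h1, Finset.piecewise_eq_of_mem _ _ _ h1]
    exact hwk.lo _ _ le_rfl h2
  · refine le_trans (mul_le_mul_of_nonneg_right
      (mul_le_mul_of_nonneg_left (hb.be y) hP.Cz) ?_) hun.h4
    have h1 := (hC.inn.del y)
    have h2 := hC.num.g0
    have h3 := hC.num.c1
    have h4 : (D.uN k0 rho Lam dA n).del = D.P.del0 + k0 ^ (D.P.vi / 2) := rfl
    rw [h4] at h2
    have h5 := hC.num.del
    rw [h4] at h5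
    linarith

end Pool.Agent.AND
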