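import Pool.Agent.AND.Goals
import Pool.Agent.AND.StepOk
import Pool.Agent.ANC.StepNum

/-! # AND / StepNumC: THE NUMBERS OF A STEP in a `Ctx` (helper31)

For all small `k0`, in every `Ctx` (data `datC`), at every level `n` of a super-stage `j ≤ M`:
* `ev_stepNumC` : `StepNum0` with `Wa = U_K`, `Wz = 4 U_K`, `e3 K = 12 U_K κ^(1/45)`, `Cph = 1`, `errm = k0^(vi/2)`, `bem = k0^(vp/2)`;
* `ev_siteNumC` : `SiteNum` for `om0 ≥ co / (n + 3)^2`;  `ev_wtNumC` : `WtNum`;  `ev_useNumC` : `UseNum`;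
* `ev_heC` : `al + e3 (n + 1) / 2 ≤ ρ / 4 c1`.
-/

set_option autoImplicit false

open Matrix Finset Filter Topology

noncomputable section

namespace Pool.Agent.AND

open Pool.Agent.Kin Pool.Agent.APS Pool.Agent.ANM Pool.Agent.ANC Pool.Agent.ANB Pool.Agent.ANQ

/-- what the numbers of a step use about the law: `n1` levels -/
structure LawN (c : Cst) {X : Type} [Fintype X] (Lw : Law X) (th : ℝ) (n1 : ℕ) : Prop where
  cl : c.cl ≤ (Lw.ep / (12 * Lw.D)) ^ 2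
  r1 : (Lw.ep / (12 * Lw.D)) ^ 2 ≤ 1
  hs : 8 * Lw.D * 2 ^ n1 ≤ Lw.ep * 2 ^ Lw.nf
  th : th ≤ thL Lw
  th1 : thL Lw ≤ 1

variable {d : ℕ} {CM : ℝ}

theorem kn_kap {X : Type} [Fintype X] {Lw : Law X} {lam k0 : ℝ}
    (hk : k0 = (lam * (2 * Lw.S)) ^ 2) (n : ℕ) : kn Lw lam n = kap k0 n := by
  rw [hk]
  unfold kn kap
  have h3 : (4 : ℝ) ^ n = (2 ^ n) ^ 2 := by
    rw [← pow_mul, mul_comm, pow_mul]
    norm_num
  rw [one_div, inv_pow, h3]
  field_simp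

/-- the normalisation of the pair `K` -/
theorem UK_le {X : Type} [Fintype X] {Lw : Law X} {c : Cst} {th lam k0 : ℝ} {n1 : ℕ}
    (hc : c.Pos) (hL : LawN c Lw th n1) (hk : k0 = (lam * (2 * Lw.S)) ^ 2) (hk0 : 0 < k0)
    (n K : ℕ) : UK Lw lam n K ≤ kn Lw lam K * (4 / c.cl / kap k0 n) := by
  have h1 := kap_pos hk0 n
  have h2 := hc.cl
  unfold UK
  rw [kn_kap hk (n + 1), kap_succ]
  have h3 : c.cl * (kap k0 n / 4) ≤ (Lw.ep / (12 * Lw.D)) ^ 2 * (kap k0 n / 4) :=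
    mul_le_mul_of_nonneg_right hL.cl (by positivity)
  calc kn Lw lam K / ((Lw.ep / (12 * Lw.D)) ^ 2 * (kap k0 n / 4))
      ≤ kn Lw lam K / (c.cl * (kap k0 n / 4)) :=
        div_le_div_of_nonneg_left (kn_nonneg Lw lam K) (by positivity) h3
    _ = kn Lw lam K * (4 / c.cl / kap k0 n) := by
      field_simp

/-- `Lam + 2 ≤ κ^(-1)` -/
theorem ev_LmK {C' cg : ℝ} (hC : 0 ≤ C') (hcg : 0 < cg) :
    ∀ᶠ k0 in 𝓝[>] (0 : ℝ), 0 ≤ LmS C' cg k0 ∧ ∀ n, LmS C' cg k0 + 2 ≤ kap k0 n ^ (-1 : ℝ) := by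
  have h1 := ev_ge (2 * C') (b := 1) one_pos 1
  have h2 := ev_ge (2 * (C' * (1 + Real.log (1 / cg)) + 2)) (b := 1) one_pos 0
  have h3 := ev_small (show (0 : ℝ) < min (1 / cg) 1 by positivity)
  filter_upwards [h1, h2, h3] with k0 h1 h2 h3
  have hk0 := h3.1
  have hk1 : k0 ≤ 1 := h3.2.trans (min_le_right _ _)
  have hkc : cg * k0 ≤ 1 := by
    have := mul_le_mul_of_nonneg_left (h3.2.trans (min_le_left _ _)) hcg.le
    have e : cg * (1 / cg) = 1 := by field_simp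
    linarith
  rw [pow_one] at h1
  rw [pow_zero, mul_one] at h2
  constructor
  · unfold LmS
    have h4 : 0 ≤ Real.log (1 / (cg * k0)) := by
      apply Real.log_nonneg
      rw [le_div_iff₀ (by positivity)]
      linarith
    positivity
  · intro n
    have h4 : k0 ^ (-1 : ℝ) ≤ kap k0 n ^ (-1 : ℝ) :=
      Real.rpow_le_rpow_of_nonpos (kap_pos hk0 n) (kap_le hk0 n) (by norm_num)
    rw [LmS_eq C' hcg hk0]
    linarith

variable {LP : LawP} {x : Ex d CM} {c : Cst} {q : Csts}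

/-- `StepNum0` IN A `Ctx` -/
theorem ev_stepNumC {ρ : ℝ} (h : StC d c (2 * q.C1) (q.c1 / 2) (q.th / 4) ρ) (hCg : c.Cg = 5 / 2)
    (hq : q.Ok c) {g1 ce : ℝ} (hg1 : 0 < g1) (hce : 0 < ce) (hce1 : ce ≤ c.cl * (q.c1 / 2) / 8)
    (hce2 : ce ≤ c.cs / 4) :
    ∀ᶠ k0 in 𝓝[>] (0 : ℝ), ∀ (N : ℕ) [NeZero N] (X : Type) [Fintype X] (Lw : Law X)
      (Sf : SiteF X) (lam E es : ℝ) (g0 : ℂ) (gam Lm : ℝ) (M : ℕ),
      Ctx LP x c q k0 N Lw Sf lam E es g0 gam Lm M → ∀ nE, Sf = SfOf Lw lam nE →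
      LawN c Lw q.th (lv k0 x.al (M + 1)) →
      ∀ j n cc : ℕ, LvN k0 x.al j n cc → ∀ nW : ℕ, (nW : ℝ) ≤ (3 * (side k0 x.al j : ℝ)) ^ d →
      ∀ dA : ℕ → ℝ,
      StepNum0 (datC x c q N Lw Sf lam E k0 es g0 gam Lm).f
        (datC x c q N Lw Sf lam E k0 es g0 gam Lm).P (datC x c q N Lw Sf lam E k0 es g0 gam Lm).Sf
        n (side k0 x.al j) d
        ((datC x c q N Lw Sf lam E k0 es g0 gam Lm).uN k0 (q.th / 4) Lm dA n)
        (kap k0 n ^ (9 / 256 : ℝ)) (kap k0 n ^ (-(7 / 8) + 3 / 4 * x.vt : ℝ)) ρ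
        (kap k0 n ^ (-KB d x.al)) (kap k0 n ^ (-(5 / 2) : ℝ)) (mu0 d c (q.c1 / 2) * kap k0 n) 1
        (kap k0 n ^ (-AB d x.al)) (kap k0 n ^ (1 / 64 : ℝ)) (g1 / kap k0 n)
        (kap k0 n ^ (x.vt / 2) / 28) 1 (Lm + 1 + 1) (kap k0 n ^ AB d x.al) (ce * kap k0 n) 1
        (k0 ^ (x.vi / 2)) (k0 ^ (x.vi / 2 / 2)) 4 cc (lV d ρ (kap k0 n)) nW
        (fun K => UK Lw lam n K) (fun K => 4 * UK Lw lam n K)
        (fun K => 12 * UK Lw lam n K * kap k0 n ^ (1 / 45 : ℝ)) := by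
  classical
  have hcl := hq.pos.cl
  have hcg : 0 < q.cg c := by
    unfold Csts.cg
    have := hq.c1
    positivity
  have hvi := x.vi_pos
  filter_upwards [ev_stepNum x h hCg (16 / c.cl) (48 / c.cl) hg1 hce hce1 hce2,
    ev_LmK hq.C'.le hcg, ev_small (show (0 : ℝ) < 1 / 2 by norm_num)] with k0 h0 hLm hk N _ X _
    Lw Sf lam E es g0 gam Lm M H nE hSf hL j n cc hn nW hnW dA
  have hk0 := hk.1
  have hk1 : k0 ≤ 1 := hk.2.trans (by norm_num)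
  have hκ := kap_pos hk0 n
  have hκ1 : kap k0 n ≤ 1 := (kap_le hk0 n).trans hk1
  have h8 : (1 : ℝ) ≤ kap k0 n ^ (-8 : ℝ) :=
    Real.one_le_rpow_of_pos_of_le_one_of_nonpos hκ hκ1 (by norm_num)
  obtain ⟨hL0, hL1⟩ := hLm
  rw [← H.hLm] at hL0 hL1
  refine h0 es H.dat.es0 H.dat.es1 j n cc hn (datC x c q N Lw Sf lam E k0 es g0 gam Lm).f
    ((datC x c q N Lw Sf lam E k0 es g0 gam Lm).uN k0 (q.th / 4) Lm dA n) rfl rfl rfl ?_ ?_
    (datC x c q N Lw Sf lam E k0 es g0 gam Lm).Sf _ _ _ ?_ 1 _ _ ?_ ?_ ?_ zero_le_one h8 nW hnW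
  · show 0 ≤ Lm + 1
    linarith
  · show Lm + 1 + 1 ≤ _
    have := hL1 n
    linarith
  · intro K _
    have e1 := UK_le hq.pos hL H.dat.k hk0 n K
    have e2 := UK_pos (L := Lw) (n := n) H.hlam K
    have e3 : (datC x c q N Lw Sf lam E k0 es g0 gam Lm).Sf.s K = kn Lw lam K := by
      show Sf.s K = _
      rw [hSf]
      rfl
    rw [e3]
    have e4 := kn_nonneg Lw lam K
    have e5 : kn Lw lam K * (4 / c.cl / kap k0 n) ≤ kn Lw lam K * (16 / c.cl / kap k0 n) := by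
      gcongr
      norm_num
    refine ⟨e4, e2.le, e1.trans e5, by positivity, ?_, ?_⟩
    · calc 4 * UK Lw lam n K ≤ 4 * (kn Lw lam K * (4 / c.cl / kap k0 n)) := by linarith
        _ = _ := by ring
    · have e6 : 0 ≤ kap k0 n ^ (1 / 45 : ℝ) := Real.rpow_nonneg hκ.le _
      calc 12 * UK Lw lam n K * kap k0 n ^ (1 / 45 : ℝ)
          ≤ 12 * (kn Lw lam K * (4 / c.cl / kap k0 n)) * kap k0 n ^ (1 / 45 : ℝ) := by gcongr
        _ = _ := by ring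
  · exact (Real.rpow_le_one hk0.le hk1 (by positivity)).trans h8
  · exact Real.rpow_nonneg hk0.le _
  · exact (Real.rpow_le_one hk0.le hk1 (by positivity)).trans h8

/-- `al + e3 / 2 ≤ ρ / 4 c1` -/
theorem ev_heC {ρ c1 : ℝ} (hρ : 0 < ρ) (hc1 : 0 < c1) (hc : c.Pos) :
    ∀ᶠ k0 in 𝓝[>] (0 : ℝ), ∀ (X : Type) [Fintype X] (Lw : Law X) (lam th : ℝ) (n1 : ℕ),
      0 < lam → k0 = (lam * (2 * Lw.S)) ^ 2 → LawN c Lw th n1 → ∀ n,
      kap k0 n ^ (9 / 256 : ℝ) + 1 * (12 * UK Lw lam n (n + 1) * kap k0 n ^ (1 / 45 : ℝ)) / 2 ≤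
        ρ / 4 * c1 := by
  have hcl := hc.cl
  have h1 := ev_kap (ev_le (C := 1) (b := 9 / 256) (by norm_num)
    (show 0 < ρ / 4 * c1 / 2 by positivity) 0)
  have h2 := ev_kap (ev_le (C := 6 / c.cl) (b := 1 / 45) (by norm_num)
    (show 0 < ρ / 4 * c1 / 2 by positivity) 0)
  filter_upwards [h1, h2, ev_small one_pos] with k0 h1 h2 hk X _ Lw lam th n1 hlam hk' hL n
  have hk0 := hk.1
  have hκ := kap_pos hk0 n
  have h1 := h1 n
  have h2 := h2 n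
  rw [pow_zero, mul_one, one_mul] at h1
  rw [pow_zero, mul_one] at h2
  have e1 := UK_le hc hL hk' hk0 n (n + 1)
  have e2 : kn Lw lam (n + 1) * (4 / c.cl / kap k0 n) = 1 / c.cl := by
    rw [kn_kap hk' (n + 1), kap_succ]
    field_simp
  rw [e2] at e1
  have e3 : 0 ≤ kap k0 n ^ (1 / 45 : ℝ) := Real.rpow_nonneg hκ.le _
  have e4 : 1 * (12 * UK Lw lam n (n + 1) * kap k0 n ^ (1 / 45 : ℝ)) / 2 ≤
      6 / c.cl * kap k0 n ^ (1 / 45 : ℝ) := by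
    calc 1 * (12 * UK Lw lam n (n + 1) * kap k0 n ^ (1 / 45 : ℝ)) / 2
        = 6 * UK Lw lam n (n + 1) * kap k0 n ^ (1 / 45 : ℝ) := by ring
      _ ≤ 6 * (1 / c.cl) * kap k0 n ^ (1 / 45 : ℝ) := by gcongr
      _ = _ := by ring
  linarith

/-- polynomials of the level are smaller than the negative powers of `κ` -/
theorem ev_poly (C : ℝ) {b : ℝ} (hb : 0 < b) (m : ℕ) :
    ∀ᶠ k0 in 𝓝[>] (0 : ℝ), ∀ n : ℕ, C * ((n : ℝ) + 3) ^ m ≤ kap k0 n ^ (-b) := by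
  have h1 := ev_kap (ev_ge (|C| * 3 ^ m) hb m)
  filter_upwards [h1, ev_small (show (0 : ℝ) < Real.exp (-1) from Real.exp_pos _)]
    with k0 h1 hk n
  have hk0 := hk.1
  have h2 : ((n : ℝ) + 3) ≤ 3 * Real.log (1 / kap k0 n) := by
    have e1 : Real.log (1 / kap k0 n) = Real.log (1 / k0) + n * Real.log 4 := by
      have e0 : 1 / kap k0 n = 1 / k0 * 4 ^ n := by
        unfold kap
        rw [one_div (4 : ℝ), inv_pow]
        field_simp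
      rw [e0, Real.log_mul (by positivity) (by positivity), Real.log_pow]
    have e2 : 1 ≤ Real.log (1 / k0) := by
      rw [one_div, Real.log_inv]
      have := Real.log_le_log hk0 hk.2
      rw [Real.log_exp] at this
      linarith
    have e3 : 1 ≤ Real.log 4 := by
      have h4 : Real.exp 1 ≤ 4 := by
        have := Real.exp_one_lt_d9
        linarith
      have h5 := Real.log_le_log (Real.exp_pos 1) h4
      rwa [Real.log_exp] at h5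
    rw [e1]
    have e4 : (n : ℝ) * 1 ≤ n * Real.log 4 := mul_le_mul_of_nonneg_left e3 (Nat.cast_nonneg n)
    have e5 : (0 : ℝ) ≤ n := Nat.cast_nonneg n
    linarith
  have h3 : ((n : ℝ) + 3) ^ m ≤ (3 * Real.log (1 / kap k0 n)) ^ m :=
    pow_le_pow_left₀ (by positivity) h2 m
  calc C * ((n : ℝ) + 3) ^ m ≤ |C| * (3 * Real.log (1 / kap k0 n)) ^ m := by
        exact mul_le_mul (le_abs_self C) h3 (by positivity) (abs_nonneg C)
    _ = |C| * 3 ^ m * Real.log (1 / kap k0 n) ^ m := by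
        rw [mul_pow]
        ring
    _ ≤ _ := h1 n

/-- `SiteNum` -/
theorem ev_siteNumC (hq : q.Ok c) {g1 co : ℝ} (hg1 : 0 < g1) (hg3 : g1 ≤ 3) (hco : 0 < co) :
    ∀ᶠ k0 in 𝓝[>] (0 : ℝ), ∀ (N : ℕ) [NeZero N] (X : Type) [Fintype X] (Lw : Law X)
      (Sf : SiteF X) (lam E es : ℝ) (g0 : ℂ) (gam Lm : ℝ) (n : ℕ) (om0 : ℝ),
      co / ((n : ℝ) + 3) ^ 2 ≤ om0 →
      SiteNum (datC x c q N Lw Sf lam E k0 es g0 gam Lm).f
        (datC x c q N Lw Sf lam E k0 es g0 gam Lm).P n (kap k0 n ^ (1 / 64 : ℝ))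
        (g1 / kap k0 n) (k0 ^ (x.vi / 2 / 2)) om0 := by
  have hvi := x.vi_pos
  have hc1 := hq.c1
  have hCz := hq.pos.Cz
  have hcs := hq.pos.cs
  have h1 := ev_kap (ev_le (C := 4) (b := 1 / 64) (by norm_num)
    (show 0 < c.Cz * c.cs by positivity) 0)
  have h2 := ev_kap (ev_le (C := 1) (b := 1 / 64) (by norm_num)
    (show 0 < 1 / 4 * (q.c1 / 2) by positivity) 0)
  have h3 := ev_poly (2 * g1 / co) (b := x.vi / 2) (by positivity) 2
  filter_upwards [h1, h2, h3, ev_small (show (0 : ℝ) < 1 / 2 by norm_num)] with k0 h1 h2 h3 hk N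
    _ X _ Lw Sf lam E es g0 gam Lm n om0 hom
  have hk0 := hk.1
  have hk1 : k0 ≤ 1 := hk.2.trans (by norm_num)
  have hκ := kap_pos hk0 n
  have hκ1 : kap k0 n ≤ 1 := (kap_le hk0 n).trans hk1
  have h1 := h1 n
  have h2 := h2 n
  have h3 := h3 n
  rw [pow_zero, mul_one] at h1 h2
  rw [one_mul] at h2
  have hvp : 1 ≤ kap k0 n ^ (-(x.vi / 2)) :=
    Real.one_le_rpow_of_pos_of_le_one_of_nonpos hκ hκ1 (by linarith)
  have hn3 : (0 : ℝ) < (n : ℝ) + 3 := by positivity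
  refine ⟨hκ, Real.rpow_nonneg hκ.le _, by positivity, ?_, h1, ?_, ?_⟩
  · show g1 / kap k0 n ≤ 3 / 4 / kap k0 (n + 1)
    rw [kap_succ]
    have e : 3 / 4 / (kap k0 n / 4) = 3 / kap k0 n := by field_simp
    rw [e]
    gcongr
  · show k0 ^ (x.vi / 2 / 2) * kap k0 n ^ (1 / 64 : ℝ) ≤
      1 / 4 * kap k0 n ^ (-(x.vi / 2)) * (q.c1 / 2)
    have e1 : k0 ^ (x.vi / 2 / 2) ≤ 1 := Real.rpow_le_one hk0.le hk1 (by positivity)
    have e2 : 0 ≤ kap k0 n ^ (1 / 64 : ℝ) := Real.rpow_nonneg hκ.le _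
    calc k0 ^ (x.vi / 2 / 2) * kap k0 n ^ (1 / 64 : ℝ) ≤ 1 * kap k0 n ^ (1 / 64 : ℝ) :=
          mul_le_mul_of_nonneg_right e1 e2
      _ ≤ 1 / 4 * 1 * (q.c1 / 2) := by linarith
      _ ≤ 1 / 4 * kap k0 n ^ (-(x.vi / 2)) * (q.c1 / 2) := by gcongr
  · show g1 / kap k0 n * kap k0 n ≤ 1 / 2 * kap k0 n ^ (-(x.vi / 2)) * om0
    have e1 : g1 / kap k0 n * kap k0 n = g1 := by field_simp
    rw [e1]
    have e2 : 1 / 2 * (2 * g1 / co * ((n : ℝ) + 3) ^ 2) * (co / ((n : ℝ) + 3) ^ 2) ≤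
        1 / 2 * kap k0 n ^ (-(x.vi / 2)) * om0 := by
      have e3 : 0 ≤ co / ((n : ℝ) + 3) ^ 2 := by positivity
      exact mul_le_mul (mul_le_mul_of_nonneg_left h3 (by norm_num)) hom e3 (by positivity)
    refine le_trans (le_of_eq ?_) e2
    field_simp

/-- `WtNum` -/
theorem ev_wtNumC (hq : q.Ok c) :
    ∀ᶠ k0 in 𝓝[>] (0 : ℝ), ∀ (N : ℕ) [NeZero N] (X : Type) [Fintype X] (Lw : Law X)
      (Sf : SiteF X) (lam E es : ℝ) (g0 : ℂ) (gam Lm : ℝ) (M : ℕ),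
      Ctx LP x c q k0 N Lw Sf lam E es g0 gam Lm M →
      LawN c Lw q.th (lv k0 x.al (M + 1)) → ∀ n, n < lv k0 x.al (M + 1) →
      WtNum (datC x c q N Lw Sf lam E k0 es g0 gam Lm) Lw lam n (k0 ^ (x.vi / 2))
        (k0 ^ (x.vi / 2 / 2)) := by
  have hvi := x.vi_pos
  have hc1 := hq.c1
  have hC1 := hq.C1
  have hCz := hq.pos.Cz
  have hcs := hq.pos.cs
  have s1 := ev_le (C := c.Cz) (b := x.vi / 2) (by positivity) one_pos 0
  have s2 := ev_le (C := c.Cz) (b := x.vi / 2 / 2) (by positivity) one_pos 0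
  have s3 := ev_le (C := c.Cz * (2 * q.C1)) (b := x.vi / 2 / 2) (by positivity) hcs 0
  have s4 := ev_le (C := 1) (b := x.vi / 2) (by positivity) (show 0 < q.c1 / 8 by positivity) 0
  filter_upwards [s1, s2, s3, s4, ev_small (show (0 : ℝ) < 1 / 2 by norm_num)] with k0 s1 s2 s3 s4
    hk N _ X _ Lw Sf lam E es g0 gam Lm M H hL n hn
  have hk0 := hk.1
  rw [pow_zero, mul_one] at s1 s2 s3 s4
  rw [one_mul] at s4
  have hg1 := H.dat.g1
  have hg2 : g0.im ≤ q.C1 :=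
    ((le_abs_self _).trans (Complex.abs_im_le_norm g0)).trans H.dat.g2
  have hD0 := Lw.D0
  refine ⟨H.hlam, ?_, (show n + 1 ≤ lv k0 x.al (M + 1) from hn).trans H.dat.lv, hL.r1,
    (kn_kap H.dat.k (n + 1)).le, (kn_kap H.dat.k n).le, ?_, s1, s2, ?_, ?_, ?_⟩
  · refine le_trans ?_ hL.hs
    have e1 : (2 : ℝ) ^ (n + 1) ≤ 2 ^ lv k0 x.al (M + 1) := pow_le_pow_right₀ (by norm_num) hn
    gcongr
  · show c.cl * kap k0 (n + 1) ≤ _
    rw [kn_kap H.dat.k (n + 1)]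
    exact mul_le_mul_of_nonneg_right hL.cl (kap_pos hk0 _).le
  · show c.Cz * k0 ^ (x.vi / 2 / 2) * (g0.im + (0 + k0 ^ (x.vi / 2))) ≤ c.cs
    have e1 : g0.im + (0 + k0 ^ (x.vi / 2)) ≤ 2 * q.C1 := by linarith
    have e2 : 0 ≤ k0 ^ (x.vi / 2 / 2) := Real.rpow_nonneg hk0.le _
    calc c.Cz * k0 ^ (x.vi / 2 / 2) * (g0.im + (0 + k0 ^ (x.vi / 2)))
        ≤ c.Cz * k0 ^ (x.vi / 2 / 2) * (2 * q.C1) :=
          mul_le_mul_of_nonneg_left e1 (by positivity)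
      _ = c.Cz * (2 * q.C1) * k0 ^ (x.vi / 2 / 2) := by ring
      _ ≤ c.cs := s3
  · show g0.im + (0 + k0 ^ (x.vi / 2)) ≤ 3 / 2 * (3 / 4 * g0.im)
    linarith
  · show 0 ≤ 3 / 4 * g0.im
    linarith

/-- `UseNum` for `e = th / 2`, `ρ = th / 4` -/
theorem ev_useNumC (hq : q.Ok c) :
    ∀ᶠ k0 in 𝓝[>] (0 : ℝ), ∀ (N : ℕ) [NeZero N] (X : Type) [Fintype X] (Lw : Law X)
      (Sf : SiteF X) (lam E es : ℝ) (g0 : ℂ) (gam Lm : ℝ) (M : ℕ),
      Ctx LP x c q k0 N Lw Sf lam E es g0 gam Lm M →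
      LawN c Lw q.th (lv k0 x.al (M + 1)) →
      UseNum (datC x c q N Lw Sf lam E k0 es g0 gam Lm) Lw (k0 ^ (x.vi / 2))
        (k0 ^ (x.vi / 2 / 2)) (q.th / 2) (q.th / 4) := by
  have hvi := x.vi_pos
  have hc1 := hq.c1
  have hC1 := hq.C1
  have hCz := hq.pos.Cz
  have hcs := hq.pos.cs
  have hcl := hq.pos.cl
  have hth := hq.th
  have hth1 := hq.th1
  have s1 := ev_le (C := c.Cz) (b := x.vi / 2) (by positivity) (show 0 < q.th / 2 by positivity) 0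
  have s2 := ev_le (C := c.Cz) (b := x.vi / 2 / 2) (by positivity)
    (show 0 < q.th / 2 * c.cl by positivity) 0
  have s3 := ev_le (C := c.Cz * (2 * q.C1)) (b := x.vi / 2 / 2) (by positivity)
    (show 0 < q.th / 2 * c.cs by positivity) 0
  have s4 := ev_le (C := 1) (b := x.vi / 2) (by positivity) one_pos 0
  filter_upwards [s1, s2, s3, s4, ev_small (show (0 : ℝ) < 1 / 2 by norm_num)] with k0 s1 s2 s3 s4
    hk N _ X _ Lw Sf lam E es g0 gam Lm M H hL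
  have hk0 := hk.1
  rw [pow_zero, mul_one] at s1 s2 s3 s4
  rw [one_mul] at s4
  have hg2 : g0.im ≤ q.C1 :=
    ((le_abs_self _).trans (Complex.abs_im_le_norm g0)).trans H.dat.g2
  have h1 := hL.th
  refine ⟨by positivity, s1, s2, ?_, by linarith, by linarith, hL.th1⟩
  show c.Cz * k0 ^ (x.vi / 2 / 2) * (g0.im + (0 + k0 ^ (x.vi / 2))) ≤ q.th / 2 * c.cs
  have e1 : g0.im + (0 + k0 ^ (x.vi / 2)) ≤ 2 * q.C1 := by linarith
  have e2 : 0 ≤ k0 ^ (x.vi / 2 / 2) := Real.rpow_nonneg hk0.le _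
  calc c.Cz * k0 ^ (x.vi / 2 / 2) * (g0.im + (0 + k0 ^ (x.vi / 2)))
      ≤ c.Cz * k0 ^ (x.vi / 2 / 2) * (2 * q.C1) :=
        mul_le_mul_of_nonneg_left e1 (by positivity)
    _ = c.Cz * (2 * q.C1) * k0 ^ (x.vi / 2 / 2) := by ring
    _ ≤ q.th / 2 * c.cs := s3

end Pool.Agent.AND
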