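import Pool.Agent.AND.SetupB
import Pool.Agent.AND.StepNumC

/-! # AND / LawBD: THE PROPERTY `LP` OF A GENERAL LAW (helper27; light file)

* `LawB κ F` : the `LawP` of a general law: constants `κ` (independent of the precision, the torus, the coupling),
  site functions `SfOf`, precision `2 ^ nf` at least `F lam n1` digits (`F` arbitrary) and `8 D 2^(n1+1) ≤ ep 2^nf`.
* `lawN_of` : the numbers of the law for the steps (`LawN`). -/

set_option autoImplicit false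

open Matrix Finset Filter Topology MeasureTheory

noncomputable section

namespace Pool.Agent.AND

open Pool.Agent.Kin Pool.Agent.APS Pool.Agent.ANM Pool.Agent.ANC Pool.Agent.ANB Pool.Agent.ANQ

/-- THE PROPERTY OF THE LAW (general law), up to the level `n1` -/
structure LawB (κ : LawC) (F : ℝ → ℕ → ℕ) (X : Type) [Fintype X] (Lw : Law X) (Sf : SiteF X)
    (lam : ℝ) (n1 : ℕ) : Prop where
  of : LawOf κ Lw
  sf : Sf = SfOf Lw lam (n1 + 1)
  nf1 : n1 + 1 ≤ Lw.nf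
  nfF : F lam n1 ≤ Lw.nf
  prec : 8 * Lw.D * 2 ^ (n1 + 1) ≤ Lw.ep * 2 ^ Lw.nf

namespace LawB

variable {κ : LawC} {F : ℝ → ℕ → ℕ} {X : Type} [Fintype X] {Lw : Law X} {Sf : SiteF X}
  {lam : ℝ} {n1 : ℕ}

theorem prec_le (h : LawB κ F X Lw Sf lam n1) {n : ℕ} (hn : n ≤ n1 + 1) :
    8 * Lw.D * 2 ^ n ≤ Lw.ep * 2 ^ Lw.nf := by
  refine le_trans (mul_le_mul_of_nonneg_left (pow_le_pow_right₀ (by norm_num) hn) ?_) h.prec
  have := Lw.D0
  positivity

/-- the remaining variance does not increase -/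
theorem kk_anti (h : LawB κ F X Lw Sf lam n1) (hκ : κ.Ok) {n : ℕ} (hn : n ≤ n1 + 1)
    (E es : ℝ) (a : X) :
    (sysOf Lw lam E es).kk (n + 1) a ≤ (sysOf Lw lam E es).kk n a :=
  AND.kk_anti (h.of.an hκ).le (h.prec_le hn) a

/-- `0 ≤ zt` for every outcome -/
theorem zt0 [DecidableEq X] (h : LawB κ F X Lw Sf lam n1) (hκ : κ.Ok) {T : Type}
    [DecidableEq T] {n : ℕ} (hn : n ≤ n1 + 1) (N : Finset T) (v : T → X) (x : T) (a : X) :
    0 ≤ (digOf Lw lam n N v).zt x a :=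
  digOf_zt0 (h.of.an hκ).le (h.prec_le hn) N v x a

/-- lower bound of the counting weights on strong classes -/
theorem om_ge (h : LawB κ F X Lw Sf lam n1) (hκ : κ.Ok) {n : ℕ} (hn : n ≤ n1) {a : X}
    (hw : ¬ Lw.wk n a) : 1 / ((n : ℝ) + 2) ^ 2 ≤ Sf.om n a := by
  rw [h.sf]
  exact h.of.om_ge hκ (by have := h.nf1; omega) hw lam _

/-- variance of the strong classes -/
theorem kk_low (h : LawB κ F X Lw Sf lam n1) {n : ℕ} (hn : n ≤ n1 + 1) {a : X}
    (hw : ¬ Lw.wk n a) (E es : ℝ) : κ.cL * kn Lw lam n ≤ (sysOf Lw lam E es).kk n a := by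
  rw [← h.of.cL]
  exact AND.kk_low hw (h.prec_le hn)

end LawB

/-- `LawN` FROM `LawB` -/
theorem lawN_of {κ : LawC} {F : ℝ → ℕ → ℕ} {X : Type} [Fintype X] {Lw : Law X} {Sf : SiteF X}
    {lam : ℝ} {n1 : ℕ} {c : Cst} {th : ℝ} (h : LawB κ F X Lw Sf lam n1) (hκ : κ.Ok)
    (he : κ.ep < κ.D) (hcl : c.cl ≤ κ.cL) (hth : th ≤ κ.thL) : LawN c Lw th n1 := by
  have h1 := hκ.cL_lt_one he
  have h2 : (Lw.ep / (12 * Lw.D)) ^ 2 = κ.cL := h.of.cL
  have h3 := thL_le Lw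
  rw [h.of.cL] at h3
  refine ⟨by rw [h2]; exact hcl, by rw [h2]; exact h1.le, h.prec_le (Nat.le_succ n1), ?_, ?_⟩
  · rw [h.of.thL]
    exact hth
  · linarith

end Pool.Agent.AND
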