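import Pool.Agent.AND.Top3
import Pool.Agent.AND.LawBD

/-! # AND / LawB: THE PROPERTY `LP` OF A GENERAL LAW AND `LawI` FOR IT

* `LawB κ F` (in `LawBD`) : the `LawP` of a general law.
* `lawI_of` : `LawI (LawB κ F)` for every law with these constants.
* `law_in` : THE LAWS: for every bounded density there are constants `κ` such that `hlaw` of `main_of_goals` holds. -/

set_option autoImplicit false

open Matrix Finset Filter Topology MeasureTheory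

noncomputable section

namespace Pool.Agent.AND

open Pool.Agent.Kin Pool.Agent.APS Pool.Agent.ANM Pool.Agent.ANC Pool.Agent.ANB Pool.Agent.ANQ
open Pool.Agent.Helper3.Anderson (GoodLaw)

/-- `LawI` FOR A GENERAL LAW -/
theorem lawI_of {d : ℕ} {CM : ℝ} {x : Ex d CM} {c : Cst} {q : Csts} {κ : LawC} {F : ℝ → ℕ → ℕ}
    {X : Type} [Fintype X] {Lw : Law X} {lam : ℝ} {n1 : ℕ} {Cph cph : ℝ} (hof : LawOf κ Lw)
    (hnf1 : n1 + 1 ≤ Lw.nf) (hnfF : F lam n1 ≤ Lw.nf)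
    (hprec : 8 * Lw.D * 2 ^ (n1 + 1) ≤ Lw.ep * 2 ^ Lw.nf) (hcl : c.cl ≤ 4 * cL Lw)
    (hCph : cL Lw ≤ Cph) (hcph : cph ≤ 1 - Lw.th 1 / Lw.th 0)
    (hth0 : 16 * ((3 : ℝ) ^ d) ^ 4 * Lw.th 0 ≤ 1) (hthL : q.th ≤ thL Lw) (hthc : q.th ≤ cL Lw) :
    LawI (LawB κ F) x c q Cph cph Lw (SfOf Lw lam (n1 + 1)) lam n1 where
  lp := ⟨hof, rfl, hnf1, hnfF, hprec⟩
  phi := fun K n a b h => SfOf_phi_congr h
  om := fun n a b h => SfOf_om_congr h
  S := SfOf_pos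
  cl := hcl
  nf := by
    refine le_trans ?_ hprec
    have h3 : (1 : ℝ) ≤ 2 ^ (n1 + 1) := one_le_pow₀ (by norm_num)
    have h4 := Lw.D0
    nlinarith
  st := fun a K _ => by
    have h := law_sf0 Lw lam (n1 + 1) (by omega) hCph hcph K
    obtain ⟨-, ⟨φ0, -, h2, h3⟩, h4⟩ := h
    exact ⟨(h3 a).le.trans h2, h4 a⟩
  th0 := hth0
  sf := fun N _ E es g0 gam Lm => Or.inl (sfB_law rfl le_rfl hnf1 hprec hthL hthc)

/-- THE LAWS: constants `κ` of a bounded density; for all `c, q` adapted to `κ` and EVERY `F` the hypothesis `law` of `Choice` -/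
theorem law_in {μ : Measure ℝ} [IsProbabilityMeasure μ] {M : ℝ} {K : NNReal}
    (hμ : GoodLaw μ M K) (d : ℕ) :
    ∃ κ : LawC, κ.Ok ∧ κ.ep < κ.D ∧ ∀ (CM : ℝ) (x : Ex d CM) (c : Cst) (q : Csts)
      (F : ℝ → ℕ → ℕ), c.cl ≤ 4 * κ.cL → q.th ≤ κ.thL → ∀ lam : ℝ, 0 < lam → ∀ n1 : ℕ,
        ∃ᶠ nf in atTop, ∃ Lw : Law (XC μ M nf), IsReal κ.S Lw ∧ n1 ≤ Lw.nf ∧
          ∃ Sf : SiteF (XC μ M nf), LawI (LawB κ F) x c q κ.cL (1 / 4) Lw Sf lam n1 := by
  classical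
  have hM := hμ.one_le
  have hK := Kpos hμ
  set D0 : ℝ := 2 * M * K with hD0
  have hD : 1 ≤ D0 := hK
  set ep : ℝ := 1 / (32 * ((3 : ℝ) ^ d) ^ 4) with hep
  have h3 : (1 : ℝ) ≤ ((3 : ℝ) ^ d) ^ 4 := one_le_pow₀ (one_le_pow₀ (by norm_num))
  have hep0 : 0 < ep := by positivity
  have hep1 : ep ≤ 1 / 32 := by
    rw [hep]
    exact one_div_le_one_div_of_le (by norm_num) (by linarith)
  obtain ⟨m, hm⟩ := pow_unbounded_of_one_lt (12 * D0 / ep) (show (1 : ℝ) < 2 by norm_num)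
  have hm0 : 0 < m := by
    rcases Nat.eq_zero_or_pos m with rfl | h
    · exfalso
      rw [pow_zero, div_lt_one hep0] at hm
      linarith
    · exact h
  rw [div_lt_iff₀ hep0] at hm
  set th : ℕ → ℝ := fun n => ep * (1 + 1 / ((n : ℝ) + 1)) with hth
  have hanti : Antitone th := by
    refine antitone_nat_of_succ_le fun n => ?_
    refine mul_le_mul_of_nonneg_left ?_ hep0.le
    have h4 : (0 : ℝ) < (n : ℝ) + 1 := by positivity
    have h5 : 1 / (((n + 1 : ℕ) : ℝ) + 1) ≤ 1 / ((n : ℝ) + 1) := by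
      refine one_div_le_one_div_of_le h4 ?_
      push_cast
      linarith
    linarith
  have hthe : ∀ n, ep ≤ th n := by
    intro n
    have h4 : 0 ≤ 1 / ((n : ℝ) + 1) := by positivity
    have h5 : ep * 0 ≤ ep * (1 / ((n : ℝ) + 1)) := mul_le_mul_of_nonneg_left h4 hep0.le
    show ep ≤ ep * (1 + 1 / ((n : ℝ) + 1))
    nlinarith
  have hth0 : th 0 = 2 * ep := by
    show ep * (1 + 1 / (((0 : ℕ) : ℝ) + 1)) = 2 * ep
    norm_num
    ring
  have hth1 : th 0 < 1 := by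
    rw [hth0]
    linarith
  have h2m : (0 : ℝ) < 2 ^ (m - 1) := by positivity
  have h2m1 : (1 : ℝ) ≤ 2 ^ (m - 1) := one_le_pow₀ (by norm_num)
  set κ : LawC := ⟨2 ^ (m - 1) * M, 2 ^ (m - 1) * D0, ep, th, m⟩ with hκ
  have hOk : κ.Ok :=
    { S0 := by
        show 0 < 2 ^ (m - 1) * M
        have : 0 < M := by linarith
        positivity
      D0 := by
        show 0 < 2 ^ (m - 1) * D0
        have : 0 < D0 := by linarith
        positivity
      ep0 := hep0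
      m0 := hm0
      an := by
        show 12 * (2 ^ (m - 1) * D0) < 2 ^ m * (2 ^ (m - 1) * ep)
        calc 12 * (2 ^ (m - 1) * D0) = 2 ^ (m - 1) * (12 * D0) := by ring
          _ < 2 ^ (m - 1) * (2 ^ m * ep) := mul_lt_mul_of_pos_left hm h2m
          _ = _ := by ring
      thv := fun _ => rfl }
  refine ⟨κ, hOk, ?_, ?_⟩
  · show ep < 2 ^ (m - 1) * D0
    nlinarith
  intro CM x c q F hcl hqth lam _ n1
  rw [Filter.frequently_atTop]
  intro N0
  obtain ⟨P, hP⟩ := pow_unbounded_of_one_lt (8 * κ.D * 2 ^ (n1 + 1) / ep)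
    (show (1 : ℝ) < 2 by norm_num)
  rw [div_lt_iff₀ hep0] at hP
  set t : ℕ := N0 + (n1 + 1) + F lam n1 + P with ht
  have hmt : t ≤ m * t := Nat.le_mul_of_pos_left t hm0
  refine ⟨m * t, by omega, law hμ (m * t) m hm0 ⟨t, rfl⟩ ep th hep0 hanti hthe hth1,
    ⟨rfl, rfl, rfl⟩, ?_, ?_⟩
  · show n1 ≤ m * t
    omega
  set Lw := law hμ (m * t) m hm0 ⟨t, rfl⟩ ep th hep0 hanti hthe hth1 with hLw
  have hof : LawOf κ Lw := ⟨rfl, rfl, rfl, rfl, rfl⟩
  have hnf : Lw.nf = m * t := rfl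
  refine ⟨SfOf Lw lam (n1 + 1), lawI_of hof ?_ ?_ ?_ ?_ ?_ ?_ ?_ ?_ ?_⟩
  · rw [hnf]
    omega
  · rw [hnf]
    omega
  · rw [hnf, hof.D, hof.ep]
    refine hP.le.trans ?_
    rw [mul_comm]
    exact mul_le_mul_of_nonneg_left (pow_le_pow_right₀ (by norm_num) (by omega)) hep0.le
  · rw [hof.cL]
    exact hcl
  · exact hof.cL.le
  · rw [show (1 : ℕ) = 0 + 1 from rfl, hof.th_ratio hOk]
    norm_num
  · show 16 * ((3 : ℝ) ^ d) ^ 4 * th 0 ≤ 1
    rw [hth0, hep]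
    field_simp
    norm_num
  · rw [hof.thL]
    exact hqth
  · refine le_trans ?_ (thL_le Lw)
    rw [hof.thL]
    exact hqth

end Pool.Agent.AND
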