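import Pool.Agent.AND.Top3

/-! # AND / Top4: THE FINAL THEOREM FROM A CHOICE OF THE CONSTANTS

`main_of_consts` : if for all constants `c1, C1, C, C'` of the start there are constants `c : Cst`, `q : Csts` with
`StepGoal`, `LeakGoal` and a family of discretisations of the law, then the Anderson model has continuous spectrum in
every `[a,b]`, `0 < a < b < 4d`, almost surely, at weak disorder. -/

set_option autoImplicit false

open Matrix Finset Filter Topology MeasureTheory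

noncomputable section

namespace Pool.Agent.AND

open Pool.Agent.Kin Pool.Agent.APS Pool.Agent.ANM Pool.Agent.ANC Pool.Agent.ANB Pool.Agent.ANQ
open Pool.Agent.Helper3.Anderson (GoodLaw)

variable {d : ℕ} {CM : ℝ}

/-- A CHOICE OF THE CONSTANTS for the constants `c1, C1, C, C'` of the start -/
structure Choice {μ : Measure ℝ} [IsProbabilityMeasure μ] {M : ℝ} {K : NNReal}
    (hμ : GoodLaw μ M K) (x : Ex d CM) (c1 C1 C C' : ℝ) where
  c : Cst
  q : Csts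
  LP : LawP
  S : ℝ
  Cp : ℝ
  Cph : ℝ
  cph : ℝ
  q1 : q.c1 = c1
  q2 : q.C1 = C1
  q3 : q.C = C
  q4 : q.C' = C'
  S0 : 0 < S
  Cp0 : 0 ≤ Cp
  cph0 : 0 < cph
  ok : q.Ok c
  st : StartC x c q.c1 q.C1 q.C
  step : StepGoal LP x c q Cp x.Kp
  leak : LeakGoal LP x c q x.K1
  law : ∀ lam : ℝ, 0 < lam → ∀ n1 : ℕ, ∃ᶠ nf in atTop, ∃ Lw : Law (XC μ M nf),
    IsReal S Lw ∧ n1 ≤ Lw.nf ∧ ∃ Sf : SiteF (XC μ M nf), LawI LP x c q Cph cph Lw Sf lam n1

/-- the start with a smaller constant `c1` -/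
theorem StartL.mono {L : ℕ} [NeZero L] {E es k0 h0 s e c1 C1 C C' cl : ℝ} {g0 ζ : ℂ} {c : ℝ}
    (h : StartL d L E es k0 h0 s e c1 C1 C C' cl g0 ζ) (hc : 0 < c) (hc1 : c ≤ c1)
    (hk : 0 < k0) (hcl : 0 < cl) (hC' : 0 < C') :
    StartL d L E es k0 h0 s e c C1 C C' cl g0 ζ where
  st := { h.st with lo := hc1.trans h.st.lo }
  glo := by
    refine le_trans ?_ h.glo
    have h1 : cl * c ≤ cl * c1 := mul_le_mul_of_nonneg_left hc1 hcl.le
    exact mul_le_mul_of_nonneg_right (by linarith) hk.le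
  ghi := h.ghi
  ent := fun x => by
    refine (h.ent x).trans ?_
    unfold LmS
    have h1 : cl * c / 4 * k0 ≤ cl * c1 / 4 * k0 := by
      have h2 : cl * c ≤ cl * c1 := mul_le_mul_of_nonneg_left hc1 hcl.le
      exact mul_le_mul_of_nonneg_right (by linarith) hk.le
    have h3 : 0 < cl * c / 4 * k0 := by positivity
    have h4 : 0 < cl * c1 / 4 * k0 := lt_of_lt_of_le h3 h1
    have h5 := Real.log_le_log (by positivity) (one_div_le_one_div_of_le h3 h1)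
    exact mul_le_mul_of_nonneg_left (by linarith) hC'.le

/-- CONTINUOUS SPECTRUM FROM A CHOICE OF THE CONSTANTS -/
theorem main_of_choice (hd : 3 ≤ d) {μ : Measure ℝ} [IsProbabilityMeasure μ] {M : ℝ}
    {K : NNReal} (hμ : GoodLaw μ M K) (x : Ex d CM) {a b : ℝ} (ha : 0 < a)
    (hab : a < b) (hb : b < 4 * d)
    (H : ∀ c1 C1 C C' : ℝ, 0 < c1 → c1 ≤ 1 → 1 ≤ C1 → 1 ≤ C → 0 < C' →
      Nonempty (Choice hμ x c1 C1 C C')) :
    ∃ lam0 : ℝ, 0 < lam0 ∧ ∀ lam : ℝ, 0 < lam → lam ≤ lam0 →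
      ∀ᵐ ω ∂(Helper3.Anderson.siteLaw d μ), PureCont (fun x => lam * ω x) a b := by
  set δ : ℝ := min a (4 * d - b) with hδdef
  have hδ : 0 < δ := lt_min ha (by linarith)
  have he0 : 0 < x.e := by rw [x.e_eq]; norm_num
  have he : x.e < 1 := by rw [x.e_eq]; norm_num
  obtain ⟨c1, C1, C, C', h1, h2, h3, h4, hst⟩ := start_ex_law hd hδ he0 he
  obtain ⟨Q⟩ := H (min c1 1) C1 C C' (lt_min h1 one_pos) (min_le_right _ _) h2 h3 h4
  have hcl := Q.ok.pos.cl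
  have hs : ∀ᶠ k0 in 𝓝[>] (0 : ℝ), ∀ (L : ℕ) [NeZero L] (X : Type) [Fintype X] (Lw : Law X)
        (lam E es : ℝ) (a0 : X), 0 ≤ lam → kn Lw lam 0 = k0 → Q.c.cl ≤ 4 * cL Lw →
        8 * Lw.D ≤ Lw.ep * 2 ^ Lw.nf → δ ≤ E → E ≤ 4 * d - δ →
        0 < es → es ≤ k0 ^ 2 → k0 ^ (-6 : ℝ) ≤ L → 1 / es ≤ L →
        ∃ g0 ζ : ℂ, StartL d L E es k0 ((sysOf Lw lam E es).hh 0 a0)
          ((sysOf Lw lam E es).kk 0 a0) x.e (min c1 1) C1 C C' Q.c.cl g0 ζ := by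
    filter_upwards [hst Q.c.cl hcl, self_mem_nhdsWithin] with k0 h hk0 L _ X _ Lw lam E es a0 b1
      b2 b3 b4 b5 b6 b7 b8 b9 b10
    obtain ⟨g0, ζ, h5⟩ := h L X Lw lam E es a0 b1 b2 b3 b4 b5 b6 b7 b8 b9 b10
    exact ⟨g0, ζ, h5.mono (lt_min h1 one_pos) (min_le_left _ _) hk0 hcl h4⟩
  refine main_of_goals hd hμ Q.S0 x Q.ok Q.st Q.Cp0 Q.step Q.leak (δ := δ) (min_le_left _ _) hδ
    hab (by have := min_le_right a (4 * d - b); linarith) ?_ Q.Cph Q.cph0 Q.law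
  rw [Q.q1, Q.q2, Q.q3, Q.q4]
  exact hs

end Pool.Agent.AND
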