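import Pool.Agent.AND.Use
import Pool.Agent.ANE.W10
import Pool.Agent.ANM.Agmon

/-! # AND / End1: THE DETERMINISTIC END

From the final medium of the algorithm to a witness (`ANE.WitT`) for the ACTUAL potential.

`b` = diagonal of the inverse Green function minus `H0` (on the whole torus), `U` = holes (real `b`), absorption at
least `es = η_*` off `U`.  `φ : Tor d L → ℕ` = Agmon weight: `φ 0 = 0`, steps at most one, and the truncated weight
`min φ (R + 1)` is constant near `U`.  Near `0` (`φ ≤ R`) the diagonal `b` is within `eA` of `V - E - i es` off `U`.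
The witness is `u = 1_{φ ≤ R} G_{·0}`, `W = es 1_{Uᶜ}`.
-/

open Matrix Finset

noncomputable section

namespace Pool.Agent.AND

open Pool.Agent.Kin Pool.Agent.APS Pool.Agent.ANL Pool.Agent.ANE

/-- weighted row sums of the free operator -/
theorem H0T_row_le {d L : ℕ} [NeZero L] (x : Tor d L) (f : Tor d L → ℝ) (hf : ∀ y, 0 ≤ f y) :
    ∑ y, ‖H0T d L x y‖ * f y ≤
      2 * d * f x + ∑ j : Fin d, (f (x + Pi.single j 1) + f (x - Pi.single j 1)) := by
  have h1 : ∀ y, ‖H0T d L x y‖ * f y ≤ (if x = y then 2 * (d : ℝ) * f y else 0) +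
      ∑ j : Fin d, ((if y = x + Pi.single j 1 then f y else 0) +
        (if y = x - Pi.single j 1 then f y else 0)) := by
    intro y
    have h2 : ‖H0T d L x y‖ ≤ (if x = y then 2 * (d : ℝ) else 0) +
        ∑ j : Fin d, ((if y = x + Pi.single j 1 then 1 else 0) +
          (if y = x - Pi.single j 1 then 1 else 0)) := by
      unfold H0T
      refine (norm_sub_le _ _).trans (add_le_add ?_ ?_)
      · split_ifs <;> simp
      · refine (norm_sum_le _ _).trans (Finset.sum_le_sum fun j _ => ?_)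
        refine (norm_add_le _ _).trans (add_le_add ?_ ?_) <;> split_ifs <;> simp
    refine (mul_le_mul_of_nonneg_right h2 (hf y)).trans (le_of_eq ?_)
    rw [add_mul, Finset.sum_mul]
    congr 1
    · split_ifs <;> simp
    · refine Finset.sum_congr rfl fun j _ => ?_
      rw [add_mul]
      congr 1 <;> split_ifs <;> simp
  refine (Finset.sum_le_sum fun y _ => h1 y).trans (le_of_eq ?_)
  rw [Finset.sum_add_distrib, Finset.sum_comm]
  congr 1
  · simp
  · refine Finset.sum_congr rfl fun j _ => ?_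
    rw [Finset.sum_add_distrib]
    simp

theorem H0T_row (d L : ℕ) [NeZero L] (x : Tor d L) : ∑ y, ‖H0T d L x y‖ ≤ 4 * d := by
  have h := H0T_row_le x (fun _ => 1) (fun _ => zero_le_one)
  simp only [mul_one] at h
  refine h.trans (le_of_eq ?_)
  rw [Finset.sum_const, Finset.card_univ, Fintype.card_fin, nsmul_eq_mul]
  ring

/-- a cut approximate solution is a witness -/
theorem witT_of_res {d L : ℕ} [NeZero L] (V W : Tor d L → ℝ) {E c η : ℝ} (u : Tor d L → ℂ)
    (hW : ∀ x, 0 ≤ W x ∧ W x ≤ η) (Lam : Finset (Tor d L))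
    (h0 : (0 : Tor d L) ∈ Lam) (hLam : ∀ x ∈ Lam, ∀ j, 2 * |rep x j| + 4 ≤ (L : ℤ))
    (hc : c < (u 0).im)
    (hs : ∑ x ∈ Lam, ‖rsdT V E W u x‖ * (1 + ‖u x‖) +
      ∑ x : Tor d L, ∑ y : Tor d L, (if (x ∈ Lam ↔ y ∉ Lam) then
      ‖H0T d L x y‖ * ‖u y‖ * (1 + ‖u x‖) else 0) < η) : WitT L V E c η := by
  classical
  set w : Tor d L → ℂ := fun x => if x ∈ Lam then u x else 0 with hw
  have hr : ∀ x, rsdT V E W w x = (if x ∈ Lam then rsdT V E W u x else 0) +
      ∑ y : Tor d L, (if (x ∈ Lam ↔ y ∉ Lam) then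
      (if x ∈ Lam then -(H0T d L x y * u y) else H0T d L x y * u y) else 0) := by
    intro x
    by_cases hx : x ∈ Lam
    · have h1 : rsdT V E W w x = rsdT V E W u x -
          ((H0T d L).mulVec u x - (H0T d L).mulVec w x) := by
        simp only [rsdT, hw, hx, if_true]
        ring
      rw [h1, if_pos hx, sub_eq_add_neg]
      congr 1
      simp only [Matrix.mulVec, dotProduct]
      rw [← Finset.sum_sub_distrib, ← Finset.sum_neg_distrib]
      refine Finset.sum_congr rfl fun y _ => ?_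
      by_cases hy : y ∈ Lam
      · simp [hw, hx, hy]
      · simp [hw, hx, hy]
    · have hx0 : x ≠ 0 := fun h => hx (h ▸ h0)
      have h1 : rsdT V E W w x = (H0T d L).mulVec w x := by
        simp [rsdT, hw, hx, hx0]
      rw [h1, if_neg hx, zero_add]
      simp only [Matrix.mulVec, dotProduct]
      refine Finset.sum_congr rfl fun y _ => ?_
      by_cases hy : y ∈ Lam
      · simp [hw, hx, hy]
      · simp [hw, hx, hy]
  refine ⟨w, W, hW, fun x hx => ?_, ?_, ?_⟩
  · have : x ∈ Lam := by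
      by_contra h
      exact hx (by simp [hw, h])
    exact hLam x this
  · have e1 : ∑ x ∈ Lam, ‖rsdT V E W u x‖ * (1 + ‖u x‖) =
        ∑ x, (if x ∈ Lam then ‖rsdT V E W u x‖ * (1 + ‖u x‖) else 0) := by
      rw [Finset.sum_ite_mem, Finset.univ_inter]
    rw [e1, ← Finset.sum_add_distrib] at hs
    refine lt_of_le_of_lt (Finset.sum_le_sum fun x _ => ?_) hs
    have hwx : ‖w x‖ ≤ ‖u x‖ := by
      by_cases hx : x ∈ Lam
      · simp [hw, hx]
      · simp [hw, hx]
    calc ‖rsdT V E W w x‖ * (1 + ‖w x‖)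
        ≤ ((if x ∈ Lam then ‖rsdT V E W u x‖ else 0) +
          ∑ y : Tor d L, (if (x ∈ Lam ↔ y ∉ Lam) then ‖H0T d L x y‖ * ‖u y‖ else 0)) *
          (1 + ‖u x‖) := by
          refine mul_le_mul ?_ (by linarith) (by positivity)
            (add_nonneg (by split_ifs <;> positivity)
              (Finset.sum_nonneg fun y _ => by split_ifs <;> positivity))
          rw [hr]
          refine (norm_add_le _ _).trans (add_le_add ?_
            ((norm_sum_le _ _).trans (Finset.sum_le_sum fun y _ => ?_)))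
          · split_ifs <;> simp
          · split_ifs <;> simp
      _ = (if x ∈ Lam then ‖rsdT V E W u x‖ * (1 + ‖u x‖) else 0) +
          ∑ y : Tor d L, (if (x ∈ Lam ↔ y ∉ Lam) then
          ‖H0T d L x y‖ * ‖u y‖ * (1 + ‖u x‖) else 0) := by
          rw [add_mul, Finset.sum_mul]
          congr 1
          · split_ifs <;> simp
          · refine Finset.sum_congr rfl fun y _ => ?_
            split_ifs <;> simp
  · simpa [hw, h0] using hc

/-- the final medium: everything the end needs, `Vf` = potential of the discrete model -/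
structure Fin1 {d L : ℕ} [NeZero L] (Vf : Tor d L → ℝ) (E es C c eA : ℝ) (R N : ℕ)
    (b : Tor d L → ℂ) (U : Finset (Tor d L)) (φ : Tor d L → ℕ) : Prop where
  unit : IsUnit (H0T d L + diagonal b).det
  /-- the holes are completely read -/
  bU : ∀ x ∈ U, b x = ((Vf x - E : ℝ) : ℂ)
  /-- absorption off the holes -/
  eta : ∀ x, x ∉ U → es ≤ -(b x).im
  z0 : (0 : Tor d L) ∉ U
  g1 : ‖rsc (H0T d L) b 0 0‖ ≤ C
  g2 : c < (rsc (H0T d L) b 0 0).im
  p0 : φ 0 = 0
  /-- steps of the weight -/
  p1 : ∀ x, ∀ j : Fin d, φ (x + Pi.single j 1) ≤ φ x + 1 ∧ φ x ≤ φ (x + Pi.single j 1) + 1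
  /-- the truncated weight is constant near the holes -/
  p2 : ∀ x ∈ U, ∀ j : Fin d, min (φ (x + Pi.single j 1)) (R + 1) = min (φ x) (R + 1) ∧
    min (φ (x - Pi.single j 1)) (R + 1) = min (φ x) (R + 1)
  /-- the set `φ ≤ R` is in the window -/
  win : ∀ x, φ x ≤ R → ∀ j, 2 * |rep x j| + 4 ≤ (L : ℤ)
  card : (univ.filter fun x => φ x ≤ R).card ≤ N
  /-- near `0` everything off the holes is almost completely read -/
  near : ∀ x, x ∉ U → φ x ≤ R → ‖b x - (((Vf x - E : ℝ) : ℂ) - (es : ℂ) * Complex.I)‖ ≤ eA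

/-- the error of the end -/
def endErr (d N R : ℕ) (es C eA : ℝ) : ℝ :=
  (N * eA * Real.sqrt (C / es) +
    N * (8 * d) * (Real.sqrt (2 * (C / es)) * Real.exp (-(es / (8 * d) * R)))) *
      (1 + Real.sqrt (C / es))

theorem sqrt_bd {p q r : ℝ} (hq : 0 < q) (hp : 0 ≤ p) (h : q * p ^ 2 ≤ r) :
    p ≤ Real.sqrt (r / q) := by
  rw [← Real.sqrt_sq hp]
  refine Real.sqrt_le_sqrt ?_
  rw [le_div_iff₀ hq]
  linarith

namespace Fin1

variable {d L : ℕ} [NeZero L] {Vf : Tor d L → ℝ} {E es C c eA : ℝ} {R N : ℕ}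
  {b : Tor d L → ℂ} {U : Finset (Tor d L)} {φ : Tor d L → ℕ}

theorem adm (h : Fin1 Vf E es C c eA R N b U φ) (hes : 0 < es) : Adm (H0T d L) b := by
  refine ⟨H0T_realSym, fun x => ?_, h.unit⟩
  by_cases hx : x ∈ U
  · rw [h.bU x hx, Complex.ofReal_im]
  · linarith [h.eta x hx]

theorem imU (h : Fin1 Vf E es C c eA R N b U φ) {x : Tor d L} (hx : x ∈ U) : (b x).im = 0 := by
  rw [h.bU x hx, Complex.ofReal_im]

theorem C_pos (h : Fin1 Vf E es C c eA R N b U φ) : 0 ≤ C :=
  (norm_nonneg _).trans h.g1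

/-- entries off the holes -/
theorem ent (h : Fin1 Vf E es C c eA R N b U φ) (hes : 0 < es) {x : Tor d L} (hx : x ∉ U) :
    ‖rsc (H0T d L) b x 0‖ ≤ Real.sqrt (C / es) := by
  refine sqrt_bd hes (norm_nonneg _) ?_
  have h1 := ward_le (h.adm hes) {x} 0
  rw [Finset.sum_singleton] at h1
  have h2 : (rsc (H0T d L) b 0 0).im ≤ C :=
    (le_abs_self _).trans ((Complex.abs_im_le_norm _).trans h.g1)
  rw [adm_symm (h.adm hes) x 0]
  exact (mul_le_mul_of_nonneg_right (h.eta x hx) (by positivity)).trans (h1.trans h2)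

/-- the Agmon weight -/
def wg (es : ℝ) (R : ℕ) (φ : Tor d L → ℕ) (x : Tor d L) : ℝ :=
  es / (8 * d) * (min (φ x) (R + 1) : ℕ)

theorem sinh_le {t : ℝ} (h0 : 0 ≤ t) (h1 : t ≤ 1) : Real.sinh t ≤ 2 * t := by
  have h2 : Real.exp t ≤ 1 + t + t ^ 2 := by
    have := Real.exp_bound' h0 h1 (n := 2) (by norm_num)
    simp only [Finset.sum_range_succ, Finset.sum_range_zero, Nat.factorial] at this
    norm_num at this
    nlinarith
  have h3 : 1 - t ≤ Real.exp (-t) := by linarith [Real.add_one_le_exp (-t)]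
  rw [Real.sinh_eq]
  nlinarith

/-- the weight is admissible -/
theorem admW (h : Fin1 Vf E es C c eA R N b U φ) (hd : 0 < d) (hes : 0 < es) (hes1 : es ≤ 1) :
    ANM.AdmW (H0T d L) b (wg es R φ) := by
  have hd0 : (0 : ℝ) < d := by exact_mod_cast hd
  have hd1 : (1 : ℝ) ≤ d := by exact_mod_cast hd
  set mu : ℝ := es / (8 * d) with hmu
  have hmu0 : 0 < mu := by rw [hmu]; positivity
  have hmu1 : mu ≤ 1 := by
    rw [hmu, div_le_one (by positivity)]
    linarith
  have hstep : ∀ x y : Tor d L, (φ x ≤ φ y + 1 ∧ φ y ≤ φ x + 1) →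
      |Real.sinh (wg es R φ x - wg es R φ y)| ≤ 2 * mu := by
    intro x y hxy
    have h1 : |wg es R φ x - wg es R φ y| ≤ mu := by
      unfold wg
      rw [← hmu, ← mul_sub, abs_mul, abs_of_pos hmu0]
      have h2 : |((min (φ x) (R + 1) : ℕ) : ℝ) - ((min (φ y) (R + 1) : ℕ) : ℝ)| ≤ 1 := by
        rw [abs_le]
        constructor
        · have : min (φ y) (R + 1) ≤ min (φ x) (R + 1) + 1 := by omega
          have h3 : ((min (φ y) (R + 1) : ℕ) : ℝ) ≤ ((min (φ x) (R + 1) : ℕ) : ℝ) + 1 := by
            exact_mod_cast this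
          linarith
        · have : min (φ x) (R + 1) ≤ min (φ y) (R + 1) + 1 := by omega
          have h3 : ((min (φ x) (R + 1) : ℕ) : ℝ) ≤ ((min (φ y) (R + 1) : ℕ) : ℝ) + 1 := by
            exact_mod_cast this
          linarith
      nlinarith
    have h4 : |Real.sinh (wg es R φ x - wg es R φ y)| =
        Real.sinh |wg es R φ x - wg es R φ y| := by
      rw [Real.abs_sinh]
    rw [h4]
    refine (sinh_le (abs_nonneg _) (h1.trans hmu1)).trans ?_
    linarith
  intro x
  have h1 := H0T_row_le x (fun y => |Real.sinh (wg es R φ x - wg es R φ y)|)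
    (fun y => abs_nonneg _)
  refine h1.trans ?_
  simp only [sub_self, Real.sinh_zero, abs_zero, mul_zero, zero_add]
  by_cases hx : x ∈ U
  · have h2 : ∑ j : Fin d, (|Real.sinh (wg es R φ x - wg es R φ (x + Pi.single j 1))| +
        |Real.sinh (wg es R φ x - wg es R φ (x - Pi.single j 1))|) = 0 := by
      refine Finset.sum_eq_zero fun j _ => ?_
      obtain ⟨h3, h4⟩ := h.p2 x hx j
      unfold wg
      rw [h3, h4]
      simp
    rw [h2, h.imU hx]
    simp
  · have h2 : ∑ j : Fin d, (|Real.sinh (wg es R φ x - wg es R φ (x + Pi.single j 1))| +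
        |Real.sinh (wg es R φ x - wg es R φ (x - Pi.single j 1))|) ≤
        ∑ _j : Fin d, (2 * mu + 2 * mu) := by
      refine Finset.sum_le_sum fun j _ => add_le_add ?_ ?_
      · have h3 := h.p1 x j
        exact hstep _ _ ⟨h3.2, h3.1⟩
      · have h3 := h.p1 (x - Pi.single j 1) j
        rw [sub_add_cancel] at h3
        exact hstep _ _ h3
    refine h2.trans ?_
    rw [Finset.sum_const, Finset.card_univ, Fintype.card_fin, nsmul_eq_mul, hmu]
    have h3 := h.eta x hx
    have h4 : (d : ℝ) * (2 * (es / (8 * d)) + 2 * (es / (8 * d))) = es / 2 := by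
      field_simp
      ring
    rw [h4]
    linarith

/-- decay off the holes -/
theorem decay (h : Fin1 Vf E es C c eA R N b U φ) (hd : 0 < d) (hes : 0 < es) (hes1 : es ≤ 1)
    {x : Tor d L} (hx : x ∉ U) (hR : R ≤ φ x) :
    ‖rsc (H0T d L) b x 0‖ ≤ Real.sqrt (2 * (C / es)) * Real.exp (-(es / (8 * d) * R)) := by
  have hd0 : (0 : ℝ) < d := by exact_mod_cast hd
  have hadm := h.adm hes
  have h1 := ANM.agmon H0T_realSym (h.admW hd hes hes1) (fun y => rsc (H0T d L) b y 0)
  have h2 : (H0T d L + diagonal b) *ᵥ (fun y => rsc (H0T d L) b y 0) = Pi.single 0 1 :=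
    ANL.col_eq hadm 0
  rw [h2] at h1
  have h3 : ∑ y, ((Real.exp (2 * wg es R φ y) : ℝ) : ℂ) * (star (rsc (H0T d L) b y 0) *
      (Pi.single 0 1 : Tor d L → ℂ) y) =
      ((Real.exp (2 * wg es R φ 0) : ℝ) : ℂ) * star (rsc (H0T d L) b 0 0) := by
    rw [Finset.sum_eq_single 0]
    · rw [Pi.single_eq_same, mul_one]
    · intro y _ hy
      rw [Pi.single_eq_of_ne hy, mul_zero, mul_zero]
    · intro hx
      exact absurd (Finset.mem_univ _) hx
  have h0 : wg es R φ 0 = 0 := by
    unfold wg
    rw [h.p0]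
    simp
  rw [h3, h0, mul_zero, Real.exp_zero, Complex.ofReal_one, one_mul, norm_star] at h1
  have h4 : -(b x).im * (Real.exp (2 * wg es R φ x) * ‖rsc (H0T d L) b x 0‖ ^ 2) ≤
      ∑ y, -(b y).im * (Real.exp (2 * wg es R φ y) * ‖rsc (H0T d L) b y 0‖ ^ 2) :=
    Finset.single_le_sum
      (f := fun y => -(b y).im * (Real.exp (2 * wg es R φ y) * ‖rsc (H0T d L) b y 0‖ ^ 2))
      (fun z _ => mul_nonneg (by have := hadm.im z; linarith) (by positivity))
      (Finset.mem_univ x)
  have h5 : es * (Real.exp (es / (8 * d) * R) * ‖rsc (H0T d L) b x 0‖) ^ 2 ≤ 2 * C := by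
    have h6 : Real.exp (2 * (es / (8 * d) * R)) ≤ Real.exp (2 * wg es R φ x) := by
      refine Real.exp_le_exp.2 ?_
      unfold wg
      have h7 : R ≤ min (φ x) (R + 1) := le_min hR (Nat.le_succ _)
      have h8 : (R : ℝ) ≤ ((min (φ x) (R + 1) : ℕ) : ℝ) := by exact_mod_cast h7
      have h9 : 0 ≤ es / (8 * d) := by positivity
      nlinarith
    have h7 : (Real.exp (es / (8 * d) * R) * ‖rsc (H0T d L) b x 0‖) ^ 2 =
        Real.exp (2 * (es / (8 * d) * R)) * ‖rsc (H0T d L) b x 0‖ ^ 2 := by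
      rw [mul_pow, ← Real.exp_nat_mul]
      norm_num
    rw [h7]
    calc es * (Real.exp (2 * (es / (8 * d) * R)) * ‖rsc (H0T d L) b x 0‖ ^ 2)
        ≤ -(b x).im * (Real.exp (2 * wg es R φ x) * ‖rsc (H0T d L) b x 0‖ ^ 2) := by
          refine mul_le_mul (h.eta x hx) ?_ (by positivity) (by linarith [h.eta x hx])
          exact mul_le_mul_of_nonneg_right h6 (by positivity)
      _ ≤ 2 * C := (h4.trans h1).trans (by linarith [h.g1])
  have h6 := sqrt_bd hes (by positivity) h5
  rw [Real.exp_neg, ← div_eq_mul_inv, le_div_iff₀ (Real.exp_pos _)]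
  calc _ = Real.exp (es / (8 * d) * R) * ‖rsc (H0T d L) b x 0‖ := mul_comm _ _
    _ ≤ _ := h6
    _ = _ := by rw [mul_div_assoc]

/-- entries on the holes -/
theorem entU (h : Fin1 Vf E es C c eA R N b U φ) (hes : 0 < es) {Lm : ℝ}
    (hB : IsUnit (ANI.MBB (H0T d L) b Uᶜ).det)
    (hLm : ∀ z w, ‖(ANI.MBB (H0T d L) b Uᶜ)⁻¹ z w‖ ≤ Lm) {x : Tor d L} (hx : x ∈ U) :
    ‖rsc (H0T d L) b x 0‖ ≤
      Fintype.card (Tor d L) * (Lm * (4 * d * Real.sqrt (C / es))) := by
  have hadm := h.adm hes
  have hx' : x ∉ Uᶜ := fun h1 => (Finset.mem_compl.1 h1) hx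
  have h1 := ANI.hole_sol (X := Uᶜ) hB (v := fun y => rsc (H0T d L) b y 0) (fun y hy => by
    rw [ANL.col_eq hadm]
    have hyU : y ∈ U := by
      by_contra h2
      exact hy (Finset.mem_compl.2 h2)
    exact Pi.single_eq_of_ne (fun e : y = 0 => h.z0 (e ▸ hyU)) _) ⟨x, hx'⟩
  have h1' : rsc (H0T d L) b x 0 = -∑ z : {y // y ∉ Uᶜ},
      (ANI.MBB (H0T d L) b Uᶜ)⁻¹ ⟨x, hx'⟩ z *
        ∑ y : {y // y ∈ Uᶜ}, H0T d L z y * rsc (H0T d L) b y 0 := h1
  rw [h1', norm_neg]
  have hLm0 : 0 ≤ Lm := (norm_nonneg _).trans (hLm ⟨x, hx'⟩ ⟨x, hx'⟩)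
  have h2 : ∀ z : {y // y ∉ Uᶜ}, ‖(ANI.MBB (H0T d L) b Uᶜ)⁻¹ ⟨x, hx'⟩ z *
      ∑ y : {y // y ∈ Uᶜ}, H0T d L z y * rsc (H0T d L) b y 0‖ ≤
        Lm * (4 * d * Real.sqrt (C / es)) := by
    intro z
    rw [norm_mul]
    refine mul_le_mul (hLm _ _) ?_ (norm_nonneg _) hLm0
    refine (norm_sum_le _ _).trans ?_
    have h3 : ∑ y : {y // y ∈ Uᶜ}, ‖H0T d L z y * rsc (H0T d L) b y 0‖ ≤
        ∑ y : {y // y ∈ Uᶜ}, ‖H0T d L z y‖ * Real.sqrt (C / es) := by
      refine Finset.sum_le_sum fun y _ => ?_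
      rw [norm_mul]
      exact mul_le_mul_of_nonneg_left (h.ent hes (Finset.mem_compl.1 y.2)) (norm_nonneg _)
    refine h3.trans ?_
    rw [← Finset.sum_mul]
    refine mul_le_mul_of_nonneg_right ?_ (Real.sqrt_nonneg _)
    refine le_trans ?_ (H0T_row d L z)
    rw [Finset.sum_coe_sort Uᶜ (fun y => ‖H0T d L z y‖)]
    exact Finset.sum_le_univ_sum_of_nonneg fun y => norm_nonneg _
  refine (norm_sum_le _ _).trans ((Finset.sum_le_sum fun z _ => h2 z).trans ?_)
  rw [Finset.sum_const, nsmul_eq_mul, Finset.card_univ]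
  refine mul_le_mul_of_nonneg_right ?_ (by positivity)
  exact_mod_cast Fintype.card_subtype_le _

/-- THE DETERMINISTIC END: the final medium gives a witness for every potential near `Vf` -/
theorem witT (h : Fin1 Vf E es C c eA R N b U φ) (hd : 0 < d) (hes : 0 < es) (hes1 : es ≤ 1)
    {η ef Lm : ℝ} (heη : es ≤ η) (hef : 0 ≤ ef) (V : Tor d L → ℝ)
    (hV : ∀ x, |V x - Vf x| ≤ ef)
    (hB : IsUnit (ANI.MBB (H0T d L) b Uᶜ).det)
    (hLm : ∀ z w, ‖(ANI.MBB (H0T d L) b Uᶜ)⁻¹ z w‖ ≤ Lm)
    (hn : endErr d N R es C eA + N * ef * (Real.sqrt (C / es) +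
      Fintype.card (Tor d L) * (|Lm| * (4 * d * Real.sqrt (C / es)))) *
      (1 + Real.sqrt (C / es) + Fintype.card (Tor d L) * (|Lm| * (4 * d * Real.sqrt (C / es))))
        < η) : ANE.WitT L V E c η := by
  classical
  have hadm := h.adm hes
  set u : Tor d L → ℂ := fun x => rsc (H0T d L) b x 0 with hu
  set W : Tor d L → ℝ := fun x => if x ∈ U then 0 else es with hW
  set Lam : Finset (Tor d L) := univ.filter fun x => φ x ≤ R with hLam
  have hmem : ∀ x, x ∈ Lam ↔ φ x ≤ R := fun x => by simp [hLam]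
  set B : ℝ := Real.sqrt (C / es) with hBdef
  set K : ℝ := Fintype.card (Tor d L) * (|Lm| * (4 * d * B)) with hK
  have hB0 : 0 ≤ B := Real.sqrt_nonneg _
  have hK0 : 0 ≤ K := by positivity
  set D : ℝ := Real.sqrt (2 * (C / es)) * Real.exp (-(es / (8 * d) * R)) with hD
  have hD0 : 0 ≤ D := by positivity
  have huX : ∀ x, x ∉ U → ‖u x‖ ≤ B := fun x hx => h.ent hes hx
  have huU : ∀ x, x ∈ U → ‖u x‖ ≤ K := by
    intro x hx
    refine (h.entU hes hB hLm hx).trans ?_
    rw [hK]
    refine mul_le_mul_of_nonneg_left ?_ (by positivity)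
    exact mul_le_mul_of_nonneg_right (le_abs_self _) (by positivity)
  -- the residual
  have hres : ∀ x, rsdT V E W u x = ((V x : ℂ) - E - Complex.I * W x - b x) * u x := by
    intro x
    have h1 := congrFun (ANL.col_eq hadm (0 : Tor d L)) x
    rw [Matrix.add_mulVec, Pi.add_apply, Matrix.mulVec_diagonal] at h1
    unfold rsdT
    have h2 : (if x = 0 then (1 : ℂ) else 0) = (Pi.single 0 1 : Tor d L → ℂ) x := by
      by_cases hx : x = 0
      · subst hx; simp
      · rw [if_neg hx, Pi.single_eq_of_ne hx]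
    rw [h2, ← h1, hu]
    ring
  have heA : ∀ x, x ∉ U → φ x ≤ R → ‖(V x : ℂ) - E - Complex.I * W x - b x‖ ≤ eA + ef := by
    intro x hx hR
    have h1 := h.near x hx hR
    have h2 : (V x : ℂ) - E - Complex.I * W x - b x =
        ((V x - Vf x : ℝ) : ℂ) - (b x - (((Vf x - E : ℝ) : ℂ) - (es : ℂ) * Complex.I)) := by
      simp only [hW, if_neg hx]
      push_cast
      ring
    rw [h2]
    refine (norm_sub_le _ _).trans ?_
    rw [Complex.norm_real, Real.norm_eq_abs]
    linarith [hV x]
  have heU : ∀ x, x ∈ U → ‖(V x : ℂ) - E - Complex.I * W x - b x‖ ≤ ef := by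
    intro x hx
    have h2 : (V x : ℂ) - E - Complex.I * W x - b x = ((V x - Vf x : ℝ) : ℂ) := by
      rw [h.bU x hx]
      simp only [hW, if_pos hx]
      push_cast
      ring
    rw [h2, Complex.norm_real, Real.norm_eq_abs]
    exact hV x
  have heA0 : 0 ≤ eA := (norm_nonneg _).trans (h.near 0 h.z0 (by rw [h.p0]; exact Nat.zero_le _))
  have hN : (Lam.card : ℝ) ≤ N := by exact_mod_cast h.card
  refine witT_of_res V W u (fun x => ?_) Lam ((hmem 0).2 (by rw [h.p0]; exact Nat.zero_le _))
    (fun x hx => h.win x ((hmem x).1 hx)) h.g2 (lt_of_le_of_lt ?_ hn)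
  · simp only [hW]
    split_ifs
    · exact ⟨le_refl _, hes.le.trans heη⟩
    · exact ⟨hes.le, heη⟩
  · -- first sum
    have s1 : ∑ x ∈ Lam, ‖rsdT V E W u x‖ * (1 + ‖u x‖) ≤
        N * (eA * B * (1 + B) + ef * (B + K) * (1 + B + K)) := by
      have h1 : ∀ x ∈ Lam, ‖rsdT V E W u x‖ * (1 + ‖u x‖) ≤
          eA * B * (1 + B) + ef * (B + K) * (1 + B + K) := by
        intro x hx
        rw [hres, norm_mul]
        by_cases hxU : x ∈ U
        · have h2 := heU x hxU
          have h3 := huU x hxU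
          calc _ ≤ ef * (B + K) * (1 + B + K) := by
                refine mul_le_mul (mul_le_mul h2 (by linarith) (norm_nonneg _) hef) (by linarith)
                  (by positivity) (by positivity)
            _ ≤ _ := by
                have : 0 ≤ eA * B * (1 + B) := by positivity
                linarith
        · have h2 := heA x hxU ((hmem x).1 hx)
          have h3 := huX x hxU
          calc _ ≤ (eA + ef) * B * (1 + B) := by
                refine mul_le_mul (mul_le_mul h2 h3 (norm_nonneg _) (by linarith)) (by linarith)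
                  (by positivity) (by positivity)
            _ = eA * B * (1 + B) + ef * (B * (1 + B)) := by ring
            _ ≤ _ := by
                have : B * (1 + B) ≤ (B + K) * (1 + B + K) :=
                  mul_le_mul (by linarith) (by linarith) (by positivity) (by positivity)
                have := mul_le_mul_of_nonneg_left this hef
                linarith
      refine (Finset.sum_le_sum h1).trans ?_
      rw [Finset.sum_const, nsmul_eq_mul]
      exact mul_le_mul_of_nonneg_right hN (by positivity)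
    -- edges of the cut
    have hcut : ∀ x y : Tor d L, (x ∈ Lam ↔ y ∉ Lam) → H0T d L x y ≠ 0 →
        x ∉ U ∧ y ∉ U ∧ R ≤ φ x ∧ R ≤ φ y := by
      intro x y hxy hH
      have hnb : ∃ j : Fin d, y = x + Pi.single j 1 ∨ y = x - Pi.single j 1 := by
        by_contra hno
        push Not at hno
        apply hH
        unfold H0T
        have hne : x ≠ y := by
          rintro rfl
          tauto
        rw [if_neg hne, zero_sub, neg_eq_zero]
        refine Finset.sum_eq_zero fun j _ => ?_
        rw [if_neg (hno j).1, if_neg (hno j).2, add_zero]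
      obtain ⟨j, hj⟩ := hnb
      have hstep : φ x ≤ φ y + 1 ∧ φ y ≤ φ x + 1 := by
        rcases hj with rfl | rfl
        · have := h.p1 x j
          exact ⟨this.2, this.1⟩
        · have := h.p1 (x - Pi.single j 1) j
          rw [sub_add_cancel] at this
          exact this
      rw [hmem, hmem] at hxy
      have hxU : x ∉ U := by
        intro hU
        have h1 := h.p2 x hU j
        have h2 : min (φ y) (R + 1) = min (φ x) (R + 1) := by
          rcases hj with rfl | rfl
          · exact h1.1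
          · exact h1.2
        omega
      have hyU : y ∉ U := by
        intro hU
        have h1 := h.p2 y hU j
        have h2 : min (φ x) (R + 1) = min (φ y) (R + 1) := by
          rcases hj with rfl | rfl
          · have := h1.2
            rwa [add_sub_cancel_right] at this
          · have := h1.1
            rwa [sub_add_cancel] at this
        omega
      refine ⟨hxU, hyU, ?_, ?_⟩ <;> omega
    have s2 : ∑ x : Tor d L, ∑ y : Tor d L, (if (x ∈ Lam ↔ y ∉ Lam) then
        ‖H0T d L x y‖ * ‖u y‖ * (1 + ‖u x‖) else 0) ≤ N * (8 * d) * D * (1 + B) := by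
      have h1 : ∀ x y : Tor d L, (if (x ∈ Lam ↔ y ∉ Lam) then
          ‖H0T d L x y‖ * ‖u y‖ * (1 + ‖u x‖) else 0) ≤
          (if x ∈ Lam then ‖H0T d L x y‖ * (D * (1 + B)) else 0) +
          (if y ∈ Lam then ‖H0T d L y x‖ * (D * (1 + B)) else 0) := by
        intro x y
        by_cases hxy : (x ∈ Lam ↔ y ∉ Lam)
        · rw [if_pos hxy]
          have h2 : ‖H0T d L x y‖ * ‖u y‖ * (1 + ‖u x‖) ≤ ‖H0T d L x y‖ * (D * (1 + B)) := by
            by_cases hH : H0T d L x y = 0
            · rw [hH]; simp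
            · obtain ⟨h3, h4, h5, h6⟩ := hcut x y hxy hH
              rw [mul_assoc]
              refine mul_le_mul_of_nonneg_left ?_ (norm_nonneg _)
              exact mul_le_mul (h.decay hd hes hes1 h4 h6) (by linarith [huX x h3])
                (by positivity) hD0
          by_cases hx : x ∈ Lam
          · rw [if_pos hx]
            have h3 : 0 ≤ (if y ∈ Lam then ‖H0T d L y x‖ * (D * (1 + B)) else 0) := by
              split_ifs <;> positivity
            linarith
          · have hy : y ∈ Lam := by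
              by_contra hy
              exact hx (hxy.2 hy)
            rw [if_neg hx, if_pos hy, zero_add, H0T_realSym.symm y x]
            exact h2
        · rw [if_neg hxy]
          refine add_nonneg ?_ ?_ <;> split_ifs <;> positivity
      refine (Finset.sum_le_sum fun x _ => Finset.sum_le_sum fun y _ => h1 x y).trans ?_
      have h2 : ∑ x : Tor d L, ∑ y : Tor d L,
          (if x ∈ Lam then ‖H0T d L x y‖ * (D * (1 + B)) else 0) ≤
            N * (4 * d) * (D * (1 + B)) := by
        have h3 : ∀ x : Tor d L, ∑ y : Tor d L,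
            (if x ∈ Lam then ‖H0T d L x y‖ * (D * (1 + B)) else 0) ≤
              if x ∈ Lam then 4 * d * (D * (1 + B)) else 0 := by
          intro x
          split_ifs with hx
          · rw [← Finset.sum_mul]
            exact mul_le_mul_of_nonneg_right (H0T_row d L x) (by positivity)
          · simp
        refine (Finset.sum_le_sum fun x _ => h3 x).trans ?_
        rw [Finset.sum_ite_mem, Finset.univ_inter, Finset.sum_const, nsmul_eq_mul]
        calc (Lam.card : ℝ) * (4 * d * (D * (1 + B))) ≤ N * (4 * d * (D * (1 + B))) :=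
              mul_le_mul_of_nonneg_right hN (by positivity)
          _ = _ := by ring
      have h4 : ∑ x : Tor d L, ∑ y : Tor d L,
          (if y ∈ Lam then ‖H0T d L y x‖ * (D * (1 + B)) else 0) ≤
            N * (4 * d) * (D * (1 + B)) := by
        rw [Finset.sum_comm]
        exact h2
      simp only [Finset.sum_add_distrib]
      refine (add_le_add h2 h4).trans (le_of_eq ?_)
      ring
    refine (add_le_add s1 s2).trans (le_of_eq ?_)
    unfold endErr
    rw [← hBdef, ← hD]
    ring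

end Fin1

end Pool.Agent.AND
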