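import Pool.Agent.AND.End1
import Pool.Agent.ANB.Real
import Pool.Agent.ANE.Final

/-! # AND / End2: THE SOFT LIMIT `nf → ∞` AND THE TRANSFER TO THE REAL LAW

The torus, `lam`, `E`, `es` are fixed and the level `nf` of the discrete model tends to infinity.  For almost every `E`
(all tori) and almost every configuration all matrices `H_UU + lam V - E` are invertible; on a set of
probability `≥ 1 - ε` their inverses are bounded uniformly near the configuration (`soft`).
`andOut_of_fin`: the final medium with high probability for all large `nf` gives `ANE.AndOut`.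
-/

open Matrix Finset MeasureTheory Filter Topology

noncomputable section

namespace Pool.Agent.AND

open Pool.Agent.Kin Pool.Agent.APS Pool.Agent.ANL Pool.Agent.ANE Pool.Agent.ANB
open Pool.Agent.Helper3.Anderson (GoodLaw)

/-- the matrix of the holes `U` for the potential `lam V` -/
def HM (d L : ℕ) (lam : ℝ) (V : Tor d L → ℝ) (E : ℝ) (U : Finset (Tor d L)) [NeZero L] :
    Matrix {x // x ∉ Uᶜ} {x // x ∉ Uᶜ} ℂ :=
  ANI.MBB (H0T d L) (fun x => ((lam * V x - E : ℝ) : ℂ)) Uᶜ

variable {d L : ℕ} [NeZero L]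

theorem MBB_congrE {H : Matrix (Tor d L) (Tor d L) ℂ} {b b' : Tor d L → ℂ}
    {U : Finset (Tor d L)} (h : ∀ x ∈ U, b x = b' x) :
    ANI.MBB H b Uᶜ = ANI.MBB H b' Uᶜ := by
  ext i j
  unfold ANI.MBB
  simp only [Matrix.submatrix_apply, Matrix.add_apply]
  congr 1
  by_cases hij : (i : Tor d L) = j
  · rw [hij, Matrix.diagonal_apply_eq, Matrix.diagonal_apply_eq]
    refine h _ ?_
    by_contra h2
    exact j.2 (Finset.mem_compl.2 h2)
  · rw [Matrix.diagonal_apply_ne _ hij, Matrix.diagonal_apply_ne _ hij]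

theorem continuous_HM (lam : ℝ) (U : Finset (Tor d L)) :
    Continuous fun p : (Tor d L → ℝ) × ℝ => HM d L lam p.1 p.2 U := by
  unfold HM ANI.MBB
  refine Continuous.matrix_submatrix ?_ _ _
  refine continuous_const.add (Continuous.matrix_diagonal ?_)
  fun_prop

theorem continuous_HM' (lam E : ℝ) (U : Finset (Tor d L)) :
    Continuous fun V : Tor d L → ℝ => HM d L lam V E U :=
  (continuous_HM lam U).comp (continuous_id.prodMk continuous_const)

theorem continuous_det' (lam E : ℝ) (U : Finset (Tor d L)) :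
    Continuous fun V : Tor d L → ℝ => (HM d L lam V E U).det :=
  (continuous_HM' lam E U).matrix_det

/-- for every configuration only finitely many energies are singular -/
theorem ae_E (lam : ℝ) (V : Tor d L → ℝ) (U : Finset (Tor d L)) :
    ∀ᵐ E : ℝ, (HM d L lam V E U).det ≠ 0 := by
  rw [ae_iff]
  have h1 : {E : ℝ | ¬ (HM d L lam V E U).det ≠ 0} ⊆
      (fun E : ℝ => (E : ℂ)) ⁻¹' ((HM d L lam V 0 U).charpoly.roots.toFinset : Set ℂ) := by
    intro E hE
    rw [Set.mem_ofPred_eq, not_not] at hE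
    rw [Set.mem_preimage, Finset.mem_coe, Multiset.mem_toFinset,
      Polynomial.mem_roots (Matrix.charpoly_monic _).ne_zero, Polynomial.IsRoot,
      Matrix.eval_charpoly]
    have h2 : HM d L lam V E U = -(Matrix.scalar {x // x ∉ Uᶜ} (E : ℂ) - HM d L lam V 0 U) := by
      ext i j
      unfold HM ANI.MBB
      simp only [Matrix.submatrix_apply, Matrix.add_apply, Matrix.neg_apply, Matrix.sub_apply,
        Matrix.scalar_apply]
      by_cases hij : i = j
      · subst hij
        simp only [Matrix.diagonal_apply_eq]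
        push_cast
        ring
      · rw [Matrix.diagonal_apply_ne _ hij, Matrix.diagonal_apply_ne _ (fun h => hij (Subtype.ext h)),
          Matrix.diagonal_apply_ne _ (fun h => hij (Subtype.ext h))]
        ring
    rw [h2, Matrix.det_neg] at hE
    rcases mul_eq_zero.1 hE with h3 | h3
    · exact absurd h3 (pow_ne_zero _ (by norm_num))
    · exact h3
  refine measure_mono_null h1 (Set.Finite.measure_zero ?_ _)
  exact (Finset.finite_toSet _).preimage (Complex.ofReal_injective.injOn)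

/-- almost every energy is non-singular for almost every configuration, all tori, all hole sets -/
theorem ae_reg (d : ℕ) (μ : Measure ℝ) [IsProbabilityMeasure μ] (lam : ℝ) :
    ∀ᵐ E : ℝ, ∀ n : ℕ, ∀ᵐ V ∂(Measure.pi fun _ : Tor d (n + 1) => μ),
      ∀ U : Finset (Tor d (n + 1)), (HM d (n + 1) lam V E U).det ≠ 0 := by
  rw [ae_all_iff]
  intro n
  have h1 : ∀ U : Finset (Tor d (n + 1)), ∀ᵐ E : ℝ,
      ∀ᵐ V ∂(Measure.pi fun _ : Tor d (n + 1) => μ), (HM d (n + 1) lam V E U).det ≠ 0 := by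
    intro U
    rw [← Measure.ae_ae_comm]
    · exact Filter.Eventually.of_forall fun V => ae_E lam V U
    · refine IsOpen.measurableSet ?_
      exact isOpen_ne_fun (continuous_HM lam U).matrix_det continuous_const
  filter_upwards [(ae_all_iff.2 h1)] with E hE
  rw [ae_all_iff]
  exact hE

/-- the inverses are bounded by `Lm` -/
def Bdd (lam E : ℝ) (V : Tor d L → ℝ) (Lm : ℝ) : Prop :=
  ∀ U : Finset (Tor d L), IsUnit (HM d L lam V E U).det ∧ ∀ z w, ‖(HM d L lam V E U)⁻¹ z w‖ ≤ Lm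

theorem Bdd.mono {lam E : ℝ} {V : Tor d L → ℝ} {Lm Lm' : ℝ} (h : Bdd lam E V Lm)
    (hl : Lm ≤ Lm') : Bdd lam E V Lm' := fun U => ⟨(h U).1, fun z w => ((h U).2 z w).trans hl⟩

theorem bdd_local {lam E : ℝ} {V : Tor d L → ℝ} (h : ∀ U, (HM d L lam V E U).det ≠ 0) :
    ∃ Lm : ℝ, ∀ᶠ V' in 𝓝 V, Bdd lam E V' Lm := by
  have h1 : ∀ U : Finset (Tor d L), ∀ z w, ContinuousAt
      (fun V' => ‖(HM d L lam V' E U)⁻¹ z w‖) V := by
    intro U z w
    have e1 : (fun V' => ‖(HM d L lam V' E U)⁻¹ z w‖) =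
        fun V' => ‖((HM d L lam V' E U).det)⁻¹ * (HM d L lam V' E U).adjugate z w‖ := by
      funext V'
      rw [Matrix.inv_def, Matrix.smul_apply, Ring.inverse_eq_inv', smul_eq_mul]
    rw [e1]
    refine ContinuousAt.norm (ContinuousAt.mul ?_ ?_)
    · exact ((continuous_det' lam E U).continuousAt).inv₀ (h U)
    · exact (((continuous_HM' lam E U).matrix_adjugate).matrix_elem z w).continuousAt
  set Lm : ℝ := ∑ U : Finset (Tor d L), ∑ z, ∑ w, (‖(HM d L lam V E U)⁻¹ z w‖ + 1) with hLm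
  refine ⟨Lm, ?_⟩
  unfold Bdd
  rw [eventually_all]
  intro U
  refine Filter.Eventually.and ?_ ?_
  · have h2 : ∀ᶠ V' in 𝓝 V, (HM d L lam V' E U).det ≠ 0 :=
      ((continuous_det' lam E U).continuousAt).eventually_ne (h U)
    filter_upwards [h2] with V' h3
    exact isUnit_iff_ne_zero.2 h3
  · rw [eventually_all]
    intro z
    rw [eventually_all]
    intro w
    have h2 : ‖(HM d L lam V E U)⁻¹ z w‖ < Lm := by
      have h3 : ‖(HM d L lam V E U)⁻¹ z w‖ + 1 ≤ Lm := by
        rw [hLm]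
        refine le_trans ?_ (Finset.single_le_sum
          (f := fun U => ∑ z, ∑ w, (‖(HM d L lam V E U)⁻¹ z w‖ + 1))
          (fun U _ => Finset.sum_nonneg fun z _ => Finset.sum_nonneg fun w _ => by positivity)
          (Finset.mem_univ U))
        refine le_trans ?_ (Finset.single_le_sum
          (f := fun z => ∑ w, (‖(HM d L lam V E U)⁻¹ z w‖ + 1))
          (fun z _ => Finset.sum_nonneg fun w _ => by positivity) (Finset.mem_univ z))
        exact Finset.single_le_sum (f := fun w => (‖(HM d L lam V E U)⁻¹ z w‖ + 1))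
          (fun w _ => by positivity) (Finset.mem_univ w)
      linarith
    filter_upwards [(h1 U z w).eventually_lt continuousAt_const h2] with V' h3
    exact h3.le

/-- uniform bounds on a compact set -/
theorem bdd_compact {lam E : ℝ} {S : Set (Tor d L → ℝ)} (hS : IsCompact S)
    (h : ∀ V ∈ S, ∀ U, (HM d L lam V E U).det ≠ 0) :
    ∃ Lm rho : ℝ, 0 < rho ∧ ∀ V ∈ S, ∀ V', (∀ x, |V x - V' x| ≤ rho) → Bdd lam E V' Lm := by
  refine hS.induction_on (p := fun S => ∃ Lm rho : ℝ, 0 < rho ∧ ∀ V ∈ S, ∀ V',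
    (∀ x, |V x - V' x| ≤ rho) → Bdd lam E V' Lm) ?_ ?_ ?_ ?_
  · exact ⟨0, 1, one_pos, fun V hV => absurd hV (Set.notMem_empty _)⟩
  · rintro s t hst ⟨Lm, rho, h1, h2⟩
    exact ⟨Lm, rho, h1, fun V hV => h2 V (hst hV)⟩
  · rintro s t ⟨Lm, rho, h1, h2⟩ ⟨Lm', rho', h1', h2'⟩
    refine ⟨max Lm Lm', min rho rho', lt_min h1 h1', ?_⟩
    rintro V (hV | hV) V' hVV
    · exact (h2 V hV V' fun x => (hVV x).trans (min_le_left _ _)).mono (le_max_left _ _)
    · exact (h2' V hV V' fun x => (hVV x).trans (min_le_right _ _)).mono (le_max_right _ _)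
  · intro V hV
    obtain ⟨Lm, h1⟩ := bdd_local (h V hV)
    rw [Metric.eventually_nhds_iff] at h1
    obtain ⟨e, he, h2⟩ := h1
    refine ⟨Metric.ball V (e / 2), mem_nhdsWithin_of_mem_nhds (Metric.ball_mem_nhds _ (by positivity)),
      Lm, e / 4, by positivity, fun V1 hV1 V' hVV => h2 ?_⟩
    have h3 : dist V1 V' ≤ e / 4 := by
      rw [dist_pi_le_iff (by positivity)]
      intro x
      rw [Real.dist_eq]
      exact hVV x
    have h4 : dist V1 V < e / 2 := hV1
    calc dist V' V ≤ dist V' V1 + dist V1 V := dist_triangle _ _ _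
      _ < e := by rw [dist_comm V' V1]; linarith

/-- THE SOFT BOUND -/
theorem soft {μ : Measure ℝ} [IsProbabilityMeasure μ] {M : ℝ} {K : NNReal} (hμ : GoodLaw μ M K)
    {lam E : ℝ} (h : ∀ᵐ V ∂(Measure.pi fun _ : Tor d L => μ),
      ∀ U : Finset (Tor d L), (HM d L lam V E U).det ≠ 0) {δ : ℝ} (hδ : 0 < δ) :
    ∃ (S : Set (Tor d L → ℝ)) (Lm rho : ℝ), MeasurableSet S ∧ 0 < rho ∧
      (Measure.pi fun _ : Tor d L => μ).real Sᶜ ≤ δ ∧
      ∀ V ∈ S, ∀ V', (∀ x, |V x - V' x| ≤ rho) → Bdd lam E V' Lm := by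
  set P := Measure.pi fun _ : Tor d L => μ with hP
  set Q : Set (Tor d L → ℝ) := Set.pi Set.univ fun _ => Set.Icc (-M) M with hQ
  have hQc : IsCompact Q := isCompact_univ_pi fun _ => isCompact_Icc
  set S : ℕ → Set (Tor d L → ℝ) := fun m =>
    Q ∩ {V | ∀ U, 1 / ((m : ℝ) + 1) ≤ ‖(HM d L lam V E U).det‖} with hS
  have hcl : ∀ m : ℕ, IsClosed {V : Tor d L → ℝ | ∀ U,
      1 / ((m : ℝ) + 1) ≤ ‖(HM d L lam V E U).det‖} := by
    intro m
    rw [Set.ofPred_forall]
    exact isClosed_iInter fun U => isClosed_le continuous_const (continuous_det' lam E U).norm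
  have hSc : ∀ m, IsCompact (S m) := fun m => hQc.inter_right (hcl m)
  have hSm : ∀ m, MeasurableSet (S m) := fun m => (hSc m).isClosed.measurableSet
  have hmono : Monotone S := by
    intro m n hmn V hV
    refine ⟨hV.1, fun U => le_trans ?_ (hV.2 U)⟩
    refine one_div_le_one_div_of_le (by positivity) ?_
    have : (m : ℝ) ≤ n := by exact_mod_cast hmn
    linarith
  have hfull : P (⋃ m, S m) = 1 := by
    have h1 : ∀ᵐ V ∂P, V ∈ ⋃ m, S m := by
      have h2 : ∀ᵐ V ∂P, ∀ x, V x ∈ Set.Icc (-M) M := by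
        filter_upwards [ae_cmapT (Λ := Tor d L) hμ 0] with V hV x
        exact (hV x).1
      filter_upwards [h, h2] with V h3 h4
      have h5 : ∃ m : ℕ, ∀ U, 1 / ((m : ℝ) + 1) ≤ ‖(HM d L lam V E U).det‖ := by
        have h6 : ∀ U, ∃ m : ℕ, 1 / ((m : ℝ) + 1) < ‖(HM d L lam V E U).det‖ := fun U =>
          exists_nat_one_div_lt (norm_pos_iff.2 (h3 U))
        choose f hf using h6
        refine ⟨∑ U, f U, fun U => le_trans ?_ (hf U).le⟩
        refine one_div_le_one_div_of_le (by positivity) ?_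
        have h7 : f U ≤ ∑ U, f U := Finset.single_le_sum (fun _ _ => Nat.zero_le _)
          (Finset.mem_univ U)
        have : (f U : ℝ) ≤ ((∑ U, f U : ℕ) : ℝ) := by exact_mod_cast h7
        linarith
      obtain ⟨m, hm⟩ := h5
      exact Set.mem_iUnion.2 ⟨m, fun x _ => h4 x, hm⟩
    have h6 : P (⋃ m, S m)ᶜ = 0 := h1
    rwa [prob_compl_eq_zero_iff (MeasurableSet.iUnion hSm)] at h6
  have hlim := tendsto_measure_iUnion_atTop (μ := P) hmono
  rw [hfull] at hlim
  have h1 : ∃ m, P (S m) > 1 - ENNReal.ofReal δ := by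
    have h2 : (1 : ENNReal) - ENNReal.ofReal δ < 1 :=
      ENNReal.sub_lt_self ENNReal.one_ne_top one_ne_zero (by simpa using hδ)
    exact (hlim.eventually_const_lt h2).exists
  obtain ⟨m, hm⟩ := h1
  obtain ⟨Lm, rho, hr, hb⟩ := bdd_compact (lam := lam) (E := E) (hSc m) (fun V hV U h0 => by
    have h3 := hV.2 U
    rw [h0, norm_zero] at h3
    have : (0 : ℝ) < 1 / ((m : ℝ) + 1) := by positivity
    linarith)
  refine ⟨S m, Lm, rho, hSm m, hr, ?_, hb⟩
  have h4 : P (S m)ᶜ ≤ ENNReal.ofReal δ := by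
    rw [prob_compl_eq_one_sub (hSm m)]
    rw [tsub_le_iff_right, add_comm]
    exact tsub_le_iff_right.1 hm.le
  exact ENNReal.toReal_le_of_le_ofReal hδ.le h4

/-- what the algorithm provides at the end, for one configuration of the discrete model -/
def FinS (Vf : Tor d L → ℝ) (E es C c eA : ℝ) (R N : ℕ) : Prop :=
  ∃ (b : Tor d L → ℂ) (U : Finset (Tor d L)) (φ : Tor d L → ℕ), Fin1 Vf E es C c eA R N b U φ

omit [NeZero L] in
/-- THE END: the final medium with high probability for all large `nf` gives `ANE.AndOut` -/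
theorem andOut_of_fin {d : ℕ} (hd : 0 < d) {μ : Measure ℝ} [IsProbabilityMeasure μ] {M : ℝ}
    {K : NNReal} (hμ : GoodLaw μ M K) {lam a b c δ δ' : ℝ} (hlam : 0 < lam) (hδ : δ' < δ)
    (h : ∀ᵐ E : ℝ, E ∈ Set.Icc a b → ∀ k : ℕ, ∃ (L : ℕ) (_ : NeZero L) (es C eA : ℝ) (R N : ℕ),
      0 < es ∧ es ≤ 1 ∧ es ≤ 1 / ((k : ℝ) + 1) ∧ endErr d N R es C eA < 1 / ((k : ℝ) + 1) ∧
      ∃ᶠ nf in atTop, ANP.Pr (fun _ : Tor d L => (xp : XC μ M nf → ℝ))
        {v | ¬ FinS (fun x => lam * xV (v x)) E es C c eA R N} ≤ δ') :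
    AndOut d μ lam a b c δ := by
  have hM : 0 < M := lt_of_lt_of_le one_pos hμ.one_le
  filter_upwards [h, ae_reg d μ lam] with E hE hreg hEab k
  obtain ⟨L, hL, es, C, eA, R, N, hes, hes1, hesk, herr, hfr⟩ := hE hEab k
  refine ⟨L, hL, (Tor d L → ℝ), inferInstance, Measure.pi fun _ : Tor d L => μ, id,
    {V | WitT L (fun w => lam * V w) E c (1 / ((k : ℝ) + 1))}, inferInstance, measurable_id,
    Measure.map_id, ?_, ?_, fun s hs => hs⟩
  · have hl : Continuous fun h : Tor d L → ℝ => (fun w => lam * h w : Tor d L → ℝ) := by fun_prop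
    exact ((isOpen_witT E c _).preimage hl).measurableSet
  set P := Measure.pi fun _ : Tor d L => μ with hP
  set A : Set (Tor d L → ℝ) := {V | WitT L (fun w => lam * V w) E c (1 / ((k : ℝ) + 1))} with hA
  have hAm : MeasurableSet A := by
    have hl : Continuous fun h : Tor d L → ℝ => (fun w => lam * h w : Tor d L → ℝ) := by fun_prop
    exact ((isOpen_witT E c _).preimage hl).measurableSet
  have hreg' : ∀ᵐ V ∂P, ∀ U : Finset (Tor d L), (HM d L lam V E U).det ≠ 0 := by
    obtain ⟨n, rfl⟩ : ∃ n, L = n + 1 := ⟨L - 1, by have := hL.out; omega⟩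
    have h1 := hreg n
    convert h1
  obtain ⟨S, Lm, rho, hSm, hrho, hPS, hb⟩ := soft (L := L) hμ hreg' (δ := δ - δ') (by linarith)
  -- choice of the level
  set B : ℝ := Real.sqrt (C / es) with hB
  set KK : ℝ := Fintype.card (Tor d L) * (|Lm| * (4 * d * B)) with hKK
  have hlim : Tendsto (fun nf : ℕ => 2 * M / 2 ^ nf) atTop (𝓝 0) := by
    have h1 : Tendsto (fun nf : ℕ => 2 * M * (1 / 2 : ℝ) ^ nf) atTop (𝓝 (2 * M * 0)) :=
      (tendsto_pow_atTop_nhds_zero_of_lt_one (by norm_num) (by norm_num)).const_mul _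
    rw [mul_zero] at h1
    refine h1.congr fun nf => ?_
    rw [one_div, inv_pow]
    rfl
  have hlim2 : Tendsto (fun nf : ℕ => endErr d N R es C eA + N * (lam * (2 * M / 2 ^ nf)) *
      (B + KK) * (1 + B + KK)) atTop (𝓝 (endErr d N R es C eA + N * (lam * 0) *
      (B + KK) * (1 + B + KK))) := by
    refine Tendsto.add tendsto_const_nhds ?_
    refine Tendsto.mul_const _ (Tendsto.mul_const _ (Tendsto.const_mul _ (hlim.const_mul _)))
  have h0 : endErr d N R es C eA + N * (lam * 0) * (B + KK) * (1 + B + KK) <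
      1 / ((k : ℝ) + 1) := by
    have : endErr d N R es C eA + N * (lam * 0) * (B + KK) * (1 + B + KK) =
      endErr d N R es C eA := by ring
    rw [this]
    exact herr
  have hev1 := hlim2.eventually_lt_const h0
  have hev2 := hlim.eventually_lt_const hrho
  obtain ⟨nf, hnf, hn1, hn2⟩ := (hfr.and_eventually (hev1.and hev2)).exists
  have hsub : Aᶜ ⊆ (Sᶜ ∪ cmapT μ M nf ⁻¹' {v | ¬ FinS (fun x => lam * xV (v x)) E es C c eA R N}) ∪
      {V | ¬ ∀ x, V x ∈ Set.Icc (-M) M ∧ xi (cmapT μ M nf V x) = ci M nf (V x) ∧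
      |V x - xV (cmapT μ M nf V x)| ≤ 2 * M / 2 ^ nf} := by
    intro V hV
    by_contra hcon
    apply hV
    rw [Set.mem_union, Set.mem_union, not_or, not_or] at hcon
    obtain ⟨⟨h1, h2⟩, h3⟩ := hcon
    rw [Set.notMem_compl_iff] at h1
    rw [Set.mem_preimage, Set.mem_ofPred_eq, not_not] at h2
    rw [Set.mem_ofPred_eq, not_not] at h3
    obtain ⟨b, U, φ, hF⟩ := h2
    have h4 := hb V h1 (fun x => xV (cmapT μ M nf V x))
      (fun x => ((h3 x).2.2).trans hn2.le) U
    have h5 : ANI.MBB (H0T d L) b Uᶜ = HM d L lam (fun x => xV (cmapT μ M nf V x)) E U :=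
      MBB_congrE fun x hx => hF.bU x hx
    show WitT L (fun w => lam * V w) E c (1 / ((k : ℝ) + 1))
    refine hF.witT hd hes hes1 hesk (ef := lam * (2 * M / 2 ^ nf)) (Lm := Lm) (by positivity)
      (fun w => lam * V w) ?_ ?_ ?_ ?_
    · intro x
      rw [← mul_sub, abs_mul, abs_of_pos hlam]
      exact mul_le_mul_of_nonneg_left (h3 x).2.2 hlam.le
    · rw [h5]; exact h4.1
    · rw [h5]; exact h4.2
    · exact hn1
  have hae := ae_cmapT (Λ := Tor d L) hμ nf
  rw [ae_iff] at hae
  have h6 : P.real Aᶜ ≤ (δ - δ') + δ' + 0 := by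
    refine (measureReal_mono hsub).trans ((measureReal_union_le _ _).trans (add_le_add
      ((measureReal_union_le _ _).trans (add_le_add hPS ?_)) ?_))
    · rw [← Pr_eq]
      exact hnf
    · rw [measureReal_def, hae]
      simp
  have h7 := probReal_compl_eq_one_sub (μ := P) hAm
  rw [h7] at h6
  linarith

end Pool.Agent.AND
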