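import Pool.Agent.AND.End2
import Pool.Agent.AND.DigLaw
import Pool.Agent.ANM.GeoPhi
import Pool.Agent.ANQ.Geo

/-! # AND / End3: from the final good medium and the geometry near `0` to `FinS`

`finS_of_clean`: holes near `0` are in a sparse family, everything else near `0` is active of level at least `nJ` (or
inert).  `finS_of_hist`: the same for the history (`ANQ.Hist`) of a configuration without bad cells near `0`.
-/

open Matrix Finset

noncomputable section

namespace Pool.Agent.AND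

open Pool.Agent.Kin Pool.Agent.APS Pool.Agent.ANL Pool.Agent.ANM Pool.Agent.ANB

variable {d L : ℕ} [NeZero L]

omit [NeZero L] in
theorem rep_le_td (x : Tor d L) (j : Fin d) : |rep x j| ≤ (td (0 : Tor d L) x : ℤ) := by
  have h1 := za_le_td (0 : Tor d L) x j
  have h2 : za ((0 : Tor d L) j - x j) = (rep x j).natAbs := by
    rw [Pi.zero_apply, zero_sub]
    unfold za rep
    exact ZMod.natAbs_valMinAbs_neg (x j)
  rw [h2] at h1
  rw [Int.abs_eq_natAbs]
  exact_mod_cast h1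

theorem td_single (x : Tor d L) (j : Fin d) : td x (x + Pi.single j 1) ≤ 1 := by
  rw [td_le]
  intro i
  by_cases hij : i = j
  · subst hij
    rw [Pi.add_apply, Pi.single_eq_same, sub_add_cancel_left]
    have h1 : za (-(1 : ZMod L)) = za (1 : ZMod L) := ZMod.natAbs_valMinAbs_neg 1
    rw [h1]
    unfold za
    rw [ZMod.valMinAbs_natAbs_eq_min]
    refine (min_le_left _ _).trans ?_
    by_cases hL : L = 1
    · subst hL
      exact (Fin.is_le _).trans (by norm_num)
    · have : Fact (1 < L) := ⟨by have := NeZero.pos L; omega⟩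
      rw [ZMod.val_one]
  · rw [Pi.add_apply, Pi.single_eq_of_ne hij, add_zero, sub_self, za_zero]
    exact Nat.zero_le _

variable {X : Type} [Fintype X] {Lw : Law X} {lam E eta : ℝ}
  {f : Fix} {t : Tol d L} {M : Med (Tor d L)} {u : UTol} {π : Prof (Tor d L)} {v : Tor d L → X}

theorem finS_of_clean {ι : Type} {Dh : ι → Set (Tor d L)} {gen : ι → ℕ} {g J : ℕ} {ρ Ls : ℕ → ℕ}
    (hsp : Sparse td Dh gen g J ρ Ls) (hlam : 0 ≤ lam)
    (hM : IsMed (H0T d L) (sysOf Lw lam E eta) π v M) (hG : Good f t M) (hI : t.In f M u)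
    (hN : Num f t u) (hte : t.eta = eta) {c : ℝ} (hc : c < f.c1) {r nJ R N : ℕ}
    (h0 : (0 : Tor d L) ∉ π.rd)
    (hrd : ∀ x ∈ π.rd, td 0 x ≤ r → ∃ k, x ∈ Dh k)
    (hact : ∀ x, td 0 x ≤ r → x ∉ π.rd → x ∈ π.act ∨ x ∈ π.ine)
    (hlev : ∀ x ∈ π.act, td 0 x ≤ r → nJ ≤ π.lev x)
    (hine : ∀ x ∈ π.ine, td 0 x ≤ r → Lw.wk (π.lev x) (v x))
    (hrl : ∀ x ∈ π.rd, Lw.nf ≤ π.lev x)
    (hR : 2 * (R + 2) + cst g J ρ ≤ r) (hL : 2 * r + 4 ≤ L) (hNr : (2 * r + 1) ^ d ≤ N) :
    FinS (fun x => lam * Lw.V (v x)) E eta f.C1 c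
      (lam * (2 * Lw.S / 2 ^ nJ) + (lam * (2 * Lw.S / 2 ^ nJ)) ^ 2 * f.C1) R N := by
  obtain ⟨φ, p1, p2, _, p4, p5⟩ := exists_phi td_met hsp td_geo td_sep {(0 : Tor d L)}
    (Set.singleton_nonempty _)
  have hφ0 : φ 0 = 0 := p1 0 rfl
  have hφd : ∀ y, td 0 y ≤ 2 * φ y + cst g J ρ := by
    intro y
    obtain ⟨x, hx, h1⟩ := p5 y
    rw [Set.mem_singleton_iff.1 hx] at h1
    exact h1
  have hS0 : 0 < Lw.S := Lw.S0
  have hC1 := hG.C1_pos hI hN
  have hkn : ∀ n, nJ ≤ n → lam * (2 * Lw.S / 2 ^ n) ≤ lam * (2 * Lw.S / 2 ^ nJ) := by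
    intro n hn
    refine mul_le_mul_of_nonneg_left ?_ hlam
    refine div_le_div_of_nonneg_left (by positivity) (by positivity) ?_
    exact pow_le_pow_right₀ (by norm_num) hn
  have hU : ∀ x, x ∈ M.U ↔ x ∈ π.rd := fun x => by rw [hM.U]
  refine ⟨M.b, M.U, φ, ?_⟩
  refine
    { unit := hG.unit
      bU := ?_
      eta := ?_
      z0 := ?_
      g1 := ?_
      g2 := ?_
      p0 := hφ0
      p1 := ?_
      p2 := ?_
      win := ?_
      card := ?_
      near := ?_ }
  · intro x hx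
    rw [hU] at hx
    have h1 : x ∉ π.act := by
      intro h2
      exact Finset.disjoint_left.1 hG.AU (by rw [hM.A]; exact h2) (by rw [hM.U]; exact hx)
    rw [hM.b x]
    unfold cp kp
    rw [if_pos hx, if_neg h1, hh_top (hrl x hx)]
    change ((lam * Lw.V (v x) : ℝ) : ℂ) - (E : ℂ) - 0 - _ = _
    push_cast
    ring
  · intro x hx
    have := hG.eta_ge hI hN hx
    rw [hte] at this
    exact this
  · rw [hU]; exact h0
  · exact hG.gam_le hI hN (by rw [hU]; exact h0)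
  · exact hc.trans_le (hG.io_ge hI hN (by rw [hU]; exact h0))
  · intro x j
    have h1 := td_single x j
    exact ⟨p2 _ _ (by rw [td_met.symm]; exact h1), p2 _ _ h1⟩
  · intro x hx j
    rw [hU] at hx
    have h1 := td_single x j
    have h2 := td_single (x - Pi.single j 1) j
    rw [sub_add_cancel] at h2
    by_cases hr : td 0 x ≤ r
    · obtain ⟨k, hk⟩ := hrd x hx hr
      have e1 := p4 x _ h1 ⟨k, Or.inl hk⟩
      have e2 := p4 _ x h2 ⟨k, Or.inr hk⟩
      rw [← e1, e2]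
      exact ⟨rfl, rfl⟩
    · have h3 := hφd x
      have h4 := p2 _ _ h1
      have h5 := p2 x _ (by rw [td_met.symm]; exact h2)
      omega
  · intro x hx j
    have h1 := hφd x
    have h2 := rep_le_td x j
    have h3 : (td (0 : Tor d L) x : ℤ) ≤ r := by
      have : td (0 : Tor d L) x ≤ r := by omega
      exact_mod_cast this
    have h4 : ((2 * r + 4 : ℕ) : ℤ) ≤ L := by exact_mod_cast hL
    push_cast at h4
    linarith
  · refine (Finset.card_le_card ?_).trans ((card_ball (0 : Tor d L) r).trans hNr)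
    intro x hx
    rw [Finset.mem_filter] at hx ⊢
    have h1 := hφd x
    exact ⟨Finset.mem_univ _, by have := hx.2; omega⟩
  · intro x hx hφ
    rw [hU] at hx
    have h1 := hφd x
    have hr : td 0 x ≤ r := by omega
    have h2 := hh_V (L := Lw) (E := E) (eta := eta) hlam (π.lev x) (v x)
    rcases hact x hr hx with h3 | h3
    · have h4 := hlev x h3 hr
      rw [hM.b x]
      unfold cp kp
      rw [if_neg hx, if_pos (Or.inl h3), if_pos h3]
      have h5 : (((sysOf Lw lam E eta).hh (π.lev x) (v x) : ℝ) : ℂ) - ((sysOf Lw lam E eta).E : ℂ) -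
          (((sysOf Lw lam E eta).eta : ℂ) * Complex.I + 0) -
          (((sysOf Lw lam E eta).kk (π.lev x) (v x) : ℝ) : ℂ) * rsc (H0T d L) M.b x x -
          ((((fun x => lam * Lw.V (v x)) x - E : ℝ) : ℂ) - (eta : ℂ) * Complex.I) =
          -((lam * Lw.V (v x) - (sysOf Lw lam E eta).hh (π.lev x) (v x) : ℝ) : ℂ) -
          (((sysOf Lw lam E eta).kk (π.lev x) (v x) : ℝ) : ℂ) * rsc (H0T d L) M.b x x := by
        change _ - (E : ℂ) - ((eta : ℂ) * Complex.I + 0) - _ - _ = _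
        push_cast
        ring
      rw [h5]
      refine (norm_sub_le _ _).trans (add_le_add ?_ ?_)
      · rw [norm_neg, Complex.norm_real, Real.norm_eq_abs]
        exact h2.trans (hkn _ h4)
      · rw [norm_mul, Complex.norm_real, Real.norm_eq_abs, abs_of_nonneg (kk_nonneg _ _)]
        have h6 := kk_le (L := Lw) (lam := lam) (E := E) (eta := eta) (π.lev x) (v x)
        have h7 : kn Lw lam (π.lev x) ≤ (lam * (2 * Lw.S / 2 ^ nJ)) ^ 2 :=
          pow_le_pow_left₀ (by positivity) (hkn _ h4) 2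
        have h8 := hG.gam_le hI hN (x := x) (by rw [hU]; exact hx)
        exact mul_le_mul (h6.trans h7) h8 (norm_nonneg _) (by positivity)
    · have h4 : x ∉ π.act := by
        intro h5
        exact Finset.disjoint_left.1 hG.AI (by rw [hM.A]; exact h5) (by rw [hM.I]; exact h3)
      rw [hM.b x]
      unfold cp kp
      rw [if_neg hx, if_pos (Or.inr h3), if_neg h4]
      have h5 : (sysOf Lw lam E eta).hh (π.lev x) (v x) = lam * Lw.V (v x) := by
        change lam * Lw.h _ _ = _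
        rw [Lw.h_wk (hine x h3 hr)]
      rw [h5]
      have h6 : ((lam * Lw.V (v x) : ℝ) : ℂ) - ((sysOf Lw lam E eta).E : ℂ) -
          (((sysOf Lw lam E eta).eta : ℂ) * Complex.I + 0) -
          ((0 : ℝ) : ℂ) * rsc (H0T d L) M.b x x -
          ((((fun x => lam * Lw.V (v x)) x - E : ℝ) : ℂ) - (eta : ℂ) * Complex.I) = 0 := by
        change _ - (E : ℂ) - ((eta : ℂ) * Complex.I + 0) - _ - _ = _
        push_cast
        ring
      rw [h6, norm_zero]
      positivity

/-- no bad cells near `0`: history version.  `n` = number of super-stages, `g'` = number of generations which are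
allowed within `r` of `0` -/
theorem finS_of_hist {gp : ANQ.GPar (Tor d L)} (hgp : gp.Ok) (hd : gp.dist = td) (h : ANQ.Hist gp)
    (hlam : 0 ≤ lam)
    (hM : IsMed (H0T d L) (sysOf Lw lam E eta) π v M) (hG : Good f t M) (hI : t.In f M u)
    (hN : Num f t u) (hte : t.eta = eta) {c : ℝ} (hc : c < f.c1) {r nJ R N n g' : ℕ}
    (hn : 0 < n) (hg : g' < n)
    (hrd : ∀ x ∈ π.rd, ∃ k, x ∈ h.piece n k)
    (hst : ∀ x, x ∉ π.rd → x ∉ π.act → x ∉ π.ine → x ∈ h.st n)
    (hlev : ∀ x ∈ π.act, nJ ≤ π.lev x)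
    (hine : ∀ x ∈ π.ine, Lw.wk (π.lev x) (v x))
    (hrl : ∀ x ∈ π.rd, Lw.nf ≤ π.lev x)
    (c0 : ∀ j < n, ∀ c ∈ h.bd j, gp.R (j + 1) + gp.W j < td 0 c)
    (c1 : ∀ j < n, g' ≤ j → ∀ c ∈ h.bd j, r + (gp.R (j + 1) + gp.W j) < td 0 c)
    (hR : 2 * (R + 2) + cst g' (gp.J * gp.V) (fun i => 2 * gp.R (i + 1) + 2 * gp.side i) ≤ r)
    (hL : 2 * r + 4 ≤ L) (hNr : (2 * r + 1) ^ d ≤ N) :
    FinS (fun x => lam * Lw.V (v x)) E eta f.C1 c
      (lam * (2 * Lw.S / 2 ^ nJ) + (lam * (2 * Lw.S / 2 ^ nJ)) ^ 2 * f.C1) R N := by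
  have hsp := h.sparse hgp g'
  have hnh : ∀ (k : Fin n × Tor d L) (x : Tor d L), x ∈ h.piece n k →
      ∃ c ∈ h.bd k.1, td x c ≤ gp.R (k.1 + 1) + gp.W k.1 := by
    intro k x hx
    have := h.near_hole hgp hx
    rwa [hd] at this
  rw [hd] at hsp
  refine finS_of_clean hsp hlam hM hG hI hN hte hc (r := r) (nJ := nJ) ?_ ?_ ?_
    (fun x hx _ => hlev x hx) (fun x hx _ => hine x hx) hrl hR hL hNr
  · intro h0
    obtain ⟨k, hk⟩ := hrd 0 h0
    obtain ⟨c, hc1, hc2⟩ := hnh k 0 hk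
    have := c0 k.1 k.1.2 c hc1
    omega
  · intro x hx hr
    obtain ⟨k, hk⟩ := hrd x hx
    by_cases hk1 : (k.1 : ℕ) < g'
    · exact ⟨(⟨k.1, hk1⟩, k.2), hk⟩
    · obtain ⟨c, hc1, hc2⟩ := hnh k x hk
      have h1 := c1 k.1 k.1.2 (not_lt.1 hk1) c hc1
      have h2 := (td_met (N := L) (m := d)).tri 0 x c
      omega
  · intro x hr hx
    by_contra hcon
    rw [not_or] at hcon
    obtain ⟨m, rfl⟩ : ∃ m, n = m + 1 := ⟨n - 1, by omega⟩
    obtain ⟨c, hc1, hc2⟩ := h.near_bd hgp m x (hst x hx hcon.1 hcon.2)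
    rw [hd] at hc2
    have h1 := c1 m (Nat.lt_succ_self m) (by omega) c hc1
    have h2 := (td_met (N := L) (m := d)).tri 0 x c
    omega

end Pool.Agent.AND
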