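import Pool.Agent.AND.End3
import Pool.Agent.ANP.Prob
import Pool.Agent.ANC.RecN
import Pool.Agent.ANC.Len

/-! # AND / End4: the numbers of the end

`endErr_small`: the error of the end tends to `0` with `es`.  `cst_le`: additive constant of the Agmon weight.
`Pr_near`: union bound for the bad cells near `0`.  `unclean`: probability of bad cells near `0`, uniformly in the number
of super-stages.  `end_scale`: choice of `r`, `R`, `N`, `g'`.
-/

open Finset Filter Topology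

noncomputable section

namespace Pool.Agent.AND

open Pool.Agent.Kin Pool.Agent.ANM Pool.Agent.ANC

theorem sqrt_div_le {C es : ℝ} (hC : 0 ≤ C) (hes : 0 < es) (hes1 : es ≤ 1) :
    Real.sqrt (C / es) ≤ (1 + C) / es := by
  rw [Real.sqrt_le_left (by positivity), div_pow, div_le_div_iff₀ hes (by positivity)]
  have h1 : C ≤ (1 + C) ^ 2 := by nlinarith
  have h2 : es ^ 2 ≤ es := by nlinarith
  calc C * es ^ 2 ≤ (1 + C) ^ 2 * es := mul_le_mul h1 h2 (by positivity) (by positivity)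

theorem endErr_le {d N R : ℕ} {es C eA : ℝ} (hC : 0 ≤ C) (hes : 0 < es) (hes1 : es ≤ 1)
    (heA : 0 ≤ eA) :
    endErr d N R es C eA ≤ N * (eA * ((1 + C) * (2 + C)) / es ^ 2 +
      8 * d * ((1 + 2 * C) * (2 + C)) / es ^ 2 * Real.exp (-(es / (8 * d) * R))) := by
  unfold endErr
  have h1 := sqrt_div_le hC hes hes1
  have h2 := sqrt_div_le (C := 2 * C) (by positivity) hes hes1
  rw [mul_div_assoc] at h2
  have h3 : 1 + Real.sqrt (C / es) ≤ (2 + C) / es := by
    have : (2 + C) / es = 1 / es + (1 + C) / es := by ring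
    rw [this]
    have h4 : 1 ≤ 1 / es := by rw [le_div_iff₀ hes]; linarith
    linarith
  have h5 : 0 ≤ Real.sqrt (C / es) := Real.sqrt_nonneg _
  have hexp := (Real.exp_pos (-(es / (8 * d) * R))).le
  calc _ ≤ (N * eA * ((1 + C) / es) +
      N * (8 * d) * ((1 + 2 * C) / es * Real.exp (-(es / (8 * d) * R)))) * ((2 + C) / es) := by
        refine mul_le_mul (add_le_add ?_ ?_) h3 (by positivity) (by positivity)
        · exact mul_le_mul_of_nonneg_left h1 (by positivity)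
        · exact mul_le_mul_of_nonneg_left (mul_le_mul_of_nonneg_right h2 hexp) (by positivity)
    _ = _ := by
      field_simp

/-- the error of the end is small -/
theorem endErr_small (d : ℕ) (hd : 0 < d) {C : ℝ} (hC : 0 ≤ C) {η : ℝ} (hη : 0 < η) :
    ∀ᶠ es in 𝓝[>] (0 : ℝ), ∀ (N R : ℕ) (eA : ℝ), 0 ≤ eA → eA ≤ es ^ (2 * d + 3) →
      (N : ℝ) ≤ (40 / es ^ 2) ^ d → 1 / (4 * es ^ 2) ≤ R → endErr d N R es C eA < η := by
  have hd0 : (0 : ℝ) < d := by exact_mod_cast hd
  set A : ℝ := 40 ^ d * ((1 + C) * (2 + C)) with hA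
  set B : ℝ := 40 ^ d * (8 * d * ((1 + 2 * C) * (2 + C))) with hB
  have h1 : ∀ᶠ es in 𝓝[>] (0 : ℝ), A * es < η / 2 := by
    have h2 : Tendsto (fun es : ℝ => A * es) (𝓝[>] 0) (𝓝 (A * 0)) :=
      ((continuous_const.mul continuous_id).tendsto 0).mono_left nhdsWithin_le_nhds
    rw [mul_zero] at h2
    exact h2.eventually_lt_const (by positivity)
  have h2 := ev_exp (C := B) (a := 2 * d + 2) (N := 1) (b := 1) (c := 1 / (32 * d)) one_pos
    (by positivity)
  have h3 : ∀ᶠ es in 𝓝[>] (0 : ℝ), es < η / 2 := by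
    have h2 : Tendsto (fun es : ℝ => es) (𝓝[>] 0) (𝓝 0) :=
      (continuous_id.tendsto 0).mono_left nhdsWithin_le_nhds
    exact h2.eventually_lt_const (by positivity)
  filter_upwards [h1, h2, h3, ev_small one_pos] with es h1 h2 h3 hes N R eA heA heA' hN hR
  obtain ⟨hes0, hes1⟩ := hes
  refine (endErr_le hC hes0 hes1 heA).trans_lt ?_
  have hpos : 0 ≤ (1 + C) * (2 + C) := by positivity
  have hN0 : (0 : ℝ) ≤ N := Nat.cast_nonneg N
  have e1 : (40 / es ^ 2) ^ d = 40 ^ d / es ^ (2 * d) := by rw [div_pow, ← pow_mul]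
  have s1 : (N : ℝ) * (eA * ((1 + C) * (2 + C)) / es ^ 2) ≤ A * es := by
    calc (N : ℝ) * (eA * ((1 + C) * (2 + C)) / es ^ 2)
        ≤ (40 ^ d / es ^ (2 * d)) * (es ^ (2 * d + 3) * ((1 + C) * (2 + C)) / es ^ 2) := by
          rw [e1] at hN
          refine mul_le_mul hN ?_ (by positivity) (by positivity)
          exact div_le_div_of_nonneg_right (mul_le_mul_of_nonneg_right heA' hpos) (by positivity)
      _ = A * es := by
          rw [hA, show 2 * d + 3 = 2 * d + 2 + 1 by ring, pow_succ, pow_add]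
          field_simp
  have hexp : Real.exp (-(es / (8 * d) * R)) ≤ Real.exp (-(1 / (32 * d)) * es ^ (-1 : ℝ)) := by
    refine Real.exp_le_exp.2 ?_
    rw [Real.rpow_neg hes0.le, Real.rpow_one]
    have h4 : es / (8 * d) * (1 / (4 * es ^ 2)) ≤ es / (8 * d) * R :=
      mul_le_mul_of_nonneg_left hR (by positivity)
    have h5 : es / (8 * d) * (1 / (4 * es ^ 2)) = 1 / (32 * d) * es⁻¹ := by
      field_simp
      norm_num
    linarith
  have s2 : (N : ℝ) * (8 * d * ((1 + 2 * C) * (2 + C)) / es ^ 2 *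
      Real.exp (-(es / (8 * d) * R))) ≤ es := by
    have h4 : es ^ (-(2 * (d : ℝ) + 2)) = 1 / (es ^ (2 * d) * es ^ 2) := by
      rw [Real.rpow_neg hes0.le, ← pow_add, one_div]
      congr 1
      rw [← Real.rpow_natCast]
      congr 1
      push_cast
      ring
    rw [h4, Real.rpow_one] at h2
    refine le_trans ?_ h2
    calc (N : ℝ) * (8 * d * ((1 + 2 * C) * (2 + C)) / es ^ 2 * Real.exp (-(es / (8 * d) * R)))
        ≤ (40 ^ d / es ^ (2 * d)) * (8 * d * ((1 + 2 * C) * (2 + C)) / es ^ 2 *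
          Real.exp (-(1 / (32 * d)) * es ^ (-1 : ℝ))) := by
          rw [e1] at hN
          refine mul_le_mul hN ?_ (by positivity) (by positivity)
          exact mul_le_mul_of_nonneg_left hexp (by positivity)
      _ = _ := by
          rw [hB]
          field_simp
  rw [mul_add]
  linarith

/-- the additive constant of the Agmon weight -/
theorem cst_le {T : Type} [Fintype T] [DecidableEq T] {gp : ANQ.GPar T} (hgp : gp.Ok) (n : ℕ) :
    cst n (gp.J * gp.V) (fun i => 2 * gp.R (i + 1) + 2 * gp.side i) ≤ gp.side n := by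
  unfold cst
  induction n with
  | zero => simp
  | succ n ih =>
    rw [Finset.sum_range_succ, mul_add]
    have h1 := hgp.large n
    set q := gp.J * gp.V + 1
    set p := 2 * gp.R (n + 1) + 2 * gp.side n + 2
    have hq : 1 ≤ q := Nat.le_add_left _ _
    have h2 : 4 * q * p ≤ gp.side (n + 1) := by
      refine le_trans ?_ h1
      have h3 : 4 ≤ 2 ^ (n + 2) := by
        rw [pow_add]
        have := Nat.one_le_two_pow (n := n)
        omega
      exact Nat.mul_le_mul_right _ (Nat.mul_le_mul_right _ h3)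
    have h3 : gp.side n * 2 ≤ p := by omega
    have h4 : 4 * q * (gp.side n * 2) ≤ gp.side (n + 1) :=
      (Nat.mul_le_mul_left _ h3).trans h2
    have h5 : 4 * 1 * (gp.side n * 2) ≤ 4 * q * (gp.side n * 2) :=
      Nat.mul_le_mul_right _ (Nat.mul_le_mul_left _ hq)
    have h6 : 4 * q * p = 2 * (2 * q * p) := by ring
    omega

section near

variable {d L : ℕ} [NeZero L] {X : Type} [Fintype X] [DecidableEq X]

/-- union bound -/
theorem Pr_near {w : Tor d L → X → ℝ} (hw : ANP.IsLaw w)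
    (bd : (Tor d L → X) → Finset (Tor d L)) {q : ℝ} (rho : ℕ)
    (h : ∀ c, ANP.Pr w {v | c ∈ bd v} ≤ q) :
    ANP.Pr w {v | ∃ c ∈ bd v, td 0 c ≤ rho} ≤ (2 * rho + 1) ^ d * q := by
  classical
  have h1 : {v | ∃ c ∈ bd v, td 0 c ≤ rho} ⊆
      ⋃ c ∈ univ.filter (fun c : Tor d L => td 0 c ≤ rho), {v | c ∈ bd v} := by
    rintro v ⟨c, hc, hc2⟩
    exact Set.mem_iUnion₂.2 ⟨c, Finset.mem_filter.2 ⟨Finset.mem_univ _, hc2⟩, hc⟩
  refine (ANP.Pr_mono hw h1).trans ((ANP.Pr_iUnion_le hw _ _).trans ?_)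
  refine (Finset.sum_le_card_nsmul _ _ q fun c _ => h c).trans ?_
  rw [nsmul_eq_mul]
  have hq : 0 ≤ q := (ANP.Pr_nonneg hw _).trans (h 0)
  refine mul_le_mul_of_nonneg_right ?_ hq
  exact_mod_cast card_ball (0 : Tor d L) rho

end near

/-- the lengths in terms of `ks (j + 1)` -/
theorem len_pow {k0 : ℝ} (h : 0 < k0) (h1 : k0 < 1) {al : ℕ} (hal : 2 ≤ al) {v2 : ℝ}
    (hv : 0 ≤ v2) (hv1 : v2 ≤ 1) (j : ℕ) :
    (hR k0 al v2 (j + 1) : ℝ) ≤ 8 / ks k0 al (j + 1) ^ al ∧
      (dW k0 al j : ℝ) ≤ 8 / ks k0 al (j + 1) ^ al := by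
  have hy := ks_pos h al (j + 1)
  have hy' := ks_pos h al (j + 2)
  have hy1 : ks k0 al (j + 1) ≤ 1 := (ks_le h al _).trans h1.le
  have hy1' : ks k0 al (j + 2) ≤ 1 := (ks_le h al _).trans h1.le
  constructor
  · have a1 := hR_le h h1.le al hv (j + 1)
    have a2 : ks k0 al (j + 2) ^ (-v2) ≤ ks k0 al (j + 2) ^ (-1 : ℝ) :=
      rpow_neg_le hy' hy1' hv1
    rw [Real.rpow_neg_one] at a2
    have a3 := ks_succ_gt h h1 hal (j + 1)
    have a4 : (ks k0 al (j + 2))⁻¹ ≤ 4 / ks k0 al (j + 1) ^ al := by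
      rw [inv_eq_one_div, div_le_div_iff₀ hy' (by positivity)]
      rw [one_mul]
      exact a3.le
    have e1 : ks k0 al (j + 1 + 1) = ks k0 al (j + 2) := rfl
    rw [e1] at a1
    calc (hR k0 al v2 (j + 1) : ℝ) ≤ 2 * (4 / ks k0 al (j + 1) ^ al) := by linarith
      _ = _ := by ring
  · have a1 := (side_rpow h h1 al j).2
    unfold dW
    push_cast
    have a2 : ks k0 al (j + 1) ^ (-2 : ℝ) ≤ 1 / ks k0 al (j + 1) ^ al := by
      rw [Real.rpow_neg hy.le, inv_eq_one_div]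
      have : ks k0 al (j + 1) ^ (2 : ℝ) = ks k0 al (j + 1) ^ 2 := by norm_cast
      rw [this]
      exact one_div_le_one_div_of_le (by positivity) (pow_le_pow_of_le_one hy.le hy1 hal)
    calc 4 * (side k0 al j : ℝ) ≤ 8 * (1 / ks k0 al (j + 1) ^ al) := by linarith
      _ = _ := by ring

/-- one term of the sum of the probabilities -/
theorem term_le {k0 : ℝ} (h : 0 < k0) (h1 : k0 < 1) {al : ℕ} (hal : 2 ≤ al) {v2 : ℝ}
    (hv : 0 ≤ v2) (hv1 : v2 ≤ 1) (d j r : ℕ) (hr : (r : ℝ) ≤ 500 / ks k0 al (j + 1) ^ (2 * al))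
    (K1 : ℝ) :
    (2 * ((r + (hR k0 al v2 (j + 1) + dW k0 al j) : ℕ) : ℝ) + 1) ^ d * ks k0 al (j + 1) ^ K1 ≤
      1033 ^ d * ks k0 al (j + 1) ^ (K1 - 2 * al * d) := by
  have hy := ks_pos h al (j + 1)
  have hy1 : ks k0 al (j + 1) ≤ 1 := (ks_le h al _).trans h1.le
  obtain ⟨a1, a2⟩ := len_pow h h1 hal hv hv1 j
  set y := ks k0 al (j + 1) with hydef
  have a3 : 1 / y ^ al ≤ 1 / y ^ (2 * al) :=
    one_div_le_one_div_of_le (by positivity) (pow_le_pow_of_le_one hy.le hy1 (by omega))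
  have a4 : 1 ≤ 1 / y ^ (2 * al) := by
    rw [le_div_iff₀ (by positivity), one_mul]
    exact pow_le_one₀ hy.le hy1
  have a5 : (2 * ((r + (hR k0 al v2 (j + 1) + dW k0 al j) : ℕ) : ℝ) + 1) ≤
      1033 * (1 / y ^ (2 * al)) := by
    push_cast
    have b1 : 8 / y ^ al ≤ 8 * (1 / y ^ (2 * al)) := by
      have : 8 / y ^ al = 8 * (1 / y ^ al) := by ring
      rw [this]
      linarith
    have b2 : 500 / y ^ (2 * al) = 500 * (1 / y ^ (2 * al)) := by ring
    linarith
  have a6 : y ^ (K1 - 2 * al * d) = (1 / y ^ (2 * al)) ^ d * y ^ K1 := by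
    rw [Real.rpow_sub hy, div_pow, one_pow, ← pow_mul]
    have : y ^ (2 * (al : ℝ) * d) = y ^ (2 * al * d) := by
      rw [← Real.rpow_natCast]
      congr 1
      push_cast
      ring
    rw [this]
    ring
  rw [a6]
  calc _ ≤ (1033 * (1 / y ^ (2 * al))) ^ d * y ^ K1 := by
        refine mul_le_mul_of_nonneg_right ?_ (Real.rpow_nonneg hy.le _)
        exact pow_le_pow_left₀ (by positivity) a5 d
    _ = _ := by rw [mul_pow, mul_assoc]

/-- the scales of the end -/
theorem end_scale {k0 : ℝ} (h : 0 < k0) (h1 : k0 < 1) {al : ℕ} (hal : 2 ≤ al) {th : ℝ}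
    (hth : 0 < th) (hth1 : th ≤ 1 / 2) :
    ∀ᶠ n in atTop, ∃ g' < n,
      side k0 al g' ≤ (⌈1 / (ks k0 al n ^ th) ^ 2⌉₊ + 16) / 4 ∧
      ((⌈1 / (ks k0 al n ^ th) ^ 2⌉₊ + 16 : ℕ) : ℝ) ≤ 8 * side k0 al (g' + 1) ∧
      2 * (⌈1 / (ks k0 al n ^ th) ^ 2⌉₊ + 16) + 4 ≤ side k0 al n := by
  have hlim : Tendsto (fun n => ks k0 al n) atTop (𝓝 0) := by
    have h2 : Tendsto (fun n : ℕ => k0 ^ (n + 1)) atTop (𝓝 0) :=
      (tendsto_pow_atTop_nhds_zero_of_lt_one h.le h1).comp (tendsto_add_atTop_nat 1)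
    exact squeeze_zero (fun n => (ks_pos h al n).le) (fun n => ks_le_pow h h1 hal n) h2
  have e1 : ∀ᶠ n in atTop, ks k0 al n < 1 / 42 := hlim.eventually_lt_const (by norm_num)
  have e2 : ∀ᶠ n in atTop, (4 * side k0 al 0 : ℝ) < (ks k0 al n ^ th)⁻¹ := by
    have h2 : Tendsto (fun n => ks k0 al n ^ th) atTop (𝓝[>] 0) := by
      rw [tendsto_nhdsWithin_iff]
      refine ⟨?_, Eventually.of_forall fun n => Real.rpow_pos_of_pos (ks_pos h al n) _⟩
      have h3 := hlim.rpow_const (p := th) (Or.inr hth.le)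
      rwa [Real.zero_rpow hth.ne'] at h3
    exact (tendsto_inv_nhdsGT_zero.comp h2).eventually_gt_atTop _
  filter_upwards [e1, e2] with n e1 e2
  set y := ks k0 al n with hy
  have hyp : 0 < y := ks_pos h al n
  have hy1 : y ≤ 1 := by linarith
  set es := y ^ th with hes
  have hes0 : 0 < es := Real.rpow_pos_of_pos hyp _
  have hes1 : es ≤ 1 := Real.rpow_le_one hyp.le hy1 hth.le
  have hes2 : y ≤ es ^ 2 := by
    rw [hes, ← Real.rpow_natCast, ← Real.rpow_mul hyp.le]
    calc y = y ^ (1 : ℝ) := (Real.rpow_one y).symm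
      _ ≤ y ^ (th * ((2 : ℕ) : ℝ)) := by
        refine Real.rpow_le_rpow_of_exponent_ge hyp hy1 ?_
        push_cast
        linarith
  set r : ℕ := ⌈1 / es ^ 2⌉₊ + 16 with hr
  have hr1 : (r : ℝ) ≤ 1 / es ^ 2 + 17 := by
    rw [hr]
    push_cast
    have := (Nat.ceil_lt_add_one (show 0 ≤ 1 / es ^ 2 by positivity)).le
    linarith
  have hr2 : 1 / es ^ 2 ≤ (r : ℝ) := by
    rw [hr]
    push_cast
    have := Nat.le_ceil (1 / es ^ 2)
    linarith
  have hyinv : 1 / es ^ 2 ≤ 1 / y := one_div_le_one_div_of_le hyp hes2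
  have hy1inv : 1 ≤ 1 / y := by rw [le_div_iff₀ hyp]; linarith
  have hbig : 2 * r + 4 ≤ side k0 al n := by
    have a1 := (side_rpow h h1 al n).1
    have a2 : 1 / y ^ 2 ≤ ks k0 al (n + 1) ^ (-2 : ℝ) := by
      rw [Real.rpow_neg (ks_pos h al _).le, inv_eq_one_div]
      have : ks k0 al (n + 1) ^ (2 : ℝ) = ks k0 al (n + 1) ^ 2 := by norm_cast
      rw [this]
      refine one_div_le_one_div_of_le (pow_pos (ks_pos h al _) 2) ?_
      exact pow_le_pow_left₀ (ks_pos h al _).le (ks_anti h h1 hal (Nat.le_succ n)) 2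
    have a3 : ((2 * r + 4 : ℕ) : ℝ) ≤ 1 / y ^ 2 := by
      push_cast
      have b1 : (2 * (r : ℝ) + 4) ≤ 42 * (1 / y) := by linarith
      refine b1.trans ?_
      rw [mul_one_div, div_le_div_iff₀ hyp (by positivity)]
      nlinarith
    have : ((2 * r + 4 : ℕ) : ℝ) ≤ ((side k0 al n : ℕ) : ℝ) := a3.trans (a2.trans a1)
    exact_mod_cast this
  have h0 : side k0 al 0 ≤ r / 4 := by
    rw [Nat.le_div_iff_mul_le (by norm_num)]
    have a1 : (es)⁻¹ ≤ 1 / es ^ 2 := by
      rw [inv_eq_one_div]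
      refine one_div_le_one_div_of_le (by positivity) ?_
      nlinarith
    have a2 : ((side k0 al 0 * 4 : ℕ) : ℝ) ≤ (r : ℝ) := by
      push_cast
      linarith
    exact_mod_cast a2
  set P : ℕ → Prop := fun g => side k0 al g ≤ r / 4 with hP
  classical
  have hPn : ¬ P n := by
    rw [hP]
    simp only [not_le]
    have : r / 4 ≤ r := Nat.div_le_self _ _
    omega
  set g' := Nat.findGreatest P n with hg'
  have hs : P g' := Nat.findGreatest_spec (P := P) (Nat.zero_le n) h0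
  have hle : g' ≤ n := Nat.findGreatest_le n
  have hlt : g' < n := lt_of_le_of_ne hle fun e => hPn (e ▸ hs)
  refine ⟨g', hlt, hs, ?_, hbig⟩
  have h2 : ¬ P (g' + 1) := Nat.findGreatest_is_greatest (P := P) (Nat.lt_succ_self g') hlt
  rw [hP] at h2
  simp only [not_le] at h2
  have h3 : r ≤ 8 * side k0 al (g' + 1) := by
    have h4 := side_pos k0 al (g' + 1)
    omega
  exact_mod_cast h3

end Pool.Agent.AND
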