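import Pool.Agent.AND.End4
import Pool.Agent.ANE.PureD

/-! # AND / End5: from the outputs of the algorithm to `ANE.AndOut`

`OutS`: what the algorithm provides (torus of side `L`, discrete law `Lw`, `n` super-stages, absorption `es`).
`andOut_of_outS`: for almost every `E`, for infinitely many `n`, for infinitely many `nf` `⟹ AndOut`.
-/

open Finset Filter Topology MeasureTheory

noncomputable section

namespace Pool.Agent.AND

open Pool.Agent.Kin Pool.Agent.APS Pool.Agent.ANM Pool.Agent.ANC Pool.Agent.ANB Pool.Agent.ANE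
open Pool.Agent.Helper3.Anderson (GoodLaw)

/-- the final medium of one configuration; `hist` = history, `n` = number of super-stages -/
structure FinM {d L : ℕ} [NeZero L] {X : Type} [Fintype X] (Lw : Law X) (lam E es C1 c1 : ℝ)
    (nJ n : ℕ) {gp : ANQ.GPar (Tor d L)} (h : ANQ.Hist gp) (v : Tor d L → X)
    (π : Prof (Tor d L)) (M : Med (Tor d L)) (f : Fix) (t : Tol d L) (u : UTol) : Prop where
  fC : f.C1 = C1
  fc : c1 ≤ f.c1
  med : IsMed (H0T d L) (sysOf Lw lam E es) π v M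
  good : Good f t M
  tin : t.In f M u
  num : Num f t u
  te : t.eta = es
  /-- the read sites are in the pieces of the holes -/
  rd : ∀ x ∈ π.rd, ∃ k, x ∈ h.piece n k
  /-- the static sites -/
  st : ∀ x, x ∉ π.rd → x ∉ π.act → x ∉ π.ine → x ∈ h.st n
  lev : ∀ x ∈ π.act, nJ ≤ π.lev x
  ine : ∀ x ∈ π.ine, Lw.wk (π.lev x) (v x)
  rl : ∀ x ∈ π.rd, Lw.nf ≤ π.lev x

/-- THE OUTPUT OF THE ALGORITHM on the torus of side `L` -/
def OutS (d L : ℕ) [NeZero L] {X : Type} [Fintype X] [DecidableEq X] (Lw : Law X)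
    (lam E es C1 c1 k0 : ℝ) (al n J V : ℕ) (v2 K1 : ℝ) : Prop :=
  ∃ (gp : ANQ.GPar (Tor d L)) (hist : (Tor d L → X) → ANQ.Hist gp),
    gp.Ok ∧ gp.dist = td ∧ gp.side = side k0 al ∧ gp.R = hR k0 al v2 ∧ gp.W = dW k0 al ∧
    gp.J = J ∧ gp.V = V ∧
    (∀ j < n, ∀ c, ANP.Pr (fun _ : Tor d L => Lw.p) {v | c ∈ (hist v).bd j} ≤
      ks k0 al (j + 1) ^ K1) ∧
    ∀ v, ∃ (π : Prof (Tor d L)) (M : Med (Tor d L)) (f : Fix) (t : Tol d L) (u : UTol),
      FinM Lw lam E es C1 c1 (lv k0 al n) n (hist v) v π M f t u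

theorem Pr_union_le {Λ X : Type} [Fintype Λ] [DecidableEq Λ] [Fintype X] [DecidableEq X]
    {w : Λ → X → ℝ} (hw : ANP.IsLaw w) (A B : Set (Λ → X)) :
    ANP.Pr w (A ∪ B) ≤ ANP.Pr w A + ANP.Pr w B := by
  have h := ANP.Pr_iUnion_le hw (Finset.univ : Finset Bool) (fun i => if i then A else B)
  have h1 : (⋃ i ∈ (Finset.univ : Finset Bool), (fun i : Bool => if i then A else B) i) =
      A ∪ B := by
    ext v
    simp only [Finset.mem_univ, Set.iUnion_true, Set.mem_iUnion, Bool.exists_bool, Set.mem_union]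
    constructor
    · rintro (h | h)
      · exact Or.inr h
      · exact Or.inl h
    · rintro (h | h)
      · exact Or.inr h
      · exact Or.inl h
  rw [h1] at h
  simpa using h

/-- probability of bad cells near `0` -/
theorem OutS.prob {d L : ℕ} [NeZero L] {X : Type} [Fintype X] [DecidableEq X] {Lw : Law X}
    {lam E es C1 c1 k0 : ℝ} {al n J V : ℕ} {v2 K1 : ℝ} (hk : 0 < k0) (hk1 : k0 < 1)
    (hal : 2 ≤ al) (hv : 0 ≤ v2) (hv1 : v2 ≤ 1) (hlam : 0 ≤ lam)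
    (hw : ANP.IsLaw (fun _ : Tor d L => Lw.p)) (hsum : ∀ J : ℕ, ∑ j ∈ Finset.range J,
      1033 ^ d * ks k0 al (j + 1) ^ (K1 - 2 * al * d) ≤ k0 ^ (K1 - 2 * al * d))
    (h : OutS d L Lw lam E es C1 c1 k0 al n J V v2 K1) {c : ℝ} (hc : c < c1)
    {r R N g' : ℕ} (hg : g' < n) (hr : (r : ℝ) ≤ 8 * side k0 al (g' + 1))
    (hside : side k0 al g' + 2 * (R + 2) ≤ r) (hL : 2 * r + 4 ≤ L)
    (hN : (2 * r + 1) ^ d ≤ N) :
    ANP.Pr (fun _ : Tor d L => Lw.p) {v | ¬ FinS (fun x => lam * Lw.V (v x)) E es C1 c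
      (lam * (2 * Lw.S / 2 ^ lv k0 al n) + (lam * (2 * Lw.S / 2 ^ lv k0 al n)) ^ 2 * C1) R N} ≤
      2 * k0 ^ (K1 - 2 * al * d) := by
  classical
  obtain ⟨gp, hist, hok, hdist, hgs, hgR, hgW, hgJ, hgV, hpr, hfin⟩ := h
  set q : ℕ → ℝ := fun j => ks k0 al (j + 1) ^ K1 with hq
  -- the two families of events
  set A : ℕ → Set (Tor d L → X) := fun j =>
    {v | ∃ c ∈ (hist v).bd j, td 0 c ≤ 0 + (hR k0 al v2 (j + 1) + dW k0 al j)} with hA
  set B : ℕ → Set (Tor d L → X) := fun j =>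
    {v | g' ≤ j ∧ ∃ c ∈ (hist v).bd j, td 0 c ≤ r + (hR k0 al v2 (j + 1) + dW k0 al j)} with hB
  have hsub : {v | ¬ FinS (fun x => lam * Lw.V (v x)) E es C1 c
      (lam * (2 * Lw.S / 2 ^ lv k0 al n) + (lam * (2 * Lw.S / 2 ^ lv k0 al n)) ^ 2 * C1) R N} ⊆
      (⋃ j ∈ Finset.range n, A j) ∪ ⋃ j ∈ Finset.range n, B j := by
    intro v hv
    by_contra hcon
    apply hv
    rw [Set.mem_union, not_or] at hcon
    obtain ⟨h1, h2⟩ := hcon
    obtain ⟨π, M, f, t, u, hF⟩ := hfin v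
    have h3 := finS_of_hist (Lw := Lw) (lam := lam) (E := E) (eta := es) hok hdist (hist v) hlam
      hF.med hF.good hF.tin hF.num hF.te (c := c) (hc.trans_le hF.fc) (r := r)
      (nJ := lv k0 al n) (R := R) (N := N) (n := n) (g' := g') (by omega) hg hF.rd hF.st hF.lev
      hF.ine hF.rl ?_ ?_ ?_ hL hN
    · rw [hF.fC] at h3
      exact h3
    · intro j hj c hc
      rw [hgR, hgW]
      by_contra h4
      refine h1 (Set.mem_iUnion₂.2 ⟨j, Finset.mem_range.2 hj, c, hc, ?_⟩)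
      omega
    · intro j hj hgj c hc
      rw [hgR, hgW]
      by_contra h4
      refine h2 (Set.mem_iUnion₂.2 ⟨j, Finset.mem_range.2 hj, hgj, c, hc, ?_⟩)
      omega
    · have h4 := cst_le hok g'
      rw [hgs] at h4
      rw [hgs, hgR] at *
      omega
  have hPA : ∀ j < n, ANP.Pr (fun _ : Tor d L => Lw.p) (A j) ≤
      1033 ^ d * ks k0 al (j + 1) ^ (K1 - 2 * al * d) := by
    intro j hj
    refine (Pr_near hw (fun v => (hist v).bd j)
      (0 + (hR k0 al v2 (j + 1) + dW k0 al j)) (hpr j hj)).trans ?_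
    refine term_le hk hk1 hal hv hv1 d j 0 ?_ K1
    rw [Nat.cast_zero]
    have := ks_pos hk al (j + 1)
    positivity
  have hPB : ∀ j < n, ANP.Pr (fun _ : Tor d L => Lw.p) (B j) ≤
      1033 ^ d * ks k0 al (j + 1) ^ (K1 - 2 * al * d) := by
    intro j hj
    have hy := ks_pos hk al (j + 1)
    by_cases hgj : g' ≤ j
    · have h1 : B j ⊆ {v | ∃ c ∈ (hist v).bd j,
          td 0 c ≤ r + (hR k0 al v2 (j + 1) + dW k0 al j)} := fun v hv => hv.2
      refine (ANP.Pr_mono hw h1).trans ((Pr_near hw (fun v => (hist v).bd j)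
        (r + (hR k0 al v2 (j + 1) + dW k0 al j)) (hpr j hj)).trans ?_)
      refine term_le hk hk1 hal hv hv1 d j r ?_ K1
      have a1 := (side_rpow hk hk1 al (g' + 1)).2
      have a2 : ks k0 al (g' + 2) ^ (-2 : ℝ) ≤ 16 / ks k0 al (j + 1) ^ (2 * al) := by
        have hz := ks_pos hk al (g' + 2)
        have hz1 := ks_pos hk al (g' + 1)
        rw [Real.rpow_neg hz.le, inv_eq_one_div]
        have e1 : ks k0 al (g' + 2) ^ (2 : ℝ) = ks k0 al (g' + 2) ^ 2 := by norm_cast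
        rw [e1, div_le_div_iff₀ (by positivity) (by positivity), one_mul]
        have b1 := ks_succ_gt hk hk1 hal (g' + 1)
        have b2 : ks k0 al (j + 1) ^ al ≤ ks k0 al (g' + 1) ^ al :=
          pow_le_pow_left₀ hy.le (ks_anti hk hk1 hal (by omega)) al
        have b3 : ks k0 al (j + 1) ^ al ≤ 4 * ks k0 al (g' + 2) := b2.trans b1.le
        calc ks k0 al (j + 1) ^ (2 * al) = (ks k0 al (j + 1) ^ al) ^ 2 := by
              rw [← pow_mul, mul_comm]
          _ ≤ (4 * ks k0 al (g' + 2)) ^ 2 := pow_le_pow_left₀ (by positivity) b3 2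
          _ = 16 * ks k0 al (g' + 2) ^ 2 := by ring
      have e2 : g' + 1 + 1 = g' + 2 := rfl
      rw [e2] at a1
      calc (r : ℝ) ≤ 8 * (2 * (16 / ks k0 al (j + 1) ^ (2 * al))) := by linarith
        _ = 256 / ks k0 al (j + 1) ^ (2 * al) := by ring
        _ ≤ 500 / ks k0 al (j + 1) ^ (2 * al) :=
          div_le_div_of_nonneg_right (by norm_num) (by positivity)
    · have h1 : B j ⊆ ∅ := fun v hv => absurd hv.1 hgj
      refine (ANP.Pr_mono hw h1).trans ?_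
      have h2 : ANP.Pr (fun _ : Tor d L => Lw.p) (∅ : Set (Tor d L → X)) = 0 := by
        unfold ANP.Pr
        simp
      rw [h2]
      positivity
  refine (ANP.Pr_mono hw hsub).trans ((Pr_union_le hw _ _).trans ?_)
  have h1 := (ANP.Pr_iUnion_le hw (Finset.range n) A).trans
    ((Finset.sum_le_sum fun j hj => hPA j (Finset.mem_range.1 hj)).trans (hsum n))
  have h2 := (ANP.Pr_iUnion_le hw (Finset.range n) B).trans
    ((Finset.sum_le_sum fun j hj => hPB j (Finset.mem_range.1 hj)).trans (hsum n))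
  linarith

/-- the exponent of `η_* = ks n ^ th` -/
def thE (d : ℕ) : ℝ := 1 / (20 * d)

/-- `Lw` is a discretisation of `μ` of precision `nf`, with constant `S` -/
structure IsReal {μ : Measure ℝ} [IsProbabilityMeasure μ] {M : ℝ} {nf : ℕ} (S : ℝ)
    (Lw : Law (XC μ M nf)) : Prop where
  hp : Lw.p = xp
  hV : Lw.V = xV
  hS : Lw.S = S

/-- FROM THE OUTPUTS OF THE ALGORITHM TO `AndOut` -/
theorem andOut_of_outS {d : ℕ} (hd : 0 < d) {μ : Measure ℝ} [IsProbabilityMeasure μ] {M : ℝ}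
    {K : NNReal} (hμ : GoodLaw μ M K) {S : ℝ} (hS : 0 < S) {al J V : ℕ} {v2 K1 : ℝ} (hal : 2 ≤ al) (hv : 0 ≤ v2)
    (hv1 : v2 ≤ 1) (hK1 : 2 * al * d + 1 ≤ K1) {κ : ℝ} (hκ : 0 < κ) :
    ∃ lam0 : ℝ, 0 < lam0 ∧ ∀ lam : ℝ, 0 < lam → lam ≤ lam0 → ∀ a b C1 c1 : ℝ, 0 ≤ C1 → 0 < c1 →
      (∀ᵐ E : ℝ, E ∈ Set.Icc a b → ∃ᶠ n in atTop, ∃ (L : ℕ) (_ : NeZero L),
        side ((lam * (2 * S)) ^ 2) al n ≤ L ∧ ∃ᶠ nf in atTop,
          ∃ Lw : Law (XC μ M nf), IsReal S Lw ∧ OutS d L Lw lam E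
              (ks ((lam * (2 * S)) ^ 2) al n ^ thE d) C1 c1
              ((lam * (2 * S)) ^ 2) al n J V v2 K1) →
      AndOut d μ lam a b (c1 / 2) (κ * lam) := by
  have hd0 : (0 : ℝ) < d := by exact_mod_cast hd
  have hd1 : (1 : ℝ) ≤ d := by exact_mod_cast hd
  have hth : 0 < thE d := by unfold thE; positivity
  have hth1 : thE d ≤ 1 / 2 := by
    unfold thE
    rw [div_le_div_iff₀ (by positivity) (by norm_num)]
    linarith
  have hev := (rec_sum (C := 1033 ^ d) (p := K1 - 2 * al * d) (by linarith) hal).and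
    (ev_small (show (0 : ℝ) < 1 / 2 by norm_num))
  obtain ⟨k1, hk1, -, hk⟩ := ev_iff.1 hev
  refine ⟨min (Real.sqrt k1 / (2 * S)) (κ / (32 * S ^ 2)), by positivity, ?_⟩
  intro lam hlam hlam1 a b C1 c1 hC1 hc1 hE
  set k0 : ℝ := (lam * (2 * S)) ^ 2 with hk0def
  have hk0 : 0 < k0 := by positivity
  have hk01 : k0 ≤ k1 := by
    have h1 : lam * (2 * S) ≤ Real.sqrt k1 := by
      have := hlam1.trans (min_le_left _ _)
      rwa [le_div_iff₀ (by positivity)] at this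
    calc k0 ≤ (Real.sqrt k1) ^ 2 := pow_le_pow_left₀ (by positivity) h1 2
      _ = k1 := Real.sq_sqrt hk1.le
  obtain ⟨hsum, -, hk02⟩ := hk k0 hk0 hk01
  have hk03 : k0 < 1 := by linarith
  have hprob : 2 * k0 ^ (K1 - 2 * al * d) < κ * lam := by
    have h1 : k0 ^ (K1 - 2 * al * d) ≤ k0 ^ (1 : ℝ) :=
      Real.rpow_le_rpow_of_exponent_ge hk0 hk03.le (by linarith)
    rw [Real.rpow_one] at h1
    have h2 := hlam1.trans (min_le_right _ _)
    rw [le_div_iff₀ (by positivity)] at h2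
    have h3 : 2 * k0 = (lam * (32 * S ^ 2)) * lam / 4 := by rw [hk0def]; ring
    have h4 : lam * (32 * S ^ 2) * lam ≤ κ * lam := mul_le_mul_of_nonneg_right h2 hlam.le
    have h5 : 0 < κ * lam := by positivity
    linarith
  refine andOut_of_fin hd hμ hlam (δ' := 2 * k0 ^ (K1 - 2 * al * d)) hprob ?_
  filter_upwards [hE] with E hE hEab k
  have hη : (0 : ℝ) < 1 / ((k : ℝ) + 1) := by positivity
  -- `ks n → 0`
  have hlim : Tendsto (fun n => ks k0 al n) atTop (𝓝[>] 0) := by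
    rw [tendsto_nhdsWithin_iff]
    refine ⟨?_, Eventually.of_forall fun n => ks_pos hk0 al n⟩
    have h2 : Tendsto (fun n : ℕ => k0 ^ (n + 1)) atTop (𝓝 0) :=
      (tendsto_pow_atTop_nhds_zero_of_lt_one hk0.le hk03).comp (tendsto_add_atTop_nat 1)
    exact squeeze_zero (fun n => (ks_pos hk0 al n).le) (fun n => ks_le_pow hk0 hk03 hal n) h2
  have hlim2 : Tendsto (fun n => ks k0 al n ^ thE d) atTop (𝓝[>] 0) := by
    rw [tendsto_nhdsWithin_iff]
    refine ⟨?_, Eventually.of_forall fun n => Real.rpow_pos_of_pos (ks_pos hk0 al n) _⟩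
    have h3 := (hlim.mono_right nhdsWithin_le_nhds).rpow_const (p := thE d) (Or.inr hth.le)
    rwa [Real.zero_rpow hth.ne'] at h3
  have e1 := hlim2.eventually (endErr_small d hd hC1 hη)
  have e2 := end_scale hk0 hk03 hal hth hth1
  have e3 := hlim2.eventually (ev_small (lt_min hη one_pos))
  have e4 := hlim.eventually ((ev_pow' (C := 1 + C1) (show (1 / 4 : ℝ) < 1 / 2 by norm_num)).and
    (ev_small one_pos))
  obtain ⟨n, ⟨L, hL, hsL, hfr⟩, e1, ⟨g', hg', hs1, hs2, hs3⟩, ⟨hes, hes1⟩, e4, hy, hy1⟩ :=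
    ((hE hEab).and_eventually (e1.and (e2.and (e3.and e4)))).exists
  set y := ks k0 al n with hydef
  set es := y ^ thE d with hesdef
  set r : ℕ := ⌈1 / es ^ 2⌉₊ + 16 with hr
  have hes1' : es ≤ 1 := hes1.trans (min_le_right _ _)
  set eA : ℝ := lam * (2 * S / 2 ^ lv k0 al n) + (lam * (2 * S / 2 ^ lv k0 al n)) ^ 2 * C1
    with heA
  have hsq : (lam * (2 * S / 2 ^ lv k0 al n)) ^ 2 = y := by
    have h1 : y = k0 * (1 / 4 : ℝ) ^ lv k0 al n := rfl
    have h2 : ∀ m : ℕ, (lam * (2 * S / 2 ^ m)) ^ 2 = (lam * (2 * S)) ^ 2 * (1 / 4 : ℝ) ^ m := by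
      intro m
      have h3 : (4 : ℝ) ^ m = (2 ^ m) ^ 2 := by
        rw [← pow_mul, mul_comm, pow_mul]
        norm_num
      rw [one_div, inv_pow, h3]
      field_simp
    rw [h1, h2, ← hk0def]
  have hpos : 0 ≤ lam * (2 * S / 2 ^ lv k0 al n) := by positivity
  have hlin : lam * (2 * S / 2 ^ lv k0 al n) = y ^ (1 / 2 : ℝ) := by
    rw [← Real.sqrt_eq_rpow, ← hsq, Real.sqrt_sq hpos]
  have heA0 : 0 ≤ eA := by positivity
  have heA1 : eA ≤ es ^ (2 * d + 3) := by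
    have h1 : y ≤ y ^ (1 / 2 : ℝ) := by
      calc y = y ^ (1 : ℝ) := (Real.rpow_one y).symm
        _ ≤ _ := Real.rpow_le_rpow_of_exponent_ge hy hy1 (by norm_num)
    have h2 : eA ≤ (1 + C1) * y ^ (1 / 2 : ℝ) := by
      rw [heA, hsq, hlin]
      have := mul_le_mul_of_nonneg_right h1 hC1
      linarith
    refine h2.trans (e4.trans ?_)
    rw [hesdef, ← Real.rpow_natCast, ← Real.rpow_mul hy.le]
    refine Real.rpow_le_rpow_of_exponent_ge hy hy1 ?_
    unfold thE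
    push_cast
    rw [one_div, inv_mul_eq_div, div_le_div_iff₀ (by positivity) (by norm_num)]
    linarith
  have hr1 : (r : ℝ) ≤ 1 / es ^ 2 + 17 := by
    rw [hr]
    push_cast
    have := (Nat.ceil_lt_add_one (show 0 ≤ 1 / es ^ 2 by positivity)).le
    linarith
  have hr2 : 1 / es ^ 2 + 16 ≤ (r : ℝ) := by
    rw [hr]
    push_cast
    have := Nat.le_ceil (1 / es ^ 2)
    linarith
  have hinv : 1 ≤ 1 / es ^ 2 := by
    rw [le_div_iff₀ (by positivity), one_mul]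
    exact pow_le_one₀ hes.le hes1'
  refine ⟨L, hL, es, C1, eA, r / 4, (2 * r + 1) ^ d, hes, hes1', hes1.trans (min_le_left _ _),
    ?_, ?_⟩
  · refine e1 _ _ eA heA0 heA1 ?_ ?_
    · push_cast
      refine pow_le_pow_left₀ (by positivity) ?_ d
      have : 40 / es ^ 2 = 40 * (1 / es ^ 2) := by ring
      rw [this]
      linarith
    · have h1 : (r : ℝ) - 3 ≤ 4 * ((r / 4 : ℕ) : ℝ) := by
        have : r ≤ 4 * (r / 4) + 3 := by omega
        have : (r : ℝ) ≤ 4 * ((r / 4 : ℕ) : ℝ) + 3 := by exact_mod_cast this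
        linarith
      have h2 : 1 / (4 * es ^ 2) = (1 / es ^ 2) / 4 := by
        field_simp
      rw [h2]
      linarith
  · refine hfr.mono fun nf => ?_
    rintro ⟨Lw, ⟨hp, hV, hS'⟩, hout⟩
    have hw : ANP.IsLaw (fun _ : Tor d L => Lw.p) := by
      rw [hp]
      exact isLaw_xp
    have h := hout.prob hk0 hk03 hal hv hv1 hlam.le hw hsum (c := c1 / 2) (by linarith)
      (r := r) (R := r / 4) (N := (2 * r + 1) ^ d) hg' hs2 (by omega)
      (by omega) le_rfl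
    rw [hp, hV, hS'] at h
    exact h

/-- `-Δ + v` has continuous spectrum in `[a,b]` and no eigenvalue in `[a,b]` -/
def PureCont {d : ℕ} (v : Helper3.Anderson.Site d → ℝ) (a b : ℝ) : Prop :=
  HasContinuousSpectrum v a b ∧
    ∀ E ∈ Set.Icc a b, ∀ φ : Helper3.Anderson.Site d → ℂ, IsEigen v E φ → φ = 0

/-- FROM THE OUTPUTS OF THE ALGORITHM TO CONTINUOUS SPECTRUM -/
theorem contSpec_of_outS {d : ℕ} (hd : 0 < d) {μ : Measure ℝ} [IsProbabilityMeasure μ] {M : ℝ}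
    {K : NNReal} (hμ : GoodLaw μ M K) {S : ℝ} (hS : 0 < S) {al J V : ℕ} {v2 K1 : ℝ} (hal : 2 ≤ al) (hv : 0 ≤ v2)
    (hv1 : v2 ≤ 1) (hK1 : 2 * al * d + 1 ≤ K1) {a b : ℝ} (hab : a < b) (ha : 0 ≤ a)
    (hb : b ≤ 4 * d) :
    ∃ lam0 : ℝ, 0 < lam0 ∧ ∀ lam : ℝ, 0 < lam → lam ≤ lam0 → ∀ C1 c1 : ℝ, 0 ≤ C1 → 0 < c1 →
      (∀ᵐ E : ℝ, E ∈ Set.Icc a b → ∃ᶠ n in atTop, ∃ (L : ℕ) (_ : NeZero L),
        side ((lam * (2 * S)) ^ 2) al n ≤ L ∧ ∃ᶠ nf in atTop,
          ∃ Lw : Law (XC μ M nf), IsReal S Lw ∧ OutS d L Lw lam E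
              (ks ((lam * (2 * S)) ^ 2) al n ^ thE d) C1 c1
              ((lam * (2 * S)) ^ 2) al n J V v2 K1) →
      ∀ᵐ ω ∂(Helper3.Anderson.siteLaw d μ), PureCont (fun x => lam * ω x) a b := by
  obtain ⟨κ, hκ, h1⟩ := ANE.final_pure hd hμ hab ha hb
  obtain ⟨lam0, hl0, h2⟩ := andOut_of_outS (J := J) (V := V) hd hμ hS hal hv hv1 hK1 one_pos
  refine ⟨min (min κ lam0) (1 / 2), lt_min (lt_min hκ hl0) (by norm_num),
    fun lam hlam hlam1 C1 c1 hC1 hc1 hE => ?_⟩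
  have h3 := hlam1.trans (min_le_left _ _)
  have h4 := hlam1.trans (min_le_right _ _)
  exact h1 lam hlam (h3.trans (min_le_left _ _)) (c1 / 2) (1 * lam) (by positivity) (by linarith)
    (h2 lam hlam (h3.trans (min_le_right _ _)) a b C1 c1 hC1 hc1 hE)

end Pool.Agent.AND
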