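import Pool.Agent.AND.FldSum
import Pool.Agent.ANQ.Markov

/-! # AND / FldBd: the fields along the algorithm and their bounds -/

open Matrix Finset

noncomputable section

namespace Pool.Agent.AND

open Pool.Agent.Kin Pool.Agent.APS Pool.Agent.ANM

section scalar

variable {T : Type} [Fintype T] [DecidableEq T] [Nonempty T] (g : ANQ.Geo T)

theorem nc_length (j : ℕ) : (g.clist j).length = g.nc j := by
  unfold ANQ.Geo.clist ANQ.Geo.nc
  rw [Finset.length_toList]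

theorem sum_row (j : ℕ) (f : T → ℝ) :
    ∑ r ∈ range (g.nc j), f ((g.clist j).getD r (Classical.arbitrary T)) =
      ∑ c ∈ g.corners j, f c := by
  have e0 : ∑ c ∈ g.corners j, f c = ((g.clist j).map f).sum := by
    unfold ANQ.Geo.clist
    rw [Finset.sum_map_toList]
  rw [e0, ← nc_length, Finset.sum_range, ← List.sum_ofFn]
  congr 1
  refine List.ext_getElem (by simp) fun i h1 h2 => ?_
  simp only [List.getElem_ofFn, List.getElem_map]
  rw [List.getD_eq_getElem]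

/-- full levels -/
theorem sum_full (j : ℕ) (f : ℕ → T → ℝ) (Q : ℕ) :
    ∑ i ∈ range (Q * g.nc j), f (g.sn j i) (g.sL j i) =
      ∑ q ∈ range Q, ∑ c ∈ g.corners j, f (g.lv j + q) c := by
  induction Q with
  | zero => simp
  | succ Q ih =>
    rw [Nat.succ_mul, Finset.sum_range_add, ih, Finset.sum_range_succ]
    congr 1
    rw [← sum_row]
    refine Finset.sum_congr rfl fun r hr => ?_
    have hr' := Finset.mem_range.1 hr
    have h0 : 0 < g.nc j := lt_of_le_of_lt (Nat.zero_le _) hr'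
    have e1 : (Q * g.nc j + r) / g.nc j = Q := by
      rw [mul_comm, Nat.mul_add_div h0, Nat.div_eq_of_lt hr', add_zero]
    have e2 : (Q * g.nc j + r) % g.nc j = r := by
      rw [mul_comm, Nat.mul_add_mod, Nat.mod_eq_of_lt hr']
    unfold ANQ.Geo.sn ANQ.Geo.sL
    rw [e1, e2]

/-- partial levels -/
theorem sum_part (j : ℕ) (f : ℕ → T → ℝ) (hf : ∀ n c, 0 ≤ f n c) (i : ℕ) (h0 : 0 < g.nc j) :
    ∑ i' ∈ range i, f (g.sn j i') (g.sL j i') ≤
      ∑ q ∈ range (i / g.nc j + 1), ∑ c ∈ g.corners j, f (g.lv j + q) c := by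
  rw [← sum_full]
  refine Finset.sum_le_sum_of_subset_of_nonneg ?_ fun i' _ _ => hf _ _
  intro i' hi'
  rw [Finset.mem_range] at hi' ⊢
  have := Nat.div_add_mod i (g.nc j)
  have h1 := Nat.mod_lt i h0
  calc i' < i := hi'
    _ = g.nc j * (i / g.nc j) + i % g.nc j := this.symm
    _ < g.nc j * (i / g.nc j) + g.nc j := by omega
    _ = (i / g.nc j + 1) * g.nc j := by ring

/-- ABSTRACT BOUND of one scalar field along the algorithm -/
theorem scalar_bd (Jm : ℕ) (hlv : ∀ j < Jm, g.lv j < g.lv (j + 1)) (h0 : ∀ j, 0 < g.nc j)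
    {mJ : ℝ} (hm : 0 ≤ mJ)
    (u : ℕ → ℝ) (w : ℕ → ℕ → ℝ) (f : ℕ → ℕ → T → ℝ) (h : ℕ → ℝ) (β : ℕ → ℝ)
    (hβ : ∀ n, 0 ≤ β n)
    (hw0 : ∀ j, w j 0 = u j) (hw : ∀ j i, w j (i + 1) = w j i + f j (g.sn j i) (g.sL j i))
    (hu : ∀ j, u (j + 1) = w j (g.ns j) + h j)
    (hh : ∀ j < Jm, h j ≤ mJ * β (g.lv (j + 1)))
    (hf0 : ∀ j n c, 0 ≤ f j n c)
    (hf : ∀ j < Jm, ∀ n, g.lv j ≤ n → n ≤ g.lv (j + 1) → ∑ c ∈ g.corners j, f j n c ≤ β n) :
    (∀ j ≤ Jm, u j ≤ u 0 + (1 + mJ) * ∑ k ∈ range (g.lv j), β k + mJ * β (g.lv j)) ∧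
    ∀ j < Jm, ∀ i, i ≤ g.ns j →
      w j i ≤ u 0 + (1 + mJ) * ∑ k ∈ range (g.sn j i + 1), β k := by
  have hws : ∀ j i, w j i = u j + ∑ i' ∈ range i, f j (g.sn j i') (g.sL j i') := by
    intro j i
    induction i with
    | zero => rw [hw0]; simp
    | succ i ih => rw [hw, ih, Finset.sum_range_succ]; ring
  have hu1 : ∀ j ≤ Jm,
      u j ≤ u 0 + (1 + mJ) * ∑ k ∈ range (g.lv j), β k + mJ * β (g.lv j) := by
    intro j
    induction j with
    | zero =>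
      intro _
      have h1 : 0 ≤ ∑ k ∈ range (g.lv 0), β k := Finset.sum_nonneg fun k _ => hβ k
      have h2 := mul_nonneg hm (hβ (g.lv 0))
      have h3 : 0 ≤ (1 + mJ) * ∑ k ∈ range (g.lv 0), β k := by positivity
      linarith
    | succ j ih' =>
      intro hj
      have ih := ih' (by omega)
      have hj' : j < Jm := by omega
      rw [hu, hws]
      have e1 : ∑ i' ∈ range (g.ns j), f j (g.sn j i') (g.sL j i') ≤
          ∑ q ∈ range (g.lv (j + 1) - g.lv j), β (g.lv j + q) := by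
        unfold ANQ.Geo.ns
        rw [sum_full g j (f j)]
        refine Finset.sum_le_sum fun q hq => hf j hj' _ (Nat.le_add_right _ _) ?_
        have := Finset.mem_range.1 hq
        omega
      have e2 : ∑ k ∈ range (g.lv (j + 1)), β k =
          ∑ k ∈ range (g.lv j), β k + ∑ q ∈ range (g.lv (j + 1) - g.lv j), β (g.lv j + q) := by
        rw [← Finset.sum_range_add]
        congr 2
        have := hlv j hj'
        omega
      have e3 : β (g.lv j) ≤ ∑ q ∈ range (g.lv (j + 1) - g.lv j), β (g.lv j + q) := by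
        have h1 : 0 ∈ range (g.lv (j + 1) - g.lv j) := by
          rw [Finset.mem_range]
          have := hlv j hj'
          omega
        exact Finset.single_le_sum (f := fun q => β (g.lv j + q)) (fun q _ => hβ _) h1
      have e4 := hh j hj'
      rw [e2]
      have e5 := mul_le_mul_of_nonneg_left e3 hm
      nlinarith
  refine ⟨hu1, fun j hj i hi => ?_⟩
  rw [hws]
  have e1 := sum_part g j (f j) (hf0 j) i (h0 j)
  have e1' : ∑ q ∈ range (i / g.nc j + 1), ∑ c ∈ g.corners j, f j (g.lv j + q) c ≤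
      ∑ q ∈ range (i / g.nc j + 1), β (g.lv j + q) := by
    refine Finset.sum_le_sum fun q hq => hf j hj _ (Nat.le_add_right _ _) ?_
    have h1 : q ≤ i / g.nc j := Nat.lt_succ_iff.1 (Finset.mem_range.1 hq)
    have h2 : i / g.nc j ≤ g.lv (j + 1) - g.lv j := by
      refine Nat.div_le_of_le_mul ?_
      rw [mul_comm]
      exact hi
    have := hlv j hj
    omega
  have e2 : ∑ k ∈ range (g.sn j i + 1), β k =
      ∑ k ∈ range (g.lv j), β k + ∑ q ∈ range (i / g.nc j + 1), β (g.lv j + q) := by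
    rw [← Finset.sum_range_add]
    rfl
  have e3 : β (g.lv j) ≤ ∑ q ∈ range (i / g.nc j + 1), β (g.lv j + q) :=
    Finset.single_le_sum (f := fun q => β (g.lv j + q)) (fun q _ => hβ _)
      (Finset.mem_range.2 (Nat.succ_pos _))
  have e5 := mul_le_mul_of_nonneg_left e3 hm
  have e6 := hu1 j hj.le
  rw [e2]
  nlinarith

end scalar

variable {d L : ℕ} [NeZero L]

/-- the fields after `i` steps of super-stage `j` -/
def FI (P : Par) (g : ANQ.Geo (Tor d L)) (j : ℕ) (F : Fld (Tor d L)) : ℕ → Fld (Tor d L)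
  | 0 => F
  | i + 1 => (FI P g j F i).add P (g.sn j i) (g.side j) {g.sL j i}

/-- the fields at the start of super-stage `j` -/
def FS (P : Par) (g : ANQ.Geo (Tor d L)) (mJ : ℕ) (F0 : Fld (Tor d L)) : ℕ → Fld (Tor d L)
  | 0 => F0
  | j + 1 => (FI P g j (FS P g mJ F0 j) (g.ns j)).ins P (g.lv (j + 1)) (g.side j) mJ
      (g.corners j)

/-- geometric and numerical hypotheses for the bounds of the fields, `Jm` super-stages -/
structure FH (P : Par) (g : ANQ.Geo (Tor d L)) (Jm : ℕ) : Prop where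
  pos : P.Pos
  k1 : ∀ n, P.kap n ≤ 1
  b : 0 < P.b
  b1 : ∀ n, P.b * P.kap n ≤ 1
  cor : ∀ j x, g.cor j x = ANP.cor (g.side j) x
  side : ∀ j < Jm, 0 < g.side j
  dvd : ∀ j < Jm, g.side j ∣ L
  lv : ∀ j < Jm, g.lv j < g.lv (j + 1)
  vtv : P.vt ≤ P.v
  viv : P.vi ≤ P.v
  vi0 : 0 ≤ P.vi
  tl : ∀ j < Jm, ∀ n, g.lv j ≤ n → n ≤ g.lv (j + 1) →
    tl d (P.kap n) P.b (g.side j) ≤ P.kap n ^ P.v
  mn : ∀ n, ∀ r : ℕ, min (P.kap n ^ P.v) (pf (P.kap n) P.b P.Cg * Real.exp (-(P.b * P.kap n * r))) ≤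
    P.kap n ^ (P.vi / 2) * (max 1 (r : ℝ)) ^ (-P.s5)
  mx : ∀ n, ∀ r : ℕ, Real.exp (-(P.b * P.kap n * r)) * P.kap n ^ P.v ≤
    P.kap n ^ (P.vi / 2) * (max 1 (r : ℝ)) ^ (-P.s5)

/-- the constant of the bounds -/
def cF (d : ℕ) : ℝ := 2 * 7 ^ d + 1

namespace FH

variable {P : Par} {g : ANQ.Geo (Tor d L)} {Jm : ℕ} (h : FH P g Jm)
include h

theorem corners (j : ℕ) : g.corners j = crn (g.side j) := by
  ext c
  rw [ANQ.Geo.mem_corners, mem_crn, h.cor]

theorem nc_pos (j : ℕ) : 0 < g.nc j := by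
  refine ANQ.Geo.nc_pos (fun j x => ?_) j (Classical.arbitrary (Tor d L))
  rw [h.cor, h.cor, ANP.cor_idem]

theorem kpow {e e' : ℝ} (he : e ≤ e') (n : ℕ) : P.kap n ^ e' ≤ P.kap n ^ e :=
  Real.rpow_le_rpow_of_exponent_ge (h.pos.kap n) (h.k1 n) he

/-- one level, site fields -/
theorem sum_ph {e e' : ℝ} (he : e ≤ e') (hv : e ≤ P.v) {j n : ℕ} (hj : j < Jm) (hn : g.lv j ≤ n)
    (hn' : n ≤ g.lv (j + 1)) (x : Tor d L) :
    ∑ c ∈ g.corners j, ph (P.kap n) e' P.b (g.side j) x c ≤ cF d * P.kap n ^ e := by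
  rw [h.corners]
  have h1 := sum_ph_le (v := e') (h.pos.kap n) h.b (h.b1 n) (h.side j hj) (h.dvd j hj) x
  have h2 := h.tl j hj n hn hn'
  have h3 := h.kpow hv n
  have h3' := h.kpow he n
  have h4 : (0 : ℝ) ≤ 7 ^ d := by positivity
  have h5 : 0 ≤ P.kap n ^ e := Real.rpow_nonneg (h.pos.kap n).le _
  unfold cF
  have h6 := mul_le_mul_of_nonneg_left h3' h4
  nlinarith

theorem rr0 (x y : Tor d L) : (0 : ℝ) ≤ (max 1 (ANP.dT x y : ℝ)) ^ (-P.s5) :=
  Real.rpow_nonneg (le_max_of_le_left zero_le_one) _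

/-- one level, pair field -/
theorem sum_ph5 {j n : ℕ} (hj : j < Jm) (hn : g.lv j ≤ n) (hn' : n ≤ g.lv (j + 1)) (x y : Tor d L) :
    ∑ c ∈ g.corners j, ph5 (P.kap n) P.v P.b P.Cg (g.side j) x y c ≤
      cF d * (P.kap n ^ (P.vi / 2) * (max 1 (ANP.dT x y : ℝ)) ^ (-P.s5)) := by
  rw [h.corners]
  have h1 := sum_ph5_le (v := P.v) (Cg := P.Cg) (h.pos.kap n) h.b (h.b1 n) (h.side j hj) (h.dvd j hj)
    x y
  have h2 := h.tl j hj n hn hn'
  have h3 := h.mn n (ANP.dT x y)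
  have h4 := h.mx n (ANP.dT x y)
  have h5 : (0 : ℝ) ≤ 2 * 7 ^ d := by positivity
  have h6 := mul_le_mul_of_nonneg_left h3 h5
  have h7 := mul_le_mul_of_nonneg_left h2
    (Real.exp_pos (-(P.b * P.kap n * (ANP.dT x y : ℝ)))).le
  unfold cF
  linarith

/-- one level, pair field, insertions -/
theorem sum_ph5i {j n : ℕ} (hj : j < Jm) (hn : g.lv j ≤ n) (hn' : n ≤ g.lv (j + 1)) (x y : Tor d L) :
    ∑ c ∈ g.corners j, ph5i (P.kap n) P.vi P.b P.s5 (g.side j) x y c ≤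
      cF d * (P.kap n ^ (P.vi / 2) * (max 1 (ANP.dT x y : ℝ)) ^ (-P.s5)) := by
  rw [h.corners]
  have h1 := sum_ph5i_le (v := P.vi) (s5 := P.s5) (h.pos.kap n) h.b (h.b1 n) (h.side j hj)
    (h.dvd j hj) x y
  have h2 := h.tl j hj n hn hn'
  have h3 : P.kap n ^ P.vi * (max 1 (ANP.dT x y : ℝ)) ^ (-P.s5) ≤
      P.kap n ^ (P.vi / 2) * (max 1 (ANP.dT x y : ℝ)) ^ (-P.s5) :=
    mul_le_mul_of_nonneg_right (h.kpow (by linarith [h.vi0]) n) (h.rr0 x y)
  have h4 := h.mx n (ANP.dT x y)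
  have h5 : (0 : ℝ) ≤ 2 * 7 ^ d := by positivity
  have h6 := mul_le_mul_of_nonneg_left h3 h5
  have h7 := mul_le_mul_of_nonneg_left h2
    (Real.exp_pos (-(P.b * P.kap n * (ANP.dT x y : ℝ)))).le
  unfold cF
  linarith

end FH

/-- the fields `F` are within the bounds of the levels `≤ n` -/
structure Fld.Bd (P : Par) (mJ : ℕ) (F0 F : Fld (Tor d L)) (n : ℕ) : Prop where
  err : ∀ x, F.err x ≤ F0.err x + (1 + mJ) * ∑ k ∈ range (n + 1), cF d * P.kap k ^ P.vi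
  et : ∀ x, F.et x ≤ F0.et x + (1 + mJ) * ∑ k ∈ range (n + 1), cF d * P.kap k ^ P.vt
  be : ∀ x, F.be x ≤ F0.be x + (1 + mJ) * ∑ k ∈ range (n + 1),
    P.kap k ^ (-P.vp) * (cF d * P.kap k ^ P.vi)
  ae : ∀ x, F.ae x ≤ F0.ae x + (1 + mJ) * ∑ k ∈ range (n + 1),
    (P.eta + P.kap k)⁻¹ * (cF d * P.kap k ^ P.vi)
  g5 : ∀ x y, F.g5 x y ≤ F0.g5 x y + (1 + mJ) * ∑ k ∈ range (n + 1),
    cF d * (P.kap k ^ (P.vi / 2) * (max 1 (ANP.dT x y : ℝ)) ^ (-P.s5))

theorem cF_pos (d : ℕ) : 0 < cF d := by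
  unfold cF
  positivity

/-- THE BOUNDS of the fields along the algorithm -/
theorem FH.bd {P : Par} {g : ANQ.Geo (Tor d L)} {Jm : ℕ} (h : FH P g Jm) (mJ : ℕ)
    (F0 : Fld (Tor d L)) :
    (∀ j ≤ Jm, Fld.Bd P mJ F0 (FS P g mJ F0 j) (g.lv j)) ∧
    ∀ j < Jm, ∀ i, i ≤ g.ns j → Fld.Bd P mJ F0 (FI P g j (FS P g mJ F0 j) i) (g.sn j i) := by
  have hm : (0 : ℝ) ≤ mJ := Nat.cast_nonneg mJ
  have hc := (cF_pos d).le
  have hk : ∀ n, 0 < P.kap n := h.pos.kap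
  have key : ∀ (u : ℕ → ℝ) (w : ℕ → ℕ → ℝ) (f : ℕ → ℕ → Tor d L → ℝ) (hh : ℕ → ℝ)
      (β : ℕ → ℝ), (∀ n, 0 ≤ β n) → (∀ j, w j 0 = u j) →
      (∀ j i, w j (i + 1) = w j i + f j (g.sn j i) (g.sL j i)) →
      (∀ j, u (j + 1) = w j (g.ns j) + hh j) →
      (∀ j < Jm, hh j ≤ mJ * β (g.lv (j + 1))) → (∀ j n c, 0 ≤ f j n c) →
      (∀ j < Jm, ∀ n, g.lv j ≤ n → n ≤ g.lv (j + 1) → ∑ c ∈ g.corners j, f j n c ≤ β n) →
      (∀ j ≤ Jm, u j ≤ u 0 + (1 + mJ) * ∑ k ∈ range (g.lv j + 1), β k) ∧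
      ∀ j < Jm, ∀ i, i ≤ g.ns j → w j i ≤ u 0 + (1 + mJ) * ∑ k ∈ range (g.sn j i + 1), β k := by
    intro u w f hh β h1 h2 h3 h4 h5 h6 h7
    obtain ⟨e1, e2⟩ := scalar_bd g Jm h.lv h.nc_pos hm u w f hh β h1 h2 h3 h4 h5 h6 h7
    refine ⟨fun j hj => (e1 j hj).trans ?_, e2⟩
    rw [Finset.sum_range_succ]
    have := h1 (g.lv j)
    nlinarith
  have hp : ∀ (e : ℝ) (j n : ℕ) (x c : Tor d L), 0 ≤ ph (P.kap n) e P.b (g.side j) x c :=
    fun e j n x c => ph_nonneg (hk n) _ x c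
  have hin : ∀ n, 0 ≤ (P.eta + P.kap n)⁻¹ := fun n => by
    have := h.pos.eta
    have := hk n
    positivity
  have hpw : ∀ (e : ℝ) n, 0 ≤ P.kap n ^ e := fun e n => Real.rpow_nonneg (hk n).le _
  have kerr := fun x => key (fun j => (FS P g mJ F0 j).err x)
    (fun j i => (FI P g j (FS P g mJ F0 j) i).err x)
    (fun j n c => ph (P.kap n) P.v P.b (g.side j) x c)
    (fun j => mJ * ∑ c ∈ g.corners j, ph (P.kap (g.lv (j + 1))) P.vi P.b (g.side j) x c)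
    (fun n => cF d * P.kap n ^ P.vi) (fun n => mul_nonneg hc (hpw _ _)) (fun _ => rfl)
    (fun j i => by simp [FI, Fld.add]) (fun _ => rfl)
    (fun j hj =>
      mul_le_mul_of_nonneg_left (h.sum_ph le_rfl h.viv hj (h.lv j hj).le le_rfl x) hm)
    (fun j n c => hp _ _ _ _ _)
    (fun j hj n h1 h2 => h.sum_ph h.viv h.viv hj h1 h2 x)
  have ket := fun x => key (fun j => (FS P g mJ F0 j).et x)
    (fun j i => (FI P g j (FS P g mJ F0 j) i).et x)
    (fun j n c => ph (P.kap n) P.vt P.b (g.side j) x c)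
    (fun j => mJ * ∑ c ∈ g.corners j, ph (P.kap (g.lv (j + 1))) P.vt P.b (g.side j) x c)
    (fun n => cF d * P.kap n ^ P.vt) (fun n => mul_nonneg hc (hpw _ _)) (fun _ => rfl)
    (fun j i => by simp [FI, Fld.add]) (fun _ => rfl)
    (fun j hj =>
      mul_le_mul_of_nonneg_left (h.sum_ph le_rfl h.vtv hj (h.lv j hj).le le_rfl x) hm)
    (fun j n c => hp _ _ _ _ _)
    (fun j hj n h1 h2 => h.sum_ph le_rfl h.vtv hj h1 h2 x)
  have kbe := fun x => key (fun j => (FS P g mJ F0 j).be x)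
    (fun j i => (FI P g j (FS P g mJ F0 j) i).be x)
    (fun j n c => P.kap n ^ (-P.vp) * ph (P.kap n) P.v P.b (g.side j) x c)
    (fun j => P.kap (g.lv (j + 1)) ^ (-P.vp) *
      (mJ * ∑ c ∈ g.corners j, ph (P.kap (g.lv (j + 1))) P.vi P.b (g.side j) x c))
    (fun n => P.kap n ^ (-P.vp) * (cF d * P.kap n ^ P.vi))
    (fun n => mul_nonneg (hpw _ _) (mul_nonneg hc (hpw _ _))) (fun _ => rfl)
    (fun j i => by simp [FI, Fld.add]) (fun _ => rfl)
    (fun j hj => by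
      have e1 := h.sum_ph (e := P.vi) (e' := P.vi) le_rfl h.viv hj (h.lv j hj).le le_rfl x
      have e2 := mul_le_mul_of_nonneg_left (mul_le_mul_of_nonneg_left e1 hm)
        (hpw (-P.vp) (g.lv (j + 1)))
      refine e2.trans (le_of_eq ?_)
      ring)
    (fun j n c => mul_nonneg (hpw _ _) (hp _ _ _ _ _))
    (fun j hj n h1 h2 => by
      rw [← Finset.mul_sum]
      exact mul_le_mul_of_nonneg_left (h.sum_ph h.viv h.viv hj h1 h2 x) (hpw _ _))
  have kae := fun x => key (fun j => (FS P g mJ F0 j).ae x)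
    (fun j i => (FI P g j (FS P g mJ F0 j) i).ae x)
    (fun j n c => (P.eta + P.kap n)⁻¹ * ph (P.kap n) P.v P.b (g.side j) x c)
    (fun j => (P.eta + P.kap (g.lv (j + 1)))⁻¹ *
      (mJ * ∑ c ∈ g.corners j, ph (P.kap (g.lv (j + 1))) P.vi P.b (g.side j) x c))
    (fun n => (P.eta + P.kap n)⁻¹ * (cF d * P.kap n ^ P.vi))
    (fun n => mul_nonneg (hin _) (mul_nonneg hc (hpw _ _))) (fun _ => rfl)
    (fun j i => by simp [FI, Fld.add]) (fun _ => rfl)
    (fun j hj => by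
      have e1 := h.sum_ph (e := P.vi) (e' := P.vi) le_rfl h.viv hj (h.lv j hj).le le_rfl x
      have e2 := mul_le_mul_of_nonneg_left (mul_le_mul_of_nonneg_left e1 hm)
        (hin (g.lv (j + 1)))
      refine e2.trans (le_of_eq ?_)
      ring)
    (fun j n c => mul_nonneg (hin _) (hp _ _ _ _ _))
    (fun j hj n h1 h2 => by
      rw [← Finset.mul_sum]
      exact mul_le_mul_of_nonneg_left (h.sum_ph h.viv h.viv hj h1 h2 x) (hin _))
  have kg5 := fun x y => key (fun j => (FS P g mJ F0 j).g5 x y)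
    (fun j i => (FI P g j (FS P g mJ F0 j) i).g5 x y)
    (fun j n c => ph5 (P.kap n) P.v P.b P.Cg (g.side j) x y c)
    (fun j => mJ * ∑ c ∈ g.corners j,
      ph5i (P.kap (g.lv (j + 1))) P.vi P.b P.s5 (g.side j) x y c)
    (fun n => cF d * (P.kap n ^ (P.vi / 2) * (max 1 (ANP.dT x y : ℝ)) ^ (-P.s5)))
    (fun n => mul_nonneg hc (mul_nonneg (hpw _ _) (h.rr0 x y))) (fun _ => rfl)
    (fun j i => by simp [FI, Fld.add]) (fun _ => rfl)
    (fun j hj => mul_le_mul_of_nonneg_left (h.sum_ph5i hj (h.lv j hj).le le_rfl x y) hm)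
    (fun j n c => ph5_nonneg (hk n) _ x y c) (fun j hj n h1 h2 => h.sum_ph5 hj h1 h2 x y)
  exact ⟨fun j hj => ⟨fun x => (kerr x).1 j hj, fun x => (ket x).1 j hj,
      fun x => (kbe x).1 j hj, fun x => (kae x).1 j hj, fun x y => (kg5 x y).1 j hj⟩,
    fun j hj i hi => ⟨fun x => (kerr x).2 j hj i hi, fun x => (ket x).2 j hj i hi,
      fun x => (kbe x).2 j hj i hi, fun x => (kae x).2 j hj i hi,
      fun x y => (kg5 x y).2 j hj i hi⟩⟩

end Pool.Agent.AND
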