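import Pool.Agent.AND.Level
import Pool.Agent.ANM.GeoSum

/-! # AND / FldSum: sums of the increments of the fields over all corners of a grid -/

open Matrix Finset

noncomputable section

namespace Pool.Agent.AND

open Pool.Agent.Kin Pool.Agent.APS Pool.Agent.ANM

variable {d L : ℕ} [NeZero L]

/-- the corners of the cells of side `s` -/
def crn (s : ℕ) : Finset (Tor d L) := Finset.univ.filter fun c => ANP.cor s c = c

theorem mem_crn {s : ℕ} {c : Tor d L} : c ∈ crn s ↔ ANP.cor s c = c := by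
  unfold crn
  simp

/-- number of corners near a site -/
theorem card_near {s : ℕ} (hs : 0 < s) (hL : s ∣ L) (x : Tor d L) :
    (((crn s).filter fun c : Tor d L => ANP.dT x c ≤ 2 * s).card : ℝ) ≤ 7 ^ d := by
  have h1 : (crn s).filter (fun c : Tor d L => ANP.dT x c ≤ 2 * s) ⊆
      (Finset.univ.filter fun y : Tor d L => ANP.dT x y ≤ 2 * s).image (ANP.cor s) := by
    intro c hc
    obtain ⟨h1, h2⟩ := Finset.mem_filter.1 hc
    refine Finset.mem_image.2 ⟨c, ?_, mem_crn.1 h1⟩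
    simpa using h2
  have h2 := (Finset.card_le_card h1).trans (ANP.card_cor hs hL x (2 * s))
  have h3 : 2 * (2 * s / s + 1) + 1 = 7 := by
    rw [Nat.mul_div_cancel _ hs]
  rw [h3] at h2
  exact_mod_cast h2

/-- the tail of the sum over all corners -/
def tl (d : ℕ) (κ b : ℝ) (s : ℕ) : ℝ := Real.exp (-(b * κ * s)) * sumC d 0 (b * κ / 2)

theorem tl_nonneg {κ b : ℝ} (hκ : 0 < κ) (hb : 0 < b) (s : ℕ) : 0 ≤ tl d κ b s := by
  unfold tl sumC
  positivity

theorem sum_far {κ b : ℝ} (hκ : 0 < κ) (hb : 0 < b) (hb1 : b * κ ≤ 1) (s : ℕ) (x : Tor d L)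
    (S : Finset (Tor d L)) (hS : ∀ c ∈ S, 2 * s < ANP.dT x c) :
    ∑ c ∈ S, Real.exp (-(b * κ * ANP.dT x c)) ≤ tl d κ b s := by
  have h1 := sum_exp_tail (ANP.dT (d := d) (L := L)) (fun y => ANP.dT x y) x d 0
    (fun r => ANP.card_ball x r) (fun y => by omega) (μ := b * κ) (by positivity) hb1 (2 * s)
  refine le_trans ?_ (h1.trans (le_of_eq ?_))
  · refine Finset.sum_le_sum_of_subset_of_nonneg ?_ fun _ _ _ => (Real.exp_pos _).le
    intro c hc
    simpa using (hS c hc).le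
  · unfold tl
    congr 2
    push_cast
    ring

theorem sum_ph_le {κ v b : ℝ} (hκ : 0 < κ) (hb : 0 < b) (hb1 : b * κ ≤ 1) {s : ℕ} (hs : 0 < s)
    (hL : s ∣ L) (x : Tor d L) :
    ∑ c ∈ crn s, ph κ v b s x c ≤ 7 ^ d * κ ^ v + tl d κ b s := by
  rw [← Finset.sum_filter_add_sum_filter_not (crn s) (fun c => ANP.dT x c ≤ 2 * s)]
  refine add_le_add ?_ ?_
  · have h1 : ∑ c ∈ (crn s).filter (fun c : Tor d L => ANP.dT x c ≤ 2 * s), ph κ v b s x c =
        ∑ c ∈ (crn s).filter (fun c : Tor d L => ANP.dT x c ≤ 2 * s), κ ^ v :=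
      Finset.sum_congr rfl fun c hc => by
        unfold ph
        rw [if_pos (Finset.mem_filter.1 hc).2]
    rw [h1, Finset.sum_const, nsmul_eq_mul]
    exact mul_le_mul_of_nonneg_right (card_near hs hL x) (by positivity)
  · have h1 : ∑ c ∈ (crn s).filter (fun c : Tor d L => ¬ ANP.dT x c ≤ 2 * s), ph κ v b s x c =
        ∑ c ∈ (crn s).filter (fun c : Tor d L => ¬ ANP.dT x c ≤ 2 * s),
          Real.exp (-(b * κ * ANP.dT x c)) :=
      Finset.sum_congr rfl fun c hc => by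
        unfold ph
        rw [if_neg (Finset.mem_filter.1 hc).2]
    rw [h1]
    exact sum_far hκ hb hb1 s x _ fun c hc => not_le.1 (Finset.mem_filter.1 hc).2

/-- pairs: abstract version -/
theorem sum_pair_le {κ b A : ℝ} (hκ : 0 < κ) (hb : 0 < b) (hb1 : b * κ ≤ 1) (hA : 0 ≤ A) {s : ℕ}
    (hs : 0 < s) (hL : s ∣ L) (x y : Tor d L) (F : Tor d L → ℝ)
    (h1 : ∀ c, (ANP.dT x c ≤ 2 * s ∨ ANP.dT y c ≤ 2 * s) → F c ≤ A)
    (h2 : ∀ c, ¬ (ANP.dT x c ≤ 2 * s ∨ ANP.dT y c ≤ 2 * s) →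
      F c = Real.exp (-(b * κ * (ANP.dT x c + ANP.dT y c + ANP.dT x y)))) :
    ∑ c ∈ crn s, F c ≤ 2 * 7 ^ d * A + Real.exp (-(b * κ * ANP.dT x y)) * tl d κ b s := by
  rw [← Finset.sum_filter_add_sum_filter_not (crn s)
    (fun c => ANP.dT x c ≤ 2 * s ∨ ANP.dT y c ≤ 2 * s)]
  refine add_le_add ?_ ?_
  · have e1 : ∑ c ∈ (crn s).filter (fun c : Tor d L => ANP.dT x c ≤ 2 * s ∨ ANP.dT y c ≤ 2 * s),
        F c ≤ ∑ c ∈ (crn s).filter
          (fun c : Tor d L => ANP.dT x c ≤ 2 * s ∨ ANP.dT y c ≤ 2 * s), A :=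
      Finset.sum_le_sum fun c hc => h1 c (Finset.mem_filter.1 hc).2
    refine e1.trans ?_
    rw [Finset.sum_const, nsmul_eq_mul]
    refine mul_le_mul_of_nonneg_right ?_ hA
    have e2 : (crn s).filter (fun c : Tor d L => ANP.dT x c ≤ 2 * s ∨ ANP.dT y c ≤ 2 * s) ⊆
        (crn s).filter (fun c : Tor d L => ANP.dT x c ≤ 2 * s) ∪
        (crn s).filter (fun c : Tor d L => ANP.dT y c ≤ 2 * s) := by
      intro c hc
      obtain ⟨h3, h4⟩ := Finset.mem_filter.1 hc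
      rw [Finset.mem_union, Finset.mem_filter, Finset.mem_filter]
      rcases h4 with h4 | h4
      · exact Or.inl ⟨h3, h4⟩
      · exact Or.inr ⟨h3, h4⟩
    have e3 := (Finset.card_le_card e2).trans (Finset.card_union_le _ _)
    have e4 := card_near hs hL x
    have e5 := card_near hs hL y
    have e6 : (((crn s).filter (fun c : Tor d L => ANP.dT x c ≤ 2 * s ∨
        ANP.dT y c ≤ 2 * s)).card : ℝ) ≤
        (((crn s).filter fun c : Tor d L => ANP.dT x c ≤ 2 * s).card : ℝ) +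
        (((crn s).filter fun c : Tor d L => ANP.dT y c ≤ 2 * s).card : ℝ) := by
      exact_mod_cast e3
    linarith
  · have e1 : ∑ c ∈ (crn s).filter
        (fun c : Tor d L => ¬ (ANP.dT x c ≤ 2 * s ∨ ANP.dT y c ≤ 2 * s)), F c ≤
        ∑ c ∈ (crn s).filter
          (fun c : Tor d L => ¬ (ANP.dT x c ≤ 2 * s ∨ ANP.dT y c ≤ 2 * s)),
          Real.exp (-(b * κ * ANP.dT x y)) * Real.exp (-(b * κ * ANP.dT x c)) := by
      refine Finset.sum_le_sum fun c hc => ?_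
      rw [h2 c (Finset.mem_filter.1 hc).2, ← Real.exp_add]
      refine Real.exp_le_exp.2 ?_
      have h3 : 0 ≤ b * κ * (ANP.dT y c : ℝ) := by positivity
      nlinarith
    refine e1.trans ?_
    rw [← Finset.mul_sum]
    refine mul_le_mul_of_nonneg_left ?_ (Real.exp_pos _).le
    refine sum_far hκ hb hb1 s x _ fun c hc => ?_
    have := (Finset.mem_filter.1 hc).2
    exact not_le.1 fun h => this (Or.inl h)

theorem sum_ph5_le {κ v b Cg : ℝ} (hκ : 0 < κ) (hb : 0 < b) (hb1 : b * κ ≤ 1) {s : ℕ}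
    (hs : 0 < s) (hL : s ∣ L) (x y : Tor d L) :
    ∑ c ∈ crn s, ph5 κ v b Cg s x y c ≤
      2 * 7 ^ d * min (κ ^ v) (pf κ b Cg * Real.exp (-(b * κ * ANP.dT x y))) +
      Real.exp (-(b * κ * ANP.dT x y)) * tl d κ b s := by
  refine sum_pair_le hκ hb hb1 (le_min (by positivity) (by positivity)) hs hL x y _ ?_ ?_
  · intro c hc
    unfold ph5
    rw [if_pos hc]
  · intro c hc
    unfold ph5
    rw [if_neg hc]

theorem sum_ph5i_le {κ v b s5 : ℝ} (hκ : 0 < κ) (hb : 0 < b) (hb1 : b * κ ≤ 1) {s : ℕ}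
    (hs : 0 < s) (hL : s ∣ L) (x y : Tor d L) :
    ∑ c ∈ crn s, ph5i κ v b s5 s x y c ≤
      2 * 7 ^ d * (κ ^ v * (max 1 (ANP.dT x y : ℝ)) ^ (-s5)) +
      Real.exp (-(b * κ * ANP.dT x y)) * tl d κ b s := by
  have h0 : (0 : ℝ) ≤ max 1 (ANP.dT x y : ℝ) := le_max_of_le_left zero_le_one
  refine sum_pair_le hκ hb hb1 (by positivity) hs hL x y _ ?_ ?_
  · intro c hc
    unfold ph5i
    rw [if_pos hc]
  · intro c hc
    unfold ph5i
    rw [if_neg hc]

end Pool.Agent.AND
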