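import Pool.Agent.ANC.Len

/-! # AND / Pick: choice of `η_*` and of the torus for `m + 1` super-stages

`es = ks (m + 1) ^ th`, torus of side `N = side (m + 1)`. -/

set_option autoImplicit false

open Finset Filter Topology

namespace Pool.Agent.AND

open Pool.Agent.ANC

/-- the numbers of the torus: `es = η_*`, `N` = side -/
structure PickC (k0 : ℝ) (al : ℕ) (th : ℝ) (Cc m : ℕ) (es : ℝ) (N : ℕ) : Prop where
  es0 : 0 < es
  es2 : es ≤ k0 ^ 2
  esk : es ≤ k0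
  N6 : k0 ^ (-6 : ℝ) ≤ N
  Ne : 1 / es ≤ N
  Nside : side k0 al (m + 1) ≤ N
  dvd : ∀ j ≤ m + 1, side k0 al j ∣ N
  big : ∀ j ≤ m, Cc * side k0 al j + Cc ≤ N
  ekap : ∀ n ≤ lv k0 al (m + 1), es ≤ kap k0 n ^ th
  elo : ks k0 al (m + 1) ^ th ≤ es

theorem ev_pick {al : ℕ} (hal : 2 ≤ al) {th : ℝ} (hth : 0 < th) (hth2 : th ≤ 2) (Cc : ℕ) :
    ∀ᶠ k0 in 𝓝[>] (0 : ℝ), ∀ᶠ m in atTop,
      PickC k0 al th Cc m (ks k0 al (m + 1) ^ th) (side k0 al (m + 1)) := by
  filter_upwards [len_ok Cc 1 Cc hal (v2 := 0) le_rfl zero_le_one,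
    ev_small (show (0 : ℝ) < 1 / 2 by norm_num)] with k0 hlen hk
  have hk0 := hk.1
  have hk1 : k0 < 1 := by linarith [hk.2]
  have hks : Tendsto (fun n => ks k0 al n) atTop (𝓝[>] 0) := by
    rw [tendsto_nhdsWithin_iff]
    refine ⟨?_, Eventually.of_forall fun n => ks_pos hk0 al n⟩
    have h2 : Tendsto (fun n : ℕ => k0 ^ (n + 1)) atTop (𝓝 0) :=
      (tendsto_pow_atTop_nhds_zero_of_lt_one hk0.le hk1).comp (tendsto_add_atTop_nat 1)
    exact squeeze_zero (fun n => (ks_pos hk0 al n).le) (fun n => ks_le_pow hk0 hk1 hal n) h2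
  have hks1 : Tendsto (fun m => ks k0 al (m + 1)) atTop (𝓝[>] 0) :=
    hks.comp (tendsto_add_atTop_nat 1)
  have hes : Tendsto (fun m => ks k0 al (m + 1) ^ th) atTop (𝓝 0) := by
    have h3 := (hks1.mono_right nhdsWithin_le_nhds).rpow_const (p := th) (Or.inr hth.le)
    rwa [Real.zero_rpow hth.ne'] at h3
  have c1 : ∀ᶠ m in atTop, ks k0 al (m + 1) ^ th < k0 ^ 2 :=
    hes.eventually (gt_mem_nhds (by positivity))
  have c2 : ∀ᶠ m in atTop, ks k0 al (m + 1) < k0 ^ 3 :=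
    (hks1.mono_right nhdsWithin_le_nhds).eventually (gt_mem_nhds (by positivity))
  filter_upwards [c1, c2] with m c1 c2
  have hy := ks_pos hk0 al (m + 1)
  have hy1 : ks k0 al (m + 1) ≤ 1 := (ks_le hk0 al _).trans hk1.le
  have hy2 := ks_pos hk0 al (m + 2)
  have hle : ks k0 al (m + 2) ≤ ks k0 al (m + 1) := ks_anti hk0 hk1 hal (Nat.le_succ _)
  have hs := (side_rpow hk0 hk1 al (m + 1)).1
  have h21 : ks k0 al (m + 1) ^ (-2 : ℝ) ≤ ks k0 al (m + 2) ^ (-2 : ℝ) :=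
    Real.rpow_le_rpow_of_nonpos hy2 hle (by norm_num)
  have hs' : ks k0 al (m + 1) ^ (-2 : ℝ) ≤ side k0 al (m + 1) := h21.trans hs
  refine
    { es0 := Real.rpow_pos_of_pos hy _
      es2 := c1.le
      esk := c1.le.trans ?_
      N6 := ?_
      Ne := ?_
      Nside := le_rfl
      dvd := fun j hj => side_dvd hk0 hk1 hal hj
      big := fun j hj => ?_
      ekap := fun n hn => Real.rpow_le_rpow hy.le (kap_anti hk0 hn) hth.le
      elo := le_rfl }
  · nlinarith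
  · refine le_trans ?_ hs'
    have h3 : (k0 ^ 3) ^ (-2 : ℝ) ≤ ks k0 al (m + 1) ^ (-2 : ℝ) :=
      Real.rpow_le_rpow_of_nonpos hy c2.le (by norm_num)
    have h4 : (k0 ^ 3 : ℝ) ^ (-2 : ℝ) = k0 ^ (-6 : ℝ) := by
      rw [← Real.rpow_natCast, ← Real.rpow_mul hk0.le]
      norm_num
    rwa [h4] at h3
  · refine le_trans ?_ hs'
    rw [one_div, ← Real.rpow_neg hy.le]
    exact Real.rpow_le_rpow_of_exponent_ge hy hy1 (by linarith)
  · have h1 := (hlen m).2.2.2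
    have h2 : side k0 al j ≤ side k0 al m :=
      Nat.le_of_dvd (side_pos _ _ _) (side_dvd hk0 hk1 hal hj)
    have h3 : 1 ≤ 2 ^ (m + 2) := Nat.one_le_two_pow
    refine le_trans ?_ h1
    calc Cc * side k0 al j + Cc ≤ Cc * side k0 al m + Cc :=
          Nat.add_le_add_right (Nat.mul_le_mul_left _ h2) _
      _ ≤ 1 * (Cc * 1 + 1) * (2 * hR k0 al 0 (m + 1) + 2 * side k0 al m + 2) := by
          nlinarith [Nat.zero_le (hR k0 al 0 (m + 1)), Nat.zero_le (side k0 al m),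
            Nat.zero_le (Cc * hR k0 al 0 (m + 1)), Nat.zero_le (Cc * side k0 al m)]
      _ ≤ _ := Nat.mul_le_mul_right _ (Nat.mul_le_mul_right _ h3)

end Pool.Agent.AND
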