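import Pool.Agent.AND.Stage
import Pool.Agent.ANC.ParV
import Pool.Agent.ANT.StartM
import Pool.Agent.ANT.MSup

/-! # AND / StartAt: the field `start` of `Dat.NumS`: the initial medium is good

* `start_ex`  : for all small `k0` THE HOMOGENEOUS MEDIUM OF LEVEL `0` EXISTS: `g0`, `ζ = (E - h0) + i η_* + s g0` with all the
  properties of `ANT.Start`, `cg k0 ≤ Im ζ ≤ (1 + C1) k0` with `cg = cl c1 / 4`, all entries `≤ LmS C' cg k0 = C' (1 + log (1/(cg k0)))`.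
* `ev_LmS`    : `LmS + B ≤ k0 ^ (-q)`.
* `StartC`       : the conditions on the constants `D0c, C0c, e0c`.
* `start_at`  : `GoodAt` at the start, for every configuration (`D.F0 = F0v d L k0 Lm C ζ.im`, any `Lm ≥ LmS`).
-/

open Matrix Finset Filter Topology

noncomputable section

namespace Pool.Agent.AND

open Pool.Agent.Kin Pool.Agent.APS Pool.Agent.ANC

/-- bound of all the entries at the start -/
def LmS (C' cg k0 : ℝ) : ℝ := C' * (1 + Real.log (1 / (cg * k0)))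

theorem LmS_eq (C' : ℝ) {cg k0 : ℝ} (hcg : 0 < cg) (hk : 0 < k0) :
    LmS C' cg k0 = C' * (1 + Real.log (1 / cg)) + C' * Real.log (1 / k0) := by
  unfold LmS
  have h1 : 1 / (cg * k0) = (1 / cg) * (1 / k0) := by field_simp
  rw [h1, Real.log_mul (by positivity) (by positivity)]
  ring

theorem LmS_nonneg {C' cg k0 : ℝ} (hC : 0 ≤ C') (hcg : 0 < cg) (hk : 0 < k0)
    (h : cg * k0 ≤ 1) : 0 ≤ LmS C' cg k0 := by
  unfold LmS
  have h1 : 0 ≤ Real.log (1 / (cg * k0)) :=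
    Real.log_nonneg (by rw [le_div_iff₀ (by positivity)]; linarith)
  positivity

/-- `LmS` is smaller than every negative power of `k0` -/
theorem ev_LmS (C' : ℝ) {cg q : ℝ} (hcg : 0 < cg) (hq : 0 < q) (B : ℝ) :
    ∀ᶠ k0 in 𝓝[>] (0 : ℝ), LmS C' cg k0 + B ≤ k0 ^ (-q) := by
  have hq' : -q < 0 := by linarith
  filter_upwards [ev_pow (2 * C') hq' 1, ev_pow' (2 * (C' * (1 + Real.log (1 / cg)) + B)) hq',
    ev_small one_pos] with k0 h1 h2 hk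
  rw [pow_one, Real.rpow_zero, mul_one] at h1
  rw [Real.rpow_zero, mul_one] at h2
  rw [LmS_eq C' hcg hk.1]
  linarith

/-- THE HOMOGENEOUS MEDIUM OF LEVEL `0` with all its numbers (`h0`, `s` = potential and variance of the level `0`, `es = η_*`) -/
structure StartL (d L : ℕ) [NeZero L] (E es k0 h0 s e c1 C1 C C' cl : ℝ) (g0 ζ : ℂ) : Prop where
  st : ANT.Start d L (E - h0) es s g0 e c1 C1 C ζ
  glo : cl * c1 / 4 * k0 ≤ ζ.im
  ghi : ζ.im ≤ (1 + C1) * k0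
  ent : ∀ x : Tor d L, ‖Mx ζ x‖ ≤ LmS C' (cl * c1 / 4) k0

/-- EXISTENCE -/
theorem start_ex {d : ℕ} (hd : 3 ≤ d) {δ e : ℝ} (hδ : 0 < δ) (he : 0 < e) (he1 : e < 1) :
    ∃ c1 C1 C C' : ℝ, 0 < c1 ∧ 1 ≤ C1 ∧ 1 ≤ C ∧ 0 < C' ∧ ∀ cl : ℝ, 0 < cl →
      ∀ᶠ k0 in 𝓝[>] (0 : ℝ), ∀ (L : ℕ) [NeZero L] (E es h0 s : ℝ), δ ≤ E → E ≤ 4 * d - δ →
        0 < es → es ≤ k0 ^ 2 → k0 ^ (-6 : ℝ) ≤ L → 1 / es ≤ L → |h0| ≤ √k0 →
        cl * (k0 / 4) ≤ s → s ≤ k0 →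
        ∃ g0 ζ : ℂ, StartL d L E es k0 h0 s e c1 C1 C C' cl g0 ζ := by
  obtain ⟨c1, C1, C, hc1, hC1, hC, H⟩ := ANT.start d hd (δ / 2) e (by positivity) he he1
  obtain ⟨C', hC', HM⟩ := ANT.M_sup d hd
  obtain ⟨s0, hs0, hs01, H0⟩ := H 1 one_pos
  refine ⟨c1, C1, C, C', hc1, hC1, hC, hC', fun cl hcl => ?_⟩
  filter_upwards [ev_small hs0, ev_small (show 0 < (δ / 2) ^ 2 by positivity),
    ev_small (show 0 < c1 * cl / 4 by positivity),
    ev_pow' ((cl / 4) ^ (-5 : ℝ)) (show (-6 : ℝ) < -5 by norm_num)]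
    with k0 k1 k2 k3 k4 L _ E es h0 s hE hE' hes hes2 hL hLe hh hs1 hs2
  have hk0 : 0 < k0 := k1.1
  have hk1 : k0 ≤ 1 := k1.2.trans hs01
  have hs : 0 < s := lt_of_lt_of_le (by positivity) hs1
  have hsq : √k0 ≤ δ / 2 := by
    rw [show δ / 2 = √((δ / 2) ^ 2) from (Real.sqrt_sq (by positivity)).symm]
    exact Real.sqrt_le_sqrt k2.2
  have hh1 := abs_le.1 (hh.trans hsq)
  have hes3 : es ≤ c1 * s := by
    refine hes2.trans ?_
    have h1 : k0 ^ 2 ≤ c1 * cl / 4 * k0 := by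
      rw [sq]
      exact mul_le_mul_of_nonneg_right k3.2 hk0.le
    have h2 : c1 * cl / 4 * k0 = c1 * (cl * (k0 / 4)) := by ring
    rw [h2] at h1
    exact h1.trans (mul_le_mul_of_nonneg_left hs1 hc1.le)
  have hsL : s ^ (-5 : ℝ) ≤ L := by
    have h1 : s ^ (-5 : ℝ) ≤ (cl / 4 * k0) ^ (-5 : ℝ) := by
      refine Real.rpow_le_rpow_of_nonpos (by positivity) ?_ (by norm_num)
      calc cl / 4 * k0 = cl * (k0 / 4) := by ring
        _ ≤ s := hs1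
    rw [Real.mul_rpow (by positivity) hk0.le] at h1
    exact (h1.trans k4).trans hL
  obtain ⟨g0, ζ, hS, -, h64⟩ := H0 L (E - h0) es s hs (hs2.trans k1.2) (by linarith [hh1.2])
    (by linarith [hh1.1]) hes hes3 hsL hLe
  have hglo : cl * c1 / 4 * k0 ≤ ζ.im := by
    rw [hS.gam]
    have h1 : cl * (k0 / 4) * c1 ≤ s * g0.im :=
      mul_le_mul hs1 hS.lo hc1.le hs.le
    have h2 : cl * c1 / 4 * k0 = cl * (k0 / 4) * c1 := by ring
    rw [h2]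
    linarith
  have hcg : 0 < cl * c1 / 4 * k0 := by positivity
  refine ⟨g0, ζ, hS, hglo, ?_, fun x => ?_⟩
  · rw [hS.gam]
    have h1 : g0.im ≤ C1 := ((le_abs_self _).trans (Complex.abs_im_le_norm g0)).trans hS.hi
    have h2 : s * g0.im ≤ k0 * C1 :=
      mul_le_mul hs2 h1 (hc1.le.trans hS.lo) hk0.le
    have h3 : es ≤ k0 := by
      refine hes2.trans ?_
      rw [sq]
      exact mul_le_of_le_one_left hk0.le hk1
    linarith
  · have h8 : 8 / ζ.im ^ 3 ≤ L := by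
      refine le_trans ?_ h64
      have : 0 < ζ.im ^ 3 := pow_pos hS.gam0 3
      exact div_le_div_of_nonneg_right (by norm_num) this.le
    refine (HM L ζ hS.gam0 hS.gam1 h8 x).trans ?_
    unfold LmS
    refine mul_le_mul_of_nonneg_left ?_ hC'.le
    have h9 : Real.log (1 / ζ.im) ≤ Real.log (1 / (cl * c1 / 4 * k0)) :=
      Real.log_le_log (by have := hS.gam0; positivity)
        (one_div_le_one_div_of_le hcg hglo)
    linarith

/-- the conditions on the constants for the start -/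
structure StartC {d : ℕ} {CM : ℝ} (x : Ex d CM) (c : Cst) (c1 C1 C : ℝ) : Prop where
  c1p : 0 < c1
  C1p : 0 ≤ C1
  Cp : 1 ≤ C
  D0 : c.D0c * (C * (1 + C1) ^ (1 - 2 * x.e)) ≤ 1
  C0 : C ≤ c.C0c * (c.cl * c1 / 4)
  e0 : (1 + C1) ^ (x.e / 4) ≤ c.e0c * (c.cl * c1 / 4 * c1)

section at0

variable {d L : ℕ} [NeZero L] {X : Type}

/-- the initial profile -/
theorem start_pi (D : Dat d L X) (h0 : D.g.lv 0 = 0) (hw : ∀ a, ¬ D.wk 0 a)
    (v : Tor d L → X) : (D.g.start D.ana v).pi = pi0 d L fun _ => 0 := by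
  have h1 : ANQ.weak D.ana (D.g.lv 0) v univ = ∅ := by
    unfold ANQ.weak
    ext x
    simp only [Finset.mem_filter, Finset.notMem_empty, iff_false]
    rintro ⟨-, hx⟩
    rw [h0] at hx
    exact hw _ hx
  show ({ lev := fun _ => D.g.lv 0, act := univ \ ANQ.weak D.ana (D.g.lv 0) v univ, rd := ∅,
          ine := ANQ.weak D.ana (D.g.lv 0) v univ, sg := fun _ => 0 } : Prof (Tor d L)) = _
  rw [h1, h0, Finset.sdiff_empty]
  rfl

/-- `GoodAt` AT THE START from the numbers `StartNum` -/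
theorem start_good (D : Dat d L X) {E es k0 h0 s e c1 C1 C C' cl Lm : ℝ} {g0 ζ : ℂ}
    (hc1 : 0 < c1) (hC : 1 ≤ C) (hS : StartL d L E es k0 h0 s e c1 C1 C C' cl g0 ζ)
    (hLm : LmS C' (cl * c1 / 4) k0 ≤ Lm) (hN : StartNum D.P D.Sf D.F0 ζ.im g0.im s e C)
    (hF5 : D.F0.g5 = g50 d L Lm C ζ.im) (hf : D.f.g0 = g0) (hP : D.P.eta = es)
    (hE : D.Y.E = E) (hes : D.Y.eta = es) (hh : ∀ a, D.Y.hh 0 a = h0)
    (hk : ∀ a, D.Y.kk 0 a = s) (hlv : D.g.lv 0 = 0) (hw : ∀ a, ¬ D.wk 0 a)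
    (v : Tor d L → X) : D.GoodAt (D.g.lv 0) D.F0 (D.g.start D.ana v).pi v := by
  rw [start_pi D hlv hw v, hlv]
  refine ⟨M0 d L s ζ, isMed_start hS.st hc1 _ v (by rw [hE]) hes.symm (fun x => hh _)
    (fun x => hk _), ?_⟩
  refine start_tol hS.st hc1 hC hf hP _ v hN fun y z => ?_
  rw [hF5]
  exact start_g5 hS.st hC (fun w => (hS.ent w).trans hLm) y z

end at0

/-- THE INITIAL MEDIUM IS GOOD, for every configuration: the field `start` of `Dat.NumS` -/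
theorem start_at {d : ℕ} {CM : ℝ} (x : Ex d CM) {c : Cst} (hc : c.Pos) {c1 C1 C : ℝ}
    (hS : StartC x c c1 C1 C) (C' Cph : ℝ) {cph : ℝ} (hcph : 0 < cph) :
    ∀ᶠ k0 in 𝓝[>] (0 : ℝ), ∀ (L : ℕ) [NeZero L] (X : Type) (D : Dat d L X)
      (E es h0 s Lm : ℝ) (g0 ζ : ℂ), 0 ≤ es →
      StartL d L E es k0 h0 s x.e c1 C1 C C' c.cl g0 ζ → LmS C' (c.cl * c1 / 4) k0 ≤ Lm →
      c.cl * (k0 / 4) ≤ s → s ≤ k0 →
      D.P = parV x c k0 es → D.F0 = F0v d L k0 Lm C ζ.im → D.f.g0 = g0 →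
      D.Y.E = E → D.Y.eta = es → (∀ a, D.Y.hh 0 a = h0) → (∀ a, D.Y.kk 0 a = s) →
      (∀ K ∈ D.Sf.Ks 0, 0 ≤ D.Sf.s K ∧ (∃ φ0 : ℝ, 0 ≤ φ0 ∧ φ0 ≤ Cph * D.Sf.s K ∧
        (∀ a, D.Sf.phi K 0 a = φ0)) ∧ ∀ a, cph ≤ D.Sf.om 0 a) →
      D.g.lv 0 = 0 → (∀ a, ¬ D.wk 0 a) →
      ∀ v, D.GoodAt (D.g.lv 0) D.F0 (D.g.start D.ana v).pi v := by
  have hc1 := hS.c1p
  have hcl := hc.cl
  have hC1 := hS.C1p
  filter_upwards [startNum x hc (C := C) (cg := c.cl * c1 / 4) (Cg' := 1 + C1) (rho := c1)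
    (Cph := Cph) (cph := cph) (by linarith [hS.Cp]) (by positivity) hc1 hcph hS.D0
    (by linarith) hS.C0 hS.e0]
    with k0 h1 L _ X D E es h0 s Lm g0 ζ hes hL hLm hs1 hs2 hP hF hf hE heta hh hk hSf hlv hw v
  refine start_good D hc1 hS.Cp hL hLm ?_ (by rw [hF]; rfl) hf (by rw [hP]; rfl) hE heta hh hk
    hlv hw v
  rw [hP, hF]
  exact h1 L X D.Sf ζ.im g0.im s es Lm C hes hL.glo hL.ghi hL.st.lo hs1 hs2 hSf

end Pool.Agent.AND
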