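import Pool.Agent.AND.Setup
import Pool.Agent.AND.Pick
import Pool.Agent.AND.StartAt
import Pool.Agent.ANI.Units

/-! # AND / Goals: THE INTERFACE BETWEEN THE ANALYSIS ([STEP], [LEAK]) AND THE FINAL THEOREM

`Ctx` = all hypotheses which are available for the concrete data `datV` on one torus.
`StepGoal`, `LeakGoal` = the two final theorems of the analysis.  `LP` = the property of the law and of its site functions.
-/

set_option autoImplicit false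

open Matrix Finset Filter Topology

noncomputable section

namespace Pool.Agent.AND

open Pool.Agent.Kin Pool.Agent.APS Pool.Agent.ANM Pool.Agent.ANC Pool.Agent.ANB Pool.Agent.ANQ

/-- a property of a law and its site functions at the coupling `lam`, up to the level `n1` -/
abbrev LawP := ∀ (X : Type) [Fintype X], Law X → SiteF X → ℝ → ℕ → Prop

/-- constants: `c1 C1 C C'` of the start, `w` = exponent of the scales of the percolation, `th` = constant of (H3),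
`Cc` = constant of the size of the torus -/
structure Csts where
  c1 : ℝ
  C1 : ℝ
  C : ℝ
  C' : ℝ
  w : ℝ
  th : ℝ
  Cc : ℕ

/-- signs of the constants -/
structure Csts.Ok (q : Csts) (c : Cst) : Prop where
  pos : c.Pos
  c1 : 0 < q.c1
  C1 : 1 ≤ q.C1
  C : 1 ≤ q.C
  C' : 0 < q.C'
  w : 0 < q.w
  w1 : q.w ≤ 1
  th : 0 < q.th
  th1 : q.th ≤ 1 / 4
  cs : c.cs ≤ c.cl * (3 / 4 * q.c1)

/-- lower bound of `gam / k0` -/
def Csts.cg (q : Csts) (c : Cst) : ℝ := c.cl * q.c1 / 4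

variable {d : ℕ} {CM : ℝ}

/-- the data -/
def datC (x : Ex d CM) (c : Cst) (q : Csts) (N : ℕ) [NeZero N] {X : Type} [Fintype X] (Lw : Law X)
    (Sf : SiteF X) (lam E k0 es : ℝ) (g0 : ℂ) (gam Lm : ℝ) : Dat d N X :=
  datV x c q.c1 q.C1 q.C N Lw Sf lam E k0 es g0 gam Lm (rj k0 x.al q.w)

/-- ALL HYPOTHESES on one torus, `M + 1` super-stages -/
structure Ctx (LP : LawP) (x : Ex d CM) (c : Cst) (q : Csts) (k0 : ℝ) (N : ℕ) [NeZero N]
    {X : Type} [Fintype X] (Lw : Law X) (Sf : SiteF X) (lam E es : ℝ) (g0 : ℂ) (gam Lm : ℝ)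
    (M : ℕ) : Prop where
  hlam : 0 < lam
  hk0 : 0 < k0
  ok : q.Ok c
  law : LP X Lw Sf lam (lv k0 x.al (M + 1))
  dat : DatH x c q.c1 q.C1 q.C (q.cg c) N Lw Sf lam E k0 es g0 gam Lm (rj k0 x.al q.w) (M + 1)
  inh : InH (datC x c q N Lw Sf lam E k0 es g0 gam Lm) (M + 1) (lv k0 x.al (M + 1)) k0
    (k0 ^ (1 / 4 : ℝ)) Lm q.th (q.th / 2) (q.th / 4) (fun n => kap k0 n ^ (3 * x.vt))
  pick : PickC k0 x.al x.th q.Cc M es N
  avoid : ANI.Avoid (H0T d N) (fun a => lam * Lw.V a) E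
  ghi : gam ≤ (1 + q.C1) * k0
  hLm : Lm = LmS q.C' (q.cg c) k0

/-- [STEP]: the probability of a rejected step -/
def StepGoal (LP : LawP) (x : Ex d CM) (c : Cst) (q : Csts) (Cp Kp : ℝ) : Prop :=
  ∀ᶠ k0 in 𝓝[>] (0 : ℝ), ∀ (N : ℕ) [NeZero N] (X : Type) [Fintype X] [DecidableEq X] (Lw : Law X)
    (Sf : SiteF X) (lam E es : ℝ) (g0 : ℂ) (gam Lm : ℝ) (M : ℕ),
    Ctx LP x c q k0 N Lw Sf lam E es g0 gam Lm M →
    ∀ j ≤ M, ∀ i < (datC x c q N Lw Sf lam E k0 es g0 gam Lm).g.ns j, ∀ v,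
      ANB.Inv (datC x c q N Lw Sf lam E k0 es g0 gam Lm).g (fun _ => Kew Lw)
        (rj k0 x.al q.w j) ((datC x c q N Lw Sf lam E k0 es g0 gam Lm).g.crun
          (datC x c q N Lw Sf lam E k0 es g0 gam Lm).ana j i v).pi v →
      ANP.Pr (fun _ : Tor d N => Lw.p) ((datC x c q N Lw Sf lam E k0 es g0 gam Lm).E1 j i ∩
        Cls (datC x c q N Lw Sf lam E k0 es g0 gam Lm).ana.q
          ((datC x c q N Lw Sf lam E k0 es g0 gam Lm).g.crun
            (datC x c q N Lw Sf lam E k0 es g0 gam Lm).ana j i v).pi v) ≤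
        Cp * kap k0 ((datC x c q N Lw Sf lam E k0 es g0 gam Lm).g.sn j i) ^ Kp *
          ANP.Pr (fun _ : Tor d N => Lw.p)
            (Cls (datC x c q N Lw Sf lam E k0 es g0 gam Lm).ana.q
              ((datC x c q N Lw Sf lam E k0 es g0 gam Lm).g.crun
                (datC x c q N Lw Sf lam E k0 es g0 gam Lm).ana j i v).pi v)

/-- [LEAK] with [INS]: the joint bound of the leak tests -/
def LeakGoal (LP : LawP) (x : Ex d CM) (c : Cst) (q : Csts) (K1 : ℝ) : Prop :=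
  ∀ᶠ k0 in 𝓝[>] (0 : ℝ), ∀ (N : ℕ) [NeZero N] (X : Type) [Fintype X] [DecidableEq X] (Lw : Law X)
    (Sf : SiteF X) (lam E es : ℝ) (g0 : ℂ) (gam Lm : ℝ) (M : ℕ),
    Ctx LP x c q k0 N Lw Sf lam E es g0 gam Lm M →
    ∀ j ≤ M, 0 < j → ∃ l : ℝ, 0 ≤ l ∧ (side k0 x.al j : ℝ) ^ d * l ≤ an k0 x.al K1 j ^ 5 ∧
      LeakHyp (fun _ : Tor d N => Lw.p) (datC x c q N Lw Sf lam E k0 es g0 gam Lm).g
        (datC x c q N Lw Sf lam E k0 es g0 gam Lm).ana j (side k0 x.al j)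
        (20 * side k0 x.al j) l

/-- `Parts` FROM THE TWO GOALS -/
theorem parts_goal {LP : LawP} {x : Ex d CM} {c : Cst} {q : Csts} {Cp Kp K1 : ℝ}
    (hq : q.Ok c) (hK1 : 0 ≤ K1) (hS : StepGoal LP x c q Cp Kp) (hL : LeakGoal LP x c q K1) :
    ∀ᶠ k0 in 𝓝[>] (0 : ℝ), ∀ (N : ℕ) [NeZero N] (X : Type) [Fintype X] [DecidableEq X]
      (Lw : Law X) (Sf : SiteF X) (lam E es : ℝ) (g0 : ℂ) (gam Lm : ℝ) (M : ℕ),
      Ctx LP x c q k0 N Lw Sf lam E es g0 gam Lm M → 16 * ((3 : ℝ) ^ d) ^ 4 * Lw.th 0 ≤ 1 →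
      ∃ ll : ℕ → ℝ, Parts (datC x c q N Lw Sf lam E k0 es g0 gam Lm) Lw lam E es (2 * q.C1)
        (q.c1 / 2) k0 x.al x.J M x.v2 K1 Cp Kp (Kew Lw) (rj k0 x.al q.w) (Lw.th 0) ll
        (fun j => an k0 x.al K1 j ^ 5) := by
  classical
  filter_upwards [hS, hL, ev_parts x hK1 hq.w hq.w1] with k0 h1 h2 h3 N _ X _ _ Lw Sf lam E es g0
    gam Lm M H hth
  have h2' := h2 N X Lw Sf lam E es g0 gam Lm M H
  choose l hl0 hl1 hl2 using h2'
  refine ⟨fun j => if h : j ≤ M ∧ 0 < j then l j h.1 h.2 else 0, ?_⟩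
  refine h3 c q.c1 q.C1 q.C (q.cg c) N X Lw Sf lam E es g0 gam Lm q.th (q.th / 2) (q.th / 4)
    (k0 ^ (1 / 4 : ℝ)) M _ _ Cp Kp _ H.dat H.inh hth
    (h1 N X Lw Sf lam E es g0 gam Lm M H) ?_ ?_ ?_
  · intro j hj hj0
    rw [dif_pos ⟨hj, hj0⟩]
    exact hl2 j hj hj0
  · intro j
    split_ifs with h
    · exact hl0 j h.1 h.2
    · exact le_rfl
  · intro j hj
    split_ifs with h
    · exact hl1 j h.1 h.2
    · rw [mul_zero]
      exact pow_nonneg (an_pos H.hk0 x.al K1 j).le _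

end Pool.Agent.AND
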