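import Pool.Agent.ANQ.Markov

/-! # AND / PInv: status invariants of the profiles of the algorithm

`PInv`: active, read and inert sites are disjoint; inert sites are weak at their level; read sites have level `nf`.
-/

set_option autoImplicit false
set_option linter.unusedSectionVars false

open Finset

namespace Pool.Agent.AND

open Pool.Agent.ANQ

variable {T X : Type} [Fintype T] [DecidableEq T]

/-- status invariants of a profile -/
structure PInv (A : Ana T X) (nf : ℕ) (π : Prof T) (v : T → X) : Prop where
  AU : Disjoint π.act π.rd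
  AI : Disjoint π.act π.ine
  UI : Disjoint π.rd π.ine
  iw : ∀ x ∈ π.ine, A.wk (π.lev x) (v x)
  rl : ∀ x ∈ π.rd, π.lev x = nf

namespace PInv

variable {A : Ana T X} {nf : ℕ} {π : Prof T} {v : T → X}

theorem freeze (h : PInv A nf π v) (N : Finset T) : PInv A nf (ANQ.freeze A π v N) v where
  AU := h.AU.mono_left inter_subset_left
  AI := h.AI.mono_left inter_subset_left
  UI := h.UI
  iw := h.iw
  rl := h.rl

theorem raise (h : PInv A nf π v) (n : ℕ) (L : Finset T) :
    PInv A nf (ANQ.raise A π n L v) v := by
  classical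
  have hw : ANQ.weak A n v (π.act ∩ L) ⊆ π.act ∩ L := filter_subset _ _
  refine ⟨h.AU.mono_left sdiff_subset, ?_, ?_, ?_, ?_⟩
  · change Disjoint (π.act \ ANQ.weak A n v (π.act ∩ L)) (π.ine ∪ ANQ.weak A n v (π.act ∩ L))
    rw [disjoint_union_right]
    exact ⟨h.AI.mono_left sdiff_subset, sdiff_disjoint⟩
  · change Disjoint π.rd (π.ine ∪ ANQ.weak A n v (π.act ∩ L))
    rw [disjoint_union_right]
    exact ⟨h.UI, (h.AU.mono_left (hw.trans inter_subset_left)).symm⟩
  · intro x hx
    change x ∈ π.ine ∪ ANQ.weak A n v (π.act ∩ L) at hx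
    change A.wk (if x ∈ π.act ∩ L then n else π.lev x) (v x)
    rcases mem_union.1 hx with h1 | h1
    · have h2 : x ∉ π.act ∩ L := fun h3 =>
        Finset.disjoint_left.1 h.AI (mem_inter.1 h3).1 h1
      rw [if_neg h2]
      exact h.iw x h1
    · rw [if_pos (hw h1)]
      exact (mem_filter.1 h1).2
  · intro x hx
    change (if x ∈ π.act ∩ L then n else π.lev x) = nf
    have h2 : x ∉ π.act ∩ L := fun h3 =>
      Finset.disjoint_left.1 h.AU (mem_inter.1 h3).1 hx
    rw [if_neg h2]
    exact h.rl x hx

theorem read (h : PInv A nf π v) (U : Finset T) : PInv A nf (ANQ.read π nf U) v := by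
  refine ⟨?_, ?_, ?_, ?_, ?_⟩
  · change Disjoint (π.act \ U) (π.rd ∪ U)
    rw [disjoint_union_right]
    exact ⟨h.AU.mono_left sdiff_subset, sdiff_disjoint⟩
  · exact h.AI.mono sdiff_subset sdiff_subset
  · change Disjoint (π.rd ∪ U) (π.ine \ U)
    rw [disjoint_union_left]
    exact ⟨h.UI.mono_right sdiff_subset, disjoint_sdiff⟩
  · intro x hx
    change x ∈ π.ine \ U at hx
    change A.wk (if x ∈ U then nf else π.lev x) (v x)
    rw [if_neg (mem_sdiff.1 hx).2]
    exact h.iw x (mem_sdiff.1 hx).1
  · intro x hx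
    change x ∈ π.rd ∪ U at hx
    change (if x ∈ U then nf else π.lev x) = nf
    by_cases hU : x ∈ U
    · rw [if_pos hU]
    · rw [if_neg hU]
      exact h.rl x ((mem_union.1 hx).resolve_right hU)

end PInv

section run

variable [Nonempty T] {g : Geo T} {A : Ana T X}

theorem pinv_cur {j : ℕ} {S : St T} {v : T → X} (h : PInv A g.nf S.pi v) (i : ℕ) :
    PInv A g.nf (g.cur A j S v i).pi v := by
  induction i with
  | zero => exact h.freeze _
  | succ i ih =>
    rw [Geo.cur_succ]
    by_cases hf : g.sL j i ∈ (g.cur A j S v i).fz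
    · rw [Geo.stp_of_mem hf]
      exact ih
    · by_cases ha : A.ACC j i (g.cur A j S v i).pi v
      · rw [Geo.stp_of_acc hf ha]
        exact ih.raise _ _
      · rw [Geo.stp_of_rej hf ha]
        exact ih.freeze _

theorem pinv_icur {j : ℕ} {S : St T} {v : T → X} (h : PInv A g.nf S.pi v) (k : ℕ) :
    PInv A g.nf (g.icur A j S v k).pi v := by
  induction k with
  | zero => exact pinv_cur h _
  | succ k ih =>
    by_cases hk : k < (g.ilist A j S v).length
    · rw [Geo.icur_succ_of_lt j S v k hk]
      by_cases h' : A.LK j S (g.icur A j S v k).don (g.icur A j S v k).pi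
          ((g.ilist A j S v)[k]) v
      · rw [Geo.istp_of_pos h']
        exact ih.read _
      · rw [Geo.istp_of_neg h']
        exact ih
    · rw [Geo.icur_succ_of_not_lt j S v k hk]
      exact ih

theorem pinv_start (v : T → X) : PInv A g.nf (g.start A v).pi v := by
  classical
  refine ⟨disjoint_empty_right _, sdiff_disjoint, disjoint_empty_left _, ?_, ?_⟩
  · intro x hx
    exact (mem_filter.1 hx).2
  · intro x hx
    exact absurd hx (notMem_empty x)

theorem pinv_run (j : ℕ) (v : T → X) : PInv A g.nf (g.run A j v).pi v := by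
  induction j with
  | zero => exact pinv_start v
  | succ j ih =>
    rw [Geo.run_succ]
    exact (pinv_icur ih _).freeze _

theorem pinv_crun (j i : ℕ) (v : T → X) : PInv A g.nf (g.crun A j i v).pi v :=
  pinv_cur (pinv_run j v) i

theorem pinv_irun (j k : ℕ) (v : T → X) : PInv A g.nf (g.irun A j k v).pi v :=
  pinv_icur (pinv_run j v) k

end run

end Pool.Agent.AND
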