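import Pool.Agent.AND.StageNum
import Pool.Agent.AND.PInv
import Pool.Agent.ANQ.Cand

/-! # AND / InAt: THE TOLERANCES ARE WITHIN UNIFORM BOUNDS AT EVERY TIME

* `LvP n π v` = levels and inert sites of a profile of level `n`; `lvp_run`, `lvp_crun`, `lvp_up`, `lvp_irun` : at every time.
* `H3At D θ e n1` : the weights of (H3) can be used for all profiles of level `n ≤ n1`; `h3At_B` : all laws, `h3At_A` : uniform weights.
* `in_of` : `Tol.In` and `Num` for a good medium; `in_run`, `in_crun`, `in_irun` : at every time.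
-/

set_option autoImplicit false

open Matrix Finset

noncomputable section

namespace Pool.Agent.AND

open Pool.Agent.Kin Pool.Agent.APS Pool.Agent.ANC Pool.Agent.ANQ

/-- levels and inert sites of a profile of level `n` -/
structure LvP {T X : Type} [Fintype T] [DecidableEq T] (A : Ana T X) (n : ℕ) (π : Prof T)
    (v : T → X) : Prop where
  act : ∀ y ∈ π.act, π.lev y = n ∨ π.lev y = n + 1
  lev : ∀ y, y ∉ π.rd → π.lev y ≤ n + 1
  iw : ∀ y ∈ π.ine, A.wk (π.lev y) (v y)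

section lv

set_option linter.unusedSectionVars false

variable {T X : Type} [Fintype T] [DecidableEq T] {g : Geo T} {A : Ana T X} {π : Prof T}
  {v : T → X}

theorem lev_freeze {m : ℕ} (h : ∀ y, y ∉ π.rd → π.lev y ≤ m) (N : Finset T) :
    ∀ y, y ∉ (freeze A π v N).rd → (freeze A π v N).lev y ≤ m := h

theorem lev_raise {m : ℕ} (h : ∀ y, y ∉ π.rd → π.lev y ≤ m) (n : ℕ) (hn : n ≤ m)
    (B : Finset T) : ∀ y, y ∉ (raise A π n B v).rd → (raise A π n B v).lev y ≤ m := by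
  intro y hy
  show (if y ∈ π.act ∩ B then n else π.lev y) ≤ m
  split_ifs
  · exact hn
  · exact h y hy

theorem lev_read {m : ℕ} (h : ∀ y, y ∉ π.rd → π.lev y ≤ m) (nf : ℕ) (U : Finset T) :
    ∀ y, y ∉ (read π nf U).rd → (read π nf U).lev y ≤ m := by
  intro y hy
  have h1 : y ∉ π.rd ∪ U := hy
  rw [mem_union, not_or] at h1
  show (if y ∈ U then nf else π.lev y) ≤ m
  rw [if_neg h1.2]
  exact h y h1.1

variable [Nonempty T]

theorem lev_cur (j : ℕ) {S : St T}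
    (h : ∀ y, y ∉ S.pi.rd → S.pi.lev y ≤ g.lv j + 1) (i : ℕ) :
    ∀ y, y ∉ (g.cur A j S v i).pi.rd → (g.cur A j S v i).pi.lev y ≤ g.sn j i + 1 := by
  have hsn : ∀ i, g.sn j i ≤ g.sn j (i + 1) := fun i => by
    unfold Geo.sn
    exact Nat.add_le_add_left (Nat.div_le_div_right (Nat.le_succ i)) _
  induction i with
  | zero =>
    have h1 : g.sn j 0 = g.lv j := by
      unfold Geo.sn
      simp
    rw [h1]
    exact lev_freeze h _
  | succ i ih =>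
    have ih' : ∀ y, y ∉ (g.cur A j S v i).pi.rd →
        (g.cur A j S v i).pi.lev y ≤ g.sn j (i + 1) + 1 := fun y hy =>
      (ih y hy).trans (Nat.succ_le_succ (hsn i))
    rw [Geo.cur_succ]
    by_cases h1 : g.sL j i ∈ (g.cur A j S v i).fz
    · rw [Geo.stp_of_mem h1]
      exact ih'
    · by_cases h2 : A.ACC j i (g.cur A j S v i).pi v
      · rw [Geo.stp_of_acc h1 h2]
        exact lev_raise ih' _ (Nat.succ_le_succ (hsn i)) _
      · rw [Geo.stp_of_rej h1 h2]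
        exact lev_freeze ih' _

theorem sn_ns_le (hm : Monotone g.lv) (j : ℕ) : g.sn j (g.ns j) ≤ g.lv (j + 1) := by
  unfold Geo.sn Geo.ns
  have h1 : (g.lv (j + 1) - g.lv j) * g.nc j / g.nc j ≤ g.lv (j + 1) - g.lv j := by
    rcases Nat.eq_zero_or_pos (g.nc j) with h0 | h0
    · rw [h0]
      simp
    · rw [Nat.mul_div_cancel _ h0]
  have h2 : g.lv j ≤ g.lv (j + 1) := hm (Nat.le_succ j)
  omega

theorem lev_icur (hm : Monotone g.lv) (j : ℕ) {S : St T}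
    (h : ∀ y, y ∉ S.pi.rd → S.pi.lev y ≤ g.lv j + 1) (k : ℕ) :
    ∀ y, y ∉ (g.icur A j S v k).pi.rd → (g.icur A j S v k).pi.lev y ≤ g.lv (j + 1) + 1 := by
  induction k with
  | zero =>
    intro y hy
    have h1 := lev_cur (A := A) (v := v) j h (g.ns j) y hy
    exact h1.trans (Nat.succ_le_succ (sn_ns_le hm j))
  | succ k ih =>
    by_cases h1 : k < (g.ilist A j S v).length
    · rw [Geo.icur_succ_of_lt j S v k h1]
      unfold Geo.istp
      split_ifs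
      · exact lev_read ih _ _
      · exact ih
    · rw [Geo.icur_succ_of_not_lt j S v k h1]
      exact ih

theorem lev_run (hm : Monotone g.lv) (j : ℕ) (v : T → X) :
    ∀ y, y ∉ (g.run A j v).pi.rd → (g.run A j v).pi.lev y ≤ g.lv j + 1 := by
  induction j with
  | zero => exact fun y _ => Nat.le_succ _
  | succ j ih =>
    rw [Geo.run_succ]
    exact lev_freeze (lev_icur hm j ih _) _

theorem lvp_run (hc : ∀ j x, g.cor j (g.cor j x) = g.cor j x) (hL : Loc g A) (j : ℕ)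
    (v : T → X) : LvP A (g.lv j) (g.run A j v).pi v where
  act := fun y hy => Or.inl (Geo.run_lev hc hL j v y hy)
  lev := lev_run hL.lv_mono j v
  iw := (pinv_run j v).iw

theorem lvp_crun (hc : ∀ j x, g.cor j (g.cor j x) = g.cor j x) (hL : Loc g A) (j i : ℕ)
    (v : T → X) : LvP A (g.sn j i) (g.crun A j i v).pi v where
  act := Geo.lev_two hc hL j i v
  lev := lev_cur j (lev_run hL.lv_mono j v) i
  iw := (pinv_crun j i v).iw

theorem lvp_irun (hc : ∀ j x, g.cor j (g.cor j x) = g.cor j x) (hL : Loc g A) (j k : ℕ)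
    (v : T → X) : LvP A (g.lv (j + 1)) (g.irun A j k v).pi v where
  act := fun y hy => by
    have h1 := Geo.icur_lev (g := g) (A := A) j (g.run A j v) v k y hy
    have h2 := (Geo.icur_mono (g := g) (A := A) j (g.run A j v) v (Nat.zero_le k)).1 hy
    have h3 := Geo.fin_lev hc hL.lv_mono j (g.run A j v) (Geo.run_lev hc hL j v) v y h2
    exact Or.inl (h1.trans h3)
  lev := lev_icur hL.lv_mono j (lev_run hL.lv_mono j v) k
  iw := (pinv_irun j k v).iw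

/-- the candidate of the step `(j, i)` -/
theorem lvp_up (hc : ∀ j x, g.cor j (g.cor j x) = g.cor j x) (hL : Loc g A) (j i : ℕ)
    (v : T → X) :
    LvP A (g.sn j i) (g.up A j i (g.crun A j i v).pi v) v where
  act := by
    intro y hy
    have h1 : y ∈ (g.crun A j i v).pi.act := by
      have h2 : y ∈ (g.crun A j i v).pi.act \ _ := hy
      exact (mem_sdiff.1 h2).1
    have h3 := Geo.lev_two hc hL j i v y h1
    rw [Geo.up_lev]
    split_ifs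
    · exact Or.inr rfl
    · exact h3
  lev := lev_raise (lvp_crun hc hL j i v).lev _ le_rfl _
  iw := ((pinv_crun j i v).raise _ _).iw

end lv

variable {d L : ℕ} [NeZero L] {X : Type}

/-- THE USE OF (H3) for all good media of profiles of level `n ≤ n1` -/
def H3At (D : Dat d L X) (k0 th e : ℝ) (n1 : ℕ) : Prop :=
  ∀ n ≤ n1, ∀ (F : Fld (Tor d L)) (π : Prof (Tor d L)) (v : Tor d L → X) (M : Med (Tor d L))
    (an dA Lam : ℝ), F.Pos → InNum D.f D.P n (k0 ^ (D.P.vi / 2)) an dA →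
    FldIn D.f F (k0 ^ (D.P.vi / 2)) (k0 ^ (D.P.vp / 2)) an Lam 1 →
    LvP D.ana n π v → D.Inv n F π v → IsMed (H0T d L) D.Y π v M →
    Good D.f (tolAt D.P D.Sf n F π v M) M →
    ∃ (K : ℕ) (Φ : ℝ), H3Use D.P D.Sf n F π v M K Φ th e

/-- the static sites -/
theorem stat_eta {D : Dat d L X} {n : ℕ} {F : Fld (Tor d L)} {π : Prof (Tor d L)}
    {v : Tor d L → X} {M : Med (Tor d L)} (hI : D.Inv n F π v)
    (hM : IsMed (H0T d L) D.Y π v M) (hY : 0 ≤ D.Y.eta) {y : Tor d L} (hA : y ∉ M.A)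
    (hU : y ∉ M.U) (hII : y ∉ M.I) : D.cI * D.Y.kk (π.lev y) (v y) ≤ M.eta y := by
  rw [hM.A] at hA
  rw [hM.U] at hU
  rw [hM.I] at hII
  have h1 := hI.st y hA hU hII
  have h2 : M.eta y = D.Y.eta + (π.sg y).im := by
    have hk : kp D.Y π v y = 0 := if_neg hA
    have hc : cp D.Y π v y = (D.Y.hh (π.lev y) (v y) : ℂ) - (D.Y.E : ℂ) -
        ((D.Y.eta : ℂ) * Complex.I + π.sg y) := by
      unfold cp
      rw [if_neg hU, if_neg (not_or.2 ⟨hA, hII⟩)]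
    unfold Med.eta
    rw [hM.b, hc, hk]
    simp
  rw [h2]
  linarith

/-- facts on the site functions, uniform weights -/
structure SfA (D : Dat d L X) (n1 : ℕ) (th : ℝ) : Prop where
  phi : ∀ m a, D.Sf.phi 0 m a = 1
  om : ∀ m a, D.Sf.om m a = 1
  s : D.Sf.s 0 = 1
  K : ∀ n, 0 ∈ D.Sf.Ks n
  up : ∀ n ≤ n1, ∀ m a, m = n ∨ m = n + 1 → th * D.Y.kk m a ≤ D.P.cl * D.P.kap (n + 1)
  low : ∀ n ≤ n1, ∀ m a, m ≤ n + 1 → D.P.cl * D.P.kap (n + 1) ≤ D.Y.kk m a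
  wk : ∀ n a, ¬ D.wk n a

/-- facts on the site functions, all laws -/
structure SfB (D : Dat d L X) (n1 : ℕ) (th : ℝ) : Prop where
  K : ∀ n ≤ n1, n + 1 ∈ D.Sf.Ks n
  s : ∀ n ≤ n1, D.Sf.s (n + 1) ≤ D.P.kap (n + 1)
  lo : ∀ n ≤ n1, ∀ m a, m = n ∨ m = n + 1 → D.P.cl * D.P.kap (n + 1) ≤ D.Y.kk m a →
    th * D.Y.kk m a ≤ D.Sf.phi (n + 1) m a
  hi : ∀ n ≤ n1, ∀ m a, m ≤ n + 1 → D.Sf.phi (n + 1) m a ≤ D.Y.kk m a
  om : ∀ m a, D.Sf.om m a ≤ 1
  wphi : ∀ n ≤ n1, ∀ m a, m ≤ n + 1 → D.wk m a → D.Sf.phi (n + 1) m a = 0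
  wom : ∀ m a, m ≤ n1 + 1 → D.wk m a → D.Sf.om m a = 0

/-- (H3) WITH THE WEIGHTS OF ALL LAWS -/
theorem h3At_B {D : Dat d L X} {k0 th e : ℝ} {n1 : ℕ} (hP : D.P.Pos) (hS : D.Sf.Pos)
    (hSf : SfB D n1 th) (hY : 0 ≤ D.Y.eta)
    (hc1 : D.f.g0.im + (D.P.del0 + k0 ^ (D.P.vi / 2)) ≤ 3 / 2 * D.cI) (he : 0 ≤ e) (hth : th ≤ 2)
    (hz1 : D.P.Cz * k0 ^ (D.P.vi / 2) ≤ e) (hz2 : D.P.Cz * k0 ^ (D.P.vp / 2) ≤ e * D.P.cl)
    (hz3 : D.P.Cz * k0 ^ (D.P.vp / 2) * (D.f.g0.im + (D.P.del0 + k0 ^ (D.P.vi / 2))) ≤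
      e * D.P.cs) : H3At D k0 th e n1 := by
  intro n hn F π v M an dA Lam hF hN hb hL hI hM hG
  have hri : ∀ y ∈ π.ine, y ∉ π.rd := fun y hy h => Finset.disjoint_left.1 hI.ri h hy
  exact ⟨n + 1, 1, h3Use_B hP hS hF hN hb hG hM hY (hSf.K n hn) (hSf.s n hn) hL.act
      (fun y _ hU _ => hL.lev y hU) (hSf.lo n hn) (hSf.hi n hn) hSf.om
      (fun y hy => hSf.wphi n hn _ _ (hL.lev y (hri y hy)) (hL.iw y hy))
      (fun y hy => hSf.wom _ _ ((hL.lev y (hri y hy)).trans (Nat.succ_le_succ hn)) (hL.iw y hy))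
      hI.st hc1 he hth hz1 hz2 hz3⟩

/-- (H3) WITH UNIFORM WEIGHTS -/
theorem h3At_A {D : Dat d L X} {k0 th e : ℝ} {n1 : ℕ} (hP : D.P.Pos)
    (hSf : SfA D n1 th) (hY : 0 ≤ D.Y.eta) (hcI : 0 ≤ D.cI)
    (hc1 : D.f.g0.im + (D.P.del0 + k0 ^ (D.P.vi / 2)) ≤ 3 / 2 * D.cI) (he : 0 ≤ e) (hth : th ≤ 2)
    (hz1 : D.P.cl * (D.P.Cz * k0 ^ (D.P.vi / 2)) ≤ e)
    (hz2 : 3 / 2 * (D.P.Cz * k0 ^ (D.P.vp / 2)) ≤ e) : H3At D k0 th e n1 := by
  intro n hn F π v M an dA Lam hF hN hb hL hI hM hG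
  have hdel : ∀ x, (tolAt D.P D.Sf n F π v M).del x ≤ D.P.del0 + k0 ^ (D.P.vi / 2) :=
    fun x => hb.del x
  have hst : 0 ≤ (tolAt D.P D.Sf n F π v M).st := mul_nonneg hP.cs (hP.kap _).le
  have hkl := hN.kl hP
  have hio : ∀ x, 0 ≤ (rsc (H0T d L) M.b x x).im :=
    hG.io0 hdel hN.c1.le hN.g0 hN.eta.le hst hkl.le
  have hk1 : 0 < D.P.kap (n + 1) := hP.kap _
  have hmI : M.I = ∅ := by
    rw [hM.I, Finset.eq_empty_iff_forall_notMem]
    exact fun y hy => hSf.wk _ _ (hL.iw y hy)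
  have hioC : ∀ y, y ∉ M.U → io M y ≤ 3 / 2 * D.cI := by
    intro y hU
    have := (abs_le.1 (hG.ioC hdel hU)).2
    unfold io
    linarith
  have hbe : ∀ y, D.P.Cz * F.be y ≤ D.P.Cz * k0 ^ (D.P.vp / 2) := fun y =>
    mul_le_mul_of_nonneg_left (hb.be y) hP.Cz
  have hbe0 : ∀ y, 0 ≤ D.P.Cz * F.be y := fun y => mul_nonneg hP.Cz (hF.be y)
  have hmk : ∀ y ∈ M.A, M.k y = D.Y.kk (π.lev y) (v y) := by
    intro y hy
    rw [hM.k]
    exact if_pos (hM.A ▸ hy)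
  have hSt : ∀ y, y ∉ M.A → y ∉ M.U → y ∉ M.I →
      D.cI * (D.P.cl * D.P.kap (n + 1)) ≤ M.eta y := by
    intro y hA hU hI'
    refine le_trans (mul_le_mul_of_nonneg_left ?_ hcI) (stat_eta hI hM hY hA hU hI')
    exact hSf.low n hn _ _ (hL.lev y (hM.U ▸ hU))
  have hz2' : D.P.Cz * k0 ^ (D.P.vp / 2) ≤ e := by
    have h0 : 0 ≤ D.P.Cz * k0 ^ (D.P.vp / 2) := (hbe0 0).trans (hbe 0)
    linarith
  refine ⟨0, D.P.cl * D.P.kap (n + 1), hSf.K n, hkl, fun y hy => ?_, fun y hy => ?_,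
    fun y _ => ?_, fun y hy => ?_, fun y hA hU hI' => ?_, fun y hA hU hI' => ?_, fun y hy => ?_,
    fun y hy => ?_, he, hth⟩
  · rw [hSf.phi, mul_one, hmk y hy]
    exact hSf.up n hn _ _ (hL.act y (hM.A ▸ hy))
  · have h1 : D.P.cl * D.P.kap (n + 1) ≤ M.k y := hG.klo y hy
    rw [hSf.phi, mul_one]
    exact h1
  · have h1 : D.P.Cz * F.err y ≤ D.P.Cz * k0 ^ (D.P.vi / 2) :=
      mul_le_mul_of_nonneg_left (hb.err y) hP.Cz
    have h2 := mul_le_mul_of_nonneg_left h1 hN.cl.le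
    have h3 : D.P.cl * D.P.kap (n + 1) * (D.Sf.s 0 * D.P.Cz * (F.err y / D.P.kap (n + 1))) =
        D.P.cl * (D.P.Cz * F.err y) := by
      rw [hSf.s]
      field_simp
    rw [h3]
    linarith
  · have h1 : D.P.cl * D.P.kap (n + 1) ≤ M.k y := hG.klo y hy
    rw [hSf.s, hSf.om, one_mul, mul_one]
    have h2 := (hbe y).trans hz2'
    calc D.P.cl * D.P.kap (n + 1) * (D.P.Cz * F.be y)
        ≤ M.k y * (D.P.Cz * F.be y) := mul_le_mul_of_nonneg_right h1 (hbe0 y)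
      _ ≤ M.k y * e := mul_le_mul_of_nonneg_left h2 (hkl.le.trans h1)
      _ = e * M.k y := mul_comm _ _
  · rw [hSf.phi, one_mul]
    have h1 := mul_le_mul_of_nonneg_left (hioC y hU) hkl.le
    have h2 := hSt y hA hU hI'
    linarith
  · rw [hSf.s, hSf.om, one_mul, one_mul]
    have h1 := mul_le_mul (hbe y) (hioC y hU) (hio y) ((hbe0 y).trans (hbe y))
    have h2 := mul_le_mul_of_nonneg_left h1 hkl.le
    have h3 := hSt y hA hU hI'
    have h4 : 0 ≤ D.P.Cz * k0 ^ (D.P.vp / 2) := (hbe0 0).trans (hbe 0)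
    calc D.P.cl * D.P.kap (n + 1) * (D.P.Cz * F.be y * io M y)
        ≤ D.P.cl * D.P.kap (n + 1) * (D.P.Cz * k0 ^ (D.P.vp / 2) * (3 / 2 * D.cI)) := h2
      _ = 3 / 2 * (D.P.Cz * k0 ^ (D.P.vp / 2)) * (D.cI * (D.P.cl * D.P.kap (n + 1))) := by ring
      _ ≤ 3 / 2 * (D.P.Cz * k0 ^ (D.P.vp / 2)) * M.eta y :=
        mul_le_mul_of_nonneg_left h3 (by linarith)
      _ ≤ e * M.eta y := by
        refine mul_le_mul_of_nonneg_right hz2 (le_trans ?_ h3)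
        positivity
  · rw [hmI] at hy
    exact absurd hy (Finset.notMem_empty y)
  · rw [hmI] at hy
    exact absurd hy (Finset.notMem_empty y)

/-- `Tol.In` and `Num` FOR A GOOD MEDIUM -/
theorem in_of {D : Dat d L X} {k0 th e rho : ℝ} {n1 : ℕ} (hP : D.P.Pos) (hS : D.Sf.Pos)
    (h3 : H3At D k0 th e n1) (hr1 : rho ≤ th - e) (hr2 : rho ≤ 1 / 2 - 2 * e) {n : ℕ}
    (hn : n ≤ n1) {F : Fld (Tor d L)} {π : Prof (Tor d L)} {v : Tor d L → X}
    {M : Med (Tor d L)} {an dA Lam : ℝ} (hF : F.Pos)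
    (hN : InNum D.f D.P n (k0 ^ (D.P.vi / 2)) an dA)
    (hb : FldIn D.f F (k0 ^ (D.P.vi / 2)) (k0 ^ (D.P.vp / 2)) an Lam 1)
    (hL : LvP D.ana n π v) (hI : D.Inv n F π v) (hM : IsMed (H0T d L) D.Y π v M)
    (hG : Good D.f (tolAt D.P D.Sf n F π v M) M) :
    (tolAt D.P D.Sf n F π v M).In D.f M (uAt D.P n (k0 ^ (D.P.vi / 2)) rho dA Lam 1) ∧
      Num D.f (tolAt D.P D.Sf n F π v M) (uAt D.P n (k0 ^ (D.P.vi / 2)) rho dA Lam 1) := by
  obtain ⟨K, Φ, h⟩ := h3 n hn F π v M an dA Lam hF hN hb hL hI hM hG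
  exact ⟨tolIn hP hS hF hN hb hG h hr1 hr2, tolNum hP hN⟩

/-- EVERYTHING ABOUT THE STATES OF THE ALGORITHM: the numbers -/
structure InH (D : Dat d L X) (Jm n1 : ℕ) (k0 be0 Lam th e rho : ℝ) (dA : ℕ → ℝ) : Prop where
  fn : FNum D Jm k0 be0 Lam
  ns : D.NumS Jm
  qok : D.QOk
  sf : D.Sf.Pos
  h3 : H3At D k0 th e n1
  r1 : rho ≤ th - e
  r2 : rho ≤ 1 / 2 - 2 * e
  num : ∀ n ≤ n1, InNum D.f D.P n (k0 ^ (D.P.vi / 2)) (aeB k0 D.P.eta D.P.vi n) (dA n)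
  lv : D.g.lv Jm ≤ n1

/-- the uniform bounds at the level `n` -/
def Dat.uN (D : Dat d L X) (k0 rho Lam : ℝ) (dA : ℕ → ℝ) (n : ℕ) : UTol :=
  uAt D.P n (k0 ^ (D.P.vi / 2)) rho (dA n) (Lam + 1) 1

/-- the conclusion for the medium `M` -/
structure InC (D : Dat d L X) (k0 rho Lam : ℝ) (dA : ℕ → ℝ) (n : ℕ) (F : Fld (Tor d L))
    (π : Prof (Tor d L)) (v : Tor d L → X) (M : Med (Tor d L)) : Prop where
  med : IsMed (H0T d L) D.Y π v M
  good : Good D.f (tolAt D.P D.Sf n F π v M) M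
  inn : (tolAt D.P D.Sf n F π v M).In D.f M (D.uN k0 rho Lam dA n)
  num : Num D.f (tolAt D.P D.Sf n F π v M) (D.uN k0 rho Lam dA n)
  lvp : LvP D.ana n π v
  inv : D.Inv n F π v

namespace InH

variable {D : Dat d L X} {Jm n1 : ℕ} {k0 be0 Lam th e rho : ℝ} {dA : ℕ → ℝ}
  (h : InH D Jm n1 k0 be0 Lam th e rho dA)
include h

/-- all good media -/
theorem inC {n : ℕ} (hn : n ≤ n1) {F : Fld (Tor d L)} {π : Prof (Tor d L)} {v : Tor d L → X}
    {M : Med (Tor d L)} (hF : F.Pos)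
    (hb : FldIn D.f F (k0 ^ (D.P.vi / 2)) (k0 ^ (D.P.vp / 2)) (aeB k0 D.P.eta D.P.vi n)
      (Lam + 1) 1)
    (hL : LvP D.ana n π v) (hI : D.Inv n F π v) (hM : IsMed (H0T d L) D.Y π v M)
    (hG : Good D.f (tolAt D.P D.Sf n F π v M) M) : InC D k0 rho Lam dA n F π v M := by
  obtain ⟨h1, h2⟩ := in_of h.fn.fh.pos h.sf h.h3 h.r1 h.r2 hn hF (h.num n hn) hb hL hI hM hG
  exact ⟨hM, hG, h1, h2, hL, hI⟩

theorem exC {n : ℕ} (hn : n ≤ n1) {F : Fld (Tor d L)} {π : Prof (Tor d L)} {v : Tor d L → X}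
    (hF : F.Pos)
    (hb : FldIn D.f F (k0 ^ (D.P.vi / 2)) (k0 ^ (D.P.vp / 2)) (aeB k0 D.P.eta D.P.vi n)
      (Lam + 1) 1)
    (hL : LvP D.ana n π v) (hI : D.Inv n F π v) : ∃ M, InC D k0 rho Lam dA n F π v M := by
  obtain ⟨M, h1, h2⟩ := hI.good
  exact ⟨M, h.inC hn hF hb hL hI h1 h2⟩

theorem lv_le {j : ℕ} (hj : j ≤ Jm) : D.g.lv j ≤ n1 := (h.ns.lvm hj).trans h.lv

/-- THE START OF A SUPER-STAGE -/
theorem run {j : ℕ} (hj : j ≤ Jm) (v : Tor d L → X) :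
    ∃ M, InC D k0 rho Lam dA (D.g.lv j) (D.fs j) (D.g.run D.ana j v).pi v M :=
  h.exC (h.lv_le hj) (h.fn.fs_pos j) (h.fn.fs_in hj) (lvp_run h.ns.cor (Dat.loc h.qok) j v)
    (Dat.inv_run h.ns h.qok j hj v).1

theorem sn_le {j : ℕ} (hj : j < Jm) {i : ℕ} (hi : i ≤ D.g.ns j) : D.g.sn j i ≤ n1 := by
  refine le_trans ?_ (h.lv_le (show j + 1 ≤ Jm from hj))
  refine le_trans ?_ (sn_ns_le h.ns.lvm j)
  unfold Geo.sn
  exact Nat.add_le_add_left (Nat.div_le_div_right hi) _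

/-- THE STEPS -/
theorem crun {j : ℕ} (hj : j < Jm) {i : ℕ} (hi : i ≤ D.g.ns j) (v : Tor d L → X) :
    ∃ M, InC D k0 rho Lam dA (D.g.sn j i) (D.fi j i) (D.g.crun D.ana j i v).pi v M :=
  h.exC (h.sn_le hj hi) (h.fn.fi_pos j i) (h.fn.fi_in hj hi)
    (lvp_crun h.ns.cor (Dat.loc h.qok) j i v) (Dat.inv_crun h.ns h.qok j hj i hi v).1

/-- THE INSERTIONS -/
theorem irun {j : ℕ} (hj : j < Jm) (k : ℕ) (v : Tor d L → X) :
    ∃ M, InC D k0 rho Lam dA (D.g.lv (j + 1)) (D.fd j (D.g.irun D.ana j k v).don)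
      (D.g.irun D.ana j k v).pi v M :=
  h.exC (h.lv_le (show j + 1 ≤ Jm from hj)) (h.fn.fd_pos j _)
    (h.fn.fd_in hj _ (h.ns.mult j hj v k)) (lvp_irun h.ns.cor (Dat.loc h.qok) j k v)
    (Dat.inv_irun h.ns h.qok j hj k v).1

/-- the medium of a state of the steps, for any good medium -/
theorem crun' {j : ℕ} (hj : j < Jm) {i : ℕ} (hi : i ≤ D.g.ns j) (v : Tor d L → X)
    {M : Med (Tor d L)} (hM : IsMed (H0T d L) D.Y (D.g.crun D.ana j i v).pi v M)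
    (hG : Good D.f (tolAt D.P D.Sf (D.g.sn j i) (D.fi j i) (D.g.crun D.ana j i v).pi v M) M) :
    InC D k0 rho Lam dA (D.g.sn j i) (D.fi j i) (D.g.crun D.ana j i v).pi v M :=
  h.inC (h.sn_le hj hi) (h.fn.fi_pos j i) (h.fn.fi_in hj hi)
    (lvp_crun h.ns.cor (Dat.loc h.qok) j i v) (Dat.inv_crun h.ns h.qok j hj i hi v).1 hM hG

/-- the medium at the start of a super-stage, for any good medium -/
theorem run' {j : ℕ} (hj : j ≤ Jm) (v : Tor d L → X)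
    {M : Med (Tor d L)} (hM : IsMed (H0T d L) D.Y (D.g.run D.ana j v).pi v M)
    (hG : Good D.f (tolAt D.P D.Sf (D.g.lv j) (D.fs j) (D.g.run D.ana j v).pi v M) M) :
    InC D k0 rho Lam dA (D.g.lv j) (D.fs j) (D.g.run D.ana j v).pi v M :=
  h.inC (h.lv_le hj) (h.fn.fs_pos j) (h.fn.fs_in hj) (lvp_run h.ns.cor (Dat.loc h.qok) j v)
    (Dat.inv_run h.ns h.qok j hj v).1 hM hG

end InH

end Pool.Agent.AND
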