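import Pool.Agent.AND.InsGeo
import Pool.Agent.AND.StepSt

/-!
# AND / InsFree: free sites in the annulus and outside

* `near_free`: a family of points with the chain property misses a point near `x0`;
* `ins_S_ne`: the annulus of a tested cluster contains a site which was not read before;
* `ins_out_ne`: some site is not read and not in the neighbourhood of the cluster;
* `ins_far`: the sites off `F` and off the annulus are far from `F`; `ins_card`: the number of the sites.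
-/

set_option autoImplicit false
set_option linter.unusedSectionVars false

open Finset

noncomputable section

namespace Pool.Agent.AND

open Pool.Agent.Kin Pool.Agent.APS Pool.Agent.ANL Pool.Agent.ANM Pool.Agent.ANQ Pool.Agent.ANB
open Pool.Agent.ANP (dT)

/-- A SITE NEAR `x0` WHICH IS NOT IN `S` -/
theorem near_free {d N : ℕ} [NeZero N] (hd : 0 < d) {S : Set (Tor d N)} {a c : ℕ}
    (hS : CP dT (pt S) a c) (x0 : Tor d N) (hN : 2 * (c + 1) ≤ N) :
    ∃ x, x ∉ S ∧ dT x x0 ≤ c + 1 := by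
  by_contra hc
  push Not at hc
  have hst : ∀ t, dT (pth ⟨0, hd⟩ x0 t) x0 ≤ t := by
    intro t
    induction t with
    | zero =>
      have h0 : pth ⟨0, hd⟩ x0 0 = x0 := by
        unfold pth
        simp
      rw [h0, ANP.nmet_dT.self]
    | succ t ih =>
      have h1 := ANP.nmet_dT.tri (pth ⟨0, hd⟩ x0 (t + 1)) (pth ⟨0, hd⟩ x0 t) x0
      have h2 := pth_step ⟨0, hd⟩ x0 t
      rw [ANP.nmet_dT.symm] at h2
      omega
  have h1 : ∀ t ≤ c + 1, pth ⟨0, hd⟩ x0 (0 + t) ∈ S := by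
    intro t ht
    rw [zero_add]
    by_contra hx
    have h2 := hc _ hx
    have h3 := hst t
    omega
  obtain ⟨l, h2, h3⟩ := free_path ⟨0, hd⟩ x0 0 (c + 1) h1
  have h4 := hS _ _ l h2
  have h5 := pth_dist2 ⟨0, hd⟩ x0 (s := 0) (t := c + 1) (by omega)
  rw [h3] at h4
  omega

section tor

variable {d L : ℕ} [NeZero L] {X : Type} [Fintype X] [DecidableEq X]
variable {g : ANQ.Geo (Tor d L)} {A : ANQ.Ana (Tor d L) X} {W : ℕ → ℕ} {V : ℕ}
  {K : Tor d L → Finset X} {r : ℕ → ℕ} {j k : ℕ} {v : Tor d L → X} {F : Finset (Tor d L)}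
  {c0 N Δ Δ' a : ℕ}

/-- THE ANNULUS CONTAINS A SITE WHICH WAS NOT READ BEFORE -/
theorem ins_S_ne (hd : 0 < d) (hg : (g.par W V).Ok) (hgd : g.dist = td)
    (hO : LOk (g.par W V) j c0 N Δ Δ') (hcp : CP g.dist (eS (g.run A (j + 1) v)) a c0)
    (hk : k < (g.ilist A (j + 1) (g.run A (j + 1) v) v).length)
    (hFe : F = (g.ilist A (j + 1) (g.run A (j + 1) v) v)[k])
    (hL : 2 * ((g.par W V).CD j + c0 + 2) ≤ L) :
    ((g.nbhd (g.R (j + 1)) F \ F) \ (g.irun A (j + 1) k v).pi.rd).Nonempty := by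
  have hm : NMet g.dist := hg.met
  have hF := il_mem hk hFe
  have hC := clu_of_cands hg hF
  have hdT : ∀ x y : Tor d L, g.dist x y = dT x y := by
    intro x y
    rw [hgd, dT_eq_td]
  have hinR : (N + 1) * (Δ + c0) + c0 + 1 ≤ g.R (j + 1) := hO.inR
  have houtR : g.R (j + 1) + 2 ≤ Δ' := hO.outR
  have hrho : Δ' + 2 * c0 + 1 + g.R (j + 1) ≤ g.rho (j + 1) := hO.rho
  have hN1 := hO.N1
  have hD2 := hO.D2
  have h3R : 2 * c0 + 3 ≤ g.R (j + 1) := by
    have h1 : 2 * (2 + c0) ≤ (N + 1) * (Δ + c0) := Nat.mul_le_mul (by omega) (by omega)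
    omega
  set z0 := hC.ne.choose with hz0
  have hz0F : z0 ∈ F := hC.ne.choose_spec
  set y1 := pth ⟨0, hd⟩ z0 ((g.par W V).CD j + (c0 + 2)) with hy1
  have hy1d : (g.par W V).CD j + (c0 + 2) ≤ dT y1 z0 :=
    pth_dist ⟨0, hd⟩ z0 (by omega)
  have hfar : ∀ z ∈ F, c0 + 2 ≤ dT z y1 := by
    intro z hz
    have h1 : g.dist z z0 ≤ (g.par W V).CD j := hC.diam hg hz hz0F
    rw [hdT] at h1
    have h2 := ANP.nmet_dT.tri y1 z z0
    have h3 := ANP.nmet_dT.symm y1 z
    omega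
  obtain ⟨z1, hz1, hmin⟩ := exists_min_image F (fun z => dT z y1) ⟨z0, hz0F⟩
  have ht := hfar z1 hz1
  obtain ⟨w, hw1, hw2⟩ := td_geo z1 y1 (c0 + 2) (dT z1 y1 - (c0 + 2)) (by
    rw [← dT_eq_td]
    omega)
  rw [← dT_eq_td] at hw1 hw2
  have hwF : ∀ z ∈ F, c0 + 2 ≤ dT z w := by
    intro z hz
    have h1 := hmin z hz
    have h2 := ANP.nmet_dT.tri z w y1
    omega
  have hcp' : CP dT (pt ((((g.run A (j + 1) v).pi.rd ∪ (g.run A (j + 1) v).pi.ine :
      Finset (Tor d L))) : Set (Tor d L))) a c0 := by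
    have h1 : (dT : Tor d L → Tor d L → ℕ) = g.dist := by
      funext x y
      rw [hdT]
    rw [h1]
    exact hcp
  obtain ⟨x, hx1, hx2⟩ := near_free hd hcp' w (by omega)
  rw [mem_coe, mem_union, not_or] at hx1
  have hxz : g.dist x z1 ≤ g.R (j + 1) := by
    rw [hdT]
    have h1 := ANP.nmet_dT.tri x w z1
    have h2 := ANP.nmet_dT.symm w z1
    omega
  refine ⟨x, mem_sdiff.2 ⟨mem_sdiff.2 ⟨Geo.mem_nbhd.2 ⟨z1, hz1, hxz⟩, fun hxF => ?_⟩,
    fun hxr => ?_⟩⟩
  · have h1 := hwF x hxF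
    omega
  · exact hx1.1 ((Geo.near_icur (g := g) (A := A) hm.symm hm.tri hk (hFe ▸ hz1) (by
      omega)).2.1.1 hxr)

/-- A SITE WHICH IS NOT READ and not in the neighbourhood of the cluster -/
theorem ins_out_ne (hd : 0 < d) (hG : CGeo g W V) (hgd : g.dist = td) (hP : PercIn g A K r)
    {i : ℕ} (hF : F ∈ g.cands A i (g.run A i v) v) (hL : 2 * (cK g W V i (r i) + 1) ≤ L) :
    ∃ x, x ∉ (g.irun A i k v).pi.rd ∧ x ∉ g.nbhd (g.R i) F := by
  have h1 := ins_cp (k := k) hG hgd hP hF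
  have h2 : (td : Tor d L → Tor d L → ℕ) = dT := by
    funext x y
    rw [dT_eq_td]
  rw [h2] at h1
  obtain ⟨x, hx, -⟩ := far_free hd h1 0 0 (by omega)
  have hx' : ¬ (x ∈ (g.irun A i k v).pi.rd ∨ x ∈ (g.irun A i k v).pi.ine ∨
    x ∈ g.nbhd (g.R i) F) := hx
  rw [not_or, not_or] at hx'
  exact ⟨x, hx'.1, hx'.2.2⟩

/-- the sites off the neighbourhood are far from `F` -/
theorem ins_far (hgd : g.dist = td) {R : ℕ} {x : Tor d L} (hx : x ∉ g.nbhd R F) :
    ∀ y ∈ F, R + 1 ≤ td x y := by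
  intro y hy
  by_contra hc
  refine hx (Geo.mem_nbhd.2 ⟨y, hy, ?_⟩)
  rw [hgd]
  omega

/-- the number of the sites of the cluster -/
theorem ins_card (hg : (g.par W V).Ok) (hgd : g.dist = td)
    (hF : F ∈ g.cands A (j + 1) (g.run A (j + 1) v) v) :
    F.card ≤ g.J * (2 * (W j + g.sep j) + 1) ^ d := by
  refine (clu_of_cands hg hF).card_le hg _ fun b => ?_
  have h1 := card_ball b (W j + g.sep j)
  refine le_trans (le_of_eq ?_) h1
  congr 1
  ext y
  simp only [mem_filter, mem_univ, true_and]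
  change g.dist y b ≤ W j + g.sep j ↔ td b y ≤ W j + g.sep j
  rw [hgd, td_met.symm]

/-- the number of the sites of a neighbourhood -/
theorem card_nbhd (hgd : g.dist = td) (R : ℕ) (F : Finset (Tor d L)) :
    (g.nbhd R F).card ≤ F.card * (2 * R + 1) ^ d := by
  classical
  have h1 : g.nbhd R F ⊆ F.biUnion fun y => univ.filter fun x => td y x ≤ R := by
    intro x hx
    obtain ⟨y, hy, hxy⟩ := Geo.mem_nbhd.1 hx
    refine mem_biUnion.2 ⟨y, hy, mem_filter.2 ⟨mem_univ _, ?_⟩⟩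
    rw [td_met.symm, ← hgd]
    exact hxy
  exact (card_le_card h1).trans (card_biUnion_le_card_mul _ _ _ fun y _ => card_ball y R)

end tor

end Pool.Agent.AND
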