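import Pool.Agent.AND.LeakSub
import Pool.Agent.AND.HoleGeo
import Pool.Agent.AND.PInv
import Pool.Agent.ANQ.NearProc
import Pool.Agent.ANQ.Cand
import Pool.Agent.ANQ.LeakCells
import Pool.Agent.ANB.CoverL

/-! # AND LEAKGEO: the domains of the leak theorem in the process

`S` = state at the start of super-stage `j`.  Pieces of the surfaces: single sites, read or inert at the start (`eS`).  Pieces
of the comparison domain: in addition the sites near the cluster (off its annulus) which become inert during the super-stage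
(`wkn`, `eP`); it depends only on the configuration off the surfaces.
-/

set_option autoImplicit false
set_option linter.unusedSectionVars false

open Finset

noncomputable section

namespace Pool.Agent.AND

open Pool.Agent.Kin Pool.Agent.ANL Pool.Agent.ANM Pool.Agent.ANQ

section pts

variable {T κ : Type*} {d : T → T → ℕ} {E : κ → Set T} {a c : ℕ} {U : Set T}

lemma Ch_pt (hU : ∀ x ∈ U, ∃ k, x ∈ E k) {x y : T} {l : List (Option T)}
    (h : Ch d (ANB.pt U) x y l) : ∃ l' : List (Option κ), Ch d E x y l' ∧ paid l' = paid l := by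
  induction l generalizing x with
  | nil => exact ⟨[], h, rfl⟩
  | cons o l ih =>
    cases o with
    | none =>
      obtain ⟨z, h1, h2⟩ := h
      obtain ⟨l', h3, h4⟩ := ih h2
      exact ⟨none :: l', ⟨z, h1, h3⟩, by simp [paid, h4]⟩
    | some k =>
      obtain ⟨z, h1, h2, h3⟩ := h
      obtain ⟨hk, h1'⟩ := ANB.near_pt h1
      obtain ⟨_, h2'⟩ := ANB.near_pt h2
      obtain ⟨k', hk'⟩ := hU k hk
      obtain ⟨l', h4, h5⟩ := ih h3
      exact ⟨some k' :: l', ⟨z, ⟨k, hk', h1'⟩, ⟨k, hk', h2'⟩, h4⟩, h5⟩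

/-- single sites of a set which is covered by pieces -/
theorem cp_pt (h : CP d E a c) (hU : ∀ x ∈ U, ∃ k, x ∈ E k) : CP d (ANB.pt U) a c := by
  intro x y l hl
  obtain ⟨l', h1, h2⟩ := Ch_pt hU hl
  rw [← h2]
  exact h x y l' h1

theorem cp_pt_mono {U' : Set T} (h : CP d (ANB.pt U) a c) (hU : U' ⊆ U) :
    CP d (ANB.pt U') a c := cp_pt h fun x hx => ⟨x, rfl, hU hx⟩

end pts

/-! ### two families of pieces -/

section two

variable {ι κ κ' : Type} [Fintype ι] {d : ι → ι → ℕ} {E : κ → Set ι} {E' : κ' → Set ι} {a c : ℕ}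
  [DecidableEq ι] {H : Matrix ι ι ℂ}

/-- the geometry of the leak theorem with different pieces for the comparison domain -/
theorem lkgeo2 (hd : NMet d) (h : CP d E a c) (h' : CP d E' a c) (hH : ∀ x y, H x y ≠ 0 → d x y ≤ 1)
    (hs : RealSym H) {h0 : ℝ} (hop : HopLe H h0) (h01 : 1 ≤ h0) {Δ Δ' : ℕ} (hΔ : 2 ≤ Δ)
    {F : Finset ι} {N V0 V VP : ℕ} (hN : 1 ≤ N) (hΔ' : (N + 1) * (Δ + c) + c + 1 ≤ Δ')
    (hV0 : ∀ x, (univ.filter fun y => d x y ≤ c + 1).card ≤ V0)
    (hV : ∀ x, (univ.filter fun y => d x y ≤ (N + 1) * (Δ + c) + c + 1).card ≤ V)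
    (hVP : ∀ x, (univ.filter fun y => d x y ≤ Δ' + 2 * c + 1).card ≤ VP) :
    LkGeo H F (DF d E Δ F 0) (DF d E Δ F (N + 1)) (DF d E' Δ' F 1)
      (fun i : Fin N => DF d E Δ F (i + 1)) h0 (F.card * V) (F.card * V0) (F.card * VP) where
  toLGeo := lgeo_cp hd h hH hs hop h01 hΔ hN hV
  FDt := subset_DF hd Δ F _
  D0P := by
    intro x hx
    obtain ⟨y, hy, h1⟩ := D_near hd h le_rfl hx
    exact near_P ⟨y, hy, by nlinarith⟩
  surf i := by
    intro x hx
    obtain ⟨y, hy, h1⟩ := bdyD_near hd h hH (show (i : ℕ) + 1 ≤ N + 1 by omega) hx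
    exact near_P ⟨y, hy, by omega⟩
  outt i := by
    rw [Finset.disjoint_left]
    intro x hx
    exact bdy_DF_notMem hd hH hΔ (show (i : ℕ) + 1 < N + 1 by omega) hx
  PDt := by
    rw [Finset.disjoint_left]
    intro x hx hxt
    obtain ⟨y, hy, h1⟩ := D_near hd h le_rfl hxt
    have h2 : ∀ z, d x z ≤ 1 → z ∈ DF d E' Δ' F 1 := fun z hz => near_P ⟨y, hy, by
      have := hd.tri y x z
      omega⟩
    rcases mem_bdy_DF hx with ⟨_, z, hz, hxz⟩ | ⟨h3, _⟩
    · exact hz (mem_DF.1 (h2 z (hH x z hxz)))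
    · exact h3 (mem_DF.1 (h2 x (by rw [hd.self]; omega)))
  cardt := bdy_DF_card_cp hd h hH le_rfl hV
  card0 := bdy_DF_card_cp (i := 0) (n := 0) hd h hH le_rfl (fun x => by simpa using hV0 x)
  cardP := by
    refine bdy_DF_card_cp (i := 1) (n := 1) hd h' hH le_rfl (fun x => ?_)
    have h1 : 1 * (Δ' + c) + c + 1 = Δ' + 2 * c + 1 := by ring
    rw [h1]
    exact hVP x

/-- the boundary of the comparison domain is far from the target surface -/
theorem bdyP_far2 (hd : NMet d) (h : CP d E a c) (hH : ∀ x y, H x y ≠ 0 → d x y ≤ 1)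
    {Δ Δ' i N : ℕ} {F : Finset ι} (hi : i ≤ N) {x z : ι} (hx : x ∈ bdy H (DF d E' Δ' F 1))
    (hz : z ∈ bdy H (DF d E Δ F i)) : Δ' ≤ d z x + (N * (Δ + c) + c) + 2 := by
  obtain ⟨y, hy, h1⟩ := bdyD_near hd h hH hi hz
  have h2 := bdyP_far hd hH hx hy
  have h3 := hd.tri y z x
  omega

theorem LkGeo.mono {F D0 Dt P : Finset ι} {N : ℕ} {D : Fin N → Finset ι} {h0 : ℝ}
    {nb n0 nP nb' n0' nP' : ℕ} (h : LkGeo H F D0 Dt P D h0 nb n0 nP) (h1 : nb ≤ nb')
    (h2 : n0 ≤ n0') (h3 : nP ≤ nP') : LkGeo H F D0 Dt P D h0 nb' n0' nP' where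
  toLGeo := { sym := h.sym, hop := h.hop, h01 := h.h01, N1 := h.N1, F0 := h.F0, FD := h.FD,
              out := h.out, dis := h.dis, card := fun i => (h.card i).trans h1 }
  FDt := h.FDt
  D0P := h.D0P
  surf := h.surf
  outt := h.outt
  PDt := h.PDt
  cardt := h.cardt.trans h1
  card0 := h.card0.trans h2
  cardP := h.cardP.trans h3

end two

/-! ### the process -/

variable {T X : Type} [Fintype T] [DecidableEq T] [Fintype X] [DecidableEq X]
variable {g : ANQ.Geo T} {A : ANQ.Ana T X} {W : ℕ → ℕ} {V : ℕ}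

/-- the pieces at the start of the super-stage: single sites, read or inert -/
def eS (S : ANQ.St T) : T → Set T := ANB.pt ((S.pi.rd ∪ S.pi.ine : Finset T) : Set T)

open Classical in
/-- the sites near `F`, off its annulus, which become inert during super-stage `j` -/
def wkn (g : ANQ.Geo T) (A : ANQ.Ana T X) (j : ℕ) (S : ANQ.St T) (r : ℕ) (F : Finset T)
    (v : T → X) : Finset T :=
  univ.filter fun x => x ∈ S.pi.act ∧ x ∈ g.nbhd r F ∧ x ∉ g.nbhd (g.R j) F ∧
    ∃ n, g.lv j < n ∧ n ≤ g.lv (j + 1) ∧ A.wk n (v x)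

/-- the pieces of the comparison domain -/
def eP (g : ANQ.Geo T) (A : ANQ.Ana T X) (j : ℕ) (S : ANQ.St T) (r : ℕ) (F : Finset T)
    (v : T → X) : T → Set T :=
  ANB.pt ((S.pi.rd ∪ S.pi.ine ∪ wkn g A j S r F v : Finset T) : Set T)

/-- the comparison domain of the cluster `F` -/
def lkP (g : ANQ.Geo T) (A : ANQ.Ana T X) (j : ℕ) (S : ANQ.St T) (c Δ' : ℕ) (F : Finset T)
    (v : T → X) : Finset T := DF g.dist (eP g A j S (Δ' + 2 * c + 1) F v) Δ' F 1

/-- the domains of the cluster `F` -/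
def lkE (g : ANQ.Geo T) (S : ANQ.St T) (N Δ : ℕ) (F : Finset T) : LkDom T N where
  D0 := DF g.dist (eS S) Δ F 0
  Dt := DF g.dist (eS S) Δ F (N + 1)
  P := ∅
  D k := DF g.dist (eS S) Δ F (k + 1)

variable [Nonempty T]

omit [Fintype X] [DecidableEq X] [Nonempty T] in
theorem mem_wkn {j : ℕ} {S : ANQ.St T} {r : ℕ} {F : Finset T} {v : T → X} {x : T} :
    x ∈ wkn g A j S r F v ↔ x ∈ S.pi.act ∧ x ∈ g.nbhd r F ∧ x ∉ g.nbhd (g.R j) F ∧
      ∃ n, g.lv j < n ∧ n ≤ g.lv (j + 1) ∧ A.wk n (v x) := by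
  classical
  unfold wkn
  simp

/-- a tested cluster is a cluster of candidates of the history -/
theorem clu_of_cands (hg : (g.par W V).Ok) {j : ℕ} {v : T → X} {F : Finset T}
    (hF : F ∈ g.cands A (j + 1) (g.run A (j + 1) v) v) :
    Clu (g.hist A hg.idem hg.met.self hg.met.symm W V v) j F := by
  classical
  have hs : ∀ x y, g.dist x y = g.dist y x := hg.met.symm
  have hne : F.Nonempty := by
    unfold Geo.cands at hF
    obtain ⟨y, hy, rfl⟩ := mem_image.1 hF
    exact ⟨y, Geo.mem_clu_self (Geo.mem_cand.1 hy).1⟩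
  refine ⟨hne, ?_, ?_, ?_⟩
  · intro x hx
    exact (Geo.mem_cand_iff hs).2 ⟨F, hF, hx⟩
  · intro x hx y hy
    have h1 := Geo.cands_eq hs hF hx
    rw [h1] at hy
    exact (Geo.mem_clu.1 hy).2
  · intro x hx y hy hxy
    refine Geo.near_stat hs hF hx hy ?_
    rw [hs]
    exact hxy

/-- the weak levels of the active sites -/
theorem cur_act_wk (hc : ∀ j x, g.cor j (g.cor j x) = g.cor j x) (hL : ANQ.Loc g A) (j : ℕ)
    (v : T → X) (i : ℕ) : ∀ x ∈ (g.crun A j i v).pi.act, ∀ n, g.lv j < n →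
      n ≤ (g.crun A j i v).pi.lev x → ¬ A.wk n (v x) := by
  classical
  induction i with
  | zero =>
    intro x hx n hn hn'
    have h1 : (g.crun A j 0 v).pi.lev x = (g.run A j v).pi.lev x := rfl
    have h2 : x ∈ (g.run A j v).pi.act := Geo.cur_act_sub j _ v 0 hx
    rw [h1, Geo.run_lev hc hL j v x h2] at hn'
    omega
  | succ i ih =>
    intro x hx n hn hn'
    unfold Geo.crun at hx hn' ih
    have hx' : x ∈ (g.cur A j (g.run A j v) v i).pi.act := by
      rw [Geo.cur_succ] at hx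
      exact Geo.stp_act hx
    have h0 := ih x hx' n hn
    rw [Geo.cur_succ] at hx hn'
    by_cases h : g.sL j i ∈ (g.cur A j (g.run A j v) v i).fz
    · rw [Geo.stp_of_mem h] at hn'
      exact h0 hn'
    · by_cases h' : A.ACC j i (g.cur A j (g.run A j v) v i).pi v
      · rw [Geo.stp_of_acc h h'] at hx hn'
        have e1 : x ∈ (g.cur A j (g.run A j v) v i).pi.act \ ANQ.weak A (g.sn j i + 1) v
            ((g.cur A j (g.run A j v) v i).pi.act ∩ g.cell j (g.sL j i)) := hx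
        change n ≤ (g.up A j i (g.cur A j (g.run A j v) v i).pi v).lev x at hn'
        rw [Geo.up_lev] at hn'
        by_cases hp : g.cor j x = g.sL j i
        · rw [if_pos ⟨hx', hp⟩] at hn'
          have hlc := Geo.lev_cell hc hL j i v x (by
            unfold Geo.actC
            exact mem_inter.2 ⟨hx', Geo.mem_cell.2 hp⟩)
          rcases Nat.lt_or_ge n (g.sn j i + 1) with h3 | h3
          · refine h0 ?_
            have h4 : (g.cur A j (g.run A j v) v i).pi.lev x = g.sn j i := hlc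
            omega
          · have h4 : n = g.sn j i + 1 := by omega
            intro hw
            refine (mem_sdiff.1 e1).2 ?_
            rw [mem_weak]
            exact ⟨mem_inter.2 ⟨hx', Geo.mem_cell.2 hp⟩, h4 ▸ hw⟩
        · rw [if_neg fun h => hp h.2] at hn'
          exact h0 hn'
      · rw [Geo.stp_of_rej h h'] at hn'
        exact h0 hn'

/-- new inert sites are weak at some level of the super-stage -/
theorem cur_ine_wk (hc : ∀ j x, g.cor j (g.cor j x) = g.cor j x) (hm : Monotone g.lv) (j : ℕ)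
    (S : ANQ.St T) (v : T → X) (i : ℕ) (hi : i ≤ g.ns j) : ∀ x ∈ (g.cur A j S v i).pi.ine,
      x ∈ S.pi.ine ∨ ∃ n, g.lv j < n ∧ n ≤ g.lv (j + 1) ∧ A.wk n (v x) := by
  classical
  induction i with
  | zero => exact fun x hx => Or.inl hx
  | succ i ih =>
    intro x hx
    have ih' := ih (by omega) x
    rw [Geo.cur_succ] at hx
    by_cases h : g.sL j i ∈ (g.cur A j S v i).fz
    · rw [Geo.stp_of_mem h] at hx
      exact ih' hx
    · by_cases h' : A.ACC j i (g.cur A j S v i).pi v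
      · rw [Geo.stp_of_acc h h'] at hx
        have e1 : x ∈ (g.cur A j S v i).pi.ine ∪ ANQ.weak A (g.sn j i + 1) v
            ((g.cur A j S v i).pi.act ∩ g.cell j (g.sL j i)) := hx
        rcases mem_union.1 e1 with h1 | h1
        · exact ih' h1
        · right
          rw [mem_weak] at h1
          refine ⟨g.sn j i + 1, ?_, ?_, h1.2⟩
          · unfold Geo.sn
            have := Nat.zero_le (i / g.nc j)
            omega
          · unfold Geo.sn
            have hn := Geo.nc_pos hc j x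
            have h2 : i / g.nc j < g.lv (j + 1) - g.lv j := by
              rw [Nat.div_lt_iff_lt_mul hn]
              have : g.ns j = (g.lv (j + 1) - g.lv j) * g.nc j := rfl
              omega
            have h3 : g.lv j ≤ g.lv (j + 1) := hm (Nat.le_succ j)
            omega
      · rw [Geo.stp_of_rej h h'] at hx
        exact ih' hx

/-- the inert sites at the end of the reading in the cells which are not frozen -/
theorem fin_ine_iff (hc : ∀ j x, g.cor j (g.cor j x) = g.cor j x) (hL : ANQ.Loc g A) (j : ℕ)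
    (v : T → X) {x : T} (hx : x ∈ (g.run A j v).pi.act)
    (hf : g.cor j x ∉ (g.fin A j (g.run A j v) v).fz) :
    (x ∈ (g.fin A j (g.run A j v) v).pi.ine ∧ x ∉ (g.fin A j (g.run A j v) v).pi.act ∧
      ∃ n, g.lv j < n ∧ n ≤ g.lv (j + 1) ∧ A.wk n (v x)) ∨
    (x ∈ (g.fin A j (g.run A j v) v).pi.act ∧ x ∉ (g.fin A j (g.run A j v) v).pi.ine ∧
      ¬ ∃ n, g.lv j < n ∧ n ≤ g.lv (j + 1) ∧ A.wk n (v x)) := by
  classical
  have hp := pinv_cur (A := A) (j := j) (pinv_run (g := g) (A := A) j v) (g.ns j)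
  have hp0 := pinv_run (g := g) (A := A) j v
  have h1 := (Geo.cur_new (g := g) (A := A) j (g.run A j v) v (g.ns j) hx hf).1
  rcases h1 with h1 | h1
  · right
    refine ⟨h1, Finset.disjoint_left.1 hp.AI h1, ?_⟩
    rintro ⟨n, hn1, hn2, hw⟩
    have h2 := Geo.fin_lev (A := A) hc hL.lv_mono j _ (Geo.run_lev hc hL j v) v x h1
    refine cur_act_wk hc hL j v (g.ns j) x h1 n hn1 ?_ hw
    have h3 : (g.crun A j (g.ns j) v).pi.lev x = g.lv (j + 1) := h2
    rw [h3]
    exact hn2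
  · left
    refine ⟨h1, fun h => Finset.disjoint_left.1 hp.AI h h1, ?_⟩
    rcases cur_ine_wk (A := A) hc hL.lv_mono j (g.run A j v) v (g.ns j) le_rfl x h1 with h2 | h2
    · exact absurd h2 (Finset.disjoint_left.1 hp0.AI hx)
    · exact h2

/-! ### facts near a tested cluster -/

section near

variable {j c N Δ Δ' a : ℕ} {v : T → X} {F : Finset T}

/-- the sites near a tested cluster `F`: no other static site, no frozen cell, no annulus of another cluster -/
theorem near_F (hg : (g.par W V).Ok) (hO : LOk (g.par W V) j c N Δ Δ')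
    (hF : F ∈ g.cands A (j + 1) (g.run A (j + 1) v) v) {x : T}
    (hx : ∃ y ∈ F, g.dist y x ≤ Δ' + 2 * c + 1) :
    (x ∈ stat (g.run A (j + 1) v).pi → x ∈ F) ∧
      g.cor (j + 1) x ∉ (g.fin A (j + 1) (g.run A (j + 1) v) v).fz ∧
      ∀ y ∈ stat (g.run A (j + 1) v).pi, y ∉ F → g.R (j + 1) < g.dist x y := by
  have hC := clu_of_cands hg hF
  obtain ⟨y, hy, hyx⟩ := hx
  have h1 : Δ' + 2 * c + 1 + g.R (j + 1) ≤ g.rho (j + 1) := hO.rho
  have h2 : Δ' + 2 * c + 1 ≤ g.D (j + 1) := hO.fz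
  refine ⟨fun h3 => hC.closed y hy x h3 ?_, hC.not_fz hy ?_, ?_⟩
  · change g.dist y x ≤ g.rho (j + 1)
    omega
  · change g.dist y x ≤ g.D (j + 1)
    omega
  · intro z hz hzF
    by_contra hcon
    push Not at hcon
    apply hzF
    have h3 := hg.met.tri y x z
    refine hC.closed y hy z hz ?_
    change g.dist y z ≤ g.rho (j + 1)
    change g.dist y z ≤ g.dist y x + g.dist x z at h3
    omega

/-- chain property of the pieces of the surfaces -/
theorem cp_eS {S : ANQ.St T} {U : Set T} (h : CP g.dist (ANB.pt U) a c)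
    (hU : ((S.pi.rd ∪ S.pi.ine : Finset T) : Set T) ⊆ U) : CP g.dist (eS S) a c :=
  cp_pt_mono h hU

/-- the weak sites near a tested cluster are inert at the end of the reading -/
theorem wkn_sub (hg : (g.par W V).Ok) (hL : ANQ.Loc g A) (hO : LOk (g.par W V) j c N Δ Δ')
    (hF : F ∈ g.cands A (j + 1) (g.run A (j + 1) v) v) :
    wkn g A (j + 1) (g.run A (j + 1) v) (Δ' + 2 * c + 1) F v ⊆
      (g.fin A (j + 1) (g.run A (j + 1) v) v).pi.ine := by
  intro x hx
  obtain ⟨h1, h2, -, h4⟩ := mem_wkn.1 hx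
  obtain ⟨y, hy, hxy⟩ := Geo.mem_nbhd.1 h2
  have h5 := (near_F hg hO hF (x := x) ⟨y, hy, by
    have := hg.met.symm y x
    change g.dist y x = g.dist x y at this
    omega⟩).2.1
  rcases fin_ine_iff hg.idem hL (j + 1) v h1 h5 with h6 | h6
  · exact h6.1
  · exact absurd h4 h6.2.2

theorem cp_eP (hg : (g.par W V).Ok) (hL : ANQ.Loc g A) (hO : LOk (g.par W V) j c N Δ Δ')
    (hF : F ∈ g.cands A (j + 1) (g.run A (j + 1) v) v)
    (h : CP g.dist (ANB.pt (((g.run A (j + 1) v).pi.rd ∪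
      (g.fin A (j + 1) (g.run A (j + 1) v) v).pi.ine : Finset T) : Set T)) a c) :
    CP g.dist (eP g A (j + 1) (g.run A (j + 1) v) (Δ' + 2 * c + 1) F v) a c := by
  refine cp_pt_mono h ?_
  intro x hx
  rw [mem_coe] at hx ⊢
  rcases mem_union.1 hx with hx | hx
  · rcases mem_union.1 hx with hx | hx
    · exact mem_union_left _ hx
    · refine mem_union_right _ ?_
      have h1 := pinv_run (g := g) (A := A) (j + 1) v
      have h2 : x ∉ (g.run A (j + 1) v).pi.act := fun h3 => Finset.disjoint_left.1 h1.AI h3 hx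
      exact ((Geo.cur_old (g := g) (A := A) (j + 1) (g.run A (j + 1) v) v
        (g.ns (j + 1)) h2).2.2.2).2 hx
  · exact mem_union_right _ (wkn_sub hg hL hO hF hx)

variable {H : Matrix T T ℂ}

/-- the sites of the surfaces and of the target surface: in the annulus, active at the start -/
theorem bdyD_start (hg : (g.par W V).Ok) (hO : LOk (g.par W V) j c N Δ Δ')
    (hcp : CP g.dist (eS (g.run A (j + 1) v)) a c) (hH : ∀ x y, H x y ≠ 0 → g.dist x y ≤ 1)
    (hF : F ∈ g.cands A (j + 1) (g.run A (j + 1) v) v) {i : ℕ} (hi : i ≤ N) {x : T}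
    (hx : x ∈ bdy H (DF g.dist (eS (g.run A (j + 1) v)) Δ F (i + 1))) :
    x ∈ (g.run A (j + 1) v).pi.act ∧ x ∈ g.nbhd (g.R (j + 1)) F \ F := by
  have hC := clu_of_cands hg hF
  have hm : NMet g.dist := hg.met
  have h1 := hC.bdyD_act (H := H) (act := (g.run A (j + 1) v).pi.act)
    (hol := (g.run A (j + 1) v).pi.rd ∪ (g.run A (j + 1) v).pi.ine) hg hcp hO hH ?_ ?_ hi hx
  · obtain ⟨h2, h3, y, hy, hyx⟩ := h1
    refine ⟨h2, mem_sdiff.2 ⟨Geo.mem_nbhd.2 ⟨y, hy, ?_⟩, fun h4 => ?_⟩⟩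
    · rw [hm.symm]
      exact hyx
    · have h5 := hC.cand x h4
      have h6 : x ∈ stat (g.run A (j + 1) v).pi := (Geo.mem_cand.1 h5).1
      exact (mem_stat.1 h6).1 h2
  · intro z hz1 hz2
    rw [mem_union, not_or] at hz2
    exact Or.inl (mem_stat.2 ⟨hz1, hz2.1, hz2.2⟩)
  · intro z hz
    exact Or.inl ⟨z, rfl, mem_coe.2 hz⟩

/-- the sites of the comparison domain -/
theorem lkP_near (hg : (g.par W V).Ok)
    (hcp : CP g.dist (eP g A (j + 1) (g.run A (j + 1) v) (Δ' + 2 * c + 1) F v) a c) {x : T}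
    (hx : x ∈ lkP g A (j + 1) (g.run A (j + 1) v) c Δ' F v) :
    ∃ y ∈ F, g.dist y x ≤ Δ' + 2 * c := P_near hg.met hcp hx

theorem bdy_lkP_near (hg : (g.par W V).Ok)
    (hcp : CP g.dist (eP g A (j + 1) (g.run A (j + 1) v) (Δ' + 2 * c + 1) F v) a c)
    (hH : ∀ x y, H x y ≠ 0 → g.dist x y ≤ 1) {x : T}
    (hx : x ∈ bdy H (lkP g A (j + 1) (g.run A (j + 1) v) c Δ' F v)) :
    ∃ y ∈ F, g.dist y x ≤ Δ' + 2 * c + 1 := bdyP_near hg.met hcp hH hx

/-- the boundary of the comparison domain is active when the cluster is tested -/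
theorem bdy_lkP_act (hg : (g.par W V).Ok) (hL : ANQ.Loc g A) (hO : LOk (g.par W V) j c N Δ Δ')
    {k : ℕ} (hk : k < (g.ilist A (j + 1) (g.run A (j + 1) v) v).length)
    (hcp : CP g.dist (eP g A (j + 1) (g.run A (j + 1) v) (Δ' + 2 * c + 1)
      ((g.ilist A (j + 1) (g.run A (j + 1) v) v)[k]) v) a c)
    (hH : ∀ x y, H x y ≠ 0 → g.dist x y ≤ 1) {x : T}
    (hx : x ∈ bdy H (lkP g A (j + 1) (g.run A (j + 1) v) c Δ'
      ((g.ilist A (j + 1) (g.run A (j + 1) v) v)[k]) v)) :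
    x ∈ (g.irun A (j + 1) k v).pi.act ∧
      ∀ y ∈ (g.ilist A (j + 1) (g.run A (j + 1) v) v)[k], g.R (j + 1) < g.dist y x := by
  set F := (g.ilist A (j + 1) (g.run A (j + 1) v) v)[k] with hFd
  have hF : F ∈ g.cands A (j + 1) (g.run A (j + 1) v) v := mem_toList.1 (List.getElem_mem hk)
  have hm : NMet g.dist := hg.met
  obtain ⟨y, hy, hyx⟩ := bdy_lkP_near hg hcp hH hx
  have hout : g.R (j + 1) + 2 ≤ Δ' := hO.outR
  have hfar : ∀ y ∈ F, g.R (j + 1) < g.dist y x := fun z hz => by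
    have := bdyP_far hm hH hx hz
    omega
  refine ⟨?_, hfar⟩
  obtain ⟨s1, s2, s3⟩ := near_F hg hO hF ⟨y, hy, hyx⟩
  have hxF : x ∉ F := fun h4 => by
    have h5 := hfar x h4
    rw [hm.self] at h5
    omega
  have hnp := bdy_DF_hole (D := eP g A (j + 1) (g.run A (j + 1) v) (Δ' + 2 * c + 1) F v) hm hH hx
  have hn1 : x ∉ (g.run A (j + 1) v).pi.rd ∪ (g.run A (j + 1) v).pi.ine ∪
      wkn g A (j + 1) (g.run A (j + 1) v) (Δ' + 2 * c + 1) F v := fun h4 =>
    hnp x ⟨rfl, mem_coe.2 h4⟩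
  rw [mem_union, mem_union, not_or, not_or] at hn1
  have hact : x ∈ (g.run A (j + 1) v).pi.act := by
    by_contra h4
    exact hxF (s1 (mem_stat.2 ⟨h4, hn1.1.1, hn1.1.2⟩))
  have hfin : x ∈ (g.fin A (j + 1) (g.run A (j + 1) v) v).pi.act := by
    rcases fin_ine_iff hg.idem hL (j + 1) v hact s2 with h6 | h6
    · refine absurd (mem_wkn.2 ⟨hact, Geo.mem_nbhd.2 ⟨y, hy, ?_⟩, ?_, h6.2.2⟩) hn1.2
      · rw [hm.symm]
        exact hyx
      · intro h7
        obtain ⟨z, hz, hxz⟩ := Geo.mem_nbhd.1 h7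
        have h8 := hfar z hz
        rw [hm.symm] at h8
        omega
    · exact h6.1
  have hrho : Δ' + 2 * c + 1 + g.R (j + 1) ≤ g.rho (j + 1) := hO.rho
  have h9 := (Geo.near_icur (g := g) (A := A) hm.symm hm.tri (x := x) (y := y) hk hy (by
    rw [hm.symm]
    omega)).1
  exact h9.2 hfin

/-- the comparison domain of a tested cluster: no static site off `F`, no frozen cell, off the annuli of the others -/
theorem lkP_status (hg : (g.par W V).Ok) (hO : LOk (g.par W V) j c N Δ Δ')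
    (hF : F ∈ g.cands A (j + 1) (g.run A (j + 1) v) v)
    (hcp : CP g.dist (eP g A (j + 1) (g.run A (j + 1) v) (Δ' + 2 * c + 1) F v) a c) {x : T}
    (hx : x ∈ lkP g A (j + 1) (g.run A (j + 1) v) c Δ' F v)
    (hx0 : x ∉ (lkE g (g.run A (j + 1) v) N Δ F).D0) :
    (x ∈ (g.run A (j + 1) v).pi.act ∨ x ∈ (g.run A (j + 1) v).pi.rd ∨
      x ∈ (g.run A (j + 1) v).pi.ine) ∧
      g.cor (j + 1) x ∉ (g.fin A (j + 1) (g.run A (j + 1) v) v).fz ∧
      ∀ F' ∈ g.cands A (j + 1) (g.run A (j + 1) v) v, F' ≠ F →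
        x ∉ g.nbhd (g.R (j + 1)) F' := by
  obtain ⟨y, hy, hyx⟩ := lkP_near hg hcp hx
  obtain ⟨s1, s2, s3⟩ := near_F hg hO hF (x := x) ⟨y, hy, by omega⟩
  have hxF : x ∉ F := fun h => hx0 (subset_DF hg.met Δ F 0 h)
  refine ⟨?_, s2, ?_⟩
  · by_contra hcon
    push Not at hcon
    exact hxF (s1 (mem_stat.2 ⟨hcon.1, hcon.2.1, hcon.2.2⟩))
  · intro F' hF' hne h1
    obtain ⟨z, hz, hxz⟩ := Geo.mem_nbhd.1 h1
    have hzs : z ∈ stat (g.run A (j + 1) v).pi := Geo.cand_sub hF' hz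
    have hzF : z ∉ F := fun h2 => hne ((Geo.cands_eq hg.met.symm hF' hz).trans
      (Geo.cands_eq hg.met.symm hF h2).symm)
    have := s3 z hzs hzF
    omega

/-- comparison domains of different clusters are disjoint -/
theorem lkP_disj (hg : (g.par W V).Ok) (hr : 2 * (Δ' + 2 * c) ≤ g.rho (j + 1)) {F' : Finset T}
    (hF : F ∈ g.cands A (j + 1) (g.run A (j + 1) v) v)
    (hF' : F' ∈ g.cands A (j + 1) (g.run A (j + 1) v) v) (hne : F ≠ F')
    (hcp : CP g.dist (eP g A (j + 1) (g.run A (j + 1) v) (Δ' + 2 * c + 1) F v) a c)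
    (hcp' : CP g.dist (eP g A (j + 1) (g.run A (j + 1) v) (Δ' + 2 * c + 1) F' v) a c) :
    Disjoint (lkP g A (j + 1) (g.run A (j + 1) v) c Δ' F v)
      (lkP g A (j + 1) (g.run A (j + 1) v) c Δ' F' v) := by
  rw [Finset.disjoint_left]
  intro x hx hx'
  obtain ⟨y, hy, h1⟩ := lkP_near hg hcp hx
  obtain ⟨y', hy', h2⟩ := lkP_near hg hcp' hx'
  have hm : NMet g.dist := hg.met
  have h3 := Geo.cands_far hm.symm hF hF' hne hy hy'
  have h4 := hm.tri y x y'
  have h5 := hm.symm x y'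
  omega

/-- the comparison domain depends only on the configuration off the surfaces -/
theorem lkP_congr {S : ANQ.St T} {v v' : T → X} {s : Set T}
    (hs : ∀ x ∈ s, x ∈ g.nbhd (g.R j) F ∨ x ∉ g.nbhd (Δ' + 2 * c + 1) F)
    (hv : ∀ x, x ∉ s → v x = v' x) :
    lkP g A j S c Δ' F v = lkP g A j S c Δ' F v' := by
  have h1 : wkn g A j S (Δ' + 2 * c + 1) F v = wkn g A j S (Δ' + 2 * c + 1) F v' := by
    ext x
    rw [mem_wkn, mem_wkn]
    by_cases hx : x ∈ s
    · rcases hs x hx with h | h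
      · exact ⟨fun h1 => absurd h h1.2.2.1, fun h1 => absurd h h1.2.2.1⟩
      · exact ⟨fun h1 => absurd h1.2.1 h, fun h1 => absurd h1.2.1 h⟩
    · rw [hv x hx]
  unfold lkP eP
  rw [h1]

/-! ### facts about the clusters of the state at the start -/

/-- different clusters are far apart -/
theorem clu_far (hm : NMet g.dist) {i : ℕ} {S : ANQ.St T} {x y z z' : T}
    (hne : g.clu i S x ≠ g.clu i S y) (hz : z ∈ g.clu i S x) (hz' : z' ∈ g.clu i S y) :
    g.rho i < g.dist z z' := by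
  by_contra hcon
  push Not at hcon
  apply hne
  have h1 := Geo.mem_clu.1 hz
  have h2 := Geo.mem_clu.1 hz'
  have h3 : g.Con (g.rho i) (stat S.pi) z z' := Relation.ReflTransGen.single ⟨h1.1, h2.1, hcon⟩
  have h4 : g.Con (g.rho i) (stat S.pi) x y :=
    (h1.2.trans h3).trans (Geo.con_symm hm.symm h2.2)
  exact (Geo.clu_eq hm.symm h4).symm

/-- the sites of the surfaces: in the annulus, active -/
theorem bdyD_clu (hm : NMet g.dist) {i c N Δ a k : ℕ} {S : ANQ.St T} {x0 : T}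
    (hcp : CP g.dist (eS S) a c) (hH : ∀ x y, H x y ≠ 0 → g.dist x y ≤ 1) (hΔ : 2 ≤ Δ)
    (hR : (N + 1) * (Δ + c) + c + 1 ≤ g.R i) (hrho : g.R i ≤ g.rho i) (hk : k ≤ N) {x : T}
    (hx : x ∈ bdy H (DF g.dist (eS S) Δ (g.clu i S x0) (k + 1))) :
    x ∈ S.pi.act ∧ x ∈ g.nbhd (g.R i) (g.clu i S x0) \ g.clu i S x0 := by
  obtain ⟨y, hy, hyx⟩ := bdyD_near hm hcp hH (show k + 1 ≤ N + 1 by omega) hx
  have hxF : x ∉ g.clu i S x0 := fun h4 => by
    have h5 := bdyD_far hm hH hx h4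
    rw [hm.self] at h5
    omega
  have hnb : x ∈ g.nbhd (g.R i) (g.clu i S x0) := Geo.mem_nbhd.2 ⟨y, hy, by
    rw [hm.symm]
    omega⟩
  refine ⟨?_, mem_sdiff.2 ⟨hnb, hxF⟩⟩
  have hnp : x ∉ S.pi.rd ∪ S.pi.ine := fun h4 =>
    bdy_DF_hole (D := eS S) hm hH hx x ⟨rfl, mem_coe.2 h4⟩
  rw [mem_union, not_or] at hnp
  by_contra h4
  apply hxF
  have hst : x ∈ stat S.pi := mem_stat.2 ⟨h4, hnp.1, hnp.2⟩
  have h1 := Geo.mem_clu.1 hy
  exact Geo.mem_clu.2 ⟨hst, h1.2.tail ⟨h1.1, hst, by omega⟩⟩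

/-- chain property for read and inert sites from a family with the inert sites as single pieces -/
theorem cp_rd_ine {κ : Type*} {D : κ → Set T} {U I : Finset T}
    (h : CP g.dist (Sum.elim (ANB.pt (I : Set T)) D) a c) (hU : ∀ x ∈ U, ∃ k, x ∈ D k) :
    CP g.dist (ANB.pt ((U ∪ I : Finset T) : Set T)) a c := by
  refine cp_pt h fun x hx => ?_
  rw [mem_coe] at hx
  rcases mem_union.1 hx with h1 | h1
  · obtain ⟨k, hk⟩ := hU x h1
    exact ⟨Sum.inr k, hk⟩
  · exact ⟨Sum.inl x, rfl, mem_coe.2 h1⟩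

/-- no inert sites -/
theorem cp_rd {κ : Type*} {D : κ → Set T} {U : Finset T}
    (h : CP g.dist D a c) (hU : ∀ x ∈ U, ∃ k, x ∈ D k) :
    CP g.dist (ANB.pt (U : Set T)) a c := cp_pt h fun x hx => hU x (mem_coe.1 hx)

end near

end Pool.Agent.AND
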