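import Pool.Agent.AND.PieceGeo
import Pool.Agent.AND.LeakGeo
import Pool.Agent.AND.CpGlue
import Pool.Agent.AND.InAt
import Pool.Agent.ANI.InsPre
import Pool.Agent.ANQ.Mult

/-!
# AND / InsGeo: the process facts for the insertion theorem

`F` the cluster which is tested at the time `k` of super-stage `j + 1`, `π` the current profile, `U = nbhd R F`,
`S = (U \ F) \ π.rd` the sites of the annulus which were not read before.

* `ins_stat`, `ins_ann`: the sites of `F` are static, the sites of `S` are active (level `lv (j + 2)`) or inert;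
* `ins_rp1`, `ins_rp2`, `read_read`: the two readings as `ReadP`;
* `ins_wts`: `ANI.Wts` with single points;
* `ins_cgeo`: `ANI.CGeo` for the pieces of `F` (`Pcs`), `ins_bdy`: their boundaries are in the target surface;
* `ins_ctr`: a centre of `F` near the anchor; `cands_mult`: multiplicity of the anchors;
* `insD_insert`: the fields after one more insertion.
-/

set_option autoImplicit false
set_option linter.unusedSectionVars false

open Finset

noncomputable section

namespace Pool.Agent.AND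

open Pool.Agent.Kin Pool.Agent.APS Pool.Agent.ANL Pool.Agent.ANM Pool.Agent.ANQ Pool.Agent.ANB
open Pool.Agent.ANI (ReadP Wts dB)

/-! ### the sites near the cluster -/

section gen

variable {T X : Type} [Fintype T] [DecidableEq T]

/-- reading in two steps -/
theorem read_read (π : Prof T) (nf : ℕ) {U F : Finset T} (hF : F ⊆ U) :
    ANQ.read (ANQ.read π nf (U \ F)) nf F = ANQ.read π nf U := by
  unfold ANQ.read
  congr 1
  · funext x
    by_cases h1 : x ∈ F
    · simp [h1, hF h1]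
    · by_cases h2 : x ∈ U <;> simp [h1, h2]
  · ext x
    simp only [mem_sdiff, not_and, not_not]
    constructor
    · rintro ⟨⟨h1, h2⟩, h3⟩
      exact ⟨h1, fun h => h3 (h2 h)⟩
    · rintro ⟨h1, h2⟩
      exact ⟨⟨h1, fun h => absurd h h2⟩, fun h => h2 (hF h)⟩
  · ext x
    simp only [mem_union, mem_sdiff]
    constructor
    · rintro ((h | h) | h)
      · exact Or.inl h
      · exact Or.inr h.1
      · exact Or.inr (hF h)
    · rintro (h | h)
      · exact Or.inl (Or.inl h)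
      · by_cases h1 : x ∈ F
        · exact Or.inr h1
        · exact Or.inl (Or.inr ⟨h, h1⟩)
  · ext x
    simp only [mem_sdiff, not_and, not_not]
    constructor
    · rintro ⟨⟨h1, h2⟩, h3⟩
      exact ⟨h1, fun h => h3 (h2 h)⟩
    · rintro ⟨h1, h2⟩
      exact ⟨⟨h1, fun h => absurd h h2⟩, fun h => h2 (hF h)⟩
  · funext x
    by_cases h1 : x ∈ F
    · simp [h1, hF h1]
    · by_cases h2 : x ∈ U <;> simp [h1, h2]

variable [Nonempty T] [Fintype X] [DecidableEq X]
variable {g : ANQ.Geo T} {A : ANQ.Ana T X} {j k : ℕ} {v : T → X} {F : Finset T}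

theorem il_mem {i : ℕ} (hk : k < (g.ilist A i (g.run A i v) v).length)
    (hFe : F = (g.ilist A i (g.run A i v) v)[k]) : F ∈ g.cands A i (g.run A i v) v := by
  rw [hFe]
  exact mem_toList.1 (List.getElem_mem hk)

/-- the sites of the cluster are static when it is tested -/
theorem ins_stat (hm : NMet g.dist) {i : ℕ} (hk : k < (g.ilist A i (g.run A i v) v).length)
    (hFe : F = (g.ilist A i (g.run A i v) v)[k]) (hr : g.R i ≤ g.rho i) {x : T} (hx : x ∈ F) :
    x ∉ (g.irun A i k v).pi.act ∧ x ∉ (g.irun A i k v).pi.rd ∧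
      x ∉ (g.irun A i k v).pi.ine := by
  have hF := il_mem hk hFe
  have h1 : x ∈ stat (g.run A i v).pi := Geo.cand_sub hF hx
  obtain ⟨h2, h3, h4⟩ := mem_stat.1 h1
  obtain ⟨i1, i2, i3, -, -⟩ := Geo.near_icur (g := g) (A := A) hm.symm hm.tri (x := x) (y := x) hk
    (hFe ▸ hx) (by rw [hm.self]; omega)
  obtain ⟨c1, -, -, c4⟩ := Geo.cur_old (g := g) (A := A) i (g.run A i v) v (g.ns i) h2
  refine ⟨fun h => ?_, fun h => ?_, fun h => ?_⟩
  · exact c1 (i1.1 h)
  · exact h3 (i2.1 h)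
  · exact h4 (c4.1 (i3.1 h))

/-- the sites of the annulus which were not read are active or inert -/
theorem ins_ann (hc : ∀ j x, g.cor j (g.cor j x) = g.cor j x) (hL : ANQ.Loc g A)
    (hm : NMet g.dist) {i : ℕ} (hk : k < (g.ilist A i (g.run A i v) v).length)
    (hFe : F = (g.ilist A i (g.run A i v) v)[k]) (hD : g.R i ≤ g.D i) (hr : 2 * g.R i ≤ g.rho i)
    {x : T} (hx : x ∈ g.nbhd (g.R i) F) (hxF : x ∉ F) (hxr : x ∉ (g.irun A i k v).pi.rd) :
    (x ∈ (g.irun A i k v).pi.act ∧ (g.irun A i k v).pi.lev x = g.lv (i + 1)) ∨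
      x ∈ (g.irun A i k v).pi.ine := by
  obtain ⟨y, hy, hxy⟩ := Geo.mem_nbhd.1 hx
  have h1 : g.dist x y + g.R i ≤ g.rho i := by omega
  have h2 := Geo.near_cases hc hL.lv_mono hm.symm hm.tri (Geo.run_lev hc hL i v) hk (hFe ▸ hy)
    (hxy.trans hD) h1
  rcases h2 with h2 | h2 | h2 | h2
  · exact absurd (hFe ▸ h2) hxF
  · exact Or.inl h2
  · exact Or.inr h2
  · refine absurd ?_ hxr
    exact (Geo.near_icur (g := g) (A := A) hm.symm hm.tri hk (hFe ▸ hy) h1).2.1.2 h2

/-- at most `J` tested clusters have the same anchor -/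
theorem cands_mult (W : ℕ → ℕ) (V : ℕ) (hg : (g.par W V).Ok) (j : ℕ)
    (hr : ∀ i, j = i + 1 → 2 * (W i + g.sep i) ≤ g.rho (i + 1)) (v : T → X)
    (fm : Finset (Finset T)) (hsub : ∀ C ∈ fm, C ∈ g.cands A j (g.run A j v) v)
    (an : Finset T → T) (han : ∀ C : Finset T, C.Nonempty → ∃ y ∈ C, an C = g.cor j y) (c : T) :
    (fm.filter fun C => an C = c).card ≤ g.J := by
  classical
  have hm := hg.met
  have hs : ∀ x y, g.dist x y = g.dist y x := hm.symm
  have hd : ∀ x, g.dist x x = 0 := hm.self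
  have hc : ∀ j x, g.cor j (g.cor j x) = g.cor j x := hg.idem
  set F := fm.filter fun C => an C = c with hF
  by_cases hne : F.Nonempty
  swap
  · rw [not_nonempty_iff_eq_empty.1 hne, card_empty]
    exact Nat.zero_le _
  obtain ⟨C0, hC0⟩ := hne
  obtain ⟨h1, h2⟩ := mem_filter.1 hC0
  obtain ⟨y0, hy0, e0⟩ := han C0 (Geo.cands_ne (hsub C0 h1))
  have hy0c : y0 ∈ g.cand A j (g.run A j v) v := (Geo.mem_cand_iff hs).2 ⟨C0, hsub C0 h1, hy0⟩
  set H := g.hist A hc hd hs W V v with hH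
  cases j with
  | zero =>
    have h3 : y0 ∈ H.st 0 := (Geo.mem_cand.1 hy0c).1
    rw [H.st0] at h3
    exact absurd h3 (notMem_empty y0)
  | succ i =>
    have hy0H : y0 ∈ H.cand (i + 1) := hy0c
    obtain ⟨B, -, hB, hcov⟩ := H.few hg i (H.cand_fz hg hy0H)
    have key : ∀ C ∈ F, ∃ y ∈ C, ∃ b ∈ B, g.dist y b ≤ W i + g.sep i := by
      intro C hC
      obtain ⟨h3, h4⟩ := mem_filter.1 hC
      obtain ⟨y, hy, e⟩ := han C (Geo.cands_ne (hsub C h3))
      have hyc : y ∈ H.cand (i + 1) := (Geo.mem_cand_iff hs).2 ⟨C, hsub C h3, hy⟩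
      have a1 : g.dist y0 (g.cor (i + 1) y0) ≤ g.side (i + 1) := hg.cor_le (i + 1) y0
      have a2 : g.dist y (g.cor (i + 1) y) ≤ g.side (i + 1) := hg.cor_le (i + 1) y
      have a3 : g.cor (i + 1) y0 = g.cor (i + 1) y := by rw [← e0, ← e, h2, h4]
      rw [a3] at a1
      rw [hs] at a2
      have a4 : g.dist y0 y ≤ g.dist y0 (g.cor (i + 1) y) + g.dist (g.cor (i + 1) y) y :=
        hm.tri y0 (g.cor (i + 1) y) y
      have a5 : g.dist y0 y ≤ 4 * g.side (i + 1) := by omega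
      obtain ⟨b, hb, hyb⟩ := hcov y (H.cst _ hyc) a5
      exact ⟨y, hy, b, hb, hyb⟩
    choose! y hy b hb hyb using key
    have hinj : Set.InjOn b (F : Set (Finset T)) := by
      intro C hC C' hC' e
      by_contra hne
      have h3 := Geo.cands_far hs (hsub C (mem_filter.1 (mem_coe.1 hC)).1)
        (hsub C' (mem_filter.1 (mem_coe.1 hC')).1) hne (hy C (mem_coe.1 hC)) (hy C' (mem_coe.1 hC'))
      have a1 := hyb C (mem_coe.1 hC)
      have a2 := hyb C' (mem_coe.1 hC')
      rw [← e, hs] at a2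
      have a3 : g.dist (y C) (y C') ≤ g.dist (y C) (b C) + g.dist (b C) (y C') :=
        hm.tri (y C) (b C) (y C')
      have a4 := hr i rfl
      omega
    have h3 : F.card ≤ B.card :=
      card_le_card_of_injOn b (fun C hC => hb C hC) hinj
    exact h3.trans (le_of_lt hB)

end gen

/-! ### the torus -/

section tor

variable {d L : ℕ} [NeZero L] {X : Type} [Fintype X] [DecidableEq X]
variable {g : ANQ.Geo (Tor d L)} {A : ANQ.Ana (Tor d L) X} {W : ℕ → ℕ} {V : ℕ}
  {K : Tor d L → Finset X} {r : ℕ → ℕ} {j k : ℕ} {v : Tor d L → X} {F : Finset (Tor d L)}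

/-- the annulus is read -/
theorem ins_rp1 (i k : ℕ) (v : Tor d L → X) (U : Finset (Tor d L)) :
    ReadP (g.irun A i k v).pi (ANQ.read (g.irun A i k v).pi g.nf U)
      (U \ (g.irun A i k v).pi.rd) := by
  have h := pinv_irun (g := g) (A := A) i k v
  exact ANI.readP_read h.rl h.AU h.UI.symm

/-- the levels of the read sites -/
theorem ins_lv1 (i k : ℕ) (v : Tor d L → X) (U : Finset (Tor d L)) :
    ∀ x ∈ (ANQ.read (g.irun A i k v).pi g.nf U).rd,
      (ANQ.read (g.irun A i k v).pi g.nf U).lev x = g.nf :=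
  ((pinv_irun (g := g) (A := A) i k v).read U).rl

/-- the content is not read with the annulus -/
theorem ins_Fr (hm : NMet g.dist) {i : ℕ} (hk : k < (g.ilist A i (g.run A i v) v).length)
    (hFe : F = (g.ilist A i (g.run A i v) v)[k]) (hr : g.R i ≤ g.rho i)
    (U : Finset (Tor d L)) :
    Disjoint F (ANQ.read (g.irun A i k v).pi g.nf (U \ F)).rd := by
  rw [Finset.disjoint_left]
  intro x hx h
  have h1 : x ∈ (g.irun A i k v).pi.rd ∪ (U \ F) := h
  rcases mem_union.1 h1 with h2 | h2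
  · exact (ins_stat hm hk hFe hr hx).2.1 h2
  · exact (mem_sdiff.1 h2).2 hx

/-- the content is read -/
theorem ins_rp2 (hm : NMet g.dist) {i : ℕ} (hk : k < (g.ilist A i (g.run A i v) v).length)
    (hFe : F = (g.ilist A i (g.run A i v) v)[k]) (hr : g.R i ≤ g.rho i)
    {U : Finset (Tor d L)} (hU : F ⊆ U) :
    ReadP (ANQ.read (g.irun A i k v).pi g.nf (U \ F)) (ANQ.read (g.irun A i k v).pi g.nf U) F := by
  have h := (pinv_irun (g := g) (A := A) i k v).read (U \ F)
  have h1 := ANI.readP_read (U := F) h.rl h.AU h.UI.symm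
  rwa [read_read _ _ hU, sdiff_eq_self_of_disjoint (ins_Fr hm hk hFe hr U)] at h1

/-- the pieces of the weights: single points -/
def insD (g : ANQ.Geo (Tor d L)) (A : ANQ.Ana (Tor d L) X) (i k : ℕ) (v : Tor d L → X)
    (F : Finset (Tor d L)) : Tor d L → Set (Tor d L) :=
  ANB.pt {x | x ∈ (g.irun A i k v).pi.rd ∨ x ∈ (g.irun A i k v).pi.ine ∨
    x ∈ g.nbhd (g.R i) F}

theorem ins_cp (hG : CGeo g W V) (hgd : g.dist = td) (hP : PercIn g A K r) {i : ℕ}
    (hF : F ∈ g.cands A i (g.run A i v) v) :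
    CP (td : Tor d L → Tor d L → ℕ) (insD g A i k v F) 4 (cK g W V i (r i)) := by
  have h1 := cp_irun' (A := A) hG hP i k v (S := {x | x ∈ (g.irun A i k v).pi.rd ∨
    x ∈ (g.irun A i k v).pi.ine ∨ x ∈ g.nbhd (g.R i) F}) (by
      rintro x (hx | hx | hx)
      · exact Or.inl hx
      · exact Or.inr (Or.inl hx)
      · obtain ⟨y, hy, hxy⟩ := Geo.mem_nbhd.1 hx
        exact Or.inr (Or.inr (Geo.mem_nbhd.2
          ⟨y, (Geo.mem_cand_iff hG.met.symm).2 ⟨F, hF, hy⟩, hxy⟩)))
  rw [hgd] at h1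
  exact h1

/-- THE WEIGHTS for the readings near a tested cluster -/
theorem ins_wts (hG : CGeo g W V) (hgd : g.dist = td) (hP : PercIn g A K r) {i : ℕ}
    (hF : F ∈ g.cands A i (g.run A i v) v) {f : Fix} {t : Tol d L} {M : Med (Tor d L)}
    {B : Finset (Tor d L)} {μ : ℝ} {cw : ℕ} (hcw : cK g W V i (r i) ≤ cw)
    (hU : ∀ x ∈ M.U, x ∈ (g.irun A i k v).pi.rd ∨ x ∈ g.nbhd (g.R i) F)
    (hI : ∀ x ∈ M.I, x ∈ (g.irun A i k v).pi.ine) (hB : ∀ x ∈ B, x ∈ g.nbhd (g.R i) F)
    (h0 : 0 < μ) (h1 : μ ≤ 1) (h2 : 8 * d * μ ≤ t.kl * f.c1) (h3 : 8 * d * μ ≤ t.st) :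
    Wts f t M B (insD g A i k v F) 4 cw μ where
  cp := (ins_cp hG hgd hP hF).mono le_rfl hcw
  U x hx := ⟨x, rfl, by
    rcases hU x hx with h | h
    · exact Or.inl h
    · exact Or.inr (Or.inr h)⟩
  I x hx := ⟨x, rfl, Or.inr (Or.inl (hI x hx))⟩
  B x hx := ⟨x, rfl, Or.inr (Or.inr (hB x hx))⟩
  a1 := by norm_num
  μ0 := h0
  μ1 := h1
  m1 := h2
  m2 := h3

/-! ### the blobs -/

/-- the domain of the piece `i` -/
def insDb (g : ANQ.Geo (Tor d L)) (A : ANQ.Ana (Tor d L) X) (j : ℕ) (v : Tor d L → X) (N Δ : ℕ)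
    (Fp : ℕ → Finset (Tor d L)) (i : ℕ) : Finset (Tor d L) :=
  DF g.dist (eS (g.run A (j + 1) v)) Δ (Fp i) (N + 1)

variable {c0 N Δ Δ' a : ℕ} {m l D0 : ℕ} {Fp : ℕ → Finset (Tor d L)}

/-- the boundaries of the domains of the pieces are in the target surface -/
theorem ins_bdy (hm : NMet g.dist) (hgd : g.dist = td)
    (hcp : CP g.dist (eS (g.run A (j + 1) v)) a c0) (hp : Pcs g.dist F l D0 m Fp)
    (hl : 2 * ((N + 1) * (Δ + c0) + c0) + 1 ≤ l) {i : ℕ} (hi : i < m) :
    bdy (H0T d L) (insDb g A j v N Δ Fp i) ⊆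
      bdy (H0T d L) (lkE g (g.run A (j + 1) v) N Δ F).Dt := by
  refine hp.bdy_sub hm hcp (fun x y hxy => ?_) hl hi
  rw [hgd]
  exact H0T_near hxy

/-- THE GEOMETRY OF THE BLOBS -/
theorem ins_cgeo (hg : (g.par W V).Ok) (hgd : g.dist = td)
    (hO : LOk (g.par W V) j c0 N Δ Δ') (hcp : CP g.dist (eS (g.run A (j + 1) v)) a c0)
    (hk : k < (g.ilist A (j + 1) (g.run A (j + 1) v) v).length)
    (hFe : F = (g.ilist A (j + 1) (g.run A (j + 1) v) v)[k]) (hp : Pcs g.dist F l D0 m Fp)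
    (hl : 2 * ((N + 1) * (Δ + c0) + c0) + 1 ≤ l) {M M1 : Med (Tor d L)}
    (hMU : M.U = (g.irun A (j + 1) k v).pi.rd)
    (hM1 : M1.U = (g.irun A (j + 1) k v).pi.rd ∪ (g.nbhd (g.R (j + 1)) F \ F)) {r1 D1 nb : ℕ}
    (hr1 : r1 + 2 * ((N + 1) * (Δ + c0) + c0 + 1) ≤ l + 1)
    (hr2 : r1 + ((N + 1) * (Δ + c0) + c0 + 1) ≤ g.R (j + 1) + 1)
    (hD1 : D0 + 2 * ((N + 1) * (Δ + c0) + c0 + 1) ≤ D1)
    (hnb : F.card * (2 * ((N + 1) * (Δ + c0) + c0 + 1) + 1) ^ d ≤ nb) :
    ANI.CGeo M1 F M.nr m Fp (insDb g A j v N Δ Fp) r1 D1 nb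
      (((N + 1) * (Δ + c0) + c0 + 1 : ℕ) : ℝ) := by
  have hm : NMet g.dist := hg.met
  have hF := il_mem hk hFe
  have hHd : ∀ x y : Tor d L, H0T d L x y ≠ 0 → g.dist x y ≤ 1 := by
    intro x y hxy
    rw [hgd]
    exact H0T_near hxy
  have hdT : ∀ x y : Tor d L, g.dist x y = ANP.dT x y := by
    intro x y
    rw [hgd, dT_eq_td]
  have hinR : (N + 1) * (Δ + c0) + c0 + 1 ≤ g.R (j + 1) := hO.inR
  have houtR : g.R (j + 1) + 2 ≤ Δ' := hO.outR
  have hrho : Δ' + 2 * c0 + 1 + g.R (j + 1) ≤ g.rho (j + 1) := hO.rho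
  -- boundary sites are near the piece
  have hnear : ∀ i, ∀ z ∈ bdy (H0T d L) (insDb g A j v N Δ Fp i),
      ∃ y ∈ Fp i, g.dist y z ≤ (N + 1) * (Δ + c0) + c0 + 1 := fun i z hz =>
    bdyD_near hm hcp hHd le_rfl hz
  have hsub : ∀ i < m, ∀ z ∈ bdy (H0T d L) (insDb g A j v N Δ Fp i),
      z ∈ bdy (H0T d L) (DF g.dist (eS (g.run A (j + 1) v)) Δ F (N + 1)) := fun i hi z hz =>
    hp.bdy_sub hm hcp hHd hl hi hz
  exact {
    un := hp.un
    FD := fun i _ => Pcs.FD hm Δ (N + 1) i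
    DX := by
      intro i hi x hx
      by_cases hxF : x ∈ F
      · exact Or.inr hxF
      · left
        rw [hM1]
        obtain ⟨y, hy, h1⟩ := D_near hm hcp (show N + 1 ≤ N + 1 from le_rfl) hx
        refine mem_union_right _ (mem_sdiff.2 ⟨Geo.mem_nbhd.2 ⟨y, hp.sub hi hy, ?_⟩, hxF⟩)
        rw [hm.symm]
        omega
    sep := by
      intro i hi k hk' hik
      rw [Finset.disjoint_left]
      intro x hx
      exact hp.bdy_notMem hm hcp hHd hl le_rfl le_rfl hk' hi (Ne.symm hik) hx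
    bV := by
      intro i hi z hz
      rw [mem_nr, hMU]
      obtain ⟨h1, h2⟩ := bdyD_start hg hO hcp hHd hF (le_refl N) (hsub i hi z hz)
      intro h3
      obtain ⟨y, hy, hxy⟩ := Geo.mem_nbhd.1 (mem_sdiff.1 h2).1
      have h4 := (Geo.near_icur (g := g) (A := A) hm.symm hm.tri (x := z) (y := y) hk
        (hFe ▸ hy) (by omega)).2.1.1 h3
      exact Finset.disjoint_left.1 (pinv_run (g := g) (A := A) (j + 1) v).AU h1 h4
    XV := by
      intro x hx
      have h1 := mem_nr.1 (mem_sdiff.1 hx).1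
      rw [hM1, mem_union, not_or] at h1
      rw [mem_nr, hMU]
      exact h1.1
    dX := by
      intro i hi x hx z hz
      obtain ⟨h0, hxF⟩ := mem_sdiff.1 hx
      have h1 := mem_nr.1 h0
      rw [hM1, mem_union, not_or] at h1
      obtain ⟨y, hy, hyz⟩ := hnear i z hz
      have h2 : g.R (j + 1) < g.dist x y := by
        by_contra hc
        exact h1.2 (mem_sdiff.2 ⟨Geo.mem_nbhd.2 ⟨y, hp.sub hi hy, not_lt.1 hc⟩, hxF⟩)
      have h3 := hm.tri x z y
      have h4 := hm.symm z y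
      rw [← hdT]
      omega
    db := by
      intro i hi k hk' hik x hx z hz
      obtain ⟨y, hy, hyz⟩ := hnear i z hz
      obtain ⟨w, hw, hwx⟩ := hnear k x hx
      have h1 := hp.far k hk' i hi (Ne.symm hik) w hw y hy
      have h2 := hm.tri w x y
      have h3 := hm.tri x z y
      have h4 := hm.symm z y
      rw [← hdT]
      omega
    dia := by
      intro i hi z hz z' hz'
      rw [← hdT]
      exact (hp.bdy_diam hm hcp hHd hi hz hz').trans hD1
    card := by
      intro i hi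
      refine le_trans ?_ hnb
      have h1 := Pcs.bdy_card (Fp := Fp) (i := i) (Δ := Δ) (n := N + 1) hm hcp hHd
        (V := (2 * ((N + 1) * (Δ + c0) + c0 + 1) + 1) ^ d) (fun x => by
          rw [hgd]
          exact card_ball x _)
      exact h1.trans (Nat.mul_le_mul_right _ (card_le_card (hp.sub hi)))
    near := by
      intro i hi z hz
      obtain ⟨y, hy, hyz⟩ := hnear i z hz
      refine (ANI.dB_le (hp.sub hi hy) z).trans ?_
      rw [← hdT]
      rw [hm.symm] at hyz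
      exact_mod_cast hyz }

/-! ### the centre -/

/-- a centre of `F` near the anchor -/
theorem ins_ctr (hg : (g.par W V).Ok) (hgd : g.dist = td) {D : Dat d L X} (hDg : D.g = g)
    (hF : F ∈ g.cands A (j + 1) (g.run A (j + 1) v) v) :
    ∃ c ∈ F, ANP.dT c (D.an (j + 1) F) ≤ g.side (j + 1) ∧
      ∀ z ∈ g.nbhd (g.R (j + 1)) F, ANP.dT z c ≤ (g.par W V).CD j + g.R (j + 1) := by
  have hC := clu_of_cands hg hF
  have hm : NMet g.dist := hg.met
  have hdT : ∀ x y : Tor d L, ANP.dT x y = g.dist x y := by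
    intro x y
    rw [hgd, dT_eq_td]
  refine ⟨hC.ne.choose, hC.ne.choose_spec, ?_, ?_⟩
  · unfold Dat.an
    rw [dif_pos hC.ne, hDg, hdT]
    exact hg.cor_le (j + 1) _
  · intro z hz
    obtain ⟨y, hy, hzy⟩ := Geo.mem_nbhd.1 hz
    have h1 : g.dist y hC.ne.choose ≤ (g.par W V).CD j := hC.diam hg hy hC.ne.choose_spec
    have h2 := hm.tri z y hC.ne.choose
    rw [hdT]
    omega

end tor

/-! ### the fields -/

section fld

variable {d L : ℕ}

theorem insD_insert (P : Par) (n s : ℕ) (F0 : Fld (Tor d L))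
    (an : Finset (Tor d L) → Tor d L) (don : Finset (Finset (Tor d L))) {F : Finset (Tor d L)}
    (hF : F ∉ don) :
    F0.insD P n s an (insert F don) = (F0.insD P n s an don).ins P n s 1 {an F} := by
  unfold Fld.insD Fld.ins
  simp only [Finset.sum_insert hF, Finset.sum_singleton, Nat.cast_one, one_mul]
  congr 1
  · funext x
    ring
  · funext x
    ring
  · funext x
    ring
  · funext x
    ring
  · funext x y
    ring

end fld

end Pool.Agent.AND
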