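import Pool.Agent.ANQ.Markov

/-! # AND NWK: active sites are not weak at their level

`NWk A π v`; `nwk_run`, `nwk_cur`, `nwk_icur` : at every time of the algorithm. -/

set_option autoImplicit false
set_option linter.unusedSectionVars false

open Finset

namespace Pool.Agent.AND

open Pool.Agent.ANQ

variable {T X : Type} [Fintype T] [DecidableEq T]

theorem mem_weakN {A : ANQ.Ana T X} {n : ℕ} {v : T → X} {B : Finset T} {x : T} :
    x ∈ ANQ.weak A n v B ↔ x ∈ B ∧ A.wk n (v x) := by
  classical
  unfold ANQ.weak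
  simp

/-- active sites are not weak at their level -/
def NWk (A : ANQ.Ana T X) (π : Prof T) (v : T → X) : Prop :=
  ∀ x ∈ π.act, ¬ A.wk (π.lev x) (v x)

section nwk

variable [Fintype X] [DecidableEq X] {g : ANQ.Geo T} {A : ANQ.Ana T X}

theorem NWk.freeze {π : Prof T} {v : T → X} (h : NWk A π v) (N : Finset T) :
    NWk A (ANQ.freeze A π v N) v := fun x hx => h x (mem_inter.1 hx).1

theorem NWk.raise {π : Prof T} {v : T → X} (h : NWk A π v) (n : ℕ) (B : Finset T) :
    NWk A (ANQ.raise A π n B v) v := by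
  classical
  intro x hx
  have h1 : x ∈ π.act \ ANQ.weak A n v (π.act ∩ B) := hx
  obtain ⟨h2, h3⟩ := mem_sdiff.1 h1
  change ¬ A.wk (if x ∈ π.act ∩ B then n else π.lev x) (v x)
  by_cases h4 : x ∈ π.act ∩ B
  · rw [if_pos h4]
    intro h5
    exact h3 (mem_weakN.2 ⟨h4, h5⟩)
  · rw [if_neg h4]
    exact h x h2

theorem NWk.read {π : Prof T} {v : T → X} (h : NWk A π v) (nf : ℕ) (U : Finset T) :
    NWk A (ANQ.read π nf U) v := by
  intro x hx
  obtain ⟨h2, h3⟩ := mem_sdiff.1 (show x ∈ π.act \ U from hx)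
  change ¬ A.wk (if x ∈ U then nf else π.lev x) (v x)
  rw [if_neg h3]
  exact h x h2

variable [Nonempty T]

theorem nwk_cur {j : ℕ} {S : ANQ.St T} {v : T → X} (h : NWk A S.pi v) (i : ℕ) :
    NWk A (g.cur A j S v i).pi v := by
  induction i with
  | zero => exact h.freeze _
  | succ i ih =>
    rw [Geo.cur_succ]
    by_cases hf : g.sL j i ∈ (g.cur A j S v i).fz
    · rw [Geo.stp_of_mem hf]
      exact ih
    · by_cases ha : A.ACC j i (g.cur A j S v i).pi v
      · rw [Geo.stp_of_acc hf ha]
        exact ih.raise _ _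
      · rw [Geo.stp_of_rej hf ha]
        exact ih.freeze _

theorem nwk_icur {j : ℕ} {S : ANQ.St T} {v : T → X} (h : NWk A S.pi v) (k : ℕ) :
    NWk A (g.icur A j S v k).pi v := by
  induction k with
  | zero => exact nwk_cur h _
  | succ k ih =>
    by_cases hk : k < (g.ilist A j S v).length
    · rw [Geo.icur_succ_of_lt j S v k hk]
      by_cases h' : A.LK j S (g.icur A j S v k).don (g.icur A j S v k).pi
          ((g.ilist A j S v)[k]) v
      · rw [Geo.istp_of_pos h']
        exact ih.read _ _
      · rw [Geo.istp_of_neg h']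
        exact ih
    · rw [Geo.icur_succ_of_not_lt j S v k hk]
      exact ih

/-- active sites are not weak at their level -/
theorem nwk_run (j : ℕ) (v : T → X) : NWk A (g.run A j v).pi v := by
  classical
  induction j with
  | zero =>
    intro x hx
    have h1 : x ∈ univ \ ANQ.weak A (g.lv 0) v univ := hx
    change ¬ A.wk (g.lv 0) (v x)
    intro h2
    exact (mem_sdiff.1 h1).2 (mem_weakN.2 ⟨mem_univ x, h2⟩)
  | succ j ih =>
    rw [Geo.run_succ]
    exact (nwk_icur ih _).freeze _

end nwk

end Pool.Agent.AND
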