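import Pool.Agent.AND.LeakHyp
import Pool.Agent.AND.NWk
import Pool.Agent.AND.DigLaw

/-! # AND LEAKDIG: the digits in the leak bound

`smallBall_law`, `spread_law` : the hypotheses `hsb`, `hf` of the leak bound
from the law (`conc` of `ANB/Site`); `n` = level of the law which corresponds to the level of the active sites (`n = lev` for the
digits `Lw.q`, `n = m (lev / m)` for the re-indexed digits). -/

set_option autoImplicit false
set_option linter.unusedSectionVars false

open Finset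

noncomputable section

namespace Pool.Agent.AND

open Pool.Agent.Kin Pool.Agent.ANL Pool.Agent.ANM Pool.Agent.ANQ

variable {T X : Type} [Fintype T] [DecidableEq T]

section law

variable [Fintype X] {π : Prof T} {v : T → X} {q : ℕ → X → ℤ} {f : X → ℝ} {n : ℕ} {lam : ℝ}

/-- small balls of the final potential at the active sites -/
theorem smallBall_law (Lw : ANB.Law X) (hl : 0 < lam) (hf : ∀ a, f a = lam * Lw.V a)
    (hq : ∀ x ∈ π.act, ∀ a, q (π.lev x) a = q (π.lev x) (v x) ↔ Lw.q n a = Lw.q n (v x))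
    (hnw : ∀ x ∈ π.act, ¬ Lw.wk n (v x)) {ε Lc : ℝ} (hε : 0 ≤ ε)
    (h1 : Lw.D / Lw.ep * (2 ^ n * (3 * ε / lam) / Lw.S + 2 ^ (n + 1) / 2 ^ Lw.nf) ≤
      6 * Lc * ε) :
    SmallBall (fun _ : T => Lw.p) (Kc q π v) (fun _ a => f a) π.act (3 * ε) (6 * Lc * ε) := by
  classical
  intro x hx t
  have hK : ∀ a, a ∈ Kc q π v x ↔ a ∈ ANB.cl (Lw.q n) (v x) := by
    intro a
    rw [ANB.mem_cl, ← hq x hx a]
    exact ⟨fun h => h.1 hx, fun h => ⟨fun _ => h, fun h' => absurd hx h'⟩⟩
  have e1 : univ.filter (fun a => a ∈ Kc q π v x ∧ |f a - t| ≤ 3 * ε) =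
      (ANB.cl (Lw.q n) (v x)).filter (fun b => |Lw.V b - t / lam| ≤ 3 * ε / lam) := by
    ext a
    simp only [mem_filter, mem_univ, true_and]
    rw [hK]
    refine and_congr_right fun _ => ?_
    have e2 : f a - t = lam * (Lw.V a - t / lam) := by
      rw [hf]
      field_simp
    rw [e2, abs_mul, abs_of_pos hl, le_div_iff₀ hl, mul_comm]
  have e2 : univ.filter (fun a => a ∈ Kc q π v x) = ANB.cl (Lw.q n) (v x) := by
    ext a
    simp only [mem_filter, mem_univ, true_and]
    exact hK a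
  have e3 : ∑ a ∈ univ.filter (fun a => a ∈ Kc q π v x ∧ |f a - t| ≤ 3 * ε), Lw.p a ≤
      6 * Lc * ε * ∑ a ∈ univ.filter (fun a => a ∈ Kc q π v x), Lw.p a := by
    rw [e1, e2]
    refine (Lw.conc (hnw x hx) (t / lam) (by positivity)).trans ?_
    refine mul_le_mul_of_nonneg_right h1 (sum_nonneg fun a _ => (Lw.p0 a).le)
  convert e3

/-- spread of the final potential at the active sites -/
theorem spread_law (Lw : ANB.Law X) (hl : 0 ≤ lam) (hf : ∀ a, f a = lam * Lw.V a)
    (hq : ∀ x ∈ π.act, ∀ a, q (π.lev x) a = q (π.lev x) (v x) ↔ Lw.q n a = Lw.q n (v x))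
    (h1 : lam * (2 * Lw.S) ≤ 1) {x : T} (hx : x ∈ π.act) {b b' : X} (hb : b ∈ Kc q π v x)
    (hb' : b' ∈ Kc q π v x) : |f b - f b'| ≤ 1 := by
  have h2 := (hq x hx b).1 (hb.1 hx)
  have h3 := (hq x hx b').1 (hb'.1 hx)
  have h4 : Lw.cell n b = Lw.cell n b' :=
    (Lw.mem_cl_cell (ANB.mem_cl.2 h2)).trans (Lw.mem_cl_cell (ANB.mem_cl.2 h3)).symm
  have h5 := Lw.V_sub_V h4
  rw [hf, hf, ← mul_sub, abs_mul, abs_of_nonneg hl]
  refine (mul_le_mul_of_nonneg_left h5 hl).trans ?_
  refine le_trans (mul_le_mul_of_nonneg_left ?_ hl) h1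
  have hS := Lw.S0
  exact div_le_self (by positivity) (one_le_pow₀ (by norm_num))

end law

end Pool.Agent.AND
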