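import Pool.Agent.AND.LeakProc
import Pool.Agent.AND.LocGood

/-! # AND LEAKTOP: the a priori bounds of the leak theorem from a good medium

`M0` good (before the annulus is read), `b` = diagonal of the medium after the annulus is read, entries `ε1`-close on the sites
not read before. -/

set_option autoImplicit false

open Matrix Finset

noncomputable section

namespace Pool.Agent.AND

open Pool.Agent.Kin Pool.Agent.APS Pool.Agent.ANP Pool.Agent.ANQ Pool.Agent.ANL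

variable {d L : ℕ} [NeZero L] {f : Fix} {t : Tol d L} {M0 : Med (Tor d L)} {u : UTol}

/-- positions of the surfaces with respect to the medium before the annulus step -/
structure LkPos (U : Finset (Tor d L)) {N : ℕ} (D : Fin N → Finset (Tor d L))
    (Dt P : Finset (Tor d L)) (Δ R : ℕ) : Prop where
  hD : ∀ i, ∀ x ∈ bdy (H0T d L) (D i), x ∉ U
  hDt : ∀ x ∈ bdy (H0T d L) Dt, x ∉ U
  hP : ∀ x ∈ bdy (H0T d L) P, x ∉ U
  sep : ∀ i k, i ≠ k → ∀ x ∈ bdy (H0T d L) (D i), ∀ y ∈ bdy (H0T d L) (D k), Δ ≤ ANM.td x y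
  far : ∀ x ∈ bdy (H0T d L) P, ∀ y ∈ bdy (H0T d L) Dt, R ≤ ANM.td x y

theorem lkapr_of_good (h : Good f t M0) (hI : t.In f M0 u) (hN : Num f t u)
    {b : Tor d L → ℂ} (hA : Adm (H0T d L) b) {ε1 : ℝ}
    (hcl : ∀ x y, x ∉ M0.U → y ∉ M0.U →
      ‖rsc (H0T d L) b x y - rsc (H0T d L) M0.b x y‖ ≤ ε1)
    {N : ℕ} {D : Fin N → Finset (Tor d L)} {Dt P : Finset (Tor d L)} {Δ R : ℕ}
    (hp : LkPos M0.U D Dt P Δ R) {c C γ δ : ℝ} (hΔ : 1 ≤ Δ) (hr0 : f.r0 ≤ Δ) (hs : 0 ≤ f.s)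
    (hC20 : 0 ≤ u.C2)
    (hγ : u.C2 * (Δ : ℝ) ^ (-f.s) + ε1 ≤ γ) (hC : f.C1 + ε1 ≤ C / 2) (hLam : u.Lam + ε1 ≤ C)
    (hc : 2 * c + ε1 ≤ f.c1) {Fh : Set (Tor d L)} {μ : ℝ} {a c' : ℕ} (ha : 1 ≤ a) (hμ : 0 ≤ μ)
    (hw : ANM.HasW b Fh μ a c') {e : ℝ} (he : 0 < e)
    (hηP : ∀ x ∈ bdy (H0T d L) P, e ≤ -(b x).im) (hδ0 : 0 ≤ δ)
    (hδ : C * (Real.exp (2 * μ * c' / a) * Real.exp (-(2 * μ * R / a))) ≤ e * δ ^ 2) :
    LkApr (H0T d L) Dt P D b c C γ δ := by
  have hε1 : 0 ≤ ε1 ∨ ∀ x, x ∈ M0.U := by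
    by_cases hx : ∃ x, x ∉ M0.U
    · obtain ⟨x, hx⟩ := hx
      exact Or.inl ((norm_nonneg _).trans (hcl x x hx hx))
    · right
      intro x
      by_contra h1
      exact hx ⟨x, h1⟩
  have hent : ∀ x y, x ∉ M0.U → y ∉ M0.U → ‖rsc (H0T d L) b x y‖ ≤ C := by
    intro x y hx hy
    have h1 := hcl x y hx hy
    have h2 := h.h5 x y hx hy
    have h3 := hI.Lam x y
    have h4 := norm_add_le (rsc (H0T d L) b x y - rsc (H0T d L) M0.b x y)
      (rsc (H0T d L) M0.b x y)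
    rw [sub_add_cancel] at h4
    linarith
  have hdiag : ∀ x, x ∉ M0.U → ‖rsc (H0T d L) b x x‖ ≤ C / 2 := by
    intro x hx
    have h1 := hcl x x hx hx
    have h2 := h.gam_le hI hN hx
    have h4 := norm_add_le (rsc (H0T d L) b x x - rsc (H0T d L) M0.b x x)
      (rsc (H0T d L) M0.b x x)
    rw [sub_add_cancel] at h4
    linarith
  refine ⟨?_, fun i x hx => hdiag x (hp.hD i x hx), ?_, ?_, ?_, ?_, ?_⟩
  · intro i x hx
    have hx' := hp.hD i x hx
    have h1 := hcl x x hx' hx'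
    have h2 := h.io_ge hI hN hx'
    have h3 := (Complex.abs_im_le_norm _).trans h1
    rw [Complex.sub_im, abs_le] at h3
    linarith [h3.1]
  · intro i k hik x hx y hy
    have hx' := hp.hD i x hx
    have hy' := hp.hD k y hy
    have h1 := hcl x y hx' hy'
    have hD := hp.sep i k hik x hx y hy
    have hDr : (Δ : ℝ) ≤ (ANM.td x y : ℝ) := by exact_mod_cast hD
    have h2 := (h.h5 x y hx' hy').trans (hI.h5 x y (hr0.trans hDr))
    have hΔ0 : (0 : ℝ) < Δ := by exact_mod_cast hΔ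
    have h3 : (ANM.td x y : ℝ) ^ (-f.s) ≤ (Δ : ℝ) ^ (-f.s) :=
      Real.rpow_le_rpow_of_nonpos hΔ0 hDr (by linarith)
    have h4 := norm_add_le (rsc (H0T d L) b x y - rsc (H0T d L) M0.b x y)
      (rsc (H0T d L) M0.b x y)
    rw [sub_add_cancel] at h4
    have h5 := mul_le_mul_of_nonneg_left h3 hC20
    linarith
  · intro i a ha y hy
    exact hent a y (hp.hDt a ha) (hp.hD i y hy)
  · intro x hx y hy
    exact hent x y (hp.hP x hx) (hp.hP y hy)
  · intro i y hy x hx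
    exact hent y x (hp.hD i y hy) (hp.hP x hx)
  · intro x hx y hy
    have h1 := ANM.dec_ent (adm_diss hA) ha hμ hw y x
    have h2 := hηP x hx
    have h3 := hdiag y (hp.hDt y hy)
    have h4 := hp.far x hx y hy
    have h4r : (R : ℝ) ≤ (ANM.td y x : ℝ) := by
      have h5 : ANM.td y x = ANM.td x y := ANM.td_met.symm y x
      rw [h5]
      exact_mod_cast h4
    have ha0 : (0 : ℝ) < a := by exact_mod_cast ha
    have h6 : Real.exp (-(2 * μ * ANM.td y x / a)) ≤ Real.exp (-(2 * μ * R / a)) := by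
      apply Real.exp_le_exp.2
      have h7 : 2 * μ * R / a ≤ 2 * μ * ANM.td y x / a := by
        refine div_le_div_of_nonneg_right ?_ ha0.le
        exact mul_le_mul_of_nonneg_left h4r (by positivity)
      linarith
    have h8 : 2 * ‖rsc (H0T d L) b y y‖ *
        (Real.exp (2 * μ * c' / a) * Real.exp (-(2 * μ * ANM.td y x / a))) ≤
        C * (Real.exp (2 * μ * c' / a) * Real.exp (-(2 * μ * R / a))) := by
      refine mul_le_mul (by linarith) (mul_le_mul_of_nonneg_left h6 (Real.exp_pos _).le)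
        (by positivity) ?_
      have := norm_nonneg (rsc (H0T d L) b y y)
      linarith
    have h9 : e * ‖rsc (H0T d L) b y x‖ ^ 2 ≤ e * δ ^ 2 := by
      refine le_trans (mul_le_mul_of_nonneg_right h2 (sq_nonneg _)) (h1.trans (h8.trans hδ))
    have h10 := le_of_mul_le_mul_left h9 he
    rw [adm_symm hA x y]
    exact le_of_sq_le_sq h10 hδ0

end Pool.Agent.AND
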