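import Pool.Agent.AND.LeakHyp
import Pool.Agent.AND.LeakTop
import Pool.Agent.AND.CpGlue

/-! # AND LEAKFIN: the joint leak bound of the process on the torus from good media

`TestAt`: what is known when the cluster `F` is tested: `M0` = good medium of the current profile, `M1` = medium of the profile with
the annulus read, entries `ε1`-close on the sites not read in `M0`; if all leverages of `F` in `M1` at the target surface are at most
`Ml`, the test is passed.  `lkTest_of` : `LkTest`; `leakHyp_tor` : `ANQ.LeakHyp`.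
-/

set_option autoImplicit false
set_option linter.unusedSectionVars false

open Finset

noncomputable section

namespace Pool.Agent.AND

open Pool.Agent.Kin Pool.Agent.APS Pool.Agent.ANL Pool.Agent.ANM Pool.Agent.ANQ Pool.Agent.ANB
open Pool.Agent.ANP (IsLaw Pr wt)

variable {d L : ℕ} [NeZero L] {X : Type} [Fintype X] [DecidableEq X]
variable {g : ANQ.Geo (Tor d L)} {A : ANQ.Ana (Tor d L) X} {W : ℕ → ℕ} {V : ℕ}
  {K : Tor d L → Finset X} {r : ℕ → ℕ}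

/-- the cluster which is tested at the time `k` -/
def ilF (g : ANQ.Geo (Tor d L)) (A : ANQ.Ana (Tor d L) X) (j k : ℕ) (v : Tor d L → X)
    (hk : k < (g.ilist A j (g.run A j v) v).length) : Finset (Tor d L) :=
  (g.ilist A j (g.run A j v) v)[k]

/-- the target domain -/
def ilDt (g : ANQ.Geo (Tor d L)) (A : ANQ.Ana (Tor d L) X) (j : ℕ) (N Δ : ℕ) (v : Tor d L → X)
    (F : Finset (Tor d L)) : Finset (Tor d L) := (lkE g (g.run A j v) N Δ F).Dt

/-- the state when a cluster is tested: `f`, `t`, `u` = constants, tolerances, bounds of `M0` -/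
structure TestAt (f : Fix) (u : UTol) (Y : Sys X) (g : ANQ.Geo (Tor d L))
    (A : ANQ.Ana (Tor d L) X) (j k : ℕ) (v : Tor d L → X) (F Dt : Finset (Tor d L))
    (κl κs ε1 Ml : ℝ) (t : Tol d L) (M0 M1 : Med (Tor d L)) : Prop where
  med0 : IsMed (H0T d L) Y (g.irun A j k v).pi v M0
  good : Good f t M0
  tin : t.In f M0 u
  num : Num f t u
  kl : κl ≤ t.kl
  st : κs ≤ t.st
  med1 : IsMed (H0T d L) Y (ANQ.read (g.irun A j k v).pi g.nf (g.nbhd (g.R j) F \ F)) v M1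
  im1 : ∀ x, (M1.b x).im ≤ 0
  clo : ∀ x y, x ∉ M0.U → y ∉ M0.U →
    ‖rsc (H0T d L) M1.b x y - rsc (H0T d L) M0.b x y‖ ≤ ε1
  lk : (∀ y ∈ bdy (H0T d L) Dt, LevLe (H0T d L) M1.b F y Ml) →
    A.LK j (g.run A j v) (g.irun A j k v).don (g.irun A j k v).pi F v

/-- the numbers of the a priori bounds; `Δs` = separation of the surfaces, `Rf` = distance of the boundary of the comparison domain
from the target surface, `cw` = constant of the weights -/
structure LkFN (d : ℕ) (f : Fix) (u : UTol) (Δs Rf cw : ℕ) (κl κs μ ε1 δ1 c C γ δ : ℝ) :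
    Prop where
  hΔs : 1 ≤ Δs
  hr0 : f.r0 ≤ Δs
  hs : 0 ≤ f.s
  hC2 : 0 ≤ u.C2
  hγ : u.C2 * (Δs : ℝ) ^ (-f.s) + ε1 ≤ γ
  hC : f.C1 + ε1 ≤ C / 2
  hLam : u.Lam + ε1 ≤ C
  hc : 2 * c + ε1 ≤ f.c1
  he1 : ε1 ≤ f.c1 / 2
  hδ1 : u.del + ε1 ≤ δ1
  hμ0 : 0 ≤ μ
  hμ1 : μ ≤ 1
  hκ0 : 0 < κl
  hμl : 8 * d * μ ≤ κl * (f.c1 / 2)
  hμs : 8 * d * μ ≤ κs
  hδ0 : 0 ≤ δ
  hδ : C * (Real.exp (2 * μ * cw / 4) * Real.exp (-(2 * μ * Rf / 4))) ≤
    κl * (f.c1 / 2) * δ ^ 2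

/-- absorption of the annulus medium -/
theorem TestAt.eta1 {f : Fix} {u : UTol} {Y : Sys X} {j k : ℕ} {v : Tor d L → X}
    {F Dt : Finset (Tor d L)} {κl κs ε1 Ml : ℝ} {t : Tol d L} {M0 M1 : Med (Tor d L)}
    (h : TestAt f u Y g A j k v F Dt κl κs ε1 Ml t M0 M1) (hY : 0 ≤ Y.eta) (hte : t.eta = Y.eta)
    (hκ : 0 ≤ κl) (he : ε1 ≤ f.c1 / 2)
    {x : Tor d L} (h1 : x ∉ (ANQ.read (g.irun A j k v).pi g.nf (g.nbhd (g.R j) F \ F)).rd)
    (h2 : x ∉ (ANQ.read (g.irun A j k v).pi g.nf (g.nbhd (g.R j) F \ F)).ine) :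
    (x ∈ (g.irun A j k v).pi.act → κl * (f.c1 / 2) ≤ -(M1.b x).im) ∧
      (x ∉ (g.irun A j k v).pi.act → κs ≤ -(M1.b x).im) := by
  set π := (g.irun A j k v).pi with hπ
  set U := g.nbhd (g.R j) F \ F with hU
  have hxr : x ∉ π.rd ∪ U := h1
  have hxi : x ∉ π.ine \ U := h2
  rw [mem_union, not_or] at hxr
  have hxi' : x ∉ π.ine := fun h3 => hxi (mem_sdiff.2 ⟨h3, hxr.2⟩)
  have hMU : x ∉ M0.U := by
    rw [h.med0.U]
    exact hxr.1
  constructor
  · intro hA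
    have hA1 : x ∈ (ANQ.read π g.nf U).act := mem_sdiff.2 ⟨hA, hxr.2⟩
    rw [h.med1.im_act1 hA1 h1]
    have e1 : (ANQ.read π g.nf U).lev x = π.lev x := if_neg hxr.2
    have hk : κl ≤ Y.kk (π.lev x) (v x) := by
      have hA0 : x ∈ M0.A := by
        rw [h.med0.A]
        exact hA
      have h3 := h.good.klo x hA0
      rw [h.med0.k] at h3
      unfold kp at h3
      rw [if_pos hA] at h3
      exact h.kl.trans h3
    have hg1 : f.c1 / 2 ≤ (rsc (H0T d L) M1.b x x).im := by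
      have h3 := (Complex.abs_im_le_norm _).trans (h.clo x x hMU hMU)
      rw [Complex.sub_im, abs_le] at h3
      have h4 := h.good.io_ge h.tin h.num hMU
      linarith [h3.1]
    rw [e1]
    have hc := h.num.c1
    have h5 : κl * (f.c1 / 2) ≤ Y.kk (π.lev x) (v x) * (rsc (H0T d L) M1.b x x).im :=
      mul_le_mul hk hg1 (by linarith) (hκ.trans hk)
    linarith
  · intro hA
    have hA1 : x ∉ (ANQ.read π g.nf U).act := fun h3 => hA (mem_sdiff.1 h3).1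
    have e0 : M1.b x = M0.b x := by
      rw [h.med1.b x, h.med0.b x]
      unfold cp kp
      have e1 : (ANQ.read π g.nf U).lev x = π.lev x := if_neg hxr.2
      have e2 : (ANQ.read π g.nf U).sg x = π.sg x := if_neg hxr.2
      rw [if_neg hA1, if_neg hA, if_neg h1, if_neg hxr.1, e1, e2,
        if_neg (not_or.2 ⟨hA1, h2⟩), if_neg (not_or.2 ⟨hA, hxi'⟩)]
      simp [hπ]
    rw [e0]
    have h3 := h.good.eS x (by rw [h.med0.A]; exact hA) hMU (by rw [h.med0.I]; exact hxi')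
    have h4 : M0.eta x = -(M0.b x).im := rfl
    rw [h4, hte] at h3
    have := h.st
    linarith

/-- `LkTest` when the test has failed -/
theorem lkTest_of {Y : Sys X} (hY : 0 ≤ Y.eta) (hG : CGeo g W V) (hgd : g.dist = td)
    (hP : PercIn g A K r) (hL : ANQ.Loc g A) {j c0 N Δ Δ' a : ℕ}
    (hO : LOk (g.par W V) j c0 N Δ Δ') {f : Fix} {u : UTol} {Δs Rf cw : ℕ}
    {κl κs μ ε1 δ1 c C γ δ Ml : ℝ} (hN : LkFN d f u Δs Rf cw κl κs μ ε1 δ1 c C γ δ)
    (hΔs : Δs + 2 ≤ Δ) (hRf : Rf + g.R (j + 1) + 1 ≤ Δ')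
    (hcw : cK g W V (j + 1) (r (j + 1)) ≤ cw)
    {v : Tor d L → X} {k : ℕ} (hk : k < (g.ilist A (j + 1) (g.run A (j + 1) v) v).length)
    (hcp : CP g.dist (ANB.pt (((g.run A (j + 1) v).pi.rd ∪
      (g.fin A (j + 1) (g.run A (j + 1) v) v).pi.ine : Finset (Tor d L)) : Set (Tor d L))) a c0)
    {t : Tol d L} {M0 M1 : Med (Tor d L)} (hte : t.eta = Y.eta)
    (h : TestAt f u Y g A (j + 1) k v (ilF g A (j + 1) k v hk)
      (ilDt g A (j + 1) N Δ v (ilF g A (j + 1) k v hk)) κl κs ε1 Ml t M0 M1)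
    (hlk : ¬ A.LK (j + 1) (g.run A (j + 1) v) (g.irun A (j + 1) k v).don
      (g.irun A (j + 1) k v).pi (ilF g A (j + 1) k v hk) v) :
    LkTest (H0T d L) Y g.nf (g.irun A (j + 1) k v).pi v (ilF g A (j + 1) k v hk)
      (g.nbhd (g.R (j + 1)) (ilF g A (j + 1) k v hk) \ (ilF g A (j + 1) k v hk))
      ((lkE g (g.run A (j + 1) v) N Δ (ilF g A (j + 1) k v hk)).setP
        (lkP g A (j + 1) (g.run A (j + 1) v) c0 Δ' (ilF g A (j + 1) k v hk) v))
      f.g0 δ1 c C γ δ Ml M1 := by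
  classical
  set F := ilF g A (j + 1) k v hk with hFd
  set S := g.run A (j + 1) v with hS
  set π := (g.irun A (j + 1) k v).pi with hπ
  have hm : NMet g.dist := hG.met
  have hg := hG.ok
  have hF : F ∈ g.cands A (j + 1) S v := mem_toList.1 (List.getElem_mem hk)
  have hHd : ∀ x y : Tor d L, H0T d L x y ≠ 0 → g.dist x y ≤ 1 := by
    intro x y hxy
    rw [hgd]
    exact H0T_near hxy
  have hcpS : CP g.dist (eS S) a c0 := by
    refine cp_pt_mono hcp ?_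
    intro x hx
    rw [mem_coe] at hx ⊢
    rcases mem_union.1 hx with hx | hx
    · exact mem_union_left _ hx
    · refine mem_union_right _ ?_
      have h1 := pinv_run (g := g) (A := A) (j + 1) v
      have h2 : x ∉ (g.run A (j + 1) v).pi.act := fun h3 => Finset.disjoint_left.1 h1.AI h3 hx
      exact ((Geo.cur_old (g := g) (A := A) (j + 1) (g.run A (j + 1) v) v
        (g.ns (j + 1)) h2).2.2.2).2 hx
  have hcpP := cp_eP hg hL hO hF hcp
  have hpi := pinv_irun (g := g) (A := A) (j + 1) k v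
  have hpi1 := hpi.read (g.nbhd (g.R (j + 1)) F \ F)
  have hrho : Δ' + 2 * c0 + 1 + g.R (j + 1) ≤ g.rho (j + 1) := hO.rho
  have hinR : (N + 1) * (Δ + c0) + c0 + 1 ≤ g.R (j + 1) := hO.inR
  have houtR : g.R (j + 1) + 2 ≤ Δ' := hO.outR
  have hU : M0.U = π.rd := h.med0.U
  -- the sites of the surfaces
  have hsur : ∀ i ≤ N, ∀ x ∈ bdy (H0T d L) (DF g.dist (eS S) Δ F (i + 1)), x ∉ M0.U := by
    intro i hi x hx
    obtain ⟨h1, h2⟩ := bdyD_start hg hO hcpS hHd hF hi hx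
    rw [hU]
    intro h3
    obtain ⟨y, hy, hxy⟩ := Geo.mem_nbhd.1 (mem_sdiff.1 h2).1
    have h4 := (Geo.near_icur (g := g) (A := A) hm.symm hm.tri (x := x) (y := y) hk hy (by
      omega)).2.1.1 h3
    exact Finset.disjoint_left.1 (pinv_run (g := g) (A := A) (j + 1) v).AU h1 h4
  have hbP : ∀ x ∈ bdy (H0T d L) (lkP g A (j + 1) S c0 Δ' F v), x ∈ π.act ∧
      ∀ y ∈ F, g.R (j + 1) < g.dist y x := fun x hx => bdy_lkP_act hg hL hO hk hcpP hHd hx
  have hbPU : ∀ x ∈ bdy (H0T d L) (lkP g A (j + 1) S c0 Δ' F v), x ∉ M0.U := by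
    intro x hx
    rw [hU]
    exact Finset.disjoint_left.1 hpi.AU (hbP x hx).1
  -- the weights
  have hA1 : Adm (H0T d L) M1.b := ⟨H0T_realSym, h.im1, h.med1.unit⟩
  have hcpw : CP (td : Tor d L → Tor d L → ℕ)
      (pt {x | x ∈ (ANQ.read π g.nf (g.nbhd (g.R (j + 1)) F \ F)).rd ∨
        x ∈ (ANQ.read π g.nf (g.nbhd (g.R (j + 1)) F \ F)).ine}) 4 cw := by
    have h1 := (cp_irun' (A := A) hG hP (j + 1) k v (S := {x |
      x ∈ (ANQ.read π g.nf (g.nbhd (g.R (j + 1)) F \ F)).rd ∨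
        x ∈ (ANQ.read π g.nf (g.nbhd (g.R (j + 1)) F \ F)).ine}) (by
      rintro x (hx | hx)
      · have h2 : x ∈ π.rd ∪ (g.nbhd (g.R (j + 1)) F \ F) := hx
        rcases mem_union.1 h2 with h2 | h2
        · exact Or.inl h2
        · obtain ⟨y, hy, hxy⟩ := Geo.mem_nbhd.1 (mem_sdiff.1 h2).1
          exact Or.inr (Or.inr (Geo.mem_nbhd.2
            ⟨y, (Geo.mem_cand_iff hm.symm).2 ⟨F, hF, hy⟩, hxy⟩))
      · exact Or.inr (Or.inl (mem_sdiff.1 hx).1))).mono le_rfl hcw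
    rw [hgd] at h1
    exact h1
  have hw : HasW M1.b {x | ∃ k, x ∈ pt {x |
      x ∈ (ANQ.read π g.nf (g.nbhd (g.R (j + 1)) F \ F)).rd ∨
        x ∈ (ANQ.read π g.nf (g.nbhd (g.R (j + 1)) F \ F)).ine} k} μ 4 cw := by
    refine hasW_cp hcpw hN.hμ0 hN.hμ1 (fun x => neg_nonneg.2 (h.im1 x)) ?_
      (ηm := 8 * d * μ) le_rfl
    intro x hx
    have h1 : x ∉ {x | x ∈ (ANQ.read π g.nf (g.nbhd (g.R (j + 1)) F \ F)).rd ∨
        x ∈ (ANQ.read π g.nf (g.nbhd (g.R (j + 1)) F \ F)).ine} := fun h2 => hx x ⟨rfl, h2⟩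
    rw [Set.mem_ofPred_eq, not_or] at h1
    have h2 := h.eta1 hY hte hN.hκ0.le hN.he1 h1.1 h1.2
    by_cases hA : x ∈ (g.irun A (j + 1) k v).pi.act
    · exact hN.hμl.trans (h2.1 hA)
    · exact hN.hμs.trans (h2.2 hA)
  have hpos : LkPos M0.U (fun i : Fin N => DF g.dist (eS S) Δ F (i + 1))
      (DF g.dist (eS S) Δ F (N + 1)) (lkP g A (j + 1) S c0 Δ' F v) Δs Rf := by
    refine ⟨fun i x hx => hsur i i.2.le x hx, fun x hx => hsur N le_rfl x hx, hbPU, ?_, ?_⟩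
    · intro i k hik x hx y hy
      rw [← hgd]
      rcases lt_or_gt_of_ne (fun e => hik (Fin.ext e) : (i : ℕ) ≠ k) with hlt | hlt
      · have h1 := bdy_DF_dist (D := eS S) hm hG.geo hHd
          (show (i : ℕ) + 1 < (k : ℕ) + 1 by omega) hx hy
        have h2 : Δ ≤ ((k : ℕ) + 1 - ((i : ℕ) + 1)) * Δ :=
          Nat.le_mul_of_pos_left _ (by omega)
        omega
      · have h1 := bdy_DF_dist (D := eS S) hm hG.geo hHd
          (show (k : ℕ) + 1 < (i : ℕ) + 1 by omega) hy hx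
        have h2 : Δ ≤ ((i : ℕ) + 1 - ((k : ℕ) + 1)) * Δ :=
          Nat.le_mul_of_pos_left _ (by omega)
        have h3 := hm.symm x y
        omega
    · intro x hx y hy
      rw [← hgd]
      have h1 := bdyP_far2 (Δ' := Δ') (N := N + 1) hm hcpS hHd le_rfl hx hy
      have h3 := hm.symm x y
      omega
  refine ⟨h.med1, h.im1, hpi1.AU, ?_, ?_, ?_⟩
  · intro x hxP hx0 hxA
    have hxA' : x ∈ π.act := (mem_sdiff.1 hxA).1
    have hxU : x ∉ M0.U := by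
      rw [hU]
      exact Finset.disjoint_left.1 hpi.AU hxA'
    have h1 := h.clo x x hxU hxU
    have h2 := (h.good.h1 x hxU).trans (h.tin.del x)
    have h3 : rsc (H0T d L) M1.b x x - f.g0 =
        (rsc (H0T d L) M1.b x x - rsc (H0T d L) M0.b x x) + (rsc (H0T d L) M0.b x x - f.g0) := by
      ring
    rw [h3]
    refine (norm_add_le _ _).trans ?_
    have := hN.hδ1
    linarith
  · refine lkapr_of_good h.good h.tin h.num hA1 h.clo hpos hN.hΔs hN.hr0 hN.hs hN.hC2 hN.hγ hN.hC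
      hN.hLam hN.hc (by norm_num) hN.hμ0 hw (e := κl * (f.c1 / 2)) ?_ ?_ hN.hδ0 ?_
    · have := h.num.c1
      have := hN.hκ0
      positivity
    · intro x hx
      have h1 := hbP x hx
      have hxU : x ∉ g.nbhd (g.R (j + 1)) F := by
        intro h2
        obtain ⟨y, hy, hxy⟩ := Geo.mem_nbhd.1 h2
        have h3 := h1.2 y hy
        have h4 := hm.symm x y
        omega
      have hA1 : x ∉ (ANQ.read π g.nf (g.nbhd (g.R (j + 1)) F \ F)).rd := by
        intro h2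
        rcases mem_union.1 h2 with h2 | h2
        · exact Finset.disjoint_left.1 hpi.AU h1.1 h2
        · exact hxU (mem_sdiff.1 h2).1
      have hA2 : x ∉ (ANQ.read π g.nf (g.nbhd (g.R (j + 1)) F \ F)).ine := fun h2 =>
        Finset.disjoint_left.1 hpi.AI h1.1 (mem_sdiff.1 h2).1
      exact (h.eta1 hY hte hN.hκ0.le hN.he1 hA1 hA2).1 h1.1
    · exact_mod_cast hN.hδ
  · by_contra hcon
    push Not at hcon
    exact hlk (h.lk hcon)

/-- THE JOINT LEAK BOUND OF THE PROCESS ON THE TORUS, from good media; super-stage `j + 1` -/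
theorem leakHyp_tor {w : Tor d L → X → ℝ} (hw : IsLaw w) {Y : Sys X} (hY : 0 ≤ Y.eta)
    (hkk : ∀ n a, 0 ≤ Y.kk n a) (hd1 : 1 ≤ d) (hG : CGeo g W V) (hgd : g.dist = td)
    (hP : PercIn g A K r) (hL : ANQ.Loc g A) {j c0 N Δ Δ' : ℕ}
    (hc0 : cK g W V j (r (j + 1)) ≤ c0) (hO : LOk (g.par W V) j c0 N Δ Δ')
    (hr : 2 * (Δ' + 2 * c0) ≤ g.rho (j + 1)) {nb n0 nP : ℕ}
    (hnb : g.J * (2 * (W j + g.sep j) + 1) ^ d *
      (2 * ((N + 1) * (Δ + c0) + c0 + 1) + 1) ^ d ≤ nb)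
    (hn0 : g.J * (2 * (W j + g.sep j) + 1) ^ d * (2 * (c0 + 1) + 1) ^ d ≤ n0)
    (hnP : g.J * (2 * (W j + g.sep j) + 1) ^ d * (2 * (Δ' + 2 * c0 + 1) + 1) ^ d ≤ nP)
    {f : Fix} {u : UTol} (hg0 : f.c1 ≤ f.g0.im) {Δs Rf cw : ℕ}
    {κl κs μ ε1 δ1 c C γ δ Ml ϑ ε Lc : ℝ}
    (hN : LkFN d f u Δs Rf cw κl κs μ ε1 δ1 c C γ δ) (hΔs : Δs + 2 ≤ Δ)
    (hRf : Rf + g.R (j + 1) + 1 ≤ Δ') (hcw : cK g W V (j + 1) (r (j + 1)) ≤ cw)
    (hn : LkNum N nb n0 nP (2 * d) f.c1 δ1 ϑ c C γ δ Ml ε Lc)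
    (htest : ∀ v k, ∀ hk : k < (g.ilist A (j + 1) (g.run A (j + 1) v) v).length,
      ¬ A.LK (j + 1) (g.run A (j + 1) v) (g.irun A (j + 1) k v).don (g.irun A (j + 1) k v).pi
        (ilF g A (j + 1) k v hk) v →
      ∃ (t : Tol d L) (M0 M1 : Med (Tor d L)), t.eta = Y.eta ∧
        TestAt f u Y g A (j + 1) k v (ilF g A (j + 1) k v hk)
          (ilDt g A (j + 1) N Δ v (ilF g A (j + 1) k v hk)) κl κs ε1 Ml t M0 M1)
    (hf : ∀ v, ∀ x ∈ (g.run A (j + 1) v).pi.act, ∀ b ∈ Kc A.q (g.run A (j + 1) v).pi v x,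
      ∀ b' ∈ Kc A.q (g.run A (j + 1) v).pi v x, |Y.hh g.nf b - Y.hh g.nf b'| ≤ 1)
    (hsb : ∀ v, SmallBall w (Kc A.q (g.run A (j + 1) v).pi v) (fun _ b => Y.hh g.nf b)
      (g.run A (j + 1) v).pi.act (3 * ε) (6 * Lc * ε)) (CD Ds : ℕ) :
    LeakHyp w g A (j + 1) CD Ds (ε ^ (5 * n0)) := by
  classical
  have hcp : ∀ v, CP g.dist (ANB.pt (((g.run A (j + 1) v).pi.rd ∪
      (g.fin A (j + 1) (g.run A (j + 1) v) v).pi.ine : Finset (Tor d L)) :
        Set (Tor d L))) 4 c0 := by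
    intro v
    have h1 := cp_fin (A := A) hG hP (j + 1) v
    have h2 : (g.fin A (j + 1) (g.run A (j + 1) v) v).pi.rd = (g.run A (j + 1) v).pi.rd :=
      Geo.cur_rd (j + 1) _ v _
    rw [h2] at h1
    rw [coe_union]
    exact h1.mono le_rfl hc0
  have hHd : ∀ x y : Tor d L, H0T d L x y ≠ 0 → g.dist x y ≤ 1 := by
    intro x y hxy
    rw [hgd]
    exact H0T_near hxy
  have hball : ∀ (x : Tor d L) (n : ℕ), (univ.filter fun y => g.dist x y ≤ n).card ≤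
      (2 * n + 1) ^ d := by
    intro x n
    rw [hgd]
    exact card_ball x n
  have h01 : (1 : ℝ) ≤ 2 * d := by
    have : (1 : ℝ) ≤ d := by exact_mod_cast hd1
    linarith
  refine leakHyp_abs (a := 4) (c0 := c0) (N := N) (Δ := Δ) (Δ' := Δ') hw H0T_realSym hY hkk hL
    hG.ok hHd hopLe_H0T h01 hO hr hcp (Vs := (2 * (W j + g.sep j) + 1) ^ d) ?_
    (fun x => hball x _) (fun x => hball x _) (fun x => hball x _) hnb hn0 hnP hg0 hn ?_ hf hsb CD Ds
  · intro b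
    have h1 := hball b (W j + g.sep j)
    refine le_trans (le_of_eq ?_) h1
    congr 1
    ext y
    simp only [mem_filter, mem_univ, true_and]
    rw [hG.met.symm]
  · intro v k hk hlk
    obtain ⟨t, M0, M1, hte, h⟩ := htest v k hk hlk
    exact ⟨M1, lkTest_of hY hG hgd hP hL hO hN hΔs hRf hcw hk (hcp v) hte h hlk⟩

end Pool.Agent.AND
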