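import Pool.Agent.AND.InAt
import Pool.Agent.AND.LeakFin
import Pool.Agent.AND.LeakDig

/-! # AND LEAKD: the leak tests of the algorithm `Dat` (field `leak` of `Parts`)

`Dat.InsM` : what the insertion theorems (annulus, content) give for the test of a cluster; `Dat.leak_of_ins` : the joint leak
bound `ANQ.LeakHyp` in super-stage `j + 1`. -/

set_option autoImplicit false
set_option linter.unusedSectionVars false

open Finset

noncomputable section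

namespace Pool.Agent.AND

open Pool.Agent.Kin Pool.Agent.APS Pool.Agent.ANL Pool.Agent.ANM Pool.Agent.ANQ Pool.Agent.ANB
open Pool.Agent.ANP (IsLaw Pr wt)

variable {d L : ℕ} [NeZero L] {X : Type}

/-- WHAT THE INSERTION THEOREMS GIVE for the test of the cluster `F` at the time `k` of super-stage `j`; `M0` = medium before,
`M1` = medium after the annulus has been read; `Dt` = target domain -/
structure Dat.InsM (D : Dat d L X) (j k : ℕ) (v : Tor d L → X) (F Dt : Finset (Tor d L))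
    (ε1 Ml : ℝ) (M0 M1 : Med (Tor d L)) : Prop where
  med1 : IsMed (H0T d L) D.Y (ANQ.read (D.g.irun D.ana j k v).pi D.g.nf
    (D.g.nbhd (D.g.R j) F \ F)) v M1
  im1 : ∀ x, (M1.b x).im ≤ 0
  clo : ∀ x y, x ∉ M0.U → y ∉ M0.U →
    ‖rsc (H0T d L) M1.b x y - rsc (H0T d L) M0.b x y‖ ≤ ε1
  ok : (∀ y ∈ bdy (H0T d L) Dt, LevLe (H0T d L) M1.b F y Ml) →
    D.GoodAt (D.g.lv (j + 1)) (D.fd j (insert F (D.g.irun D.ana j k v).don))
      (ANQ.read (D.g.irun D.ana j k v).pi D.g.nf (D.g.nbhd (D.g.R j) F)) v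

variable [Fintype X] [DecidableEq X]

/-- THE LEAK TESTS OF SUPER-STAGE `j + 1` -/
theorem Dat.leak_of_ins {D : Dat d L X} {Jm n1 : ℕ} {k0 be0 Lam th e rho : ℝ} {dA : ℕ → ℝ}
    (h : InH D Jm n1 k0 be0 Lam th e rho dA) (Lw : ANB.Law X) {lam E es : ℝ} (hlam : 0 < lam)
    (hYe : D.Y = sysOf Lw lam E es) (hq : D.q = Lw.q)
    (hnf : Lw.nf ≤ D.g.nf) (hd1 : 1 ≤ d) {W : ℕ → ℕ} {V : ℕ} (hG : CGeo D.g W V)
    (hgd : D.g.dist = td) {K : Tor d L → Finset X} {r : ℕ → ℕ} (hP : PercIn D.g D.ana K r)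
    {j : ℕ} (hj : j + 1 < Jm)
    (hwk : ∀ a, Lw.wk (D.g.lv (j + 1)) a → D.wk (D.g.lv (j + 1)) a) {c0 N Δ Δ' : ℕ}
    (hc0 : cK D.g W V j (r (j + 1)) ≤ c0) (hO : LOk (D.g.par W V) j c0 N Δ Δ')
    (hr : 2 * (Δ' + 2 * c0) ≤ D.g.rho (j + 1)) {nb n0 nP : ℕ}
    (hnb : D.g.J * (2 * (W j + D.g.sep j) + 1) ^ d *
      (2 * ((N + 1) * (Δ + c0) + c0 + 1) + 1) ^ d ≤ nb)
    (hn0 : D.g.J * (2 * (W j + D.g.sep j) + 1) ^ d * (2 * (c0 + 1) + 1) ^ d ≤ n0)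
    (hnP : D.g.J * (2 * (W j + D.g.sep j) + 1) ^ d * (2 * (Δ' + 2 * c0 + 1) + 1) ^ d ≤ nP)
    (hg0 : D.f.c1 ≤ D.f.g0.im) {Δs Rf cw : ℕ}
    {μ ε1 δ1 c C γ δ Ml ϑ ε Lc : ℝ}
    (hN : LkFN d D.f (D.uN k0 rho Lam dA (D.g.lv (j + 1 + 1))) Δs Rf cw
      (D.P.cl * D.P.kap (D.g.lv (j + 1 + 1) + 1)) (D.P.cs * D.P.kap (D.g.lv (j + 1 + 1) + 1))
      μ ε1 δ1 c C γ δ)
    (hΔs : Δs + 2 ≤ Δ) (hRf : Rf + D.g.R (j + 1) + 1 ≤ Δ')
    (hcw : cK D.g W V (j + 1) (r (j + 1)) ≤ cw)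
    (hn : LkNum N nb n0 nP (2 * d) D.f.c1 δ1 ϑ c C γ δ Ml ε Lc)
    (hdg : Lw.D / Lw.ep * (2 ^ D.g.lv (j + 1) * (3 * ε / lam) / Lw.S +
      2 ^ (D.g.lv (j + 1) + 1) / 2 ^ Lw.nf) ≤ 6 * Lc * ε)
    (hsp : lam * (2 * Lw.S) ≤ 1)
    (hins : ∀ v k, ∀ hk : k < (D.g.ilist D.ana (j + 1) (D.g.run D.ana (j + 1) v) v).length,
      ∀ M0, InC D k0 rho Lam dA (D.g.lv (j + 1 + 1))
        (D.fd (j + 1) (D.g.irun D.ana (j + 1) k v).don) (D.g.irun D.ana (j + 1) k v).pi v M0 →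
      ∃ M1, D.InsM (j + 1) k v (ilF D.g D.ana (j + 1) k v hk)
        (ilDt D.g D.ana (j + 1) N Δ v (ilF D.g D.ana (j + 1) k v hk)) ε1 Ml M0 M1)
    (CD Ds : ℕ) :
    LeakHyp (fun _ : Tor d L => Lw.p) D.g D.ana (j + 1) CD Ds (ε ^ (5 * n0)) := by
  have hL := Dat.loc h.qok
  have hB := h.ns.toNumB
  have hY0 : 0 ≤ D.Y.eta := by
    rw [hB.eta]
    exact hB.eta0.le
  have hhh : ∀ b, D.Y.hh D.g.nf b = lam * Lw.V b := by
    intro b
    rw [hYe]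
    change lam * Lw.h D.g.nf b = lam * Lw.V b
    rw [Lw.h_top hnf]
  have hlev : ∀ v, ∀ x ∈ (D.g.run D.ana (j + 1) v).pi.act,
      (D.g.run D.ana (j + 1) v).pi.lev x = D.g.lv (j + 1) := fun v x hx =>
    ANQ.Geo.run_lev h.ns.cor hL (j + 1) v x hx
  have hqq : ∀ v, ∀ x ∈ (D.g.run D.ana (j + 1) v).pi.act, ∀ a,
      D.ana.q ((D.g.run D.ana (j + 1) v).pi.lev x) a =
        D.ana.q ((D.g.run D.ana (j + 1) v).pi.lev x) (v x) ↔
      Lw.q (D.g.lv (j + 1)) a = Lw.q (D.g.lv (j + 1)) (v x) := by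
    intro v x hx a
    rw [hlev v x hx]
    change D.q _ a = D.q _ (v x) ↔ _
    rw [hq]
  refine leakHyp_tor (Y := D.Y) (isLaw_const (T := Tor d L) Lw) hY0 hB.kk0 hd1 hG hgd hP hL hc0 hO
    hr hnb hn0 hnP hg0 hN hΔs hRf hcw hn ?_ ?_ ?_ CD Ds
  · intro v k hk hlk
    obtain ⟨M0, hM0⟩ := h.irun hj k v
    obtain ⟨M1, hM1⟩ := hins v k hk M0 hM0
    refine ⟨tolAt D.P D.Sf (D.g.lv (j + 1 + 1)) (D.fd (j + 1) (D.g.irun D.ana (j + 1) k v).don)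
      (D.g.irun D.ana (j + 1) k v).pi v M0, M0, M1, hB.eta.symm, ?_⟩
    exact {
      med0 := hM0.med
      good := hM0.good
      tin := hM0.inn
      num := hM0.num
      kl := le_rfl
      st := le_rfl
      med1 := hM1.med1
      im1 := hM1.im1
      clo := hM1.clo
      lk := hM1.ok }
  · intro v x hx b hb b' hb'
    exact spread_law (n := D.g.lv (j + 1)) Lw hlam.le hhh (hqq v) hsp hx hb hb'
  · intro v
    refine smallBall_law (n := D.g.lv (j + 1)) Lw hlam hhh (hqq v) ?_ hn.hε.le hdg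
    intro x hx hw
    have h1 := nwk_run (g := D.g) (A := D.ana) (j + 1) v x hx
    rw [hlev v x hx] at h1
    exact h1 (hwk _ hw)

end Pool.Agent.AND
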