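import Pool.Agent.AND.InsFree
import Pool.Agent.AND.LeakD
import Pool.Agent.ANI.InsTop

/-!
# AND / InsGlue: THE INSERTION THEOREM IN THE PROCESS (hypothesis `hins` of `Dat.leak_of_ins`)

`InsPr` = the parameters of one insertion, `InsNm` = the numerical hypotheses (level `n`, side `s`, `s' = s / 2`).
`Dat.ins_glue` : for every state of the insertion loop of super-stage `j + 1`, from the good medium `M0` of the current profile: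
the annulus medium `M1` exists, is close to `M0`, and if the leverages of the content at the target surface are at most `Ml`,
the profile after the insertion is `GoodAt` with the fields after the insertion.
-/

set_option autoImplicit false
set_option linter.unusedSectionVars false

open Finset

noncomputable section

namespace Pool.Agent.AND

open Pool.Agent.Kin Pool.Agent.APS Pool.Agent.ANL Pool.Agent.ANM Pool.Agent.ANQ Pool.Agent.ANB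
open Pool.Agent.ANI (ReadP Wts dB)
open Pool.Agent.ANP (dT)

/-- the parameters of one insertion: `mu` rate of the weights, `cw` their constant, `uu` size of the perturbation of the annulus,
`nS`, `nF` numbers of sites; raw closeness, numbers of `ExNum`, `RfNum`, `GdNum` of the annulus step (1) and of the content
step (2); blobs -/
structure InsPr where
  mu : ℝ
  h1 : ℝ
  uu : ℝ
  nS : ℝ
  nF : ℝ
  cw : ℕ
  e1 : ℝ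
  q1 : ℝ
  W1 : ℝ
  K1 : ℝ
  x1 : ℝ
  r1 : ℝ
  k1 : ℝ
  f1 : ℝ
  g1 : ℝ
  v1 : ℝ
  pB1 : ℝ
  WB1 : ℝ
  t1 : ℝ
  l1 : ℝ
  a1 : ℝ
  b1 : ℝ
  c1 : ℝ
  n1 : ℕ
  e2 : ℝ
  q2 : ℝ
  W2 : ℝ
  K2 : ℝ
  x2 : ℝ
  r2 : ℝ
  k2 : ℝ
  f2 : ℝ
  g2 : ℝ
  v2 : ℝ
  pB2 : ℝ
  WB2 : ℝ
  t2 : ℝ
  l2 : ℝ
  a2 : ℝ
  b2 : ℝ
  c2 : ℝ
  n2 : ℕ
  Ml : ℝ
  R0 : ℝ
  rb : ℕ
  Db : ℕ
  nb : ℕ
  lb : ℕ
  B1 : ℝ
  B2 : ℝ
  errm : ℝ
  bem : ℝ
  c3 : ℝ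

/-- THE NUMERICAL HYPOTHESES of one insertion; `CD` diameter of the clusters, `R` radius of the holes, `J` number of the pieces,
`WS = W + sep`, `rF` radius of the target surface, `cK`, `c0` constants of the chains -/
structure InsNm (d L : ℕ) (f : Fix) (u : UTol) (P : Par) (n s s' CD R J WS rF cK c0 : ℕ)
    (p : InsPr) : Prop where
  sh : ANI.ShNum (P.kap n) P.vi P.vt P.b P.s5 s s'
  rc : CD + R ≤ s' + s' / 4
  L4 : 4 * s' + 1 ≤ L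
  LS : 2 * (CD + c0 + 2) ≤ L
  LK : 2 * (cK + 1) ≤ L
  /-- general numbers -/
  kap1 : P.kap n ≤ 1
  kap2 : P.eta + P.kap n * (‖f.g0‖ + (P.del0 + (1 + 1))) ≤ 1
  rho0 : 0 < u.rho
  rho : u.rho ≤ 2
  hs5 : P.s5 = f.s
  s50 : 0 ≤ P.s5
  fr0 : 1 ≤ f.r0
  Lam0 : 0 ≤ u.Lam
  C20 : 0 ≤ u.C2
  tau0 : 0 ≤ u.tau
  dS : u.dS ≤ 1
  /-- weights -/
  mu0 : 0 < p.mu
  mu1 : p.mu ≤ 1
  mul : 8 * d * p.mu ≤ P.cl * P.kap (n + 1) * f.c1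
  mus : 8 * d * p.mu ≤ P.cs * P.kap (n + 1)
  cw : cK ≤ p.cw
  tr : 4 * ANI.tRf f u ≤ 1
  /-- counting -/
  hS : ((J * (2 * WS + 1) ^ d * (2 * R + 1) ^ d : ℕ) : ℝ) ≤ p.nS
  hF : ((J * (2 * WS + 1) ^ d : ℕ) : ℝ) ≤ p.nF
  /-- the annulus -/
  hh0 : 0 ≤ p.h1
  huu : p.h1 + P.eta + P.kap n * f.C1 ≤ p.uu
  an : ∀ t : Tol d L, t.kl = P.cl * P.kap (n + 1) →
    ANI.AnnNum f t u p.nS p.uu P.s5 p.e1 p.q1 p.W1 p.K1 4 p.cw p.mu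
  ex1 : ANI.ExNum f u p.e1 p.x1 ((4 : ℕ) / (2 * p.mu)) p.cw d p.n1
  rf1 : ∀ t : Tol d L, t.kl = P.cl * P.kap (n + 1) →
    ANI.RfNum f t u P.s5 p.e1 p.q1 p.W1 p.r1 p.k1 p.f1 p.g1 p.v1 4 p.n1
  pB1 : p.nS * (u.Lam ^ 2 * (P.eta + P.kap n * f.C1)) ≤ p.pB1
  WB1 : p.nS * ((P.eta + P.kap n * f.C1) * f.C1) ≤ p.WB1
  tt1 : ANI.TotN d f u P.b4 n s' (ANI.tRf f u * (p.mu / (4 : ℕ))) (p.e1 + p.f1)
    (8 * (p.q1 + p.g1)) (2 * (p.W1 + p.v1))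
    (ANI.kTot f u p.nS p.k1 p.K1 d 4 p.cw p.mu (CD + R : ℕ)) p.pB1 p.WB1 p.nS u.C0 p.cw 4 p.mu
    p.t1 p.l1 p.a1 p.b1 p.c1 (CD + R : ℕ) p.B1 p.B2 p.errm p.bem p.c3
  ec : 2 * (p.e1 + p.f1) ≤ f.c1
  qc : 0 ≤ p.q1 + p.g1
  /-- the content -/
  Ml : 0 ≤ p.Ml
  R0 : f.r0 ≤ p.R0
  R0' : p.R0 ≤ R + 1
  lb1 : 2 * WS ≤ p.lb
  lb2 : 2 * rF ≤ p.lb + 1
  rb1 : p.rb + 2 * rF ≤ p.lb + 1
  rb2 : p.rb + rF ≤ R + 1
  Db : J * (2 * WS + p.lb) + 2 * rF ≤ p.Db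
  nb : J * (2 * WS + 1) ^ d * (2 * rF + 1) ^ d ≤ p.nb
  cn : ANI.ContNum f u J p.rb p.Db p.nb d p.Ml (u.Lam * f.r0 ^ P.s5 + u.C2 + (p.e1 + p.f1))
    (8 * (u.tau + 8 * (p.q1 + p.g1))) rF P.s5 p.e2 p.q2 p.W2 p.K2 4 p.cw p.mu
  ex2 : ANI.ExNum f u p.e2 p.x2 ((4 : ℕ) / (2 * p.mu)) p.cw d p.n2
  rf2 : ∀ t : Tol d L, t.kl = P.cl * P.kap (n + 1) →
    ANI.RfNum f t u P.s5 p.e2 p.q2 p.W2 p.r2 p.k2 p.f2 p.g2 p.v2 4 p.n2
  pB2 : p.nS * (u.Lam ^ 2 * (P.eta + P.kap n * f.C1)) + p.nF * (u.C2 * p.R0 ^ (-f.s)) ^ 2 ≤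
    p.pB2
  WB2 : p.nS * ((P.eta + P.kap n * f.C1) * f.C1) + p.nF * f.C1 ≤ p.WB2
  tt2 : ANI.TotN d f u P.b4 n s' (ANI.tRf f u * (p.mu / (4 : ℕ)))
    (p.e1 + p.f1 + 2 * (p.e2 + p.f2)) (8 * (8 * (p.q1 + p.g1) + 8 * (p.q2 + p.g2)))
    (2 * (2 * (p.W1 + p.v1) + 4 * (2 * (p.W2 + p.v2))))
    (ANI.kTot f u p.nS p.k1 p.K1 d 4 p.cw p.mu (CD + R : ℕ) +
      ANI.kTot f u p.nF p.k2 p.K2 d 4 p.cw p.mu (CD + R : ℕ)) p.pB2 p.WB2 (p.nS + p.nF) u.C0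
    p.cw 4 p.mu p.t2 p.l2 p.a2 p.b2 p.c2 (CD + R : ℕ) p.B1 p.B2 p.errm p.bem p.c3

variable {d L : ℕ} [NeZero L] {X : Type} [Fintype X] [DecidableEq X]

/-- the surfaces at the start of super-stage `j + 1` -/
theorem cp_eS_run {g : ANQ.Geo (Tor d L)} {A : ANQ.Ana (Tor d L) X} {W : ℕ → ℕ} {V : ℕ}
    {K : Tor d L → Finset X} {r : ℕ → ℕ} (hG : CGeo g W V) (hP : PercIn g A K r) {j c0 : ℕ}
    (hc0 : cK g W V j (r (j + 1)) ≤ c0) (v : Tor d L → X) :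
    CP g.dist (eS (g.run A (j + 1) v)) 4 c0 := by
  have h1 := (cp_run (A := A) hG hP (j + 1) v).mono (le_refl 4) hc0
  unfold eS
  rw [coe_union]
  exact h1

/-- the facts about the state of the process when the cluster `F` is tested: `S` sites of the annulus which were not read,
`c` centre, `ca` anchor, `π1` annulus read, `π2` everything read -/
structure InsSt (D : Dat d L X) (n s s' ρ : ℕ) (Fd Fd' : Fld (Tor d L)) (π π1 π2 : Prof (Tor d L))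
    (v : Tor d L → X) (S F : Finset (Tor d L)) (c ca : Tor d L) (h1 nS nF R0 : ℝ) : Prop where
  p1 : ReadP π π1 S
  p2 : ReadP π1 π2 F
  lv1 : ∀ x ∈ π1.rd, π1.lev x = D.g.nf
  lv2 : ∀ x ∈ π2.rd, π2.lev x = D.g.nf
  Sr : Disjoint S π.rd
  Fr : Disjoint F π1.rd
  S0 : S.Nonempty
  F0 : F.Nonempty
  ne : ∃ x, x ∉ π.rd ∧ x ∉ S ∧ x ∉ F
  act : ∀ x ∈ S, x ∈ π.act ∨ x ∈ π.ine
  hh : ∀ x ∈ S, |D.Y.hh D.g.nf (v x) - D.Y.hh (π.lev x) (v x)| ≤ h1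
  ctr : ∀ z ∈ S ∪ F, dT z c ≤ ρ
  anc : dT c ca ≤ s
  nS : (S.card : ℝ) ≤ nS
  nF : (F.card : ℝ) ≤ nF
  far : ∀ x, x ∉ π.rd → x ∉ S → x ∉ F → ∀ y ∈ F, R0 ≤ (td x y : ℝ)
  lvp : LvP D.ana n π1 v
  inv : ∀ G, D.GoodAt n G π1 v → D.Inv n G π1 v
  fld : Fd' = Fd.ins D.P n s 1 {ca}

/-- THE TWO STEPS for an abstract state -/
theorem ins_core {D : Dat d L X} (hd : 3 ≤ d) {Jm n1 : ℕ} {k0 be0 Lam th e rho : ℝ}
    {dA : ℕ → ℝ} (h : InH D Jm n1 k0 be0 Lam th e rho dA)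
    (hav : ANI.Avoid (H0T d L) (D.Y.hh D.g.nf) D.Y.E) {n s s' CD R J WS rF cK c0 : ℕ} {p : InsPr}
    (hn : n ≤ n1) (hN : InsNm d L D.f (D.uN k0 rho Lam dA n) D.P n s s' CD R J WS rF cK c0 p)
    {Fd Fd' : Fld (Tor d L)} (hF0 : Fd.Pos)
    (hfd : FldIn D.f Fd (k0 ^ (D.P.vi / 2)) (k0 ^ (D.P.vp / 2)) (ANC.aeB k0 D.P.eta D.P.vi n)
      (Lam + 1) 1)
    (hfd' : FldIn D.f Fd' (k0 ^ (D.P.vi / 2)) (k0 ^ (D.P.vp / 2)) (ANC.aeB k0 D.P.eta D.P.vi n)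
      (Lam + 1) 1) {π π1 π2 : Prof (Tor d L)} {v : Tor d L → X} {S F : Finset (Tor d L)}
    {c ca : Tor d L} (hS : InsSt D n s s' (CD + R) Fd Fd' π π1 π2 v S F c ca p.h1 p.nS p.nF p.R0)
    {M0 : Med (Tor d L)} (hM0 : InC D k0 rho Lam dA n Fd π v M0)
    (hH3 : ANI.H3D D.P D.Sf n Fd π v M0 p.B1 p.B2 p.errm p.bem p.c3) {κ : Type*}
    {E : κ → Set (Tor d L)}
    (hw : Wts D.f (tolAt D.P D.Sf n Fd π v M0) M0 (S ∪ F) E 4 p.cw p.mu) {m : ℕ} (hm : m ≤ J)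
    {Fb Db : ℕ → Finset (Tor d L)} {Dt : Finset (Tor d L)}
    (hgeo : ∀ M1 : Med (Tor d L), M1.U = π1.rd →
      ANI.CGeo M1 F M0.nr m Fb Db p.rb p.Db p.nb (rF : ℝ))
    (hbd : ∀ i < m, bdy (H0T d L) (Db i) ⊆ bdy (H0T d L) Dt) :
    ∃ M1, IsMed (H0T d L) D.Y π1 v M1 ∧ (∀ x, (M1.b x).im ≤ 0) ∧
      (∀ x y, x ∉ M0.U → y ∉ M0.U →
        ‖rsc (H0T d L) M1.b x y - rsc (H0T d L) M0.b x y‖ ≤ p.e1 + p.f1) ∧
      ((∀ y ∈ bdy (H0T d L) Dt, LevLe (H0T d L) M1.b F y p.Ml) → D.GoodAt n Fd' π2 v) := by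
  have hB := h.ns.toNumB
  have hP := hB.P
  have hPos : Fd'.Pos := by
    rw [hS.fld]
    exact hF0.mono (Fld.le_ins hP _ _ _ _ _)
  have hInsM : ANI.InsM D.f D.P D.Sf D.Y n D.g.nf Fd π v M0 (D.uN k0 rho Lam dA n)
      (D.uN k0 rho Lam dA n).C0 := {
    med := hM0.med
    good := hM0.good
    tin := hM0.inn
    num := hM0.num
    bas := ⟨hN.kap1, hN.rho0, hN.rho, hN.hs5, hN.s50, hN.fr0, hN.Lam0, hN.C20, hN.tau0⟩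
    fdn := {
      cl := hM0.num.kl.le
      et1 := hfd.et
      et0 := hF0.et
      e1 := fun x => by
        have h1 := hfd.err x
        have h2 := (h.num n hn).err1
        have h3 := hP.kap n
        have h4 := hN.kap2
        refine le_trans ?_ h4
        show D.P.eta + D.P.kap n * (‖D.f.g0‖ + (D.P.del0 + (Fd.err x + 1))) ≤ _
        have h5 : Fd.err x ≤ 1 := h1.trans h2
        gcongr
      C := fun i x => hM0.inn.C0 i x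
      dl := fun x _ => (hM0.inn.dS x).trans hN.dS }
    av := hav
    eta := by rw [hB.eta]; exact hP.eta }
  obtain ⟨M1, hR1, hmed1, hcls1, hg1⟩ := ANI.ann_det hd (s := s) (s' := s') (c := c) (c0 := ca)
    hInsM hH3 hN.sh hS.anc hS.p1 hS.lv1
    hS.Sr hS.S0 hS.act (h1 := p.h1) (uu := p.uu) hS.hh hN.hh0
    (by rw [hB.eta]; exact hN.huu) (hw.sub subset_union_left) (ρc := CD + R)
    (fun z hz => hS.ctr z (mem_union_left _ hz)) hN.rc hN.L4 hS.nS (hN.an _ rfl) hN.ex1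
    (hN.rf1 _ rfl) hN.tr hN.pB1 hN.WB1 hN.tt1
  have hg1' : Good D.f (tolAt D.P D.Sf n Fd' π1 v M1) M1 := by rw [hS.fld]; exact hg1
  have hI1 := h.inC hn hPos hfd' hS.lvp (hS.inv _ ⟨M1, hmed1, hg1'⟩) hmed1 hg1'
  refine ⟨M1, hmed1, (hg1'.admN hI1.inn hI1.num).im, ?_, ?_⟩
  · intro x y hx hy
    have h1 := hcls1.rel x (mem_nr.2 hx) y (mem_nr.2 hy)
    have h2 := ANI.om5_ge_one (s := D.P.s5) hN.s50 x y
    have h3 := norm_nonneg (rsc (H0T d L) M1.b x y - rsc (H0T d L) M0.b x y)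
    have h4 := mul_le_mul_of_nonneg_left h2 h3
    linarith
  · intro hlev
    have hM1U : M1.U = π1.rd := hmed1.U
    have hne : ∃ x, x ∉ M0.U ∧ x ∉ S ∧ x ∉ F := by
      rw [hM0.med.U]
      exact hS.ne
    obtain ⟨M2, -, hmed2, hg2⟩ := ANI.cont_det hd (s := s) (s' := s') (c := c) (c0 := ca)
      (S := S) hInsM hH3 hN.sh hS.anc hS.p1 hS.p2
      hS.lv2 hS.Sr hS.Fr hS.F0 hne hS.act hw hR1 hmed1 hcls1 hN.ec (by
        have := hN.qc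
        linarith) hN.kap1 rfl rfl hg1' hI1.inn hI1.num (hgeo M1 hM1U)
      (fun i hi y hy => hlev y (hbd i hi hy)) hN.Ml hN.R0
      (fun x hx => hS.far x (by rwa [hM0.med.U] at hx)) (ρc := CD + R) hS.ctr hN.rc hN.L4 hS.nS
      hS.nF hm hN.cn hN.ex2 (hN.rf2 _ rfl) hN.tr hN.pB2 hN.WB2 hN.tt2
    refine ⟨M2, hmed2, ?_⟩
    rw [hS.fld]
    exact hg2

end Pool.Agent.AND
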