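import Pool.Agent.AND.CpGlue
import Pool.Agent.ANQ.ProcTor
import Pool.Agent.ANC.Rj

/-!
# AND / PercTop: geometry and percolation of the weak sites on the torus

* `cgeo_tor`: the geometric hypotheses `CGeo` hold on `torGeo` for all small `k0`;
* `perc_tor`: the field `perc` on the torus with `xp j = an j ^ 5`, scale `r j = rj k0 al w j`.
-/

set_option autoImplicit false

namespace Pool.Agent.AND

open Finset Filter Topology Pool.Agent.ANM Pool.Agent.ANB Pool.Agent.Kin Pool.Agent.APS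
open Pool.Agent.ANQ (Ana torGeo VV)
open Pool.Agent.ANP (IsLaw Pr dT)

/-- THE GEOMETRIC HYPOTHESES on the torus -/
theorem cgeo_tor (d J cs : ℕ) {al : ℕ} (hal : 2 ≤ al) {v2 : ℝ} (hv : 0 ≤ v2) (hv1 : v2 ≤ 1) :
    ∀ᶠ k0 in 𝓝[>] (0 : ℝ), ∀ (N nf : ℕ) [NeZero N],
      CGeo (torGeo d N k0 al J cs v2 nf) (ANC.dW k0 al) (VV d cs) := by
  filter_upwards [ANQ.par_ok d J cs hal hv hv1, ANC.large_le 2 J (VV d cs) hal hv hv1]
    with k0 h1 h2 N nf _
  refine ⟨ANP.nmet_dT, ANP.geo_dT, ANP.sep_dT, fun j x => ANQ.tor_cor j x, h1 N nf, fun i => ?_⟩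
  have h3 : 2 ^ (i + 3) * ((torGeo d N k0 al J cs v2 nf).J * VV d cs + 1) *
      (2 * (torGeo d N k0 al J cs v2 nf).R (i + 1) +
        2 * (torGeo d N k0 al J cs v2 nf).side i + 2) =
      2 * (2 ^ (i + 2) * (J * VV d cs + 1) *
        (2 * ANC.hR k0 al v2 (i + 1) + 2 * ANC.side k0 al i + 2)) := by
    have e1 : (torGeo d N k0 al J cs v2 nf).J = J := rfl
    have e2 : (torGeo d N k0 al J cs v2 nf).R (i + 1) = ANC.hR k0 al v2 (i + 1) := rfl
    have e3 : (torGeo d N k0 al J cs v2 nf).side i = ANC.side k0 al i := rfl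
    rw [e1, e2, e3]
    ring
  rw [h3]
  exact h2 i

/-- THE PERCOLATION EVENTS on the torus (field `perc` of `ProcIn`) -/
theorem perc_tor (d J : ℕ) {cs : ℕ} (hcs : 4 ≤ cs) {al : ℕ} (hal : 2 ≤ al) (v2 : ℝ) {K1 w : ℝ}
    (hK : 0 ≤ K1) (hw : 0 < w) (hw1 : w ≤ 1) :
    ∀ᶠ k0 in 𝓝[>] (0 : ℝ), ∀ (N nf : ℕ) [NeZero N] (X : Type) [Fintype X] [DecidableEq X]
      (wt : Tor d N → X → ℝ) (K : Tor d N → Finset X) (q : ℝ), IsLaw wt →
      (∀ x, ∑ a ∈ K x, wt x a ≤ q) → 0 ≤ q → 16 * ((3 ^ d : ℕ) : ℝ) ^ 4 * q ≤ 1 →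
      ∀ (j : ℕ) (C : Finset (Tor d N)), ANQ.SepBy ((torGeo d N k0 al J cs v2 nf).sp j) C →
        Pr wt {u | ∀ L ∈ C, u ∈ PE (torGeo d N k0 al J cs v2 nf) K (ANC.rj k0 al w) j L} ≤
          (ANC.an k0 al K1 j ^ 5) ^ C.card := by
  filter_upwards [ANC.perc_le (5 ^ d * 2 ^ d) (2 * d) (K1 := K1) (w := w) hal hK (by positivity) hw,
    ANC.rj_side 8 hal hw.le hw1, ANC.rj_sep hcs hal hw.le hw1,
    ANC.ev_small (show (0 : ℝ) < 1 / 2 by norm_num)] with k0 h1 h2 h3 hk N nf _ X _ _ wt K q hwt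
      hKq hq0 hq j C hC
  have hk0 := hk.1
  have hk1 : k0 < 1 := by linarith [hk.2]
  have hs := ANC.side_pos k0 al j
  have h8 : 8 * ANC.rj k0 al w j + 8 ≤ ANC.side k0 al j := by
    have h4 := h2 j
    have h5 : ((8 * ANC.rj k0 al w j + 8 : ℕ) : ℝ) ≤ (ANC.side k0 al j : ℝ) := by
      push_cast
      linarith
    exact_mod_cast h5
  -- the ball
  have hZ : ∀ L, ((torGeo d N k0 al J cs v2 nf).nbhd (4 * ANC.rj k0 al w j)
      ((torGeo d N k0 al J cs v2 nf).cell j L)).card ≤ (5 * ANC.side k0 al j) ^ d := by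
    intro L
    have h5 : (torGeo d N k0 al J cs v2 nf).nbhd (4 * ANC.rj k0 al w j)
        ((torGeo d N k0 al J cs v2 nf).cell j L) ⊆
        univ.filter fun y : Tor d N => dT L y ≤ 2 * ANC.side k0 al j := by
      intro x hx
      obtain ⟨y, hy, hxy⟩ := ANQ.Geo.mem_nbhd.1 hx
      have h6 : dT y L ≤ ANC.side k0 al j := by
        have h7 := ANQ.Geo.mem_cell.1 hy
        have h9 : dT y (ANP.cor (ANC.side k0 al j) y) ≤ ANC.side k0 al j :=
          (ANP.dT_cor hs y).trans (Nat.sub_le _ _)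
        have h10 : ANP.cor (ANC.side k0 al j) y = L := h7
        rwa [h10] at h9
      refine mem_filter.2 ⟨mem_univ _, ?_⟩
      have h7 := ANP.nmet_dT.tri L y x
      have h9 := ANP.nmet_dT.symm L y
      have h10 := ANP.nmet_dT.symm y x
      have hxy' : dT x y ≤ 4 * ANC.rj k0 al w j := hxy
      omega
    refine (card_le_card h5).trans ((ANP.card_ball L _).trans (Nat.pow_le_pow_left ?_ d))
    omega
  refine perc_bound (g := torGeo d N k0 al J cs v2 nf) (w := wt) (K := K) (r := ANC.rj k0 al w)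
    (V := 3 ^ d) (Z := (5 * ANC.side k0 al j) ^ d) hwt ANP.nmet_dT hKq hq0
    (Nat.one_le_pow _ _ (by norm_num)) (fun x => ?_) (fun x => ?_) (h3 j) hZ ?_ C hC
  · exact ANP.card_ball x 1
  · exact (ANP.dT_cor hs x).trans (Nat.sub_le _ _)
  · refine h1 j _ _ (by positivity) ?_ (by positivity) ?_
    · have hkp := ANC.ks_pos hk0 al (j + 1)
      have h5 := (ANC.side_rpow hk0 hk1 al j).2
      have h6 : ANC.ks k0 al (j + 1) ^ (-((2 : ℝ) * d)) =
          (ANC.ks k0 al (j + 1) ^ (-2 : ℝ)) ^ d := by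
        rw [← Real.rpow_natCast, ← Real.rpow_mul hkp.le]
        congr 1
        ring
      rw [h6, ← mul_pow, ← mul_pow]
      push_cast
      refine pow_le_pow_left₀ (by positivity) ?_ d
      linarith
    · linarith

end Pool.Agent.AND
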