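import Pool.Agent.AND.Goals
import Pool.Agent.AND.LeakD
import Pool.Agent.AND.PercTop

/-! # AND LEAKGOAL: `LeakGoal` from the numbers and from the insertion theorem

`LkN` = the numbers of the leak tests of super-stage `j + 1`, `LkAll` = their conditions, `LeakNumGoal`, `InsGoal` = the two
statements which are needed; `leak_goal_of` : `LeakGoal`. -/

set_option autoImplicit false
set_option linter.unusedSectionVars false

open Finset Filter Topology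

noncomputable section

namespace Pool.Agent.AND

open Pool.Agent.Kin Pool.Agent.APS Pool.Agent.ANM Pool.Agent.ANC Pool.Agent.ANB Pool.Agent.ANQ

/-- the numbers of the leak tests: `c0` = constant of the chain property, `N` surfaces at mutual distance `dl`, `dl'` = distance
of the comparison domain, `nb n0 nP` = numbers of sites, `Δs` = separation of the surfaces, `Rf` = distance from the target
surface to the boundary of the comparison domain, `cw` = constant of the weights; `ε1` = closeness of the annulus medium,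
`Ml` = bound of the leverages, `ε` = size of the small balls -/
structure LkN where
  c0 : ℕ
  N : ℕ
  dl : ℕ
  dl' : ℕ
  nb : ℕ
  n0 : ℕ
  nP : ℕ
  Δs : ℕ
  Rf : ℕ
  cw : ℕ
  μ : ℝ
  ε1 : ℝ
  δ1 : ℝ
  c : ℝ
  C : ℝ
  γ : ℝ
  δ : ℝ
  Ml : ℝ
  ϑ : ℝ
  ε : ℝ
  Lc : ℝ

/-- the conditions on the numbers for super-stage `j + 1`; `W V r` = geometry, scales of the percolation -/
structure LkAll {d L : ℕ} [NeZero L] {X : Type} [Fintype X] (D : Dat d L X) (Lw : Law X)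
    (lam k0 rho Lam : ℝ) (dA : ℕ → ℝ) (W : ℕ → ℕ) (V : ℕ) (r : ℕ → ℕ) (j : ℕ) (n : LkN) :
    Prop where
  hc0 : cK D.g W V j (r (j + 1)) ≤ n.c0
  hO : LOk (D.g.par W V) j n.c0 n.N n.dl n.dl'
  hr : 2 * (n.dl' + 2 * n.c0) ≤ D.g.rho (j + 1)
  hnb : D.g.J * (2 * (W j + D.g.sep j) + 1) ^ d *
    (2 * ((n.N + 1) * (n.dl + n.c0) + n.c0 + 1) + 1) ^ d ≤ n.nb
  hn0 : D.g.J * (2 * (W j + D.g.sep j) + 1) ^ d * (2 * (n.c0 + 1) + 1) ^ d ≤ n.n0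
  hnP : D.g.J * (2 * (W j + D.g.sep j) + 1) ^ d * (2 * (n.dl' + 2 * n.c0 + 1) + 1) ^ d ≤ n.nP
  hN : LkFN d D.f (D.uN k0 rho Lam dA (D.g.lv (j + 1 + 1))) n.Δs n.Rf n.cw
    (D.P.cl * D.P.kap (D.g.lv (j + 1 + 1) + 1)) (D.P.cs * D.P.kap (D.g.lv (j + 1 + 1) + 1))
    n.μ n.ε1 n.δ1 n.c n.C n.γ n.δ
  hΔs : n.Δs + 2 ≤ n.dl
  hRf : n.Rf + D.g.R (j + 1) + 1 ≤ n.dl'
  hcw : cK D.g W V (j + 1) (r (j + 1)) ≤ n.cw
  hn : LkNum n.N n.nb n.n0 n.nP (2 * d) D.f.c1 n.δ1 n.ϑ n.c n.C n.γ n.δ n.Ml n.ε n.Lc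
  hdg : Lw.D / Lw.ep * (2 ^ D.g.lv (j + 1) * (3 * n.ε / lam) / Lw.S +
    2 ^ (D.g.lv (j + 1) + 1) / 2 ^ Lw.nf) ≤ 6 * n.Lc * n.ε
  hsp : lam * (2 * Lw.S) ≤ 1

variable {d : ℕ} {CM : ℝ}

/-- THE NUMBERS (owner helper53) -/
def LeakNumGoal (LP : LawP) (x : Ex d CM) (c : Cst) (q : Csts) (K1 : ℝ) (nm : ℝ → ℕ → LkN) :
    Prop :=
  ∀ᶠ k0 in 𝓝[>] (0 : ℝ), ∀ (N : ℕ) [NeZero N] (X : Type) [Fintype X] [DecidableEq X] (Lw : Law X)
    (Sf : SiteF X) (lam E es : ℝ) (g0 : ℂ) (gam Lm : ℝ) (M : ℕ),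
    Ctx LP x c q k0 N Lw Sf lam E es g0 gam Lm M → ∀ j < M,
      LkAll (datC x c q N Lw Sf lam E k0 es g0 gam Lm) Lw lam k0 (q.th / 4) Lm
        (fun n => kap k0 n ^ (3 * x.vt)) (dW k0 x.al) (VV d 24) (rj k0 x.al q.w) j (nm k0 j) ∧
      (side k0 x.al (j + 1) : ℝ) ^ d * (nm k0 j).ε ^ (5 * (nm k0 j).n0) ≤
        an k0 x.al K1 (j + 1) ^ 5

/-- THE INSERTION THEOREM (owner helper26) -/
def InsGoal (LP : LawP) (x : Ex d CM) (c : Cst) (q : Csts) (nm : ℝ → ℕ → LkN) : Prop :=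
  ∀ᶠ k0 in 𝓝[>] (0 : ℝ), ∀ (N : ℕ) [NeZero N] (X : Type) [Fintype X] [DecidableEq X] (Lw : Law X)
    (Sf : SiteF X) (lam E es : ℝ) (g0 : ℂ) (gam Lm : ℝ) (M : ℕ),
    Ctx LP x c q k0 N Lw Sf lam E es g0 gam Lm M → ∀ j < M,
      ∀ (D : Dat d N X), D = datC x c q N Lw Sf lam E k0 es g0 gam Lm →
      ∀ v k, ∀ hk : k < (D.g.ilist D.ana (j + 1) (D.g.run D.ana (j + 1) v) v).length, ∀ M0,
        InC D k0 (q.th / 4) Lm (fun n => kap k0 n ^ (3 * x.vt)) (D.g.lv (j + 1 + 1))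
          (D.fd (j + 1) (D.g.irun D.ana (j + 1) k v).don) (D.g.irun D.ana (j + 1) k v).pi v M0 →
        ∃ M1, D.InsM (j + 1) k v (ilF D.g D.ana (j + 1) k v hk)
          (ilDt D.g D.ana (j + 1) (nm k0 j).N (nm k0 j).dl v (ilF D.g D.ana (j + 1) k v hk))
          (nm k0 j).ε1 (nm k0 j).Ml M0 M1

/-- [LEAK] FROM THE NUMBERS AND [INS] -/
theorem leak_goal_of {LP : LawP} {x : Ex d CM} {c : Cst} {q : Csts} {K1 : ℝ}
    {nm : ℝ → ℕ → LkN} (hd : 1 ≤ d) (hN : LeakNumGoal LP x c q K1 nm)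
    (hI : InsGoal LP x c q nm) : LeakGoal LP x c q K1 := by
  filter_upwards [hN, hI, cgeo_tor d x.J 24 x.al2 x.v2_pos.le x.v2_le] with k0 h1 h2 h3 N _ X _ _
    Lw Sf lam E es g0 gam Lm M H j hj hj0
  obtain ⟨j, rfl⟩ : ∃ i, j = i + 1 := ⟨j - 1, by omega⟩
  obtain ⟨hA, hs⟩ := h1 N X Lw Sf lam E es g0 gam Lm M H j (by omega)
  have hins := h2 N X Lw Sf lam E es g0 gam Lm M H j (by omega) _ rfl
  have hG := h3 N Lw.nf
  set D := datC x c q N Lw Sf lam E k0 es g0 gam Lm with hD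
  have hmet : NMet D.g.dist := td_met
  have hpi : PercIn D.g D.ana (fun _ => Kew Lw) (rj k0 x.al q.w) :=
    Dat.percIn (fun _ => Kew Lw) (rj k0 x.al q.w) hmet H.dat.r1 H.dat.rdvd
      (fun n a _ h => wkA_K h) (fun a => wkA_lv0 k0 x.al a) fun j I h => h
  have hgc : q.c1 / 2 ≤ g0.im := by
    have := H.dat.g1
    have := H.ok.c1
    linarith
  refine ⟨(nm k0 j).ε ^ (5 * (nm k0 j).n0), pow_nonneg hA.hn.hε.le _, hs, ?_⟩
  exact Dat.leak_of_ins H.inh Lw H.hlam rfl rfl le_rfl hd hG rfl hpi (by omega)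
    (fun a h => ⟨min_le_right _ _, h⟩) hA.hc0 hA.hO hA.hr hA.hnb hA.hn0 hA.hnP hgc hA.hN hA.hΔs
    hA.hRf hA.hcw hA.hn hA.hdg hA.hsp hins _ _

end Pool.Agent.AND
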