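import Pool.Agent.AND.InsProc
import Pool.Agent.AND.LeakGoal
import Pool.Agent.ANL.Cut

/-!
# AND / InsGoal: `InsGoal` (the insertion theorem for the concrete data) from the numbers

`InsAll` = the numbers of the insertions of super-stage `j + 1`; `InsNmGoal`, `H3DGoal` = the two statements which are needed;
`ins_goal_of` : `InsGoal`.
-/

set_option autoImplicit false
set_option linter.unusedSectionVars false

open Finset Filter Topology

noncomputable section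

namespace Pool.Agent.AND

open Pool.Agent.Kin Pool.Agent.APS Pool.Agent.ANL Pool.Agent.ANM Pool.Agent.ANC Pool.Agent.ANB
open Pool.Agent.ANQ

theorem levLe_mono {ι : Type} [Fintype ι] [DecidableEq ι] {H : Matrix ι ι ℂ} {b : ι → ℂ}
    {F : Finset ι} {a : ι} {m m' : ℝ} (hb : ∀ x, (b x).im ≤ 0) (h : LevLe H b F a m)
    (hm : m ≤ m') : LevLe H b F a m' := fun ψ hψ =>
  (h ψ hψ).trans (mul_le_mul_of_nonneg_right hm (leak_nonneg hb))

/-- the conclusion with worse constants -/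
theorem Dat.InsM.mono {d L : ℕ} [NeZero L] {X : Type} [Fintype X] [DecidableEq X]
    {D : Dat d L X} {j k : ℕ} {v : Tor d L → X} {F Dt : Finset (Tor d L)} {ε1 ε1' Ml Ml' : ℝ}
    {M0 M1 : Med (Tor d L)} (h : D.InsM j k v F Dt ε1 Ml M0 M1) (he : ε1 ≤ ε1')
    (hM : Ml' ≤ Ml) : D.InsM j k v F Dt ε1' Ml' M0 M1 where
  med1 := h.med1
  im1 := h.im1
  clo := fun x y hx hy => (h.clo x y hx hy).trans he
  ok := fun h1 => h.ok fun y hy => levLe_mono h.im1 (h1 y hy) hM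

/-- THE NUMBERS of the insertions of super-stage `j + 1`; `n` = numbers of the leak tests -/
structure InsAll {d L : ℕ} [NeZero L] {X : Type} (D : Dat d L X) (k0 rho Lam : ℝ)
    (dA : ℕ → ℝ) (W : ℕ → ℕ) (V : ℕ) (r : ℕ → ℕ) (j : ℕ) (n : LkN) (p : InsPr) : Prop where
  hr2 : 2 * (W j + D.g.sep j) ≤ D.g.rho (j + 1)
  h1 : D.P.kap (D.g.lv (j + 1 + 1)) ^ (1 / 2 : ℝ) ≤ p.h1
  nm : InsNm d L D.f (D.uN k0 rho Lam dA (D.g.lv (j + 1 + 1))) D.P (D.g.lv (j + 1 + 1))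
    (D.g.side (j + 1)) (D.g.side (j + 1) / 2) ((D.g.par W V).CD j) (D.g.R (j + 1)) D.g.J
    (W j + D.g.sep j) ((n.N + 1) * (n.dl + n.c0) + n.c0 + 1) (cK D.g W V (j + 1) (r (j + 1)))
    n.c0 p
  e : p.e1 + p.f1 ≤ n.ε1
  Ml : n.Ml ≤ p.Ml

variable {d : ℕ} {CM : ℝ}

/-- THE NUMBERS (owner helper20) -/
def InsNmGoal (LP : LawP) (x : Ex d CM) (c : Cst) (q : Csts) (nm : ℝ → ℕ → LkN)
    (pm : ℝ → ℕ → InsPr) : Prop :=
  ∀ᶠ k0 in 𝓝[>] (0 : ℝ), ∀ (N : ℕ) [NeZero N] (X : Type) [Fintype X] [DecidableEq X] (Lw : Law X)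
    (Sf : SiteF X) (lam E es : ℝ) (g0 : ℂ) (gam Lm : ℝ) (M : ℕ),
    Ctx LP x c q k0 N Lw Sf lam E es g0 gam Lm M → ∀ j < M,
      InsAll (datC x c q N Lw Sf lam E k0 es g0 gam Lm) k0 (q.th / 4) Lm
        (fun n => kap k0 n ^ (3 * x.vt)) (dW k0 x.al) (VV d 24) (rj k0 x.al q.w) j (nm k0 j)
        (pm k0 j)

/-- THE DATA OF (H3) (owner helper47) -/
def H3DGoal (LP : LawP) (x : Ex d CM) (c : Cst) (q : Csts) (pm : ℝ → ℕ → InsPr) : Prop :=
  ∀ᶠ k0 in 𝓝[>] (0 : ℝ), ∀ (N : ℕ) [NeZero N] (X : Type) [Fintype X] [DecidableEq X] (Lw : Law X)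
    (Sf : SiteF X) (lam E es : ℝ) (g0 : ℂ) (gam Lm : ℝ) (M : ℕ),
    Ctx LP x c q k0 N Lw Sf lam E es g0 gam Lm M → ∀ j < M,
      ∀ (D : Dat d N X), D = datC x c q N Lw Sf lam E k0 es g0 gam Lm →
      ∀ (Fd : Fld (Tor d N)) (π : Prof (Tor d N)) (v : Tor d N → X) (M0 : Med (Tor d N)),
        Fd.Pos → FldIn D.f Fd (k0 ^ (D.P.vi / 2)) (k0 ^ (D.P.vp / 2))
          (aeB k0 D.P.eta D.P.vi (D.g.lv (j + 1 + 1))) (Lm + 1) 1 →
        InC D k0 (q.th / 4) Lm (fun n => kap k0 n ^ (3 * x.vt)) (D.g.lv (j + 1 + 1)) Fd π v M0 →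
        NWk D.ana π v →
        ANI.H3D D.P D.Sf (D.g.lv (j + 1 + 1)) Fd π v M0 (pm k0 j).B1 (pm k0 j).B2
          (pm k0 j).errm (pm k0 j).bem (pm k0 j).c3

/-- the increments of the conditional means -/
theorem hinc_datC {x : Ex d CM} {c : Cst} {q : Csts} {k0 : ℝ} {N : ℕ} [NeZero N] {X : Type}
    [Fintype X] {Lw : Law X} {Sf : SiteF X} {lam E es : ℝ} {g0 : ℂ} {gam Lm : ℝ}
    (hlam : 0 < lam) (hk : k0 = (lam * (2 * Lw.S)) ^ 2) (n : ℕ) (a : X) :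
    |(datC x c q N Lw Sf lam E k0 es g0 gam Lm).Y.hh Lw.nf a -
      (datC x c q N Lw Sf lam E k0 es g0 gam Lm).Y.hh n a| ≤ kap k0 n ^ (1 / 2 : ℝ) := by
  change |lam * Lw.h Lw.nf a - lam * Lw.h n a| ≤ _
  rw [Lw.h_top le_rfl, ← mul_sub, abs_mul, abs_of_pos hlam]
  have h1 := Lw.V_sub_h n a
  have h2 : kap k0 n ^ (1 / 2 : ℝ) = lam * (2 * Lw.S / 2 ^ n) := by
    have h3 : kap k0 n = (lam * (2 * Lw.S / 2 ^ n)) ^ 2 := by
      rw [hk]
      unfold kap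
      have h4 : (4 : ℝ) ^ n = (2 ^ n) ^ 2 := by
        rw [← pow_mul, mul_comm, pow_mul]
        norm_num
      rw [one_div, inv_pow, h4]
      field_simp
    rw [h3, ← Real.sqrt_eq_rpow, Real.sqrt_sq]
    have h5 : 0 ≤ 2 * Lw.S / 2 ^ n := (abs_nonneg _).trans h1
    exact mul_nonneg hlam.le h5
  rw [h2]
  exact mul_le_mul_of_nonneg_left h1 hlam.le

/-- `InsGoal` FROM THE NUMBERS -/
theorem ins_goal_of {LP : LawP} {x : Ex d CM} {c : Cst} {q : Csts} {K1 : ℝ}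
    {nm : ℝ → ℕ → LkN} {pm : ℝ → ℕ → InsPr} (hd : 3 ≤ d) (hL : LeakNumGoal LP x c q K1 nm)
    (hN : InsNmGoal LP x c q nm pm) (hH : H3DGoal LP x c q pm) : InsGoal LP x c q nm := by
  filter_upwards [hL, hN, hH, cgeo_tor d x.J 24 x.al2 x.v2_pos.le x.v2_le] with k0 h1 h2 h3 h4
    N _ X _ _ Lw Sf lam E es g0 gam Lm M H j hj D hD
  obtain ⟨hA, -⟩ := h1 N X Lw Sf lam E es g0 gam Lm M H j hj
  have hB := h2 N X Lw Sf lam E es g0 gam Lm M H j hj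
  have hC := h3 N X Lw Sf lam E es g0 gam Lm M H j hj D hD
  have hG := h4 N Lw.nf
  have hmet : NMet (td : Tor d N → Tor d N → ℕ) := td_met
  have hpi : PercIn D.g D.ana (fun _ => Kew Lw) (rj k0 x.al q.w) := by
    rw [hD]
    exact Dat.percIn (fun _ => Kew Lw) (rj k0 x.al q.w) hmet H.dat.r1 H.dat.rdvd
      (fun n a _ h => wkA_K h) (fun a => wkA_lv0 k0 x.al a) fun j I h => h
  have hinh : InH D (M + 1) (lv k0 x.al (M + 1)) k0 (k0 ^ (1 / 4 : ℝ)) Lm q.th (q.th / 2)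
      (q.th / 4) (fun n => kap k0 n ^ (3 * x.vt)) := by
    rw [hD]
    exact H.inh
  have hG' : CGeo D.g (dW k0 x.al) (VV d 24) := by
    rw [hD]
    exact hG
  have hgd : D.g.dist = td := by rw [hD]; rfl
  have hav : ANI.Avoid (H0T d N) (D.Y.hh D.g.nf) D.Y.E := by
    have e1 : D.Y.hh D.g.nf = fun a => lam * Lw.V a := by
      rw [hD]
      funext a
      change lam * Lw.h Lw.nf a = _
      rw [Lw.h_top le_rfl]
    have e2 : D.Y.E = E := by rw [hD]; rfl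
    rw [e1, e2]
    exact H.avoid
  rw [← hD] at hA hB
  have hO := hA.hO
  have hoR : D.g.R (j + 1) + 2 ≤ (nm k0 j).dl' := hO.outR
  have hoF : (nm k0 j).dl' + 2 * (nm k0 j).c0 + 1 ≤ D.g.D (j + 1) := hO.fz
  have hoH : (nm k0 j).dl' + 2 * (nm k0 j).c0 + 1 + D.g.R (j + 1) ≤ D.g.rho (j + 1) := hO.rho
  have hJ : D.g.J ≤ D.mJ := by rw [hD]; exact le_rfl
  have hins := Dat.ins_glue hd hinh hav hG' hgd hpi (j := j) (by omega) hO hA.hc0 (by omega)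
    (by omega) hB.hr2 hJ (p := pm k0 j) (fun a => by
      refine le_trans ?_ hB.h1
      have h5 := hinc_datC (x := x) (c := c) (q := q) (N := N) (Sf := Sf) (E := E) (es := es)
        (g0 := g0) (gam := gam) (Lm := Lm) H.hlam H.dat.k (D.g.lv (j + 1 + 1)) a
      rw [← hD] at h5
      have e3 : D.g.nf = Lw.nf := by rw [hD]; rfl
      have e4 : D.P.kap = kap k0 := by rw [hD]; rfl
      rw [e3, e4]
      exact h5) (fun n a hw => by
      subst hD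
      change lam * Lw.h n a = lam * Lw.h Lw.nf a
      rw [Lw.h_top le_rfl, Lw.h_wk (wkA_wk hw)]) hB.nm hC
  intro v k hk M0 hM0
  obtain ⟨M1, hM1⟩ := hins v k hk M0 hM0
  exact ⟨M1, hM1.mono hB.e hB.Ml⟩

end Pool.Agent.AND
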