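import Pool.Agent.ANB.Stride
import Pool.Agent.ANC.Rj

/-!
# AND / PercNum: the numbers of the percolation, the weak values of the algorithm

* `perc_num`: fields `r1`, `rdvd`, `rs`, `xp0`, `xp1` of `Parts` with `r j = rj k0 al w j`,
  `xp j = an k0 al K1 j ^ 5`, for every `qw` with `16 (3 ^ d) ^ 4 qw ≤ 1`;
* `Kew Lw`: the values which are ever weak; `Kew_sum`: their probability is at most `th 0`;
* `wkA Lw n a`: weak at the level `n ≤ nf`; `wkA_wk`, `wkA_K`, `wkA_lv0`, `wkA_congr`, `wkA_iff`.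
-/

set_option autoImplicit false

namespace Pool.Agent.AND

open Finset Filter Topology Pool.Agent.ANC
open Pool.Agent.ANB (Law)

/-- THE NUMBERS OF THE PERCOLATION -/
theorem perc_num (d : ℕ) {al : ℕ} (hal : 2 ≤ al) {K1 w : ℝ} (hK : 0 ≤ K1) (hw : 0 < w)
    (hw1 : w ≤ 1) :
    ∀ᶠ k0 in 𝓝[>] (0 : ℝ),
      (∀ j, 1 ≤ rj k0 al w j) ∧ (∀ j, rj k0 al w j ∣ rj k0 al w (j + 1)) ∧
      (∀ j, 2 * (8 * rj k0 al w j + side k0 al j) ≤ 24 * side k0 al j) ∧
      (∀ j, 0 ≤ an k0 al K1 j ^ 5) ∧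
      ∀ (j : ℕ) (qw : ℝ), 0 ≤ qw → 16 * ((3 : ℝ) ^ d) ^ 4 * qw ≤ 1 →
        2 * ((2 * (4 * rj k0 al w j + side k0 al j) + 1) ^ d : ℕ) *
          (8 * ((3 : ℝ) ^ d) ^ 4 * qw) ^ rj k0 al w j ≤ an k0 al K1 j ^ 5 := by
  filter_upwards [perc_le (5 ^ d * 2 ^ d) (2 * d) (K1 := K1) (w := w) hal hK (by positivity) hw,
    rj_side 8 hal hw.le hw1, ev_small (show (0 : ℝ) < 1 / 2 by norm_num)] with k0 h1 h2 hk
  have hk0 := hk.1
  have hk1 : k0 < 1 := by linarith [hk.2]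
  have h8 : ∀ j, 8 * rj k0 al w j + 8 ≤ side k0 al j := by
    intro j
    have h4 := h2 j
    have h5 : ((8 * rj k0 al w j + 8 : ℕ) : ℝ) ≤ (side k0 al j : ℝ) := by
      push_cast
      linarith
    exact_mod_cast h5
  refine ⟨fun j => rj_pos k0 al w j, fun j => rj_dvd hk0 hk1 hal hw.le (Nat.le_succ j),
    fun j => ?_, fun j => pow_nonneg (an_pos hk0 al K1 j).le _, fun j qw hq0 hq => ?_⟩
  · have := h8 j
    omega
  · refine h1 j _ _ (by positivity) ?_ (by positivity) ?_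
    · have hkp := ks_pos hk0 al (j + 1)
      have h5 := (side_rpow hk0 hk1 al j).2
      have h6 : ks k0 al (j + 1) ^ (-((2 : ℝ) * d)) = (ks k0 al (j + 1) ^ (-2 : ℝ)) ^ d := by
        rw [← Real.rpow_natCast, ← Real.rpow_mul hkp.le]
        congr 1
        ring
      have h7 : ((2 * (4 * rj k0 al w j + side k0 al j) + 1 : ℕ) : ℝ) ≤
          5 * 2 * ks k0 al (j + 1) ^ (-2 : ℝ) := by
        have h9 : 2 * (4 * rj k0 al w j + side k0 al j) + 1 ≤ 5 * side k0 al j := by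
          have := h8 j
          omega
        have h10 : ((2 * (4 * rj k0 al w j + side k0 al j) + 1 : ℕ) : ℝ) ≤
            ((5 * side k0 al j : ℕ) : ℝ) := by exact_mod_cast h9
        refine h10.trans ?_
        push_cast
        linarith
      rw [h6, ← mul_pow, ← mul_pow]
      rw [Nat.cast_pow]
      exact pow_le_pow_left₀ (Nat.cast_nonneg _) h7 d
    · linarith

section law

variable {X : Type} [Fintype X] (Lw : Law X)

open Classical in
/-- the values which are ever weak -/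
noncomputable def Kew : Finset X := univ.filter Lw.ew

/-- their probability -/
theorem Kew_sum : ∑ a ∈ Kew Lw, Lw.p a ≤ Lw.th 0 := by
  classical
  have h := Lw.weak_mass
  unfold Kew
  rw [Finset.sum_filter]
  refine le_trans (le_of_eq ?_) h
  exact Finset.sum_congr rfl fun b _ => by split_ifs <;> rfl

/-- weakness in the algorithm -/
def wkA (n : ℕ) (a : X) : Prop := n ≤ Lw.nf ∧ Lw.wk n a

variable {Lw}

theorem wkA_wk {n : ℕ} {a : X} (h : wkA Lw n a) : Lw.wk n a := h.2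

theorem wkA_K {n : ℕ} {a : X} (h : wkA Lw n a) : a ∈ Kew Lw := by
  classical
  unfold Kew
  exact Finset.mem_filter.2 ⟨Finset.mem_univ _, Lw.ew_of_wk h.1 h.2⟩

theorem wkA_zero (a : X) : ¬ wkA Lw 0 a := fun h => Lw.not_wk_zero a h.2

theorem wkA_lv0 (k0 : ℝ) (al : ℕ) (a : X) : ¬ wkA Lw (min (lv k0 al 0) Lw.nf) a := by
  have h0 : lv k0 al 0 = 0 := rfl
  rw [h0, Nat.zero_min]
  exact wkA_zero a

theorem wkA_iff {n : ℕ} (hn : n ≤ Lw.nf) (a : X) : wkA Lw n a ↔ Lw.wk n a :=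
  ⟨fun h => h.2, fun h => ⟨hn, h⟩⟩

theorem wkA_congr {n : ℕ} {a b : X} (h : Lw.q n a = Lw.q n b) : wkA Lw n a ↔ wkA Lw n b := by
  unfold wkA
  refine and_congr_right fun _ => ?_
  rcases Lw.q_eq h with h1 | h1
  · rw [h1.2]
  · exact iff_of_false h1.1 h1.2.1

end law

end Pool.Agent.AND
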