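import Pool.Agent.AND.DigLaw
import Pool.Agent.AND.Sched
import Pool.Agent.AND.Level
import Pool.Agent.AND.H3A
import Pool.Agent.ANB.Stride

/-! # AND SfLaw: the site functions of the weights of (H3) for a general law

`SfOf L lam nE`: `phi K n a = cL s_K P(no weak cell of level ≤ K above the point | class of level n)`, `cL s_K ≤ κ(K)` on strong
classes (helper52: `phi K / s K` is decreasing in `K`), `om n a = P(no cell above the point is weak | class)`,
`s K = kn L lam K`, `Ks n = {K | n + 1 ≤ K ≤ nE}`.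

* `phi_le_kk`, `phi_le_kn`, `phi_zero`, `phi_next`, `phi_self_ge`, `phi_anti`, `SfOf_om_*`.
* `phi_mart`, `om_mart`: martingale property under the conditional law `claw` of one site.
* `SfOk`: the profile invariants which are used (levels `n`, `n + 1` on the active sites, `≤ n + 1` elsewhere, inert sites are weak).
* `h3In_law`: `Tol.In.h3` for `tolAt` (use of the pair `K = n + 1`).
-/

set_option autoImplicit false

open Matrix Finset

noncomputable section

namespace Pool.Agent.AND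

open Pool.Agent.Kin Pool.Agent.APS Pool.Agent.ANB

variable {X : Type} [Fintype X]

/-- relative variance of the strong classes: `cL * kn n ≤ kk n` -/
def cL (L : Law X) : ℝ := (L.ep / (12 * L.D)) ^ 2

theorem cL_nonneg (L : Law X) : 0 ≤ cL L := sq_nonneg _

theorem cL_pos (L : Law X) : 0 < cL L := by
  unfold cL
  have := L.ep0
  have := L.D0
  positivity

/-- THE SITE FUNCTIONS of a law -/
def SfOf (L : Law X) (lam : ℝ) (nE : ℕ) : SiteF X where
  phi K n a := cL L * kn L lam K * L.pS K n a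
  om := L.om
  s := kn L lam
  Ks n := Finset.Icc (n + 1) nE

variable {L : Law X} {lam E eta : ℝ} {nE : ℕ}

theorem SfOf_pos : (SfOf L lam nE).Pos where
  phi K n a := mul_nonneg (mul_nonneg (cL_nonneg L) (kn_nonneg L lam K)) (L.pS_nonneg K n a)
  om := L.om_nonneg
  s K := kn_nonneg L lam K
  Ks n := Finset.Icc_subset_Icc_left (Nat.le_succ _)

theorem phi_le_kk {K n : ℕ} (h : n ≤ K) (hs : 8 * L.D * 2 ^ K ≤ L.ep * 2 ^ L.nf) (a : X) :
    (SfOf L lam nE).phi K n a ≤ (sysOf L lam E eta).kk n a := by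
  classical
  have h1 : (SfOf L lam nE).phi K n a ≤ lam ^ 2 * cE L.p (L.q n) (L.kp K) a := by
    change cL L * kn L lam K * L.pS K n a ≤ _
    unfold Law.pS
    rw [← cE_smul, ← cE_smul]
    refine cE_mono L.p0 _ fun b _ => ?_
    by_cases hb : L.wk K b
    · rw [if_pos hb, mul_zero]
      exact mul_nonneg (sq_nonneg _) (L.kp_nonneg K b)
    · rw [if_neg hb, mul_one]
      exact kk_low (E := 0) (eta := 0) hb hs
  exact h1.trans (mul_le_mul_of_nonneg_left (L.kp_super h a) (sq_nonneg _))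

theorem phi_le_cL (K n : ℕ) (a : X) : (SfOf L lam nE).phi K n a ≤ cL L * kn L lam K := by
  change cL L * kn L lam K * L.pS K n a ≤ _
  have h1 := mul_le_mul_of_nonneg_left (L.pS_le_one K n a)
    (mul_nonneg (cL_nonneg L) (kn_nonneg L lam K))
  linarith

theorem phi_le_kn (h : cL L ≤ 1) (K n : ℕ) (a : X) :
    (SfOf L lam nE).phi K n a ≤ kn L lam K := by
  refine (phi_le_cL K n a).trans ?_
  have := mul_le_mul_of_nonneg_right h (kn_nonneg L lam K)
  linarith

theorem phi_zero {K n : ℕ} (hnK : n ≤ K) {a : X} (h : L.wk n a) :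
    (SfOf L lam nE).phi K n a = 0 := by
  change cL L * kn L lam K * L.pS K n a = 0
  rw [L.pS_zero hnK h, mul_zero]

/-- ratio of the weight `phi (n+1)` and of the level -/
def thL (L : Law X) : ℝ := cL L * (1 / 2) ^ L.m / 4

theorem thL_nonneg (L : Law X) : 0 ≤ thL L := by
  unfold thL
  have := cL_nonneg L
  positivity

theorem thL_pos (L : Law X) : 0 < thL L := by
  unfold thL
  have := cL_pos L
  positivity

theorem thL_le (L : Law X) : thL L ≤ cL L := by
  unfold thL
  have h1 := cL_nonneg L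
  have h2 : ((1 : ℝ) / 2) ^ L.m ≤ 1 := pow_le_one₀ (by norm_num) (by norm_num)
  have h3 : 0 ≤ ((1 : ℝ) / 2) ^ L.m := by positivity
  nlinarith

theorem phi_next {n : ℕ} (hn : n < L.nf) (a : X) :
    thL L * (sysOf L lam E eta).kk n a ≤ (SfOf L lam nE).phi (n + 1) n a := by
  by_cases h : L.wk n a
  · rw [kk_wk h, mul_zero]
    exact SfOf_pos.phi _ _ _
  · have h1 := L.pS_next hn h
    have h2 : (sysOf L lam E eta).kk n a ≤ kn L lam n := kk_le n a
    change thL L * _ ≤ cL L * kn L lam (n + 1) * L.pS (n + 1) n a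
    rw [kn_succ]
    unfold thL
    have h3 := cL_nonneg L
    have h4 := kn_nonneg L lam n
    have h5 : cL L * (kn L lam n / 4) * (1 / 2) ^ L.m ≤
        cL L * (kn L lam n / 4) * L.pS (n + 1) n a :=
      mul_le_mul_of_nonneg_left h1 (by positivity)
    refine le_trans ?_ h5
    have h7 : 0 ≤ cL L * (1 / 2) ^ L.m / 4 := by positivity
    calc cL L * (1 / 2) ^ L.m / 4 * (sysOf L lam E eta).kk n a
        ≤ cL L * (1 / 2) ^ L.m / 4 * kn L lam n := mul_le_mul_of_nonneg_left h2 h7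
      _ = _ := by ring

theorem phi_self_ge (n : ℕ) (a : X) :
    cL L * (sysOf L lam E eta).kk n a ≤ (SfOf L lam nE).phi n n a := by
  by_cases h : L.wk n a
  · rw [kk_wk h, mul_zero]
    exact SfOf_pos.phi _ _ _
  · change cL L * _ ≤ cL L * kn L lam n * L.pS n n a
    rw [L.pS_self h, mul_one]
    exact mul_le_mul_of_nonneg_left (kk_le n a) (cL_nonneg L)

/-- `phi K n a / s K` is decreasing in `K` -/
theorem phi_anti (hlam : 0 < lam) {K K' : ℕ} (h : K ≤ K') (n : ℕ) (a : X) :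
    (SfOf L lam nE).phi K' n a / (SfOf L lam nE).s K' ≤
      (SfOf L lam nE).phi K n a / (SfOf L lam nE).s K := by
  have hk : ∀ K, 0 < kn L lam K := fun K => by
    unfold kn
    have := L.S0
    positivity
  have e : ∀ K, (SfOf L lam nE).phi K n a / (SfOf L lam nE).s K = cL L * L.pS K n a := by
    intro K
    change cL L * kn L lam K * L.pS K n a / kn L lam K = _
    have := (hk K).ne'
    field_simp
  rw [e, e]
  exact mul_le_mul_of_nonneg_left (L.pS_anti h n a) (cL_nonneg L)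

theorem SfOf_om_nonneg (n : ℕ) (a : X) : 0 ≤ (SfOf L lam nE).om n a := L.om_nonneg n a

theorem SfOf_om_le_one (n : ℕ) (a : X) : (SfOf L lam nE).om n a ≤ 1 := L.om_le_one n a

theorem SfOf_om_zero {n : ℕ} (hn : n ≤ L.nf) {a : X} (h : L.wk n a) :
    (SfOf L lam nE).om n a = 0 := L.om_wk hn h

theorem SfOf_om_ge {n : ℕ} (hn : n < L.nf) {a : X} (h : ¬ L.wk n a) :
    1 - L.th (L.sk n + 1) / L.th (L.sk n) ≤ (SfOf L lam nE).om n a := L.om_ge hn h

/-- the functions of level `n` depend on the class only -/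
theorem SfOf_phi_congr {K n : ℕ} {a b : X} (h : L.q n a = L.q n b) :
    (SfOf L lam nE).phi K n a = (SfOf L lam nE).phi K n b := by
  change cL L * kn L lam K * L.pS K n a = cL L * kn L lam K * L.pS K n b
  unfold Law.pS
  rw [cE_congr _ _ h]

theorem SfOf_om_congr {n : ℕ} {a b : X} (h : L.q n a = L.q n b) :
    (SfOf L lam nE).om n a = (SfOf L lam nE).om n b := cE_congr _ _ h

section mart

variable [DecidableEq X]

/-- MARTINGALE PROPERTY -/
theorem phi_mart (K n : ℕ) (a0 : X) :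
    ∑ a, claw L n a0 a * (SfOf L lam nE).phi K (n + 1) a = (SfOf L lam nE).phi K n a0 := by
  rw [claw_sum]
  change cE L.p (L.q n) (fun a => cL L * kn L lam K * L.pS K (n + 1) a) a0 =
    cL L * kn L lam K * L.pS K n a0
  rw [cE_smul, L.pS_tower K (Nat.le_succ n)]

theorem om_mart (n : ℕ) (a0 : X) :
    ∑ a, claw L n a0 a * (SfOf L lam nE).om (n + 1) a = (SfOf L lam nE).om n a0 := by
  rw [claw_sum]
  exact L.om_tower (Nat.le_succ n) a0

end mart

section use

variable {d Lt : ℕ} [NeZero Lt]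

/-- PROFILE INVARIANTS used for the weights of (H3), level `n` -/
structure SfOk {T : Type} (L : Law X) (n : ℕ) (π : Prof T) (v : T → X) : Prop where
  act : ∀ y ∈ π.act, π.lev y = n ∨ π.lev y = n + 1
  lev : ∀ y, y ∉ π.rd → π.lev y ≤ n + 1
  ine : ∀ y ∈ π.ine, L.wk (π.lev y) (v y)

/-- THE USE OF (H3) AT LEVEL `n` (pair `K = n + 1`, number `1`), general law: `Tol.In.h3` -/
theorem h3In_law {f : Fix} {P : Par} {F : Fld (Tor d Lt)} {n : ℕ} {π : Prof (Tor d Lt)}
    {v : Tor d Lt → X} {M : Med (Tor d Lt)} {u : UTol}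
    (hM : IsMed (H0T d Lt) (sysOf L lam E eta) π v M)
    (hg : Good f (tolAt P (SfOf L lam nE) n F π v M) M)
    (hpos : ∀ y, y ∉ M.U → 0 ≤ io M y) (heta : 0 ≤ P.eta)
    (hok : SfOk L n π v) (hnE : n + 1 ≤ nE) (hnf : n + 1 ≤ L.nf)
    (hs : 8 * L.D * 2 ^ (n + 1) ≤ L.ep * 2 ^ L.nf)
    (hcl : 0 ≤ P.cl) (hcs : 0 ≤ P.cs) (hCz : 0 ≤ P.Cz) (hkap : 0 < P.kap (n + 1))
    (hkn : kn L lam (n + 1) ≤ P.kap (n + 1))
    (hF : ∀ y, 0 ≤ F.err y) (hFb : ∀ y, 0 ≤ F.be y)
    {e1 C1 cI : ℝ} (he1 : 0 ≤ e1) (hcI : 0 < cI)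
    (h1 : ∀ y, P.Cz * F.err y ≤ e1) (h2 : ∀ y, P.Cz * F.be y ≤ e1 * P.cl)
    (h3 : ∀ y, y ∉ M.U → io M y ≤ C1)
    (h4 : ∀ y, P.Cz * F.be y * C1 ≤ e1 * P.cs) (h5 : C1 ≤ 3 / 2 * cI)
    (hst : ∀ y, y ∉ π.act → y ∉ π.rd → y ∉ π.ine →
      cI * (sysOf L lam E eta).kk (π.lev y) (v y) ≤ M.eta y)
    (hr1 : u.rho ≤ thL L - e1) (hr2 : u.rho ≤ 1 / 2 - 2 * e1) (hth : thL L ≤ 1) :
    ∃ K ∈ (tolAt P (SfOf L lam nE) n F π v M).Ks, ∃ φ : ℝ, 0 < φ ∧ ∀ y, y ∉ M.U →
      φ * (tolAt P (SfOf L lam nE) n F π v M).a K y ≤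
        M.k y * (rsc (H0T d Lt) M.b y y).im ∧
      2 * (M.k y * (rsc (H0T d Lt) M.b y y).im) -
        φ * (tolAt P (SfOf L lam nE) n F π v M).a K y +
        φ * (tolAt P (SfOf L lam nE) n F π v M).z K y ≤ (2 - u.rho) * M.eta y := by
  have hA : M.A = π.act := hM.A
  have hU : M.U = π.rd := hM.U
  have hI : M.I = π.ine := hM.I
  have hk : ∀ y ∈ M.A, M.k y = (sysOf L lam E eta).kk (π.lev y) (v y) := by
    intro y hy
    rw [hM.k, kp, if_pos (hA ▸ hy)]
  have hAU : ∀ y ∈ M.A, y ∉ M.U := fun y h h' => Finset.disjoint_left.1 hg.AU h h'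
  have hIU : ∀ y ∈ M.I, y ∉ M.U := fun y h h' => Finset.disjoint_left.1 hg.UI h' h
  have hs0 : 0 ≤ kn L lam (n + 1) := kn_nonneg L lam (n + 1)
  have hrat : kn L lam (n + 1) / P.kap (n + 1) ≤ 1 := by
    rw [div_le_one hkap]; exact hkn
  have hrat0 : 0 ≤ kn L lam (n + 1) / P.kap (n + 1) := div_nonneg hs0 hkap.le
  have hC1' : ∀ y, y ∉ M.U → 0 ≤ C1 := fun y hy => (hpos y hy).trans (h3 y hy)
  refine h3In_B hg hpos heta (n + 1)
    (show n + 1 ∈ Finset.Icc (n + 1) nE from Finset.mem_Icc.2 ⟨le_rfl, hnE⟩)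
    (fun y => (SfOf L lam nE).phi (n + 1) (π.lev y) (v y))
    (fun y => (SfOf L lam nE).om (π.lev y) (v y))
    (fun y => kn L lam (n + 1) * P.Cz * (F.err y / P.kap (n + 1)))
    (fun y => kn L lam (n + 1) * P.Cz * F.be y) 1 (thL L) e1 one_pos
    (mul_nonneg hcs hkap.le) (mul_nonneg hcl hkap.le) (fun y => rfl) (fun y => ?_)
    (fun y hy => ?_) (fun y hy => ?_) (fun y hy => ?_) (fun y hy => ?_)
    (fun y hyA hyU hyI => ?_) (fun y hy => ?_) he1 (by linarith) hr1 hr2
  · -- the form of z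
    have h6 : y ∈ M.I → (SfOf L lam nE).phi (n + 1) (π.lev y) (v y) = 0 := by
      intro hy
      have hw := hok.ine y (hI ▸ hy)
      have hl := hok.lev y (hU ▸ hIU y hy)
      exact phi_zero hl hw
    change (if y ∈ M.A then 0 else (SfOf L lam nE).phi (n + 1) (π.lev y) (v y) *
        (rsc (H0T d Lt) M.b y y).im) +
      kn L lam (n + 1) * P.Cz * (F.err y * ((if y ∈ M.A then P.eta else M.eta y) /
        P.kap (n + 1)) + F.be y * ((SfOf L lam nE).om (π.lev y) (v y) *
          (rsc (H0T d Lt) M.b y y).im)) = _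
    unfold zB uB io
    have h7 : (if y ∈ M.A then 0 else (SfOf L lam nE).phi (n + 1) (π.lev y) (v y) *
        (rsc (H0T d Lt) M.b y y).im) =
        (if y ∈ M.A ∨ y ∈ M.I then 0 else (SfOf L lam nE).phi (n + 1) (π.lev y) (v y) *
        (rsc (H0T d Lt) M.b y y).im) := by
      by_cases hyA : y ∈ M.A
      · rw [if_pos hyA, if_pos (Or.inl hyA)]
      · by_cases hyI : y ∈ M.I
        · rw [if_neg hyA, if_pos (Or.inr hyI), h6 hyI, zero_mul]
        · rw [if_neg hyA, if_neg (not_or.2 ⟨hyA, hyI⟩)]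
    rw [h7]
    change _ = _ + (_ * (if y ∈ M.A then P.eta else M.eta y) + _)
    ring
  · -- lower bound on the active sites
    rw [one_mul, hk y hy]
    rcases hok.act y (hA ▸ hy) with h | h
    · rw [h]
      exact phi_next (by omega) _
    · rw [h]
      have h5 := phi_self_ge (L := L) (lam := lam) (E := E) (eta := eta) (nE := nE) (n + 1) (v y)
      have h6 : 0 ≤ (sysOf L lam E eta).kk (n + 1) (v y) := kk_nonneg _ _
      have h7 := cL_nonneg L
      have h8 := mul_nonneg h7 h6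
      have h9 : thL L * (sysOf L lam E eta).kk (n + 1) (v y) ≤
          cL L * (sysOf L lam E eta).kk (n + 1) (v y) :=
        mul_le_mul_of_nonneg_right (thL_le L) h6
      exact h9.trans h5
  · rw [one_mul, hk y hy]
    refine phi_le_kk ?_ hs _
    rcases hok.act y (hA ▸ hy) with h | h <;> omega
  · rw [one_mul]
    have h6 := h1 y
    have h7 : 0 ≤ P.Cz * F.err y := mul_nonneg hCz (hF y)
    calc kn L lam (n + 1) * P.Cz * (F.err y / P.kap (n + 1))
        = kn L lam (n + 1) / P.kap (n + 1) * (P.Cz * F.err y) := by ring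
      _ ≤ 1 * (P.Cz * F.err y) := mul_le_mul_of_nonneg_right hrat h7
      _ ≤ e1 := by linarith
  · rw [one_mul]
    have h6 : P.cl * P.kap (n + 1) ≤ M.k y := hg.klo y hy
    have h7 : 0 ≤ P.Cz * F.be y := mul_nonneg hCz (hFb y)
    have h8 : (SfOf L lam nE).om (π.lev y) (v y) ≤ 1 := SfOf_om_le_one _ _
    have h9 : 0 ≤ (SfOf L lam nE).om (π.lev y) (v y) := SfOf_om_nonneg _ _
    calc kn L lam (n + 1) * P.Cz * F.be y * (SfOf L lam nE).om (π.lev y) (v y)
        ≤ kn L lam (n + 1) * (P.Cz * F.be y) * 1 := by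
          rw [mul_assoc (kn L lam (n + 1))]
          exact mul_le_mul_of_nonneg_left h8 (mul_nonneg hs0 h7)
      _ ≤ P.kap (n + 1) * (e1 * P.cl) := by
          rw [mul_one]
          exact mul_le_mul hkn (h2 y) h7 hkap.le
      _ = e1 * (P.cl * P.kap (n + 1)) := by ring
      _ ≤ e1 * M.k y := mul_le_mul_of_nonneg_left h6 he1
  · -- static sites
    have hyA' : y ∉ π.act := hA ▸ hyA
    have hyU' : y ∉ π.rd := hU ▸ hyU
    have hyI' : y ∉ π.ine := hI ▸ hyI
    have hlev := hok.lev y hyU'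
    have hio := hpos y hyU
    have hio1 := h3 y hyU
    have hst1 := hst y hyA' hyU' hyI'
    have hk0 : 0 ≤ (sysOf L lam E eta).kk (π.lev y) (v y) := kk_nonneg _ _
    have hη0 : 0 ≤ M.eta y := (mul_nonneg hcI.le hk0).trans hst1
    constructor
    · rw [one_mul]
      have h6 : (SfOf L lam nE).phi (n + 1) (π.lev y) (v y) ≤
          (sysOf L lam E eta).kk (π.lev y) (v y) := phi_le_kk hlev hs _
      calc (SfOf L lam nE).phi (n + 1) (π.lev y) (v y) * io M y
          ≤ (sysOf L lam E eta).kk (π.lev y) (v y) * (3 / 2 * cI) :=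
            mul_le_mul h6 (hio1.trans h5) hio hk0
        _ ≤ 3 / 2 * M.eta y := by linarith
    · rw [one_mul]
      have h6 : P.eta + P.cs * P.kap (n + 1) ≤ M.eta y := hg.eS y hyA hyU hyI
      have h7 : 0 ≤ P.Cz * F.be y := mul_nonneg hCz (hFb y)
      have h8 : (SfOf L lam nE).om (π.lev y) (v y) ≤ 1 := SfOf_om_le_one _ _
      have h9 : 0 ≤ (SfOf L lam nE).om (π.lev y) (v y) := SfOf_om_nonneg _ _
      have h10 : (SfOf L lam nE).om (π.lev y) (v y) * io M y ≤ 1 * C1 :=
        mul_le_mul h8 hio1 hio zero_le_one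
      calc kn L lam (n + 1) * P.Cz * F.be y *
            ((SfOf L lam nE).om (π.lev y) (v y) * io M y)
          ≤ kn L lam (n + 1) * (P.Cz * F.be y) * (1 * C1) := by
            rw [mul_assoc (kn L lam (n + 1))]
            exact mul_le_mul_of_nonneg_left h10 (mul_nonneg hs0 h7)
        _ = kn L lam (n + 1) * (P.Cz * F.be y * C1) := by ring
        _ ≤ P.kap (n + 1) * (e1 * P.cs) := by
            refine mul_le_mul hkn (h4 y) ?_ hkap.le
            exact mul_nonneg h7 (hC1' y hyU)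
        _ = e1 * (P.cs * P.kap (n + 1)) := by ring
        _ ≤ e1 * M.eta y := mul_le_mul_of_nonneg_left (by linarith) he1
  · -- inert sites
    have hw := hok.ine y (hI ▸ hy)
    have hl := hok.lev y (hU ▸ hIU y hy)
    have : (SfOf L lam nE).om (π.lev y) (v y) = 0 := SfOf_om_zero (hl.trans hnf) hw
    rw [this, mul_zero]

end use

end Pool.Agent.AND
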