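import Pool.Agent.AND.InAt
import Pool.Agent.AND.SfLaw
import Pool.Agent.AND.PercNum
import Pool.Agent.AND.NWk
import Pool.Agent.ANI.InsTop

/-! # AND INSH3D: the data of (H3) at an insertion (`ANI.H3D`) for the states of the algorithm

* `SfI D n1 Bp o0` : facts on the site functions, levels `≤ n1 + 1`;
* `h3d_of` : `H3D` for a medium with `InC` whose active sites are not weak;
* `sfI_law` : `SfI` for the site functions `SfOf` of a law. -/

set_option autoImplicit false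
set_option linter.unusedSectionVars false

open Finset

noncomputable section

namespace Pool.Agent.AND

open Pool.Agent.Kin Pool.Agent.APS Pool.Agent.ANC Pool.Agent.ANB
open Pool.Agent.ANI (H3D)

variable {d L : ℕ} [NeZero L] {X : Type}

/-- facts on the site functions which are used at an insertion: `phi K ≤ Bp s_K`, `o0 kap_m^vp ≤ om` on strong values -/
structure SfI (D : Dat d L X) (n1 : ℕ) (Bp o0 : ℝ) : Prop where
  pos : D.Sf.Pos
  Bp0 : 0 ≤ Bp
  phi : ∀ K m a, D.Sf.phi K m a ≤ Bp * D.Sf.s K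
  om1 : ∀ m a, D.Sf.om m a ≤ 1
  wphi : ∀ n ≤ n1, ∀ K ∈ D.Sf.Ks n, ∀ m a, m ≤ n + 1 → D.wk m a → D.Sf.phi K m a = 0
  wom : ∀ m a, m ≤ n1 + 1 → D.wk m a → D.Sf.om m a = 0
  o00 : 0 ≤ o0
  om0 : ∀ m a, m ≤ n1 + 1 → ¬ D.wk m a → o0 * D.P.kap m ^ D.P.vp ≤ D.Sf.om m a

/-- THE DATA OF (H3) AT AN INSERTION -/
theorem h3d_of {D : Dat d L X} {n1 : ℕ} {Bp o0 : ℝ} (hS : SfI D n1 Bp o0) (hP : D.P.Pos)
    {k0 : ℝ} (hkap : D.P.kap = kap k0) (hcl : 0 < D.P.cl)
    (hvp : 0 ≤ D.P.vp) (hvp1 : D.P.vp ≤ 1) {n : ℕ} (hn : n ≤ n1) {F : Fld (Tor d L)}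
    (hF : F.Pos) {e1 e2 an Lam C2 : ℝ} (hb : FldIn D.f F e1 e2 an Lam C2)
    {k0' rho Lam' : ℝ} {dA : ℕ → ℝ} {π : Prof (Tor d L)} {v : Tor d L → X}
    {M : Med (Tor d L)} (hM : InC D k0' rho Lam' dA n F π v M) (hnw : NWk D.ana π v)
    {B1 B2 c3 : ℝ} (hB1 : Bp ≤ B1 * D.P.cl) (hB1' : Bp * D.f.C1 ≤ B1 * D.P.cs)
    (hB2 : 1 ≤ B2 * D.P.cl) (hB2' : D.f.C1 ≤ B2 * D.P.cs) (hc3 : 0 ≤ c3) (hc3' : 16 * c3 ≤ o0) :
    H3D D.P D.Sf n F π v M B1 B2 e1 e2 c3 := by
  have hG := hM.good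
  have hk1 := hP.kap (n + 1)
  have hk := hP.kap n
  have h4 : D.P.kap n = 4 * D.P.kap (n + 1) := by
    rw [hkap, kap_succ]
    ring
  have hC1 : 0 < D.f.C1 := hG.C1_pos hM.inn hM.num
  have hlevI : ∀ y ∈ M.I, π.lev y ≤ n + 1 := by
    intro y hy
    rw [hM.med.I] at hy
    exact hM.lvp.lev y fun h => Finset.disjoint_left.1 hM.inv.ri h hy
  have hwI : ∀ y ∈ M.I, D.wk (π.lev y) (v y) := by
    intro y hy
    rw [hM.med.I] at hy
    exact hM.lvp.iw y hy
  have hpI : ∀ K ∈ D.Sf.Ks n, ∀ y ∈ M.I, D.Sf.phi K (π.lev y) (v y) = 0 := fun K hK y hy =>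
    hS.wphi n hn K hK _ _ (hlevI y hy) (hwI y hy)
  have hoI : ∀ y ∈ M.I, D.Sf.om (π.lev y) (v y) = 0 := fun y hy =>
    hS.wom _ _ ((hlevI y hy).trans (Nat.succ_le_succ hn)) (hwI y hy)
  have heta : ∀ y, y ∉ M.U → 0 ≤ M.eta y := fun y hy => (hG.eta_pos hM.inn hM.num hy).le
  have hio : ∀ y, y ∉ M.U → 0 ≤ io M y := fun y hy => (hG.io_pos hM.inn hM.num hy).le
  have hioC : ∀ y, y ∉ M.U → io M y ≤ D.f.C1 := fun y hy => hG.io_le hM.inn hM.num hy
  -- the basic inequality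
  have key : ∀ (A B : ℝ), 0 ≤ A → A ≤ B * D.P.cl → A * D.f.C1 ≤ B * D.P.cs → ∀ y, y ∉ M.U →
      y ∉ M.I → A * io M y ≤ B / D.P.kap (n + 1) * M.eta y := by
    intro A B hA h1 h2 y hU hI
    have hB : 0 ≤ B := by
      by_contra hc
      push Not at hc
      have := mul_neg_of_neg_of_pos hc hcl
      linarith
    have e0 : B / D.P.kap (n + 1) * M.eta y = B * (M.eta y / D.P.kap (n + 1)) := by ring
    rw [e0]
    by_cases hAct : y ∈ M.A
    · have h3 : D.P.cl * D.P.kap (n + 1) ≤ M.k y := hG.klo y hAct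
      have h5 : M.eta y = D.P.eta + M.k y * io M y := hG.eA y hAct
      have h6 : D.P.cl * io M y ≤ M.eta y / D.P.kap (n + 1) := by
        rw [le_div_iff₀ hk1]
        have h7 := mul_le_mul_of_nonneg_right h3 (hio y hU)
        have h8 := hP.eta
        calc D.P.cl * io M y * D.P.kap (n + 1) = D.P.cl * D.P.kap (n + 1) * io M y := by ring
          _ ≤ M.eta y := by linarith
      calc A * io M y ≤ B * D.P.cl * io M y := mul_le_mul_of_nonneg_right h1 (hio y hU)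
        _ = B * (D.P.cl * io M y) := by ring
        _ ≤ _ := mul_le_mul_of_nonneg_left h6 hB
    · have h3 : D.P.eta + D.P.cs * D.P.kap (n + 1) ≤ M.eta y := hG.eS y hAct hU hI
      have h6 : D.P.cs ≤ M.eta y / D.P.kap (n + 1) := by
        rw [le_div_iff₀ hk1]
        have h8 := hP.eta
        linarith
      calc A * io M y ≤ A * D.f.C1 := mul_le_mul_of_nonneg_left (hioC y hU) hA
        _ ≤ B * D.P.cs := h2
        _ ≤ _ := mul_le_mul_of_nonneg_left h6 hB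
  have hB1n : 0 ≤ B1 := by
    by_contra hc
    push Not at hc
    have := mul_neg_of_neg_of_pos hc hcl
    have := hS.Bp0
    linarith
  have hB2n : 0 ≤ B2 := by
    by_contra hc
    push Not at hc
    have := mul_neg_of_neg_of_pos hc hcl
    linarith
  refine
    { P0 := hP
      S0 := hS.pos
      F0 := hF
      err := fun y _ => hb.err y
      be := fun y _ => hb.be y
      B1 := ?_
      B2 := ?_
      I0 := fun K hK y hy _ => hpI K hK y hy
      om := ?_ }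
  · intro K hK y hU
    have hs := hS.pos.s K
    by_cases hI : y ∈ M.I
    · rw [hpI K hK y hI, zero_mul]
      exact mul_nonneg hs (mul_nonneg (div_nonneg hB1n hk1.le) (heta y hU))
    · calc D.Sf.phi K (π.lev y) (v y) * io M y ≤ Bp * D.Sf.s K * io M y :=
            mul_le_mul_of_nonneg_right (hS.phi _ _ _) (hio y hU)
        _ = D.Sf.s K * (Bp * io M y) := by ring
        _ ≤ _ := mul_le_mul_of_nonneg_left (key Bp B1 hS.Bp0 hB1 hB1' y hU hI) hs
  · intro y hU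
    by_cases hI : y ∈ M.I
    · rw [hoI y hI, zero_mul]
      exact mul_nonneg (div_nonneg hB2n hk1.le) (heta y hU)
    · refine le_trans (mul_le_mul_of_nonneg_right (hS.om1 _ _) (hio y hU)) ?_
      exact key 1 B2 zero_le_one hB2 (by rw [one_mul]; exact hB2') y hU hI
  · intro y hy
    have hya : y ∈ π.act := by
      rw [← hM.med.A]
      exact hy
    have hlev := hM.lvp.act y hya
    have hw := hnw y hya
    have hm1 : π.lev y ≤ n1 + 1 := by
      rcases hlev with h | h <;> omega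
    have h1 := hS.om0 (π.lev y) (v y) hm1 hw
    have hkm : D.P.kap (n + 1) ≤ D.P.kap (π.lev y) := by
      rcases hlev with h | h
      · rw [h, h4]
        linarith
      · rw [h]
    have h2 : D.P.kap (n + 1) ^ D.P.vp ≤ D.P.kap (π.lev y) ^ D.P.vp :=
      Real.rpow_le_rpow hk1.le hkm hvp
    have h3 : o0 * D.P.kap (n + 1) ^ D.P.vp ≤ D.Sf.om (π.lev y) (v y) :=
      (mul_le_mul_of_nonneg_left h2 hS.o00).trans h1
    have h5 : M.k y ≤ D.P.kap n := hG.khi y hy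
    have h6 : D.P.kap n ^ (-D.P.vp) * D.P.kap (n + 1) ^ D.P.vp = (4 : ℝ) ^ (-D.P.vp) := by
      rw [h4, Real.mul_rpow (by norm_num) hk1.le, mul_assoc, ← Real.rpow_add hk1, neg_add_cancel,
        Real.rpow_zero, mul_one]
    have h7 : (1 / 4 : ℝ) ≤ (4 : ℝ) ^ (-D.P.vp) := by
      have : (4 : ℝ) ^ (-1 : ℝ) ≤ (4 : ℝ) ^ (-D.P.vp) :=
        Real.rpow_le_rpow_of_exponent_le (by norm_num) (by linarith)
      rw [Real.rpow_neg_one] at this
      linarith
    have hkp : 0 ≤ D.P.kap n ^ (-D.P.vp) := Real.rpow_nonneg hk.le _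
    have h8 : o0 / 4 ≤ D.P.kap n ^ (-D.P.vp) * D.Sf.om (π.lev y) (v y) := by
      calc o0 / 4 = o0 * (1 / 4) := by ring
        _ ≤ o0 * (4 : ℝ) ^ (-D.P.vp) := mul_le_mul_of_nonneg_left h7 hS.o00
        _ = D.P.kap n ^ (-D.P.vp) * (o0 * D.P.kap (n + 1) ^ D.P.vp) := by
          rw [← h6]
          ring
        _ ≤ _ := mul_le_mul_of_nonneg_left h3 hkp
    calc c3 * M.k y ≤ c3 * D.P.kap n := mul_le_mul_of_nonneg_left h5 hc3
      _ = D.P.kap (n + 1) * (4 * c3) := by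
        rw [h4]
        ring
      _ ≤ D.P.kap (n + 1) * (o0 / 4) := mul_le_mul_of_nonneg_left (by linarith) hk1.le
      _ ≤ _ := mul_le_mul_of_nonneg_left h8 hk1.le

section law

variable [Fintype X]

/-- SITE FUNCTIONS OF A LAW -/
theorem sfI_law {D : Dat d L X} {Lw : Law X} {lam : ℝ} {nE n1 : ℕ} {o0 : ℝ}
    (hSf : D.Sf = SfOf Lw lam nE) (hwk : D.wk = wkA Lw) (hnf : n1 + 1 ≤ Lw.nf)
    (ho : 0 ≤ o0) (hkap1 : ∀ m, D.P.kap m ≤ 1) (hkap0 : ∀ m, 0 ≤ D.P.kap m) (hvp : 0 ≤ D.P.vp)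
    (ho1 : o0 ≤ 1)
    (hom : ∀ m ≤ n1 + 1, o0 * D.P.kap m ^ D.P.vp ≤
      1 - Lw.th (Lw.sk m + 1) / Lw.th (Lw.sk m)) :
    SfI D n1 (cL Lw) o0 where
  pos := by
    rw [hSf]
    exact SfOf_pos
  Bp0 := cL_nonneg Lw
  phi := fun K m a => by
    rw [hSf]
    exact phi_le_cL K m a
  om1 := fun m a => by
    rw [hSf]
    exact SfOf_om_le_one m a
  wphi := fun n _ K hK m a hm hw => by
    rw [hSf] at hK ⊢
    rw [hwk] at hw
    exact phi_zero (hm.trans (Finset.mem_Icc.1 hK).1) (wkA_wk hw)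
  wom := fun m a _ hw => by
    rw [hSf]
    rw [hwk] at hw
    exact SfOf_om_zero hw.1 (wkA_wk hw)
  o00 := ho
  om0 := fun m a hm hw => by
    rw [hSf]
    rw [hwk] at hw
    have hw' : ¬ Lw.wk m a := fun h => hw ⟨hm.trans hnf, h⟩
    rcases Nat.lt_or_ge m Lw.nf with h1 | h1
    · exact (hom m hm).trans (SfOf_om_ge h1 hw')
    · have h2 : m = Lw.nf := le_antisymm (hm.trans hnf) h1
      have h3 : 1 ≤ (SfOf Lw lam nE).om m a := by
        classical
        change 1 ≤ cE Lw.p (Lw.q m) (fun b => if Lw.ew b then 0 else 1) a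
        refine le_trans (le_of_eq (cE_const Lw.p0 (Lw.q m) 1 a).symm) ?_
        refine cE_mono Lw.p0 _ fun b hb => ?_
        have h4 : b = a := Lw.q_top h1 (mem_cl.1 hb)
        have h5 : ¬ Lw.ew a := by
          unfold Law.ew
          rw [← h2]
          exact hw'
        rw [h4, if_neg h5]
      refine le_trans ?_ h3
      have h6 : D.P.kap m ^ D.P.vp ≤ 1 := Real.rpow_le_one (hkap0 m) (hkap1 m) hvp
      have h7 : 0 ≤ D.P.kap m ^ D.P.vp := Real.rpow_nonneg (hkap0 m) _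
      calc o0 * D.P.kap m ^ D.P.vp ≤ 1 * 1 := mul_le_mul ho1 h6 h7 zero_le_one
        _ = 1 := one_mul 1

end law

end Pool.Agent.AND
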