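import Pool.Agent.AND.InsH3G
import Pool.Agent.AND.InsGoal

/-! # AND INSH3F: `H3DGoal` from the facts on the site functions -/

set_option autoImplicit false

open Finset Filter Topology

namespace Pool.Agent.AND

open Pool.Agent.Kin Pool.Agent.APS Pool.Agent.ANM Pool.Agent.ANC Pool.Agent.ANB Pool.Agent.ANQ

/-- `H3DGoal` -/
theorem h3d_goal {d : ℕ} {CM : ℝ} {LP : LawP} {x : Ex d CM} {c : Cst} {q : Csts}
    {pm : ℝ → ℕ → InsPr} {Bp o0 : ℝ}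
    (hS : ∀ᶠ k0 in 𝓝[>] (0 : ℝ), ∀ (N : ℕ) [NeZero N] (X : Type) [Fintype X] [DecidableEq X]
      (Lw : Law X) (Sf : SiteF X) (lam E es : ℝ) (g0 : ℂ) (gam Lm : ℝ) (M : ℕ),
      Ctx LP x c q k0 N Lw Sf lam E es g0 gam Lm M →
        SfI (datC x c q N Lw Sf lam E k0 es g0 gam Lm) (lv k0 x.al (M + 1)) Bp o0)
    (h1 : ∀ k0 j, hB1 c q Bp ≤ (pm k0 j).B1) (h2 : ∀ k0 j, hB2 c q ≤ (pm k0 j).B2)
    (h3 : ∀ k0 j, k0 ^ (x.vi / 2) ≤ (pm k0 j).errm)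
    (h4 : ∀ k0 j, k0 ^ (x.vi / 4) ≤ (pm k0 j).bem) (h5 : ∀ k0 j, 0 ≤ (pm k0 j).c3)
    (h6 : ∀ k0 j, 16 * (pm k0 j).c3 ≤ o0) : H3DGoal LP x c q pm := by
  filter_upwards [h3d_goal_of hS h1 h2 h3 h4 h5 h6] with k0 h N _ X _ _ Lw Sf lam E es g0 gam Lm M
    H j hj D hD Fd π v M0 hF hb hM
  intros
  exact h N X Lw Sf lam E es g0 gam Lm M H j hj D hD Fd π v M0 hF hb (by assumption)

end Pool.Agent.AND
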