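import Pool.Agent.AND.InsH3D
import Pool.Agent.AND.Goals

/-! # AND INSH3G: the data of (H3) at an insertion for the concrete data `datC`

* `h3d_ctx` : `ANI.H3D` for `B1 ≥ hB1 c q Bp`, `B2 ≥ hB2 c q`, `errm ≥ k0^(vi/2)`, `bem ≥ k0^(vi/4)`, `16 c3 ≤ o0`;
* `h3d_goal_of` : `H3DGoal` of `AND/InsGoal`;
* `sfI_ctx` : `SfI` for the site functions of a law, `sfI_unif` : uniform weights;
* `exists_o0`, `sfI_goal` : `SfI` in every context of a general law. -/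

set_option autoImplicit false
set_option linter.unusedSectionVars false

open Finset Filter Topology

noncomputable section

namespace Pool.Agent.AND

open Pool.Agent.Kin Pool.Agent.APS Pool.Agent.ANM Pool.Agent.ANC Pool.Agent.ANB Pool.Agent.ANQ
open Pool.Agent.ANI (H3D)

/-- the constant `B1` -/
def hB1 (c : Cst) (q : Csts) (Bp : ℝ) : ℝ := Bp / c.cl + Bp * (2 * q.C1) / c.cs

/-- the constant `B2` -/
def hB2 (c : Cst) (q : Csts) : ℝ := 1 / c.cl + 2 * q.C1 / c.cs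

theorem hB1_nonneg {c : Cst} {q : Csts} {Bp : ℝ} (hc : c.Pos) (hq : 0 ≤ q.C1) (hB : 0 ≤ Bp) :
    0 ≤ hB1 c q Bp := by
  have := hc.cl
  have := hc.cs
  unfold hB1
  positivity

theorem hB2_nonneg {c : Cst} {q : Csts} (hc : c.Pos) (hq : 0 ≤ q.C1) : 0 ≤ hB2 c q := by
  have := hc.cl
  have := hc.cs
  unfold hB2
  positivity

variable {d : ℕ} {CM : ℝ} {LP : LawP} {x : Ex d CM} {c : Cst} {q : Csts} {k0 : ℝ} {N : ℕ}
  [NeZero N] {X : Type} [Fintype X] {Lw : Law X} {Sf : SiteF X} {lam E es : ℝ} {g0 : ℂ}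
  {gam Lm : ℝ} {M : ℕ}

/-- active sites of a good medium are not weak -/
theorem nwk_of_inC (H : Ctx LP x c q k0 N Lw Sf lam E es g0 gam Lm M) {D : Dat d N X}
    (hD : D = datC x c q N Lw Sf lam E k0 es g0 gam Lm) {n : ℕ} {F : Fld (Tor d N)}
    {k0' rho Lam' : ℝ} {dA : ℕ → ℝ} {π : Prof (Tor d N)} {v : Tor d N → X}
    {M0 : Med (Tor d N)} (hM : InC D k0' rho Lam' dA n F π v M0) : NWk D.ana π v := by
  subst hD
  intro y hy hw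
  have h1 : Lw.wk (π.lev y) (v y) := wkA_wk hw
  have hA : y ∈ M0.A := by
    rw [hM.med.A]
    exact hy
  have h2 : c.cl * kap k0 (n + 1) ≤ M0.k y := hM.good.klo y hA
  have h3 : M0.k y = 0 := by
    rw [hM.med.k]
    unfold kp
    rw [if_pos hy]
    exact kk_wk h1
  have h4 : 0 < c.cl * kap k0 (n + 1) := mul_pos H.ok.pos.cl (kap_pos H.hk0 _)
  linarith

/-- THE DATA OF (H3) for `datC` -/
theorem h3d_ctx (H : Ctx LP x c q k0 N Lw Sf lam E es g0 gam Lm M) {D : Dat d N X}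
    (hD : D = datC x c q N Lw Sf lam E k0 es g0 gam Lm) {n1 : ℕ} {Bp o0 : ℝ}
    (hS : SfI D n1 Bp o0) {n : ℕ} (hn : n ≤ n1) {F : Fld (Tor d N)} (hF : F.Pos)
    {an Lam C2 : ℝ}
    (hb : FldIn D.f F (k0 ^ (D.P.vi / 2)) (k0 ^ (D.P.vp / 2)) an Lam C2)
    {k0' rho Lam' : ℝ} {dA : ℕ → ℝ} {π : Prof (Tor d N)} {v : Tor d N → X}
    {M0 : Med (Tor d N)} (hM : InC D k0' rho Lam' dA n F π v M0) {B1 B2 errm bem c3 : ℝ}
    (h1 : hB1 c q Bp ≤ B1) (h2 : hB2 c q ≤ B2) (h3 : k0 ^ (x.vi / 2) ≤ errm)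
    (h4 : k0 ^ (x.vi / 4) ≤ bem) (h5 : 0 ≤ c3) (h6 : 16 * c3 ≤ o0) :
    H3D D.P D.Sf n F π v M0 B1 B2 errm bem c3 := by
  have hnw := nwk_of_inC H hD hM
  subst hD
  have hc := H.ok.pos
  have hcl := hc.cl
  have hcs := hc.cs
  have hC1 := H.ok.C1
  have hvi := x.vi_pos
  have hvi1 := ex_vi1 x
  have e1 : k0 ^ ((datC x c q N Lw Sf lam E k0 es g0 gam Lm).P.vp / 2) = k0 ^ (x.vi / 4) := by
    change k0 ^ (x.vi / 2 / 2) = k0 ^ (x.vi / 4)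
    congr 1
    ring
  rw [e1] at hb
  have hb' : FldIn (datC x c q N Lw Sf lam E k0 es g0 gam Lm).f F errm bem an Lam C2 :=
    ⟨fun y => (hb.err y).trans h3, hb.et, fun y => (hb.be y).trans h4, hb.ae, hb.lam, hb.h5⟩
  have k1 : hB1 c q Bp * c.cl ≤ B1 * c.cl := mul_le_mul_of_nonneg_right h1 hcl.le
  have k2 : hB1 c q Bp * c.cs ≤ B1 * c.cs := mul_le_mul_of_nonneg_right h1 hcs.le
  have k3 : hB2 c q * c.cl ≤ B2 * c.cl := mul_le_mul_of_nonneg_right h2 hcl.le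
  have k4 : hB2 c q * c.cs ≤ B2 * c.cs := mul_le_mul_of_nonneg_right h2 hcs.le
  refine h3d_of hS H.inh.fn.fh.pos rfl hcl ?_ ?_ hn hF hb' hM hnw ?_ ?_ ?_ ?_ h5 h6
  · change 0 ≤ x.vi / 2
    positivity
  · change x.vi / 2 ≤ 1
    linarith
  · change Bp ≤ B1 * c.cl
    refine le_trans ?_ k1
    have hB := hS.Bp0
    have e2 : hB1 c q Bp * c.cl = Bp + Bp * (2 * q.C1) / c.cs * c.cl := by
      unfold hB1
      field_simp
    rw [e2]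
    have : 0 ≤ Bp * (2 * q.C1) / c.cs * c.cl := by positivity
    linarith
  · change Bp * (2 * q.C1) ≤ B1 * c.cs
    refine le_trans ?_ k2
    have hB := hS.Bp0
    have e2 : hB1 c q Bp * c.cs = Bp / c.cl * c.cs + Bp * (2 * q.C1) := by
      unfold hB1
      field_simp
    rw [e2]
    have : 0 ≤ Bp / c.cl * c.cs := by positivity
    linarith
  · change 1 ≤ B2 * c.cl
    refine le_trans ?_ k3
    have e2 : hB2 c q * c.cl = 1 + 2 * q.C1 / c.cs * c.cl := by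
      unfold hB2
      field_simp
    rw [e2]
    have : 0 ≤ 2 * q.C1 / c.cs * c.cl := by positivity
    linarith
  · change 2 * q.C1 ≤ B2 * c.cs
    refine le_trans ?_ k4
    have e2 : hB2 c q * c.cs = 1 / c.cl * c.cs + 2 * q.C1 := by
      unfold hB2
      field_simp
    rw [e2]
    have : 0 ≤ 1 / c.cl * c.cs := by positivity
    linarith

/-- `SfI` for a law; `hth` = condition on the thresholds of the weak cells -/
theorem sfI_ctx (H : Ctx LP x c q k0 N Lw Sf lam E es g0 gam Lm M) (hk1 : k0 ≤ 1) {nE n1 : ℕ}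
    (hsf : Sf = SfOf Lw lam nE) (hnf : n1 + 1 ≤ Lw.nf) {o0 : ℝ} (ho : 0 ≤ o0) (ho1 : o0 ≤ 1)
    (hth : ∀ j, o0 * ((1 / 4 : ℝ) ^ j) ^ (x.vi / 2) ≤ 1 - Lw.th (j + 1) / Lw.th j) :
    SfI (datC x c q N Lw Sf lam E k0 es g0 gam Lm) n1 (cL Lw) o0 := by
  have hvi := x.vi_pos
  have hk0 := H.hk0
  have hkap : ∀ m, kap k0 m ≤ (1 / 4 : ℝ) ^ m := by
    intro m
    unfold kap
    exact mul_le_of_le_one_left (by positivity) hk1
  refine sfI_law (D := datC x c q N Lw Sf lam E k0 es g0 gam Lm) hsf rfl hnf ho ?_ ?_ ?_ ho1 ?_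
  · intro m
    exact (kap_le hk0 m).trans hk1
  · intro m
    exact (kap_pos hk0 m).le
  · change 0 ≤ x.vi / 2
    positivity
  · intro m _
    refine le_trans ?_ (hth (Lw.sk m))
    refine mul_le_mul_of_nonneg_left ?_ ho
    change kap k0 m ^ (x.vi / 2) ≤ _
    refine Real.rpow_le_rpow (kap_pos hk0 m).le ((hkap m).trans ?_) (by positivity)
    exact pow_le_pow_of_le_one (by norm_num) (by norm_num) (Lw.sk_le m)

/-- `SfI` for uniform weights (`phi = om = s = 1`, no weak values) -/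
theorem sfI_unif {D : Dat d N X} {n1 : ℕ} (hpos : D.Sf.Pos) (hphi : ∀ K m a, D.Sf.phi K m a = 1)
    (hom : ∀ m a, D.Sf.om m a = 1) (hs : ∀ K, D.Sf.s K = 1) (hwk : ∀ m a, ¬ D.wk m a)
    (hkap1 : ∀ m, D.P.kap m ≤ 1) (hkap0 : ∀ m, 0 ≤ D.P.kap m) (hvp : 0 ≤ D.P.vp) :
    SfI D n1 1 1 where
  pos := hpos
  Bp0 := zero_le_one
  phi := fun K m a => by rw [hphi, hs, one_mul]
  om1 := fun m a => (hom m a).le
  wphi := fun _ _ _ _ _ _ _ h => absurd h (hwk _ _)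
  wom := fun _ _ _ h => absurd h (hwk _ _)
  o00 := zero_le_one
  om0 := fun m a _ _ => by
    rw [hom, one_mul]
    exact Real.rpow_le_one (hkap0 m) (hkap1 m) hvp

/-- the constant `o0` -/
theorem exists_o0 {a : ℝ} (ha : 0 < a) : ∃ o0 : ℝ, 0 < o0 ∧ o0 ≤ 1 ∧
    ∀ j : ℕ, o0 * ((1 / 4 : ℝ) ^ j) ^ a ≤ 1 / ((j : ℝ) + 2) ^ 2 := by
  set r : ℝ := (1 / 4 : ℝ) ^ a with hr
  have hr0 : 0 < r := Real.rpow_pos_of_pos (by norm_num) _
  have hr1 : r < 1 := Real.rpow_lt_one (by norm_num) (by norm_num) ha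
  have h1 : Tendsto (fun n : ℕ => (n : ℝ) ^ 2 * r ^ n) atTop (𝓝 0) :=
    tendsto_pow_const_mul_const_pow_of_abs_lt_one 2 (by rw [abs_of_pos hr0]; exact hr1)
  obtain ⟨B, hB⟩ := h1.bddAbove_range
  have hB' : ∀ n : ℕ, (n : ℝ) ^ 2 * r ^ n ≤ B := fun n => hB ⟨n, rfl⟩
  set B1 : ℝ := max 1 (B / r ^ 2) with hB1
  have hB10 : 0 < B1 := lt_of_lt_of_le one_pos (le_max_left _ _)
  refine ⟨1 / B1, by positivity, ?_, fun j => ?_⟩
  · rw [div_le_one hB10]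
    exact le_max_left _ _
  · have e1 : ((1 / 4 : ℝ) ^ j) ^ a = r ^ j := by
      rw [hr, ← Real.rpow_natCast, ← Real.rpow_mul (by norm_num), mul_comm,
        Real.rpow_mul (by norm_num), Real.rpow_natCast]
    rw [e1, div_mul_eq_mul_div, one_mul, div_le_div_iff₀ hB10 (by positivity), one_mul]
    have h2 := hB' (j + 2)
    push_cast at h2
    have h3 : ((j : ℝ) + 2) ^ 2 * r ^ j ≤ B / r ^ 2 := by
      rw [le_div_iff₀ (by positivity)]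
      calc ((j : ℝ) + 2) ^ 2 * r ^ j * r ^ 2 = ((j : ℝ) + 2) ^ 2 * r ^ (j + 2) := by ring
        _ ≤ B := h2
    calc r ^ j * ((j : ℝ) + 2) ^ 2 = ((j : ℝ) + 2) ^ 2 * r ^ j := mul_comm _ _
      _ ≤ B1 := h3.trans (le_max_right _ _)

/-- `SfI` for every context of a general law -/
theorem sfI_goal {Bp o0 : ℝ} (ho : 0 ≤ o0) (ho1 : o0 ≤ 1)
    (hoj : ∀ j : ℕ, o0 * ((1 / 4 : ℝ) ^ j) ^ (x.vi / 2) ≤ 1 / ((j : ℝ) + 2) ^ 2)
    (hLP : ∀ (X : Type) [Fintype X] (Lw : Law X) (Sf : SiteF X) (lam : ℝ) (n1 : ℕ),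
      LP X Lw Sf lam n1 → (∃ nE, Sf = SfOf Lw lam nE) ∧ n1 + 1 ≤ Lw.nf ∧ cL Lw = Bp ∧
        ∀ j : ℕ, 1 / ((j : ℝ) + 2) ^ 2 ≤ 1 - Lw.th (j + 1) / Lw.th j) :
    ∀ᶠ k0 in 𝓝[>] (0 : ℝ), ∀ (N : ℕ) [NeZero N] (X : Type) [Fintype X] [DecidableEq X]
      (Lw : Law X) (Sf : SiteF X) (lam E es : ℝ) (g0 : ℂ) (gam Lm : ℝ) (M : ℕ),
      Ctx LP x c q k0 N Lw Sf lam E es g0 gam Lm M →
        SfI (datC x c q N Lw Sf lam E k0 es g0 gam Lm) (lv k0 x.al (M + 1)) Bp o0 := by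
  filter_upwards [ev_small (show (0 : ℝ) < 1 / 2 by norm_num)] with k0 hk N _ X _ _ Lw Sf lam E
    es g0 gam Lm M H
  obtain ⟨⟨nE, h1⟩, h2, h3, h4⟩ := hLP X Lw Sf lam _ H.law
  rw [← h3]
  exact sfI_ctx H (by linarith [hk.2]) h1 h2 ho ho1 fun j => (hoj j).trans (h4 j)

/-- `H3DGoal` of `AND/InsGoal` in expanded form -/
theorem h3d_goal_of {Bp o0 : ℝ}
    (hS : ∀ᶠ k0 in 𝓝[>] (0 : ℝ), ∀ (N : ℕ) [NeZero N] (X : Type) [Fintype X] [DecidableEq X]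
      (Lw : Law X) (Sf : SiteF X) (lam E es : ℝ) (g0 : ℂ) (gam Lm : ℝ) (M : ℕ),
      Ctx LP x c q k0 N Lw Sf lam E es g0 gam Lm M →
        SfI (datC x c q N Lw Sf lam E k0 es g0 gam Lm) (lv k0 x.al (M + 1)) Bp o0)
    {pB1 pB2 perr pbe pc3 : ℝ → ℕ → ℝ} (h1 : ∀ k0 j, hB1 c q Bp ≤ pB1 k0 j)
    (h2 : ∀ k0 j, hB2 c q ≤ pB2 k0 j) (h3 : ∀ k0 j, k0 ^ (x.vi / 2) ≤ perr k0 j)
    (h4 : ∀ k0 j, k0 ^ (x.vi / 4) ≤ pbe k0 j) (h5 : ∀ k0 j, 0 ≤ pc3 k0 j)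
    (h6 : ∀ k0 j, 16 * pc3 k0 j ≤ o0) :
    ∀ᶠ k0 in 𝓝[>] (0 : ℝ), ∀ (N : ℕ) [NeZero N] (X : Type) [Fintype X] [DecidableEq X]
      (Lw : Law X) (Sf : SiteF X) (lam E es : ℝ) (g0 : ℂ) (gam Lm : ℝ) (M : ℕ),
      Ctx LP x c q k0 N Lw Sf lam E es g0 gam Lm M → ∀ j < M,
      ∀ (D : Dat d N X), D = datC x c q N Lw Sf lam E k0 es g0 gam Lm →
      ∀ (Fd : Fld (Tor d N)) (π : Prof (Tor d N)) (v : Tor d N → X) (M0 : Med (Tor d N)),
        Fd.Pos → FldIn D.f Fd (k0 ^ (D.P.vi / 2)) (k0 ^ (D.P.vp / 2))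
          (aeB k0 D.P.eta D.P.vi (D.g.lv (j + 1 + 1))) (Lm + 1) 1 →
        InC D k0 (q.th / 4) Lm (fun n => kap k0 n ^ (3 * x.vt)) (D.g.lv (j + 1 + 1)) Fd π v M0 →
        ANI.H3D D.P D.Sf (D.g.lv (j + 1 + 1)) Fd π v M0 (pB1 k0 j) (pB2 k0 j) (perr k0 j)
          (pbe k0 j) (pc3 k0 j) := by
  filter_upwards [hS, ev_small (show (0 : ℝ) < 1 / 2 by norm_num)] with k0 hs hk N _ X _ _ Lw Sf
    lam E es g0 gam Lm M H j hj D hD Fd π v M0 hF hb hM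
  have hk0 := hk.1
  have hk1 : k0 < 1 := by linarith [hk.2]
  have hS' := hs N X Lw Sf lam E es g0 gam Lm M H
  rw [← hD] at hS'
  refine h3d_ctx H hD hS' ?_ hF hb hM (h1 k0 j) (h2 k0 j) (h3 k0 j) (h4 k0 j) (h5 k0 j) (h6 k0 j)
  rw [hD]
  exact (min_le_left _ _).trans ((lv_mono hk0 hk1 x.al2).monotone (by omega))

end Pool.Agent.AND
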