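import Pool.Agent.AND.InsGoal

/-!
# AND / InsNg: THE GEOMETRIC HALF OF THE NUMBERS OF THE INSERTIONS

`InsG` = lengths and counts of the insertions of super-stage `j + 1` (`rF` = radius of the target surface, `c0` = constant of
the chains, `N` = size of the torus) and their bounds in `k = ks (j + 2)`; `ev_insG`: they hold for small `k0` if `4 rF ≤ R`.
-/

set_option autoImplicit false
set_option linter.unusedSectionVars false

open Finset Filter Topology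

noncomputable section

namespace Pool.Agent.AND

open Pool.Agent.Kin Pool.Agent.APS Pool.Agent.ANL Pool.Agent.ANM Pool.Agent.ANC Pool.Agent.ANB
open Pool.Agent.ANQ

variable {d : ℕ} {CM : ℝ}

/-- `W j + sep j` -/
def WSv (x : Ex d CM) (k0 : ℝ) (j : ℕ) : ℕ := dW k0 x.al j + sep k0 x.al 24 j

/-- the blobs: distance of the target surface from the rest -/
def rbv (x : Ex d CM) (k0 : ℝ) (j rF : ℕ) : ℕ := hR k0 x.al x.v2 (j + 1) + 1 - rF

/-- the blobs: link distance -/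
def lbv (x : Ex d CM) (k0 : ℝ) (j rF : ℕ) : ℕ := hR k0 x.al x.v2 (j + 1) + rF

/-- the blobs: diameter -/
def Dbv (x : Ex d CM) (k0 : ℝ) (j rF : ℕ) : ℕ :=
  x.J * (2 * WSv x k0 j + lbv x k0 j rF) + 2 * rF

/-- constant of the chains during the insertions -/
def cwv (x : Ex d CM) (w k0 : ℝ) (j : ℕ) : ℕ :=
  cK (torGeo d 1 k0 x.al x.J 24 x.v2 0) (dW k0 x.al) (VV d 24) (j + 1) (rj k0 x.al w (j + 1))

theorem cK_tor (x : Ex d CM) (w k0 : ℝ) (j N nf : ℕ) :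
    cK (torGeo d N k0 x.al x.J 24 x.v2 nf) (dW k0 x.al) (VV d 24) (j + 1)
      (rj k0 x.al w (j + 1)) = cwv x w k0 j := rfl

/-- LENGTHS AND COUNTS -/
structure InsG (x : Ex d CM) (w k0 : ℝ) (j rF c0 N : ℕ) : Prop where
  hr2 : 2 * WSv x k0 j ≤ rho k0 x.al x.J (j + 1)
  rc : x.J * (2 * WSv x k0 j + rho k0 x.al x.J (j + 1)) + hR k0 x.al x.v2 (j + 1) ≤
    side k0 x.al (j + 1) / 2 + side k0 x.al (j + 1) / 2 / 4
  L4 : 4 * (side k0 x.al (j + 1) / 2) + 1 ≤ N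
  LS : 2 * (x.J * (2 * WSv x k0 j + rho k0 x.al x.J (j + 1)) + c0 + 2) ≤ N
  LK : 2 * (cwv x w k0 j + 1) ≤ N
  lb1 : 2 * WSv x k0 j ≤ lbv x k0 j rF
  lb2 : 2 * rF ≤ lbv x k0 j rF + 1
  rb1 : rbv x k0 j rF + 2 * rF ≤ lbv x k0 j rF + 1
  rb2 : rbv x k0 j rF + rF ≤ hR k0 x.al x.v2 (j + 1) + 1
  /-- real bounds, `k = ks (j + 2)` -/
  cw : (cwv x w k0 j : ℝ) ≤ ks k0 x.al (j + 2) ^ (-(1 / 2) : ℝ)
  nS : ((x.J * (2 * WSv x k0 j + 1) ^ d * (2 * hR k0 x.al x.v2 (j + 1) + 1) ^ d : ℕ) : ℝ) ≤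
    5 ^ d * ks k0 x.al (j + 2) ^ (-(d * x.v2 + x.v1))
  nF : ((x.J * (2 * WSv x k0 j + 1) ^ d : ℕ) : ℝ) ≤ ks k0 x.al (j + 2) ^ (-x.v1)
  Db : Dbv x k0 j rF ≤ (6 * x.J + 2) * rbv x k0 j rF
  rb : 1 / 2 * ks k0 x.al (j + 2) ^ (-x.v2) ≤ (rbv x k0 j rF : ℝ)
  rb0 : 1 ≤ rbv x k0 j rF
  rF : (rF : ℝ) ≤ 1 / 2 * ks k0 x.al (j + 2) ^ (-x.v2)
  R0 : ks k0 x.al (j + 2) ^ (-x.v2) ≤ (hR k0 x.al x.v2 (j + 1) : ℝ)
  R1 : (hR k0 x.al x.v2 (j + 1) : ℝ) ≤ 2 * ks k0 x.al (j + 2) ^ (-x.v2)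
  sd : ks k0 x.al (j + 2) ^ (-2 : ℝ) ≤ (side k0 x.al (j + 1) : ℝ)
  rc' : ((x.J * (2 * WSv x k0 j + rho k0 x.al x.J (j + 1)) + hR k0 x.al x.v2 (j + 1) : ℕ) : ℝ) ≤
    (side k0 x.al (j + 1) : ℝ) / 50

/-- THEY HOLD FOR SMALL `k0` -/
theorem ev_insG (x : Ex d CM) (hd : 0 < d) (hCM : 2 * (d : ℝ) + 1 ≤ CM) {w : ℝ} (hw : 0 ≤ w)
    (hw1 : w ≤ 1) :
    ∀ᶠ k0 in 𝓝[>] (0 : ℝ), ∀ j rF c0 N : ℕ, 4 * rF ≤ hR k0 x.al x.v2 (j + 1) → c0 ≤ rF →
      8 * side k0 x.al (j + 1) + 8 ≤ N → InsG x w k0 j rF c0 N := by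
  have hv1 := x.v1_pos
  have hv2 := x.v2_pos
  have hv12 : x.v1 < x.v2 := x.A3
  have hL3 := x.L3
  have hv29 := x.v2_lt
  have hd1 : (1 : ℝ) ≤ d := by exact_mod_cast hd
  have hal : (0 : ℝ) < x.al := by
    have := x.L0
    exact_mod_cast (by omega : 0 < x.al)
  have hav1 : 2 * (d : ℝ) + 1 ≤ x.v1 * x.al := by
    have : (x.al : ℝ) * x.v1 = x.v1 * x.al := mul_comm _ _
    linarith
  have hav2 : (3 : ℝ) ≤ x.v2 * x.al := by
    have h1 : x.v1 * x.al ≤ x.v2 * x.al := mul_le_mul_of_nonneg_right hv12.le hal.le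
    linarith
  have hJ : 0 < x.J := x.J1
  have E1 := ev_all (ev_pow' (C := (112 : ℝ)) (show (-3 : ℝ) < -2 by norm_num)) x.al
  have E2 := ev_all (ev_pow' (C := (x.J * 114 ^ d : ℝ))
    (show -(2 * (d : ℝ) + 1) < -(2 * (d : ℝ)) by linarith)) x.al
  have E3 := ev_all (ev_pow' (C := (2 + 32 * (x.J * VV d 24 + 1) + 8 : ℝ))
    (show (-(1 / 2) : ℝ) < -x.v2 by linarith)) x.al
  have E4 := ev_all (ev_pow' (C := (200 * (x.J + 1) : ℝ))
    (show (-2 : ℝ) < -x.v2 by linarith)) x.al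
  have E5 := ev_all (ev_pow' (C := (2 : ℝ)) (show (-2 : ℝ) < -1 by norm_num)) x.al
  filter_upwards [E1, E2, E3, E4, E5, tor_rho x.J 24 hJ x.al2 x.v2_pos.le x.v2_le,
    par_ok d x.J 24 x.al2 x.v2_pos.le x.v2_le,
    ev_small (show (0 : ℝ) < 1 / 2 by norm_num)] with k0 E1 E2 E3 E4 E5 E6 E7 hk j rF c0 N hrF
      hc0 hN
  have hk0 := hk.1
  have hk1 : k0 < 1 := by linarith [hk.2]
  have E1 := E1 (j + 1)
  have E2 := E2 (j + 1)
  have E3 := E3 (j + 2)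
  have E4 := E4 (j + 2)
  have E5 := E5 (j + 1)
  have E6 := E6 j
  set y := ks k0 x.al (j + 1) with hy
  set k := ks k0 x.al (j + 2) with hkd
  have hyp : 0 < y := ks_pos hk0 x.al _
  have hy1 : y ≤ 1 := (ks_le hk0 x.al _).trans hk1.le
  have hkp : 0 < k := ks_pos hk0 x.al _
  have hkl : k ≤ 1 := (ks_le hk0 x.al _).trans hk1.le
  have hyk : ∀ {a : ℝ}, 0 ≤ a → y ^ (-(a * x.al)) ≤ k ^ (-a) := fun ha =>
    ks_neg_le hk0 x.al (j + 1) ha
  have hone2 : 1 ≤ k ^ (-x.v2) := one_le_rpow_neg hkp hkl hv2.le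
  -- the side
  have hs : (side k0 x.al j : ℝ) ≤ 2 * y ^ (-2 : ℝ) := (side_rpow hk0 hk1 x.al j).2
  have hy3 : y ^ (-3 : ℝ) ≤ k ^ (-x.v2) := by
    refine le_trans ?_ (hyk hv2.le)
    exact Real.rpow_le_rpow_of_exponent_ge hyp hy1 (by linarith)
  have hWS : WSv x k0 j = 28 * side k0 x.al j := by
    unfold WSv dW sep
    ring
  have h2WS : 2 * (WSv x k0 j : ℝ) ≤ k ^ (-x.v2) := by
    rw [hWS]
    push_cast
    linarith
  have hR0 : k ^ (-x.v2) ≤ (hR k0 x.al x.v2 (j + 1) : ℝ) := hR_ge k0 x.al x.v2 (j + 1)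
  have hR1 : (hR k0 x.al x.v2 (j + 1) : ℝ) ≤ 2 * k ^ (-x.v2) :=
    hR_le hk0 hk1.le x.al hv2.le (j + 1)
  have h2WSn : 2 * WSv x k0 j ≤ hR k0 x.al x.v2 (j + 1) := by
    have : ((2 * WSv x k0 j : ℕ) : ℝ) ≤ (hR k0 x.al x.v2 (j + 1) : ℝ) := by
      push_cast
      linarith
    exact_mod_cast this
  -- the side of the next super-stage
  have hS2 : k ^ (-2 : ℝ) ≤ (side k0 x.al (j + 1) : ℝ) := (side_rpow hk0 hk1 x.al (j + 1)).1
  have hRS : 100 * (x.J * (2 * WSv x k0 j) + hR k0 x.al x.v2 (j + 1)) ≤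
      side k0 x.al (j + 1) := by
    have h1 : ((100 * (x.J * (2 * WSv x k0 j) + hR k0 x.al x.v2 (j + 1)) : ℕ) : ℝ) ≤
        (side k0 x.al (j + 1) : ℝ) := by
      push_cast
      have hJ0 : (0 : ℝ) ≤ x.J := Nat.cast_nonneg _
      have h2 : (x.J : ℝ) * (2 * WSv x k0 j) ≤ x.J * k ^ (-x.v2) :=
        mul_le_mul_of_nonneg_left h2WS hJ0
      nlinarith
    exact_mod_cast h1
  have hrho : 100 * (x.J * rho k0 x.al x.J (j + 1)) ≤ side k0 x.al (j + 1) := by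
    unfold rho
    have h1 := Nat.div_mul_le_self (side k0 x.al (j + 1)) (100 * x.J)
    calc 100 * (x.J * (side k0 x.al (j + 1) / (100 * x.J))) =
        side k0 x.al (j + 1) / (100 * x.J) * (100 * x.J) := by ring
      _ ≤ _ := h1
  have hCD : x.J * (2 * WSv x k0 j + rho k0 x.al x.J (j + 1)) =
      x.J * (2 * WSv x k0 j) + x.J * rho k0 x.al x.J (j + 1) := by ring
  have hrb : 3 * hR k0 x.al x.v2 (j + 1) ≤ 4 * rbv x k0 j rF := by
    unfold rbv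
    omega
  have hrbR : (rbv x k0 j rF : ℝ) * 4 ≥ 3 * (hR k0 x.al x.v2 (j + 1) : ℝ) := by
    have h1 : ((3 * hR k0 x.al x.v2 (j + 1) : ℕ) : ℝ) ≤ ((4 * rbv x k0 j rF : ℕ) : ℝ) := by
      exact_mod_cast hrb
    push_cast at h1
    linarith
  have hWJ : x.J * (2 * WSv x k0 j) ≤ x.J * hR k0 x.al x.v2 (j + 1) :=
    Nat.mul_le_mul_left _ h2WSn
  -- counts
  have hnF : ((x.J * (2 * WSv x k0 j + 1) ^ d : ℕ) : ℝ) ≤ k ^ (-x.v1) := by
    have hy2 : 1 ≤ y ^ (-2 : ℝ) := one_le_rpow_neg hyp hy1 (by norm_num)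
    have h1 : (2 * (WSv x k0 j : ℝ) + 1) ≤ 114 * y ^ (-2 : ℝ) := by
      rw [hWS]
      push_cast
      linarith
    have h2 : (2 * (WSv x k0 j : ℝ) + 1) ^ d ≤ 114 ^ d * y ^ (-(2 * (d : ℝ))) := by
      refine (pow_le_pow_left₀ (by positivity) h1 d).trans (le_of_eq ?_)
      rw [mul_pow, ← Real.rpow_natCast (y ^ (-2 : ℝ)), ← Real.rpow_mul hyp.le]
      congr 2
      ring
    have h3 : (x.J : ℝ) * (2 * (WSv x k0 j : ℝ) + 1) ^ d ≤ y ^ (-(2 * (d : ℝ) + 1)) := by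
      refine le_trans ?_ E2
      have h4 := mul_le_mul_of_nonneg_left h2 (Nat.cast_nonneg (α := ℝ) x.J)
      linarith
    push_cast
    refine h3.trans (le_trans ?_ (hyk hv1.le))
    exact Real.rpow_le_rpow_of_exponent_ge hyp hy1 (by linarith)
  have hcw : (cwv x w k0 j : ℝ) ≤ k ^ (-(1 / 2) : ℝ) := by
    have hok := E7 1 0
    have h1 : cwv x w k0 j = 2 * cc ((torGeo d 1 k0 x.al x.J 24 x.v2 0).par (dW k0 x.al)
      (VV d 24)) (j + 1) + 4 * rj k0 x.al w (j + 1) := rfl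
    have h2 := cc_le hok j
    have h3 := cc_succ (g := (torGeo d 1 k0 x.al x.J 24 x.v2 0).par (dW k0 x.al) (VV d 24)) j
    have e1 : ((torGeo d 1 k0 x.al x.J 24 x.v2 0).par (dW k0 x.al) (VV d 24)).side j =
      side k0 x.al j := rfl
    have e2 : ((torGeo d 1 k0 x.al x.J 24 x.v2 0).par (dW k0 x.al) (VV d 24)).R (j + 1) =
      hR k0 x.al x.v2 (j + 1) := rfl
    have e3 : ((torGeo d 1 k0 x.al x.J 24 x.v2 0).par (dW k0 x.al) (VV d 24)).J = x.J := rfl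
    have e4 : ((torGeo d 1 k0 x.al x.J 24 x.v2 0).par (dW k0 x.al) (VV d 24)).V = VV d 24 := rfl
    rw [e1] at h2
    rw [e1, e2, e3, e4] at h3
    have h4 : (cc ((torGeo d 1 k0 x.al x.J 24 x.v2 0).par (dW k0 x.al) (VV d 24)) j : ℝ) ≤
        (side k0 x.al j : ℝ) := by exact_mod_cast h2
    have h5 : (side k0 x.al j : ℝ) ≤ k ^ (-x.v2) := by
      have : 0 < y ^ (-2 : ℝ) := Real.rpow_pos_of_pos hyp _
      linarith
    have h6 : (rj k0 x.al w (j + 1) : ℝ) ≤ k ^ (-x.v2) := by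
      have a1 : (rj k0 x.al w (j + 1) : ℝ) ≤ 2 * y ^ (-w) := rj_le hk0 hk1.le x.al hw (j + 1)
      have a2 : y ^ (-w) ≤ y ^ (-1 : ℝ) :=
        Real.rpow_le_rpow_of_exponent_ge hyp hy1 (by linarith)
      have a3 : y ^ (-2 : ℝ) ≤ y ^ (-3 : ℝ) :=
        Real.rpow_le_rpow_of_exponent_ge hyp hy1 (by norm_num)
      linarith
    rw [h1, h3]
    push_cast
    have hJV : (0 : ℝ) ≤ x.J * VV d 24 + 1 := by positivity
    have h7 : (2 * (hR k0 x.al x.v2 (j + 1) : ℝ) + 2 * (side k0 x.al j : ℝ) + 2) ≤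
        8 * k ^ (-x.v2) := by linarith
    have h8 := mul_le_mul_of_nonneg_left h7 hJV
    refine le_trans ?_ E3
    nlinarith
  have hcwS : cwv x w k0 j ≤ side k0 x.al (j + 1) := by
    have h1 : k ^ (-(1 / 2) : ℝ) ≤ k ^ (-2 : ℝ) :=
      Real.rpow_le_rpow_of_exponent_ge hkp hkl (by norm_num)
    have h2 : (cwv x w k0 j : ℝ) ≤ (side k0 x.al (j + 1) : ℝ) := by linarith
    exact_mod_cast h2
  exact {
    hr2 := E6
    rc := by omega
    L4 := by omega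
    LS := by omega
    LK := by omega
    lb1 := by unfold lbv; omega
    lb2 := by unfold lbv; omega
    rb1 := by unfold lbv rbv; omega
    rb2 := by unfold rbv; omega
    cw := hcw
    nS := by
      have h1 : (2 * (hR k0 x.al x.v2 (j + 1) : ℝ) + 1) ≤ 5 * k ^ (-x.v2) := by linarith
      have h2 : (2 * (hR k0 x.al x.v2 (j + 1) : ℝ) + 1) ^ d ≤ 5 ^ d * k ^ (-(d * x.v2)) := by
        refine (pow_le_pow_left₀ (by positivity) h1 d).trans (le_of_eq ?_)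
        rw [mul_pow, ← Real.rpow_natCast (k ^ (-x.v2)), ← Real.rpow_mul hkp.le]
        congr 2
        ring
      have e : k ^ (-(d * x.v2 + x.v1)) = k ^ (-x.v1) * k ^ (-(d * x.v2)) := by
        rw [← Real.rpow_add hkp]
        congr 1
        ring
      rw [Nat.cast_mul, e]
      have h3 : (((2 * hR k0 x.al x.v2 (j + 1) + 1) ^ d : ℕ) : ℝ) ≤
          5 ^ d * k ^ (-(d * x.v2)) := by
        push_cast
        exact h2
      calc ((x.J * (2 * WSv x k0 j + 1) ^ d : ℕ) : ℝ) *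
            (((2 * hR k0 x.al x.v2 (j + 1) + 1) ^ d : ℕ) : ℝ)
          ≤ k ^ (-x.v1) * (5 ^ d * k ^ (-(d * x.v2))) :=
            mul_le_mul hnF h3 (Nat.cast_nonneg _) (Real.rpow_nonneg hkp.le _)
        _ = _ := by ring
    nF := hnF
    Db := by
      unfold Dbv lbv
      have h1 : x.J * (2 * WSv x k0 j + (hR k0 x.al x.v2 (j + 1) + rF)) =
          x.J * (2 * WSv x k0 j) + x.J * hR k0 x.al x.v2 (j + 1) + x.J * rF := by ring
      have h2 : 4 * (x.J * rF) ≤ x.J * hR k0 x.al x.v2 (j + 1) := by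
        calc 4 * (x.J * rF) = x.J * (4 * rF) := by ring
          _ ≤ _ := Nat.mul_le_mul_left _ hrF
      have h3 : (6 * x.J + 2) * rbv x k0 j rF = 6 * (x.J * rbv x k0 j rF) +
        2 * rbv x k0 j rF := by ring
      have h4 : 3 * (x.J * hR k0 x.al x.v2 (j + 1)) ≤ 4 * (x.J * rbv x k0 j rF) := by
        calc 3 * (x.J * hR k0 x.al x.v2 (j + 1)) = x.J * (3 * hR k0 x.al x.v2 (j + 1)) := by ring
          _ ≤ x.J * (4 * rbv x k0 j rF) := Nat.mul_le_mul_left _ hrb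
          _ = _ := by ring
      rw [h1, h3]
      omega
    rb := by linarith
    rb0 := by
      have h1 : 0 < hR k0 x.al x.v2 (j + 1) := by
        have : (0 : ℝ) < (hR k0 x.al x.v2 (j + 1) : ℝ) := by linarith
        exact_mod_cast this
      omega
    rF := by
      have h1 : ((4 * rF : ℕ) : ℝ) ≤ (hR k0 x.al x.v2 (j + 1) : ℝ) := by exact_mod_cast hrF
      push_cast at h1
      linarith
    R0 := hR0
    R1 := hR1
    sd := hS2
    rc' := by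
      have h1 : 50 * (x.J * (2 * WSv x k0 j + rho k0 x.al x.J (j + 1)) +
          hR k0 x.al x.v2 (j + 1)) ≤ side k0 x.al (j + 1) := by omega
      have h2 : ((50 * (x.J * (2 * WSv x k0 j + rho k0 x.al x.J (j + 1)) +
          hR k0 x.al x.v2 (j + 1)) : ℕ) : ℝ) ≤ (side k0 x.al (j + 1) : ℝ) := by exact_mod_cast h1
      rw [Nat.cast_mul] at h2
      rw [le_div_iff₀ (by norm_num)]
      have h3 : ((50 : ℕ) : ℝ) = 50 := by norm_num
      rw [h3] at h2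
      linarith }

end Pool.Agent.AND
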