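import Pool.Agent.AND.InsNg
import Pool.Agent.AND.InsNmE
import Pool.Agent.AND.InsH3F
import Pool.Agent.ANC.InsV

/-!
# AND / InsNmG: `InsNmGoal` = the numbers of the insertions for the concrete data

`pmV` = the parameters; `ins_nm_goal`.
-/

set_option autoImplicit false
set_option linter.unusedSectionVars false

open Finset Filter Topology

noncomputable section

namespace Pool.Agent.AND

open Pool.Agent.Kin Pool.Agent.APS Pool.Agent.ANL Pool.Agent.ANM Pool.Agent.ANC Pool.Agent.ANB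
open Pool.Agent.ANQ

variable {d : ℕ} {CM : ℝ}

/-- radius of the target surface -/
def rFn (n : LkN) : ℕ := (n.N + 1) * (n.dl + n.c0) + n.c0 + 1

/-- THE PARAMETERS of the insertions of super-stage `j + 1`: `n` = numbers of the leak tests, `cρ`, `ce`, `cm` constants of
the form part, `B1`, `B2`, `c3` constants of (H3) -/
def pmV (x : Ex d CM) (c : Cst) (q : Csts) (cc cm B1 B2 c3 : ℝ) (n : LkN) (k0 : ℝ) (j : ℕ) :
    InsPr where
  mu := cmu d c q * ks k0 x.al (j + 2)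
  h1 := ks k0 x.al (j + 2) ^ (1 / 2 : ℝ)
  uu := (2 + 2 * q.C1) * ks k0 x.al (j + 2) ^ x.th
  nS := ((x.J * (2 * WSv x k0 j + 1) ^ d * (2 * hR k0 x.al x.v2 (j + 1) + 1) ^ d : ℕ) : ℝ)
  nF := ((x.J * (2 * WSv x k0 j + 1) ^ d : ℕ) : ℝ)
  cw := cwv x q.w k0 j
  e1 := ks k0 x.al (j + 2) ^ x.van
  q1 := ks k0 x.al (j + 2) ^ (2 * x.vi) * (2 * ks k0 x.al (j + 2) ^ (-(7 / 8) : ℝ))
  W1 := 1
  K1 := ks k0 x.al (j + 2) ^ (-2 : ℝ)
  x1 := ks k0 x.al (j + 2) ^ (-2 : ℝ)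
  r1 := ks k0 x.al (j + 2) ^ (15 * x.vi)
  k1 := ks k0 x.al (j + 2) ^ (-2 : ℝ)
  f1 := ks k0 x.al (j + 2) ^ (14 * x.vi)
  g1 := ks k0 x.al (j + 2) ^ (2 * x.vi) * (2 * ks k0 x.al (j + 2) ^ (-(7 / 8) : ℝ))
  v1 := ks k0 x.al (j + 2) ^ (-(4 * x.v1))
  pB1 := ks k0 x.al (j + 2) ^ (32 * x.vi)
  WB1 := ks k0 x.al (j + 2) ^ (-(3 * x.v1))
  t1 := ks k0 x.al (j + 2) ^ (9 * x.v1)
  l1 := ks k0 x.al (j + 2) ^ (-(5 * x.vi))
  a1 := cc
  b1 := cc
  c1 := cm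
  n1 := lN d (q.th / 4) (ks k0 x.al (j + 2))
  e2 := ks k0 x.al (j + 2) ^ (32 * x.vi)
  q2 := ks k0 x.al (j + 2) ^ (2 * x.vi) * (2 * ks k0 x.al (j + 2) ^ (-(7 / 8) : ℝ))
  W2 := ks k0 x.al (j + 2) ^ (-(3 * x.v1))
  K2 := ks k0 x.al (j + 2) ^ (-2 : ℝ)
  x2 := ks k0 x.al (j + 2) ^ (-2 : ℝ)
  r2 := ks k0 x.al (j + 2) ^ (15 * x.vi)
  k2 := ks k0 x.al (j + 2) ^ (-2 : ℝ)
  f2 := ks k0 x.al (j + 2) ^ (14 * x.vi)
  g2 := ks k0 x.al (j + 2) ^ (2 * x.vi) * (2 * ks k0 x.al (j + 2) ^ (-(7 / 8) : ℝ))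
  v2 := ks k0 x.al (j + 2) ^ (-(4 * x.v1))
  pB2 := ks k0 x.al (j + 2) ^ (32 * x.vi)
  WB2 := ks k0 x.al (j + 2) ^ (-(3 * x.v1))
  t2 := ks k0 x.al (j + 2) ^ (9 * x.v1)
  l2 := ks k0 x.al (j + 2) ^ (-(5 * x.vi))
  a2 := cc
  b2 := cc
  c2 := cm
  n2 := lN d (q.th / 4) (ks k0 x.al (j + 2))
  Ml := n.Ml
  R0 := hR k0 x.al x.v2 (j + 1) + 1
  rb := rbv x k0 j (rFn n)
  Db := Dbv x k0 j (rFn n)
  nb := n.nb
  lb := lbv x k0 j (rFn n)
  B1 := B1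
  B2 := B2
  errm := max 1 (k0 ^ (x.vi / 2))
  bem := max 1 (k0 ^ (x.vi / 4))
  c3 := c3

/-- what is needed of the numbers of the leak tests -/
structure NmOk (x : Ex d CM) (k0 : ℝ) (j : ℕ) (n : LkN) : Prop where
  rF : 4 * rFn n ≤ hR k0 x.al x.v2 (j + 1)
  nb : x.J * (2 * WSv x k0 j + 1) ^ d * (2 * rFn n + 1) ^ d ≤ n.nb
  cp : ANI.cP d n.Ml n.nb ≤ ks k0 x.al (j + 2) ^ (-x.v1)
  Ml : 0 ≤ n.Ml
  e : ks k0 x.al (j + 2) ^ (13 * x.vi) ≤ n.ε1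

theorem rFn_c0 (n : LkN) : n.c0 ≤ rFn n := by
  unfold rFn
  have : 0 ≤ (n.N + 1) * (n.dl + n.c0) := Nat.zero_le _
  omega

/-- `InsNmGoal` -/
theorem ins_nm_goal (LP : LawP) (x : Ex d CM) {c : Cst} {q : Csts} (hd : 3 ≤ d) (hq : q.Ok c)
    (hCM : 2 * (d : ℝ) + 1 ≤ CM) (hCc : 8 ≤ q.Cc) (hdS : 2 * c.dS ≤ 1) (hq2 : q.c1 ≤ 4)
    (hb : 64 * c.b ≤ cνV (q.c1 / 2) (2 * q.C1) (q.th / 4) (cmu d c q)) {B1 B2 c3 : ℝ}
    (hB1 : 0 ≤ B1) (hB2 : 0 ≤ B2) (hc3 : 0 < c3) (hc31 : c3 ≤ 1)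
    {nm : ℝ → ℕ → LkN} (hnm : ∀ᶠ k0 in 𝓝[>] (0 : ℝ), ∀ j, NmOk x k0 j (nm k0 j)) :
    InsNmGoal LP x c q nm (fun k0 j =>
      pmV x c q (ccV c (q.c1 / 2)) (cmV c (q.c1 / 2)) B1 B2 c3 (nm k0 j) k0 j) := by
  have hd0 : 0 < d := by omega
  have hc1 := hq.c1
  have hC1 := hq.C1
  have hth := hq.th
  have hcl := hq.pos.cl
  have hvi := x.vi_pos
  have hv1 := x.v1_pos
  have hv2 := x.v2_pos
  have hv29 := x.v2_lt
  have hcmu : 0 < cmu d c q := cmu_pos hd0 hq.pos hc1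
  have hCM0 : 0 ≤ CM := by
    have : (0 : ℝ) ≤ d := Nat.cast_nonneg _
    linarith
  have a1 : 0 < q.c1 / 2 := by positivity
  by_cases a2 : q.c1 / 2 ≤ 2 * q.C1
  swap
  · refine Eventually.of_forall fun k0 N _ X _ _ Lw Sf lam E es g0 gam Lm M H j hj => ?_
    exfalso
    have h1 := H.dat.g1
    have h2 := H.dat.g2
    have h3 := Complex.abs_im_le_norm g0
    have h4 := le_abs_self g0.im
    exact a2 (by linarith)
  have E1 := annAll x hd hCM0 hq.pos (2 + 2 * q.C1) (5 ^ d) (c1 := q.c1 / 2) (C1 := 2 * q.C1)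
    (rho0 := q.th / 4) (ck := c.cl / 4) (cμ := cmu d c q) (B1 := B1) (B2 := B2) (errm := 1)
    (bem := 1) (c3 := c3) (by linarith) (by positivity) a1 (by linarith) a2 (by linarith)
    (by positivity) (by positivity) hcmu hb hB1 hB2 zero_le_one zero_le_one hc3 hc31
  have E2 := contAll x hd hCM0 hq.pos x.J (6 * x.J + 2) (5 ^ d) (c1 := q.c1 / 2)
    (C1 := 2 * q.C1) (rho0 := q.th / 4) (ck := c.cl / 4) (cμ := cmu d c q) (cr := 1 / 2)
    (B1 := B1) (B2 := B2) (errm := 1) (bem := 1) (c3 := c3) (by positivity) a1 (by linarith) a2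
    (by linarith) (by positivity) (by positivity) hcmu (by norm_num) hb hB1 hB2 zero_le_one
    zero_le_one hc3 hc31
  have E5 := ev_all (ev_pow' (C := (2 : ℝ)) (show 13 * x.vi < 14 * x.vi by linarith)) x.al
  filter_upwards [ev_insEl LP x hq hd0, ev_insG x hd0 hCM hq.w.le hq.w1, hnm, E1, E2, E5,
    ev_small (show (0 : ℝ) < 1 / 2 by norm_num)] with k0 hEl hG hNm E1 E2 E5 hk N _ X
      _ _ Lw Sf lam E es g0 gam Lm M H j hj
  have hk0 := hk.1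
  have hk1 : k0 < 1 := by linarith [hk.2]
  have hEl := hEl N X Lw Sf lam E es g0 gam Lm M H j hj
  have hn := hNm j
  have hbig : 8 * side k0 x.al (j + 1) + 8 ≤ N := by
    have h1 := H.pick.big (j + 1) (by omega)
    refine le_trans ?_ h1
    exact add_le_add (Nat.mul_le_mul_right _ hCc) hCc
  have hG := hG j (rFn (nm k0 j)) (nm k0 j).c0 N hn.rF (rFn_c0 _) hbig
  have hnal : kap k0 (lv k0 x.al (j + 1 + 1)) ≤ k0 ^ x.al := ks_le_al hk0 j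
  have E1 := E1 (lv k0 x.al (j + 1 + 1)) hnal
  have E2 := E2 (lv k0 x.al (j + 1 + 1)) hnal
  have E5 := E5 (j + 2)
  have hkp : 0 < ks k0 x.al (j + 2) := ks_pos hk0 _ _
  have hkl : ks k0 x.al (j + 2) ≤ 1 := (ks_le hk0 _ _).trans hk1.le
  have hlv := ctx_lv H hk1 (i := j + 1 + 1) (by omega)
  rw [hlv] at hEl
  -- the sizes
  have hs' : side k0 x.al (j + 1) = 2 * (side k0 x.al (j + 1) / 2) := hEl.ss
  have hZ : ∀ t : Tol d N, t.kl = (datC x c q N Lw Sf lam E k0 es g0 gam Lm).P.cl *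
      (datC x c q N Lw Sf lam E k0 es g0 gam Lm).P.kap (lv k0 x.al (j + 1 + 1) + 1) →
      InsZ x (q.c1 / 2) (2 * q.C1) (q.th / 4) (c.cl / 4) (cmu d c q) (5 ^ d)
        (kap k0 (lv k0 x.al (j + 1 + 1))) es (datC x c q N Lw Sf lam E k0 es g0 gam Lm).f t
        ((datC x c q N Lw Sf lam E k0 es g0 gam Lm).uN k0 (q.th / 4) Lm
            (fun n => kap k0 n ^ (3 * x.vt)) (lv k0 x.al (j + 1 + 1)))
        ((x.J * (2 * WSv x k0 j + 1) ^ d * (2 * hR k0 x.al x.v2 (j + 1) + 1) ^ d : ℕ) : ℝ)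
        (cmu d c q * ks k0 x.al (j + 2)) (cwv x q.w k0 j)
        (x.J * (2 * WSv x k0 j + rho k0 x.al x.J (j + 1)) + hR k0 x.al x.v2 (j + 1))
        (side k0 x.al (j + 1) / 2) := by
    intro t ht
    exact {
      I := hEl.inK t ht
      tau := le_rfl
      eta0 := H.dat.es0.le
      eta1 := hEl.eta
      nS0 := Nat.cast_nonneg _
      nS1 := hG.nS
      cw1 := hG.cw
      μ0 := le_rfl
      μ1 := hEl.muk
      s1 := by
        have h1 : ((side k0 x.al (j + 1) : ℕ) : ℝ) =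
            2 * ((side k0 x.al (j + 1) / 2 : ℕ) : ℝ) := by exact_mod_cast hs'
        have h2 : ks k0 x.al (j + 2) ^ (-2 : ℝ) ≤ (side k0 x.al (j + 1) : ℝ) := hG.sd
        change 1 / 2 * ks k0 x.al (j + 2) ^ (-2 : ℝ) ≤ _
        linarith
      ρc1 := by
        have h1 : ((side k0 x.al (j + 1) : ℕ) : ℝ) =
            2 * ((side k0 x.al (j + 1) / 2 : ℕ) : ℝ) := by exact_mod_cast hs'
        have h2 := hG.rc'
        have h3 : (0 : ℝ) ≤ ((side k0 x.al (j + 1) / 2 : ℕ) : ℝ) := Nat.cast_nonneg _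
        linarith }
  have hkv2 : 0 ≤ ks k0 x.al (j + 2) ^ (-x.v2) := Real.rpow_nonneg hkp.le _
  have hC : InsC (d := d) x x.J (6 * x.J + 2) (1 / 2) (kap k0 (lv k0 x.al (j + 1 + 1)))
      ((x.J * (2 * WSv x k0 j + 1) ^ d : ℕ) : ℝ) (hR k0 x.al x.v2 (j + 1) + 1)
      x.J (rbv x k0 j (rFn (nm k0 j))) (Dbv x k0 j (rFn (nm k0 j))) (nm k0 j).nb (nm k0 j).Ml
      (rFn (nm k0 j) : ℝ) := {
    nF0 := Nat.cast_nonneg _
    nF1 := hG.nF.trans (Real.rpow_le_rpow_of_exponent_ge hkp hkl (by linarith))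
    R01 := by
      have h1 := hG.R0
      change 1 / 2 * ks k0 x.al (j + 2) ^ (-x.v2) ≤ _
      linarith
    m1 := le_rfl
    Ml0 := hn.Ml
    P1 := hn.cp
    r10 := hG.rb0
    D11 := by exact_mod_cast hG.Db
    r11 := hG.rb
    ρF1 := by
      refine hG.rF.trans ?_
      have h1 : ks k0 x.al (j + 2) ^ (-x.v2) ≤ ks k0 x.al (j + 2) ^ (-(1 / 2) : ℝ) :=
        Real.rpow_le_rpow_of_exponent_ge hkp hkl (by linarith)
      change _ ≤ ks k0 x.al (j + 2) ^ (-(1 / 2) : ℝ)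
      linarith }
  -- the structures
  have huu0 : 0 ≤ (2 + 2 * q.C1) * kap k0 (lv k0 x.al (j + 1 + 1)) ^ x.th := by
    have h1 : 0 ≤ kap k0 (lv k0 x.al (j + 1 + 1)) ^ x.th := Real.rpow_nonneg hkp.le _
    have h2 : 0 ≤ 2 + 2 * q.C1 := by linarith
    exact mul_nonneg h2 h1
  have hA := fun (t : Tol d N) (ht : t.kl = (datC x c q N Lw Sf lam E k0 es g0 gam Lm).P.cl *
      (datC x c q N Lw Sf lam E k0 es g0 gam Lm).P.kap (lv k0 x.al (j + 1 + 1) + 1)) =>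
    E1 N es _ t _ _ ((2 + 2 * q.C1) * kap k0 (lv k0 x.al (j + 1 + 1)) ^ x.th) _ _ _ _
      (hZ t ht) rfl huu0 le_rfl
  have hB := fun (t : Tol d N) (ht : t.kl = (datC x c q N Lw Sf lam E k0 es g0 gam Lm).P.cl *
      (datC x c q N Lw Sf lam E k0 es g0 gam Lm).P.kap (lv k0 x.al (j + 1 + 1) + 1)) =>
    E2 N es _ t _ _ _ _ _ _ _ _ _ _ _ _ _ _ (hZ t ht) hC rfl
  let t0 : Tol d N :=
    { k := 0
      kl := (datC x c q N Lw Sf lam E k0 es g0 gam Lm).P.cl *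
        (datC x c q N Lw Sf lam E k0 es g0 gam Lm).P.kap (lv k0 x.al (j + 1 + 1) + 1)
      eta := 0
      st := 0
      del := fun _ => 0
      tau := fun _ => 0
      Ks := ∅
      a := fun _ _ => 0
      z := fun _ _ => 0
      D := fun _ _ => 0
      dl := fun _ => 0
      C0 := fun _ _ => 0
      g5 := fun _ _ => 0 }
  have hA0 := hA t0 rfl
  have hB0 := hB t0 rfl
  refine ⟨hG.hr2, le_of_eq (congrArg (fun y : ℝ => y ^ (1 / 2 : ℝ)) ?_), ?_, ?_, le_rfl⟩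
  · rw [hlv]
    rfl
  · rw [hlv]
    have he1 : max 1 (k0 ^ (x.vi / 2)) = 1 :=
      max_eq_left (Real.rpow_le_one hk0.le hk1.le (by positivity))
    have he2 : max 1 (k0 ^ (x.vi / 4)) = 1 :=
      max_eq_left (Real.rpow_le_one hk0.le hk1.le (by positivity))
    exact {
      sh := hEl.sh
      rc := hG.rc
      L4 := hG.L4
      LS := hG.LS
      LK := hG.LK
      kap1 := hEl.kap1
      kap2 := hEl.kap2
      rho0 := hEl.rho0
      rho := hEl.rho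
      hs5 := hEl.hs5
      s50 := hEl.s50
      fr0 := hEl.fr0
      Lam0 := hEl.Lam0
      C20 := hEl.C20
      tau0 := hEl.tau0
      dS := by rw [hEl.dS]; exact hdS
      mu0 := hEl.mu0
      mu1 := hEl.mu1
      mul := hEl.mul
      mus := hEl.mus
      cw := le_rfl
      tr := hEl.tr
      hS := le_rfl
      hF := le_rfl
      hh0 := Real.rpow_nonneg hkp.le _
      huu := hEl.huu
      an := fun t ht => (hA t ht).an
      ex1 := hA0.ex1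
      rf1 := fun t ht => (hA t ht).rf1
      pB1 := hA0.pB1
      WB1 := hA0.WB1
      tt1 := by
        change ANI.TotN d _ _ _ _ _ _ _ _ _ _ _ _ _ _ _ _ _ _ _ _ _ _ _ _ _
          (max 1 (k0 ^ (x.vi / 2))) (max 1 (k0 ^ (x.vi / 4))) c3
        rw [he1, he2]
        exact hA0.tt1
      ec := hA0.ec
      qc := hA0.qc
      Ml := hn.Ml
      R0 := by
        have h1 := hEl.r0R
        have h2 := hG.R0
        change _ ≤ (hR k0 x.al x.v2 (j + 1) : ℝ) + 1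
        have h3 : ks k0 x.al (j + 1 + 1) ^ (-x.v2) = ks k0 x.al (j + 2) ^ (-x.v2) := rfl
        linarith
      R0' := le_rfl
      lb1 := hG.lb1
      lb2 := hG.lb2
      rb1 := hG.rb1
      rb2 := hG.rb2
      Db := le_rfl
      nb := hn.nb
      cn := hB0.cn
      ex2 := hB0.ex2
      rf2 := fun t ht => (hB t ht).rf2
      pB2 := hB0.pB2
      WB2 := hB0.WB2
      tt2 := by
        change ANI.TotN d _ _ _ _ _ _ _ _ _ _ _ _ _ _ _ _ _ _ _ _ _ _ _ _ _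
          (max 1 (k0 ^ (x.vi / 2))) (max 1 (k0 ^ (x.vi / 4))) c3
        rw [he1, he2]
        exact hB0.tt2 }
  · refine le_trans ?_ hn.e
    have h1 : ks k0 x.al (j + 2) ^ x.van ≤ ks k0 x.al (j + 2) ^ (14 * x.vi) :=
      Real.rpow_le_rpow_of_exponent_ge hkp hkl (by have := x.I6'; linarith)
    change ks k0 x.al (j + 2) ^ x.van + ks k0 x.al (j + 2) ^ (14 * x.vi) ≤ _
    linarith

end Pool.Agent.AND
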