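import Pool.Agent.AND.InsGlue
import Pool.Agent.AND.NWk

/-!
# AND / InsProc: THE INSERTION THEOREM IN THE PROCESS (hypothesis `hins` of `Dat.leak_of_ins`)

`Dat.ins_st`: the facts `InsSt` for the test of a cluster; `Dat.ins_glue`: the insertion theorem.
-/

set_option autoImplicit false
set_option linter.unusedSectionVars false

open Finset

noncomputable section

namespace Pool.Agent.AND

open Pool.Agent.Kin Pool.Agent.APS Pool.Agent.ANL Pool.Agent.ANM Pool.Agent.ANQ Pool.Agent.ANB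
open Pool.Agent.ANI (ReadP Wts dB)
open Pool.Agent.ANP (dT)

variable {d L : ℕ} [NeZero L] {X : Type} [Fintype X] [DecidableEq X]

/-- the multiplicity of the anchors -/
theorem Dat.ins_mult {D : Dat d L X} {W : ℕ → ℕ} {V : ℕ} (hG : (D.g.par W V).Ok) {j : ℕ}
    (hr : 2 * (W j + D.g.sep j) ≤ D.g.rho (j + 1)) (hJ : D.g.J ≤ D.mJ) {k : ℕ}
    {v : Tor d L → X} {F : Finset (Tor d L)}
    (hF : F ∈ D.g.cands D.ana (j + 1) (D.g.run D.ana (j + 1) v) v) (c : Tor d L) :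
    ((insert F (D.g.irun D.ana (j + 1) k v).don).filter fun C => D.an (j + 1) C = c).card ≤
      D.mJ := by
  refine (cands_mult (g := D.g) (A := D.ana) W V hG (j + 1) ?_ v _ ?_ (D.an (j + 1)) ?_ c).trans
    hJ
  · intro i hi
    have h1 : j = i := by omega
    rw [← h1]
    exact hr
  · intro C hC
    rcases mem_insert.1 hC with h1 | h1
    · rw [h1]
      exact hF
    · exact (Geo.icur_sub (g := D.g) (A := D.ana) (j + 1) _ v k).1 h1
  · intro C hC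
    refine ⟨hC.choose, hC.choose_spec, ?_⟩
    unfold Dat.an
    rw [dif_pos hC]

/-- THE FACTS FOR THE TEST OF A CLUSTER -/
theorem Dat.ins_st {D : Dat d L X} (hd : 0 < d) {Jm n1 : ℕ} {k0 be0 Lam th e rho : ℝ}
    {dA : ℕ → ℝ} (h : InH D Jm n1 k0 be0 Lam th e rho dA) {W : ℕ → ℕ} {V : ℕ}
    (hG : CGeo D.g W V) (hgd : D.g.dist = td) {K : Tor d L → Finset X} {r : ℕ → ℕ}
    (hP : PercIn D.g D.ana K r) {j : ℕ} (hj : j + 1 < Jm) {c0 N Δ Δ' : ℕ}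
    (hO : LOk (D.g.par W V) j c0 N Δ Δ') (hc0 : cK D.g W V j (r (j + 1)) ≤ c0)
    (hr : 2 * D.g.R (j + 1) ≤ D.g.rho (j + 1)) (hRD : D.g.R (j + 1) ≤ D.g.D (j + 1))
    {v : Tor d L → X} {k : ℕ}
    (hk : k < (D.g.ilist D.ana (j + 1) (D.g.run D.ana (j + 1) v) v).length)
    {F : Finset (Tor d L)}
    (hFe : F = (D.g.ilist D.ana (j + 1) (D.g.run D.ana (j + 1) v) v)[k])
    {s' : ℕ} {h1 nS nF R0 : ℝ} (hh0 : 0 ≤ h1)
    (hinc : ∀ a, |D.Y.hh D.g.nf a - D.Y.hh (D.g.lv (j + 1 + 1)) a| ≤ h1)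
    (hwkh : ∀ n a, D.wk n a → D.Y.hh n a = D.Y.hh D.g.nf a)
    (hLS : 2 * ((D.g.par W V).CD j + c0 + 2) ≤ L)
    (hLK : 2 * (cK D.g W V (j + 1) (r (j + 1)) + 1) ≤ L)
    (hnS : ((D.g.J * (2 * (W j + D.g.sep j) + 1) ^ d * (2 * D.g.R (j + 1) + 1) ^ d : ℕ) : ℝ) ≤
      nS)
    (hnF : ((D.g.J * (2 * (W j + D.g.sep j) + 1) ^ d : ℕ) : ℝ) ≤ nF)
    (hR0 : R0 ≤ D.g.R (j + 1) + 1) :
    ∃ c, InsSt D (D.g.lv (j + 1 + 1)) (D.g.side (j + 1)) s'
      ((D.g.par W V).CD j + D.g.R (j + 1)) (D.fd (j + 1) (D.g.irun D.ana (j + 1) k v).don)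
      (D.fd (j + 1) (insert F (D.g.irun D.ana (j + 1) k v).don))
      (D.g.irun D.ana (j + 1) k v).pi
      (ANQ.read (D.g.irun D.ana (j + 1) k v).pi D.g.nf (D.g.nbhd (D.g.R (j + 1)) F \ F))
      (ANQ.read (D.g.irun D.ana (j + 1) k v).pi D.g.nf (D.g.nbhd (D.g.R (j + 1)) F)) v
      ((D.g.nbhd (D.g.R (j + 1)) F \ F) \ (D.g.irun D.ana (j + 1) k v).pi.rd) F c
      (D.an (j + 1) F) h1 nS nF R0 := by
  have hm : NMet D.g.dist := hG.ok.met
  have hF := il_mem hk hFe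
  have hL := Dat.loc h.qok
  have hR1 : D.g.R (j + 1) ≤ D.g.rho (j + 1) := by omega
  have hsubU : F ⊆ D.g.nbhd (D.g.R (j + 1)) F := by
    intro x hx
    exact Geo.mem_nbhd.2 ⟨x, hx, by rw [hm.self]; exact Nat.zero_le _⟩
  obtain ⟨c, -, hc1, hc2⟩ := ins_ctr hG.ok hgd (D := D) rfl hF
  refine ⟨c, ?_⟩
  have hann : ∀ x ∈ (D.g.nbhd (D.g.R (j + 1)) F \ F) \ (D.g.irun D.ana (j + 1) k v).pi.rd,
      (x ∈ (D.g.irun D.ana (j + 1) k v).pi.act ∧
        (D.g.irun D.ana (j + 1) k v).pi.lev x = D.g.lv (j + 1 + 1)) ∨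
      x ∈ (D.g.irun D.ana (j + 1) k v).pi.ine := by
    intro x hx
    obtain ⟨h2, h3⟩ := mem_sdiff.1 hx
    obtain ⟨h4, h5⟩ := mem_sdiff.1 h2
    exact ins_ann h.ns.cor hL hm hk hFe hRD hr h4 h5 h3
  have hcard : F.card ≤ D.g.J * (2 * (W j + D.g.sep j) + 1) ^ d := ins_card hG.ok hgd hF
  exact {
    p1 := ins_rp1 (j + 1) k v _
    p2 := ins_rp2 hm hk hFe hR1 hsubU
    lv1 := ins_lv1 (j + 1) k v _
    lv2 := ins_lv1 (j + 1) k v _
    Sr := sdiff_disjoint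
    Fr := ins_Fr hm hk hFe hR1 _
    S0 := ins_S_ne hd hG.ok hgd hO (cp_eS_run hG hP hc0 v) hk hFe hLS
    F0 := Geo.cands_ne hF
    ne := by
      obtain ⟨x, hx1, hx2⟩ := ins_out_ne (k := k) hd hG hgd hP hF hLK
      exact ⟨x, hx1, fun h2 => hx2 (mem_sdiff.1 (mem_sdiff.1 h2).1).1, fun h2 => hx2 (hsubU h2)⟩
    act := fun x hx => (hann x hx).imp (fun h2 => h2.1) id
    hh := by
      intro x hx
      rcases hann x hx with h2 | h2
      · rw [h2.2]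
        exact hinc _
      · have h3 := (pinv_irun (g := D.g) (A := D.ana) (j + 1) k v).iw x h2
        have h4 := hwkh _ _ h3
        rw [h4, sub_self, abs_zero]
        exact hh0
    ctr := by
      intro z hz
      refine hc2 z ?_
      rcases mem_union.1 hz with h2 | h2
      · exact (mem_sdiff.1 (mem_sdiff.1 h2).1).1
      · exact hsubU h2
    anc := hc1
    nS := by
      refine le_trans ?_ hnS
      have h2 : ((D.g.nbhd (D.g.R (j + 1)) F \ F) \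
          (D.g.irun D.ana (j + 1) k v).pi.rd).card ≤ (D.g.nbhd (D.g.R (j + 1)) F).card :=
        card_le_card (sdiff_subset.trans sdiff_subset)
      have h3 := card_nbhd hgd (D.g.R (j + 1)) F
      exact_mod_cast h2.trans (h3.trans (Nat.mul_le_mul_right _ hcard))
    nF := by
      refine le_trans ?_ hnF
      exact_mod_cast hcard
    far := by
      intro x hx1 hx2 hx3 y hy
      have h2 : x ∉ D.g.nbhd (D.g.R (j + 1)) F := fun h3 =>
        hx2 (mem_sdiff.2 ⟨mem_sdiff.2 ⟨h3, hx3⟩, hx1⟩)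
      have h3 := ins_far hgd h2 y hy
      refine hR0.trans ?_
      exact_mod_cast h3
    lvp := by
      have h2 := lvp_irun h.ns.cor hL (j + 1) k v
      exact {
        act := fun y hy => by
          have hy' := mem_sdiff.1 hy
          have h3 := h2.act y hy'.1
          have h4 : (ANQ.read (D.g.irun D.ana (j + 1) k v).pi D.g.nf
              (D.g.nbhd (D.g.R (j + 1)) F \ F)).lev y =
              (D.g.irun D.ana (j + 1) k v).pi.lev y := if_neg hy'.2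
          rw [h4]
          exact h3
        lev := lev_read h2.lev _ _
        iw := ((pinv_irun (g := D.g) (A := D.ana) (j + 1) k v).read _).iw }
    inv := fun G hg => Inv.read (Dat.inv_irun h.ns h.qok (j + 1) hj k v).1 hg
    fld := by
      have h2 : F ∉ (D.g.irun D.ana (j + 1) k v).don := fun h3 =>
        Geo.don_ne (g := D.g) (A := D.ana) hk le_rfl F h3 hFe
      exact insD_insert D.P (D.g.lv (j + 1 + 1)) (D.g.side (j + 1)) _ _ _ h2 }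

/-- THE INSERTION THEOREM: hypothesis `hins` of `Dat.leak_of_ins` -/
theorem Dat.ins_glue {D : Dat d L X} (hd : 3 ≤ d) {Jm n1 : ℕ} {k0 be0 Lam th e rho : ℝ}
    {dA : ℕ → ℝ} (h : InH D Jm n1 k0 be0 Lam th e rho dA)
    (hav : ANI.Avoid (H0T d L) (D.Y.hh D.g.nf) D.Y.E) {W : ℕ → ℕ} {V : ℕ}
    (hG : CGeo D.g W V) (hgd : D.g.dist = td) {K : Tor d L → Finset X} {r : ℕ → ℕ}
    (hP : PercIn D.g D.ana K r) {j : ℕ} (hj : j + 1 < Jm) {c0 N Δ Δ' : ℕ}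
    (hO : LOk (D.g.par W V) j c0 N Δ Δ') (hc0 : cK D.g W V j (r (j + 1)) ≤ c0)
    (hr : 2 * D.g.R (j + 1) ≤ D.g.rho (j + 1)) (hRD : D.g.R (j + 1) ≤ D.g.D (j + 1))
    (hr2 : 2 * (W j + D.g.sep j) ≤ D.g.rho (j + 1)) (hJ : D.g.J ≤ D.mJ) {s' : ℕ} {p : InsPr}
    (hinc : ∀ a, |D.Y.hh D.g.nf a - D.Y.hh (D.g.lv (j + 1 + 1)) a| ≤ p.h1)
    (hwkh : ∀ n a, D.wk n a → D.Y.hh n a = D.Y.hh D.g.nf a)
    (hN : InsNm d L D.f (D.uN k0 rho Lam dA (D.g.lv (j + 1 + 1))) D.P (D.g.lv (j + 1 + 1))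
      (D.g.side (j + 1)) s' ((D.g.par W V).CD j) (D.g.R (j + 1)) D.g.J (W j + D.g.sep j)
      ((N + 1) * (Δ + c0) + c0 + 1) (cK D.g W V (j + 1) (r (j + 1))) c0 p)
    (hH3 : ∀ (Fd : Fld (Tor d L)) (π : Prof (Tor d L)) (v : Tor d L → X) (M0 : Med (Tor d L)),
      Fd.Pos → FldIn D.f Fd (k0 ^ (D.P.vi / 2)) (k0 ^ (D.P.vp / 2))
        (ANC.aeB k0 D.P.eta D.P.vi (D.g.lv (j + 1 + 1))) (Lam + 1) 1 →
      InC D k0 rho Lam dA (D.g.lv (j + 1 + 1)) Fd π v M0 → NWk D.ana π v →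
      ANI.H3D D.P D.Sf (D.g.lv (j + 1 + 1)) Fd π v M0 p.B1 p.B2 p.errm p.bem p.c3) :
    ∀ v k, ∀ hk : k < (D.g.ilist D.ana (j + 1) (D.g.run D.ana (j + 1) v) v).length,
      ∀ M0, InC D k0 rho Lam dA (D.g.lv (j + 1 + 1))
        (D.fd (j + 1) (D.g.irun D.ana (j + 1) k v).don) (D.g.irun D.ana (j + 1) k v).pi v M0 →
      ∃ M1, D.InsM (j + 1) k v (ilF D.g D.ana (j + 1) k v hk)
        (ilDt D.g D.ana (j + 1) N Δ v (ilF D.g D.ana (j + 1) k v hk)) (p.e1 + p.f1) p.Ml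
          M0 M1 := by
  intro v k hk M0 hM0
  generalize hFe : ilF D.g D.ana (j + 1) k v hk = F
  have hFe' : F = (D.g.ilist D.ana (j + 1) (D.g.run D.ana (j + 1) v) v)[k] := hFe.symm
  have hF := il_mem hk hFe'
  have hL := Dat.loc h.qok
  have hm : NMet D.g.dist := hG.ok.met
  have hcp := cp_eS_run hG hP hc0 v
  obtain ⟨m, Fp, hmJ, hp⟩ := (clu_of_cands hG.ok hF).pieces hG.ok (l := p.lb) hN.lb1
  have hgJ : (D.g.par W V).J = D.g.J := rfl
  have hmJ' : m ≤ D.g.J := hmJ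
  have hp' : Pcs D.g.dist F p.lb (D.g.J * (2 * (W j + D.g.sep j) + p.lb)) m Fp := hp
  have hlb : 2 * ((N + 1) * (Δ + c0) + c0) + 1 ≤ p.lb := by
    have := hN.lb2
    omega
  obtain ⟨c, hSt⟩ := Dat.ins_st (by omega) h hG hgd hP hj hO hc0 hr hRD hk hFe' (s' := s')
    hN.hh0 hinc hwkh hN.LS hN.LK hN.hS hN.hF hN.R0'
  have hcard : F.card ≤ D.g.J * (2 * (W j + D.g.sep j) + 1) ^ d := ins_card hG.ok hgd hF
  obtain ⟨M1, h1, h2, h3, h4⟩ := ins_core hd h hav (h.lv_le (show j + 1 + 1 ≤ Jm from hj)) hN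
    (h.fn.fd_pos (j + 1) _) (h.fn.fd_in hj _ (h.ns.mult (j + 1) hj v k))
    (h.fn.fd_in hj _ fun ca _ => Dat.ins_mult hG.ok hr2 hJ hF ca) hSt hM0
    (hH3 _ _ _ _ (h.fn.fd_pos (j + 1) _) (h.fn.fd_in hj _ (h.ns.mult (j + 1) hj v k)) hM0
      (nwk_icur (nwk_run (j + 1) v) k))
    (E := insD D.g D.ana (j + 1) k v F)
    (ins_wts hG hgd hP hF hN.cw (fun x hx => Or.inl (by rwa [hM0.med.U] at hx))
      (fun x hx => by rwa [hM0.med.I] at hx) (fun x hx => by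
        rcases mem_union.1 hx with h5 | h5
        · exact (mem_sdiff.1 (mem_sdiff.1 h5).1).1
        · exact Geo.mem_nbhd.2 ⟨x, h5, by rw [hm.self]; exact Nat.zero_le _⟩)
      hN.mu0 hN.mu1 hN.mul hN.mus) hmJ'
    (Db := insDb D.g D.ana j v N Δ Fp) (Fb := Fp)
    (Dt := ilDt D.g D.ana (j + 1) N Δ v F)
    (fun M1 hU => ins_cgeo hG.ok hgd hO hcp hk hFe' hp' hlb hM0.med.U hU hN.rb1 hN.rb2 hN.Db
      ((Nat.mul_le_mul_right _ hcard).trans hN.nb))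
    (fun i hi => ins_bdy hm hgd hcp hp' hlb hi)
  exact ⟨M1, h1, h2, h3, h4⟩

end Pool.Agent.AND
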