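import Pool.Agent.AND.StepCoreA
import Pool.Agent.ANB.Real

/-! # AND / LawAU: THE UNIFORM LAW (Part A)

* `Uni L` : all cells of the last level are present, equal masses, values = centres, stride `1`.
* `Uni.kp_eq` : the conditional variance is `S² / 3 (4^(-n) - 4^(-nf))`.
* `Uni.lawA` : `LawA L n` for `n + 2 ≤ nf`.
* `uni_law` : the law `ANB.law` of the uniform measure of `[-M, M]`, stride `1`, is `Uni`. -/

set_option autoImplicit false

open Finset MeasureTheory

noncomputable section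

namespace Pool.Agent.AND

open Pool.Agent.ANB
open Pool.Agent.Helper3.Anderson (GoodLaw)

section uni

variable {X : Type} [Fintype X]

/-- uniform law on equidistant points, all dyadic levels are read -/
structure Uni (L : Law X) : Prop where
  m1 : L.m = 1
  all : ∀ i < 2 ^ L.nf, ∃ a, L.c a = i
  mass : ∀ a, L.p a = 1 / 2 ^ L.nf
  val : ∀ a, L.V a = 2 * L.S * ((L.c a : ℝ) + 1 / 2) / 2 ^ L.nf - L.S

theorem sum_shift (m : ℕ) : ∑ j ∈ range m, ((j : ℝ) + 1 / 2) = (m : ℝ) ^ 2 / 2 := by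
  induction m with
  | zero => simp
  | succ k ih =>
    rw [Finset.sum_range_succ, ih]
    push_cast
    ring

theorem sum_shift2 (m : ℕ) : ∑ j ∈ range m, ((j : ℝ) + 1 / 2) ^ 2 = (m : ℝ) * (4 * m ^ 2 - 1) / 12 := by
  induction m with
  | zero => simp
  | succ k ih =>
    rw [Finset.sum_range_succ, ih]
    push_cast
    ring

theorem sum_dev (m : ℕ) :
    ∑ j ∈ range m, ((j : ℝ) + 1 / 2 - m / 2) ^ 2 = (m : ℝ) * (m ^ 2 - 1) / 12 := by
  have h1 : ∀ j : ℕ, ((j : ℝ) + 1 / 2 - m / 2) ^ 2 =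
      ((j : ℝ) + 1 / 2) ^ 2 - m * ((j : ℝ) + 1 / 2) + m ^ 2 / 4 := fun j => by ring
  rw [Finset.sum_congr rfl fun j _ => h1 j, Finset.sum_add_distrib, Finset.sum_sub_distrib,
    ← Finset.mul_sum, sum_shift, sum_shift2, Finset.sum_const, Finset.card_range, nsmul_eq_mul]
  ring

namespace Uni

variable {L : Law X} (h : Uni L)

include h

theorem sk (n : ℕ) : L.sk n = n := by
  unfold Law.sk
  rw [h.m1, Nat.div_one, one_mul]

theorem cell {n : ℕ} (a : X) : L.cell n a = L.c a / 2 ^ (L.nf - n) := by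
  unfold Law.cell Law0.cell
  rw [h.sk]
  rfl

theorem not_wk {n : ℕ} (hn : n ≤ L.nf) (a : X) : ¬ L.wk n a := by
  have h1 := Law0.not_wk_of_uniform L.B (fun i hi => h.all i hi) (fun a => h.mass a) hn a
  unfold Law.wk
  rw [h.sk]
  exact h1

/-- the class of a point -/
theorem sum_cl {n : ℕ} (hn : n ≤ L.nf) (a : X) (g : ℕ → ℝ) :
    ∑ b ∈ cl (L.q n) a, g (L.c b) =
      ∑ j ∈ range (2 ^ (L.nf - n)), g (2 ^ (L.nf - n) * L.cell n a + j) := by
  classical
  set K := 2 ^ (L.nf - n) with hK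
  have hK0 : 0 < K := by positivity
  have hnw := h.not_wk hn
  have hq : ∀ b, b ∈ cl (L.q n) a ↔ L.c b / K = L.cell n a := by
    intro b
    rw [mem_cl]
    constructor
    · intro hb
      rcases L.q_eq hb with ⟨h1, -⟩ | ⟨-, -, h1⟩
      · exact absurd h1 (hnw b)
      · rw [← h1, h.cell]
    · intro hb
      have h1 : L.cell n b = L.cell n a := by rw [h.cell b]; exact hb
      have h2 : ¬ L.B.wk (L.sk n) b := hnw b
      have h3 : ¬ L.B.wk (L.sk n) a := hnw a
      have h4 : L.B.cell (L.sk n) b = L.B.cell (L.sk n) a := h1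
      unfold Law.q Law0.q
      rw [if_neg h2, if_neg h3, h4]
  have hlt : ∀ j < K, K * L.cell n a + j < 2 ^ L.nf := by
    intro j hj
    have h1 : L.cell n a < 2 ^ n := by
      rw [h.cell]
      refine Nat.div_lt_of_lt_mul ?_
      rw [← pow_add, show L.nf - n + n = L.nf by omega]
      exact L.clt a
    have h2 : 2 ^ L.nf = K * 2 ^ n := by
      rw [hK, ← pow_add]; congr 1; omega
    rw [h2]
    calc K * L.cell n a + j < K * L.cell n a + K := by omega
      _ = K * (L.cell n a + 1) := by ring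
      _ ≤ K * 2 ^ n := Nat.mul_le_mul_left _ h1
  refine Finset.sum_bij (fun b _ => L.c b - K * L.cell n a) ?_ ?_ ?_ ?_
  · intro b hb
    rw [hq] at hb
    have h1 := Nat.div_add_mod (L.c b) K
    have h2 := Nat.mod_lt (L.c b) hK0
    rw [hb] at h1
    rw [Finset.mem_range]
    omega
  · intro b hb b' hb' he
    rw [hq] at hb hb'
    have h1 := Nat.div_add_mod (L.c b) K
    have h1' := Nat.div_add_mod (L.c b') K
    rw [hb] at h1
    rw [hb'] at h1'
    refine L.inj ?_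
    have he' : L.c b - K * L.cell n a = L.c b' - K * L.cell n a := he
    omega
  · intro j hj
    rw [Finset.mem_range] at hj
    obtain ⟨b, hb⟩ := h.all _ (hlt j hj)
    refine ⟨b, ?_, ?_⟩
    · rw [hq, hb, Nat.mul_add_div hK0, Nat.div_eq_of_lt hj, add_zero]
    · rw [hb]
      omega
  · intro b hb
    rw [hq] at hb
    have h1 := Nat.div_add_mod (L.c b) K
    rw [hb] at h1
    congr 1
    omega

theorem cm_eq {n : ℕ} (hn : n ≤ L.nf) (a : X) : cm L.p (L.q n) a = 1 / 2 ^ n := by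
  have h1 := h.sum_cl hn a (fun _ => 1 / 2 ^ L.nf)
  unfold cm
  rw [Finset.sum_congr rfl fun b _ => h.mass b, h1, Finset.sum_const, Finset.card_range,
    nsmul_eq_mul]
  push_cast
  have h6 : (2 : ℝ) ^ L.nf = 2 ^ (L.nf - n) * 2 ^ n := by
    rw [← pow_add]; congr 1; omega
  rw [h6]
  field_simp

/-- conditional expectations -/
theorem cE_eq {n : ℕ} (hn : n ≤ L.nf) (a : X) (g : ℕ → ℝ) :
    cE L.p (L.q n) (fun b => g (L.c b)) a =
      (∑ j ∈ range (2 ^ (L.nf - n)), g (2 ^ (L.nf - n) * L.cell n a + j)) / 2 ^ (L.nf - n) := by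
  unfold cE
  rw [h.cm_eq hn, ← h.sum_cl hn a g, Finset.sum_congr rfl fun b _ => by rw [h.mass b],
    ← Finset.mul_sum]
  have h6 : (2 : ℝ) ^ L.nf = 2 ^ (L.nf - n) * 2 ^ n := by
    rw [← pow_add]; congr 1; omega
  rw [h6]
  field_simp

theorem h_eq {n : ℕ} (hn : n ≤ L.nf) (a : X) :
    L.h n a = 2 * L.S * ((2 ^ (L.nf - n) : ℝ) * L.cell n a + 2 ^ (L.nf - n) / 2) / 2 ^ L.nf -
      L.S := by
  have h1 := h.cE_eq hn a (fun i => 2 * L.S * ((i : ℝ) + 1 / 2) / 2 ^ L.nf - L.S)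
  have h2 : L.V = fun b => 2 * L.S * ((L.c b : ℝ) + 1 / 2) / 2 ^ L.nf - L.S := by
    funext b
    exact h.val b
  unfold Law.h
  rw [h2, h1]
  set K := 2 ^ (L.nf - n) with hK
  have hKr : ((2 : ℝ) ^ (L.nf - n)) = (K : ℝ) := by rw [hK]; push_cast; rfl
  have hK0 : (0 : ℝ) < K := by rw [← hKr]; positivity
  rw [hKr]
  have h3 : ∀ j : ℕ, 2 * L.S * (((K * L.cell n a + j : ℕ) : ℝ) + 1 / 2) / 2 ^ L.nf - L.S =
      2 * L.S / 2 ^ L.nf * ((j : ℝ) + 1 / 2) + (2 * L.S * (K * L.cell n a) / 2 ^ L.nf - L.S) := by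
    intro j
    push_cast
    ring
  rw [Finset.sum_congr rfl fun j _ => h3 j, Finset.sum_add_distrib, ← Finset.mul_sum, sum_shift,
    Finset.sum_const, Finset.card_range, nsmul_eq_mul]
  field_simp
  ring

/-- THE CONDITIONAL VARIANCE -/
theorem kp_eq {n : ℕ} (hn : n ≤ L.nf) (a : X) :
    L.kp n a = L.S ^ 2 / 3 * (1 / 4 ^ n - 1 / 4 ^ L.nf) := by
  have h0 : L.kp n a = cE L.p (L.q n) (fun b => (L.V b - L.h n a) ^ 2) a := rfl
  have h2 : (fun b => (L.V b - L.h n a) ^ 2) =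
      fun b => (2 * L.S * ((L.c b : ℝ) + 1 / 2) / 2 ^ L.nf - L.S - L.h n a) ^ 2 := by
    funext b
    rw [h.val b]
  have h5 := h.cE_eq hn a
    (fun i => (2 * L.S * ((i : ℝ) + 1 / 2) / 2 ^ L.nf - L.S - L.h n a) ^ 2)
  rw [h0, h2, h5, h.h_eq hn a]
  set K := 2 ^ (L.nf - n) with hK
  have hKr : ((2 : ℝ) ^ (L.nf - n)) = (K : ℝ) := by rw [hK]; push_cast; rfl
  have hK0 : (0 : ℝ) < K := by rw [← hKr]; positivity
  rw [hKr]
  have h3 : ∀ j : ℕ, (2 * L.S * (((K * L.cell n a + j : ℕ) : ℝ) + 1 / 2) / 2 ^ L.nf - L.S -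
      (2 * L.S * ((K : ℝ) * L.cell n a + K / 2) / 2 ^ L.nf - L.S)) ^ 2 =
      (2 * L.S / 2 ^ L.nf) ^ 2 * ((j : ℝ) + 1 / 2 - K / 2) ^ 2 := by
    intro j
    push_cast
    ring
  rw [Finset.sum_congr rfl fun j _ => h3 j, ← Finset.mul_sum, sum_dev]
  have h4 : ∀ k : ℕ, (4 : ℝ) ^ k = (2 ^ k) ^ 2 := fun k => by
    rw [← pow_mul, mul_comm, pow_mul]
    norm_num
  have h6 : (2 : ℝ) ^ L.nf = K * 2 ^ n := by
    rw [← hKr, ← pow_add]; congr 1; omega
  rw [h4, h4, h6]
  field_simp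
  ring

/-- FACTS OF THE LAW AT THE LEVEL `n`, Part A -/
theorem lawA {n : ℕ} (hn : n + 2 ≤ L.nf) : LawA L n where
  nwk := fun a => h.not_wk (by omega) a
  zt0 := fun a b _ => by
    rw [h.kp_eq (by omega) a, h.kp_eq (by omega) b]
    have hS := L.S0
    refine mul_le_mul_of_nonneg_left ?_ (by positivity)
    have h1 : (1 : ℝ) / 4 ^ (n + 1) ≤ 1 / 4 ^ n :=
      one_div_le_one_div_of_le (by positivity) (pow_le_pow_right₀ (by norm_num) (by omega))
    linarith
  ztk := fun a b _ => by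
    rw [h.kp_eq (by omega) a, h.kp_eq (by omega) b]
    have hS := L.S0
    rw [mul_left_comm]
    refine mul_le_mul_of_nonneg_left ?_ (by positivity)
    have h1 : (1 : ℝ) / 4 ^ (n + 1) = 1 / 4 ^ n / 4 := by
      rw [pow_succ]
      field_simp
    have h2 : (1 : ℝ) / 4 ^ L.nf ≤ 1 / 4 ^ (n + 2) :=
      one_div_le_one_div_of_le (by positivity) (pow_le_pow_right₀ (by norm_num) hn)
    have h3 : (1 : ℝ) / 4 ^ (n + 2) = 1 / 4 ^ n / 16 := by
      rw [pow_add]
      field_simp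
      norm_num
    rw [h1]
    rw [h3] at h2
    have h4 : (0 : ℝ) < 1 / 4 ^ n := by positivity
    linarith

end Uni

end uni

/-! ### the uniform measure -/

section meas

variable {μ : Measure ℝ} {M : ℝ}

/-- the uniform measure of `[-M, M]` -/
def unif (M : ℝ) : Measure ℝ := ENNReal.ofReal (1 / (2 * M)) • volume.restrict (Set.Icc (-M) M)

theorem unif_prob (hM : 0 < M) : IsProbabilityMeasure (unif M) := ⟨by
  unfold unif
  rw [Measure.smul_apply, Measure.restrict_apply_univ, Real.volume_Icc, smul_eq_mul,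
    ← ENNReal.ofReal_mul (by positivity), show 1 / (2 * M) * (M - -M) = 1 by field_simp; ring,
    ENNReal.ofReal_one]⟩

theorem unif_good (hM : 1 ≤ M) :
    GoodLaw (unif M) M (NNReal.mk (1 / (2 * M)) (by positivity)) where
  one_le := hM
  supp := by
    unfold unif
    rw [Measure.smul_apply, Measure.restrict_apply measurableSet_Icc.compl]
    simp
  dens := by
    unfold unif
    have h1 : ENNReal.ofReal (1 / (2 * M)) = ((NNReal.mk (1 / (2 * M)) (by positivity) : NNReal) :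
        ENNReal) := by
      rw [ENNReal.ofReal_eq_coe_nnreal (by positivity)]
    rw [h1]
    gcongr
    exact Measure.restrict_le_self

/-- the cells are intervals, up to one point -/
theorem cs_ae (hM : 0 < M) {nf i : ℕ} (hi : i < 2 ^ nf) :
    (cs M nf i ∩ Set.Icc (-M) M : Set ℝ) =ᵐ[volume]
      Set.Ioc (2 * M * i / 2 ^ nf - M) (2 * M * (i + 1) / 2 ^ nf - M) := by
  have hp : (0 : ℝ) < 2 ^ nf := by positivity
  have hi1 : ((i : ℝ) + 1) ≤ 2 ^ nf := by exact_mod_cast hi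
  have hne : ∀ t : ℝ, ∀ᵐ v : ℝ, v ≠ t := fun t => by
    rw [ae_iff]
    simp
  have hsp : 2 * M * (i + 1) / 2 ^ nf = 2 * M * i / 2 ^ nf + 2 * (M / 2 ^ nf) := by ring
  filter_upwards [hne (2 * M * i / 2 ^ nf - M), hne (2 * M * (i + 1) / 2 ^ nf - M)] with v h1 h2
  refine propext ?_
  show (v ∈ cs M nf i ∧ v ∈ Set.Icc (-M) M) ↔ v ∈ Set.Ioc _ _
  constructor
  · rintro ⟨hv, hvM⟩
    have h3 := ci_mem hM nf hvM.1 hvM.2
    have h4 : ci M nf v = i := hv
    rw [h4, abs_le] at h3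
    have h5 : 2 * M * ((i : ℝ) + 1 / 2) / 2 ^ nf = 2 * M * i / 2 ^ nf + M / 2 ^ nf := by ring
    rw [h5] at h3
    refine ⟨lt_of_le_of_ne (by linarith [h3.1]) (Ne.symm h1), ?_⟩
    rw [hsp]
    linarith [h3.2]
  · rintro ⟨h3, h4⟩
    have h5 : v < 2 * M * (i + 1) / 2 ^ nf - M := lt_of_le_of_ne h4 h2
    have h6 : (i : ℝ) < (v + M) * 2 ^ nf / (2 * M) := by
      rw [lt_div_iff₀ (by positivity)]
      have h7 : 2 * M * i / 2 ^ nf < v + M := by linarith
      rw [div_lt_iff₀ hp] at h7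
      linarith
    have h7 : (v + M) * 2 ^ nf / (2 * M) < i + 1 := by
      rw [div_lt_iff₀ (by positivity)]
      have h8 : v + M < 2 * M * (i + 1) / 2 ^ nf := by linarith
      rw [lt_div_iff₀ hp] at h8
      linarith
    have h8 : ⌊(v + M) * 2 ^ nf / (2 * M)⌋₊ = i := by
      rw [Nat.floor_eq_iff ((Nat.cast_nonneg i).trans h6.le)]
      exact ⟨h6.le, h7⟩
    refine ⟨?_, ?_, ?_⟩
    · show ci M nf v = i
      unfold ci
      rw [h8]
      omega
    · have : 0 ≤ 2 * M * i / 2 ^ nf := by positivity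
      linarith
    · have : 2 * M * (i + 1) / 2 ^ nf ≤ 2 * M := by
        rw [div_le_iff₀ hp]
        exact mul_le_mul_of_nonneg_left hi1 (by positivity)
      linarith

theorem unif_cs (hM : 0 < M) {nf i : ℕ} (hi : i < 2 ^ nf) :
    (unif M).real (cs M nf i) = 1 / 2 ^ nf := by
  have h1 : unif M (cs M nf i) = ENNReal.ofReal (1 / 2 ^ nf) := by
    unfold unif
    rw [Measure.smul_apply, Measure.restrict_apply (measurableSet_cs M nf i),
      measure_congr (cs_ae hM hi), Real.volume_Ioc, smul_eq_mul,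
      ← ENNReal.ofReal_mul (by positivity)]
    congr 1
    field_simp
    ring
  rw [measureReal_def, h1, ENNReal.toReal_ofReal (by positivity)]

theorem unif_int (hM : 0 < M) {nf i : ℕ} (hi : i < 2 ^ nf) :
    ∫ v in cs M nf i, v ∂(unif M) = (2 * M * ((i : ℝ) + 1 / 2) / 2 ^ nf - M) * (1 / 2 ^ nf) := by
  unfold unif
  rw [Measure.restrict_smul, integral_smul_measure, Measure.restrict_restrict
    (measurableSet_cs M nf i), ENNReal.toReal_ofReal (by positivity), smul_eq_mul,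
    setIntegral_congr_set (cs_ae hM hi), ← intervalIntegral.integral_of_le, integral_id]
  · field_simp
    ring
  · have h1 : 2 * M * (i + 1) / 2 ^ nf = 2 * M * i / 2 ^ nf + 2 * (M / 2 ^ nf) := by ring
    have h2 : 0 < M / 2 ^ nf := by positivity
    linarith

/-- THE DISCRETISATION OF THE UNIFORM MEASURE -/
theorem uni_law {K : NNReal} [IsProbabilityMeasure (unif M)] (hμ : GoodLaw (unif M) M K)
    (nf : ℕ) (ep : ℝ) (th : ℕ → ℝ) (ep0 : 0 < ep) (anti : Antitone th) (the : ∀ n, ep ≤ th n)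
    (th1 : th 0 < 1) :
    Uni (ANB.law hμ nf 1 one_pos (one_dvd nf) ep th ep0 anti the th1) where
  m1 := rfl
  all := fun i hi => by
    have hM : 0 < M := lt_of_lt_of_le one_pos hμ.one_le
    have hi' : i < 2 ^ nf := hi
    refine ⟨⟨⟨i, hi'⟩, ?_⟩, rfl⟩
    rw [unif_cs hM hi']
    positivity
  mass := fun a => unif_cs (lt_of_lt_of_le one_pos hμ.one_le) a.1.2
  val := fun a => by
    have hM : 0 < M := lt_of_lt_of_le one_pos hμ.one_le
    have h1 : (ANB.law hμ nf 1 one_pos (one_dvd nf) ep th ep0 anti the th1).S = M := by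
      show (2 : ℝ) ^ (1 - 1) * M = M
      simp
    rw [h1]
    show (∫ v in cs M nf (xi a), v ∂(unif M)) / (unif M).real (cs M nf (xi a)) =
      2 * M * ((xi a : ℝ) + 1 / 2) / 2 ^ nf - M
    have h2 : xi a < 2 ^ nf := a.1.2
    rw [unif_cs hM h2, unif_int hM h2]
    field_simp

end meas

end Pool.Agent.AND
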