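import Pool.Agent.AND.LeakNumG
import Pool.Agent.AND.LawBD

/-! # AND / LeakLawB: the facts about the law which the leak bound needs, for the general law -/

set_option autoImplicit false

namespace Pool.Agent.AND

open Pool.Agent.ANC Pool.Agent.ANB

theorem lkLaw_B {κ : LawC} (hκ : κ.Ok) (d : ℕ) :
    LkLaw (LawB κ (lkF κ.S d)) d (κ.D / κ.ep) := by
  intro X _ Lw Sf lam n1 hl h
  refine ⟨?_, ?_⟩
  · rw [h.of.D, h.of.ep]
  · have h1 := lkF_spec hκ.S0 d hl h.nfF
    rwa [← h.of.S] at h1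

end Pool.Agent.AND
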