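import Pool.Agent.AND.StepFrzA
import Pool.Agent.AND.LeakLawB
import Pool.Agent.AND.LawAU
import Pool.Agent.AND.LawB

/-! # AND / LawBA: THE PROPERTY `LP` OF THE UNIFORM LAW (Part A)

* `LawC.OkA` : conditions on the constants of the uniform law (stride `1`).
* `law_inA` : THE LAWS: for the uniform measure of `[-M, M]` there are constants `κ` such that `hlaw` of `main_of_goals` holds
  for `LP = LawPA κ F`.
* `lkLaw_A` : the facts about the law which the leak bound needs. -/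

set_option autoImplicit false

open Matrix Finset Filter Topology MeasureTheory

noncomputable section

namespace Pool.Agent.AND

open Pool.Agent.Kin Pool.Agent.APS Pool.Agent.ANM Pool.Agent.ANC Pool.Agent.ANB Pool.Agent.ANQ
open Pool.Agent.Helper3.Anderson (GoodLaw)

/-- conditions on the constants of the uniform law -/
structure LawC.OkA (κ : LawC) : Prop where
  S0 : 0 < κ.S
  D0 : 0 < κ.D
  ep0 : 0 < κ.ep
  m1 : κ.m = 1
  thv : ∀ n, κ.th n = κ.ep * (1 + 1 / ((n : ℝ) + 1))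

/-- THE LAWS, Part A -/
theorem law_inA {M : ℝ} (hM : 1 ≤ M) [IsProbabilityMeasure (unif M)] {K : NNReal}
    (hμ : GoodLaw (unif M) M K) (d : ℕ) :
    ∃ κ : LawC, κ.OkA ∧ κ.ep < κ.D ∧ κ.S = M ∧ ∀ (CM : ℝ) (x : Ex d CM) (c : Cst) (q : Csts)
      (F : ℝ → ℕ → ℕ), c.cl ≤ 4 * κ.cL → q.th ≤ κ.thL → ∀ lam : ℝ, 0 < lam → ∀ n1 : ℕ,
        ∃ᶠ nf in atTop, ∃ Lw : Law (XC (unif M) M nf), IsReal κ.S Lw ∧ n1 ≤ Lw.nf ∧
          ∃ Sf : SiteF (XC (unif M) M nf),
            LawI (LawPA κ F) x c q κ.cL (1 / 4) Lw Sf lam n1 := by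
  classical
  have hK := Kpos hμ
  set D0 : ℝ := 2 * M * K with hD0
  have hD : 1 ≤ D0 := hK
  set ep : ℝ := 1 / (32 * ((3 : ℝ) ^ d) ^ 4) with hep
  have h3 : (1 : ℝ) ≤ ((3 : ℝ) ^ d) ^ 4 := one_le_pow₀ (one_le_pow₀ (by norm_num))
  have hep0 : 0 < ep := by positivity
  have hep1 : ep ≤ 1 / 32 := by
    rw [hep]
    exact one_div_le_one_div_of_le (by norm_num) (by linarith)
  set th : ℕ → ℝ := fun n => ep * (1 + 1 / ((n : ℝ) + 1)) with hth
  have hanti : Antitone th := by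
    refine antitone_nat_of_succ_le fun n => ?_
    refine mul_le_mul_of_nonneg_left ?_ hep0.le
    have h4 : (0 : ℝ) < (n : ℝ) + 1 := by positivity
    have h5 : 1 / (((n + 1 : ℕ) : ℝ) + 1) ≤ 1 / ((n : ℝ) + 1) := by
      refine one_div_le_one_div_of_le h4 ?_
      push_cast
      linarith
    linarith
  have hthe : ∀ n, ep ≤ th n := by
    intro n
    have h4 : 0 ≤ 1 / ((n : ℝ) + 1) := by positivity
    have h5 : ep * 0 ≤ ep * (1 / ((n : ℝ) + 1)) := mul_le_mul_of_nonneg_left h4 hep0.le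
    show ep ≤ ep * (1 + 1 / ((n : ℝ) + 1))
    nlinarith
  have hth0 : th 0 = 2 * ep := by
    show ep * (1 + 1 / (((0 : ℕ) : ℝ) + 1)) = 2 * ep
    norm_num
    ring
  have hth1 : th 0 < 1 := by
    rw [hth0]
    linarith
  set κ : LawC := ⟨M, D0, ep, th, 1⟩ with hκ
  have hOk : κ.OkA :=
    { S0 := by
        show 0 < M
        linarith
      D0 := by
        show 0 < D0
        linarith
      ep0 := hep0
      m1 := rfl
      thv := fun _ => rfl }
  refine ⟨κ, hOk, ?_, rfl, ?_⟩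
  · show ep < D0
    linarith
  intro CM x c q F hcl hqth lam _ n1
  rw [Filter.frequently_atTop]
  intro N0
  obtain ⟨P, hP⟩ := pow_unbounded_of_one_lt (8 * κ.D * 2 ^ (n1 + 1) / ep)
    (show (1 : ℝ) < 2 by norm_num)
  rw [div_lt_iff₀ hep0] at hP
  set t : ℕ := N0 + (n1 + 2) + F lam n1 + P with ht
  have hS : (law hμ t 1 one_pos (one_dvd t) ep th hep0 hanti hthe hth1).S = M := by
    show (2 : ℝ) ^ (1 - 1) * M = M
    simp
  have hDD : (law hμ t 1 one_pos (one_dvd t) ep th hep0 hanti hthe hth1).D = D0 := by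
    show (2 : ℝ) ^ (1 - 1) * D0 = D0
    simp
  refine ⟨t, by omega, law hμ t 1 one_pos (one_dvd t) ep th hep0 hanti hthe hth1,
    ⟨rfl, rfl, hS⟩, ?_, ?_⟩
  · show n1 ≤ t
    omega
  have hU := uni_law hμ t ep th hep0 hanti hthe hth1
  set Lw := law hμ t 1 one_pos (one_dvd t) ep th hep0 hanti hthe hth1 with hLw
  have hof : LawOf κ Lw := ⟨hS, hDD, rfl, rfl, rfl⟩
  have hnf : Lw.nf = t := rfl
  have hA : ∀ n < n1, LawA Lw n := fun n hn => hU.lawA (by rw [hnf]; omega)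
  have hI : LawI (LawB κ F) x c q κ.cL (1 / 4) Lw (SfOf Lw lam (n1 + 1)) lam n1 := by
    refine lawI_of hof ?_ ?_ ?_ ?_ ?_ ?_ ?_ ?_ ?_
    · rw [hnf]
      omega
    · rw [hnf]
      omega
    · rw [hnf, hof.D, hof.ep]
      refine hP.le.trans ?_
      rw [mul_comm]
      exact mul_le_mul_of_nonneg_left (pow_le_pow_right₀ (by norm_num) (by omega)) hep0.le
    · rw [hof.cL]
      exact hcl
    · exact hof.cL.le
    · rw [hof.th]
      show (1 : ℝ) / 4 ≤ 1 - ep * (1 + 1 / (((1 : ℕ) : ℝ) + 1)) / (ep * (1 + 1 / (((0 : ℕ) : ℝ) + 1)))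
      have := hep0.ne'
      field_simp
      norm_num
    · show 16 * ((3 : ℝ) ^ d) ^ 4 * th 0 ≤ 1
      rw [hth0, hep]
      field_simp
      norm_num
    · rw [hof.thL]
      exact hqth
    · refine le_trans ?_ (thL_le Lw)
      rw [hof.thL]
      exact hqth
  exact ⟨SfOf Lw lam (n1 + 1), { hI with lp := ⟨hI.lp, hA⟩ }⟩

theorem lkLaw_A {κ : LawC} (hκ : κ.OkA) (d : ℕ) :
    LkLaw (LawPA κ (lkF κ.S d)) d (κ.D / κ.ep) := by
  intro X _ Lw Sf lam n1 hl h
  refine ⟨?_, ?_⟩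
  · rw [h.1.of.D, h.1.of.ep]
  · have h1 := lkF_spec hκ.S0 d hl h.1.nfF
    rwa [← h.1.of.S] at h1

end Pool.Agent.AND
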