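import Pool.Agent.AND.InsNmG
import Pool.Agent.AND.LeakLawB

/-!
# AND / LeakB: [LEAK] AND [INS] FOR A GENERAL LAW: the fields `leak`, `ins`, `h3` of `MainData`
-/

set_option autoImplicit false

open Finset Filter Topology

noncomputable section

namespace Pool.Agent.AND

open Pool.Agent.Kin Pool.Agent.APS Pool.Agent.ANL Pool.Agent.ANM Pool.Agent.ANC Pool.Agent.ANB
open Pool.Agent.ANQ

variable {d : ℕ} {CM : ℝ}

theorem two_d_le_lcmE (d : ℕ) : 2 * d + 1 ≤ lcmE d := by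
  unfold lcmE le3
  omega

/-- the numbers of the leak tests are good for the insertions -/
theorem nmOk_nmL (x : Ex d CM) (hd : 3 ≤ d) (hCM : (lcmE d : ℝ) ≤ CM) {c : Cst} {q : Csts}
    (hw : 0 ≤ q.w) (hw1 : q.w ≤ 1) :
    ∀ᶠ k0 in 𝓝[>] (0 : ℝ), ∀ j, NmOk x k0 j (nmL x c q k0 j) := by
  filter_upwards [nmL_bd x hd hCM (c := c) (q := q) hw hw1] with k0 h j
  obtain ⟨h1, h2, h3, h4, h5, h6⟩ := h j
  exact {
    rF := h6
    nb := le_rfl
    cp := h1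
    Ml := h5.le
    e := le_rfl }

/-- THE THREE GOALS -/
theorem leak_B {κ : LawC} (hκ : κ.Ok) (x : Ex d CM) (hd : 3 ≤ d) (hCM : (lcmE d : ℝ) ≤ CM)
    {c : Cst} {q : Csts} (hq : q.Ok c) (hCc : 8 ≤ q.Cc) (hdS : 2 * c.dS ≤ 1) (hq2 : q.c1 ≤ 4)
    (hb : 64 * c.b ≤ cνV (q.c1 / 2) (2 * q.C1) (q.th / 4) (cmu d c q)) :
    LeakNumGoal (LawB κ (lkF κ.S d)) x c q x.K1 (nmL x c q) ∧
      ∃ pm : ℝ → ℕ → InsPr, InsNmGoal (LawB κ (lkF κ.S d)) x c q (nmL x c q) pm ∧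
        H3DGoal (LawB κ (lkF κ.S d)) x c q pm := by
  have hvi := x.vi_pos
  have hC1 := hq.C1
  have hcL := κ.cL_nonneg
  obtain ⟨o0, h1, h2, h3⟩ := exists_o0 (a := x.vi / 2) (by positivity)
  refine ⟨leak_num_goal x hd hCM hq (lkLaw_B hκ d) x.K1_pos.le, _,
    ins_nm_goal _ x hd hq ?_ hCc hdS hq2 hb (hB1_nonneg hq.pos (by linarith) hcL)
      (hB2_nonneg hq.pos (by linarith)) (c3 := o0 / 16) (by positivity) (by linarith)
      (nmOk_nmL x hd hCM hq.w.le hq.w1), ?_⟩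
  · have h4 : ((2 * d + 1 : ℕ) : ℝ) ≤ (lcmE d : ℝ) := by exact_mod_cast two_d_le_lcmE d
    push_cast at h4
    linarith
  · refine h3d_goal (Bp := κ.cL) (o0 := o0) (sfI_goal h1.le h2 h3 ?_) (fun _ _ => le_rfl)
      (fun _ _ => le_rfl) (fun _ _ => le_max_right _ _) (fun _ _ => le_max_right _ _)
      (fun _ _ => by
        change 0 ≤ o0 / 16
        positivity) (fun _ _ => by
        change 16 * (o0 / 16) ≤ o0
        linarith)
    intro X _ Lw Sf lam n1 h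
    exact ⟨⟨_, h.sf⟩, h.nf1, h.of.cL, fun j => (h.of.th_ratio hκ j).ge⟩

end Pool.Agent.AND
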