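import Pool.Agent.ANL.Det

/-! # AND LEAKDET: small leak forces the potentials on a transversal to hit given numbers (final form)

As in `Pool/Agent/ANL/Det.lean`, but
* the reference `bs` is a configuration INSIDE the event (it contains its own potentials on `W`), `h` = difference of the
  potentials on `W`;
* `b` and `bs` are compared only on `P \ D` (`F ⊆ D ⊆ P`); nothing is assumed outside `P` (there may be different holes
  for `b` and `bs`, even resonant ones): the wave is cut at `P`, which costs a source `src H P ψ` of size `m` on `bdy H P`;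
* `ϑ ≤ 1/2` and no relation between `ϑ` and the number of sites of `W`.

Proof of `det_far`.  `u = cut D ψ - cut P ψ` (`= ψ` on `P \ D`, `0` elsewhere), `(H + diag bs) u = φ + r + onW s`,
`φ = src H D ψ`, `r = e - src H P ψ`, `e_x = -(b x - bs x - onW h x) u_x`, `s_j = - h_j ψ_{W j}`.  `p0 = ∑ -(bs x).im ‖u x‖² ≤ 2 l`,
`qf J e ≤ ϑ² p0`, `qf J (src H P ψ) ≤ C2 (n m)²`, `n = card (bdy H P)`.  Completing the square and the parallelogram law:
`c ∑ ‖s_j - bet_j φ‖² ≤ 2 p0 + 2 qf J r`. -/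

open Matrix Finset

noncomputable section

namespace Pool.Agent.AND

open Pool.Agent.Kin Pool.Agent.APS Pool.Agent.ANL

variable {ι : Type} [Fintype ι] [DecidableEq ι] {κ : Type} [Fintype κ] [DecidableEq κ]
  {H : Matrix ι ι ℂ} {b bs : ι → ℂ} {F D P : Finset ι} {ψ : ι → ℂ} {W : κ → ι}

omit [DecidableEq ι] in
/-- parallelogram law -/
theorem lk_qf_par (J : Matrix ι ι ℝ) (hJ : ∀ q : ι → ℂ, 0 ≤ qf J q) (u v : ι → ℂ) :
    qf J (u - v) ≤ 2 * qf J u + 2 * qf J v := by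
  have h1 : qf J (u + v) + qf J (u - v) = 2 * qf J u + 2 * qf J v := by
    unfold qf
    rw [← Finset.sum_add_distrib, Finset.mul_sum, Finset.mul_sum, ← Finset.sum_add_distrib]
    refine Finset.sum_congr rfl fun x _ => ?_
    rw [← Finset.sum_add_distrib, Finset.mul_sum, Finset.mul_sum, ← Finset.sum_add_distrib]
    refine Finset.sum_congr rfl fun y _ => ?_
    simp only [Pi.add_apply, Pi.sub_apply, Complex.add_re, Complex.add_im, Complex.sub_re,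
      Complex.sub_im]
    ring
  have h2 := hJ (u + v)
  linarith

omit [DecidableEq ι] in
theorem lk_cs (β g u : ι → ℝ) (hβ : ∀ x, 0 ≤ β x) {A B : ℝ}
    (hA : ∑ x, β x * g x ^ 2 ≤ A) (hB : ∑ x, β x * u x ^ 2 ≤ B) (hA0 : 0 ≤ A) :
    (∑ x, β x * (g x * u x)) ^ 2 ≤ A * B := by
  have h1 := Finset.sum_mul_sq_le_sq_mul_sq Finset.univ (fun x => √(β x) * g x)
    (fun x => √(β x) * u x)
  have e1 : ∀ x, (√(β x) * g x) * (√(β x) * u x) = β x * (g x * u x) := by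
    intro x
    have : √(β x) * √(β x) = β x := Real.mul_self_sqrt (hβ x)
    calc (√(β x) * g x) * (√(β x) * u x) = (√(β x) * √(β x)) * (g x * u x) := by ring
      _ = _ := by rw [this]
  have e2 : ∀ x, (√(β x) * g x) ^ 2 = β x * g x ^ 2 := fun x => by
    rw [mul_pow, Real.sq_sqrt (hβ x)]
  have e3 : ∀ x, (√(β x) * u x) ^ 2 = β x * u x ^ 2 := fun x => by
    rw [mul_pow, Real.sq_sqrt (hβ x)]
  simp only [e1, e2, e3] at h1
  refine h1.trans ?_
  refine mul_le_mul hA hB (Finset.sum_nonneg fun x _ => mul_nonneg (hβ x) (sq_nonneg _)) hA0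

/-- a source which is small compared with the absorption of `u` -/
theorem lk_qf_err (hA : Adm H bs) {e u : ι → ℂ} {ϑ : ℝ} (hϑ : 0 ≤ ϑ)
    (he : ∀ x, ‖e x‖ ≤ ϑ * (-(bs x).im) * ‖u x‖) :
    qf (JM H bs) e ≤ ϑ ^ 2 * ∑ x, (-(bs x).im) * ‖u x‖ ^ 2 := by
  have hβ : ∀ x, 0 ≤ -(bs x).im := fun x => neg_nonneg.2 (hA.im x)
  set A := ∑ x, (-(bs x).im) * ‖(rsc H bs *ᵥ e) x‖ ^ 2 with hAdef
  set B := ∑ x, (-(bs x).im) * ‖u x‖ ^ 2 with hBdef
  have hA0 : 0 ≤ A := Finset.sum_nonneg fun x _ => mul_nonneg (hβ x) (sq_nonneg _)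
  have hB0 : 0 ≤ B := Finset.sum_nonneg fun x _ => mul_nonneg (hβ x) (sq_nonneg _)
  have h1 : A ≤ ϑ * ∑ x, (-(bs x).im) * (‖(rsc H bs *ᵥ e) x‖ * ‖u x‖) := by
    have h2 := form_im hA.sym bs (rsc H bs *ᵥ e)
    rw [src_res hA e] at h2
    have h3 : A = -(∑ x, (starRingEnd ℂ) ((rsc H bs *ᵥ e) x) * e x).im := by
      rw [h2, hAdef, ← Finset.sum_neg_distrib]
      exact Finset.sum_congr rfl fun x _ => by ring
    rw [h3]
    refine (neg_le_abs _).trans ((Complex.abs_im_le_norm _).trans ((norm_sum_le _ _).trans ?_))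
    rw [Finset.mul_sum]
    refine Finset.sum_le_sum fun x _ => ?_
    rw [norm_mul, RCLike.norm_conj]
    calc ‖(rsc H bs *ᵥ e) x‖ * ‖e x‖ ≤ ‖(rsc H bs *ᵥ e) x‖ * (ϑ * (-(bs x).im) * ‖u x‖) :=
          mul_le_mul_of_nonneg_left (he x) (norm_nonneg _)
      _ = _ := by ring
  have h4 := lk_cs (fun x => -(bs x).im) (fun x => ‖(rsc H bs *ᵥ e) x‖) (fun x => ‖u x‖) hβ
    (le_refl A) (le_refl B) hA0
  have hS0 : 0 ≤ ∑ x, (-(bs x).im) * (‖(rsc H bs *ᵥ e) x‖ * ‖u x‖) :=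
    Finset.sum_nonneg fun x _ => mul_nonneg (hβ x) (mul_nonneg (norm_nonneg _) (norm_nonneg _))
  have h5 : A ^ 2 ≤ ϑ ^ 2 * (A * B) := by
    calc A ^ 2 ≤ (ϑ * ∑ x, (-(bs x).im) * (‖(rsc H bs *ᵥ e) x‖ * ‖u x‖)) ^ 2 :=
          pow_le_pow_left₀ hA0 h1 2
      _ = ϑ ^ 2 * (∑ x, (-(bs x).im) * (‖(rsc H bs *ᵥ e) x‖ * ‖u x‖)) ^ 2 := by ring
      _ ≤ _ := mul_le_mul_of_nonneg_left h4 (sq_nonneg _)
  rw [← power hA e]
  rcases hA0.eq_or_lt with h0 | h0
  · rw [← hAdef, ← h0]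
    positivity
  · rw [← hAdef]
    have h6 : A * A ≤ (ϑ ^ 2 * B) * A := by nlinarith
    exact le_of_mul_le_mul_right h6 h0

/-- a source on few sites -/
theorem lk_qf_few {J : Matrix ι ι ℝ} {S : Finset ι} {σ : ι → ℂ} {m C : ℝ} (hm : 0 ≤ m)
    (hC : 0 ≤ C) (h0 : ∀ x, x ∉ S → σ x = 0) (h1 : ∀ x, ‖σ x‖ ≤ m)
    (hJ : ∀ x ∈ S, ∀ y ∈ S, |J x y| ≤ C) : qf J σ ≤ C * (S.card * m) ^ 2 := by
  have h2 : ∀ x, ∑ y, J x y * ((σ x).re * (σ y).re + (σ x).im * (σ y).im) ≤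
      if x ∈ S then C * m * (S.card * m) else 0 := by
    intro x
    split_ifs with hx
    · have h3 : ∑ y, J x y * ((σ x).re * (σ y).re + (σ x).im * (σ y).im) =
          ∑ y ∈ S, J x y * ((σ x).re * (σ y).re + (σ x).im * (σ y).im) := by
        symm
        refine Finset.sum_subset (Finset.subset_univ S) fun y _ hy => ?_
        rw [h0 y hy]
        simp
      rw [h3]
      have h4 : ∀ y ∈ S, J x y * ((σ x).re * (σ y).re + (σ x).im * (σ y).im) ≤ C * m * m := by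
        intro y hy
        have h5 : |(σ x).re * (σ y).re + (σ x).im * (σ y).im| ≤ ‖σ x‖ * ‖σ y‖ := by
          have e1 : ((starRingEnd ℂ) (σ x) * σ y).re =
              (σ x).re * (σ y).re + (σ x).im * (σ y).im := by
            simp only [Complex.mul_re, Complex.conj_re, Complex.conj_im]
            ring
          rw [← e1]
          refine (Complex.abs_re_le_norm _).trans ?_
          rw [norm_mul, RCLike.norm_conj]
        refine (le_abs_self _).trans ?_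
        rw [abs_mul, mul_assoc]
        refine mul_le_mul (hJ x hx y hy) (h5.trans ?_) (abs_nonneg _) hC
        exact mul_le_mul (h1 x) (h1 y) (norm_nonneg _) hm
      refine (Finset.sum_le_card_nsmul S _ _ h4).trans ?_
      rw [nsmul_eq_mul]
      exact le_of_eq (by ring)
    · refine le_of_eq (Finset.sum_eq_zero fun y _ => ?_)
      rw [h0 x hx]
      simp
  unfold qf
  refine (Finset.sum_le_sum fun x _ => h2 x).trans ?_
  rw [Finset.sum_ite_mem, Finset.univ_inter, Finset.sum_const, nsmul_eq_mul]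
  exact le_of_eq (by ring)

omit [DecidableEq κ] in
private theorem lk_onW_im (W : κ → ι) (h : κ → ℝ) (x : ι) :
    (onW W (fun j => (h j : ℂ)) x).im = 0 := by
  unfold onW
  rw [Complex.im_sum]
  refine Finset.sum_eq_zero fun j _ => ?_
  split_ifs <;> simp

/-- the wave cut at `D` and at `P` -/
def cut2 (D P : Finset ι) (ψ : ι → ℂ) : ι → ℂ := cut D ψ - cut P ψ

omit [Fintype ι] in
theorem cut2_mem {x : ι} (hx : x ∉ D) (hx' : x ∈ P) : cut2 D P ψ x = ψ x := by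
  unfold cut2 cut
  rw [Pi.sub_apply, if_neg hx, if_pos hx', sub_zero]

omit [Fintype ι] in
theorem cut2_zero (hDP : D ⊆ P) {x : ι} (hx : ¬ (x ∉ D ∧ x ∈ P)) : cut2 D P ψ x = 0 := by
  unfold cut2 cut
  rw [Pi.sub_apply]
  by_cases h1 : x ∈ D
  · rw [if_pos h1, if_pos (hDP h1), sub_zero]
  · rw [if_neg h1]
    have h2 : x ∉ P := fun h => hx ⟨h1, h⟩
    rw [if_neg h2, sub_self]

/-- the equation for the cut wave -/
theorem cut2_eqn (hF : F ⊆ D) (hDP : D ⊆ P) (hW : ∀ j, W j ∉ D) (hWP : ∀ j, W j ∈ P)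
    (hψ : IsWave H b F ψ) (h : κ → ℝ) :
    (H + diagonal bs) *ᵥ (cut2 D P ψ) = src H D ψ + ((fun x =>
      -((b x - bs x - onW W (fun j => (h j : ℂ)) x) * cut2 D P ψ x)) - src H P ψ) +
        onW W (fun j => -((h j : ℂ) * ψ (W j))) := by
  have h1 := cut_src (H := H) (b := b) hF hψ
  have h1' := cut_src (H := H) (b := b) (hF.trans hDP) hψ
  funext x
  have h2 : ((H + diagonal bs) *ᵥ (cut2 D P ψ)) x =
      ((H + diagonal b) *ᵥ (cut2 D P ψ)) x - (b x - bs x) * cut2 D P ψ x := by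
    rw [Matrix.add_mulVec, Matrix.add_mulVec, Pi.add_apply, Pi.add_apply, Matrix.mulVec_diagonal,
      Matrix.mulVec_diagonal]
    ring
  have h3 : onW W (fun j => -((h j : ℂ) * ψ (W j))) x =
      -(onW W (fun j => (h j : ℂ)) x * cut2 D P ψ x) := by
    unfold onW
    rw [Finset.sum_mul, ← Finset.sum_neg_distrib]
    refine Finset.sum_congr rfl fun j _ => ?_
    by_cases hj : W j = x
    · subst hj
      rw [if_pos rfl, if_pos rfl, cut2_mem (hW j) (hWP j)]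
    · rw [if_neg hj, if_neg hj, zero_mul, neg_zero]
  have h4 : (H + diagonal b) *ᵥ (cut2 D P ψ) = src H D ψ - src H P ψ := by
    unfold cut2
    rw [Matrix.mulVec_sub, h1, h1']
  rw [h2, h4]
  simp only [Pi.add_apply, Pi.sub_apply]
  rw [h3]
  ring

theorem det_far {c C2 ϑ l m : ℝ} (hR : Red H bs W c C2) (hc : 0 < c) (hc1 : c ≤ 1) (hC : 1 ≤ C2)
    (hF : F ⊆ D) (hDP : D ⊆ P) (hW : ∀ j, W j ∉ D) (hWP : ∀ j, W j ∈ P) (hψ : IsWave H b F ψ)
    (hb : ∀ x, (b x).im ≤ 0) (hϑ : 0 ≤ ϑ) (hϑ2 : ϑ ≤ 1 / 2) {h : κ → ℝ} (hh : ∀ j, |h j| ≤ 1)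
    (hδ : ∀ x, x ∉ D → x ∈ P →
      ‖b x - bs x - onW W (fun j => (h j : ℂ)) x‖ ≤ ϑ * (-(bs x).im))
    (hl : leak b D ψ ≤ l) (hm : 0 ≤ m) (hσ : ∀ x, ‖src H P ψ x‖ ≤ m)
    (hGP : ∀ x ∈ bdy H P, ∀ y ∈ bdy H P, ‖rsc H bs x y‖ ≤ C2)
    (hGW : ∀ j, ∀ x ∈ bdy H P, ‖rsc H bs (W j) x‖ ≤ C2) (j : κ) :
    ‖ψ (W j) - alp H bs W (src H D ψ) j‖ ≤ 12 * C2 ^ 2 / c * (√l + (bdy H P).card * m) ∧
    ‖(h j : ℂ) * alp H bs W (src H D ψ) j + bet H bs W (src H D ψ) j‖ ≤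
      12 * C2 ^ 2 / c * (√l + (bdy H P).card * m) := by
  have hβ : ∀ x, 0 ≤ -(bs x).im := fun x => neg_nonneg.2 (hR.adm.im x)
  have hl0 : 0 ≤ l := (leak_nonneg hb).trans hl
  have hC0 : 0 < C2 := by linarith
  obtain ⟨e, he⟩ : ∃ e : ι → ℂ, e = fun x =>
      -((b x - bs x - onW W (fun j => (h j : ℂ)) x) * cut2 D P ψ x) := ⟨_, rfl⟩
  obtain ⟨s, hs⟩ : ∃ s : κ → ℂ, s = fun j => -((h j : ℂ) * ψ (W j)) := ⟨_, rfl⟩
  obtain ⟨n, hn⟩ : ∃ n : ℝ, n = (bdy H P).card * m := ⟨_, rfl⟩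
  have hn0 : 0 ≤ n := by rw [hn]; positivity
  have heqn := cut2_eqn (bs := bs) hF hDP hW hWP hψ h
  rw [← he, ← hs] at heqn
  obtain ⟨r, hr⟩ : ∃ r : ι → ℂ, r = e - src H P ψ := ⟨_, rfl⟩
  rw [← hr] at heqn
  have hcut : rsc H bs *ᵥ (src H D ψ + r + onW W s) = cut2 D P ψ := by
    rw [← heqn]
    exact res_src hR.adm _
  -- the energy
  obtain ⟨p0, hp0⟩ : ∃ p0 : ℝ, p0 = ∑ x, (-(bs x).im) * ‖cut2 D P ψ x‖ ^ 2 := ⟨_, rfl⟩
  have hp00 : 0 ≤ p0 := by
    rw [hp0]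
    exact Finset.sum_nonneg fun x _ => mul_nonneg (hβ x) (sq_nonneg _)
  have hpow : p0 = qf (JM H bs) (src H D ψ + r + onW W s) := by
    rw [← power hR.adm, hcut, hp0]
  have hp2 : p0 ≤ 2 * l := by
    refine le_trans ?_ (mul_le_mul_of_nonneg_left hl (by norm_num : (0 : ℝ) ≤ 2))
    rw [hp0, leak_cut, Finset.mul_sum]
    refine Finset.sum_le_sum fun x _ => ?_
    by_cases hx : x ∉ D ∧ x ∈ P
    · have h1 := hδ x hx.1 hx.2
      have h2 := Complex.abs_im_le_norm (b x - bs x - onW W (fun j => (h j : ℂ)) x)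
      have h3 : (b x - bs x - onW W (fun j => (h j : ℂ)) x).im = (b x).im - (bs x).im := by
        rw [Complex.sub_im, Complex.sub_im, lk_onW_im, sub_zero]
      rw [h3] at h2
      have h4 := (le_abs_self _).trans (h2.trans h1)
      have h5 : -(bs x).im ≤ 2 * (-(b x).im) := by nlinarith [hβ x]
      have h6 : cut D ψ x = ψ x := by
        unfold cut
        rw [if_neg hx.1]
      rw [← mul_assoc, cut2_mem hx.1 hx.2, h6]
      exact mul_le_mul_of_nonneg_right h5 (sq_nonneg _)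
    · rw [cut2_zero hDP hx, norm_zero]
      have h7 := mul_nonneg (neg_nonneg.2 (hb x)) (sq_nonneg ‖cut D ψ x‖)
      nlinarith
  -- the errors
  have hex : ∀ x, ‖e x‖ ≤ ϑ * (-(bs x).im) * ‖cut2 D P ψ x‖ := by
    intro x
    rw [he]
    simp only
    rw [norm_neg, norm_mul]
    by_cases hx : x ∉ D ∧ x ∈ P
    · exact mul_le_mul_of_nonneg_right (hδ x hx.1 hx.2) (norm_nonneg _)
    · rw [cut2_zero hDP hx, norm_zero, mul_zero, mul_zero]
  have hqe : qf (JM H bs) e ≤ p0 / 4 := by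
    have h1 := lk_qf_err hR.adm hϑ hex
    rw [← hp0] at h1
    have h2 : ϑ ^ 2 ≤ 1 / 4 := by nlinarith
    have h3 := mul_le_mul_of_nonneg_right h2 hp00
    linarith
  have hqs : qf (JM H bs) (src H P ψ) ≤ C2 * n ^ 2 := by
    rw [hn]
    refine lk_qf_few hm hC0.le (fun x hx => src_zero hx) hσ fun x hx y hy => ?_
    exact (Complex.abs_im_le_norm _).trans (hGP x hx y hy)
  have hqr : qf (JM H bs) r ≤ p0 / 2 + 2 * C2 * n ^ 2 := by
    rw [hr]
    have h1 := lk_qf_par (JM H bs) (JM_psd hR.adm) e (src H P ψ)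
    nlinarith
  -- completing the square
  have hsq := square (JM_symm hR.adm) (JM_psd hR.adm) hR.inj hc hR.form (src H D ψ) s
  have hsq2 : qf (JM H bs) (src H D ψ + onW W s) ≤ 2 * p0 + 2 * qf (JM H bs) r := by
    have h1 := lk_qf_par (JM H bs) (JM_psd hR.adm) (src H D ψ + r + onW W s) r
    rw [← hpow] at h1
    have h2 : src H D ψ + r + onW W s - r = src H D ψ + onW W s := by
      funext x
      simp only [Pi.add_apply, Pi.sub_apply]
      ring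
    rwa [h2] at h1
  have hbet : ∑ i, ‖s i - bet H bs W (src H D ψ) i‖ ^ 2 ≤ (6 * l + 4 * C2 * n ^ 2) / c := by
    rw [le_div_iff₀ hc, mul_comm]
    have h1 : c * ∑ i, ‖s i - bet H bs W (src H D ψ) i‖ ^ 2 ≤
        qf (JM H bs) (src H D ψ + onW W s) := hsq
    linarith
  -- square roots
  obtain ⟨R, hRd⟩ : ∃ R : ℝ, R = √l + n := ⟨_, rfl⟩
  have hL0 : 0 ≤ √l := Real.sqrt_nonneg _
  have hL2 : √l ^ 2 = l := Real.sq_sqrt hl0
  have hR0 : 0 ≤ R := by rw [hRd]; positivity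
  have hmain : (6 * l + 4 * C2 * n ^ 2) / c ≤ (3 * C2 / c * R) ^ 2 := by
    rw [mul_pow, div_pow, hRd, div_mul_eq_mul_div, div_le_div_iff₀ hc (by positivity)]
    have h1 : 6 * l + 4 * C2 * n ^ 2 ≤ (3 * C2) ^ 2 * (√l + n) ^ 2 := by
      have h2 : (3 * C2) ^ 2 * (√l + n) ^ 2 =
          9 * C2 ^ 2 * l + 18 * C2 ^ 2 * (√l * n) + 9 * C2 ^ 2 * n ^ 2 := by
        rw [← hL2]
        rw [Real.sqrt_sq hL0]
        ring
      rw [h2]
      have h3 : l ≤ C2 ^ 2 * l := le_mul_of_one_le_left hl0 (by nlinarith)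
      have h4 : C2 * n ^ 2 ≤ C2 ^ 2 * n ^ 2 :=
        mul_le_mul_of_nonneg_right (by nlinarith) (sq_nonneg _)
      have h5 : 0 ≤ C2 ^ 2 * (√l * n) := by positivity
      have h6 : 0 ≤ C2 ^ 2 * n ^ 2 := by positivity
      nlinarith
    have h2 : 0 ≤ 6 * l + 4 * C2 * n ^ 2 := by positivity
    calc (6 * l + 4 * C2 * n ^ 2) * c ^ 2 ≤ (6 * l + 4 * C2 * n ^ 2) * c := by
          refine mul_le_mul_of_nonneg_left ?_ h2
          nlinarith
      _ ≤ (3 * C2) ^ 2 * (√l + n) ^ 2 * c := mul_le_mul_of_nonneg_right h1 hc.le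
  have hS0 : 0 ≤ 3 * C2 / c * R := by positivity
  have hX : ∀ i, ‖s i - bet H bs W (src H D ψ) i‖ ≤ 3 * C2 / c * R := by
    intro i
    refine le_of_sq_le_sq ?_ hS0
    exact (Finset.single_le_sum (f := fun i => ‖s i - bet H bs W (src H D ψ) i‖ ^ 2)
      (fun i _ => sq_nonneg _) (Finset.mem_univ i)).trans (hbet.trans hmain)
  have hY : ‖∑ i, rsc H bs (W j) (W i) * (s i - bet H bs W (src H D ψ) i)‖ ≤
      C2 * (3 * C2 / c * R) := by
    refine le_of_sq_le_sq ?_ (by positivity)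
    have h1 := hR.op (fun i => s i - bet H bs W (src H D ψ) i)
    refine (Finset.single_le_sum
      (f := fun j => ‖∑ i, rsc H bs (W j) (W i) * (s i - bet H bs W (src H D ψ) i)‖ ^ 2)
      (fun i _ => sq_nonneg _) (Finset.mem_univ j)).trans (h1.trans ?_)
    rw [mul_pow]
    exact mul_le_mul_of_nonneg_left (hbet.trans hmain) (sq_nonneg _)
  have hZ1 : ‖(rsc H bs *ᵥ e) (W j)‖ ≤ C2 * √l := by
    have h1 : ‖(rsc H bs *ᵥ e) (W j)‖ ≤
        ϑ * ∑ y, (-(bs y).im) * (‖rsc H bs (W j) y‖ * ‖cut2 D P ψ y‖) := by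
      rw [Finset.mul_sum]
      have e1 : (rsc H bs *ᵥ e) (W j) = ∑ y, rsc H bs (W j) y * e y := rfl
      rw [e1]
      refine (norm_sum_le _ _).trans (Finset.sum_le_sum fun y _ => ?_)
      rw [norm_mul]
      calc ‖rsc H bs (W j) y‖ * ‖e y‖ ≤
            ‖rsc H bs (W j) y‖ * (ϑ * (-(bs y).im) * ‖cut2 D P ψ y‖) :=
            mul_le_mul_of_nonneg_left (hex y) (norm_nonneg _)
        _ = _ := by ring
    have h2 := lk_cs (fun x => -(bs x).im) (fun x => ‖rsc H bs (W j) x‖)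
      (fun x => ‖cut2 D P ψ x‖) hβ (A := C2) (B := p0) (by
        rw [← ward hR.adm]
        exact hR.diag j) (le_of_eq hp0.symm) hC0.le
    have h3 : ∑ y, (-(bs y).im) * (‖rsc H bs (W j) y‖ * ‖cut2 D P ψ y‖) ≤ √(C2 * p0) :=
      Real.le_sqrt_of_sq_le h2
    have h4 : √(C2 * p0) ≤ 2 * (C2 * √l) := by
      refine Real.sqrt_le_iff.2 ⟨by positivity, ?_⟩
      rw [mul_pow, mul_pow, hL2]
      have h5 : C2 * p0 ≤ C2 * (2 * l) := mul_le_mul_of_nonneg_left hp2 hC0.le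
      have h6 : C2 * l ≤ C2 ^ 2 * l := mul_le_mul_of_nonneg_right (by nlinarith) hl0
      nlinarith
    have h5 : 0 ≤ ∑ y, (-(bs y).im) * (‖rsc H bs (W j) y‖ * ‖cut2 D P ψ y‖) :=
      Finset.sum_nonneg fun x _ => mul_nonneg (hβ x) (mul_nonneg (norm_nonneg _) (norm_nonneg _))
    calc _ ≤ ϑ * ∑ y, (-(bs y).im) * (‖rsc H bs (W j) y‖ * ‖cut2 D P ψ y‖) := h1
      _ ≤ 1 / 2 * ∑ y, (-(bs y).im) * (‖rsc H bs (W j) y‖ * ‖cut2 D P ψ y‖) :=
          mul_le_mul_of_nonneg_right hϑ2 h5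
      _ ≤ 1 / 2 * (2 * (C2 * √l)) := mul_le_mul_of_nonneg_left (h3.trans h4) (by norm_num)
      _ = _ := by ring
  have hZ2 : ‖(rsc H bs *ᵥ src H P ψ) (W j)‖ ≤ C2 * n := by
    have e1 : (rsc H bs *ᵥ src H P ψ) (W j) = ∑ y ∈ bdy H P, rsc H bs (W j) y * src H P ψ y := by
      show ∑ y, rsc H bs (W j) y * src H P ψ y = _
      symm
      refine Finset.sum_subset (Finset.subset_univ _) fun y _ hy => ?_
      rw [src_zero hy, mul_zero]
    rw [e1]
    refine (norm_sum_le _ _).trans ((Finset.sum_le_card_nsmul _ _ (C2 * m) fun y hy => ?_).trans ?_)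
    · rw [norm_mul]
      exact mul_le_mul (hGW j y hy) (hσ y) (norm_nonneg _) hC0.le
    · rw [nsmul_eq_mul, hn]
      exact le_of_eq (by ring)
  have hZ : ‖(rsc H bs *ᵥ r) (W j)‖ ≤ C2 * R := by
    rw [hr, Matrix.mulVec_sub, Pi.sub_apply]
    refine (norm_sub_le _ _).trans ?_
    rw [hRd]
    linarith
  -- the value at `W j`
  have hval : ψ (W j) - alp H bs W (src H D ψ) j =
      (∑ i, rsc H bs (W j) (W i) * (s i - bet H bs W (src H D ψ) i)) +
        (rsc H bs *ᵥ r) (W j) := by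
    have h1 := congrFun hcut (W j)
    have h3 : (rsc H bs *ᵥ onW W s) (W j) = ∑ i, rsc H bs (W j) (W i) * s i := by
      show ∑ y, rsc H bs (W j) y * onW W s y = _
      unfold onW
      simp only [Finset.mul_sum]
      rw [Finset.sum_comm]
      refine Finset.sum_congr rfl fun i _ => ?_
      simp
    rw [cut2_mem (hW j) (hWP j), Matrix.mulVec_add, Matrix.mulVec_add, Pi.add_apply, Pi.add_apply,
      h3] at h1
    rw [← h1]
    unfold alp
    simp only [mul_sub, Finset.sum_sub_distrib]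
    ring
  have hK : C2 ≤ C2 ^ 2 / c := by
    rw [le_div_iff₀ hc]
    nlinarith
  have hb1 : C2 * (3 * C2 / c * R) = 3 * (C2 ^ 2 / c) * R := by ring
  have hb2 : C2 * R ≤ (C2 ^ 2 / c) * R := mul_le_mul_of_nonneg_right hK hR0
  have hb3 : 3 * C2 / c * R ≤ 3 * (C2 ^ 2 / c) * R := by
    have h1 : 3 * C2 / c * R = 3 * (C2 / c) * R := by ring
    rw [h1]
    have h2 : C2 / c ≤ C2 ^ 2 / c := div_le_div_of_nonneg_right (by nlinarith) hc.le
    exact mul_le_mul_of_nonneg_right (by linarith) hR0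
  have hfirst : ‖ψ (W j) - alp H bs W (src H D ψ) j‖ ≤ 4 * (C2 ^ 2 / c) * R := by
    rw [hval]
    refine (norm_add_le _ _).trans ?_
    rw [hb1] at hY
    linarith
  have hKR : 12 * C2 ^ 2 / c * (√l + (bdy H P).card * m) = 12 * ((C2 ^ 2 / c) * R) := by
    rw [hRd, hn]
    ring
  have hKR0 : 0 ≤ (C2 ^ 2 / c) * R := by positivity
  constructor
  · rw [hKR]
    linarith
  · have h1 : (h j : ℂ) * alp H bs W (src H D ψ) j + bet H bs W (src H D ψ) j =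
        -((h j : ℂ) * (ψ (W j) - alp H bs W (src H D ψ) j)) -
          (s j - bet H bs W (src H D ψ) j) := by
      rw [hs]
      ring
    rw [h1]
    refine (norm_sub_le _ _).trans ?_
    rw [norm_neg, norm_mul, Complex.norm_real, Real.norm_eq_abs]
    have h2 : |h j| * ‖ψ (W j) - alp H bs W (src H D ψ) j‖ ≤ 4 * (C2 ^ 2 / c) * R :=
      (mul_le_of_le_one_left (norm_nonneg _) (hh j)).trans hfirst
    have h3 := hX j
    rw [hKR]
    linarith

/-- the conclusion in the form used by the counting argument -/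
theorem far_hit {c C2 ϑ l m p ε : ℝ} (hR : Red H bs W c C2) (hc : 0 < c) (hc1 : c ≤ 1)
    (hC : 1 ≤ C2) (hF : F ⊆ D) (hDP : D ⊆ P) (hW : ∀ j, W j ∉ D) (hWP : ∀ j, W j ∈ P)
    (hψ : IsWave H b F ψ) (hb : ∀ x, (b x).im ≤ 0) (hϑ : 0 ≤ ϑ) (hϑ2 : ϑ ≤ 1 / 2) {h : κ → ℝ}
    (hh : ∀ j, |h j| ≤ 1)
    (hδ : ∀ x, x ∉ D → x ∈ P →
      ‖b x - bs x - onW W (fun j => (h j : ℂ)) x‖ ≤ ϑ * (-(bs x).im))
    (hl : leak b D ψ ≤ l) (hm : 0 ≤ m) (hσ : ∀ x, ‖src H P ψ x‖ ≤ m)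
    (hGP : ∀ x ∈ bdy H P, ∀ y ∈ bdy H P, ‖rsc H bs x y‖ ≤ C2)
    (hGW : ∀ j, ∀ x ∈ bdy H P, ‖rsc H bs (W j) x‖ ≤ C2)
    (hp : 0 < p) (hbig : ∀ j, p ≤ ‖ψ (W j)‖) (hε : 0 < ε) (hε1 : ε ≤ 1)
    (hlp : 24 * C2 ^ 2 / c * (√l + (bdy H P).card * m) ≤ ε * p) :
    Hit (Amt H bs W (bdy H D)) (Bmt H bs W (bdy H D)) ε h := by
  refine ⟨fun y => src H D ψ y.1, fun j => ?_⟩
  have hsupp : ∀ x, x ∉ bdy H D → src H D ψ x = 0 := fun x hx => src_zero hx
  rw [← alp_eq hsupp j, ← bet_eq hsupp j]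
  obtain ⟨h1, h2⟩ := det_far hR hc hc1 hC hF hDP hW hWP hψ hb hϑ hϑ2 hh hδ hl hm hσ hGP hGW j
  have h3 : 24 * C2 ^ 2 / c * (√l + (bdy H P).card * m) =
      2 * (12 * C2 ^ 2 / c * (√l + (bdy H P).card * m)) := by ring
  rw [h3] at hlp
  have h4 : ‖ψ (W j)‖ ≤ ‖ψ (W j) - alp H bs W (src H D ψ) j‖ + ‖alp H bs W (src H D ψ) j‖ := by
    have := norm_add_le (ψ (W j) - alp H bs W (src H D ψ) j) (alp H bs W (src H D ψ) j)
    rwa [sub_add_cancel] at this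
  have h5 := hbig j
  have h6 : ε * p ≤ p := mul_le_of_le_one_left hp.le hε1
  have h7 : p / 2 ≤ ‖alp H bs W (src H D ψ) j‖ := by linarith
  refine ⟨fun h0 => ?_, ?_⟩
  · rw [h0, norm_zero] at h7
    linarith
  · have h8 : ε * (p / 2) ≤ ε * ‖alp H bs W (src H D ψ) j‖ := mul_le_mul_of_nonneg_left h7 hε.le
    linarith

end Pool.Agent.AND
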