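import Pool.Agent.AND.LeakDet
import Pool.Agent.ANL.Cover
import Pool.Agent.ANQ.Cond
import Pool.Agent.ANQ.Cover

/-! # AND LEAKHIT: weight of the exceptional set of the leak theorem inside an information box -/

open Matrix Finset

noncomputable section

namespace Pool.Agent.AND

open Pool.Agent.ANP Pool.Agent.ANQ Pool.Agent.ANL

variable {Λ X : Type} [Fintype Λ] [DecidableEq Λ] [Fintype X] [DecidableEq X]
variable {w : Λ → X → ℝ}

open Classical in
/-- concentration of the potential `f x` inside the box `K`, at the sites of `s`: intervals of half width `r` have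
conditional weight at most `q` -/
def SmallBall (w : Λ → X → ℝ) (K : Λ → Set X) (f : Λ → X → ℝ) (s : Finset Λ) (r q : ℝ) : Prop :=
  ∀ x ∈ s, ∀ t : ℝ, ∑ a ∈ univ.filter (fun a => a ∈ K x ∧ |f x a - t| ≤ r), w x a ≤
    q * ∑ a ∈ univ.filter (fun a => a ∈ K x), w x a

theorem Pr_box_hit (hw : IsLaw w) {K : Λ → Set X} {f : Λ → X → ℝ} {s : Finset Λ} {r q : ℝ}
    (hq : 0 ≤ q) (hS : SmallBall w K f s r q) (τ : Λ → ℝ) :
    Pr w ({v | ∀ x ∈ s, |f x (v x) - τ x| ≤ r} ∩ Bx K) ≤ q ^ s.card * Pr w (Bx K) := by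
  classical
  set K' : Λ → Set X := fun x => {a | a ∈ K x ∧ (x ∈ s → |f x a - τ x| ≤ r)} with hK'
  have h1 : ({v : Λ → X | ∀ x ∈ s, |f x (v x) - τ x| ≤ r} ∩ Bx K) = Bx K' := by
    ext v
    constructor
    · rintro ⟨h1, h2⟩ x
      exact ⟨h2 x, h1 x⟩
    · intro h
      exact ⟨fun x hx => (h x).2 hx, fun x => (h x).1⟩
  rw [h1, Pr_Bx, Pr_Bx]
  have h2 : q ^ s.card = ∏ x : Λ, if x ∈ s then q else 1 := by
    rw [Finset.prod_ite_mem, Finset.univ_inter, Finset.prod_const]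
  rw [h2, ← Finset.prod_mul_distrib]
  refine Finset.prod_le_prod (fun x _ => Finset.sum_nonneg fun a _ => hw.nonneg x a) fun x _ => ?_
  split_ifs with hx
  · have h3 := hS x hx (τ x)
    refine le_trans (le_of_eq ?_) (h3.trans (le_of_eq ?_))
    · refine Finset.sum_congr ?_ fun _ _ => rfl
      ext a
      simp [hK', hx]
    · congr 1
  · rw [one_mul]
    refine le_of_eq (Finset.sum_congr ?_ fun _ _ => rfl)
    ext a
    simp [hK', hx]

/-- number of boxes times their weight -/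
def hitNum (N n : ℕ) (ε q : ℝ) : ℝ := 2 ^ N * (8 * (N + 1) * (1 / ε + 4)) ^ (2 * n) * q ^ N

/-- THE EXCEPTIONAL SET for fixed forms `A`, `B` and reference values `u` -/
theorem Pr_hit (hw : IsLaw w) {K : Λ → Set X} {f : Λ → X → ℝ} {s : Finset Λ} {ε q : ℝ}
    (hε : 0 < ε) (hq : 0 ≤ q) (hS : SmallBall w K f s (3 * ε) q) {β : Type} [Fintype β]
    (A B : Matrix ↥s β ℂ) (u : Λ → ℝ) :
    ∃ E : Set (Λ → X), Dep K s E ∧
      Pr w (E ∩ Bx K) ≤ hitNum s.card (Fintype.card β) ε q * Pr w (Bx K) ∧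
      ∀ v : Λ → X, (∀ x ∈ s, |f x (v x) - u x| ≤ 1) →
        Hit A B ε (fun j : ↥s => f j.1 (v j.1) - u j.1) → v ∈ E := by
  classical
  obtain ⟨S, hS1, hS2⟩ := ANL.cover A B hε zero_le_one
  rw [Fintype.card_coe] at hS1
  set τ : (↥s → ℝ) → Λ → ℝ := fun t x => if hx : x ∈ s then u x + t ⟨x, hx⟩ else 0 with hτ
  refine ⟨{v | ∃ t ∈ S, ∀ x ∈ s, |f x (v x) - τ t x| ≤ 3 * ε}, ?_, ?_, ?_⟩
  · intro v _ v' _ hvv
    refine exists_congr fun t => and_congr_right fun _ => forall₂_congr fun x hx => ?_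
    rw [hvv x hx]
  · have hsub : ({v : Λ → X | ∃ t ∈ S, ∀ x ∈ s, |f x (v x) - τ t x| ≤ 3 * ε} ∩ Bx K) ⊆
        ⋃ t ∈ S, ({v | ∀ x ∈ s, |f x (v x) - τ t x| ≤ 3 * ε} ∩ Bx K) := by
      rintro v ⟨⟨t, ht, h⟩, hv⟩
      exact Set.mem_iUnion₂.2 ⟨t, ht, h, hv⟩
    refine (Pr_mono hw hsub).trans ((Pr_iUnion_le hw S _).trans ?_)
    refine (Finset.sum_le_sum fun t _ => Pr_box_hit hw hq hS (τ t)).trans ?_
    rw [Finset.sum_const, nsmul_eq_mul, ← mul_assoc]
    refine mul_le_mul_of_nonneg_right ?_ (Pr_nonneg hw _)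
    unfold hitNum
    exact mul_le_mul_of_nonneg_right hS1 (pow_nonneg hq _)
  · intro v hv1 hv2
    obtain ⟨t, ht, h⟩ := hS2 _ (fun j => hv1 j.1 j.2) hv2
    refine ⟨t, ht, fun x hx => ?_⟩
    have h1 := h ⟨x, hx⟩
    simp only [hτ, dif_pos hx]
    have h2 : f x (v x) - (u x + t ⟨x, hx⟩) = f x (v x) - u x - t ⟨x, hx⟩ := by ring
    rw [h2]
    exact h1

end Pool.Agent.AND
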