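import Pool.Agent.AND.LeakGeo

/-! # AND LEAKHYP: the joint leak bound `ANQ.LeakHyp` for the process (abstract geometry)

Hypotheses: geometry `GPar.Ok`, lengths `LOk`, chain property for the sites which are read at the start or inert at the end of
the reading, numbers `LkNum`, digits (`SmallBall` on the sites active at the start), and `htest`: if the test of a cluster
fails, the medium with the annulus read satisfies `LkTest`. -/

set_option autoImplicit false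
set_option linter.unusedSectionVars false

open Finset

noncomputable section

namespace Pool.Agent.AND

open Pool.Agent.Kin Pool.Agent.ANL Pool.Agent.ANM Pool.Agent.ANQ
open Pool.Agent.ANP (IsLaw Pr wt Pr_mono Pr_univ Pr_nonneg Pr_empty Pr_iUnion_le)

variable {T X : Type} [Fintype T] [DecidableEq T] [Fintype X] [DecidableEq X] [Nonempty T]
variable {g : ANQ.Geo T} {A : ANQ.Ana T X} {W : ℕ → ℕ} {V : ℕ}

/-- THE JOINT LEAK BOUND for the process -/
theorem leakHyp_abs {w : T → X → ℝ} (hw : IsLaw w) {H : Matrix T T ℂ} (hH : RealSym H)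
    {Y : Sys X} (heta : 0 ≤ Y.eta) (hkk : ∀ n a, 0 ≤ Y.kk n a) (hL : ANQ.Loc g A)
    (hg : (g.par W V).Ok) (hHd : ∀ x y, H x y ≠ 0 → g.dist x y ≤ 1) {h0 : ℝ} (hop : HopLe H h0)
    (h01 : 1 ≤ h0) {j c0 N Δ Δ' a : ℕ} (hO : LOk (g.par W V) j c0 N Δ Δ')
    (hr : 2 * (Δ' + 2 * c0) ≤ g.rho (j + 1))
    (hcp : ∀ v, CP g.dist (ANB.pt (((g.run A (j + 1) v).pi.rd ∪
      (g.fin A (j + 1) (g.run A (j + 1) v) v).pi.ine : Finset T) : Set T)) a c0)
    {Vs V0 Vn VP nb n0 nP : ℕ}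
    (hVs : ∀ b, (univ.filter fun y => g.dist y b ≤ W j + g.sep j).card ≤ Vs)
    (hV0 : ∀ x, (univ.filter fun y => g.dist x y ≤ c0 + 1).card ≤ V0)
    (hVn : ∀ x, (univ.filter fun y => g.dist x y ≤ (N + 1) * (Δ + c0) + c0 + 1).card ≤ Vn)
    (hVP : ∀ x, (univ.filter fun y => g.dist x y ≤ Δ' + 2 * c0 + 1).card ≤ VP)
    (hnb : g.J * Vs * Vn ≤ nb) (hn0 : g.J * Vs * V0 ≤ n0) (hnP : g.J * Vs * VP ≤ nP)
    {g0 : ℂ} {c1 δ1 ϑ c C γ δ M ε Lc : ℝ} (hg0 : c1 ≤ g0.im)
    (hn : LkNum N nb n0 nP h0 c1 δ1 ϑ c C γ δ M ε Lc)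
    (htest : ∀ v, ∀ k, ∀ hk : k < (g.ilist A (j + 1) (g.run A (j + 1) v) v).length,
      ¬ A.LK (j + 1) (g.run A (j + 1) v) (g.irun A (j + 1) k v).don (g.irun A (j + 1) k v).pi
        ((g.ilist A (j + 1) (g.run A (j + 1) v) v)[k]) v →
      ∃ M1, LkTest H Y g.nf (g.irun A (j + 1) k v).pi v
        ((g.ilist A (j + 1) (g.run A (j + 1) v) v)[k])
        (g.nbhd (g.R (j + 1)) ((g.ilist A (j + 1) (g.run A (j + 1) v) v)[k]) \
          ((g.ilist A (j + 1) (g.run A (j + 1) v) v)[k]))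
        ((lkE g (g.run A (j + 1) v) N Δ ((g.ilist A (j + 1) (g.run A (j + 1) v) v)[k])).setP
          (lkP g A (j + 1) (g.run A (j + 1) v) c0 Δ'
            ((g.ilist A (j + 1) (g.run A (j + 1) v) v)[k]) v)) g0 δ1 c C γ δ M M1)
    (hf : ∀ v, ∀ x ∈ (g.run A (j + 1) v).pi.act, ∀ b ∈ Kc A.q (g.run A (j + 1) v).pi v x,
      ∀ b' ∈ Kc A.q (g.run A (j + 1) v).pi v x, |Y.hh g.nf b - Y.hh g.nf b'| ≤ 1)
    (hsb : ∀ v, SmallBall w (Kc A.q (g.run A (j + 1) v).pi v) (fun _ b => Y.hh g.nf b)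
      (g.run A (j + 1) v).pi.act (3 * ε) (6 * Lc * ε)) (CD Ds : ℕ) :
    LeakHyp w g A (j + 1) CD Ds (ε ^ (5 * n0)) := by
  classical
  intro v s hs hdiam hsep
  have hc : ∀ j x, g.cor j (g.cor j x) = g.cor j x := hg.idem
  have hm : NMet g.dist := hg.met
  have hrho : Δ' + 2 * c0 + 1 + g.R (j + 1) ≤ g.rho (j + 1) := hO.rho
  have hinR : (N + 1) * (Δ + c0) + c0 + 1 ≤ g.R (j + 1) := hO.inR
  set S := g.run A (j + 1) v with hSd
  have hrun : ∀ u ∈ Cls A.q S.pi v, g.run A (j + 1) u = S := fun u hu =>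
    Geo.run_eq hc hL (j + 1) v u hu
  set F : ↥s → Finset T := fun x => g.clu (j + 1) S x.1 with hFd
  have hmem : ∀ x : ↥s, x.1 ∈ F x := fun x => Geo.mem_clu_self (hs x.2)
  have hinj : ∀ x y : ↥s, x ≠ y → F x ≠ F y := by
    intro x y hxy heq
    have h0 : x.1 ∈ F y := by
      rw [← heq]
      exact hmem x
    have h1 := hsep x.1 x.2 y.1 y.2 (fun h => hxy (Subtype.ext h)) x.1 (hmem x) x.1 h0
    rw [hm.self] at h1
    exact absurd h1 (Nat.not_lt_zero _)
  -- the event in terms of the clusters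
  have hsub : ({u | ∀ x ∈ s, x ∈ g.keep2 A (j + 1) (g.run A (j + 1) u) u} ∩ Cls A.q S.pi v) ⊆
      ({u | ∀ i : ↥s, F i ∈ (g.ifin A (j + 1) S u).fl} ∩ Cls A.q S.pi v) := by
    rintro u ⟨h1, h2⟩
    refine ⟨fun i => ?_, h2⟩
    have h3 := h1 i.1 i.2
    rw [hrun u h2] at h3
    unfold Geo.keep2 at h3
    obtain ⟨F', hF', hxF'⟩ := mem_biUnion.1 h3
    have h4 := (fl_clu (k := g.ni A (j + 1) S u) hm.symm hF' (show i.1 ∈ F' from hxF')).1
    change g.clu (j + 1) S i.1 ∈ _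
    rw [h4]
    exact hF'
  have hcands : ∀ u ∈ Cls A.q S.pi v, ∀ F' ∈ (g.ifin A (j + 1) S u).fl,
      F' ∈ g.cands A (j + 1) (g.run A (j + 1) u) u := by
    intro u hu F' hF'
    rw [hrun u hu]
    exact (Geo.icur_sub (g := g) (A := A) (j + 1) S u _).2 hF'
  have hcpS : CP g.dist (eS S) a c0 := by
    refine cp_pt_mono (hcp v) ?_
    intro x hx
    rw [mem_coe] at hx ⊢
    rcases mem_union.1 hx with hx | hx
    · exact mem_union_left _ hx
    · refine mem_union_right _ ?_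
      have h1 := pinv_run (g := g) (A := A) (j + 1) v
      have h2 : x ∉ (g.run A (j + 1) v).pi.act := fun h3 => Finset.disjoint_left.1 h1.AI h3 hx
      exact ((Geo.cur_old (g := g) (A := A) (j + 1) (g.run A (j + 1) v) v
        (g.ns (j + 1)) h2).2.2.2).2 hx
  have hcpP : ∀ u ∈ Cls A.q S.pi v, ∀ F' ∈ (g.ifin A (j + 1) S u).fl,
      CP g.dist (eP g A (j + 1) (g.run A (j + 1) u) (Δ' + 2 * c0 + 1) F' u) a c0 :=
    fun u hu F' hF' => cp_eP hg hL hO (hcands u hu F' hF') (hcp u)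
  have hbd : ∀ (i : ↥s) (k : Fin N), ∀ x ∈ bdy H ((lkE g S N Δ (F i)).D k),
      x ∈ S.pi.act ∧ x ∈ g.nbhd (g.R (j + 1)) (F i) \ F i := by
    intro i k x hx
    exact bdyD_clu hm hcpS hHd hO.D2 hinR (by omega) (show (k : ℕ) ≤ N from k.2.le) hx
  have hmain := leak_flP (g := g) (A := A) hw hH heta hkk (j + 1) S v F
    (fun i => lkE g S N Δ (F i)) (fun i u => lkP g A (j + 1) S c0 Δ' (F i) u) hg0 hn
    ?_ ?_ ?_ ?_ ?_ ?_ ?_ ?_ ?_ ?_
  · rw [Fintype.card_coe] at hmain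
    exact (Pr_mono hw hsub).trans hmain
  · -- geometry
    intro u hu hfl i
    have h1 := hcands u hu _ (hfl i)
    have h2 := hcpP u hu _ (hfl i)
    rw [hrun u hu] at h2
    have h3 := lkgeo2 (Δ' := Δ') hm hcpS h2 hHd hH hop h01 hO.D2 (F := F i) hO.N1 (by
      have := hO.outR
      change g.R (j + 1) + 2 ≤ Δ' at this
      omega) hV0 hVn hVP
    have hcard : (F i).card ≤ g.J * Vs := (clu_of_cands hg h1).card_le hg Vs hVs
    exact h3.mono ((Nat.mul_le_mul_right _ hcard).trans hnb)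
      ((Nat.mul_le_mul_right _ hcard).trans hn0) ((Nat.mul_le_mul_right _ hcard).trans hnP)
  · intro u hu hfl i i' hii
    have h1 := lkP_disj (c := c0) (Δ' := Δ') hg hr (hcands u hu _ (hfl i)) (hcands u hu _ (hfl i'))
      (hinj i i' hii) (hcpP u hu _ (hfl i)) (hcpP u hu _ (hfl i'))
    rw [hrun u hu] at h1
    exact h1
  · intro u hu u' hu' huu i
    refine lkP_congr (s := {x | ∃ (i : ↥s) (k : Fin N), x ∈ bdy H ((lkE g S N Δ (F i)).D k)}) ?_ ?_
    · rintro x ⟨i', k, hx⟩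
      have h1 := (mem_sdiff.1 (hbd i' k x hx).2).1
      by_cases hii : i' = i
      · rw [hii] at h1
        exact Or.inl h1
      · right
        intro h2
        obtain ⟨y, hy, hxy⟩ := Geo.mem_nbhd.1 h1
        obtain ⟨z, hz, hxz⟩ := Geo.mem_nbhd.1 h2
        have h3 := clu_far hm (hinj i' i hii) hy hz
        have h4 := hm.tri y x z
        have h5 := hm.symm y x
        omega
    · intro x hx
      refine huu x fun i' k h => hx ⟨i', k, h⟩
  · intro u hu i hi x hx hx0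
    have h1 := lkP_status (c := c0) (N := N) (Δ := Δ) (Δ' := Δ') (x := x) hg hO (hcands u hu _ hi)
      (hcpP u hu _ hi)
    rw [hrun u hu] at h1
    exact (h1 hx hx0).1
  · exact fun i k x hx => (hbd i k x hx).2
  · intro u hu i hi x hx hx0
    have h1 := lkP_status (c := c0) (N := N) (Δ := Δ) (Δ' := Δ') (x := x) hg hO (hcands u hu _ hi)
      (hcpP u hu _ hi)
    rw [hrun u hu] at h1
    exact (h1 hx hx0).2.1
  · intro u hu i hi m hm' hmi F' hF' x hx hx0
    have h1 := lkP_status (c := c0) (N := N) (Δ := Δ) (Δ' := Δ') (x := x) hg hO (hcands u hu _ hi)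
      (hcpP u hu _ hi)
    rw [hrun u hu] at h1
    refine (h1 hx hx0).2.2 F' ((Geo.icur_sub (g := g) (A := A) (j + 1) S u m).1 hF') ?_
    rw [← hmi]
    exact Geo.don_ne (g := g) (A := A) hm' le_rfl F' hF'
  · intro u hu i hi m hm' hmi hlk
    have h1 := htest u m
    unfold Geo.irun at h1
    rw [hrun u hu] at h1
    have h2 := h1 hm'
    rw [hmi] at h2
    exact h2 hlk
  · intro i k x hx b hb b' hb'
    exact hf v x (hbd i k x hx).1 b hb b' hb'
  · intro i k x hx t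
    exact hsb v x (hbd i k x hx).1 t

end Pool.Agent.AND
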