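import Pool.Agent.AND.LeakAbs
import Pool.Agent.AND.Good

/-! # AND LEAKMED: the data of the leak theorem for self-consistent media

`π v` = profile in which the annulus of the cluster is read, `M v` = its self-consistent medium.  The sites of the surfaces are
read; on `P \ D0` there are no static sites, and the profiles of two configurations of the event agree at the sites where the
configurations agree.  Then `LkDat.cls` holds with `ϑ = 4 δ1 / c1` (`δ1`: (H1) at the active sites). -/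

open Matrix Finset

noncomputable section

namespace Pool.Agent.AND

open Pool.Agent.Kin Pool.Agent.APS Pool.Agent.ANP Pool.Agent.ANQ Pool.Agent.ANL

variable {T X : Type} [Fintype T] [DecidableEq T] [Fintype X] [DecidableEq X]

/-- the profiles `π`, `π'` have the same status at `x`, and `x` is not static -/
structure SameAt (π π' : Prof T) (x : T) : Prop where
  lev : π.lev x = π'.lev x
  act : x ∈ π.act ↔ x ∈ π'.act
  rd : x ∈ π.rd ↔ x ∈ π'.rd
  ine : x ∈ π.ine ↔ x ∈ π'.ine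
  ns : x ∈ π.act ∨ x ∈ π.rd ∨ x ∈ π.ine

/-- imaginary part of the diagonal of a medium at an active site -/
theorem IsMed.im_act1 {H : Matrix T T ℂ} {Y : Sys X} {π : Prof T} {v : T → X} {M : Med T}
    (h : IsMed H Y π v M) {x : T} (hx : x ∈ π.act) (hr : x ∉ π.rd) :
    -(M.b x).im = Y.eta + Y.kk (π.lev x) (v x) * (rsc H M.b x x).im := by
  rw [h.b x]
  unfold cp kp
  rw [if_pos hx, if_neg hr, if_pos (Or.inl hx)]
  simp only [Complex.sub_im, Complex.ofReal_im, Complex.add_im, Complex.mul_im, Complex.ofReal_re,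
    Complex.I_im, Complex.I_re, Complex.zero_im, mul_one, mul_zero, zero_mul, add_zero, sub_zero,
    zero_sub]
  ring

/-- a priori bounds of one medium for the leak theorem -/
structure LkApr (H : Matrix T T ℂ) (Dt P : Finset T) {N : ℕ} (D : Fin N → Finset T)
    (b : T → ℂ) (c C γ δ : ℝ) : Prop where
  low : ∀ i, ∀ x ∈ bdy H (D i), 2 * c ≤ (rsc H b x x).im
  dg : ∀ i, ∀ x ∈ bdy H (D i), ‖rsc H b x x‖ ≤ C / 2
  od : ∀ i k, i ≠ k → ∀ x ∈ bdy H (D i), ∀ y ∈ bdy H (D k), ‖rsc H b x y‖ ≤ γ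
  gt : ∀ i, ∀ a ∈ bdy H Dt, ∀ y ∈ bdy H (D i), ‖rsc H b a y‖ ≤ C
  gP : ∀ x ∈ bdy H P, ∀ y ∈ bdy H P, ‖rsc H b x y‖ ≤ C
  gW : ∀ i, ∀ y ∈ bdy H (D i), ∀ x ∈ bdy H P, ‖rsc H b y x‖ ≤ C
  far : ∀ x ∈ bdy H P, ∀ y ∈ bdy H Dt, ‖rsc H b x y‖ ≤ δ

/-- the bounds of `LkApr` give `Red` on every transversal -/
theorem LkApr.red {H : Matrix T T ℂ} {Dt P : Finset T} {N : ℕ} {D : Fin N → Finset T}
    {b : T → ℂ} {c C γ δ : ℝ} (h : LkApr H Dt P D b c C γ δ) (hA : Adm H b) (hc1 : c ≤ 1)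
    (hC : 2 ≤ C) (hγ0 : 0 ≤ γ) (hγ : N * γ ≤ c)
    (hd : ∀ i j, i ≠ j → Disjoint (bdy H (D i)) (bdy H (D j))) {s : Finset T}
    (hs : IsTr H D s) : Red H b (fun j : ↥s => j.1) c C := by
  classical
  obtain ⟨g, hg, hgs⟩ := hs
  have hsite : ∀ j : ↥s, ∃ i, g i = j.1 := by
    intro j
    have h1 : j.1 ∈ univ.image g := by
      have h2 : ∀ x, x ∈ s → x ∈ univ.image g := fun x hx => hgs ▸ hx
      exact h2 _ j.2
    obtain ⟨i, -, h2⟩ := Finset.mem_image.1 h1
    exact ⟨i, h2⟩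
  have hcard : (Fintype.card ↥s : ℝ) ≤ N := by
    rw [Fintype.card_coe, hgs]
    have := Finset.card_image_le (s := (univ : Finset (Fin N))) (f := g)
    rw [Finset.card_univ, Fintype.card_fin] at this
    exact_mod_cast this
  have hoff : ∀ j i : ↥s, i ≠ j → ‖rsc H b j.1 i.1‖ ≤ γ := by
    intro j i hij
    obtain ⟨k, hk⟩ := hsite j
    obtain ⟨l, hl⟩ := hsite i
    have hkl : k ≠ l := by
      rintro rfl
      exact hij (Subtype.ext (hl.symm.trans hk))
    rw [← hk, ← hl]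
    exact h.od k l hkl _ (hg k) _ (hg l)
  have hsum : ∀ j : ↥s, ∑ i ∈ univ.erase j, ‖rsc H b j.1 i.1‖ ≤ c := by
    intro j
    refine (Finset.sum_le_card_nsmul _ _ γ fun i hi => hoff j i (Finset.ne_of_mem_erase hi)).trans ?_
    rw [nsmul_eq_mul]
    have h1 : ((univ.erase j).card : ℝ) ≤ N := by
      refine le_trans ?_ hcard
      rw [← Finset.card_univ]
      exact_mod_cast Finset.card_le_card (Finset.erase_subset _ _)
    exact (mul_le_mul_of_nonneg_right h1 hγ0).trans hγ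
  have hdg : ∀ j : ↥s, ‖rsc H b j.1 j.1‖ ≤ C / 2 := by
    intro j
    obtain ⟨k, hk⟩ := hsite j
    rw [← hk]
    exact h.dg k _ (hg k)
  refine ⟨hA, Subtype.val_injective, fun v => ?_, fun j => ?_, fun v => ?_⟩
  · refine form_of_rows hA (fun j => ?_) hsum v
    obtain ⟨k, hk⟩ := hsite j
    rw [← hk]
    exact h.low k _ (hg k)
  · have h1 := hdg j
    have h2 := (le_abs_self _).trans (Complex.abs_im_le_norm (rsc H b j.1 j.1))
    linarith
  · refine op_of_rows hA (fun j => ?_) v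
    rw [← Finset.add_sum_erase univ _ (Finset.mem_univ j)]
    have h1 := hdg j
    have h2 := hsum j
    linarith

/-- THE DATA OF THE LEAK THEOREM for self-consistent media -/
theorem lkdat_med {H : Matrix T T ℂ} (hH : RealSym H) {Y : Sys X} {F D0 Dt P : Finset T} {N : ℕ}
    {D : Fin N → Finset T} {h0 : ℝ} {nb n0 nP : ℕ} (hG : LkGeo H F D0 Dt P D h0 nb n0 nP)
    {K : T → Set X} {Good : Set (T → X)} {nf : ℕ} {π : (T → X) → Prof T} {M : (T → X) → Med T}
    {g0 : ℂ} {c1 δ1 ϑ c C γ δ : ℝ} (hc1 : 0 < c1) (hδ1 : 0 ≤ δ1)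
    (hϑ : 4 * δ1 ≤ ϑ * c1) (hg0 : c1 ≤ g0.im) (hδc : 2 * δ1 ≤ c1) (heta : 0 ≤ Y.eta)
    (hkk : ∀ n a, 0 ≤ Y.kk n a)
    (hmed : ∀ v ∈ Bx K, v ∈ Good → IsMed H Y (π v) v (M v))
    (him : ∀ v ∈ Bx K, v ∈ Good → ∀ x, ((M v).b x).im ≤ 0)
    (hdisj : ∀ v ∈ Bx K, v ∈ Good → ∀ x, x ∈ (π v).act → x ∉ (π v).rd)
    (hsame : ∀ v ∈ Bx K, v ∈ Good → ∀ v' ∈ Bx K, v' ∈ Good → ∀ x ∈ P, x ∉ D0 → v x = v' x →
      SameAt (π v) (π v') x)
    (hsurf : ∀ v ∈ Bx K, v ∈ Good → ∀ i, ∀ x ∈ bdy H (D i), x ∈ (π v).rd ∧ x ∉ (π v).act ∧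
      (π v).lev x = nf)
    (hh1 : ∀ v ∈ Bx K, v ∈ Good → ∀ x ∈ P, x ∉ D0 → x ∈ (π v).act →
      ‖rsc H (M v).b x x - g0‖ ≤ δ1)
    (hf : ∀ i, ∀ x ∈ bdy H (D i), ∀ a ∈ K x, ∀ a' ∈ K x, |Y.hh nf a - Y.hh nf a'| ≤ 1)
    (hcc : c ≤ 1) (hC : 2 ≤ C) (hγ0 : 0 ≤ γ) (hγ : N * γ ≤ c)
    (hapr : ∀ v ∈ Bx K, v ∈ Good → LkApr H Dt P D (M v).b c C γ δ) :
    LkDat H F D0 Dt P D K (fun _ a => Y.hh nf a) (fun v => (M v).b) Good ϑ c C δ := by
  classical
  have hadm : ∀ v ∈ Bx K, v ∈ Good → Adm H (M v).b := fun v hv hvG =>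
    ⟨hH, him v hv hvG, (hmed v hv hvG).unit⟩
  refine ⟨hadm, fun v hv hvG s hs => (hapr v hv hvG).red (hadm v hv hvG) hcc hC hγ0 hγ hG.dis hs,
    hf, ?_, fun v hv hvG => (hapr v hv hvG).gt, fun v hv hvG => (hapr v hv hvG).gP,
    fun v hv hvG => (hapr v hv hvG).gW, fun v hv hvG => (hapr v hv hvG).far⟩
  intro v hv hvG v' hv' hvG' s hs hvv x hxP hxD
  have hm := hmed v hv hvG
  have hm' := hmed v' hv' hvG'
  have hβ : 0 ≤ -((M v').b x).im := neg_nonneg.2 (him v' hv' hvG' x)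
  have hϑ0 : 0 ≤ ϑ := by
    by_contra hneg
    push Not at hneg
    nlinarith
  by_cases hxs : x ∈ s
  · -- a surface site
    rw [if_pos hxs]
    obtain ⟨gt, hgt, hgs⟩ := hs
    rw [hgs] at hxs
    obtain ⟨i, -, rfl⟩ := Finset.mem_image.1 hxs
    obtain ⟨h1, h2, h3⟩ := hsurf v hv hvG i _ (hgt i)
    obtain ⟨h1', h2', h3'⟩ := hsurf v' hv' hvG' i _ (hgt i)
    have e1 : (M v).b (gt i) - (M v').b (gt i) =
        ((Y.hh nf (v (gt i)) - Y.hh nf (v' (gt i)) : ℝ) : ℂ) := by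
      rw [hm.b, hm'.b]
      unfold cp kp
      rw [if_neg h2, if_neg h2', if_pos h1, if_pos h1', h3, h3']
      push_cast
      ring
    rw [e1, sub_self, norm_zero]
    exact mul_nonneg hϑ0 hβ
  · rw [if_neg hxs, sub_zero]
    have hvx := hvv x hxP hxs
    have hS := hsame v hv hvG v' hv' hvG' x hxP hxD hvx
    by_cases ha : x ∈ (π v).act
    · have ha' := hS.act.1 ha
      have hr := hdisj v hv hvG x ha
      have hr' := hdisj v' hv' hvG' x ha'
      have e1 : (M v).b x - (M v').b x =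
          -((Y.kk ((π v').lev x) (v' x) : ℝ) : ℂ) * (rsc H (M v).b x x - rsc H (M v').b x x) := by
        rw [hm.b x, hm'.b x]
        unfold cp kp
        rw [if_pos ha, if_pos ha', if_neg hr, if_neg hr', if_pos (Or.inl ha),
          if_pos (Or.inl ha'), hS.lev, hvx]
        ring
      rw [e1, norm_mul, norm_neg, Complex.norm_real, Real.norm_eq_abs, abs_of_nonneg (hkk _ _)]
      have h1 := hh1 v hv hvG x hxP hxD ha
      have h2 := hh1 v' hv' hvG' x hxP hxD ha'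
      have h3 : ‖rsc H (M v).b x x - rsc H (M v').b x x‖ ≤ 2 * δ1 := by
        have h4 : rsc H (M v).b x x - rsc H (M v').b x x =
            (rsc H (M v).b x x - g0) - (rsc H (M v').b x x - g0) := by ring
        rw [h4]
        exact (norm_sub_le _ _).trans (by linarith)
      have h5 : c1 / 2 ≤ (rsc H (M v').b x x).im := by
        have h6 := (Complex.abs_im_le_norm _).trans h2
        rw [Complex.sub_im, abs_le] at h6
        linarith [h6.1]
      rw [hm'.im_act1 ha' hr']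
      have h7 := hkk ((π v').lev x) (v' x)
      calc Y.kk ((π v').lev x) (v' x) * ‖rsc H (M v).b x x - rsc H (M v').b x x‖
          ≤ Y.kk ((π v').lev x) (v' x) * (2 * δ1) := mul_le_mul_of_nonneg_left h3 h7
        _ ≤ Y.kk ((π v').lev x) (v' x) * (ϑ * (c1 / 2)) := by
            refine mul_le_mul_of_nonneg_left ?_ h7
            linarith
        _ ≤ Y.kk ((π v').lev x) (v' x) * (ϑ * (rsc H (M v').b x x).im) :=
            mul_le_mul_of_nonneg_left (mul_le_mul_of_nonneg_left h5 hϑ0) h7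
        _ = ϑ * (Y.kk ((π v').lev x) (v' x) * (rsc H (M v').b x x).im) := by ring
        _ ≤ _ := mul_le_mul_of_nonneg_left (by linarith) hϑ0
    · have ha' : x ∉ (π v').act := fun h => ha (hS.act.2 h)
      have e1 : (M v).b x - (M v').b x = 0 := by
        rw [hm.b x, hm'.b x]
        unfold cp kp
        rw [if_neg ha, if_neg ha', hS.lev, hvx]
        by_cases hr : x ∈ (π v).rd
        · rw [if_pos hr, if_pos (hS.rd.1 hr)]
          simp
        · have hi : x ∈ (π v).ine := by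
            rcases hS.ns with h | h | h
            · exact absurd h ha
            · exact absurd h hr
            · exact h
          rw [if_neg hr, if_neg fun h => hr (hS.rd.2 h), if_pos (Or.inr hi),
            if_pos (Or.inr (hS.ine.1 hi))]
          simp
      rw [e1, norm_zero]
      exact mul_nonneg hϑ0 hβ

end Pool.Agent.AND
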