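import Pool.Agent.ANC.LkN2
import Pool.Agent.AND.LeakFin
import Pool.Agent.ANQ.Torus

/-!
# AND / LeakNum: the structures of numbers `LOk`, `LkNum`, `LkFN` of the leak bound

`lkcc c1 = min (c1 / 4) 1`; `C = Lc = K = 1 / ks (j + 1)`; `ε = K ^ (-lce)`, `Ml = K ^ lb4`, `γ = lkcc / (8 n0)`,
`δ = ks (j + 2) ^ (3 d + 3)`, `ε1 = ks (j + 2) ^ (13 vi)`, `μ = μ0 ks (j + 2)`.
-/

set_option autoImplicit false

open Finset Filter Topology

noncomputable section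

namespace Pool.Agent.AND

open Pool.Agent.Kin Pool.Agent.APS Pool.Agent.ANL Pool.Agent.ANM Pool.Agent.ANC Pool.Agent.ANQ

/-- the constant `c` -/
def lkcc (c1 : ℝ) : ℝ := min (c1 / 4) 1

theorem lkcc_pos {c1 : ℝ} (h : 0 < c1) : 0 < lkcc c1 := lt_min (by positivity) one_pos

variable {d : ℕ} {CM : ℝ}

theorem Ex.d0 (hd : 3 ≤ d) : (0 : ℝ) < d := by
  have : 0 < d := by omega
  exact_mod_cast this

/-- `4 d + 2 ≤ lb1 s` -/
theorem lb1_s (x : Ex d CM) (hd : 3 ≤ d) : 4 * (d : ℝ) + 2 ≤ lb1 d * x.s := by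
  have hd0 : (0 : ℝ) < d := Ex.d0 hd
  have h1 : 1 / (1600 + 400 * (d : ℝ)) ≤ x.s := by
    rw [x.s_eq, x.v_eq]
    have e : 1 / (1600 + 400 * (d : ℝ)) = (1 / (400 + 100 * (d : ℝ))) / 4 := by
      field_simp
      ring
    rw [e]
    refine div_le_div_of_nonneg_right (le_min ?_ ?_) (by norm_num)
    · exact one_div_le_one_div_of_le (by norm_num) (by linarith)
    · exact one_div_le_one_div_of_le (by positivity) (by linarith)
  have h2 : (lb1 d : ℝ) = (4 * d + 2) * (1600 + 400 * d) := by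
    unfold lb1
    push_cast
    ring
  rw [h2]
  calc 4 * (d : ℝ) + 2 = (4 * d + 2) * (1600 + 400 * d) * (1 / (1600 + 400 * (d : ℝ))) := by
        field_simp
    _ ≤ _ := mul_le_mul_of_nonneg_left h1 (by positivity)

/-- THE LENGTHS on the torus -/
theorem lOk_tor (x : Ex d CM) (hd : 3 ≤ d) (hCM : (lcmE d : ℝ) ≤ CM) {w : ℝ} (hw : 0 ≤ w)
    (hw1 : w ≤ 1) :
    ∀ᶠ k0 in 𝓝[>] (0 : ℝ), ∀ (N nf : ℕ) [NeZero N] (j : ℕ),
      LOk ((torGeo d N k0 x.al x.J 24 x.v2 nf).par (ANC.dW k0 x.al) (VV d 24)) j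
        (lkc k0 x.al w j) (8 * lkn0 d x.J k0 x.al w j) (lkDs d k0 x.al j + 2)
        (lkDp k0 x.al x.v2 j) ∧
      2 * (lkDp k0 x.al x.v2 j + 2 * lkc k0 x.al w j) ≤ rho k0 x.al x.J (j + 1) ∧
      4 * lkRin d x.J k0 x.al w j ≤ hR k0 x.al x.v2 (j + 1) := by
  filter_upwards [lk_K d x.J (by omega) x.J1 x.al hw hw1, lk_len x hd hCM x.J1 hw hw1] with k0
    h1 h2 N nf _ j
  obtain ⟨a1, a2, a3, a4, a5, a6, a7, a8⟩ := h1 j
  obtain ⟨b1, b2, b3, b4, b5⟩ := h2 j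
  refine ⟨⟨by omega, by omega, ?_, ?_, b2, b4⟩, b3, b1⟩
  · show (8 * lkn0 d x.J k0 x.al w j + 1) * (lkDs d k0 x.al j + 2 + lkc k0 x.al w j) +
      lkc k0 x.al w j + 1 ≤ hR k0 x.al x.v2 (j + 1)
    have : lkRin d x.J k0 x.al w j ≤ hR k0 x.al x.v2 (j + 1) := by omega
    exact this
  · show hR k0 x.al x.v2 (j + 1) + 2 ≤ lkDp k0 x.al x.v2 j
    unfold lkDp
    omega

/-- the additive constant of the pieces after the insertions is small -/
theorem cK_small (x : Ex d CM) (hd : 3 ≤ d) (hCM : (lcmE d : ℝ) ≤ CM) {w : ℝ} (hw : 0 ≤ w)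
    (hw1 : w ≤ 1) :
    ∀ᶠ k0 in 𝓝[>] (0 : ℝ), ∀ (N nf : ℕ) [NeZero N] (j : ℕ),
      (cK (torGeo d N k0 x.al x.J 24 x.v2 nf) (ANC.dW k0 x.al) (VV d 24) (j + 1)
        (rj k0 x.al w (j + 1)) : ℝ) ≤ ks k0 x.al (j + 2) ^ (-(1 / 2 : ℝ)) ∧
      cK (torGeo d N k0 x.al x.J 24 x.v2 nf) (ANC.dW k0 x.al) (VV d 24) j
        (rj k0 x.al w (j + 1)) ≤ lkc k0 x.al w j := by
  have hd0 : (0 : ℝ) < d := Ex.d0 hd
  have hv2 : x.v2 < 1 / 4 := by
    have := x.v2_lt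
    linarith
  set B : ℝ := 2 * (2 + 2 * (x.J * VV d 24 + 1) * (4 + 4 + 2)) + 8 with hB
  filter_upwards [ANQ.par_ok d x.J 24 x.al2 x.v2_pos.le x.v2_le,
    ev_all (ev_pow' B (show -(1 / 2 : ℝ) < -(1 / 4) by norm_num)) x.al,
    ev_small (show (0 : ℝ) < 1 / 2 by norm_num)] with k0 hok hC hk N nf _ j
  have hk0 := hk.1
  have hk1 : k0 < 1 := by linarith [hk.2]
  have hC := hC (j + 2)
  have hg := hok N nf
  have hkp : 0 < ks k0 x.al (j + 1) := ks_pos hk0 x.al (j + 1)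
  have hkl : ks k0 x.al (j + 1) ≤ 1 := (ks_le hk0 x.al _).trans hk1.le
  have hkp' : 0 < ks k0 x.al (j + 2) := ks_pos hk0 x.al (j + 2)
  have hkl' : ks k0 x.al (j + 2) ≤ 1 := (ks_le hk0 x.al _).trans hk1.le
  have hcc := cc_le hg j
  have e0 : ((torGeo d N k0 x.al x.J 24 x.v2 nf).par (ANC.dW k0 x.al) (VV d 24)).side j =
    side k0 x.al j := rfl
  rw [e0] at hcc
  refine ⟨?_, ?_⟩
  · have h1 := cc_succ (g := (torGeo d N k0 x.al x.J 24 x.v2 nf).par (ANC.dW k0 x.al) (VV d 24)) j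
    have e1 : ((torGeo d N k0 x.al x.J 24 x.v2 nf).par (ANC.dW k0 x.al) (VV d 24)).J = x.J := rfl
    have e2 : ((torGeo d N k0 x.al x.J 24 x.v2 nf).par (ANC.dW k0 x.al) (VV d 24)).V =
      VV d 24 := rfl
    have e3 : ((torGeo d N k0 x.al x.J 24 x.v2 nf).par (ANC.dW k0 x.al) (VV d 24)).R (j + 1) =
      hR k0 x.al x.v2 (j + 1) := rfl
    rw [e0, e1, e2, e3] at h1
    have hR2 : (hR k0 x.al x.v2 (j + 1) : ℝ) ≤ 2 * ks k0 x.al (j + 2) ^ (-x.v2) :=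
      hR_le hk0 hk1.le x.al x.v2_pos.le (j + 1)
    have hs := (side_rpow hk0 hk1 x.al j).2
    have hr := rj_le hk0 hk1.le x.al hw (j + 1)
    set Q := ks k0 x.al (j + 2) ^ (-(1 / 4 : ℝ)) with hQ
    have hQ1 : 1 ≤ Q := one_le_rpow_neg hkp' hkl' (by norm_num)
    have hQv : ks k0 x.al (j + 2) ^ (-x.v2) ≤ Q := rpow_neg_le hkp' hkl' hv2.le
    have hk2 : ks k0 x.al (j + 1) ^ (-2 : ℝ) ≤ Q := by
      have h3 := Kpow_le x hk0 hk1.le j (n := 2) (by
        have : (2 : ℝ) ≤ (lcmE d : ℝ) := by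
          have h4 : 2 ≤ lcmE d := by
            unfold lcmE lb4
            omega
          exact_mod_cast h4
        push_cast
        linarith)
      have h5 : (ks k0 x.al (j + 1))⁻¹ ^ 2 = ks k0 x.al (j + 1) ^ (-2 : ℝ) := by
        rw [Real.rpow_neg hkp.le, inv_pow, ← Real.rpow_natCast]
        norm_num
      rw [h5] at h3
      refine h3.trans (rpow_neg_le hkp' hkl' ?_)
      have := x.A3
      linarith
    have hk3 : ks k0 x.al (j + 1) ^ (-w) ≤ Q :=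
      (rpow_neg_le hkp hkl (by linarith)).trans hk2
    have h4 : (cK (torGeo d N k0 x.al x.J 24 x.v2 nf) (ANC.dW k0 x.al) (VV d 24) (j + 1)
        (rj k0 x.al w (j + 1)) : ℝ) ≤ B * Q := by
      unfold cK
      rw [h1]
      push_cast
      have h5 : (cc ((torGeo d N k0 x.al x.J 24 x.v2 nf).par (ANC.dW k0 x.al) (VV d 24)) j : ℝ) ≤
          side k0 x.al j := by exact_mod_cast hcc
      have h6 : 2 * (hR k0 x.al x.v2 (j + 1) : ℝ) + 2 * side k0 x.al j + 2 ≤ (4 + 4 + 2) * Q := by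
        linarith
      have h7 : 2 * ((x.J : ℝ) * VV d 24 + 1) * (2 * (hR k0 x.al x.v2 (j + 1) : ℝ) +
          2 * side k0 x.al j + 2) ≤ 2 * ((x.J : ℝ) * VV d 24 + 1) * ((4 + 4 + 2) * Q) :=
        mul_le_mul_of_nonneg_left h6 (by positivity)
      rw [hB]
      have e : (2 * (2 + 2 * ((x.J : ℝ) * VV d 24 + 1) * (4 + 4 + 2)) + 8) * Q =
        2 * (2 * Q + 2 * ((x.J : ℝ) * VV d 24 + 1) * ((4 + 4 + 2) * Q)) + 8 * Q := by ring
      rw [e]
      linarith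
    exact h4.trans hC
  · unfold cK lkc
    omega

/-- the powers of `k' = ks (j + 2)` which absorb all powers of `K` -/
theorem lk_K3 (x : Ex d CM) (hd : 3 ≤ d) (hCM : (lcmE d : ℝ) ≤ CM) {w c : ℝ} (hw : 0 ≤ w)
    (hw1 : w ≤ 1) (hc : 0 < c) :
    ∀ᶠ k0 in 𝓝[>] (0 : ℝ), ∀ j : ℕ,
      ks k0 x.al (j + 2) ^ (13 * x.vi) ≤ c / (16 * lkn0 d x.J k0 x.al w j) ∧
      48 * (ks k0 x.al (j + 1))⁻¹ ^ 3 * (2 * (d : ℝ)) ^ 3 * (lknb d x.J k0 x.al w j : ℝ) ^ 2 *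
        lknP d x.J k0 x.al x.v2 w j * ks k0 x.al (j + 2) ^ (3 * d + 3) ≤
        c * ((ks k0 x.al (j + 1))⁻¹ ^ lce d)⁻¹ := by
  have hv1 := x.v1_pos
  have hv := x.v1_eq
  have hvi := x.vi_pos
  have hd0 : (0 : ℝ) < d := Ex.d0 hd
  have hv1l : x.v1 < 1 := by
    have h1 := x.vi_lt
    have h2 := x.v_lt
    linarith
  filter_upwards [lk_K d x.J (by omega) x.J1 x.al hw hw1, lk_len x hd hCM x.J1 hw hw1,
    ev_all (ev_le (C := 16) (b := 13 * x.vi - x.v1) (by linarith) hc 0) x.al,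
    ev_all (ev_le (C := 48 * (2 * (d : ℝ)) ^ 3) (b := 3 - x.v1) (by linarith) hc 0) x.al,
    ev_small (show (0 : ℝ) < 1 / 2 by norm_num)] with k0 h1 h2 hA hB hk j
  obtain ⟨a1, a2, a3, a4, a5, a6, a7, a8⟩ := h1 j
  obtain ⟨b1, b2, b3, b4, b5⟩ := h2 j
  have hk0 := hk.1
  have hk1 : k0 < 1 := by linarith [hk.2]
  have hA := hA (j + 2)
  have hB := hB (j + 2)
  rw [pow_zero, mul_one] at hA hB
  have hkp' : 0 < ks k0 x.al (j + 2) := ks_pos hk0 x.al (j + 2)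
  have hkl' : ks k0 x.al (j + 2) ≤ 1 := (ks_le hk0 x.al _).trans hk1.le
  have hKpos : 0 < (ks k0 x.al (j + 1))⁻¹ := inv_pos.2 (ks_pos hk0 x.al (j + 1))
  have hKn : ∀ n : ℕ, n ≤ lcmE d → (ks k0 x.al (j + 1))⁻¹ ^ n ≤ ks k0 x.al (j + 2) ^ (-x.v1) := by
    intro n hn
    apply Kpow_le x hk0 hk1.le j
    have : (n : ℝ) ≤ (lcmE d : ℝ) := by exact_mod_cast hn
    linarith
  set K := (ks k0 x.al (j + 1))⁻¹ with hKd
  set k' := ks k0 x.al (j + 2) with hk'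
  have hn0 : (1 : ℝ) ≤ lkn0 d x.J k0 x.al w j := by exact_mod_cast a1
  refine ⟨?_, ?_⟩
  · rw [le_div_iff₀ (by positivity)]
    have h3 : (lkn0 d x.J k0 x.al w j : ℝ) ≤ k' ^ (-x.v1) := by
      refine a4.trans (hKn _ ?_)
      have := le_lcmE (d := d) (by omega)
      omega
    calc k' ^ (13 * x.vi) * (16 * (lkn0 d x.J k0 x.al w j : ℝ))
        ≤ k' ^ (13 * x.vi) * (16 * k' ^ (-x.v1)) := by
          refine mul_le_mul_of_nonneg_left ?_ (Real.rpow_nonneg hkp'.le _)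
          linarith
      _ = 16 * k' ^ (13 * x.vi - x.v1) := by
          rw [sub_eq_add_neg, Real.rpow_add hkp']
          ring
      _ ≤ c := hA
  · rw [← div_eq_mul_inv, le_div_iff₀ (by positivity)]
    have h3 : K ^ 3 * (lknb d x.J k0 x.al w j : ℝ) ^ 2 * K ^ lce d ≤ k' ^ (-x.v1) := by
      calc K ^ 3 * (lknb d x.J k0 x.al w j : ℝ) ^ 2 * K ^ lce d
          ≤ K ^ 3 * (K ^ le3 d) ^ 2 * K ^ lce d := by
            refine mul_le_mul_of_nonneg_right ?_ (by positivity)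
            exact mul_le_mul_of_nonneg_left (pow_le_pow_left₀ (Nat.cast_nonneg _) a7 2)
              (by positivity)
        _ = K ^ (3 + le3 d * 2 + lce d) := by
          rw [← pow_mul, ← pow_add, ← pow_add]
        _ ≤ _ := hKn _ (by
          unfold lcmE lb4
          omega)
    have e1 : k' ^ (3 * d + 3) = k' ^ (3 * (d : ℝ) + 3) := by
      rw [← Real.rpow_natCast]
      congr 1
      push_cast
      ring
    calc 48 * K ^ 3 * (2 * (d : ℝ)) ^ 3 * (lknb d x.J k0 x.al w j : ℝ) ^ 2 *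
          lknP d x.J k0 x.al x.v2 w j * k' ^ (3 * d + 3) * K ^ lce d
        = 48 * (2 * (d : ℝ)) ^ 3 * (K ^ 3 * (lknb d x.J k0 x.al w j : ℝ) ^ 2 * K ^ lce d) *
          lknP d x.J k0 x.al x.v2 w j * k' ^ (3 * d + 3) := by ring
      _ ≤ 48 * (2 * (d : ℝ)) ^ 3 * k' ^ (-x.v1) * k' ^ (-(3 * d : ℝ)) * k' ^ (3 * d + 3) := by
        refine mul_le_mul_of_nonneg_right ?_ (by positivity)
        refine mul_le_mul (mul_le_mul_of_nonneg_left h3 (by positivity)) b5 (Nat.cast_nonneg _)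
          (by positivity)
      _ = 48 * (2 * (d : ℝ)) ^ 3 * (k' ^ (-x.v1) * k' ^ (-(3 * d : ℝ)) *
          k' ^ (3 * (d : ℝ) + 3)) := by
        rw [e1]
        ring
      _ = 48 * (2 * (d : ℝ)) ^ 3 * k' ^ (3 - x.v1) := by
        rw [← Real.rpow_add hkp', ← Real.rpow_add hkp']
        congr 2
        ring
      _ ≤ c := hB

/-- THE NUMBERS `LkNum` -/
theorem lkNum_tor (x : Ex d CM) (hd : 3 ≤ d) (hCM : (lcmE d : ℝ) ≤ CM) {w c1 : ℝ} (hw : 0 ≤ w)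
    (hw1 : w ≤ 1) (hc1 : 0 < c1) :
    ∀ᶠ k0 in 𝓝[>] (0 : ℝ), ∀ j : ℕ,
      LkNum (8 * lkn0 d x.J k0 x.al w j) (lknb d x.J k0 x.al w j) (lkn0 d x.J k0 x.al w j)
        (lknP d x.J k0 x.al x.v2 w j) (2 * d) c1 (c1 / 8) (1 / 2) (lkcc c1)
        (ks k0 x.al (j + 1))⁻¹ (lkcc c1 / (8 * lkn0 d x.J k0 x.al w j))
        (ks k0 x.al (j + 2) ^ (3 * d + 3)) ((ks k0 x.al (j + 1))⁻¹ ^ lb4 d)
        (((ks k0 x.al (j + 1))⁻¹ ^ lce d)⁻¹) (ks k0 x.al (j + 1))⁻¹ := by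
  have hcc := lkcc_pos hc1
  filter_upwards [lk_K d x.J (by omega) x.J1 x.al hw hw1,
    lk_K2 d x.J (by omega) x.J1 x.al hw hw1 hcc 1 x.s (lb1_s x hd),
    lk_K3 x hd hCM hw hw1 hcc, ev_all (ev_inv_ge 2) x.al,
    ev_small (show (0 : ℝ) < 1 / 2 by norm_num)] with k0 h1 h2 h3 hK hk j
  obtain ⟨a1, a2, a3, a4, a5, a6, a7, a8⟩ := h1 j
  obtain ⟨b1, b2, b3, b4⟩ := h2 j
  obtain ⟨e1, e2⟩ := h3 j
  have hk0 := hk.1
  have hK := hK (j + 1)
  have hkp' : 0 < ks k0 x.al (j + 2) := ks_pos hk0 x.al (j + 2)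
  have hK0 : 0 < (ks k0 x.al (j + 1))⁻¹ := by linarith
  have hn0 : (1 : ℝ) ≤ lkn0 d x.J k0 x.al w j := by exact_mod_cast a1
  exact {
    hc1 := hc1
    hδ1 := by positivity
    hϑ1 := by linarith
    hδc := by linarith
    hϑ0 := by norm_num
    hϑ2 := by norm_num
    hc := hcc
    hcc := min_le_right _ _
    hC := hK
    hγ0 := by positivity
    hγ := by
      push_cast
      rw [mul_div_cancel₀]
      positivity
    hδ0 := by positivity
    hM0 := by positivity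
    hM := b2
    hδ := e2
    hε := by positivity
    hε1 := inv_le_one_of_one_le₀ (one_le_pow₀ (by linarith))
    hLc := by linarith
    hn0 := a1
    hnb := a6
    hN := rfl
    hs := b1 }

/-- the constant of the weights -/
def lkmu (d : ℕ) (c1 cl cs : ℝ) : ℝ := min (min (cl * (c1 / 2)) cs / (8 * d)) 1

theorem lkmu_pos (hd : 3 ≤ d) {c1 cl cs : ℝ} (hc1 : 0 < c1) (hcl : 0 < cl) (hcs : 0 < cs) :
    0 < lkmu d c1 cl cs := by
  have hd0 : (0 : ℝ) < d := Ex.d0 hd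
  exact lt_min (div_pos (lt_min (by positivity) hcs) (by positivity)) one_pos

/-- THE NUMBERS `LkFN` -/
theorem lkFN_tor (x : Ex d CM) (hd : 3 ≤ d) (hCM : (lcmE d : ℝ) ≤ CM) {w c1 C1 cl cs : ℝ}
    (hw : 0 ≤ w) (hw1 : w ≤ 1) (hc1 : 0 < c1) (hcl : 0 < cl) (hcs : 0 < cs) :
    ∀ᶠ k0 in 𝓝[>] (0 : ℝ), ∀ (j : ℕ) (f : Fix) (u : UTol) (κl κs : ℝ) (cw : ℕ),
      f.c1 = c1 → f.C1 ≤ C1 → f.s = x.s → f.r0 ≤ k0 ^ (-2 : ℝ) → u.C2 = 1 →
      u.Lam ≤ k0 ^ (-(1 / 2 : ℝ)) → u.del ≤ c1 / 16 → cl * ks k0 x.al (j + 2) ≤ κl →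
      cs * ks k0 x.al (j + 2) ≤ κs → (cw : ℝ) ≤ ks k0 x.al (j + 2) ^ (-(1 / 2 : ℝ)) →
      LkFN d f u (lkDs d k0 x.al j) (lkRf k0 x.al j) cw κl κs
        (lkmu d c1 cl cs * ks k0 x.al (j + 2)) (ks k0 x.al (j + 2) ^ (13 * x.vi)) (c1 / 8) (lkcc c1)
        (ks k0 x.al (j + 1))⁻¹ (lkcc c1 / (8 * lkn0 d x.J k0 x.al w j))
        (ks k0 x.al (j + 2) ^ (3 * d + 3)) := by
  have hcc := lkcc_pos hc1
  have hd0 : (0 : ℝ) < d := Ex.d0 hd
  have hm0 := lkmu_pos (d := d) hd hc1 hcl hcs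
  set m0 := lkmu d c1 cl cs with hm
  have hm1 : m0 ≤ 1 := min_le_right _ _
  have hm2 : 8 * d * m0 ≤ cl * (c1 / 2) ∧ 8 * d * m0 ≤ cs := by
    have h1 : m0 ≤ min (cl * (c1 / 2)) cs / (8 * d) := min_le_left _ _
    rw [le_div_iff₀ (by positivity)] at h1
    constructor
    · have := min_le_left (cl * (c1 / 2)) cs
      linarith
    · have := min_le_right (cl * (c1 / 2)) cs
      linarith
  have hvan : 0 < 13 * x.vi := by
    have := x.vi_pos
    positivity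
  filter_upwards [lk_K d x.J (by omega) x.J1 x.al hw hw1,
    lk_K2 d x.J (by omega) x.J1 x.al hw hw1 hcc 1 x.s (lb1_s x hd),
    lk_K3 x hd hCM hw hw1 hcc, ev_all (ev_inv_ge (max 2 (2 * (C1 + 1)))) x.al,
    ev_all (ev_le (C := 1) hvan (show 0 < c1 / 16 by positivity) 0) x.al,
    ev_all (ev_le (C := 1) hvan one_pos 0) x.al,
    ev_all (ev_pow' 2 (show (-1 : ℝ) < -(1 / 2) by norm_num)) x.al,
    ev_all (ev_exp (C := 2 * Real.exp 1 / (cl * c1)) (a := 1) (N := 6 * d + 7)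
      (show (0 : ℝ) < 1 / 2 by norm_num) (show 0 < m0 / 2 by positivity)) x.al,
    ev_small (show (0 : ℝ) < 1 / 2 by norm_num)] with k0 h1 h2 h3 hK hA hB hC hE hk j f u κl κs cw
      g1 g2 g3 g4 g5 g6 g7 g8 g9 g10
  obtain ⟨a1, a2, a3, a4, a5, a6, a7, a8⟩ := h1 j
  obtain ⟨b1, b2, b3, b4⟩ := h2 j
  obtain ⟨e1, e2⟩ := h3 j
  have hk0 := hk.1
  have hk1 : k0 < 1 := by linarith [hk.2]
  have hK := hK (j + 1)
  have hA := hA (j + 2)
  have hB := hB (j + 2)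
  have hC := hC (j + 1)
  have hE := hE (j + 2)
  rw [pow_zero, mul_one, one_mul] at hA hB
  have hkp : 0 < ks k0 x.al (j + 1) := ks_pos hk0 x.al (j + 1)
  have hkl : ks k0 x.al (j + 1) ≤ 1 := (ks_le hk0 x.al _).trans hk1.le
  have hkp' : 0 < ks k0 x.al (j + 2) := ks_pos hk0 x.al (j + 2)
  have hkl' : ks k0 x.al (j + 2) ≤ 1 := (ks_le hk0 x.al _).trans hk1.le
  have hK2 : 2 ≤ (ks k0 x.al (j + 1))⁻¹ := (le_max_left _ _).trans hK
  have hKC : 2 * (C1 + 1) ≤ (ks k0 x.al (j + 1))⁻¹ := (le_max_right _ _).trans hK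
  have hKk' : (ks k0 x.al (j + 1))⁻¹ ≤ ks k0 x.al (j + 2) ^ (-x.v1) := by
    have h4 := Kpow_le x hk0 hk1.le j (n := 1) (by
      have : (1 : ℝ) ≤ (lcmE d : ℝ) := by
        have h4 : 1 ≤ lcmE d := by
          unfold lcmE
          omega
        exact_mod_cast h4
      push_cast
      linarith)
    rwa [pow_one] at h4
  have hn0 : (1 : ℝ) ≤ lkn0 d x.J k0 x.al w j := by exact_mod_cast a1
  have hDs1 : (ks k0 x.al (j + 1))⁻¹ ^ lb1 d ≤ (lkDs d k0 x.al j : ℝ) := Nat.le_ceil _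
  have hLam : k0 ^ (-(1 / 2 : ℝ)) + 1 ≤ (ks k0 x.al (j + 1))⁻¹ := by
    have h4 : k0 ^ (-(1 / 2 : ℝ)) ≤ ks k0 x.al (j + 1) ^ (-(1 / 2 : ℝ)) :=
      Real.rpow_le_rpow_of_nonpos hkp (ks_le hk0 x.al _) (by norm_num)
    have h5 : ks k0 x.al (j + 1) ^ (-(1 : ℝ)) = (ks k0 x.al (j + 1))⁻¹ := Real.rpow_neg_one _
    have h6 : 1 ≤ ks k0 x.al (j + 1) ^ (-(1 / 2 : ℝ)) := one_le_rpow_neg hkp hkl (by norm_num)
    rw [h5] at hC
    linarith
  set k := ks k0 x.al (j + 1) with hkd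
  set k' := ks k0 x.al (j + 2) with hkd'
  set K := k⁻¹ with hKd
  have hK0 : 0 < K := inv_pos.2 hkp
  have hcc1 : lkcc c1 ≤ c1 / 4 := min_le_left _ _
  have hvanp : 0 < k' ^ (13 * x.vi) := Real.rpow_pos_of_pos hkp' _
  exact {
    hΔs := by
      have h4 : (1 : ℝ) ≤ lkDs d k0 x.al j := (one_le_pow₀ (by linarith)).trans hDs1
      exact_mod_cast h4
    hr0 := by
      refine g4.trans (le_trans ?_ hDs1)
      have h4 : k0 ^ (-2 : ℝ) ≤ k ^ (-2 : ℝ) :=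
        Real.rpow_le_rpow_of_nonpos hkp (ks_le hk0 x.al _) (by norm_num)
      have h5 : k ^ (-2 : ℝ) = K ^ 2 := by
        rw [Real.rpow_neg hkp.le, hKd, inv_pow, ← Real.rpow_natCast]
        norm_num
      rw [h5] at h4
      exact h4.trans (pow_le_pow_right₀ (by linarith only [hK2]) (two_le_lb1 d))
    hs := by
      rw [g3]
      exact x.s_pos.le
    hC2 := by
      rw [g5]
      exact zero_le_one
    hγ := by
      rw [g5, g3]
      have e : lkcc c1 / (8 * (lkn0 d x.J k0 x.al w j : ℝ)) =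
          lkcc c1 / (16 * lkn0 d x.J k0 x.al w j) + lkcc c1 / (16 * lkn0 d x.J k0 x.al w j) := by
        field_simp
        ring
      rw [e]
      exact add_le_add b4 e1
    hC := by linarith
    hLam := by linarith
    hc := by
      rw [g1]
      linarith
    he1 := by
      rw [g1]
      linarith
    hδ1 := by linarith
    hμ0 := by positivity
    hμ1 := mul_le_one₀ hm1 hkp'.le hkl'
    hκ0 := lt_of_lt_of_le (by positivity) g8
    hμl := by
      rw [g1]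
      have h4 : 8 * d * (m0 * k') ≤ (cl * (c1 / 2)) * k' := by
        rw [← mul_assoc]
        exact mul_le_mul_of_nonneg_right hm2.1 hkp'.le
      have h5 : cl * k' * (c1 / 2) ≤ κl * (c1 / 2) :=
        mul_le_mul_of_nonneg_right g8 (by positivity)
      linarith
    hμs := by
      have h4 : 8 * d * (m0 * k') ≤ cs * k' := by
        rw [← mul_assoc]
        exact mul_le_mul_of_nonneg_right hm2.2 hkp'.le
      linarith
    hδ0 := by positivity
    hδ := by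
      rw [g1]
      have h4 : Real.exp (2 * (m0 * k') * cw / 4) ≤ Real.exp 1 := by
        apply Real.exp_le_exp.2
        have h5 : k' * cw ≤ 1 := by
          calc k' * cw ≤ k' * k' ^ (-(1 / 2 : ℝ)) := mul_le_mul_of_nonneg_left g10 hkp'.le
            _ = k' ^ (1 / 2 : ℝ) := by
              nth_rewrite 1 [← Real.rpow_one k']
              rw [← Real.rpow_add hkp']
              norm_num
            _ ≤ 1 := Real.rpow_le_one hkp'.le hkl' (by norm_num)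
        have h6 : m0 * (k' * cw) ≤ 1 := mul_le_one₀ hm1 (by positivity) h5
        have h7 : 2 * (m0 * k') * (cw : ℝ) / 4 = m0 * (k' * cw) / 2 := by ring
        rw [h7]
        linarith
      have h5 : Real.exp (-(2 * (m0 * k') * (lkRf k0 x.al j : ℝ) / 4)) ≤
          Real.exp (-(m0 / 2) * k' ^ (-(1 / 2 : ℝ))) := by
        apply Real.exp_le_exp.2
        have h6 : k' ^ (-(3 / 2 : ℝ)) ≤ (lkRf k0 x.al j : ℝ) := Nat.le_ceil _
        have h7 : k' ^ (-(1 / 2 : ℝ)) = k' * k' ^ (-(3 / 2 : ℝ)) := by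
          nth_rewrite 2 [← Real.rpow_one k']
          rw [← Real.rpow_add hkp']
          norm_num
        rw [h7]
        have h8 : m0 * k' * k' ^ (-(3 / 2 : ℝ)) ≤ m0 * k' * (lkRf k0 x.al j : ℝ) :=
          mul_le_mul_of_nonneg_left h6 (by positivity)
        linarith
      have h6 : K ≤ k' ^ (-(1 : ℝ)) := by
        refine hKk'.trans (rpow_neg_le hkp' hkl' ?_)
        have h1 := x.vi_lt
        have h2 := x.v_lt
        have h3 := x.v1_eq
        have h4 := x.vi_pos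
        linarith
      have h7 : κl * (c1 / 2) * (k' ^ (3 * d + 3)) ^ 2 ≥
          cl * (c1 / 2) * k' ^ (6 * (d : ℝ) + 7) := by
        have h8 : k' ^ (6 * (d : ℝ) + 7) = k' * (k' ^ (3 * d + 3)) ^ 2 := by
          rw [← pow_mul, ← pow_succ', ← Real.rpow_natCast]
          congr 1
          push_cast
          ring
        rw [h8]
        have h9 : cl * k' * (c1 / 2) * (k' ^ (3 * d + 3)) ^ 2 ≤
            κl * (c1 / 2) * (k' ^ (3 * d + 3)) ^ 2 :=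
          mul_le_mul_of_nonneg_right (mul_le_mul_of_nonneg_right g8 (by positivity))
            (by positivity)
        linarith
      refine le_trans ?_ h7
      calc K * (Real.exp (2 * (m0 * k') * cw / 4) *
            Real.exp (-(2 * (m0 * k') * (lkRf k0 x.al j : ℝ) / 4)))
          ≤ k' ^ (-(1 : ℝ)) * (Real.exp 1 * Real.exp (-(m0 / 2) * k' ^ (-(1 / 2 : ℝ)))) := by
            refine mul_le_mul h6 ?_ (by positivity) (by positivity)
            exact mul_le_mul h4 h5 (by positivity) (by positivity)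
        _ = cl * (c1 / 2) * (2 * Real.exp 1 / (cl * c1) * k' ^ (-(1 : ℝ)) *
            Real.exp (-(m0 / 2) * k' ^ (-(1 / 2 : ℝ)))) := by
            field_simp
        _ ≤ cl * (c1 / 2) * k' ^ (6 * (d : ℝ) + 7) :=
            mul_le_mul_of_nonneg_left hE (by positivity) }

end Pool.Agent.AND
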