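import Pool.Agent.AND.LeakNum
import Pool.Agent.AND.LeakGoal

/-!
# AND / LeakNumG: `LeakNumGoal` FOR THE NUMBERS `nmL`

`nmL x c q k0 j` = all numbers of the leak tests of super-stage `j + 1`; `leak_num_goal`: `LeakNumGoal` for every property `LP`
of the law which gives `Lw.D / Lw.ep ≤ CDE` and `2 ^ (n1 + 1) / 2 ^ nf ≤ kap k0 n1 ^ lce d`; `lkF` = a function with this property.
-/

set_option autoImplicit false

open Finset Filter Topology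

noncomputable section

namespace Pool.Agent.AND

open Pool.Agent.Kin Pool.Agent.APS Pool.Agent.ANM Pool.Agent.ANC Pool.Agent.ANB Pool.Agent.ANQ

variable {d : ℕ} {CM : ℝ}

/-- THE NUMBERS of the leak tests of super-stage `j + 1` -/
def nmL (x : Ex d CM) (c : Cst) (q : Csts) (k0 : ℝ) (j : ℕ) : LkN where
  c0 := lkc k0 x.al q.w j
  N := 8 * lkn0 d x.J k0 x.al q.w j
  dl := lkDs d k0 x.al j + 2
  dl' := lkDp k0 x.al x.v2 j
  nb := lknb d x.J k0 x.al q.w j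
  n0 := lkn0 d x.J k0 x.al q.w j
  nP := lknP d x.J k0 x.al x.v2 q.w j
  Δs := lkDs d k0 x.al j
  Rf := lkRf k0 x.al j
  cw := ⌊ks k0 x.al (j + 2) ^ (-(1 / 2 : ℝ))⌋₊
  μ := lkmu d (q.c1 / 2) (c.cl / 4) (c.cs / 4) * ks k0 x.al (j + 2)
  ε1 := ks k0 x.al (j + 2) ^ (13 * x.vi)
  δ1 := q.c1 / 2 / 8
  c := lkcc (q.c1 / 2)
  C := (ks k0 x.al (j + 1))⁻¹
  γ := lkcc (q.c1 / 2) / (8 * lkn0 d x.J k0 x.al q.w j)
  δ := ks k0 x.al (j + 2) ^ (3 * d + 3)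
  Ml := (ks k0 x.al (j + 1))⁻¹ ^ lb4 d
  ϑ := 1 / 2
  ε := ((ks k0 x.al (j + 1))⁻¹ ^ lce d)⁻¹
  Lc := (ks k0 x.al (j + 1))⁻¹

/-- the facts about the law -/
def LkLaw (LP : LawP) (d : ℕ) (CDE : ℝ) : Prop :=
  ∀ (X : Type) [Fintype X] (Lw : Law X) (Sf : SiteF X) (lam : ℝ) (n1 : ℕ), 0 < lam →
    LP X Lw Sf lam n1 → Lw.D / Lw.ep ≤ CDE ∧
      2 ^ (n1 + 1) / 2 ^ Lw.nf ≤ kap ((lam * (2 * Lw.S)) ^ 2) n1 ^ lce d

theorem kap_sqrt {a : ℝ} (ha : 0 < a) (n : ℕ) :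
    (kap (a ^ 2) n) ^ (-(1 / 2 : ℝ)) = 2 ^ n / a := by
  have h1 : kap (a ^ 2) n = (a / 2 ^ n) ^ 2 := by
    have h4 : (4 : ℝ) ^ n = (2 ^ n) ^ 2 := by
      rw [← pow_mul, mul_comm, pow_mul]
      norm_num
    unfold kap
    rw [one_div, inv_pow, h4, div_pow, div_eq_mul_inv]
  have h2 : 0 < a / 2 ^ n := by positivity
  rw [h1, Real.rpow_neg (by positivity), ← Real.sqrt_eq_rpow, Real.sqrt_sq h2.le, inv_div]

/-- **THE NUMBERS OF THE LEAK BOUND** -/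
theorem leak_num_goal {LP : LawP} (x : Ex d CM) (hd : 3 ≤ d) (hCM : (lcmE d : ℝ) ≤ CM) {c : Cst}
    {q : Csts} (hq : q.Ok c) {CDE K1 : ℝ} (hL : LkLaw LP d CDE) (hK1 : 0 ≤ K1) :
    LeakNumGoal LP x c q K1 (nmL x c q) := by
  have hw := hq.w.le
  have hw1 := hq.w1
  have hc1 : 0 < q.c1 / 2 := by
    have := hq.c1
    positivity
  have hcl : 0 < c.cl / 4 := by
    have := hq.pos.cl
    positivity
  have hcs : 0 < c.cs / 4 := by
    have := hq.pos.cs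
    positivity
  have hcg : 0 < q.cg c := by
    have h1 := hq.pos.cl
    have h2 := hq.c1
    unfold Csts.cg
    positivity
  have hvi := x.vi_pos
  have hLm : ∀ᶠ k0 in 𝓝[>] (0 : ℝ), LmS q.C' (q.cg c) k0 + 1 ≤ k0 ^ (-(1 / 2 : ℝ)) := by
    filter_upwards [ev_ge (2 * (q.C' * (1 + Real.log (1 / q.cg c)) + 1))
        (show (0 : ℝ) < 1 / 2 by norm_num) 0,
      ev_ge (2 * q.C') (show (0 : ℝ) < 1 / 2 by norm_num) 1,
      ev_small (show (0 : ℝ) < 1 / 2 by norm_num)] with k0 h1 h2 hk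
    rw [LmS_eq _ hcg hk.1]
    rw [pow_zero, mul_one] at h1
    rw [pow_one] at h2
    linarith only [h1, h2]
  filter_upwards [lOk_tor x hd hCM hw hw1, cK_small x hd hCM hw hw1,
    lkNum_tor x hd hCM hw hw1 hc1,
    lkFN_tor x hd hCM (C1 := 2 * q.C1) hw hw1 hc1 hcl hcs,
    lk_prob d x.J (by omega) x.J1 x.al2 hw hw1 hK1, hLm,
    ev_le (C := 1) (b := x.vi / 2) (by positivity) (show 0 < q.c1 / 2 / 16 by positivity) 0,
    ev_all (ev_ge (2 * |CDE|) (show (0 : ℝ) < 1 / 2 by norm_num) 0) x.al,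
    ev_small (show (0 : ℝ) < 1 / 2 by norm_num)] with k0 g1 g2 g3 g4 g5 g6 g7 g8 hk N _ X _ _ Lw
      Sf lam E es g0 gam Lm M H j hj
  have hk0 := hk.1
  have hk1 : k0 < 1 := by linarith only [hk.2]
  obtain ⟨a1, a2, a3⟩ := g1 N Lw.nf j
  obtain ⟨b1, b2⟩ := g2 N Lw.nf j
  obtain ⟨hLD, hLn⟩ := hL X Lw Sf lam _ H.hlam H.law
  have hlvj : ∀ i, i ≤ M + 1 → (min (lv k0 x.al i) Lw.nf) = lv k0 x.al i := by
    intro i hi
    exact min_eq_left (((lv_mono hk0 hk1 x.al2).monotone hi).trans H.dat.lv)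
  rw [pow_zero, mul_one, one_mul] at g7
  have g8 := g8 (j + 1)
  rw [pow_zero, mul_one] at g8
  have hkp : 0 < ks k0 x.al (j + 1) := ks_pos hk0 x.al (j + 1)
  have hkl : ks k0 x.al (j + 1) ≤ 1 := (ks_le hk0 x.al _).trans hk1.le
  refine ⟨?_, g5 j⟩
  have hlam2 : 0 < lam * (2 * Lw.S) := by
    have h1 := H.hlam
    have h2 := Lw.S0
    positivity
  exact {
    hc0 := b2
    hO := a1
    hr := a2
    hnb := le_rfl
    hn0 := le_rfl
    hnP := le_rfl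
    hN := by
      refine g4 j _ _ _ _ _ rfl le_rfl rfl le_rfl rfl ?_ ?_ ?_ ?_ ?_
      · show Lm + 1 ≤ _
        rw [H.hLm]
        exact g6
      · show 0 + k0 ^ (x.vi / 2) ≤ _
        rw [zero_add]
        exact g7
      · show c.cl / 4 * ks k0 x.al (j + 2) ≤ c.cl * kap k0 (min (lv k0 x.al (j + 1 + 1)) Lw.nf + 1)
        rw [hlvj (j + 1 + 1) (by omega), kap_succ]
        have : ks k0 x.al (j + 2) = kap k0 (lv k0 x.al (j + 1 + 1)) := rfl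
        rw [this]
        exact (le_of_eq (by ring))
      · show c.cs / 4 * ks k0 x.al (j + 2) ≤ c.cs * kap k0 (min (lv k0 x.al (j + 1 + 1)) Lw.nf + 1)
        rw [hlvj (j + 1 + 1) (by omega), kap_succ]
        have : ks k0 x.al (j + 2) = kap k0 (lv k0 x.al (j + 1 + 1)) := rfl
        rw [this]
        exact (le_of_eq (by ring))
      · exact Nat.floor_le (Real.rpow_nonneg (ks_pos hk0 x.al (j + 2)).le _)
    hΔs := le_rfl
    hRf := by
      show lkRf k0 x.al j + hR k0 x.al x.v2 (j + 1) + 1 ≤ lkDp k0 x.al x.v2 j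
      unfold lkDp
      omega
    hcw := Nat.le_floor b1
    hn := g3 j
    hdg := by
      show Lw.D / Lw.ep * (2 ^ min (lv k0 x.al (j + 1)) Lw.nf *
        (3 * ((ks k0 x.al (j + 1))⁻¹ ^ lce d)⁻¹ / lam) / Lw.S +
          2 ^ (min (lv k0 x.al (j + 1)) Lw.nf + 1) / 2 ^ Lw.nf) ≤
        6 * (ks k0 x.al (j + 1))⁻¹ * ((ks k0 x.al (j + 1))⁻¹ ^ lce d)⁻¹
      rw [hlvj (j + 1) (by omega)]
      set ε := ((ks k0 x.al (j + 1))⁻¹ ^ lce d)⁻¹ with hε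
      have hε0 : 0 < ε := by positivity
      have e1 : (2 : ℝ) ^ lv k0 x.al (j + 1) * (3 * ε / lam) / Lw.S =
          6 * ks k0 x.al (j + 1) ^ (-(1 / 2 : ℝ)) * ε := by
        have h1 : ks k0 x.al (j + 1) ^ (-(1 / 2 : ℝ)) =
            2 ^ lv k0 x.al (j + 1) / (lam * (2 * Lw.S)) := by
          rw [← kap_sqrt hlam2, ← H.dat.k]
          rfl
        have h2 := H.hlam.ne'
        have h3 := Lw.S0.ne'
        rw [h1]
        field_simp
        ring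
      have e2 : (2 : ℝ) ^ (lv k0 x.al (j + 1) + 1) / 2 ^ Lw.nf ≤ ε := by
        have h1 : (2 : ℝ) ^ (lv k0 x.al (j + 1) + 1) ≤ 2 ^ (lv k0 x.al (M + 1) + 1) :=
          pow_le_pow_right₀ (by norm_num)
            (Nat.succ_le_succ ((lv_mono hk0 hk1 x.al2).monotone (by omega)))
        refine (div_le_div_of_nonneg_right h1 (by positivity)).trans (hLn.trans ?_)
        rw [← H.dat.k, hε, inv_pow, inv_inv]
        exact pow_le_pow_left₀ (kap_pos hk0 _).le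
          (kap_anti hk0 ((lv_mono hk0 hk1 x.al2).monotone (by omega))) _
      have hQ : 1 ≤ ks k0 x.al (j + 1) ^ (-(1 / 2 : ℝ)) := one_le_rpow_neg hkp hkl (by norm_num)
      have hQ2 : ks k0 x.al (j + 1) ^ (-(1 / 2 : ℝ)) * ks k0 x.al (j + 1) ^ (-(1 / 2 : ℝ)) =
          (ks k0 x.al (j + 1))⁻¹ := by
        rw [← Real.rpow_add hkp, ← Real.rpow_neg_one]
        norm_num
      set Q := ks k0 x.al (j + 1) ^ (-(1 / 2 : ℝ)) with hQd
      rw [e1, ← hQ2]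
      have h1 : 0 ≤ Lw.D / Lw.ep := div_nonneg Lw.D0.le Lw.ep0.le
      calc Lw.D / Lw.ep * (6 * Q * ε + 2 ^ (lv k0 x.al (j + 1) + 1) / 2 ^ Lw.nf)
          ≤ Lw.D / Lw.ep * (6 * Q * ε + Q * ε) := by
            refine mul_le_mul_of_nonneg_left ?_ h1
            have h2 : 1 * ε ≤ Q * ε := mul_le_mul_of_nonneg_right hQ hε0.le
            linarith only [e2, h2]
        _ ≤ |CDE| * (7 * (Q * ε)) := by
            have h2 : 6 * Q * ε + Q * ε = 7 * (Q * ε) := by ring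
            rw [h2]
            exact mul_le_mul_of_nonneg_right (hLD.trans (le_abs_self _)) (by positivity)
        _ ≤ 6 * (Q * Q) * ε := by
            have h2 : |CDE| * 7 ≤ 6 * Q := by
              have := abs_nonneg CDE
              linarith only [g8, this, hQ]
            calc |CDE| * (7 * (Q * ε)) = |CDE| * 7 * (Q * ε) := by ring
              _ ≤ 6 * Q * (Q * ε) := mul_le_mul_of_nonneg_right h2 (by positivity)
              _ = _ := by ring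
    hsp := by
      have h1 : (lam * (2 * Lw.S)) ^ 2 ≤ 1 := by
        rw [← H.dat.k]
        exact hk1.le
      exact (sq_le_one_iff₀ hlam2.le).1 h1 }

/-- sizes of the numbers, for the insertion theorem -/
theorem nmL_bd (x : Ex d CM) (hd : 3 ≤ d) (hCM : (lcmE d : ℝ) ≤ CM) {c : Cst} {q : Csts}
    (hw : 0 ≤ q.w) (hw1 : q.w ≤ 1) :
    ∀ᶠ k0 in 𝓝[>] (0 : ℝ), ∀ j : ℕ,
      (nmL x c q k0 j).Ml * (2 * (d : ℝ)) ^ 2 * ((nmL x c q k0 j).nb : ℝ) ^ 2 ≤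
        ks k0 x.al (j + 2) ^ (-x.v1) ∧
      ((nmL x c q k0 j).nb : ℝ) ≤ ks k0 x.al (j + 2) ^ (-x.v1) ∧
      ((nmL x c q k0 j).c0 : ℝ) ≤ 12 * ks k0 x.al (j + 2) ^ (-x.v1) ∧
      1 ≤ (nmL x c q k0 j).nb ∧ 0 < (nmL x c q k0 j).Ml ∧
      4 * (((nmL x c q k0 j).N + 1) * ((nmL x c q k0 j).dl + (nmL x c q k0 j).c0) +
        (nmL x c q k0 j).c0 + 1) ≤ hR k0 x.al x.v2 (j + 1) := by
  filter_upwards [lk_K d x.J (by omega) x.J1 x.al hw hw1,
    lk_K2 d x.J (by omega) x.J1 x.al hw hw1 one_pos 1 x.s (lb1_s x hd),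
    lk_len x hd hCM x.J1 hw hw1, ev_small (show (0 : ℝ) < 1 / 2 by norm_num)] with k0 h1 h2 h3
      hk j
  obtain ⟨a1, a2, a3, a4, a5, a6, a7, a8⟩ := h1 j
  obtain ⟨b1, b2, b3, b4⟩ := h2 j
  obtain ⟨e1, e2, e3, e4, e5⟩ := h3 j
  have hk0 := hk.1
  have hk1 : k0 < 1 := by linarith only [hk.2]
  have hKpos : 0 < (ks k0 x.al (j + 1))⁻¹ := inv_pos.2 (ks_pos hk0 x.al (j + 1))
  have hKn : ∀ n : ℕ, n ≤ lcmE d → (ks k0 x.al (j + 1))⁻¹ ^ n ≤ ks k0 x.al (j + 2) ^ (-x.v1) := by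
    intro n hn
    apply Kpow_le x hk0 hk1.le j
    have : (n : ℝ) ≤ (lcmE d : ℝ) := by exact_mod_cast hn
    linarith only [this, hCM]
  refine ⟨b3.trans (hKn _ le_rfl), a7.trans (hKn _ ?_), ?_, a6, by
    show 0 < (ks k0 x.al (j + 1))⁻¹ ^ lb4 d
    positivity, e1⟩
  · unfold lcmE
    omega
  · refine a3.trans (mul_le_mul_of_nonneg_left (hKn _ ?_) (by norm_num))
    unfold lcmE lb4
    omega

/-- digits needed -/
def lkF (κS : ℝ) (d : ℕ) (lam : ℝ) (n1 : ℕ) : ℕ :=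
  ⌈Real.logb 2 (2 ^ (n1 + 1) / kap ((lam * (2 * κS)) ^ 2) n1 ^ lce d)⌉₊

theorem lkF_spec {κS : ℝ} (hS : 0 < κS) (d : ℕ) {lam : ℝ} (hl : 0 < lam) {n1 nf : ℕ}
    (h : lkF κS d lam n1 ≤ nf) :
    2 ^ (n1 + 1) / 2 ^ nf ≤ kap ((lam * (2 * κS)) ^ 2) n1 ^ lce d := by
  have hk : 0 < kap ((lam * (2 * κS)) ^ 2) n1 := kap_pos (by positivity) n1
  have h1 : Real.logb 2 (2 ^ (n1 + 1) / kap ((lam * (2 * κS)) ^ 2) n1 ^ lce d) ≤ nf := by
    exact (Nat.le_ceil _).trans (Nat.cast_le.2 h)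
  rw [Real.logb_le_iff_le_rpow (by norm_num) (by positivity), Real.rpow_natCast] at h1
  rw [div_le_iff₀ (by positivity)] at h1 ⊢
  linarith only [h1]

end Pool.Agent.AND
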