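import Pool.Agent.AND.LeakMed
import Pool.Agent.ANQ.Markov

/-! # AND LEAKPROC: the joint leak bound for the process

(1) `cur_same`, `icur_at`: two configurations of the class at the start of super-stage `j` which are equal at a site `x` whose
cell is not frozen (for both) have the same status at `x` in the loop of the insertions, as long as `x` is not in the
neighbourhood of an inserted cluster.
(2) `leak_fl`: for different clusters `F i` of static sites: probability (conditional on the class at the start of super-stage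
`j`) that all leak tests of `F i` are made and fail. -/

set_option autoImplicit false

open Matrix Finset

noncomputable section

namespace Pool.Agent.AND

open Pool.Agent.Kin Pool.Agent.APS Pool.Agent.ANP Pool.Agent.ANQ Pool.Agent.ANL

variable {T X : Type} [Fintype T] [DecidableEq T] [Fintype X] [DecidableEq X]
variable {g : ANQ.Geo T} {A : ANQ.Ana T X}

/-! ### the status of a site whose cell is not frozen -/

theorem sameAt_freeze {π π' : Prof T} {v v' : T → X} {N N' : Finset T} {x : T}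
    (h : SameAt π π' x) (hx : x ∈ N) (hx' : x ∈ N') :
    SameAt (freeze A π v N) (freeze A π' v' N') x := by
  have e1 : x ∈ (freeze A π v N).act ↔ x ∈ π.act :=
    ⟨fun h1 => (mem_inter.1 h1).1, fun h1 => mem_inter.2 ⟨h1, hx⟩⟩
  have e2 : x ∈ (freeze A π' v' N').act ↔ x ∈ π'.act :=
    ⟨fun h1 => (mem_inter.1 h1).1, fun h1 => mem_inter.2 ⟨h1, hx'⟩⟩
  refine ⟨h.lev, e1.trans (h.act.trans e2.symm), h.rd, h.ine, ?_⟩
  rcases h.ns with h1 | h1 | h1
  · exact Or.inl (e1.2 h1)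
  · exact Or.inr (Or.inl h1)
  · exact Or.inr (Or.inr h1)

theorem mem_weak {n : ℕ} {v : T → X} {B : Finset T} {x : T} :
    x ∈ weak A n v B ↔ x ∈ B ∧ A.wk n (v x) := by
  classical
  unfold weak
  exact mem_filter

theorem sameAt_raise {π π' : Prof T} {v v' : T → X} {n : ℕ} {L : Finset T} {x : T}
    (h : SameAt π π' x) (hv : v x = v' x) :
    SameAt (raise A π n L v) (raise A π' n L v') x := by
  have ha : x ∈ (raise A π n L v).act ↔ x ∈ π.act ∧ ¬ (x ∈ L ∧ A.wk n (v x)) := by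
    show x ∈ π.act \ weak A n v (π.act ∩ L) ↔ _
    rw [mem_sdiff, mem_weak, mem_inter]
    tauto
  have ha' : x ∈ (raise A π' n L v').act ↔ x ∈ π'.act ∧ ¬ (x ∈ L ∧ A.wk n (v' x)) := by
    show x ∈ π'.act \ weak A n v' (π'.act ∩ L) ↔ _
    rw [mem_sdiff, mem_weak, mem_inter]
    tauto
  have hi : x ∈ (raise A π n L v).ine ↔ x ∈ π.ine ∨ (x ∈ π.act ∧ x ∈ L ∧ A.wk n (v x)) := by
    show x ∈ π.ine ∪ weak A n v (π.act ∩ L) ↔ _
    rw [mem_union, mem_weak, mem_inter]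
    tauto
  have hi' : x ∈ (raise A π' n L v').ine ↔
      x ∈ π'.ine ∨ (x ∈ π'.act ∧ x ∈ L ∧ A.wk n (v' x)) := by
    show x ∈ π'.ine ∪ weak A n v' (π'.act ∩ L) ↔ _
    rw [mem_union, mem_weak, mem_inter]
    tauto
  refine ⟨?_, ?_, h.rd, ?_, ?_⟩
  · have e : ∀ (ρ : Prof T) (u : T → X), (raise A ρ n L u).lev x =
        if x ∈ ρ.act ∩ L then n else ρ.lev x := fun _ _ => rfl
    rw [e, e]
    simp only [mem_inter, h.act, h.lev]
  · rw [ha, ha', h.act, hv]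
  · rw [hi, hi', h.act, h.ine, hv]
  · rw [ha, hi]
    show _ ∨ x ∈ π.rd ∨ _
    rcases h.ns with h1 | h1 | h1
    · by_cases h2 : x ∈ L ∧ A.wk n (v x)
      · exact Or.inr (Or.inr (Or.inr ⟨h1, h2⟩))
      · exact Or.inl ⟨h1, h2⟩
    · exact Or.inr (Or.inl h1)
    · exact Or.inr (Or.inr (Or.inl h1))

theorem sameAt_raise_off {π π' : Prof T} {v v' : T → X} {n n' : ℕ} {L L' : Finset T} {x : T}
    (h : SameAt π π' x) (hL : x ∉ L) (hL' : x ∉ L') :
    SameAt (raise A π n L v) (raise A π' n' L' v') x := by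
  have ha : ∀ (ρ : Prof T) (u : T → X) (m : ℕ) (K : Finset T), x ∉ K →
      (x ∈ (raise A ρ m K u).act ↔ x ∈ ρ.act) := by
    intro ρ u m K hK
    show x ∈ ρ.act \ weak A m u (ρ.act ∩ K) ↔ _
    rw [mem_sdiff, mem_weak, mem_inter]
    tauto
  have hi : ∀ (ρ : Prof T) (u : T → X) (m : ℕ) (K : Finset T), x ∉ K →
      (x ∈ (raise A ρ m K u).ine ↔ x ∈ ρ.ine) := by
    intro ρ u m K hK
    show x ∈ ρ.ine ∪ weak A m u (ρ.act ∩ K) ↔ _
    rw [mem_union, mem_weak, mem_inter]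
    tauto
  have hl : ∀ (ρ : Prof T) (u : T → X) (m : ℕ) (K : Finset T), x ∉ K →
      (raise A ρ m K u).lev x = ρ.lev x := by
    intro ρ u m K hK
    exact if_neg fun h => hK (mem_inter.1 h).2
  refine ⟨?_, ?_, h.rd, ?_, ?_⟩
  · rw [hl _ _ _ _ hL, hl _ _ _ _ hL', h.lev]
  · rw [ha _ _ _ _ hL, ha _ _ _ _ hL', h.act]
  · rw [hi _ _ _ _ hL, hi _ _ _ _ hL', h.ine]
  · rw [ha _ _ _ _ hL, hi _ _ _ _ hL]
    exact h.ns

theorem sameAt_refl {π : Prof T} {x : T} (h : x ∈ π.act ∨ x ∈ π.rd ∨ x ∈ π.ine) :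
    SameAt π π x := ⟨rfl, Iff.rfl, Iff.rfl, Iff.rfl, h⟩

variable [Nonempty T]

/-- same status during the reading of a super-stage -/
theorem cur_same (j : ℕ) (S : ANQ.St T) {v v' : T → X} {x : T}
    (hx : x ∈ S.pi.act ∨ x ∈ S.pi.rd ∨ x ∈ S.pi.ine) (hv : v x = v' x) (i : ℕ)
    (hf : g.cor j x ∉ (g.cur A j S v i).fz) (hf' : g.cor j x ∉ (g.cur A j S v' i).fz) :
    SameAt (g.cur A j S v i).pi (g.cur A j S v' i).pi x := by
  induction i with
  | zero =>
    refine sameAt_freeze (sameAt_refl hx) ?_ ?_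
    · rw [mem_compl, Geo.mem_sites]
      exact hf
    · rw [mem_compl, Geo.mem_sites]
      exact hf'
  | succ i ih =>
    have h1 : g.cor j x ∉ (g.cur A j S v i).fz := fun h => hf (Geo.stp_fz h)
    have h1' : g.cor j x ∉ (g.cur A j S v' i).fz := fun h => hf' (Geo.stp_fz h)
    have ih' := ih h1 h1'
    rw [Geo.cur_succ] at hf hf' ⊢
    rw [Geo.cur_succ]
    -- one step for one configuration
    have key : ∀ u : T → X, g.cor j x ∉ (g.stp A j i (g.cur A j S u i) u).fz →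
        (g.cor j x = g.sL j i →
          g.stp A j i (g.cur A j S u i) u = ⟨g.up A j i (g.cur A j S u i).pi u,
            (g.cur A j S u i).fz⟩) ∧
        (g.cor j x ≠ g.sL j i → SameAt (g.cur A j S u i).pi
          (g.stp A j i (g.cur A j S u i) u).pi x ∨ ¬ (x ∈ (g.cur A j S u i).pi.act ∨
            x ∈ (g.cur A j S u i).pi.rd ∨ x ∈ (g.cur A j S u i).pi.ine)) := by
      intro u hu
      constructor
      · intro hxL
        by_cases hz : g.sL j i ∈ (g.cur A j S u i).fz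
        · exact absurd (Geo.stp_fz (hxL ▸ hz)) hu
        · by_cases hacc : A.ACC j i (g.cur A j S u i).pi u
          · exact Geo.stp_of_acc hz hacc
          · rw [Geo.stp_of_rej hz hacc, ← hxL] at hu
            exact absurd (mem_insert_self _ _) hu
      · intro hxL
        by_cases hns : x ∈ (g.cur A j S u i).pi.act ∨ x ∈ (g.cur A j S u i).pi.rd ∨
            x ∈ (g.cur A j S u i).pi.ine
        · left
          by_cases hz : g.sL j i ∈ (g.cur A j S u i).fz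
          · rw [Geo.stp_of_mem hz]
            exact sameAt_refl hns
          · have hxc : x ∉ g.cell j (g.sL j i) := fun h => hxL (Geo.mem_cell.1 h)
            by_cases hacc : A.ACC j i (g.cur A j S u i).pi u
            · rw [Geo.stp_of_acc hz hacc]
              have h2 : SameAt (raise A (g.cur A j S u i).pi 0 ∅ u)
                  (g.up A j i (g.cur A j S u i).pi u) x :=
                sameAt_raise_off (sameAt_refl hns) (notMem_empty x) hxc
              refine ⟨?_, ?_, Iff.rfl, ?_, hns⟩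
              · exact (if_neg fun h => notMem_empty x (mem_inter.1 h).2).symm.trans h2.lev
              · refine Iff.trans ?_ h2.act
                show _ ↔ x ∈ (g.cur A j S u i).pi.act \ weak A 0 u ((g.cur A j S u i).pi.act ∩ ∅)
                rw [mem_sdiff, mem_weak, mem_inter]
                simp
              · refine Iff.trans ?_ h2.ine
                show _ ↔ x ∈ (g.cur A j S u i).pi.ine ∪ weak A 0 u ((g.cur A j S u i).pi.act ∩ ∅)
                rw [mem_union, mem_weak, mem_inter]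
                simp
            · rw [Geo.stp_of_rej hz hacc]
              have hxN : x ∈ (g.cell j (g.sL j i))ᶜ := mem_compl.2 hxc
              refine ⟨rfl, ?_, Iff.rfl, Iff.rfl, hns⟩
              exact ⟨fun h => mem_inter.2 ⟨h, hxN⟩, fun h => (mem_inter.1 h).1⟩
        · exact Or.inr hns
    by_cases hxL : g.cor j x = g.sL j i
    · rw [(key v hf).1 hxL, (key v' hf').1 hxL]
      exact sameAt_raise ih' hv
    · have h3 := (key v hf).2 hxL
      have h3' := (key v' hf').2 hxL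
      have hns := ih'.ns
      have hns' : x ∈ (g.cur A j S v' i).pi.act ∨ x ∈ (g.cur A j S v' i).pi.rd ∨
          x ∈ (g.cur A j S v' i).pi.ine := by
        rcases hns with h | h | h
        · exact Or.inl (ih'.act.1 h)
        · exact Or.inr (Or.inl (ih'.rd.1 h))
        · exact Or.inr (Or.inr (ih'.ine.1 h))
      have h4 := h3.resolve_right (not_not.2 hns)
      have h4' := h3'.resolve_right (not_not.2 hns')
      refine ⟨h4.lev.symm.trans (ih'.lev.trans h4'.lev), h4.act.symm.trans (ih'.act.trans h4'.act),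
        h4.rd.symm.trans (ih'.rd.trans h4'.rd), h4.ine.symm.trans (ih'.ine.trans h4'.ine), ?_⟩
      rcases hns with h | h | h
      · exact Or.inl (h4.act.1 h)
      · exact Or.inr (Or.inl (h4.rd.1 h))
      · exact Or.inr (Or.inr (h4.ine.1 h))

/-- in the loop of the insertions nothing changes outside the neighbourhoods of the inserted clusters -/
theorem icur_at (j : ℕ) (S : ANQ.St T) (v : T → X) (k : ℕ) {x : T}
    (hx : ∀ F ∈ (g.icur A j S v k).don, x ∉ g.nbhd (g.R j) F) :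
    (g.icur A j S v k).pi.lev x = (g.fin A j S v).pi.lev x ∧
      (x ∈ (g.icur A j S v k).pi.act ↔ x ∈ (g.fin A j S v).pi.act) ∧
      (x ∈ (g.icur A j S v k).pi.rd ↔ x ∈ (g.fin A j S v).pi.rd) ∧
      (x ∈ (g.icur A j S v k).pi.ine ↔ x ∈ (g.fin A j S v).pi.ine) ∧
      (g.icur A j S v k).pi.sg x = (g.fin A j S v).pi.sg x := by
  induction k with
  | zero => exact ⟨rfl, Iff.rfl, Iff.rfl, Iff.rfl, rfl⟩
  | succ m ih =>
    have h0 : ∀ F ∈ (g.icur A j S v m).don, x ∉ g.nbhd (g.R j) F := fun F hF =>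
      hx F ((Geo.icur_mono (g := g) (A := A) j S v (Nat.le_succ m)).2.1 hF)
    obtain ⟨i1, i2, i3, i4, i5⟩ := ih h0
    by_cases h : m < (g.ilist A j S v).length
    · rw [Geo.icur_succ_of_lt j S v m h] at hx ⊢
      by_cases h' : A.LK j S (g.icur A j S v m).don (g.icur A j S v m).pi
          ((g.ilist A j S v)[m]) v
      · rw [Geo.istp_of_pos h'] at hx ⊢
        have hxn := hx _ (mem_insert_self _ _)
        refine ⟨(if_neg hxn).trans i1, ?_, ?_, ?_, (if_neg hxn).trans i5⟩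
        · refine Iff.trans ?_ i2
          exact ⟨fun h => (mem_sdiff.1 h).1, fun h => mem_sdiff.2 ⟨h, hxn⟩⟩
        · refine Iff.trans ?_ i3
          exact ⟨fun h => (mem_union.1 h).resolve_right hxn, fun h => mem_union_left _ h⟩
        · refine Iff.trans ?_ i4
          exact ⟨fun h => (mem_sdiff.1 h).1, fun h => mem_sdiff.2 ⟨h, hxn⟩⟩
      · rw [Geo.istp_of_neg h'] at hx ⊢
        exact ⟨i1, i2, i3, i4, i5⟩
    · rw [Geo.icur_succ_of_not_lt j S v m h] at hx ⊢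
      exact ⟨i1, i2, i3, i4, i5⟩

/-- a kept cluster has been tested and the test has failed -/
theorem fl_test (j : ℕ) (S : ANQ.St T) (v : T → X) (k : ℕ) {F : Finset T}
    (hF : F ∈ (g.icur A j S v k).fl) : ∃ m, ∃ h : m < (g.ilist A j S v).length,
      (g.ilist A j S v)[m] = F ∧
        ¬ A.LK j S (g.icur A j S v m).don (g.icur A j S v m).pi F v := by
  induction k with
  | zero => exact absurd hF (notMem_empty F)
  | succ m ih =>
    by_cases h : m < (g.ilist A j S v).length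
    · rw [Geo.icur_succ_of_lt j S v m h] at hF
      by_cases h' : A.LK j S (g.icur A j S v m).don (g.icur A j S v m).pi
          ((g.ilist A j S v)[m]) v
      · rw [Geo.istp_of_pos h'] at hF
        exact ih hF
      · rw [Geo.istp_of_neg h'] at hF
        rcases mem_insert.1 hF with h1 | h1
        · exact ⟨m, h, h1.symm, by rw [h1]; exact h'⟩
        · exact ih h1
    · rw [Geo.icur_succ_of_not_lt j S v m h] at hF
      exact ih hF

theorem sameAt_read {π π' : Prof T} {nf : ℕ} {U : Finset T} {x : T} (h : SameAt π π' x) :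
    SameAt (read π nf U) (read π' nf U) x := by
  by_cases hU : x ∈ U
  · refine ⟨(if_pos hU).trans (if_pos hU).symm, ?_, ?_, ?_, Or.inr (Or.inl (mem_union_right _ hU))⟩
    · exact ⟨fun h1 => absurd hU (mem_sdiff.1 h1).2, fun h1 => absurd hU (mem_sdiff.1 h1).2⟩
    · exact ⟨fun _ => mem_union_right _ hU, fun _ => mem_union_right _ hU⟩
    · exact ⟨fun h1 => absurd hU (mem_sdiff.1 h1).2, fun h1 => absurd hU (mem_sdiff.1 h1).2⟩
  · have ea : ∀ ρ : Prof T, x ∈ (read ρ nf U).act ↔ x ∈ ρ.act := fun ρ =>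
      ⟨fun h1 => (mem_sdiff.1 h1).1, fun h1 => mem_sdiff.2 ⟨h1, hU⟩⟩
    have er : ∀ ρ : Prof T, x ∈ (read ρ nf U).rd ↔ x ∈ ρ.rd := fun ρ =>
      ⟨fun h1 => (mem_union.1 h1).resolve_right hU, fun h1 => mem_union_left _ h1⟩
    have ei : ∀ ρ : Prof T, x ∈ (read ρ nf U).ine ↔ x ∈ ρ.ine := fun ρ =>
      ⟨fun h1 => (mem_sdiff.1 h1).1, fun h1 => mem_sdiff.2 ⟨h1, hU⟩⟩
    refine ⟨?_, ?_, ?_, ?_, ?_⟩
    · exact (if_neg hU).trans (h.lev.trans (if_neg hU).symm)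
    · rw [ea, ea, h.act]
    · rw [er, er, h.rd]
    · rw [ei, ei, h.ine]
    · rw [ea, er, ei]
      exact h.ns

/-- the class as a box -/
def Kc (q : ℕ → X → ℤ) (π : Prof T) (v : T → X) : T → Set X := fun x =>
  {a | (x ∈ π.act → q (π.lev x) a = q (π.lev x) (v x)) ∧ (x ∉ π.act → a = v x)}

omit [Fintype T] [Fintype X] [DecidableEq X] [Nonempty T] in
theorem Bx_Kc (q : ℕ → X → ℤ) (π : Prof T) (v : T → X) : Bx (Kc q π v) = Cls q π v := by
  ext v'
  constructor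
  · intro h
    exact ⟨fun x hx => (h x).1 hx, fun x hx => (h x).2 hx⟩
  · intro h x
    exact ⟨fun hx => h.1 x hx, fun hx => h.2 x hx⟩

/-- the geometry of one cluster -/
structure LkDom (T : Type) (N : ℕ) where
  D0 : Finset T
  Dt : Finset T
  P : Finset T
  D : Fin N → Finset T

/-- what is known on the medium `M1` (profile `π` with the annulus `U` read) in which the leak test of `F` has been made and
has failed -/
structure LkTest (H : Matrix T T ℂ) (Y : Sys X) (nf : ℕ) (π : Prof T) (v : T → X)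
    (F U : Finset T) {N : ℕ} (E : LkDom T N) (g0 : ℂ) (δ1 c C γ δ M : ℝ) (M1 : Med T) : Prop where
  med : IsMed H Y (read π nf U) v M1
  im : ∀ x, (M1.b x).im ≤ 0
  dis : Disjoint (read π nf U).act (read π nf U).rd
  h1 : ∀ x ∈ E.P, x ∉ E.D0 → x ∈ (read π nf U).act → ‖rsc H M1.b x x - g0‖ ≤ δ1
  apr : LkApr H E.Dt E.P E.D M1.b c C γ δ
  lev : ∃ y ∈ bdy H E.Dt, ¬ LevLe H M1.b F y M

/-- numbers of the leak theorem -/
structure LkNum (N nb n0 nP : ℕ) (h0 c1 δ1 ϑ c C γ δ M ε Lc : ℝ) : Prop where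
  hc1 : 0 < c1
  hδ1 : 0 ≤ δ1
  hϑ1 : 4 * δ1 ≤ ϑ * c1
  hδc : 2 * δ1 ≤ c1
  hϑ0 : 0 ≤ ϑ
  hϑ2 : ϑ ≤ 1 / 2
  hc : 0 < c
  hcc : c ≤ 1
  hC : 2 ≤ C
  hγ0 : 0 ≤ γ
  hγ : N * γ ≤ c
  hδ0 : 0 ≤ δ
  hM0 : 0 < M
  hM : (48 * C ^ 3 * h0 * nb / (c * ε)) ^ 2 ≤ M
  hδ : 48 * C ^ 3 * h0 ^ 3 * nb ^ 2 * nP * δ ≤ c * ε
  hε : 0 < ε
  hε1 : ε ≤ 1
  hLc : 1 ≤ Lc
  hn0 : 1 ≤ n0
  hnb : 1 ≤ nb
  hN : N = 8 * n0
  hs : (12 * nb * Lc) ^ 8 * (360 * n0) ^ 2 * ε ≤ 1

/-- THE JOINT LEAK BOUND: conditional probability that all clusters `F i` are tested and fail -/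
theorem leak_fl {w : T → X → ℝ} (hw : IsLaw w) {H : Matrix T T ℂ} (hH : RealSym H) {Y : Sys X}
    (heta : 0 ≤ Y.eta) (hkk : ∀ n a, 0 ≤ Y.kk n a) (j : ℕ) (S : ANQ.St T) (v0 : T → X)
    {I : Type} [Fintype I] [DecidableEq I] (F : I → Finset T) {N nb n0 nP : ℕ}
    (E : I → LkDom T N) {g0 : ℂ} {h0 c1 δ1 ϑ c C γ δ M ε Lc : ℝ} (hg0 : c1 ≤ g0.im)
    (hn : LkNum N nb n0 nP h0 c1 δ1 ϑ c C γ δ M ε Lc)
    (hG : ∀ i, LkGeo H (F i) (E i).D0 (E i).Dt (E i).P (E i).D h0 nb n0 nP)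
    (hdis : ∀ i i', i ≠ i' → Disjoint (E i).P (E i').P)
    (hS : ∀ i, ∀ x ∈ (E i).P, x ∉ (E i).D0 → x ∈ S.pi.act ∨ x ∈ S.pi.rd ∨ x ∈ S.pi.ine)
    (hsurf : ∀ i k, ∀ x ∈ bdy H ((E i).D k), x ∈ g.nbhd (g.R j) (F i) \ F i)
    (hfz : ∀ v ∈ Cls A.q S.pi v0, ∀ i, F i ∈ (g.ifin A j S v).fl →
      ∀ x ∈ (E i).P, x ∉ (E i).D0 → g.cor j x ∉ (g.fin A j S v).fz)
    (hdon : ∀ v ∈ Cls A.q S.pi v0, ∀ i, F i ∈ (g.ifin A j S v).fl → ∀ m,
      ∀ hm : m < (g.ilist A j S v).length, (g.ilist A j S v)[m] = F i →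
      ∀ F' ∈ (g.icur A j S v m).don, ∀ x ∈ (E i).P, x ∉ (E i).D0 → x ∉ g.nbhd (g.R j) F')
    (htest : ∀ v ∈ Cls A.q S.pi v0, ∀ i, F i ∈ (g.ifin A j S v).fl → ∀ m,
      ∀ hm : m < (g.ilist A j S v).length, (g.ilist A j S v)[m] = F i →
      ¬ A.LK j S (g.icur A j S v m).don (g.icur A j S v m).pi (F i) v →
      ∃ M1, LkTest H Y g.nf (g.icur A j S v m).pi v (F i) (g.nbhd (g.R j) (F i) \ F i) (E i) g0
        δ1 c C γ δ M M1)
    (hf : ∀ i k, ∀ x ∈ bdy H ((E i).D k), ∀ a ∈ Kc A.q S.pi v0 x, ∀ a' ∈ Kc A.q S.pi v0 x,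
      |Y.hh g.nf a - Y.hh g.nf a'| ≤ 1)
    (hsb : ∀ i k, SmallBall w (Kc A.q S.pi v0) (fun _ a => Y.hh g.nf a) (bdy H ((E i).D k))
      (3 * ε) (6 * Lc * ε)) :
    Pr w ({v | ∀ i, F i ∈ (g.ifin A j S v).fl} ∩ Cls A.q S.pi v0) ≤
      (ε ^ (5 * n0)) ^ Fintype.card I * Pr w (Cls A.q S.pi v0) := by
  classical
  set K := Kc A.q S.pi v0 with hK
  have hBx : Bx K = Cls A.q S.pi v0 := Bx_Kc _ _ _
  -- choice of the index and of the medium
  have hch : ∀ i (v : T → X), ∃ p : ℕ × Med T, v ∈ Bx K → F i ∈ (g.ifin A j S v).fl →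
      ∃ hm : p.1 < (g.ilist A j S v).length, (g.ilist A j S v)[p.1] = F i ∧
        LkTest H Y g.nf (g.icur A j S v p.1).pi v (F i) (g.nbhd (g.R j) (F i) \ F i) (E i) g0
          δ1 c C γ δ M p.2 := by
    intro i v
    by_cases h : v ∈ Bx K ∧ F i ∈ (g.ifin A j S v).fl
    · obtain ⟨m, hm, h1, h2⟩ := fl_test j S v _ h.2
      rw [hBx] at h
      obtain ⟨M1, h3⟩ := htest v h.1 i h.2 m hm h1 h2
      exact ⟨(m, M1), fun _ _ => ⟨hm, h1, h3⟩⟩
    · exact ⟨(0, ⟨∅, ∅, ∅, 0, 0⟩), fun h1 h2 => absurd ⟨h1, h2⟩ h⟩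
  choose p hp using hch
  set Gd : I → Set (T → X) := fun i => {v | F i ∈ (g.ifin A j S v).fl} with hGd
  set π : I → (T → X) → Prof T := fun i v =>
    read (g.icur A j S v (p i v).1).pi g.nf (g.nbhd (g.R j) (F i) \ F i) with hπ
  have hL : ∀ i, LkDat H (F i) (E i).D0 (E i).Dt (E i).P (E i).D K (fun _ a => Y.hh g.nf a)
      (fun v => (p i v).2.b) (Gd i) ϑ c C δ := by
    intro i
    refine lkdat_med hH (hG i) (π := π i) (M := fun v => (p i v).2) (g0 := g0) (c1 := c1)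
      (δ1 := δ1) (γ := γ) hn.hc1 hn.hδ1 hn.hϑ1 hg0 hn.hδc heta hkk ?_ ?_ ?_ ?_ ?_ ?_ (hf i) hn.hcc hn.hC
      hn.hγ0 hn.hγ ?_
    · intro v hv hvG
      obtain ⟨hm, h1, h2⟩ := hp i v hv hvG
      exact h2.med
    · intro v hv hvG
      obtain ⟨hm, h1, h2⟩ := hp i v hv hvG
      exact h2.im
    · intro v hv hvG x hx hr
      obtain ⟨hm, h1, h2⟩ := hp i v hv hvG
      exact Finset.disjoint_left.1 h2.dis hx hr
    · intro v hv hvG v' hv' hvG' x hxP hxD hvv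
      obtain ⟨hm, h1, h2⟩ := hp i v hv hvG
      obtain ⟨hm', h1', h2'⟩ := hp i v' hv' hvG'
      have hvc : v ∈ Cls A.q S.pi v0 := hBx ▸ hv
      have hvc' : v' ∈ Cls A.q S.pi v0 := hBx ▸ hv'
      have h3 := cur_same (g := g) (A := A) j S (hS i x hxP hxD) hvv (g.ns j)
        (hfz v hvc i hvG x hxP hxD) (hfz v' hvc' i hvG' x hxP hxD)
      have h4 := icur_at (g := g) (A := A) j S v (p i v).1
        (fun F' hF' => hdon v hvc i hvG _ hm h1 F' hF' x hxP hxD)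
      have h4' := icur_at (g := g) (A := A) j S v' (p i v').1
        (fun F' hF' => hdon v' hvc' i hvG' _ hm' h1' F' hF' x hxP hxD)
      refine sameAt_read ⟨?_, ?_, ?_, ?_, ?_⟩
      · exact h4.1.trans (h3.lev.trans h4'.1.symm)
      · exact h4.2.1.trans (h3.act.trans h4'.2.1.symm)
      · exact h4.2.2.1.trans (h3.rd.trans h4'.2.2.1.symm)
      · exact h4.2.2.2.1.trans (h3.ine.trans h4'.2.2.2.1.symm)
      · rcases h3.ns with h | h | h
        · exact Or.inl (h4.2.1.2 h)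
        · exact Or.inr (Or.inl (h4.2.2.1.2 h))
        · exact Or.inr (Or.inr (h4.2.2.2.1.2 h))
    · intro v hv hvG k x hx
      have hxU := hsurf i k x hx
      refine ⟨mem_union_right _ hxU, fun h => (mem_sdiff.1 h).2 hxU, if_pos hxU⟩
    · intro v hv hvG
      obtain ⟨hm, h1, h2⟩ := hp i v hv hvG
      exact h2.h1
    · intro v hv hvG
      obtain ⟨hm, h1, h2⟩ := hp i v hv hvG
      exact h2.apr
  have hmain := leak_abs hw (K := K) (f := fun _ a => Y.hh g.nf a) (F := F)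
    (D0 := fun i => (E i).D0) (Dt := fun i => (E i).Dt) (P := fun i => (E i).P)
    (D := fun i => (E i).D) hG hdis hL hn.hc hn.hcc (by linarith [hn.hC]) hn.hϑ0 hn.hϑ2 hn.hδ0 hn.hε
    hn.hε1 hn.hLc hn.hM0 hn.hM hn.hδ hn.hn0 hn.hN hn.hnb hsb hn.hs
  rw [hBx] at hmain
  refine (Pr_mono hw ?_).trans hmain
  rintro v ⟨h1, h2⟩
  refine ⟨fun i => ⟨h1 i, ?_⟩, h2⟩
  obtain ⟨hm, h3, h4⟩ := hp i v (by rw [hBx]; exact h2) (h1 i)
  exact h4.lev


omit [Fintype X] [DecidableEq X] in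
theorem mem_clu {j : ℕ} {S : ANQ.St T} {x y : T} :
    y ∈ g.clu j S x ↔ y ∈ stat S.pi ∧ g.Con (g.rho j) (stat S.pi) x y := by
  classical
  unfold Geo.clu
  exact mem_filter

omit [Fintype T] [DecidableEq T] [Fintype X] [DecidableEq X] [Nonempty T] in
theorem con_symm (hd : ∀ x y, g.dist x y = g.dist y x) {r : ℕ} {B : Finset T} {x y : T}
    (h : g.Con r B x y) : g.Con r B y x := by
  unfold Geo.Con at h ⊢
  induction h with
  | refl => exact Relation.ReflTransGen.refl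
  | tail _ h2 ih => exact Relation.ReflTransGen.head ⟨h2.2.1, h2.1, by rw [hd]; exact h2.2.2⟩ ih

omit [Fintype X] [DecidableEq X] in
theorem clu_eq (hd : ∀ x y, g.dist x y = g.dist y x) {j : ℕ} {S : ANQ.St T} {x y : T}
    (hy : y ∈ g.clu j S x) : g.clu j S y = g.clu j S x := by
  have h1 := (mem_clu.1 hy).2
  ext z
  rw [mem_clu, mem_clu]
  refine and_congr_right fun _ => ⟨fun h => ?_, fun h => ?_⟩
  · exact Relation.ReflTransGen.trans h1 h
  · exact Relation.ReflTransGen.trans (con_symm hd h1) h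

theorem fl_clu (hd : ∀ x y, g.dist x y = g.dist y x) {j : ℕ} {S : ANQ.St T} {v : T → X} {k : ℕ}
    {F : Finset T} (hF : F ∈ (g.icur A j S v k).fl) {x : T} (hx : x ∈ F) :
    g.clu j S x = F ∧ x ∈ stat S.pi := by
  classical
  have h1 := (Geo.icur_sub (g := g) (A := A) j S v k).2 hF
  unfold Geo.cands at h1
  obtain ⟨y, _, rfl⟩ := mem_image.1 h1
  exact ⟨clu_eq hd hx, (mem_clu.1 hx).1⟩

/-- THE LEAK BOUND FOR CELLS: conditional probability that all cells of `C` contain a site of a cluster with failing test;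
`E F` = domains of the cluster `F`, `V` = number of sites of a cell -/
theorem leak_cells {w : T → X → ℝ} (hw : IsLaw w) {H : Matrix T T ℂ} (hH : RealSym H)
    {Y : Sys X} (heta : 0 ≤ Y.eta) (hkk : ∀ n a, 0 ≤ Y.kk n a)
    (hd : ∀ x y, g.dist x y = g.dist y x) (j : ℕ) (S : ANQ.St T)
    (v0 : T → X) {N nb n0 nP : ℕ} (E : Finset T → LkDom T N) {g0 : ℂ}
    {h0 c1 δ1 ϑ c C γ δ M ε Lc : ℝ} (hg0 : c1 ≤ g0.im)
    (hn : LkNum N nb n0 nP h0 c1 δ1 ϑ c C γ δ M ε Lc)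
    (hG : ∀ v ∈ Cls A.q S.pi v0, ∀ F ∈ (g.ifin A j S v).fl,
      LkGeo H F (E F).D0 (E F).Dt (E F).P (E F).D h0 nb n0 nP)
    (hdis : ∀ v ∈ Cls A.q S.pi v0, ∀ F ∈ (g.ifin A j S v).fl, ∀ F' ∈ (g.ifin A j S v).fl,
      F ≠ F' → Disjoint (E F).P (E F').P)
    (hS : ∀ v ∈ Cls A.q S.pi v0, ∀ F ∈ (g.ifin A j S v).fl, ∀ x ∈ (E F).P, x ∉ (E F).D0 →
      x ∈ S.pi.act ∨ x ∈ S.pi.rd ∨ x ∈ S.pi.ine)
    (hsurf : ∀ v ∈ Cls A.q S.pi v0, ∀ F ∈ (g.ifin A j S v).fl, ∀ k,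
      ∀ x ∈ bdy H ((E F).D k), x ∈ g.nbhd (g.R j) F \ F)
    (hfz : ∀ v ∈ Cls A.q S.pi v0, ∀ F ∈ (g.ifin A j S v).fl,
      ∀ x ∈ (E F).P, x ∉ (E F).D0 → g.cor j x ∉ (g.fin A j S v).fz)
    (hdon : ∀ v ∈ Cls A.q S.pi v0, ∀ F ∈ (g.ifin A j S v).fl, ∀ m,
      ∀ hm : m < (g.ilist A j S v).length, (g.ilist A j S v)[m] = F →
      ∀ F' ∈ (g.icur A j S v m).don, ∀ x ∈ (E F).P, x ∉ (E F).D0 → x ∉ g.nbhd (g.R j) F')
    (htest : ∀ v ∈ Cls A.q S.pi v0, ∀ F ∈ (g.ifin A j S v).fl, ∀ m,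
      ∀ hm : m < (g.ilist A j S v).length, (g.ilist A j S v)[m] = F →
      ¬ A.LK j S (g.icur A j S v m).don (g.icur A j S v m).pi F v →
      ∃ M1, LkTest H Y g.nf (g.icur A j S v m).pi v F (g.nbhd (g.R j) F \ F) (E F) g0
        δ1 c C γ δ M M1)
    (hf : ∀ v ∈ Cls A.q S.pi v0, ∀ F ∈ (g.ifin A j S v).fl, ∀ k, ∀ x ∈ bdy H ((E F).D k),
      ∀ a ∈ Kc A.q S.pi v0 x, ∀ a' ∈ Kc A.q S.pi v0 x, |Y.hh g.nf a - Y.hh g.nf a'| ≤ 1)
    (hsb : ∀ v ∈ Cls A.q S.pi v0, ∀ F ∈ (g.ifin A j S v).fl, ∀ k,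
      SmallBall w (Kc A.q S.pi v0) (fun _ a => Y.hh g.nf a) (bdy H ((E F).D k))
      (3 * ε) (6 * Lc * ε))
    (Cs : Finset T) {V : ℕ} (hV : ∀ L ∈ Cs, (g.cell j L).card ≤ V)
    (hdiff : ∀ v ∈ Cls A.q S.pi v0, ∀ F ∈ (g.ifin A j S v).fl, ∀ x ∈ F, ∀ y ∈ F,
      g.cor j x ∈ Cs → g.cor j y ∈ Cs → g.cor j x = g.cor j y) :
    Pr w ({v | ∀ L ∈ Cs, L ∈ g.lkS A j S v} ∩ Cls A.q S.pi v0) ≤
      (V * ε ^ (5 * n0)) ^ Cs.card * Pr w (Cls A.q S.pi v0) := by
  classical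
  have hPC := Pr_nonneg hw (Cls A.q S.pi v0)
  have hε0 := hn.hε
  -- covering by the choices of one site in every cell
  set Ch : Finset (∀ _ : ↥Cs, T) := Fintype.piFinset fun L : ↥Cs => g.cell j L.1 with hCh
  set B : (↥Cs → T) → Set (T → X) := fun y =>
    {v | ∀ L : ↥Cs, g.clu j S (y L) ∈ (g.ifin A j S v).fl ∧ y L ∈ g.clu j S (y L)} with hB
  have hcov : ({v | ∀ L ∈ Cs, L ∈ g.lkS A j S v} ∩ Cls A.q S.pi v0) ⊆
      ⋃ y ∈ Ch, (B y ∩ Cls A.q S.pi v0) := by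
    rintro v ⟨h1, h2⟩
    have h3 : ∀ L : ↥Cs, ∃ x, g.cor j x = L.1 ∧ g.clu j S x ∈ (g.ifin A j S v).fl ∧
        x ∈ g.clu j S x := by
      intro L
      have h4 := h1 L.1 L.2
      unfold Geo.lkS at h4
      obtain ⟨-, x, hx, hxL⟩ := mem_filter.1 h4
      unfold Geo.keep2 at hx
      obtain ⟨F, hF, hxF⟩ := mem_biUnion.1 hx
      obtain ⟨h5, h6⟩ := fl_clu hd (k := g.ni A j S v) hF (show x ∈ F from hxF)
      exact ⟨x, hxL, by rw [h5]; exact hF, Geo.mem_clu_self h6⟩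
    choose y hy1 hy2 hy3 using h3
    refine Set.mem_iUnion₂.2 ⟨y, ?_, fun L => ⟨hy2 L, hy3 L⟩, h2⟩
    exact Fintype.mem_piFinset.2 fun L => Geo.mem_cell.2 (hy1 L)
  have hone : ∀ y ∈ Ch, Pr w (B y ∩ Cls A.q S.pi v0) ≤
      (ε ^ (5 * n0)) ^ Cs.card * Pr w (Cls A.q S.pi v0) := by
    intro y hy
    have hyc : ∀ L : ↥Cs, g.cor j (y L) = L.1 := fun L =>
      Geo.mem_cell.1 (Fintype.mem_piFinset.1 hy L)
    by_cases hne : ∃ u, u ∈ B y ∩ Cls A.q S.pi v0
    · obtain ⟨u, hu1, hu2⟩ := hne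
      have hinj : ∀ L L' : ↥Cs, L ≠ L' → g.clu j S (y L) ≠ g.clu j S (y L') := by
        intro L L' hLL heq
        have h1 := hdiff u hu2 _ (hu1 L).1 (y L) (hu1 L).2 (y L') (heq ▸ (hu1 L').2)
          (by rw [hyc]; exact L.2) (by rw [hyc]; exact L'.2)
        rw [hyc, hyc] at h1
        exact hLL (Subtype.ext h1)
      have h2 := leak_fl (g := g) (A := A) hw hH heta hkk j S v0
        (fun L : ↥Cs => g.clu j S (y L)) (fun L => E (g.clu j S (y L))) hg0 hn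
        (fun L => hG u hu2 _ (hu1 L).1)
        (fun L L' hLL => hdis u hu2 _ (hu1 L).1 _ (hu1 L').1 (hinj L L' hLL))
        (fun L => hS u hu2 _ (hu1 L).1) (fun L => hsurf u hu2 _ (hu1 L).1)
        (fun v hv L hL => hfz v hv _ hL) (fun v hv L hL => hdon v hv _ hL)
        (fun v hv L hL => htest v hv _ hL) (fun L => hf u hu2 _ (hu1 L).1)
        (fun L => hsb u hu2 _ (hu1 L).1)
      rw [Fintype.card_coe] at h2
      refine (Pr_mono hw ?_).trans h2
      rintro v ⟨h3, h4⟩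
      exact ⟨fun L => (h3 L).1, h4⟩
    · have h0 : B y ∩ Cls A.q S.pi v0 = ∅ := by
        ext v
        simp only [Set.mem_empty_iff_false, iff_false]
        exact fun hv => hne ⟨v, hv⟩
      rw [h0, Pr_empty]
      positivity
  refine (Pr_mono hw hcov).trans ((Pr_iUnion_le hw Ch _).trans ((sum_le_sum hone).trans ?_))
  rw [sum_const, nsmul_eq_mul, mul_pow, ← mul_assoc]
  refine mul_le_mul_of_nonneg_right ?_ hPC
  refine mul_le_mul_of_nonneg_right ?_ (by positivity)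
  have h1 : Ch.card ≤ V ^ Cs.card := by
    rw [hCh, Fintype.card_piFinset]
    refine (Finset.prod_le_prod' fun (L : ↥Cs) _ => hV L.1 L.2).trans ?_
    rw [Finset.prod_const, Finset.card_univ, Fintype.card_coe]
  exact_mod_cast h1

end Pool.Agent.AND
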