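import Pool.Agent.AND.LeakProc

/-! # AND LEAKSUB: the joint leak bound, comparison domains depending on the configuration

`leak_flK`: `leak_fl` in any sub-box of the class.  `leak_flP`: the comparison domain `P i v` may depend on the coordinates of
`v` off the surfaces (general laws: it avoids the sites which become inert during the super-stage). -/

set_option autoImplicit false

open Matrix Finset

noncomputable section

namespace Pool.Agent.AND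

open Pool.Agent.Kin Pool.Agent.APS Pool.Agent.ANP Pool.Agent.ANQ Pool.Agent.ANL

variable {T X : Type} [Fintype T] [DecidableEq T] [Fintype X] [DecidableEq X]
variable {g : ANQ.Geo T} {A : ANQ.Ana T X} [Nonempty T]

/-- THE JOINT LEAK BOUND in a sub-box of the class -/
theorem leak_flK {w : T → X → ℝ} (hw : IsLaw w) {H : Matrix T T ℂ} (hH : RealSym H) {Y : Sys X}
    (heta : 0 ≤ Y.eta) (hkk : ∀ n a, 0 ≤ Y.kk n a) (j : ℕ) (S : ANQ.St T) (K : T → Set X)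
    {I : Type} [Fintype I] [DecidableEq I] (F : I → Finset T) {N nb n0 nP : ℕ}
    (E : I → LkDom T N) {g0 : ℂ} {h0 c1 δ1 ϑ c C γ δ M ε Lc : ℝ} (hg0 : c1 ≤ g0.im)
    (hn : LkNum N nb n0 nP h0 c1 δ1 ϑ c C γ δ M ε Lc)
    (hG : ∀ i, LkGeo H (F i) (E i).D0 (E i).Dt (E i).P (E i).D h0 nb n0 nP)
    (hdis : ∀ i i', i ≠ i' → Disjoint (E i).P (E i').P)
    (hS : ∀ i, ∀ x ∈ (E i).P, x ∉ (E i).D0 → x ∈ S.pi.act ∨ x ∈ S.pi.rd ∨ x ∈ S.pi.ine)
    (hsurf : ∀ i k, ∀ x ∈ bdy H ((E i).D k), x ∈ g.nbhd (g.R j) (F i) \ F i)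
    (hfz : ∀ v ∈ Bx K, ∀ i, F i ∈ (g.ifin A j S v).fl →
      ∀ x ∈ (E i).P, x ∉ (E i).D0 → g.cor j x ∉ (g.fin A j S v).fz)
    (hdon : ∀ v ∈ Bx K, ∀ i, F i ∈ (g.ifin A j S v).fl → ∀ m,
      ∀ hm : m < (g.ilist A j S v).length, (g.ilist A j S v)[m] = F i →
      ∀ F' ∈ (g.icur A j S v m).don, ∀ x ∈ (E i).P, x ∉ (E i).D0 → x ∉ g.nbhd (g.R j) F')
    (htest : ∀ v ∈ Bx K, ∀ i, F i ∈ (g.ifin A j S v).fl → ∀ m,
      ∀ hm : m < (g.ilist A j S v).length, (g.ilist A j S v)[m] = F i →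
      ¬ A.LK j S (g.icur A j S v m).don (g.icur A j S v m).pi (F i) v →
      ∃ M1, LkTest H Y g.nf (g.icur A j S v m).pi v (F i) (g.nbhd (g.R j) (F i) \ F i) (E i) g0
        δ1 c C γ δ M M1)
    (hf : ∀ i k, ∀ x ∈ bdy H ((E i).D k), ∀ a ∈ K x, ∀ a' ∈ K x,
      |Y.hh g.nf a - Y.hh g.nf a'| ≤ 1)
    (hsb : ∀ i k, SmallBall w K (fun _ a => Y.hh g.nf a) (bdy H ((E i).D k))
      (3 * ε) (6 * Lc * ε)) :
    Pr w ({v | ∀ i, F i ∈ (g.ifin A j S v).fl} ∩ Bx K) ≤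
      (ε ^ (5 * n0)) ^ Fintype.card I * Pr w (Bx K) := by
  classical
  -- choice of the index and of the medium
  have hch : ∀ i (v : T → X), ∃ p : ℕ × Med T, v ∈ Bx K → F i ∈ (g.ifin A j S v).fl →
      ∃ hm : p.1 < (g.ilist A j S v).length, (g.ilist A j S v)[p.1] = F i ∧
        LkTest H Y g.nf (g.icur A j S v p.1).pi v (F i) (g.nbhd (g.R j) (F i) \ F i) (E i) g0
          δ1 c C γ δ M p.2 := by
    intro i v
    by_cases h : v ∈ Bx K ∧ F i ∈ (g.ifin A j S v).fl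
    · obtain ⟨m, hm, h1, h2⟩ := fl_test j S v _ h.2
      obtain ⟨M1, h3⟩ := htest v h.1 i h.2 m hm h1 h2
      exact ⟨(m, M1), fun _ _ => ⟨hm, h1, h3⟩⟩
    · exact ⟨(0, ⟨∅, ∅, ∅, 0, 0⟩), fun h1 h2 => absurd ⟨h1, h2⟩ h⟩
  choose p hp using hch
  set Gd : I → Set (T → X) := fun i => {v | F i ∈ (g.ifin A j S v).fl} with hGd
  set π : I → (T → X) → Prof T := fun i v =>
    read (g.icur A j S v (p i v).1).pi g.nf (g.nbhd (g.R j) (F i) \ F i) with hπ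
  have hL : ∀ i, LkDat H (F i) (E i).D0 (E i).Dt (E i).P (E i).D K (fun _ a => Y.hh g.nf a)
      (fun v => (p i v).2.b) (Gd i) ϑ c C δ := by
    intro i
    refine lkdat_med hH (hG i) (π := π i) (M := fun v => (p i v).2) (g0 := g0) (c1 := c1)
      (δ1 := δ1) (γ := γ) hn.hc1 hn.hδ1 hn.hϑ1 hg0 hn.hδc heta hkk ?_ ?_ ?_ ?_ ?_ ?_ (hf i) hn.hcc hn.hC
      hn.hγ0 hn.hγ ?_
    · intro v hv hvG
      obtain ⟨hm, h1, h2⟩ := hp i v hv hvG
      exact h2.med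
    · intro v hv hvG
      obtain ⟨hm, h1, h2⟩ := hp i v hv hvG
      exact h2.im
    · intro v hv hvG x hx hr
      obtain ⟨hm, h1, h2⟩ := hp i v hv hvG
      exact Finset.disjoint_left.1 h2.dis hx hr
    · intro v hv hvG v' hv' hvG' x hxP hxD hvv
      obtain ⟨hm, h1, h2⟩ := hp i v hv hvG
      obtain ⟨hm', h1', h2'⟩ := hp i v' hv' hvG'
      have h3 := cur_same (g := g) (A := A) j S (hS i x hxP hxD) hvv (g.ns j)
        (hfz v hv i hvG x hxP hxD) (hfz v' hv' i hvG' x hxP hxD)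
      have h4 := icur_at (g := g) (A := A) j S v (p i v).1
        (fun F' hF' => hdon v hv i hvG _ hm h1 F' hF' x hxP hxD)
      have h4' := icur_at (g := g) (A := A) j S v' (p i v').1
        (fun F' hF' => hdon v' hv' i hvG' _ hm' h1' F' hF' x hxP hxD)
      refine sameAt_read ⟨?_, ?_, ?_, ?_, ?_⟩
      · exact h4.1.trans (h3.lev.trans h4'.1.symm)
      · exact h4.2.1.trans (h3.act.trans h4'.2.1.symm)
      · exact h4.2.2.1.trans (h3.rd.trans h4'.2.2.1.symm)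
      · exact h4.2.2.2.1.trans (h3.ine.trans h4'.2.2.2.1.symm)
      · rcases h3.ns with h | h | h
        · exact Or.inl (h4.2.1.2 h)
        · exact Or.inr (Or.inl (h4.2.2.1.2 h))
        · exact Or.inr (Or.inr (h4.2.2.2.1.2 h))
    · intro v hv hvG k x hx
      have hxU := hsurf i k x hx
      refine ⟨mem_union_right _ hxU, fun h => (mem_sdiff.1 h).2 hxU, if_pos hxU⟩
    · intro v hv hvG
      obtain ⟨hm, h1, h2⟩ := hp i v hv hvG
      exact h2.h1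
    · intro v hv hvG
      obtain ⟨hm, h1, h2⟩ := hp i v hv hvG
      exact h2.apr
  have hmain := leak_abs hw (K := K) (f := fun _ a => Y.hh g.nf a) (F := F)
    (D0 := fun i => (E i).D0) (Dt := fun i => (E i).Dt) (P := fun i => (E i).P)
    (D := fun i => (E i).D) hG hdis hL hn.hc hn.hcc (by linarith [hn.hC]) hn.hϑ0 hn.hϑ2 hn.hδ0 hn.hε
    hn.hε1 hn.hLc hn.hM0 hn.hM hn.hδ hn.hn0 hn.hN hn.hnb hsb hn.hs
  refine (Pr_mono hw ?_).trans hmain
  rintro v ⟨h1, h2⟩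
  refine ⟨fun i => ⟨h1 i, ?_⟩, h2⟩
  obtain ⟨hm, h3, h4⟩ := hp i v h2 (h1 i)
  exact h4.lev

/-- the domains with another comparison domain -/
def LkDom.setP {N : ℕ} (E : LkDom T N) (P : Finset T) : LkDom T N := ⟨E.D0, E.Dt, P, E.D⟩

/-- THE JOINT LEAK BOUND, comparison domains `P i v` -/
theorem leak_flP {w : T → X → ℝ} (hw : IsLaw w) {H : Matrix T T ℂ} (hH : RealSym H) {Y : Sys X}
    (heta : 0 ≤ Y.eta) (hkk : ∀ n a, 0 ≤ Y.kk n a) (j : ℕ) (S : ANQ.St T) (v0 : T → X)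
    {I : Type} [Fintype I] [DecidableEq I] (F : I → Finset T) {N nb n0 nP : ℕ}
    (E : I → LkDom T N) (P : I → (T → X) → Finset T) {g0 : ℂ}
    {h0 c1 δ1 ϑ c C γ δ M ε Lc : ℝ} (hg0 : c1 ≤ g0.im)
    (hn : LkNum N nb n0 nP h0 c1 δ1 ϑ c C γ δ M ε Lc)
    (hG : ∀ v ∈ Cls A.q S.pi v0, (∀ i, F i ∈ (g.ifin A j S v).fl) → ∀ i,
      LkGeo H (F i) (E i).D0 (E i).Dt (P i v) (E i).D h0 nb n0 nP)
    (hdis : ∀ v ∈ Cls A.q S.pi v0, (∀ i, F i ∈ (g.ifin A j S v).fl) → ∀ i i', i ≠ i' →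
      Disjoint (P i v) (P i' v))
    (hP : ∀ v ∈ Cls A.q S.pi v0, ∀ v' ∈ Cls A.q S.pi v0,
      (∀ x, (∀ i k, x ∉ bdy H ((E i).D k)) → v x = v' x) → ∀ i, P i v = P i v')
    (hS : ∀ v ∈ Cls A.q S.pi v0, ∀ i, F i ∈ (g.ifin A j S v).fl →
      ∀ x ∈ P i v, x ∉ (E i).D0 → x ∈ S.pi.act ∨ x ∈ S.pi.rd ∨ x ∈ S.pi.ine)
    (hsurf : ∀ i k, ∀ x ∈ bdy H ((E i).D k), x ∈ g.nbhd (g.R j) (F i) \ F i)
    (hfz : ∀ v ∈ Cls A.q S.pi v0, ∀ i, F i ∈ (g.ifin A j S v).fl →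
      ∀ x ∈ P i v, x ∉ (E i).D0 → g.cor j x ∉ (g.fin A j S v).fz)
    (hdon : ∀ v ∈ Cls A.q S.pi v0, ∀ i, F i ∈ (g.ifin A j S v).fl → ∀ m,
      ∀ hm : m < (g.ilist A j S v).length, (g.ilist A j S v)[m] = F i →
      ∀ F' ∈ (g.icur A j S v m).don, ∀ x ∈ P i v, x ∉ (E i).D0 → x ∉ g.nbhd (g.R j) F')
    (htest : ∀ v ∈ Cls A.q S.pi v0, ∀ i, F i ∈ (g.ifin A j S v).fl → ∀ m,
      ∀ hm : m < (g.ilist A j S v).length, (g.ilist A j S v)[m] = F i →
      ¬ A.LK j S (g.icur A j S v m).don (g.icur A j S v m).pi (F i) v →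
      ∃ M1, LkTest H Y g.nf (g.icur A j S v m).pi v (F i) (g.nbhd (g.R j) (F i) \ F i)
        ((E i).setP (P i v)) g0 δ1 c C γ δ M M1)
    (hf : ∀ i k, ∀ x ∈ bdy H ((E i).D k), ∀ a ∈ Kc A.q S.pi v0 x, ∀ a' ∈ Kc A.q S.pi v0 x,
      |Y.hh g.nf a - Y.hh g.nf a'| ≤ 1)
    (hsb : ∀ i k, SmallBall w (Kc A.q S.pi v0) (fun _ a => Y.hh g.nf a) (bdy H ((E i).D k))
      (3 * ε) (6 * Lc * ε)) :
    Pr w ({v | ∀ i, F i ∈ (g.ifin A j S v).fl} ∩ Cls A.q S.pi v0) ≤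
      (ε ^ (5 * n0)) ^ Fintype.card I * Pr w (Cls A.q S.pi v0) := by
  classical
  set K := Kc A.q S.pi v0 with hK
  have hBx : Bx K = Cls A.q S.pi v0 := Bx_Kc _ _ _
  set s : Finset T := univ.biUnion fun i => univ.biUnion fun k => bdy H ((E i).D k) with hs
  have hmem : ∀ x, x ∉ s ↔ ∀ i k, x ∉ bdy H ((E i).D k) := by
    intro x
    simp [hs]
  set r : (T → X) → (T → X) → Prop := fun v v' =>
    (v ∈ Bx K ↔ v' ∈ Bx K) ∧ ∀ x, x ∉ s → v x = v' x with hr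
  have hreq : Equivalence r := by
    refine ⟨fun v => ⟨Iff.rfl, fun _ _ => rfl⟩, ?_, ?_⟩
    · rintro v v' ⟨h1, h2⟩
      exact ⟨h1.symm, fun x hx => (h2 x hx).symm⟩
    · rintro v v' v'' ⟨h1, h2⟩ ⟨h3, h4⟩
      exact ⟨h1.trans h3, fun x hx => (h2 x hx).trans (h4 x hx)⟩
  rw [← hBx]
  refine cond_le r hreq (Bx K) _ ?_ _ ?_
  · rintro v hv v' ⟨h1, -⟩
    exact h1.1 hv
  intro u hu
  have hcls : {v' | r u v'} = Bx (sec K s u) := by
    rw [Bx_sec hu]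
    ext v
    constructor
    · rintro ⟨h1, h2⟩
      exact ⟨fun x hx => (h2 x hx).symm, h1.1 hu⟩
    · rintro ⟨h1, h2⟩
      exact ⟨⟨fun _ => h2, fun _ => hu⟩, fun x hx => (h1 x hx).symm⟩
  rw [hcls]
  by_cases hne : ∃ u1, u1 ∈ {v | ∀ i, F i ∈ (g.ifin A j S v).fl} ∩ Bx (sec K s u)
  · obtain ⟨u1, hu1, hu2⟩ := hne
    have hsecK : ∀ v ∈ Bx (sec K s u), v ∈ Cls A.q S.pi v0 := by
      intro v hv
      rw [Bx_sec hu] at hv
      rw [← hBx]
      exact hv.2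
    have hPv : ∀ v ∈ Bx (sec K s u), ∀ i, P i v = P i u1 := by
      intro v hv i
      refine hP v (hsecK v hv) u1 (hsecK u1 hu2) ?_ i
      intro x hx
      have h1 := (hmem x).2 hx
      rw [Bx_sec hu] at hv hu2
      exact (hv.1 x h1).trans (hu2.1 x h1).symm
    have hu1c := hsecK u1 hu2
    have hsub : ∀ i k, ∀ x ∈ bdy H ((E i).D k), sec K s u x = K x := by
      intro i k x hx
      have hxs : x ∈ s := by
        by_contra h
        exact (hmem x).1 h i k hx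
      unfold sec
      simp [hxs]
    refine leak_flK (g := g) (A := A) hw hH heta hkk j S (sec K s u) F
      (fun i => (E i).setP (P i u1)) hg0 hn (fun i => hG u1 hu1c hu1 i)
      (fun i i' h => hdis u1 hu1c hu1 i i' h) (fun i => hS u1 hu1c i (hu1 i)) hsurf ?_ ?_ ?_ ?_ ?_
    · intro v hv i hi x hx
      rw [show ((E i).setP (P i u1)).P = P i v from (hPv v hv i).symm] at hx
      exact hfz v (hsecK v hv) i hi x hx
    · intro v hv i hi m hm hmi F' hF' x hx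
      rw [show ((E i).setP (P i u1)).P = P i v from (hPv v hv i).symm] at hx
      exact hdon v (hsecK v hv) i hi m hm hmi F' hF' x hx
    · intro v hv i hi m hm hmi hlk
      rw [← hPv v hv i]
      exact htest v (hsecK v hv) i hi m hm hmi hlk
    · intro i k x hx a ha a' ha'
      have h1 := hsub i k x hx
      rw [h1] at ha ha'
      exact hf i k x hx a ha a' ha'
    · intro i k x hx t
      have h1 := hsub i k x hx
      rw [h1]
      exact hsb i k x hx t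
  · have h0 : {v | ∀ i, F i ∈ (g.ifin A j S v).fl} ∩ Bx (sec K s u) = ∅ := by
      ext v
      simp only [Set.mem_empty_iff_false, iff_false]
      exact fun hv => hne ⟨v, hv⟩
    rw [h0, Pr_empty]
    have := Pr_nonneg hw (Bx (sec K s u))
    have hε := hn.hε
    positivity

end Pool.Agent.AND
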