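import Pool.Agent.AND.StepH4G

/-! # AND / StepTop: [STEP] FROM THE ENGINE (owner helper79)

* `okGoal_law` : `OkGoal LP x c q`, every `LP` which gives `LawG κ F`;
* `okGoal_B` : `OkGoal (LawB κ F) x c q`, UNCONDITIONAL;
* `stepGoal_law` : `FrzGoal` ⇒ `StepGoal`, every `LP` which gives `LawG κ F`;
* `stepGoal_B` : the same for `LP = LawB κ F`. -/

set_option autoImplicit false

open Matrix Finset Filter Topology

noncomputable section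

namespace Pool.Agent.AND

open Pool.Agent.Kin Pool.Agent.APS Pool.Agent.ANM Pool.Agent.ANC Pool.Agent.ANB Pool.Agent.ANQ

variable {d : ℕ} {CM : ℝ}

/-- THE DETERMINISTIC HALF -/
theorem okGoal_law {LP : LawP} (x : Ex d CM) (c : Cst) (q : Csts) (κ : LawC) (F : ℝ → ℕ → ℕ)
    (hLP : ∀ (X : Type) [Fintype X] (Lw : Law X) (Sf : SiteF X) (lam : ℝ) (n1 : ℕ),
      LP X Lw Sf lam n1 → LawG κ F X Lw Sf lam n1)
    (hq : q.Ok c) (hCg : c.Cg = 5 / 2) (hcl1 : c.cl ≤ κ.cL) (hκ1 : κ.cL ≤ 1)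
    (hth : q.th ≤ κ.thL) (hSt : StC d c (2 * q.C1) (q.c1 / 2) (q.th / 4) (q.th / 4)) :
    OkGoal LP x c q :=
  okGoal_of x c q κ F hLP hq hCg hcl1 hκ1 hth hSt (h4Goal_all LP x hq hSt)

theorem stepGoal_law {LP : LawP} (x : Ex d CM) (c : Cst) (q : Csts) (κ : LawC) (F : ℝ → ℕ → ℕ)
    (hLP : ∀ (X : Type) [Fintype X] (Lw : Law X) (Sf : SiteF X) (lam : ℝ) (n1 : ℕ),
      LP X Lw Sf lam n1 → LawG κ F X Lw Sf lam n1)
    (hq : q.Ok c) (hCg : c.Cg = 5 / 2) (hcl1 : c.cl ≤ κ.cL) (hκ1 : κ.cL ≤ 1)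
    (hth : q.th ≤ κ.thL) (hSt : StC d c (2 * q.C1) (q.c1 / 2) (q.th / 4) (q.th / 4))
    {Cp Kp : ℝ} (hCp : 0 ≤ Cp) (hF : FrzGoal LP x c q Cp Kp) :
    StepGoal LP x c q Cp Kp :=
  stepGoal_of hSt.d0 x c q (fun X _ Lw Sf lam n1 h => (hLP X Lw Sf lam n1 h).b.nf1) hq hCp hF
    (okGoal_law x c q κ F hLP hq hCg hcl1 hκ1 hth hSt)

/-- THE DETERMINISTIC HALF FOR THE GENERAL LAWS -/
theorem okGoal_B (x : Ex d CM) (c : Cst) (q : Csts) (κ : LawC) (F : ℝ → ℕ → ℕ) (hκ : κ.Ok)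
    (hep : κ.ep < κ.D) (hq : q.Ok c) (hCg : c.Cg = 5 / 2) (hcl1 : c.cl ≤ κ.cL)
    (hth : q.th ≤ κ.thL) (hSt : StC d c (2 * q.C1) (q.c1 / 2) (q.th / 4) (q.th / 4)) :
    OkGoal (LawB κ F) x c q :=
  okGoal_law x c q κ F (fun _ _ _ _ _ _ h => lawG_of hκ h) hq hCg hcl1 (hκ.cL_lt_one hep).le hth
    hSt

/-- [STEP] FOR THE GENERAL LAWS -/
theorem stepGoal_B (x : Ex d CM) (c : Cst) (q : Csts) (κ : LawC) (F : ℝ → ℕ → ℕ) (hκ : κ.Ok)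
    (hep : κ.ep < κ.D) (hq : q.Ok c) (hCg : c.Cg = 5 / 2) (hcl1 : c.cl ≤ κ.cL)
    (hth : q.th ≤ κ.thL) (hSt : StC d c (2 * q.C1) (q.c1 / 2) (q.th / 4) (q.th / 4))
    {Cp Kp : ℝ} (hCp : 0 ≤ Cp) (hF : FrzGoal (LawB κ F) x c q Cp Kp) :
    StepGoal (LawB κ F) x c q Cp Kp :=
  stepGoal_law x c q κ F (fun _ _ _ _ _ _ h => lawG_of hκ h) hq hCg hcl1
    (hκ.cL_lt_one hep).le hth hSt hCp hF

end Pool.Agent.AND
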