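import Pool.Agent.AND.MainD
import Pool.Agent.AND.StepTop
import Pool.Agent.AND.LeakB

/-! # AND / MainA: `MainData` from the conditions on the constants, the engine and the numbers of the form fields -/

set_option autoImplicit false

open Matrix Finset Filter Topology

noncomputable section

namespace Pool.Agent.AND

open Pool.Agent.Kin Pool.Agent.APS Pool.Agent.ANM Pool.Agent.ANC Pool.Agent.ANB Pool.Agent.ANQ

variable {d : ℕ} {CM : ℝ}

/-- ALL CONDITIONS on the constants -/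
structure CondC (κ : LawC) (x : Ex d CM) (c : Cst) (q : Csts) : Prop where
  ok : q.Ok c
  st : StartC x c q.c1 q.C1 q.C
  Cg : c.Cg = 5 / 2
  cl : c.cl ≤ κ.cL
  th : q.th ≤ κ.thL
  StC : StC d c (2 * q.C1) (q.c1 / 2) (q.th / 4) (q.th / 4)
  Cc : 8 ≤ q.Cc
  dS : 2 * c.dS ≤ 1
  c1 : q.c1 ≤ 4
  b : 64 * c.b ≤ cνV (q.c1 / 2) (2 * q.C1) (q.th / 4) (cmu d c q)

theorem mainData_of {κ : LawC} (hκ : κ.Ok) (hep : κ.ep < κ.D) (x : Ex d CM) (hd : 3 ≤ d)
    (hCM : (lcmE d : ℝ) ≤ CM) {c : Cst} {q : Csts} (h : CondC κ x c q) {Cp : ℝ} (hCp : 0 ≤ Cp)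
    (hfrz : FrzGoal (LawB κ (lkF κ.S d)) x c q Cp x.Kp)
    (h4 : H4Goal (LawB κ (lkF κ.S d)) x c q (q.th / 4)) :
    Nonempty (MainData κ x q.c1 q.C1 q.C q.C') := by
  obtain ⟨h1, pm, h2, h3⟩ := leak_B hκ x hd hCM h.ok h.Cc h.dS h.c1 h.b
  have hcL := κ.cL_nonneg
  exact ⟨{
    c := c
    q := q
    F := lkF κ.S d
    nm := nmL x c q
    pm := pm
    Cp := Cp
    q1 := rfl
    q2 := rfl
    q3 := rfl
    q4 := rfl
    Cp0 := hCp
    ok := h.ok
    st := h.st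
    cl := h.cl.trans (by linarith)
    th := h.th
    frz := hfrz
    okg := okGoal_of x c q κ (lkF κ.S d) (fun _ _ _ _ _ _ h => lawG_of hκ h) h.ok h.Cg h.cl
      (hκ.cL_lt_one hep).le h.th h.StC h4
    leak := h1
    ins := h2
    h3 := h3 }⟩

end Pool.Agent.AND
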