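import Pool.Agent.AND.StepState

/-! # AND / StepFrame: FRAME OF THE PROOF OF [STEP] (owner helper79)

* `ClOk` : outcomes of the class whose candidate has no bad root;  `FrzO` : the frozen step is OK at the outcome;
* `FrzGoal` : the engine (probability of `¬ FrzO`);  `OkGoal` : `FrzO` ⇒ the candidate is accepted (deterministic);
* `stepGoal_of` : `FrzGoal`, `OkGoal` ⇒ `StepGoal`. -/

set_option autoImplicit false

open Matrix Finset Filter Topology

noncomputable section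

namespace Pool.Agent.AND

open Pool.Agent.Kin Pool.Agent.APS Pool.Agent.ANM Pool.Agent.ANC Pool.Agent.ANB Pool.Agent.ANQ

section defs

variable {d L : ℕ} [NeZero L] {X : Type} [Fintype X] [DecidableEq X]

/-- the outcome is in the class of `v`, the candidate has no bad root -/
structure ClOk (D : Dat d L X) (Lw : Law X) (j i : ℕ) (v ω : Tor d L → X) : Prop where
  cls : ∀ y ∈ D.stN j i v, Lw.q (D.g.sn j i) (ω y) = Lw.q (D.g.sn j i) (v y)
  rt : D.rt j (D.g.up D.ana j i (D.g.crun D.ana j i v).pi ((D.stN j i v).piecewise ω v)).ine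

/-- the frozen step is OK at the outcome `ω` -/
def FrzO (D : Dat d L X) (Lw : Law X) (lam : ℝ) (j i s : ℕ) (v : Tor d L → X)
    (M : Med (Tor d L)) (e3 : ℕ → ℝ) (al tt de : ℝ) (ω : Tor d L → X) : Prop :=
  Frz (tolAt D.P D.Sf (D.g.sn j i) (D.fi j i) (D.g.crun D.ana j i v).pi v M) M
    (digOf Lw lam (D.g.sn j i) (D.stN j i v) v)
    (tolAt D.P D.Sf (D.g.sn j i) (D.fi j i)
      (raise D.ana (D.g.crun D.ana j i v).pi (D.g.sn j i + 1) (D.g.cell j (D.g.sL j i))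
        ((D.stN j i v).piecewise ω v)) ((D.stN j i v).piecewise ω v) M).a
    (tolAt D.P D.Sf (D.g.sn j i) (D.fi j i)
      (raise D.ana (D.g.crun D.ana j i v).pi (D.g.sn j i + 1) (D.g.cell j (D.g.sL j i))
        ((D.stN j i v).piecewise ω v)) ((D.stN j i v).piecewise ω v) M).z
    e3 (nrB M s (D.g.sL j i)) al tt de (wkN D.ana (D.g.sn j i) (D.stN j i v) ω) ω

end defs

variable {d : ℕ} {CM : ℝ}

/-- [STEP], THE ENGINE: the probability that the frozen step is not OK -/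
def FrzGoal (LP : LawP) (x : Ex d CM) (c : Cst) (q : Csts) (Cp Kp : ℝ) : Prop :=
  ∀ᶠ k0 in 𝓝[>] (0 : ℝ), ∀ (N : ℕ) [NeZero N] (X : Type) [Fintype X] [DecidableEq X] (Lw : Law X)
    (Sf : SiteF X) (lam E es : ℝ) (g0 : ℂ) (gam Lm : ℝ) (M : ℕ),
    Ctx LP x c q k0 N Lw Sf lam E es g0 gam Lm M →
    ∀ (j i : ℕ) (v : Tor d N → X) (cc : ℕ) (Mm : Med (Tor d N)),
      ANB.Inv (datC x c q N Lw Sf lam E k0 es g0 gam Lm).g (fun _ => Kew Lw)
        (rj k0 x.al q.w j) ((datC x c q N Lw Sf lam E k0 es g0 gam Lm).g.crun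
          (datC x c q N Lw Sf lam E k0 es g0 gam Lm).ana j i v).pi v →
      SSt (datC x c q N Lw Sf lam E k0 es g0 gam Lm) k0 (q.th / 4) Lm
        (fun n => kap k0 n ^ (3 * x.vt)) x.al M j i v cc Mm →
      ANP.Pr (digOf Lw lam ((datC x c q N Lw Sf lam E k0 es g0 gam Lm).g.sn j i)
        ((datC x c q N Lw Sf lam E k0 es g0 gam Lm).stN j i v) v).P
        {ω | ClOk (datC x c q N Lw Sf lam E k0 es g0 gam Lm) Lw j i v ω ∧
          ¬ FrzO (datC x c q N Lw Sf lam E k0 es g0 gam Lm) Lw lam j i (side k0 x.al j) v Mm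
            (fun K => 12 * UK Lw lam ((datC x c q N Lw Sf lam E k0 es g0 gam Lm).g.sn j i) K *
              kap k0 ((datC x c q N Lw Sf lam E k0 es g0 gam Lm).g.sn j i) ^ (1 / 45 : ℝ))
            (kap k0 ((datC x c q N Lw Sf lam E k0 es g0 gam Lm).g.sn j i) ^ (9 / 256 : ℝ))
            (kap k0 ((datC x c q N Lw Sf lam E k0 es g0 gam Lm).g.sn j i) ^
              (-(7 / 8) + 3 / 4 * x.vt : ℝ))
            (30 * kap k0 ((datC x c q N Lw Sf lam E k0 es g0 gam Lm).g.sn j i) ^ (1 / 140 : ℝ))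
            ω} ≤
        Cp * kap k0 ((datC x c q N Lw Sf lam E k0 es g0 gam Lm).g.sn j i) ^ Kp

/-- [STEP], THE DETERMINISTIC HALF: an OK frozen step is accepted -/
def OkGoal (LP : LawP) (x : Ex d CM) (c : Cst) (q : Csts) : Prop :=
  ∀ᶠ k0 in 𝓝[>] (0 : ℝ), ∀ (N : ℕ) [NeZero N] (X : Type) [Fintype X] [DecidableEq X] (Lw : Law X)
    (Sf : SiteF X) (lam E es : ℝ) (g0 : ℂ) (gam Lm : ℝ) (M : ℕ),
    Ctx LP x c q k0 N Lw Sf lam E es g0 gam Lm M →
    ∀ (j i : ℕ) (v : Tor d N → X) (cc : ℕ) (Mm : Med (Tor d N)),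
      SSt (datC x c q N Lw Sf lam E k0 es g0 gam Lm) k0 (q.th / 4) Lm
        (fun n => kap k0 n ^ (3 * x.vt)) x.al M j i v cc Mm →
      ∀ ω, ClOk (datC x c q N Lw Sf lam E k0 es g0 gam Lm) Lw j i v ω →
        FrzO (datC x c q N Lw Sf lam E k0 es g0 gam Lm) Lw lam j i (side k0 x.al j) v Mm
          (fun K => 12 * UK Lw lam ((datC x c q N Lw Sf lam E k0 es g0 gam Lm).g.sn j i) K *
            kap k0 ((datC x c q N Lw Sf lam E k0 es g0 gam Lm).g.sn j i) ^ (1 / 45 : ℝ))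
          (kap k0 ((datC x c q N Lw Sf lam E k0 es g0 gam Lm).g.sn j i) ^ (9 / 256 : ℝ))
          (kap k0 ((datC x c q N Lw Sf lam E k0 es g0 gam Lm).g.sn j i) ^
            (-(7 / 8) + 3 / 4 * x.vt : ℝ))
          (30 * kap k0 ((datC x c q N Lw Sf lam E k0 es g0 gam Lm).g.sn j i) ^ (1 / 140 : ℝ))
          ω →
        ¬ (datC x c q N Lw Sf lam E k0 es g0 gam Lm).Fail j i
          ((datC x c q N Lw Sf lam E k0 es g0 gam Lm).g.crun
            (datC x c q N Lw Sf lam E k0 es g0 gam Lm).ana j i v).pi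
          (((datC x c q N Lw Sf lam E k0 es g0 gam Lm).stN j i v).piecewise ω v)

/-- [STEP] FROM THE ENGINE AND THE DETERMINISTIC HALF -/
theorem stepGoal_of {LP : LawP} (hd : 0 < d) (x : Ex d CM) (c : Cst) (q : Csts)
    (hnf : ∀ (X : Type) [Fintype X] (Lw : Law X) (Sf : SiteF X) (lam : ℝ) (n1 : ℕ),
      LP X Lw Sf lam n1 → n1 + 1 ≤ Lw.nf) (hq : q.Ok c) {Cp Kp : ℝ} (hCp : 0 ≤ Cp)
    (h1 : FrzGoal LP x c q Cp Kp) (h2 : OkGoal LP x c q) : StepGoal LP x c q Cp Kp := by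
  filter_upwards [h1, h2, ev_sst hd x c q hnf hq] with k0 h1 h2 h3 N _ X _ _ Lw Sf lam E es g0
    gam Lm M H j hj i hi v hinv
  obtain ⟨cc, Mm, hS⟩ := h3 N X Lw Sf lam E es g0 gam Lm M H j hj i hi v
  have h1 := h1 N X Lw Sf lam E es g0 gam Lm M H j i v cc Mm hinv hS
  have h2 := h2 N X Lw Sf lam E es g0 gam Lm M H j i v cc Mm hS
  set D := datC x c q N Lw Sf lam E k0 es g0 gam Lm with hD
  refine D.step_fin (Ok := {ω | ClOk D Lw j i v ω → FrzO D Lw lam j i (side k0 x.al j) v Mm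
      (fun K => 12 * UK Lw lam (D.g.sn j i) K * kap k0 (D.g.sn j i) ^ (1 / 45 : ℝ))
      (kap k0 (D.g.sn j i) ^ (9 / 256 : ℝ))
      (kap k0 (D.g.sn j i) ^ (-(7 / 8) + 3 / 4 * x.vt : ℝ))
      (30 * kap k0 (D.g.sn j i) ^ (1 / 140 : ℝ)) ω})
    H.inh.ns.cor H.inh.qok Lw H.hlam.le rfl ?_ v (fun _ => ?_) (fun _ ω hω hcl hrt => ?_)
  · exact mul_nonneg hCp (Real.rpow_nonneg (kap_pos H.hk0 _).le _)
  · refine le_trans (le_of_eq ?_) h1
    congr 1
    ext ω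
    simp only [Set.mem_compl_iff, Set.mem_ofPred_eq, Classical.not_imp]
  · exact h2 ω ⟨hcl, hrt⟩ (hω ⟨hcl, hrt⟩)

end Pool.Agent.AND
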