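import Pool.Agent.AND.Top4
import Pool.Agent.AND.LawB
import Pool.Agent.AND.StepFrame
import Pool.Agent.AND.InsGoal

/-! # AND / MainD: THE FINAL THEOREM FROM THE FIVE GOALS OF THE ANALYSIS

`MainData` : constants and the five statements of the analysis ([STEP]: `FrzGoal`, `OkGoal`; [LEAK]: `LeakNumGoal`; [INS]:
`InsNmGoal`, `H3DGoal`) for the constants of the law and of the start; `main_of_data` : continuous spectrum and no
eigenvalues in `[a,b]`. -/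

set_option autoImplicit false

open Matrix Finset Filter Topology MeasureTheory

noncomputable section

namespace Pool.Agent.AND

open Pool.Agent.Kin Pool.Agent.APS Pool.Agent.ANM Pool.Agent.ANC Pool.Agent.ANB Pool.Agent.ANQ
open Pool.Agent.Helper3.Anderson (GoodLaw)

variable {d : ℕ} {CM : ℝ}

/-- CONSTANTS AND GOALS for the constants `κ` of the law and `c1, C1, C, C'` of the start -/
structure MainData (κ : LawC) (x : Ex d CM) (c1 C1 C C' : ℝ) where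
  c : Cst
  q : Csts
  F : ℝ → ℕ → ℕ
  nm : ℝ → ℕ → LkN
  pm : ℝ → ℕ → InsPr
  Cp : ℝ
  q1 : q.c1 = c1
  q2 : q.C1 = C1
  q3 : q.C = C
  q4 : q.C' = C'
  Cp0 : 0 ≤ Cp
  ok : q.Ok c
  st : StartC x c q.c1 q.C1 q.C
  cl : c.cl ≤ 4 * κ.cL
  th : q.th ≤ κ.thL
  frz : FrzGoal (LawB κ F) x c q Cp x.Kp
  okg : OkGoal (LawB κ F) x c q
  leak : LeakNumGoal (LawB κ F) x c q x.K1 nm
  ins : InsNmGoal (LawB κ F) x c q nm pm
  h3 : H3DGoal (LawB κ F) x c q pm

/-- THE FINAL THEOREM FROM THE FIVE GOALS -/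
theorem main_of_data (hd : 3 ≤ d) {μ : Measure ℝ} [IsProbabilityMeasure μ] {M : ℝ}
    {K : NNReal} (hμ : GoodLaw μ M K) (x : Ex d CM) {a b : ℝ} (ha : 0 < a)
    (hab : a < b) (hb : b < 4 * d)
    (H : ∀ κ : LawC, κ.Ok → κ.ep < κ.D → ∀ c1 C1 C C' : ℝ, 0 < c1 → c1 ≤ 1 → 1 ≤ C1 → 1 ≤ C →
      0 < C' → Nonempty (MainData κ x c1 C1 C C')) :
    ∃ lam0 : ℝ, 0 < lam0 ∧ ∀ lam : ℝ, 0 < lam → lam ≤ lam0 →
      ∀ᵐ ω ∂(Helper3.Anderson.siteLaw d μ), PureCont (fun x => lam * ω x) a b := by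
  obtain ⟨κ, hκ, hκ1, hlaw⟩ := law_in hμ d
  refine main_of_choice hd hμ x ha hab hb fun c1 C1 C C' h1 h1' h2 h3 h4 => ?_
  obtain ⟨m⟩ := H κ hκ hκ1 c1 C1 C C' h1 h1' h2 h3 h4
  exact ⟨{
    c := m.c
    q := m.q
    LP := LawB κ m.F
    S := κ.S
    Cp := m.Cp
    Cph := κ.cL
    cph := 1 / 4
    q1 := m.q1
    q2 := m.q2
    q3 := m.q3
    q4 := m.q4
    S0 := hκ.S0
    Cp0 := m.Cp0
    cph0 := by norm_num
    ok := m.ok
    st := m.st
    step := stepGoal_of (by omega) x m.c m.q (fun X _ Lw Sf lam n1 h => h.nf1) m.ok m.Cp0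
      m.frz m.okg
    leak := leak_goal_of (by omega) m.leak (ins_goal_of hd m.leak m.ins m.h3)
    law := hlaw CM x m.c m.q m.F m.cl m.th }⟩

end Pool.Agent.AND
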