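import Pool.Agent.AND.StepCoreG
import Pool.Agent.AND.LocGood
import Pool.Agent.ANS.CellB
import Pool.Agent.ANS.EntFar
import Pool.Agent.ANS.TopCoreB

/-! # AND / StepCoreB: the hypotheses of the engine (general laws) in the states of the algorithm (helper4)

* `LawBn` : facts of the law at one level.
* `coreIB_of` : `CoreIB` (helper91) for a state; numbers `CoreNm`.
* `hasW_st` : Agmon weights of the medium; `dec_st` : decay between the cell and the far inert sites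
  (hypothesis of `frzB_prob`, `de = deF μ 4 cc C1 s`).
-/

set_option autoImplicit false

open Matrix Finset

noncomputable section

namespace Pool.Agent.AND

open Pool.Agent.Kin Pool.Agent.APS Pool.Agent.ANM Pool.Agent.ANB Pool.Agent.ANS
open Pool.Agent.ANP (dT)

variable {d L : ℕ} [NeZero L] {X : Type} [Fintype X] [DecidableEq X]

/-- facts of the law at the level `n`, general laws -/
structure LawBn (Lw : Law X) (n : ℕ) : Prop where
  cL1 : cL Lw ≤ 1
  hs : 8 * Lw.D * 2 ^ (n + 1) ≤ Lw.ep * 2 ^ Lw.nf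
  anti : ∀ a, Lw.kp (n + 1) a ≤ Lw.kp n a

variable {D : Dat d L X} {Lw : Law X} {lam E : ℝ} {n : ℕ} {F : Fld (Tor d L)}
  {π : Prof (Tor d L)} {v : Tor d L → X} {M : Med (Tor d L)} {k0 rho Lam : ℝ} {dA : ℕ → ℝ}
  {N : Finset (Tor d L)}

/-- THE HYPOTHESES OF THE ENGINE IN A STATE OF THE ALGORITHM, general laws -/
theorem coreIB_of (hd : 0 < d) (hY : D.Y = sysOf Lw lam E D.P.eta) (hP : D.P.Pos)
    (hlam : 0 < lam) (hC : InC D k0 rho Lam dA n F π v M) (hNn : ∀ y ∈ N, π.lev y = n)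
    {s cc m : ℕ} {c : Tor d L} {S : Set (Tor d L)} (hgeo : StGeo M N s c S cc)
    (hL : 2 * (m * (cc + 2)) ≤ L) (hA : LawBn Lw n) (hknn : AND.kn Lw lam n ≤ D.P.kap n)
    {Cb cK cA cT0 eL CM CB Ce vi : ℝ}
    (num : CoreNm D.f D.P n s d L m (dA n) Lam Cb cK cA cT0 eL CM CB Ce vi) :
    CoreIB D.f (tolAt D.P D.Sf n F π v M) M (D.uN k0 rho Lam dA n) (digOf Lw lam n N v) N
      (nrB M s c) (okL Lw n N) (cOf Lw lam n N v) (beOf Lw lam n N) Cb (4 / cL Lw) cK
      cA cT0 eL CM CB Ce vi := by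
  have hc1 := hC.num.c1
  have hkap := hP.kap n
  have hkl0 : 0 ≤ D.P.cl * D.P.kap (n + 1) := mul_nonneg hP.cl (hP.kap _).le
  have hkk : ∀ w ∈ N, M.k w = lam ^ 2 * Lw.kp n (v w) := by
    intro w hw
    rw [hC.med.k]
    unfold kp
    rw [if_pos (hC.med.A ▸ hgeo.NA hw), hY, hNn w hw]
    rfl
  constructor
  case G => exact hC.good
  case In => exact hC.inn
  case Num => exact hC.num
  case dig =>
    refine cellB_law hlam hA.cL1 hgeo.NA hkk hA.hs hA.anti num.Cb0 ?_ hkl0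
    have h1 := kn_succ Lw lam n
    have h2 : (tolAt D.P D.Sf n F π v M).kl = D.P.cl * D.P.kap (n + 1) := rfl
    rw [h2, h1]
    have h3 := hknn.trans num.kkl
    linarith
  case kkl => exact num.kkl
  case NB =>
    intro w hw
    refine hgeo.B3 w (mem_nr.2 fun hU => ?_) ?_
    · exact Finset.disjoint_left.1 hC.good.AU (hgeo.NA hw) hU
    · have h1 := hgeo.NB w hw
      have h2 := num.s0
      omega
  case Bnr => exact hgeo.Bn
  case BX => exact hgeo.Bx
  case Ki => exact num.Ki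
  case dA0 => exact num.dA0
  case dA => exact num.dA
  case dS0 =>
    show 0 ≤ 2 * D.P.dS
    have := num.dS0
    linarith
  case dS => exact num.dS
  case Lam => exact num.Lam
  case tau =>
    show 2 * D.P.kap n ^ (-(7 / 8) : ℝ) ≤ cT0 * D.P.kap n ^ (-7 / 8 : ℝ)
    have h1 : (-7 / 8 : ℝ) = -(7 / 8) := by norm_num
    rw [h1]
    exact mul_le_mul_of_nonneg_right num.tau (Real.rpow_nonneg hkap.le _)
  case Nc => exact (card_nearC fun w hw => hgeo.NB w hw).trans num.Nc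
  case Bc =>
    refine (card_nearC (c := c) (r := 3 * s) fun w hw => ?_).trans num.Bc
    exact (mem_filter.1 hw).2.2.le
  case eta =>
    intro x hx hxI
    have hxU := mem_nr.1 hx
    show D.P.kap n ^ Ce ≤ M.eta x
    by_cases hxA : x ∈ M.A
    · refine num.etaA.trans ?_
      have h1 := hC.good.eA x hxA
      have h2 : (tolAt D.P D.Sf n F π v M).eta = D.P.eta := rfl
      have h3 : D.P.cl * D.P.kap (n + 1) ≤ M.k x := hC.good.klo x hxA
      have h4 : D.f.c1 ≤ (rsc (H0T d L) M.b x x).im := hC.good.io_ge hC.inn hC.num hxU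
      have h5 : D.P.cl * D.P.kap (n + 1) * D.f.c1 ≤ M.k x * (rsc (H0T d L) M.b x x).im :=
        mul_le_mul h3 h4 hc1.le (hkl0.trans h3)
      have h6 := hP.eta
      rw [h1, h2]
      linarith
    · refine num.etaS.trans ?_
      have h1 : D.P.eta + D.P.cs * D.P.kap (n + 1) ≤ M.eta x := hC.good.eS x hxA hxU hxI
      have h6 := hP.eta
      linarith
  case big =>
    refine num.big.trans (mul_le_mul_of_nonneg_right ?_ hP.eta)
    exact_mod_cast hgeo.nr_card hd m hL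
  case side => exact num.side

section far

/-- Agmon weights of the medium in a state -/
theorem hasW_st (hC : InC D k0 rho Lam dA n F π v M) {s cc : ℕ} {c : Tor d L}
    {S : Set (Tor d L)} (hgeo : StGeo M N s c S cc) {μ : ℝ} (hμ : 0 ≤ μ) (hμ1 : μ ≤ 1)
    (h1 : 8 * d * μ ≤ D.P.cl * D.P.kap (n + 1) * D.f.c1) (h2 : 8 * d * μ ≤ D.P.cs * D.P.kap (n + 1)) :
    ANM.HasW M.b {x | ∃ k, x ∈ pt S k} μ 4 cc :=
  hasW_good hC.good hC.inn hC.num hgeo.cp hgeo.cU hgeo.cI hμ hμ1 h1 h2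

/-- entries of the start medium between a far site and the cell, `≥` version of `dec_far` -/
theorem dec_far' {b : Tor d L → ℂ} (hb : ANL.Adm (H0T d L) b) {F : Set (Tor d L)} {μ : ℝ}
    {a c0 : ℕ} (ha : 1 ≤ a) (hμ : 0 < μ) (hw : ANM.HasW b F μ a c0) {o x w : Tor d L} {s0 : ℕ}
    (hc : c0 < 2 * s0) (hx : 3 * s0 ≤ dT x o) (hwo : dT w o ≤ s0) {Γ : ℝ}
    (hΓx : ‖rsc (H0T d L) b x x‖ ≤ Γ) (hΓw : ‖rsc (H0T d L) b w w‖ ≤ Γ) :
    ‖rsc (H0T d L) b x w‖ ≤ deF μ a c0 Γ s0 := by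
  have hD : ANM.Diss (H0T d L) b := ⟨hb.sym, hb.im, hb.unit⟩
  have h1 : dT x o ≤ dT x w + dT w o := ANP.nmet_dT.tri x w o
  have h2 : 2 * s0 ≤ dT x w := by omega
  have h3 : c0 < ANM.td x w := lt_of_lt_of_le hc h2
  have h4 := ANM.dec_all hD ha hμ hw h3 hΓx ((le_abs_self _).trans
    ((Complex.abs_im_le_norm _).trans hΓw))
  refine h4.trans ?_
  unfold deF
  have hΓ : 0 ≤ Γ := (norm_nonneg _).trans hΓx
  refine mul_le_mul_of_nonneg_left ?_ (by positivity)
  apply Real.exp_le_exp.2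
  have ha' : (0 : ℝ) < a := by exact_mod_cast ha
  have h5 : 2 * (s0 : ℝ) ≤ ANM.td x w := by
    have h6 : 2 * s0 ≤ ANM.td x w := h2
    exact_mod_cast h6
  have h6 : 2 * μ * s0 / a ≤ μ * ANM.td x w / a := by
    refine div_le_div_of_nonneg_right ?_ ha'.le
    nlinarith
  linarith

/-- DECAY BETWEEN THE CELL AND THE FAR INERT SITES in a state -/
theorem dec_st (hC : InC D k0 rho Lam dA n F π v M) {s cc : ℕ} {c : Tor d L}
    {S : Set (Tor d L)} (hgeo : StGeo M N s c S cc) {μ : ℝ} (hμ : 0 < μ)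
    (hμ1 : μ ≤ 1) (h1 : 8 * d * μ ≤ D.P.cl * D.P.kap (n + 1) * D.f.c1)
    (h2 : 8 * d * μ ≤ D.P.cs * D.P.kap (n + 1)) (hcc : cc < 2 * s) :
    ∀ x ∈ M.nr, x ∉ Rows M (nrB M s c) → ∀ w ∈ N, ‖M.G x w‖ ≤ deF μ 4 cc D.f.C1 s := by
  intro x hx hxr w hw
  have hA := hC.good.admN hC.inn hC.num
  have hwW := hasW_st hC hgeo hμ.le hμ1 h1 h2
  have hxd : 3 * s ≤ dT x c := by
    by_contra hlt
    push Not at hlt
    exact hxr (mem_Rows.2 ⟨hx, fun _ => hgeo.B3 x hx hlt⟩)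
  exact dec_far' hA (by norm_num) hμ hwW hcc hxd (hgeo.NB w hw)
    (hC.good.gam_le hC.inn hC.num (mem_nr.1 hx))
    (hC.good.gam_le hC.inn hC.num (hC.good.nU_of_A (hgeo.NA hw)))

end far

end Pool.Agent.AND
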