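import Pool.Agent.AND.StepCoreG
import Pool.Agent.ANS.TopCore

/-! # AND / StepCoreA: the hypotheses of the engine (Part A) in the states of the algorithm (owner helper79)

* `LawA` : facts of the law at one level (no weak outcome, `0 ≤ zt ≤ 7/8 k`).
* `coreI_of` : `CoreI` (helper91) for a state.
-/

set_option autoImplicit false

open Matrix Finset

noncomputable section

namespace Pool.Agent.AND

open Pool.Agent.Kin Pool.Agent.APS Pool.Agent.ANM Pool.Agent.ANB
open Pool.Agent.ANP (dT)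

variable {d L : ℕ} [NeZero L] {X : Type} [Fintype X] [DecidableEq X]

/-- facts of the law at the level `n`, Part A -/
structure LawA (Lw : Law X) (n : ℕ) : Prop where
  nwk : ∀ a, ¬ Lw.wk (n + 1) a
  zt0 : ∀ a b, Lw.q n a = Lw.q n b → Lw.kp (n + 1) a ≤ Lw.kp n b
  ztk : ∀ a b, Lw.q n a = Lw.q n b → Lw.kp n b ≤ 8 * Lw.kp (n + 1) a

variable {D : Dat d L X} {Lw : Law X} {lam E : ℝ} {n : ℕ} {F : Fld (Tor d L)}
  {π : Prof (Tor d L)} {v : Tor d L → X} {M : Med (Tor d L)} {k0 rho Lam : ℝ} {dA : ℕ → ℝ}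
  {N : Finset (Tor d L)}

/-- THE HYPOTHESES OF THE ENGINE IN A STATE OF THE ALGORITHM, Part A -/
theorem coreI_of (hd : 0 < d) (hY : D.Y = sysOf Lw lam E D.P.eta) (hP : D.P.Pos)
    (hlam : 0 < lam) (hC : InC D k0 rho Lam dA n F π v M) (hNn : ∀ y ∈ N, π.lev y = n)
    {s cc m : ℕ} {c : Tor d L} {S : Set (Tor d L)} (hgeo : StGeo M N s c S cc)
    (hL : 2 * (m * (cc + 2)) ≤ L) (hA : LawA Lw n) (hknn : AND.kn Lw lam n ≤ D.P.kap n)
    (hI : M.I = ∅) {Cb cK cA cT0 eL CM CB Ce vi : ℝ}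
    (num : CoreNm D.f D.P n s d L m (dA n) Lam Cb cK cA cT0 eL CM CB Ce vi) :
    CoreI D.f (tolAt D.P D.Sf n F π v M) M (D.uN k0 rho Lam dA n) (digOf Lw lam n N v) N
      (nrB M s c) (cOf Lw lam n N v) (beOf Lw lam n N) Cb cK cA cT0 eL CM CB Ce vi := by
  have hc1 := hC.num.c1
  have hkap := hP.kap n
  have hkl0 : 0 ≤ D.P.cl * D.P.kap (n + 1) := mul_nonneg hP.cl (hP.kap _).le
  have hkk : ∀ w ∈ N, M.k w = lam ^ 2 * Lw.kp n (v w) := by
    intro w hw
    rw [hC.med.k]
    unfold kp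
    rw [if_pos (hC.med.A ▸ hgeo.NA hw), hY, hNn w hw]
    rfl
  constructor
  case G => exact hC.good
  case In => exact hC.inn
  case Num => exact hC.num
  case dig =>
    refine ⟨hgeo.NA, digOf_ok Lw hlam.le n N v, fun w hw => ?_, fun w => ?_, fun w hw a => ?_,
      num.Cb0⟩
    · unfold beOf
      rw [if_neg hw]
    · by_cases hw : w ∈ N
      · rw [beOf_sq Lw lam n N w hw]
        exact hknn.trans num.kkl
      · have h1 : beOf Lw lam n N w = 0 := by
          unfold beOf
          rw [if_neg hw]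
        rw [h1]
        have h2 : (tolAt D.P D.Sf n F π v M).kl = D.P.cl * D.P.kap (n + 1) := rfl
        rw [h2]
        have := mul_nonneg num.Cb0 hkl0
        simpa using this
    · rw [hkk w hw]
      show (if w ∈ N ∧ a ∈ cl (Lw.q n) (v w) then
        lam ^ 2 * (Lw.kp n (v w) - Lw.kp (n + 1) a) else 0) ≤ _
      have h0 : 0 ≤ lam ^ 2 * Lw.kp n (v w) := mul_nonneg (sq_nonneg _) (Lw.kp_nonneg _ _)
      split_ifs with h
      · have h1 := hA.ztk a (v w) (mem_cl.1 h.2)
        have h2 := mul_le_mul_of_nonneg_left h1 (sq_nonneg lam)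
        linarith
      · linarith
  case zt0 =>
    intro w a
    show 0 ≤ (if w ∈ N ∧ a ∈ cl (Lw.q n) (v w) then
      lam ^ 2 * (Lw.kp n (v w) - Lw.kp (n + 1) a) else 0)
    split_ifs with h
    · exact mul_nonneg (sq_nonneg _) (sub_nonneg.2 (hA.zt0 a (v w) (mem_cl.1 h.2)))
    · exact le_rfl
  case kkl => exact num.kkl
  case NB =>
    intro w hw
    refine hgeo.B3 w (mem_nr.2 fun hU => ?_) ?_
    · exact Finset.disjoint_left.1 hC.good.AU (hgeo.NA hw) hU
    · have h1 := hgeo.NB w hw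
      have h2 := num.s0
      omega
  case Bnr => exact hgeo.Bn
  case BX => exact hgeo.Bx
  case Ki => exact num.Ki
  case dA0 => exact num.dA0
  case dA => exact num.dA
  case dS0 =>
    show 0 ≤ 2 * D.P.dS
    have := num.dS0
    linarith
  case dS => exact num.dS
  case Lam => exact num.Lam
  case tau =>
    show 2 * D.P.kap n ^ (-(7 / 8) : ℝ) ≤ cT0 * D.P.kap n ^ (-7 / 8 : ℝ)
    have h1 : (-7 / 8 : ℝ) = -(7 / 8) := by norm_num
    rw [h1]
    exact mul_le_mul_of_nonneg_right num.tau (Real.rpow_nonneg hkap.le _)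
  case Nc =>
    exact (card_nearC fun w hw => hgeo.NB w hw).trans num.Nc
  case Bc =>
    refine (card_nearC (c := c) (r := 3 * s) fun w hw => ?_).trans num.Bc
    exact (mem_filter.1 hw).2.2.le
  case eta =>
    intro x hx
    have hxU := mem_nr.1 hx
    show D.P.kap n ^ Ce ≤ M.eta x
    by_cases hxA : x ∈ M.A
    · refine num.etaA.trans ?_
      have h1 := hC.good.eA x hxA
      have h2 : (tolAt D.P D.Sf n F π v M).eta = D.P.eta := rfl
      have h3 : D.P.cl * D.P.kap (n + 1) ≤ M.k x := hC.good.klo x hxA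
      have h4 : D.f.c1 ≤ (rsc (H0T d L) M.b x x).im := hC.good.io_ge hC.inn hC.num hxU
      have h5 : D.P.cl * D.P.kap (n + 1) * D.f.c1 ≤ M.k x * (rsc (H0T d L) M.b x x).im :=
        mul_le_mul h3 h4 hc1.le (hkl0.trans h3)
      have h6 := hP.eta
      rw [h1, h2]
      linarith
    · refine num.etaS.trans ?_
      have h1 : D.P.eta + D.P.cs * D.P.kap (n + 1) ≤ M.eta x :=
        hC.good.eS x hxA hxU (by rw [hI]; exact Finset.notMem_empty x)
      have h6 := hP.eta
      linarith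
  case big =>
    refine num.big.trans (mul_le_mul_of_nonneg_right ?_ hP.eta)
    exact_mod_cast hgeo.nr_card hd m hL
  case side => exact num.side

end Pool.Agent.AND
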