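import Pool.Agent.ANS.StepAP
import Pool.Agent.ANS.TopCore

/-! # AND / StepPrA: THE PROBABILITY OF A BAD FROZEN STEP, Part A (owner helper79)

`frzA_prob` : `Pr {ω | ω in the class and not Frz (weights of the new classes)} ≤ κ^Kp` from `CoreI`, `WtHyp`
(`frz_prob_w` of helper91 with the weights of helper78 for the representatives of helper52). -/

set_option autoImplicit false

open Matrix Finset Function

noncomputable section

namespace Pool.Agent.AND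

open Pool.Agent.Kin Pool.Agent.APS Pool.Agent.ANB Pool.Agent.ANS

/-- monotonicity in the error of (H3) -/
theorem Frz.mono_e3 {d L : ℕ} [NeZero L] {D : Type} [Fintype D] {t : Tol d L} {M : Med (Tor d L)}
    {g : ANS.Dig (Tor d L) D} {a' z' : ℕ → Tor d L → ℝ} {e3 e3' : ℕ → ℝ}
    {B : Finset (Tor d L)} {al tt de : ℝ} {W : Finset (Tor d L)} {ω : Tor d L → D}
    (h : Frz t M g a' z' e3 B al tt de W ω) (he : ∀ K ∈ t.Ks, e3 K ≤ e3' K) :
    Frz t M g a' z' e3' B al tt de W ω :=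
  ⟨h.ent, h.tau, fun K hK x hx => (h.h3 K hK x hx).trans (add_le_add_right (he K hK) _), h.form⟩

theorem frzA_prob {d : ℕ} (hd : 3 ≤ d) {c1 C1 Cb cK cA cT0 eL CM CB Ce vt vi Kp ep : ℝ}
    (hc1 : 0 < c1) (hC1 : 0 < C1) (hCb : 0 ≤ Cb) (hcK : 0 < cK) (hcA : 0 ≤ cA) (hcT0 : 0 ≤ cT0)
    (heL : 0 ≤ eL) (heL1 : eL ≤ 1 / 4) (hCM : 0 ≤ CM) (hCB : 0 ≤ CB) (hCe : 0 ≤ Ce)
    (hvt : 0 < vt) (hvi : 3 * vt ≤ vi) (hvi1 : vi ≤ 1 / 150) (hKp : 0 < Kp) (hep : 0 < ep) :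
    ∃ kk : ℝ, 0 < kk ∧ ∀ {L : ℕ} [NeZero L] {X : Type} [Fintype X] [DecidableEq X] {Lw : Law X}
      {f : Fix} {P : Par} {lam C1' cI : ℝ} {nE n : ℕ} {F : Fld (Tor d L)}
      {π : Prof (Tor d L)} {v : Tor d L → X} {M : Med (Tor d L)} {u : UTol}
      {N B : Finset (Tor d L)} (π' : (Tor d L → X) → Prof (Tor d L)), f.c1 = c1 → f.C1 = C1 →
      Lw.ep = ep → P.kap n ≤ kk → P.kap n * 4 ^ (n + 1) ≤ 1 →
      CoreI f (tolAt P (SfOf Lw lam nE) n F π v M) M u (digOf Lw lam n N v) N B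
        (cOf Lw lam n N v) (beOf Lw lam n N) Cb cK cA cT0 eL CM CB Ce vi →
      WtHyp Lw lam P F n N π v M C1' cI → 0 ≤ C1' → C1' ≤ C1 →
      (∀ ω y, (π' ω).lev y = if y ∈ N then n + 1 else π.lev y) →
      ANP.Pr (digOf Lw lam n N v).P {ω | (∀ y ∈ N, Lw.q n (ω y) = Lw.q n (v y)) ∧
        ¬ Frz (tolAt P (SfOf Lw lam nE) n F π v M) M (digOf Lw lam n N v)
          (tolAt P (SfOf Lw lam nE) n F (π' ω) (N.piecewise ω v) M).a
          (tolAt P (SfOf Lw lam nE) n F (π' ω) (N.piecewise ω v) M).z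
          (fun K => 12 * UK Lw lam n K * P.kap n ^ (1 / 45 : ℝ)) B (P.kap n ^ (9 / 256 : ℝ))
          (P.kap n ^ (-7 / 8 + vt)) (30 * P.kap n ^ (1 / 140 : ℝ)) ∅ ω} ≤ P.kap n ^ Kp := by
  obtain ⟨k1, hk1, h1⟩ := frz_prob_w (d := d) hd hc1 hC1 hCb hcK hcA hcT0 heL heL1 hCM hCB hCe
    hvt hvi hvi1 hKp
  obtain ⟨k2, hk2, h2⟩ := net_ev C1 hC1.le hep
  set C := 8 * (C1 + 2) + (1 + Cb) / c1 with hC
  have hC0 : 1 ≤ C := stC_ge c1 C1 Cb hc1 hC1 hCb
  set k3 : ℝ := 1 / ((100 * C ^ 2) ^ 2 * (Cb + 1)) with hk3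
  have hk30 : 0 < k3 := by positivity
  refine ⟨min k1 (min k2 (min k3 1)), lt_min hk1 (lt_min hk2 (lt_min hk30 one_pos)), ?_⟩
  intro L _ X _ _ Lw f P lam C1' cI nE n F π v M u N B π' hf1 hf2 hLe hk hk4 hI hW hC1'0 hC1'1 hπ'
  have hka : P.kap n ≤ k1 := hk.trans (min_le_left _ _)
  have hkb : P.kap n ≤ k2 := hk.trans ((min_le_right _ _).trans (min_le_left _ _))
  have hkc : P.kap n ≤ k3 := hk.trans ((min_le_right _ _).trans ((min_le_right _ _).trans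
    (min_le_left _ _)))
  have hkd : P.kap n ≤ 1 := hk.trans ((min_le_right _ _).trans ((min_le_right _ _).trans
    (min_le_right _ _)))
  have hkl : 0 < P.kap n := by
    have e1 := hI.Num.kl
    have e2 := hI.Num.klk
    have e3 : (tolAt P (SfOf Lw lam nE) n F π v M).k = P.kap n := rfl
    rw [e3] at e2
    linarith
  obtain ⟨-, hR1, hR2⟩ := h2 _ hkl hkb
  have hst : stC f Cb = C := by
    unfold stC
    rw [hf1, hf2]
  -- the representatives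
  obtain ⟨R, hRs, hRc, hRn⟩ := exists_R Lw (Finset.Icc (n + 1) nE)
    (show 0 < 2 * P.kap n by linarith)
  have hRK : ∀ K ∈ R, n + 1 ≤ K := fun K hK => (Finset.mem_Icc.1 (hRs hK)).1
  have hCu : C1' ≤ 4 * (250 * stC f Cb ^ 3) := by
    rw [hst]
    have e1 : C1 ≤ C := by
      have : 0 ≤ (1 + Cb) / c1 := by positivity
      linarith
    have e2 : C ≤ C ^ 3 := by
      have : C * 1 ≤ C * C ^ 2 := mul_le_mul_of_nonneg_left (one_le_pow₀ hC0) (by linarith)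
      nlinarith
    linarith
  have hCu0 : 0 ≤ 250 * stC f Cb ^ 3 := by
    rw [hst]
    positivity
  have h3 := h1 (R := R) (a := fun K => wA Lw lam nE n K N π v M)
    (z := fun K => wZ Lw lam nE P F n K N π v M) hf1 hf2 hka hI (hRc.trans hR1)
    (fun s _ K hK => ⟨⟨_, wt_a hW (hRK K hK) hCu hCu0 s⟩, ⟨_, wt_z hW (hRK K hK) hCu hCu0 s⟩⟩)
    (fun K hK x hx => start_w hW hI.G (hRs hK) hx)
  refine le_trans (ANP.Pr_mono ?_ ?_) h3
  · exact ⟨fun x a => hI.dig.dig.P0 x a, fun x => hI.dig.dig.P1 x⟩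
  rintro ω ⟨hω, hnF⟩ hAP
  apply hnF
  -- Ward in the frozen medium
  have hbes : ∀ w, 100 * stC f Cb ^ 2 * beOf Lw lam n N w ≤ 1 := by
    intro w
    have e1 := hI.dig.bek w
    have e2 := hI.Num.klk
    have e3 : (tolAt P (SfOf Lw lam nE) n F π v M).k = P.kap n := rfl
    rw [e3] at e2
    have e4 : beOf Lw lam n N w ^ 2 ≤ (Cb + 1) * k3 := by
      have e5 : Cb * (tolAt P (SfOf Lw lam nE) n F π v M).kl ≤ Cb * P.kap n :=
        mul_le_mul_of_nonneg_left e2 hCb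
      have e6 : Cb * P.kap n ≤ Cb * k3 := mul_le_mul_of_nonneg_left hkc hCb
      linarith
    have e5 : (100 * C ^ 2 * beOf Lw lam n N w) ^ 2 ≤ 1 := by
      have e6 : (100 * C ^ 2) ^ 2 * ((Cb + 1) * k3) = 1 := by
        rw [hk3]
        have : (100 * C ^ 2) ^ 2 * (Cb + 1) ≠ 0 := by positivity
        field_simp
      calc (100 * C ^ 2 * beOf Lw lam n N w) ^ 2 = (100 * C ^ 2) ^ 2 * beOf Lw lam n N w ^ 2 := by
            ring
        _ ≤ (100 * C ^ 2) ^ 2 * ((Cb + 1) * k3) := mul_le_mul_of_nonneg_left e4 (by positivity)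
        _ = 1 := e6
    rw [hst]
    nlinarith [sq_nonneg (100 * C ^ 2 * beOf Lw lam n N w - 1)]
  have hOk := hI.G.stpOk hI.In hI.Num hI.dig (Lm := max 1 u.Lam) (le_max_left _ _)
    (le_max_right _ _) hbes
  have h5 := frz_of_apw (nE := nE) (π' := π' ω) (v' := N.piecewise ω v) hW
    (th := 2 * P.kap n) (cmin := Lw.ep / 2 ^ (n + 1)) (by linarith)
    (by rw [hLe]; positivity) (fun m hm a ha => cmin_law Lw hm ha) hRK hRn hω (hπ' ω) rfl
    (fun x _ => ward_ok hOk ω x) (k := P.kap n) (vt := vt) (by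
      by_contra hc
      exact hc hAP)
  refine h5.mono_e3 fun K hK => ?_
  have e1 := hR2 n hk4
  rw [hLe]
  have e2 := UK_pos (L := Lw) (n := n) hW.lam0 K
  have e3 : 2 * P.kap n / (ep / 2 ^ (n + 1)) / 2 * (C1' + P.kap n ^ (11 / 256 : ℝ)) ≤
      2 * P.kap n / (ep / 2 ^ (n + 1)) / 2 * (C1 + P.kap n ^ (11 / 256 : ℝ)) :=
    mul_le_mul_of_nonneg_left (by linarith) (by positivity)
  have e4 : 4 * UK Lw lam n K * (P.kap n ^ (1 / 32 : ℝ) + P.kap n ^ (1 / 45 : ℝ) +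
      2 * P.kap n / (ep / 2 ^ (n + 1)) / 2 * (C1' + P.kap n ^ (11 / 256 : ℝ))) ≤
      4 * UK Lw lam n K * (3 * P.kap n ^ (1 / 45 : ℝ)) :=
    mul_le_mul_of_nonneg_left (by linarith) (by positivity)
  calc _ ≤ _ := e4
    _ = 12 * UK Lw lam n K * P.kap n ^ (1 / 45 : ℝ) := by ring

end Pool.Agent.AND
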