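import Pool.Agent.AND.StepFrame
import Pool.Agent.AND.StepPrA
import Pool.Agent.AND.StepCoreA
import Pool.Agent.AND.StepNumC
import Pool.Agent.AND.LawBD

/-! # AND / StepFrzA: THE ENGINE IN THE STATES OF THE ALGORITHM, Part A (owner helper79)

* `LawPA κ F` : the law is `LawB κ F`, no weak value at any level `≤ n1`, `0 ≤ ζ ≤ 7/8 k`;
* `lawN_ofB` : `LawN` from `LawB κ F`;
* `frzGoalA` : `FrzGoal (LawPA κ F) x c q 1 Kp`. -/

set_option autoImplicit false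

open Matrix Finset Filter Topology

noncomputable section

namespace Pool.Agent.AND

open Pool.Agent.Kin Pool.Agent.APS Pool.Agent.ANM Pool.Agent.ANC Pool.Agent.ANB Pool.Agent.ANQ

/-- THE PROPERTY OF THE LAW, Part A -/
def LawPA (κ : LawC) (F : ℝ → ℕ → ℕ) : LawP := fun X _ Lw Sf lam n1 =>
  LawB κ F X Lw Sf lam n1 ∧ ∀ n < n1, LawA Lw n

variable {d : ℕ} {CM : ℝ}

theorem LawC.thL_le_cL (κ : LawC) : κ.thL ≤ κ.cL := by
  unfold LawC.thL
  have h1 := κ.cL_nonneg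
  have h2 : ((1 : ℝ) / 2) ^ κ.m ≤ 1 := pow_le_one₀ (by norm_num) (by norm_num)
  have h3 : κ.cL * (1 / 2) ^ κ.m ≤ κ.cL * 1 := mul_le_mul_of_nonneg_left h2 h1
  have h4 : 0 ≤ κ.cL * (1 / 2) ^ κ.m := by positivity
  linarith

/-- the conditions on the law used by the numbers of a step -/
theorem lawN_ofB {κ : LawC} {F : ℝ → ℕ → ℕ} {X : Type} [Fintype X] {Lw : Law X} {Sf : SiteF X}
    {lam : ℝ} {n1 : ℕ} {c : Cst} {th : ℝ} (h : LawB κ F X Lw Sf lam n1) (hcl1 : c.cl ≤ κ.cL)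
    (hκ1 : κ.cL ≤ 1) (hth : th ≤ κ.thL) : LawN c Lw th n1 where
  cl := by
    rw [h.of.ep, h.of.D]
    exact hcl1
  r1 := by
    rw [h.of.ep, h.of.D]
    exact hκ1
  hs := h.prec_le (Nat.le_succ n1)
  th := by
    rw [h.of.thL]
    exact hth
  th1 := by
    rw [h.of.thL]
    exact κ.thL_le_cL.trans hκ1

/-- [STEP], THE ENGINE, Part A -/
theorem frzGoalA (hd : 3 ≤ d) (x : Ex d CM) (c : Cst) (q : Csts) (κ : LawC) (F : ℝ → ℕ → ℕ)
    (hq : q.Ok c) (hdS : c.dS ≤ 1 / 2) (hep : 0 < κ.ep) {Kp : ℝ} (hKp : 0 < Kp)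
    (hcl1 : c.cl ≤ κ.cL) (hκ1 : κ.cL ≤ 1) (hth : q.th ≤ κ.thL) :
    FrzGoal (LawPA κ F) x c q 1 Kp := by
  have hc := hq.pos
  have hcl := hc.cl
  have hc1 := hq.c1
  have hC1 := hq.C1
  have hvt := x.vt_pos
  have hvt2 := ex_vt2 x
  have hcg : 0 < q.cg c := by
    unfold Csts.cg
    positivity
  have hcK : 0 < c.D0c / 2 := half_pos hc.D0c
  obtain ⟨kk, hkk, h1⟩ := frzA_prob (d := d) hd (c1 := q.c1 / 2) (C1 := 2 * q.C1)
    (Cb := 4 / c.cl) (cK := c.D0c / 2) (cA := 1) (cT0 := 2) (eL := 1 / 8) (CM := eM d x.al)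
    (CB := eM d x.al) (Ce := 2) (vt := 3 / 4 * x.vt) (vi := 3 * x.vt) (Kp := Kp) (ep := κ.ep)
    (by positivity) (by positivity) (by positivity) hcK (by norm_num) (by norm_num) (by norm_num)
    (by norm_num) (eM_nonneg _ _) (eM_nonneg _ _) (by norm_num) (by positivity) (by linarith)
    (by linarith) hKp hep
  filter_upwards [ev_wtNumC (LP := LawPA κ F) (x := x) hq, ev_coreNm x hc hdS (c1 := q.c1 / 2) (C' := q.C') (cg := q.cg c)
    (by positivity) hcg, ev_small hkk, ev_small (show (0 : ℝ) < 1 / 4 by norm_num)]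
    with k0 hW hNm hk hk4 N _ X _ _ Lw Sf lam E es g0 gam Lm M H j i v cc Mm _ hS
  have hk0 := hk.1
  have hk1 : k0 < 1 := by linarith [hk4.2]
  have hWn := hW N X Lw Sf lam E es g0 gam Lm M H (lawN_ofB H.law.1 hcl1 hκ1 hth)
  have hNm := hNm j M
  set D := datC x c q N Lw Sf lam E k0 es g0 gam Lm with hD
  obtain ⟨hLB, hLA⟩ := H.law
  have hn1 := hS.n1
  set n := D.g.sn j i with hn
  set π := (D.g.crun D.ana j i v).pi with hπ
  set Nn := D.stN j i v with hNn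
  have hκ := kap_pos hk0 n
  have hκk : kap k0 n ≤ k0 := kap_le hk0 n
  have hSf : D.Sf = SfOf Lw lam (lv k0 x.al (M + 1) + 1) := hLB.sf
  have hWt := hWn n hn1
  have hNe : Nn = π.act ∩ D.g.cell j (D.g.sL j i) := rfl
  have hwkn : ∀ ω, wkN D.ana n Nn ω = ∅ := by
    intro ω
    rw [Finset.eq_empty_iff_forall_notMem]
    intro y hy
    exact (hLA n (by omega)).nwk _ (mem_wkN.1 hy).2.2
  -- the empty case
  rw [one_mul]
  by_cases hne : ∃ ω, ClOk D Lw j i v ω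
  swap
  · have e1 : {ω | ClOk D Lw j i v ω ∧
          ¬ FrzO D Lw lam j i (side k0 x.al j) v Mm
            (fun K => 12 * UK Lw lam n K * kap k0 n ^ (1 / 45 : ℝ))
            (kap k0 n ^ (9 / 256 : ℝ)) (kap k0 n ^ (-(7 / 8) + 3 / 4 * x.vt : ℝ))
            (30 * kap k0 n ^ (1 / 140 : ℝ)) ω} = (∅ : Set (Tor d N → X)) := by
      ext ω
      simp only [Set.mem_ofPred_eq, Set.mem_empty_iff_false, iff_false, not_and]
      exact fun h => absurd ⟨ω, h⟩ hne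
    rw [e1, ANP.Pr_empty]
    exact Real.rpow_nonneg hκ.le _
  obtain ⟨ω0, hω0⟩ := hne
  have hgeo := hS.geo _ hω0.rt
  obtain ⟨m, hm, hnum⟩ := hNm n cc N es D.f rfl hS.hj hS.lvn q.Cc H.pick
  have hI : Mm.I = ∅ := by
    rw [hS.inC.med.I, Finset.eq_empty_iff_forall_notMem]
    intro y hy
    have h2 : y ∉ π.rd := fun h => Finset.disjoint_left.1 hS.inC.inv.ri h hy
    have h3 := hS.inC.lvp.lev y h2
    have h4 := (hS.inC.lvp.iw y hy).2
    rcases Nat.eq_zero_or_pos (π.lev y) with h0 | h0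
    · rw [h0] at h4
      exact Lw.not_wk_zero _ h4
    · obtain ⟨m', hm'⟩ := Nat.exists_eq_succ_of_ne_zero h0.ne'
      rw [hm'] at h4 h3
      exact (hLA m' (by omega)).nwk _ h4
  have hCore := coreI_of (D := D) (Lw := Lw) (lam := lam) (E := E) (by omega) rfl
    H.inh.fn.fh.pos H.hlam hS.inC hS.lev hgeo hm (hLA n (by omega)) hWt.knn hI
    (by rw [H.hLm]; exact hnum)
  have hWh := wtHyp_of (D := D) (Lw := Lw) (lam := lam) (E := E) (N := Nn) rfl
    (fun m a _ h => wkA_wk h) H.inh.fn.fh.pos hS.Fp hS.Fb hWt hS.inC hgeo.NA hS.lev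
  have hgi : g0.im ≤ q.C1 :=
    ((le_abs_self _).trans (Complex.abs_im_le_norm g0)).trans H.dat.g2
  have hg1 := H.dat.g1
  have hp0 : 0 ≤ k0 ^ (x.vi / 2) := Real.rpow_nonneg hk0.le _
  have hp1 : k0 ^ (x.vi / 2) ≤ 1 := Real.rpow_le_one hk0.le hk1.le (by
    have := x.vi_pos
    linarith)
  rw [hSf] at hCore
  have h2 := h1 (Lw := Lw) (f := D.f) (P := D.P) (lam := lam)
    (C1' := D.f.g0.im + (D.P.del0 + k0 ^ (D.P.vi / 2))) (cI := D.cI)
    (nE := lv k0 x.al (M + 1) + 1) (n := n) (F := D.fi j i) (π := π) (v := v) (M := Mm)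
    (N := Nn) (B := nrB Mm (side k0 x.al j) (D.g.sL j i))
    (fun ω => raise D.ana π (n + 1) (D.g.cell j (D.g.sL j i)) (Nn.piecewise ω v)) rfl rfl
    (hLB.of.ep) (hκk.trans hk.2) ?_ hCore hWh ?_ ?_ (fun ω y => ?_)
  · refine le_trans (ANP.Pr_mono ?_ ?_) h2
    · have hdg := digOf_ok (T := Tor d N) Lw H.hlam.le n Nn v
      exact ⟨fun x a => hdg.P0 x a, fun x => hdg.P1 x⟩
    · rintro ω ⟨h3, h4⟩
      refine ⟨h3.cls, fun h5 => h4 ?_⟩
      unfold FrzO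
      rw [← hn, ← hπ, ← hNn, hwkn ω, hSf]
      have e1 : (-(7 / 8) + 3 / 4 * x.vt : ℝ) = -7 / 8 + 3 / 4 * x.vt := by ring
      rw [e1]
      exact h5
  · show kap k0 n * 4 ^ (n + 1) ≤ 1
    have e1 : kap k0 n * 4 ^ (n + 1) = 4 * k0 := by
      unfold kap
      rw [pow_succ, one_div, inv_pow]
      field_simp
    rw [e1]
    linarith [hk4.2]
  · show 0 ≤ g0.im + (0 + k0 ^ (x.vi / 2))
    linarith
  · show g0.im + (0 + k0 ^ (x.vi / 2)) ≤ 2 * q.C1
    linarith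
  · have e2 := raise_lev (A := D.ana) (π := π) (n := n) hNe (Nn.piecewise ω v) y
    rw [e2]
    rfl

end Pool.Agent.AND
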