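import Pool.Agent.AND.StepPrA
import Pool.Agent.ANS.TopFormB
import Pool.Agent.ANS.CellB
import Pool.Agent.ANS.FarB

/-! # AND / StepPrB: THE PROBABILITY OF A BAD FROZEN STEP, general laws (helper52)

`frzB_prob` : `Pr {ω | ω in the class and not Frz (weights of the new classes, weak outcomes W ω)} ≤ κ^Kp` from `CoreIB`, `WtHyp`,
the mass `θ` of the strong outcomes and the decay of the start medium between the cell and the far inert sites
(`frz_probB` of helper91 with the weights of helper78 for the representatives). -/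

set_option autoImplicit false

open Matrix Finset Function

noncomputable section

namespace Pool.Agent.AND

open Pool.Agent.Kin Pool.Agent.APS Pool.Agent.ANB Pool.Agent.ANS

theorem frzB_prob {d : ℕ} (hd : 3 ≤ d)
    {c1 C1 Cb Ck cK cA cT0 eL CM CB Ce vt vi Kp ep R0 θ : ℝ}
    (hc1 : 0 < c1) (hC1 : 0 < C1) (hCb : 0 ≤ Cb) (hCk : 1 ≤ Ck) (hcK : 0 < cK) (hcA : 0 ≤ cA)
    (hcT0 : 0 ≤ cT0) (heL : 0 ≤ eL) (heL1 : eL ≤ 1 / 4) (hCM : 0 ≤ CM) (hCB : 0 ≤ CB)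
    (hCe : 0 ≤ Ce) (hvt : 0 < vt) (hvi : 3 * vt ≤ vi) (hvi1 : vi ≤ 1 / 150) (hKp : 0 < Kp)
    (hep : 0 < ep) (hR0 : 2 ≤ R0) (hRθ : 1 ≤ R0 * θ) :
    ∃ kk : ℝ, 0 < kk ∧ ∀ {L : ℕ} [NeZero L] {X : Type} [Fintype X] [DecidableEq X] {Lw : Law X}
      {f : Fix} {P : Par} {lam C1' cI : ℝ} {nE n : ℕ} {F : Fld (Tor d L)}
      {π : Prof (Tor d L)} {v : Tor d L → X} {M : Med (Tor d L)} {u : UTol}
      {N B : Finset (Tor d L)} {de : ℝ} (π' : (Tor d L → X) → Prof (Tor d L))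
      (W : (Tor d L → X) → Finset (Tor d L)), f.c1 = c1 → f.C1 = C1 →
      Lw.ep = ep → P.kap n ≤ kk → P.kap n * 4 ^ (n + 1) ≤ 1 →
      CoreIB f (tolAt P (SfOf Lw lam nE) n F π v M) M u (digOf Lw lam n N v) N B (okL Lw n N)
        (cOf Lw lam n N v) (beOf Lw lam n N) Cb Ck cK cA cT0 eL CM CB Ce vi →
      WtHyp Lw lam P F n N π v M C1' cI → 0 ≤ C1' → C1' ≤ C1 →
      (∀ w ∈ N, θ ≤ Lw.pS (n + 1) n (v w)) →
      (∀ x ∈ M.nr, x ∉ Rows M B → ∀ w ∈ N, ‖M.G x w‖ ≤ de) → 0 ≤ de →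
      de ≤ P.kap n ^ (2 * CM + 4 * eL + CB + 2) →
      (∀ ω y, (π' ω).lev y = if y ∈ N then n + 1 else π.lev y) →
      (∀ ω, ∀ y ∈ N, Lw.wk (n + 1) (ω y) → y ∈ W ω) →
      ANP.Pr (digOf Lw lam n N v).P {ω | (∀ y ∈ N, Lw.q n (ω y) = Lw.q n (v y)) ∧
        ¬ Frz (tolAt P (SfOf Lw lam nE) n F π v M) M (digOf Lw lam n N v)
          (tolAt P (SfOf Lw lam nE) n F (π' ω) (N.piecewise ω v) M).a
          (tolAt P (SfOf Lw lam nE) n F (π' ω) (N.piecewise ω v) M).z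
          (fun K => 12 * UK Lw lam n K * P.kap n ^ (1 / 45 : ℝ)) B (P.kap n ^ (9 / 256 : ℝ))
          (P.kap n ^ (-7 / 8 + vt)) (30 * P.kap n ^ (1 / 140 : ℝ)) (W ω) ω} ≤ P.kap n ^ Kp := by
  obtain ⟨k1, hk1, h1⟩ := frz_probB (d := d) hd hc1 hC1 hCb hCk hcK hcA hcT0 heL heL1 hCM hCB hCe
    hvt hvi hvi1 hKp hR0
  obtain ⟨k2, hk2, h2⟩ := net_ev C1 hC1.le hep
  obtain ⟨C, hC⟩ : ∃ C, C = Ck * (C1 + 2) + 1 + (1 + Cb) / c1 := ⟨_, rfl⟩
  have hC0 : 1 ≤ C := by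
    rw [hC]
    exact stCB_ge c1 C1 Cb Ck hc1 hC1 hCb hCk
  obtain ⟨k3, hk3, h3⟩ := far_ev C eL CM CB (by linarith) heL hCM hCB
  have evB : Ev (fun k => 100 * C ^ 2 * nb0 (√Cb) k ≤ 1) :=
    Ev.le_of_mul (pw_nb0 _) (by norm_num) _ one_pos
  obtain ⟨k4, hk4, h4⟩ := evB
  refine ⟨min k1 (min k2 (min k3 (min k4 (1 / 4)))), lt_min hk1 (lt_min hk2 (lt_min hk3
    (lt_min hk4 (by norm_num)))), ?_⟩
  intro L _ X _ _ Lw f P lam C1' cI nE n F π v M u N B de π' W hf1 hf2 hLe hk hk4' hI hW hC1'0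
    hC1'1 hθ hdec hde0 hde hπ' hWk
  have hka : P.kap n ≤ k1 := hk.trans (min_le_left _ _)
  have hk' := hk.trans (min_le_right _ _)
  have hkb : P.kap n ≤ k2 := hk'.trans (min_le_left _ _)
  have hk'' := hk'.trans (min_le_right _ _)
  have hkc : P.kap n ≤ k3 := hk''.trans (min_le_left _ _)
  have hk''' := hk''.trans (min_le_right _ _)
  have hkd : P.kap n ≤ k4 := hk'''.trans (min_le_left _ _)
  have hke : P.kap n ≤ 1 / 4 := hk'''.trans (min_le_right _ _)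
  have htk : (tolAt P (SfOf Lw lam nE) n F π v M).k = P.kap n := rfl
  have hkl : 0 < P.kap n := by
    have e1 := hI.k0
    rwa [htk] at e1
  obtain ⟨-, hR1, hR2⟩ := h2 _ hkl hkb
  obtain ⟨hk1', hfar⟩ := h3 _ hkl hkc
  have hbsm := h4 _ hkl hkd
  have hst : stCB f Cb Ck = C := by
    unfold stCB
    rw [hf1, hf2, hC]
  -- the standing hypotheses of the engine
  have hOk := hI.okB (by rw [htk]; exact hke) heL hCB hCe (by rw [hst, htk]; exact hbsm)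
  rw [htk, hst] at hOk
  have hnb0 : 0 ≤ nb0 (√Cb) (P.kap n) :=
    mul_nonneg (Real.sqrt_nonneg _) (Real.rpow_pos_of_pos hkl _).le
  have hnb1 : 2 * nb0 (√Cb) (P.kap n) ≤ 1 := by
    have e1 : 1 ≤ C ^ 2 := one_le_pow₀ hC0
    have e2 : 100 * nb0 (√Cb) (P.kap n) ≤ 100 * C ^ 2 * nb0 (√Cb) (P.kap n) :=
      mul_le_mul_of_nonneg_right (by linarith) hnb0
    linarith
  have hde1 : de ≤ 1 := hde.trans (Real.rpow_le_one hkl.le hk1' (by linarith))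
  obtain ⟨q1, q2, q3, q4, q5, q6⟩ := hfar N.card B.card (2 * nb0 (√Cb) (P.kap n)) de
    (by linarith) hnb1 hde0 hde hI.Nc hI.Bc
  have hFar : (M.stp (digOf Lw lam n N v)).FarIn M.nr (Rows M B) N
      (2 * nb0 (√Cb) (P.kap n)) (P.kap n ^ (-eL)) de :=
    hOk.farIn (Rows_sub M B) hI.N_rows (fun w => hI.be_le w) hnb0 hde0 hde1
      (fun x hx hxr w hw => by
        rw [stp_G_nil]
        exact hdec x hx hxr w hw)
  -- the representatives
  obtain ⟨R, hRs, hRc, hRn⟩ := exists_R Lw (Finset.Icc (n + 1) nE)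
    (show 0 < 2 * P.kap n by linarith)
  have hRK : ∀ K ∈ R, n + 1 ≤ K := fun K hK => (Finset.mem_Icc.1 (hRs hK)).1
  have hCC : C1 ≤ C := by
    have e1 : 0 ≤ (1 + Cb) / c1 := by positivity
    have e2 : 1 * (C1 + 2) ≤ Ck * (C1 + 2) := mul_le_mul_of_nonneg_right hCk (by linarith)
    rw [hC]
    linarith
  have hCu : C1' ≤ 4 * (250 * stCB f Cb Ck ^ 3) := by
    rw [hst]
    have e2 : C ≤ C ^ 3 := by
      have : C * 1 ≤ C * C ^ 2 := mul_le_mul_of_nonneg_left (one_le_pow₀ hC0) (by linarith)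
      nlinarith
    linarith
  have hCu0 : 0 ≤ 250 * stCB f Cb Ck ^ 3 := by
    rw [hst]
    positivity
  have hpkw : ∀ w, R0 * pk (digOf Lw lam n N v).P (okL Lw n N) w ≤ R0 - 1 := fun w =>
    pk_law (by linarith) hRθ hθ w
  have hAnr : M.A ⊆ M.nr := hI.G.A_sub_nr
  have hka9 : P.kap n ^ (9 / 256 : ℝ) ≤ 1 := Real.rpow_le_one hkl.le hk1' (by norm_num)
  have hT1 : (1 : ℝ) ≤ P.kap n ^ (-7 / 8 + vt) :=
    Real.one_le_rpow_of_pos_of_le_one_of_nonpos hkl hk1' (by linarith)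
  have hYc : (((M.A ∩ B).card : ℝ)) * (4 * (P.kap n ^ (-eL) + 1) ^ 3 *
      qF N.card (2 * nb0 (√Cb) (P.kap n)) (P.kap n ^ (-eL)) de) ≤ P.kap n ^ (-7 / 8 + vt) := by
    have e1 : (((M.A ∩ B).card : ℝ)) ≤ B.card := by
      exact_mod_cast Finset.card_le_card Finset.inter_subset_right
    have e2 := hFar.qF_nonneg N.card
    have e3 : 0 < P.kap n ^ (-eL) := Real.rpow_pos_of_pos hkl _
    have e4 : 0 ≤ 4 * (P.kap n ^ (-eL) + 1) ^ 3 *
      qF N.card (2 * nb0 (√Cb) (P.kap n)) (P.kap n ^ (-eL)) de := by positivity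
    exact ((mul_le_mul_of_nonneg_right e1 e4).trans q4).trans hT1
  have h5 := h1 (R := R) (a := fun K => wA Lw lam nE n K N π v M)
    (z := fun K => wZ Lw lam nE P F n K N π v M) hf1 hf2 hka hI hpkw (hRc.trans hR1)
    (fun s _ K hK => wtB hW (hRK K hK) hCu hCu0 _ s)
    (fun K hK x hx => start_w hW hI.G (hRs hK) hx)
    (fun s => hFar.farB hOk hka9 q1 q2 s)
    (fun s => hFar.farTB hOk hka9 (fun y hy => hAnr (Finset.mem_inter.1 hy).1) le_rfl q3 hYc s)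
  refine le_trans (ANP.Pr_mono ?_ ?_) h5
  · exact ⟨fun x a => hI.dig.dig.P0 x a, fun x => hI.dig.dig.P1 x⟩
  rintro ω ⟨hω, hnF⟩ hAP
  apply hnF
  have hAP' : APB (M.stp (digOf Lw lam n N v)) (okL Lw n N) M.nr (Rows M B) (M.A ∩ B) B
      (ftol ↥R vt (P.kap n)) (fun K : ↥R => wA Lw lam nE n K N π v M)
      (fun K : ↥R => wZ Lw lam nE P F n K N π v M) (ANS.full ω) := by
    by_contra hc
    exact hc hAP
  have h6 := frz_of_apb (nE := nE) (π' := π' ω) (v' := N.piecewise ω v) hW hI.G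
    (Finset.Subset.refl N) hOk
    (th := 2 * P.kap n) (cmin := Lw.ep / 2 ^ (n + 1)) (by linarith)
    (by rw [hLe]; positivity) (fun m hm a ha => cmin_law Lw hm ha) hRK hRn hω (hπ' ω) rfl
    (W := W ω) (k := P.kap n) (vt := vt) (δ := P.kap n) hkl hk1'
    (fun y hy hyW => by
      by_cases hyN : y ∈ N
      · rw [okL_some Lw n hyN]
        exact fun hwk => hyW (hWk ω y hyN hwk)
      · exact okL_off Lw n hyN _)
    hkl hk1' q6
    (fun x hx hxr => by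
      have e1 := hFar.farHB hx hxr
      rw [stp_G_nil] at e1
      exact e1.trans q5) hAP'
  refine h6.mono_e3 fun K hK => ?_
  have e1 := hR2 n hk4'
  rw [hLe]
  have e2 := UK_pos (L := Lw) (n := n) hW.lam0 K
  have e3 : 2 * P.kap n / (ep / 2 ^ (n + 1)) / 2 * (C1' + P.kap n ^ (11 / 256 : ℝ)) ≤
      2 * P.kap n / (ep / 2 ^ (n + 1)) / 2 * (C1 + P.kap n ^ (11 / 256 : ℝ)) :=
    mul_le_mul_of_nonneg_left (by linarith) (by positivity)
  have e4 : 4 * UK Lw lam n K * (P.kap n ^ (1 / 32 : ℝ) + P.kap n ^ (1 / 45 : ℝ) +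
      2 * P.kap n / (ep / 2 ^ (n + 1)) / 2 * (C1' + P.kap n ^ (11 / 256 : ℝ))) ≤
      4 * UK Lw lam n K * (3 * P.kap n ^ (1 / 45 : ℝ)) :=
    mul_le_mul_of_nonneg_left (by linarith) (by positivity)
  calc _ ≤ _ := e4
    _ = 12 * UK Lw lam n K * P.kap n ^ (1 / 45 : ℝ) := by ring

end Pool.Agent.AND
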