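import Pool.Agent.AND.StepFrame
import Pool.Agent.AND.StepCoreB
import Pool.Agent.AND.StepPrB
import Pool.Agent.AND.StepFrzA
import Pool.Agent.AND.StepNumC
import Pool.Agent.ANC.StepN3

/-! # AND / StepFinB: THE ENGINE IN THE STATES OF THE ALGORITHM, general laws (helper52)

* `ev_deF` : the number `deF` of a state is smaller than every power of `κ`.
* `frzGoalB` : `FrzGoal (LawB κ F) x c q 1 Kp`. -/

set_option autoImplicit false

open Matrix Finset Filter Topology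

noncomputable section

namespace Pool.Agent.AND

open Pool.Agent.Kin Pool.Agent.APS Pool.Agent.ANM Pool.Agent.ANC Pool.Agent.ANB Pool.Agent.ANQ

/-- the sides dominate the additive constant of the chains -/
theorem cc_side {k0 : ℝ} {al j n cc : ℕ} (h : LvN k0 al j n cc) (hk : 0 < k0)
    (hk1 : k0 ≤ 1 / 4) (hal : 2 ≤ al) : cc < 2 * side k0 al j := by
  have hk2 : k0 < 1 := by linarith
  have hK := ks_pos hk al j
  have hK' := ks_pos hk al (j + 1)
  have hKk := ks_le hk al j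
  have hKal : ks k0 al (j + 1) ≤ ks k0 al j ^ 2 := (ks_succ_le hk al j).trans
    (pow_le_pow_of_le_one hK.le (hKk.trans hk2.le) hal)
  have hs := (side_rpow hk hk2 al j).1
  have h1 : (ks k0 al j ^ 2) ^ (-2 : ℝ) ≤ ks k0 al (j + 1) ^ (-2 : ℝ) :=
    Real.rpow_le_rpow_of_nonpos hK' hKal (by norm_num)
  have h2 : (ks k0 al j ^ 2) ^ (-2 : ℝ) = ks k0 al j ^ (-2 : ℝ) * ks k0 al j ^ (-2 : ℝ) := by
    rw [pow_two, Real.mul_rpow hK.le hK.le]
  have h3 : (16 : ℝ) ≤ ks k0 al j ^ (-2 : ℝ) := by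
    have e1 : ks k0 al j ^ (-2 : ℝ) = (ks k0 al j ^ 2)⁻¹ := by
      rw [Real.rpow_neg hK.le]
      norm_cast
    rw [e1, ← one_div, le_div_iff₀ (by positivity)]
    nlinarith
  have h4 := h.cc
  have h5 : 16 * ks k0 al j ^ (-2 : ℝ) ≤ ks k0 al j ^ (-2 : ℝ) * ks k0 al j ^ (-2 : ℝ) :=
    mul_le_mul_of_nonneg_right h3 (by linarith)
  have h6 : (cc : ℝ) < ((2 * side k0 al j : ℕ) : ℝ) := by
    push_cast
    linarith
  exact_mod_cast h6

/-- THE NUMBER of the decay -/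
theorem ev_deF {m0 : ℝ} (hm : 0 < m0) {C1 : ℝ} (hC1 : 0 ≤ C1) (M : ℝ) {al : ℕ} (hal : 2 ≤ al) :
    ∀ᶠ k0 in 𝓝[>] (0 : ℝ), ∀ j n cc : ℕ, LvN k0 al j n cc →
      deF (m0 * kap k0 n) 4 cc C1 (side k0 al j) ≤ kap k0 n ^ M ∧ cc < 2 * side k0 al j := by
  filter_upwards [ev_tail (3 * C1 * Real.exp m0 / (4 * m0)) (A := m0 / 4) (B := m0 / 2)
    (by positivity) (by positivity) 1 M hal,
    ev_small (show (0 : ℝ) < 1 / 4 by norm_num)] with k0 h1 hk j n cc hn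
  have hk0 := hk.1
  have hκ := kap_pos hk0 n
  have hκ1 : kap k0 n ≤ 1 := (kap_le hk0 n).trans (hk.2.trans (by norm_num))
  refine ⟨?_, cc_side hn hk0 hk.2 hal⟩
  refine le_trans ?_ (h1 j n hn.lo hn.hi cc hn.cc)
  unfold deF
  have e1 : Real.exp (m0 * kap k0 n * cc / (4 : ℕ)) = Real.exp (m0 / 4 * (kap k0 n * cc)) := by
    congr 1
    push_cast
    ring
  have e2 : Real.exp (-(2 * (m0 * kap k0 n) * side k0 al j / (4 : ℕ))) =
      Real.exp (-(m0 / 2 * (kap k0 n * side k0 al j))) := by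
    congr 1
    push_cast
    ring
  rw [e1, e2, mul_assoc (3 * C1 * Real.exp (m0 * kap k0 n) / (4 * (m0 * kap k0 n)))]
  refine mul_le_mul_of_nonneg_right ?_ (mul_pos (Real.exp_pos _) (Real.exp_pos _)).le
  rw [Real.rpow_neg_one]
  have e3 : 3 * C1 * Real.exp m0 / (4 * m0) * (kap k0 n)⁻¹ =
      3 * C1 * Real.exp m0 / (4 * (m0 * kap k0 n)) := by
    field_simp
  rw [e3]
  have e4 : Real.exp (m0 * kap k0 n) ≤ Real.exp m0 := Real.exp_le_exp.2 (by nlinarith)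
  gcongr

variable {d : ℕ} {CM : ℝ}

/-- [STEP], THE ENGINE, GENERAL LAWS -/
theorem frzGoalB (hd : 3 ≤ d) (x : Ex d CM) (c : Cst) (q : Csts) {κ : LawC} (hκO : κ.Ok)
    (F : ℝ → ℕ → ℕ) (hq : q.Ok c) (hdS : c.dS ≤ 1 / 2) {Kp : ℝ} (hKp : 0 < Kp)
    (hcl1 : c.cl ≤ κ.cL) (hκ1 : κ.cL ≤ 1) (hth : q.th ≤ κ.thL) :
    FrzGoal (LawB κ F) x c q 1 Kp := by
  have hc := hq.pos
  have hcl := hc.cl
  have hcs := hc.cs
  have hc1 := hq.c1
  have hC1 := hq.C1
  have hvt := x.vt_pos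
  have hvt2 := ex_vt2 x
  have hep := hκO.ep0
  have hcLp := hκO.cL_pos
  have hcg : 0 < q.cg c := by
    unfold Csts.cg
    positivity
  have hcK : 0 < c.D0c / 2 := half_pos hc.D0c
  have hm0 : 0 < mu0 d c (q.c1 / 2) := mu0_pos (by omega) hc (by positivity)
  obtain ⟨hm1, hm2⟩ := mu0_le (d := d) (c := c) (c1 := q.c1 / 2) (by omega)
  have hR0 : (2 : ℝ) ≤ 2 ^ κ.m := by
    calc (2 : ℝ) = 2 ^ 1 := by norm_num
      _ ≤ 2 ^ κ.m := pow_le_pow_right₀ (by norm_num) hκO.m0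
  have hRθ : (1 : ℝ) ≤ 2 ^ κ.m * (1 / 2) ^ κ.m := by
    rw [← mul_pow]
    norm_num
  obtain ⟨kk, hkk, h1⟩ := frzB_prob (d := d) hd (c1 := q.c1 / 2) (C1 := 2 * q.C1)
    (Cb := 4 / c.cl) (Ck := 4 / κ.cL) (cK := c.D0c / 2) (cA := 1) (cT0 := 2) (eL := 1 / 8)
    (CM := eM d x.al) (CB := eM d x.al) (Ce := 2) (vt := 3 / 4 * x.vt) (vi := 3 * x.vt)
    (Kp := Kp) (ep := κ.ep) (R0 := 2 ^ κ.m) (θ := (1 / 2) ^ κ.m)
    (by positivity) (by positivity) (by positivity) (by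
      rw [le_div_iff₀ hcLp]
      linarith) hcK (by norm_num) (by norm_num) (by norm_num)
    (by norm_num) (eM_nonneg _ _) (eM_nonneg _ _) (by norm_num) (by positivity) (by linarith)
    (by linarith) hKp hep hR0 hRθ
  filter_upwards [ev_wtNumC (LP := LawB κ F) (x := x) hq,
    ev_coreNm x hc hdS (c1 := q.c1 / 2) (C' := q.C') (cg := q.cg c) (by positivity) hcg,
    ev_deF hm0 (C1 := 2 * q.C1) (by positivity)
      (2 * eM d x.al + 4 * (1 / 8) + eM d x.al + 2) x.al2,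
    ev_small (show (0 : ℝ) < 1 / mu0 d c (q.c1 / 2) by positivity),
    ev_small hkk, ev_small (show (0 : ℝ) < 1 / 4 by norm_num)]
    with k0 hW hNm hDe hkm hk hk4 N _ X _ _ Lw Sf lam E es g0 gam Lm M H j i v cc Mm _ hS
  have hk0 := hk.1
  have hk1 : k0 < 1 := by linarith [hk4.2]
  have hWn := hW N X Lw Sf lam E es g0 gam Lm M H (lawN_ofB H.law hcl1 hκ1 hth)
  have hNm := hNm j M
  set D := datC x c q N Lw Sf lam E k0 es g0 gam Lm with hD
  have hLB := H.law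
  have hn1 := hS.n1
  set n := D.g.sn j i with hn
  set π := (D.g.crun D.ana j i v).pi with hπ
  set Nn := D.stN j i v with hNn
  have hκ := kap_pos hk0 n
  have hκk : kap k0 n ≤ k0 := kap_le hk0 n
  have hSf : D.Sf = SfOf Lw lam (lv k0 x.al (M + 1) + 1) := hLB.sf
  have hWt := hWn n hn1
  have hNe : Nn = π.act ∩ D.g.cell j (D.g.sL j i) := rfl
  -- the empty case
  rw [one_mul]
  by_cases hne : ∃ ω, ClOk D Lw j i v ω
  swap
  · have e1 : {ω | ClOk D Lw j i v ω ∧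
          ¬ FrzO D Lw lam j i (side k0 x.al j) v Mm
            (fun K => 12 * UK Lw lam n K * kap k0 n ^ (1 / 45 : ℝ))
            (kap k0 n ^ (9 / 256 : ℝ)) (kap k0 n ^ (-(7 / 8) + 3 / 4 * x.vt : ℝ))
            (30 * kap k0 n ^ (1 / 140 : ℝ)) ω} = (∅ : Set (Tor d N → X)) := by
      ext ω
      simp only [Set.mem_ofPred_eq, Set.mem_empty_iff_false, iff_false, not_and]
      exact fun h => absurd ⟨ω, h⟩ hne
    rw [e1, ANP.Pr_empty]
    exact Real.rpow_nonneg hκ.le _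
  obtain ⟨ω0, hω0⟩ := hne
  have hgeo := hS.geo _ hω0.rt
  obtain ⟨m, hm, hnum⟩ := hNm n cc N es D.f rfl hS.hj hS.lvn q.Cc H.pick
  obtain ⟨hde, hcc⟩ := hDe j n cc hS.lvn
  have hLn : LawBn Lw n :=
    { cL1 := by
        rw [hLB.of.cL]
        exact hκ1
      hs := hLB.prec_le (by omega)
      anti := fun a => Lw.kp_anti (hLB.of.an hκO).le (hLB.prec_le (by omega)) a }
  have hCore := coreIB_of (D := D) (Lw := Lw) (lam := lam) (E := E) (by omega) rfl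
    H.inh.fn.fh.pos H.hlam hS.inC hS.lev hgeo hm hLn hWt.knn
    (by rw [H.hLm]; exact hnum)
  have hWh := wtHyp_of (D := D) (Lw := Lw) (lam := lam) (E := E) (N := Nn) rfl
    (fun m a _ h => wkA_wk h) H.inh.fn.fh.pos hS.Fp hS.Fb hWt hS.inC hgeo.NA hS.lev
  have hgi : g0.im ≤ q.C1 :=
    ((le_abs_self _).trans (Complex.abs_im_le_norm g0)).trans H.dat.g2
  have hg1 := H.dat.g1
  have hp0 : 0 ≤ k0 ^ (x.vi / 2) := Real.rpow_nonneg hk0.le _
  have hp1 : k0 ^ (x.vi / 2) ≤ 1 := Real.rpow_le_one hk0.le hk1.le (by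
    have := x.vi_pos
    linarith)
  -- the classes of the cell are strong at the level `n`
  have hstr : ∀ w ∈ Nn, ¬ Lw.wk n (v w) := by
    intro w hw hwk
    have e1 := hS.inC.good.klo w (hgeo.NA hw)
    have e2 : Mm.k w = (sysOf Lw lam E D.P.eta).kk n (v w) := by
      rw [hS.inC.med.k]
      unfold kp
      rw [if_pos (hS.inC.med.A ▸ hgeo.NA hw), hS.lev w hw]
      rfl
    rw [e2, kk_wk hwk] at e1
    have e3 : 0 < c.cl * kap k0 (n + 1) := mul_pos hcl (kap_pos hk0 _)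
    exact absurd e1 (not_le.2 e3)
  -- the decay
  have hμ : 0 < mu0 d c (q.c1 / 2) * kap k0 n := by positivity
  have hμ1 : mu0 d c (q.c1 / 2) * kap k0 n ≤ 1 := by
    have e1 := hκk.trans hkm.2
    rw [le_div_iff₀ hm0] at e1
    linarith
  have hs4 : kap k0 (n + 1) = kap k0 n / 4 := kap_succ k0 n
  have hdec := dec_st (D := D) hS.inC hgeo hμ hμ1 (by
      show 8 * (d : ℝ) * (mu0 d c (q.c1 / 2) * kap k0 n) ≤ c.cl * kap k0 (n + 1) * (q.c1 / 2)
      rw [hs4]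
      nlinarith) (by
      show 8 * (d : ℝ) * (mu0 d c (q.c1 / 2) * kap k0 n) ≤ c.cs * kap k0 (n + 1)
      rw [hs4]
      nlinarith) hcc
  rw [hSf, hLB.of.cL] at hCore
  have h2 := h1 (Lw := Lw) (f := D.f) (P := D.P) (lam := lam)
    (C1' := D.f.g0.im + (D.P.del0 + k0 ^ (D.P.vi / 2))) (cI := D.cI)
    (nE := lv k0 x.al (M + 1) + 1) (n := n) (F := D.fi j i) (π := π) (v := v) (M := Mm)
    (N := Nn) (B := nrB Mm (side k0 x.al j) (D.g.sL j i))
    (de := deF (mu0 d c (q.c1 / 2) * kap k0 n) 4 cc D.f.C1 (side k0 x.al j))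
    (fun ω => raise D.ana π (n + 1) (D.g.cell j (D.g.sL j i)) (Nn.piecewise ω v))
    (fun ω => wkN D.ana n Nn ω) rfl rfl
    (hLB.of.ep) (hκk.trans hk.2) ?_ hCore hWh ?_ ?_ ?_ hdec ?_ hde (fun ω y => ?_) ?_
  · refine le_trans (ANP.Pr_mono ?_ ?_) h2
    · have hdg := digOf_ok (T := Tor d N) Lw H.hlam.le n Nn v
      exact ⟨fun x a => hdg.P0 x a, fun x => hdg.P1 x⟩
    · rintro ω ⟨h3, h4⟩
      refine ⟨h3.cls, fun h5 => h4 ?_⟩
      unfold FrzO
      rw [← hn, ← hπ, ← hNn, hSf]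
      have e1 : (-(7 / 8) + 3 / 4 * x.vt : ℝ) = -7 / 8 + 3 / 4 * x.vt := by ring
      rw [e1]
      exact h5
  · show kap k0 n * 4 ^ (n + 1) ≤ 1
    have e1 : kap k0 n * 4 ^ (n + 1) = 4 * k0 := by
      unfold kap
      rw [pow_succ, one_div, inv_pow]
      field_simp
    rw [e1]
    linarith [hk4.2]
  · show 0 ≤ g0.im + (0 + k0 ^ (x.vi / 2))
    linarith
  · show g0.im + (0 + k0 ^ (x.vi / 2)) ≤ 2 * q.C1
    linarith
  · intro w hw
    have e1 := Lw.pS_next (n := n) (by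
      have := hLB.nf1
      omega) (hstr w hw)
    rw [hLB.of.m] at e1
    exact e1
  · exact deF_nonneg hμ.le (by
      show 0 ≤ 2 * q.C1
      linarith) _ _ _
  · have e2 := raise_lev (A := D.ana) (π := π) (n := n) hNe (Nn.piecewise ω v) y
    rw [e2]
    rfl
  · intro ω y hy hwk
    refine mem_wkN.2 ⟨hy, ?_⟩
    show wkA Lw (n + 1) (ω y)
    exact ⟨by
      have := hLB.nf1
      omega, hwk⟩

end Pool.Agent.AND
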