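import Pool.Agent.AND.StepOkG
import Pool.Agent.ANC.StepH4N

/-! # AND / StepH4G: `H4NumG`, the numbers of the form fields in every state (helper18)

* `h4NumG` : `H4NumG LP x c q ρ` for the constants `StC`;   `h4Goal_all` : `H4Goal`. -/

set_option autoImplicit false

open Matrix Finset Filter Topology

noncomputable section

namespace Pool.Agent.AND

open Pool.Agent.Kin Pool.Agent.APS Pool.Agent.ANM Pool.Agent.ANC Pool.Agent.ANB Pool.Agent.ANQ

variable {d : ℕ} {CM : ℝ}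

/-- THE NUMBERS OF THE FORM FIELDS in every state -/
theorem h4NumG (LP : LawP) (x : Ex d CM) {c : Cst} {q : Csts} (hq : q.Ok c) {ρ : ℝ}
    (hSt : StC d c (2 * q.C1) (q.c1 / 2) (q.th / 4) ρ) : H4NumG LP x c q ρ := by
  have hcg : 0 < q.cg c := by
    unfold Csts.cg
    have h1 := hq.c1
    have h2 := hq.pos.cl
    positivity
  filter_upwards [ev_h4num x hSt (KB d x.al), ev_LmK hq.C'.le hcg, ev_small one_pos] with k0 h0
    hLm hk N _ X _ _ Lw Sf lam E es g0 gam Lm M H j hj n cc hn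
  have hk0 := hk.1
  obtain ⟨hL0, hL1⟩ := hLm
  rw [← H.hLm] at hL0 hL1
  have hC0 := hq.pos.C0c
  have hC : 0 ≤ 2 * (c.C0c * k0⁻¹) := by positivity
  have hdS : 2 * c.dS ≤ 1 := by linarith [hSt.dS1]
  refine ⟨_, _, _, _, _, _, h0 es H.dat.es0.le H.dat.es1 j n cc hn
    (datC x c q N Lw Sf lam E k0 es g0 gam Lm).f
    ((datC x c q N Lw Sf lam E k0 es g0 gam Lm).uN k0 (q.th / 4) Lm
      (fun n => kap k0 n ^ (3 * x.vt)) n) rfl rfl rfl rfl hC le_rfl hdS (Lm + 1 + 1) ?_ ?_⟩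
  · linarith
  · have := hL1 n
    linarith

/-- THE FORM FIELDS in every state -/
theorem h4Goal_all (LP : LawP) (x : Ex d CM) {c : Cst} {q : Csts} (hq : q.Ok c) {ρ : ℝ}
    (hSt : StC d c (2 * q.C1) (q.c1 / 2) (q.th / 4) ρ) : H4Goal LP x c q ρ :=
  h4Goal_of hSt.d0 x c q ρ hq (h4NumG LP x hq hSt)

end Pool.Agent.AND
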