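import Pool.Agent.AND.MainA
import Pool.Agent.AND.StepH4G
import Pool.Agent.AND.StepFinB

/-! # AND / MainThm: EXTENDED STATES FOR THE ANDERSON MODEL AT WEAK DISORDER

`exists_condC` : the choice of the constants;
`main_law` : for `d ≥ 3`, every law with bounded density and compact support, every `0 < a < b < 4 d`, at weak disorder, almost
surely the spectrum of `-Δ + λ V` in `[a,b]` is not empty and purely continuous. -/

set_option autoImplicit false

open Matrix Finset Filter Topology MeasureTheory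

noncomputable section

namespace Pool.Agent.AND

open Pool.Agent.Kin Pool.Agent.APS Pool.Agent.ANM Pool.Agent.ANC Pool.Agent.ANB Pool.Agent.ANQ
open Pool.Agent.Helper3.Anderson (GoodLaw)

variable {d : ℕ} {CM : ℝ}

theorem tHc_pos' {c1 C1 rho : ℝ} (h1 : 0 < c1) (h2 : 0 < C1) (h3 : 0 < rho) :
    0 < tHc c1 C1 rho := by
  unfold tHc
  have h4 : √(1 - rho / 2) < 1 := by
    rw [Real.sqrt_lt' one_pos]
    linarith
  have h5 : 0 < 1 - √(1 - rho / 2) := by linarith
  positivity

/-- THE CHOICE OF THE CONSTANTS -/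
theorem exists_condC {κ : LawC} (hκ : κ.Ok) (hep : κ.ep < κ.D) (x : Ex d CM) (hd : 0 < d)
    {c1 C1 C C' : ℝ} (h1 : 0 < c1) (h2 : c1 ≤ 1) (h3 : 1 ≤ C1) (h4 : 1 ≤ C) (h5 : 0 < C') :
    ∃ (c : Cst) (q : Csts), CondC κ x c q ∧ q.c1 = c1 ∧ q.C1 = C1 ∧ q.C = C ∧ q.C' = C' := by
  have hcl := hκ.cL_pos
  have hcl1 := hκ.cL_lt_one hep
  have hth := hκ.thL_pos
  have hd0 : (0 : ℝ) < d := by exact_mod_cast hd
  obtain ⟨cl, hcl'⟩ : ∃ cl, cl = κ.cL := ⟨_, rfl⟩
  obtain ⟨th, hth'⟩ : ∃ th, th = min κ.thL (1 / 4) := ⟨_, rfl⟩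
  have hcl0 : 0 < cl := by rw [hcl']; exact hcl
  have hcl2 : cl ≤ 1 := by rw [hcl']; exact hcl1.le
  have hth0 : 0 < th := by rw [hth']; exact lt_min hth (by norm_num)
  have hth1 : th ≤ 1 / 4 := by rw [hth']; exact min_le_right _ _
  have hth2 : th ≤ κ.thL := by rw [hth']; exact min_le_left _ _
  obtain ⟨cs, hcs⟩ : ∃ cs, cs = cl * (3 / 4 * c1) := ⟨_, rfl⟩
  have hcs0 : 0 < cs := by rw [hcs]; positivity
  obtain ⟨A, hA⟩ : ∃ A, A = C * (1 + C1) ^ (1 - 2 * x.e) := ⟨_, rfl⟩
  have hA0 : 0 < A := by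
    rw [hA]
    have : 0 < (1 + C1) ^ (1 - 2 * x.e) := Real.rpow_pos_of_pos (by linarith) _
    have : 0 < C := by linarith
    positivity
  have hB0 : 0 < (1 + C1) ^ (x.e / 4) := Real.rpow_pos_of_pos (by linarith) _
  have hC0 : 0 < C := by linarith
  have hC10 : 0 < C1 := by linarith
  -- the rates
  obtain ⟨m0, hm0⟩ : ∃ m0, m0 = min (cl * (c1 / 2) / 64) (cs / 32) / d := ⟨_, rfl⟩
  obtain ⟨m1, hm1⟩ : ∃ m1, m1 = min 1 (min (cl * c1 / (64 * d)) (cs / (32 * d))) := ⟨_, rfl⟩
  have hm00 : 0 < m0 := by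
    rw [hm0]
    have : 0 < min (cl * (c1 / 2) / 64) (cs / 32) := lt_min (by positivity) (by positivity)
    positivity
  have hm10 : 0 < m1 := by
    rw [hm1]
    exact lt_min one_pos (lt_min (by positivity) (by positivity))
  have hT := tHc_pos' (c1 := c1 / 2) (C1 := 2 * C1) (rho := th / 4) (by positivity)
    (by positivity) (by positivity)
  have hV : 0 < cνV (c1 / 2) (2 * C1) (th / 4) m1 := by
    unfold cνV
    positivity
  obtain ⟨b, hb⟩ : ∃ b, b = min (tHc (c1 / 2) (2 * C1) (th / 4) * m0 / 256)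
      (cνV (c1 / 2) (2 * C1) (th / 4) m1 / 64) := ⟨_, rfl⟩
  have hb0 : 0 < b := by
    rw [hb]
    exact lt_min (by positivity) (by positivity)
  have hb1 : 256 * b ≤ tHc (c1 / 2) (2 * C1) (th / 4) * m0 := by
    have : b ≤ tHc (c1 / 2) (2 * C1) (th / 4) * m0 / 256 := by rw [hb]; exact min_le_left _ _
    linarith
  have hb2 : 64 * b ≤ cνV (c1 / 2) (2 * C1) (th / 4) m1 := by
    have : b ≤ cνV (c1 / 2) (2 * C1) (th / 4) m1 / 64 := by rw [hb]; exact min_le_right _ _
    linarith
  let c : Cst :=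
    { b := b
      Cg := 5 / 2
      cl := cl
      cs := cs
      CD := 1
      Ce := 1
      dS := 1 / 2
      Cz := 1
      D0c := 1 / A
      C0c := C / (cl * c1 / 4)
      e0c := (1 + C1) ^ (x.e / 4) / (cl * c1 / 4 * c1) }
  let q : Csts :=
    { c1 := c1
      C1 := C1
      C := C
      C' := C'
      w := 1
      th := th
      Cc := 8 }
  have hpos : c.Pos :=
    { b := hb0
      Cg := by show (0 : ℝ) ≤ 5 / 2; norm_num
      Cg1 := le_rfl
      cl := hcl0
      cl1 := by show cl ≤ 4; linarith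
      cs := hcs0
      CD := one_pos
      Ce := one_pos
      dS := by show (0 : ℝ) < 1 / 2; norm_num
      Cz := one_pos
      D0c := by show 0 < 1 / A; positivity
      C0c := by show 0 < C / (cl * c1 / 4); positivity
      e0c := by show 0 < (1 + C1) ^ (x.e / 4) / (cl * c1 / 4 * c1); positivity }
  refine ⟨c, q, ?_, rfl, rfl, rfl, rfl⟩
  exact
    { ok :=
        { pos := hpos
          c1 := h1
          C1 := h3
          C := h4
          C' := h5
          w := one_pos
          w1 := le_rfl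
          th := hth0
          th1 := hth1
          cs := hcs.le }
      st :=
        { c1p := h1
          C1p := by linarith
          Cp := h4
          D0 := by
            show 1 / A * (C * (1 + C1) ^ (1 - 2 * x.e)) ≤ 1
            rw [← hA, one_div, inv_mul_cancel₀ hA0.ne']
          C0 := by
            show C ≤ C / (cl * c1 / 4) * (cl * c1 / 4)
            rw [div_mul_cancel₀]
            positivity
          e0 := by
            show (1 + C1) ^ (x.e / 4) ≤
              (1 + C1) ^ (x.e / 4) / (cl * c1 / 4 * c1) * (cl * c1 / 4 * c1)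
            rw [div_mul_cancel₀]
            positivity }
      Cg := rfl
      cl := hcl'.le
      th := hth2
      StC :=
        { d0 := hd
          pos := hpos
          hc1 := by show 0 < c1 / 2; positivity
          hcC := by show c1 / 2 ≤ 2 * C1; linarith
          hC1 := by show 1 ≤ 2 * C1; linarith
          rho0 := by show 0 < th / 4; positivity
          rho2 := by show th / 4 ≤ 2; linarith
          ρ0 := by show 0 < th / 4; positivity
          ρ2 := by show th / 4 ≤ 2; linarith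
          b1 := by
            rw [hm0] at hb1
            exact hb1
          dS1 := le_rfl }
      Cc := le_rfl
      dS := by show 2 * (1 / 2 : ℝ) ≤ 1; norm_num
      c1 := by show c1 ≤ 4; linarith
      b := by
        rw [hm1] at hb2
        exact hb2 }

/-- EXTENDED STATES: for every law with bounded density and compact support, in every interval inside `(0, 4 d)`, at weak
disorder, almost surely the spectrum is not empty and purely continuous -/
theorem main_law (hd : 3 ≤ d) {μ : Measure ℝ} [IsProbabilityMeasure μ] {M : ℝ} {K : NNReal}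
    (hμ : GoodLaw μ M K) {a b : ℝ} (ha : 0 < a) (hab : a < b) (hb : b < 4 * d) :
    ∃ lam0 : ℝ, 0 < lam0 ∧ ∀ lam : ℝ, 0 < lam → lam ≤ lam0 →
      ∀ᵐ ω ∂(Helper3.Anderson.siteLaw d μ), PureCont (fun x => lam * ω x) a b := by
  obtain ⟨x⟩ := ex_exists d hd (lcmE d) (Nat.cast_nonneg _)
  refine main_of_data hd hμ x ha hab hb fun κ hκ hep c1 C1 C C' h1 h2 h3 h4 h5 => ?_
  obtain ⟨c, q, hC, rfl, rfl, rfl, rfl⟩ := exists_condC hκ hep x (by omega) h1 h2 h3 h4 h5
  exact mainData_of hκ hep x hd le_rfl hC zero_le_one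
    (frzGoalB hd x c q hκ (lkF κ.S d) hC.ok (by have := hC.dS; linarith) x.Kp_pos hC.cl
      (hκ.cL_lt_one hep).le hC.th)
    (h4Goal_all _ x hC.ok hC.StC)

end Pool.Agent.AND
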