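import Pool.Agent.AND.StepGlue
import Pool.Agent.ANQ.Torus
import Pool.Agent.ANQ.LeakCells
import Pool.Agent.ANC.RecP
import Pool.Agent.AND.Use
import Pool.Agent.ANB.Perc

/-! # AND / PartsD: WHAT THE MODULES PROVIDE for one torus

`Dat.rej` = the two kinds of rejections (`Dat.E1` of StepGlue and the percolation events); `Parts` = everything the other modules provide;
`Top1.outS_of_parts` : `Parts ⟹ OutS` (all cells, all super-stages `≤ M`).
-/

set_option autoImplicit false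

open Finset Filter Topology

noncomputable section

namespace Pool.Agent.AND

open Pool.Agent.Kin Pool.Agent.APS Pool.Agent.ANM Pool.Agent.ANC Pool.Agent.ANB Pool.Agent.ANQ
open Pool.Agent.ANP (IsLaw Pr)

variable {d L : ℕ} [NeZero L] {X : Type}

namespace Dat

variable {D : Dat d L X}

/-- field `rej` -/
theorem rej {K : Tor d L → Finset X} {r : ℕ → ℕ} (hP : PercIn D.g D.ana K r)
    (hrt : ∀ j (I : Finset (Tor d L)), D.rt j I ↔ ∀ x, ¬ Rb D.g.dist (r j) (I : Set (Tor d L)) x)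
    {j i : ℕ} {v : Tor d L → X} (h : D.g.Rej D.ana j (D.g.run D.ana j v) v i) :
    v ∈ D.E1 j i ∨ v ∈ PE D.g K r j (D.g.sL j i) := by
  have h1 := rej_split (Acc' := fun j i π v =>
    D.GoodAt (D.g.sn j i) (D.fi j (i + 1)) (D.g.up D.ana j i π v) v) hP
    (fun j i π v ha hb => (D.acc_iff j i π v).2 ⟨(hrt j _).2 ha, hb⟩) h
  rcases h1 with ⟨h1, h2, h3⟩ | h1
  · exact Or.inl ⟨h1, (hrt j _).2 h2, h3⟩
  · exact Or.inr h1

/-- the hypotheses of `Perc` for the concrete input -/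
theorem percIn (K : Tor d L → Finset X) (r : ℕ → ℕ) (hmet : NMet D.g.dist) (hr1 : ∀ j, 1 ≤ r j)
    (hdvd : ∀ j, r j ∣ r (j + 1)) (hwk : ∀ n a x, D.wk n a → a ∈ K x)
    (hwk0 : ∀ a, ¬ D.wk (D.g.lv 0) a)
    (hrt : ∀ j (I : Finset (Tor d L)), D.rt j I → ∀ x, ¬ Rb D.g.dist (r j) (I : Set (Tor d L)) x) :
    PercIn D.g D.ana K r where
  met := hmet
  r1 := hr1
  dvd := hdvd
  wk := hwk
  wk0 := hwk0
  acc := fun j i π v h => hrt j _ ((D.acc_iff j i π v).1 h).1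

end Dat

/-- WHAT THE OTHER MODULES PROVIDE for one torus: super-stages `0, …, M`; `K` = the values which are ever weak, `r` = scales of
the percolation, `ll j` = bound of one leak test, `qw` = bound of the probability of weak values -/
structure Parts [Fintype X] [DecidableEq X] (D : Dat d L X) (Lw : Law X) (lam E es C1 c1 k0 : ℝ)
    (al J M : ℕ) (v2 K1 Cp Kp : ℝ) (K : Finset X) (r : ℕ → ℕ) (qw : ℝ) (ll xp : ℕ → ℝ) :
    Prop where
  law : IsLaw (fun _ : Tor d L => Lw.p)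
  g : D.g = torGeo d L k0 al J 24 v2 Lw.nf
  q : D.q = Lw.q
  wk : ∀ n a, D.wk n a → Lw.wk n a
  Y : D.Y = sysOf Lw lam E es
  fC : D.f.C1 = C1
  fc : c1 ≤ D.f.c1
  eta : D.P.eta = es
  qok : D.QOk
  /-- the last medium is good -/
  run : ∀ v, D.GoodAt (D.g.lv (M + 1)) (D.fs (M + 1)) (D.g.run D.ana (M + 1) v).pi v
  /-- the last tolerances are within uniform bounds -/
  fin : ∀ v M', IsMed (H0T d L) D.Y (D.g.run D.ana (M + 1) v).pi v M' →
    Good D.f (tolAt D.P D.Sf (D.g.lv (M + 1)) (D.fs (M + 1)) (D.g.run D.ana (M + 1) v).pi v M')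
      M' →
    ∃ u, (tolAt D.P D.Sf (D.g.lv (M + 1)) (D.fs (M + 1)) (D.g.run D.ana (M + 1) v).pi v
      M').In D.f M' u ∧
      Num D.f (tolAt D.P D.Sf (D.g.lv (M + 1)) (D.fs (M + 1)) (D.g.run D.ana (M + 1) v).pi v M')
        u
  /-- the step theorem (the current profile has no bad root) -/
  step : ∀ j ≤ M, ∀ i < D.g.ns j, ∀ v,
    ANB.Inv D.g (fun _ => K) (r j) (D.g.crun D.ana j i v).pi v →
    Pr (fun _ : Tor d L => Lw.p) (D.E1 j i ∩ Cls D.ana.q (D.g.crun D.ana j i v).pi v) ≤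
        Cp * kap k0 (D.g.sn j i) ^ Kp *
          Pr (fun _ : Tor d L => Lw.p) (Cls D.ana.q (D.g.crun D.ana j i v).pi v)
  /-- the leak tests -/
  leak : ∀ j ≤ M, 0 < j →
    LeakHyp (fun _ : Tor d L => Lw.p) D.g D.ana j (side k0 al j) (20 * side k0 al j) (ll j)
  ll0 : ∀ j, 0 ≤ ll j
  ll1 : ∀ j ≤ M, (side k0 al j : ℝ) ^ d * ll j ≤ an k0 al K1 j ^ 5
  /-- the percolation of the weak sites -/
  r1 : ∀ j, 1 ≤ r j
  rdvd : ∀ j, r j ∣ r (j + 1)
  rt : ∀ j (I : Finset (Tor d L)), D.rt j I ↔ ∀ x, ¬ Rb D.g.dist (r j) (I : Set (Tor d L)) x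
  wkK : ∀ n a, D.wk n a → a ∈ K
  wk0 : ∀ a, ¬ D.wk (D.g.lv 0) a
  Kq : ∑ a ∈ K, Lw.p a ≤ qw
  qw0 : 0 ≤ qw
  rs : ∀ j ≤ M, 2 * (8 * r j + side k0 al j) ≤ 24 * side k0 al j
  xp0 : ∀ j ≤ M, 0 ≤ xp j ∧ xp j ≤ an k0 al K1 j ^ 5
  xp1 : ∀ j ≤ M, 2 * ((2 * (4 * r j + side k0 al j) + 1) ^ d : ℕ) *
    (8 * ((3 : ℝ) ^ d) ^ 4 * qw) ^ r j ≤ xp j

end Pool.Agent.AND
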