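import Pool.Agent.AND.HoleGeo

/-!
# AND / PieceGeo: the pieces of a cluster (field `g5` of the content step)

* `mem_Dn_iff`, `mem_DF_iff`: the domains `Dn`, `DF` are unions over the points of the set;
* `Pcs d F l D₀ m Fp`: `F` is the union of the nonempty pieces `Fp 0, …, Fp (m - 1)`, pairwise at
  distance more than `l`, with diameter at most `D₀`;
* `exists_pcs`: a set which is covered by `n` balls of radius `w` has at most `n` pieces with link
  distance `l ≥ 2 w`, of diameter at most `n (2 w + l)`;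
* `Clu.pieces`: the clusters of super-stage `j + 1` have at most `J` pieces;
* `Pcs.mem_DF`, `Pcs.DF_far`, `Pcs.bdy_notMem`, `Pcs.bdy_sub`, `Pcs.bdy_eq`: the domains of the
  pieces and their boundaries;
* `Pcs.bdy_diam`, `Pcs.tri_bdy`: distances.
-/

set_option autoImplicit false

namespace Pool.Agent.AND

open Finset Pool.Agent.Kin Pool.Agent.ANL Pool.Agent.ANM Pool.Agent.ANQ

section dom

variable {X κ : Type} {d : X → X → ℕ} {E : κ → Set X}

theorem mem_sw_iff {S : Set X} {x : X} : x ∈ sw d E S ↔ ∃ y ∈ S, x ∈ sw d E {y} := by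
  constructor
  · rintro ⟨y, hy, l, hl⟩
    exact ⟨y, hy, y, rfl, l, hl⟩
  · rintro ⟨y, hy, z, hz, l, hl⟩
    obtain rfl : z = y := hz
    exact ⟨z, hy, l, hl⟩

/-- the domains are unions over the points of the set -/
theorem mem_Dn_iff (Δ : ℕ) {S : Set X} (n : ℕ) {x : X} :
    x ∈ Dn d E Δ S n ↔ ∃ y ∈ S, x ∈ Dn d E Δ {y} n := by
  induction n generalizing x with
  | zero => exact mem_sw_iff
  | succ n ih =>
    constructor
    · intro hx
      obtain ⟨z, ⟨w, hw, hwz⟩, l, hl⟩ := hx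
      obtain ⟨y, hy, h1⟩ := ih.1 hw
      exact ⟨y, hy, z, ⟨w, h1, hwz⟩, l, hl⟩
    · rintro ⟨y, hy, z, ⟨w, hw, hwz⟩, l, hl⟩
      exact ⟨z, ⟨w, ih.2 ⟨y, hy, hw⟩, hwz⟩, l, hl⟩

theorem mem_DF_iff [Fintype X] (Δ : ℕ) {F : Finset X} (n : ℕ) {x : X} :
    x ∈ DF d E Δ F n ↔ ∃ y ∈ F, x ∈ DF d E Δ {y} n := by
  rw [mem_DF, mem_Dn_iff]
  constructor
  · rintro ⟨y, hy, h1⟩
    refine ⟨y, mem_coe.1 hy, mem_DF.2 ?_⟩
    rwa [coe_singleton]
  · rintro ⟨y, hy, h1⟩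
    refine ⟨y, mem_coe.2 hy, ?_⟩
    have h2 := mem_DF.1 h1
    rwa [coe_singleton] at h2

end dom

/-- the pieces of `F` with link distance `l` -/
structure Pcs {ι : Type} [DecidableEq ι] (d : ι → ι → ℕ) (F : Finset ι) (l D0 m : ℕ)
    (Fp : ℕ → Finset ι) : Prop where
  ne : ∀ i < m, (Fp i).Nonempty
  un : (range m).biUnion Fp = F
  far : ∀ i < m, ∀ k < m, i ≠ k → ∀ x ∈ Fp i, ∀ y ∈ Fp k, l < d x y
  diam : ∀ i < m, ∀ x ∈ Fp i, ∀ y ∈ Fp i, d x y ≤ D0

variable {ι κ : Type} [DecidableEq ι] {d : ι → ι → ℕ}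

/-- few balls: few pieces -/
theorem exists_pcs (hd : NMet d) (F B : Finset ι) {w l : ℕ} (hl : 2 * w ≤ l)
    (hcov : ∀ y ∈ F, ∃ b ∈ B, d y b ≤ w) :
    ∃ (m : ℕ) (Fp : ℕ → Finset ι), m ≤ B.card ∧ Pcs d F l (B.card * (2 * w + l)) m Fp := by
  classical
  let cls : ι → Finset ι := fun x => F.filter fun y => Lk d l (F : Set ι) x y
  let P : Finset (Finset ι) := F.image cls
  -- a class is the class of each of its points
  have hcls : ∀ A ∈ P, ∀ x ∈ A, x ∈ F ∧ cls x = A := by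
    intro A hA x hx
    obtain ⟨z, hz, rfl⟩ := mem_image.1 hA
    obtain ⟨hxF, hzx⟩ := mem_filter.1 hx
    refine ⟨hxF, ?_⟩
    ext y
    simp only [cls, mem_filter]
    exact ⟨fun h => ⟨h.1, hzx.trans h.2⟩, fun h => ⟨h.1, (hzx.symm hd).trans h.2⟩⟩
  have hself : ∀ x ∈ F, x ∈ cls x := fun x hx => mem_filter.2 ⟨hx, Relation.ReflTransGen.refl⟩
  have hne : ∀ A ∈ P, A.Nonempty := by
    intro A hA
    obtain ⟨z, hz, rfl⟩ := mem_image.1 hA
    exact ⟨z, hself z hz⟩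
  -- close points are in the same class
  have hclose : ∀ x ∈ F, ∀ y ∈ F, d x y ≤ l → cls x = cls y := by
    intro x hx y hy hxy
    refine (hcls (cls x) (mem_image_of_mem _ hx) y (mem_filter.2 ⟨hy, ?_⟩)).2.symm
    exact Relation.ReflTransGen.single ⟨mem_coe.2 hx, mem_coe.2 hy, hxy⟩
  -- the number of the classes
  have hcard : P.card ≤ B.card := by
    have hch : ∀ A : {A // A ∈ P}, ∃ b ∈ B, ∃ x ∈ (A : Finset ι), d x b ≤ w := by
      rintro ⟨A, hA⟩
      obtain ⟨x, hx⟩ := hne A hA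
      obtain ⟨b, hb, h1⟩ := hcov x (hcls A hA x hx).1
      exact ⟨b, hb, x, hx, h1⟩
    choose f hfB hf using hch
    rw [← card_attach]
    refine card_le_card_of_injOn f (fun A _ => hfB A) ?_
    rintro ⟨A, hA⟩ - ⟨A', hA'⟩ - hAA
    obtain ⟨x, hx, h1⟩ := hf ⟨A, hA⟩
    obtain ⟨y, hy, h2⟩ := hf ⟨A', hA'⟩
    obtain ⟨hxF, h3⟩ := hcls A hA x hx
    obtain ⟨hyF, h4⟩ := hcls A' hA' y hy
    refine Subtype.ext ?_
    change A = A'
    rw [← h3, ← h4]
    refine hclose x hxF y hyF ?_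
    rw [hAA] at h1
    have h5 := hd.tri x (f ⟨A', hA'⟩) y
    have h6 := hd.symm (f ⟨A', hA'⟩) y
    omega
  -- enumeration of the classes
  let e := P.equivFin
  let Fp : ℕ → Finset ι := fun i => if h : i < P.card then (e.symm ⟨i, h⟩ : Finset ι) else ∅
  have hFp : ∀ i < P.card, Fp i ∈ P := by
    intro i hi
    simp only [Fp, hi, dif_pos]
    exact (e.symm ⟨i, hi⟩).2
  refine ⟨P.card, Fp, hcard, ?_, ?_, ?_, ?_⟩
  · intro i hi
    exact hne _ (hFp i hi)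
  · ext x
    rw [mem_biUnion]
    constructor
    · rintro ⟨i, hi, hx⟩
      exact (hcls _ (hFp i (mem_range.1 hi)) x hx).1
    · intro hx
      have h1 : cls x ∈ P := mem_image_of_mem _ hx
      refine ⟨e ⟨cls x, h1⟩, mem_range.2 (e ⟨cls x, h1⟩).2, ?_⟩
      have h2 : Fp (e ⟨cls x, h1⟩) = cls x := by
        simp [Fp]
      rw [h2]
      exact hself x hx
  · intro i hi k hk hik x hx y hy
    by_contra hc
    push Not at hc
    apply hik
    obtain ⟨hxF, h1⟩ := hcls _ (hFp i hi) x hx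
    obtain ⟨hyF, h2⟩ := hcls _ (hFp k hk) y hy
    have h3 : Fp i = Fp k := by rw [← h1, ← h2]; exact hclose x hxF y hyF hc
    simp only [Fp, hi, hk, dif_pos] at h3
    have h4 := e.symm.injective (Subtype.ext h3)
    exact congrArg Fin.val h4
  · intro i hi x hx y hy
    obtain ⟨hxF, h1⟩ := hcls _ (hFp i hi) x hx
    rw [← h1] at hy
    obtain ⟨hyF, h2⟩ := mem_filter.1 hy
    have h3 := cluster_le hd (fun b : ι => {y | d y b ≤ w}) (2 * w) l B.card
      (B.card * (2 * w + l)) (fun k a ha b hb => by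
        have a1 := hd.tri a k b
        have a2 : d a k ≤ w := ha
        have a3 : d b k ≤ w := hb
        rw [hd.symm] at a3
        omega) B le_rfl (B := (F : Set ι)) (x := x) (fun y hy _ => by
        obtain ⟨b, hb, hyb⟩ := hcov y (mem_coe.1 hy)
        exact ⟨b, hb, hyb⟩) le_rfl (mem_coe.2 hxF) h2
    omega

namespace Clu

variable {T : Type} [Fintype T] [DecidableEq T] {g : GPar T} {h : Hist g} {j : ℕ} {F : Finset T}

/-- the pieces of a cluster -/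
theorem pieces (hF : Clu h j F) (hg : g.Ok) {l : ℕ} (hl : 2 * (g.W j + g.sep j) ≤ l) :
    ∃ (m : ℕ) (Fp : ℕ → Finset T), m ≤ g.J ∧
      Pcs g.dist F l (g.J * (2 * (g.W j + g.sep j) + l)) m Fp := by
  obtain ⟨x, hx⟩ := hF.ne
  obtain ⟨B, -, hB, hcov⟩ := h.few hg j (h.cand_fz hg (hF.cand x hx))
  have hcd := hg.cd j
  obtain ⟨m, Fp, h1, h2⟩ := exists_pcs hg.met F B hl fun y hy => by
    have h3 := hF.diam hg hx hy
    exact hcov y (h.cst _ (hF.cand y hy)) (by omega)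
  exact ⟨m, Fp, h1.trans hB.le, h2.ne, h2.un, h2.far, fun i hi x hx y hy =>
    (h2.diam i hi x hx y hy).trans (Nat.mul_le_mul_right _ hB.le)⟩

end Clu

namespace Pcs

variable {F : Finset ι} {l D0 m : ℕ} {Fp : ℕ → Finset ι}

theorem sub (h : Pcs d F l D0 m Fp) {i : ℕ} (hi : i < m) : Fp i ⊆ F := by
  intro x hx
  rw [← h.un]
  exact mem_biUnion.2 ⟨i, mem_range.2 hi, hx⟩

theorem mem (h : Pcs d F l D0 m Fp) {x : ι} (hx : x ∈ F) : ∃ i < m, x ∈ Fp i := by
  rw [← h.un] at hx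
  obtain ⟨i, hi, h1⟩ := mem_biUnion.1 hx
  exact ⟨i, mem_range.1 hi, h1⟩

variable [Fintype ι] {E : κ → Set ι}

theorem mem_DF (h : Pcs d F l D0 m Fp) (Δ n : ℕ) {x : ι} :
    x ∈ DF d E Δ F n ↔ ∃ i < m, x ∈ DF d E Δ (Fp i) n := by
  rw [mem_DF_iff]
  constructor
  · rintro ⟨y, hy, h1⟩
    obtain ⟨i, hi, h2⟩ := h.mem hy
    exact ⟨i, hi, (mem_DF_iff Δ n).2 ⟨y, h2, h1⟩⟩
  · rintro ⟨i, hi, h1⟩
    obtain ⟨y, hy, h2⟩ := (mem_DF_iff Δ n).1 h1
    exact ⟨y, h.sub hi hy, h2⟩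

theorem DF_sub (h : Pcs d F l D0 m Fp) (Δ n : ℕ) {i : ℕ} (hi : i < m) :
    DF d E Δ (Fp i) n ⊆ DF d E Δ F n := fun _ hx => (h.mem_DF Δ n).2 ⟨i, hi, hx⟩

omit [DecidableEq ι] in
theorem FD (hd : NMet d) (Δ n : ℕ) (i : ℕ) : Fp i ⊆ DF d E Δ (Fp i) n :=
  subset_DF hd Δ _ n

variable {a c : ℕ}

/-- the domains of different pieces are far apart -/
theorem DF_far (h : Pcs d F l D0 m Fp) (hd : NMet d) (hE : CP d E a c) {Δ n n' N i k : ℕ}
    (hn : n ≤ N) (hn' : n' ≤ N) (hi : i < m) (hk : k < m) (hik : i ≠ k) {x y : ι}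
    (hx : x ∈ DF d E Δ (Fp i) n) (hy : y ∈ DF d E Δ (Fp k) n') :
    l < d x y + 2 * (N * (Δ + c) + c) := by
  obtain ⟨u, hu, h1⟩ := D_near hd hE hn hx
  obtain ⟨v, hv, h2⟩ := D_near hd hE hn' hy
  have h3 := h.far i hi k hk hik u hu v hv
  have h4 := hd.tri u x v
  have h5 := hd.tri x y v
  have h6 := hd.symm y v
  omega

variable {H : Matrix ι ι ℂ}

/-- a boundary site of the domain of a piece is not in the domains of the other pieces -/
theorem bdy_notMem (h : Pcs d F l D0 m Fp) (hd : NMet d) (hE : CP d E a c)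
    (hH : ∀ x y, H x y ≠ 0 → d x y ≤ 1) {Δ n n' N i k : ℕ} (hl : 2 * (N * (Δ + c) + c) + 1 ≤ l)
    (hn : n ≤ N) (hn' : n' ≤ N) (hi : i < m) (hk : k < m) (hik : i ≠ k) {z : ι}
    (hz : z ∈ bdy H (DF d E Δ (Fp i) n)) : z ∉ DF d E Δ (Fp k) n' := by
  classical
  intro hzk
  unfold bdy at hz
  obtain ⟨-, y, h1, h2⟩ := mem_filter.1 hz
  by_cases h3 : z ∈ DF d E Δ (Fp i) n
  · have h4 := h.DF_far hd hE hn hn' hi hk hik h3 hzk
    rw [hd.self] at h4
    omega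
  · have h4 : y ∈ DF d E Δ (Fp i) n := by
      by_contra hc
      exact h3 (h2.2 hc)
    have h5 := h.DF_far hd hE hn hn' hi hk hik h4 hzk
    have h6 := hH z y h1
    have h7 := hd.symm y z
    omega

/-- the boundaries of the domains of the pieces are in the boundary of the domain of `F` -/
theorem bdy_sub (h : Pcs d F l D0 m Fp) (hd : NMet d) (hE : CP d E a c)
    (hH : ∀ x y, H x y ≠ 0 → d x y ≤ 1) {Δ n i : ℕ} (hl : 2 * (n * (Δ + c) + c) + 1 ≤ l)
    (hi : i < m) : bdy H (DF d E Δ (Fp i) n) ⊆ bdy H (DF d E Δ F n) := by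
  classical
  intro x hx
  unfold bdy at hx ⊢
  obtain ⟨-, y, h1, h2⟩ := mem_filter.1 hx
  refine mem_filter.2 ⟨mem_univ _, y, h1, ?_⟩
  have hxy := hH x y h1
  have key : ∀ u v, d u v ≤ 1 → u ∈ DF d E Δ (Fp i) n → v ∉ DF d E Δ (Fp i) n →
      v ∉ DF d E Δ F n := by
    intro u v huv hu hv hvF
    obtain ⟨k, hk, h3⟩ := (h.mem_DF Δ n).1 hvF
    have hik : i ≠ k := fun e => hv (e ▸ h3)
    have h4 := h.DF_far hd hE le_rfl le_rfl hi hk hik hu h3
    omega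
  by_cases h3 : x ∈ DF d E Δ (Fp i) n
  · have h4 := h2.1 h3
    exact ⟨fun _ => key x y hxy h3 h4, fun _ => h.DF_sub Δ n hi h3⟩
  · have h4 : y ∈ DF d E Δ (Fp i) n := by
      by_contra hc
      exact h3 (h2.2 hc)
    have h5 := key y x (by rw [hd.symm]; exact hxy) h4 h3
    exact ⟨fun h6 => absurd h6 h5, fun h6 => absurd (h.DF_sub Δ n hi h4) h6⟩

/-- the boundary of the domain of `F` is the union of the boundaries -/
theorem bdy_eq (h : Pcs d F l D0 m Fp) (hd : NMet d) (hE : CP d E a c)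
    (hH : ∀ x y, H x y ≠ 0 → d x y ≤ 1) {Δ n : ℕ} (hl : 2 * (n * (Δ + c) + c) + 1 ≤ l) :
    bdy H (DF d E Δ F n) = (range m).biUnion fun i => bdy H (DF d E Δ (Fp i) n) := by
  classical
  refine Subset.antisymm (fun x hx => ?_) ?_
  · unfold bdy at hx
    obtain ⟨-, y, h1, h2⟩ := mem_filter.1 hx
    by_cases h3 : x ∈ DF d E Δ F n
    · obtain ⟨i, hi, h4⟩ := (h.mem_DF Δ n).1 h3
      refine mem_biUnion.2 ⟨i, mem_range.2 hi, ?_⟩
      unfold bdy
      exact mem_filter.2 ⟨mem_univ _, y, h1, fun _ hy => h2.1 h3 (h.DF_sub Δ n hi hy),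
        fun _ => h4⟩
    · have h4 : y ∈ DF d E Δ F n := by
        by_contra hc
        exact h3 (h2.2 hc)
      obtain ⟨i, hi, h5⟩ := (h.mem_DF Δ n).1 h4
      refine mem_biUnion.2 ⟨i, mem_range.2 hi, ?_⟩
      unfold bdy
      exact mem_filter.2 ⟨mem_univ _, y, h1, fun h6 => absurd (h.DF_sub Δ n hi h6) h3,
        fun h6 => absurd h5 h6⟩
  · intro x hx
    obtain ⟨i, hi, h1⟩ := mem_biUnion.1 hx
    exact h.bdy_sub hd hE hH hl (mem_range.1 hi) h1

/-- the diameter of the boundary of the domain of a piece -/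
theorem bdy_diam (h : Pcs d F l D0 m Fp) (hd : NMet d) (hE : CP d E a c)
    (hH : ∀ x y, H x y ≠ 0 → d x y ≤ 1) {Δ n i : ℕ} (hi : i < m) {x y : ι}
    (hx : x ∈ bdy H (DF d E Δ (Fp i) n)) (hy : y ∈ bdy H (DF d E Δ (Fp i) n)) :
    d x y ≤ D0 + 2 * (n * (Δ + c) + c + 1) := by
  obtain ⟨u, hu, h1⟩ := bdyD_near hd hE hH le_rfl hx
  obtain ⟨v, hv, h2⟩ := bdyD_near hd hE hH le_rfl hy
  have h3 := h.diam i hi u hu v hv
  have h4 := hd.tri x u y
  have h5 := hd.tri u v y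
  have h6 := hd.symm x u
  omega

/-- the distance of two sites through the boundary of the domain of a piece -/
theorem tri_bdy (h : Pcs d F l D0 m Fp) (hd : NMet d) (hE : CP d E a c)
    (hH : ∀ x y, H x y ≠ 0 → d x y ≤ 1) {Δ n i : ℕ} (hi : i < m) {x y z z' : ι}
    (hz : z ∈ bdy H (DF d E Δ (Fp i) n)) (hz' : z' ∈ bdy H (DF d E Δ (Fp i) n)) :
    d x y ≤ d x z + d y z' + (D0 + 2 * (n * (Δ + c) + c + 1)) := by
  have h1 := h.bdy_diam hd hE hH hi hz hz'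
  have h2 := hd.tri x z y
  have h3 := hd.tri z z' y
  have h4 := hd.symm z' y
  omega

/-- the number of boundary sites -/
theorem bdy_card (hd : NMet d) (hE : CP d E a c)
    (hH : ∀ x y, H x y ≠ 0 → d x y ≤ 1) {Δ n i V : ℕ}
    (hV : ∀ x, (univ.filter fun y => d x y ≤ n * (Δ + c) + c + 1).card ≤ V) :
    (bdy H (DF d E Δ (Fp i) n)).card ≤ (Fp i).card * V :=
  bdy_DF_card_cp hd hE hH le_rfl hV

omit [DecidableEq ι] in
/-- a site which is not in the domain of a piece is far from the piece -/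
theorem far_of_notMem (hd : NMet d) {Δ n i : ℕ} {x y : ι}
    (hx : x ∉ DF d E Δ (Fp i) (n + 1)) (hy : y ∈ Fp i) : Δ < d y x := by
  by_contra hc
  push Not at hc
  refine hx (ANM.mem_DF.2 (subset_sw _ ⟨y, subset_Dn hd Δ _ n (mem_coe.2 hy), hc⟩))

end Pcs

end Pool.Agent.AND
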