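import Pool.Agent.AND.RfTor
import Pool.Agent.AND.Good
import Pool.Agent.ANM.FRefr

/-! # AND RfFar: glue: exponential decay of the effect of a re-freezing (helper3's FRefr from RT), and the forms `QF`.

* `RT.frefr` : for every admissible weight `w` of the frozen medium: `FRefr` with `l = √(1-ε)`, rate `t = ε c1/(16 C1)`;
  then `FRefr.diag / row / ent` give `|G'_xx - γ0_x|² ≤ K³ e^{-2 t w_x} S`, rows and entries, with
  `S = ∑_A k e^{2 t w} |G0_xx - γ0_x|²`.
* `Two.qf` : `(1 - 6r) QF ≤ QF' ≤ (1 + 10 r) QF` for two media with the same read sites.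
-/

open Matrix Finset

noncomputable section

namespace Pool.Agent.AND

open Pool.Agent.Kin Pool.Agent.APS Pool.Agent.ANL Pool.Agent.ANM Pool.Agent.GSC

variable {ι : Type} [Fintype ι] [DecidableEq ι]

/-- comparison of the forms `QF` -/
theorem Two.qf {H : Matrix ι ι ℂ} {M M' : Med ι} {r : ℝ} (h : Two H M.b M'.b M.nr r)
    (hU : M'.U = M.U) (u : ι → ℝ) :
    (1 - 6 * r) * QF H M u ≤ QF H M' u ∧ QF H M' u ≤ (1 + 10 * r) * QF H M u := by
  have h1 := h.form u
  have hnr : M'.nr = M.nr := by unfold Med.nr; rw [hU]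
  unfold QF Med.eta
  rw [hnr]
  constructor
  · linarith [h1.1]
  · linarith [h1.2]

namespace RT

variable {H : Matrix ι ι ℂ} {X : Finset ι} {k : ι → ℝ} {c γ0 : ι → ℂ} {φ : ι → ι → ℝ}
  {e a al ε c1 C1 C2 K Mv cc : ℝ} {d l : ℕ}

/-- lower bound of the new diagonal -/
theorem io_ge (h : RT H X k c γ0 φ e a al ε c1 C1 C2 K Mv cc d l) {x : ι} (hx : x ∈ X) :
    c1 / 2 ≤ (rsc H (rfb H X k c γ0) x x).im := by
  have h1 := h.clo hx
  have h2 := h.tb.mlo x hx
  have h3 := h.sm2
  have h4 := (Complex.abs_im_le_norm _).trans h1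
  rw [Complex.sub_im] at h4
  have h5 := (abs_le.1 h4).1
  have h6 := h.tb.num.c10
  linarith

/-- helper3's decay structure -/
theorem frefr (h : RT H X k c γ0 φ e a al ε c1 C1 C2 K Mv cc d l) {w : ι → ℝ}
    (hw : AdmW H (bv k c γ0) w) {A : Finset ι} {Kb : ℝ} (hA : ∀ x ∈ A, x ∈ X ∧ 1 / Kb ≤ k x)
    (hA' : ∀ x, x ∉ A → k x = 0) (hK : 1 ≤ Kb) (hK1 : 4 ≤ Kb * ε) (hK2 : 2 ≤ Kb * c1) :
    FRefr H (bv k c γ0) (rfb H X k c γ0) γ0 w k (fun x => (γ0 x).im) A Kb C1 (c1 / 2)
      (ε * c1 / (16 * C1)) (√(1 - ε)) (ε / 4) where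
  hb := ⟨h.tb.adm.sym, h.tb.adm.im, h.tb.adm.unit⟩
  hb' := ⟨h.tb.adm.sym, h.two.adm'.im, h.two.adm'.unit⟩
  hw := hw
  hκ := fun x hx => (hA x hx).2
  hk := fun x hx => h.tb.abs x (hA x hx).1
  hk' := by
    intro x hx
    have hX := (hA x hx).1
    have h1 := h.eqn x
    have h2 := h.cim x hX
    have h3 := h.e0
    have h4 : (rfb H X k c γ0 x).im = (c x).im - k x * (rsc H (rfb H X k c γ0) x x).im := by
      conv_lhs => rw [h1]
      simp only [Complex.sub_im, Complex.im_ofReal_mul]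
    rw [h4]
    linarith
  hdif := by
    intro x hx
    have h1 := h.eqn x
    conv_lhs => rw [h1]
    unfold bv
    ring
  hout := by
    intro z hz
    have h1 := h.eqn z
    rw [h1]
    unfold bv
    rw [hA' z hz]
    simp
  h3 := by
    intro x hx
    have h1 := h.tb.H3 x (hA x hx).1
    have h2 : 0 ≤ 1 - ε := by linarith [h.tb.num.e1]
    rw [Real.sq_sqrt h2]
    refine le_trans (le_of_eq ?_) h1
    rw [← Finset.sum_subset (fun y hy => (hA y hy).1 : A ⊆ X)]
    · refine Finset.sum_congr rfl fun y _ => ?_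
      ring
    · intro y _ hy
      rw [hA' y hy, zero_mul, zero_mul]
  hC1 := fun x hx => h.tb.dia x (hA x hx).1
  hc1 := fun x hx => by
    have h1 := h.tb.mlo x (hA x hx).1
    have h2 := h.tb.num.c10
    linarith
  hc1' := fun x hx => h.io_ge (hA x hx).1
  ht := by
    have h1 := h.tb.num.e0
    have h2 := h.tb.num.c10
    have h3 := h.C1p
    positivity
  ht1 := by
    have h1 := h.tb.num.e0
    have h1' := h.tb.num.e1
    have h2 := h.tb.num.c10
    have h3 := h.C1p
    have h4 := h.tb.num.c1C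
    rw [div_le_one (by positivity)]
    nlinarith
  hl := Real.sqrt_nonneg _
  hε := by have h1 := h.tb.num.e0; positivity
  htε := by
    have h1 := h.tb.num.e0
    have h2 := h.tb.num.c10
    have h3 := h.C1p
    have h4 := h.tb.num.c1C
    have e1 : 4 * (ε * c1 / (16 * C1)) ^ 2 * C1 = ε ^ 2 * c1 / 64 * (c1 / C1) := by
      field_simp
      ring
    have e2 : c1 / C1 ≤ 1 := (div_le_one h3).2 h4
    rw [e1]
    have e3 : 0 ≤ ε ^ 2 * c1 := by positivity
    nlinarith
  hK := hK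
  hKl := by
    have h1 := h.tb.num.e0
    have h2 := h.tb.num.e1
    have hK0 : 0 < Kb := by linarith
    have e1 : √(1 - ε) ≤ 1 - ε / 2 := by
      rw [Real.sqrt_le_left (by linarith)]
      nlinarith [sq_nonneg ε]
    have e2 : 1 / Kb ≤ ε / 4 := by
      rw [div_le_div_iff₀ hK0 (by norm_num)]
      linarith
    linarith
  hKc := by
    have hK0 : 0 < Kb := by linarith
    rw [div_le_div_iff₀ hK0 (by norm_num)]
    linarith

end RT

end Pool.Agent.AND
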