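import Pool.Agent.ANI.Schur
import Pool.Agent.GSC.Obs

/-! # AND TwoT: comparison of two media with the same read sites, torus form.

`Two H b b' X r`: `b' = b` off `X` (read sites), `|b' - b| ≤ r (-Im b)` on `X`, `0 ≤ r ≤ 1/8`.  With `η = -Im b`, `η' = -Im b'`,
`G = rsc H b`, `G' = rsc H b'`, `x, y ∈ X`:
* `adm'`, `neg'`, `mbb'`;
* `ent`  : `|G'_xy - G_xy| ≤ (8/7) r √(|G_xx| |G'_yy|)`;
* `dia'` : `|G'_xx| ≤ 2 |G_xx|`, `ent_le` (`|G'_xy - G_xy| ≤ 2 r C` if the diagonal is `≤ C`);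
* `row`  : `∑_X η_y |G'_xy - G_xy|² ≤ 2 r² |G_xx|`;
* `obs_abs`, `obs_sq` : `∑_X om_y ||G'_xy|² - |G_xy|²| ≤ 3 r |G_xx|`, the same for `G²`, for `0 ≤ om ≤ η`;
* `obs_four` : `∑_X om |G'|⁴ ≤ (1+σ)³ ∑_X om |G|⁴ + 4 (1+1/σ)³ r⁴ C³`;
* `form` : `(1 - 6r) Q ≤ Q' ≤ (1 + 10 r) Q`, `Q = ∑_{X×X} η_x |G_xy|² η_y (u_x - u_y)²`.
-/

open Matrix Finset

noncomputable section

namespace Pool.Agent.AND

open Pool.Agent.Kin Pool.Agent.APS Pool.Agent.ANL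

variable {ι : Type} [Fintype ι] [DecidableEq ι] {H : Matrix ι ι ℂ} {b b' : ι → ℂ}
  {X : Finset ι} {r : ℝ}

omit [Fintype ι] in
theorem MBB_congr (h : ∀ x, x ∉ X → b' x = b x) : ANI.MBB H b' X = ANI.MBB H b X := by
  ext i j
  unfold ANI.MBB
  rw [Matrix.submatrix_apply, Matrix.submatrix_apply, Matrix.add_apply, Matrix.add_apply]
  congr 1
  by_cases hij : (i : ι) = j
  · rw [← hij, Matrix.diagonal_apply_eq, Matrix.diagonal_apply_eq, h i i.2]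
  · rw [Matrix.diagonal_apply_ne _ hij, Matrix.diagonal_apply_ne _ hij]

theorem Heff_congr (h : ∀ x, x ∉ X → b' x = b x) : ANI.Heff H b' X = ANI.Heff H b X := by
  funext x y
  unfold ANI.Heff
  rw [MBB_congr h]

/-- two media with the same read sites -/
structure Two (H : Matrix ι ι ℂ) (b b' : ι → ℂ) (X : Finset ι) (r : ℝ) : Prop where
  adm : ANL.Adm H b
  neg : ∀ x ∈ X, (b x).im < 0
  zero : ∀ x, x ∉ X → (b x).im = 0
  mbb : IsUnit (ANI.MBB H b X).det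
  eq : ∀ x, x ∉ X → b' x = b x
  r0 : 0 ≤ r
  r1 : r ≤ 1 / 8
  le : ∀ x ∈ X, ‖b' x - b x‖ ≤ r * (-(b x).im)

namespace Two

variable (h : Two H b b' X r)
include h

theorem sym : RealSym (ANI.Heff H b X) := ANI.realSym_eff h.adm.sym h.zero

theorem eta_le {x : ι} (hx : x ∈ X) : (1 - r) * (-(b x).im) ≤ -(b' x).im := by
  have h1 := (Complex.abs_im_le_norm (b' x - b x)).trans (h.le x hx)
  rw [Complex.sub_im] at h1
  linarith [(abs_le.1 h1).2]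

theorem eta_ge {x : ι} (hx : x ∈ X) : -(b' x).im ≤ (1 + r) * (-(b x).im) := by
  have h1 := (Complex.abs_im_le_norm (b' x - b x)).trans (h.le x hx)
  rw [Complex.sub_im] at h1
  linarith [(abs_le.1 h1).1]

theorem neg' {x : ι} (hx : x ∈ X) : (b' x).im < 0 := by
  have h1 := h.eta_le hx
  have h2 := h.neg x hx
  have h3 := h.r1
  nlinarith

theorem mbb' : IsUnit (ANI.MBB H b' X).det := by
  rw [MBB_congr h.eq]
  exact h.mbb

theorem adm' : ANL.Adm H b' := by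
  refine ANI.adm_of_eff (X := X) h.adm.sym (fun x => ?_) h.mbb' ?_
  · by_cases hx : x ∈ X
    · exact (h.neg' hx).le
    · rw [h.eq x hx, h.zero x hx]
  · rw [Heff_congr h.eq]
    exact rsc_unit h.sym fun x => h.neg' x.2

theorem entX (x y : {x // x ∈ X}) :
    rsc (ANI.Heff H b X) (fun y : {x // x ∈ X} => b y) x y = rsc H b x y :=
  ANI.rsc_eff_apply h.adm h.mbb x y

theorem entX' (x y : {x // x ∈ X}) :
    rsc (ANI.Heff H b X) (fun y : {x // x ∈ X} => b' y) x y = rsc H b' x y := by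
  have h1 := ANI.rsc_eff_apply h.adm' h.mbb' x y
  rwa [Heff_congr h.eq] at h1

/-- the weight of the comparison -/
def w (b : ι → ℂ) (X : Finset ι) (r : ℝ) (x : {x // x ∈ X}) : ℝ := (1 - r) * (-(b x).im)

theorem w0 (x : {x // x ∈ X}) : 0 ≤ w b X r x := by
  unfold w
  have := h.neg x x.2
  have := h.r1
  exact mul_nonneg (by linarith) (by linarith)

theorem w1 (x : {x // x ∈ X}) : w b X r x ≤ -(b x).im := by
  unfold w
  have := h.neg x x.2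
  have := h.r0
  nlinarith

theorem w2 (x : {x // x ∈ X}) : w b X r x ≤ -(b' x).im := h.eta_le x.2

/-- the relative size -/
theorem dw (x : {x // x ∈ X}) : ‖b' x - b x‖ ≤ r / (1 - r) * w b X r x := by
  have h1 := h.r1
  have h2 : r / (1 - r) * w b X r x = r * (-(b x).im) := by
    unfold w
    have : (1 - r) ≠ 0 := by linarith
    field_simp
  rw [h2]
  exact h.le x x.2

theorem rho0 : 0 ≤ r / (1 - r) := div_nonneg h.r0 (by linarith [h.r1])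

theorem rho1 : r / (1 - r) ≤ 8 / 7 * r := by
  have h1 := h.r1
  have h0 := h.r0
  rw [div_le_iff₀ (by linarith)]
  nlinarith

theorem ent {x y : ι} (hx : x ∈ X) (hy : y ∈ X) :
    ‖rsc H b' x y - rsc H b x y‖ ≤ 8 / 7 * r * √(‖rsc H b x x‖ * ‖rsc H b' y y‖) := by
  have h1 := GSC.cmp_ent (b := fun y : {x // x ∈ X} => b y) (b' := fun y : {x // x ∈ X} => b' y)
    h.sym (fun x => h.neg x x.2) (fun x => h.neg' x.2) h.w0 h.w1 h.w2 h.rho0 h.dw ⟨x, hx⟩ ⟨y, hy⟩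
  rw [h.entX, h.entX', h.entX, h.entX'] at h1
  rw [norm_sub_rev]
  exact h1.trans (mul_le_mul_of_nonneg_right h.rho1 (Real.sqrt_nonneg _))

theorem dia' {x : ι} (hx : x ∈ X) : ‖rsc H b' x x‖ ≤ 2 * ‖rsc H b x x‖ := by
  have h1 := h.ent hx hx
  have h2 : ‖rsc H b' x x‖ ≤ ‖rsc H b x x‖ + ‖rsc H b' x x - rsc H b x x‖ := by
    have := norm_add_le (rsc H b x x) (rsc H b' x x - rsc H b x x)
    rwa [add_sub_cancel] at this
  have h3 := h.r1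
  have h0 := h.r0
  set g := ‖rsc H b x x‖
  set g' := ‖rsc H b' x x‖
  have hg : 0 ≤ g := norm_nonneg _
  have hg' : 0 ≤ g' := norm_nonneg _
  have h4 : √(g * g') ≤ (g + g') / 2 := by
    rw [Real.sqrt_le_left (by positivity)]
    nlinarith [sq_nonneg (g - g')]
  have h5 : 8 / 7 * r * √(g * g') ≤ 1 / 7 * ((g + g') / 2) := by
    have : 8 / 7 * r ≤ 1 / 7 := by linarith
    exact mul_le_mul this h4 (Real.sqrt_nonneg _) (by norm_num)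
  linarith

/-- entries if the diagonal of `G` is bounded -/
theorem ent_le {C : ℝ} (hC : ∀ x ∈ X, ‖rsc H b x x‖ ≤ C) {x y : ι} (hx : x ∈ X) (hy : y ∈ X) :
    ‖rsc H b' x y - rsc H b x y‖ ≤ 2 * r * C := by
  have h1 := h.ent hx hy
  have h0 := h.r0
  have hC0 : 0 ≤ C := (norm_nonneg _).trans (hC x hx)
  have h2 : √(‖rsc H b x x‖ * ‖rsc H b' y y‖) ≤ 3 / 2 * C := by
    rw [Real.sqrt_le_left (by positivity)]
    calc ‖rsc H b x x‖ * ‖rsc H b' y y‖ ≤ C * (2 * C) :=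
          mul_le_mul (hC x hx) ((h.dia' hy).trans (by linarith [hC y hy])) (norm_nonneg _) hC0
      _ ≤ _ := by nlinarith [sq_nonneg C]
  calc _ ≤ _ := h1
    _ ≤ 8 / 7 * r * (3 / 2 * C) := mul_le_mul_of_nonneg_left h2 (by positivity)
    _ ≤ 2 * r * C := by nlinarith [mul_nonneg h0 hC0]

/-- rows of the difference -/
theorem row {x : ι} (hx : x ∈ X) :
    ∑ y ∈ X, (-(b y).im) * ‖rsc H b' x y - rsc H b x y‖ ^ 2 ≤ 2 * r ^ 2 * ‖rsc H b x x‖ := by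
  have h1 := GSC.cmp_row (b := fun y : {x // x ∈ X} => b y) (b' := fun y : {x // x ∈ X} => b' y)
    h.sym (fun x => h.neg x x.2) (fun x => h.neg' x.2) h.w0 h.w1 h.w2 h.dw ⟨x, hx⟩
  have hr := h.r1
  have h0 := h.r0
  rw [h.entX] at h1
  have h2 : ∑ z : {x // x ∈ X}, w b X r z * ‖rsc (ANI.Heff H b X) (fun y => b y) ⟨x, hx⟩ z -
      rsc (ANI.Heff H b X) (fun y => b' y) ⟨x, hx⟩ z‖ ^ 2 =
      (1 - r) * ∑ y ∈ X, (-(b y).im) * ‖rsc H b' x y - rsc H b x y‖ ^ 2 := by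
    rw [← Finset.sum_coe_sort X, Finset.mul_sum]
    refine Finset.sum_congr rfl fun y _ => ?_
    rw [h.entX, h.entX', norm_sub_rev]
    unfold w
    ring
  rw [h2] at h1
  have h3 : (r / (1 - r)) ^ 2 ≤ (8 / 7 * r) ^ 2 := pow_le_pow_left₀ h.rho0 h.rho1 2
  have h4 : 0 ≤ ∑ y ∈ X, (-(b y).im) * ‖rsc H b' x y - rsc H b x y‖ ^ 2 :=
    Finset.sum_nonneg fun y hy => mul_nonneg (by have := h.neg y hy; linarith) (sq_nonneg _)
  have h5 : (r / (1 - r)) ^ 2 * ‖rsc H b x x‖ ≤ (8 / 7 * r) ^ 2 * ‖rsc H b x x‖ :=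
    mul_le_mul_of_nonneg_right h3 (norm_nonneg _)
  have h6 : 7 / 8 * ∑ y ∈ X, (-(b y).im) * ‖rsc H b' x y - rsc H b x y‖ ^ 2 ≤
      (1 - r) * ∑ y ∈ X, (-(b y).im) * ‖rsc H b' x y - rsc H b x y‖ ^ 2 :=
    mul_le_mul_of_nonneg_right (by linarith) h4
  have h7 : 0 ≤ r ^ 2 * ‖rsc H b x x‖ := by positivity
  nlinarith

private lemma om_w {om : ι → ℝ} (hom : ∀ x ∈ X, om x ≤ -(b x).im) (x : {x // x ∈ X}) :
    (1 - r) * om x ≤ w b X r x := by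
  unfold w
  exact mul_le_mul_of_nonneg_left (hom x x.2) (by linarith [h.r1])

private lemma fac : 2 * (r / (1 - r)) + (r / (1 - r)) ^ 2 ≤ 3 * r * (7 / 8) := by
  have h1 := h.rho1
  have h0 := h.rho0
  have h2 := h.r1
  have h3 := h.r0
  nlinarith

/-- change of `∑ om |G|²` -/
theorem obs_abs {om : ι → ℝ} (hom0 : ∀ x ∈ X, 0 ≤ om x) (hom : ∀ x ∈ X, om x ≤ -(b x).im) {x : ι}
    (hx : x ∈ X) :
    ∑ y ∈ X, om y * |‖rsc H b' x y‖ ^ 2 - ‖rsc H b x y‖ ^ 2| ≤ 3 * r * ‖rsc H b x x‖ := by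
  have hr := h.r1
  have h1 := GSC.obs_abs (b := fun y : {x // x ∈ X} => b y) (b' := fun y : {x // x ∈ X} => b' y)
    (om := fun y => (1 - r) * om y)
    h.sym (fun x => h.neg x x.2) (fun x => h.neg' x.2) h.w0 h.w1 h.w2 h.rho0 h.dw
    (fun y => mul_nonneg (by linarith) (hom0 y y.2)) (h.om_w hom) ⟨x, hx⟩
  rw [h.entX] at h1
  have h2 : ∑ z : {x // x ∈ X}, (1 - r) * om z *
      |‖rsc (ANI.Heff H b X) (fun y => b' y) ⟨x, hx⟩ z‖ ^ 2 -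
        ‖rsc (ANI.Heff H b X) (fun y => b y) ⟨x, hx⟩ z‖ ^ 2| =
      (1 - r) * ∑ y ∈ X, om y * |‖rsc H b' x y‖ ^ 2 - ‖rsc H b x y‖ ^ 2| := by
    rw [← Finset.sum_coe_sort X, Finset.mul_sum]
    refine Finset.sum_congr rfl fun y _ => ?_
    rw [h.entX, h.entX']
    ring
  rw [h2] at h1
  have h4 : 0 ≤ ∑ y ∈ X, om y * |‖rsc H b' x y‖ ^ 2 - ‖rsc H b x y‖ ^ 2| :=
    Finset.sum_nonneg fun y hy => mul_nonneg (hom0 y hy) (abs_nonneg _)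
  have h5 := mul_le_mul_of_nonneg_right h.fac (norm_nonneg (rsc H b x x))
  have h6 : 7 / 8 * ∑ y ∈ X, om y * |‖rsc H b' x y‖ ^ 2 - ‖rsc H b x y‖ ^ 2| ≤
      (1 - r) * ∑ y ∈ X, om y * |‖rsc H b' x y‖ ^ 2 - ‖rsc H b x y‖ ^ 2| :=
    mul_le_mul_of_nonneg_right (by linarith) h4
  linarith

/-- change of `∑ om G²` -/
theorem obs_sq {om : ι → ℝ} (hom0 : ∀ x ∈ X, 0 ≤ om x) (hom : ∀ x ∈ X, om x ≤ -(b x).im) {x : ι}
    (hx : x ∈ X) :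
    ∑ y ∈ X, om y * ‖rsc H b' x y ^ 2 - rsc H b x y ^ 2‖ ≤ 3 * r * ‖rsc H b x x‖ := by
  have hr := h.r1
  have h1 := GSC.obs_sq (b := fun y : {x // x ∈ X} => b y) (b' := fun y : {x // x ∈ X} => b' y)
    (om := fun y => (1 - r) * om y)
    h.sym (fun x => h.neg x x.2) (fun x => h.neg' x.2) h.w0 h.w1 h.w2 h.rho0 h.dw
    (fun y => mul_nonneg (by linarith) (hom0 y y.2)) (h.om_w hom) ⟨x, hx⟩
  rw [h.entX] at h1
  have h2 : ∑ z : {x // x ∈ X}, (1 - r) * om z *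
      ‖rsc (ANI.Heff H b X) (fun y => b' y) ⟨x, hx⟩ z ^ 2 -
        rsc (ANI.Heff H b X) (fun y => b y) ⟨x, hx⟩ z ^ 2‖ =
      (1 - r) * ∑ y ∈ X, om y * ‖rsc H b' x y ^ 2 - rsc H b x y ^ 2‖ := by
    rw [← Finset.sum_coe_sort X, Finset.mul_sum]
    refine Finset.sum_congr rfl fun y _ => ?_
    rw [h.entX, h.entX']
    ring
  rw [h2] at h1
  have h4 : 0 ≤ ∑ y ∈ X, om y * ‖rsc H b' x y ^ 2 - rsc H b x y ^ 2‖ :=
    Finset.sum_nonneg fun y hy => mul_nonneg (hom0 y hy) (norm_nonneg _)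
  have h5 := mul_le_mul_of_nonneg_right h.fac (norm_nonneg (rsc H b x x))
  have h6 : 7 / 8 * ∑ y ∈ X, om y * ‖rsc H b' x y ^ 2 - rsc H b x y ^ 2‖ ≤
      (1 - r) * ∑ y ∈ X, om y * ‖rsc H b' x y ^ 2 - rsc H b x y ^ 2‖ :=
    mul_le_mul_of_nonneg_right (by linarith) h4
  linarith

/-- change of `∑ om |G|⁴` -/
theorem obs_four {om : ι → ℝ} (hom0 : ∀ x ∈ X, 0 ≤ om x) (hom : ∀ x ∈ X, om x ≤ -(b x).im)
    {C σ : ℝ} (hC : ∀ x ∈ X, ‖rsc H b x x‖ ≤ C) (hσ : 0 < σ) {x : ι} (hx : x ∈ X) :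
    ∑ y ∈ X, om y * ‖rsc H b' x y‖ ^ 4 ≤
      (1 + σ) ^ 3 * ∑ y ∈ X, om y * ‖rsc H b x y‖ ^ 4 +
        4 * (1 + 1 / σ) ^ 3 * r ^ 4 * C ^ 3 := by
  have hr := h.r1
  have hr0 := h.r0
  have hC0 : 0 ≤ C := (norm_nonneg _).trans (hC x hx)
  have h1 := GSC.obs_four (b := fun y : {x // x ∈ X} => b y) (b' := fun y : {x // x ∈ X} => b' y)
    (om := fun y => (1 - r) * om y)
    h.sym (fun x => h.neg x x.2) (fun x => h.neg' x.2) h.w0 h.w1 h.w2 h.rho0 h.dw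
    (fun y => mul_nonneg (by linarith) (hom0 y y.2)) (h.om_w hom) (Cm := 2 * C)
    (fun z => by
      rw [h.entX']
      exact (h.dia' z.2).trans (by linarith [hC z z.2])) hσ ⟨x, hx⟩
  rw [h.entX] at h1
  have h2 : ∀ (g : {x // x ∈ X} → ℂ) (g' : ι → ℂ), (∀ y, g y = g' y) →
      ∑ z : {x // x ∈ X}, (1 - r) * om z * ‖g z‖ ^ 4 = (1 - r) * ∑ y ∈ X, om y * ‖g' y‖ ^ 4 := by
    intro g g' hg
    rw [← Finset.sum_coe_sort X, Finset.mul_sum]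
    refine Finset.sum_congr rfl fun y _ => ?_
    rw [hg]
    ring
  rw [h2 _ (fun y => rsc H b' x y) (fun y => h.entX' ⟨x, hx⟩ y),
    h2 _ (fun y => rsc H b x y) (fun y => h.entX ⟨x, hx⟩ y)] at h1
  have h3 : (r / (1 - r)) ^ 4 ≤ (8 / 7 * r) ^ 4 := pow_le_pow_left₀ h.rho0 h.rho1 4
  have h4 : (r / (1 - r)) ^ 4 * ‖rsc H b x x‖ ^ 2 * (2 * C) ≤ 7 / 8 * (4 * r ^ 4 * C ^ 3) := by
    have e1 : ‖rsc H b x x‖ ^ 2 ≤ C ^ 2 := pow_le_pow_left₀ (norm_nonneg _) (hC x hx) 2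
    calc (r / (1 - r)) ^ 4 * ‖rsc H b x x‖ ^ 2 * (2 * C)
        ≤ (8 / 7 * r) ^ 4 * C ^ 2 * (2 * C) := by
          refine mul_le_mul_of_nonneg_right ?_ (by positivity)
          exact mul_le_mul h3 e1 (by positivity) (by positivity)
      _ = (8 / 7) ^ 4 * 2 * (r ^ 4 * C ^ 3) := by ring
      _ ≤ 7 / 8 * 4 * (r ^ 4 * C ^ 3) := by
          refine mul_le_mul_of_nonneg_right (by norm_num) (by positivity)
      _ = _ := by ring
  have h5 : 0 ≤ (1 + 1 / σ) ^ 3 := by positivity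
  have h6 := mul_le_mul_of_nonneg_left h4 h5
  have h7 : (1 - r) * ∑ y ∈ X, om y * ‖rsc H b' x y‖ ^ 4 ≤
      (1 - r) * ((1 + σ) ^ 3 * ∑ y ∈ X, om y * ‖rsc H b x y‖ ^ 4 +
        4 * (1 + 1 / σ) ^ 3 * r ^ 4 * C ^ 3) := by
    have e1 : 0 ≤ 4 * (1 + 1 / σ) ^ 3 * r ^ 4 * C ^ 3 := by positivity
    have e2 : 7 / 8 * (4 * (1 + 1 / σ) ^ 3 * r ^ 4 * C ^ 3) ≤
        (1 - r) * (4 * (1 + 1 / σ) ^ 3 * r ^ 4 * C ^ 3) :=
      mul_le_mul_of_nonneg_right (by linarith) e1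
    calc _ ≤ _ := h1
      _ ≤ (1 + σ) ^ 3 * ((1 - r) * ∑ y ∈ X, om y * ‖rsc H b x y‖ ^ 4) +
          (1 + 1 / σ) ^ 3 * (7 / 8 * (4 * r ^ 4 * C ^ 3)) := add_le_add le_rfl h6
      _ = (1 - r) * ((1 + σ) ^ 3 * ∑ y ∈ X, om y * ‖rsc H b x y‖ ^ 4) +
          7 / 8 * (4 * (1 + 1 / σ) ^ 3 * r ^ 4 * C ^ 3) := by ring
      _ ≤ (1 - r) * ((1 + σ) ^ 3 * ∑ y ∈ X, om y * ‖rsc H b x y‖ ^ 4) +
          (1 - r) * (4 * (1 + 1 / σ) ^ 3 * r ^ 4 * C ^ 3) := add_le_add le_rfl e2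
      _ = _ := by ring
  exact le_of_mul_le_mul_left h7 (by linarith)

/-- comparison of the forms -/
theorem form (u : ι → ℝ) :
    (1 - 6 * r) * ∑ x ∈ X, ∑ z ∈ X, (-(b x).im) * ‖rsc H b x z‖ ^ 2 * (-(b z).im) *
        (u x - u z) ^ 2 ≤
      ∑ x ∈ X, ∑ z ∈ X, (-(b' x).im) * ‖rsc H b' x z‖ ^ 2 * (-(b' z).im) * (u x - u z) ^ 2 ∧
    ∑ x ∈ X, ∑ z ∈ X, (-(b' x).im) * ‖rsc H b' x z‖ ^ 2 * (-(b' z).im) * (u x - u z) ^ 2 ≤
      (1 + 10 * r) *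
        ∑ x ∈ X, ∑ z ∈ X, (-(b x).im) * ‖rsc H b x z‖ ^ 2 * (-(b z).im) * (u x - u z) ^ 2 := by
  have h1 := GSC.form_eta (b := fun y : {x // x ∈ X} => b y) (b' := fun y : {x // x ∈ X} => b' y)
    h.sym (fun x => h.neg x x.2) (fun x => h.neg' x.2) h.r0 h.r1 (fun x => h.le x x.2)
    (fun x => u x)
  have h2 : ∀ (β : ι → ℂ) (g : {x // x ∈ X} → {x // x ∈ X} → ℂ) (g' : ι → ι → ℂ),
      (∀ x y, g x y = g' x y) →
      ∑ x : {x // x ∈ X}, ∑ z : {x // x ∈ X}, (-(β x).im) * ‖g x z‖ ^ 2 * (-(β z).im) *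
        (u x - u z) ^ 2 =
      ∑ x ∈ X, ∑ z ∈ X, (-(β x).im) * ‖g' x z‖ ^ 2 * (-(β z).im) * (u x - u z) ^ 2 := by
    intro β g g' hg
    rw [← Finset.sum_coe_sort X]
    refine Finset.sum_congr rfl fun x _ => ?_
    rw [← Finset.sum_coe_sort X]
    refine Finset.sum_congr rfl fun y _ => ?_
    rw [hg]
  rw [h2 b _ (fun x y => rsc H b x y) h.entX, h2 b' _ (fun x y => rsc H b' x y) h.entX'] at h1
  exact h1

end Two

end Pool.Agent.AND
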