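import Pool.Agent.AND.SupT
import Pool.Agent.AND.TwoT

/-! # AND RfTor: THE RE-FREEZING LEMMA on a medium with read sites (torus form).

Data: `H` real symmetric, `X` = non-read sites, levels `k` (`0` off `X`), `c`, frozen `γ0`, `b0 = c - k γ0`.
`RT ...`: `TB` for `b0` with `m = Im γ0`, `e ≤ -Im c` on `X` (`e > 0`), `|G0_xx - γ0_x| ≤ a` on `X`,
`768 l² C1³ a ≤ c1⁴`.  (At the sites with `k = 0` the value of `γ0` is arbitrary with `c1 ≤ Im γ0 ≤ C1`, e.g. `γ0_x = G0_xx`.)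

`rfb` = the new diagonal, `Π = 4 l C1/c1`:
* `RT.eqn`  : `b'_x = c_x - k_x (rsc H b')_xx` for ALL `x`;
* `RT.two`  : `Two H b0 b' X (2 Π a/c1)` (so `adm'`, `mbb'` and all comparisons of AND/TwoT.lean);
* `RT.pos`, `RT.clo` : `0 < Im G'_xx`, `|G'_xx - γ0_x| ≤ 2 Π a` on `X`;  `RT.bb` : `|b' - b0| ≤ k 2 Π a`;
* `RT.wt`   : `|G0_xx - γ0_x| ≤ A e^{-θ f_x}` on `X` implies `|G'_xx - γ0_x| ≤ 2 Π A e^{-θ f_x}`, `f` admissible and flat;
* `RT.l1`   : `∑_X k e^{-θ f} |G'_xx - γ0_x| ≤ 2 Π ∑_X k e^{-θ f} |G0_xx - γ0_x|`.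
-/

open Matrix Finset

noncomputable section

namespace Pool.Agent.AND

open Pool.Agent.Kin Pool.Agent.APS Pool.Agent.ANL Pool.Agent.ANM Pool.Agent.GSC

variable {ι : Type} [Fintype ι] [DecidableEq ι]

/-- hypotheses of the re-freezing lemma with read sites -/
structure RT (H : Matrix ι ι ℂ) (X : Finset ι) (k : ι → ℝ) (c γ0 : ι → ℂ) (φ : ι → ι → ℝ)
    (e a al ε c1 C1 C2 K Mv cc : ℝ) (d l : ℕ) : Prop where
  tb : TB H (bv k c γ0) X k (fun x => (γ0 x).im) φ al ε c1 C1 C1 C2 K Mv cc d l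
  e0 : 0 < e
  cim : ∀ x ∈ X, e ≤ -(c x).im
  kX : ∀ x, x ∉ X → k x = 0
  a0 : 0 ≤ a
  ga : ∀ x ∈ X, ‖rsc H (bv k c γ0) x x - γ0 x‖ ≤ a
  sm : 768 * (l : ℝ) ^ 2 * C1 ^ 3 * a ≤ c1 ^ 4

/-- the re-frozen diagonal -/
def rfb (H : Matrix ι ι ℂ) (X : Finset ι) (k : ι → ℝ) (c γ0 : ι → ℂ) : ι → ℂ := fun x =>
  if hx : x ∈ X then c x - (k x : ℂ) * gav (ANI.Heff H (bv k c γ0) X) (fun y : {x // x ∈ X} => k y)
    (fun y : {x // x ∈ X} => c y) ⟨x, hx⟩ else bv k c γ0 x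

namespace RT

variable {H : Matrix ι ι ℂ} {X : Finset ι} {k : ι → ℝ} {c γ0 : ι → ℂ} {φ : ι → ι → ℝ}
  {e a al ε c1 C1 C2 K Mv cc : ℝ} {d l : ℕ}

variable (h : RT H X k c γ0 φ e a al ε c1 C1 C2 K Mv cc d l)
include h

theorem C1p : 0 < C1 := h.tb.num.c10.trans_le h.tb.num.c1C

theorem lp : (48 : ℝ) ≤ l := h.tb.num.l48'

theorem Pi0 : 0 < 4 * l * C1 / c1 := by
  have := h.C1p
  have := h.lp
  have := h.tb.num.c10
  positivity

theorem Pi1 : 1 ≤ 4 * l * C1 / c1 := by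
  have h1 := h.C1p
  have h2 := h.lp
  have h3 := h.tb.num.c10
  have h4 := h.tb.num.c1C
  rw [le_div_iff₀ h3]
  nlinarith

theorem sm1 : 12 * (4 * l * C1 / c1) ^ 2 * C1 * a ≤ (c1 / 2) ^ 2 := by
  have h1 := h.sm
  have h3 := h.tb.num.c10
  have e1 : 12 * (4 * l * C1 / c1) ^ 2 * C1 * a = 192 * (l : ℝ) ^ 2 * C1 ^ 3 * a / c1 ^ 2 := by
    field_simp
    ring
  rw [e1, div_le_iff₀ (by positivity)]
  nlinarith

theorem sm3 : 64 * l * C1 * a ≤ c1 ^ 2 := by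
  have h1 := h.sm
  have h2 := h.lp
  have h3 := h.tb.num.c10
  have h4 := h.tb.num.c1C
  have ha := h.a0
  have hC := h.C1p
  have e1 : c1 ^ 2 * (64 * l * C1 * a) ≤ 768 * (l : ℝ) ^ 2 * C1 ^ 3 * a := by
    have e2 : c1 ^ 2 ≤ C1 ^ 2 := pow_le_pow_left₀ h3.le h4 2
    calc c1 ^ 2 * (64 * l * C1 * a) ≤ C1 ^ 2 * (64 * l * C1 * a) :=
          mul_le_mul_of_nonneg_right e2 (by positivity)
      _ = 64 * 1 * (l * C1 ^ 3 * a) := by ring
      _ ≤ 768 * l * (l * C1 ^ 3 * a) := by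
          refine mul_le_mul_of_nonneg_right ?_ (by positivity)
          linarith
      _ = _ := by ring
  have e3 : c1 ^ 2 * (64 * l * C1 * a) ≤ c1 ^ 2 * c1 ^ 2 := by
    calc _ ≤ _ := e1
      _ ≤ _ := h1
      _ = _ := by ring
  exact le_of_mul_le_mul_left e3 (by positivity)

theorem sm2 : 4 * (4 * l * C1 / c1) * a ≤ c1 / 2 := by
  have h1 := h.sm3
  have h3 := h.tb.num.c10
  have ha := h.a0
  have hC := h.C1p
  have hl := h.lp
  have e1 : 4 * (4 * l * C1 / c1) * a = 16 * l * C1 * a / c1 := by ring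
  rw [e1, div_le_iff₀ h3]
  have : 0 ≤ l * C1 * a := by positivity
  nlinarith

theorem rf : RF (ANI.Heff H (bv k c γ0) X) e (fun y : {x // x ∈ X} => k y)
    (fun y : {x // x ∈ X} => c y) (fun y : {x // x ∈ X} => γ0 y) (c1 / 2) C1 a
    (4 * l * C1 / c1) where
  adm := ⟨h.tb.sym, h.e0, fun x => h.tb.k0 x, fun x => h.cim x x.2⟩
  im0 := fun x => h.tb.num.c10.le.trans (h.tb.mlo x x.2)
  th0 := by have := h.tb.num.c10; positivity
  low := by
    intro x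
    have h1 := h.tb.abs x x.2
    have h2 := h.tb.mlo x x.2
    have h3 := h.tb.k0 (x : ι)
    have h4 : k x * c1 ≤ k x * (γ0 x).im := mul_le_mul_of_nonneg_left h2 h3
    have h5 : (bv (fun y : {x // x ∈ X} => k y) (fun y => c y) (fun y => γ0 y) x).im =
        (bv k c γ0 x).im := rfl
    rw [h5]
    linarith
  C10 := h.C1p.le
  a0 := h.a0
  Pq0 := h.Pi1
  dia := by
    intro x
    have h1 := h.tb.dia x x.2
    rw [← h.tb.ent_eq] at h1
    exact h1
  clo := by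
    intro x
    have h1 := h.ga x x.2
    rw [← h.tb.ent_eq] at h1
    exact h1
  sup := h.tb.supB
  sm1 := h.sm1
  sm2 := h.sm2

omit h in
/-- the solution on `X` -/
theorem rfb_X {x : ι} (hx : x ∈ X) : rfb H X k c γ0 x = c x - (k x : ℂ) *
    gav (ANI.Heff H (bv k c γ0) X) (fun y : {x // x ∈ X} => k y)
      (fun y : {x // x ∈ X} => c y) ⟨x, hx⟩ := by
  unfold rfb
  rw [dif_pos hx]

omit h in
theorem rfb_off {x : ι} (hx : x ∉ X) : rfb H X k c γ0 x = bv k c γ0 x := by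
  unfold rfb
  rw [dif_neg hx]

theorem dk {x : ι} (hx : x ∈ X) : ‖rfb H X k c γ0 x - bv k c γ0 x‖ ≤
    k x * (2 * (4 * l * C1 / c1) * a) := by
  have h1 := h.rf.main ⟨x, hx⟩
  rw [rfb_X hx]
  have h2 : c x - (k x : ℂ) * gav (ANI.Heff H (bv k c γ0) X) (fun y : {x // x ∈ X} => k y)
      (fun y : {x // x ∈ X} => c y) ⟨x, hx⟩ - bv k c γ0 x =
      -((k x : ℂ) * (gav (ANI.Heff H (bv k c γ0) X) (fun y : {x // x ∈ X} => k y)
      (fun y : {x // x ∈ X} => c y) ⟨x, hx⟩ - γ0 x)) := by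
    unfold bv
    ring
  rw [h2, norm_neg, norm_mul, Complex.norm_real, Real.norm_of_nonneg (h.tb.k0 x)]
  exact mul_le_mul_of_nonneg_left h1 (h.tb.k0 x)

/-- the comparison of the two media -/
theorem two : Two H (bv k c γ0) (rfb H X k c γ0) X (8 * l * C1 * a / c1 ^ 2) where
  adm := h.tb.adm
  neg := h.tb.neg
  zero := h.tb.zero
  mbb := h.tb.mbb
  eq := fun x hx => rfb_off hx
  r0 := by
    have := h.C1p; have := h.lp; have := h.tb.num.c10; have := h.a0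
    positivity
  r1 := by
    have h1 := h.sm3
    have h3 := h.tb.num.c10
    rw [div_le_div_iff₀ (by positivity) (by norm_num)]
    linarith
  le := by
    intro x hx
    refine (h.dk hx).trans ?_
    have h1 := h.tb.abs x hx
    have h2 := h.tb.mlo x hx
    have h3 := h.tb.k0 x
    have h4 : k x * c1 ≤ -(bv k c γ0 x).im :=
      (mul_le_mul_of_nonneg_left h2 h3).trans h1
    have hc := h.tb.num.c10
    have e1 : k x * (2 * (4 * l * C1 / c1) * a) = 8 * l * C1 * a / c1 ^ 2 * (k x * c1) := by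
      field_simp
      ring
    rw [e1]
    refine mul_le_mul_of_nonneg_left h4 ?_
    have := h.C1p; have := h.lp; have := h.a0
    positivity

/-- the diagonal of the new resolvent -/
theorem diag {x : ι} (hx : x ∈ X) : rsc H (rfb H X k c γ0) x x =
    gav (ANI.Heff H (bv k c γ0) X) (fun y : {x // x ∈ X} => k y)
      (fun y : {x // x ∈ X} => c y) ⟨x, hx⟩ := by
  have h1 := h.two.entX' ⟨x, hx⟩ ⟨x, hx⟩
  rw [← h1]
  have h2 : (fun y : {x // x ∈ X} => rfb H X k c γ0 y) = bv (fun y : {x // x ∈ X} => k y)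
      (fun y : {x // x ∈ X} => c y) (gav (ANI.Heff H (bv k c γ0) X) (fun y : {x // x ∈ X} => k y)
      (fun y : {x // x ∈ X} => c y)) := by
    funext y
    rw [rfb_X y.2]
    rfl
  rw [h2]
  exact Gv_diag h.rf.adm ⟨x, hx⟩

/-- THE SELF-CONSISTENT EQUATION -/
theorem eqn (x : ι) : rfb H X k c γ0 x = c x - (k x : ℂ) * rsc H (rfb H X k c γ0) x x := by
  by_cases hx : x ∈ X
  · rw [h.diag hx]
    exact rfb_X hx
  · rw [rfb_off hx]
    unfold bv
    rw [h.kX x hx]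
    simp

theorem pos {x : ι} (hx : x ∈ X) : 0 < (rsc H (rfb H X k c γ0) x x).im := by
  rw [h.diag hx]
  exact (gav_bd h.rf.adm ⟨x, hx⟩).1

theorem clo {x : ι} (hx : x ∈ X) :
    ‖rsc H (rfb H X k c γ0) x x - γ0 x‖ ≤ 2 * (4 * l * C1 / c1) * a := by
  rw [h.diag hx]
  exact h.rf.main ⟨x, hx⟩

theorem bb (x : ι) : ‖rfb H X k c γ0 x - bv k c γ0 x‖ ≤ k x * (2 * (4 * l * C1 / c1) * a) := by
  by_cases hx : x ∈ X
  · exact h.dk hx
  · rw [rfb_off hx, sub_self, norm_zero, h.kX x hx, zero_mul]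

/-! ### weighted versions -/

/-- the weighted row sums -/
theorem rowC {f : ι → ℝ} (hf : AdmW H (bv k c γ0) f)
    (hflat : ∀ x y, (x ∉ X ∨ y ∉ X) → H x y ≠ 0 → f x = f y) (x : {x // x ∈ X}) :
    ∑ y : {x // x ∈ X}, k y * Real.exp (-(c1 / (16 * C1 * l) * f y)) *
      ‖rsc (ANI.Heff H (bv k c γ0) X) (bv (fun y : {x // x ∈ X} => k y) (fun y => c y)
        (fun y => γ0 y)) x y‖ ^ 2 ≤
      2 * C1 / c1 * Real.exp (-(c1 / (16 * C1 * l) * f x)) := by
  have hc := h.tb.num.c10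
  have hC := h.C1p
  have h1 := h.tb.sbw.rowW (f := fun y : {x // x ∈ X} => f y) (admW_eff h.tb.mbb hf hflat) x
  have h2 : (1 + (al + 4 * (c1 / (16 * C1 * l)) * C1 / c1)) ≤ 2 := by
    have e1 := h.tb.sbw.al1
    have e2 := h.lp
    have e3 : 0 ≤ al := h.tb.al0
    have e4 : 1 ≤ 1 + (al + 4 * (c1 / (16 * C1 * l)) * C1 / c1) := by
      have : 0 ≤ 4 * (c1 / (16 * C1 * l)) * C1 / c1 := by positivity
      linarith
    refine le_trans ?_ e1
    calc (1 + (al + 4 * (c1 / (16 * C1 * l)) * C1 / c1)) =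
        (1 + (al + 4 * (c1 / (16 * C1 * l)) * C1 / c1)) ^ 1 := (pow_one _).symm
      _ ≤ _ := pow_le_pow_right₀ e4 (by
        have : (1 : ℝ) ≤ l := by linarith
        have : 1 ≤ l := by exact_mod_cast this
        omega)
  have h3 := h.tb.mup x x.2
  have h4 := h.tb.mlo x x.2
  set th := c1 / (16 * C1 * l) with hth
  have h5 : ∑ y : {x // x ∈ X}, k y * Real.exp (-(th * f y)) *
      ‖rsc (ANI.Heff H (bv k c γ0) X) (bv (fun y : {x // x ∈ X} => k y) (fun y => c y)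
        (fun y => γ0 y)) x y‖ ^ 2 ≤
      Real.exp (-(th * f x)) / c1 * ∑ y : {x // x ∈ X}, k y * (γ0 y).im *
        ‖rsc (ANI.Heff H (bv k c γ0) X) (fun y => bv k c γ0 y) x y‖ ^ 2 *
        Real.exp (th * (f x - f y)) := by
    rw [Finset.mul_sum]
    refine Finset.sum_le_sum fun y _ => ?_
    have e1 : bv (fun y : {x // x ∈ X} => k y) (fun y => c y) (fun y => γ0 y) =
        fun y : {x // x ∈ X} => bv k c γ0 y := rfl
    rw [e1]
    have e2 : Real.exp (-(th * f y)) = Real.exp (-(th * f x)) * Real.exp (th * (f x - f y)) := by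
      rw [← Real.exp_add]
      congr 1
      ring
    rw [e2]
    have e3 := h.tb.mlo y y.2
    have e4 := h.tb.k0 (y : ι)
    have e5 : 1 ≤ (γ0 y).im / c1 := (one_le_div hc).2 e3
    set g := ‖rsc (ANI.Heff H (bv k c γ0) X) (fun y => bv k c γ0 y) x y‖ ^ 2
    have e6 : 0 ≤ g := by positivity
    calc k y * (Real.exp (-(th * f x)) * Real.exp (th * (f x - f y))) * g
        = (k y * (Real.exp (-(th * f x)) * Real.exp (th * (f x - f y))) * g) * 1 := by ring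
      _ ≤ (k y * (Real.exp (-(th * f x)) * Real.exp (th * (f x - f y))) * g) * ((γ0 y).im / c1) :=
          mul_le_mul_of_nonneg_left e5 (by positivity)
      _ = _ := by ring
  refine h5.trans ?_
  have h6 : ∑ y : {x // x ∈ X}, k y * (γ0 y).im *
        ‖rsc (ANI.Heff H (bv k c γ0) X) (fun y => bv k c γ0 y) x y‖ ^ 2 *
        Real.exp (th * (f x - f y)) ≤ 2 * C1 := by
    refine h1.trans ?_
    calc (1 + (al + 4 * th * C1 / c1)) * (γ0 x).im ≤ 2 * (γ0 x).im :=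
          mul_le_mul_of_nonneg_right h2 (hc.le.trans h4)
      _ ≤ 2 * C1 := by linarith
  calc Real.exp (-(th * f x)) / c1 * _ ≤ Real.exp (-(th * f x)) / c1 * (2 * C1) :=
        mul_le_mul_of_nonneg_left h6 (by positivity)
    _ = _ := by ring

theorem smw : 4 * (4 * l * C1 / c1) * (2 * C1 / c1) * (4 * l * C1 / c1) * a ≤ c1 / 2 := by
  have h1 := h.sm
  have h3 := h.tb.num.c10
  have ha := h.a0
  have hC := h.C1p
  have hl := h.lp
  have e1 : 4 * (4 * l * C1 / c1) * (2 * C1 / c1) * (4 * l * C1 / c1) * a =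
      128 * (l : ℝ) ^ 2 * C1 ^ 3 * a / c1 ^ 3 := by
    field_simp
    ring
  rw [e1, div_le_iff₀ (by positivity)]
  have e2 : 0 ≤ (l : ℝ) ^ 2 * C1 ^ 3 * a := by positivity
  have e3 : c1 / 2 * c1 ^ 3 = c1 ^ 4 / 2 := by ring
  rw [e3]
  nlinarith

/-- weighted sup bound of the correction -/
theorem wt {f : ι → ℝ} (hf : AdmW H (bv k c γ0) f)
    (hflat : ∀ x y, (x ∉ X ∨ y ∉ X) → H x y ≠ 0 → f x = f y) {A : ℝ}
    (hA : ∀ x ∈ X, ‖rsc H (bv k c γ0) x x - γ0 x‖ ≤ A * Real.exp (-(c1 / (16 * C1 * l) * f x)))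
    {x : ι} (hx : x ∈ X) :
    ‖rsc H (rfb H X k c γ0) x x - γ0 x‖ ≤
      2 * (4 * l * C1 / c1) * A * Real.exp (-(c1 / (16 * C1 * l) * f x)) := by
  rw [h.diag hx]
  refine h.rf.wt (om := fun x : {x // x ∈ X} => Real.exp (-(c1 / (16 * C1 * l) * f x)))
    (fun x => Real.exp_pos _) (Pw := 4 * l * C1 / c1) (aw := A) (C3 := 2 * C1 / c1)
    (fun u v hv x => h.tb.supW hf hflat u v hv x) ?_ (h.rowC hf hflat) h.smw ⟨x, hx⟩
  intro x
  have h1 := hA x x.2
  rw [← h.tb.ent_eq] at h1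
  exact h1

/-- weighted `ℓ¹` bound of the correction -/
theorem l1 {f : ι → ℝ} (hf : AdmW H (bv k c γ0) f)
    (hflat : ∀ x y, (x ∉ X ∨ y ∉ X) → H x y ≠ 0 → f x = f y) :
    ∑ x ∈ X, k x * Real.exp (-(c1 / (16 * C1 * l) * f x)) *
        ‖rsc H (rfb H X k c γ0) x x - γ0 x‖ ≤
      2 * (4 * l * C1 / c1) * ∑ x ∈ X, k x * Real.exp (-(c1 / (16 * C1 * l) * f x)) *
        ‖rsc H (bv k c γ0) x x - γ0 x‖ := by
  have h1 := h.rf.l1w (om := fun x : {x // x ∈ X} => Real.exp (-(c1 / (16 * C1 * l) * f x)))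
    (fun x => Real.exp_pos _) (Pw := 4 * l * C1 / c1) (C3 := 2 * C1 / c1) h.Pi0.le
    (fun u v hv x => h.tb.supW hf hflat u v hv x) (h.rowC hf hflat) h.smw
  rw [← Finset.sum_coe_sort X, ← Finset.sum_coe_sort X]
  refine le_trans (le_of_eq ?_) (h1.trans (le_of_eq ?_))
  · refine Finset.sum_congr rfl fun x _ => ?_
    rw [h.diag x.2]
  · congr 1
    refine Finset.sum_congr rfl fun x _ => ?_
    have h2 := h.tb.ent_eq x x
    have h3 : rsc (ANI.Heff H (bv k c γ0) X) (bv (fun y : {x // x ∈ X} => k y) (fun y => c y)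
        (fun y => γ0 y)) x x = rsc H (bv k c γ0) x x := h2
    rw [h3]

/-- unweighted `ℓ¹` bound -/
theorem l10 : ∑ x ∈ X, k x * ‖rsc H (rfb H X k c γ0) x x - γ0 x‖ ≤
    2 * (4 * l * C1 / c1) * ∑ x ∈ X, k x * ‖rsc H (bv k c γ0) x x - γ0 x‖ := by
  have hf : AdmW H (bv k c γ0) (fun _ => (0 : ℝ)) := by
    intro x
    have := h.tb.adm.im x
    simp only [sub_self, Real.sinh_zero, abs_zero, mul_zero, Finset.sum_const_zero]
    linarith
  have h1 := h.l1 hf (fun _ _ _ _ => rfl)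
  simpa using h1

end RT

end Pool.Agent.AND
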