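import Pool.Agent.AND.PInv
import Pool.Agent.ANQ.Torus
import Pool.Agent.AND.End5

/-! # AND / RunInv: `OutS` from the process

`outS_of_proc`: `OutS` from `ANQ.ProcIn` and a good medium at the start of super-stage `n`.
-/

set_option autoImplicit false
set_option linter.unusedSectionVars false

open Finset

namespace Pool.Agent.AND

open Pool.Agent.ANQ Pool.Agent.Kin Pool.Agent.ANC

/-- OUTPUT FROM THE PROCESS -/
theorem outS_of_proc {d L : ℕ} [NeZero L] {X : Type} [Fintype X] [DecidableEq X]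
    {Lw : ANB.Law X} {lam E es C1 c1 k0 : ℝ} {al n J cs M : ℕ} {v2 K1 : ℝ}
    {A : Ana (Tor d L) X} (hwk : ∀ n a, A.wk n a → Lw.wk n a)
    (hok : ((torGeo d L k0 al J cs v2 Lw.nf).par (ANC.dW k0 al) (VV d cs)).Ok)
    {E1 : ℕ → ℕ → Set (Tor d L → X)} {E2 : ℕ → Tor d L → Set (Tor d L → X)}
    {p : ℕ → ℕ → ℝ} {a : Fin 4 → ℕ → ℝ} {b nn : ℕ → ℝ}
    (hp : ProcIn (fun _ : Tor d L => Lw.p) (torGeo d L k0 al J cs v2 Lw.nf) A M E1 E2 p a b
      (fun j => ks k0 al (j + 1) ^ K1) nn) (hn : n ≤ M + 1) (hnf : ANC.lv k0 al n ≤ Lw.nf)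
    (hgood : ∀ v, ∃ (M : Med (Tor d L)) (f : Fix) (t : Tol d L) (u : UTol),
      f.C1 = C1 ∧ c1 ≤ f.c1 ∧ IsMed (H0T d L) (sysOf Lw lam E es)
        ((torGeo d L k0 al J cs v2 Lw.nf).run A n v).pi v M ∧ Good f t M ∧ t.In f M u ∧
        Num f t u ∧ t.eta = es) :
    OutS d L Lw lam E es C1 c1 k0 al n J (VV d cs) v2 K1 := by
  refine ⟨(torGeo d L k0 al J cs v2 Lw.nf).par (ANC.dW k0 al) (VV d cs),
    fun v => (torGeo d L k0 al J cs v2 Lw.nf).hist A tor_cor tor_self tor_symm (ANC.dW k0 al)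
      (VV d cs) v, hok, rfl, rfl, rfl, rfl, rfl, rfl, ?_, ?_⟩
  · intro j hj c
    exact hp.bad_one j (by omega) c
  · intro v
    obtain ⟨M', f, t, u, h1, h2, h3, h4, h5, h6, h7⟩ := hgood v
    have hi := pinv_run (g := torGeo d L k0 al J cs v2 Lw.nf) (A := A) n v
    refine ⟨_, M', f, t, u,
      { fC := h1
        fc := h2
        med := h3
        good := h4
        tin := h5
        num := h6
        te := h7
        rd := ?_
        st := ?_
        lev := ?_
        ine := ?_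
        rl := ?_ }⟩
    · intro x hx
      exact Geo.run_rd tor_cor tor_self tor_symm (ANC.dW k0 al) (VV d cs) n v (by omega) hx
    · intro x hx1 hx2 hx3
      exact mem_stat.2 ⟨hx2, hx1, hx3⟩
    · intro x hx
      have h8 := Geo.run_lev tor_cor hp.loc n v x hx
      rw [h8]
      exact le_min le_rfl hnf
    · intro x hx
      exact hwk _ _ (hi.iw x hx)
    · intro x hx
      exact (hi.rl x hx).ge

end Pool.Agent.AND
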