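import Pool.Agent.AND.PartsD
import Pool.Agent.AND.InAt
import Pool.Agent.AND.PercNum
import Pool.Agent.ANC.ParV
import Pool.Agent.ANQ.Mult

/-! # AND / Setup: THE CONCRETE DATA of the construction

`datV` = the concrete `Dat`: parameters `parV`, torus geometry, digits of a finite dyadic law, initial fields `F0v`.
* `qok_datV` : `QOk`;  `numB_datV`, `ev_numS` : `NumB`, `NumS`;  `ev_fnum` : `FNum`;
* `ev_inH` : everything about the states of the algorithm (`InH`);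
* `parts_of` : `Parts` from the step bound and the leak bound.
-/

set_option autoImplicit false

open Matrix Finset Filter Topology

noncomputable section

namespace Pool.Agent.AND

open Pool.Agent.Kin Pool.Agent.APS Pool.Agent.ANM Pool.Agent.ANC Pool.Agent.ANB Pool.Agent.ANQ

variable {d : ℕ} {CM : ℝ} {N : ℕ} [NeZero N] {X : Type} [Fintype X]

/-- THE CONCRETE DATA -/
def datV (x : Ex d CM) (c : Cst) (c1 C1 C : ℝ) (N : ℕ) [NeZero N] (Lw : Law X) (Sf : SiteF X)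
    (lam E k0 es : ℝ) (g0 : ℂ) (gam Lm : ℝ) (r : ℕ → ℕ) : Dat d N X where
  f := { g0 := g0, c1 := c1 / 2, C1 := 2 * C1, s := x.s, r0 := k0 ^ (-2 : ℝ) }
  P := parV x c k0 es
  Sf := Sf
  Y := sysOf Lw lam E es
  q := Lw.q
  wk := wkA Lw
  g := torGeo d N k0 x.al x.J 24 x.v2 Lw.nf
  mJ := x.J
  F0 := F0v d N k0 Lm C gam
  rt := fun j I => ∀ y, ¬ Rb (td : Tor d N → Tor d N → ℕ) (r j) (I : Set (Tor d N)) y
  cI := 3 / 4 * g0.im

section basic

variable {x : Ex d CM} {c : Cst} {c1 C1 C : ℝ} {Lw : Law X} {Sf : SiteF X}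
  {lam E k0 es : ℝ} {g0 : ℂ} {gam Lm : ℝ} {r : ℕ → ℕ}

/-- THE DIGITS DETERMINE EVERYTHING -/
theorem qok_datV (hk : 0 < k0) (hk1 : k0 < 1)
    (hphi : ∀ K n a b, Lw.q n a = Lw.q n b → Sf.phi K n a = Sf.phi K n b)
    (hom : ∀ n a b, Lw.q n a = Lw.q n b → Sf.om n a = Sf.om n b) :
    (datV x c c1 C1 C N Lw Sf lam E k0 es g0 gam Lm r).QOk where
  refine := fun n n' a b h1 h2 => Lw.fine_le h1 a b h2
  top := fun a b h => Lw.q_top le_rfl h
  wk := fun n a b h => wkA_congr h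
  lv_mono := tor_lv_mono hk hk1 x.al2
  lv_le := tor_lv_le
  hh := fun n a b h => hh_congr h
  kk := fun n a b h => kk_congr h
  phi := hphi
  om := hom

/-- basic numerical hypotheses -/
theorem numB_datV (hc : c.Pos) (hk : k0 = (lam * (2 * Lw.S)) ^ 2) (hk0 : 0 < k0) (hes : 0 < es)
    (hS : Sf.Pos) (hg : c1 ≤ g0.im) (hc1 : 0 < c1) (hC1 : 0 ≤ C1)
    (hcs : c.cs ≤ c.cl * (3 / 4 * c1)) :
    (datV x c c1 C1 C N Lw Sf lam E k0 es g0 gam Lm r).NumB where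
  P := parV_pos x hc hk0 hes.le
  S := hS
  eta := rfl
  eta0 := hes
  kk0 := kk_nonneg
  kkhi := fun n a => by
    have h1 : (sysOf Lw lam E es).kk n a ≤ kn Lw lam n := kk_le n a
    have h2 : kn Lw lam n = kap k0 n := by
      rw [hk]
      unfold kn kap
      have h3 : (4 : ℝ) ^ n = (2 ^ n) ^ 2 := by
        rw [← pow_mul, mul_comm, pow_mul]
        norm_num
      rw [one_div, inv_pow, h3]
      field_simp
    rw [h2] at h1
    exact h1
  cI := by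
    show 0 ≤ 3 / 4 * g0.im
    linarith
  C1 := by
    show 0 ≤ 2 * C1
    linarith
  cs := by
    show c.cs ≤ c.cl * (3 / 4 * g0.im)
    refine hcs.trans (mul_le_mul_of_nonneg_left ?_ hc.cl.le)
    linarith

/-- no bad root -/
theorem rt_anti {I I' : Finset (Tor d N)} (h : I' ⊆ I) {ρ : ℕ}
    (hI : ∀ y, ¬ Rb (td : Tor d N → Tor d N → ℕ) ρ (I : Set (Tor d N)) y) :
    ∀ y, ¬ Rb (td : Tor d N → Tor d N → ℕ) ρ (I' : Set (Tor d N)) y :=
  fun y hy => hI y (hy.mono (Finset.coe_subset.2 h))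

theorem rt_succ {I : Finset (Tor d N)} {ρ ρ' : ℕ} (h1 : 1 ≤ ρ') (h : ρ ∣ ρ')
    (hI : ∀ y, ¬ Rb (td : Tor d N → Tor d N → ℕ) ρ (I : Set (Tor d N)) y) :
    ∀ y, ¬ Rb (td : Tor d N → Tor d N → ℕ) ρ' (I : Set (Tor d N)) y := by
  obtain ⟨m, rfl⟩ := h
  intro y
  have hm : 1 ≤ m := by
    rcases Nat.eq_zero_or_pos m with rfl | hm
    · simp at h1
    · exact hm
  rw [mul_comm]
  exact Rb_upgrade td_met hm hI y

end basic

/-- THE HYPOTHESES on the torus, the law, the energy (`Jm` super-stages, `cg` = lower bound of `gam / k0`) -/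
structure DatH (x : Ex d CM) (c : Cst) (c1 C1 C cg : ℝ) (N : ℕ) [NeZero N] (Lw : Law X)
    (Sf : SiteF X) (lam E k0 es : ℝ) (g0 : ℂ) (gam Lm : ℝ) (r : ℕ → ℕ) (Jm : ℕ) : Prop where
  k : k0 = (lam * (2 * Lw.S)) ^ 2
  es0 : 0 < es
  es1 : es ≤ k0
  g1 : c1 ≤ g0.im
  g2 : ‖g0‖ ≤ C1
  lv : lv k0 x.al Jm ≤ Lw.nf
  dvd : ∀ j < Jm, side k0 x.al j ∣ N
  hgam : cg * k0 ≤ gam
  phi : ∀ K n a b, Lw.q n a = Lw.q n b → Sf.phi K n a = Sf.phi K n b
  om : ∀ n a b, Lw.q n a = Lw.q n b → Sf.om n a = Sf.om n b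
  S : Sf.Pos
  r1 : ∀ j, 1 ≤ r j
  rdvd : ∀ j, r j ∣ r (j + 1)
  start : ∀ v, (datV x c c1 C1 C N Lw Sf lam E k0 es g0 gam Lm r).GoodAt
    ((datV x c c1 C1 C N Lw Sf lam E k0 es g0 gam Lm r).g.lv 0)
    (datV x c c1 C1 C N Lw Sf lam E k0 es g0 gam Lm r).F0
    ((datV x c c1 C1 C N Lw Sf lam E k0 es g0 gam Lm r).g.start
      (datV x c c1 C1 C N Lw Sf lam E k0 es g0 gam Lm r).ana v).pi v

/-- the initial fields are nonnegative -/
theorem F0v_pos {k0 Lm C gam : ℝ} (hk : 0 ≤ k0) :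
    (F0v d N k0 Lm C gam).Pos where
  err := fun _ => le_rfl
  et := fun _ => le_rfl
  be := fun _ => Real.rpow_nonneg hk _
  ae := fun _ => le_rfl

/-- THE FIELDS AND NUMBERS AT EVERY TIME -/
theorem ev_num (x : Ex d CM) {c : Cst} (hc : c.Pos) {c1 C1 C cg : ℝ} (hc1 : 0 < c1)
    (hC1 : 1 ≤ C1) (hC : 0 < C) (hcg : 0 < cg) (hd : 0 < d) (hcs : c.cs ≤ c.cl * (3 / 4 * c1)) :
    ∀ᶠ k0 in 𝓝[>] (0 : ℝ), ∀ (N : ℕ) [NeZero N] (X : Type) [Fintype X] (Lw : Law X)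
      (Sf : SiteF X) (lam E es : ℝ) (g0 : ℂ) (gam Lm : ℝ) (r : ℕ → ℕ) (Jm : ℕ),
      DatH x c c1 C1 C cg N Lw Sf lam E k0 es g0 gam Lm r Jm →
      FNum (datV x c c1 C1 C N Lw Sf lam E k0 es g0 gam Lm r) Jm k0 (k0 ^ (1 / 4 : ℝ)) Lm ∧
      (datV x c c1 C1 C N Lw Sf lam E k0 es g0 gam Lm r).NumS Jm ∧
      (datV x c c1 C1 C N Lw Sf lam E k0 es g0 gam Lm r).QOk ∧
      ∀ n, InNum (datV x c c1 C1 C N Lw Sf lam E k0 es g0 gam Lm r).f (parV x c k0 es) n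
        (k0 ^ (x.vi / 2)) (aeB k0 es x.vi n) (kap k0 n ^ (3 * x.vt)) := by
  have hvi := x.vi_pos
  have hvi1 := ex_vi1 x
  have hJ : 0 < x.J := x.J1
  have hep : 0 < c1 / 4 := by positivity
  have e1 := x.e_eq
  have e2 := x.vi_lt
  have e3 := x.v_lt
  have hsm := ev_le (C := 1) (b := x.vi / 2) (by positivity) hep 0
  have hsm1 := ev_le (C := 1) (b := x.vi / 2) (by positivity) one_pos 0
  filter_upwards [fh_par x hc x.J 24, ev_FNv x x.J, F0v_far x hC hcg hd,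
    ev_dl x hc (C1 := 2 * C1), hsm, hsm1,
    par_ok d x.J 24 x.al2 x.v2_pos.le x.v2_le, tor_rho x.J 24 hJ x.al2 x.v2_pos.le x.v2_le,
    inNum x hc (show (0 : ℝ) < 2 * C1 by linarith) hep,
    ev_small (show (0 : ℝ) < 1 / 4 by norm_num)] with k0 hfh hFN hfar hdl hsm hsm1 hmu1
      hmu2 hin hk N _ X _ Lw Sf lam E es g0 gam Lm r Jm H
  have hk0 := hk.1
  have hk1 : k0 < 1 := by linarith [hk.2]
  rw [pow_zero, mul_one, one_mul] at hsm hsm1
  obtain ⟨hdl0, hdl1, hdl2⟩ := hdl es H.es0.le H.es1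
  set D := datV x c c1 C1 C N Lw Sf lam E k0 es g0 gam Lm r with hD
  have hgi : ‖g0‖ ≤ C1 := H.g2
  have hQ : D.QOk := qok_datV hk0 hk1 H.phi H.om
  have hB : D.NumB := numB_datV hc H.k hk0 H.es0 H.S H.g1 hc1 (by linarith) hcs
  have hF : FNum D Jm k0 (k0 ^ (1 / 4 : ℝ)) Lm :=
    { fh := hfh es N Lw.nf Jm H.es0.le H.lv H.dvd
      hk0 := hk0
      hk1 := hk1.le
      kap := rfl
      vi := hvi
      vi1 := hvi1
      vt := by
        show 0 < x.vt / 2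
        have := x.vt_pos
        positivity
      vp := by
        show x.vi / 2 < x.vi
        linarith
      num := hFN
      s := rfl
      s0 := x.s_pos.le
      r0 := by
        show (1 : ℝ) ≤ k0 ^ (-2 : ℝ)
        exact Real.one_le_rpow_of_pos_of_le_one_of_nonpos hk0 hk1.le (by norm_num)
      Fpos := F0v_pos hk0.le
      Ferr := fun _ => le_rfl
      Fet := fun _ => le_rfl
      Fbe := fun _ => le_rfl
      Fae := fun _ => le_rfl
      Flam := fun y z => min_le_left _ _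
      Fh5 := fun y z h => hfar N gam Lm H.hgam y z h
      del := by
        show 0 + k0 ^ (x.vi / 2) + 3 / 4 * g0.im ≤ g0.im
        have := H.g1
        linarith
      C1 := by
        show ‖g0‖ + 0 + k0 ^ (x.vi / 2) ≤ 2 * C1
        linarith
      C10 := by
        show 0 ≤ 2 * C1
        linarith
      dl := fun n => dl_of hk0 H.es0.le hdl0 hvi hvi1
        (parV_pos x hc hk0 H.es0.le).e0 hc.Ce.le (by linarith) hdl1 hdl2 n }
  refine ⟨hF, ?_, hQ, fun n => ?_⟩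
  · refine Dat.NumS.mk' hF hB hQ.lv_mono (fun j hj v k cc hcc => ?_) ?_ (fun j I I' h => rt_anti h)
      (fun j I => rt_succ (H.r1 _) (H.rdvd j)) (fun a => wkA_lv0 k0 x.al a) H.start
    · have : DecidableEq X := Classical.decEq X
      refine Geo.don_mult (ANC.dW k0 x.al) (VV d 24) (hmu1 N Lw.nf) j (fun i _ => hmu2 i) v k
        (D.an j) (fun C' hC' => ?_) cc
      refine ⟨hC'.choose, hC'.choose_spec, ?_⟩
      unfold Dat.an
      rw [dif_pos hC']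
      rfl
    · intro y
      rw [Finset.coe_empty]
      exact not_Rb_empty (H.r1 0) y
  · refine hin es D.f H.es0 H.es1 rfl ?_ ?_ ?_ n
    · show 0 < c1 / 2
      positivity
    · show c1 / 2 + c1 / 4 ≤ g0.im
      have := H.g1
      linarith
    · show ‖g0‖ + c1 / 4 ≤ 2 * C1
      have h1 : c1 ≤ C1 := H.g1.trans (((le_abs_self _).trans (Complex.abs_im_le_norm g0)).trans hgi)
      linarith

/-- EVERYTHING ABOUT THE STATES OF THE ALGORITHM, all laws (`SfB`) or uniform weights (`SfA`) -/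
theorem ev_inH (x : Ex d CM) {c : Cst} (hc : c.Pos) {c1 C1 C cg th : ℝ} (hc1 : 0 < c1)
    (hC1 : 1 ≤ C1) (hC : 0 < C) (hcg : 0 < cg) (hd : 0 < d) (hcs : c.cs ≤ c.cl * (3 / 4 * c1))
    (hth : 0 < th) (hth1 : th ≤ 1 / 4) :
    ∀ᶠ k0 in 𝓝[>] (0 : ℝ), ∀ (N : ℕ) [NeZero N] (X : Type) [Fintype X] (Lw : Law X)
      (Sf : SiteF X) (lam E es : ℝ) (g0 : ℂ) (gam Lm : ℝ) (r : ℕ → ℕ) (Jm : ℕ),
      DatH x c c1 C1 C cg N Lw Sf lam E k0 es g0 gam Lm r Jm →
      (SfB (datV x c c1 C1 C N Lw Sf lam E k0 es g0 gam Lm r) (lv k0 x.al Jm) th ∨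
        SfA (datV x c c1 C1 C N Lw Sf lam E k0 es g0 gam Lm r) (lv k0 x.al Jm) th) →
      InH (datV x c c1 C1 C N Lw Sf lam E k0 es g0 gam Lm r) Jm (lv k0 x.al Jm) k0
        (k0 ^ (1 / 4 : ℝ)) Lm th (th / 2) (th / 4) (fun n => kap k0 n ^ (3 * x.vt)) := by
  have hvi := x.vi_pos
  have hcl := hc.cl
  have hcs0 := hc.cs
  have hCz := hc.Cz
  have s1 := ev_le (C := 1) (b := x.vi / 2) (by positivity) (show 0 < c1 / 8 by positivity) 0
  have s2 := ev_le (C := c.Cz) (b := x.vi / 2) (by positivity) (show 0 < th / 2 by positivity) 0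
  have s3 := ev_le (C := c.Cz) (b := x.vi / 2 / 2) (by positivity)
    (show 0 < th / 2 * c.cl by positivity) 0
  have s4 := ev_le (C := c.Cz * (2 * C1)) (b := x.vi / 2 / 2) (by positivity)
    (show 0 < th / 2 * c.cs by positivity) 0
  have s5 := ev_le (C := c.cl * c.Cz) (b := x.vi / 2) (by positivity)
    (show 0 < th / 2 by positivity) 0
  have s6 := ev_le (C := 3 / 2 * c.Cz) (b := x.vi / 2 / 2) (by positivity)
    (show 0 < th / 2 by positivity) 0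
  filter_upwards [ev_num x hc hc1 hC1 hC hcg hd hcs, s1, s2, s3, s4, s5, s6,
    ev_small (show (0 : ℝ) < 1 / 4 by norm_num)] with k0 hn s1 s2 s3 s4 s5 s6 hk N _ X _ Lw Sf lam E
      es g0 gam Lm r Jm H hSf
  rw [pow_zero, mul_one] at s1 s2 s3 s4 s5 s6
  have hk0 := hk.1
  have hk1 : k0 < 1 := by linarith [hk.2]
  obtain ⟨h1, h2, h3, h4⟩ := hn N X Lw Sf lam E es g0 gam Lm r Jm H
  set D := datV x c c1 C1 C N Lw Sf lam E k0 es g0 gam Lm r with hD
  have hg1 := H.g1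
  have hgi : g0.im ≤ C1 := ((le_abs_self _).trans (Complex.abs_im_le_norm g0)).trans H.g2
  have e1 : D.f.g0.im + (D.P.del0 + k0 ^ (D.P.vi / 2)) ≤ 3 / 2 * D.cI := by
    show g0.im + (0 + k0 ^ (x.vi / 2)) ≤ 3 / 2 * (3 / 4 * g0.im)
    linarith
  refine ⟨h1, h2, h3, H.S, ?_, by linarith, by linarith, fun n _ => h4 n, ?_⟩
  · rcases hSf with hSf | hSf
    · refine h3At_B h2.P h2.S hSf H.es0.le e1 (by linarith) (by linarith) s2 s3 ?_
      show c.Cz * k0 ^ (x.vi / 2 / 2) * (g0.im + (0 + k0 ^ (x.vi / 2))) ≤ th / 2 * c.cs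
      have h5 : 0 ≤ k0 ^ (x.vi / 2 / 2) := Real.rpow_nonneg hk0.le _
      calc c.Cz * k0 ^ (x.vi / 2 / 2) * (g0.im + (0 + k0 ^ (x.vi / 2)))
          ≤ c.Cz * k0 ^ (x.vi / 2 / 2) * (2 * C1) :=
            mul_le_mul_of_nonneg_left (by linarith) (by positivity)
        _ = c.Cz * (2 * C1) * k0 ^ (x.vi / 2 / 2) := by ring
        _ ≤ _ := s4
    · refine h3At_A h2.P hSf H.es0.le h2.cI e1 (by linarith) (by linarith) ?_ ?_
      · show c.cl * (c.Cz * k0 ^ (x.vi / 2)) ≤ th / 2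
        rw [← mul_assoc]
        exact s5
      · show 3 / 2 * (c.Cz * k0 ^ (x.vi / 2 / 2)) ≤ th / 2
        rw [← mul_assoc]
        exact s6
  · show min (lv k0 x.al Jm) Lw.nf ≤ lv k0 x.al Jm
    exact min_le_left _ _

/-- `Parts` FROM THE STEP BOUND AND THE LEAK BOUND -/
theorem ev_parts (x : Ex d CM) {w K1 : ℝ} (hK1 : 0 ≤ K1) (hw : 0 < w) (hw1 : w ≤ 1) :
    ∀ᶠ k0 in 𝓝[>] (0 : ℝ), ∀ (c : Cst) (c1 C1 C cg : ℝ) (N : ℕ) [NeZero N] (X : Type) [Fintype X]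
      [DecidableEq X] (Lw : Law X) (Sf : SiteF X) (lam E es : ℝ) (g0 : ℂ) (gam Lm th e rho be0 : ℝ)
      (M n1 : ℕ) (dA : ℕ → ℝ) (Cp Kp : ℝ) (ll : ℕ → ℝ),
      DatH x c c1 C1 C cg N Lw Sf lam E k0 es g0 gam Lm (rj k0 x.al w) (M + 1) →
      InH (datV x c c1 C1 C N Lw Sf lam E k0 es g0 gam Lm (rj k0 x.al w)) (M + 1) n1 k0 be0 Lm
        th e rho dA →
      16 * ((3 : ℝ) ^ d) ^ 4 * Lw.th 0 ≤ 1 →
      (∀ j ≤ M, ∀ i < (datV x c c1 C1 C N Lw Sf lam E k0 es g0 gam Lm (rj k0 x.al w)).g.ns j, ∀ v,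
        ANB.Inv (datV x c c1 C1 C N Lw Sf lam E k0 es g0 gam Lm (rj k0 x.al w)).g
          (fun _ => Kew Lw) (rj k0 x.al w j)
          ((datV x c c1 C1 C N Lw Sf lam E k0 es g0 gam Lm (rj k0 x.al w)).g.crun
            (datV x c c1 C1 C N Lw Sf lam E k0 es g0 gam Lm (rj k0 x.al w)).ana j i v).pi v →
        ANP.Pr (fun _ : Tor d N => Lw.p)
          ((datV x c c1 C1 C N Lw Sf lam E k0 es g0 gam Lm (rj k0 x.al w)).E1 j i ∩
          Cls (datV x c c1 C1 C N Lw Sf lam E k0 es g0 gam Lm (rj k0 x.al w)).ana.q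
          ((datV x c c1 C1 C N Lw Sf lam E k0 es g0 gam Lm (rj k0 x.al w)).g.crun
            (datV x c c1 C1 C N Lw Sf lam E k0 es g0 gam Lm (rj k0 x.al w)).ana j i v).pi v) ≤
          Cp * kap k0 ((datV x c c1 C1 C N Lw Sf lam E k0 es g0 gam Lm
            (rj k0 x.al w)).g.sn j i) ^ Kp *
          ANP.Pr (fun _ : Tor d N => Lw.p)
            (Cls (datV x c c1 C1 C N Lw Sf lam E k0 es g0 gam Lm (rj k0 x.al w)).ana.q
            ((datV x c c1 C1 C N Lw Sf lam E k0 es g0 gam Lm (rj k0 x.al w)).g.crun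
              (datV x c c1 C1 C N Lw Sf lam E k0 es g0 gam Lm (rj k0 x.al w)).ana j i v).pi v)) →
      (∀ j ≤ M, 0 < j → LeakHyp (fun _ : Tor d N => Lw.p)
        (datV x c c1 C1 C N Lw Sf lam E k0 es g0 gam Lm (rj k0 x.al w)).g
        (datV x c c1 C1 C N Lw Sf lam E k0 es g0 gam Lm (rj k0 x.al w)).ana j (side k0 x.al j)
        (20 * side k0 x.al j) (ll j)) → (∀ j, 0 ≤ ll j) →
      (∀ j ≤ M, (side k0 x.al j : ℝ) ^ d * ll j ≤ an k0 x.al K1 j ^ 5) →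
      Parts (datV x c c1 C1 C N Lw Sf lam E k0 es g0 gam Lm (rj k0 x.al w)) Lw lam E es (2 * C1)
        (c1 / 2) k0 x.al x.J M x.v2 K1 Cp Kp (Kew Lw) (rj k0 x.al w) (Lw.th 0) ll
        (fun j => an k0 x.al K1 j ^ 5) := by
  filter_upwards [perc_num d x.al2 hK1 hw hw1] with k0 hp c c1 C1 C cg N _ X _ _ Lw Sf lam E es g0
    gam Lm th e rho be0 M n1 dA Cp Kp ll H hI hth hstep hleak hl0 hl1
  obtain ⟨p1, p2, p3, p4, p5⟩ := hp
  set D := datV x c c1 C1 C N Lw Sf lam E k0 es g0 gam Lm (rj k0 x.al w) with hD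
  have hth0 : 0 ≤ Lw.th 0 := Lw.ep0.le.trans (Lw.the 0)
  exact
    { law := isLaw_const Lw
      g := rfl
      q := rfl
      wk := fun n a h => wkA_wk h
      Y := rfl
      fC := rfl
      fc := le_rfl
      eta := rfl
      qok := hI.qok
      run := fun v => (hI.run le_rfl v).imp fun M' h => ⟨h.med, h.good⟩
      fin := fun v M' h1 h2 => by
        have h3 := hI.run' le_rfl v h1 h2
        exact ⟨_, h3.inn, h3.num⟩
      step := hstep
      leak := hleak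
      ll0 := hl0
      ll1 := hl1
      r1 := p1
      rdvd := p2
      rt := fun j I => Iff.rfl
      wkK := fun n a h => wkA_K h
      wk0 := fun a => wkA_lv0 k0 x.al a
      Kq := Kew_sum Lw
      qw0 := hth0
      rs := fun j _ => p3 j
      xp0 := fun j _ => ⟨p4 j, le_rfl⟩
      xp1 := fun j _ => p5 j _ hth0 hth }

end Pool.Agent.AND
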