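import Pool.Agent.AND.StartV

/-! # AND / SetupB: the concrete data for a general law

* `sfB_law` : the site functions `SfOf` of the law satisfy `SfB` (weights of (H3));
* `LawC`, `LawOf` : constants of a family of laws (independent of `nf`, of the torus);
* `law_inH` : `DatH` and EVERYTHING ABOUT THE STATES OF THE ALGORITHM (`InH`) for the law;
* `law_parts` : `Parts` for the law, from the step bound and the leak bound.
-/

set_option autoImplicit false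

open Matrix Finset Filter Topology

noncomputable section

namespace Pool.Agent.AND

open Pool.Agent.Kin Pool.Agent.APS Pool.Agent.ANM Pool.Agent.ANC Pool.Agent.ANB Pool.Agent.ANQ

section gen

variable {d : ℕ} {CM : ℝ} {N : ℕ} [NeZero N] {X : Type} [Fintype X]

/-- the natural scale of the level is `kap k0 n` -/
theorem kn_eq_kap {Lw : Law X} {lam k0 : ℝ} (hk : k0 = (lam * (2 * Lw.S)) ^ 2) (n : ℕ) :
    kn Lw lam n = kap k0 n := by
  rw [hk]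
  unfold kn kap
  have h3 : (4 : ℝ) ^ n = (2 ^ n) ^ 2 := by
    rw [← pow_mul, mul_comm, pow_mul]
    norm_num
  rw [one_div, inv_pow, h3]
  field_simp

/-- THE WEIGHTS OF (H3) for a general law -/
theorem sfB_law {x : Ex d CM} {c : Cst} {c1 C1 C : ℝ} {Lw : Law X} {lam E k0 es : ℝ} {g0 : ℂ}
    {gam Lm : ℝ} {r : ℕ → ℕ} {nE n1 : ℕ} {th : ℝ} (hk : k0 = (lam * (2 * Lw.S)) ^ 2)
    (hnE : n1 + 1 ≤ nE) (hnf : n1 + 1 ≤ Lw.nf)
    (hs : 8 * Lw.D * 2 ^ (n1 + 1) ≤ Lw.ep * 2 ^ Lw.nf) (hth : th ≤ thL Lw) (hth' : th ≤ cL Lw) :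
    SfB (datV x c c1 C1 C N Lw (SfOf Lw lam nE) lam E k0 es g0 gam Lm r) n1 th where
  K := fun n hn => Finset.mem_Icc.2 ⟨le_rfl, (Nat.succ_le_succ hn).trans hnE⟩
  s := fun n _ => (kn_eq_kap hk (n + 1)).le
  lo := fun n hn m a hm _ => by
    rcases hm with rfl | rfl
    · exact (mul_le_mul_of_nonneg_right hth (kk_nonneg _ _)).trans (phi_next (by omega) a)
    · exact (mul_le_mul_of_nonneg_right hth' (kk_nonneg _ _)).trans (phi_self_ge _ a)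
  hi := fun n hn m a hm => by
    refine phi_le_kk hm (le_trans ?_ hs) a
    have h1 : (2 : ℝ) ^ (n + 1) ≤ 2 ^ (n1 + 1) := pow_le_pow_right₀ (by norm_num) (by omega)
    have h2 := Lw.D0
    exact mul_le_mul_of_nonneg_left h1 (by positivity)
  om := fun m a => SfOf_om_le_one m a
  wphi := fun n _ m a hm h => phi_zero hm (wkA_wk h)
  wom := fun m a _ h => SfOf_om_zero h.1 (wkA_wk h)

end gen

/-- CONSTANTS of a family of laws (`m` = stride) -/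
structure LawC where
  S : ℝ
  D : ℝ
  ep : ℝ
  th : ℕ → ℝ
  m : ℕ

/-- the law has these constants -/
structure LawOf {X : Type} [Fintype X] (κ : LawC) (Lw : Law X) : Prop where
  S : Lw.S = κ.S
  D : Lw.D = κ.D
  ep : Lw.ep = κ.ep
  th : Lw.th = κ.th
  m : Lw.m = κ.m

/-- conditions on the constants of a GENERAL law: the stride is so large that the remaining variance never increases -/
structure LawC.Ok (κ : LawC) : Prop where
  S0 : 0 < κ.S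
  D0 : 0 < κ.D
  ep0 : 0 < κ.ep
  m0 : 0 < κ.m
  an : 12 * κ.D < 2 ^ κ.m * (2 ^ (κ.m - 1) * κ.ep)
  thv : ∀ n, κ.th n = κ.ep * (1 + 1 / ((n : ℝ) + 1))

/-- relative variance of the strong classes -/
def LawC.cL (κ : LawC) : ℝ := (κ.ep / (12 * κ.D)) ^ 2

/-- constant of (H3) -/
def LawC.thL (κ : LawC) : ℝ := κ.cL * (1 / 2) ^ κ.m / 4

namespace LawC

variable {κ : LawC}

theorem cL_nonneg (κ : LawC) : 0 ≤ κ.cL := sq_nonneg _

theorem Ok.cL_pos (h : κ.Ok) : 0 < κ.cL := by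
  unfold LawC.cL
  have := h.ep0
  have := h.D0
  positivity

theorem Ok.thL_pos (h : κ.Ok) : 0 < κ.thL := by
  unfold LawC.thL
  have := h.cL_pos
  positivity

theorem Ok.cL_lt_one (h : κ.Ok) (hep : κ.ep < κ.D) : κ.cL < 1 := by
  unfold LawC.cL
  have h1 := h.ep0
  have h2 := h.D0
  rw [div_pow, div_lt_one (by positivity)]
  nlinarith

end LawC

namespace LawOf

variable {X : Type} [Fintype X] {κ : LawC} {Lw : Law X}

theorem cL (h : LawOf κ Lw) : AND.cL Lw = κ.cL := by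
  unfold AND.cL LawC.cL
  rw [h.ep, h.D]

theorem thL (h : LawOf κ Lw) : AND.thL Lw = κ.thL := by
  unfold AND.thL LawC.thL
  rw [h.cL, h.m]

theorem BD (h : LawOf κ Lw) : Lw.D = 2 ^ (κ.m - 1) * Lw.B.D := by
  rw [← h.m]
  rfl

/-- the stride is large: hypothesis of `kk_lt`, `kp_lt` -/
theorem an (h : LawOf κ Lw) (hκ : κ.Ok) : 12 * Lw.B.D < 2 ^ Lw.m * Lw.B.ep := by
  have h1 := hκ.an
  rw [← h.D, h.BD] at h1
  have h2 : Lw.B.ep = κ.ep := h.ep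
  rw [h.m, h2]
  have h3 : (0 : ℝ) < 2 ^ (κ.m - 1) := by positivity
  have h4 : 2 ^ (κ.m - 1) * (12 * Lw.B.D) < 2 ^ (κ.m - 1) * (2 ^ κ.m * κ.ep) := by
    calc (2 : ℝ) ^ (κ.m - 1) * (12 * Lw.B.D) = 12 * (2 ^ (κ.m - 1) * Lw.B.D) := by ring
      _ < 2 ^ κ.m * (2 ^ (κ.m - 1) * κ.ep) := h1
      _ = _ := by ring
  exact lt_of_mul_lt_mul_left h4 h3.le

/-- ratio of the thresholds -/
theorem th_ratio (h : LawOf κ Lw) (hκ : κ.Ok) (n : ℕ) :
    1 - Lw.th (n + 1) / Lw.th n = 1 / ((n : ℝ) + 2) ^ 2 := by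
  have h1 := hκ.ep0
  have h2 : (0 : ℝ) ≤ n := Nat.cast_nonneg n
  rw [h.th, hκ.thv, hκ.thv]
  push_cast
  have h3 : (n : ℝ) + 1 ≠ 0 := by positivity
  have h4 : (n : ℝ) + 1 + 1 ≠ 0 := by positivity
  have h5 : (n : ℝ) + 2 ≠ 0 := by positivity
  have h6 : 1 + 1 / ((n : ℝ) + 1) ≠ 0 := by positivity
  have h7 : (1 : ℝ) + 1 / ((n : ℝ) + 1 + 1) = (n + 3) / (n + 2) := by
    field_simp
    ring
  have h8 : (1 : ℝ) + 1 / ((n : ℝ) + 1) = (n + 2) / (n + 1) := by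
    field_simp
    ring
  rw [h7, h8]
  field_simp
  ring

/-- LOWER BOUND OF THE COUNTING WEIGHTS on strong classes -/
theorem om_ge (h : LawOf κ Lw) (hκ : κ.Ok) {n : ℕ} (hn : n < Lw.nf) {a : X}
    (hw : ¬ Lw.wk n a) (lam : ℝ) (nE : ℕ) :
    1 / ((n : ℝ) + 2) ^ 2 ≤ (SfOf Lw lam nE).om n a := by
  refine le_trans ?_ (SfOf_om_ge hn hw)
  rw [h.th_ratio hκ]
  have h1 : ((Lw.sk n : ℕ) : ℝ) ≤ n := by exact_mod_cast Lw.sk_le n
  have h2 : (0 : ℝ) ≤ ((Lw.sk n : ℕ) : ℝ) := Nat.cast_nonneg _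
  refine one_div_le_one_div_of_le (by positivity) ?_
  exact pow_le_pow_left₀ (by positivity) (by linarith) 2

end LawOf

/-- EVERYTHING ABOUT THE STATES OF THE ALGORITHM for a general law -/
theorem law_inH {d : ℕ} {CM : ℝ} (x : Ex d CM) {c : Cst} (hc : c.Pos) {c1 C1 C : ℝ}
    (hS : StartC x c c1 C1 C) (hC1 : 1 ≤ C1) (hd : 0 < d) (hcs : c.cs ≤ c.cl * (3 / 4 * c1))
    (C' : ℝ) {w : ℝ} (hw : 0 < w) {Cph cph th : ℝ} (hcph : 0 < cph) (hth : 0 < th)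
    (hth1 : th ≤ 1 / 4) :
    ∀ᶠ k0 in 𝓝[>] (0 : ℝ), ∀ (N : ℕ) [NeZero N] (X : Type) [Fintype X] (Lw : Law X)
      (nE : ℕ) (lam E es : ℝ) (g0 ζ : ℂ) (Lm : ℝ) (Jm : ℕ) (a0 : X),
      k0 = (lam * (2 * Lw.S)) ^ 2 → 0 < es → es ≤ k0 → (∀ j < Jm, side k0 x.al j ∣ N) →
      lv k0 x.al Jm + 1 ≤ Lw.nf → lv k0 x.al Jm + 1 ≤ nE →
      8 * Lw.D * 2 ^ (lv k0 x.al Jm + 1) ≤ Lw.ep * 2 ^ Lw.nf →
      c.cl ≤ 4 * cL Lw → cL Lw ≤ Cph → cph ≤ 1 - Lw.th 1 / Lw.th 0 →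
      th ≤ thL Lw → th ≤ cL Lw →
      StartL d N E es k0 ((sysOf Lw lam E es).hh 0 a0) ((sysOf Lw lam E es).kk 0 a0) x.e
        c1 C1 C C' c.cl g0 ζ → LmS C' (c.cl * c1 / 4) k0 ≤ Lm →
      DatH x c c1 C1 C (c.cl * c1 / 4) N Lw (SfOf Lw lam nE) lam E k0 es g0 ζ.im Lm
        (rj k0 x.al w) Jm ∧
      InH (datV x c c1 C1 C N Lw (SfOf Lw lam nE) lam E k0 es g0 ζ.im Lm (rj k0 x.al w)) Jm
        (lv k0 x.al Jm) k0 (k0 ^ (1 / 4 : ℝ)) Lm th (th / 2) (th / 4)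
        (fun n => kap k0 n ^ (3 * x.vt)) := by
  have hc1 := hS.c1p
  have hcl := hc.cl
  have hC : 0 < C := lt_of_lt_of_le one_pos hS.Cp
  filter_upwards [ev_datH_law x hc hS C' Cph hcph,
    ev_inH x hc hc1 hC1 hC (show 0 < c.cl * c1 / 4 by positivity) hd hcs hth hth1,
    ev_small (show (0 : ℝ) < 1 / 2 by norm_num)] with k0 h1 h2 hk N _ X _ Lw nE lam E es g0 ζ Lm
      Jm a0 hk0 hes hes1 hdvd hnf hnE hs hcl4 hCph hcph' hthL hthc hL hLm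
  have hk00 := hk.1
  have hk1 : k0 < 1 := by linarith [hk.2]
  have hs0 : 8 * Lw.D ≤ Lw.ep * 2 ^ Lw.nf := by
    refine le_trans ?_ hs
    have h3 : (1 : ℝ) ≤ 2 ^ (lv k0 x.al Jm + 1) := one_le_pow₀ (by norm_num)
    have h4 := Lw.D0
    nlinarith
  have hD := h1 N X Lw nE lam E es g0 ζ Lm (rj k0 x.al w) Jm a0 hk0 hes hes1 (by omega) hdvd
    (fun j => rj_pos k0 x.al w j) (fun j => rj_dvd hk00 hk1 x.al2 hw.le (Nat.le_succ j)) hcl4 hs0
    (by omega) hCph hcph' hL hLm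
  exact ⟨hD, h2 N X Lw (SfOf Lw lam nE) lam E es g0 ζ.im Lm (rj k0 x.al w) Jm hD
    (Or.inl (sfB_law hk0 hnE hnf hs hthL hthc))⟩

end Pool.Agent.AND
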