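import Pool.Agent.AND.Stage
import Pool.Agent.AND.TolIn
import Pool.Agent.ANC.FldN

/-! # AND / StageNum (helper43): the fields at every time are admissible

`FNum D Jm k0 be0 Lam` = geometric (`FH`) and numerical hypotheses.  Conclusions at every time:
* `FldIn` (bounds used by TolIn): `fi_in` (fields `fi j i`, level `sn j i`), `fi1_in` (fields `fi j (i+1)` after the step `i`, level `sn j i`,
  the bound of `ae` is that of the level `sn j i + 1`), `fs_in`, `fd_in`;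
* `FOk` (used by Stage): `fi_ok`, `fi1_ok`, `fs_ok`, `fd_ok'`: the fields `fi`, `fi1`, `fs` of `Dat.NumS`.
* `ev_dl` : the condition `dl` for small `k0`.
-/

open Matrix Finset

noncomputable section

namespace Pool.Agent.AND

open Pool.Agent.Kin Pool.Agent.APS Pool.Agent.ANC

variable {d L : ℕ} [NeZero L] {X : Type}

theorem FldIn.anti {f : Fix} {F F' : Fld (Tor d L)} {e1 e2 an Lam C2 : ℝ} (hle : F.Le F')
    (h : FldIn f F' e1 e2 an Lam C2) : FldIn f F e1 e2 an Lam C2 where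
  err := fun x => (hle.err x).trans (h.err x)
  et := fun x => (hle.et x).trans (h.et x)
  be := fun x => (hle.be x).trans (h.be x)
  ae := fun x => (hle.ae x).trans (h.ae x)
  lam := fun x y => (hle.g5 x y).trans (h.lam x y)
  h5 := fun x y hxy => (hle.g5 x y).trans (h.h5 x y hxy)

theorem FldIn.mono_an {f : Fix} {F : Fld (Tor d L)} {e1 e2 an an' Lam C2 : ℝ} (ha : an ≤ an')
    (h : FldIn f F e1 e2 an Lam C2) : FldIn f F e1 e2 an' Lam C2 :=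
  ⟨h.err, h.et, h.be, fun x => (h.ae x).trans ha, h.lam, h.h5⟩

/-- the bound of `ae` is monotone in the level -/
theorem aeB_mono {k0 eta vi : ℝ} (hk : 0 < k0) (he : 0 ≤ eta) (hvi1 : vi ≤ 1) {n m : ℕ}
    (hnm : n ≤ m) : aeB k0 eta vi n ≤ aeB k0 eta vi m := by
  unfold aeB
  have h1 := kap_pos hk m
  have h2 := kap_anti hk hnm
  have h3 : 0 ≤ k0 ^ (vi / 32) := Real.rpow_nonneg hk.le _
  refine mul_le_mul_of_nonneg_left ?_ h3
  exact Real.rpow_le_rpow_of_nonpos (by linarith) (by linarith) (by linarith)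

/-- the fields grow -/
theorem FI_le {P : Par} (hP : P.Pos) (g : ANQ.Geo (Tor d L)) (j : ℕ) (F : Fld (Tor d L)) (i : ℕ) :
    F.Le (FI P g j F i) := by
  induction i with
  | zero => exact Fld.Le.refl F
  | succ i ih => exact ih.trans (Fld.le_add hP _ _ _ _)

theorem FS_le {P : Par} (hP : P.Pos) (g : ANQ.Geo (Tor d L)) (mJ : ℕ) (F0 : Fld (Tor d L))
    (j : ℕ) : F0.Le (FS P g mJ F0 j) := by
  induction j with
  | zero => exact Fld.Le.refl F0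
  | succ j ih => exact (ih.trans (FI_le hP g j _ _)).trans (Fld.le_ins hP _ _ _ _ _)

/-- hypotheses -/
structure FNum (D : Dat d L X) (Jm : ℕ) (k0 be0 Lam : ℝ) : Prop where
  fh : FH D.P D.g Jm
  hk0 : 0 < k0
  hk1 : k0 ≤ 1
  kap : D.P.kap = kap k0
  vi : 0 < D.P.vi
  vi1 : D.P.vi ≤ 1
  vt : 0 < D.P.vt
  vp : D.P.vp < D.P.vi
  num : FN d D.mJ k0 D.P.vi D.P.vt D.P.vp be0
  s : D.f.s = D.P.s5
  s0 : 0 ≤ D.P.s5
  r0 : 1 ≤ D.f.r0
  Fpos : D.F0.Pos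
  Ferr : ∀ x, D.F0.err x ≤ 0
  Fet : ∀ x, D.F0.et x ≤ 0
  Fbe : ∀ x, D.F0.be x ≤ be0
  Fae : ∀ x, D.F0.ae x ≤ 0
  Flam : ∀ x y, D.F0.g5 x y ≤ Lam
  Fh5 : ∀ x y, D.f.r0 ≤ (ANM.td x y : ℝ) →
    D.F0.g5 x y ≤ 1 / 2 * (ANM.td x y : ℝ) ^ (-D.f.s)
  del : D.P.del0 + k0 ^ (D.P.vi / 2) + D.cI ≤ D.f.g0.im
  C1 : ‖D.f.g0‖ + D.P.del0 + k0 ^ (D.P.vi / 2) ≤ D.f.C1
  C10 : 0 ≤ D.f.C1
  dl : ∀ n, (D.P.e0 + D.P.Ce * aeB k0 D.P.eta D.P.vi (n + 1)) *
    ((D.P.eta + D.P.kap n * D.f.C1) * D.f.C1) ≤ D.P.dS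

namespace FNum

variable {D : Dat d L X} {Jm : ℕ} {k0 be0 Lam : ℝ} (h : FNum D Jm k0 be0 Lam)
include h

theorem in_of_bd {F : Fld (Tor d L)} {n : ℕ} (hB : Fld.Bd D.P D.mJ D.F0 F n) :
    FldIn D.f F (k0 ^ (D.P.vi / 2)) (k0 ^ (D.P.vp / 2)) (aeB k0 D.P.eta D.P.vi n) (Lam + 1) 1 :=
  fldIn_of_bd h.hk0 h.hk1 h.kap h.fh.pos.eta h.vi h.vi1 h.vt h.vp h.num h.s h.s0 h.r0 h.Ferr h.Fet
    h.Fbe h.Fae h.Flam h.Fh5 hB

theorem fs_in {j : ℕ} (hj : j ≤ Jm) : FldIn D.f (D.fs j) (k0 ^ (D.P.vi / 2))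
    (k0 ^ (D.P.vp / 2)) (aeB k0 D.P.eta D.P.vi (D.g.lv j)) (Lam + 1) 1 :=
  h.in_of_bd ((h.fh.bd D.mJ D.F0).1 j hj)

theorem fi_in {j : ℕ} (hj : j < Jm) {i : ℕ} (hi : i ≤ D.g.ns j) :
    FldIn D.f (D.fi j i) (k0 ^ (D.P.vi / 2)) (k0 ^ (D.P.vp / 2))
      (aeB k0 D.P.eta D.P.vi (D.g.sn j i)) (Lam + 1) 1 :=
  h.in_of_bd ((h.fh.bd D.mJ D.F0).2 j hj i hi)

omit h in
theorem sn_succ_le (g : ANQ.Geo (Tor d L)) (j i : ℕ) : g.sn j (i + 1) ≤ g.sn j i + 1 := by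
  unfold ANQ.Geo.sn
  rcases Nat.eq_zero_or_pos (g.nc j) with h0 | h0
  · rw [h0]
    simp
  · have h1 : (i + 1) / g.nc j ≤ (i + g.nc j) / g.nc j := Nat.div_le_div_right (by omega)
    rw [Nat.add_div_right _ h0] at h1
    omega

/-- after the step `i`, at the old level -/
theorem fi1_in {j : ℕ} (hj : j < Jm) {i : ℕ} (hi : i < D.g.ns j) :
    FldIn D.f (D.fi j (i + 1)) (k0 ^ (D.P.vi / 2)) (k0 ^ (D.P.vp / 2))
      (aeB k0 D.P.eta D.P.vi (D.g.sn j i + 1)) (Lam + 1) 1 :=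
  (h.fi_in hj (show i + 1 ≤ D.g.ns j from hi)).mono_an
    (aeB_mono h.hk0 h.fh.pos.eta h.vi1 (sn_succ_le D.g j i))

/-- during the insertions -/
theorem fd_in {j : ℕ} (hj : j < Jm) (don : Finset (Finset (Tor d L)))
    (hm : ∀ c ∈ D.g.corners j, (don.filter fun C => D.an j C = c).card ≤ D.mJ) :
    FldIn D.f (D.fd j don) (k0 ^ (D.P.vi / 2)) (k0 ^ (D.P.vp / 2))
      (aeB k0 D.P.eta D.P.vi (D.g.lv (j + 1))) (Lam + 1) 1 := by
  refine (h.fs_in (show j + 1 ≤ Jm from hj)).anti ?_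
  have hcor : ∀ j x, D.g.cor j (D.g.cor j x) = D.g.cor j x := fun j x => by
    rw [h.fh.cor, h.fh.cor, ANP.cor_idem]
  exact Fld.insD_le h.fh.pos _ _ _ _ _ _ _ (fun C _ => Dat.an_mem hcor j C) hm

theorem ok_of_in {F : Fld (Tor d L)} {n : ℕ} (hp : F.Pos)
    (hF : FldIn D.f F (k0 ^ (D.P.vi / 2)) (k0 ^ (D.P.vp / 2))
      (aeB k0 D.P.eta D.P.vi (n + 1)) (Lam + 1) 1) : D.FOk n F where
  pos := hp
  del := fun x => by
    have h1 := hF.err x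
    have h2 := h.del
    linarith
  C1 := fun x => by
    have h1 := hF.err x
    have h2 := h.C1
    linarith
  dl := fun x => by
    have h1 := hF.ae x
    have hk := h.fh.pos.kap n
    have he := h.fh.pos.eta
    have hC := h.C10
    refine le_trans ?_ (h.dl n)
    refine mul_le_mul_of_nonneg_right ?_ ?_
    · exact add_le_add_right (mul_le_mul_of_nonneg_left h1 h.fh.pos.Ce) _
    · exact mul_nonneg (add_nonneg he (mul_nonneg hk.le hC)) hC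

theorem fs_pos (j : ℕ) : (D.fs j).Pos := h.Fpos.mono (FS_le h.fh.pos _ _ _ _)

theorem fi_pos (j i : ℕ) : (D.fi j i).Pos := (h.fs_pos j).mono (FI_le h.fh.pos _ _ _ _)

theorem fd_pos (j : ℕ) (don : Finset (Finset (Tor d L))) : (D.fd j don).Pos :=
  (h.fi_pos j _).mono (Fld.le_insD h.fh.pos _ _ _ _ _)

theorem fs_ok {j : ℕ} (hj : j ≤ Jm) : D.FOk (D.g.lv j) (D.fs j) :=
  h.ok_of_in (h.fs_pos j) ((h.fs_in hj).mono_an (aeB_mono h.hk0 h.fh.pos.eta h.vi1 (Nat.le_succ _)))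

theorem fi_ok {j : ℕ} (hj : j < Jm) {i : ℕ} (hi : i ≤ D.g.ns j) :
    D.FOk (D.g.sn j i) (D.fi j i) :=
  h.ok_of_in (h.fi_pos j i)
    ((h.fi_in hj hi).mono_an (aeB_mono h.hk0 h.fh.pos.eta h.vi1 (Nat.le_succ _)))

theorem fi1_ok {j : ℕ} (hj : j < Jm) {i : ℕ} (hi : i < D.g.ns j) :
    D.FOk (D.g.sn j i) (D.fi j (i + 1)) :=
  h.ok_of_in (h.fi_pos j _) (h.fi1_in hj hi)

theorem fd_ok' {j : ℕ} (hj : j < Jm) (don : Finset (Finset (Tor d L)))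
    (hm : ∀ c ∈ D.g.corners j, (don.filter fun C => D.an j C = c).card ≤ D.mJ) :
    D.FOk (D.g.lv (j + 1)) (D.fd j don) :=
  h.ok_of_in (h.fd_pos j don)
    ((h.fd_in hj don hm).mono_an (aeB_mono h.hk0 h.fh.pos.eta h.vi1 (Nat.le_succ _)))

theorem cor_idem (j : ℕ) (x : Tor d L) : D.g.cor j (D.g.cor j x) = D.g.cor j x := by
  rw [h.fh.cor, h.fh.cor, ANP.cor_idem]

end FNum

/-- the fields `fi`, `fi1`, `fs` of `Dat.NumS` -/
theorem Dat.NumS.mk' {D : Dat d L X} {Jm : ℕ} {k0 be0 Lam : ℝ} (h : FNum D Jm k0 be0 Lam)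
    (hB : D.NumB) (lvm : Monotone D.g.lv)
    (mult : ∀ j < Jm, ∀ v k, ∀ c ∈ D.g.corners j,
      ((D.g.irun D.ana j k v).don.filter fun C => D.an j C = c).card ≤ D.mJ)
    (rt0 : D.rt 0 ∅) (rt_anti : ∀ j I I', I' ⊆ I → D.rt j I → D.rt j I')
    (rt_succ : ∀ j I, D.rt j I → D.rt (j + 1) I) (wk0 : ∀ a, ¬ D.wk (D.g.lv 0) a)
    (start : ∀ v, D.GoodAt (D.g.lv 0) D.F0 (D.g.start D.ana v).pi v) : D.NumS Jm where
  toNumB := hB
  cor := h.cor_idem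
  lvm := lvm
  fi := fun _ hj _ hi => h.fi_ok hj hi
  fi1 := fun _ hj _ hi => h.fi1_ok hj hi
  fs := fun _ hj => h.fs_ok hj
  mult := mult
  rt0 := rt0
  rt_anti := rt_anti
  rt_succ := rt_succ
  wk0 := wk0
  start := start

/-- the condition `dl` of `FNum` from two inequalities for `k0`, `η_* ≤ k0` not needed: `η_* + k0 ≤ 1` -/
theorem dl_of {k0 eta vi e0 Ce C1 dS : ℝ} (hk : 0 < k0) (he : 0 ≤ eta) (hek : eta + k0 ≤ 1)
    (hvi : 0 < vi) (hvi1 : vi ≤ 1) (he0 : 0 ≤ e0) (hCe : 0 ≤ Ce) (hC1 : 1 ≤ C1)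
    (h1 : e0 * (C1 ^ 2 * (eta + k0)) ≤ dS / 2)
    (h2 : 4 * Ce * C1 ^ 2 * k0 ^ (vi / 32) ≤ dS / 2) (n : ℕ) :
    (e0 + Ce * aeB k0 eta vi (n + 1)) * ((eta + kap k0 n * C1) * C1) ≤ dS := by
  have hn := kap_pos hk n
  have hn1 := kap_le hk n
  have hs : kap k0 (n + 1) = kap k0 n / 4 := kap_succ k0 n
  obtain ⟨t, ht⟩ : ∃ t, t = eta + kap k0 n := ⟨_, rfl⟩
  have ht0 : 0 < t := by rw [ht]; linarith
  have ht1 : t ≤ 1 := by rw [ht]; linarith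
  have hC0 : 0 ≤ C1 := by linarith
  have e1 : (eta + kap k0 n * C1) * C1 ≤ C1 ^ 2 * t := by
    have : eta ≤ eta * C1 := le_mul_of_one_le_right he hC1
    rw [ht]
    nlinarith
  have e2 : 0 ≤ (eta + kap k0 n * C1) * C1 := by positivity
  have hae := aeB_pos (vi := vi) hk he (n + 1)
  have e3 : aeB k0 eta vi (n + 1) * t ≤ 4 * k0 ^ (vi / 32) := by
    unfold aeB
    have hp : 0 ≤ k0 ^ (vi / 32) := Real.rpow_nonneg hk.le _
    have q1 : t / 4 ≤ eta + kap k0 (n + 1) := by rw [hs, ht]; linarith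
    have q2 : (eta + kap k0 (n + 1)) ^ (15 * vi / 16 - 1) ≤ (t / 4) ^ (15 * vi / 16 - 1) :=
      Real.rpow_le_rpow_of_nonpos (by positivity) q1 (by linarith)
    have q3 : (t / 4) ^ (15 * vi / 16 - 1) * t ≤ 4 := by
      have r1 : (t / 4) ^ (15 * vi / 16 - 1) * (t / 4) = (t / 4) ^ (15 * vi / 16) := by
        rw [← Real.rpow_add_one (by positivity : t / 4 ≠ 0)]
        congr 1
        ring
      have r2 : (t / 4) ^ (15 * vi / 16) ≤ 1 :=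
        Real.rpow_le_one (by positivity) (by linarith) (by positivity)
      have r3 : (t / 4) ^ (15 * vi / 16 - 1) * t =
          4 * ((t / 4) ^ (15 * vi / 16 - 1) * (t / 4)) := by ring
      rw [r3, r1]
      linarith
    calc k0 ^ (vi / 32) * (eta + kap k0 (n + 1)) ^ (15 * vi / 16 - 1) * t ≤
          k0 ^ (vi / 32) * (t / 4) ^ (15 * vi / 16 - 1) * t := by gcongr
      _ = k0 ^ (vi / 32) * ((t / 4) ^ (15 * vi / 16 - 1) * t) := by ring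
      _ ≤ k0 ^ (vi / 32) * 4 := mul_le_mul_of_nonneg_left q3 hp
      _ = _ := by ring
  calc (e0 + Ce * aeB k0 eta vi (n + 1)) * ((eta + kap k0 n * C1) * C1) ≤
        (e0 + Ce * aeB k0 eta vi (n + 1)) * (C1 ^ 2 * t) :=
        mul_le_mul_of_nonneg_left e1 (by positivity)
    _ = e0 * (C1 ^ 2 * t) + Ce * C1 ^ 2 * (aeB k0 eta vi (n + 1) * t) := by ring
    _ ≤ e0 * (C1 ^ 2 * (eta + k0)) + Ce * C1 ^ 2 * (4 * k0 ^ (vi / 32)) := by
        refine add_le_add ?_ (mul_le_mul_of_nonneg_left e3 (by positivity))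
        have : t ≤ eta + k0 := by rw [ht]; linarith
        gcongr
    _ ≤ dS := by linarith

end Pool.Agent.AND
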