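import Pool.Agent.AND.StartAt
import Pool.Agent.AND.SfLaw

/-! # AND / StartLaw: the start for the laws `ANB.Law`

* `law_wk0`, `law_q0`, `law_hh0`, `law_kk0`, `law_h0`, `law_s0` : level `0` (one class, not weak), `|h0| ≤ √k0`, `cl k0/4 ≤ s ≤ k0`,
  `k0 = kn Lw lam 0`.
* `law_sf0` : the site functions at level `0`.
* `start_ex_law`, `start_law` : `start_ex`, `start_at` for `sysOf Lw lam E es`, `SfOf Lw lam nE`.
-/

set_option autoImplicit false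

open Matrix Finset Filter Topology

noncomputable section

namespace Pool.Agent.AND

open Pool.Agent.Kin Pool.Agent.APS Pool.Agent.ANC Pool.Agent.ANB

section level0

variable {X : Type} [Fintype X] (Lw : Law X)

theorem law_cell0 (a : X) : Lw.cell 0 a = 0 := by
  unfold Law.cell Law0.cell
  rw [Lw.sk_zero, Nat.sub_zero]
  exact Nat.div_eq_of_lt (Lw.B.clt a)

/-- level `0` is never weak -/
theorem law_wk0 (a : X) : ¬ Lw.wk 0 a := Lw.not_wk_zero a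

theorem law_q0 (a b : X) : Lw.q 0 a = Lw.q 0 b := by
  have ha : ¬ Lw.B.wk (Lw.sk 0) a := law_wk0 Lw a
  have hb : ¬ Lw.B.wk (Lw.sk 0) b := law_wk0 Lw b
  have h : Lw.B.cell (Lw.sk 0) a = Lw.B.cell (Lw.sk 0) b :=
    (law_cell0 Lw a).trans (law_cell0 Lw b).symm
  unfold Law.q Law0.q
  rw [if_neg ha, if_neg hb, h]

theorem law_hh0 (lam E eta : ℝ) (a b : X) :
    (sysOf Lw lam E eta).hh 0 a = (sysOf Lw lam E eta).hh 0 b := hh_congr (law_q0 Lw a b)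

theorem law_kk0 (lam E eta : ℝ) (a b : X) :
    (sysOf Lw lam E eta).kk 0 a = (sysOf Lw lam E eta).kk 0 b := kk_congr (law_q0 Lw a b)

/-- values in `[-S, S]` -/
theorem law_V (a : X) : |Lw.V a| ≤ Lw.S := by
  refine le_trans ?_ Lw.BS_le
  obtain ⟨Lw, m, m0, dvd⟩ := Lw
  change |Lw.V a| ≤ Lw.S
  have h1 := abs_le.1 (Lw.Vc a)
  have hS := Lw.S0
  have hp : (0 : ℝ) < 2 ^ Lw.nf := by positivity
  have h2 : (Lw.c a : ℝ) + 1 ≤ 2 ^ Lw.nf := by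
    have := Lw.clt a
    exact_mod_cast this
  have h3 : (0 : ℝ) ≤ Lw.c a := Nat.cast_nonneg _
  have h4 : 2 * Lw.S * ((Lw.c a : ℝ) + 1 / 2) / 2 ^ Lw.nf + Lw.S / 2 ^ Lw.nf ≤ 2 * Lw.S := by
    rw [← add_div, div_le_iff₀ hp]
    nlinarith
  have h5 : 0 ≤ 2 * Lw.S * ((Lw.c a : ℝ) + 1 / 2) / 2 ^ Lw.nf - Lw.S / 2 ^ Lw.nf := by
    rw [← sub_div]
    refine div_nonneg ?_ hp.le
    nlinarith
  rw [abs_le]
  constructor <;> linarith [h1.1, h1.2]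

theorem law_h0 {lam : ℝ} (hl : 0 ≤ lam) (E eta : ℝ) (a : X) :
    |(sysOf Lw lam E eta).hh 0 a| ≤ √(kn Lw lam 0) := by
  have hS := Lw.S0
  have h1 : |Lw.h 0 a| ≤ Lw.S := by
    have h2 := abs_cE_sub_le Lw.p0 (Lw.q 0) (f := Lw.V) (a := a) (t := 0) (r := Lw.S)
      fun b _ => by rw [sub_zero]; exact law_V Lw b
    rwa [sub_zero] at h2
  have h3 : √(kn Lw lam 0) = lam * (2 * Lw.S) := by
    unfold kn
    rw [pow_zero, div_one]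
    exact Real.sqrt_sq (by positivity)
  rw [h3]
  show |lam * Lw.h 0 a| ≤ _
  rw [abs_mul, abs_of_nonneg hl]
  exact mul_le_mul_of_nonneg_left (h1.trans (by linarith)) hl

/-- `cl k0 / 4 ≤ s ≤ k0` -/
theorem law_s0 {lam : ℝ} (E eta : ℝ) {cl : ℝ} (hcl : cl ≤ 4 * cL Lw)
    (hnf : 8 * Lw.D ≤ Lw.ep * 2 ^ Lw.nf) (a : X) :
    cl * (kn Lw lam 0 / 4) ≤ (sysOf Lw lam E eta).kk 0 a ∧
      (sysOf Lw lam E eta).kk 0 a ≤ kn Lw lam 0 := by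
  refine ⟨?_, kk_le 0 a⟩
  refine le_trans ?_ (kk_low (E := E) (eta := eta) (law_wk0 Lw a)
    (by rw [pow_zero, mul_one]; exact hnf))
  have h1 := kn_nonneg Lw lam 0
  have h2 : cl * (kn Lw lam 0 / 4) ≤ 4 * cL Lw * (kn Lw lam 0 / 4) :=
    mul_le_mul_of_nonneg_right hcl (by positivity)
  have h3 : 4 * cL Lw * (kn Lw lam 0 / 4) = cL Lw * kn Lw lam 0 := by ring
  rw [h3] at h2
  exact h2

/-- the site functions at level `0` -/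
theorem law_sf0 (lam : ℝ) (nE : ℕ) {Cph cph : ℝ} (hnf : 0 < Lw.nf) (hCph : cL Lw ≤ Cph)
    (hcph : cph ≤ 1 - Lw.th 1 / Lw.th 0) (K : ℕ) :
    0 ≤ (SfOf Lw lam nE).s K ∧ (∃ φ0 : ℝ, 0 ≤ φ0 ∧ φ0 ≤ Cph * (SfOf Lw lam nE).s K ∧
      ∀ a, (SfOf Lw lam nE).phi K 0 a = φ0) ∧ ∀ a, cph ≤ (SfOf Lw lam nE).om 0 a := by
  have hne : Nonempty X := by
    by_contra h
    rw [not_nonempty_iff] at h
    have := Lw.p1
    simp at this
  obtain ⟨a0⟩ := hne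
  refine ⟨kn_nonneg Lw lam K, ⟨(SfOf Lw lam nE).phi K 0 a0, SfOf_pos.phi _ _ _, ?_, fun a =>
    SfOf_phi_congr (law_q0 Lw a a0)⟩, fun a => hcph.trans (by
      have h := SfOf_om_ge (nE := nE) (lam := lam) hnf (law_wk0 Lw a)
      rwa [Lw.sk_zero, zero_add] at h)⟩
  exact (phi_le_cL K 0 a0).trans (mul_le_mul_of_nonneg_right hCph (kn_nonneg Lw lam K))

end level0

/-- EXISTENCE of the medium of level `0` for a law, `k0 = kn Lw lam 0` -/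
theorem start_ex_law {d : ℕ} (hd : 3 ≤ d) {δ e : ℝ} (hδ : 0 < δ) (he : 0 < e) (he1 : e < 1) :
    ∃ c1 C1 C C' : ℝ, 0 < c1 ∧ 1 ≤ C1 ∧ 1 ≤ C ∧ 0 < C' ∧ ∀ cl : ℝ, 0 < cl →
      ∀ᶠ k0 in 𝓝[>] (0 : ℝ), ∀ (L : ℕ) [NeZero L] (X : Type) [Fintype X] (Lw : Law X)
        (lam E es : ℝ) (a0 : X), 0 ≤ lam → kn Lw lam 0 = k0 → cl ≤ 4 * cL Lw →
        8 * Lw.D ≤ Lw.ep * 2 ^ Lw.nf → δ ≤ E → E ≤ 4 * d - δ →
        0 < es → es ≤ k0 ^ 2 → k0 ^ (-6 : ℝ) ≤ L → 1 / es ≤ L →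
        ∃ g0 ζ : ℂ, StartL d L E es k0 ((sysOf Lw lam E es).hh 0 a0)
          ((sysOf Lw lam E es).kk 0 a0) e c1 C1 C C' cl g0 ζ := by
  obtain ⟨c1, C1, C, C', h1, h2, h3, h4, H⟩ := start_ex hd hδ he he1
  refine ⟨c1, C1, C, C', h1, h2, h3, h4, fun cl hcl => ?_⟩
  filter_upwards [H cl hcl] with k0 H L _ X _ Lw lam E es a0 hlam hk hcl4 hnf hE hE' hes hes2
    hL hLe
  have h5 := law_s0 Lw (lam := lam) E es hcl4 hnf a0
  have h6 := law_h0 Lw hlam E es a0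
  rw [hk] at h5 h6
  exact H L E es _ _ hE hE' hes hes2 hL hLe h6 h5.1 h5.2

/-- THE INITIAL MEDIUM IS GOOD for the laws: the field `start` of `Dat.NumS` -/
theorem start_law {d : ℕ} {CM : ℝ} (x : Ex d CM) {c : Cst} (hc : c.Pos) {c1 C1 C : ℝ}
    (hS : StartC x c c1 C1 C) (C' Cph : ℝ) {cph : ℝ} (hcph : 0 < cph) :
    ∀ᶠ k0 in 𝓝[>] (0 : ℝ), ∀ (L : ℕ) [NeZero L] (X : Type) [Fintype X] (Lw : Law X)
      (D : Dat d L X) (lam E es Lm : ℝ) (nE : ℕ) (g0 ζ : ℂ) (a0 : X),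
      kn Lw lam 0 = k0 → c.cl ≤ 4 * cL Lw → 8 * Lw.D ≤ Lw.ep * 2 ^ Lw.nf → 0 < Lw.nf →
      cL Lw ≤ Cph → cph ≤ 1 - Lw.th 1 / Lw.th 0 → 0 ≤ es →
      StartL d L E es k0 ((sysOf Lw lam E es).hh 0 a0) ((sysOf Lw lam E es).kk 0 a0) x.e
        c1 C1 C C' c.cl g0 ζ → LmS C' (c.cl * c1 / 4) k0 ≤ Lm →
      D.P = parV x c k0 es → D.F0 = F0v d L k0 Lm C ζ.im → D.f.g0 = g0 →
      D.Y = sysOf Lw lam E es → D.Sf = SfOf Lw lam nE → D.wk = Lw.wk → D.g.lv 0 = 0 →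
      ∀ v, D.GoodAt (D.g.lv 0) D.F0 (D.g.start D.ana v).pi v := by
  filter_upwards [start_at x hc hS C' Cph hcph] with k0 H L _ X _ Lw D lam E es Lm nE g0 ζ a0
    hk hcl4 hnf hnf0 hCph hcph' hes hL hLm hP hF hf hY hSf hwk hlv v
  have h5 := law_s0 Lw (lam := lam) E es hcl4 hnf a0
  rw [hk] at h5
  refine H L X D E es _ _ Lm g0 ζ hes hL hLm h5.1 h5.2 hP hF hf (by rw [hY]; rfl)
    (by rw [hY]; rfl) (fun a => by rw [hY]; exact law_hh0 Lw lam E es a a0)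
    (fun a => by rw [hY]; exact law_kk0 Lw lam E es a a0) (fun K _ => ?_) hlv
    (fun a => by rw [hwk]; exact law_wk0 Lw a) v
  rw [hSf]
  exact law_sf0 Lw lam nE hnf0 hCph hcph' K

/-- the first level of the concrete geometry -/
theorem torGeo_lv0 (d N : ℕ) (k0 : ℝ) (al J cs : ℕ) (v2 : ℝ) (nf : ℕ) :
    (ANQ.torGeo d N k0 al J cs v2 nf).lv 0 = 0 := by
  show min (ANC.lv k0 al 0) nf = 0
  exact Nat.zero_min _

end Pool.Agent.AND
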