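import Pool.Agent.AND.StartLaw

/-! # AND / StartMono: the constant `c1` of the start may be assumed to be at most `1` -/

set_option autoImplicit false

open Matrix Finset Filter Topology

noncomputable section

namespace Pool.Agent.AND

open Pool.Agent.Kin Pool.Agent.APS Pool.Agent.ANM Pool.Agent.ANC Pool.Agent.ANB Pool.Agent.ANQ

/-- `StartL` with a smaller `c1` -/
theorem StartL.mono_c1 {d L : ℕ} [NeZero L] {E es k0 h0 s e c1 c1' C1 C C' cl : ℝ} {g0 ζ : ℂ}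
    (h : StartL d L E es k0 h0 s e c1 C1 C C' cl g0 ζ) (hc : 0 < c1') (hc1 : c1' ≤ c1)
    (hcl : 0 < cl) (hk : 0 < k0) (hC' : 0 ≤ C') :
    StartL d L E es k0 h0 s e c1' C1 C C' cl g0 ζ where
  st := { h.st with lo := hc1.trans h.st.lo }
  glo := by
    refine le_trans ?_ h.glo
    refine mul_le_mul_of_nonneg_right ?_ hk.le
    exact div_le_div_of_nonneg_right (mul_le_mul_of_nonneg_left hc1 hcl.le) (by norm_num)
  ghi := h.ghi
  ent := fun x => by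
    refine (h.ent x).trans ?_
    unfold LmS
    refine mul_le_mul_of_nonneg_left ?_ hC'
    have h1 : 0 < cl * c1' / 4 * k0 := by positivity
    have h2 : cl * c1' / 4 * k0 ≤ cl * c1 / 4 * k0 := by
      refine mul_le_mul_of_nonneg_right ?_ hk.le
      exact div_le_div_of_nonneg_right (mul_le_mul_of_nonneg_left hc1 hcl.le) (by norm_num)
    have h3 : 1 / (cl * c1 / 4 * k0) ≤ 1 / (cl * c1' / 4 * k0) :=
      one_div_le_one_div_of_le h1 h2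
    have h4 : 0 < 1 / (cl * c1 / 4 * k0) := by
      have : 0 < cl * c1 / 4 * k0 := h1.trans_le h2
      positivity
    have h5 := Real.log_le_log h4 h3
    linarith

/-- `start_ex_law` with `c1 ≤ 1` -/
theorem start_ex_law1 {d : ℕ} (hd : 3 ≤ d) {δ e : ℝ} (hδ : 0 < δ) (he : 0 < e) (he1 : e < 1) :
    ∃ c1 C1 C C' : ℝ, 0 < c1 ∧ c1 ≤ 1 ∧ 1 ≤ C1 ∧ 1 ≤ C ∧ 0 < C' ∧ ∀ cl : ℝ, 0 < cl →
      ∀ᶠ k0 in 𝓝[>] (0 : ℝ), ∀ (L : ℕ) [NeZero L] (X : Type) [Fintype X] (Lw : Law X)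
        (lam E es : ℝ) (a0 : X), 0 ≤ lam → kn Lw lam 0 = k0 → cl ≤ 4 * cL Lw →
        8 * Lw.D ≤ Lw.ep * 2 ^ Lw.nf → δ ≤ E → E ≤ 4 * d - δ →
        0 < es → es ≤ k0 ^ 2 → k0 ^ (-6 : ℝ) ≤ L → 1 / es ≤ L →
        ∃ g0 ζ : ℂ, StartL d L E es k0 ((sysOf Lw lam E es).hh 0 a0)
          ((sysOf Lw lam E es).kk 0 a0) e c1 C1 C C' cl g0 ζ := by
  obtain ⟨c1, C1, C, C', h1, h2, h3, h4, H⟩ := start_ex_law hd hδ he he1
  refine ⟨min c1 1, C1, C, C', lt_min h1 one_pos, min_le_right _ _, h2, h3, h4,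
    fun cl hcl => ?_⟩
  filter_upwards [H cl hcl, ev_small one_pos] with k0 H hk L _ X _ Lw lam E es a0 g1 g2 g3 g4 g5
    g6 g7 g8 g9 g10
  obtain ⟨g0, ζ, h⟩ := H L X Lw lam E es a0 g1 g2 g3 g4 g5 g6 g7 g8 g9 g10
  exact ⟨g0, ζ, h.mono_c1 (lt_min h1 one_pos) (min_le_left _ _) hcl hk.1 h4.le⟩

end Pool.Agent.AND
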