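import Pool.Agent.AND.Setup
import Pool.Agent.AND.StartLaw

/-! # AND / StartV: `DatH` for the concrete data: the start included

`ev_datH`   : `DatH` (with `gam = Im ζ`, `cg = cl c1 / 4`) from `StartL` and the remaining trivial hypotheses, abstract site functions;
`ev_datH_law` : the same for `SfOf`.
-/

set_option autoImplicit false

open Matrix Finset Filter Topology

noncomputable section

namespace Pool.Agent.AND

open Pool.Agent.Kin Pool.Agent.APS Pool.Agent.ANM Pool.Agent.ANC Pool.Agent.ANB Pool.Agent.ANQ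

/-- `DatH` from the start -/
theorem ev_datH {d : ℕ} {CM : ℝ} (x : Ex d CM) {c : Cst} (hc : c.Pos) {c1 C1 C : ℝ}
    (hS : StartC x c c1 C1 C) (C' Cph : ℝ) {cph : ℝ} (hcph : 0 < cph) :
    ∀ᶠ k0 in 𝓝[>] (0 : ℝ), ∀ (N : ℕ) [NeZero N] (X : Type) [Fintype X] (Lw : Law X)
      (Sf : SiteF X) (lam E es : ℝ) (g0 ζ : ℂ) (Lm : ℝ) (r : ℕ → ℕ) (Jm : ℕ) (a0 : X),
      k0 = (lam * (2 * Lw.S)) ^ 2 → 0 < es → es ≤ k0 → lv k0 x.al Jm ≤ Lw.nf →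
      (∀ j < Jm, side k0 x.al j ∣ N) →
      (∀ K n a b, Lw.q n a = Lw.q n b → Sf.phi K n a = Sf.phi K n b) →
      (∀ n a b, Lw.q n a = Lw.q n b → Sf.om n a = Sf.om n b) → Sf.Pos →
      (∀ j, 1 ≤ r j) → (∀ j, r j ∣ r (j + 1)) →
      c.cl ≤ 4 * cL Lw → 8 * Lw.D ≤ Lw.ep * 2 ^ Lw.nf →
      (∀ K ∈ Sf.Ks 0, Sf.phi K 0 a0 ≤ Cph * Sf.s K ∧ cph ≤ Sf.om 0 a0) →
      StartL d N E es k0 ((sysOf Lw lam E es).hh 0 a0) ((sysOf Lw lam E es).kk 0 a0) x.e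
        c1 C1 C C' c.cl g0 ζ → LmS C' (c.cl * c1 / 4) k0 ≤ Lm →
      DatH x c c1 C1 C (c.cl * c1 / 4) N Lw Sf lam E k0 es g0 ζ.im Lm r Jm := by
  filter_upwards [start_at x hc hS C' Cph hcph] with k0 H N _ X _ Lw Sf lam E es g0 ζ Lm r Jm a0
    hk hes hes1 hlv hdvd hphi hom hSp hr1 hrd hcl4 hnf hSf hL hLm
  have hkn : kn Lw lam 0 = k0 := by
    rw [hk]
    unfold kn
    rw [pow_zero, div_one]
  have h5 := law_s0 Lw (lam := lam) E es hcl4 hnf a0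
  rw [hkn] at h5
  exact
    { k := hk
      es0 := hes
      es1 := hes1
      g1 := hL.st.lo
      g2 := hL.st.hi
      lv := hlv
      dvd := hdvd
      hgam := hL.glo
      phi := hphi
      om := hom
      S := hSp
      r1 := hr1
      rdvd := hrd
      start := by
        intro v
        refine H N X (datV x c c1 C1 C N Lw Sf lam E k0 es g0 ζ.im Lm r) E es _ _ Lm g0 ζ hes.le hL
          hLm h5.1 h5.2 rfl rfl rfl rfl rfl (fun a => law_hh0 Lw lam E es a a0)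
          (fun a => law_kk0 Lw lam E es a a0) (fun K hK => ?_)
          (torGeo_lv0 d N k0 x.al x.J 24 x.v2 Lw.nf) (fun a => wkA_zero a) v
        obtain ⟨h1, h2⟩ := hSf K hK
        refine ⟨hSp.s K, ⟨Sf.phi K 0 a0, hSp.phi _ _ _, h1, fun a => hphi _ _ _ _ (law_q0 Lw a a0)⟩,
          fun a => ?_⟩
        have h3 : Sf.om 0 a = Sf.om 0 a0 := hom _ _ _ (law_q0 Lw a a0)
        show cph ≤ Sf.om 0 a
        rw [h3]
        exact h2 }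

/-- `DatH` for the site functions `SfOf` -/
theorem ev_datH_law {d : ℕ} {CM : ℝ} (x : Ex d CM) {c : Cst} (hc : c.Pos) {c1 C1 C : ℝ}
    (hS : StartC x c c1 C1 C) (C' Cph : ℝ) {cph : ℝ} (hcph : 0 < cph) :
    ∀ᶠ k0 in 𝓝[>] (0 : ℝ), ∀ (N : ℕ) [NeZero N] (X : Type) [Fintype X] (Lw : Law X)
      (nE : ℕ) (lam E es : ℝ) (g0 ζ : ℂ) (Lm : ℝ) (r : ℕ → ℕ) (Jm : ℕ) (a0 : X),
      k0 = (lam * (2 * Lw.S)) ^ 2 → 0 < es → es ≤ k0 → lv k0 x.al Jm ≤ Lw.nf →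
      (∀ j < Jm, side k0 x.al j ∣ N) → (∀ j, 1 ≤ r j) → (∀ j, r j ∣ r (j + 1)) →
      c.cl ≤ 4 * cL Lw → 8 * Lw.D ≤ Lw.ep * 2 ^ Lw.nf → 0 < Lw.nf → cL Lw ≤ Cph →
      cph ≤ 1 - Lw.th 1 / Lw.th 0 →
      StartL d N E es k0 ((sysOf Lw lam E es).hh 0 a0) ((sysOf Lw lam E es).kk 0 a0) x.e
        c1 C1 C C' c.cl g0 ζ → LmS C' (c.cl * c1 / 4) k0 ≤ Lm →
      DatH x c c1 C1 C (c.cl * c1 / 4) N Lw (SfOf Lw lam nE) lam E k0 es g0 ζ.im Lm r Jm := by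
  filter_upwards [ev_datH x hc hS C' Cph hcph] with k0 H N _ X _ Lw nE lam E es g0 ζ Lm r Jm a0
    hk hes hes1 hlv hdvd hr1 hrd hcl4 hnf hnf0 hCph hcph' hL hLm
  refine H N X Lw (SfOf Lw lam nE) lam E es g0 ζ Lm r Jm a0 hk hes hes1 hlv hdvd
    (fun K n a b h => SfOf_phi_congr h) (fun n a b h => SfOf_om_congr h) SfOf_pos hr1 hrd hcl4
    hnf (fun K _ => ?_) hL hLm
  obtain ⟨-, ⟨φ0, -, h2, h3⟩, h4⟩ := law_sf0 Lw lam nE hnf0 hCph hcph' K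
  exact ⟨(h3 a0).trans_le h2, h4 a0⟩

end Pool.Agent.AND
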