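import Pool.Agent.AND.StepSt
import Pool.Agent.AND.StepWt

/-! # AND / StepCoreG: general part of the hypotheses of the engine in the states of the algorithm (owner helper79)

* `card_free` : many sites outside a family of points with the chain property.
* `CoreNm` : numbers;  `card_nearC` : cardinality of a set in a ball.
Used by StepCoreA (Part A) and StepCoreB (general laws).
-/

set_option autoImplicit false

open Matrix Finset

noncomputable section

namespace Pool.Agent.AND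

open Pool.Agent.Kin Pool.Agent.APS Pool.Agent.ANM Pool.Agent.ANB
open Pool.Agent.ANP (dT)

section free

variable {d N : ℕ} [NeZero N]

/-- MANY SITES OUTSIDE A FAMILY OF POINTS WITH THE CHAIN PROPERTY -/
theorem card_free (hd : 0 < d) {S : Set (Tor d N)} {a c : ℕ} (hS : CP dT (pt S) a c) (m : ℕ)
    (hN : 2 * (m * (c + 2)) ≤ N) {X : Finset (Tor d N)} (hX : ∀ x, x ∉ S → x ∈ X) :
    m ≤ X.card := by
  classical
  have h1 : ∀ k : ℕ, k < m → ∃ t, t ≤ c + 1 ∧
      pth ⟨0, hd⟩ (0 : Tor d N) (k * (c + 2) + t) ∉ S := by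
    intro k hk
    by_contra hc
    push Not at hc
    obtain ⟨l, h2, h3⟩ := free_path ⟨0, hd⟩ (0 : Tor d N) (k * (c + 2)) (c + 1) hc
    have h4 := hS _ _ l h2
    have h6 : 2 * (c + 1) ≤ N := by
      have : 1 * (c + 2) ≤ m * (c + 2) := Nat.mul_le_mul_right _ (by omega)
      omega
    have h5 := pth_dist2 ⟨0, hd⟩ (0 : Tor d N) (s := k * (c + 2)) (t := c + 1) h6
    rw [h3] at h4
    omega
  choose t ht1 ht2 using h1
  have hinj : ∀ k (hk : k < m) k' (hk' : k' < m), k < k' →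
      pth ⟨0, hd⟩ (0 : Tor d N) (k * (c + 2) + t k hk) ≠
        pth ⟨0, hd⟩ (0 : Tor d N) (k' * (c + 2) + t k' hk') := by
    intro k hk k' hk' hkk he
    have e1 := ht1 k hk
    have e2 := ht1 k' hk'
    have e3 : (k + 1) * (c + 2) ≤ k' * (c + 2) := Nat.mul_le_mul_right _ hkk
    have e4 : (k' + 1) * (c + 2) ≤ m * (c + 2) := Nat.mul_le_mul_right _ hk'
    have e5 : (k + 1) * (c + 2) = k * (c + 2) + (c + 2) := by ring
    have e6 : (k' + 1) * (c + 2) = k' * (c + 2) + (c + 2) := by ring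
    obtain ⟨r, hr⟩ := Nat.exists_eq_add_of_le
      (show k * (c + 2) + t k hk ≤ k' * (c + 2) + t k' hk' by omega)
    have h5 := pth_dist2 ⟨0, hd⟩ (0 : Tor d N) (s := k * (c + 2) + t k hk) (t := r) (by omega)
    rw [← hr, ← he, ANP.nmet_dT.self] at h5
    omega
  calc m = (Finset.univ : Finset (Fin m)).card := by simp
    _ ≤ X.card := by
        refine Finset.card_le_card_of_injOn
          (fun k : Fin m => pth ⟨0, hd⟩ (0 : Tor d N) (k.1 * (c + 2) + t k.1 k.2))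
          (fun k _ => hX _ (ht2 k.1 k.2)) ?_
        intro k _ k' _ he
        by_contra hne
        rcases lt_or_gt_of_ne (fun h => hne (Fin.ext h) : k.1 ≠ k'.1) with h | h
        · exact hinj k.1 k.2 k'.1 k'.2 h he
        · exact hinj k'.1 k'.2 k.1 k.2 h he.symm

end free

variable {d L : ℕ} [NeZero L] {X : Type} [Fintype X] [DecidableEq X]

omit [Fintype X] [DecidableEq X] in
/-- many sites are not read -/
theorem StGeo.nr_card (hd : 0 < d) {M : Med (Tor d L)} {N : Finset (Tor d L)} {s : ℕ}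
    {c : Tor d L} {S : Set (Tor d L)} {cc : ℕ} (h : StGeo M N s c S cc) (m : ℕ)
    (hL : 2 * (m * (cc + 2)) ≤ L) : m ≤ M.nr.card := by
  refine card_free hd (S := S) h.cp m hL fun x hx => ?_
  refine mem_compl.2 fun hU => hx ?_
  obtain ⟨k, hk⟩ := h.cU x hU
  obtain ⟨h1, h2⟩ := hk
  subst h1
  exact h2

/-- numbers: `m` = lower bound of the number of the sites which are not read -/
structure CoreNm (f : Fix) (P : Par) (n s d L m : ℕ) (dA Lam Cb cK cA cT0 eL CM CB Ce vi : ℝ) :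
    Prop where
  s0 : 0 < s
  kkl : P.kap n ≤ Cb * (P.cl * P.kap (n + 1))
  Cb0 : 0 ≤ Cb
  Ki : cK ≤ P.D0 / 2
  dA0 : 0 ≤ dA
  dA : dA ≤ cA * P.kap n ^ vi
  dS0 : 0 ≤ P.dS
  dS : 2 * P.dS ≤ 1
  Lam : Lam + 1 ≤ P.kap n ^ (-eL)
  tau : 2 ≤ cT0
  Nc : ((2 * s + 1 : ℕ) : ℝ) ^ d ≤ P.kap n ^ (-CM)
  Bc : ((2 * (3 * s) + 1 : ℕ) : ℝ) ^ d ≤ P.kap n ^ (-CB)
  etaA : P.kap n ^ Ce ≤ P.cl * P.kap (n + 1) * f.c1
  etaS : P.kap n ^ Ce ≤ P.cs * P.kap (n + 1)
  big : P.kap n ^ (-3 : ℝ) ≤ m * P.eta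
  side : P.kap n ^ (-1 : ℝ) ≤ L

/-- cardinality of a set in a ball -/
theorem card_nearC {A : Finset (Tor d L)} {c : Tor d L} {r : ℕ} (h : ∀ w ∈ A, dT w c ≤ r) :
    (A.card : ℝ) ≤ ((2 * r + 1 : ℕ) : ℝ) ^ d := by
  have h1 : A.card ≤ (2 * r + 1) ^ d := by
    refine le_trans (Finset.card_le_card fun w hw => ?_) (ANP.card_ball c r)
    rw [Finset.mem_filter]
    refine ⟨Finset.mem_univ _, ?_⟩
    rw [ANP.nmet_dT.symm]
    exact h w hw
  exact_mod_cast h1

end Pool.Agent.AND
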