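import Pool.Agent.AND.StepCoreG
import Pool.Agent.AND.Goals
import Pool.Agent.ANC.FarN

/-! # AND / StepCoreNm: the numbers `CoreNm` of the engine for the parameters `parV` (owner helper79)

`ev_coreNm` : for small `k0`, all levels `n` of super-stages `j ≤ M`, torus and `es` of `PickC`:
`Cb = 4 / cl`, `cK = D0c / 2`, `cA = 1`, `cT0 = 2`, `eL = 1/8`, `CM = CB = d (2 al + 1)`, `Ce = 2`, `vi = 3 vt`.
-/

set_option autoImplicit false

open Matrix Finset Filter Topology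

noncomputable section

namespace Pool.Agent.AND

open Pool.Agent.ANC

/-- the exponent of the number of the sites of a cell -/
def eM (d al : ℕ) : ℝ := (2 * al + 1) * d

theorem eM_nonneg (d al : ℕ) : 0 ≤ eM d al := by
  unfold eM
  positivity

/-- powers of balls -/
theorem ball_pow {d al s : ℕ} {κ C : ℝ} (hκ : 0 < κ) (hs : (s : ℝ) ≤ 32 * κ ^ (-(2 * al) : ℝ))
    {b : ℕ} (hb : (b : ℝ) ≤ C * s) (hC : 0 ≤ C) (h1 : 32 * C * κ ≤ 1) :
    (b : ℝ) ^ d ≤ κ ^ (-eM d al) := by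
  have e1 : (b : ℝ) ≤ κ ^ (-(2 * al + 1) : ℝ) := by
    have e2 : κ ^ (-(2 * al + 1) : ℝ) = κ ^ (-(2 * al) : ℝ) * κ⁻¹ := by
      rw [← Real.rpow_neg_one, ← Real.rpow_add hκ]
      congr 1
      ring
    have e3 : 32 * C ≤ κ⁻¹ := by
      rw [← one_div, le_div_iff₀ hκ]
      exact h1
    rw [e2]
    have e4 : 0 ≤ κ ^ (-(2 * al) : ℝ) := Real.rpow_nonneg hκ.le _
    calc (b : ℝ) ≤ C * s := hb
      _ ≤ C * (32 * κ ^ (-(2 * al) : ℝ)) := mul_le_mul_of_nonneg_left hs hC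
      _ = κ ^ (-(2 * al) : ℝ) * (32 * C) := by ring
      _ ≤ κ ^ (-(2 * al) : ℝ) * κ⁻¹ := mul_le_mul_of_nonneg_left e3 e4
  calc (b : ℝ) ^ d ≤ (κ ^ (-(2 * al + 1) : ℝ)) ^ d := pow_le_pow_left₀ (Nat.cast_nonneg b) e1 d
    _ = κ ^ (-eM d al) := by
        rw [← Real.rpow_natCast, ← Real.rpow_mul hκ.le]
        congr 1
        unfold eM
        ring

/-- the torus is much larger than all scales -/
theorem big_num {y κ es N : ℝ} {al cc : ℕ} {th : ℝ} (hy : 0 < y) (hyκ : y ≤ κ) (hκ : κ ≤ 1 / 40)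
    (hal : 1000 ≤ al) (hth : th ≤ 1 / 2) (hN : y ^ (-(2 * al) : ℝ) ≤ N) (hes : y ^ th ≤ es)
    (hcc : (cc : ℝ) ≤ 8 * κ ^ (-2 : ℝ)) :
    4 * ((cc : ℝ) + 2) ≤ N ∧ κ ^ (-3 : ℝ) ≤ N / (4 * (cc + 2)) * es ∧ κ ^ (-1 : ℝ) ≤ N := by
  have hκ0 : 0 < κ := hy.trans_le hyκ
  have hy1 : y ≤ 1 := by linarith
  have hal' : (1000 : ℝ) ≤ al := by exact_mod_cast hal
  have hκ2 : κ ^ (-2 : ℝ) ≤ y ^ (-2 : ℝ) := Real.rpow_le_rpow_of_nonpos hy hyκ (by norm_num)
  have h1κ : 1 ≤ κ ^ (-2 : ℝ) := Real.one_le_rpow_of_pos_of_le_one_of_nonpos hκ0 (by linarith)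
    (by norm_num)
  have hc2 : (cc : ℝ) + 2 ≤ 10 * κ ^ (-2 : ℝ) := by linarith
  have h40 : 40 ≤ y⁻¹ := by
    rw [← one_div, le_div_iff₀ hy]
    linarith
  have p1 : ∀ a b : ℝ, b ≤ a → y ^ a ≤ y ^ b := fun a b h =>
    Real.rpow_le_rpow_of_exponent_ge hy hy1 h
  have p2 : ∀ a : ℝ, 40 * y ^ a ≤ y ^ (a - 1) := by
    intro a
    have e1 : y ^ (a - 1) = y⁻¹ * y ^ a := by
      rw [← Real.rpow_neg_one, ← Real.rpow_add hy]
      congr 1
      ring
    rw [e1]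
    exact mul_le_mul_of_nonneg_right h40 (Real.rpow_nonneg hy.le _)
  have hN0 : 0 < N := (Real.rpow_pos_of_pos hy _).trans_le hN
  have hes0 : 0 < es := (Real.rpow_pos_of_pos hy _).trans_le hes
  refine ⟨?_, ?_, ?_⟩
  · calc 4 * ((cc : ℝ) + 2) ≤ 40 * y ^ (-2 : ℝ) := by linarith
      _ ≤ y ^ (-2 - 1 : ℝ) := p2 _
      _ ≤ y ^ (-(2 * al) : ℝ) := p1 _ _ (by linarith)
      _ ≤ N := hN
  · have e1 : κ ^ (-3 : ℝ) ≤ y ^ (-3 : ℝ) := Real.rpow_le_rpow_of_nonpos hy hyκ (by norm_num)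
    have e2 : 4 * ((cc : ℝ) + 2) ≤ 40 * y ^ (-2 : ℝ) := by linarith
    have e3 : 0 < 4 * ((cc : ℝ) + 2) := by positivity
    rw [div_mul_eq_mul_div, le_div_iff₀ e3]
    calc κ ^ (-3 : ℝ) * (4 * (cc + 2)) ≤ y ^ (-3 : ℝ) * (40 * y ^ (-2 : ℝ)) :=
          mul_le_mul e1 e2 e3.le (Real.rpow_nonneg hy.le _)
      _ = 40 * y ^ (-5 : ℝ) := by
          rw [show (-5 : ℝ) = -3 + -2 by norm_num, Real.rpow_add hy]
          ring
      _ ≤ y ^ (-5 - 1 : ℝ) := p2 _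
      _ ≤ y ^ (-(2 * al) + th : ℝ) := p1 _ _ (by linarith)
      _ = y ^ (-(2 * al) : ℝ) * y ^ th := Real.rpow_add hy _ _
      _ ≤ N * es := mul_le_mul hN hes (Real.rpow_nonneg hy.le _) hN0.le
  · calc κ ^ (-1 : ℝ) ≤ y ^ (-1 : ℝ) := Real.rpow_le_rpow_of_nonpos hy hyκ (by norm_num)
      _ ≤ y ^ (-(2 * al) : ℝ) := p1 _ _ (by linarith)
      _ ≤ N := hN

variable {d : ℕ} {CM : ℝ}

/-- THE NUMBERS OF THE ENGINE -/
theorem ev_coreNm (x : Ex d CM) {c : Cst} (hc : c.Pos) (hdS : c.dS ≤ 1 / 2) {c1 C' cg : ℝ}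
    (hc1 : 0 < c1) (hcg : 0 < cg) :
    ∀ᶠ k0 in 𝓝[>] (0 : ℝ), ∀ (j M n cc N : ℕ) (es : ℝ) (f : Fix), f.c1 = c1 → j ≤ M →
      LvN k0 x.al j n cc → ∀ Cc : ℕ, PickC k0 x.al x.th Cc M es N →
      ∃ m : ℕ, 2 * (m * (cc + 2)) ≤ N ∧
        CoreNm f (parV x c k0 es) n (side k0 x.al j) d N m (kap k0 n ^ (3 * x.vt))
          (LmS C' cg k0) (4 / c.cl) (c.D0c / 2) 1 2 (1 / 8) (eM d x.al) (eM d x.al) 2
          (3 * x.vt) := by
  have hal := x.al2
  have hal3 := x.L0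
  have hth : x.th ≤ 1 / 2 := x.A2'
  have hvt := x.vt_pos
  have s1 := ev_kap (ev_small (show (0 : ℝ) < min (1 / 224) (min (c.cl * c1 / 4) (c.cs / 4)) from
    lt_min (by norm_num) (lt_min (by have := hc.cl; positivity) (by have := hc.cs; positivity))))
  have s2 := ev_ge (2 * (C' * (1 + Real.log (1 / cg)) + 1)) (show (0 : ℝ) < 1 / 8 by norm_num) 0
  have s3 := ev_ge (2 * C') (show (0 : ℝ) < 1 / 8 by norm_num) 1
  filter_upwards [s1, s2, s3, ev_small (show (0 : ℝ) < 1 / 2 by norm_num)] with k0 h1 h2 h3 hk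
    j M n cc N es f hf hj hl Cc hp
  have hk0 := hk.1
  have hk1 : k0 < 1 := by linarith [hk.2]
  have hκ := kap_pos hk0 n
  obtain ⟨-, hκs⟩ := h1 n
  have hκ1 : kap k0 n ≤ 1 / 224 := hκs.trans (min_le_left _ _)
  have hκ2 : kap k0 n ≤ c.cl * c1 / 4 :=
    hκs.trans ((min_le_right _ _).trans (min_le_left _ _))
  have hκ3 : kap k0 n ≤ c.cs / 4 := hκs.trans ((min_le_right _ _).trans (min_le_right _ _))
  have hκk : kap k0 n ≤ k0 := kap_le hk0 n
  have hsd := hl.side_le hk0 hk1 hal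
  have hcc := hl.cc_le hk0
  have hs1 : 1 ≤ side k0 x.al j := side_pos k0 x.al j
  have hs1' : (1 : ℝ) ≤ side k0 x.al j := by exact_mod_cast hs1
  -- the torus
  have hy := ks_pos hk0 x.al (M + 1)
  have hyκ : ks k0 x.al (M + 1) ≤ kap k0 n := by
    refine (ks_anti hk0 hk1 hal (Nat.succ_le_succ hj)).trans ?_
    exact (kap_mem hk0 hl.lo hl.hi).1.le
  have hN : ks k0 x.al (M + 1) ^ (-(2 * x.al) : ℝ) ≤ (N : ℝ) := by
    have e1 : (side k0 x.al (M + 1) : ℝ) ≤ N := by exact_mod_cast hp.Nside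
    have e2 := (side_rpow hk0 hk1 x.al (M + 1)).1
    have e3 := ks_neg_le hk0 x.al (M + 1) (show (0 : ℝ) ≤ 2 by norm_num)
    have e4 : ks k0 x.al (M + 1 + 1) ^ (-2 : ℝ) = ks k0 x.al (M + 1 + 1) ^ (-(2 : ℝ)) := by
      norm_num
    rw [e4] at e2
    exact (e3.trans e2).trans e1
  obtain ⟨b1, b2, b3⟩ := big_num (cc := cc) hy hyκ (by linarith) hal3 hth hN hp.elo hcc
  refine ⟨N / (2 * (cc + 2)), ?_, ?_⟩
  · have e1 := Nat.div_mul_le_self N (2 * (cc + 2))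
    calc 2 * (N / (2 * (cc + 2)) * (cc + 2)) = N / (2 * (cc + 2)) * (2 * (cc + 2)) := by ring
      _ ≤ N := e1
  have hm : (N : ℝ) / (4 * (cc + 2)) ≤ ((N / (2 * (cc + 2)) : ℕ) : ℝ) := by
    have e1 := Nat.lt_div_mul_add (a := N) (b := 2 * (cc + 2)) (by omega)
    have e2 : (N : ℝ) < ((N / (2 * (cc + 2)) : ℕ) : ℝ) * (2 * (cc + 2)) + 2 * (cc + 2) := by
      exact_mod_cast e1
    have e3 : (0 : ℝ) < cc + 2 := by positivity
    rw [div_le_iff₀ (by positivity)]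
    linarith
  exact
    { s0 := hs1
      kkl := by
        show kap k0 n ≤ 4 / c.cl * (c.cl * kap k0 (n + 1))
        rw [kap_succ]
        have := hc.cl.ne'
        apply le_of_eq
        field_simp
      Cb0 := by have := hc.cl; positivity
      Ki := by
        show c.D0c / 2 ≤ c.D0c * k0 ^ (-(1 - 2 * x.e)) / 2
        have e1 : 1 ≤ k0 ^ (-(1 - 2 * x.e)) :=
          Real.one_le_rpow_of_pos_of_le_one_of_nonpos hk0 hk1.le (by
            have := x.e_eq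
            linarith)
        have e2 := hc.D0c
        nlinarith
      dA0 := Real.rpow_nonneg hκ.le _
      dA := by
        show kap k0 n ^ (3 * x.vt) ≤ 1 * kap k0 n ^ (3 * x.vt)
        rw [one_mul]
      dS0 := hc.dS.le
      dS := by
        show 2 * c.dS ≤ 1
        linarith
      Lam := by
        have e1 := LmS_eq C' hcg hk0
        have e2 : k0 ^ (-(1 / 8) : ℝ) ≤ kap k0 n ^ (-(1 / 8) : ℝ) :=
          Real.rpow_le_rpow_of_nonpos hκ hκk (by norm_num)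
        rw [pow_zero, mul_one] at h2
        rw [pow_one] at h3
        rw [e1]
        show C' * (1 + Real.log (1 / cg)) + C' * Real.log (1 / k0) + 1 ≤
          kap k0 n ^ (-(1 / 8) : ℝ)
        linarith
      tau := le_rfl
      Nc := ball_pow hκ hsd (C := 3) (by push_cast; linarith) (by norm_num) (by linarith)
      Bc := ball_pow hκ hsd (C := 7) (by push_cast; linarith) (by norm_num) (by linarith)
      etaA := by
        show kap k0 n ^ (2 : ℝ) ≤ c.cl * kap k0 (n + 1) * f.c1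
        rw [kap_succ, hf, Real.rpow_two]
        nlinarith
      etaS := by
        show kap k0 n ^ (2 : ℝ) ≤ c.cs * kap k0 (n + 1)
        rw [kap_succ, Real.rpow_two]
        nlinarith
      big := by
        show kap k0 n ^ (-3 : ℝ) ≤ ((N / (2 * (cc + 2)) : ℕ) : ℝ) * es
        exact b2.trans (mul_le_mul_of_nonneg_right hm hp.es0.le)
      side := b3 }

end Pool.Agent.AND
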