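import Pool.Agent.AND.Stage
import Pool.Agent.AND.DigLaw
import Pool.Agent.ANQ.Cand
import Pool.Agent.ANQ.ProcProb

/-! # AND / StepGlue: the analytic rejections of the algorithm (owner helper79)

* `Dat.Fail j i π v` : the candidate of the step `(j, i)` has no bad root (`rt`) and its medium is not good;
* `Dat.E1 j i` : the analytic rejections = the event `E1` of `ProcIn`; `rej_cases`, `mE1` : fields `rej` (half) and `mE1`;
* `step_of_top` : field `step` from a bound of the sum over the digits of the sites of the cell, for the states of the algorithm.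
* `fail_sum` : the conditional probability of `Fail` in a class = the sum over the digits (equality, any profile).
-/

open Finset

noncomputable section

namespace Pool.Agent.AND

open Pool.Agent.Kin Pool.Agent.APS
open Pool.Agent.ANP (IsLaw Pr)
open Pool.Agent.ANQ (Cls Bx Dep Ag)

variable {d L : ℕ} [NeZero L] {X : Type}

namespace Dat

variable (D : Dat d L X)

/-- the candidate has no bad root and its medium is not good -/
def Fail (j i : ℕ) (π : Prof (Tor d L)) (v : Tor d L → X) : Prop :=
  D.rt j (D.g.up D.ana j i π v).ine ∧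
    ¬ D.GoodAt (D.g.sn j i) (D.fi j (i + 1)) (D.g.up D.ana j i π v) v

/-- the analytic rejections -/
def E1 (j i : ℕ) : Set (Tor d L → X) := D.g.EvC D.ana (D.Fail j i) j i

/-- the sites which are read in the step -/
def stN (j i : ℕ) (v : Tor d L → X) : Finset (Tor d L) :=
  D.g.actC j i (D.g.crun D.ana j i v).pi

variable {D}

theorem fail_loc (h : D.QOk) (j i : ℕ) : D.g.LocC D.ana (D.Fail j i) j i := by
  intro π v v' hv
  have e := up_congr h j i π v v' hv
  unfold Fail
  rw [← e, GoodAt.iff h hv]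

/-- field `mE1` of `ProcIn` -/
theorem mE1 (hc : ∀ j x, D.g.cor j (D.g.cor j x) = D.g.cor j x) (h : D.QOk) {j i : ℕ}
    {v : Tor d L → X} (hv : v ∈ D.E1 j i) {v' : Tor d L → X}
    (hv' : v' ∈ Cls D.ana.q (D.g.crun D.ana j (i + 1) v).pi v) : v' ∈ D.E1 j i :=
  (ANQ.Geo.evC_meas hc (loc h) (fail_loc h j i) v v' hv').1 hv

/-- a rejection is analytic or due to the inert sites -/
theorem rej_cases {j i : ℕ} {v : Tor d L → X}
    (h : D.g.Rej D.ana j (D.g.run D.ana j v) v i) :
    v ∈ D.E1 j i ∨ (D.g.sL j i ∉ (D.g.crun D.ana j i v).fz ∧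
      ¬ D.rt j (D.g.up D.ana j i (D.g.crun D.ana j i v).pi v).ine) := by
  obtain ⟨h1, h2⟩ := h
  by_cases hr : D.rt j (D.g.up D.ana j i (D.g.crun D.ana j i v).pi v).ine
  · refine Or.inl ⟨h1, hr, fun hg => h2 ?_⟩
    rw [acc_iff]
    exact ⟨hr, hg⟩
  · exact Or.inr ⟨h1, hr⟩

section step

variable [Fintype X] [DecidableEq X]

open Classical in
/-- FIELD `step` OF `ProcIn` for one step and one class, from the sum over the digits of the cell -/
theorem step_of_top (hc : ∀ j x, D.g.cor j (D.g.cor j x) = D.g.cor j x) (h : D.QOk)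
    (W : ANB.Law X) (lam : ℝ) (hq : D.q = W.q) {j i : ℕ} {p : ℝ} (hp : 0 ≤ p)
    (v : Tor d L → X)
    (htop : D.g.sL j i ∉ (D.g.crun D.ana j i v).fz →
      ∑ ω : Tor d L → X, (∏ x, (digOf W lam (D.g.sn j i) (D.stN j i v) v).P x (ω x)) *
        (if D.Fail j i (D.g.crun D.ana j i v).pi ((D.stN j i v).piecewise ω v) then 1 else 0) ≤
          p) :
    Pr (fun _ : Tor d L => W.p) (D.E1 j i ∩ Cls D.ana.q (D.g.crun D.ana j i v).pi v) ≤
      p * Pr (fun _ : Tor d L => W.p) (Cls D.ana.q (D.g.crun D.ana j i v).pi v) := by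
  have hW := isLaw_const (T := Tor d L) W
  have hL := loc h
  have hqe : D.ana.q = W.q := hq
  have hP0 := ANP.Pr_nonneg hW (Cls D.ana.q (D.g.crun D.ana j i v).pi v)
  by_cases hf : D.g.sL j i ∈ (D.g.crun D.ana j i v).fz
  · -- nothing happens
    have e1 : D.E1 j i ∩ Cls D.ana.q (D.g.crun D.ana j i v).pi v = ∅ := by
      ext u
      simp only [Set.mem_inter_iff, Set.mem_empty_iff_false, iff_false, not_and]
      rintro ⟨h1, -⟩ h2
      rw [ANQ.Geo.crun_eq hc hL j i v u h2] at h1
      exact h1 hf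
    rw [e1, ANP.Pr_empty]
    exact mul_nonneg hp hP0
  · have htop' := htop hf
    set π := (D.g.crun D.ana j i v).pi with hπ
    set N := D.stN j i v with hN
    have hNa : N ⊆ π.act := Finset.inter_subset_left
    have hlev : ∀ x ∈ N, π.lev x = D.g.sn j i := ANQ.Geo.lev_cell hc hL j i v
    have hbox : Cls D.ana.q π v = Bx (KCl W π.lev π.act v) := by
      rw [ANQ.cls_box, hqe]
      rfl
    have hdep : Dep (KCl W π.lev π.act v) N (D.E1 j i) := by
      have h1 := ANQ.Geo.evC_dep hc hL (fail_loc h j i) v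
      rw [hqe] at h1
      exact h1
    have h2 := Pr_step W lam hNa hlev hdep
    rw [hbox, h2, mul_comm]
    refine mul_le_mul_of_nonneg_right (le_trans ?_ htop') (ANP.Pr_nonneg hW _)
    refine Finset.sum_le_sum fun ω _ => ?_
    have hdg := digOf_ok (T := Tor d L) W (le_refl (0 : ℝ)) (D.g.sn j i) N v
    have hPe : ∀ x, (digOf W lam (D.g.sn j i) N v).P x (ω x) =
        (digOf W 0 (D.g.sn j i) N v).P x (ω x) := fun x => rfl
    have hPn : 0 ≤ ∏ x, (digOf W lam (D.g.sn j i) N v).P x (ω x) :=
      Finset.prod_nonneg fun x _ => by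
        rw [hPe]
        exact hdg.P0 x _
    by_cases hz : ∃ x ∈ N, W.q (D.g.sn j i) (ω x) ≠ W.q (D.g.sn j i) (v x)
    · obtain ⟨x, hx, hxq⟩ := hz
      have e1 : (digOf W lam (D.g.sn j i) N v).P x (ω x) = 0 := by
        show (if x ∈ N then claw W (D.g.sn j i) (v x) (ω x) else _) = 0
        rw [if_pos hx]
        unfold claw
        rw [if_neg fun hc => hxq (ANB.mem_cl.1 hc)]
      rw [Finset.prod_eq_zero (Finset.mem_univ x) e1, zero_mul, zero_mul]
    · push Not at hz
      refine mul_le_mul_of_nonneg_left ?_ hPn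
      have hcl : N.piecewise ω v ∈ Cls D.ana.q π v := by
        rw [hqe]
        refine ⟨fun x hx => ?_, fun x hx => ?_⟩
        · by_cases hxN : x ∈ N
          · rw [Finset.piecewise_eq_of_mem _ _ _ hxN, hlev x hxN]
            exact hz x hxN
          · rw [Finset.piecewise_eq_of_notMem _ _ _ hxN]
        · have hxN : x ∉ N := fun h => hx (hNa h)
          rw [Finset.piecewise_eq_of_notMem _ _ _ hxN]
      have hce := ANQ.Geo.crun_eq hc hL j i v _ hcl
      split_ifs with h3 h4 h4
      · exact le_rfl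
      · exfalso
        apply h4
        have h5 : D.Fail j i (D.g.crun D.ana j i (N.piecewise ω v)).pi (N.piecewise ω v) := h3.2
        rw [hce] at h5
        exact h5
      · exact zero_le_one
      · exact le_rfl

end step

section sum

/-- inside a class the event `Fail` depends only on the active sites of the cell -/
theorem fail_dep (h : D.QOk) (j i : ℕ) (π : Prof (Tor d L)) (v : Tor d L → X) :
    Dep (fun x => {a | (x ∈ π.act → D.ana.q (π.lev x) a = D.ana.q (π.lev x) (v x)) ∧
      (x ∉ π.act → a = v x)}) (D.g.actC j i π) {u | D.Fail j i π u} := by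
  intro u hu u' hu' hx
  rw [← ANQ.cls_box] at hu hu'
  have h5 : Ag D.ana.q (D.g.up D.ana j i π u).lev u u' := by
    intro x
    rw [ANQ.Geo.up_lev]
    by_cases h6 : x ∈ π.act ∧ D.g.cor j x = D.g.sL j i
    · rw [hx x (mem_inter.2 ⟨h6.1, ANQ.Geo.mem_cell.2 h6.2⟩)]
    · rw [if_neg h6]
      by_cases h7 : x ∈ π.act
      · rw [hu.1 x h7, hu'.1 x h7]
      · rw [hu.2 x h7, hu'.2 x h7]
  exact fail_loc h j i π u u' h5

variable [Fintype X] [DecidableEq X]

open Classical in
/-- THE CONDITIONAL PROBABILITY OF THE FAILURE OF A STEP -/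
theorem fail_sum (h : D.QOk) (W : ANB.Law X) (lam : ℝ) (hq : D.q = W.q) {j i : ℕ}
    {π : Prof (Tor d L)} (v : Tor d L → X)
    (hlev : ∀ x ∈ D.g.actC j i π, π.lev x = D.g.sn j i) :
    Pr (fun _ : Tor d L => W.p) ({u | D.Fail j i π u} ∩ Cls D.ana.q π v) =
      Pr (fun _ : Tor d L => W.p) (Cls D.ana.q π v) *
        ∑ ω : Tor d L → X,
          (∏ x, (digOf W lam (D.g.sn j i) (D.g.actC j i π) v).P x (ω x)) *
            (if D.Fail j i π ((D.g.actC j i π).piecewise ω v) then 1 else 0) := by
  have hqe : D.ana.q = W.q := hq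
  have hbox : Cls D.ana.q π v = Bx (KCl W π.lev π.act v) := by
    rw [ANQ.cls_box, hqe]
    rfl
  have hdep : Dep (KCl W π.lev π.act v) (D.g.actC j i π) {u | D.Fail j i π u} := by
    have h1 := fail_dep h j i π v
    rw [hqe] at h1
    exact h1
  rw [hbox]
  have h2 := Pr_step W lam (show D.g.actC j i π ⊆ π.act from Finset.inter_subset_left) hlev hdep
  rw [h2]
  rfl

end sum

end Dat

end Pool.Agent.AND
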