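import Pool.Agent.AND.StepOk
import Pool.Agent.ANS.StepForm

/-! # AND / StepNext (helper60): the next medium is good, form fields included

`step_next4` = `step_next` (helper1) without the hypothesis `h4`: the form fields come from `h4_ctx`; inputs: the numbers `H4Num`,
`0 ≤ ζ` for every outcome (`hst`, `hn8`, the stride), Part A and Part B. -/

set_option autoImplicit false

open Matrix Finset

noncomputable section

namespace Pool.Agent.AND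

open Pool.Agent.Kin Pool.Agent.APS Pool.Agent.ANM Pool.Agent.ANB Pool.Agent.ANQ

variable {d L : ℕ} [NeZero L] {X : Type} [Fintype X] [DecidableEq X]

variable {D : Dat d L X} {Lw : Law X} {lam E : ℝ} {nE n s : ℕ} {F : Fld (Tor d L)}
  {π : Prof (Tor d L)} {v : Tor d L → X} {M : Med (Tor d L)} {k0 rho Lam : ℝ} {dA : ℕ → ℝ}
  {N Lc : Finset (Tor d L)} {ω : Tor d L → X} {c : Tor d L} {S : Set (Tor d L)} {cc nW : ℕ}
  {e1 e2 Bd an Lm : ℝ}

/-- THE NEXT MEDIUM IS GOOD -/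
theorem step_next4 {al tt de ρ K K2 μ q ze gg σ tl Lm' omw e0 e om0 mA a1 a2 cρ ce cm : ℝ}
    {l : ℕ} {e3 : ℕ → ℝ}
    (hY : D.Y = sysOf Lw lam E D.P.eta) (hSf : D.Sf = SfOf Lw lam nE)
    (hwk : WkEq D Lw n) (hP : D.P.Pos) (hF : F.Pos)
    (he1 : e1 = k0 ^ (D.P.vi / 2)) (he2 : e2 = k0 ^ (D.P.vp / 2))
    (hb : FldIn D.f F e1 e2 an Lm 1) (hKi : 0 < D.P.D0)
    (hW : WtNum D Lw lam n e1 e2) (hnE : n + 1 ≤ nE)
    (hst : 12 * Lw.B.D ≤ 2 ^ Lw.m * Lw.B.ep) (hn8 : 8 * Lw.D * 2 ^ n ≤ Lw.ep * 2 ^ Lw.nf)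
    (hC : InC D k0 rho Lam dA n F π v M) (hg : StGeo M N s c S cc) (hN : N = π.act ∩ Lc)
    (hNn : ∀ y ∈ N, π.lev y = n) (hω : ∀ x ∈ N, Lw.q n (ω x) = Lw.q n (v x))
    (hmbb : IsUnit (ANI.MBB (H0T d L) M.b M.nr).det)
    (hWS : ∀ x ∈ wkN D.ana n N ω, x ∈ S) (hcard : N.card ≤ nW)
    (inc : ∀ x ∈ N, ‖((digOf Lw lam n N v).xi x (ω x) : ℂ) +
      ((digOf Lw lam n N v).zt x (ω x) : ℂ) * M.G x x‖ ≤ Bd)
    (hnum : StepNum0 D.f D.P D.Sf n s d (D.uN k0 rho Lam dA n) al tt ρ K K2 μ Bd q ze gg σ tl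
      Lm' omw e0 1 e1 e2 4 cc l nW (fun K => UK Lw lam n K) (fun K => 4 * UK Lw lam n K) e3)
    (hsn : SiteNum D.f D.P n ze gg e2 om0)
    (hom : ∀ m, m ≤ n + 1 → ∀ a, ¬ Lw.wk m a → om0 ≤ (SfOf Lw lam nE).om m a)
    (hun : UseNum D Lw e1 e2 e ρ) (he : al + 1 * e3 (n + 1) / 2 ≤ ρ / 4 * D.f.c1)
    (h4n : H4Num D.f D.P n s d (D.uN k0 rho Lam dA n) al de μ K ze Lm' an mA a1 a2 cρ ce cm
      4 cc l)
    (hFrz : Frz (tolAt D.P D.Sf n F π v M) M (digOf Lw lam n N v)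
      (tolAt D.P D.Sf n F (raise D.ana π (n + 1) Lc (N.piecewise ω v)) (N.piecewise ω v) M).a
      (tolAt D.P D.Sf n F (raise D.ana π (n + 1) Lc (N.piecewise ω v)) (N.piecewise ω v) M).z
      e3 (nrB M s c) al tt de (wkN D.ana n N ω) ω) :
    ∃ M' : Med (Tor d L), Nxt M M' (digOf Lw lam n N v) ω (rStep D.f l al) ∧
      Good D.f (tolAt D.P D.Sf n (F.add D.P n s {c})
        (raise D.ana π (n + 1) Lc (N.piecewise ω v)) (N.piecewise ω v)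
        (M'.rel (wkN D.ana n N ω))) (M'.rel (wkN D.ana n N ω)) := by
  exact step_next hY hSf hwk hP hF he1 he2 hb hKi hW hnE hC hg hN hNn hω hmbb hWS hcard
    (fun x _ => digOf_zt0 hst hn8 N v x (ω x)) inc hnum hsn hom hun he hFrz
    fun hctx M' hn _ hs hrow hd hlo hup => h4_ctx hctx h4n hFrz.form (fun x _ => hb.ae x) hn hs
      hrow (hnum.far F π v M).mu hd hlo hup

end Pool.Agent.AND
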