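import Pool.Agent.AND.StepFrame
import Pool.Agent.AND.StepNumC
import Pool.Agent.AND.StepFrzA
import Pool.Agent.AND.StepNext

/-! # AND / StepOkG: `OkGoal` (the deterministic half of [STEP]) FROM THE FORM FIELDS (owner helper79)

* `LawG` : what is used about the law (constants `κ`, monotone variance, counting weights);
* `H4At` : the form fields of the next medium (hypothesis `h4` of `step_next`);  `H4Goal` : for the numbers of the construction;
* `H4NumG` : the numbers `H4Num` (helper60) in every state;  `h4Goal_of` : `H4NumG` ⇒ `H4Goal`;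
* `okGoal_of` : `H4Goal` ⇒ `OkGoal`. -/

set_option autoImplicit false

open Matrix Finset Filter Topology

noncomputable section

namespace Pool.Agent.AND

open Pool.Agent.Kin Pool.Agent.APS Pool.Agent.ANM Pool.Agent.ANC Pool.Agent.ANB Pool.Agent.ANQ

/-- WHAT IS USED ABOUT THE LAW in the deterministic half -/
structure LawG (κ : LawC) (F : ℝ → ℕ → ℕ) (X : Type) [Fintype X] (Lw : Law X) (Sf : SiteF X)
    (lam : ℝ) (n1 : ℕ) : Prop where
  b : LawB κ F X Lw Sf lam n1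
  kp : ∀ n < n1, ∀ a b, Lw.q n a = Lw.q n b → Lw.kp (n + 1) a ≤ Lw.kp n b
  om : ∀ n ≤ n1, ∀ a, ¬ Lw.wk n a → 1 / ((n : ℝ) + 2) ^ 2 ≤ Sf.om n a

/-- all laws -/
theorem lawG_of {κ : LawC} {F : ℝ → ℕ → ℕ} {X : Type} [Fintype X] {Lw : Law X} {Sf : SiteF X}
    {lam : ℝ} {n1 : ℕ} (hκ : κ.Ok) (h : LawB κ F X Lw Sf lam n1) : LawG κ F X Lw Sf lam n1 where
  b := h
  kp := fun n hn a b hab => by
    have h1 := Lw.kp_anti (h.of.an hκ).le (h.prec_le (show n ≤ n1 + 1 by omega)) a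
    have h2 : Lw.kp n a = Lw.kp n b := by
      unfold Law.kp
      rw [cV_congr _ _ hab]
    rw [← h2]
    exact h1
  om := fun n hn a hw => h.om_ge hκ hn hw

section at_

variable {d L : ℕ} [NeZero L] {X : Type} [Fintype X] [DecidableEq X]

/-- hypothesis `h4` of `step_next` -/
def H4At (D : Dat d L X) (Lw : Law X) (lam k0 rho Lam : ℝ) (dA : ℕ → ℝ) (n s : ℕ)
    (F : Fld (Tor d L)) (π : Prof (Tor d L)) (v ω : Tor d L → X) (M : Med (Tor d L))
    (N Lc : Finset (Tor d L)) (c : Tor d L) (S : Set (Tor d L)) (cc nW l : ℕ)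
    (al μ K Lm' q ze e1 e2 : ℝ) : Prop :=
  StepCtx D.f D.P D.Sf n s F π (raise D.ana π (n + 1) Lc (N.piecewise ω v)) v
      (N.piecewise ω v) M (D.uN k0 rho Lam dA n) (digOf Lw lam n N v) ω N
      (wkN D.ana n N ω) c (pt S) 4 cc nW 1 1 e1 e2 (nrB M s c) →
    ∀ M' : Med (Tor d L), Nxt M M' (digOf Lw lam n N v) ω (rStep D.f l al) →
    FrOK M (digOf Lw lam n N v) ω
      (N.filter fun x => 0 < (digOf Lw lam n N v).zt x (ω x)) →
    StepH D.f (tolAt D.P D.Sf n F π v M) M (digOf Lw lam n N v) ω (wkN D.ana n N ω)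
      (rStep D.f l al) al (D.P.cl * D.P.kap (n + 1)) (D.P.kap n) →
    FarRow D.f M M' {x | ∃ k, x ∈ pt S k} μ 4 cc (fun x => ANP.dT x c - s)
      (farQ d D.f (D.uN k0 rho Lam dA n) μ K 4 cc) (farν D.f (D.uN k0 rho Lam dA n) μ 4)
      (D.P.cl * D.P.kap (n + 1) * (D.f.c1 / 2)) Lm' q →
    (∀ x, x ∉ M.U → ‖M'.G x x - M.G x x‖ ≤ ze * ph (D.P.kap n) D.P.v D.P.b s x c) →
    (∀ w, (1 - qStep D.f l al) * QF (H0T d L) (M.fr (digOf Lw lam n N v) ω) w ≤
      QF (H0T d L) M' w) →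
    (∀ w, QF (H0T d L) M' w ≤
      (1 + qStep D.f l al) * QF (H0T d L) (M.fr (digOf Lw lam n N v) ω) w) →
    H4Next D.P D.Sf n s F c (raise D.ana π (n + 1) Lc (N.piecewise ω v)) (N.piecewise ω v)
      (M'.rel (wkN D.ana n N ω))

omit [Fintype X] [DecidableEq X] in
/-- the weak outcomes are inert in the candidate -/
theorem wkN_sub_ine {A : Ana (Tor d L) X} {n : ℕ} {π : Prof (Tor d L)}
    {N Lc : Finset (Tor d L)} (hN : N = π.act ∩ Lc) (v ω : Tor d L → X) {x : Tor d L}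
    (hx : x ∈ wkN A n N ω) : x ∈ (raise A π (n + 1) Lc (N.piecewise ω v)).ine := by
  obtain ⟨h1, h2⟩ := mem_wkN.1 hx
  classical
  refine Finset.mem_union_right _ ?_
  rw [← hN]
  unfold weak
  refine Finset.mem_filter.2 ⟨h1, ?_⟩
  rw [Finset.piecewise_eq_of_mem _ _ _ h1]
  exact h2

end at_

variable {d : ℕ} {CM : ℝ}

/-- THE FORM FIELDS in every state, with the numbers of the construction -/
def H4Goal (LP : LawP) (x : Ex d CM) (c : Cst) (q : Csts) (ρ : ℝ) : Prop :=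
  ∀ᶠ k0 in 𝓝[>] (0 : ℝ), ∀ (N : ℕ) [NeZero N] (X : Type) [Fintype X] [DecidableEq X] (Lw : Law X)
    (Sf : SiteF X) (lam E es : ℝ) (g0 : ℂ) (gam Lm : ℝ) (M : ℕ),
    Ctx LP x c q k0 N Lw Sf lam E es g0 gam Lm M →
    ∀ (j i : ℕ) (v : Tor d N → X) (cc : ℕ) (Mm : Med (Tor d N)),
      SSt (datC x c q N Lw Sf lam E k0 es g0 gam Lm) k0 (q.th / 4) Lm
        (fun n => kap k0 n ^ (3 * x.vt)) x.al M j i v cc Mm →
      ∀ ω, ClOk (datC x c q N Lw Sf lam E k0 es g0 gam Lm) Lw j i v ω →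
        FrzO (datC x c q N Lw Sf lam E k0 es g0 gam Lm) Lw lam j i (side k0 x.al j) v Mm
          (fun K => 12 * UK Lw lam ((datC x c q N Lw Sf lam E k0 es g0 gam Lm).g.sn j i) K *
            kap k0 ((datC x c q N Lw Sf lam E k0 es g0 gam Lm).g.sn j i) ^ (1 / 45 : ℝ))
          (kap k0 ((datC x c q N Lw Sf lam E k0 es g0 gam Lm).g.sn j i) ^ (9 / 256 : ℝ))
          (kap k0 ((datC x c q N Lw Sf lam E k0 es g0 gam Lm).g.sn j i) ^
            (-(7 / 8) + 3 / 4 * x.vt : ℝ))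
          (30 * kap k0 ((datC x c q N Lw Sf lam E k0 es g0 gam Lm).g.sn j i) ^ (1 / 140 : ℝ))
          ω →
        ∀ nW : ℕ, (nW : ℝ) ≤ (3 * (side k0 x.al j : ℝ)) ^ d →
        H4At (datC x c q N Lw Sf lam E k0 es g0 gam Lm) Lw lam k0 (q.th / 4) Lm
          (fun n => kap k0 n ^ (3 * x.vt))
          ((datC x c q N Lw Sf lam E k0 es g0 gam Lm).g.sn j i) (side k0 x.al j)
          ((datC x c q N Lw Sf lam E k0 es g0 gam Lm).fi j i)
          ((datC x c q N Lw Sf lam E k0 es g0 gam Lm).g.crun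
            (datC x c q N Lw Sf lam E k0 es g0 gam Lm).ana j i v).pi v ω Mm
          ((datC x c q N Lw Sf lam E k0 es g0 gam Lm).stN j i v)
          ((datC x c q N Lw Sf lam E k0 es g0 gam Lm).g.cell j
            ((datC x c q N Lw Sf lam E k0 es g0 gam Lm).g.sL j i))
          ((datC x c q N Lw Sf lam E k0 es g0 gam Lm).g.sL j i)
          (((datC x c q N Lw Sf lam E k0 es g0 gam Lm).g.up
              (datC x c q N Lw Sf lam E k0 es g0 gam Lm).ana j i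
              ((datC x c q N Lw Sf lam E k0 es g0 gam Lm).g.crun
                (datC x c q N Lw Sf lam E k0 es g0 gam Lm).ana j i v).pi
              (((datC x c q N Lw Sf lam E k0 es g0 gam Lm).stN j i v).piecewise ω v)).rd ∪
            ((datC x c q N Lw Sf lam E k0 es g0 gam Lm).g.up
              (datC x c q N Lw Sf lam E k0 es g0 gam Lm).ana j i
              ((datC x c q N Lw Sf lam E k0 es g0 gam Lm).g.crun
                (datC x c q N Lw Sf lam E k0 es g0 gam Lm).ana j i v).pi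
              (((datC x c q N Lw Sf lam E k0 es g0 gam Lm).stN j i v).piecewise ω v)).ine :
            Set (Tor d N)) cc nW
          (lV d ρ (kap k0 ((datC x c q N Lw Sf lam E k0 es g0 gam Lm).g.sn j i)))
          (kap k0 ((datC x c q N Lw Sf lam E k0 es g0 gam Lm).g.sn j i) ^ (9 / 256 : ℝ))
          (mu0 d c (q.c1 / 2) * kap k0 ((datC x c q N Lw Sf lam E k0 es g0 gam Lm).g.sn j i))
          (kap k0 ((datC x c q N Lw Sf lam E k0 es g0 gam Lm).g.sn j i) ^ (-KB d x.al))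
          (Lm + 1 + 1)
          (kap k0 ((datC x c q N Lw Sf lam E k0 es g0 gam Lm).g.sn j i) ^ (-AB d x.al))
          (kap k0 ((datC x c q N Lw Sf lam E k0 es g0 gam Lm).g.sn j i) ^ (1 / 64 : ℝ))
          (k0 ^ (x.vi / 2)) (k0 ^ (x.vi / 2 / 2))

/-- THE NUMBERS OF THE FORM FIELDS in every state -/
def H4NumG (LP : LawP) (x : Ex d CM) (c : Cst) (q : Csts) (ρ : ℝ) : Prop :=
  ∀ᶠ k0 in 𝓝[>] (0 : ℝ), ∀ (N : ℕ) [NeZero N] (X : Type) [Fintype X] [DecidableEq X] (Lw : Law X)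
    (Sf : SiteF X) (lam E es : ℝ) (g0 : ℂ) (gam Lm : ℝ) (M : ℕ),
    Ctx LP x c q k0 N Lw Sf lam E es g0 gam Lm M →
    ∀ j ≤ M, ∀ n cc, LvN k0 x.al j n cc → ∃ mA a1 a2 cρ ce cm : ℝ,
      H4Num (datC x c q N Lw Sf lam E k0 es g0 gam Lm).f
        (datC x c q N Lw Sf lam E k0 es g0 gam Lm).P n (side k0 x.al j) d
        ((datC x c q N Lw Sf lam E k0 es g0 gam Lm).uN k0 (q.th / 4) Lm
          (fun n => kap k0 n ^ (3 * x.vt)) n)
        (kap k0 n ^ (9 / 256 : ℝ)) (30 * kap k0 n ^ (1 / 140 : ℝ))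
        (mu0 d c (q.c1 / 2) * kap k0 n) (kap k0 n ^ (-KB d x.al)) (kap k0 n ^ (1 / 64 : ℝ))
        (Lm + 1 + 1) (aeB k0 es x.vi n) mA a1 a2 cρ ce cm 4 cc (lV d ρ (kap k0 n))

/-- the form fields from their numbers -/
theorem h4Goal_of {LP : LawP} (hd : 0 < d) (x : Ex d CM) (c : Cst) (q : Csts) (ρ : ℝ)
    (hq : q.Ok c) (h : H4NumG LP x c q ρ) : H4Goal LP x c q ρ := by
  filter_upwards [h] with k0 h N _ X _ _ Lw Sf lam E es g0 gam Lm M H j i v cc Mm hS ω _ hF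
    nW _ hctx M' hn _ hs hrow hd' hlo hup
  obtain ⟨mA, a1, a2, cρ, ce, cm, hN⟩ := h N X Lw Sf lam E es g0 gam Lm M H j hS.hj _ cc hS.lvn
  exact h4_ctx hctx hN hF.form (fun y _ => hS.Fb.ae y) hn hs hrow
    (mul_pos (mu0_pos hd hq.pos (half_pos hq.c1)) (kap_pos H.hk0 _)) hd' hlo hup

/-- [STEP], THE DETERMINISTIC HALF, from the form fields -/
theorem okGoal_of {LP : LawP} (x : Ex d CM) (c : Cst) (q : Csts) (κ : LawC) (F : ℝ → ℕ → ℕ)
    (hLP : ∀ (X : Type) [Fintype X] (Lw : Law X) (Sf : SiteF X) (lam : ℝ) (n1 : ℕ),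
      LP X Lw Sf lam n1 → LawG κ F X Lw Sf lam n1)
    (hq : q.Ok c) (hCg : c.Cg = 5 / 2) (hcl1 : c.cl ≤ κ.cL) (hκ1 : κ.cL ≤ 1)
    (hth : q.th ≤ κ.thL) (hSt : StC d c (2 * q.C1) (q.c1 / 2) (q.th / 4) (q.th / 4))
    (h4 : H4Goal LP x c q (q.th / 4)) : OkGoal LP x c q := by
  classical
  have hc := hq.pos
  have hcl := hc.cl
  have hcs := hc.cs
  have hc1 := hq.c1
  have hC1 := hq.C1
  have hqth := hq.th
  -- the constants of the numbers
  set ce : ℝ := min (c.cl * (q.c1 / 2) / 8) (c.cs / 4) with hce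
  have hce0 : 0 < ce := lt_min (by positivity) (by positivity)
  have s1 := ev_kap (ev_le (C := 1) (b := 1 / 2) (by norm_num)
    (show (0 : ℝ) < 1 / 2 by norm_num) 0)
  have s2 := ev_kap (ev_le (C := 2 * q.C1) (b := 1) (by norm_num)
    (show (0 : ℝ) < 1 / 2 by norm_num) 0)
  filter_upwards [h4, ev_stepNumC (LP := LP) (x := x) hSt hCg hq (g1 := 3) (ce := ce)
      (by norm_num) hce0 (min_le_left _ _) (min_le_right _ _),
    ev_heC (c := c) (ρ := q.th / 4) (c1 := q.c1 / 2) (by positivity) (by positivity) hc,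
    ev_siteNumC (x := x) hq (g1 := 3) (co := 1) (by norm_num) (by norm_num) one_pos,
    ev_wtNumC (LP := LP) (x := x) hq, ev_useNumC (LP := LP) (x := x) hq, s1, s2,
    ev_small (show (0 : ℝ) < 1 / 4 by norm_num)]
    with k0 h4 hnum he hsn hwt hun s1 s2 hk N _ X _ _ Lw Sf lam E es g0 gam Lm M H j i v cc Mm hS
      ω hcl' hF
  have hk0 := hk.1
  have hk1 : k0 < 1 := by linarith [hk.2]
  have hG := hLP X Lw Sf lam _ H.law
  have hLN := lawN_ofB (c := c) (th := q.th) hG.b hcl1 hκ1 hth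
  have hSf : Sf = SfOf Lw lam (lv k0 x.al (M + 1) + 1) := hG.b.sf
  have h4 := h4 N X Lw Sf lam E es g0 gam Lm M H j i v cc Mm hS ω hcl' hF
  have hnum := hnum N X Lw Sf lam E es g0 gam Lm M H _ hSf hLN j
  have hsn := hsn N X Lw Sf lam E es g0 gam Lm
  have hwt := hwt N X Lw Sf lam E es g0 gam Lm M H hLN
  have hun := hun N X Lw Sf lam E es g0 gam Lm M H hLN
  have he := he X Lw lam q.th _ H.hlam H.dat.k hLN
  have hn1 := hS.n1
  have hgeo := hS.geo _ hcl'.rt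
  set D := datC x c q N Lw Sf lam E k0 es g0 gam Lm with hD
  set n := D.g.sn j i with hn
  set π := (D.g.crun D.ana j i v).pi with hπ
  set Nn := D.stN j i v with hNn
  have hNe : Nn = π.act ∩ D.g.cell j (D.g.sL j i) := rfl
  have hκ := kap_pos hk0 n
  have s1 := s1 n
  have s2 := s2 n
  rw [pow_zero, mul_one] at s1 s2
  rw [one_mul] at s1
  rw [Real.rpow_one] at s2
  have hWk : WkEq D Lw n :=
    ⟨fun m a _ h => wkA_wk h, fun a h => ⟨by have := hG.b.nf1; omega, h⟩⟩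
  have hs1 : 1 ≤ side k0 x.al j := side_pos k0 x.al j
  have hcard : (Nn.card : ℝ) ≤ (3 * (side k0 x.al j : ℝ)) ^ d := card_cell hs1 hgeo.NB
  have hdg := digOf_ok (T := Tor d N) Lw H.hlam.le n Nn v
  -- the increments
  have hinc : ∀ y ∈ Nn, ‖((digOf Lw lam n Nn v).xi y (ω y) : ℂ) +
      ((digOf Lw lam n Nn v).zt y (ω y) : ℂ) * Mm.G y y‖ ≤ 1 := by
    intro y hy
    have e1 := hdg.xi_le y (ω y)
    have e2 := hdg.zt_le y (ω y)
    have e3 := beOf_sq Lw lam n Nn y hy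
    rw [e3, kn_kap H.dat.k n] at e2
    have e4 : |(digOf Lw lam n Nn v).xi y (ω y)| ≤ kap k0 n ^ (1 / 2 : ℝ) := by
      have e5 := hdg.be0 y
      have e6 : (kap k0 n ^ (1 / 2 : ℝ)) ^ 2 = kap k0 n := by
        rw [← Real.rpow_natCast, ← Real.rpow_mul hκ.le]
        norm_num
      refine e1.trans (abs_le_of_sq_le_sq' ?_ (Real.rpow_nonneg hκ.le _)).2
      rw [e6, e3, kn_kap H.dat.k n]
    have hyU : y ∉ Mm.U := fun h => Finset.disjoint_left.1 hS.inC.good.AU (hgeo.NA hy) h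
    have e5 : ‖Mm.G y y‖ ≤ 2 * q.C1 := hS.inC.good.gam_le hS.inC.inn hS.inC.num hyU
    calc ‖((digOf Lw lam n Nn v).xi y (ω y) : ℂ) +
          ((digOf Lw lam n Nn v).zt y (ω y) : ℂ) * Mm.G y y‖
        ≤ ‖((digOf Lw lam n Nn v).xi y (ω y) : ℂ)‖ +
          ‖((digOf Lw lam n Nn v).zt y (ω y) : ℂ) * Mm.G y y‖ := norm_add_le _ _
      _ = |(digOf Lw lam n Nn v).xi y (ω y)| +
          |(digOf Lw lam n Nn v).zt y (ω y)| * ‖Mm.G y y‖ := by
          rw [norm_mul, Complex.norm_real, Complex.norm_real, Real.norm_eq_abs, Real.norm_eq_abs]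
      _ ≤ 1 / 2 + kap k0 n * (2 * q.C1) := by
          refine add_le_add (e4.trans s1) (mul_le_mul e2 e5 (norm_nonneg _) hκ.le)
      _ ≤ 1 := by linarith
  have hzt : ∀ y ∈ Nn, 0 ≤ (digOf Lw lam n Nn v).zt y (ω y) := by
    intro y hy
    show 0 ≤ (if y ∈ Nn ∧ ω y ∈ cl (Lw.q n) (v y) then
      lam ^ 2 * (Lw.kp n (v y) - Lw.kp (n + 1) (ω y)) else 0)
    split_ifs with h
    · exact mul_nonneg (sq_nonneg _)
        (sub_nonneg.2 (hG.kp n (by omega) _ _ (mem_cl.1 h.2)))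
    · exact le_rfl
  have hom : ∀ m, m ≤ n + 1 → ∀ a, ¬ Lw.wk m a → 1 / ((n : ℝ) + 3) ^ 2 ≤
      (SfOf Lw lam (lv k0 x.al (M + 1) + 1)).om m a := by
    intro m hm a ha
    have e1 := hG.om m (by omega) a ha
    rw [hSf] at e1
    refine le_trans ?_ e1
    refine one_div_le_one_div_of_le (by positivity) ?_
    refine pow_le_pow_left₀ (by positivity) ?_ 2
    have : (m : ℝ) ≤ n + 1 := by exact_mod_cast hm
    linarith
  obtain ⟨M', hn', hgood⟩ := step_next (D := D) (Lw := Lw) (lam := lam) (E := E)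
    (nE := lv k0 x.al (M + 1) + 1) (n := n) (s := side k0 x.al j) (F := D.fi j i) (π := π)
    (v := v) (M := Mm) (k0 := k0) (rho := q.th / 4) (Lam := Lm)
    (dA := fun n => kap k0 n ^ (3 * x.vt)) (N := Nn) (Lc := D.g.cell j (D.g.sL j i)) (ω := ω)
    (c := D.g.sL j i) (cc := cc) (nW := Nn.card) (Bd := 1) (ρ := q.th / 4) (e := q.th / 2)
    (om0 := 1 / ((n : ℝ) + 3) ^ 2) rfl hSf hWk H.inh.fn.fh.pos hS.Fp rfl rfl hS.Fb
    (by
      show 0 < c.D0c * k0 ^ (-(1 - 2 * x.e))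
      exact mul_pos hc.D0c (Real.rpow_pos_of_pos hk0 _))
    (hwt n (by omega)) (by omega) hS.inC hgeo hNe hS.lev hcl'.cls hS.mbb
    (fun y hy => Or.inr (wkN_sub_ine hNe v ω hy)) le_rfl hzt hinc
    (hnum n cc hS.lvn _ hcard _) (hsn n _ le_rfl) hom hun (he n) hF
    (h4 _ hcard)
  exact Dat.not_fail (D := D) (Lw := Lw) (lam := lam) (E := E) rfl
    (fun a h => hWk.lo _ a le_rfl h) rfl hS.lev hcl'.cls hS.inC.med hS.inC.good.AU hn' hgood

end Pool.Agent.AND
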