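import Pool.Agent.AND.StepGlue
import Pool.Agent.ANS.StepRead

/-! # AND / StepRd: THE LAST STEP of the step theorem (owner helper79)

* `tolAt_lev` : the tolerances depend on the profile only through the levels.
* `Dat.not_fail` : `Nxt` and `Good` for the relabelled medium: the candidate is accepted.
* `step_fin` : field `step` of `Parts` from the probability of `¬ Ok`.
-/

open Finset

noncomputable section

namespace Pool.Agent.AND

open Pool.Agent.Kin Pool.Agent.APS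
open Pool.Agent.ANP (IsLaw Pr)
open Pool.Agent.ANQ (Cls Bx Dep Ag)

variable {d L : ℕ} [NeZero L] {X : Type}

/-- the weights depend on the profile only through the levels -/
theorem tolAt_lev {P : Par} {Sf : SiteF X} {n : ℕ} {F : Fld (Tor d L)} {π π' : Prof (Tor d L)}
    (h : π.lev = π'.lev) (v : Tor d L → X) (M : Med (Tor d L)) :
    tolAt P Sf n F π v M = tolAt P Sf n F π' v M := by
  unfold tolAt
  simp only [h]

namespace Dat

variable {D : Dat d L X} [Fintype X] [DecidableEq X]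

/-- the medium of the candidate -/
theorem isMed_up {Lw : ANB.Law X} {lam E eta : ℝ} (hY : D.Y = sysOf Lw lam E eta) {j i : ℕ}
    (hwk : ∀ a, D.wk (D.g.sn j i + 1) a → Lw.wk (D.g.sn j i + 1) a) {π : Prof (Tor d L)}
    {N : Finset (Tor d L)} (hN : N = D.g.actC j i π)
    (hlev : ∀ x ∈ N, π.lev x = D.g.sn j i) {v ω : Tor d L → X}
    (hω : ∀ x ∈ N, Lw.q (D.g.sn j i) (ω x) = Lw.q (D.g.sn j i) (v x))
    {M M' : Med (Tor d L)} (hM : IsMed (H0T d L) D.Y π v M) {r : ℝ}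
    (hAU : Disjoint M.A M.U)
    (hn : Nxt M M' (digOf Lw lam (D.g.sn j i) N v) ω r) :
    IsMed (H0T d L) D.Y (D.g.up D.ana j i π (N.piecewise ω v)) (N.piecewise ω v)
      (M'.rel (wkN D.ana (D.g.sn j i) N ω)) := by
  rw [hY] at hM ⊢
  exact hn.isMed_raise hM (Lc := D.g.cell j (D.g.sL j i)) hN hlev hwk hω
    (fun x hx hU => Finset.disjoint_left.1 hAU hx hU)

/-- THE CANDIDATE IS ACCEPTED -/
theorem not_fail {Lw : ANB.Law X} {lam E eta : ℝ} (hY : D.Y = sysOf Lw lam E eta) {j i : ℕ}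
    (hwk : ∀ a, D.wk (D.g.sn j i + 1) a → Lw.wk (D.g.sn j i + 1) a) {π : Prof (Tor d L)}
    {N : Finset (Tor d L)} (hN : N = D.g.actC j i π)
    (hlev : ∀ x ∈ N, π.lev x = D.g.sn j i) {v ω : Tor d L → X}
    (hω : ∀ x ∈ N, Lw.q (D.g.sn j i) (ω x) = Lw.q (D.g.sn j i) (v x))
    {M M' : Med (Tor d L)} (hM : IsMed (H0T d L) D.Y π v M) {r : ℝ}
    (hAU : Disjoint M.A M.U)
    (hn : Nxt M M' (digOf Lw lam (D.g.sn j i) N v) ω r)
    (hg : Good D.f (tolAt D.P D.Sf (D.g.sn j i)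
      ((D.fi j i).add D.P (D.g.sn j i) (D.g.side j) {D.g.sL j i})
      (D.g.up D.ana j i π (N.piecewise ω v)) (N.piecewise ω v)
      (M'.rel (wkN D.ana (D.g.sn j i) N ω)))
      (M'.rel (wkN D.ana (D.g.sn j i) N ω))) :
    ¬ D.Fail j i π (N.piecewise ω v) := by
  rintro ⟨-, h2⟩
  exact h2 ⟨_, isMed_up hY hwk hN hlev hω hM hAU hn, hg⟩

/-- THE LAST STEP: `Ok` = what the engine gives outside an event of small probability; for every outcome of the class, without
bad roots, `Ok` implies that the candidate is not rejected -/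
theorem step_fin (hc : ∀ j x, D.g.cor j (D.g.cor j x) = D.g.cor j x) (h : D.QOk)
    (Lw : ANB.Law X) {lam : ℝ} (hl : 0 ≤ lam) (hq : D.q = Lw.q) {j i : ℕ} {p : ℝ} (hp : 0 ≤ p)
    (v : Tor d L → X) (Ok : Set (Tor d L → X))
    (hP : D.g.sL j i ∉ (D.g.crun D.ana j i v).fz →
      Pr (digOf Lw lam (D.g.sn j i) (D.stN j i v) v).P Okᶜ ≤ p)
    (hdet : D.g.sL j i ∉ (D.g.crun D.ana j i v).fz → ∀ ω ∈ Ok,
      (∀ x ∈ D.stN j i v, Lw.q (D.g.sn j i) (ω x) = Lw.q (D.g.sn j i) (v x)) →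
      D.rt j (D.g.up D.ana j i (D.g.crun D.ana j i v).pi ((D.stN j i v).piecewise ω v)).ine →
      ¬ D.Fail j i (D.g.crun D.ana j i v).pi ((D.stN j i v).piecewise ω v)) :
    Pr (fun _ : Tor d L => Lw.p) (D.E1 j i ∩ Cls D.ana.q (D.g.crun D.ana j i v).pi v) ≤
      p * Pr (fun _ : Tor d L => Lw.p) (Cls D.ana.q (D.g.crun D.ana j i v).pi v) := by
  classical
  refine step_of_top hc h Lw lam hq hp v fun hf => ?_
  refine le_trans ?_ (hP hf)
  set N := D.stN j i v with hN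
  have hdg := digOf_ok (T := Tor d L) Lw hl (D.g.sn j i) N v
  have hPn : ∀ ω : Tor d L → X, 0 ≤ ∏ x, (digOf Lw lam (D.g.sn j i) N v).P x (ω x) :=
    fun ω => Finset.prod_nonneg fun x _ => hdg.P0 x _
  unfold ANP.Pr ANP.wt
  rw [Finset.sum_filter]
  refine Finset.sum_le_sum fun ω _ => ?_
  by_cases hO : ω ∈ Ok
  · rw [if_neg (show ω ∉ Okᶜ from fun hc => hc hO)]
    by_cases hz : ∀ x ∈ N, Lw.q (D.g.sn j i) (ω x) = Lw.q (D.g.sn j i) (v x)
    · rw [if_neg fun hF => hdet hf ω hO hz hF.1 hF, mul_zero]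
    · push Not at hz
      obtain ⟨x, hx, hxq⟩ := hz
      have e1 : (digOf Lw lam (D.g.sn j i) N v).P x (ω x) = 0 := by
        show (if x ∈ N then claw Lw (D.g.sn j i) (v x) (ω x) else _) = 0
        rw [if_pos hx]
        unfold claw
        rw [if_neg fun hc => hxq (ANB.mem_cl.1 hc)]
      rw [Finset.prod_eq_zero (Finset.mem_univ x) e1, zero_mul]
  · rw [if_pos (show ω ∈ Okᶜ from hO)]
    split_ifs
    · rw [mul_one]
    · rw [mul_zero]
      exact hPn ω

end Dat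

end Pool.Agent.AND
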