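import Pool.Agent.AND.StepSt
import Pool.Agent.AND.DigLaw
import Pool.Agent.ANS.StepDet

/-!
# AND / StepSt2: `StepCtx` in the states of the algorithm

* `kf_eqN`, `kf_offN`: the levels after the reading; `lev_lo`, `lev_hi`, `zt_pos`: fields `klo`,
  `khi`, `zt` of `StepCtx`;
* `off_dig`: field `off`;
(`StepCtx` in the states of the algorithm: `stepCtx_st`, file AND/StepOk.)
-/

set_option autoImplicit false

open Finset

noncomputable section

namespace Pool.Agent.AND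

open Pool.Agent.Kin Pool.Agent.APS Pool.Agent.ANM Pool.Agent.ANB
open Pool.Agent.ANP (dT)

variable {d L : ℕ} [NeZero L] {X : Type} [Fintype X] [DecidableEq X]

section lev

variable {W : ANB.Law X} {lam E eta : ℝ} {π : Prof (Tor d L)} {v : Tor d L → X}
  {M : Med (Tor d L)} {N : Finset (Tor d L)} {n : ℕ} {ω : Tor d L → X}

/-- levels after the reading at the sites of `N` -/
theorem kf_eqN (hM : IsMed (H0T d L) (sysOf W lam E eta) π v M) (hNa : N ⊆ π.act)
    (hlev : ∀ x ∈ N, π.lev x = n) {x : Tor d L} (hx : x ∈ N) (hq : W.q n (ω x) = W.q n (v x)) :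
    M.kf (digOf W lam n N v) ω x = (sysOf W lam E eta).kk (n + 1) (ω x) := by
  have h1 : M.k x = (sysOf W lam E eta).kk n (v x) := by
    rw [hM.k]
    unfold kp
    rw [if_pos (hNa hx), hlev x hx]
  unfold Med.kf
  rw [h1, digOf_kk (E := E) (eta := eta) hx hq]
  ring

omit [NeZero L] in
/-- levels after the reading off `N` -/
theorem kf_offN {x : Tor d L} (hx : x ∉ N) :
    M.kf (digOf W lam n N v) ω x = M.k x := by
  unfold Med.kf
  rw [(digOf_off (L := W) (lam := lam) (n := n) (v := v) hx (ω x)).2, sub_zero]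

/-- field `klo` -/
theorem lev_lo (hM : IsMed (H0T d L) (sysOf W lam E eta) π v M) (hNa : N ⊆ π.act)
    (hlev : ∀ x ∈ N, π.lev x = n) (hq : ∀ x ∈ N, W.q n (ω x) = W.q n (v x)) {kl : ℝ}
    (hk : ∀ x ∈ M.A, kl ≤ M.k x) (hN : ∀ x ∈ N, kl ≤ (sysOf W lam E eta).kk (n + 1) (ω x)) :
    ∀ x ∈ M.A, kl ≤ M.kf (digOf W lam n N v) ω x := by
  intro x hx
  by_cases hxN : x ∈ N
  · rw [kf_eqN hM hNa hlev hxN (hq x hxN)]
    exact hN x hxN
  · rw [kf_offN hxN]
    exact hk x hx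

/-- field `khi` -/
theorem lev_hi (hM : IsMed (H0T d L) (sysOf W lam E eta) π v M) (hNa : N ⊆ π.act)
    (hlev : ∀ x ∈ N, π.lev x = n) (hq : ∀ x ∈ N, W.q n (ω x) = W.q n (v x)) {ku : ℝ}
    (hk : ∀ x ∈ M.A, M.k x ≤ ku) (hN : ∀ x ∈ N, (sysOf W lam E eta).kk (n + 1) (ω x) ≤ ku) :
    ∀ x ∈ M.A, M.kf (digOf W lam n N v) ω x ≤ ku := by
  intro x hx
  by_cases hxN : x ∈ N
  · rw [kf_eqN hM hNa hlev hxN (hq x hxN)]
    exact hN x hxN
  · rw [kf_offN hxN]
    exact hk x hx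

omit [NeZero L] in
/-- field `zt` -/
theorem zt_pos (hq : ∀ x ∈ N, W.q n (ω x) = W.q n (v x))
    (hN : ∀ x ∈ N, (sysOf W lam E eta).kk (n + 1) (ω x) < (sysOf W lam E eta).kk n (v x)) :
    ∀ x ∈ N, 0 < (digOf W lam n N v).zt x (ω x) := by
  intro x hx
  rw [digOf_kk (E := E) (eta := eta) hx (hq x hx)]
  exact sub_pos.2 (hN x hx)

omit [NeZero L] in
/-- field `off` -/
theorem off_dig : Off (digOf W lam n N v) ω N := fun _ hx => digOf_off hx _

end lev

end Pool.Agent.AND
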