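import Pool.Agent.AND.StepOk
import Pool.Agent.AND.StepCoreNm
import Pool.Agent.AND.PercTop
import Pool.Agent.AND.LawBD

/-! # AND / StepState: THE STATE OF ONE STEP OF THE ALGORITHM (owner helper79)

`SSt` : everything known about the state `(j, i)`: medium within uniform bounds, geometry of every candidate without bad
roots, levels;  `ev_sst` : it exists for every configuration, for small `k0`, from `Ctx`. -/

set_option autoImplicit false

open Matrix Finset Filter Topology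

noncomputable section

namespace Pool.Agent.AND

open Pool.Agent.Kin Pool.Agent.APS Pool.Agent.ANM Pool.Agent.ANC Pool.Agent.ANB Pool.Agent.ANQ

/-- THE STATE of the step `(j, i)`, `cc` = additive constant of the chains, `Mm` = medium -/
structure SSt {d L : ℕ} [NeZero L] {X : Type} [Fintype X] [DecidableEq X] (D : Dat d L X)
    (k0 rho Lam : ℝ) (dA : ℕ → ℝ) (al M : ℕ) (j i : ℕ) (v : Tor d L → X) (cc : ℕ)
    (Mm : Med (Tor d L)) : Prop where
  inC : InC D k0 rho Lam dA (D.g.sn j i) (D.fi j i) (D.g.crun D.ana j i v).pi v Mm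
  Fp : (D.fi j i).Pos
  Fb : FldIn D.f (D.fi j i) (k0 ^ (D.P.vi / 2)) (k0 ^ (D.P.vp / 2))
    (aeB k0 D.P.eta D.P.vi (D.g.sn j i)) (Lam + 1) 1
  hj : j ≤ M
  lvn : LvN k0 al j (D.g.sn j i) cc
  n1 : D.g.sn j i + 1 ≤ lv k0 al (M + 1)
  lev : ∀ y ∈ D.stN j i v, (D.g.crun D.ana j i v).pi.lev y = D.g.sn j i
  mbb : IsUnit (ANI.MBB (H0T d L) Mm.b Mm.nr).det
  geo : ∀ u, D.rt j (D.g.up D.ana j i (D.g.crun D.ana j i v).pi u).ine →
    StGeo Mm (D.stN j i v) (side k0 al j) (D.g.sL j i)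
      ((D.g.up D.ana j i (D.g.crun D.ana j i v).pi u).rd ∪
        (D.g.up D.ana j i (D.g.crun D.ana j i v).pi u).ine : Set (Tor d L)) cc

/-- lengths -/
theorem ev_len (d J : ℕ) {al : ℕ} (hal : 2 ≤ al) {v2 : ℝ} (hv : 0 ≤ v2) (hv1 : v2 ≤ 1) {w : ℝ}
    (hw : 0 < w) (hw1 : w ≤ 1) :
    ∀ᶠ k0 in 𝓝[>] (0 : ℝ), ∀ (N nf : ℕ) [NeZero N] (j M : ℕ), j ≤ M → side k0 al (M + 1) ≤ N →
      CGeo (torGeo d N k0 al J 24 v2 nf) (ANC.dW k0 al) (VV d 24) ∧
      ((cK (torGeo d N k0 al J 24 v2 nf) (ANC.dW k0 al) (VV d 24) (j - 1) (rj k0 al w j) : ℕ) :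
        ℝ) ≤ 8 * ks k0 al j ^ (-2 : ℝ) ∧
      2 * (3 * side k0 al j + cK (torGeo d N k0 al J 24 v2 nf) (ANC.dW k0 al) (VV d 24) (j - 1)
        (rj k0 al w j) + 1) ≤ N := by
  filter_upwards [cgeo_tor d J 24 hal hv hv1, rj_side 8 hal hw.le hw1,
    ev_small (show (0 : ℝ) < 1 / 4 by norm_num)] with k0 h1 h2 hk N nf _ j M hj hN
  have hk0 := hk.1
  have hk1 : k0 < 1 := by linarith [hk.2]
  have hG := h1 N nf
  have hks := ks_pos hk0 al j
  have hks4 : ks k0 al j ≤ 1 / 4 := (ks_le hk0 al j).trans hk.2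
  have hr : (rj k0 al w j : ℝ) ≤ 2 * ks k0 al j ^ (-1 : ℝ) := by
    have h3 := rj_le hk0 hk1.le al hw.le j
    have h4 := rpow_neg_le hks (by linarith) hw1
    linarith
  have hr2 : 2 * ks k0 al j ^ (-1 : ℝ) ≤ ks k0 al j ^ (-2 : ℝ) := by
    rw [show (-2 : ℝ) = -1 + -1 by norm_num, Real.rpow_add hks]
    refine mul_le_mul_of_nonneg_right ?_ (Real.rpow_nonneg hks.le _)
    rw [Real.rpow_neg_one, ← one_div, le_div_iff₀ hks]
    linarith
  have h8 : 8 * rj k0 al w j + 8 ≤ side k0 al j := by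
    have h4 := h2 j
    have h5 : ((8 * rj k0 al w j + 8 : ℕ) : ℝ) ≤ (side k0 al j : ℝ) := by
      push_cast
      linarith
    exact_mod_cast h5
  -- the sides grow
  have hlarge : ∀ i, 16 * side k0 al i + 16 ≤ side k0 al (i + 1) := by
    intro i
    have h3 : 2 ^ (i + 3) * (J * VV d 24 + 1) *
        (2 * hR k0 al v2 (i + 1) + 2 * side k0 al i + 2) ≤ side k0 al (i + 1) := hG.large i
    refine le_trans ?_ h3
    have h4 : 8 * 1 ≤ 2 ^ (i + 3) * (J * VV d 24 + 1) := by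
      have e1 : 8 ≤ 2 ^ (i + 3) := by
        calc 8 = 2 ^ 3 := by norm_num
          _ ≤ 2 ^ (i + 3) := Nat.pow_le_pow_right (by norm_num) (by omega)
      exact Nat.mul_le_mul e1 (by omega)
    calc 16 * side k0 al i + 16 = 8 * 1 * (2 * side k0 al i + 2) := by ring
      _ ≤ 8 * 1 * (2 * hR k0 al v2 (i + 1) + 2 * side k0 al i + 2) :=
        Nat.mul_le_mul_left _ (by omega)
      _ ≤ _ := Nat.mul_le_mul_right _ h4
  have hmono : side k0 al (j + 1) ≤ side k0 al (M + 1) :=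
    Nat.le_of_dvd (side_pos _ _ _) (side_dvd hk0 hk1 hal (Nat.succ_le_succ hj))
  have hN2 := hlarge j
  rcases Nat.eq_zero_or_pos j with rfl | hj0
  · have e1 : cK (torGeo d N k0 al J 24 v2 nf) (ANC.dW k0 al) (VV d 24) (0 - 1)
        (rj k0 al w 0) = 4 * rj k0 al w 0 := by
      unfold cK
      rw [Nat.zero_sub, cc_zero]
      omega
    rw [e1]
    refine ⟨hG, ?_, by omega⟩
    push_cast
    linarith
  · obtain ⟨m, rfl⟩ := Nat.exists_eq_succ_of_ne_zero hj0.ne'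
    have e1 := hG.cK_le (m + 1 - 1) (rj k0 al w (m + 1))
    have e2 : (torGeo d N k0 al J 24 v2 nf).side (m + 1 - 1) = side k0 al m := rfl
    rw [e2] at e1
    have e3 := hlarge m
    refine ⟨hG, ?_, by
      simp only [Nat.succ_eq_add_one] at *
      omega⟩
    have e4 : ((cK (torGeo d N k0 al J 24 v2 nf) (ANC.dW k0 al) (VV d 24) (m + 1 - 1)
        (rj k0 al w (m + 1)) : ℕ) : ℝ) ≤ ((2 * side k0 al m + 4 * rj k0 al w (m + 1) : ℕ) : ℝ) := by
      exact_mod_cast e1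
    refine e4.trans ?_
    push_cast
    have e5 := (side_rpow hk0 hk1 al m).2
    simp only [Nat.succ_eq_add_one] at *
    linarith

variable {d : ℕ} {CM : ℝ}

/-- THE STATE EXISTS -/
theorem ev_sst {LP : LawP} (hd : 0 < d) (x : Ex d CM) (c : Cst) (q : Csts)
    (hnf : ∀ (X : Type) [Fintype X] (Lw : Law X) (Sf : SiteF X) (lam : ℝ) (n1 : ℕ),
      LP X Lw Sf lam n1 → n1 + 1 ≤ Lw.nf) (hq : q.Ok c) :
    ∀ᶠ k0 in 𝓝[>] (0 : ℝ), ∀ (N : ℕ) [NeZero N] (X : Type) [Fintype X] [DecidableEq X]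
      (Lw : Law X) (Sf : SiteF X) (lam E es : ℝ) (g0 : ℂ) (gam Lm : ℝ) (M : ℕ),
      Ctx LP x c q k0 N Lw Sf lam E es g0 gam Lm M →
      ∀ j ≤ M, ∀ i < (datC x c q N Lw Sf lam E k0 es g0 gam Lm).g.ns j, ∀ v,
      ∃ (cc : ℕ) (Mm : Med (Tor d N)), SSt (datC x c q N Lw Sf lam E k0 es g0 gam Lm) k0 (q.th / 4)
        Lm (fun n => kap k0 n ^ (3 * x.vt)) x.al M j i v cc Mm := by
  filter_upwards [ev_len d x.J x.al2 x.v2_pos.le x.v2_le hq.w hq.w1,
    ev_small (show (0 : ℝ) < 1 / 4 by norm_num)] with k0 h1 hk N _ X _ _ Lw Sf lam E es g0 gam Lm M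
      H j hj i hi v
  have hk0 := hk.1
  have hk1 : k0 < 1 := by linarith [hk.2]
  set D := datC x c q N Lw Sf lam E k0 es g0 gam Lm with hD
  obtain ⟨hG, hc2, hL⟩ := h1 N Lw.nf j M hj H.pick.Nside
  obtain ⟨Mm, hC⟩ := H.inh.crun (Nat.lt_succ_of_le hj) hi.le v
  have hcor := H.inh.ns.cor
  have hloc := Dat.loc H.inh.qok
  have hnf' := hnf X Lw Sf lam _ H.law
  have hlm : ∀ {a b : ℕ}, a ≤ b → lv k0 x.al a ≤ lv k0 x.al b := by
    exact fun h => (lv_mono hk0 hk1 x.al2).monotone h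
  have hlv : ∀ m ≤ M + 1, D.g.lv m = lv k0 x.al m := by
    intro m hm
    show min (lv k0 x.al m) Lw.nf = lv k0 x.al m
    apply min_eq_left
    have := hlm hm
    omega
  have hP : PercIn D.g D.ana (fun _ => Kew Lw) (rj k0 x.al q.w) :=
    Dat.percIn (D := D) (fun _ => Kew Lw) (rj k0 x.al q.w) ANP.nmet_dT
      (fun j => rj_pos k0 x.al q.w j)
      (fun j => rj_dvd hk0 hk1 x.al2 hq.w.le (Nat.le_succ j)) (fun n a y h => wkA_K h)
      (fun a => wkA_lv0 k0 x.al a) (fun j I h => h)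
  have hns : i / D.g.nc j < D.g.lv (j + 1) - D.g.lv j := by
    have e1 : i < (D.g.lv (j + 1) - D.g.lv j) * D.g.nc j := hi
    rcases Nat.eq_zero_or_pos (D.g.nc j) with h0 | h0
    · rw [h0, mul_zero] at e1
      exact absurd e1 (Nat.not_lt_zero _)
    · exact (Nat.div_lt_iff_lt_mul h0).2 e1
  have e1 := hlv j (by omega)
  have e2 := hlv (j + 1) (by omega)
  have hlo : lv k0 x.al j ≤ D.g.sn j i := by
    rw [← e1]
    exact Nat.le_add_right _ _
  have hhi : D.g.sn j i < lv k0 x.al (j + 1) := by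
    rw [← e2]
    show D.g.lv j + i / D.g.nc j < D.g.lv (j + 1)
    exact (Nat.lt_sub_iff_add_lt'.1 hns)
  refine ⟨_, Mm,
    { inC := hC
      Fp := H.inh.fn.fi_pos j i
      Fb := H.inh.fn.fi_in (Nat.lt_succ_of_le hj) hi.le
      hj := hj
      lvn := ⟨hlo, hhi, hc2⟩
      n1 := ?_
      lev := ANQ.Geo.lev_cell hcor hloc j i v
      mbb := ?_
      geo := ?_ }⟩
  · exact hhi.trans_le (hlm (Nat.succ_le_succ hj))
  · refine st_mbb (D := D) (v := v) (π := (D.g.crun D.ana j i v).pi) ?_ ?_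
      (pinv_crun j i v).rl hC.med
    · have e3 : D.Y.hh D.g.nf = fun a => lam * Lw.V a := by
        funext a
        exact hh_top (L := Lw) le_rfl a
      rw [e3]
      exact H.avoid
    · exact hC.inv.ar
  · intro u hu
    exact st_geo (D := D) (K := fun _ => Kew Lw) hd rfl hG hP (r := rj k0 x.al q.w)
      (fun y => (ANP.dT_cor (side_pos _ _ _) y).trans (Nat.sub_le _ _)) hL v u hC.med hu

end Pool.Agent.AND
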