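import Pool.Agent.ANM.SBnum
import Pool.Agent.ANM.Wgt
import Pool.Agent.GSC.L1w

/-! # AND SupT: the (weighted) sup norm bound of `(1 - R k)⁻¹` for a medium with read sites.

`G = rsc H b`, `Im b < 0` on `X`, `Im b = 0` off `X`, the block off `X` invertible.
* `WFam H b X φ Mv c d`: family of admissible weights `φ x0`, `φ x0 x0 = 0`, flat at the read sites, volume bound.
* `TB ...`: all hypotheses; `TB.sbw` : `ANM.SBw` for the effective operator; `TB.supB`;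
* `TB.supT` : torus form: for every admissible weight `f` flat at the read sites,
  `|u_x - ∑_{y ∈ X} G_xy² k_y u_y| ≤ v e^{-θ f_x}` on `X` implies `|u_x| ≤ Π v e^{-θ f_x}` on `X`,
  `Π = 4 l C1/c1`, `θ = c1/(16 C0 l)`;
* `TB.l1T` : `∑_X k e^{-θ f} |u| ≤ Π ∑_X k e^{-θ f} |u - R k u|`.
-/

open Matrix Finset

noncomputable section

namespace Pool.Agent.AND

open Pool.Agent.Kin Pool.Agent.APS Pool.Agent.ANL Pool.Agent.ANM

variable {ι : Type} [Fintype ι] [DecidableEq ι]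

/-- family of weights -/
structure WFam (H : Matrix ι ι ℂ) (b : ι → ℂ) (X : Finset ι) (φ : ι → ι → ℝ) (Mv c : ℝ) (d : ℕ) :
    Prop where
  z : ∀ x, φ x x = 0
  adm : ∀ x, AdmW H b (φ x)
  flat : ∀ x0 x y, (x ∉ X ∨ y ∉ X) → H x y ≠ 0 → φ x0 x = φ x0 y
  vol : ∀ x (r : ℝ), 0 ≤ r →
    ((univ.filter (fun y => φ x y ≤ r)).card : ℝ) ≤ (2 * (2 * (r * Mv) + c) + 1) ^ d

/-- hypotheses of the sup norm bound for a medium with read sites -/
structure TB (H : Matrix ι ι ℂ) (b : ι → ℂ) (X : Finset ι) (k m : ι → ℝ) (φ : ι → ι → ℝ)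
    (al ε c1 C1 C0 C2 K Mv c : ℝ) (d l : ℕ) : Prop where
  adm : ANL.Adm H b
  neg : ∀ x ∈ X, (b x).im < 0
  zero : ∀ x, x ∉ X → (b x).im = 0
  mbb : IsUnit (ANI.MBB H b X).det
  k0 : ∀ x, 0 ≤ k x
  k1 : ∀ x, k x ≤ 1
  mlo : ∀ x ∈ X, c1 ≤ m x
  mup : ∀ x ∈ X, m x ≤ C1
  abs : ∀ x ∈ X, k x * m x ≤ -(b x).im
  imd : ∀ x ∈ X, (rsc H b x x).im ≤ (1 + al) * m x
  dia : ∀ x ∈ X, ‖rsc H b x x‖ ≤ C0
  ent : ∀ x ∈ X, ∀ y ∈ X, ‖rsc H b x y‖ ^ 2 ≤ C2
  H3 : ∀ x ∈ X, ∑ y ∈ X, k y * m y * (rsc H b x y).re ^ 2 ≤ (1 - ε) * m x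
  wf : WFam H b X φ Mv c d
  al0 : 0 ≤ al
  al1 : 16 * l * al ≤ 1
  al2 : 16 * al ≤ ε ^ 2
  num : SBN d ε c1 C1 C0 C2 K Mv c l

namespace TB

variable {H : Matrix ι ι ℂ} {b : ι → ℂ} {X : Finset ι} {k m : ι → ℝ} {φ : ι → ι → ℝ}
  {al ε c1 C1 C0 C2 K Mv c : ℝ} {d l : ℕ}

variable (h : TB H b X k m φ al ε c1 C1 C0 C2 K Mv c d l)
include h

theorem sym : RealSym (ANI.Heff H b X) := ANI.realSym_eff h.adm.sym h.zero

theorem ent_eq (x y : {x // x ∈ X}) :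
    rsc (ANI.Heff H b X) (fun y : {x // x ∈ X} => b y) x y = rsc H b x y :=
  ANI.rsc_eff_apply h.adm h.mbb x y

theorem sbw : SBw (ANI.Heff H b X) (fun y : {x // x ∈ X} => b y) (fun y : {x // x ∈ X} => k y)
    (fun y : {x // x ∈ X} => m y) (fun x y : {x // x ∈ X} => φ x y) al ε c1 C1 C0 C2
    (1 - ε / 4) (1 - ε / 8) (4 * C0 / c1 + 1) (K ^ (3 * d + 1))
    (2 * l * Real.log (4 * C0 / c1 + 1) + Real.log 8) (c1 / (16 * C0 * l)) l := by
  refine h.num.sbw h.al0 h.al1 h.al2 h.sym (fun x => h.neg x x.2) (fun x => h.k0 x)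
    (fun x => h.k1 x) (fun x => h.mlo x x.2) (fun x => h.mup x x.2) (fun x => h.abs x x.2)
    ?_ ?_ ?_ ?_ ?_ (fun x => h.wf.z x) ?_
  · intro x
    rw [h.ent_eq]
    exact h.imd x x.2
  · intro x
    rw [h.ent_eq]
    exact h.dia x x.2
  · intro x y
    rw [h.ent_eq]
    exact h.ent x x.2 y y.2
  · intro x
    have h1 := h.H3 x x.2
    rw [← Finset.sum_coe_sort X] at h1
    refine le_trans (le_of_eq (Finset.sum_congr rfl fun y _ => ?_)) h1
    rw [h.ent_eq]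
  · intro x
    exact admW_eff h.mbb (h.wf.adm x) (fun y z hyz hH => h.wf.flat x y z hyz hH)
  · intro x r hr
    refine le_trans ?_ (h.wf.vol x r hr)
    have h1 : (univ.filter (fun y : {x // x ∈ X} => φ x y ≤ r)).card ≤
        (univ.filter (fun y => φ (x : ι) y ≤ r)).card := by
      refine Finset.card_le_card_of_injOn (fun y => (y : ι)) ?_ ?_
      · intro y hy
        simp only [Finset.coe_filter, Finset.mem_univ, true_and, Set.mem_ofPred_eq] at hy ⊢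
        exact hy
      · intro y _ z _ hyz
        exact Subtype.ext hyz
    exact_mod_cast h1

theorem supB : GSC.SupB (ANI.Heff H b X) (fun y : {x // x ∈ X} => k y)
    (fun y : {x // x ∈ X} => b y) (4 * l * C1 / c1) := h.sbw.supB

/-- weighted sup norm bound on `X` -/
theorem supW {f : ι → ℝ} (hf : AdmW H b f)
    (hflat : ∀ x y, (x ∉ X ∨ y ∉ X) → H x y ≠ 0 → f x = f y) (u : {x // x ∈ X} → ℂ) (v : ℝ)
    (hv : ∀ x : {x // x ∈ X}, ‖u x - ∑ y, rsc (ANI.Heff H b X) (fun y : {x // x ∈ X} => b y) x y ^ 2 *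
      ((k y : ℂ) * u y)‖ ≤ v * Real.exp (-(c1 / (16 * C0 * l) * f x))) (x : {x // x ∈ X}) :
    ‖u x‖ ≤ 4 * l * C1 / c1 * v * Real.exp (-(c1 / (16 * C0 * l) * f x)) :=
  h.sbw.supW (f := fun y : {x // x ∈ X} => f y) (admW_eff h.mbb hf hflat) u v hv x

/-- weighted sup norm bound, torus form -/
theorem supT {f : ι → ℝ} (hf : AdmW H b f)
    (hflat : ∀ x y, (x ∉ X ∨ y ∉ X) → H x y ≠ 0 → f x = f y) (u : ι → ℂ) (v : ℝ)
    (hv : ∀ x ∈ X, ‖u x - ∑ y ∈ X, rsc H b x y ^ 2 * ((k y : ℂ) * u y)‖ ≤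
      v * Real.exp (-(c1 / (16 * C0 * l) * f x))) (x : ι) (hx : x ∈ X) :
    ‖u x‖ ≤ 4 * l * C1 / c1 * v * Real.exp (-(c1 / (16 * C0 * l) * f x)) := by
  refine h.supW hf hflat (fun y => u y) v (fun x => ?_) ⟨x, hx⟩
  have h1 := hv x x.2
  rw [← Finset.sum_coe_sort X] at h1
  refine le_trans (le_of_eq ?_) h1
  congr 2
  refine Finset.sum_congr rfl fun y _ => ?_
  rw [h.ent_eq]

/-- unweighted sup norm bound, torus form -/
theorem supT0 (u : ι → ℂ) (v : ℝ)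
    (hv : ∀ x ∈ X, ‖u x - ∑ y ∈ X, rsc H b x y ^ 2 * ((k y : ℂ) * u y)‖ ≤ v) (x : ι)
    (hx : x ∈ X) : ‖u x‖ ≤ 4 * l * C1 / c1 * v := by
  have hf : AdmW H b (fun _ => (0 : ℝ)) := by
    intro x
    have := h.adm.im x
    simp only [sub_self, Real.sinh_zero, abs_zero, mul_zero, Finset.sum_const_zero]
    linarith
  have h1 := h.supT hf (fun _ _ _ _ => rfl) u v (fun x hx => by simpa using hv x hx) x hx
  simpa using h1

/-- weighted `ℓ¹` bound, torus form -/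
theorem l1T {f : ι → ℝ} (hf : AdmW H b f)
    (hflat : ∀ x y, (x ∉ X ∨ y ∉ X) → H x y ≠ 0 → f x = f y) (u : ι → ℂ) :
    ∑ x ∈ X, k x * Real.exp (-(c1 / (16 * C0 * l) * f x)) * ‖u x‖ ≤
      4 * l * C1 / c1 * ∑ x ∈ X, k x * Real.exp (-(c1 / (16 * C0 * l) * f x)) *
        ‖u x - ∑ y ∈ X, rsc H b x y ^ 2 * ((k y : ℂ) * u y)‖ := by
  have h1 := GSC.dual_w (R := fun x y : {x // x ∈ X} => rsc (ANI.Heff H b X) (fun y => b y) x y ^ 2)
    (k := fun y => k y) (om := fun x => Real.exp (-(c1 / (16 * C0 * l) * f x)))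
    (P := 4 * l * C1 / c1)
    (fun x y => by rw [rsc_symm h.sym]) (fun x => h.k0 x) (fun x => Real.exp_pos _)
    (fun u v hv x => h.supW hf hflat u v hv x) (fun y => u y)
  rw [← Finset.sum_coe_sort X, ← Finset.sum_coe_sort X]
  refine h1.trans (le_of_eq ?_)
  congr 1
  refine Finset.sum_congr rfl fun x _ => ?_
  rw [← Finset.sum_coe_sort X]
  congr 3
  refine Finset.sum_congr rfl fun y _ => ?_
  rw [h.ent_eq]

end TB

end Pool.Agent.AND
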