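import Pool.Agent.AND.PartsD
import Pool.Agent.AND.RunInv
import Pool.Agent.ANQ.ProcTor

/-! # AND / Top1: THE COMPOSITION for one torus

`outS_of_parts` : `Parts ⟹ OutS` (all cells, all super-stages `≤ M`).
-/

set_option autoImplicit false

open Finset Filter Topology

noncomputable section

namespace Pool.Agent.AND

open Pool.Agent.Kin Pool.Agent.APS Pool.Agent.ANM Pool.Agent.ANC Pool.Agent.ANB Pool.Agent.ANQ
open Pool.Agent.ANP (IsLaw Pr)

section out

variable {d L : ℕ} [NeZero L] {X : Type} [Fintype X] [DecidableEq X]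

/-- the sites near a cell -/
theorem nbhd_cell_card (d N : ℕ) [NeZero N] (k0 : ℝ) (al J cs : ℕ) (v2 : ℝ) (nf j r : ℕ)
    (c : Tor d N) :
    ((torGeo d N k0 al J cs v2 nf).nbhd r ((torGeo d N k0 al J cs v2 nf).cell j c)).card ≤
      (2 * (r + side k0 al j) + 1) ^ d := by
  classical
  refine le_trans (Finset.card_le_card ?_) (ANM.card_ball c (r + side k0 al j))
  intro x hx
  unfold Geo.nbhd at hx
  obtain ⟨y, hy, hxy⟩ := (Finset.mem_filter.1 hx).2
  have h1 : ANP.cor (side k0 al j) y = c := (Finset.mem_filter.1 hy).2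
  have h2 := ANP.dT_cor (side_pos k0 al j) y
  rw [h1] at h2
  have h3 : td x y ≤ r := hxy
  have h4 : td y c ≤ side k0 al j - 1 := h2
  have h5 : td c x ≤ td x y + td y c := by
    rw [td_met.symm c x]
    exact td_met.tri x y c
  simp only [Finset.mem_filter, Finset.mem_univ, true_and]
  omega

/-- THE COMPOSITION FOR ONE TORUS -/
theorem outS_of_parts (d : ℕ) {al J : ℕ} (hal : 2 ≤ al) (hJ0 : 0 < J) {v2 K1 Kp Cp : ℝ}
    (hv : 0 ≤ v2) (hv1 : v2 ≤ 1) (hK : 0 ≤ K1) (hCp : 0 ≤ Cp) (hKp : 5 * K1 * al < Kp)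
    (hJ : 5 * K1 + ((2 * d * J : ℕ) : ℝ) < K1 * J / al) :
    ∀ᶠ k0 in 𝓝[>] (0 : ℝ), ∀ (N : ℕ) [NeZero N] (X : Type) [Fintype X] [DecidableEq X]
      (D : Dat d N X) (Lw : Law X) (lam E es C1 c1 : ℝ) (M : ℕ) (K : Finset X) (r : ℕ → ℕ)
      (qw : ℝ) (ll xp : ℕ → ℝ), lv k0 al (M + 1) ≤ Lw.nf →
      Parts D Lw lam E es C1 c1 k0 al J M v2 K1 Cp Kp K r qw ll xp →
      OutS d N Lw lam E es C1 c1 k0 al (M + 1) J (VV d 24) v2 K1 := by
  filter_upwards [procIn_tor d hal hJ0 hv hv1 hK hCp hKp hJ, leak_tor d (J := J) hal hv hv1,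
    par_ok d J 24 hal hv hv1] with k0 hproc hleak hok N _ X _ _ D Lw lam E es C1 c1 M K r qw ll xp
      hnf hP
  obtain ⟨f, P, Sf, Y, q, wk, g, mJ, F0, rt, cI⟩ := D
  have hg : g = torGeo d N k0 al J 24 v2 Lw.nf := hP.g
  subst hg
  set D : Dat d N X := ⟨f, P, Sf, Y, q, wk, torGeo d N k0 al J 24 v2 Lw.nf, mJ, F0, rt, cI⟩ with hD
  have hL := Dat.loc hP.qok
  have hmet : NMet D.g.dist := td_met
  have hpi : PercIn D.g D.ana (fun _ => K) r := Dat.percIn (fun _ => K) r hmet hP.r1 hP.rdvd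
    (fun n a _ => hP.wkK n a) hP.wk0 fun j I => (hP.rt j I).1
  have h1 := hproc N Lw.nf X (fun _ : Tor d N => Lw.p) D.ana M D.E1 (PE D.g (fun _ => K) r) xp
    (fun j => (side k0 al j : ℝ) ^ d * ll j) hnf hP.law hL
    (fun j _ i _ v hr => Dat.rej hpi hP.rt hr)
    (fun j _ i _ v hv v' hv' => Dat.mE1 tor_cor hP.qok hv hv') ?_ hP.xp0 ?_
    (fun j hj => ⟨mul_nonneg (pow_nonneg (Nat.cast_nonneg _) _) (hP.ll0 j), hP.ll1 j hj⟩) ?_
    (fun j S L v h => h)
  · refine outS_of_proc (A := D.ana) hP.wk (hok N Lw.nf) h1 le_rfl hnf fun v => ?_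
    obtain ⟨M', hM1, hM2⟩ := hP.run v
    obtain ⟨u, hu1, hu2⟩ := hP.fin v M' hM1 hM2
    refine ⟨M', f, _, u, hP.fC, hP.fc, ?_, hM2, hu1, hu2, hP.eta⟩
    rw [← hP.Y]
    exact hM1
  · intro j hj i hi v
    exact hP.step j hj i hi v (inv_crun hpi j i v)
  · intro j hj C hC
    refine perc_bound (g := D.g) hP.law hmet (q := qw) (fun _ => hP.Kq) hP.qw0 (V := 3 ^ d)
      (Nat.one_le_pow _ _ (by norm_num)) (fun x => card_bl_td x) (j := j)
      (Z := (2 * (4 * r j + side k0 al j) + 1) ^ d) ?_ ?_ ?_ ?_ C hC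
    · intro x
      exact (ANP.dT_cor (side_pos k0 al j) x).trans (Nat.sub_le _ _)
    · exact hP.rs j hj
    · intro c
      exact nbhd_cell_card d N k0 al J 24 v2 Lw.nf j (4 * r j) c
    · have := hP.xp1 j hj
      push_cast at this ⊢
      exact this
  · intro j hj C hC
    exact hleak N Lw.nf X (fun _ : Tor d N => Lw.p) D.ana j (ll j) (hP.ll0 j) hP.law hL
      (hP.leak j hj) C hC

end out

end Pool.Agent.AND
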