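import Pool.Agent.AND.Top1

/-! # AND / Top2: FROM `Parts` TO CONTINUOUS SPECTRUM

`contSpec_of_parts`: for small `lam`, if for almost every `E ∈ [a,b]`, for infinitely many `m` there are a torus and for infinitely many `nf`
data `D` with `Parts`, then the Anderson model has continuous spectrum in `[a,b]` almost surely.
-/

set_option autoImplicit false

open Finset Filter Topology MeasureTheory

noncomputable section

namespace Pool.Agent.AND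

open Pool.Agent.Kin Pool.Agent.APS Pool.Agent.ANM Pool.Agent.ANC Pool.Agent.ANB Pool.Agent.ANE
open Pool.Agent.Helper3.Anderson (GoodLaw)

/-- THE CONSTRUCTION for the energy `E`: infinitely many numbers of super-stages `m + 1`, some torus, infinitely many
precisions `nf` -/
def Built (d : ℕ) (μ : Measure ℝ) [IsProbabilityMeasure μ] (M S lam E C1 c1 : ℝ) (al J : ℕ)
    (v2 K1 Cp Kp : ℝ) : Prop :=
  ∃ᶠ m in atTop, ∃ (N : ℕ) (_ : NeZero N),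
    side ((lam * (2 * S)) ^ 2) al (m + 1) ≤ N ∧ ∃ᶠ nf in atTop,
      ∃ Lw : Law (XC μ M nf), IsReal S Lw ∧ lv ((lam * (2 * S)) ^ 2) al (m + 1) ≤ Lw.nf ∧
        ∃ (D : Dat d N (XC μ M nf)) (Kw : Finset (XC μ M nf)) (r : ℕ → ℕ) (qw : ℝ)
          (ll xp : ℕ → ℝ),
          Parts D Lw lam E
            (ks ((lam * (2 * S)) ^ 2) al (m + 1) ^ thE d) C1 c1 ((lam * (2 * S)) ^ 2) al J m v2
            K1 Cp Kp Kw r qw ll xp

theorem contSpec_of_parts {d : ℕ} (hd : 0 < d) {μ : Measure ℝ} [IsProbabilityMeasure μ] {M : ℝ}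
    {K : NNReal} (hμ : GoodLaw μ M K) {S : ℝ} (hS : 0 < S) {al J : ℕ} (hal : 2 ≤ al) (hJ0 : 0 < J)
    {v2 K1 Kp Cp : ℝ} (hv : 0 ≤ v2) (hv1 : v2 ≤ 1) (hK1 : 2 * al * d + 1 ≤ K1) (hCp : 0 ≤ Cp)
    (hKp : 5 * K1 * al < Kp) (hJ : 5 * K1 + ((2 * d * J : ℕ) : ℝ) < K1 * J / al)
    {a b : ℝ} (hab : a < b) (ha : 0 ≤ a) (hb : b ≤ 4 * d) :
    ∃ lam0 : ℝ, 0 < lam0 ∧ ∀ lam : ℝ, 0 < lam → lam ≤ lam0 → ∀ C1 c1 : ℝ, 0 ≤ C1 → 0 < c1 →
      (∀ᵐ E : ℝ, E ∈ Set.Icc a b → Built d μ M S lam E C1 c1 al J v2 K1 Cp Kp) →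
      ∀ᵐ ω ∂(Helper3.Anderson.siteLaw d μ), PureCont (fun x => lam * ω x) a b := by
  have hK0 : 0 ≤ K1 := by
    have : (0 : ℝ) ≤ 2 * al * d + 1 := by positivity
    linarith
  obtain ⟨lam0, hl0, h1⟩ := contSpec_of_outS (J := J) (V := ANQ.VV d 24) (v2 := v2) (K1 := K1)
    hd hμ hS hal hv hv1 hK1 hab ha hb
  obtain ⟨k1, hk1, -, hk⟩ := ev_iff.1 (outS_of_parts d hal hJ0 hv hv1 hK0 hCp hKp hJ)
  refine ⟨min lam0 (Real.sqrt k1 / (2 * S)), lt_min hl0 (by positivity), ?_⟩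
  intro lam hlam hlam1 C1 c1 hC1 hc1 hE
  have hk0 : 0 < (lam * (2 * S)) ^ 2 := by positivity
  have hk01 : (lam * (2 * S)) ^ 2 ≤ k1 := by
    have h2 : lam * (2 * S) ≤ Real.sqrt k1 := by
      have := hlam1.trans (min_le_right _ _)
      rwa [le_div_iff₀ (by positivity)] at this
    calc (lam * (2 * S)) ^ 2 ≤ (Real.sqrt k1) ^ 2 := pow_le_pow_left₀ (by positivity) h2 2
      _ = k1 := Real.sq_sqrt hk1.le
  refine h1 lam hlam (hlam1.trans (min_le_left _ _)) C1 c1 hC1 hc1 ?_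
  filter_upwards [hE] with E hE hEab
  have h2 := hE hEab
  unfold Built at h2
  have h3 : ∃ᶠ m in atTop, (fun n => ∃ (L : ℕ) (_ : NeZero L),
        side ((lam * (2 * S)) ^ 2) al n ≤ L ∧ ∃ᶠ nf in atTop,
          ∃ Lw : Law (XC μ M nf), IsReal S Lw ∧ OutS d L Lw lam E
              (ks ((lam * (2 * S)) ^ 2) al n ^ thE d) C1 c1
              ((lam * (2 * S)) ^ 2) al n J (ANQ.VV d 24) v2 K1) (m + 1) := by
    refine h2.mono fun m => ?_
    rintro ⟨N, hN, hs, hfr⟩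
    refine ⟨N, hN, hs, hfr.mono fun nf => ?_⟩
    rintro ⟨Lw, hr, hnf, D, Kw, r, qw, ll, xp, hP⟩
    exact ⟨Lw, hr, hk _ hk0 hk01 N (XC μ M nf) D _ lam E _ C1 c1 m Kw r qw ll xp hnf hP⟩
  exact (tendsto_add_atTop_nat 1).frequently h3

end Pool.Agent.AND
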