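import Pool.Agent.AND.Top2
import Pool.Agent.AND.Goals
import Pool.Agent.AND.StartV

/-! # AND / Top3: FROM THE TWO GOALS OF THE ANALYSIS TO CONTINUOUS SPECTRUM

`LawI` = what is needed of the law at one precision; `main_of_goals` : `StepGoal`, `LeakGoal` `⟹` continuous spectrum almost surely. -/

set_option autoImplicit false

open Matrix Finset Filter Topology MeasureTheory

noncomputable section

namespace Pool.Agent.AND

open Pool.Agent.Kin Pool.Agent.APS Pool.Agent.ANM Pool.Agent.ANC Pool.Agent.ANB Pool.Agent.ANQ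
open Pool.Agent.Helper3.Anderson (GoodLaw)

variable {d : ℕ} {CM : ℝ}

/-- WHAT IS NEEDED OF THE LAW at one precision, coupling `lam`, up to the level `n1` -/
structure LawI (LP : LawP) (x : Ex d CM) (c : Cst) (q : Csts) (Cph cph : ℝ) {X : Type}
    [Fintype X] (Lw : Law X) (Sf : SiteF X) (lam : ℝ) (n1 : ℕ) : Prop where
  lp : LP X Lw Sf lam n1
  phi : ∀ K n a b, Lw.q n a = Lw.q n b → Sf.phi K n a = Sf.phi K n b
  om : ∀ n a b, Lw.q n a = Lw.q n b → Sf.om n a = Sf.om n b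
  S : Sf.Pos
  cl : c.cl ≤ 4 * cL Lw
  nf : 8 * Lw.D ≤ Lw.ep * 2 ^ Lw.nf
  st : ∀ a, ∀ K ∈ Sf.Ks 0, Sf.phi K 0 a ≤ Cph * Sf.s K ∧ cph ≤ Sf.om 0 a
  th0 : 16 * ((3 : ℝ) ^ d) ^ 4 * Lw.th 0 ≤ 1
  sf : ∀ (N : ℕ) [NeZero N] (E es : ℝ) (g0 : ℂ) (gam Lm : ℝ),
    SfB (datC x c q N Lw Sf lam E ((lam * (2 * Lw.S)) ^ 2) es g0 gam Lm) n1 q.th ∨
    SfA (datC x c q N Lw Sf lam E ((lam * (2 * Lw.S)) ^ 2) es g0 gam Lm) n1 q.th

/-- almost every energy avoids all eigenvalues -/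
theorem ae_avoid (d : ℕ) {X : ℕ → Type} [∀ nf, Finite (X nf)] (V : ∀ nf, X nf → ℝ) :
    ∀ᵐ E : ℝ, ∀ (N : ℕ) [NeZero N] (nf : ℕ), ANI.Avoid (H0T d N) (V nf) E := by
  have h1 : ∀ᵐ E : ℝ, ∀ (N nf : ℕ), ANI.Avoid (H0T d (N + 1)) (V nf) E := by
    rw [ae_all_iff]
    intro N
    rw [ae_all_iff]
    intro nf
    exact (ANI.avoid_cofinite (H0T d (N + 1)) (V nf)).measure_zero volume
  filter_upwards [h1] with E hE N hN nf
  obtain ⟨n, rfl⟩ : ∃ n, N = n + 1 := ⟨N - 1, by have := NeZero.pos N; omega⟩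
  exact hE n nf

/-- CONTINUOUS SPECTRUM FROM THE TWO GOALS -/
theorem main_of_goals (hd : 3 ≤ d) {μ : Measure ℝ} [IsProbabilityMeasure μ] {M : ℝ}
    {K : NNReal} (hμ : GoodLaw μ M K) {S : ℝ} (hS0 : 0 < S) {LP : LawP} (x : Ex d CM) {c : Cst} {q : Csts}
    {Cp : ℝ} (hq : q.Ok c) (hS : StartC x c q.c1 q.C1 q.C) (hCp : 0 ≤ Cp)
    (hstep : StepGoal LP x c q Cp x.Kp) (hleak : LeakGoal LP x c q x.K1)
    {a b δ : ℝ} (ha : δ ≤ a) (hδ : 0 < δ) (hab : a < b) (hb : b ≤ 4 * d - δ)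
    (hstart : ∀ᶠ k0 in 𝓝[>] (0 : ℝ), ∀ (L : ℕ) [NeZero L] (X : Type) [Fintype X] (Lw : Law X)
        (lam E es : ℝ) (a0 : X), 0 ≤ lam → kn Lw lam 0 = k0 → c.cl ≤ 4 * cL Lw →
        8 * Lw.D ≤ Lw.ep * 2 ^ Lw.nf → δ ≤ E → E ≤ 4 * d - δ →
        0 < es → es ≤ k0 ^ 2 → k0 ^ (-6 : ℝ) ≤ L → 1 / es ≤ L →
        ∃ g0 ζ : ℂ, StartL d L E es k0 ((sysOf Lw lam E es).hh 0 a0)
          ((sysOf Lw lam E es).kk 0 a0) x.e q.c1 q.C1 q.C q.C' c.cl g0 ζ)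
    (Cph : ℝ) {cph : ℝ} (hcph : 0 < cph)
    (hlaw : ∀ lam : ℝ, 0 < lam → ∀ n1 : ℕ, ∃ᶠ nf in atTop, ∃ Lw : Law (XC μ M nf),
      IsReal S Lw ∧ n1 ≤ Lw.nf ∧ ∃ Sf : SiteF (XC μ M nf), LawI LP x c q Cph cph Lw Sf lam n1) :
    ∃ lam0 : ℝ, 0 < lam0 ∧ ∀ lam : ℝ, 0 < lam → lam ≤ lam0 →
      ∀ᵐ ω ∂(Helper3.Anderson.siteLaw d μ), PureCont (fun x => lam * ω x) a b := by
  classical
  have hd0 : 0 < d := by omega
  have hC1 : 0 < q.C1 := lt_of_lt_of_le one_pos hq.C1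
  have hC : 0 < q.C := lt_of_lt_of_le one_pos hq.C
  have hcl := hq.pos.cl
  have hcg : 0 < q.cg c := by
    unfold Csts.cg
    have := hq.c1
    positivity
  have hKp : 5 * x.K1 * x.al < x.Kp := by
    have h1 := x.Kp_eq
    have h2 := x.K1_pos
    have h3 : (0 : ℝ) < x.al := by
      have := x.al2
      exact_mod_cast (by omega : 0 < x.al)
    have h4 : (0 : ℝ) < d := by exact_mod_cast hd0
    rw [h1]
    nlinarith [mul_pos h3 h2, mul_pos h4 h3]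
  have hR : 5 * x.K1 + ((2 * d * x.J : ℕ) : ℝ) < x.K1 * x.J / x.al := by
    have := x.R1'
    push_cast
    exact this
  obtain ⟨lam1, hl1, H1⟩ := contSpec_of_parts (J := x.J) (v2 := x.v2) (K1 := x.K1) (Kp := x.Kp)
    (Cp := Cp) hd0 hμ hS0 x.al2 x.J1 x.v2_pos.le x.v2_le x.R4 hCp hKp hR (a := a) (b := b) hab
    (by linarith) (by linarith)
  have hev := (((parts_goal hq x.K1_pos.le hstep hleak).and
    (ev_inH x hq.pos hq.c1 hq.C1 hC hcg hd0 hq.cs hq.th hq.th1)).and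
    ((ev_datH x hq.pos hS q.C' Cph hcph).and
    (ev_pick x.al2 x.th_pos (by have := x.A2'; linarith) q.Cc))).and ((hstart.and
    (perc_num d x.al2 x.K1_pos.le hq.w hq.w1)).and
    (ev_small (show (0 : ℝ) < 1 / 2 by norm_num)))
  obtain ⟨k1, hk1, -, hk⟩ := ev_iff.1 hev
  refine ⟨min lam1 (Real.sqrt k1 / (2 * S)), lt_min hl1 (by positivity), ?_⟩
  intro lam hlam hlam1
  have hk0 : 0 < (lam * (2 * S)) ^ 2 := by positivity
  have hk01 : (lam * (2 * S)) ^ 2 ≤ k1 := by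
    have h2 : lam * (2 * S) ≤ Real.sqrt k1 := by
      have := hlam1.trans (min_le_right _ _)
      rwa [le_div_iff₀ (by positivity)] at this
    calc (lam * (2 * S)) ^ 2 ≤ (Real.sqrt k1) ^ 2 := pow_le_pow_left₀ (by positivity) h2 2
      _ = k1 := Real.sq_sqrt hk1.le
  refine H1 lam hlam (hlam1.trans (min_le_left _ _)) (2 * q.C1) (q.c1 / 2) (by linarith)
    (by have := hq.c1; positivity) ?_
  obtain ⟨⟨⟨hparts, hinh⟩, hdat, hpick⟩, ⟨hst, hr1, hr2, -⟩, hk2⟩ := hk _ hk0 hk01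
  have hk3 : (lam * (2 * S)) ^ 2 < 1 := by linarith [hk2.2]
  filter_upwards [ae_avoid d (fun nf (a : XC μ M nf) => lam * xV a)] with E hav hE
  set k0 : ℝ := (lam * (2 * S)) ^ 2 with hk0def
  unfold Built
  refine Eventually.frequently (hpick.mono fun m hm => ?_)
  have hth : thE d = x.th := by rw [x.th_eq]; rfl
  have hN : NeZero (side k0 x.al (m + 1)) := ⟨(side_pos _ _ _).ne'⟩
  refine ⟨side k0 x.al (m + 1), hN, le_rfl, ?_⟩
  refine (hlaw lam hlam (lv k0 x.al (m + 1))).mono fun nf hnf => ?_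
  obtain ⟨Lw, hreal, hnf, Sf, hL⟩ := hnf
  refine ⟨Lw, hreal, hnf, ?_⟩
  have hkS : k0 = (lam * (2 * Lw.S)) ^ 2 := by rw [hreal.hS]
  have hkn : kn Lw lam 0 = k0 := by
    show (lam * (2 * Lw.S / 2 ^ 0)) ^ 2 = _
    rw [pow_zero, div_one, hreal.hS]
  obtain ⟨a0⟩ : Nonempty (XC μ M nf) := by
    by_contra h
    rw [not_nonempty_iff] at h
    have := Lw.p1
    simp at this
  rw [hth]
  set es : ℝ := ks k0 x.al (m + 1) ^ x.th with hes
  obtain ⟨g0, ζ, hSt⟩ := hst (side k0 x.al (m + 1)) (XC μ M nf) Lw lam E es a0 hlam.le hkn hL.cl hL.nf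
    (by linarith [hE.1]) (by linarith [hE.2]) hm.es0 hm.es2 hm.N6 hm.Ne
  have hD := hdat (side k0 x.al (m + 1)) (XC μ M nf) Lw Sf lam E es g0 ζ (LmS q.C' (q.cg c) k0)
    (rj k0 x.al q.w) (m + 1) a0 hkS hm.es0 hm.esk hnf (fun j hj => hm.dvd j hj.le) hL.phi hL.om hL.S
    hr1 hr2 hL.cl hL.nf (hL.st a0) hSt le_rfl
  have hI := hinh (side k0 x.al (m + 1)) (XC μ M nf) Lw Sf lam E es g0 ζ.im (LmS q.C' (q.cg c) k0)
    (rj k0 x.al q.w) (m + 1) hD (by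
      have h := hL.sf (side k0 x.al (m + 1)) E es g0 ζ.im (LmS q.C' (q.cg c) k0)
      rwa [← hkS] at h)
  have hctx : Ctx LP x c q k0 (side k0 x.al (m + 1)) Lw Sf lam E es g0 ζ.im
      (LmS q.C' (q.cg c) k0) m :=
    { hlam := hlam
      hk0 := hk0
      ok := hq
      law := hL.lp
      dat := hD
      inh := hI
      pick := hm
      avoid := by
        have h := hav (side k0 x.al (m + 1)) nf
        rwa [← hreal.hV] at h
      ghi := hSt.ghi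
      hLm := rfl }
  obtain ⟨ll, hP⟩ := hparts (side k0 x.al (m + 1)) (XC μ M nf) Lw Sf lam E es g0 ζ.im _ m hctx
    hL.th0
  exact ⟨_, _, _, _, _, _, hP⟩

end Pool.Agent.AND
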