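import Pool.Agent.AND.SupT
import Pool.Agent.AND.Use
import Pool.Agent.AND.UseH3
import Pool.Agent.ANM.GeoGen

/-! # AND UseSup (U1)(ii): the (weighted) sup norm bound for every good medium.

* `exists_wfam`: weights `μ φ^(x0)` from helper31's geometry (`CP td D a c`, pieces `D k` containing all read and inert sites).
* `Good.tb`: a good medium satisfies `TB` (AND/SupT.lean) with `m = ι`, `al = 0`, `ε = rho/2`, so `TB.supT`, `TB.l1T`, `TB.supB`
  apply with `Π = 4 l C1/c1`.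
-/

open Matrix Finset

noncomputable section

namespace Pool.Agent.AND

open Pool.Agent.Kin Pool.Agent.APS Pool.Agent.ANL Pool.Agent.ANM

variable {d L : ℕ} [NeZero L]

/-- the weights of a medium from the geometry -/
theorem exists_wfam {κ : Type*} {D : κ → Set (Tor d L)} {a c : ℕ}
    (h : CP (td : Tor d L → Tor d L → ℕ) D a c) {b : Tor d L → ℂ} {X : Finset (Tor d L)}
    {μ ηm : ℝ} (hμ : 0 < μ) (hμ1 : μ ≤ 1) (h0 : ∀ x, 0 ≤ -(b x).im)
    (hη : ∀ x, (∀ k, x ∉ D k) → ηm ≤ -(b x).im) (hη' : 8 * d * μ ≤ ηm)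
    (hX : ∀ x, x ∉ X → ∃ k, x ∈ D k) :
    ∃ φ : Tor d L → Tor d L → ℕ,
      WFam (H0T d L) b X (fun x y => μ * φ x y) (a / (2 * μ)) c d ∧
      (∀ x0 x y, td x y ≤ 1 → φ x0 x ≤ φ x0 y + 1) ∧
      (∀ x0 k x y, Near td (D k) x → Near td (D k) y → φ x0 x = φ x0 y) ∧
      (∀ x0 x y, td x y ≤ 1 → (∃ k, x ∈ D k ∨ y ∈ D k) → φ x0 x = φ x0 y) ∧
      ∀ x y, td x y ≤ a * φ x y + c := by
  have h1 := fun x0 : Tor d L => phi_cp td_met h td_geo td_sep {x0} ⟨x0, rfl⟩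
  choose φ p1 p2 p3 p4 p5 using h1
  have p5' : ∀ x y, td x y ≤ a * φ x y + c := by
    intro x y
    obtain ⟨z, hz, hzy⟩ := p5 x y
    rw [Set.mem_singleton_iff] at hz
    rwa [hz] at hzy
  refine ⟨φ, ⟨?_, ?_, ?_, ?_⟩, p2, p3, p4, p5'⟩
  · intro x
    rw [p1 x x rfl, Nat.cast_zero, mul_zero]
  · intro x0
    refine admW_torus (F := {x | ∃ k, x ∈ D k}) hμ.le hμ1 (p2 x0) ?_ h0 ?_ hη'
    · rintro x ⟨k, hk⟩ y hxy
      exact p4 x0 x y hxy ⟨k, Or.inl hk⟩
    · intro x hx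
      exact hη x fun k hk => hx ⟨k, hk⟩
  · intro x0 x y hxy hH
    have h2 := H0T_near hH
    have h3 : ∃ k, x ∈ D k ∨ y ∈ D k := by
      rcases hxy with hx | hy
      · obtain ⟨k, hk⟩ := hX x hx
        exact ⟨k, Or.inl hk⟩
      · obtain ⟨k, hk⟩ := hX y hy
        exact ⟨k, Or.inr hk⟩
    rw [p4 x0 x y h2 h3]
  · intro x r hr
    have e1 : (univ.filter fun y => μ * (φ x y : ℝ) ≤ r).card ≤ (2 * (a * ⌊r / μ⌋₊ + c) + 1) ^ d := by
      refine le_trans (Finset.card_le_card ?_) (card_ball x (a * ⌊r / μ⌋₊ + c))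
      intro y hy
      rw [Finset.mem_filter] at hy ⊢
      refine ⟨Finset.mem_univ _, (p5' x y).trans ?_⟩
      have h2 : φ x y ≤ ⌊r / μ⌋₊ := by
        refine Nat.le_floor ?_
        rw [le_div_iff₀ hμ]
        linarith [hy.2]
      exact Nat.add_le_add_right (Nat.mul_le_mul_left a h2) c
    have e2 : ((univ.filter fun y => μ * (φ x y : ℝ) ≤ r).card : ℝ) ≤
        ((2 * (a * ⌊r / μ⌋₊ + c) + 1 : ℕ) : ℝ) ^ d := by exact_mod_cast e1
    refine e2.trans (pow_le_pow_left₀ (by positivity) ?_ d)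
    push_cast
    have e3 := Nat.floor_le (div_nonneg hr hμ.le)
    have e4 : (a : ℝ) * ⌊r / μ⌋₊ ≤ a * (r / μ) := mul_le_mul_of_nonneg_left e3 (Nat.cast_nonneg a)
    have e5 : 2 * (r * ((a : ℝ) / (2 * μ))) = a * (r / μ) := by
      field_simp
    rw [e5]
    linarith

variable {f : Fix} {t : Tol d L} {M : Med (Tor d L)} {u : UTol}

/-- THE SUP NORM BOUND FOR A GOOD MEDIUM: all hypotheses of `TB` -/
theorem Good.tb (hg : Good f t M) (hi : t.In f M u) (hN : Num f t u)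
    (hB : IsUnit (ANI.MBB (H0T d L) M.b M.nr).det) (hk : t.k ≤ 1) (hρ : u.rho ≤ 2)
    {φ : Tor d L → Tor d L → ℝ} {K Mv c : ℝ} {l : ℕ}
    (hφ : WFam (H0T d L) M.b M.nr φ Mv c d)
    (hn : SBN d (u.rho / 2) f.c1 f.C1 f.C1 (u.Lam ^ 2) K Mv c l) :
    TB (H0T d L) M.b M.nr M.k (fun x => (rsc (H0T d L) M.b x x).im) φ 0 (u.rho / 2) f.c1 f.C1
      f.C1 (u.Lam ^ 2) K Mv c d l where
  adm := hg.admN hi hN
  neg := fun x hx => hg.im_neg hi hN (mem_nr.1 hx)
  zero := fun x hx => hg.im_zero' hx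
  mbb := hB
  k0 := hg.k_nonneg hN
  k1 := fun x => (hg.k_le hN x).trans hk
  mlo := fun x hx => hg.io_ge hi hN (mem_nr.1 hx)
  mup := fun x hx => hg.io_le hi hN (mem_nr.1 hx)
  abs := fun x hx => hg.kio_le hi hN (mem_nr.1 hx)
  imd := fun x _ => by rw [add_zero, one_mul]
  dia := fun x hx => hg.gam_le hi hN (mem_nr.1 hx)
  ent := fun x hx y hy => pow_le_pow_left₀ (norm_nonneg _)
    (hg.ent_Lam hi (mem_nr.1 hx) (mem_nr.1 hy)) 2
  H3 := by
    intro x hx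
    have h1 := hg.reSq hi hN.eta.le hN.kl.le hN.st (fun x _ => by
      have e1 := hi.del x
      have e2 := hN.g0
      have e3 := hN.c1
      linarith) hρ x (mem_nr.1 hx)
    refine le_trans ?_ h1
    refine Finset.sum_le_sum_of_subset_of_nonneg (Finset.subset_univ _) fun y _ hy => ?_
    have h2 : M.k y = 0 := hg.k0 y fun hA => hy (hg.A_sub_nr hA)
    rw [h2, zero_mul, zero_mul]
  wf := hφ
  al0 := le_rfl
  al1 := by simp
  al2 := by
    rw [mul_zero]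
    exact sq_nonneg _
  num := hn

end Pool.Agent.AND
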