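import Pool.Agent.ANE.Final

/-! # AND / Wrap: from the law of the configuration to independent random variables on any probability space -/

open MeasureTheory Set Filter Topology ProbabilityTheory

noncomputable section

namespace Pool.Agent.AND

open Pool.Agent.Helper3.Anderson

theorem ae_iid {d : ℕ} {Ω : Type} [MeasurableSpace Ω] {P : Measure Ω} [IsProbabilityMeasure P]
    {μ : Measure ℝ} [IsProbabilityMeasure μ] {ω : (Fin d → ℤ) → Ω → ℝ} (hi : iIndepFun ω P)
    (hm : ∀ x, AEMeasurable (ω x) P) (hl : ∀ x, P.map (ω x) = μ)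
    {p : (Site d → ℝ) → Prop} (h : ∀ᵐ w ∂(siteLaw d μ), p w) :
    ∀ᵐ s ∂P, p (fun x => ω x s) := by
  have h1 : P.map (fun s x => ω x s) = siteLaw d μ := by
    rw [hi.map_fun_eq_infinitePi_map₀' hm]
    unfold siteLaw
    simp only [hl]
  rw [← h1] at h
  exact ae_of_ae_map (aemeasurable_pi_iff.2 hm) h

/-- a bounded density with compact support in the form of `GoodLaw` -/
theorem goodLaw_of_density {μ : Measure ℝ} {ρ : ℝ → ℝ} {K M : ℝ} (hK : ∀ t, ρ t ≤ K)
    (hM : ∀ t, M < |t| → ρ t = 0)
    (hμ : μ = (volume : Measure ℝ).withDensity (fun t => ENNReal.ofReal (ρ t))) :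
    GoodLaw μ (max 1 M) K.toNNReal where
  one_le := le_max_left _ _
  supp := by
    rw [hμ, withDensity_apply _ measurableSet_Icc.compl]
    rw [setLIntegral_congr_fun measurableSet_Icc.compl (g := fun _ => 0)]
    · simp
    · intro t ht
      have h1 : M < |t| := by
        by_contra hcon
        apply ht
        have h2 := abs_le.1 (not_lt.1 hcon)
        have h3 := le_max_right 1 M
        exact ⟨by linarith, by linarith⟩
      simp [hM t h1]
  dens := by
    rw [hμ]
    have h1 : (volume : Measure ℝ).withDensity (fun t => ENNReal.ofReal (ρ t)) ≤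
        (volume : Measure ℝ).withDensity (fun _ => ENNReal.ofReal K) :=
      withDensity_mono (Filter.Eventually.of_forall fun t => ENNReal.ofReal_le_ofReal (hK t))
    refine h1.trans (le_of_eq ?_)
    rw [withDensity_const]
    rfl

end Pool.Agent.AND
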